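import Pool.Agent.MP_20201c_gt.H91.KitC

/-! Cup powers and cycles. -/

open MeasureTheory Set Filter Topology
open scoped ENNReal

namespace Pool.Agent.MP_20201c_gt.H91

variable {X Y : Type} [TopologicalSpace X] [TopologicalSpace Y]

theorem cupS_of_ne (lam : C(Sm 2, Y) → ZMod 2) (p : ℕ) {s : Sx Y} (h : s.1 ≠ p + 1) :
    cupS lam p s = 0 := by
  obtain ⟨_ | n, f⟩ := s
  · rfl
  · exact if_neg fun e => h (by simp only [e])

theorem lamX_coe (lam : C(Sm 2, Y) → ZMod 2) (τ : C(Sm 2, Y)) : lamX lam τ = lam τ :=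
  dif_pos τ.continuous

theorem cupS_eq (lam : C(Sm 2, Y) → ZMod 2) (p : ℕ) (σ : C(Sm (p + 1), Y)) :
    cupS lam p ⟨p + 1, σ⟩ = cupPow lam p σ := by
  refine (if_pos rfl).trans (Finset.prod_congr rfl fun i _ => ?_)
  exact lamX_coe lam (σ.comp (edge p i))

namespace CupA

theorem tele (p : ℕ) (x : Fin (p + 2) → F2) :
    ∑ i : Fin (p + 2), ∏ j : Fin p,
      (x (i.succAbove j.castSucc) + x (i.succAbove j.succ)) = 0 := by
  induction p with
  | zero => simp; decide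
  | succ p ih =>
    have h := ih fun k => x k.succ
    rw [Fin.sum_univ_succ] at h
    rw [Fin.sum_univ_succ, Fin.sum_univ_succ]
    simp only [Fin.prod_univ_succ, Fin.castSucc_zero, Fin.succ_succAbove_zero,
      Fin.castSucc_succ, Fin.succ_succAbove_succ, Fin.zero_succAbove] at h ⊢
    rw [← Finset.mul_sum, ← add_eq_zero2.1 h]
    have h2 : (2 : F2) = 0 := by decide
    generalize (∏ j : Fin p, (x j.castSucc.succ.succ + x j.succ.succ.succ)) = G
    linear_combination (G * (x 0 + x (Fin.succ 0) + x (Fin.succ 0).succ)) * h2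

/-- The edge between two vertices. -/
noncomputable def eg {n : ℕ} (u v : Fin n) : C(Sm 2, Sm n) :=
  ⟨stdSimplex.map ![u, v], stdSimplex.continuous_map _⟩

theorem eg_add {lam : C(Sm 2, Y) → ZMod 2} (h : IsCocycle lam) {n : ℕ} (σ : C(Sm n, Y))
    (u v w : Fin n) : lam (σ.comp (eg v w)) = lam (σ.comp (eg u v)) + lam (σ.comp (eg u w)) := by
  have key : ∀ (i : Fin 3) (a b : Fin n), ![u, v, w] ∘ i.succAbove = ![a, b] →
      (σ.comp ⟨stdSimplex.map ![u, v, w], stdSimplex.continuous_map _⟩).comp (face 2 i) =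
        σ.comp (eg a b) := by
    intro i a b e
    ext z
    simp only [ContinuousMap.comp_apply, face, eg, ContinuousMap.coe_mk,
      stdSimplex.map_comp_apply, e]
  have h1 := h (σ.comp ⟨stdSimplex.map ![u, v, w], stdSimplex.continuous_map _⟩)
  rw [Fin.sum_univ_three, key 0 v w (by funext k; fin_cases k <;> rfl),
    key 1 u w (by funext k; fin_cases k <;> rfl), key 2 u v (by funext k; fin_cases k <;> rfl),
    add_assoc, add_eq_zero2] at h1
  rw [h1, add_comm]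

theorem face_edge (p : ℕ) (i : Fin (p + 2)) (j : Fin p) :
    fc (p + 1) i ∘ edge p j = eg (i.succAbove j.castSucc) (i.succAbove j.succ) := by
  funext z
  simp only [Function.comp_apply, fc, edge, eg, ContinuousMap.coe_mk, stdSimplex.map_comp_apply]
  congr 1
  funext k
  fin_cases k <;> rfl

theorem mem_iff {p : ℕ} {s : Sx X} (hs : s ∈ Cts X ∩ Deq X (p + 1)) :
    ∃ σ : C(Sm (p + 1), X), s = ⟨p + 1, σ⟩ := by
  obtain ⟨n, f⟩ := s
  obtain ⟨h1, h2⟩ := hs
  have h2 : n = p + 1 := h2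
  subst h2
  exact ⟨⟨f, h1⟩, rfl⟩

theorem cup_one (Φ : C(X, Y)) (lam : C(Sm 2, Y) → ZMod 2) (p : ℕ) (σ : C(Sm (p + 1), X)) :
    lift (cupS lam p) (mp Φ (one ⟨p + 1, σ⟩)) = cupPow lam p (Φ.comp σ) := by
  rw [mp_one, lift_one]
  exact cupS_eq lam p (Φ.comp σ)

theorem bd_one_eq (p : ℕ) (σ : C(Sm (p + 1), X)) :
    bd (one (⟨p + 1, σ⟩ : Sx X)) = ∑ i, one (⟨p, σ.comp (face p i)⟩ : Sx X) := by
  rw [bd_one]; rfl

end CupA

open CupA

theorem cup_bd {lam : C(Sm 2, Y) → ZMod 2} (h : IsCocycle lam) (p : ℕ) {c : Ch Y}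
    (hc : c ∈ Sp (Cts Y)) : lift (cupS lam p) (bd c) = 0 := by
  refine lin_congr ((lift (cupS lam p)).comp bd) 0 (fun s hs => ?_) hc
  obtain ⟨_ | m, f⟩ := s
  · simp [bdS]
  · simp only [LinearMap.comp_apply, bd_one, bdS, map_sum, lift_one, LinearMap.zero_apply]
    by_cases hm : m = p + 1
    · subst hm
      let σ : C(Sm (p + 2), Y) := ⟨f, hs⟩
      rw [← tele p fun k => lam (σ.comp (eg 0 k))]
      refine Finset.sum_congr rfl fun i _ => ?_
      refine (if_pos rfl).trans (Finset.prod_congr rfl fun j _ => ?_)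
      rw [← eg_add h σ 0, Function.comp_assoc, face_edge]
      exact lamX_coe lam (σ.comp (eg _ _))
    · exact Finset.sum_eq_zero fun i _ => cupS_of_ne lam p hm

theorem exists_cycle_of_not_cob (Φ : C(X, Y)) (lam : C(Sm 2, Y) → ZMod 2) (p : ℕ)
    (h : ¬ IsCob p fun σ : C(Sm (p + 1), X) => cupPow lam p (Φ.comp σ)) :
    ∃ w ∈ Sp (Cts X ∩ Deq X (p + 1)), bd w = 0 ∧ lift (cupS lam p) (mp Φ w) ≠ 0 := by
  by_contra hn
  push Not at hn
  apply h
  let V : Submodule F2 (Ch X) := Sp (Cts X ∩ Deq X (p + 1))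
  let D : V →ₗ[F2] Ch X := bd.comp V.subtype
  let L : Module.Dual F2 V := ((lift (cupS lam p)).comp (mp Φ)).comp V.subtype
  have hL : L ∈ (LinearMap.ker D).dualAnnihilator := by
    rw [Submodule.mem_dualAnnihilator]
    intro w hw
    exact hn w.1 w.2 hw
  rw [← LinearMap.range_dualMap_eq_dualAnnihilator_ker] at hL
  obtain ⟨g, hg⟩ := hL
  refine ⟨fun τ => g (one ⟨p, τ⟩), fun σ => ?_⟩
  have hσ : one (⟨p + 1, σ⟩ : Sx X) ∈ V := one_mem ⟨σ.continuous, rfl⟩
  have e : g (bd (one (⟨p + 1, σ⟩ : Sx X))) = lift (cupS lam p) (mp Φ (one ⟨p + 1, σ⟩)) :=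
    congrArg (fun l : Module.Dual F2 V => l ⟨_, hσ⟩) hg
  rw [cup_one, bd_one_eq, map_sum] at e
  exact e.symm

theorem not_cob_of_cycle (Φ : C(X, Y)) (lam : C(Sm 2, Y) → ZMod 2) (p : ℕ) {w : Ch X}
    (hw : w ∈ Sp (Cts X ∩ Deq X (p + 1))) (h0 : bd w = 0)
    (h : lift (cupS lam p) (mp Φ w) ≠ 0) :
    ¬ IsCob p fun σ : C(Sm (p + 1), X) => cupPow lam p (Φ.comp σ) := by
  rintro ⟨μ, hμ⟩
  apply h
  have hinj : Function.Injective fun τ : C(Sm p, X) => (⟨p, τ⟩ : Sx X) :=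
    fun τ τ' e => DFunLike.coe_injective (sigma_mk_injective (β := fun n => Sm n → X) e)
  let g : Sx X → F2 := Function.extend (fun τ : C(Sm p, X) => (⟨p, τ⟩ : Sx X)) μ 0
  have hg : ∀ τ : C(Sm p, X), g ⟨p, τ⟩ = μ τ := fun τ => hinj.extend_apply μ 0 τ
  have e := lin_congr ((lift (cupS lam p)).comp (mp Φ)) ((lift g).comp bd) (fun s hs => ?_) hw
  · simpa only [LinearMap.comp_apply, h0, map_zero] using e
  · obtain ⟨σ, rfl⟩ := mem_iff hs
    simp only [LinearMap.comp_apply]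
    rw [cup_one, bd_one_eq, map_sum]
    simp only [lift_one, hg]
    exact hμ σ

end Pool.Agent.MP_20201c_gt.H91
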