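import Pool.Agent.MP_20201c_gt.H91.Prism

/-! Small balls of the cycle space are acyclic; comparison of close chain maps. -/

open MeasureTheory Set Filter Topology
open scoped ENNReal

namespace Pool.Agent.MP_20201c_gt.H91

/-- Continuous simplices in a ball. -/
def BallS {Y : Type} [PseudoEMetricSpace Y] (z₀ : Y) (d : ℝ≥0∞) : Set (Sx Y) :=
  {s | Continuous s.2 ∧ ∀ x, edist (s.2 x) z₀ < d}

theorem zb_edist_mk {Ω : Set ℂ} (E F : Ch2 Ω) :
    edist (SeparationQuotient.mk E : Cyc Ω) (SeparationQuotient.mk F) = fdist Ω E.1 F.1 :=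
  SeparationQuotient.edist_mk E F

theorem zb_edist_le {Ω : Set ℂ} (E F : Ch2 Ω) :
    edist (SeparationQuotient.mk E : Cyc Ω) (SeparationQuotient.mk F) ≤
      volume (symmDiff E.1 F.1 ∩ Ω) := by
  rw [zb_edist_mk]; exact min_le_left _ _

theorem zb_mk_eq {Ω : Set ℂ} (E F : Ch2 Ω) (h : symmDiff E.1 F.1 ∩ Ω = ∅) :
    (SeparationQuotient.mk E : Cyc Ω) = SeparationQuotient.mk F := by
  have h1 := zb_edist_le E F
  rw [h, measure_empty] at h1
  exact edist_eq_zero.1 (le_antisymm h1 (zero_le))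

theorem zb_rep {Ω : Set ℂ} (E₀ : Ch2 Ω) {d : ℝ≥0∞} (z : Cyc Ω)
    (hz : edist z (SeparationQuotient.mk E₀) < d) :
    ∃ E : Ch2 Ω, SeparationQuotient.mk E = z ∧ volume (symmDiff E.1 E₀.1 ∩ Ω) < d := by
  obtain ⟨F, rfl⟩ := SeparationQuotient.surjective_mk z
  rw [zb_edist_mk, fdist, min_lt_iff] at hz
  rcases hz with h | h
  · exact ⟨F, rfl, h⟩
  · refine ⟨⟨F.1ᶜ, F.2.compl⟩, ?_, ?_⟩
    · refine edist_eq_zero.1 (le_antisymm ?_ (zero_le))
      rw [zb_edist_mk, fdist]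
      refine le_trans (min_le_right _ _) ?_
      simp
    · have : symmDiff F.1ᶜ E₀.1 = symmDiff F.1 E₀.1ᶜ := by
        ext x; simp only [mem_symmDiff, mem_compl_iff]; tauto
      show volume (symmDiff F.1ᶜ E₀.1 ∩ Ω) < d
      rw [this]; exact h

theorem zb_vol_le {Ω : Set ℂ} (A B C : Set ℂ) (h : A ⊆ B ∪ C) :
    volume (A ∩ Ω) ≤ volume (B ∩ Ω) + volume (C ∩ Ω) := by
  refine le_trans (measure_mono ?_) (measure_union_le _ _)
  rintro x ⟨hx, hΩ⟩
  rcases h hx with h | h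
  · exact Or.inl ⟨h, hΩ⟩
  · exact Or.inr ⟨h, hΩ⟩

theorem zb_edist_eq {Ω : Set ℂ} (E₀ E F : Ch2 Ω) {d : ℝ≥0∞} (hd : 4 * d ≤ volume Ω)
    (hE : volume (symmDiff E.1 E₀.1 ∩ Ω) < d) (hF : volume (symmDiff F.1 E₀.1 ∩ Ω) < d) :
    volume (symmDiff E.1 F.1 ∩ Ω) ≤
      edist (SeparationQuotient.mk E : Cyc Ω) (SeparationQuotient.mk F) := by
  rw [zb_edist_mk, fdist]
  refine le_min le_rfl ?_
  have ha : volume (symmDiff E.1 F.1 ∩ Ω) < d + d := by
    refine lt_of_le_of_lt (zb_vol_le _ _ _ ?_) (ENNReal.add_lt_add hE hF)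
    intro x; simp only [mem_symmDiff, mem_union]; tauto
  have hab : volume Ω ≤ volume (symmDiff E.1 F.1 ∩ Ω) + volume (symmDiff E.1 F.1ᶜ ∩ Ω) := by
    have := zb_vol_le (Ω := Ω) univ (symmDiff E.1 F.1) (symmDiff E.1 F.1ᶜ) (by
      intro x; simp only [mem_symmDiff, mem_union, mem_compl_iff]; tauto)
    rwa [univ_inter] at this
  by_contra hlt
  rw [not_le] at hlt
  have h4 : 4 * d = (d + d) + (d + d) := by ring
  have := ENNReal.add_lt_add ha (hlt.trans ha)
  rw [← h4] at this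
  exact absurd (hd.trans hab) (not_le.2 this)

/-- The set equal to `F` to the right of the line `re = c` and to `E₀` to the left. -/
def zbMix {Ω : Set ℂ} (E₀ F : Ch2 Ω) (c : ℝ) : Ch2 Ω :=
  ⟨(F.1 ∩ {w | c < w.re}) ∪ (E₀.1 ∩ {w | w.re ≤ c}),
    (F.2.inter (measurableSet_lt measurable_const Complex.measurable_re)).union
      (E₀.2.inter (measurableSet_le Complex.measurable_re measurable_const))⟩

theorem zb_mem_mix {Ω : Set ℂ} (E₀ F : Ch2 Ω) (c : ℝ) (w : ℂ) :
    w ∈ (zbMix E₀ F c).1 ↔ (w ∈ F.1 ∧ c < w.re) ∨ (w ∈ E₀.1 ∧ w.re ≤ c) := Iff.rfl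

theorem zb_strip {Ω : Set ℂ} {R : ℝ} (hR : ∀ w ∈ Ω, |w.im| ≤ R) (c η : ℝ) :
    volume ({w : ℂ | |w.re - c| ≤ η} ∩ Ω) ≤ ENNReal.ofReal (2 * η) * ENNReal.ofReal (2 * R) := by
  have hsub : {w : ℂ | |w.re - c| ≤ η} ∩ Ω ⊆
      Complex.measurableEquivRealProd ⁻¹' (Icc (c - η) (c + η) ×ˢ Icc (-R) R) := by
    rintro w ⟨h1, h2⟩
    have h3 := abs_le.1 (hR w h2)
    have h4 := abs_le.1 (show |w.re - c| ≤ η from h1)
    simp only [mem_preimage, Complex.measurableEquivRealProd_apply, mem_prod, mem_Icc]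
    exact ⟨⟨by linarith [h4.1], by linarith [h4.2]⟩, h3⟩
  refine le_trans (measure_mono hsub) (le_of_eq ?_)
  rw [Complex.volume_preserving_equiv_real_prod.measure_preimage
    (measurableSet_Icc.prod measurableSet_Icc).nullMeasurableSet,
    Measure.volume_eq_prod, Measure.prod_prod, Real.volume_Icc, Real.volume_Icc]
  congr 2 <;> ring

theorem zb_mix_le {Ω : Set ℂ} {R : ℝ} (hR : ∀ w ∈ Ω, |w.im| ≤ R) (E₀ F F' : Ch2 Ω) (c c' : ℝ) :
    edist (SeparationQuotient.mk (zbMix E₀ F c) : Cyc Ω) (SeparationQuotient.mk (zbMix E₀ F' c')) ≤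
      volume (symmDiff F.1 F'.1 ∩ Ω) +
        ENNReal.ofReal (2 * |c - c'|) * ENNReal.ofReal (2 * R) := by
  refine le_trans (zb_edist_le _ _) (le_trans (zb_vol_le _ (symmDiff F.1 F'.1)
    {w : ℂ | |w.re - c'| ≤ |c - c'|} ?_) (add_le_add le_rfl (zb_strip hR c' _)))
  intro w hw
  by_cases hs : |w.re - c'| ≤ |c - c'|
  · exact Or.inr hs
  · left
    rw [not_le] at hs
    have h1 := le_abs_self (c - c')
    have h2 := neg_abs_le (c - c')
    simp only [mem_symmDiff, zb_mem_mix] at hw ⊢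
    rcases lt_abs.1 hs with h | h
    · have ha : c < w.re := by linarith
      have hb : c' < w.re := by linarith [abs_nonneg (c - c')]
      have ha' : ¬ w.re ≤ c := not_le.2 ha
      have hb' : ¬ w.re ≤ c' := not_le.2 hb
      tauto
    · have ha : w.re ≤ c := by linarith
      have hb : w.re ≤ c' := by linarith [abs_nonneg (c - c')]
      have ha' : ¬ c < w.re := not_lt.2 ha
      have hb' : ¬ c' < w.re := not_lt.2 hb
      tauto

theorem zball {Ω : Set ℂ} (hm : MeasurableSet Ω) (hb : Bornology.IsBounded Ω) (z₀ : Cyc Ω)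
    {d : ℝ≥0∞} (h0 : 0 < d) (hd : 4 * d ≤ volume Ω) : Bnd (BallS z₀ d) (BallS z₀ d) := by
  classical
  have _hm := hm
  obtain ⟨E₀, rfl⟩ := SeparationQuotient.surjective_mk z₀
  obtain ⟨R, hR⟩ := hb.subset_ball (0 : ℂ)
  have hnorm : ∀ w ∈ Ω, ‖w‖ < R := fun w hw => by simpa using hR hw
  have him : ∀ w ∈ Ω, |w.im| ≤ R := fun w hw =>
    (Complex.abs_im_le_norm w).trans (hnorm w hw).le
  have hre : ∀ w ∈ Ω, |w.re| < R := fun w hw =>
    (Complex.abs_re_le_norm w).trans_lt (hnorm w hw)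
  have hE : ∀ z : Cyc Ω, ∃ E : Ch2 Ω, edist z (SeparationQuotient.mk E₀) < d →
      SeparationQuotient.mk E = z ∧ volume (symmDiff E.1 E₀.1 ∩ Ω) < d := by
    intro z
    by_cases hz : edist z (SeparationQuotient.mk E₀) < d
    · obtain ⟨E, h⟩ := zb_rep E₀ z hz
      exact ⟨E, fun _ => h⟩
    · exact ⟨E₀, fun h => absurd h hz⟩
  choose E hE using hE
  refine bnd_of_contraction
    (fun τ z => SeparationQuotient.mk (zbMix E₀ (E z) (-R + 2 * R * τ)))
    (SeparationQuotient.mk E₀) ?_ ?_ ?_ ?_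
  · rintro s ⟨hs1, hs2⟩ k π τ hπ hτ -
    refine ⟨?_, fun x => ?_⟩
    · show Continuous fun x => (SeparationQuotient.mk
        (zbMix E₀ (E (s.2 (π x))) (-R + 2 * R * τ x)) : Cyc Ω)
      rw [continuous_iff_continuousAt]
      intro x₀
      rw [ContinuousAt, tendsto_iff_edist_tendsto_0]
      have hg : Continuous fun x => edist (s.2 (π x)) (s.2 (π x₀)) +
          ENNReal.ofReal (2 * |(-R + 2 * R * τ x) - (-R + 2 * R * τ x₀)|) *
            ENNReal.ofReal (2 * R) := by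
        refine Continuous.add ((hs1.comp hπ).edist continuous_const) ?_
        refine ENNReal.continuous_mul_const ENNReal.ofReal_ne_top |>.comp ?_
        exact ENNReal.continuous_ofReal.comp (by fun_prop)
      have hlim := hg.tendsto x₀
      simp only [edist_self, sub_self, abs_zero, mul_zero, ENNReal.ofReal_zero, zero_mul,
        add_zero] at hlim
      refine tendsto_of_tendsto_of_tendsto_of_le_of_le tendsto_const_nhds hlim
        (fun _ => zero_le) (fun x => ?_)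
      refine le_trans (zb_mix_le him E₀ _ _ _ _) (add_le_add ?_ le_rfl)
      have h1 := hE _ (hs2 (π x))
      have h2 := hE _ (hs2 (π x₀))
      have h3 := zb_edist_eq E₀ _ _ hd h1.2 h2.2
      rwa [h1.1, h2.1] at h3
    · refine lt_of_le_of_lt (le_trans (zb_edist_le _ _) (measure_mono ?_)) (hE _ (hs2 (π x))).2
      refine inter_subset_inter_left _ fun w hw => ?_
      simp only [mem_symmDiff, zb_mem_mix] at hw ⊢
      rcases lt_or_ge (-R + 2 * R * τ x) w.re with h | h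
      · have h' := not_le.2 h
        tauto
      · have h' := not_lt.2 h
        tauto
  · rintro s ⟨-, hs2⟩ x
    refine Eq.trans (zb_mk_eq _ (E (s.2 x)) ?_) (hE _ (hs2 x)).1
    refine eq_empty_of_forall_notMem fun w hw => ?_
    have h1 := abs_lt.1 (hre w hw.2)
    have h : -R + 2 * R * 0 < w.re := by linarith [h1.1]
    have h' := not_le.2 h
    have hw1 := hw.1
    simp only [mem_symmDiff, zb_mem_mix] at hw1
    tauto
  · rintro s - x
    refine zb_mk_eq _ E₀ ?_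
    refine eq_empty_of_forall_notMem fun w hw => ?_
    have h1 := abs_lt.1 (hre w hw.2)
    have h : w.re ≤ -R + 2 * R * 1 := by linarith [h1.2]
    have h' := not_lt.2 h
    have hw1 := hw.1
    simp only [mem_symmDiff, zb_mem_mix] at hw1
    tauto
  · intro k
    exact ⟨continuous_const, fun _ => by simpa using h0⟩

theorem zb_lift_add {B C : Type} [AddCommGroup C] [Module F2 C] (f g : B → C) (c : B →₀ F2) :
    lift (fun b => f b + g b) c = lift f c + lift g c :=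
  lin_ext (lift fun b => f b + g b) (lift f + lift g) (fun b => by simp) c

theorem zb_lift_one {B : Type} (c : B →₀ F2) : lift (fun b => one b) c = c :=
  lin_ext (lift fun b => one b) LinearMap.id (fun b => by simp) c

theorem zb_lift_bd {Y C : Type} [AddCommGroup C] [Module F2 C] (f : Sx Y → C) (c : Ch Y) :
    lift (fun b => lift f (bdS b)) c = lift f (bd c) :=
  (lin_lift (lift f) bdS c).symm

theorem zb_bd_lift {Y : Type} {S : Set (Sx Y)} (Ψ f : Sx Y → Ch Y)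
    (h : ∀ b ∈ S, bd (f b) = one b + Ψ b + lift f (bdS b)) {c : Ch Y} (hc : c ∈ Sp S) :
    bd (lift f c) = c + lift Ψ c + lift f (bd c) := by
  rw [lin_lift, lift_congr _ _ h hc, zb_lift_add, zb_lift_add, zb_lift_one, zb_lift_bd]

theorem comp_hom {Y : Type} [PseudoEMetricSpace Y] {δ : ℝ≥0∞} (N : ℕ)
    (hball : ∀ (z₀ : Y) (d : ℝ≥0∞), 0 < d → d ≤ 2 * N * δ → Bnd (BallS z₀ d) (BallS z₀ d))
    {S : Set (Sx Y)} (hS : FaceCl S) (hc : S ⊆ Cts Y ∩ Dle Y N)
    (hd : ∀ s ∈ S, ∀ x x', edist (s.2 x) (s.2 x') < δ)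
    (Ψ : Sx Y → Ch Y) (hΨ : ∀ s ∈ S, bd (Ψ s) = lift Ψ (bdS s)) (hΨ0 : Ψ (emp Y) = one (emp Y))
    (hnear : ∀ s ∈ S, Ψ s ∈ Sp {s' : Sx Y | Continuous s'.2 ∧
      ∀ x' x, edist (s'.2 x') (s.2 x) < δ})
    {w : Ch Y} (hw : w ∈ Sp S) (h0 : bd w = 0) :
    ∃ h ∈ Sp (Cts Y), bd h = w + lift Ψ w := by
  have hdS : ∀ b ∈ S, bdS b ∈ Sp (S ∩ {b' : Sx Y | b'.1 < b.1}) := by
    intro b hb
    refine sp_inter.2 ⟨?_, sp_mono (fun s' hs' => ?_) (bdS_mem_lt b)⟩
    · have := bd_mem hS (one_mem hb)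
      rwa [bd_one] at this
    · simp only [mem_ofPred_eq] at *
      omega
  obtain ⟨f, hf⟩ := ac0 (C := Ch Y) (fun s : Sx Y => s.1) bdS S hdS
    (fun s c e => bd c = one s + Ψ s + e ∧ (s.1 = 0 → c = 0) ∧
      c ∈ Sp {s' : Sx Y | Continuous s'.2 ∧
        ∀ x' x, edist (s'.2 x') (s.2 x) < (2 * s.1 + 1) * δ}) (by
    rintro ⟨_ | n, g⟩ hb f ih
    · refine ⟨0, ?_, fun _ => rfl, Submodule.zero_mem _⟩
      rw [sx_zero, hΨ0, add_self2]
      simp [emp, bdS]
    · let v : Sm (n + 1) := stdSimplex.vertex 0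
      have hδ : 0 < δ := by simpa using hd _ hb v v
      have hle : δ ≤ 2 * ((n + 1 : ℕ) : ℝ≥0∞) * δ := by
        refine le_mul_of_one_le_left (zero_le) ?_
        have : ((1 : ℕ) : ℝ≥0∞) ≤ ((2 * (n + 1) : ℕ) : ℝ≥0∞) := Nat.cast_le.2 (by omega)
        simpa using this
      have hN : 2 * ((n + 1 : ℕ) : ℝ≥0∞) * δ ≤ 2 * N * δ := by
        have : n + 1 ≤ N := (hc hb).2
        gcongr
      have hz : one (⟨n + 1, g⟩ : Sx Y) + Ψ ⟨n + 1, g⟩ + lift f (bdS ⟨n + 1, g⟩) ∈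
          Sp (BallS (g v) (2 * ((n + 1 : ℕ) : ℝ≥0∞) * δ)) := by
        refine Submodule.add_mem _ (Submodule.add_mem _ (one_mem ⟨(hc hb).1, fun x => ?_⟩) ?_) ?_
        · exact lt_of_lt_of_le (hd _ hb x v) hle
        · refine sp_mono ?_ (hnear _ hb)
          exact fun s' hs' => ⟨hs'.1, fun x => lt_of_lt_of_le (hs'.2 x v) hle⟩
        · rw [bdS, map_sum]
          refine Submodule.sum_mem _ fun i _ => ?_
          rw [lift_one]
          obtain ⟨-, h2, h3⟩ := ih ⟨n, g ∘ fc n i⟩ (hS n g i hb) (Nat.lt_succ_self n)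
          rcases n with _ | n
          · rw [h2 rfl]; exact Submodule.zero_mem _
          · refine sp_mono ?_ h3
            refine fun s' hs' => ⟨hs'.1, fun x => ?_⟩
            have h4 := hs'.2 x (stdSimplex.vertex 0)
            have h5 := hd _ hb (fc (n + 1) i (stdSimplex.vertex 0)) v
            refine lt_of_le_of_lt (edist_triangle _ _ _)
              (lt_of_lt_of_eq (ENNReal.add_lt_add h4 h5) ?_)
            push_cast; ring
      have hz0 : bd (one (⟨n + 1, g⟩ : Sx Y) + Ψ ⟨n + 1, g⟩ + lift f (bdS ⟨n + 1, g⟩)) = 0 := by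
        rw [map_add, map_add, bd_one, hΨ _ hb,
          zb_bd_lift Ψ f (fun b hb' => (ih b hb'.1 hb'.2).1) (hdS _ hb), ← bd_one, bd_bd,
          map_zero, add_zero, add_self2]
      obtain ⟨c, hc1, hc2⟩ := hball (g v) _ (lt_of_lt_of_le hδ hle) hN _ hz hz0
      refine ⟨c, hc2, fun h => absurd h (Nat.succ_ne_zero n), sp_mono ?_ hc1⟩
      refine fun s' hs' => ⟨hs'.1, fun x' x => ?_⟩
      refine lt_of_le_of_lt (edist_triangle _ (g v) _)
        (lt_of_lt_of_eq (ENNReal.add_lt_add (hs'.2 x') (hd _ hb v x)) ?_)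
      ring)
  refine ⟨lift f w, lift_mem f _ (fun b hb => sp_mono (fun s' hs' => hs'.1) (hf b hb).2.2) hw, ?_⟩
  rw [zb_bd_lift Ψ f (fun b hb => (hf b hb).1) hw, h0, map_zero, add_zero]

end Pool.Agent.MP_20201c_gt.H91
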