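import Pool.Agent.MP_20201c_gt.H91.Conv_a

/-! The order complex of the cells of a coloured cycle. -/

open Set

namespace Pool.Agent.MP_20201c_gt.H91.Cv

abbrev Eu (N : ℕ) : Type := EuclideanSpace ℝ (Fin N)

noncomputable def ev {N : ℕ} (c : Fin N) : Eu N := EuclideanSpace.single c 1

theorem mem_hull {N : ℕ} (T : Set (Fin N)) (x : Eu N) :
    x ∈ convexHull ℝ (ev '' T) ↔ x.ofLp ∈ stdSimplex ℝ (Fin N) ∧ ∀ c, x c ≠ 0 → c ∈ T := by
  classical
  constructor
  · intro hx
    refine convexHull_min (t := {x : Eu N | x.ofLp ∈ stdSimplex ℝ (Fin N) ∧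
      ∀ c, x c ≠ 0 → c ∈ T}) ?_ ?_ hx
    · rintro _ ⟨c, hc, rfl⟩
      refine ⟨single_mem_stdSimplex ℝ c, fun d hd => ?_⟩
      by_contra h
      exact hd (by simp [ev, show d ≠ c from fun e => h (e ▸ hc)])
    · intro x hx y hy a b ha hb hab
      refine ⟨convex_stdSimplex ℝ _ hx.1 hy.1 ha hb hab, fun c hc => ?_⟩
      by_contra h
      have h1 : x c = 0 := by_contra fun e => h (hx.2 c e)
      have h2 : y c = 0 := by_contra fun e => h (hy.2 c e)
      exact hc (by simp [h1, h2])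
  · rintro ⟨h1, h2⟩
    have hx : x = ∑ c ∈ Finset.univ.filter (fun c => x c ≠ 0), x c • ev c := by
      rw [Finset.sum_filter_of_ne (f := fun c => x c • ev c) (p := fun c => x c ≠ 0)
        (fun c _ h e => h (by rw [e, zero_smul]))]
      ext d
      simp [ev, Pi.single_apply]
    rw [hx]
    refine (convex_convexHull ℝ _).sum_mem (fun c _ => h1.1 c) ?_ fun c hc =>
      subset_convexHull ℝ _ ⟨c, h2 c (Finset.mem_filter.1 hc).2, rfl⟩
    rw [Finset.sum_filter_of_ne (fun c _ h => h)]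
    exact h1.2

theorem exists_complex {N : ℕ} (G : Set (Fin N) → Prop) (hG : ∀ T T', T' ⊆ T → G T → G T') :
    ∃ K : Geometry.SimplicialComplex ℝ (Eu N), K.faces.Finite ∧
      ∀ x, x ∈ K.space ↔ x.ofLp ∈ stdSimplex ℝ (Fin N) ∧ G {c | x c ≠ 0} := by
  classical
  let A : PreAbstractSimplicialComplex (Eu N) :=
    ⟨{F | ∃ T : Finset (Fin N), T.Nonempty ∧ G T ∧ F = T.image ev}, by
      rintro _ ⟨T, h1, h2, rfl⟩
      refine ⟨h1.image _, fun F hF hne => ?_⟩
      obtain ⟨T', h3, rfl⟩ := Finset.subset_image_iff.1 hF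
      exact ⟨T', hne.of_image, hG _ _ (by exact_mod_cast h3) h2, rfl⟩⟩
  have hli : LinearIndependent ℝ (ev (N := N)) := by
    have h : ev = ⇑(EuclideanSpace.basisFun (Fin N) ℝ).toBasis := by
      funext c
      simp [ev]
    rw [h]
    exact (EuclideanSpace.basisFun (Fin N) ℝ).toBasis.linearIndependent
  refine ⟨Geometry.SimplicialComplex.ofAffineIndependent A
    (hli.affineIndependent.range.mono fun x hx => ?_), ?_, fun x => ?_⟩
  · simp only [mem_iUnion, Finset.mem_coe] at hx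
    obtain ⟨_, ⟨T, _, _, rfl⟩, hx⟩ := hx
    obtain ⟨c, _, rfl⟩ := Finset.mem_image.1 hx
    exact ⟨c, rfl⟩
  · refine (finite_range fun T : Finset (Fin N) => T.image ev).subset ?_
    rintro _ ⟨T, _, _, rfl⟩
    exact ⟨T, rfl⟩
  · rw [Geometry.SimplicialComplex.mem_space_iff]
    constructor
    · rintro ⟨_, ⟨T, _, h2, rfl⟩, hx⟩
      rw [Finset.coe_image, mem_hull] at hx
      exact ⟨hx.1, hG _ _ hx.2 h2⟩
    · rintro ⟨h1, h2⟩
      refine ⟨_, ⟨Finset.univ.filter (fun c => x c ≠ 0), ?_, by simpa using h2, rfl⟩, ?_⟩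
      · by_contra h
        have h3 : ∀ c, x c = 0 := by simpa [Finset.filter_eq_empty_iff] using h
        have h4 := h1.2
        simp [h3] at h4
      · rw [Finset.coe_image, mem_hull]
        exact ⟨h1, fun c hc => by simpa using hc⟩

theorem map_ne {k N : ℕ} (τ : Fin k → Fin N) (x : Sm k) {c : Fin N}
    (h : (stdSimplex.map τ x : Sm N).1 c ≠ 0) : ∃ a, x.1 a ≠ 0 ∧ τ a = c := by
  classical
  have h1 : (stdSimplex.map τ x : Sm N).1 c = ∑ a with τ a = c, x.1 a :=
    FunOnFinite.linearMap_apply_apply ℝ ℝ τ x.1 c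
  rw [h1] at h
  obtain ⟨a, h2, h3⟩ := Finset.exists_ne_zero_of_sum_ne_zero h
  exact ⟨a, h3, (Finset.mem_filter.1 h2).2⟩

theorem exists_fc {n : ℕ} (i : Fin (n + 1)) (y : Sm (n + 1)) (h : y.1 i = 0) :
    ∃ x, fc n i x = y := by
  classical
  have h2 := y.2.2
  rw [Fin.sum_univ_succAbove _ i, h, zero_add] at h2
  refine ⟨⟨fun a => y.1 (i.succAbove a), fun a => y.2.1 _, h2⟩, Subtype.ext (funext fun j => ?_)⟩
  refine (FunOnFinite.linearMap_apply_apply ℝ ℝ i.succAbove _ j).trans ?_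
  rcases Fin.eq_self_or_eq_succAbove i j with rfl | ⟨a, rfl⟩
  · simp [h]
  · simp only [Fin.succAbove_right_inj]
    rw [Finset.filter_eq', if_pos (Finset.mem_univ _), Finset.sum_singleton]
    rfl

variable {Z : Type}

/-- A cell: a face of the standard simplex and the graph over it. -/
def cell {n : ℕ} (g : Sm n → Z) (J : NF n) : NF n × Set (Sm n × Z) :=
  (J, {q | (∀ j, q.1.1 j ≠ 0 → j ∈ J.1) ∧ q.2 = g q.1})

theorem cell_eq {n : ℕ} {g g' : Sm n → Z} {J : NF n} :
    cell g J = cell g' J ↔ ∀ y : Sm n, (∀ j, y.1 j ≠ 0 → j ∈ J.1) → g y = g' y := by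
  constructor
  · intro h y hy
    have h1 : (y, g y) ∈ (cell g J).2 := ⟨hy, rfl⟩
    rw [h] at h1
    exact h1.2
  · intro h
    refine Prod.ext rfl (Set.ext fun q => and_congr_right fun hq => ?_)
    rw [h q.1 hq]

theorem exists_top {N n : ℕ} (J : Fin N → NF n) (T : Set (Fin N)) (hT : T.Nonempty)
    (h : ∀ c ∈ T, ∀ d ∈ T, (J c).1 ⊆ (J d).1 ∨ (J d).1 ⊆ (J c).1) :
    ∃ c ∈ T, ∀ d ∈ T, (J d).1 ⊆ (J c).1 := by
  obtain ⟨c, hc, hm⟩ := T.exists_max_image (fun c => (J c).1.card) (toFinite T) hT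
  refine ⟨c, hc, fun d hd => (h c hc d hd).elim (fun e => ?_) id⟩
  exact (Finset.eq_of_subset_of_card_le e (hm d hd)).ge

theorem realise [TopologicalSpace Z] {n : ℕ} {c : (Sm (n + 1) → Z) →₀ F2}
    (hc : c ∈ Sp {g | Continuous g}) (h0 : ∀ i, pm (fun g => g ∘ fc n i) c = 0) :
    ∃ (N : ℕ) (K : Geometry.SimplicialComplex ℝ (Eu N)) (_ : K.faces.Finite)
      (Φ : C(K.space, Z)) (w' : Ch K.space),
      w' ∈ Sp (Cts K.space ∩ Deq K.space (n + 1)) ∧ bd w' = 0 ∧
      (∀ x, ∃ g ∈ c.support, ∃ y, Φ x = g y) ∧ mp Φ w' = emb (n + 1) (subd (n + 1) c) := by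
  classical
  by_cases hne : c = 0
  · have : IsEmpty (⊥ : Geometry.SimplicialComplex ℝ (Eu 0)).space := by
      rw [Geometry.SimplicialComplex.space_bot]; infer_instance
    exact ⟨0, ⊥, by simp [Geometry.SimplicialComplex.faces_bot],
      ⟨isEmptyElim, continuous_of_discreteTopology⟩, 0,
      Submodule.zero_mem _, map_zero _, isEmptyElim, by simp [hne]⟩
  obtain ⟨g₀, hg₀⟩ := Finsupp.support_nonempty_iff.2 hne
  let C : Finset (NF (n + 1) × Set (Sm (n + 1) × Z)) :=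
    (c.support ×ˢ Finset.univ).image fun q => cell q.1 q.2
  have hC : ∀ g ∈ c.support, ∀ J, cell g J ∈ C := fun g hg J =>
    Finset.mem_image.2 ⟨(g, J), by simpa using hg, rfl⟩
  obtain ⟨N, lab, ν, hν⟩ : ∃ (N : ℕ) (lab : Fin N → NF (n + 1) × Set (Sm (n + 1) × Z))
      (ν : NF (n + 1) × Set (Sm (n + 1) × Z) → Fin N), ∀ l ∈ C, lab (ν l) = l :=
    ⟨C.card, fun a => (C.equivFin.symm a).1,
      fun l => C.equivFin (if h : l ∈ C then ⟨l, h⟩ else ⟨_, hC g₀ hg₀ (top n)⟩),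
      fun l hl => by simp [hl]⟩
  let Gd : (Sm (n + 1) → Z) → Set (Fin N) → Prop := fun g T =>
    (∀ a ∈ T, lab a = cell g (lab a).1) ∧
      ∀ a ∈ T, ∀ b ∈ T, (lab a).1.1 ⊆ (lab b).1.1 ∨ (lab b).1.1 ⊆ (lab a).1.1
  obtain ⟨K, hK, hsp⟩ := exists_complex (fun T => ∃ g ∈ c.support, Gd g T)
    (fun T T' h ⟨g, hg, h1, h2⟩ =>
      ⟨g, hg, fun a ha => h1 a (h ha), fun a ha b hb => h2 a (h ha) b (h hb)⟩)
  let pt : K.space → Sm N := fun x => ⟨x.1.ofLp, ((hsp x.1).1 x.2).1⟩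
  have hpt : Continuous pt :=
    Continuous.subtype_mk ((PiLp.continuous_ofLp 2 _).comp continuous_subtype_val) _
  let μ : Fin N → Fin (n + 1) := fun a => mn (lab a).1
  choose gx hgx1 hgx2 using fun x : K.space => ((hsp x.1).1 x.2).2
  have key : ∀ (x : K.space) (g : Sm (n + 1) → Z), Gd g {a | x.1 a ≠ 0} →
      gx x (stdSimplex.map μ (pt x)) = g (stdSimplex.map μ (pt x)) := by
    intro x g hg
    have hT : {a | x.1 a ≠ 0}.Nonempty := by
      by_contra h
      have h3 : ∀ a, x.1 a = 0 := fun a => by_contra fun e => h ⟨a, e⟩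
      have h4 := ((hsp x.1).1 x.2).1.2
      simp [h3] at h4
    obtain ⟨a, ha, hm⟩ := exists_top (fun a => (lab a).1) _ hT hg.2
    refine cell_eq.1 (((hgx2 x).1 a ha).symm.trans (hg.1 a ha)) _ fun j hj => ?_
    obtain ⟨b, hb, rfl⟩ := map_ne μ _ hj
    exact hm b hb (mn_mem _)
  have hcont : Continuous fun x : K.space => gx x (stdSimplex.map μ (pt x)) := by
    have hco : ∀ a, Continuous fun x : K.space => x.1 a := fun a =>
      (continuous_apply a).comp (continuous_subtype_val.comp hpt)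
    refine (locallyFinite_of_finite fun g : c.support =>
      {x : K.space | Gd g.1 {a | x.1 a ≠ 0}}).continuous ?_ (fun g => ?_) (fun g => ?_)
    · exact eq_univ_of_forall fun x => mem_iUnion.2 ⟨⟨gx x, hgx1 x⟩, hgx2 x⟩
    · have hz : ∀ (a : Fin N) {p : K.space → Prop}, IsClosed {x | p x} →
          IsClosed {x : K.space | x.1 a ≠ 0 → p x} := fun a p hp =>
        isClosed_imp (isOpen_ne_fun (hco a) continuous_const) hp
      have ha : ∀ {p : Fin N → K.space → Prop}, (∀ a, IsClosed {x | p a x}) →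
          IsClosed {x | ∀ a, p a x} := fun h => by rw [ofPred_forall]; exact isClosed_iInter h
      exact IsClosed.inter (ha fun a => hz a isClosed_const)
        (ha fun a => hz a (ha fun b => hz b isClosed_const))
    · exact (((mem_sp.1 hc g.1 g.2).comp ((stdSimplex.continuous_map μ).comp
        hpt)).continuousOn).congr fun x hx => key x g.1 hx
  have hin : ∀ g ∈ c.support, ∀ {k : ℕ} (u : Fin k → NF (n + 1)), Chn u → ∀ x : Sm k,
      Gd g {a | (stdSimplex.map ((fun J => ν (cell g J)) ∘ u) x : Sm N).1 a ≠ 0} := by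
    intro g hg k u hu x
    refine ⟨fun a ha => ?_, fun a ha b hb => ?_⟩
    · obtain ⟨a', _, rfl⟩ := map_ne _ x ha
      simp only [Function.comp_apply, hν _ (hC g hg _)]
      rfl
    · obtain ⟨a', _, rfl⟩ := map_ne _ x ha
      obtain ⟨b', _, rfl⟩ := map_ne _ x hb
      simp only [Function.comp_apply, hν _ (hC g hg _)]
      exact hu a' b'
  have hmem : ∀ y : Sm N, (∃ g ∈ c.support, Gd g {a | y.1 a ≠ 0}) →
      (WithLp.toLp 2 y.1 : Eu N) ∈ K.space := fun y h => (hsp _).2 ⟨y.2, h⟩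
  let x₀ : K.space := ⟨_, hmem _ ⟨g₀, hg₀, hin g₀ hg₀ (fun _ : Fin 1 => top n)
    (fun _ _ => Or.inl subset_rfl) (stdSimplex.vertex 0)⟩⟩
  let r : Sm N → K.space := fun y =>
    if h : (WithLp.toLp 2 y.1 : Eu N) ∈ K.space then ⟨_, h⟩ else x₀
  have hr : ∀ g ∈ c.support, ∀ u : Fin (n + 1) → NF (n + 1), Chn u → ∀ x : Sm (n + 1),
      (r (stdSimplex.map ((fun J => ν (cell g J)) ∘ u) x)).1 =
        WithLp.toLp 2 (stdSimplex.map ((fun J => ν (cell g J)) ∘ u) x : Sm N).1 :=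
    fun g hg u hu x => by simp only [r, dif_pos (hmem _ ⟨g, hg, hin g hg u hu x⟩)]
  refine ⟨N, K, hK, ⟨_, hcont⟩, lift (fun g => pm (fun u => (⟨n + 1, r ∘ stdSimplex.map
    ((fun J => ν (cell g J)) ∘ u)⟩ : Sx K.space)) (FV (n + 1))) c, ?_, ?_,
    fun x => ⟨gx x, hgx1 x, _, rfl⟩, ?_⟩
  · refine lift_mem _ _ (fun g hg => pm_mem _ (fun u hu => ?_) (FV_mem _)) (sp_support c)
    refine And.intro ?_ rfl
    refine continuous_induced_rng.2 (Continuous.congr ?_ fun x => (hr g hg u hu x).symm)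
    exact (PiLp.continuous_toLp 2 _).comp
      (continuous_subtype_val.comp (stdSimplex.continuous_map _))
  · rw [lin_lift]
    simp only [bd_FV, lift_sum]
    refine Finset.sum_eq_zero fun i _ => lift_fac _ _ (fun g g' h => ?_) (h0 i)
    have : ∀ J, cell g (mapNF i.succAbove J) = cell g' (mapNF i.succAbove J) := fun J => by
      refine cell_eq.2 fun y hy => ?_
      obtain ⟨x, rfl⟩ := exists_fc i y (by_contra fun e => by
        obtain ⟨a, _, ha⟩ := Finset.mem_image.1 (hy i e)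
        exact Fin.succAbove_ne i a ha)
      exact congrFun h x
    simp only [Function.comp_def, this]
  · rw [subd, lin_lift, lin_lift]
    refine lift_congr _ _ (fun g hg => ?_) (sp_support c)
    rw [mp_pm, emb, pm_pm]
    refine lift_congr _ _ (fun u hu => ?_) (FV_mem _)
    refine congrArg (fun f : Sm (n + 1) → Z => one (⟨n + 1, f⟩ : Sx Z)) (funext fun x => ?_)
    have h1 := hr g hg u hu x
    have h2 : pt (r (stdSimplex.map ((fun J => ν (cell g J)) ∘ u) x)) =
        stdSimplex.map ((fun J => ν (cell g J)) ∘ u) x := Subtype.ext (congrArg WithLp.ofLp h1)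
    refine (key (r (stdSimplex.map ((fun J => ν (cell g J)) ∘ u) x)) g
      (by rw [h1]; exact hin g hg u hu x)).trans ?_
    rw [h2, stdSimplex.map_comp_apply, Function.comp_apply]
    congr 2
    funext a
    simp only [μ, Function.comp_apply, hν _ (hC g hg _)]
    rfl

end Pool.Agent.MP_20201c_gt.H91.Cv
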