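import Pool.Agent.MP_20201c_gt.H91.Sdk
import Pool.Agent.MP_20201c_gt.H91.Conv_b

/-! A singular cycle comes from a finite simplicial complex. -/

open MeasureTheory Set Filter Topology
open scoped ENNReal

namespace Pool.Agent.MP_20201c_gt.H91

theorem conv {Z : Type} [TopologicalSpace Z] (p : ℕ) {w : Ch Z}
    (hw : w ∈ Sp (Cts Z ∩ Deq Z (p + 1))) (h0 : bd w = 0) :
    ∃ (N : ℕ) (K : Geometry.SimplicialComplex ℝ (EuclideanSpace ℝ (Fin N))) (_ : K.faces.Finite)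
      (Φ : C(K.space, Z)) (w' : Ch K.space) (h : Ch Z),
      w' ∈ Sp (Cts K.space ∩ Deq K.space (p + 1)) ∧ bd w' = 0 ∧
      (∀ x, ∃ s ∈ w.support, ∃ y, Φ x = s.2 y) ∧
      h ∈ Sp (Cts Z) ∧ mp Φ w' + w = bd h := by
  obtain ⟨c, hc, rfl⟩ := Cv.exists_emb
    (P := Cts Z ∩ ↑w.support) (sp_inter.2 ⟨sp_inter.2 ⟨(sp_inter.1 hw).1, sp_support w⟩,
      (sp_inter.1 hw).2⟩)
  rw [Cv.bd_emb] at h0
  have h1 : Cv.dd p c = 0 := Cv.pm_inj (fun _ _ h => sigma_mk_injective h) h0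
  have hc1 : c ∈ Sp {g | Continuous g} := sp_mono (fun g hg => hg.1) hc
  have hc2 : Cv.subd (p + 1) c ∈ Sp {g | Continuous g} :=
    Cv.sub_mem (fun g hg τ => Continuous.comp hg (stdSimplex.continuous_map τ)) hc1
  have hc3 : Cv.subd (p + 1) c ∈
      Sp {g | ∀ y, ∃ s ∈ (Cv.emb (p + 1) c).support, ∃ y', g y = s.2 y'} :=
    Cv.sub_mem (fun g hg τ y => ⟨⟨p + 1, g⟩, hg.2, _, rfl⟩) hc
  obtain ⟨N, K, hK, Φ, w', a1, a2, a3, a4⟩ := Cv.realise hc2 (Cv.col h1)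
  obtain ⟨h, b1, b2⟩ := Cv.sub_hom hc1 h1
  obtain ⟨h', b3, b4⟩ := Cv.sub_hom hc2 (Finset.sum_eq_zero fun i _ => Cv.col h1 i)
  refine ⟨N, K, hK, Φ, w', h' + h, a1, a2, fun x => ?_, Submodule.add_mem _ b3 b1, ?_⟩
  · obtain ⟨g, hg, y, e⟩ := a3 x
    rw [e]
    exact mem_sp.1 hc3 g hg y
  · have e : ∀ a b d : Ch Z, a + b = d + a + (b + d) := fun a b d => by
      rw [show d + a + (b + d) = a + b + (d + d) by abel, add_self2, add_zero]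
    rw [map_add, b2, b4, a4]
    exact e _ _ _

end Pool.Agent.MP_20201c_gt.H91
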