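import Pool.Agent.MP_20201c_gt.H91.TriK

/-! The boundary measure of a state. -/

open MeasureTheory Set Filter Topology
open scoped ENNReal

namespace Pool.Agent.MP_20201c_gt.H91

variable {𝒯 : Finset Tri} {pos : Vt → ℂ} {S S' : St}

namespace StM

/-- The side of the first triangle of an edge. -/
def f1 (e : Ed) : Tri × Fin 3 := (eT1 e, ![0, 2, 2] e.2)

/-- The side of the second triangle of an edge. -/
def f2 (e : Ed) : Tri × Fin 3 := (eT2 e, ![1, 1, 0] e.2)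

theorem f1_tv (e : Ed) :
    (tv (eT1 e) (f1 e).2 = e.1 ∧ tv (eT1 e) ((f1 e).2 + 1) = eEnd e) ∨
      (tv (eT1 e) (f1 e).2 = eEnd e ∧ tv (eT1 e) ((f1 e).2 + 1) = e.1) := by
  obtain ⟨v, k⟩ := e
  fin_cases k
  · left
    exact ⟨rfl, rfl⟩
  · right
    exact ⟨rfl, by simp [tv, eT1, f1]⟩
  · right
    exact ⟨rfl, by simp [tv, eT1, f1]⟩

theorem f2_tv (e : Ed) :
    (tv (eT2 e) (f2 e).2 = e.1 ∧ tv (eT2 e) ((f2 e).2 + 1) = eEnd e) ∨
      (tv (eT2 e) (f2 e).2 = eEnd e ∧ tv (eT2 e) ((f2 e).2 + 1) = e.1) := by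
  obtain ⟨⟨x, y⟩, k⟩ := e
  fin_cases k
  · right
    refine ⟨?_, ?_⟩
    · change ((x, y) - (0, 1) + (1, 1) : Vt) = (x, y) + (1, 0)
      simp
    · change ((x, y) - (0, 1) + (0, 1) : Vt) = (x, y)
      simp
  · left
    refine ⟨?_, ?_⟩
    · change ((x, y) - (1, 0) + (1, 0) : Vt) = (x, y)
      simp
    · change ((x, y) - (1, 0) + (1, 1) : Vt) = (x, y) + (0, 1)
      simp
  · left
    exact ⟨rfl, rfl⟩

theorem f1_inj : Function.Injective f1 := by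
  rintro ⟨v, k⟩ ⟨v', k'⟩ h
  fin_cases k <;> fin_cases k' <;> simp_all [f1, eT1]

theorem f2_inj : Function.Injective f2 := by
  rintro ⟨v, k⟩ ⟨v', k'⟩ h
  fin_cases k <;> fin_cases k' <;> simp_all [f2, eT2]

theorem f1_ne (e e' : Ed) : f1 e ≠ f2 e' := by
  obtain ⟨v, k⟩ := e
  obtain ⟨v', k'⟩ := e'
  fin_cases k <;> fin_cases k' <;> simp [f1, f2, eT1, eT2]

theorem f_surj (p : Tri × Fin 3) : ∃ e, f1 e = p ∨ f2 e = p := by
  obtain ⟨⟨v, b⟩, i⟩ := p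
  cases b <;> fin_cases i
  · exact ⟨(v, 0), Or.inl rfl⟩
  · exact ⟨(v + (1, 0), 1), Or.inr (by simp [f2, eT2])⟩
  · exact ⟨(v, 2), Or.inl rfl⟩
  · exact ⟨(v, 2), Or.inr rfl⟩
  · exact ⟨(v + (0, 1), 0), Or.inr (by simp [f2, eT2])⟩
  · exact ⟨(v, 1), Or.inl rfl⟩

theorem mem_inE {e : Ed} : e ∈ inE 𝒯 ↔ eT1 e ∈ 𝒯 ∧ eT2 e ∈ 𝒯 := by
  rw [inE, Finset.mem_filter]
  refine ⟨fun h => h.2, fun h => ⟨Finset.mem_product.2
    ⟨Finset.mem_image.2 ⟨_, h.1, ?_⟩, Finset.mem_univ _⟩, h⟩⟩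
  obtain ⟨v, k⟩ := e
  fin_cases k <;> rfl

/-- The trace on a side of a triangle. -/
noncomputable def sd (pos : Vt → ℂ) (S : St) (p : Tri × Fin 3) : Ms :=
  sgOn (pos (tv p.1 p.2)) (pos (tv p.1 (p.2 + 1))) (tr (S p.1 (tv p.1 p.2)) (S p.1 (tv p.1 (p.2 + 1))))

/-- The trace of a triangle on an edge. -/
noncomputable def te (pos : Vt → ℂ) (S : St) (τ : Tri) (e : Ed) : Ms :=
  sgOn (pos e.1) (pos (eEnd e)) (tr (S τ e.1) (S τ (eEnd e)))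

theorem sd_f1 (e : Ed) : sd pos S (f1 e) = te pos S (eT1 e) e := by
  change sgOn (pos (tv (eT1 e) (f1 e).2)) (pos (tv (eT1 e) ((f1 e).2 + 1)))
    (tr (S (eT1 e) (tv (eT1 e) (f1 e).2)) (S (eT1 e) (tv (eT1 e) ((f1 e).2 + 1)))) = _
  rcases f1_tv e with ⟨h1, h2⟩ | ⟨h1, h2⟩
  · rw [h1, h2, te]
  · rw [h1, h2, te, sgOn_tr_comm]

theorem sd_f2 (e : Ed) : sd pos S (f2 e) = te pos S (eT2 e) e := by
  change sgOn (pos (tv (eT2 e) (f2 e).2)) (pos (tv (eT2 e) ((f2 e).2 + 1)))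
    (tr (S (eT2 e) (tv (eT2 e) (f2 e).2)) (S (eT2 e) (tv (eT2 e) ((f2 e).2 + 1)))) = _
  rcases f2_tv e with ⟨h1, h2⟩ | ⟨h1, h2⟩
  · rw [h1, h2, te]
  · rw [h1, h2, te, sgOn_tr_comm]

theorem te_poly (τ : Tri) (e : Ed) :
    Poly (segment ℝ (pos e.1) (pos (eEnd e))) (te pos S τ e) := (sgOn_tr_add _ _ _ _ 0 0).2.2.1

theorem sd_poly (p : Tri × Fin 3) : Poly univ (sd pos S p) :=
  (sgOn_tr_add _ _ _ _ 0 0).2.2.1.mono (subset_univ _)

theorem edg_poly (e : Ed) : Poly (segment ℝ (pos e.1) (pos (eEnd e))) (edg pos S e) :=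
  (sgOn_tr_add _ _ _ _ _ _).1

/-- The outer sides. -/
def out (𝒯 : Finset Tri) : Finset (Tri × Fin 3) :=
  (𝒯 ×ˢ Finset.univ) \ ((inE 𝒯).image f1 ∪ (inE 𝒯).image f2)

theorem out_spec {p : Tri × Fin 3} (hp : p ∈ out 𝒯) : ∃ e : Ed, ¬ (eT1 e ∈ 𝒯 ↔ eT2 e ∈ 𝒯) ∧
    Poly (segment ℝ (pos e.1) (pos (eEnd e))) (sd pos S p) := by
  rw [out, Finset.mem_sdiff, Finset.mem_union, not_or] at hp
  obtain ⟨h0, h1, h2⟩ := hp
  have h3 := (Finset.mem_product.1 h0).1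
  obtain ⟨e, rfl | rfl⟩ := f_surj p
  · refine ⟨e, fun h => h1 (Finset.mem_image_of_mem _ (mem_inE.2 ⟨h3, h.1 h3⟩)), ?_⟩
    rw [sd_f1]
    exact te_poly _ _
  · refine ⟨e, fun h => h2 (Finset.mem_image_of_mem _ (mem_inE.2 ⟨h.2 h3, h3⟩)), ?_⟩
    rw [sd_f2]
    exact te_poly _ _

theorem sum_sd : ∑ τ ∈ 𝒯, ∑ i, sd pos S (τ, i) =
    ∑ e ∈ inE 𝒯, (te pos S (eT1 e) e + te pos S (eT2 e) e) + ∑ p ∈ out 𝒯, sd pos S p := by
  have hs : (inE 𝒯).image f1 ∪ (inE 𝒯).image f2 ⊆ 𝒯 ×ˢ Finset.univ := by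
    intro p hp
    rcases Finset.mem_union.1 hp with hp | hp
    · obtain ⟨e, he, rfl⟩ := Finset.mem_image.1 hp
      exact Finset.mem_product.2 ⟨(mem_inE.1 he).1, Finset.mem_univ _⟩
    · obtain ⟨e, he, rfl⟩ := Finset.mem_image.1 hp
      exact Finset.mem_product.2 ⟨(mem_inE.1 he).2, Finset.mem_univ _⟩
  have hd : Disjoint ((inE 𝒯).image f1) ((inE 𝒯).image f2) := by
    rw [Finset.disjoint_left]
    intro p h1 h2
    obtain ⟨e, -, rfl⟩ := Finset.mem_image.1 h1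
    obtain ⟨e', -, h⟩ := Finset.mem_image.1 h2
    exact f1_ne _ _ h.symm
  rw [← Finset.sum_product' 𝒯 Finset.univ fun τ i => sd pos S (τ, i), ← Finset.sum_sdiff hs,
    add_comm, Finset.sum_union hd, Finset.sum_image f1_inj.injOn, Finset.sum_image f2_inj.injOn,
    Finset.sum_add_distrib]
  simp only [Prod.mk.eta, sd_f1, sd_f2, out]

theorem tr_neg {a a' u : ℝ} (ha : a ≠ 0) (hu : u ≠ a / (a - a')) :
    u ∈ tr (-a) (-a') ↔ u ∉ tr a a' := by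
  have h : (1 - u) * a + u * a' ≠ 0 := fun h => by
    have h1 : u * (a - a') = a := by linarith
    have h2 : a - a' ≠ 0 := fun h2 => ha (by rw [← h1, h2, mul_zero])
    exact hu (by rw [eq_div_iff h2, h1])
  simp only [tr, mem_ofPred_eq, not_lt]
  constructor
  · intro h1
    linarith
  · intro h1
    have := lt_of_le_of_ne h1 h
    linarith

theorem restrict_sum {ι : Type} (s : Finset ι) (μ : ι → Ms) (A : Set ℂ) :
    (∑ i ∈ s, μ i).restrict A = ∑ i ∈ s, (μ i).restrict A :=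
  map_sum (Measure.restrictₗ A) μ s

theorem restrict_zero {W U : Set ℂ} {μ : Ms} (h : Poly W μ) (hW : Convex ℝ W) (hU : W ⊆ U) :
    μ.restrict Uᶜ = 0 :=
  Measure.restrict_eq_zero.2 (measure_mono_null (compl_subset_compl.2 hU) (h.compl_null hW))

end StM

theorem edge_tv (e : Ed) : (∃ i, tv (eT1 e) i = e.1) ∧ (∃ i, tv (eT1 e) i = eEnd e) ∧
    (∃ i, tv (eT2 e) i = e.1) ∧ ∃ i, tv (eT2 e) i = eEnd e := by
  rcases StM.f1_tv e with ⟨h1, h2⟩ | ⟨h2, h1⟩ <;> rcases StM.f2_tv e with ⟨h3, h4⟩ | ⟨h4, h3⟩ <;>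
    exact ⟨⟨_, h1⟩, ⟨_, h2⟩, ⟨_, h3⟩, ⟨_, h4⟩⟩

theorem edge_hull (pos : Vt → ℂ) (e : Ed) :
    segment ℝ (pos e.1) (pos (eEnd e)) ⊆ hull pos (eT1 e) ∩ hull pos (eT2 e) := by
  obtain ⟨⟨i, h1⟩, ⟨j, h2⟩, ⟨k, h3⟩, ⟨l, h4⟩⟩ := edge_tv e
  refine subset_inter ?_ ?_
  · exact (convex_convexHull ℝ _).segment_subset
      (subset_convexHull ℝ _ ⟨i, congrArg pos h1⟩) (subset_convexHull ℝ _ ⟨j, congrArg pos h2⟩)
  · exact (convex_convexHull ℝ _).segment_subset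
      (subset_convexHull ℝ _ ⟨k, congrArg pos h3⟩) (subset_convexHull ℝ _ ⟨l, congrArg pos h4⟩)

theorem stM_poly {W : Set ℂ} (hW : Convex ℝ W) (h : ∀ τ ∈ 𝒯, ∀ i, pos (tv τ i) ∈ W) (S : St) :
    Poly W (stM 𝒯 pos S) := by
  have h1 : ∀ τ ∈ 𝒯, hull pos τ ⊆ W := fun τ hτ =>
    convexHull_min (range_subset_iff.2 (h τ hτ)) hW
  refine Poly.add (Poly.sum _ fun τ hτ => (lev_poly _ _).mono (h1 τ hτ))
    (Poly.sum _ fun e he => (StM.edg_poly e).mono ?_)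
  exact ((edge_hull pos e).trans inter_subset_left).trans (h1 _ (StM.mem_inE.1 he).1)

theorem stM_neg (h : ∀ τ ∈ 𝒯, ∀ i, S τ (tv τ i) ≠ 0) : stM 𝒯 pos (-S) = stM 𝒯 pos S := by
  unfold stM
  congr 1
  · exact Finset.sum_congr rfl fun τ _ => lev_neg (pos ∘ tv τ) (S τ ∘ tv τ)
  · refine Finset.sum_congr rfl fun e he => sgOn_congr _ _ ?_
    obtain ⟨⟨i, h1⟩, -, ⟨k, h3⟩, -⟩ := edge_tv e
    have h5 := h _ (StM.mem_inE.1 he).1 i
    have h6 := h _ (StM.mem_inE.1 he).2 k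
    rw [h1] at h5
    rw [h3] at h6
    filter_upwards [compl_mem_ae_iff.2 (measure_singleton
        (S (eT1 e) e.1 / (S (eT1 e) e.1 - S (eT1 e) (eEnd e)))),
      compl_mem_ae_iff.2 (measure_singleton
        (S (eT2 e) e.1 / (S (eT2 e) e.1 - S (eT2 e) (eEnd e))))] with u hu hu' _
    simp only [Pi.neg_apply, mem_symmDiff, StM.tr_neg h5 hu, StM.tr_neg h6 hu']
    tauto

theorem stM_local {U : Set ℂ} (h : ∀ τ ∈ 𝒯, S τ = S' τ ∨ hull pos τ ⊆ U) :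
    (stM 𝒯 pos S).restrict Uᶜ = (stM 𝒯 pos S').restrict Uᶜ := by
  unfold stM
  rw [Measure.restrict_add, Measure.restrict_add]
  simp only [StM.restrict_sum]
  congr 1
  · refine Finset.sum_congr rfl fun τ hτ => ?_
    rcases h τ hτ with h1 | h1
    · rw [levT, levT, h1]
    · rw [levT, levT, StM.restrict_zero (lev_poly _ _) (convex_convexHull ℝ _) h1,
        StM.restrict_zero (lev_poly _ _) (convex_convexHull ℝ _) h1]
  · refine Finset.sum_congr rfl fun e he => ?_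
    have h0 : segment ℝ (pos e.1) (pos (eEnd e)) ⊆ U →
        (edg pos S e).restrict Uᶜ = (edg pos S' e).restrict Uᶜ := fun h1 => by
      rw [StM.restrict_zero (StM.edg_poly e) (convex_segment _ _) h1,
        StM.restrict_zero (StM.edg_poly e) (convex_segment _ _) h1]
    rcases h _ (StM.mem_inE.1 he).1 with h1 | h1
    · rcases h _ (StM.mem_inE.1 he).2 with h2 | h2
      · rw [edg, edg, h1, h2]
      · exact h0 (((edge_hull pos e).trans inter_subset_right).trans h2)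
    · exact h0 (((edge_hull pos e).trans inter_subset_left).trans h1)

theorem stM_side {Ω G W : Set ℂ} (hΩ : Ω ⊆ G) (h : ∀ τ ∈ 𝒯, ∀ i, S τ (tv τ i) ≠ 0)
    (ho : ∀ e : Ed, ¬ (eT1 e ∈ 𝒯 ↔ eT2 e ∈ 𝒯) → Disjoint (segment ℝ (pos e.1) (pos (eEnd e))) G) :
    Par G W 0 (stM 𝒯 pos S) ∧ ∃ E, Side Ω (stM 𝒯 pos S) E ∧
      ∀ z, ∀ τ₀ ∈ 𝒯, z ∈ hull pos τ₀ → (∀ τ ∈ 𝒯, τ ≠ τ₀ → z ∉ hull pos τ) →
        ((∀ i, 0 < S τ₀ (tv τ₀ i)) → z ∈ E) ∧ ((∀ i, S τ₀ (tv τ₀ i) < 0) → z ∉ E) := by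
  classical
  set ν : Ms := ∑ e ∈ inE 𝒯, sgOn (pos e.1) (pos (eEnd e))
    (tr (S (eT1 e) e.1) (S (eT1 e) (eEnd e)) ∩ tr (S (eT2 e) e.1) (S (eT2 e) (eEnd e))) with hν
  set o : Ms := ∑ p ∈ StM.out 𝒯, StM.sd pos S p with hod
  have pν : Poly univ ν :=
    Poly.sum _ fun e _ => (sgOn_tr_add _ _ _ _ _ _).2.1.mono (subset_univ _)
  have po : Poly univ o := Poly.sum _ fun p _ => StM.sd_poly p
  have pM : Poly univ (stM 𝒯 pos S) := stM_poly convex_univ (fun _ _ _ => mem_univ _) S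
  have key : ∑ τ ∈ 𝒯, (levT pos S τ + ∑ i, StM.sd pos S (τ, i)) = stM 𝒯 pos S + ν + ν + o := by
    have h1 : ∑ e ∈ inE 𝒯, (StM.te pos S (eT1 e) e + StM.te pos S (eT2 e) e) =
        ∑ e ∈ inE 𝒯, edg pos S e + ν + ν := by
      rw [hν, ← Finset.sum_add_distrib, ← Finset.sum_add_distrib]
      exact Finset.sum_congr rfl fun e _ => (sgOn_tr_add _ _ _ _ _ _).2.2.2
    rw [Finset.sum_add_distrib, StM.sum_sd, stM, h1]
    abel
  have tp : ∀ τ : Tri, ∃ E : Set ℂ, τ ∈ 𝒯 → E ⊆ hull pos τ ∧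
      Side Ω (levT pos S τ + ∑ i, StM.sd pos S (τ, i)) E ∧
      ((∀ i, 0 < S τ (tv τ i)) → E = hull pos τ) ∧ ((∀ i, S τ (tv τ i) < 0) → E = ∅) := fun τ => by
    by_cases hτ : τ ∈ 𝒯
    · obtain ⟨E, h1, h2⟩ := (tri_piece Ω (pos ∘ tv τ) (α := S τ ∘ tv τ) (h τ hτ)).2
      exact ⟨E, fun _ => ⟨h1, h2⟩⟩
    · exact ⟨∅, fun h1 => absurd h1 hτ⟩
  choose E hE using tp
  refine ⟨fun z _ hz => ?_, ?_⟩
  · have h1 : bdy o z = 0 := by
      rw [hod, bdy_sum _ fun p _ => StM.sd_poly p]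
      refine Finset.sum_eq_zero fun p hp => ?_
      obtain ⟨e, h2, h3⟩ := StM.out_spec (pos := pos) (S := S) hp
      exact h3.bdy_of_notMem fun h4 => disjoint_left.1 (ho e h2) h4 hz
    have h2 : bdy (∑ τ ∈ 𝒯, (levT pos S τ + ∑ i, StM.sd pos S (τ, i))) z = 0 := by
      rw [bdy_sum _ fun τ hτ => (hE τ hτ).2.1.poly]
      exact Finset.sum_eq_zero fun τ hτ =>
        (tri_piece Ω (pos ∘ tv τ) (α := S τ ∘ tv τ) (h τ hτ)).1 z
    rw [key, bdy_add ((pM.add pν).add pν) po, bdy_add (pM.add pν) pν, bdy_add pM pν, h1, add_zero,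
      add_assoc, CharTwo.add_self_eq_zero, add_zero] at h2
    exact h2
  · have h1 := side_sum 𝒯 fun τ hτ => (hE τ hτ).2.1
    have h2 : Side Ω o ∅ := by
      have h3 := side_sum (Ω := Ω) (StM.out 𝒯) (μ := StM.sd pos S) (E := fun _ => ∅) fun p hp => by
        obtain ⟨e, h2, h3⟩ := StM.out_spec (pos := pos) (S := S) hp
        exact side_out' h3 (convex_segment _ _) ((ho e h2).mono_right hΩ)
      simpa using h3
    have h3 := h1.add h2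
    have h4 : stM 𝒯 pos S + ν + ν + o + o = stM 𝒯 pos S + (ν + o) + (ν + o) := by abel
    rw [key, h4] at h3
    refine ⟨_, Side.cancel pM (pν.add po) h3, fun z τ₀ hτ₀ hz hn => ?_⟩
    have h5 : ∀ τ ∈ 𝒯, z ∈ E τ → τ = τ₀ := fun τ hτ h6 => by
      by_contra h7
      exact hn τ hτ h7 ((hE τ hτ).1 h6)
    simp only [mem_symmDiff, mem_ofPred_eq, mem_empty_iff_false, not_false_eq_true, and_true,
      false_and, or_false]
    refine ⟨fun h6 => ?_, fun h6 => ?_⟩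
    · have h7 : z ∈ E τ₀ := by rwa [(hE τ₀ hτ₀).2.2.1 h6]
      have h8 : (𝒯.filter fun τ => z ∈ E τ) = {τ₀} := by
        ext τ
        rw [Finset.mem_filter, Finset.mem_singleton]
        exact ⟨fun h9 => h5 τ h9.1 h9.2, fun h9 => h9 ▸ ⟨hτ₀, h7⟩⟩
      simp [h8]
    · have h8 : (𝒯.filter fun τ => z ∈ E τ) = ∅ := by
        refine Finset.filter_eq_empty_iff.2 fun τ hτ h9 => ?_
        rw [h5 τ hτ h9, (hE τ₀ hτ₀).2.2.2 h6] at h9
        exact h9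
      simp [h8]

end Pool.Agent.MP_20201c_gt.H91
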