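import Pool.Agent.MP_20201c_gt.H91.Norm
import Pool.Agent.MP_20201c_gt.H91.StM

/-! The triangles inside the domain and their displaced positions. -/

open MeasureTheory Set Filter Topology
open scoped ENNReal

namespace Pool.Agent.MP_20201c_gt.H91

namespace Msh

/-- The grid square of a vertex. -/
def Sq (h : ℝ) (v : Vt) : Set ℂ := {x | vtx h x = v}

theorem sq_eq {h : ℝ} (hh : 0 < h) (v : Vt) : Sq h v = Complex.measurableEquivRealProd ⁻¹'
    (Ico (h * v.1) (h * v.1 + h) ×ˢ Ico (h * v.2) (h * v.2 + h)) := by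
  ext x
  simp only [Sq, vtx, mem_ofPred_eq, Prod.ext_iff, Int.floor_eq_iff, mem_preimage,
    Complex.measurableEquivRealProd_apply, mem_prod, mem_Ico, le_div_iff₀ hh, div_lt_iff₀ hh]
  constructor
  · rintro ⟨⟨a, b⟩, c, d⟩
    exact ⟨⟨by linarith, by linarith⟩, by linarith, by linarith⟩
  · rintro ⟨⟨a, b⟩, c, d⟩
    exact ⟨⟨by linarith, by linarith⟩, by linarith, by linarith⟩

theorem sq_meas {h : ℝ} (hh : 0 < h) (v : Vt) : MeasurableSet (Sq h v) := by
  rw [sq_eq hh]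
  exact Complex.measurableEquivRealProd.measurable (measurableSet_Ico.prod measurableSet_Ico)

theorem sq_vol {h : ℝ} (hh : 0 < h) (v : Vt) : volume (Sq h v) = ENNReal.ofReal (h ^ 2) := by
  rw [sq_eq hh, Complex.volume_preserving_equiv_real_prod.measure_preimage_equiv,
    Measure.volume_eq_prod, Measure.prod_prod, Real.volume_Ico, Real.volume_Ico,
    add_sub_cancel_left, add_sub_cancel_left, ← ENNReal.ofReal_mul hh.le, sq]

theorem gp_dist {h : ℝ} (hh : 0 < h) {v w : Vt} {a b : ℝ} (ha : |((v.1 - w.1 : ℤ) : ℝ)| ≤ a)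
    (hb : |((v.2 - w.2 : ℤ) : ℝ)| ≤ b) : ‖gp h v - gp h w‖ ≤ h * (a + b) := by
  refine (Complex.norm_le_abs_re_add_abs_im _).trans ?_
  have e1 : (gp h v - gp h w).re = h * ((v.1 - w.1 : ℤ) : ℝ) := by
    simp only [gp, Complex.sub_re]
    push_cast
    ring
  have e2 : (gp h v - gp h w).im = h * ((v.2 - w.2 : ℤ) : ℝ) := by
    simp only [gp, Complex.sub_im]
    push_cast
    ring
  rw [e1, e2, abs_mul, abs_mul, abs_of_pos hh, ← mul_add]
  exact mul_le_mul_of_nonneg_left (add_le_add ha hb) hh.le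

theorem gp_near {h : ℝ} (hh : 0 < h) {v w : Vt} {m : ℤ} (ha : |v.1 - w.1| ≤ m)
    (hb : |v.2 - w.2| ≤ m) : ‖gp h v - gp h w‖ ≤ 2 * m * h := by
  have := gp_dist hh (v := v) (w := w) (a := m) (b := m) (by exact_mod_cast ha)
    (by exact_mod_cast hb)
  linarith

theorem tv_off (τ : Tri) (i : Fin 3) : (τ.1.1 ≤ (tv τ i).1 ∧ (tv τ i).1 ≤ τ.1.1 + 1) ∧
    τ.1.2 ≤ (tv τ i).2 ∧ (tv τ i).2 ≤ τ.1.2 + 1 := by
  obtain ⟨v, b⟩ := τ
  cases b <;> fin_cases i <;> simp [tv]

theorem tv_near {h : ℝ} (hh : 0 < h) (τ : Tri) (i : Fin 3) :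
    ‖gp h (tv τ i) - gp h τ.1‖ ≤ 2 * h := by
  have h1 := tv_off τ i
  have := gp_near hh (v := tv τ i) (w := τ.1) (m := 1) (abs_le.2 ⟨by omega, by omega⟩)
    (abs_le.2 ⟨by omega, by omega⟩)
  simpa using this

theorem vtx_near {h : ℝ} (hh : 0 < h) (x : ℂ) : ‖x - gp h (vtx h x)‖ ≤ 2 * h := by
  have hx : x ∈ Sq h (vtx h x) := rfl
  rw [sq_eq hh] at hx
  simp only [mem_preimage, Complex.measurableEquivRealProd_apply, mem_prod, mem_Ico] at hx
  refine (Complex.norm_le_abs_re_add_abs_im _).trans ?_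
  have e1 : |(x - gp h (vtx h x)).re| ≤ h := by
    simp only [gp, Complex.sub_re]
    exact abs_le.2 ⟨by linarith [hx.1.1], by linarith [hx.1.2]⟩
  have e2 : |(x - gp h (vtx h x)).im| ≤ h := by
    simp only [gp, Complex.sub_im]
    exact abs_le.2 ⟨by linarith [hx.2.1], by linarith [hx.2.2]⟩
  linarith

theorem hull_sub {pos : Vt → ℂ} {τ : Tri} {C : Set ℂ} (hC : Convex ℝ C)
    (h : ∀ i, pos (tv τ i) ∈ C) : hull pos τ ⊆ C :=
  convexHull_min (by rintro _ ⟨i, rfl⟩; exact h i) hC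

theorem hull_congr {pos pos' : Vt → ℂ} {τ : Tri} (h : ∀ i, pos (tv τ i) = pos' (tv τ i)) :
    hull pos τ = hull pos' τ := by
  have : pos ∘ tv τ = pos' ∘ tv τ := funext h
  rw [hull, this, hull]

theorem half_cvx (a b c : ℝ) : Convex ℝ {x : ℂ | c ≤ a * x.re + b * x.im} := by
  intro x hx y hy s t hs ht hst
  simp only [mem_ofPred_eq, Complex.add_re, Complex.add_im, Complex.smul_re, Complex.smul_im,
    smul_eq_mul] at hx hy ⊢
  have h1 := mul_le_mul_of_nonneg_left hx hs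
  have h2 := mul_le_mul_of_nonneg_left hy ht
  have h3 : s * c + t * c = c := by rw [← add_mul, hst, one_mul]
  nlinarith

theorem hull_half {pos : Vt → ℂ} {τ : Tri} {x : ℂ} (hx : x ∈ hull pos τ) {a b c : ℝ}
    (h : ∀ i, c ≤ a * (pos (tv τ i)).re + b * (pos (tv τ i)).im) : c ≤ a * x.re + b * x.im :=
  hull_sub (half_cvx a b c) h hx

theorem hull_f {h : ℝ} (hh : 0 < h) {v : Vt} {x : ℂ} (hx : x ∈ hull (gp h) (v, false)) :
    h * v.2 ≤ x.im ∧ x.im - h * v.2 ≤ x.re - h * v.1 ∧ x.re ≤ h * v.1 + h := by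
  have h1 := hull_half hx (a := 0) (b := 1) (c := h * v.2) fun i => by
    fin_cases i <;> simp [tv, gp, mul_add, hh.le]
  have h2 := hull_half hx (a := 1) (b := -1) (c := h * v.1 - h * v.2) fun i => by
    fin_cases i <;> simp [tv, gp, mul_add] <;> linarith
  have h3 := hull_half hx (a := -1) (b := 0) (c := -(h * v.1 + h)) fun i => by
    fin_cases i <;> simp [tv, gp, mul_add, hh.le]
  exact ⟨by linarith, by linarith, by linarith⟩

theorem hull_t {h : ℝ} (hh : 0 < h) {v : Vt} {x : ℂ} (hx : x ∈ hull (gp h) (v, true)) :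
    h * v.1 ≤ x.re ∧ x.re - h * v.1 ≤ x.im - h * v.2 ∧ x.im ≤ h * v.2 + h := by
  have h1 := hull_half hx (a := 1) (b := 0) (c := h * v.1) fun i => by
    fin_cases i <;> simp [tv, gp, mul_add, hh.le]
  have h2 := hull_half hx (a := -1) (b := 1) (c := h * v.2 - h * v.1) fun i => by
    fin_cases i <;> simp [tv, gp, mul_add] <;> linarith
  have h3 := hull_half hx (a := 0) (b := -1) (c := -(h * v.2 + h)) fun i => by
    fin_cases i <;> simp [tv, gp, mul_add, hh.le]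
  exact ⟨by linarith, by linarith, by linarith⟩

theorem mem_hull3 (pos : Vt → ℂ) (τ : Tri) {a b c : ℝ} (ha : 0 ≤ a) (hb : 0 ≤ b) (hc : 0 ≤ c)
    (h : a + b + c = 1) : a • pos (tv τ 0) + b • pos (tv τ 1) + c • pos (tv τ 2) ∈ hull pos τ := by
  have := (convex_convexHull ℝ (range (pos ∘ tv τ))).sum_mem (t := Finset.univ)
    (w := ![a, b, c]) (z := pos ∘ tv τ) (fun i _ => by fin_cases i <;> simpa)
    (by simpa [Fin.sum_univ_three] using h) (fun i _ => subset_convexHull _ _ ⟨i, rfl⟩)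
  simpa [Fin.sum_univ_three, hull] using this

theorem mem_f {h : ℝ} (hh : 0 < h) {v : Vt} {x : ℂ} (h1 : h * v.2 ≤ x.im)
    (h2 : x.im - h * v.2 ≤ x.re - h * v.1) (h3 : x.re ≤ h * v.1 + h) :
    x ∈ hull (gp h) (v, false) := by
  have := mem_hull3 (gp h) (v, false) (a := (h * v.1 + h - x.re) / h)
    (b := ((x.re - h * v.1) - (x.im - h * v.2)) / h) (c := (x.im - h * v.2) / h)
    (div_nonneg (by linarith) hh.le) (div_nonneg (by linarith) hh.le)
    (div_nonneg (by linarith) hh.le) (by field_simp; ring)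
  convert this using 1
  apply Complex.ext
  · simp only [tv, gp, Complex.add_re, Complex.smul_re, smul_eq_mul]
    simp
    field_simp
    ring
  · simp only [tv, gp, Complex.add_im, Complex.smul_im, smul_eq_mul]
    simp
    field_simp
    ring

theorem mem_t {h : ℝ} (hh : 0 < h) {v : Vt} {x : ℂ} (h1 : h * v.1 ≤ x.re)
    (h2 : x.re - h * v.1 ≤ x.im - h * v.2) (h3 : x.im ≤ h * v.2 + h) :
    x ∈ hull (gp h) (v, true) := by
  have := mem_hull3 (gp h) (v, true) (a := (h * v.2 + h - x.im) / h)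
    (b := (x.re - h * v.1) / h) (c := ((x.im - h * v.2) - (x.re - h * v.1)) / h)
    (div_nonneg (by linarith) hh.le) (div_nonneg (by linarith) hh.le)
    (div_nonneg (by linarith) hh.le) (by field_simp; ring)
  convert this using 1
  apply Complex.ext
  · simp only [tv, gp, Complex.add_re, Complex.smul_re, smul_eq_mul]
    simp
    field_simp
    ring
  · simp only [tv, gp, Complex.add_im, Complex.smul_im, smul_eq_mul]
    simp
    field_simp
    ring

theorem line_null (φ : ℂ →ₗ[ℝ] ℝ) (hφ : φ ≠ 0) (c : ℝ) : volume {x : ℂ | φ x = c} = 0 := by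
  rcases ({x : ℂ | φ x = c}).eq_empty_or_nonempty with h | ⟨x₀, hx₀⟩
  · rw [h, measure_empty]
  · have e : {x : ℂ | φ x = c} = (fun x => x + -x₀) ⁻¹' (LinearMap.ker φ : Set ℂ) := by
      ext x
      have : φ x₀ = c := hx₀
      simp [this, ← sub_eq_add_neg, sub_eq_zero]
    rw [e, measure_preimage_add_right]
    exact Measure.addHaar_submodule _ _ fun h => hφ (LinearMap.ker_eq_top.1 h)

theorem off_grid (h : ℝ) : ∀ᵐ x : ℂ, ∀ n : ℤ,
    x.re ≠ h * n ∧ x.im ≠ h * n ∧ x.re - x.im ≠ h * n := by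
  rw [ae_all_iff]
  intro n
  have h1 := line_null Complex.reLm (fun e => by simpa using LinearMap.congr_fun e 1) (h * n)
  have h2 := line_null Complex.imLm (fun e => by simpa using LinearMap.congr_fun e Complex.I)
    (h * n)
  have h3 := line_null (Complex.reLm - Complex.imLm)
    (fun e => by simpa using LinearMap.congr_fun e 1) (h * n)
  filter_upwards [measure_eq_zero_iff_ae_notMem.1 h1, measure_eq_zero_iff_ae_notMem.1 h2,
    measure_eq_zero_iff_ae_notMem.1 h3] with x a b c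
  exact ⟨by simpa using a, by simpa using b, by simpa using c⟩

theorem vtx_eq {h : ℝ} (hh : 0 < h) {x : ℂ} {v : Vt} (a : h * v.1 ≤ x.re) (b : x.re < h * v.1 + h)
    (c : h * v.2 ≤ x.im) (d : x.im < h * v.2 + h) : vtx h x = v := by
  have : x ∈ Sq h v := by
    rw [sq_eq hh]
    exact ⟨⟨a, b⟩, c, d⟩
  exact this

/-- Off the grid lines a point lies in exactly one triangle. -/
theorem tri_unique {h : ℝ} (hh : 0 < h) {x : ℂ}
    (hx : ∀ n : ℤ, x.re ≠ h * n ∧ x.im ≠ h * n ∧ x.re - x.im ≠ h * n) :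
    ∃ τ₀ : Tri, τ₀.1 = vtx h x ∧ x ∈ hull (gp h) τ₀ ∧ ∀ τ, x ∈ hull (gp h) τ → τ = τ₀ := by
  have hv : ∀ τ : Tri, x ∈ hull (gp h) τ → vtx h x = τ.1 := by
    rintro ⟨v, b⟩ hm
    have a1 := (hx (v.1 + 1)).1
    have a2 := (hx (v.2 + 1)).2.1
    push_cast at a1 a2
    rw [mul_add, mul_one] at a1 a2
    cases b
    · obtain ⟨h1, h2, h3⟩ := hull_f hh hm
      have := lt_of_le_of_ne h3 a1
      exact vtx_eq hh (by linarith) this h1 (by linarith)
    · obtain ⟨h1, h2, h3⟩ := hull_t hh hm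
      have := lt_of_le_of_ne h3 a2
      exact vtx_eq hh h1 (by linarith) (by linarith) this
  have hu : ∀ τ τ' : Tri, x ∈ hull (gp h) τ → x ∈ hull (gp h) τ' → τ = τ' := by
    rintro ⟨v, b⟩ ⟨v', b'⟩ hm hm'
    obtain rfl : v = v' := (hv _ hm).symm.trans (hv _ hm')
    have a3 := (hx (v.1 - v.2)).2.2
    push_cast at a3
    rw [mul_sub] at a3
    cases b <;> cases b'
    · rfl
    · exact absurd (by linarith [(hull_f hh hm).2.1, (hull_t hh hm').2.1]) a3
    · exact absurd (by linarith [(hull_t hh hm).2.1, (hull_f hh hm').2.1]) a3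
    · rfl
  have hs : x ∈ Sq h (vtx h x) := rfl
  rw [sq_eq hh] at hs
  obtain ⟨⟨a, b⟩, c, d⟩ : (h * (vtx h x).1 ≤ x.re ∧ x.re < h * (vtx h x).1 + h) ∧
    h * (vtx h x).2 ≤ x.im ∧ x.im < h * (vtx h x).2 + h := hs
  rcases le_total (x.im - h * (vtx h x).2) (x.re - h * (vtx h x).1) with e | e
  · have := mem_f hh c e b.le
    exact ⟨_, rfl, this, fun τ hτ => hu _ _ hτ this⟩
  · have := mem_t hh a e d.le
    exact ⟨_, rfl, this, fun τ hτ => hu _ _ hτ this⟩

theorem edge_off (e : Ed) : (eT1 e).1 = e.1 ∧ (|(eT2 e).1.1 - e.1.1| ≤ 1 ∧ |(eT2 e).1.2 - e.1.2| ≤ 1) ∧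
    |(eEnd e).1 - e.1.1| ≤ 1 ∧ |(eEnd e).2 - e.1.2| ≤ 1 := by
  obtain ⟨v, i⟩ := e
  fin_cases i <;> simp [eT1, eT2, eEnd]

end Msh

open Msh

theorem sq_count {h : ℝ} (hh : 0 < h) (A : Finset Tri) {B : Set ℂ}
    (hB : ∀ τ ∈ A, ∀ x, vtx h x = τ.1 → x ∈ B) :
    ENNReal.ofReal (A.card * h ^ 2) ≤ 2 * volume B := by
  have h1 : A.card ≤ (A.image Prod.fst).card * 2 := by
    have : A ⊆ (A.image Prod.fst) ×ˢ (Finset.univ : Finset Bool) := fun τ hτ =>
      Finset.mem_product.2 ⟨Finset.mem_image_of_mem _ hτ, Finset.mem_univ _⟩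
    simpa using Finset.card_le_card this
  have h2 : volume (⋃ v ∈ A.image Prod.fst, Sq h v) =
      (A.image Prod.fst).card * ENNReal.ofReal (h ^ 2) := by
    rw [measure_biUnion_finset (f := Sq h) (fun v _ w _ hvw => Set.disjoint_left.2 fun x hx hx' =>
      hvw (Eq.trans (Eq.symm hx) hx')) fun v _ => sq_meas hh v]
    simp [sq_vol hh]
  have h3 : volume (⋃ v ∈ A.image Prod.fst, Sq h v) ≤ volume B := by
    refine measure_mono fun x hx => ?_
    simp only [mem_iUnion, Finset.mem_image] at hx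
    obtain ⟨v, ⟨τ, hτ, rfl⟩, hx⟩ := hx
    exact hB τ hτ x hx
  rw [ENNReal.ofReal_mul (Nat.cast_nonneg _), ENNReal.ofReal_natCast]
  calc (A.card : ℝ≥0∞) * ENNReal.ofReal (h ^ 2)
      ≤ ((A.image Prod.fst).card * 2 : ℕ) * ENNReal.ofReal (h ^ 2) := by gcongr
    _ = 2 * ((A.image Prod.fst).card * ENNReal.ofReal (h ^ 2)) := by
        push_cast
        ring
    _ ≤ 2 * volume B := by
        rw [← h2]
        gcongr

theorem sq_cover {h : ℝ} (hh : 0 < h) (A : Finset Tri) {B : Set ℂ}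
    (hB : ∀ᵐ x : ℂ, x ∈ B → ∃ τ ∈ A, τ.1 = vtx h x) :
    volume B ≤ ENNReal.ofReal (A.card * h ^ 2) := by
  have h1 : volume B ≤ volume (⋃ τ ∈ A, Sq h τ.1) := by
    refine measure_mono_ae ?_
    filter_upwards [hB] with x hx hxB
    obtain ⟨τ, hτ, e⟩ := hx hxB
    exact mem_biUnion hτ e.symm
  refine h1.trans ((measure_biUnion_finset_le _ _).trans ?_)
  rw [ENNReal.ofReal_mul (Nat.cast_nonneg _), ENNReal.ofReal_natCast]
  simp [sq_vol hh]

theorem cover_cb (μ : Ms) [IsFiniteMeasure μ] {r ζ : ℝ} (hr : 0 < r)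
    (h : ∀ q, μ.real (cb q r) ≤ ζ) (K : ℕ) (q : ℂ) :
    μ.real (cb q (K * r)) ≤ (2 * K + 1) ^ 2 * ζ := by
  have key : ∀ a : ℝ, |a| ≤ K * r → ∃ i ∈ Finset.Icc (-(K : ℤ)) K, |a - r * i| ≤ r / 2 := by
    intro a ha
    have h1 := abs_le.1 (abs_sub_round (a / r))
    have h2 : |a / r| ≤ K := by
      rw [abs_div, abs_of_pos hr, div_le_iff₀ hr]
      exact ha
    have h3 := abs_le.1 h2
    refine ⟨round (a / r), Finset.mem_Icc.2 ⟨?_, ?_⟩, ?_⟩
    · have : ((-(K : ℤ) - 1 : ℤ) : ℝ) < round (a / r) := by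
        push_cast
        linarith
      have := Int.cast_lt.1 this
      omega
    · have : ((round (a / r) : ℤ) : ℝ) < ((K : ℤ) + 1 : ℤ) := by
        push_cast
        linarith
      have := Int.cast_lt.1 this
      omega
    · have e : a - r * round (a / r) = r * (a / r - round (a / r)) := by field_simp
      rw [e, abs_mul, abs_of_pos hr]
      have := mul_le_mul_of_nonneg_left (abs_sub_round (a / r)) hr.le
      linarith
  have hsub : cb q (K * r) ⊆
      ⋃ v ∈ Finset.Icc (-(K : ℤ)) K ×ˢ Finset.Icc (-(K : ℤ)) K, cb (q + gp r v) r := by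
    intro x hx
    rw [Metric.mem_closedBall, dist_eq_norm] at hx
    obtain ⟨i, hi, e1⟩ := key (x - q).re ((Complex.abs_re_le_norm _).trans hx)
    obtain ⟨j, hj, e2⟩ := key (x - q).im ((Complex.abs_im_le_norm _).trans hx)
    refine mem_biUnion (x := (i, j)) (Finset.mem_coe.2 (Finset.mem_product.2 ⟨hi, hj⟩)) ?_
    rw [Metric.mem_closedBall, dist_eq_norm]
    refine (Complex.norm_le_abs_re_add_abs_im _).trans ?_
    have a1 : (x - (q + gp r (i, j))).re = (x - q).re - r * i := by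
      simp only [gp, Complex.sub_re, Complex.add_re]
      ring
    have a2 : (x - (q + gp r (i, j))).im = (x - q).im - r * j := by
      simp only [gp, Complex.sub_im, Complex.add_im]
      ring
    rw [a1, a2]
    linarith
  refine (measureReal_mono hsub (measure_ne_top _ _)).trans ((measureReal_biUnion_finset_le _ _).trans ?_)
  refine (Finset.sum_le_card_nsmul _ _ ζ fun v _ => h _).trans (le_of_eq ?_)
  have e : ((K : ℤ) + 1 - -(K : ℤ)).toNat = 2 * K + 1 := by omega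
  rw [Finset.card_product, Int.card_Icc, e, nsmul_eq_mul]
  push_cast
  ring

theorem mesh {ρ : ℂ → ℝ} {gr : ℂ → ℂ} {L c₀ β R : ℝ} (hG : Good ρ gr L c₀ β R)
    {ε β₀ β₁ h h' : ℝ} {F : ℂ → ℂ} (hε : ε ≤ 1)
    (hF1 : ∀ z w, ‖(F z - z) - (F w - w)‖ ≤ ε * ‖z - w‖) (hF2 : ∀ z, ‖F z - z‖ ≤ ε)
    (hF3 : ∀ z, β₁ ≤ ρ z → F z = z) (hF4 : ∀ z, |ρ z| ≤ β₀ → ρ (F z) ≤ -2 * β₀)
    (hh : 0 < h) (hhh : h ≤ h') (h1 : 10 * L * h' ≤ β₀) (h2 : L * (ε + 10 * h') ≤ β₁) :
    ∃ 𝒯 : Finset Tri, PosOK h ε (F ∘ gp h) ∧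
      (∀ τ ∈ 𝒯, cb (gp h τ.1) (4 * h') ⊆ {z | 0 < ρ z} ∧ ∀ i, F (gp h (tv τ i)) ∈ cb 0 R) ∧
      (∀ e : Ed, ¬ (eT1 e ∈ 𝒯 ↔ eT2 e ∈ 𝒯) →
        Disjoint (segment ℝ (F (gp h e.1)) (F (gp h (eEnd e)))) {z | -β₀ < ρ z}) ∧
      (∀ᵐ x : ℂ, 2 * β₁ ≤ ρ x → ∃ τ₀ ∈ 𝒯, τ₀.1 = vtx h x ∧ x ∈ hull (F ∘ gp h) τ₀ ∧
        ∀ τ ∈ 𝒯, τ ≠ τ₀ → x ∉ hull (F ∘ gp h) τ) ∧
      ∀ (m : ℕ) (τ τ' : Tri), |τ.1.1 - τ'.1.1| < m → |τ.1.2 - τ'.1.2| < m →
        hull (F ∘ gp h) τ ⊆ cb (gp h τ'.1) (3 * m * h + ε) := by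
  have hL := hG.hL
  have hε0 : 0 ≤ ε := (norm_nonneg _).trans (hF2 0)
  have hLh : 0 < L * h := mul_pos hL hh
  have hLh' : L * h ≤ L * h' := mul_le_mul_of_nonneg_left hhh hL.le
  have hLε : 0 ≤ L * ε := mul_nonneg hL.le hε0
  have lip : ∀ z w (d : ℝ), ‖w - z‖ ≤ d → ρ z - L * d ≤ ρ w ∧ ρ w ≤ ρ z + L * d := by
    intro z w d hd
    have a := abs_le.1 ((hG.lip z w).trans (mul_le_mul_of_nonneg_left hd hL.le))
    exact ⟨by linarith [a.1], by linarith [a.2]⟩
  have hfin : {τ : Tri | 5 * L * h' ≤ ρ (gp h τ.1)}.Finite := by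
    refine ((Finset.Icc (-⌈R / h⌉) ⌈R / h⌉ ×ˢ Finset.Icc (-⌈R / h⌉) ⌈R / h⌉) ×ˢ
      (Finset.univ : Finset Bool)).finite_toSet.subset fun τ hτ => ?_
    have hτ : 5 * L * h' ≤ ρ (gp h τ.1) := hτ
    have hb := hG.ball (gp h τ.1) (by linarith [hG.hβ])
    have key : ∀ n : ℤ, |h * n| ≤ R → n ∈ Finset.Icc (-⌈R / h⌉) ⌈R / h⌉ := by
      intro n hn
      rw [abs_mul, abs_of_pos hh, mul_comm, ← le_div_iff₀ hh] at hn
      have := hn.trans (Int.le_ceil _)
      rw [← Int.cast_abs, Int.cast_le] at this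
      exact Finset.mem_Icc.2 (abs_le.1 this)
    have a1 : |h * τ.1.1| ≤ ‖gp h τ.1‖ := Complex.abs_re_le_norm (gp h τ.1)
    have a2 : |h * τ.1.2| ≤ ‖gp h τ.1‖ := Complex.abs_im_le_norm (gp h τ.1)
    exact Finset.mem_coe.2 (Finset.mem_product.2 ⟨Finset.mem_product.2
      ⟨key _ (by linarith), key _ (by linarith)⟩, Finset.mem_univ _⟩)
  have hFd : ∀ z w : ℂ, ‖F z - w‖ ≤ ‖z - w‖ + ε := by
    intro z w
    have := norm_add_le (F z - z) (z - w)
    rw [sub_add_sub_cancel] at this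
    linarith [hF2 z]
  refine ⟨hfin.toFinset, fun v => ⟨hF2 _, fun v' => hF1 _ _⟩, ?_, ?_, ?_, ?_⟩
  · intro τ hτ
    rw [Finite.mem_toFinset] at hτ
    have hτ : 5 * L * h' ≤ ρ (gp h τ.1) := hτ
    refine ⟨fun z hz => ?_, fun i => ?_⟩
    · rw [Metric.mem_closedBall, dist_eq_norm] at hz
      have := (lip _ _ _ hz).1
      show 0 < ρ z
      linarith
    · have a := (lip _ _ _ (tv_near hh τ i)).1
      have b := hG.ball (gp h (tv τ i)) (by linarith [hG.hβ])
      have c := hFd (gp h (tv τ i)) 0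
      rw [sub_zero, sub_zero] at c
      rw [mem_closedBall_zero_iff]
      linarith
  · intro e he
    simp only [Finite.mem_toFinset, mem_ofPred_eq] at he
    obtain ⟨e1, e2, e3⟩ := edge_off e
    rw [e1] at he
    have a := lip _ _ _ (gp_near hh e2.1 e2.2)
    have b := gp_near hh e3.1 e3.2
    push_cast at a b
    have c : |ρ (gp h e.1)| ≤ β₀ := by
      by_cases hc : 5 * L * h' ≤ ρ (gp h e.1)
      · have : ¬ 5 * L * h' ≤ ρ (gp h (eT2 e).1) := fun hc' => he (iff_of_true hc hc')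
        exact abs_le.2 ⟨by linarith, by linarith [a.1]⟩
      · have : 5 * L * h' ≤ ρ (gp h (eT2 e).1) := by
          by_contra hc'
          exact he (iff_of_false hc hc')
        exact abs_le.2 ⟨by linarith [a.2], by linarith⟩
    have d := hF4 _ c
    have f : ‖F (gp h (eEnd e)) - F (gp h e.1)‖ ≤ 4 * h := by
      have f1 := hF1 (gp h (eEnd e)) (gp h e.1)
      have f2 := norm_add_le ((F (gp h (eEnd e)) - gp h (eEnd e)) - (F (gp h e.1) - gp h e.1))
        (gp h (eEnd e) - gp h e.1)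
      have f3 : (F (gp h (eEnd e)) - gp h (eEnd e)) - (F (gp h e.1) - gp h e.1) +
          (gp h (eEnd e) - gp h e.1) = F (gp h (eEnd e)) - F (gp h e.1) := by ring
      have f4 := mul_le_mul_of_nonneg_right hε (norm_nonneg (gp h (eEnd e) - gp h e.1))
      rw [f3] at f2
      linarith
    refine Set.disjoint_left.2 fun z hz hz' => ?_
    have g1 := (convex_closedBall (F (gp h e.1)) (4 * h)).segment_subset
      (Metric.mem_closedBall_self (by positivity))
      (by rw [Metric.mem_closedBall, dist_eq_norm]; exact f) hz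
    rw [Metric.mem_closedBall, dist_eq_norm] at g1
    have g2 := (lip _ _ _ g1).2
    have g3 : -β₀ < ρ z := hz'
    linarith
  · filter_upwards [off_grid h] with x hx hρ
    obtain ⟨τ₀, a1, a2, a3⟩ := tri_unique hh hx
    have fix : ∀ τ : Tri, ‖x - gp h τ.1‖ ≤ 2 * h + ε → hull (F ∘ gp h) τ = hull (gp h) τ := by
      intro τ hτ
      refine hull_congr fun i => hF3 _ ?_
      have b1 := norm_sub_le (gp h (tv τ i) - gp h τ.1) (x - gp h τ.1)
      rw [sub_sub_sub_cancel_right] at b1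
      have b2 := (lip x (gp h (tv τ i)) (ε + 4 * h) (by linarith [tv_near hh τ i])).1
      linarith
    have b := vtx_near hh x
    rw [← a1] at b
    refine ⟨τ₀, ?_, a1, ?_, fun τ _ hne hm => hne (a3 τ ?_)⟩
    · rw [Finite.mem_toFinset]
      have := (lip x (gp h τ₀.1) (2 * h) (by rwa [norm_sub_rev])).1
      show 5 * L * h' ≤ ρ (gp h τ₀.1)
      linarith
    · rw [fix τ₀ (by linarith)]
      exact a2
    · rw [← fix τ]
      · exact hm
      · have := hull_sub (convex_closedBall (gp h τ.1) (2 * h + ε)) (fun i => by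
          rw [Metric.mem_closedBall, dist_eq_norm]
          exact (hFd _ _).trans (by linarith [tv_near hh τ i])) hm
        rwa [Metric.mem_closedBall, dist_eq_norm] at this
  · intro m τ τ' a1 a2
    refine hull_sub (convex_closedBall _ _) fun i => ?_
    rw [Metric.mem_closedBall, dist_eq_norm]
    refine (hFd _ _).trans ?_
    have b := tv_off τ i
    rw [abs_lt] at a1 a2
    have c := gp_near hh (v := tv τ i) (w := τ'.1) (m := m) (abs_le.2 ⟨by omega, by omega⟩)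
      (abs_le.2 ⟨by omega, by omega⟩)
    push_cast at c
    have d : 0 ≤ m * h := by positivity
    linarith

end Pool.Agent.MP_20201c_gt.H91
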