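import Pool.Agent.MP_20201c_gt.H91.KitM3

/-! Cutting families by discs. -/

open MeasureTheory Set Filter Topology
open scoped ENNReal

namespace Pool.Agent.MP_20201c_gt.H91

namespace M4

/-- Clamp to the unit interval. -/
noncomputable def cl (t : ℝ) : ℝ := max 0 (min 1 t)

theorem cl_nonneg (t : ℝ) : 0 ≤ cl t := le_max_left _ _

theorem cl_le (t : ℝ) : cl t ≤ 1 := max_le zero_le_one (min_le_left _ _)

theorem cl_mono {s t : ℝ} (h : s ≤ t) : cl s ≤ cl t := max_le_max le_rfl (min_le_min le_rfl h)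

theorem lt_of_lt_cl {r t : ℝ} (h0 : 0 ≤ t) (h : t < cl r) : t < r :=
  ((lt_max_iff.1 h).resolve_left h0.not_gt).trans_le (min_le_right _ _)

theorem lt_of_cl_lt {r t : ℝ} (h1 : t ≤ 1) (h : cl r < t) : r < t :=
  (min_lt_iff.1 ((le_max_right _ _).trans_lt h)).resolve_left h1.not_gt

theorem le_cl {r : ℝ} (h : cl r < 1) : r ≤ cl r :=
  le_of_forall_gt fun t ht =>
    (lt_of_cl_lt (min_le_right t 1) (lt_min ht h)).trans_le (min_le_left _ _)

theorem cl_le' {r : ℝ} (h : 0 < cl r) : cl r ≤ r :=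
  le_of_forall_lt fun t ht =>
    (le_max_left t 0).trans_lt (lt_of_lt_cl (le_max_right t 0) (max_lt ht h))

theorem cont_cl {X : Type} [TopologicalSpace X] {w : X → ℝ} {d : X → ℂ} (hw : Continuous w)
    (hd : Continuous d) : Continuous fun x => cl (w x / ‖d x‖ ^ 2) • d x := by
  refine continuous_iff_continuousAt.2 fun x => ?_
  by_cases h : d x = 0
  · have t : Tendsto (fun x => ‖d x‖) (𝓝 x) (𝓝 0) := by simpa [h] using hd.norm.tendsto x
    rw [ContinuousAt, h, smul_zero]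
    refine squeeze_zero_norm (fun z => ?_) t
    rw [norm_smul, Real.norm_of_nonneg (cl_nonneg _)]
    exact mul_le_of_le_one_left (norm_nonneg _) (cl_le _)
  · exact (continuousAt_const.max (continuousAt_const.min (hw.continuousAt.div
      (hd.norm.pow 2).continuousAt (by simpa using h)))).smul hd.continuousAt

/-- Radial projection to the disc. -/
noncomputable def rad (y : ℂ) (R : ℝ) (c : ℂ) : ℂ := y + (R / max R ‖c - y‖) • (c - y)

theorem rad_eq {y c : ℂ} {R : ℝ} (hR : 0 < R) (h : c ∈ cb y R) : rad y R c = c := by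
  rw [rad, max_eq_left (mem_closedBall_iff_norm.1 h), div_self hR.ne', one_smul, add_sub_cancel]

theorem rad_mem {y a b c : ℂ} {R : ℝ} (hR : 0 < R) (h : c ∈ segment ℝ a b) :
    rad y R c ∈ cb y R ∩ convexHull ℝ {y, a, b} := by
  have h0 : 0 < max R ‖c - y‖ := lt_max_of_lt_left hR
  constructor
  · rw [mem_closedBall_iff_norm, rad, add_sub_cancel_left, norm_smul,
      Real.norm_of_nonneg (by positivity), div_mul_eq_mul_div, div_le_iff₀ h0]
    exact mul_le_mul_of_nonneg_left (le_max_right _ _) hR.le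
  · have hc := convex_convexHull ℝ ({y, a, b} : Set ℂ)
    have hs := subset_convexHull ℝ ({y, a, b} : Set ℂ)
    exact hc.add_smul_sub_mem (hs (by simp)) (hc.segment_subset (hs (by simp)) (hs (by simp)) h)
      ⟨by positivity, (div_le_one h0).2 (le_max_left _ _)⟩

theorem cont_rad {c : ℂ × ℝ × ℂ × ℂ → ℂ} (hc : Continuous c) :
    ContinuousOn (fun q => rad q.1 q.2.1 (c q)) {q | 0 < q.2.1} := by
  have h1 : Continuous fun q : ℂ × ℝ × ℂ × ℂ => q.2.1 := by fun_prop
  have h2 : Continuous fun q => c q - q.1 := hc.sub continuous_fst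
  exact continuous_fst.continuousOn.add ((h1.continuousOn.div (h1.max h2.norm).continuousOn
    fun q hq => (lt_max_of_lt_left hq).ne').smul h2.continuousOn)

theorem seg_mem (a d : ℂ) {u t v : ℝ} (h1 : u ≤ t) (h2 : t ≤ v) :
    a + t • d ∈ segment ℝ (a + u • d) (a + v • d) := by
  obtain ⟨α, β, hα, hβ, hαβ, rfl⟩ : t ∈ segment ℝ u v := by
    rw [segment_eq_Icc (h1.trans h2)]; exact ⟨h1, h2⟩
  refine ⟨α, β, hα, hβ, hαβ, ?_⟩
  rw [smul_add, smul_add, add_add_add_comm, ← add_smul, hαβ, one_smul, add_smul, smul_assoc,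
    smul_assoc]

/-- The discriminant. -/
noncomputable def dis (y : ℂ) (R : ℝ) (a b : ℂ) : ℝ :=
  ip (y - a) (b - a) ^ 2 - ‖b - a‖ ^ 2 * (‖y - a‖ ^ 2 - R ^ 2)

theorem mem_iff {y a b : ℂ} {R : ℝ} (hR : 0 < R) (h : a ≠ b) (t : ℝ) :
    a + t • (b - a) ∈ cb y R ↔ (‖b - a‖ ^ 2 * t - ip (y - a) (b - a)) ^ 2 ≤ dis y R a b := by
  have n0 : 0 < ‖b - a‖ ^ 2 := by have := sub_ne_zero.2 h.symm; positivity
  have e : (‖b - a‖ ^ 2 * t - ip (y - a) (b - a)) ^ 2 - dis y R a b =
      ‖b - a‖ ^ 2 * (‖a + t • (b - a) - y‖ ^ 2 - R ^ 2) := by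
    simp only [dis, ip, Complex.sq_norm, Complex.normSq_apply, Complex.sub_re, Complex.sub_im,
      Complex.add_re, Complex.add_im, Complex.smul_re, Complex.smul_im, smul_eq_mul]
    ring
  rw [mem_closedBall_iff_norm, ← sub_nonpos (b := dis y R a b), e, ← not_lt (a := (0 : ℝ)),
    mul_pos_iff_of_pos_left n0, not_lt, sub_nonpos, pow_le_pow_iff_left₀ (norm_nonneg _) hR.le
    two_ne_zero]

/-- The cut points. -/
noncomputable def cut (ε : ℝ) (q : ℂ × ℝ × ℂ × ℂ) : ℂ :=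
  q.2.2.1 + cl ((ip (q.1 - q.2.2.1) (q.2.2.2 - q.2.2.1) + ε * √(dis q.1 q.2.1 q.2.2.1 q.2.2.2)) /
    ‖q.2.2.2 - q.2.2.1‖ ^ 2) • (q.2.2.2 - q.2.2.1)

theorem cont_cut (ε : ℝ) : Continuous (cut ε) :=
  Continuous.add (by fun_prop) (cont_cl (by unfold dis ip; fun_prop) (by fun_prop))

theorem restrict_msr {m : ℕ} (a b : Fin m → ℂ) (A : Set ℂ) :
    (msr a b).restrict A = ∑ i, (sg (a i) (b i)).restrict A := by
  simp only [msr, ← Measure.restrictₗ_apply, map_sum]

end M4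

open M4 in
/-- Clamped cut points. The argument is (centre, radius, a, b). -/
theorem exists_cut : ∃ cA cB c1 c2 : ℂ × ℝ × ℂ × ℂ → ℂ,
    (ContinuousOn cA {q | 0 < q.2.1} ∧ ContinuousOn cB {q | 0 < q.2.1} ∧
      ContinuousOn c1 {q | 0 < q.2.1} ∧ ContinuousOn c2 {q | 0 < q.2.1}) ∧
    ∀ (y : ℂ) (R : ℝ) (a b : ℂ), 0 < R →
      cA (y, R, a, b) ∈ cb y R ∩ convexHull ℝ {y, a, b} ∧
      cB (y, R, a, b) ∈ cb y R ∩ convexHull ℝ {y, a, b} ∧
      c1 (y, R, a, b) ∈ segment ℝ a b ∧ c2 (y, R, a, b) ∈ segment ℝ a b ∧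
      (sg a b).restrict (cb y R) = sg (cA (y, R, a, b)) (cB (y, R, a, b)) ∧
      (sg a b).restrict (cb y R)ᶜ = sg a (c1 (y, R, a, b)) + sg (c2 (y, R, a, b)) b := by
  refine ⟨fun q => rad q.1 q.2.1 (cut (-1) q), fun q => rad q.1 q.2.1 (cut 1 q), cut (-1), cut 1,
    ⟨cont_rad (cont_cut _), cont_rad (cont_cut _), (cont_cut _).continuousOn,
      (cont_cut _).continuousOn⟩, fun y R a b hR => ?_⟩
  have sm : ∀ t, a + cl t • (b - a) ∈ segment ℝ a b := fun t => by
    have := seg_mem a (b - a) (cl_nonneg t) (cl_le t)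
    rwa [zero_smul, add_zero, one_smul, add_sub_cancel] at this
  refine ⟨rad_mem hR (sm _), rad_mem hR (sm _), sm _, sm _, ?_⟩
  simp only [cut]
  rcases eq_or_ne a b with rfl | h
  · simp [sg_self]
  have n0 : 0 < ‖b - a‖ ^ 2 := by have := sub_ne_zero.2 h.symm; positivity
  have hm := mem_iff (y := y) hR h
  set n := ‖b - a‖ ^ 2
  set p := ip (y - a) (b - a)
  set D := dis y R a b
  set r1 := (p + -1 * √D) / n
  set r2 := (p + 1 * √D) / n
  have e1 : ∀ t, r1 ≤ t ↔ -√D ≤ n * t - p := fun t => by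
    rw [div_le_iff₀ n0]; constructor <;> intro h <;> linarith
  have e2 : ∀ t, t ≤ r2 ↔ n * t - p ≤ √D := fun t => by
    rw [le_div_iff₀ n0]; constructor <;> intro h <;> linarith
  have h12 : r1 ≤ r2 := div_le_div_of_nonneg_right (by linarith [Real.sqrt_nonneg D]) n0.le
  have hin : r1 < r2 → ∀ t, r1 ≤ t → t ≤ r2 → a + t • (b - a) ∈ cb y R := fun hr t h1 h2 => by
    have : 0 < √D := by linarith [(div_lt_div_iff_of_pos_right n0).1 hr]
    rw [hm, Real.sq_le (Real.sqrt_pos.1 this).le]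
    exact ⟨(e1 t).1 h1, (e2 t).1 h2⟩
  have k1 : (sg a b).restrict (cb y R) = sg (a + cl r1 • (b - a)) (a + cl r2 • (b - a)) := by
    refine sg_restrict_Icc a b Metric.isClosed_closedBall.measurableSet (cl_nonneg _) (cl_mono h12)
      (cl_le _) (fun t ht => ?_) fun t ht h' hc => ?_
    · have a1 := lt_of_cl_lt (ht.2.le.trans (cl_le _)) ht.1
      have a2 := lt_of_lt_cl ((cl_nonneg _).trans ht.1.le) ht.2
      exact hin (a1.trans a2) t a1.le a2.le
    · have := abs_le.1 (Real.abs_le_sqrt ((hm t).1 hc))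
      rcases h' with h' | h'
      · exact (lt_of_lt_cl ht.1 h').not_ge ((e1 t).2 this.1)
      · exact (lt_of_cl_lt ht.2 h').not_ge ((e2 t).2 this.2)
  constructor
  · rw [k1]
    rcases (cl_mono h12).eq_or_lt with h' | h'
    · rw [h', sg_self, sg_self]
    · have a1 := le_cl (h'.trans_le (cl_le _))
      have a2 := cl_le' ((cl_nonneg _).trans_lt h')
      have a3 := (a1.trans_lt h').trans_le a2
      rw [rad_eq hR (hin a3 _ a1 (h'.le.trans a2)), rad_eq hR (hin a3 _ (a1.trans h'.le) a2)]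
  · have k2 := Measure.restrict_add_restrict_compl (μ := sg a b)
      (Metric.isClosed_closedBall (x := y) (ε := R)).measurableSet
    have k3 : a + cl r2 • (b - a) ∈ segment ℝ (a + cl r1 • (b - a)) b := by
      have := seg_mem a (b - a) (cl_mono h12) (cl_le r2)
      rwa [one_smul, add_sub_cancel] at this
    rw [k1] at k2
    refine (Measure.add_right_inj (sg (a + cl r1 • (b - a)) (a + cl r2 • (b - a))) _ _).1 ?_
    rw [k2, add_left_comm, ← sg_split k3, ← sg_split (sm r1)]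

variable {W : Set ℂ} {X : Type} [TopologicalSpace X]

theorem Fam.restrict_cb {u : X → Ms} (h : Fam W u) (hW : Convex ℝ W) {y : ℂ} (hy : y ∈ W) {R : ℝ}
    (hR : 0 < R) : Fam (W ∩ cb y R) fun x => (u x).restrict (cb y R) := by
  obtain ⟨cA, cB, c1, c2, ⟨h1, h2, -, -⟩, hc⟩ := exists_cut
  obtain ⟨m, a, b, hab, hm, e⟩ := h
  have ct : ∀ i, Continuous fun x => (y, R, a i x, b i x) := fun i =>
    continuous_const.prodMk (continuous_const.prodMk ((hab i).1.prodMk (hab i).2))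
  have sub : ∀ i x, convexHull ℝ {y, a i x, b i x} ⊆ W := fun i x =>
    convexHull_min (insert_subset hy (insert_subset (hm i x).1 (singleton_subset_iff.2 (hm i x).2)))
      hW
  refine ⟨m, fun i x => cA (y, R, a i x, b i x), fun i x => cB (y, R, a i x, b i x),
    fun i => ⟨h1.comp_continuous (ct i) fun _ => hR, h2.comp_continuous (ct i) fun _ => hR⟩,
    fun i x => ⟨⟨sub i x (hc _ _ _ _ hR).1.2, (hc _ _ _ _ hR).1.1⟩,
      ⟨sub i x (hc _ _ _ _ hR).2.1.2, (hc _ _ _ _ hR).2.1.1⟩⟩, fun x => ?_⟩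
  simp only [e x, M4.restrict_msr]
  exact Finset.sum_congr rfl fun i _ => (hc _ _ _ _ hR).2.2.2.2.1

theorem Fam.restrict_compl_cb {u : X → Ms} (h : Fam W u) (hW : Convex ℝ W) (y : ℂ) {R : ℝ}
    (hR : 0 < R) : Fam W fun x => (u x).restrict (cb y R)ᶜ := by
  obtain ⟨cA, cB, c1, c2, ⟨-, -, h1, h2⟩, hc⟩ := exists_cut
  obtain ⟨m, a, b, hab, hm, e⟩ := h
  have ct : ∀ i, Continuous fun x => (y, R, a i x, b i x) := fun i =>
    continuous_const.prodMk (continuous_const.prodMk ((hab i).1.prodMk (hab i).2))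
  have sub : ∀ i x, segment ℝ (a i x) (b i x) ⊆ W := fun i x =>
    hW.segment_subset (hm i x).1 (hm i x).2
  have k := (Fam.of_fintype (W := W) a (fun i x => c1 (y, R, a i x, b i x))
    (fun i => ⟨(hab i).1, h1.comp_continuous (ct i) fun _ => hR⟩)
    fun i x => ⟨(hm i x).1, sub i x (hc _ _ _ _ hR).2.2.1⟩).add
    (Fam.of_fintype (W := W) (fun i x => c2 (y, R, a i x, b i x)) b
    (fun i => ⟨h2.comp_continuous (ct i) fun _ => hR, (hab i).2⟩)
    fun i x => ⟨sub i x (hc _ _ _ _ hR).2.2.2.1, (hm i x).2⟩)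
  refine Eq.mp (congrArg (Fam W) (funext fun x => ?_)) k
  rw [e x, M4.restrict_msr, ← Finset.sum_add_distrib]
  exact Finset.sum_congr rfl fun i _ => (hc _ _ _ _ hR).2.2.2.2.2.symm

theorem Poly.restrict_cb {μ : Ms} (h : Poly W μ) (hW : Convex ℝ W) {y : ℂ} (hy : y ∈ W) {R : ℝ}
    (hR : 0 < R) : Poly (W ∩ cb y R) (μ.restrict (cb y R)) :=
  ((Fam.const (X := Unit) h).restrict_cb hW hy hR).poly ()

theorem Poly.restrict_compl {μ : Ms} (h : Poly W μ) (hW : Convex ℝ W) (y : ℂ) {R : ℝ}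
    (hR : 0 < R) : Poly W (μ.restrict (cb y R)ᶜ) :=
  ((Fam.const (X := Unit) h).restrict_compl_cb hW y hR).poly ()

theorem Fam.continuous_cb {u : X → Ms} (h : Fam W u) (y : ℂ) {R : ℝ} (hR : 0 < R) :
    Continuous fun x => (u x).real (cb y R) := by
  simpa only [measureReal_restrict_apply_univ] using
    ((h.mono (subset_univ W)).restrict_cb convex_univ (mem_univ y) hR).continuous_real

/-- Gluing a new inside to an old outside. -/
theorem par_glue {G : Set ℂ} {β : ℂ → F2} {T V : Ms} (hW : Convex ℝ W) (hT : Poly W T)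
    (hp : Par G W β T) {y : ℂ} (hy : y ∈ W) {R : ℝ} (hR : 0 < R) (hV : Poly (W ∩ cb y R) V) :
    Par G W β (T.restrict (cb y R)ᶜ + V) ↔
      Par G (W ∩ cb y R) (bdy (T.restrict (cb y R))) V := by
  have p1 := hT.restrict_cb hW hy hR
  have p2 := hT.restrict_compl hW y hR
  have k : ∀ z ∈ W, z ∈ G → (bdy (T.restrict (cb y R)ᶜ + V) z = β z ↔
      bdy V z = bdy (T.restrict (cb y R)) z) := fun z hz hG => by
    have e := bdy_add p1 p2 z
    rw [Measure.restrict_add_restrict_compl Metric.isClosed_closedBall.measurableSet] at e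
    rw [← hp z hz hG, bdy_add p2 hV, e, add_comm, add_left_inj]
  refine ⟨fun h z hz hG => (k z hz.1 hG).1 (h z hz.1 hG), fun h z hz hG => (k z hz hG).2 ?_⟩
  by_cases hc : z ∈ cb y R
  · exact h z ⟨hz, hc⟩ hG
  · rw [hV.bdy_of_notMem fun h => hc h.2, p1.bdy_of_notMem fun h => hc h.2]

/-- Two measures with the same parity that agree near the circle have the same local data. -/
theorem bdy_cb_congr {G : Set ℂ} {β : ℂ → F2} {T T' : Ms} (hp : Par G W β T) (hp' : Par G W β T')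
    {y : ℂ} {R : ℝ} {A : Set ℂ} (hAm : MeasurableSet A) (hA : ∀ z ∈ Metric.sphere y R, A ∈ 𝓝 z)
    (h : T.restrict A = T'.restrict A) :
    ∀ z ∈ W ∩ cb y R, z ∈ G → bdy (T.restrict (cb y R)) z = bdy (T'.restrict (cb y R)) z := by
  intro z hz hG
  rcases (Metric.mem_closedBall.1 hz.2).eq_or_lt with hd | hd
  · rw [← bdy_restrict_nhds _ (hA z hd), ← bdy_restrict_nhds (T'.restrict _) (hA z hd),
      Measure.restrict_comm hAm, h, ← Measure.restrict_comm hAm]
  · have : cb y R ∈ 𝓝 z := Metric.closedBall_mem_nhds_of_mem hd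
    rw [bdy_restrict_nhds _ this, bdy_restrict_nhds _ this, hp z hz.1 hG, hp' z hz.1 hG]

end Pool.Agent.MP_20201c_gt.H91
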