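import Pool.Agent.MP_20201c_gt.H91.Defs5
import Pool.Agent.MP_20201c_gt.H91.KitM4

/-! Triangles. -/

open MeasureTheory Set Filter Topology
open scoped ENNReal

namespace Pool.Agent.MP_20201c_gt.H91

theorem stMemHull {a b c x : ℂ} : x ∈ convexHull ℝ ({a, b, c} : Set ℂ) ↔
    ∃ s t : ℝ, 0 ≤ s ∧ 0 ≤ t ∧ s + t ≤ 1 ∧ x = a + s • (b - a) + t • (c - a) := by
  constructor
  · intro hx
    have hc : Convex ℝ {x : ℂ | ∃ s t : ℝ, 0 ≤ s ∧ 0 ≤ t ∧ s + t ≤ 1 ∧
        x = a + s • (b - a) + t • (c - a)} := by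
      rintro x ⟨s, t, hs, ht, hst, rfl⟩ y ⟨s', t', hs', ht', hst', rfl⟩ p q hp hq hpq
      refine ⟨p * s + q * s', p * t + q * t', by positivity, by positivity, by nlinarith, ?_⟩
      obtain rfl : q = 1 - p := by linarith
      simp only [Complex.real_smul]
      push_cast
      ring
    refine convexHull_min ?_ hc hx
    rintro y (rfl | rfl | rfl)
    · exact ⟨0, 0, le_rfl, le_rfl, by norm_num, by simp⟩
    · exact ⟨1, 0, by norm_num, le_rfl, by norm_num, by simp⟩
    · exact ⟨0, 1, le_rfl, by norm_num, by norm_num, by simp⟩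
  · rintro ⟨s, t, hs, ht, hst, rfl⟩
    have h := (convex_convexHull ℝ ({a, b, c} : Set ℂ)).sum_mem (t := Finset.univ)
      (w := ![1 - s - t, s, t]) (z := ![a, b, c])
      (by intro i _; fin_cases i <;> simp <;> linarith)
      (by simp [Fin.sum_univ_three]; ring)
      (by intro i _; apply subset_convexHull; fin_cases i <;> simp)
    convert h using 1
    simp only [Fin.sum_univ_three, Complex.real_smul]
    simp
    ring

/-- All three numbers have the same strict sign. -/
def stSame (u v w : ℝ) : Prop := (0 < u ∧ 0 < v ∧ 0 < w) ∨ (u < 0 ∧ v < 0 ∧ w < 0)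

theorem stSame_rot {u v w : ℝ} : stSame u v w ↔ stSame v w u := by
  unfold stSame; tauto

theorem stSame_not {A B C u1 u2 u3 : ℝ} (hAB : 0 < A * B) (hAC : 0 < A * C)
    (hu : u2 * A + u3 * B + u1 * C = 0) : ¬ stSame u1 u2 u3 := by
  have hA : 0 < A * A := by
    rcases eq_or_ne A 0 with h | h
    · simp [h] at hAB
    · exact mul_self_pos.mpr h
  have h : u2 * (A * A) + u3 * (A * B) + u1 * (A * C) = 0 := by linear_combination A * hu
  rintro (⟨h1, h2, h3⟩ | ⟨h1, h2, h3⟩)
  · nlinarith [mul_pos h2 hA, mul_pos h3 hAB, mul_pos h1 hAC]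
  · nlinarith [mul_pos (neg_pos.mpr h2) hA, mul_pos (neg_pos.mpr h3) hAB,
      mul_pos (neg_pos.mpr h1) hAC]

theorem stSame_iff {A B C u1 u2 u3 : ℝ} (hAB : A * B < 0) (hAC : A * C < 0)
    (hu : u2 * A + u3 * B + u1 * C = 0) : stSame u1 u2 u3 ↔ 0 < u1 * u3 := by
  have hA : 0 < A * A := by
    rcases eq_or_ne A 0 with h | h
    · simp [h] at hAB
    · exact mul_self_pos.mpr h
  have h : u2 * (A * A) + u3 * (A * B) + u1 * (A * C) = 0 := by linear_combination A * hu
  constructor
  · rintro (⟨h1, -, h3⟩ | ⟨h1, -, h3⟩)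
    · exact mul_pos h1 h3
    · exact mul_pos_of_neg_of_neg h1 h3
  · intro h13
    rcases mul_pos_iff.mp h13 with ⟨h1, h3⟩ | ⟨h1, h3⟩
    · refine Or.inl ⟨h1, ?_, h3⟩
      by_contra h2
      push Not at h2
      nlinarith [mul_pos h3 (neg_pos.mpr hAB), mul_pos h1 (neg_pos.mpr hAC),
        mul_nonneg (neg_nonneg.mpr h2) hA.le]
    · refine Or.inr ⟨h1, ?_, h3⟩
      by_contra h2
      push Not at h2
      nlinarith [mul_pos_of_neg_of_neg h3 hAB, mul_pos_of_neg_of_neg h1 hAC,
        mul_nonneg h2 hA.le]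

open Classical in
theorem stSign {x y z w : ℝ} (hx : x ≠ 0) (hy : y ≠ 0) (hz : z ≠ 0) (hw : w ≠ 0) :
    ((if x * y < 0 then 1 else 0) + (if z * w < 0 then 1 else 0) : F2) =
      (if 0 < x * z then 1 else 0) + (if 0 < y * w then 1 else 0) := by
  rcases hx.lt_or_gt with hx | hx <;> rcases hy.lt_or_gt with hy | hy <;>
    rcases hz.lt_or_gt with hz | hz <;> rcases hw.lt_or_gt with hw | hw <;>
    simp [mul_neg_iff, mul_pos_iff, hx, hy, hz, hw, hx.not_gt, hy.not_gt, hz.not_gt,
      hw.not_gt] <;> decide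

open Classical in
theorem stAlone {A B C u1 u2 u3 v1 v2 v3 : ℝ} (hAB : A * B < 0) (hAC : A * C < 0)
    (hu : u2 * A + u3 * B + u1 * C = 0) (hv : v2 * A + v3 * B + v1 * C = 0)
    (h1 : A ≠ B → u1 ≠ 0 ∧ v1 ≠ 0) (h3 : C ≠ A → u3 ≠ 0 ∧ v3 ≠ 0) :
    ((if A * B < 0 ∧ u1 * v1 < 0 then 1 else 0) + (if B * C < 0 ∧ u2 * v2 < 0 then 1 else 0) +
      (if C * A < 0 ∧ u3 * v3 < 0 then 1 else 0) : F2) =
      (if stSame u1 u2 u3 then 1 else 0) + (if stSame v1 v2 v3 then 1 else 0) := by
  have hBC : ¬ B * C < 0 := by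
    intro h
    nlinarith [mul_pos_of_neg_of_neg hAB hAC, mul_nonneg (mul_self_nonneg A) (neg_pos.mpr h).le]
  have hCA : C * A < 0 := by rwa [mul_comm]
  obtain ⟨a1, a2⟩ := h1 (by rintro rfl; exact absurd hAB (not_lt.mpr (mul_self_nonneg _)))
  obtain ⟨a3, a4⟩ := h3 (by rintro rfl; exact absurd hAC (not_lt.mpr (mul_self_nonneg _)))
  simp only [stSame_iff hAB hAC hu, stSame_iff hAB hAC hv, hAB, hBC, hCA, true_and, false_and,
    if_false, add_zero]
  exact stSign a1 a2 a3 a4

open Classical in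
theorem stCore {A B C u1 u2 u3 v1 v2 v3 : ℝ} (hA : A ≠ 0) (hB : B ≠ 0) (hC : C ≠ 0)
    (hu : u2 * A + u3 * B + u1 * C = 0) (hv : v2 * A + v3 * B + v1 * C = 0)
    (h1 : A ≠ B → u1 ≠ 0 ∧ v1 ≠ 0) (h2 : B ≠ C → u2 ≠ 0 ∧ v2 ≠ 0)
    (h3 : C ≠ A → u3 ≠ 0 ∧ v3 ≠ 0) :
    ((if A * B < 0 ∧ u1 * v1 < 0 then 1 else 0) + (if B * C < 0 ∧ u2 * v2 < 0 then 1 else 0) +
      (if C * A < 0 ∧ u3 * v3 < 0 then 1 else 0) : F2) =
      (if stSame u1 u2 u3 then 1 else 0) + (if stSame v1 v2 v3 then 1 else 0) := by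
  rcases (mul_ne_zero hA hB).lt_or_gt with hAB | hAB <;>
    rcases (mul_ne_zero hA hC).lt_or_gt with hAC | hAC
  · exact stAlone hAB hAC hu hv h1 h3
  · -- `B` is alone
    have hBC : B * C < 0 := by
      by_contra h
      push Not at h
      nlinarith [mul_neg_of_neg_of_pos hAB hAC, mul_nonneg (mul_self_nonneg A) h]
    have h := stAlone (A := B) (B := C) (C := A) (u1 := u2) (u2 := u3) (u3 := u1) (v1 := v2)
      (v2 := v3) (v3 := v1) hBC (by rwa [mul_comm]) (by linarith) (by linarith) h2 h1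
    rw [stSame_rot (u := u1), stSame_rot (u := v1), ← h]
    ring
  · -- `C` is alone
    have hCB : C * B < 0 := by
      by_contra h
      push Not at h
      nlinarith [mul_neg_of_pos_of_neg hAB hAC, mul_nonneg (mul_self_nonneg A) h]
    have h := stAlone (A := C) (B := A) (C := B) (u1 := u3) (u2 := u1) (u3 := u2) (v1 := v3)
      (v2 := v1) (v3 := v2) (by rwa [mul_comm]) hCB (by linarith) (by linarith) h3 h2
    rw [← stSame_rot (u := u3), ← stSame_rot (u := v3), ← h]
    ring
  · have hBC : ¬ B * C < 0 := by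
      intro h
      nlinarith [mul_pos hAB hAC, mul_nonneg (mul_self_nonneg A) (neg_pos.mpr h).le]
    have hCA : ¬ C * A < 0 := by rw [mul_comm]; exact hAC.not_gt
    simp [stSame_not hAB hAC hu, stSame_not hAB hAC hv, hAB.not_gt, hBC, hCA]

theorem stCr {p q z z' : ℂ} (hp : dt (z' - z) (p - z) ≠ 0) (hq : dt (z' - z) (q - z) ≠ 0)
    (h : p ≠ q → dt (q - p) (z - p) ≠ 0 ∧ dt (q - p) (z' - p) ≠ 0) :
    cr p q z z' ↔ dt (z' - z) (p - z) * dt (z' - z) (q - z) < 0 ∧
      dt (q - p) (z - p) * dt (q - p) (z' - p) < 0 := by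
  set A := dt (z' - z) (p - z) with hA
  set B := dt (z' - z) (q - z) with hB
  set u := dt (q - p) (z - p) with hu
  set v := dt (q - p) (z' - p) with hv
  have huv : v - u = A - B := by
    simp only [hA, hB, hu, hv, dt, Complex.sub_re, Complex.sub_im]; ring
  constructor
  · rintro ⟨x, ⟨s, s', hs, hs', hss, rfl⟩, t, t', ht, ht', htt, hx⟩
    obtain rfl : s = 1 - s' := by linarith
    obtain rfl : t = 1 - t' := by linarith
    have hre := congrArg Complex.re hx
    have him := congrArg Complex.im hx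
    simp only [Complex.add_re, Complex.add_im, Complex.smul_re, Complex.smul_im,
      smul_eq_mul] at hre him
    have e1 : (1 - s') * A + s' * B = 0 := by
      simp only [hA, hB, dt, Complex.sub_re, Complex.sub_im]
      linear_combination (z'.im - z.im) * hre - (z'.re - z.re) * him
    have e2 : (1 - t') * u + t' * v = 0 := by
      simp only [hu, hv, dt, Complex.sub_re, Complex.sub_im]
      linear_combination (q.re - p.re) * him - (q.im - p.im) * hre
    have key : ∀ {x y r : ℝ}, x ≠ 0 → y ≠ 0 → 0 ≤ 1 - r → 0 ≤ r → (1 - r) * x + r * y = 0 →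
        x * y < 0 := by
      intro x y r hx hy h0 h1 e
      by_contra hc
      have hc' : 0 < x * y := lt_of_le_of_ne (not_lt.mp hc) (mul_ne_zero hx hy).symm
      have hxx : 0 < x * x := mul_self_pos.mpr hx
      have e' : (1 - r) * (x * x) + r * (x * y) = 0 := by linear_combination x * e
      rcases h1.lt_or_eq with h1 | h1
      · nlinarith [mul_pos h1 hc', mul_nonneg h0 hxx.le]
      · subst h1; linarith
    have hAB : A * B < 0 := key hp hq hs hs' e1
    have hpq : p ≠ q := by
      rintro rfl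
      exact absurd hAB (not_lt.mpr (mul_self_nonneg _))
    exact ⟨hAB, key (h hpq).1 (h hpq).2 ht ht' e2⟩
  · rintro ⟨hAB, huv'⟩
    have hne : A - B ≠ 0 := by
      intro h0
      have : A = B := by linarith
      rw [this] at hAB
      exact absurd hAB (not_lt.mpr (mul_self_nonneg _))
    have frac : ∀ {x y : ℝ}, x * y < 0 → 0 ≤ x / (x - y) ∧ 0 ≤ 1 - x / (x - y) := by
      intro x y hxy
      rcases mul_neg_iff.mp hxy with ⟨h1, h2⟩ | ⟨h1, h2⟩
      · have : 0 < x - y := by linarith
        exact ⟨by positivity, by rw [sub_nonneg, div_le_one this]; linarith⟩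
      · have : x - y < 0 := by linarith
        exact ⟨div_nonneg_of_nonpos h1.le this.le,
          by rw [sub_nonneg, div_le_one_of_neg this]; linarith⟩
    refine ⟨(1 - A / (A - B)) • p + (A / (A - B)) • q,
      ⟨_, _, (frac hAB).2, (frac hAB).1, by ring, rfl⟩,
      1 - u / (u - v), u / (u - v), (frac huv').2, (frac huv').1, by ring, ?_⟩
    have e : u - v = -(A - B) := by linarith
    rw [e]
    apply Complex.ext
    · simp only [Complex.add_re, Complex.smul_re, smul_eq_mul]
      field_simp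
      simp only [hA, hB, hu, dt, Complex.sub_re, Complex.sub_im]
      ring
    · simp only [Complex.add_im, Complex.smul_im, smul_eq_mul]
      field_simp
      simp only [hA, hB, hu, dt, Complex.sub_re, Complex.sub_im]
      ring

theorem stIn {a b c z : ℂ} (h1 : a ≠ b → dt (b - a) (z - a) ≠ 0)
    (h2 : b ≠ c → dt (c - b) (z - b) ≠ 0) (h3 : c ≠ a → dt (a - c) (z - c) ≠ 0) (h4 : z ≠ a) :
    z ∈ convexHull ℝ ({a, b, c} : Set ℂ) ↔
      stSame (dt (b - a) (z - a)) (dt (c - b) (z - b)) (dt (a - c) (z - c)) := by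
  rw [stMemHull]
  constructor
  · rintro ⟨s, t, hs, ht, hst, rfl⟩
    set D := dt (b - a) (c - a) with hD
    have e1 : dt (b - a) (a + s • (b - a) + t • (c - a) - a) = t * D := by
      simp only [hD, dt, Complex.sub_re, Complex.sub_im, Complex.add_re, Complex.add_im,
        Complex.smul_re, Complex.smul_im, smul_eq_mul]; ring
    have e2 : dt (c - b) (a + s • (b - a) + t • (c - a) - b) = (1 - s - t) * D := by
      simp only [hD, dt, Complex.sub_re, Complex.sub_im, Complex.add_re, Complex.add_im,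
        Complex.smul_re, Complex.smul_im, smul_eq_mul]; ring
    have e3 : dt (a - c) (a + s • (b - a) + t • (c - a) - c) = s * D := by
      simp only [hD, dt, Complex.sub_re, Complex.sub_im, Complex.add_re, Complex.add_im,
        Complex.smul_re, Complex.smul_im, smul_eq_mul]; ring
    rw [e1] at h1
    rw [e2] at h2
    rw [e3] at h3
    rw [e1, e2, e3]
    have hD0 : D ≠ 0 := by
      intro h0
      have hab : a = b := by by_contra h; exact h1 h (by simp [h0])
      have hca : c = a := by by_contra h; exact h3 h (by simp [h0])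
      apply h4
      simp [← hab, hca]
    have hab : a ≠ b := by rintro rfl; exact hD0 (by simp [hD, dt])
    have hbc : b ≠ c := by rintro rfl; exact hD0 (by simp only [hD, dt]; ring)
    have hca : c ≠ a := by rintro rfl; exact hD0 (by simp [hD, dt])
    have t0 : 0 < t := lt_of_le_of_ne ht (fun h => h1 hab (by simp [← h]))
    have s0 : 0 < s := lt_of_le_of_ne hs (fun h => h3 hca (by simp [← h]))
    have r0 : 0 < 1 - s - t :=
      lt_of_le_of_ne (by linarith) (fun h => h2 hbc (by rw [← h]; simp))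
    rcases hD0.lt_or_gt with h | h
    · exact Or.inr ⟨mul_neg_of_pos_of_neg t0 h, mul_neg_of_pos_of_neg r0 h,
        mul_neg_of_pos_of_neg s0 h⟩
    · exact Or.inl ⟨mul_pos t0 h, mul_pos r0 h, mul_pos s0 h⟩
  · intro h
    set u1 := dt (b - a) (z - a) with hu1
    set u2 := dt (c - b) (z - b) with hu2
    set u3 := dt (a - c) (z - c) with hu3
    have hne : u1 + u2 + u3 ≠ 0 := by
      rcases h with ⟨p, q, r⟩ | ⟨p, q, r⟩
      · exact ne_of_gt (by linarith)
      · exact ne_of_lt (by linarith)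
    refine ⟨u3 / (u1 + u2 + u3), u1 / (u1 + u2 + u3), ?_, ?_, ?_, ?_⟩
    · rcases h with ⟨p, q, r⟩ | ⟨p, q, r⟩
      · positivity
      · exact div_nonneg_of_nonpos r.le (by linarith)
    · rcases h with ⟨p, q, r⟩ | ⟨p, q, r⟩
      · positivity
      · exact div_nonneg_of_nonpos p.le (by linarith)
    · rw [← add_div]
      rcases h with ⟨p, q, r⟩ | ⟨p, q, r⟩
      · rw [div_le_one (by linarith)]; linarith
      · rw [div_le_one_of_neg (by linarith)]; linarith
    · apply Complex.ext
      · simp only [Complex.add_re, Complex.smul_re, Complex.sub_re, smul_eq_mul]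
        field_simp
        simp only [hu1, hu2, hu3, dt, Complex.sub_re, Complex.sub_im]
        ring
      · simp only [Complex.add_im, Complex.smul_im, Complex.sub_im, smul_eq_mul]
        field_simp
        simp only [hu1, hu2, hu3, dt, Complex.sub_re, Complex.sub_im]
        ring

theorem stLine {w : ℂ} (hw : w ≠ 0) (p : ℂ) : ∀ᵐ z : ℂ, dt w (z - p) ≠ 0 := by
  have hs : (AffineSubspace.mk' p (Submodule.span ℝ {w})) ≠ ⊤ := by
    intro h
    have h1 : p + w * Complex.I ∈ AffineSubspace.mk' p (Submodule.span ℝ {w}) := by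
      rw [h]; trivial
    rw [AffineSubspace.mem_mk', Submodule.mem_span_singleton] at h1
    obtain ⟨r, hr⟩ := h1
    simp only [vsub_eq_sub, add_sub_cancel_left, Complex.real_smul] at hr
    have h2 : (r : ℂ) = Complex.I := by
      apply mul_right_cancel₀ hw
      rw [hr]; ring
    have := congrArg Complex.im h2
    simp at this
  have h0 := Measure.addHaar_affineSubspace (volume : Measure ℂ) _ hs
  rw [ae_iff]
  refine measure_mono_null ?_ h0
  intro z hz
  simp only [ne_eq, not_not, mem_ofPred_eq] at hz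
  rw [SetLike.mem_coe, AffineSubspace.mem_mk', Submodule.mem_span_singleton]
  have hn : w.re * w.re + w.im * w.im ≠ 0 := by
    rw [← Complex.normSq_apply]
    exact fun h => hw (Complex.normSq_eq_zero.mp h)
  refine ⟨ip w (z - p) / (w.re * w.re + w.im * w.im), ?_⟩
  simp only [dt] at hz
  apply Complex.ext
  · simp only [Complex.smul_re, smul_eq_mul, vsub_eq_sub, ip]
    rw [div_mul_eq_mul_div, div_eq_iff hn]
    linear_combination w.im * hz
  · simp only [Complex.smul_im, smul_eq_mul, vsub_eq_sub, ip]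
    rw [div_mul_eq_mul_div, div_eq_iff hn]
    linear_combination (-w.re) * hz

theorem stPair (p : ℂ) : ∀ᵐ q : ℂ × ℂ, dt (q.2 - q.1) (p - q.1) ≠ 0 := by
  have hm : MeasurableSet {q : ℂ × ℂ | dt (q.2 - q.1) (p - q.1) ≠ 0} := by
    have hc : Continuous fun q : ℂ × ℂ => dt (q.2 - q.1) (p - q.1) := by
      unfold dt; fun_prop
    exact (isOpen_ne_fun hc continuous_const).measurableSet
  rw [Measure.volume_eq_prod, Measure.ae_prod_iff_ae_ae hm]
  have h1 : ∀ᵐ z : ℂ, z ≠ p := by
    rw [ae_iff]; simp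
  filter_upwards [h1] with z hz
  filter_upwards [stLine (sub_ne_zero.mpr hz.symm) z] with z' hz'
  intro h
  apply hz'
  simp only [dt] at h ⊢
  linarith

theorem stSide (p q : ℂ) : ∀ᵐ r : ℂ × ℂ,
    p ≠ q → dt (q - p) (r.1 - p) ≠ 0 ∧ dt (q - p) (r.2 - p) ≠ 0 := by
  by_cases h : p = q
  · exact Eventually.of_forall fun _ h' => absurd h h'
  have h0 := stLine (sub_ne_zero.mpr (Ne.symm h)) p
  rw [Measure.volume_eq_prod]
  filter_upwards [Measure.quasiMeasurePreserving_fst.ae h0,
    Measure.quasiMeasurePreserving_snd.ae h0] with r h1 h2 _ using ⟨h1, h2⟩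

theorem side_tri (Ω : Set ℂ) (a b c : ℂ) :
    Side Ω (sg a b + sg b c + sg c a) (convexHull ℝ {a, b, c}) := by
  classical
  refine ⟨((Set.toFinite _).isClosed_convexHull ℝ).measurableSet, 3, ![a, b, c], ![b, c, a],
    by simp [msr, Fin.sum_univ_three], ?_⟩
  unfold SideR
  filter_upwards [stPair a, stPair b, stPair c, stSide a b, stSide b c, stSide c a]
    with q ha hb hc h1 h2 h3 _
  obtain ⟨z, z'⟩ := q
  simp only at ha hb hc h1 h2 h3 ⊢
  have hz : z ≠ a := by rintro rfl; exact ha (by simp [dt])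
  have hz' : z' ≠ a := by rintro rfl; exact ha (by simp only [dt]; ring)
  simp only [Fin.sum_univ_three, Matrix.cons_val_zero, Matrix.cons_val_one, Matrix.cons_val_two,
    Matrix.head_cons, Matrix.tail_cons]
  have k := stCore (u1 := dt (b - a) (z - a)) (u2 := dt (c - b) (z - b))
    (u3 := dt (a - c) (z - c)) (v1 := dt (b - a) (z' - a)) (v2 := dt (c - b) (z' - b))
    (v3 := dt (a - c) (z' - c)) ha hb hc
    (by simp only [dt, Complex.sub_re, Complex.sub_im]; ring)
    (by simp only [dt, Complex.sub_re, Complex.sub_im]; ring)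
    (fun h => h1 (by rintro rfl; exact h rfl)) (fun h => h2 (by rintro rfl; exact h rfl))
    (fun h => h3 (by rintro rfl; exact h rfl))
  simp only [stCr ha hb h1, stCr hb hc h2, stCr hc ha h3,
    stIn (fun h => (h1 h).1) (fun h => (h2 h).1) (fun h => (h3 h).1) hz,
    stIn (fun h => (h1 h).2) (fun h => (h2 h).2) (fun h => (h3 h).2) hz']
  convert k

theorem tri_area (a b c : ℂ) :
    volume (convexHull ℝ {a, b, c}) ≤ ENNReal.ofReal (‖b - a‖ * ‖c - a‖) := by
  let f : ℂ →ₗ[ℝ] ℂ := Complex.reLm.smulRight (b - a) + Complex.imLm.smulRight (c - a)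
  let Q : Set ℂ := Complex.measurableEquivRealProd ⁻¹' (Icc (0 : ℝ) 1 ×ˢ Icc (0 : ℝ) 1)
  have hQ : volume Q = 1 := by
    rw [Complex.volume_preserving_equiv_real_prod.measure_preimage
      (measurableSet_Icc.prod measurableSet_Icc).nullMeasurableSet, Measure.volume_eq_prod,
      Measure.prod_prod]
    simp
  have hdet : LinearMap.det f = dt (b - a) (c - a) := by
    rw [← LinearMap.det_toMatrix Complex.basisOneI f, Matrix.det_fin_two]
    simp [LinearMap.toMatrix_apply, f, dt]
    ring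
  have hsub : convexHull ℝ ({a, b, c} : Set ℂ) ⊆ (fun v => a + v) '' (f '' Q) := by
    intro x hx
    obtain ⟨s, t, hs, ht, hst, rfl⟩ := stMemHull.mp hx
    refine ⟨_, ⟨⟨s, t⟩, ?_, rfl⟩, ?_⟩
    · simp only [Q, mem_preimage, Complex.measurableEquivRealProd_apply, mem_prod, mem_Icc]
      exact ⟨⟨hs, by linarith⟩, ht, by linarith⟩
    · simp [f, add_assoc]
  refine (measure_mono hsub).trans ?_
  rw [image_add_left, measure_preimage_add, Measure.addHaar_image_linearMap, hQ, mul_one, hdet]
  apply ENNReal.ofReal_le_ofReal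
  have e : dt (b - a) (c - a) = ((starRingEnd ℂ) (b - a) * (c - a)).im := by
    simp only [dt, Complex.mul_im, Complex.conj_re, Complex.conj_im]; ring
  rw [e]
  refine (Complex.abs_im_le_norm _).trans ?_
  rw [norm_mul, Complex.norm_conj]

end Pool.Agent.MP_20201c_gt.H91
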