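import Pool.Agent.MP_20201c_gt.H91.SideA

/-! Uniqueness of the bounded set and invariance of the perimeter. -/

open MeasureTheory Set Filter Topology
open scoped ENNReal

namespace Pool.Agent.MP_20201c_gt.H91

theorem edist_cyc (Ω : Set ℂ) {E F : Set ℂ} (hE : MeasurableSet E) (hF : MeasurableSet F) :
    edist (cyc Ω E hE) (cyc Ω F hF) = fdist Ω E F :=
  rfl

theorem cyc_surj {Ω : Set ℂ} (z : Cyc Ω) : ∃ E hE, z = cyc Ω E hE := by
  obtain ⟨⟨E, hE⟩, rfl⟩ := SeparationQuotient.surjective_mk z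
  exact ⟨E, hE, rfl⟩

namespace SideUA

/-- A set whose indicator is almost everywhere locally constant is null or conull. -/
theorem null_or_conull {Ω D : Set ℂ} (ho : IsOpen Ω) (hc : IsPreconnected Ω)
    (h : ∀ᵐ q : ℂ × ℂ, segment ℝ q.1 q.2 ⊆ Ω → (q.1 ∈ D ↔ q.2 ∈ D)) :
    volume (D ∩ Ω) = 0 ∨ volume (Dᶜ ∩ Ω) = 0 := by
  let A : Set ℂ → Set ℂ := fun S => {z | ∃ U, IsOpen U ∧ z ∈ U ∧ volume (S ∩ U) = 0}
  have hA : ∀ S, IsOpen (A S) := fun S => by
    refine isOpen_iff_forall_mem_open.2 ?_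
    rintro z ⟨U, h1, h2, h3⟩
    exact ⟨U, fun w hw => ⟨U, h1, hw, h3⟩, h1, h2⟩
  have hnull : ∀ S, Ω ⊆ A S → volume (S ∩ Ω) = 0 := fun S hS => by
    refine measure_null_of_locally_null _ fun z hz => ?_
    obtain ⟨U, h1, h2, h3⟩ := hS hz.2
    refine ⟨S ∩ U, ?_, h3⟩
    filter_upwards [self_mem_nhdsWithin, mem_nhdsWithin_of_mem_nhds (h1.mem_nhds h2)] with w h4 h5
    exact ⟨h4.1, h5⟩
  have hdisj : Disjoint (A D) (A Dᶜ) := by
    rw [Set.disjoint_left]
    rintro z ⟨U, h1, h2, h3⟩ ⟨U', h1', h2', h3'⟩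
    refine ((h1.inter h1').measure_pos volume ⟨z, h2, h2'⟩).ne' ?_
    refine measure_mono_null (t := (D ∩ U) ∪ (Dᶜ ∩ U')) (fun w hw => ?_) (measure_union_null h3 h3')
    by_cases hw' : w ∈ D
    · exact Or.inl ⟨hw', hw.1⟩
    · exact Or.inr ⟨hw', hw.2⟩
  have hcov : Ω ⊆ A D ∪ A Dᶜ := by
    intro z hz
    obtain ⟨r, hr, hb⟩ := Metric.isOpen_iff.1 ho z hz
    have h0 : (volume : Measure (ℂ × ℂ)) ((D ∩ Metric.ball z r) ×ˢ (Dᶜ ∩ Metric.ball z r)) = 0 := by
      refine measure_mono_null ?_ (ae_iff.1 h)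
      intro q hq hq'
      exact hq.2.1 ((hq' (((convex_ball z r).segment_subset hq.1.2 hq.2.2).trans hb)).1 hq.1.1)
    rw [Measure.volume_eq_prod, Measure.prod_prod, mul_eq_zero] at h0
    rcases h0 with h0 | h0
    · exact Or.inl ⟨_, Metric.isOpen_ball, Metric.mem_ball_self hr, h0⟩
    · exact Or.inr ⟨_, Metric.isOpen_ball, Metric.mem_ball_self hr, h0⟩
  exact (hc.subset_or_subset (hA _) (hA _) hdisj hcov).imp (hnull _) (hnull _)

theorem symmDiff_compl' (E F : Set ℂ) : symmDiff E Fᶜ = (symmDiff E F)ᶜ := by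
  ext x; simp only [mem_symmDiff, mem_compl_iff]; tauto

theorem dvg_zero {φ : ℂ → ℂ} {z : ℂ} (hz : z ∉ tsupport φ) : dvg φ z = 0 := by
  have : fderiv ℝ φ z = 0 := by
    by_contra h
    exact hz (support_fderiv_subset ℝ (Function.mem_support.2 h))
  simp [dvg, this]

theorem integrable_fd {φ : ℂ → ℂ} (h1 : ContDiff ℝ 1 φ) (h2 : HasCompactSupport φ) (v : ℂ) :
    Integrable fun z => fderiv ℝ φ z v :=
  ((h1.continuous_fderiv one_ne_zero).clm_apply continuous_const).integrable_of_hasCompactSupport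
    (h2.fderiv_apply ℝ v)

theorem integral_fd {φ : ℂ → ℂ} (h1 : ContDiff ℝ 1 φ) (h2 : HasCompactSupport φ) (v : ℂ) :
    ∫ z, fderiv ℝ φ z v = 0 := by
  have := integral_mul_fderiv_eq_neg_fderiv_mul_of_integrable (μ := (volume : Measure ℂ))
    (f := fun _ : ℂ => (1 : ℂ)) (g := φ) (v := v) (by simp)
    (by simpa using integrable_fd h1 h2 v)
    (by simpa using h1.continuous.integrable_of_hasCompactSupport h2)
    (fun _ _ => differentiableAt_const _) fun x _ => h1.differentiable one_ne_zero x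
  simpa using this

theorem integrable_dvg {φ : ℂ → ℂ} (h1 : ContDiff ℝ 1 φ) (h2 : HasCompactSupport φ) :
    Integrable (dvg φ) :=
  (integrable_fd h1 h2 1).re.add (integrable_fd h1 h2 Complex.I).im

theorem integral_dvg {φ : ℂ → ℂ} (h1 : ContDiff ℝ 1 φ) (h2 : HasCompactSupport φ) :
    ∫ z, dvg φ z = 0 := by
  have e1 := integral_re (integrable_fd h1 h2 1)
  have e2 := integral_im (integrable_fd h1 h2 Complex.I)
  rw [integral_fd h1 h2, map_zero] at e1 e2
  have e3 := integral_add (integrable_fd h1 h2 1).re (integrable_fd h1 h2 Complex.I).im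
  rw [e1, e2, add_zero] at e3
  exact e3

theorem dvg_neg (φ : ℂ → ℂ) (z : ℂ) : dvg (-φ) z = -dvg φ z := by
  simp only [dvg, fderiv_neg, neg_apply, Complex.neg_re, Complex.neg_im]
  ring

theorem per_compl_le {E : Set ℂ} (hE : MeasurableSet E) (V : Set ℂ) : per Eᶜ V ≤ per E V := by
  refine iSup_le fun φ => iSup_le fun h1 => iSup_le fun h2 => iSup_le fun h3 =>
    iSup_le fun h4 => ?_
  have e1 : ∫ z in Eᶜ, dvg φ z = ∫ z in E, dvg (-φ) z := by
    have := integral_add_compl hE (integrable_dvg h1 h2)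
    rw [integral_dvg h1 h2] at this
    simp only [dvg_neg, integral_neg]
    linarith
  rw [e1]
  refine le_iSup_of_le (-φ) (le_iSup_of_le h1.neg (le_iSup_of_le h2.neg
    (le_iSup_of_le ?_ (le_iSup_of_le ?_ le_rfl))))
  · rwa [tsupport_neg]
  · simpa using h4

theorem per_congr_le {Ω E F V : Set ℂ} (hE : MeasurableSet E) (hF : MeasurableSet F) (hV : V ⊆ Ω)
    (h : volume (symmDiff E F ∩ Ω) = 0) : per E V ≤ per F V := by
  refine iSup_le fun φ => iSup_le fun h1 => iSup_le fun h2 => iSup_le fun h3 =>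
    iSup_le fun h4 => ?_
  have e1 : ∫ z in E, dvg φ z = ∫ z in F, dvg φ z := by
    rw [← integral_indicator hE, ← integral_indicator hF]
    refine integral_congr_ae ?_
    filter_upwards [measure_eq_zero_iff_ae_notMem.1 h] with z hz
    by_cases hΩ : z ∈ Ω
    · have : z ∈ E ↔ z ∈ F := by
        simp only [mem_inter_iff, mem_symmDiff, hΩ, and_true] at hz
        tauto
      by_cases hz' : z ∈ E
      · rw [indicator_of_mem hz', indicator_of_mem (this.1 hz')]
      · rw [indicator_of_notMem hz', indicator_of_notMem (mt this.2 hz')]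
    · have h0 : dvg φ z = 0 := dvg_zero fun h5 => hΩ (hV (h3 h5))
      simp [indicator, h0]
  rw [e1]
  exact le_iSup_of_le φ (le_iSup_of_le h1 (le_iSup_of_le h2 (le_iSup_of_le h3
    (le_iSup_of_le h4 le_rfl))))

theorem per_le_of_fdist {Ω E F V : Set ℂ} (hE : MeasurableSet E) (hF : MeasurableSet F)
    (hV : V ⊆ Ω) (h : fdist Ω E F = 0) : per E V ≤ per F V := by
  rcases min_eq_bot.1 h with h | h
  · exact per_congr_le hE hF hV h
  · exact (per_congr_le hE hF.compl hV h).trans (per_compl_le hF V)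

end SideUA

open SideUA in
theorem side_uniq {Ω : Set ℂ} (ho : IsOpen Ω) (hc : IsPreconnected Ω) {μ : Ms} {E F : Set ℂ}
    (h : Side Ω μ E) (h' : Side Ω μ F) : fdist Ω E F = 0 := by
  obtain ⟨-, m, a, b, hμ, h1⟩ := h
  have h2 := h'.rep hμ
  have h3 := null_or_conull (D := symmDiff E F) ho hc (by
    filter_upwards [h1, h2] with q h3 h4 hq
    have h5 := (h3 hq).symm.trans (h4 hq)
    simp only [mem_symmDiff]
    by_cases a1 : q.1 ∈ E <;> by_cases a2 : q.2 ∈ E <;> by_cases a3 : q.1 ∈ F <;>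
      by_cases a4 : q.2 ∈ F <;> simp only [a1, a2, a3, a4, if_true, if_false] at h5 ⊢ <;>
      tauto)
  rw [fdist, symmDiff_compl']
  exact min_eq_bot.2 h3

theorem rz_eq {Ω : Set ℂ} (ho : IsOpen Ω) (hc : IsPreconnected Ω) {μ : Ms} {E : Set ℂ}
    (h : Side Ω μ E) : Rz Ω μ = cyc Ω E h.1 := by
  have hex : ∃ E, Side Ω μ E := ⟨E, h⟩
  rw [Rz, dif_pos hex]
  refine eq_of_edist_eq_zero ?_
  rw [edist_cyc]
  exact side_uniq ho hc hex.choose_spec h

open SideUA in
theorem massIn_cyc {Ω : Set ℂ} (ho : IsOpen Ω) {E : Set ℂ} (hE : MeasurableSet E) (U : Set ℂ) :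
    massIn Ω (cyc Ω E hE) U = per E (U ∩ Ω) := by
  have _ := ho
  refine le_antisymm (iInf_le_of_le ⟨E, hE⟩ (iInf_le_of_le rfl le_rfl)) ?_
  refine le_iInf fun F => le_iInf fun hF => ?_
  refine per_le_of_fdist hE F.2 inter_subset_right ?_
  rw [← edist_cyc Ω hE F.2, edist_eq_zero]
  exact hF.symm

theorem per_mono (E : Set ℂ) {U V : Set ℂ} (h : U ⊆ V) : per E U ≤ per E V := by
  refine iSup_le fun φ => iSup_le fun h1 => iSup_le fun h2 => iSup_le fun h3 =>
    iSup_le fun h4 => ?_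
  exact le_iSup_of_le φ (le_iSup_of_le h1 (le_iSup_of_le h2 (le_iSup_of_le (h3.trans h)
    (le_iSup_of_le h4 le_rfl))))

end Pool.Agent.MP_20201c_gt.H91
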