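import Pool.Agent.MP_20201c_gt.H91.Defs2

/-! Length measures of segments. -/

open MeasureTheory Set Filter Topology
open scoped ENNReal

namespace Pool.Agent.MP_20201c_gt.H91

theorem m1_meas_line (a d : ℂ) : Measurable fun t : ℝ => a + t • d := by fun_prop

theorem m1_meas_scl (o : ℂ) (l : ℝ) : Measurable fun x : ℂ => o + l • (x - o) := by fun_prop

theorem m1_sg_apply (a b : ℂ) {A : Set ℂ} (hA : MeasurableSet A) :
    sg a b A = ENNReal.ofReal ‖b - a‖ *
      volume {t : ℝ | t ∈ Icc (0 : ℝ) 1 ∧ a + t • (b - a) ∈ A} := by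
  unfold sg
  rw [Measure.smul_apply, Measure.map_apply (m1_meas_line a (b - a)) hA,
    Measure.restrict_apply (m1_meas_line a (b - a) hA), smul_eq_mul]
  congr 2
  ext t
  simp only [mem_inter_iff, mem_preimage, mem_ofPred_eq]
  exact and_comm

theorem m1_vol_eq_of_fin {S T : Set ℝ} (F : Set ℝ) (hF : F.Finite)
    (h : ∀ t ∉ F, t ∈ S ↔ t ∈ T) : volume S = volume T := by
  refine measure_congr ?_
  filter_upwards [hF.countable.ae_notMem volume] with t ht using propext (h t ht)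

theorem m1_vol_aff (S : Set ℝ) (u w : ℝ) (hw : w ≠ 0) :
    volume {s : ℝ | u + w * s ∈ S} = ENNReal.ofReal |w⁻¹| * volume S := by
  have h1 : {s : ℝ | u + w * s ∈ S} = (fun s => w * s) ⁻¹' ((fun x => u + x) ⁻¹' S) := rfl
  rw [h1, Real.volume_preimage_mul_left hw, measure_preimage_add]

theorem m1_mem_uIcc_aff {u v s : ℝ} (h : v - u ≠ 0) :
    u + (v - u) * s ∈ uIcc u v ↔ s ∈ Icc (0 : ℝ) 1 := by
  rcases lt_or_gt_of_ne h with h | h
  · rw [uIcc_of_ge (by linarith), mem_Icc, mem_Icc]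
    constructor
    · rintro ⟨h1, h2⟩
      constructor
      · by_contra h3
        push Not at h3
        nlinarith
      · by_contra h3
        push Not at h3
        nlinarith
    · rintro ⟨h1, h2⟩
      constructor <;> nlinarith
  · rw [uIcc_of_le (by linarith), mem_Icc, mem_Icc]
    constructor
    · rintro ⟨h1, h2⟩
      constructor
      · by_contra h3
        push Not at h3
        nlinarith
      · by_contra h3
        push Not at h3
        nlinarith
    · rintro ⟨h1, h2⟩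
      constructor <;> nlinarith

theorem m1_sg_sub (a d : ℂ) (u v : ℝ) {A : Set ℂ} (hA : MeasurableSet A) :
    sg (a + u • d) (a + v • d) A =
      ENNReal.ofReal ‖d‖ * volume {t : ℝ | t ∈ uIcc u v ∧ a + t • d ∈ A} := by
  rw [m1_sg_apply _ _ hA]
  have e : a + v • d - (a + u • d) = (v - u) • d := by rw [sub_smul]; abel
  rw [e]
  by_cases h : v - u = 0
  · have huv : v = u := by linarith
    have z : volume {t : ℝ | t ∈ uIcc u v ∧ a + t • d ∈ A} = 0 := by
      refine measure_mono_null (t := {u}) ?_ (measure_singleton u)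
      rintro t ⟨ht, -⟩
      rw [huv, uIcc_self] at ht
      exact ht
    rw [z, h]
    simp
  · have h2 : {t : ℝ | t ∈ Icc (0 : ℝ) 1 ∧ a + u • d + t • (v - u) • d ∈ A} =
        {s : ℝ | u + (v - u) * s ∈ {t : ℝ | t ∈ uIcc u v ∧ a + t • d ∈ A}} := by
      ext s
      have e2 : a + u • d + s • (v - u) • d = a + (u + (v - u) * s) • d := by
        rw [smul_smul, add_smul, mul_comm s, add_assoc]
      simp only [mem_ofPred_eq, m1_mem_uIcc_aff h, e2]
    rw [h2, m1_vol_aff _ _ _ h, ← mul_assoc, ← ENNReal.ofReal_mul (norm_nonneg _), norm_smul,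
      Real.norm_eq_abs, abs_inv]
    have h3 : |v - u| ≠ 0 := abs_ne_zero.mpr h
    have h4 : |v - u| * ‖d‖ * |v - u|⁻¹ = ‖d‖ := by field_simp
    rw [h4]

theorem m1_seg_mem (a b : ℂ) {t : ℝ} (ht : t ∈ Icc (0 : ℝ) 1) : a + t • (b - a) ∈ segment ℝ a b := by
  rw [segment_eq_image']
  exact ⟨t, ht, rfl⟩

theorem m1_seg_ex {a b c : ℂ} (h : c ∈ segment ℝ a b) :
    ∃ t ∈ Icc (0 : ℝ) 1, c = a + t • (b - a) := by
  rw [segment_eq_image'] at h
  obtain ⟨t, ht, rfl⟩ := h
  exact ⟨t, ht, rfl⟩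

theorem m1_seg_meas (a b : ℂ) : MeasurableSet (segment ℝ a b) := by
  have h : IsCompact (segment ℝ a b) := by
    rw [segment_eq_image']
    exact isCompact_Icc.image (by fun_prop)
  exact h.isClosed.measurableSet

theorem m1_sg_compl (a b : ℂ) : sg a b (segment ℝ a b)ᶜ = 0 := by
  rw [m1_sg_apply a b (m1_seg_meas a b).compl]
  have h : {t : ℝ | t ∈ Icc (0 : ℝ) 1 ∧ a + t • (b - a) ∈ (segment ℝ a b)ᶜ} = ∅ := by
    ext t
    simp only [mem_ofPred_eq, mem_empty_iff_false, iff_false, not_and]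
    exact fun ht h => h (m1_seg_mem a b ht)
  rw [h, measure_empty, mul_zero]

theorem sg_univ (a b : ℂ) : sg a b univ = ENNReal.ofReal ‖b - a‖ := by
  rw [m1_sg_apply a b MeasurableSet.univ]
  have h : {t : ℝ | t ∈ Icc (0 : ℝ) 1 ∧ a + t • (b - a) ∈ (univ : Set ℂ)} = Icc 0 1 := by
    ext t; simp
  rw [h]
  simp

instance instFinSg (a b : ℂ) : IsFiniteMeasure (sg a b) := ⟨by rw [sg_univ]; exact ENNReal.ofReal_lt_top⟩

theorem sg_real_univ (a b : ℂ) : (sg a b).real univ = ‖b - a‖ := by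
  rw [Measure.real, sg_univ, ENNReal.toReal_ofReal (norm_nonneg _)]

theorem sg_self (a : ℂ) : sg a a = 0 := by
  unfold sg
  simp

theorem sg_comm (a b : ℂ) : sg a b = sg b a := by
  ext A hA
  have h1 := m1_sg_sub a (b - a) 0 1 hA
  have h2 := m1_sg_sub a (b - a) 1 0 hA
  have e0 : a + (0 : ℝ) • (b - a) = a := by simp
  have e1 : a + (1 : ℝ) • (b - a) = b := by simp
  rw [e0, e1] at h1 h2
  rw [h1, h2, uIcc_comm]

theorem sg_lintegral (a b : ℂ) {f : ℂ → ℝ≥0∞} (hf : Measurable f) :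
    ∫⁻ x, f x ∂(sg a b) =
      ENNReal.ofReal ‖b - a‖ * ∫⁻ t in Icc (0 : ℝ) 1, f (a + t • (b - a)) := by
  unfold sg
  rw [lintegral_smul_measure, lintegral_map hf (m1_meas_line a (b - a)), smul_eq_mul]

theorem sg_integral (a b : ℂ) {f : ℂ → ℝ} (hf : Measurable f) :
    ∫ x, f x ∂(sg a b) = ‖b - a‖ * ∫ t in Icc (0 : ℝ) 1, f (a + t • (b - a)) := by
  unfold sg
  rw [integral_smul_measure, integral_map (m1_meas_line a (b - a)).aemeasurable
    hf.aestronglyMeasurable, ENNReal.toReal_ofReal (norm_nonneg _), smul_eq_mul]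

theorem sg_apply (a b : ℂ) {A : Set ℂ} (hA : MeasurableSet A) :
    sg a b A = ENNReal.ofReal ‖b - a‖ *
      volume {t : ℝ | t ∈ Icc (0 : ℝ) 1 ∧ a + t • (b - a) ∈ A} := m1_sg_apply a b hA

theorem sg_split {a b c : ℂ} (h : c ∈ segment ℝ a b) : sg a b = sg a c + sg c b := by
  obtain ⟨u, hu, rfl⟩ := m1_seg_ex h
  ext A hA
  have h1 := m1_sg_sub a (b - a) 0 u hA
  have h2 := m1_sg_sub a (b - a) u 1 hA
  have e0 : a + (0 : ℝ) • (b - a) = a := by simp
  have e1 : a + (1 : ℝ) • (b - a) = b := by simp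
  rw [e0] at h1
  rw [e1] at h2
  rw [Measure.add_apply, h1, h2, m1_sg_apply a b hA, ← mul_add, uIcc_of_le hu.1, uIcc_of_le hu.2,
    ← measure_inter_add_sdiff {t : ℝ | t ∈ Icc (0 : ℝ) 1 ∧ a + t • (b - a) ∈ A}
      (measurableSet_Iic (a := u))]
  have k1 : volume ({t : ℝ | t ∈ Icc (0 : ℝ) 1 ∧ a + t • (b - a) ∈ A} ∩ Iic u) =
      volume {t : ℝ | t ∈ Icc (0 : ℝ) u ∧ a + t • (b - a) ∈ A} := by
    refine m1_vol_eq_of_fin ∅ finite_empty fun t _ => ?_
    simp only [mem_inter_iff, mem_ofPred_eq, mem_Icc, mem_Iic]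
    constructor
    · rintro ⟨⟨⟨p1, -⟩, p3⟩, p4⟩
      exact ⟨⟨p1, p4⟩, p3⟩
    · rintro ⟨⟨p1, p2⟩, p3⟩
      exact ⟨⟨⟨p1, p2.trans hu.2⟩, p3⟩, p2⟩
  have k2 : volume ({t : ℝ | t ∈ Icc (0 : ℝ) 1 ∧ a + t • (b - a) ∈ A} \ Iic u) =
      volume {t : ℝ | t ∈ Icc u (1 : ℝ) ∧ a + t • (b - a) ∈ A} := by
    refine m1_vol_eq_of_fin {u} (finite_singleton u) fun t ht => ?_
    have ht' : t ≠ u := ht
    simp only [Set.mem_sdiff, mem_ofPred_eq, mem_Icc, mem_Iic, not_le]
    constructor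
    · rintro ⟨⟨⟨-, p2⟩, p3⟩, p4⟩
      exact ⟨⟨p4.le, p2⟩, p3⟩
    · rintro ⟨⟨p1, p2⟩, p3⟩
      exact ⟨⟨⟨hu.1.trans p1, p2⟩, p3⟩, lt_of_le_of_ne p1 ht'.symm⟩
  rw [k1, k2]

theorem sg_of_disjoint {a b : ℂ} {A : Set ℂ} (h : Disjoint (segment ℝ a b) A) :
    sg a b A = 0 := 
  measure_mono_null (fun _ hx hs => disjoint_left.mp h hs hx) (m1_sg_compl a b)

theorem sg_restrict_of_subset {a b : ℂ} {A : Set ℂ} (h : segment ℝ a b ⊆ A) :
    (sg a b).restrict A = sg a b := by
  refine Measure.restrict_eq_self_of_ae_mem ?_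
  rw [ae_iff]
  exact measure_mono_null (fun x hx hs => hx (h hs)) (m1_sg_compl a b)

theorem sg_restrict_of_disjoint {a b : ℂ} {A : Set ℂ} (h : Disjoint (segment ℝ a b) A) :
    (sg a b).restrict A = 0 := 
  Measure.restrict_eq_zero.mpr (sg_of_disjoint h)

theorem sg_finite (a b : ℂ) {A : Set ℂ} (h : A.Finite) : sg a b A = 0 := by
  by_cases hab : a = b
  · rw [hab, sg_self]; rfl
  have hd : b - a ≠ 0 := sub_ne_zero.mpr (Ne.symm hab)
  rw [m1_sg_apply a b h.measurableSet]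
  have hf : ((fun t : ℝ => a + t • (b - a)) ⁻¹' A).Finite := by
    refine h.preimage fun s _ t _ hst => ?_
    exact smul_left_injective ℝ hd (add_left_cancel hst)
  have z : volume {t : ℝ | t ∈ Icc (0 : ℝ) 1 ∧ a + t • (b - a) ∈ A} = 0 :=
    measure_mono_null (fun t ht => ht.2) (hf.measure_zero volume)
  rw [z, mul_zero]

theorem sg_sphere (a b y : ℂ) (R : ℝ) : sg a b (Metric.sphere y R) = 0 := by
  by_cases hab : a = b
  · rw [hab, sg_self]; rfl
  have hd : b - a ≠ 0 := sub_ne_zero.mpr (Ne.symm hab)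
  rw [m1_sg_apply a b Metric.isClosed_sphere.measurableSet]
  generalize b - a = d at hd
  have hN : 0 < d.re ^ 2 + d.im ^ 2 := by
    have := Complex.normSq_pos.mpr hd
    rw [Complex.normSq_apply] at this
    nlinarith
  have key : ∀ t : ℝ, a + t • d ∈ Metric.sphere y R →
      ((a - y).re + t * d.re) ^ 2 + ((a - y).im + t * d.im) ^ 2 = R ^ 2 := by
    intro t ht
    rw [mem_sphere_iff_norm] at ht
    have h2 : ‖a + t • d - y‖ ^ 2 = R ^ 2 := by rw [ht]
    rw [Complex.sq_norm, Complex.normSq_apply] at h2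
    simp only [Complex.sub_re, Complex.add_re, Complex.sub_im, Complex.add_im, Complex.smul_re,
      Complex.smul_im, smul_eq_mul] at h2 ⊢
    linarith
  have z : volume {t : ℝ | t ∈ Icc (0 : ℝ) 1 ∧ a + t • d ∈ Metric.sphere y R} = 0 := by
    rcases eq_empty_or_nonempty {t : ℝ | t ∈ Icc (0 : ℝ) 1 ∧ a + t • d ∈ Metric.sphere y R}
      with h | ⟨s, hs⟩
    · rw [h, measure_empty]
    · refine measure_mono_null (t := {s, -s - 2 * ((a - y).re * d.re + (a - y).im * d.im) /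
        (d.re ^ 2 + d.im ^ 2)}) (fun t ht => ?_) ((toFinite _).measure_zero volume)
      have k1 := key s hs.2
      have k2 := key t ht.2
      have k3 : (t - s) * ((t + s) * (d.re ^ 2 + d.im ^ 2) +
          2 * ((a - y).re * d.re + (a - y).im * d.im)) = 0 := by linarith
      rcases mul_eq_zero.mp k3 with k | k
      · left; linarith
      · right
        rw [mem_singleton_iff]
        field_simp
        linarith
  rw [z, mul_zero]

theorem sg_cb_le (a b y : ℂ) (R : ℝ) : sg a b (cb y R) ≤ ENNReal.ofReal (2 * R) := by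
  by_cases hab : a = b
  · rw [hab, sg_self]; exact zero_le
  have hd : 0 < ‖b - a‖ := norm_pos_iff.mpr (sub_ne_zero.mpr (Ne.symm hab))
  rw [m1_sg_apply a b Metric.isClosed_closedBall.measurableSet]
  have h1 : volume {t : ℝ | t ∈ Icc (0 : ℝ) 1 ∧ a + t • (b - a) ∈ cb y R} ≤
      ENNReal.ofReal (2 * R / ‖b - a‖) := by
    refine (Real.volume_le_diam _).trans (Metric.ediam_le fun s hs t ht => ?_)
    rw [edist_dist]
    refine ENNReal.ofReal_le_ofReal ?_
    rw [le_div_iff₀ hd]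
    have p1 : dist (a + s • (b - a)) y ≤ R := hs.2
    have p2 : dist (a + t • (b - a)) y ≤ R := ht.2
    have p3 := dist_triangle_right (a + s • (b - a)) (a + t • (b - a)) y
    have p4 : dist (a + s • (b - a)) (a + t • (b - a)) = dist s t * ‖b - a‖ := by
      rw [dist_add_left, dist_eq_norm, ← sub_smul, norm_smul, dist_eq_norm]
    linarith
  refine (mul_le_mul_right h1 _).trans ?_
  rw [← ENNReal.ofReal_mul hd.le]
  refine ENNReal.ofReal_le_ofReal (le_of_eq ?_)
  field_simp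

theorem m1_sg_restrict_Icc (a b : ℂ) {A : Set ℂ} (hA : MeasurableSet A) {u v : ℝ} (h0 : 0 ≤ u)
    (huv : u ≤ v) (h1 : v ≤ 1)
    (hin : ∀ t ∈ Ioo u v, a + t • (b - a) ∈ A)
    (hout : ∀ t ∈ Icc (0 : ℝ) 1, t < u ∨ v < t → a + t • (b - a) ∉ A) :
    (sg a b).restrict A = sg (a + u • (b - a)) (a + v • (b - a)) := by
  ext B hB
  rw [Measure.restrict_apply hB, m1_sg_apply a b (hB.inter hA), m1_sg_sub a (b - a) u v hB,
    uIcc_of_le huv]
  rw [m1_vol_eq_of_fin (T := {t : ℝ | t ∈ Icc u v ∧ a + t • (b - a) ∈ B}) {u, v} (toFinite _)]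
  intro t ht
  have hu : t ≠ u := fun h => ht (Or.inl h)
  have hv : t ≠ v := fun h => ht (Or.inr h)
  simp only [mem_ofPred_eq, mem_inter_iff]
  constructor
  · rintro ⟨p1, p2, p3⟩
    refine ⟨⟨?_, ?_⟩, p2⟩
    · by_contra h
      exact hout t p1 (Or.inl (not_le.mp h)) p3
    · by_contra h
      exact hout t p1 (Or.inr (not_le.mp h)) p3
  · rintro ⟨p1, p2⟩
    exact ⟨⟨h0.trans p1.1, p1.2.trans h1⟩, p2,
      hin t ⟨lt_of_le_of_ne p1.1 hu.symm, lt_of_le_of_ne p1.2 hv⟩⟩

/-- A ray from the centre. -/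
theorem sg_ray (y v : ℂ) (hv : ‖v‖ = 1) {r R : ℝ} (h0 : 0 ≤ r) (hr : r ≤ R) :
    (sg y (y + R • v)).restrict (cb y r) = sg y (y + r • v) := by
  rcases (h0.trans hr).eq_or_lt with hR | hR
  · have hr0 : r = 0 := le_antisymm (hR ▸ hr) h0
    rw [← hR, hr0, zero_smul, add_zero, sg_self, Measure.restrict_zero]
  have e : y + R • v - y = R • v := by abel
  have mem : ∀ t : ℝ, 0 ≤ t → (y + t • (y + R • v - y) ∈ cb y r ↔ t ≤ r / R) := by
    intro t ht
    rw [e, Metric.mem_closedBall, dist_self_add_left, norm_smul, norm_smul, hv, mul_one,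
      Real.norm_of_nonneg ht, Real.norm_of_nonneg hR.le, le_div_iff₀ hR]
  rw [m1_sg_restrict_Icc y (y + R • v) Metric.isClosed_closedBall.measurableSet (u := 0)
    (v := r / R) le_rfl (div_nonneg h0 hR.le) ((div_le_one hR).mpr hr)
    (fun t ht => (mem t ht.1.le).mpr ht.2.le)
    (fun t ht h hm => by
      rcases h with h | h
      · exact absurd ht.1 (not_le.mpr h)
      · exact absurd ((mem t ht.1).mp hm) (not_le.mpr h))]
  rw [e, zero_smul, add_zero, smul_smul, div_mul_cancel₀ r hR.ne']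

theorem sg_pos {a b x : ℂ} (hab : a ≠ b) (hx : x ∈ segment ℝ a b) {r : ℝ} (hr : 0 < r) :
    0 < sg a b (Metric.ball x r) := by
  obtain ⟨u, hu, rfl⟩ := m1_seg_ex hx
  have hd : 0 < ‖b - a‖ := norm_pos_iff.mpr (sub_ne_zero.mpr (Ne.symm hab))
  rw [m1_sg_apply a b Metric.isOpen_ball.measurableSet]
  refine ENNReal.mul_pos (ENNReal.ofReal_pos.mpr hd).ne' (ne_of_gt ?_)
  have hc : Continuous fun t : ℝ => a + t • (b - a) := by fun_prop
  have ho : IsOpen ((fun t : ℝ => a + t • (b - a)) ⁻¹' Metric.ball (a + u • (b - a)) r) :=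
    Metric.isOpen_ball.preimage hc
  have hcl : u ∈ closure (Ioo (0 : ℝ) 1) := by
    rw [closure_Ioo zero_ne_one]; exact hu
  have hne := mem_closure_iff.mp hcl _ ho (Metric.mem_ball_self hr)
  refine lt_of_lt_of_le ((ho.inter isOpen_Ioo).measure_pos volume hne) (measure_mono ?_)
  rintro t ⟨p1, p2⟩
  exact ⟨Ioo_subset_Icc_self p2, p1⟩

/-- Restriction to a set that meets the segment in an interval of parameters. -/
theorem sg_restrict_Icc (a b : ℂ) {A : Set ℂ} (hA : MeasurableSet A) {u v : ℝ} (h0 : 0 ≤ u)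
    (huv : u ≤ v) (h1 : v ≤ 1)
    (hin : ∀ t ∈ Ioo u v, a + t • (b - a) ∈ A)
    (hout : ∀ t ∈ Icc (0 : ℝ) 1, t < u ∨ v < t → a + t • (b - a) ∉ A) :
    (sg a b).restrict A = sg (a + u • (b - a)) (a + v • (b - a)) := 
  m1_sg_restrict_Icc a b hA h0 huv h1 hin hout

theorem sg_restrict_convex (a b : ℂ) {C : Set ℂ} (hC : Convex ℝ C) (hm : MeasurableSet C) :
    (sg a b).restrict C = 0 ∨ ∃ a' ∈ segment ℝ a b ∩ closure C, ∃ b' ∈ segment ℝ a b ∩ closure C,
      (sg a b).restrict C = sg a' b' := by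
  set T : Set ℝ := {t : ℝ | t ∈ Icc (0 : ℝ) 1 ∧ a + t • (b - a) ∈ C} with hT
  rcases eq_empty_or_nonempty T with h | hne
  · left
    refine sg_restrict_of_disjoint (disjoint_left.mpr fun x hx hxC => ?_)
    obtain ⟨t, ht, rfl⟩ := m1_seg_ex hx
    have : t ∈ T := ⟨ht, hxC⟩
    rw [h] at this
    exact this
  right
  have hb : BddBelow T := ⟨0, fun t ht => ht.1.1⟩
  have ha : BddAbove T := ⟨1, fun t ht => ht.1.2⟩
  have hc : Continuous fun t : ℝ => a + t • (b - a) := by fun_prop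
  have hcl : ∀ t ∈ closure T, a + t • (b - a) ∈ segment ℝ a b ∩ closure C := by
    intro t ht
    have p1 : t ∈ Icc (0 : ℝ) 1 :=
      closure_minimal (fun s hs => hs.1) isClosed_Icc ht
    exact ⟨m1_seg_mem a b p1, map_mem_closure (f := fun t : ℝ => a + t • (b - a)) hc ht
      fun s (hs : s ∈ T) => hs.2⟩
  have hu := csInf_mem_closure hne hb
  have hv := csSup_mem_closure hne ha
  refine ⟨_, hcl _ hu, _, hcl _ hv, sg_restrict_Icc a b hm
    (le_csInf hne fun t ht => ht.1.1) (csInf_le_csSup hne hb ha)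
    (csSup_le hne fun t ht => ht.1.2) (fun t ht => ?_) (fun t ht h hm' => ?_)⟩
  · obtain ⟨s1, hs1, l1⟩ := exists_lt_of_csInf_lt hne ht.1
    obtain ⟨s2, hs2, l2⟩ := exists_lt_of_lt_csSup hne ht.2
    have hseg : t ∈ segment ℝ s1 s2 := by
      rw [segment_eq_Icc (l1.trans l2).le]
      exact ⟨l1.le, l2.le⟩
    obtain ⟨p, q, hp, hq, hpq, rfl⟩ := hseg
    have := hC hs1.2 hs2.2 hp hq hpq
    have e : p • (a + s1 • (b - a)) + q • (a + s2 • (b - a)) =
        a + (p • s1 + q • s2) • (b - a) := by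
      rw [smul_add, smul_add, add_add_add_comm, ← add_smul, hpq, one_smul, add_smul, smul_assoc,
        smul_assoc]
    rwa [e] at this
  · have hT' : t ∈ T := ⟨ht, hm'⟩
    rcases h with h | h
    · exact absurd (csInf_le hb hT') (not_le.mpr h)
    · exact absurd (le_csSup ha hT') (not_le.mpr h)

theorem scl_sg (o a b : ℂ) {l : ℝ} (hl : 0 ≤ l) :
    scl o l (sg a b) = sg (o + l • (a - o)) (o + l • (b - o)) := by
  unfold scl sg
  have e : o + l • (b - o) - (o + l • (a - o)) = l • (b - a) := by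
    rw [add_sub_add_left_eq_sub, ← smul_sub, sub_sub_sub_cancel_right]
  rw [Measure.map_smul, Measure.map_map (m1_meas_scl o l) (m1_meas_line a (b - a)), smul_smul,
    ← ENNReal.ofReal_mul hl, e, norm_smul, Real.norm_of_nonneg hl]
  have f : ((fun x : ℂ => o + l • (x - o)) ∘ fun t : ℝ => a + t • (b - a)) =
      fun t : ℝ => o + l • (a - o) + t • l • (b - a) := by
    funext t
    simp only [Function.comp]
    rw [smul_comm t l, add_assoc, ← smul_add, add_sub_right_comm]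
  rw [f]

theorem scl_add (o : ℂ) (l : ℝ) (μ ν : Ms) : scl o l (μ + ν) = scl o l μ + scl o l ν := by
  unfold scl
  rw [Measure.map_add _ _ (m1_meas_scl o l), smul_add]

theorem scl_zero (o : ℂ) (μ : Ms) : scl o 0 μ = 0 := by
  unfold scl
  rw [ENNReal.ofReal_zero, zero_smul]

theorem scl_one (o : ℂ) (μ : Ms) : scl o 1 μ = μ := by
  unfold scl
  have f : (fun x : ℂ => o + (1 : ℝ) • (x - o)) = id := by
    funext x; simp
  rw [ENNReal.ofReal_one, one_smul, f, Measure.map_id]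

theorem scl_univ (o : ℂ) (l : ℝ) (μ : Ms) : scl o l μ univ = ENNReal.ofReal l * μ univ := by
  unfold scl
  rw [Measure.smul_apply, Measure.map_apply (m1_meas_scl o l) MeasurableSet.univ, preimage_univ,
    smul_eq_mul]

theorem m1_scl_sum (o : ℂ) (l : ℝ) {ι : Type} (s : Finset ι) (f : ι → Ms) :
    scl o l (∑ i ∈ s, f i) = ∑ i ∈ s, scl o l (f i) := by
  classical
  induction s using Finset.induction_on with
  | empty =>
    unfold scl
    simp
  | insert i s hi ih => rw [Finset.sum_insert hi, Finset.sum_insert hi, scl_add, ih]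

theorem scl_msr (o : ℂ) {l : ℝ} (hl : 0 ≤ l) {m : ℕ} (a b : Fin m → ℂ) :
    scl o l (msr a b) = msr (fun i => o + l • (a i - o)) (fun i => o + l • (b i - o)) := by
  unfold msr
  rw [m1_scl_sum]
  exact Finset.sum_congr rfl fun i _ => scl_sg o (a i) (b i) hl

instance instFinMsr {m : ℕ} (a b : Fin m → ℂ) : IsFiniteMeasure (msr a b) := by
  unfold msr; infer_instance

theorem msr_real_univ {m : ℕ} (a b : Fin m → ℂ) :
    (msr a b).real univ = ∑ i, ‖b i - a i‖ := by
  unfold msr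
  rw [Measure.real, Measure.finsetSum_apply,
    ENNReal.toReal_sum fun i _ => measure_ne_top _ _]
  exact Finset.sum_congr rfl fun i _ => sg_real_univ (a i) (b i)

theorem msr_append {m n : ℕ} (a b : Fin m → ℂ) (a' b' : Fin n → ℂ) :
    msr (Fin.append a a') (Fin.append b b') = msr a b + msr a' b' := by
  unfold msr
  rw [Fin.sum_univ_add]
  simp only [Fin.append_left, Fin.append_right]

/-- Any finite index type will do. -/
theorem msr_equivFin {ι : Type} [Fintype ι] (a b : ι → ℂ) :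
    msr (a ∘ (Fintype.equivFin ι).symm) (b ∘ (Fintype.equivFin ι).symm) =
      ∑ i, sg (a i) (b i) := by
  unfold msr
  exact Equiv.sum_comp (Fintype.equivFin ι).symm fun i => sg (a i) (b i)

end Pool.Agent.MP_20201c_gt.H91
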