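import Pool.Agent.MP_20201c_gt.H91.Defs5
import Pool.Agent.MP_20201c_gt.H91.KitM1

/-! The perimeter is at most the length. -/

open MeasureTheory Set Filter Topology
open scoped ENNReal

namespace Pool.Agent.MP_20201c_gt.H91

theorem sp_strip (a c : ℂ) (T J : Set ℝ) :
    volume ((fun ζ : ℂ => a + c * ζ) '' {ζ | ζ.re ∈ T ∧ ζ.im ∈ J}) =
      ENNReal.ofReal (‖c‖ ^ 2) * (volume T * volume J) := by
  have h1 : (fun ζ : ℂ => a + c * ζ) '' {ζ | ζ.re ∈ T ∧ ζ.im ∈ J} =
      (fun z => a + z) '' (LinearMap.mul ℝ ℂ c '' {ζ | ζ.re ∈ T ∧ ζ.im ∈ J}) := by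
    rw [image_image]; rfl
  have h2 : LinearMap.det (LinearMap.mul ℝ ℂ c) = ‖c‖ ^ 2 := by
    rw [Complex.sq_norm, ← Algebra.norm_complex_apply, Algebra.norm_apply]
    rfl
  have h3 : {ζ : ℂ | ζ.re ∈ T ∧ ζ.im ∈ J} = Complex.measurableEquivRealProd ⁻¹' (T ×ˢ J) := by
    ext ζ; simp
  rw [h1, image_add_left, measure_preimage_add, Measure.addHaar_image_linearMap, h2,
    abs_of_nonneg (sq_nonneg _), h3,
    Complex.volume_preserving_equiv_real_prod.measure_preimage_equiv, Measure.volume_eq_prod,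
    Measure.prod_prod]

theorem sp_seg_null (a b : ℂ) : volume (segment ℝ a b) = 0 := by
  refine measure_mono_null (t := (fun ζ : ℂ => a + (b - a) * ζ) ''
    {ζ | ζ.re ∈ (univ : Set ℝ) ∧ ζ.im ∈ ({0} : Set ℝ)}) ?_ (by rw [sp_strip]; simp)
  intro x hx
  obtain ⟨t, -, rfl⟩ := m1_seg_ex hx
  exact ⟨t, by simp, by simp [mul_comm]⟩

theorem sp_nbhd (a b : ℂ) {K U : Set ℂ} (hU : MeasurableSet U) {ε : ℝ} (hε : 0 < ε)
    (hK : ∀ x ∈ K, Metric.ball x ε ⊆ U) :
    volume {x | x ∈ K ∧ ∃ w ∈ segment ℝ a b, dist x w < ε} ≤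
      ENNReal.ofReal (2 * ε) * sg a b U + ENNReal.ofReal (4 * ε ^ 2) := by
  by_cases hab : a = b
  · subst hab
    refine le_trans ?_ le_add_self
    refine le_trans (measure_mono (t := (fun ζ : ℂ => a + 1 * ζ) ''
      {ζ | ζ.re ∈ Icc (-ε) ε ∧ ζ.im ∈ Icc (-ε) ε}) ?_) ?_
    · rintro x ⟨-, w, hw, hd⟩
      rw [segment_same, mem_singleton_iff] at hw
      subst hw
      rw [dist_eq_norm] at hd
      refine ⟨x - w, ⟨abs_le.1 ?_, abs_le.1 ?_⟩, by simp⟩
      · exact (Complex.abs_re_le_norm _).trans hd.le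
      · exact (Complex.abs_im_le_norm _).trans hd.le
    · rw [sp_strip, Real.volume_Icc, ← ENNReal.ofReal_mul (by linarith),
        ← ENNReal.ofReal_mul (by positivity)]
      refine ENNReal.ofReal_le_ofReal (le_of_eq ?_)
      simp only [norm_one]
      ring
  have hc : b - a ≠ 0 := sub_ne_zero.2 (Ne.symm hab)
  have hL : 0 < ‖b - a‖ := norm_pos_iff.2 hc
  rw [sg_apply a b hU]
  set T := {t : ℝ | t ∈ Icc (0 : ℝ) 1 ∧ a + t • (b - a) ∈ U} with hT
  set e := ε / ‖b - a‖ with he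
  have he0 : 0 < e := by positivity
  have hTf : volume T ≠ ⊤ := by
    refine ne_top_of_le_ne_top ?_ (measure_mono (t := Icc (0 : ℝ) 1) fun t ht => ht.1)
    simp
  refine le_trans (measure_mono (t := (fun ζ : ℂ => a + (b - a) * ζ) ''
    {ζ | ζ.re ∈ T ∪ (Icc (-e) 0 ∪ Icc 1 (1 + e)) ∧ ζ.im ∈ Icc (-e) e}) ?_) ?_
  · rintro x ⟨hx, w, hw, hd⟩
    obtain ⟨τ, hτ, rfl⟩ := m1_seg_ex hw
    obtain ⟨ζ, rfl⟩ : ∃ ζ, x = a + (b - a) * ζ := ⟨(x - a) / (b - a), by field_simp; ring⟩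
    have h1 : ‖ζ - τ‖ < e := by
      rw [dist_eq_norm] at hd
      have h2 : a + (b - a) * ζ - (a + τ • (b - a)) = (b - a) * (ζ - τ) := by
        rw [Complex.real_smul]; ring
      rw [h2, norm_mul] at hd
      rw [he, lt_div_iff₀ hL]
      linarith
    have h2 : |ζ.re - τ| < e := by simpa using (Complex.abs_re_le_norm (ζ - τ)).trans_lt h1
    have h3 : |ζ.im| < e := by simpa using (Complex.abs_im_le_norm (ζ - τ)).trans_lt h1
    refine ⟨ζ, ⟨?_, abs_le.1 h3.le⟩, rfl⟩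
    have h4 := abs_lt.1 h2
    rcases lt_or_ge ζ.re 0 with h5 | h5
    · exact Or.inr (Or.inl ⟨by linarith [hτ.1], h5.le⟩)
    rcases lt_or_ge 1 ζ.re with h6 | h6
    · exact Or.inr (Or.inr ⟨h6.le, by linarith [hτ.2]⟩)
    refine Or.inl ⟨⟨h5, h6⟩, hK _ hx ?_⟩
    rw [Metric.mem_ball, dist_eq_norm]
    have h7 : a + ζ.re • (b - a) - (a + (b - a) * ζ) = (b - a) * (-(ζ.im * Complex.I)) := by
      rw [Complex.real_smul]
      conv_lhs => rw [← Complex.re_add_im ζ]
      simp only [Complex.add_re, Complex.ofReal_re, Complex.mul_re, Complex.I_re, mul_zero,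
        Complex.ofReal_im, Complex.I_im, mul_one, sub_self, add_zero]
      ring
    rw [h7, norm_mul, norm_neg, norm_mul, Complex.norm_I, mul_one, Complex.norm_real,
      Real.norm_eq_abs]
    rw [he, lt_div_iff₀ hL] at h3
    linarith
  · rw [sp_strip, Real.volume_Icc]
    have h1 : volume (T ∪ (Icc (-e) 0 ∪ Icc 1 (1 + e))) ≤ volume T + ENNReal.ofReal (2 * e) := by
      refine (measure_union_le _ _).trans (add_le_add_right ((measure_union_le _ _).trans ?_) _)
      rw [Real.volume_Icc, Real.volume_Icc, ← ENNReal.ofReal_add (by linarith) (by linarith)]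
      exact ENNReal.ofReal_le_ofReal (by linarith)
    refine le_trans (mul_le_mul_right (mul_le_mul_left h1 _) _) ?_
    obtain ⟨v, hv0, hv⟩ : ∃ v : ℝ, 0 ≤ v ∧ volume T = ENNReal.ofReal v :=
      ⟨(volume T).toReal, ENNReal.toReal_nonneg, (ENNReal.ofReal_toReal hTf).symm⟩
    rw [hv, ← ENNReal.ofReal_add hv0 (by positivity), ← ENNReal.ofReal_mul (by positivity),
      ← ENNReal.ofReal_mul (by positivity), ← ENNReal.ofReal_mul (by positivity),
      ← ENNReal.ofReal_mul (by positivity), ← ENNReal.ofReal_add (by positivity) (by positivity)]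
    refine ENNReal.ofReal_le_ofReal (le_of_eq ?_)
    rw [he]
    field_simp
    ring

/-- On discs inside `Ω` that miss `S` the set `E` is almost everything or almost nothing. -/
def SpLoc (Ω S E : Set ℂ) : Prop :=
  ∀ x r, Metric.ball x r ⊆ Ω → Disjoint (Metric.ball x r) S →
    (∀ᵐ y, y ∈ Metric.ball x r → y ∈ E) ∨ ∀ᵐ y, y ∈ Metric.ball x r → y ∈ Eᶜ

theorem SpLoc.compl {Ω S E : Set ℂ} (h : SpLoc Ω S E) : SpLoc Ω S Eᶜ := fun x r h1 h2 => by
  rw [compl_compl]
  exact (h x r h1 h2).symm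

theorem sp_loc {Ω : Set ℂ} {m : ℕ} {a b : Fin m → ℂ} {E : Set ℂ} (h : SideR Ω a b E) :
    SpLoc Ω (⋃ i, segment ℝ (a i) (b i)) E := by
  classical
  intro x r h1 h2
  have h3 : ∀ᵐ q : ℂ × ℂ ∂(Measure.prod volume volume), q.1 ∈ Metric.ball x r →
      q.2 ∈ Metric.ball x r → (q.1 ∈ E ↔ q.2 ∈ E) := by
    rw [← Measure.volume_eq_prod]
    filter_upwards [h] with q hq hq1 hq2
    have h4 : segment ℝ q.1 q.2 ⊆ Metric.ball x r := (convex_ball x r).segment_subset hq1 hq2
    have h5 := hq (h4.trans h1)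
    have h6 : ∀ i, ¬ cr (a i) (b i) q.1 q.2 := by
      rintro i ⟨w, hw1, hw2⟩
      exact disjoint_left.1 h2 (h4 hw2) (mem_iUnion.2 ⟨i, hw1⟩)
    simp only [h6, if_false, Finset.sum_const_zero] at h5
    by_cases e1 : q.1 ∈ E <;> by_cases e2 : q.2 ∈ E <;> simp [e1, e2] at h5 ⊢
  have h4 := Measure.ae_ae_of_ae_prod h3
  by_cases hz : ∃ z ∈ Metric.ball x r, ∀ᵐ y, z ∈ Metric.ball x r → y ∈ Metric.ball x r →
      (z ∈ E ↔ y ∈ E)
  · obtain ⟨z, hz1, hz2⟩ := hz
    by_cases hE : z ∈ E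
    · left
      filter_upwards [hz2] with y hy hy1
      exact (hy hz1 hy1).1 hE
    · right
      filter_upwards [hz2] with y hy hy1
      exact fun h5 => hE ((hy hz1 hy1).2 h5)
  · left
    filter_upwards [h4] with z hz1 hz2
    exact absurd ⟨z, hz2, hz1⟩ hz

/-- The points of `Ω` near which almost every point is in `E`. -/
def spCore (Ω E : Set ℂ) : Set ℂ :=
  {x | x ∈ Ω ∧ ∃ r, 0 < r ∧ ∀ᵐ y, y ∈ Metric.ball x r → y ∈ E}

theorem sp_core_ball {Ω E : Set ℂ} {x : ℂ} {r : ℝ} (h1 : Metric.ball x r ⊆ Ω)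
    (h2 : ∀ᵐ y, y ∈ Metric.ball x r → y ∈ E) : Metric.ball x r ⊆ spCore Ω E := by
  intro z hz
  obtain ⟨s, hs, hs'⟩ := Metric.isOpen_iff.1 Metric.isOpen_ball z hz
  refine ⟨h1 hz, s, hs, ?_⟩
  filter_upwards [h2] with y hy hy'
  exact hy (hs' hy')

theorem sp_core_open {Ω : Set ℂ} (ho : IsOpen Ω) (E : Set ℂ) : IsOpen (spCore Ω E) := by
  rw [Metric.isOpen_iff]
  rintro x ⟨hx, r, hr, h⟩
  obtain ⟨s, hs, hs'⟩ := Metric.isOpen_iff.1 ho x hx
  refine ⟨min r s, lt_min hr hs, sp_core_ball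
    ((Metric.ball_subset_ball (min_le_right _ _)).trans hs') ?_⟩
  filter_upwards [h] with y hy hy'
  exact hy (Metric.ball_subset_ball (min_le_left _ _) hy')

theorem sp_core_disj (Ω E : Set ℂ) : Disjoint (spCore Ω E) (spCore Ω Eᶜ) := by
  rw [disjoint_left]
  rintro x ⟨-, r, hr, h⟩ ⟨-, s, hs, h'⟩
  have h1 : ∀ᵐ y, y ∉ Metric.ball x (min r s) := by
    filter_upwards [h, h'] with y hy hy' h2
    exact hy' (Metric.ball_subset_ball (min_le_right _ _) h2)
      (hy (Metric.ball_subset_ball (min_le_left _ _) h2))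
  exact (Metric.measure_ball_pos volume x (lt_min hr hs)).ne' (measure_eq_zero_iff_ae_notMem.2 h1)

theorem sp_core_ae (Ω E : Set ℂ) : ∀ᵐ x, x ∈ spCore Ω E → x ∈ E := by
  rw [ae_iff]
  refine measure_null_of_locally_null _ fun x hx => ?_
  rw [mem_ofPred_eq, Classical.not_imp] at hx
  obtain ⟨⟨-, r, hr, h⟩, -⟩ := hx
  refine ⟨_, ?_, ae_iff.1 h⟩
  filter_upwards [mem_nhdsWithin_of_mem_nhds (Metric.ball_mem_nhds x hr), self_mem_nhdsWithin]
    with y hy hy'
  exact fun h2 => hy' fun _ => h2 hy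

theorem sp_core_near {Ω S E : Set ℂ} (h : SpLoc Ω S E) (hne : (spCore Ω E)ᶜ.Nonempty) {x : ℂ}
    {ε : ℝ} (hx : x ∈ spCore Ω E) (hb : Metric.ball x ε ⊆ Ω)
    (hd : Metric.infDist x (spCore Ω E)ᶜ < ε) : ∃ w ∈ S, dist x w < ε := by
  by_contra hc
  push Not at hc
  have hε : 0 < ε := Metric.infDist_nonneg.trans_lt hd
  have h1 : Disjoint (Metric.ball x ε) S := by
    rw [disjoint_left]
    intro w hw hw'
    rw [Metric.mem_ball, dist_comm] at hw
    linarith [hc w hw']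
  rcases h x ε hb h1 with h2 | h2
  · obtain ⟨y, hy, hy'⟩ := (Metric.infDist_lt_iff hne).1 hd
    exact hy (sp_core_ball hb h2 (by rwa [Metric.mem_ball, dist_comm]))
  · exact disjoint_left.1 (sp_core_disj Ω E) hx (sp_core_ball hb h2 (Metric.mem_ball_self hε))

theorem sp_core_int {Ω S E : Set ℂ} (ho : IsOpen Ω) (h : SpLoc Ω S E) (hS : IsClosed S)
    (hS0 : volume S = 0) (hE : MeasurableSet E) {d : ℂ → ℝ} (hd : ∀ x, x ∉ Ω → d x = 0) :
    ∫ x in spCore Ω E, d x = ∫ x in E, d x := by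
  rw [← integral_indicator (sp_core_open ho E).measurableSet, ← integral_indicator hE]
  refine integral_congr_ae ?_
  filter_upwards [sp_core_ae Ω E, sp_core_ae Ω Eᶜ, measure_eq_zero_iff_ae_notMem.1 hS0]
    with x h1 h2 h3
  by_cases hx : x ∈ Ω
  · by_cases hxE : x ∈ E
    · obtain ⟨r, hr, hr'⟩ := Metric.isOpen_iff.1 (ho.inter hS.isOpen_compl) x ⟨hx, h3⟩
      have h4 : Metric.ball x r ⊆ Ω := fun y hy => (hr' hy).1
      have h5 : x ∈ spCore Ω E := by
        rcases h x r h4 (disjoint_left.2 fun y hy => (hr' hy).2) with h6 | h6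
        · exact sp_core_ball h4 h6 (Metric.mem_ball_self hr)
        · exact absurd hxE (h2 (sp_core_ball h4 h6 (Metric.mem_ball_self hr)))
      rw [indicator_of_mem h5, indicator_of_mem hxE]
    · rw [indicator_of_notMem (fun h5 => hxE (h1 h5)), indicator_of_notMem hxE]
  · simp [indicator, hd x hx]

variable {φ : ℂ → ℂ}

theorem sp_one (hφ : ContDiff ℝ 1 φ) (hc : HasCompactSupport φ) {g : ℂ → ℝ} {C : NNReal}
    (hg : LipschitzWith C g) (l : ℂ →L[ℝ] ℝ) (v : ℂ) :
    Integrable (fun x => lineDeriv ℝ g x v * l (φ x)) ∧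
      Integrable (fun x => g x * l (fderiv ℝ φ x v)) ∧
      ∫ x, g x * l (fderiv ℝ φ x v) = -∫ x, lineDeriv ℝ g x v * l (φ x) := by
  have h1 : ContDiff ℝ 1 fun x => l (φ x) := l.contDiff.comp hφ
  have h2 : HasCompactSupport fun x => l (φ x) := hc.comp_left (g := l) (map_zero l)
  obtain ⟨D, hD⟩ := ContDiff.lipschitzWith_of_hasCompactSupport h2 h1 one_ne_zero
  have h3 : Continuous fun x => l (fderiv ℝ φ x v) :=
    l.continuous.comp ((hφ.continuous_fderiv one_ne_zero).clm_apply continuous_const)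
  have h4 : HasCompactSupport fun x => l (fderiv ℝ φ x v) :=
    (hc.fderiv ℝ).comp_left (g := fun L : ℂ →L[ℝ] ℂ => l (L v)) (by simp)
  refine ⟨(hg.locallyIntegrable_lineDeriv v).integrable_smul_right_of_hasCompactSupport
    h1.continuous h2, (hg.continuous.mul h3).integrable_of_hasCompactSupport h4.mul_left, ?_⟩
  rw [hg.integral_lineDeriv_mul_eq hD h2 v, ← integral_neg]
  refine integral_congr_ae (ae_of_all _ fun x => ?_)
  have h5 : HasFDerivAt (fun x => l (φ x)) (l.comp (fderiv ℝ φ x)) x :=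
    l.hasFDerivAt.comp x (hφ.differentiable one_ne_zero x).hasFDerivAt
  beta_reduce
  rw [h5.differentiableAt.lineDeriv_eq_fderiv, h5.fderiv]
  simp [mul_comm]

theorem sp_parts (hφ : ContDiff ℝ 1 φ) (hc : HasCompactSupport φ) {g : ℂ → ℝ} {C : NNReal}
    (hg : LipschitzWith C g) : ∫ x, g x * dvg φ x = -∫ x, fderiv ℝ g x (φ x) := by
  obtain ⟨a1, a2, a3⟩ := sp_one hφ hc hg Complex.reCLM 1
  obtain ⟨b1, b2, b3⟩ := sp_one hφ hc hg Complex.imCLM Complex.I
  have h1 : ∫ x, g x * dvg φ x = (∫ x, g x * Complex.reCLM (fderiv ℝ φ x 1)) +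
      ∫ x, g x * Complex.imCLM (fderiv ℝ φ x Complex.I) := by
    rw [← integral_add a2 b2]
    refine integral_congr_ae (ae_of_all _ fun x => ?_)
    simp [dvg, mul_add]
  rw [h1, a3, b3, ← neg_add, ← integral_add a1 b1]
  congr 1
  refine integral_congr_ae ?_
  filter_upwards [hg.ae_differentiableAt (μ := volume)] with x hx
  rw [hx.lineDeriv_eq_fderiv, hx.lineDeriv_eq_fderiv]
  have h2 : φ x = (φ x).re • (1 : ℂ) + (φ x).im • Complex.I := by
    simp
  conv_rhs => rw [h2, map_add, map_smul, map_smul]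
  simp [mul_comm]

theorem sp_dvg_int (hφ : ContDiff ℝ 1 φ) (hc : HasCompactSupport φ) : Integrable (dvg φ) := by
  have hg : LipschitzWith 0 fun _ : ℂ => (1 : ℝ) := LipschitzWith.const 1
  have h := (sp_one hφ hc hg Complex.reCLM 1).2.1.add (sp_one hφ hc hg Complex.imCLM Complex.I).2.1
  refine h.congr (ae_of_all _ fun x => ?_)
  simp [dvg]

theorem sp_dvg_zero (hφ : ContDiff ℝ 1 φ) (hc : HasCompactSupport φ) : ∫ x, dvg φ x = 0 := by
  have h := sp_parts hφ hc (LipschitzWith.const (α := ℂ) (1 : ℝ))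
  simpa using h

theorem sp_dvg_out {x : ℂ} (hx : x ∉ tsupport φ) : dvg φ x = 0 := by
  have h : fderiv ℝ φ x = 0 := by
    by_contra hc
    exact hx (support_fderiv_subset ℝ hc)
  simp [dvg, h]

/-- A Lipschitz approximation of the indicator function of `A`. -/
noncomputable def spG (A : Set ℂ) (ε : ℝ) (x : ℂ) : ℝ := min 1 (Metric.infDist x Aᶜ / ε)

theorem sp_g_lip (A : Set ℂ) {ε : ℝ} (hε : 0 < ε) :
    LipschitzWith ⟨ε⁻¹, by positivity⟩ (spG A ε) := by
  refine LipschitzWith.const_min (LipschitzWith.of_dist_le_mul fun x y => ?_) 1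
  have h := (Metric.lipschitz_infDist_pt Aᶜ).dist_le_mul x y
  rw [Real.dist_eq] at h ⊢
  rw [← sub_div, abs_div, abs_of_pos hε, div_eq_inv_mul]
  refine mul_le_mul_of_nonneg_left ?_ (by positivity)
  simpa using h

theorem sp_g_mem (A : Set ℂ) {ε : ℝ} (hε : 0 < ε) (x : ℂ) : 0 ≤ spG A ε x ∧ spG A ε x ≤ 1 :=
  ⟨le_min zero_le_one (div_nonneg Metric.infDist_nonneg hε.le), min_le_left _ _⟩

theorem sp_bound (hφ : ContDiff ℝ 1 φ) (hc : HasCompactSupport φ) (h1 : ∀ z, ‖φ z‖ ≤ 1)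
    {A : Set ℂ} (hA : IsOpen A) {ε : ℝ} (hε : 0 < ε) :
    |∫ x, spG A ε x * dvg φ x| ≤
      volume.real (tsupport φ ∩ A ∩ {x | Metric.infDist x Aᶜ < ε}) / ε := by
  have hm : MeasurableSet (tsupport φ ∩ A ∩ {x | Metric.infDist x Aᶜ < ε}) :=
    ((isClosed_tsupport φ).measurableSet.inter hA.measurableSet).inter
      (isOpen_lt (Metric.continuous_infDist_pt _) continuous_const).measurableSet
  have hf : volume (tsupport φ ∩ A ∩ {x | Metric.infDist x Aᶜ < ε}) ≠ ⊤ :=
    ne_top_of_le_ne_top hc.isCompact.measure_lt_top.ne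
      (measure_mono fun x hx => hx.1.1)
  rw [sp_parts hφ hc (sp_g_lip A hε), abs_neg, ← Real.norm_eq_abs]
  refine (norm_integral_le_of_norm_le (g := (tsupport φ ∩ A ∩
    {x | Metric.infDist x Aᶜ < ε}).indicator fun _ => ε⁻¹)
    ((integrable_indicator_iff hm).2 (integrableOn_const hf)) (ae_of_all _ fun x => ?_)).trans ?_
  · by_cases hx : x ∈ tsupport φ ∩ A ∩ {x | Metric.infDist x Aᶜ < ε}
    · rw [indicator_of_mem hx]
      have h2 : ‖fderiv ℝ (spG A ε) x‖ ≤ ε⁻¹ := norm_fderiv_le_of_lipschitz ℝ (sp_g_lip A hε)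
      have h3 := (fderiv ℝ (spG A ε) x).le_opNorm (φ x)
      have h4 := mul_le_mul h2 (h1 x) (norm_nonneg _) (by positivity)
      linarith
    · rw [indicator_of_notMem hx]
      refine le_of_eq (norm_eq_zero.2 ?_)
      by_cases h2 : x ∈ tsupport φ
      · by_cases h3 : x ∈ A
        · have h4 : ε ≤ Metric.infDist x Aᶜ := not_lt.1 fun h5 => hx ⟨⟨h2, h3⟩, h5⟩
          have h5 : IsLocalMax (spG A ε) x := Eventually.of_forall fun y => by
            have h6 : spG A ε x = 1 := min_eq_left ((one_le_div hε).2 h4)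
            rw [h6]
            exact (sp_g_mem A hε y).2
          rw [h5.fderiv_eq_zero]
          rfl
        · have h5 : IsLocalMin (spG A ε) x := Eventually.of_forall fun y => by
            have h6 : spG A ε x = 0 := by
              simp [spG, Metric.infDist_zero_of_mem (show x ∈ Aᶜ from h3)]
            rw [h6]
            exact (sp_g_mem A hε y).1
          rw [h5.fderiv_eq_zero]
          rfl
      · rw [image_eq_zero_of_notMem_tsupport h2, map_zero]
  · rw [integral_indicator hm, setIntegral_const, smul_eq_mul, div_eq_mul_inv]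

theorem sp_lim (hφ : ContDiff ℝ 1 φ) (hc : HasCompactSupport φ) {A : Set ℂ} (hA : IsOpen A)
    (hne : Aᶜ.Nonempty) :
    Tendsto (fun ε => ∫ x, spG A ε x * dvg φ x) (𝓝[>] 0) (𝓝 (∫ x in A, dvg φ x)) := by
  have hi := sp_dvg_int hφ hc
  rw [← integral_indicator hA.measurableSet]
  refine tendsto_integral_filter_of_dominated_convergence (fun x => ‖dvg φ x‖) ?_ ?_ hi.norm
    (ae_of_all _ fun x => ?_)
  · filter_upwards [self_mem_nhdsWithin] with ε hε
    exact (sp_g_lip A hε).continuous.aestronglyMeasurable.mul hi.aestronglyMeasurable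
  · filter_upwards [self_mem_nhdsWithin] with ε hε
    refine ae_of_all _ fun x => ?_
    have h := sp_g_mem A hε x
    rw [norm_mul, Real.norm_of_nonneg h.1]
    exact mul_le_of_le_one_left (norm_nonneg _) h.2
  · refine tendsto_const_nhds.congr' ?_
    by_cases hx : x ∈ A
    · have h1 : 0 < Metric.infDist x Aᶜ :=
        (hA.isClosed_compl.notMem_iff_infDist_pos hne).1 fun h => h hx
      filter_upwards [Ioo_mem_nhdsGT h1] with ε hε
      have h2 : spG A ε x = 1 := min_eq_left ((one_le_div hε.1).2 hε.2.le)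
      rw [indicator_of_mem hx, h2, one_mul]
    · refine Eventually.of_forall fun ε => ?_
      simp [spG, Metric.infDist_zero_of_mem (show x ∈ Aᶜ from hx), hx]

theorem side_per {Ω : Set ℂ} (ho : IsOpen Ω) {μ : Ms} {E : Set ℂ} (h : Side Ω μ E) {U : Set ℂ}
    (hU : IsOpen U) : per E (U ∩ Ω) ≤ μ U := by
  obtain ⟨hE, m, a, b, rfl, hs⟩ := h
  refine iSup_le fun φ => iSup_le fun hφ => iSup_le fun hc => iSup_le fun hsub =>
    iSup_le fun h1 => ENNReal.ofReal_le_of_le_toReal ?_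
  obtain ⟨R, hR⟩ := hc.isCompact.isBounded.subset_ball 0
  set O := Ω ∩ Metric.ball 0 R with hO
  have hOo : IsOpen O := ho.inter Metric.isOpen_ball
  set S := ⋃ i, segment ℝ (a i) (b i) with hS
  have hloc : SpLoc O S E := fun x r h2 h3 => sp_loc hs x r (fun y hy => (h2 hy).1) h3
  have hSc : IsClosed S := isClosed_iUnion_of_finite fun i => by
    rw [segment_eq_image]
    exact (isCompact_Icc.image (by fun_prop)).isClosed
  have hS0 : volume S = 0 := measure_iUnion_null fun i => sp_seg_null _ _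
  have hne : ∀ F, (spCore O F)ᶜ.Nonempty := fun F => by
    obtain ⟨x, hx⟩ := NormedSpace.exists_lt_norm ℝ ℂ R
    refine ⟨x, fun h2 => ?_⟩
    have h3 := h2.1.2
    rw [mem_ball_zero_iff] at h3
    linarith
  have hout : ∀ x, x ∉ O → dvg φ x = 0 := fun x hx =>
    sp_dvg_out fun h2 => hx ⟨(hsub h2).2, hR h2⟩
  have hA := sp_lim hφ hc (sp_core_open hOo E) (hne E)
  have hB := sp_lim hφ hc (sp_core_open hOo Eᶜ) (hne Eᶜ)
  rw [sp_core_int hOo hloc hSc hS0 hE hout] at hA
  rw [sp_core_int hOo hloc.compl hSc hS0 hE.compl hout] at hB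
  have hsum := integral_add_compl hE (sp_dvg_int hφ hc)
  rw [sp_dvg_zero hφ hc] at hsum
  obtain ⟨δ, hδ, hth⟩ := hc.isCompact.exists_thickening_subset_open (hU.inter hOo)
    fun x hx => ⟨(hsub hx).1, (hsub hx).2, hR hx⟩
  have hlim : Tendsto (fun ε : ℝ => 2 * (msr a b U).toReal + m * (4 * ε)) (𝓝[>] 0)
      (𝓝 (2 * (msr a b U).toReal + m * (4 * 0))) :=
    (Continuous.tendsto (by fun_prop) 0).mono_left nhdsWithin_le_nhds
  have key := le_of_tendsto_of_tendsto (hA.sub hB) hlim (by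
    filter_upwards [Ioo_mem_nhdsGT hδ] with ε hε
    have hb : ∀ x ∈ tsupport φ, Metric.ball x ε ⊆ U ∩ O := fun x hx =>
      ((Metric.ball_subset_ball hε.2.le).trans (Metric.ball_subset_thickening hx δ)).trans hth
    have e1 := sp_bound hφ hc h1 (sp_core_open hOo E) hε.1
    have e2 := sp_bound hφ hc h1 (sp_core_open hOo Eᶜ) hε.1
    set N₁ := tsupport φ ∩ spCore O E ∩ {x | Metric.infDist x (spCore O E)ᶜ < ε}
    set N₂ := tsupport φ ∩ spCore O Eᶜ ∩ {x | Metric.infDist x (spCore O Eᶜ)ᶜ < ε}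
    have hm : MeasurableSet N₂ :=
      ((isClosed_tsupport φ).measurableSet.inter (sp_core_open hOo Eᶜ).measurableSet).inter
        (isOpen_lt (Metric.continuous_infDist_pt _) continuous_const).measurableSet
    have hd : Disjoint N₁ N₂ := (sp_core_disj O E).mono (fun x hx => hx.1.2) fun x hx => hx.1.2
    have hsub2 : N₁ ∪ N₂ ⊆
        ⋃ i, {x | x ∈ tsupport φ ∧ ∃ w ∈ segment ℝ (a i) (b i), dist x w < ε} := by
      have e3 : ∀ x ∈ tsupport φ, (∃ w ∈ S, dist x w < ε) →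
          x ∈ ⋃ i, {x | x ∈ tsupport φ ∧ ∃ w ∈ segment ℝ (a i) (b i), dist x w < ε} := by
        rintro x hx ⟨w, hw, hw'⟩
        obtain ⟨i, hi⟩ := mem_iUnion.1 hw
        exact mem_iUnion.2 ⟨i, hx, w, hi, hw'⟩
      rintro x (hx | hx)
      · exact e3 x hx.1.1 (sp_core_near hloc (hne E) hx.1.2
          (fun y hy => (hb x hx.1.1 hy).2) hx.2)
      · exact e3 x hx.1.1 (sp_core_near hloc.compl (hne Eᶜ) hx.1.2
          (fun y hy => (hb x hx.1.1 hy).2) hx.2)
    have e4 : volume N₁ + volume N₂ ≤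
        ENNReal.ofReal (2 * ε) * msr a b U + m * ENNReal.ofReal (4 * ε ^ 2) := by
      rw [← measure_union hd hm]
      refine (measure_mono hsub2).trans ((measure_iUnion_fintype_le _ _).trans ?_)
      refine (Finset.sum_le_sum fun i _ => sp_nbhd (a i) (b i) hU.measurableSet hε.1
        fun x hx y hy => (hb x hx hy).1).trans (le_of_eq ?_)
      rw [Finset.sum_add_distrib, ← Finset.mul_sum, msr, Measure.finsetSum_apply]
      simp
    have hε0 := hε.1
    have hfin : ENNReal.ofReal (2 * ε) * msr a b U + m * ENNReal.ofReal (4 * ε ^ 2) ≠ ⊤ := by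
      finiteness
    have e5 := ENNReal.toReal_mono hfin e4
    have f1 : volume N₁ ≠ ⊤ := ne_top_of_le_ne_top hfin (le_self_add.trans e4)
    have f2 : volume N₂ ≠ ⊤ := ne_top_of_le_ne_top hfin (le_add_self.trans e4)
    rw [ENNReal.toReal_add f1 f2, ENNReal.toReal_add (by finiteness) (by finiteness),
      ENNReal.toReal_mul, ENNReal.toReal_mul, ENNReal.toReal_ofReal (by positivity),
      ENNReal.toReal_ofReal (by positivity), ENNReal.toReal_natCast] at e5
    have e6 : volume.real N₁ / ε + volume.real N₂ / ε ≤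
        2 * (msr a b U).toReal + m * (4 * ε) := by
      rw [← add_div, div_le_iff₀ hε0]
      simp only [Measure.real]
      nlinarith
    linarith [(abs_le.1 e1).2, (abs_le.1 e2).1])
  linarith

end Pool.Agent.MP_20201c_gt.H91
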