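import Pool.Agent.MP_20201c_gt.H91.Vst

/-! Discrete interpolation over the simplices. -/

open MeasureTheory Set Filter Topology
open scoped ENNReal

namespace Pool.Agent.MP_20201c_gt.H91

section
variable {𝒯 : Finset Tri} {pos : Vt → ℂ} {f f' : Vt → ℝ} {η η₁ η' t t₁ ζ ζ₁ r : ℝ} {S : St}

theorem di_mono (h : AdmS 𝒯 pos f η t ζ r S) (h1 : η₁ ≤ η) (h2 : t ≤ t₁) (h3 : ζ ≤ ζ₁) :
    AdmS 𝒯 pos f η₁ t₁ ζ₁ r S :=
  ⟨⟨h.1.1, fun τ hτ i => ⟨(h.1.2 τ hτ i).1, fun e => (h.1.2 τ hτ i).2.1 (by linarith),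
    fun e => (h.1.2 τ hτ i).2.2 (by linarith)⟩⟩, h.2.1.trans h2, fun q => (h.2.2 q).trans h3⟩

theorem di_near (h : AdmS 𝒯 pos f η t ζ r S)
    (hf : ∀ τ ∈ 𝒯, ∀ j, |f (tv τ j) - f' (tv τ j)| ≤ η') : AdmS 𝒯 pos f' (η - η') t ζ r S := by
  refine ⟨⟨h.1.1, fun τ hτ i => ?_⟩, h.2⟩
  have e := abs_le.1 (hf τ hτ i)
  exact ⟨(h.1.2 τ hτ i).1, fun e' => (h.1.2 τ hτ i).2.1 (by linarith [e.1]),
    fun e' => (h.1.2 τ hτ i).2.2 (by linarith [e.2])⟩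

theorem di_far (h : AdmS 𝒯 pos f η t ζ r S)
    (hf : ∀ τ ∈ 𝒯, ∀ j, |1 - f (tv τ j) - f' (tv τ j)| ≤ η') :
    AdmS 𝒯 pos f' (η - η') t ζ r (-S) := by
  have e0 : stM 𝒯 pos (-S) = stM 𝒯 pos S := stM_neg fun τ hτ i => (h.1.2 τ hτ i).1
  refine ⟨⟨fun τ hτ => by rw [Pi.neg_apply, h.1.1 τ hτ, neg_zero], fun τ hτ i => ?_⟩,
    e0 ▸ h.2.1, e0 ▸ h.2.2⟩
  have e := abs_le.1 (hf τ hτ i)
  exact ⟨neg_ne_zero.2 (h.1.2 τ hτ i).1,
    fun e' => neg_pos.2 ((h.1.2 τ hτ i).2.2 (by linarith [e.1])),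
    fun e' => neg_lt_zero.2 ((h.1.2 τ hτ i).2.1 (by linarith [e.2]))⟩

theorem di_uniq (hU : Unc 𝒯 f η ≠ 𝒯) (h : Sand 𝒯 f η S) : ¬ Sand 𝒯 f η (-S) := by
  intro h'
  refine hU (Finset.filter_true_of_mem fun τ hτ => ?_)
  rintro (e | e)
  · have a := (h.2 τ hτ 0).2.1 (e 0)
    have b : 0 < -S τ (tv τ 0) := (h'.2 τ hτ 0).2.1 (e 0)
    linarith
  · have a := (h.2 τ hτ 0).2.2 (e 0)
    have b : -S τ (tv τ 0) < 0 := (h'.2 τ hτ 0).2.2 (e 0)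
    linarith

end

/-- A state up to sign. -/
def diCn (S : St) : Set St := {S, -S}

theorem di_cn_neg (S : St) : diCn (-S) = diCn S := by
  rw [diCn, neg_neg, pair_comm, diCn]

theorem di_cn_sec {𝒯 : Finset Tri} {f : Vt → ℝ} {η : ℝ} (hU : Unc 𝒯 f η ≠ 𝒯) :
    ∃ g : Set St → St, ∀ S, Sand 𝒯 f η S → g (diCn S) = S := by
  refine ⟨fun X => Classical.epsilon fun S => S ∈ X ∧ Sand 𝒯 f η S, fun S hS => ?_⟩
  obtain ⟨h1, h2⟩ := Classical.epsilon_spec (p := fun S' => S' ∈ diCn S ∧ Sand 𝒯 f η S')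
    ⟨S, mem_insert _ _, hS⟩
  rcases h1 with e | e
  · exact e
  · exact absurd (e ▸ h2 :) (di_uniq hU hS)

theorem di_cn_msr (𝒯 : Finset Tri) (pos : Vt → ℂ) : ∃ M : Set St → Ms,
    ∀ S : St, (∀ τ ∈ 𝒯, ∀ i, S τ (tv τ i) ≠ 0) → M (diCn S) = stM 𝒯 pos S := by
  refine ⟨fun X => stM 𝒯 pos (Classical.epsilon fun S => S ∈ X), fun S hS => ?_⟩
  have h1 := Classical.epsilon_spec (p := fun S' => S' ∈ diCn S) ⟨S, mem_insert _ _⟩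
  rcases h1 with e | e
  · exact congrArg _ e
  · exact (congrArg _ e).trans (stM_neg hS)

theorem di_cell {m : ℕ} (hm : 0 < m) {a b θ : ℤ} (h : (a - θ) / m = (b - θ) / m) :
    |a - b| < m := by
  have hm' : (0 : ℤ) < m := by exact_mod_cast hm
  have a1 := Int.emod_add_mul_ediv (a - θ) m
  have b1 := Int.emod_add_mul_ediv (b - θ) m
  have a2 := Int.emod_nonneg (a - θ) hm'.ne'
  have b2 := Int.emod_nonneg (b - θ) hm'.ne'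
  have a3 := Int.emod_lt_of_pos (a - θ) hm'
  have b3 := Int.emod_lt_of_pos (b - θ) hm'
  rw [h] at a1
  rw [abs_lt]
  constructor <;> linarith

/-- Good lists of states. -/
def DiGood (𝒯 : Finset Tri) (pos : Vt → ℂ) (m : ℕ) (r : ℝ) (f : Vt → ℝ) (η t ζ : ℝ) (k : ℕ) :
    Set (List St) :=
  {l | l.length = k ∧ (∀ S ∈ l, AdmS 𝒯 pos f η t ζ r S) ∧ Act 𝒯 m k l}

theorem di_fill {𝒯 : Finset Tri} {pos : Vt → ℂ} {h ε : ℝ} {m : ℕ} (hh : 0 < h)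
    (hp : PosOK h ε pos) (hε : ε ≤ 1) {r : ℝ} (hr : 0 ≤ r) (hm : 2 * r + 2 * ε < m * h)
    (f : Vt → ℝ) {η η₂ ξ t ζ : ℝ} (hη₂ : η₂ ≤ η) (hξ : 0 ≤ ξ)
    (hU : 4 * h * (Unc 𝒯 f η₂).card ≤ ξ * m) {S₀ : St} (h₀ : AdmS 𝒯 pos f η t ζ r S₀) {k : ℕ}
    {z : LCh St} (hz : z ∈ Sp (DiGood 𝒯 pos m r f η t ζ k)) (hb : bdL z = 0) :
    ∃ w ∈ Sp (DiGood 𝒯 pos m r f η (t + ξ) (4 * ζ + ξ) (k + 1)), bdL w = z := by
  have hm0 : 0 < m := by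
    have h1 : 0 ≤ ε := (norm_nonneg _).trans (hp 0).1
    refine Nat.pos_of_ne_zero fun e => ?_
    rw [e, Nat.cast_zero, zero_mul] at hm
    linarith
  have hz' := mem_sp.1 hz
  obtain ⟨θ, B, hB, hmix⟩ := mixl hh hp hε hr hm f hη₂ hξ hU
    (𝒮 := insert S₀ (⋃ l ∈ z.support, {S | S ∈ l}))
    ((z.support.finite_toSet.biUnion fun l _ => l.finite_toSet).insert _) (insert_nonempty _ _)
    (t := t) (ζ := ζ) (by
      rintro S (rfl | hS)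
      · exact h₀
      · obtain ⟨l, hl, hS⟩ := mem_iUnion₂.1 hS
        exact (hz' l hl).2.1 S hS)
  obtain ⟨w, hw, hw'⟩ := fillL (cellOf m θ) (𝒯.image (cellOf m θ)) B hb (by
    intro l hl S hS τ hτ
    have hτ' : τ ∉ 𝒯 := fun e => hτ (Finset.mem_image_of_mem _ e)
    rw [hB.1.1 τ hτ', ((hz' l hl).2.1 S hS).1.1 τ hτ'])
  have hwP : w ∈ Sp {l : List St | (∀ S ∈ l, AdmS 𝒯 pos f η (t + ξ) (4 * ζ + ξ) r S) ∧
      Act 𝒯 m (k + 1) l} := by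
    refine mem_sp.2 fun l' hl' => ?_
    rcases hw' l' hl' with e | ⟨l, hl, J, c, hc, e⟩
    · refine ⟨fun S hS => e S hS ▸ hB, ∅, by simp, by simp, fun S hS S' hS' τ _ => ?_⟩
      rw [e S hS, e S' hS']
    · refine ⟨fun S' hS' => ?_, ?_⟩
      · obtain ⟨S, hS, e'⟩ := e S' hS'
        have hS2 : S ∈ insert S₀ (⋃ l ∈ z.support, {S | S ∈ l}) :=
          Or.inr (mem_iUnion₂.2 ⟨l, hl, hS⟩)
        rcases e' with rfl | rfl
        · exact hmix S hS2 _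
        · exact hmix S hS2 _
      · obtain ⟨τc, hτc, rfl⟩ := Finset.mem_image.1 hc
        obtain ⟨Q, q1, q2, q3⟩ := (hz' l hl).2.2
        refine ⟨insert τc Q, (Finset.card_insert_le _ _).trans (by omega),
          Finset.insert_subset hτc q2, fun S₁ h₁ S₂ h₂ τ hτ => ?_⟩
        have hne : cellOf m θ τ ≠ cellOf m θ τc := fun e' =>
          hτ τc (Finset.mem_insert_self _ _)
            ⟨di_cell hm0 (congrArg Prod.fst e'), di_cell hm0 (congrArg Prod.snd e')⟩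
        have key : ∀ S' ∈ l', ∃ S ∈ l, S' τ = mix (cellOf m θ) J B S τ := by
          intro S' hS'
          obtain ⟨S, hS, e'⟩ := e S' hS'
          refine ⟨S, hS, ?_⟩
          rcases e' with rfl | rfl
          · rfl
          · simp only [mix, Finset.mem_insert, hne, false_or]
        obtain ⟨T₁, a₁, b₁⟩ := key S₁ h₁
        obtain ⟨T₂, a₂, b₂⟩ := key S₂ h₂
        rw [b₁, b₂, mix, mix, q3 T₁ a₁ T₂ a₂ τ fun τ' h' => hτ τ' (Finset.mem_insert_of_mem h')]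
  obtain ⟨w', h1, h2⟩ := projL_eq (N := k) hwP (hw ▸ sp_mono (fun l hl => hl.1) hz)
  refine ⟨w', sp_mono ?_ h1, h2.trans hw⟩
  exact fun l hl => ⟨hl.2, hl.1⟩

theorem disc_interp {Y : Type} {𝒯 : Finset Tri} {pos : Vt → ℂ} {h ε : ℝ} {m : ℕ} (hh : 0 < h)
    (hp : PosOK h ε pos) (hε : ε ≤ 1) {r : ℝ} (hr : 0 ≤ r) (hm : 2 * r + 2 * ε < m * h) (N : ℕ)
    {𝒮 : Set (Sx Y)} (hS : FaceCl 𝒮) (hN : 𝒮 ⊆ Dle Y N) (f : Sx Y → Vt → ℝ)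
    {η η' ξ t ζ : ℝ} (hη : η < 1 / 2) (hη' : 0 ≤ η') (hNη : N * η' ≤ η / 2) (hξ : 0 ≤ ξ)
    (hζ : 0 ≤ ζ)
    (hface : ∀ (n : ℕ) (g : Sm (n + 2) → Y) (i : Fin (n + 2)), (⟨n + 2, g⟩ : Sx Y) ∈ 𝒮 →
      (∀ τ ∈ 𝒯, ∀ j, |f ⟨n + 1, g ∘ fc (n + 1) i⟩ (tv τ j) - f ⟨n + 2, g⟩ (tv τ j)| ≤ η') ∨
      ∀ τ ∈ 𝒯, ∀ j, |1 - f ⟨n + 1, g ∘ fc (n + 1) i⟩ (tv τ j) - f ⟨n + 2, g⟩ (tv τ j)| ≤ η')
    (h0 : ∀ s ∈ 𝒮, 0 < s.1 → (∃ S, AdmS 𝒯 pos (f s) η t ζ r S) ∧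
      4 * h * (Unc 𝒯 (f s) (η / 2)).card ≤ ξ * m ∧ Unc 𝒯 (f s) (η / 2) ≠ 𝒯) :
    ∃ ρ : Sx Y → LCh Ms, ρ (emp Y) = one [] ∧ ∀ s ∈ 𝒮, bdL (ρ s) = lift ρ (bdS s) ∧
      ρ s ∈ Sp {l : List Ms | l.length = s.1 ∧ ∃ l₀ : List St, l = l₀.map (stM 𝒯 pos) ∧
        (∀ S ∈ l₀, AdmS 𝒯 pos (f s) (η / 2) (t + N * ξ) (5 ^ N * (ζ + ξ)) r S) ∧
        Act 𝒯 m N l₀} := by
  have hmar : ∀ k : ℕ, k ≤ N → η / 2 ≤ η - k * η' := fun k hk => by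
    have : (k : ℝ) * η' ≤ N * η' := mul_le_mul_of_nonneg_right (by exact_mod_cast hk) hη'
    linarith
  have hd : ∀ b ∈ {s : Sx Y | s.1 = 0 ∨ s ∈ 𝒮},
      bdS b ∈ Sp ({s : Sx Y | s.1 = 0 ∨ s ∈ 𝒮} ∩ {b' | b'.1 < b.1}) := by
    rintro ⟨_ | n, g⟩ hb
    · simp [bdS]
    · rw [bdS]
      exact Submodule.sum_mem _ fun i _ =>
        one_mem ⟨Or.inr (hS n g i (hb.resolve_left n.succ_ne_zero)), n.lt_succ_self⟩
  obtain ⟨ρ, hρ⟩ := ac0 (fun s : Sx Y => s.1) bdS _ hd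
    (fun s (c z : LCh (Set St)) => bdL c = z ∧ (s.1 = 0 → c = one []) ∧
      c ∈ Sp (List.map diCn '' DiGood 𝒯 pos m r (f s) (η - s.1 * η') (t + s.1 * ξ)
        (5 ^ s.1 * (ζ + ξ)) s.1)) (by
    rintro ⟨_ | k, g⟩ hs ρ ih
    · refine ⟨one [], by simp [bdS, bdL_one, bdLS_nil], fun _ => rfl,
        one_mem ⟨[], ⟨rfl, by simp, ∅, by simp, by simp, by simp⟩, rfl⟩⟩
    have hs' : (⟨k + 1, g⟩ : Sx Y) ∈ 𝒮 := hs.resolve_left k.succ_ne_zero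
    obtain ⟨⟨S₀, h₀⟩, hU, hU'⟩ := h0 _ hs' k.succ_pos
    obtain ⟨G, hG⟩ := di_cn_sec hU'
    have hk := hmar (k + 1) (hN hs')
    have hb : bdL (lift ρ (bdS ⟨k + 1, g⟩)) = 0 := by
      rw [lin_lift, lift_congr _ (fun b => lift ρ (bdS b))
        (fun b hb => (ih b hb.1 hb.2).1) (hd _ hs), ← lin_lift]
      have := bd_bd (one (⟨k + 1, g⟩ : Sx Y))
      rw [bd_one] at this
      exact (congrArg _ this).trans (map_zero _)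
    have hz : lift ρ (bdS ⟨k + 1, g⟩) ∈ Sp (List.map diCn '' DiGood 𝒯 pos m r (f ⟨k + 1, g⟩)
        (η - (k + 1 : ℕ) * η') (t + k * ξ) (5 ^ k * (ζ + ξ)) k) := by
      rw [bdS, map_sum]
      refine Submodule.sum_mem _ fun i _ => ?_
      rw [lift_one]
      refine sp_mono ?_ (ih ⟨k, g ∘ fc k i⟩ (Or.inr (hS k g i hs')) k.lt_succ_self).2.2
      rintro _ ⟨l, ⟨l1, l2, l3⟩, rfl⟩
      have e : η - (k + 1 : ℕ) * η' = η - k * η' - η' := by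
        push_cast
        ring
      rcases k with _ | n
      · obtain rfl := List.eq_nil_of_length_eq_zero l1
        exact ⟨[], ⟨rfl, by simp, l3⟩, rfl⟩
      rcases hface n g i hs' with hf | hf
      · exact ⟨l, ⟨l1, fun S h' => e ▸ di_near (l2 S h') hf, l3⟩, rfl⟩
      · refine ⟨l.map Neg.neg, ⟨by rw [List.length_map]; exact l1, fun S h' => ?_, ?_⟩, ?_⟩
        · obtain ⟨S', h'', rfl⟩ := List.mem_map.1 h'
          exact e ▸ di_far (l2 S' h'') hf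
        · obtain ⟨Q, q1, q2, q3⟩ := l3
          refine ⟨Q, q1, q2, fun S₁ h₁ S₂ h₂ τ hτ => ?_⟩
          obtain ⟨T₁, a₁, rfl⟩ := List.mem_map.1 h₁
          obtain ⟨T₂, a₂, rfl⟩ := List.mem_map.1 h₂
          rw [Pi.neg_apply, Pi.neg_apply, q3 T₁ a₁ T₂ a₂ τ hτ]
        · rw [List.map_map]
          exact List.map_congr_left fun S _ => di_cn_neg S
    have hGl : ∀ l ∈ DiGood 𝒯 pos m r (f ⟨k + 1, g⟩) (η - (k + 1 : ℕ) * η') (t + k * ξ)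
        (5 ^ k * (ζ + ξ)) k, (l.map diCn).map G = l := by
      intro l hl
      rw [List.map_map]
      exact (List.map_congr_left fun S h' => hG S (di_mono (hl.2.1 S h') hk le_rfl le_rfl).1).trans
        (List.map_id l)
    have h5 : ζ + ξ ≤ 5 ^ k * (ζ + ξ) :=
      le_mul_of_one_le_left (by linarith) (one_le_pow₀ (by norm_num))
    obtain ⟨w, hw, hw'⟩ := di_fill hh hp hε hr hm _ hk hξ hU (k := k)
      (di_mono h₀ (t₁ := t + k * ξ) (ζ₁ := 5 ^ k * (ζ + ξ))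
        (sub_le_self _ (by positivity)) (le_add_of_nonneg_right (by positivity)) (by linarith))
      (z := mpL G (lift ρ (bdS ⟨k + 1, g⟩)))
      (lin_mem _ _ (by
        rintro _ ⟨l, hl, rfl⟩
        rw [mpL_one, hGl l hl]
        exact one_mem hl) hz) (by rw [bdL_mpL, hb, map_zero])
    refine ⟨mpL diCn w, ?_, fun e => absurd e k.succ_ne_zero, lin_mem _ _ (fun l hl => ?_) hw⟩
    · rw [bdL_mpL, hw']
      refine lin_congr ((mpL diCn).comp (mpL G)) LinearMap.id ?_ hz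
      rintro _ ⟨l, hl, rfl⟩
      rw [LinearMap.comp_apply, mpL_one, hGl l hl, mpL_one, LinearMap.id_apply]
    · rw [mpL_one]
      refine one_mem ⟨l, ⟨hl.1, fun S h' => di_mono (hl.2.1 S h') le_rfl ?_ ?_, hl.2.2⟩, rfl⟩
      · push_cast
        linarith
      · rw [pow_succ]
        linarith)
  obtain ⟨M, hM⟩ := di_cn_msr 𝒯 pos
  refine ⟨fun s => mpL M (ρ s), ?_, fun s hs => ⟨?_, ?_⟩⟩
  · exact (congrArg _ ((hρ (emp Y) (Or.inl rfl)).2.1 rfl)).trans (mpL_one _ _)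
  · rw [bdL_mpL, (hρ s (Or.inr hs)).1, lin_lift]
  · refine lin_mem _ _ ?_ (hρ s (Or.inr hs)).2.2
    rintro _ ⟨l, ⟨l1, l2, Q, q1, q2⟩, rfl⟩
    have hk : s.1 ≤ N := hN hs
    rw [mpL_one, List.map_map]
    refine one_mem ⟨by rw [List.length_map]; exact l1, l,
      List.map_congr_left fun S h' => hM S fun τ hτ i => ((l2 S h').1.2 τ hτ i).1,
      fun S h' => di_mono (l2 S h') (hmar _ hk) ?_ ?_, Q, q1.trans hk, q2⟩
    · have : (s.1 : ℝ) * ξ ≤ N * ξ := mul_le_mul_of_nonneg_right (by exact_mod_cast hk) hξ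
      linarith
    · exact mul_le_mul_of_nonneg_right (pow_le_pow_right₀ (by norm_num) hk) (by linarith)

end Pool.Agent.MP_20201c_gt.H91
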