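import Pool.Agent.MP_20201c_gt.H91.Tcm

/-! Realising lists of close measures by nice chains. -/

open MeasureTheory Set Filter Topology
open scoped ENNReal

namespace Pool.Agent.MP_20201c_gt.H91

namespace RealL

/-- The number of discs. -/
def sA (a : ℕ) : ℕ → ℕ
  | 0 => 0
  | k + 1 => (k + 1) * sA a k + a

/-- The mass in the discs. -/
def sE (a : ℕ) : ℕ → ℕ
  | 0 => 0
  | k + 1 => sE a k + 3 * sA a (k + 1)

/-- The radii of the discs. -/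
def sK (a : ℕ) : ℕ → ℕ
  | 0 => 1
  | k + 1 => 6 ^ sA a (k + 1) * sK a k

theorem sK_pos (a k : ℕ) : 1 ≤ sK a k := by
  induction k with
  | zero => exact le_rfl
  | succ k ih => exact Nat.mul_pos (by positivity) ih

theorem measurable_UB (𝓑 : Finset (ℂ × ℝ)) : MeasurableSet (UB 𝓑) :=
  Finset.measurableSet_biUnion _ fun _ _ => Metric.isClosed_closedBall.measurableSet

theorem restrict_more {μ ν : Ms} {A B : Set ℂ} (hB : MeasurableSet B) (h : A ⊆ B)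
    (he : μ.restrict Aᶜ = ν.restrict Aᶜ) : μ.restrict Bᶜ = ν.restrict Bᶜ := by
  have h1 := congrArg (fun m : Ms => m.restrict Bᶜ) he
  simp only [Measure.restrict_restrict hB.compl] at h1
  rwa [inter_eq_left.2 (compl_subset_compl.2 h)] at h1

theorem real_le {μ ν : Ms} [IsFiniteMeasure μ] [IsFiniteMeasure ν] {A B : Set ℂ}
    (hB : MeasurableSet B) (he : μ.restrict Aᶜ = ν.restrict Aᶜ) :
    μ.real B ≤ μ.real A + ν.real B := by
  have h1 : μ.real (B ∩ Aᶜ) = ν.real (B ∩ Aᶜ) := by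
    rw [← measureReal_restrict_apply hB, ← measureReal_restrict_apply hB, he]
  have h2 : μ.real B ≤ μ.real A + μ.real (B ∩ Aᶜ) := by
    refine le_trans (measureReal_mono (fun x hx => ?_)) (measureReal_union_le _ _)
    by_cases h : x ∈ A
    · exact Or.inl h
    · exact Or.inr ⟨hx, h⟩
  have h3 : ν.real (B ∩ Aᶜ) ≤ ν.real B := measureReal_mono inter_subset_left
  linarith

theorem UB_le {G W : Set ℂ} {μ : Ms} [IsFiniteMeasure μ] {R Rm ζ : ℝ} {𝓑 : Finset (ℂ × ℝ)} {A : ℕ}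
    (hζ : 0 ≤ ζ) (hc : 𝓑.card ≤ A) (hB : Apexed G W R 𝓑) (hR : R ≤ Rm)
    (h : ∀ q, μ.real (cb q Rm) ≤ ζ) : μ.real (UB 𝓑) ≤ A * ζ := by
  refine (measureReal_biUnion_finset_le _ _).trans ?_
  refine (Finset.sum_le_card_nsmul _ _ ζ fun B hB' => ?_).trans ?_
  · exact le_trans (measureReal_mono
      (Metric.closedBall_subset_closedBall ((hB.1 B hB').2.2.1.trans hR))) (h B.1)
  · rw [nsmul_eq_mul]
    exact mul_le_mul_of_nonneg_right (by exact_mod_cast hc) hζ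

theorem apexed_mono {G W : Set ℂ} {R R' : ℝ} {𝓑 : Finset (ℂ × ℝ)} (h : Apexed G W R 𝓑)
    (hR : R ≤ R') : Apexed G W R' 𝓑 :=
  ⟨fun B hB => ⟨(h.1 B hB).1, (h.1 B hB).2.1, (h.1 B hB).2.2.1.trans hR, (h.1 B hB).2.2.2⟩, h.2⟩

theorem cl_sub {G W : Set ℂ} {a : ℕ} {t ζ Rc Rm : ℝ} {l l' : List Ms}
    (h : Cl G W a t ζ Rc Rm l) (hs : l'.Sublist l) : Cl G W a t ζ Rc Rm l' := by
  obtain ⟨h1, Q, h2, h3, h4⟩ := h
  exact ⟨fun μ hμ => h1 μ (hs.subset hμ), Q, h2, h3,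
    fun μ hμ μ' hμ' => h4 μ (hs.subset hμ) μ' (hs.subset hμ')⟩

theorem tcs_zero {G W : Set ℂ} {𝓑 : Finset (ℂ × ℝ)} {μ : Ms} {e : ℝ} {s : Sx Ms} (h : s.1 = 0) :
    s ∈ TcS G W 𝓑 μ e := by
  obtain ⟨n, f⟩ := s
  obtain rfl : n = 0 := h
  exact ⟨Fam.of_isEmpty _, fun x => isEmptyElim x⟩

/-- The invariant. -/
def Inv (G W : Set ℂ) (a : ℕ) (ζ Rc : ℝ) (l : List Ms) (c : Ch Ms) : Prop :=
  ∃ 𝓑 : Finset (ℂ × ℝ), 𝓑.card ≤ sA a l.length ∧ Apexed G W (sK a l.length * Rc) 𝓑 ∧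
    c ∈ Sp {s : Sx Ms | s.1 = l.length ∧ ∀ μ ∈ l, s ∈ TcS G W 𝓑 μ (sE a l.length * ζ)}

theorem step {G W : Set ℂ} {a : ℕ} {t ζ Rc Rm : ℝ} (hW : Convex ℝ W) (hs : Star G W Rm)
    (hRc : 0 < Rc) (hζ : 0 < ζ) (μ₀ : Ms) (l₀ : List Ms) (hK : sK a (l₀.length + 1) * Rc ≤ Rm)
    (hl : Cl G W a t ζ Rc Rm (μ₀ :: l₀)) (f : List Ms → Ch Ms)
    (hf : ∀ l', l'.length = l₀.length → l'.Sublist (μ₀ :: l₀) →
      bd (f l') = lift f (bdLS l') ∧ Inv G W a ζ Rc l' (f l')) :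
    ∃ c, bd c = lift f (bdLS (μ₀ :: l₀)) ∧ Inv G W a ζ Rc (μ₀ :: l₀) c := by
  classical
  set l := μ₀ :: l₀ with hl₀
  set k := l₀.length with hk
  have hlen : l.length = k + 1 := rfl
  have hfl : ∀ i : Fin l.length, (l.eraseIdx i).length = k := fun i => by
    rw [List.length_eraseIdx_of_lt i.2, hlen, Nat.add_sub_cancel]
  have hfs : ∀ i : Fin l.length, (l.eraseIdx i).Sublist l := fun i => List.eraseIdx_sublist _ _
  choose 𝓒 hc1 hc2 hc3 using fun i : Fin l.length => (hf _ (hfl i) (hfs i)).2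
  simp only [hfl] at hc1 hc2 hc3
  obtain ⟨hl1, Q, hQ1, hQ2, hQ3⟩ := hl
  have hK1 : Rc ≤ sK a k * Rc :=
    le_mul_of_one_le_left hRc.le (by exact_mod_cast sK_pos a k)
  have hKe : ((sK a (k + 1) : ℕ) : ℝ) * Rc = 6 ^ sA a (k + 1) * (sK a k * Rc) := by
    rw [sK]; push_cast; ring
  obtain ⟨𝓑, hB1, hB2, hB3⟩ := merge hs (sA a (k + 1)) (R := sK a k * Rc) (hKe ▸ hK)
    (𝓑 := Finset.univ.biUnion 𝓒 ∪ Q.image fun q => (q, Rc)) (by
      refine (Finset.card_union_le _ _).trans ?_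
      rw [sA]
      refine add_le_add ?_ (Finset.card_image_le.trans hQ1)
      refine (Finset.card_biUnion_le_card_mul _ _ _ fun i _ => hc1 i).trans ?_
      rw [Finset.card_univ, Fintype.card_fin, hlen]) (by
      intro B hB
      rcases Finset.mem_union.1 hB with h | h
      · obtain ⟨i, -, hi⟩ := Finset.mem_biUnion.1 h
        exact ⟨((hc2 i).1 B hi).1, ((hc2 i).1 B hi).2.1, ((hc2 i).1 B hi).2.2.1⟩
      · obtain ⟨q, hq, rfl⟩ := Finset.mem_image.1 h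
        exact ⟨hQ2 q hq, hRc, hK1⟩)
  rw [← hKe] at hB2
  have hsub : ∀ i, UB (𝓒 i) ⊆ UB 𝓑 := fun i x hx => by
    refine hB3 ?_
    obtain ⟨B, hB, hx⟩ := mem_iUnion₂.1 hx
    exact mem_iUnion₂.2 ⟨B, Finset.mem_union_left _
      (Finset.mem_biUnion.2 ⟨i, Finset.mem_univ _, hB⟩), hx⟩
  have hag : ∀ μ ∈ l, ∀ μ' ∈ l, μ.restrict (UB 𝓑)ᶜ = μ'.restrict (UB 𝓑)ᶜ := by
    intro μ hμ μ' hμ'
    refine restrict_more (measurable_UB 𝓑) (fun x hx => hB3 ?_) (hQ3 μ hμ μ' hμ')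
    obtain ⟨q, hq, hx⟩ := mem_iUnion₂.1 hx
    exact mem_iUnion₂.2 ⟨(q, Rc), Finset.mem_union_right _ (Finset.mem_image_of_mem _ hq), hx⟩
  have hm : ∀ μ ∈ l, μ.real (UB 𝓑) ≤ sA a (k + 1) * ζ := fun μ hμ => by
    haveI := (hl1 μ hμ).1.finite
    exact UB_le hζ.le hB1 hB2 hK (hl1 μ hμ).2.2.2
  have h0 : μ₀ ∈ l := List.mem_cons_self
  have hz : lift f (bdLS l) = ∑ i : Fin l.length, f (l.eraseIdx i) := by
    rw [bdLS, map_sum]; simp
  have hz1 : lift f (bdLS l) ∈ Sp (TcS G W 𝓑 μ₀ (sE a k * ζ + sA a (k + 1) * ζ)) := by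
    rw [hz]
    refine Submodule.sum_mem _ fun i _ => sp_mono (fun s hs' => ?_) (hc3 i)
    rcases Nat.eq_zero_or_pos k with hk0 | hk0
    · exact tcs_zero (hs'.1.trans hk0)
    obtain ⟨μ, hμ⟩ := List.exists_mem_of_length_pos (l := l.eraseIdx i) (by rwa [hfl])
    have hμl := (hfs i).subset hμ
    obtain ⟨g1, g2⟩ := hs'.2 μ hμ
    refine ⟨g1, fun x => ⟨(g2 x).1, ?_, ?_⟩⟩
    · exact (restrict_more (measurable_UB 𝓑) (hsub i) (g2 x).2.1).trans (hag μ hμl μ₀ h0)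
    · haveI := (g1.poly x).finite
      haveI := (hl1 μ hμl).1.finite
      exact (real_le (measurable_UB 𝓑) (g2 x).2.1).trans
        (add_le_add (g2 x).2.2 (hm μ hμl))
  have hz2 : lift f (bdLS l) ∈ Sp (Deq Ms k) := by
    rw [hz]
    exact Submodule.sum_mem _ fun i _ => sp_mono (fun s hs' => hs'.1) (hc3 i)
  have hz3 : bd (lift f (bdLS l)) = 0 := by
    rw [lin_lift, lift_congr _ (fun l' => lift f (bdLS l'))
      (fun l' hl' => (hf l' (Nat.add_right_cancel (hl'.1.trans hlen)) hl'.2).1) (bdLS_mem l),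
      ← lin_lift (lift f) bdLS, ← bdL_one]
    have h1 := bdL_bdL (one l)
    rw [show (lift bdLS) (bdL (one l)) = bdL (bdL (one l)) from rfl, h1, map_zero]
  obtain ⟨w, hw1, hw2⟩ := tcm hW hB2 (hl1 μ₀ h0).1 (hl1 μ₀ h0).2.1 (by positivity) (hm μ₀ h0)
    _ hz1 hz3
  obtain ⟨w', hw3, hw4⟩ := proj_eq hw1 (N := k) (hw2 ▸ hz2)
  refine ⟨w', hw4.trans hw2, 𝓑, hB1, hB2, sp_mono ?_ hw3⟩
  intro s hs'
  refine ⟨hs'.2, fun μ hμ => ?_⟩
  obtain ⟨g1, g2⟩ := hs'.1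
  refine ⟨g1, fun x => ⟨(g2 x).1, (g2 x).2.1.trans (hag μ₀ h0 μ hμ), (g2 x).2.2.trans ?_⟩⟩
  rw [hlen, sE]
  push_cast
  exact le_of_eq (by ring)

end RealL

open RealL in
theorem realL (a N : ℕ) : ∃ (A : ℕ) (K : ℝ), 0 < K ∧ ∀ (G W : Set ℂ) (t ζ Rc Rm : ℝ),
    Convex ℝ W → Star G W Rm → 0 < Rc → K * Rc ≤ Rm → 0 < ζ →
    ∃ φ : List Ms → Ch Ms, φ [] = one (emp Ms) ∧ ∀ l, Cl G W a t ζ Rc Rm l → l.length ≤ N →
      bd (φ l) = lift φ (bdLS l) ∧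
      φ l ∈ Sp {s : Sx Ms | s ∈ Nice G W 0 (t + A * ζ) ∧ s.1 = l.length ∧
        ∀ x, ∀ μ ∈ l, Agree G W A Rm (s.2 x) μ} := by
  have hA : ∀ k ≤ N, sA a k + sE a k + 1 ≤ ∑ j ∈ Finset.range (N + 1), (sA a j + sE a j + 1) :=
    fun k hk => Finset.single_le_sum (f := fun j => sA a j + sE a j + 1)
      (fun _ _ => Nat.zero_le _) (Finset.mem_range.2 (Nat.lt_succ_of_le hk))
  have hK : ∀ k ≤ N, sK a k ≤ ∑ j ∈ Finset.range (N + 1), sK a j :=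
    fun k hk => Finset.single_le_sum (f := fun j => sK a j)
      (fun _ _ => Nat.zero_le _) (Finset.mem_range.2 (Nat.lt_succ_of_le hk))
  generalize ∑ j ∈ Finset.range (N + 1), (sA a j + sE a j + 1) = A at hA
  generalize ∑ j ∈ Finset.range (N + 1), sK a j = K at hK
  refine ⟨A, K, by exact_mod_cast (sK_pos a 0).trans (hK 0 (Nat.zero_le _)), ?_⟩
  intro G W t ζ Rc Rm hW hs hRc hKR hζ
  have hK' : ∀ k ≤ N, (sK a k : ℝ) * Rc ≤ Rm := fun k hk =>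
    le_trans (mul_le_mul_of_nonneg_right (by exact_mod_cast hK k hk) hRc.le) hKR
  obtain ⟨φ, hφ⟩ := ac0 (C := Ch Ms) List.length bdLS
    {l | Cl G W a t ζ Rc Rm l ∧ l.length ≤ N}
    (fun l hl => by
      refine sp_mono ?_ (bdLS_mem l)
      intro l' hl'
      refine ⟨⟨cl_sub hl.1 hl'.2, hl'.2.length_le.trans hl.2⟩, ?_⟩
      have := hl'.1
      show l'.length < l.length
      omega)
    (fun l c e => bd c = e ∧ (l = [] → c = one (emp Ms)) ∧ Inv G W a ζ Rc l c) (by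
      intro l hl f hf
      cases l with
      | nil =>
        refine ⟨one (emp Ms), ?_, fun _ => rfl, ∅, by simp, ⟨by simp, by simp⟩,
          one_mem ⟨rfl, by simp⟩⟩
        simp [bdLS, emp, bdS]
      | cons μ₀ l₀ =>
        obtain ⟨c, h1, h2⟩ := step hW hs hRc hζ μ₀ l₀ (hK' _ hl.2) hl.1 f fun l' h1 h2 => by
          have h3 := hf l' ⟨cl_sub hl.1 h2, h2.length_le.trans hl.2⟩ (by
            rw [h1]; exact Nat.lt_succ_self _)
          exact ⟨h3.1, h3.2.2⟩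
        exact ⟨c, h1, fun h => absurd h (List.cons_ne_nil _ _), h2⟩)
  refine ⟨φ, (hφ [] ⟨⟨by simp, ∅, by simp, by simp, by simp⟩, Nat.zero_le _⟩).2.1 rfl, ?_⟩
  intro l hl hN
  obtain ⟨h1, -, 𝓑, h2, h3, h4⟩ := hφ l ⟨hl, hN⟩
  refine ⟨h1, sp_mono ?_ h4⟩
  intro s hs'
  refine ⟨?_, hs'.1, fun x μ hμ => ?_⟩
  · rcases Nat.eq_zero_or_pos l.length with h0 | h0
    · obtain ⟨n, f⟩ := s
      obtain rfl : n = 0 := hs'.1.trans h0
      exact ⟨Fam.of_isEmpty _, fun x => isEmptyElim x⟩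
    obtain ⟨μ, hμ⟩ := List.exists_mem_of_length_pos h0
    obtain ⟨g1, g2⟩ := hs'.2 μ hμ
    refine ⟨g1, fun x => ⟨(g2 x).1, ?_⟩⟩
    haveI := (g1.poly x).finite
    haveI := (hl.1 μ hμ).1.finite
    have h5 := real_le MeasurableSet.univ (g2 x).2.1
    have h6 := (g2 x).2.2
    have h7 := (hl.1 μ hμ).2.2.1
    have h8 : ((sE a l.length : ℕ) : ℝ) + 1 ≤ A := by
      have := hA _ hN
      exact_mod_cast (by omega : sE a l.length + 1 ≤ A)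
    nlinarith
  · refine ⟨𝓑, ?_, apexed_mono h3 (hK' _ hN), ((hs'.2 μ hμ).2 x).2.1⟩
    have := hA _ hN
    omega

end Pool.Agent.MP_20201c_gt.H91
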