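import Pool.Agent.MP_20201c_gt.H91.Sdk_b

/-! Iterated barycentric subdivision. -/

open MeasureTheory Set Filter Topology
open scoped ENNReal

namespace Pool.Agent.MP_20201c_gt.H91

theorem exists_sd (Y : Type) (N : ℕ) {δ : ℝ} (hδ : 0 < δ) : ∃ A H : Ch Y →ₗ[F2] Ch Y,
    (∀ c, bd (A c) = A (bd c)) ∧ (∀ c, bd (H c) + H (bd c) = c + A c) ∧
    (∀ s : Sx Y, H (one s) ∈ Sp {s' : Sx Y | s'.1 ≤ s.1 + 1 ∧
      ∃ φ : Sm s'.1 → Sm s.1, Continuous φ ∧ s'.2 = s.2 ∘ φ}) ∧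
    ∀ s : Sx Y, A (one s) ∈ Sp {s' : Sx Y | s'.1 = s.1 ∧
      ∃ φ : Sm s'.1 → Sm s.1, Continuous φ ∧ s'.2 = s.2 ∘ φ ∧
        (s.1 ≤ N → ∀ x x', dist (φ x) (φ x') ≤ δ)} := by
  have hq : (0 : ℝ) < (1 / 2) ^ N := by positivity
  obtain ⟨j, hj⟩ := exists_pow_lt_of_lt_one hδ (show (1 : ℝ) - (1 / 2) ^ N < 1 by linarith)
  obtain ⟨S, T, h1, h2, h3, h4, h5, h6⟩ := Sd.iter N j
  let U : (∀ n : ℕ, LCh (Sm n) →ₗ[F2] LCh (Sm n)) → Ch Y →ₗ[F2] Ch Y := fun R =>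
    lift fun s => mp s.2 (Sd.affL (R s.1 (one (Sd.vert s.1))))
  have hU : ∀ R s, U R (one s) = mp s.2 (Sd.affL (R s.1 (one (Sd.vert s.1)))) :=
    fun R s => lift_one _ _
  have hb : ∀ R : ∀ n : ℕ, LCh (Sm n) →ₗ[F2] LCh (Sm n),
      (∀ n i c, mpL (fc n i) (R n c) = R (n + 1) (mpL (fc n i) c)) →
      ∀ s : Sx Y, U R (bdS s) = mp s.2 (Sd.affL (R s.1 (bdL (one (Sd.vert s.1))))) := by
    rintro R hR ⟨_ | n, f⟩
    · simp only [bdS, Sd.bdL_vert_zero, map_zero]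
    · simp only [bdS, Sd.bdL_vert, map_sum, hU]
      refine Finset.sum_congr rfl fun i _ => ?_
      rw [← hR, ← mp_mp]
      congr 1
      exact Sd.mp_affL _ _
  refine ⟨U S, U T, fun c => ?_, fun c => ?_, fun s => ?_, fun s => ?_⟩
  · refine lin_ext (bd.comp (U S)) ((U S).comp bd) (fun s => ?_) c
    simp only [LinearMap.comp_apply, bd_one]
    rw [hb S h3, hU, bd_mp, Sd.bd_affL, h1]
  · refine lin_ext (bd.comp (U T) + (U T).comp bd) (LinearMap.id + U S) (fun s => ?_) c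
    simp only [LinearMap.comp_apply, LinearMap.add_apply, LinearMap.id_apply, bd_one]
    rw [hb T h4, hU, hU, bd_mp, Sd.bd_affL, ← map_add, ← map_add, h2, map_add, map_add,
      Sd.affL_one, Sd.affS_vert, mp_one]
    rfl
  · rw [hU]
    refine lin_mem ((mp s.2).comp Sd.affL) _ (fun l hl => ?_) (h5 s.1 (Sd.vert s.1))
    simp only [LinearMap.comp_apply, Sd.affL_one, mp_one]
    refine one_mem ⟨?_, Sd.affF l.get, Sd.continuous_affF _, rfl⟩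
    have : l.length = (Sd.vert s.1).length + 1 := hl
    rw [Sd.length_vert] at this
    exact this.le
  · rw [hU]
    refine lin_mem ((mp s.2).comp Sd.affL) _ (fun l hl => ?_) (h6 s.1 (Sd.vert s.1))
    simp only [LinearMap.comp_apply, Sd.affL_one, mp_one]
    obtain ⟨e1, e2⟩ := hl
    rw [Sd.length_vert] at e1 e2
    refine one_mem ⟨e1, Sd.affF l.get, Sd.continuous_affF _, rfl, fun hN x x' => ?_⟩
    refine le_trans ?_ hj.le
    refine Sd.dist_affF _ _ (fun i => ?_) x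
    rw [dist_comm]
    exact Sd.dist_affF _ _ (fun i' => e2 hN _ (List.get_mem _ _) _ (List.get_mem _ _)) x'

/-- Refining a chain until all simplices have a property that holds for small pieces. -/
theorem refine_chain {Y : Type} {P P' Q : Set (Sx Y)} (hP : PreCl P) (hP' : PreCl P') {N : ℕ}
    (hQ : ∀ s ∈ P, ∃ δ : ℝ, 0 < δ ∧ ∀ (k : ℕ) (φ : Sm k → Sm s.1), Continuous φ →
      (∀ x x', dist (φ x) (φ x') ≤ δ) → (⟨k, s.2 ∘ φ⟩ : Sx Y) ∈ Q)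
    {w : Ch Y} (hw : w ∈ Sp (P ∩ Dle Y N)) (hb : bd w ∈ Sp P') :
    ∃ w₁ ∈ Sp (P ∩ Q ∩ Dle Y N), ∃ h ∈ Sp P, ∃ u ∈ Sp (P ∩ P' ∩ Dle Y N),
      bd w₁ ∈ Sp P' ∧ w + w₁ = bd h + u ∧ (bd w = 0 → bd w₁ = 0 ∧ u = 0) ∧
      ∀ n, w ∈ Sp (Deq Y n) → w₁ ∈ Sp (Deq Y n) := by
  have hδ : ∃ δ : ℝ, 0 < δ ∧ ∀ s ∈ w.support, ∀ (k : ℕ) (φ : Sm k → Sm s.1), Continuous φ →
      (∀ x x', dist (φ x) (φ x') ≤ δ) → (⟨k, s.2 ∘ φ⟩ : Sx Y) ∈ Q := by
    have hP0 : ∀ s ∈ w.support, s ∈ P := fun s hs => (mem_sp.1 hw s hs).1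
    generalize w.support = F at hP0
    classical
    induction F using Finset.induction_on with
    | empty => exact ⟨1, one_pos, by simp⟩
    | insert s F _ ih =>
      obtain ⟨δ, h0, h1⟩ := ih fun s' hs' => hP0 s' (Finset.mem_insert_of_mem hs')
      obtain ⟨δ', h0', h1'⟩ := hQ s (hP0 s (Finset.mem_insert_self _ _))
      refine ⟨min δ δ', lt_min h0 h0', fun s' hs' k φ hφ hd => ?_⟩
      rcases Finset.mem_insert.1 hs' with rfl | hs'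
      · exact h1' k φ hφ fun x x' => (hd x x').trans (min_le_right _ _)
      · exact h1 s' hs' k φ hφ fun x x' => (hd x x').trans (min_le_left _ _)
  obtain ⟨δ, h0, hδ⟩ := hδ
  obtain ⟨A, H, h1, h2, h3, h4⟩ := exists_sd Y N h0
  have pre : ∀ {R : Set (Sx Y)}, PreCl R → ∀ s ∈ R, ∀ (s' : Sx Y) (φ : Sm s'.1 → Sm s.1),
      Continuous φ → s'.2 = s.2 ∘ φ → s' ∈ R := by
    intro R hR s hs s' φ hφ hg
    have e : s' = ⟨s'.1, s.2 ∘ φ⟩ := by rw [← hg]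
    rw [e]
    exact hR s.1 s'.1 s.2 φ hφ hs
  have hwP : w ∈ Sp P := (sp_inter.1 hw).1
  have hbN : bd w ∈ Sp {s' : Sx Y | s'.1 + 1 ≤ N} := by
    refine lin_mem _ _ (fun s hs => ?_) (sp_inter.1 hw).2
    rw [bd_one]
    refine sp_mono ?_ (bdS_mem_lt s)
    intro s' hs'
    simp only [Dle, mem_ofPred_eq] at *
    omega
  refine ⟨A w, ?_, H w, ?_, H (bd w), ?_, ?_, (h2 w).symm, fun h => ?_, fun n hn => ?_⟩
  · refine lin_mem _ _ (fun s hs => ?_) (sp_support w)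
    have hs' := mem_sp.1 hw s hs
    refine sp_mono ?_ (h4 s)
    rintro s' ⟨e1, φ, hφ, e2, e3⟩
    refine ⟨⟨pre hP s hs'.1 s' φ hφ e2, ?_⟩, ?_⟩
    · have e : s' = ⟨s'.1, s.2 ∘ φ⟩ := by rw [← e2]
      rw [e]
      exact hδ s hs s'.1 φ hφ (e3 hs'.2)
    · exact e1.le.trans hs'.2
  · refine lin_mem _ _ (fun s hs => ?_) hwP
    refine sp_mono ?_ (h3 s)
    rintro s' ⟨-, φ, hφ, e2⟩
    exact pre hP s hs s' φ hφ e2
  · refine lin_mem _ _ (fun s hs => ?_)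
      (sp_inter.2 ⟨sp_inter.2 ⟨bd_mem hP.faceCl hwP, hb⟩, hbN⟩)
    refine sp_mono ?_ (h3 s)
    rintro s' ⟨e1, φ, hφ, e2⟩
    exact ⟨⟨pre hP s hs.1.1 s' φ hφ e2, pre hP' s hs.1.2 s' φ hφ e2⟩, le_trans e1 hs.2⟩
  · rw [h1]
    refine lin_mem _ _ (fun s hs => ?_) hb
    refine sp_mono ?_ (h4 s)
    rintro s' ⟨-, φ, hφ, e2, -⟩
    exact pre hP' s hs s' φ hφ e2
  · rw [h1, h, map_zero, map_zero]
    exact ⟨rfl, rfl⟩
  · refine lin_mem _ _ (fun s hs => ?_) hn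
    refine sp_mono ?_ (h4 s)
    rintro s' ⟨e1, -⟩
    exact e1.trans hs

end Pool.Agent.MP_20201c_gt.H91
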