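import Pool.Agent.MP_20201c_gt.H91.DiscS
import Pool.Agent.MP_20201c_gt.H91.RealL
import Pool.Agent.MP_20201c_gt.H91.ZBall
import Pool.Agent.MP_20201c_gt.H91.Cup
import Pool.Agent.MP_20201c_gt.H91.Sdk

/-! The model width is at most the width. -/

open MeasureTheory Set Filter Topology
open scoped ENNReal

namespace Pool.Agent.MP_20201c_gt.H91

namespace DiscA

theorem compact_range {Ω : Set ℂ} {p : ℕ} (S : Sweepout Ω p) : IsCompact (range S.Φ) := by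
  have h : IsCompact S.K.space :=
    S.fin.isCompact_biUnion fun s _ => s.finite_toSet.isCompact_convexHull ℝ
  have := isCompact_iff_compactSpace.1 h
  exact isCompact_range S.Φ.continuous

/-- A cycle in a set is homologous to a cycle of small simplices. -/
theorem small_cycle {Y : Type} [PseudoEMetricSpace Y] {𝒦 : Set Y} {lam : C(Sm 2, Y) → ZMod 2}
    (hlam : IsCocycle lam) (p : ℕ) {c : Ch Y}
    (hc : c ∈ Sp ({s : Sx Y | Continuous s.2 ∧ ∀ x, s.2 x ∈ 𝒦} ∩ Deq Y (p + 1))) (h0 : bd c = 0)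
    {ε : ℝ≥0∞} (hε : 0 < ε) :
    ∃ c' ∈ Sp ({s : Sx Y | Continuous s.2 ∧ s.1 ≤ p + 1 ∧
        ∀ x, s.2 x ∈ 𝒦 ∧ ∀ x', edist (s.2 x) (s.2 x') < ε} ∩ Deq Y (p + 1)),
      bd c' = 0 ∧ lift (cupS lam p) c' = lift (cupS lam p) c := by
  have hP : PreCl {s : Sx Y | Continuous s.2 ∧ ∀ x, s.2 x ∈ 𝒦} :=
    fun n k f φ hφ hf => ⟨hf.1.comp hφ, fun x => hf.2 (φ x)⟩
  obtain ⟨c', h1, h, h2, u, -, -, h3, h4, h5⟩ := refine_chain
    (Q := {s : Sx Y | ∀ x x', edist (s.2 x) (s.2 x') < ε}) hP hP (N := p + 1) (w := c)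
    (fun s hs => by
      obtain ⟨d, hd, hu⟩ := EMetric.uniformContinuous_iff.1
        (CompactSpace.uniformContinuous_of_continuous hs.1) ε hε
      obtain ⟨e, -, he, hed⟩ := ENNReal.lt_iff_exists_real_btwn.1 hd
      refine ⟨e, ENNReal.ofReal_pos.1 he, fun k φ _ hφ x x' => hu (lt_of_le_of_lt ?_ hed)⟩
      rw [edist_dist]
      exact ENNReal.ofReal_le_ofReal (hφ x x'))
    (sp_mono (fun s hs => by exact ⟨hs.1, le_of_eq hs.2⟩) hc) (by rw [h0]; exact Submodule.zero_mem _)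
  refine ⟨c', sp_inter.2 ⟨sp_mono (fun s hs => by
    exact ⟨hs.1.1.1, hs.2, fun x => ⟨hs.1.1.2 x, hs.1.2 x⟩⟩) h1,
    h5 _ (sp_inter.1 hc).2⟩, (h4 h0).1, ?_⟩
  have e := congrArg (lift (cupS lam p)) h3
  rw [(h4 h0).2, add_zero, cup_bd hlam p (sp_mono (fun s hs => hs.1) h2), map_add] at e
  exact (add_eq_zero2.1 e).symm

end DiscA

open DiscA

theorem disc {ρ : ℂ → ℝ} {gr : ℂ → ℂ} {L c₀ β R : ℝ} (hG : Good ρ gr L c₀ β R)
    (hc : IsConnected {z | 0 < ρ z}) (p : ℕ) {t : ℝ}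
    (ht : width {z | 0 < ρ z} p < ENNReal.ofReal t) :
    ∃ β₀, 0 < β₀ ∧ ∀ G ⊆ {z | -β₀ < ρ z}, t ∈ MW {z | 0 < ρ z} G (cb 0 R) p := by
  have ho : IsOpen {z | 0 < ρ z} := isOpen_lt continuous_const hG.continuous
  have hb : Bornology.IsBounded {z | 0 < ρ z} := by
    refine (Metric.isBounded_closedBall (x := (0 : ℂ)) (r := R)).subset fun z hz => ?_
    have h1 : 0 < ρ z := hz
    have h2 := hG.ball z (by linarith [hG.hβ])
    rw [mem_closedBall_zero_iff]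
    linarith
  have hv : volume {z | 0 < ρ z} ≠ 0 := (ho.measure_pos volume hc.nonempty).ne'
  have hW : Convex ℝ (cb 0 R) := convex_closedBall _ _
  obtain ⟨S, hS⟩ := iInf_lt_iff.1 ht
  have hM := hS.ne_top
  set t₀ := (⨆ x, massIn _ (S.Φ x) univ).toReal with ht₀
  have htt : t₀ < t := (ENNReal.lt_ofReal_iff_toReal_lt hM).1 hS
  obtain ⟨lam, hlam, hnot⟩ := S.detect
  obtain ⟨w₀, hw₀, hb₀, hcup⟩ := exists_cycle_of_not_cob S.Φ lam p hnot
  obtain ⟨A, κ, hκ, hreal⟩ := realL (p + 1) (p + 1)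
  obtain ⟨rs, hrs, hstar⟩ := hG.star
  obtain ⟨K, hK⟩ : ∃ K : ℕ, 13 * κ ≤ K := ⟨_, Nat.le_ceil _⟩
  have hK0 : (0 : ℝ) < K := lt_of_lt_of_le (by positivity) hK
  obtain ⟨δ, hδ, hδv⟩ : ∃ δ : ℝ≥0∞, 0 < δ ∧
      4 * (2 * ((p + 1 : ℕ) : ℝ≥0∞) * (δ + δ)) ≤ volume {z | 0 < ρ z} := by
    refine ⟨volume {z | 0 < ρ z} / (16 * ((p + 1 : ℕ) : ℝ≥0∞)), ENNReal.div_pos hv
      (ENNReal.mul_ne_top (by norm_num) (ENNReal.natCast_ne_top _)), ?_⟩
    refine le_trans (le_of_eq ?_) (ENNReal.mul_div_le (a := 16 * ((p + 1 : ℕ) : ℝ≥0∞)))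
    ring
  obtain ⟨d, -, hd, hdδ⟩ := ENNReal.lt_iff_exists_real_btwn.1 hδ
  have hd0 := ENNReal.ofReal_pos.1 hd
  have hA0 : (0 : ℝ) ≤ A := Nat.cast_nonneg A
  obtain ⟨u, hu, hur, huA⟩ : ∃ u : ℝ, 0 < u ∧ u ≤ rs ∧ A * (4 * u ^ 2) ≤ d := by
    refine ⟨min rs (min 1 (d / (4 * A + 1))), by positivity, min_le_left _ _, ?_⟩
    have h0 : 0 < min rs (min 1 (d / (4 * A + 1))) := by positivity
    have h1 := (min_le_right rs _).trans (min_le_left 1 (d / (4 * A + 1)))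
    have h2 := (le_div_iff₀ (by positivity)).1
      ((min_le_right rs _).trans (min_le_right 1 (d / (4 * A + 1))))
    generalize min rs (min 1 (d / (4 * A + 1))) = u at h0 h1 h2
    nlinarith [mul_nonneg hA0 (mul_nonneg h0.le (sub_nonneg.2 h1))]
  have hζ : 0 < (t - t₀) / (2 * (A + 1)) := by
    have := sub_pos.2 htt
    positivity
  obtain ⟨β₀, r, δ₀, hβ₀, hβ₁, hr, hr₁, hδ₀, hst⟩ := disc_states hG hc.nonempty (compact_range S)
    (t₀ := t₀) ENNReal.toReal_nonneg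
    (by
      rintro _ ⟨x, rfl⟩
      rw [ht₀, ENNReal.ofReal_toReal hM]
      exact le_iSup (fun x => massIn _ (S.Φ x) univ) x)
    (fun ε hε => by
      obtain ⟨r, hr, h⟩ := S.noConc ε hε
      refine ⟨r, hr, ?_⟩
      rintro _ ⟨x, rfl⟩
      exact h x)
    (p + 1) K (half_pos (sub_pos.2 htt)) hζ (div_pos hu hK0) hδ
  have hKr : K * r ≤ u := by
    rw [mul_comm]
    exact (le_div_iff₀ hK0).1 hr₁
  have hKr0 : 0 < K * r := mul_pos hK0 hr
  obtain ⟨φ, hφ0, hφ⟩ := hreal {z | -β₀ < ρ z} (cb 0 R) (t₀ + (t - t₀) / 2)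
    ((t - t₀) / (2 * (A + 1))) (13 * r) (K * r) hW
    (fun q hq R' hR' => hstar β₀ ⟨hβ₀.le, hβ₁⟩ q hq R' ⟨hR'.1, hR'.2.trans (hKr.trans hur)⟩)
    (by positivity) (by nlinarith) hζ
  obtain ⟨c', hc', hb', hcup'⟩ := small_cycle (𝒦 := range S.Φ) hlam p (c := mp S.Φ w₀)
    (mp_mem _ (fun s hs => by
      exact ⟨⟨S.Φ.continuous.comp hs.1, fun x => mem_range_self _⟩, hs.2⟩) hw₀)
    (by rw [bd_mp, hb₀, map_zero]) (lt_min hδ₀ (lt_of_lt_of_le hδ (le_add_self (b := δ))))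
  set 𝒮 : Set (Sx (Cyc {z | 0 < ρ z})) := {s | Continuous s.2 ∧ s.1 ≤ p + 1 ∧
    ∀ x, s.2 x ∈ range S.Φ ∧ ∀ x', edist (s.2 x) (s.2 x') < min δ₀ (δ + δ)} with h𝒮
  have hF : FaceCl 𝒮 := fun n f i hf =>
    ⟨hf.1.comp (continuous_fc n i), (Nat.le_succ n).trans hf.2.1, fun x =>
      ⟨(hf.2.2 _).1, fun x' => (hf.2.2 _).2 _⟩⟩
  obtain ⟨σ, hσ0, hσ⟩ := hst 𝒮 hF (fun s hs => hs.2.1) fun s hs x =>
    ⟨(hs.2.2 x).1, fun x' => ((hs.2.2 x).2 x').trans_le (min_le_left _ _)⟩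
  have hsub : {z | 0 < ρ z} ⊆ {z | -β₀ < ρ z} := fun z hz => by
    have h1 : 0 < ρ z := hz
    show -β₀ < ρ z
    linarith
  have hcl : closure {z | 0 < ρ z} ⊆ {z | -β₀ < ρ z} := by
    rw [hG.closure]
    intro z hz
    have h1 : 0 ≤ ρ z := hz
    show -β₀ < ρ z
    linarith
  have hlev : t₀ + (t - t₀) / 2 + A * ((t - t₀) / (2 * (A + 1))) ≤ t := by
    have e : (A + 1) * ((t - t₀) / (2 * (A + 1))) = (t - t₀) / 2 := by
      field_simp
    nlinarith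
  have key : ∀ s ∈ 𝒮, bd (lift φ (σ s)) = lift φ (lift σ (bdS s)) ∧
      lift φ (σ s) ∈ Sp {s' : Sx Ms | s' ∈ Nice {z | -β₀ < ρ z} (cb 0 R) 0 t ∧ s'.1 = s.1 ∧
        ∀ x', ∃ (E : Set ℂ) (hE : Side {z | 0 < ρ z} (s'.2 x') E),
          ∀ x, edist (cyc _ E hE.1) (s.2 x) < δ + δ} := by
    intro s hs
    obtain ⟨h1, h2⟩ := hσ s hs
    refine ⟨?_, lift_mem _ _ (fun l hl => ?_) h2⟩
    · rw [← h1]
      refine lin_congr (bd.comp (lift φ)) ((lift φ).comp bdL) (fun l hl => ?_) h2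
      simp only [LinearMap.comp_apply, lift_one, bdL_one]
      exact (hφ l hl.2.1 (hl.1.le.trans hs.2.1)).1
    · refine sp_mono ?_ (hφ l hl.2.1 (hl.1.le.trans hs.2.1)).2
      rintro ⟨n, g⟩ ⟨a1, a2, a3⟩
      refine ⟨⟨a1.1, fun x => ⟨(a1.2 x).1, (a1.2 x).2.trans_le hlev⟩⟩, a2.trans hl.1, fun x' => ?_⟩
      obtain ⟨μ, hμ⟩ : ∃ μ, μ ∈ l := by
        refine List.exists_mem_of_length_pos (Nat.pos_of_ne_zero fun h0 => ?_)
        have : n = 0 := a2.trans h0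
        subst this
        exact isEmptyElim x'
      obtain ⟨E, hE, hE'⟩ := hl.2.2 μ hμ
      obtain ⟨b1, b2, -⟩ := hl.2.1.1 μ hμ
      obtain ⟨E', c1, c2⟩ := near hsub hW b1 (a1.1.poly x') b2 (a1.2 x').1 (a3 x' μ hμ) hE
      refine ⟨E', c1, fun x => lt_of_le_of_lt (edist_triangle _ (cyc _ E hE.1) _)
        (ENNReal.add_lt_add (lt_of_le_of_lt ?_ hdδ) (hE' x))⟩
      rw [edist_comm, edist_cyc]
      refine (min_le_left _ _).trans ((measure_mono inter_subset_left).trans (c2.trans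
        (ENNReal.ofReal_le_ofReal (le_trans ?_ huA))))
      gcongr
  have hc1 := (sp_inter.1 hc').1
  obtain ⟨h, hh, hbh⟩ := comp_hom (δ := δ + δ) (p + 1)
    (fun z₀ d h0 hd => zball ho.measurableSet hb z₀ h0 (le_trans (by gcongr) hδv)) hF
    (fun s hs => ⟨hs.1, hs.2.1⟩)
    (fun s hs x x' => ((hs.2.2 x).2 x').trans_le (min_le_right _ _))
    (fun s => mp (Rz {z | 0 < ρ z}) (lift φ (σ s)))
    (fun s hs => by
      rw [bd_mp, (key s hs).1]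
      exact lin_lift ((mp (Rz {z | 0 < ρ z})).comp (lift φ)) σ _)
    (by
      rw [hσ0, lift_one, hφ0, mp_one]
      exact congrArg one (sx_zero _))
    (fun s hs => mp_mem _ (fun s' hs' => by
      exact ⟨rz_cont ho hc.isPreconnected
      (isOpen_lt continuous_const hG.continuous) hcl hW hs'.1.1 (fun x => (hs'.1.2 x).1)
        fun x => ⟨_, (hs'.2.2 x).choose_spec.choose⟩, fun x' x => by
          obtain ⟨E, hE, hE'⟩ := hs'.2.2 x'
          show edist (Rz _ (s'.2 x')) _ < _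
          rw [rz_eq ho hc.isPreconnected hE]
          exact hE' x⟩) (key s hs).2) hc1 hb'
  refine ⟨β₀, hβ₀, fun G hGG => ⟨lam, hlam, lift (fun s => lift φ (σ s)) c',
    lift_mem _ _ (fun s hs => sp_mono (fun s' hs' => by
      exact ⟨⟨hs'.1.1, fun x =>
      ⟨fun z hz hz' => (hs'.1.2 x).1 z hz (hGG hz'), (hs'.1.2 x).2⟩⟩, hs'.2.1.trans hs.2⟩)
      (key s hs.1).2) hc', ?_, ?_⟩⟩
  · rw [lin_lift, lift_congr _ _ (fun s hs => (key s hs).1) hc1]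
    refine (lin_lift ((lift φ).comp (lift σ)) bdS c').symm.trans ?_
    show ((lift φ).comp (lift σ)) (bd c') = 0
    rw [hb', map_zero]
  · have e1 : lift (ellS {z | 0 < ρ z} lam p) (lift (fun s => lift φ (σ s)) c') =
        lift (cupS lam p) (mp (Rz {z | 0 < ρ z}) (lift (fun s => lift φ (σ s)) c')) := by
      refine lin_congr (P := {s' : Sx Ms | ∀ x, ∃ E, Side {z | 0 < ρ z} (s'.2 x) E}) _
        ((lift (cupS lam p)).comp (mp (Rz {z | 0 < ρ z}))) (fun s' hs' => ?_)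
        (lift_mem _ _ (fun s hs => sp_mono (fun s' hs' x =>
          ⟨_, (hs'.2.2 x).choose_spec.choose⟩) (key s hs).2) hc1)
      simp only [LinearMap.comp_apply, lift_one, mp_one]
      exact if_pos hs'
    have e2 := cup_bd hlam p hh
    rw [hbh, map_add, add_eq_zero2, hcup'] at e2
    rw [e1, lin_lift (mp _), ← e2]
    exact hcup

end Pool.Agent.MP_20201c_gt.H91
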