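import Pool.Agent.MP_20201c_gt.H91.Cells

/-! The state of a vertex and the cellwise minimum. -/

open MeasureTheory Set Filter Topology
open scoped ENNReal

namespace Pool.Agent.MP_20201c_gt.H91

variable {𝒯 : Finset Tri} {pos : Vt → ℂ} {h ε : ℝ} {m : ℕ}

theorem vst_legs {A B : ℝ} {U W u w : ℂ} (hε : 0 ≤ ε) (hu : ‖u‖ ≤ ε * h) (hw : ‖w‖ ≤ ε * h)
    (hA : |A| * h ≤ ‖A • U + B • W‖) (hB : |B| * h ≤ ‖A • U + B • W‖) :
    ‖A • (U + u) + B • (W + w)‖ ≤ (1 + 2 * ε) * ‖A • U + B • W‖ := by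
  have e : A • (U + u) + B • (W + w) = (A • U + B • W) + (A • u + B • w) := by
    rw [smul_add, smul_add]
    abel
  have h1 : ‖A • u‖ ≤ ε * ‖A • U + B • W‖ := by
    rw [norm_smul, Real.norm_eq_abs]
    calc |A| * ‖u‖ ≤ |A| * (ε * h) := mul_le_mul_of_nonneg_left hu (abs_nonneg _)
      _ = ε * (|A| * h) := by ring
      _ ≤ _ := mul_le_mul_of_nonneg_left hA hε
  have h2 : ‖B • w‖ ≤ ε * ‖A • U + B • W‖ := by
    rw [norm_smul, Real.norm_eq_abs]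
    calc |B| * ‖w‖ ≤ |B| * (ε * h) := mul_le_mul_of_nonneg_left hw (abs_nonneg _)
      _ = ε * (|B| * h) := by ring
      _ ≤ _ := mul_le_mul_of_nonneg_left hB hε
  rw [e]
  have h3 := norm_add_le (A • U + B • W) (A • u + B • w)
  have h4 := norm_add_le (A • u) (B • w)
  linarith

theorem vst_hor (h : ℝ) (v : Vt) : gp h (v + (1, 0)) - gp h v = (h : ℂ) := by
  apply Complex.ext <;> simp [gp]
  ring

theorem vst_ver (h : ℝ) (v : Vt) : gp h (v + (0, 1)) - gp h v = (h : ℂ) * Complex.I := by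
  apply Complex.ext <;> simp [gp]
  ring

theorem vst_right (hh : 0 < h) (hp : PosOK h ε pos) (A B : ℝ) (v w : Vt) :
    ‖A • (pos (v + (1, 0)) - pos v) + B • (pos (w + (0, 1)) - pos w)‖ ≤ (1 + 2 * ε) *
      ‖A • (gp h (v + (1, 0)) - gp h v) + B • (gp h (w + (0, 1)) - gp h w)‖ := by
  have hε : 0 ≤ ε := (norm_nonneg _).trans (hp v).1
  have e : ∀ a b : Vt, pos a - pos b = (gp h a - gp h b) + ((pos a - gp h a) - (pos b - gp h b)) :=
    fun a b => by ring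
  rw [e (v + (1, 0)) v, e (w + (0, 1)) w]
  refine vst_legs (h := h) hε ?_ ?_ ?_ ?_
  · refine ((hp _).2 _).trans_eq ?_
    rw [vst_hor, Complex.norm_real, Real.norm_of_nonneg hh.le]
  · refine ((hp _).2 _).trans_eq ?_
    rw [vst_ver, norm_mul, Complex.norm_I, mul_one, Complex.norm_real, Real.norm_of_nonneg hh.le]
  · refine le_trans (le_of_eq ?_) (Complex.abs_re_le_norm _)
    rw [vst_hor, vst_ver]
    simp [abs_mul, abs_of_pos hh]
  · refine le_trans (le_of_eq ?_) (Complex.abs_im_le_norm _)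
    rw [vst_hor, vst_ver]
    simp [abs_mul, abs_of_pos hh]

theorem vst_Nt_false (q : Vt → ℂ) (f : Vt → ℝ) (v : Vt) :
    Nt (q ∘ tv (v, false)) (f ∘ tv (v, false)) =
      (f (v + (1, 0)) - f (v + (1, 1))) • (q (v + (1, 0)) - q v) +
        (f (v + (1, 0)) - f v) • (q (v + (1, 0) + (0, 1)) - q (v + (1, 0))) := by
  have e : v + (1, 0) + (0, 1) = v + (1, 1) := by
    rw [add_assoc]
    rfl
  rw [e]
  simp [Nt, tv]
  ring

theorem vst_Nt_true (q : Vt → ℂ) (f : Vt → ℝ) (v : Vt) :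
    Nt (q ∘ tv (v, true)) (f ∘ tv (v, true)) =
      (f v - f (v + (0, 1))) • (q (v + (0, 1) + (1, 0)) - q (v + (0, 1))) +
        (f (v + (1, 1)) - f (v + (0, 1))) • (q (v + (0, 1)) - q v) := by
  have e : v + (0, 1) + (1, 0) = v + (1, 1) := by
    rw [add_assoc]
    rfl
  rw [e]
  simp [Nt, tv]
  ring

theorem Nt_pos (hh : 0 < h) (hp : PosOK h ε pos) (f : Vt → ℝ) (τ : Tri) :
    ‖Nt (pos ∘ tv τ) (f ∘ tv τ)‖ ≤ (1 + 2 * ε) * ‖Nt (gp h ∘ tv τ) (f ∘ tv τ)‖ := by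
  obtain ⟨v, b⟩ := τ
  cases b
  · rw [vst_Nt_false, vst_Nt_false]
    exact vst_right hh hp _ _ _ _
  · rw [vst_Nt_true, vst_Nt_true]
    exact vst_right hh hp _ _ _ _

theorem vst_core (hh : 0 < h) (hp : PosOK h ε pos) {r : ℝ} (hm : 2 * r + 2 * ε < m * h)
    (θ : ℤ × ℤ) {S : St} {κ : Ms} {I : Finset (ℤ × ℤ)} {ξ t ζ : ℝ} (hξ : 0 ≤ ξ) (ht : 0 ≤ t)
    (hζ : 0 ≤ ζ) (hκ : κ univ ≤ ENNReal.ofReal ξ)
    (hd : stM 𝒯 pos S = ∑ c ∈ I, cellM 𝒯 pos (cellOf m θ) c S + κ)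
    (h1 : ∑ c ∈ I, cellM 𝒯 pos (cellOf m θ) c S univ ≤ ENNReal.ofReal t)
    (h2 : ∀ c q, cellM 𝒯 pos (cellOf m θ) c S (cb q r) ≤ ENNReal.ofReal ζ) :
    (stM 𝒯 pos S).real univ ≤ t + ξ ∧ ∀ q, (stM 𝒯 pos S).real (cb q r) ≤ 4 * ζ + ξ := by
  refine ⟨ENNReal.toReal_le_of_le_ofReal (add_nonneg ht hξ) ?_, fun q =>
    ENNReal.toReal_le_of_le_ofReal (by positivity) ?_⟩
  · rw [hd, Measure.add_apply, Measure.finsetSum_apply, ENNReal.ofReal_add ht hξ]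
    exact add_le_add h1 hκ
  · obtain ⟨C, hC, h0⟩ := four_cells (𝒯 := 𝒯) hh hp hm θ q
    rw [hd, Measure.add_apply, Measure.finsetSum_apply, ENNReal.ofReal_add (by positivity) hξ]
    refine add_le_add ?_ ((measure_mono (subset_univ _)).trans hκ)
    calc ∑ c ∈ I, cellM 𝒯 pos (cellOf m θ) c S (cb q r)
        ≤ ∑ c ∈ C, cellM 𝒯 pos (cellOf m θ) c S (cb q r) :=
          Finset.sum_le_sum_of_ne_zero fun c _ hc => by
            by_contra hn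
            exact hc (h0 c hn S)
      _ ≤ C.card • ENNReal.ofReal ζ := Finset.sum_le_card_nsmul _ _ _ fun c _ => h2 c q
      _ ≤ 4 • ENNReal.ofReal ζ := nsmul_le_nsmul_left bot_le hC
      _ = ENNReal.ofReal (4 * ζ) := by
          rw [ENNReal.ofReal_mul (by norm_num), nsmul_eq_mul]
          norm_num

theorem vst_mpos (hp : PosOK h ε pos) {r : ℝ} (hr : 0 ≤ r)
    (hm : 2 * r + 2 * ε < m * h) : 0 < m := by
  have hε : 0 ≤ ε := (norm_nonneg _).trans (hp 0).1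
  rcases Nat.eq_zero_or_pos m with h0 | h0
  · rw [h0, Nat.cast_zero, zero_mul] at hm
    linarith
  · exact h0

/-- A good level for a finite family of triangles. -/
theorem vst_level (pos : Vt → ℂ) (f : Vt → ℝ) {η : ℝ} (hη : η < 1 / 2) (A : Finset Tri) :
    ∃ s ∈ Ioo η (1 - η), (∀ τ ∈ A, ∀ i, f (tv τ i) ≠ s) ∧
      ∑ τ ∈ A, lev (pos ∘ tv τ) (fun i => (f ∘ tv τ) i - s) univ ≤
        ENNReal.ofReal ((∑ τ ∈ A, ‖Nt (pos ∘ tv τ) (f ∘ tv τ)‖ / 2) / (1 - 2 * η)) := by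
  have hl : 0 < 1 - 2 * η := by linarith
  have hv : volume.restrict (Ioo η (1 - η)) univ = ENNReal.ofReal (1 - 2 * η) := by
    rw [Measure.restrict_apply_univ, Real.volume_Ioo]
    congr 1
    ring
  have hμ : volume.restrict (Ioo η (1 - η)) ≠ 0 := fun h0 => by
    rw [h0] at hv
    exact (ENNReal.ofReal_pos.2 hl).ne hv
  have hmeas : Measurable fun s : ℝ =>
      ∑ τ ∈ A, lev (pos ∘ tv τ) (fun i => (f ∘ tv τ) i - s) univ :=
    Finset.measurable_sum _ fun τ _ => (lev_int _ _).1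
  have hfin : ((fun p : Tri × Fin 3 => f (tv p.1 p.2)) '' ((A : Set Tri) ×ˢ univ)).Finite :=
    (A.finite_toSet.prod finite_univ).image _
  have hN : volume.restrict (Ioo η (1 - η)) ((Ioo η (1 - η))ᶜ ∪
      (fun p : Tri × Fin 3 => f (tv p.1 p.2)) '' ((A : Set Tri) ×ˢ univ)) = 0 := by
    refine measure_union_null ?_ (hfin.measure_zero _)
    rw [Measure.restrict_apply measurableSet_Ioo.compl, compl_inter_self, measure_empty]
  obtain ⟨s, hs, hle⟩ := exists_notMem_null_le_laverage hμ hmeas.aemeasurable hN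
  rw [mem_union, not_or, notMem_compl_iff] at hs
  refine ⟨s, hs.1, fun τ hτ i he => hs.2 ⟨(τ, i), ⟨hτ, mem_univ _⟩, he⟩, hle.trans ?_⟩
  rw [laverage_eq, hv, ENNReal.ofReal_div_of_pos hl]
  refine ENNReal.div_le_div_right ?_ _
  refine (setLIntegral_le_lintegral _ _).trans ?_
  rw [lintegral_finsetSum _ fun τ _ => (lev_int _ _).1,
    ENNReal.ofReal_sum_of_nonneg fun τ _ => by positivity]
  exact Finset.sum_le_sum fun τ _ => (lev_int _ _).2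

theorem vst (hh : 0 < h) (hp : PosOK h ε pos) (hε : ε ≤ 1) {r : ℝ} (hr : 0 ≤ r)
    (hm : 2 * r + 2 * ε < m * h) (f : Vt → ℝ) {η η₂ ξ t₀ ζ₀ : ℝ} (hη₂ : η₂ ≤ η) (hη : η < 1 / 2)
    (hξ : 0 ≤ ξ) (hζ : 0 ≤ ζ₀) (hU : 4 * h * (Unc 𝒯 f η₂).card ≤ ξ * m)
    (ht : ∑ τ ∈ 𝒯, ‖Nt (gp h ∘ tv τ) (f ∘ tv τ)‖ / 2 ≤ t₀)
    (hc : ∀ θ c, ∑ τ ∈ 𝒯.filter (fun τ => cellOf m θ τ = c),
      ‖Nt (gp h ∘ tv τ) (f ∘ tv τ)‖ / 2 ≤ ζ₀) :
    ∃ S, AdmS 𝒯 pos f η ((1 + 2 * ε) / (1 - 2 * η) * t₀ + ξ)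
      (4 * ((1 + 2 * ε) / (1 - 2 * η) * ζ₀) + ξ) r S := by
  have hε0 : 0 ≤ ε := (norm_nonneg _).trans (hp 0).1
  have hl : 0 < 1 - 2 * η := by linarith
  have hK : 0 ≤ (1 + 2 * ε) / (1 - 2 * η) := by positivity
  have ht0 : 0 ≤ t₀ := (Finset.sum_nonneg fun τ _ => by positivity).trans ht
  obtain ⟨θ, hθ⟩ := good_shift hh hp hε (vst_mpos hp hr hm) f hU
  choose s hs hne hle using fun c : ℤ × ℤ =>
    vst_level pos f hη (𝒯.filter fun τ => cellOf m θ τ = c)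
  obtain ⟨S, hS⟩ : ∃ S : St, S = fun τ => if τ ∈ 𝒯 then fun v => f v - s (cellOf m θ τ) else 0 :=
    ⟨_, rfl⟩
  have hin : ∀ τ ∈ 𝒯, S τ = fun v => f v - s (cellOf m θ τ) := fun τ hτ => by
    simp only [hS, if_pos hτ]
  have hsand : Sand 𝒯 f η S := by
    refine ⟨fun τ hτ => by simp only [hS, if_neg hτ], fun τ hτ i => ?_⟩
    have h1 := hs (cellOf m θ τ)
    rw [hin τ hτ]
    refine ⟨sub_ne_zero.2 (hne _ τ (Finset.mem_filter.2 ⟨hτ, rfl⟩) i), fun h2 => ?_, fun h2 => ?_⟩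
    · linarith [h1.2]
    · linarith [h1.1]
  have hcell : ∀ c, cellM 𝒯 pos (cellOf m θ) c S univ ≤
      ENNReal.ofReal ((1 + 2 * ε) / (1 - 2 * η) * ∑ τ ∈ 𝒯.filter (fun τ => cellOf m θ τ = c),
        ‖Nt (gp h ∘ tv τ) (f ∘ tv τ)‖ / 2) := fun c => by
    have e1 : ∑ e ∈ (inE 𝒯).filter (fun e => cellOf m θ (eT1 e) = c ∧ cellOf m θ (eT2 e) = c),
        edg pos S e = 0 := by
      refine Finset.sum_eq_zero fun e he => ?_
      obtain ⟨h1, h2, h3⟩ := Finset.mem_filter.1 he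
      obtain ⟨-, h4, h5⟩ := Finset.mem_filter.1 h1
      rw [edg, hin _ h4, hin _ h5, h2, h3, symmDiff_self]
      exact sgOn_empty _ _
    have e2 : ∑ τ ∈ 𝒯.filter (fun τ => cellOf m θ τ = c), levT pos S τ =
        ∑ τ ∈ 𝒯.filter (fun τ => cellOf m θ τ = c),
          lev (pos ∘ tv τ) (fun i => (f ∘ tv τ) i - s c) := by
      refine Finset.sum_congr rfl fun τ hτ => ?_
      obtain ⟨h1, h2⟩ := Finset.mem_filter.1 hτ
      rw [levT, hin _ h1, h2]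
      rfl
    rw [cellM, e1, e2, add_zero, Measure.finsetSum_apply]
    refine (hle c).trans (ENNReal.ofReal_le_ofReal ?_)
    rw [div_mul_eq_mul_div]
    refine div_le_div_of_nonneg_right ?_ hl.le
    rw [Finset.mul_sum]
    refine Finset.sum_le_sum fun τ _ => ?_
    linarith [Nt_pos hh hp f τ]
  obtain ⟨κ, hκ, hd⟩ := hθ η hη₂ S hsand
  refine ⟨S, hsand, vst_core hh hp hm θ hξ (mul_nonneg hK ht0) (mul_nonneg hK hζ) hκ hd ?_
    fun c q => ?_⟩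
  · refine (Finset.sum_le_sum fun c _ => hcell c).trans ?_
    rw [← ENNReal.ofReal_sum_of_nonneg fun c _ =>
      mul_nonneg hK (Finset.sum_nonneg fun τ _ => by positivity), ← Finset.mul_sum,
      Finset.sum_fiberwise_of_maps_to fun τ hτ => Finset.mem_image_of_mem _ hτ]
    exact ENNReal.ofReal_le_ofReal (mul_le_mul_of_nonneg_left ht hK)
  · exact ((measure_mono (subset_univ _)).trans (hcell c)).trans
      (ENNReal.ofReal_le_ofReal (mul_le_mul_of_nonneg_left (hc θ c) hK))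

theorem vst_le_ofReal (S : St) {A : Set ℂ} {t : ℝ} (h : (stM 𝒯 pos S).real A ≤ t) :
    stM 𝒯 pos S A ≤ ENNReal.ofReal t := by
  have := (stM_poly (𝒯 := 𝒯) (pos := pos) convex_univ (fun _ _ _ => mem_univ _) S).finite
  rw [← ofReal_measureReal (measure_ne_top _ _)]
  exact ENNReal.ofReal_le_ofReal h

theorem mixl (hh : 0 < h) (hp : PosOK h ε pos) (hε : ε ≤ 1) {r : ℝ} (hr : 0 ≤ r)
    (hm : 2 * r + 2 * ε < m * h) (f : Vt → ℝ) {η η₂ ξ t ζ : ℝ} (hη₂ : η₂ ≤ η) (hξ : 0 ≤ ξ)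
    (hU : 4 * h * (Unc 𝒯 f η₂).card ≤ ξ * m) {𝒮 : Set St} (hf : 𝒮.Finite) (hne : 𝒮.Nonempty)
    (hA : ∀ S ∈ 𝒮, AdmS 𝒯 pos f η t ζ r S) :
    ∃ (θ : ℤ × ℤ) (B : St), AdmS 𝒯 pos f η (t + ξ) (4 * ζ + ξ) r B ∧
      ∀ S ∈ 𝒮, ∀ J, AdmS 𝒯 pos f η (t + ξ) (4 * ζ + ξ) r (mix (cellOf m θ) J B S) := by
  obtain ⟨θ, hθ⟩ := good_shift hh hp hε (vst_mpos hp hr hm) f hU
  choose M hM hmin using fun c : ℤ × ℤ =>
    exists_min_image 𝒮 (fun S => cellM 𝒯 pos (cellOf m θ) c S univ) hf hne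
  have key : ∀ S ∈ 𝒮, ∀ S' : St, (∀ c, ∃ S'' ∈ 𝒮, (∀ τ, cellOf m θ τ = c → S' τ = S'' τ) ∧
      cellM 𝒯 pos (cellOf m θ) c S'' univ ≤ cellM 𝒯 pos (cellOf m θ) c S univ) →
      AdmS 𝒯 pos f η (t + ξ) (4 * ζ + ξ) r S' := fun S hS S' h' => by
    have hsand : Sand 𝒯 f η S' := by
      refine ⟨fun τ hτ => ?_, fun τ hτ => ?_⟩
      · obtain ⟨S'', h1, h2, -⟩ := h' (cellOf m θ τ)
        rw [h2 τ rfl]
        exact (hA S'' h1).1.1 τ hτ
      · obtain ⟨S'', h1, h2, -⟩ := h' (cellOf m θ τ)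
        rw [h2 τ rfl]
        exact (hA S'' h1).1.2 τ hτ
    obtain ⟨κ, hκ, hd⟩ := hθ η hη₂ S' hsand
    refine ⟨hsand, vst_core hh hp hm θ hξ (measureReal_nonneg.trans (hA S hS).2.1)
      (measureReal_nonneg.trans ((hA S hS).2.2 0)) hκ hd ?_ fun c q => ?_⟩
    · refine le_trans ?_ (vst_le_ofReal S (hA S hS).2.1)
      refine le_trans ?_ (sum_cellM_le (cellOf m θ) (𝒯.image (cellOf m θ)) S univ)
      rw [Measure.finsetSum_apply]
      refine Finset.sum_le_sum fun c _ => ?_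
      obtain ⟨S'', -, h2, h3⟩ := h' c
      rw [cellM_congr _ c fun τ _ hτ => h2 τ hτ]
      exact h3
    · obtain ⟨S'', h1, h2, -⟩ := h' c
      rw [cellM_congr _ c fun τ _ hτ => h2 τ hτ]
      refine le_trans ?_ (vst_le_ofReal S'' ((hA S'' h1).2.2 q))
      have := sum_cellM_le (𝒯 := 𝒯) (pos := pos) (cellOf m θ) {c} S'' (cb q r)
      rwa [Finset.sum_singleton] at this
  refine ⟨θ, fun τ => M (cellOf m θ τ) τ, ?_, fun S hS J => key S hS _ fun c => ?_⟩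
  · obtain ⟨S, hS⟩ := hne
    exact key S hS _ fun c => ⟨M c, hM c, fun τ hτ => by rw [hτ], hmin c S hS⟩
  · by_cases hc : c ∈ J
    · exact ⟨M c, hM c, fun τ hτ => by simp only [mix, hτ, if_pos hc], hmin c S hS⟩
    · exact ⟨S, hS, fun τ hτ => by simp only [mix, hτ, if_neg hc], le_rfl⟩

end Pool.Agent.MP_20201c_gt.H91
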