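import Pool.Agent.MP_20201c_gt.H91.Defs5

/-! Normalising the defining function. -/

open MeasureTheory Set Filter Topology
open scoped ENNReal

namespace Pool.Agent.MP_20201c_gt.H91

namespace Nrm

theorem ip_ss (a : ℂ) (t : ℝ) : ip a (t • a) = t * ‖a‖ ^ 2 := by
  rw [Complex.sq_norm, Complex.normSq_apply]
  simp only [ip, Complex.smul_re, Complex.smul_im, smul_eq_mul]
  ring

theorem ip_sm (a u : ℂ) (t : ℝ) : ip a (t • u) = t * ip a u := by
  simp only [ip, Complex.smul_re, Complex.smul_im, smul_eq_mul]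
  ring

/-- The vector of a linear form. -/
noncomputable def vec (φ : ℂ →L[ℝ] ℝ) : ℂ := ⟨φ 1, φ Complex.I⟩

theorem vec_ip (φ : ℂ →L[ℝ] ℝ) (v : ℂ) : φ v = ip (vec φ) v := by
  have hv : v = v.re • (1 : ℂ) + v.im • Complex.I := by
    apply Complex.ext <;> simp
  conv_lhs => rw [hv]
  rw [map_add, map_smul, map_smul]
  simp only [ip, vec, smul_eq_mul]
  ring

theorem vec_sub (φ ψ : ℂ →L[ℝ] ℝ) : vec φ - vec ψ = vec (φ - ψ) := by
  apply Complex.ext <;> simp [vec]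

theorem vec_norm (φ : ℂ →L[ℝ] ℝ) : ‖vec φ‖ ≤ 2 * ‖φ‖ := by
  have h1 := φ.le_opNorm 1
  have h2 := φ.le_opNorm Complex.I
  have h3 := Complex.norm_le_abs_re_add_abs_im (vec φ)
  simp only [norm_one, Complex.norm_I, mul_one, Real.norm_eq_abs] at h1 h2
  simp only [vec] at h3 ⊢
  linarith

theorem vec_ne {φ : ℂ →L[ℝ] ℝ} (h : φ ≠ 0) : vec φ ≠ 0 := by
  intro h0
  apply h
  ext v
  rw [vec_ip, h0]
  simp [ip]

theorem neg_off {ρ : ℂ → ℝ} (hr : ∀ z, ρ z = 0 → fderiv ℝ ρ z ≠ 0) {z : ℂ}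
    (hz : z ∉ closure {z | 0 < ρ z}) : ρ z < 0 := by
  have hn : ∀ᶠ w in 𝓝 z, ρ w ≤ 0 := by
    filter_upwards [isClosed_closure.isOpen_compl.mem_nhds hz] with w hw
    by_contra hc
    exact hw (subset_closure (not_le.1 hc))
  rcases (hn.self_of_nhds).lt_or_eq with h | h
  · exact h
  · exfalso
    refine hr z h (IsLocalMax.fderiv_eq_zero ?_)
    filter_upwards [hn] with w hw
    rw [h]
    exact hw

noncomputable def clp (l : ℝ) : ℝ := max 0 (min 1 l)

theorem clp_lip (a b : ℝ) : |clp a - clp b| ≤ |a - b| := by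
  unfold clp
  refine (abs_max_sub_max_le_max _ _ _ _).trans ?_
  refine max_le (by simp) ?_
  refine (abs_min_sub_min_le_max _ _ _ _).trans ?_
  exact max_le (by simp) le_rfl

end Nrm

open Nrm

theorem exists_good {ρ : ℂ → ℝ} (hρ : ContDiff ℝ 2 ρ) (hb : Bornology.IsBounded {z | 0 < ρ z})
    (hr : ∀ z, ρ z = 0 → fderiv ℝ ρ z ≠ 0) :
    ∃ (ρ' : ℂ → ℝ) (gr : ℂ → ℂ) (L c₀ β R : ℝ), Good ρ' gr L c₀ β R ∧
      {z | 0 < ρ' z} = {z | 0 < ρ z} ∧ ∀ z, ρ' z = 0 → ∀ v, fderiv ℝ ρ z v = ip (gr z) v := by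
  obtain ⟨R₀, hR₀, hK⟩ := hb.closure.subset_ball_lt 0 (0 : ℂ)
  have hneg : ∀ z, z ∉ Metric.ball (0 : ℂ) R₀ → ρ z < 0 := fun z hz =>
    neg_off hr fun h => hz (hK h)
  let χ : ContDiffBump (0 : ℂ) := ⟨R₀, R₀ + 1, hR₀, by linarith⟩
  set g : ℂ → ℝ := fun z => χ z * (ρ z + 1) with hg
  have hgd : ContDiff ℝ 2 g := χ.contDiff.mul (hρ.add contDiff_const)
  have hgc : HasCompactSupport g := χ.hasCompactSupport.mul_right
  obtain ⟨K₁, hK₁⟩ := ContDiff.lipschitzWith_of_hasCompactSupport hgc hgd (by norm_num)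
  have hgd' : ContDiff ℝ 1 (fderiv ℝ g) := hgd.fderiv_right (by norm_num)
  obtain ⟨K₂, hK₂⟩ := ContDiff.lipschitzWith_of_hasCompactSupport (hgc.fderiv ℝ) hgd' (by norm_num)
  have hdiff : Differentiable ℝ g := hgd.differentiable (by norm_num)
  have hin : ∀ z ∈ Metric.ball (0 : ℂ) R₀, g z - 1 = ρ z := by
    intro z hz
    have : χ z = 1 := χ.one_of_mem_closedBall (Metric.ball_subset_closedBall hz)
    simp only [hg, this]
    ring
  have hout : ∀ z, z ∉ Metric.ball (0 : ℂ) R₀ → g z - 1 < 0 := by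
    intro z hz
    have h1 := hneg z hz
    have h2 : 0 ≤ χ z := χ.nonneg
    have h3 : χ z ≤ 1 := χ.le_one
    simp only [hg]
    rcases h2.lt_or_eq with h | h
    · nlinarith [mul_pos h (neg_pos.2 h1)]
    · rw [← h]
      norm_num
  have hfar : ∀ z, z ∉ Metric.closedBall (0 : ℂ) (R₀ + 1) → g z - 1 = -1 := by
    intro z hz
    have : χ z = 0 := by
      apply χ.zero_of_le_dist
      exact (not_le.1 hz).le
    simp only [hg, this]
    ring
  have hfd : ∀ z, g z - 1 = 0 → fderiv ℝ ρ z = fderiv ℝ g z := by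
    intro z hz
    have hzb : z ∈ Metric.ball (0 : ℂ) R₀ := by
      by_contra hc
      exact (hout z hc).ne hz
    have he : ρ =ᶠ[𝓝 z] fun w => g w - 1 := by
      filter_upwards [Metric.isOpen_ball.mem_nhds hzb] with w hw
      exact (hin w hw).symm
    rw [he.fderiv_eq, fderiv_sub_const]
  have hz0 : ∀ z, g z - 1 = 0 → ρ z = 0 := by
    intro z hz
    by_cases hzb : z ∈ Metric.ball (0 : ℂ) R₀
    · rw [← hin z hzb, hz]
    · exact absurd hz (hout z hzb).ne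
  have hvl : ∀ z w, ‖vec (fderiv ℝ g w) - vec (fderiv ℝ g z)‖ ≤ 2 * K₂ * ‖w - z‖ := by
    intro z w
    rw [vec_sub]
    refine (vec_norm _).trans ?_
    have := hK₂.norm_sub_le w z
    linarith
  have hvc : Continuous fun z => vec (fderiv ℝ g z) := by
    refine (LipschitzWith.of_dist_le' (K := 2 * K₂) fun x y => ?_).continuous
    rw [dist_eq_norm, dist_eq_norm]
    exact hvl y x
  have hφ : Continuous fun z => |g z - 1| + ‖vec (fderiv ℝ g z)‖ :=
    ((hgd.continuous.sub continuous_const).abs).add hvc.norm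
  obtain ⟨z₀, -, hz₀⟩ := (isCompact_closedBall (0 : ℂ) (R₀ + 1)).exists_isMinOn
    ⟨0, Metric.mem_closedBall_self (by linarith)⟩ hφ.continuousOn
  set m := |g z₀ - 1| + ‖vec (fderiv ℝ g z₀)‖ with hm
  have hm0 : 0 < m := by
    by_cases h : g z₀ - 1 = 0
    · have h1 : vec (fderiv ℝ g z₀) ≠ 0 := vec_ne (by rw [← hfd z₀ h]; exact hr z₀ (hz0 z₀ h))
      have := norm_pos_iff.2 h1
      positivity
    · have := abs_pos.2 h
      positivity
  have hK1 : (0 : ℝ) ≤ K₁ := K₁.2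
  have hK2 : (0 : ℝ) ≤ K₂ := K₂.2
  refine ⟨fun z => g z - 1, fun z => vec (fderiv ℝ g z), 2 * K₁ + 2 * K₂ + 1, m / 2,
    min (m / 2) (1 / 2), R₀ + 2, ⟨by positivity, by positivity, by positivity, ?_, ?_, ?_, ?_, ?_,
      ?_⟩, ?_, ?_⟩
  · intro z w
    have h := (convex_closedBall z ‖w - z‖).norm_image_sub_le_of_norm_fderiv_le'
      (f := g) (φ := fderiv ℝ g z) (C := K₂ * ‖w - z‖) (x := z) (y := w) (fun x _ => hdiff x)
      (fun x hx => (hK₂.norm_sub_le x z).trans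
        (mul_le_mul_of_nonneg_left (by rwa [← dist_eq_norm]) hK2))
      (Metric.mem_closedBall_self (norm_nonneg _))
      (by rw [Metric.mem_closedBall, dist_eq_norm])
    rw [vec_ip, Real.norm_eq_abs] at h
    have e : g w - 1 - (g z - 1) = g w - g z := by ring
    rw [e]
    nlinarith [sq_nonneg ‖w - z‖, mul_nonneg hK1 (sq_nonneg ‖w - z‖),
      mul_nonneg hK2 (sq_nonneg ‖w - z‖)]
  · intro z w
    have h := hK₁.norm_sub_le w z
    rw [Real.norm_eq_abs] at h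
    have e : g w - 1 - (g z - 1) = g w - g z := by ring
    rw [e]
    nlinarith [norm_nonneg (w - z), mul_nonneg hK1 (norm_nonneg (w - z)),
      mul_nonneg hK2 (norm_nonneg (w - z))]
  · intro z w
    have h := hvl z w
    nlinarith [norm_nonneg (w - z), mul_nonneg hK1 (norm_nonneg (w - z))]
  · intro z
    have h1 := vec_norm (fderiv ℝ g z)
    have h2 : ‖fderiv ℝ g z‖ ≤ K₁ := norm_fderiv_le_of_lipschitz ℝ hK₁
    linarith
  · intro z hz
    have hzb : z ∈ Metric.closedBall (0 : ℂ) (R₀ + 1) := by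
      by_contra hc
      rw [hfar z hc] at hz
      have := min_le_right (m / 2) (1 / 2)
      norm_num at hz
    have h1 : m ≤ |g z - 1| + ‖vec (fderiv ℝ g z)‖ := hz₀ hzb
    have := min_le_left (m / 2) (1 / 2)
    linarith
  · intro z hz
    have hzb : z ∈ Metric.closedBall (0 : ℂ) (R₀ + 1) := by
      by_contra hc
      rw [hfar z hc] at hz
      have := min_le_right (m / 2) (1 / 2)
      linarith
    rw [mem_closedBall_zero_iff] at hzb
    linarith
  · ext z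
    simp only [mem_ofPred_eq]
    by_cases hzb : z ∈ Metric.ball (0 : ℂ) R₀
    · rw [hin z hzb]
    · exact iff_of_false (not_lt.2 (hout z hzb).le) (not_lt.2 (hneg z hzb).le)
  · intro z hz v
    rw [hfd z hz, vec_ip]

variable {ρ : ℂ → ℝ} {gr : ℂ → ℂ} {L c₀ β R : ℝ}

theorem Good.continuous (h : Good ρ gr L c₀ β R) : Continuous ρ := by
  refine (LipschitzWith.of_dist_le' (K := L) fun x y => ?_).continuous
  rw [Real.dist_eq, dist_eq_norm]
  exact h.lip y x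

theorem Good.closure (h : Good ρ gr L c₀ β R) : closure {z | 0 < ρ z} = {z | 0 ≤ ρ z} := by
  apply Subset.antisymm
  · exact closure_minimal (fun z hz => show 0 ≤ ρ z from le_of_lt hz) (isClosed_le continuous_const h.continuous)
  · intro z hz
    have hz : 0 ≤ ρ z := hz
    rcases hz.lt_or_eq with hz | hz
    · exact subset_closure hz
    have hg : 0 < ‖gr z‖ := h.hc.trans_le (h.low z (by rw [← hz, abs_zero]; exact h.hβ.le))
    have ht : Tendsto (fun t : ℝ => z + t • gr z) (𝓝[>] 0) (𝓝 z) := by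
      have : Continuous fun t : ℝ => z + t • gr z := by fun_prop
      simpa using (this.tendsto 0).mono_left nhdsWithin_le_nhds
    refine mem_closure_of_tendsto ht ?_
    filter_upwards [Ioo_mem_nhdsGT (inv_pos.2 h.hL)] with t ht
    have h1 := h.tay z (z + t • gr z)
    rw [add_sub_cancel_left, ip_ss, norm_smul, Real.norm_eq_abs, mul_pow, sq_abs, ← hz] at h1
    have h2 := (abs_le.1 h1).1
    have h3 : L * t < 1 := by
      have := mul_lt_mul_of_pos_left ht.2 h.hL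
      rwa [mul_inv_cancel₀ h.hL.ne'] at this
    have h4 : 0 < t * ‖gr z‖ ^ 2 * (1 - L * t) :=
      mul_pos (mul_pos ht.1 (pow_pos hg 2)) (by linarith)
    show 0 < ρ (z + t • gr z)
    nlinarith

theorem Good.frontier (h : Good ρ gr L c₀ β R) : frontier {z | 0 < ρ z} = {z | ρ z = 0} := by
  rw [(isOpen_lt continuous_const h.continuous).frontier_eq, h.closure]
  ext z
  simp only [Set.mem_sdiff, mem_ofPred_eq, not_lt]
  exact ⟨fun hz => le_antisymm hz.2 hz.1, fun hz => ⟨hz.ge, hz.le⟩⟩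

theorem Good.strip (h : Good ρ gr L c₀ β R) {ε : ℝ≥0∞} (hε : 0 < ε) :
    ∃ β₁, 0 < β₁ ∧ volume {z | 0 < ρ z ∧ ρ z < 2 * β₁} ≤ ε := by
  set s : ℕ → Set ℂ := fun n => {z | 0 < ρ z ∧ ρ z < 2 * (1 / ((n : ℝ) + 1))} with hs
  have hc := h.continuous
  have h1 : ∀ n, NullMeasurableSet (s n) volume := fun n =>
    ((isOpen_lt continuous_const hc).inter
      (isOpen_lt hc continuous_const)).measurableSet.nullMeasurableSet
  have h2 : Antitone s := by
    intro n n' hn z hz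
    refine ⟨hz.1, hz.2.trans_le ?_⟩
    have : (n : ℝ) ≤ n' := by exact_mod_cast hn
    gcongr
  have h3 : volume (s 0) ≠ ∞ := by
    refine ne_top_of_le_ne_top (isCompact_closedBall (0 : ℂ) R).measure_lt_top.ne
      (measure_mono fun z hz => ?_)
    have := h.ball z (by linarith [hz.1, h.hβ])
    rw [mem_closedBall_zero_iff]
    linarith
  have h4 := tendsto_measure_iInter_atTop h1 h2 ⟨0, h3⟩
  have h5 : ⋂ n, s n = ∅ := by
    refine eq_empty_of_forall_notMem fun z hz => ?_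
    rw [mem_iInter] at hz
    obtain ⟨n, hn⟩ := exists_nat_one_div_lt (half_pos (hz 0).1)
    have := (hz n).2
    linarith
  rw [h5, measure_empty] at h4
  obtain ⟨n, hn⟩ := (h4.eventually (gt_mem_nhds hε)).exists
  exact ⟨1 / ((n : ℝ) + 1), by positivity, hn.le⟩

theorem Good.push (h : Good ρ gr L c₀ β R) {ε β₁ : ℝ} (hε : 0 < ε) (hβ₁ : 0 < β₁) :
    ∃ (β₀ : ℝ) (F : ℂ → ℂ), 0 < β₀ ∧ β₀ ≤ β / 2 ∧
      (∀ z w, ‖(F z - z) - (F w - w)‖ ≤ ε * ‖z - w‖) ∧ (∀ z, ‖F z - z‖ ≤ ε) ∧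
      (∀ z, β₁ ≤ ρ z → F z = z) ∧ ∀ z, |ρ z| ≤ β₀ → ρ (F z) ≤ -2 * β₀ := by
  have hL := h.hL
  have hc := h.hc
  have hβ := h.hβ
  set A : ℝ := 2 / β₁ * L * L + L with hA
  have hA0 : 0 < A := by positivity
  have hLA : L ≤ A := by
    have : 0 ≤ 2 / β₁ * L * L := by positivity
    linarith
  set l : ℝ := min (ε / A) (1 / (2 * L)) with hl
  have hl0 : 0 < l := by positivity
  have hl1 : l * A ≤ ε := (le_div_iff₀ hA0).1 (min_le_left _ _)
  have hl2 : l * (2 * L) ≤ 1 := (le_div_iff₀ (by positivity)).1 (min_le_right _ _)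
  set χ : ℂ → ℝ := fun z => clp (2 / β₁ * (β₁ - ρ z)) with hχ
  have hχ0 : ∀ z, 0 ≤ χ z := fun z => le_max_left _ _
  have hχ1 : ∀ z, χ z ≤ 1 := fun z => max_le zero_le_one (min_le_left _ _)
  have hχl : ∀ z w, |χ z - χ w| ≤ 2 / β₁ * L * ‖z - w‖ := by
    intro z w
    refine (clp_lip _ _).trans ?_
    have e : 2 / β₁ * (β₁ - ρ z) - 2 / β₁ * (β₁ - ρ w) = -(2 / β₁ * (ρ z - ρ w)) := by ring
    rw [e, abs_neg, abs_mul, abs_of_pos (by positivity : 0 < 2 / β₁), mul_assoc]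
    exact mul_le_mul_of_nonneg_left (h.lip w z) (by positivity)
  refine ⟨min (min (β / 2) (β₁ / 2)) (l * c₀ ^ 2 / 6), fun z => z + (-(l * χ z)) • gr z,
    by positivity, (min_le_left _ _).trans (min_le_left _ _), ?_, ?_, ?_, ?_⟩
  · intro z w
    have e : z + (-(l * χ z)) • gr z - z - (w + (-(l * χ w)) • gr w - w) =
        (-l) • ((χ z - χ w) • gr z + χ w • (gr z - gr w)) := by
      module
    rw [e, norm_smul, norm_neg, Real.norm_eq_abs, abs_of_pos hl0]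
    have h1 : ‖(χ z - χ w) • gr z‖ ≤ 2 / β₁ * L * ‖z - w‖ * L := by
      rw [norm_smul, Real.norm_eq_abs]
      exact mul_le_mul (hχl z w) (h.bdg z) (norm_nonneg _) (by positivity)
    have h2 : ‖χ w • (gr z - gr w)‖ ≤ 1 * (L * ‖z - w‖) := by
      rw [norm_smul, Real.norm_eq_abs, abs_of_nonneg (hχ0 w)]
      exact mul_le_mul (hχ1 w) (h.lipg w z) (norm_nonneg _) zero_le_one
    have h3 : ‖(χ z - χ w) • gr z + χ w • (gr z - gr w)‖ ≤ A * ‖z - w‖ := by
      refine (norm_add_le _ _).trans ?_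
      have e : A * ‖z - w‖ = 2 / β₁ * L * ‖z - w‖ * L + 1 * (L * ‖z - w‖) := by
        rw [hA]
        ring
      linarith
    calc l * ‖(χ z - χ w) • gr z + χ w • (gr z - gr w)‖ ≤ l * (A * ‖z - w‖) :=
          mul_le_mul_of_nonneg_left h3 hl0.le
      _ = l * A * ‖z - w‖ := by ring
      _ ≤ ε * ‖z - w‖ := mul_le_mul_of_nonneg_right hl1 (norm_nonneg _)
  · intro z
    rw [add_sub_cancel_left, norm_smul, norm_neg, Real.norm_eq_abs,
      abs_of_nonneg (mul_nonneg hl0.le (hχ0 z))]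
    calc l * χ z * ‖gr z‖ ≤ l * 1 * A :=
          mul_le_mul (mul_le_mul_of_nonneg_left (hχ1 z) hl0.le) ((h.bdg z).trans hLA)
            (norm_nonneg _) (by positivity)
      _ ≤ ε := by linarith
  · intro z hz
    have : χ z = 0 := by
      have h1 : 2 / β₁ * (β₁ - ρ z) ≤ 0 :=
        mul_nonpos_of_nonneg_of_nonpos (by positivity) (by linarith)
      exact max_eq_left ((min_le_right _ _).trans h1)
    simp [this]
  · intro z hz
    have b1 := (min_le_left (min (β / 2) (β₁ / 2)) (l * c₀ ^ 2 / 6)).trans (min_le_left _ _)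
    have b2 := (min_le_left (min (β / 2) (β₁ / 2)) (l * c₀ ^ 2 / 6)).trans (min_le_right _ _)
    have b3 := min_le_right (min (β / 2) (β₁ / 2)) (l * c₀ ^ 2 / 6)
    set β₀ := min (min (β / 2) (β₁ / 2)) (l * c₀ ^ 2 / 6)
    have hz' := (abs_le.1 hz).2
    have hone : χ z = 1 := by
      have h1 : 1 ≤ 2 / β₁ * (β₁ - ρ z) := by
        rw [div_mul_eq_mul_div, le_div_iff₀ hβ₁]
        linarith
      show max 0 (min 1 _) = 1
      rw [min_eq_left h1, max_eq_right zero_le_one]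
    have hg : c₀ ≤ ‖gr z‖ := h.low z (by linarith)
    have h1 := h.tay z (z + (-(l * χ z)) • gr z)
    rw [add_sub_cancel_left, ip_ss, norm_smul, Real.norm_eq_abs, mul_pow, sq_abs] at h1
    have h2 := (abs_le.1 h1).2
    have h3 : c₀ ^ 2 ≤ ‖gr z‖ ^ 2 := by gcongr
    show ρ (z + (-(l * χ z)) • gr z) ≤ -2 * β₀
    have h4 : L * ((-(l * χ z)) ^ 2 * ‖gr z‖ ^ 2) ≤ l * ‖gr z‖ ^ 2 / 2 := by
      rw [hone]
      have : 0 ≤ l * ‖gr z‖ ^ 2 * (1 - l * (2 * L)) :=
        mul_nonneg (by positivity) (by linarith)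
      nlinarith
    have h5 : -(l * χ z) * ‖gr z‖ ^ 2 = -(l * ‖gr z‖ ^ 2) := by
      rw [hone]
      ring
    have h6 : l * c₀ ^ 2 ≤ l * ‖gr z‖ ^ 2 := mul_le_mul_of_nonneg_left h3 hl0.le
    linarith

/-- Semiconvexity. -/
theorem Good.semi (h : Good ρ gr L c₀ β R) (o x : ℂ) {s t : ℝ} (hs : 0 ≤ s) (ht : 0 ≤ t)
    (hst : s + t = 1) : ρ (s • o + t • x) ≤ s * ρ o + t * ρ x + L * (s * t) * ‖x - o‖ ^ 2 := by
  obtain rfl : s = 1 - t := by linarith
  set z := (1 - t) • o + t • x with hz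
  have e1 : o - z = (-t) • (x - o) := by
    rw [hz]
    module
  have e2 : x - z = (1 - t) • (x - o) := by
    rw [hz]
    module
  have h1 := h.tay z o
  have h2 := h.tay z x
  rw [e1, ip_sm, norm_smul, Real.norm_eq_abs, mul_pow, sq_abs] at h1
  rw [e2, ip_sm, norm_smul, Real.norm_eq_abs, mul_pow, sq_abs] at h2
  have h3 := mul_le_mul_of_nonneg_left (abs_le.1 h1).1 hs
  have h4 := mul_le_mul_of_nonneg_left (abs_le.1 h2).1 ht
  nlinarith

theorem Good.star (h : Good ρ gr L c₀ β R) : ∃ r, 0 < r ∧ ∀ β₀ ∈ Icc 0 (β / 2),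
    Star {z | -β₀ < ρ z} (cb 0 R) r := by
  have hL := h.hL
  have hc := h.hc
  have hβ := h.hβ
  refine ⟨min (β / (8 * L)) (c₀ / (17 * L)), by positivity, fun β₀ hβ₀ q hq r hr => ?_⟩
  have hr0 : 0 < r := hr.1
  have hr1 : r * (8 * L) ≤ β := (le_div_iff₀ (by positivity)).1 (hr.2.trans (min_le_left _ _))
  have hr2 : r * (17 * L) ≤ c₀ := (le_div_iff₀ (by positivity)).1 (hr.2.trans (min_le_right _ _))
  have hqq : q ∈ cb 0 R ∩ cb q r := ⟨hq, Metric.mem_closedBall_self hr0.le⟩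
  by_cases hA : ∃ x₀ ∈ cb q r, ρ x₀ ≤ -β₀
  swap
  · refine ⟨r, ⟨le_rfl, by linarith⟩, q, hqq, fun x hx hxG => ?_⟩
    exact absurd ⟨x, hx.2, not_lt.1 hxG⟩ hA
  by_cases hB : ∃ y ∈ cb q (2 * r), -β₀ < ρ y
  swap
  · refine ⟨r, ⟨le_rfl, by linarith⟩, q, hqq, fun x hx _ z hz hzG => hB ⟨z, ?_, hzG⟩⟩
    exact Metric.closedBall_subset_closedBall (by linarith)
      ((convex_closedBall q r).segment_subset hqq.2 hx.2 hz)
  obtain ⟨x₀, hx₀, hρ₀⟩ := hA
  obtain ⟨y, hy, hρy⟩ := hB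
  have hd : ∀ x ∈ cb q (2 * r), ∀ x' ∈ cb q (2 * r), ‖x - x'‖ ≤ 4 * r := by
    intro x hx x' hx'
    have := dist_triangle_right x x' q
    rw [Metric.mem_closedBall] at hx hx'
    rw [← dist_eq_norm]
    linarith
  have hx₀' : x₀ ∈ cb q (2 * r) := Metric.closedBall_subset_closedBall (by linarith) hx₀
  have hlow : ∀ x ∈ cb q (2 * r), -β ≤ ρ x := by
    intro x hx
    have h1 := (abs_le.1 (h.lip y x)).1
    have h2 := mul_le_mul_of_nonneg_left (hd x hx y hy) hL.le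
    linarith [hβ₀.2]
  have hg : c₀ ≤ ‖gr x₀‖ := h.low x₀ (abs_le.2 ⟨hlow x₀ hx₀', by linarith [hβ₀.1]⟩)
  have hg0 : 0 < ‖gr x₀‖ := hc.trans_le hg
  set o := x₀ + (-(r * ‖gr x₀‖⁻¹)) • gr x₀ with ho
  have hon : ‖(-(r * ‖gr x₀‖⁻¹)) • gr x₀‖ = r := by
    rw [norm_smul, norm_neg, Real.norm_eq_abs, abs_of_pos (by positivity), mul_assoc,
      inv_mul_cancel₀ hg0.ne', mul_one]
  have hoq : o ∈ cb q (2 * r) := by
    have h1 := dist_triangle o x₀ q
    have h2 : dist o x₀ = r := by rw [dist_eq_norm, ho, add_sub_cancel_left, hon]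
    rw [Metric.mem_closedBall] at hx₀ ⊢
    linarith
  have hρo : ρ o ≤ -β₀ - r * c₀ + L * r ^ 2 := by
    have h1 := h.tay x₀ o
    rw [ho, add_sub_cancel_left, ip_ss, hon] at h1
    have h2 := (abs_le.1 h1).2
    have h3 : -(r * ‖gr x₀‖⁻¹) * ‖gr x₀‖ ^ 2 = -(r * ‖gr x₀‖) := by
      field_simp
    have h4 := mul_le_mul_of_nonneg_left hg hr0.le
    rw [ho]
    linarith
  refine ⟨2 * r, ⟨by linarith, le_rfl⟩, o, ⟨?_, hoq⟩, fun x hx hxG z hz => ?_⟩
  · have := h.ball o (hlow o hoq)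
    rw [mem_closedBall_zero_iff]
    linarith
  · obtain ⟨s, t, hs, ht, hst, rfl⟩ := hz
    have hx' : ρ x ≤ -β₀ := not_lt.1 hxG
    have h1 := h.semi o x hs ht hst
    have h2 : ‖x - o‖ ^ 2 ≤ (4 * r) ^ 2 := by
      have := hd x hx.2 o hoq
      gcongr
    have h3 : L * (s * t) * ‖x - o‖ ^ 2 ≤ L * (s * 1) * (4 * r) ^ 2 := by
      have : t ≤ 1 := by linarith
      gcongr
    have h4 := mul_le_mul_of_nonneg_left hρo hs
    have h5 := mul_le_mul_of_nonneg_left hx' ht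
    have h6 : 0 ≤ s * r * (c₀ - r * (17 * L)) := mul_nonneg (by positivity) (by linarith)
    have h7 : s * -β₀ + t * -β₀ = -β₀ := by rw [← add_mul, hst, one_mul]
    show ¬ -β₀ < ρ (s • o + t • x)
    rw [not_lt]
    nlinarith

end Pool.Agent.MP_20201c_gt.H91
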