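import Pool.Agent.MP_20201c_gt.H91.SideU
import Pool.Agent.MP_20201c_gt.H91.SideT

/-! Small relative cycles bound; continuity of the realisation. -/

open MeasureTheory Set Filter Topology
open scoped ENNReal

namespace Pool.Agent.MP_20201c_gt.H91

namespace SM

open Classical in
/-- Segments that occur an even number of times or miss the domain bound the empty set. -/
theorem side_even {Ω : Set ℂ} {ι : Type} [Fintype ι] (o p : ι → ℂ)
    (h : ∀ z w, (∑ j, if o j = z ∧ p j = w then (1 : F2) else 0) ≠ 0 →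
      Disjoint (segment ℝ z w) Ω) : Side Ω (∑ j, sg (o j) (p j)) ∅ := by
  refine ⟨MeasurableSet.empty, _, _, _, (msr_equivFin o p).symm, Eventually.of_forall fun q hq => ?_⟩
  have h1 : (∑ i, if cr ((o ∘ (Fintype.equivFin ι).symm) i) ((p ∘ (Fintype.equivFin ι).symm) i)
      q.1 q.2 then (1 : F2) else 0) = ∑ j, if cr (o j) (p j) q.1 q.2 then (1 : F2) else 0 :=
    Equiv.sum_comp (Fintype.equivFin ι).symm fun j => if cr (o j) (p j) q.1 q.2 then (1 : F2) else 0
  have h2 := Finset.sum_comp (s := (Finset.univ : Finset ι))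
    (fun c : ℂ × ℂ => if cr c.1 c.2 q.1 q.2 then (1 : F2) else 0) (fun j => (o j, p j))
  rw [h1, h2]
  simp only [mem_empty_iff_false, if_false, add_zero]
  refine Finset.sum_eq_zero fun c _ => ?_
  by_cases hc : cr c.1 c.2 q.1 q.2
  · have h3 : (∑ j, if o j = c.1 ∧ p j = c.2 then (1 : F2) else 0) = 0 := by
      by_contra h0
      obtain ⟨y, hy1, hy2⟩ := hc
      exact Set.disjoint_left.1 (h _ _ h0) hy1 (hq hy2)
    rw [Finset.sum_boole] at h3
    rw [nsmul_eq_mul]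
    have h4 : (Finset.univ.filter fun j => (o j, p j) = c) =
        Finset.univ.filter fun j => o j = c.1 ∧ p j = c.2 :=
      Finset.filter_congr fun j _ => Prod.ext_iff
    rw [h4, h3, zero_mul]
  · simp [hc]

theorem side_sum' {Ω : Set ℂ} {ι : Type} (s : Finset ι) {μ : ι → Ms} {E : ι → Set ℂ}
    (h : ∀ i ∈ s, Side Ω (μ i) (E i)) : ∃ D ⊆ ⋃ i ∈ s, E i, Side Ω (∑ i ∈ s, μ i) D := by
  classical
  refine ⟨_, fun z hz => ?_, side_sum s h⟩
  obtain ⟨i, hi⟩ := Finset.card_pos.1 (Odd.pos hz)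
  rw [Finset.mem_filter] at hi
  exact mem_biUnion hi.1 hi.2

theorem restrict_UB (μ : Ms) {𝓑 : Finset (ℂ × ℝ)}
    (hd : ∀ B ∈ 𝓑, ∀ B' ∈ 𝓑, B ≠ B' → Disjoint (cb B.1 B.2) (cb B'.1 B'.2)) :
    μ = μ.restrict (UB 𝓑)ᶜ + ∑ B ∈ 𝓑, μ.restrict (cb B.1 B.2) := by
  have hm : MeasurableSet (UB 𝓑) :=
    Finset.measurableSet_biUnion _ fun B _ => measurableSet_closedBall
  have h1 : μ.restrict (UB 𝓑) = ∑ B ∈ 𝓑, μ.restrict (cb B.1 B.2) := by
    ext A hA
    rw [Measure.restrict_apply hA, Measure.finsetSum_apply, UB, inter_iUnion₂,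
      measure_biUnion_finset]
    · exact Finset.sum_congr rfl fun B _ => (Measure.restrict_apply hA).symm
    · exact fun B hB B' hB' hne =>
        (hd B hB B' hB' hne).mono inter_subset_right inter_subset_right
    · exact fun B _ => hA.inter measurableSet_closedBall
  rw [← h1, add_comm, Measure.restrict_add_restrict_compl hm]

theorem vol_cb (y : ℂ) {R Rm : ℝ} (h0 : 0 < R) (h : R ≤ Rm) :
    volume (cb y R) ≤ ENNReal.ofReal (4 * Rm ^ 2) := by
  rw [Complex.volume_closedBall, ← ENNReal.ofReal_pow h0.le, ← ENNReal.ofReal_coe_nnreal,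
    ← ENNReal.ofReal_mul (by positivity)]
  refine ENNReal.ofReal_le_ofReal ?_
  have h1 : R ^ 2 ≤ Rm ^ 2 := pow_le_pow_left₀ h0.le h 2
  have h2 : (NNReal.pi : ℝ) ≤ 4 := Real.pi_le_four
  nlinarith [sq_nonneg R]

theorem f2_add_self (x : F2) : x + x = 0 := CharTwo.add_self_eq_zero x

end SM

theorem small2 {Ω G W : Set ℂ} (hΩ : Ω ⊆ G) (hW : Convex ℝ W) {o : ℂ} (ho : Adm G W o) {κ : Ms}
    (hκ : Poly W κ) (hp : Par G W 0 κ) : ∃ D ⊆ W, Side Ω κ D := by
  classical
  obtain ⟨m, a, b, hab, rfl⟩ := hκ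
  obtain ⟨D, hD, hS⟩ := SM.side_sum' (Ω := Ω) Finset.univ
    (fun i (_ : i ∈ Finset.univ) => side_tri Ω o (a i) (b i))
  have hν : Side Ω (∑ j, sg o (Sum.elim a b j)) ∅ := by
    refine SM.side_even (fun _ => o) (Sum.elim a b) fun z w h => ?_
    obtain ⟨j, -, hj⟩ := Finset.exists_ne_zero_of_sum_ne_zero h
    have hj' : o = z ∧ Sum.elim a b j = w := by
      by_contra h0
      exact hj (if_neg h0)
    obtain ⟨rfl, hw⟩ := hj'
    have hwW : w ∈ W := by
      rw [← hw]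
      rcases j with i | i
      · exact (hab i).1
      · exact (hab i).2
    have hb : bdy (msr a b) w ≠ 0 := by
      rw [bdy_msr]
      rw [Fintype.sum_sum_type] at h
      simpa only [ind, Sum.elim_inl, Sum.elim_inr, true_and] using h
    have hwG : w ∉ G := fun hG => hb (hp w hwW hG)
    exact Set.disjoint_left.2 fun y hy hyΩ => ho.2 w hwW hwG y hy (hΩ hyΩ)
  have hνP : Poly W (∑ j, sg o (Sum.elim a b j)) :=
    Poly.of_fintype (fun _ => o) (Sum.elim a b) fun j => ⟨ho.1, by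
      rcases j with i | i
      · exact (hab i).1
      · exact (hab i).2⟩
  refine ⟨D, hD.trans (iUnion₂_subset fun i _ => convexHull_min ?_ hW), ?_⟩
  · rintro y (rfl | rfl | rfl)
    · exact ho.1
    · exact (hab i).1
    · exact (hab i).2
  · have h1 := hS.add hν
    rw [show symmDiff D ∅ = D from symmDiff_bot D] at h1
    refine Side.cancel ⟨m, a, b, hab, rfl⟩ hνP ?_
    have h2 : ∑ i, (sg o (a i) + sg (a i) (b i) + sg (b i) o) =
        msr a b + ∑ j, sg o (Sum.elim a b j) := by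
      rw [Fintype.sum_sum_type, Finset.sum_add_distrib, Finset.sum_add_distrib, msr]
      simp only [Sum.elim_inl, Sum.elim_inr, fun i => sg_comm (b i) o]
      abel
    rwa [h2] at h1

theorem poly_restrict_UB {W : Set ℂ} (hW : Convex ℝ W) {μ : Ms} (h : Poly W μ)
    {𝓑 : Finset (ℂ × ℝ)} (hB : ∀ B ∈ 𝓑, 0 < B.2) : Poly W (μ.restrict (UB 𝓑)ᶜ) := by
  classical
  induction 𝓑 using Finset.induction_on with
  | empty => simpa [UB] using h
  | insert B s _ ih =>
    have h1 : (UB (insert B s))ᶜ = (cb B.1 B.2)ᶜ ∩ (UB s)ᶜ := by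
      rw [UB, Finset.set_biUnion_insert, compl_union, UB]
    rw [h1, ← Measure.restrict_restrict measurableSet_closedBall.compl]
    exact (ih fun B' hB' => hB B' (Finset.mem_insert_of_mem hB')).restrict_compl hW _
      (hB B (Finset.mem_insert_self _ _))

theorem near {Ω G W : Set ℂ} (hΩ : Ω ⊆ G) (hW : Convex ℝ W) {μ μ' : Ms} (h : Poly W μ)
    (h' : Poly W μ') (hp : Par G W 0 μ) (hp' : Par G W 0 μ') {A : ℕ} {Rm : ℝ}
    (hA : Agree G W A Rm μ' μ) {E : Set ℂ} (hE : Side Ω μ E) :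
    ∃ E', Side Ω μ' E' ∧ volume (symmDiff E E') ≤ ENNReal.ofReal (A * (4 * Rm ^ 2)) := by
  classical
  obtain ⟨𝓑, hcard, ⟨hap, hd⟩, hagr⟩ := hA
  have hres : ∀ {ν : Ms}, Poly W ν → ∀ B ∈ 𝓑, Poly (W ∩ cb B.1 B.2) (ν.restrict (cb B.1 B.2)) :=
    fun hν B hB => hν.restrict_cb hW (hap B hB).1 (hap B hB).2.1
  have hloc : ∀ {ν : Ms}, Poly W ν → Par G W 0 ν → ∀ B ∈ 𝓑, ∀ z ∈ W ∩ cb B.1 B.2, z ∈ G →
      bdy (ν.restrict (cb B.1 B.2)) z = bdy (ν.restrict (UB 𝓑)ᶜ) z := by
    intro ν hν hpν B hB z hz hzG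
    have hP : ∀ B' ∈ 𝓑, Poly W (ν.restrict (cb B'.1 B'.2)) := fun B' hB' =>
      (hres hν B' hB').mono inter_subset_left
    have h1 : bdy ν z = 0 := hpν z hz.1 hzG
    rw [SM.restrict_UB ν hd, bdy_add (poly_restrict_UB hW hν fun B' hB' => (hap B' hB').2.1)
      (Poly.sum _ hP), bdy_sum _ hP, Finset.sum_eq_single_of_mem B hB fun B' hB' hne =>
        (hres hν B' hB').bdy_of_notMem fun hz' =>
          Set.disjoint_left.1 (hd B' hB' B hB hne) hz'.2 hz.2] at h1
    exact ((CharTwo.add_eq_zero).1 h1).symm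
  have hsm : ∀ B ∈ 𝓑, ∃ D ⊆ W ∩ cb B.1 B.2,
      Side Ω (μ.restrict (cb B.1 B.2) + μ'.restrict (cb B.1 B.2)) D := by
    intro B hB
    obtain ⟨o, ho⟩ := (hap B hB).2.2.2
    refine small2 hΩ (hW.inter (convex_closedBall _ _)) ho ((hres h B hB).add (hres h' B hB))
      fun z hz hzG => ?_
    rw [bdy_add (hres h B hB) (hres h' B hB), hloc h hp B hB z hz hzG, hloc h' hp' B hB z hz hzG,
      hagr]
    exact SM.f2_add_self _
  choose! Dd hDs hDS using hsm
  obtain ⟨D, hD, hS⟩ := SM.side_sum' 𝓑 hDS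
  refine ⟨symmDiff E D, ?_, ?_⟩
  · refine Side.cancel h' (Poly.sum 𝓑 fun B hB => (hres h B hB).mono inter_subset_left) ?_
    have h1 := hE.add hS
    have h2 : μ + ∑ B ∈ 𝓑, (μ.restrict (cb B.1 B.2) + μ'.restrict (cb B.1 B.2)) =
        μ' + ∑ B ∈ 𝓑, μ.restrict (cb B.1 B.2) + ∑ B ∈ 𝓑, μ.restrict (cb B.1 B.2) := by
      rw [Finset.sum_add_distrib]
      have e1 := SM.restrict_UB μ hd
      have e2 := SM.restrict_UB μ' hd
      rw [hagr] at e2
      generalize ∑ B ∈ 𝓑, μ.restrict (cb B.1 B.2) = s at *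
      generalize ∑ B ∈ 𝓑, μ'.restrict (cb B.1 B.2) = s' at *
      generalize μ.restrict (UB 𝓑)ᶜ = ω at *
      rw [e1, e2]
      abel
    rwa [h2] at h1
  · rw [symmDiff_symmDiff_cancel_left]
    calc volume D ≤ ∑ B ∈ 𝓑, volume (Dd B) :=
          (measure_mono hD).trans (measure_biUnion_finset_le _ _)
      _ ≤ ∑ _B ∈ 𝓑, ENNReal.ofReal (4 * Rm ^ 2) := Finset.sum_le_sum fun B hB =>
          (measure_mono ((hDs B hB).trans inter_subset_right)).trans
            (SM.vol_cb _ (hap B hB).2.1 (hap B hB).2.2.1)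
      _ ≤ ENNReal.ofReal (A * (4 * Rm ^ 2)) := by
          rw [Finset.sum_const, nsmul_eq_mul, ENNReal.ofReal_mul (Nat.cast_nonneg _),
            ENNReal.ofReal_natCast]
          exact mul_le_mul_left (Nat.cast_le.2 hcard) _

variable {Ω G W : Set ℂ} {X : Type} [TopologicalSpace X] {u : X → Ms}

theorem contZ (hG : IsOpen G) (hΩ : closure Ω ⊆ G) (hW : Convex ℝ W) (hu : Fam W u)
    (hp : ∀ x, Par G W 0 (u x)) (x₀ : X) {ε : ℝ≥0∞} (hε : 0 < ε) :
    ∀ᶠ x in 𝓝 x₀, ∃ D, volume D ≤ ε ∧ Side Ω (u x + u x₀) D := by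
  classical
  obtain ⟨m, a, b, hc, hab, hu'⟩ := hu
  let p : Fin m ⊕ Fin m → X → ℂ := Sum.elim a b
  have hpc : ∀ j, Continuous (p j) := fun j => by
    rcases j with i | i
    · exact (hc i).1
    · exact (hc i).2
  have hpW : ∀ j x, p j x ∈ W := fun j x => by
    rcases j with i | i
    · exact (hab i x).1
    · exact (hab i x).2
  have e1 : ∀ᶠ x in 𝓝 x₀, ∀ j j', p j x₀ ≠ p j' x₀ → p j x ≠ p j' x := by
    refine eventually_all.2 fun j => eventually_all.2 fun j' => ?_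
    by_cases hne : p j x₀ ≠ p j' x₀
    · filter_upwards [((hpc j).sub (hpc j')).continuousAt.eventually_ne (sub_ne_zero.2 hne)]
        with x hx _
      exact sub_ne_zero.1 hx
    · exact Eventually.of_forall fun x h => absurd h hne
  have e2 : ∀ᶠ x in 𝓝 x₀, ∀ j, p j x ∈ G ∨ Disjoint (segment ℝ (p j x₀) (p j x)) Ω := by
    refine eventually_all.2 fun j => ?_
    by_cases hj : p j x₀ ∈ G
    · filter_upwards [(hpc j).continuousAt.eventually (hG.mem_nhds hj)] with x hx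
      exact Or.inl hx
    · obtain ⟨r, hr, hb⟩ := Metric.isOpen_iff.1 (isClosed_closure (s := Ω)).isOpen_compl (p j x₀)
        fun h => hj (hΩ h)
      filter_upwards [(hpc j).continuousAt.eventually (Metric.ball_mem_nhds (p j x₀) hr)] with x hx
      refine Or.inr (Set.disjoint_left.2 fun y hy hyΩ => hb ?_ (subset_closure hyΩ))
      exact (convex_ball _ _).segment_subset (Metric.mem_ball_self hr) hx hy
  have e3 : ∀ᶠ x in 𝓝 x₀, ∑ i, (ENNReal.ofReal (‖b i x - b i x₀‖ * ‖a i x₀ - b i x₀‖) +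
      ENNReal.ofReal (‖a i x₀ - a i x‖ * ‖b i x - a i x‖)) < ε := by
    have hcont : Continuous fun x => ∑ i, (ENNReal.ofReal (‖b i x - b i x₀‖ * ‖a i x₀ - b i x₀‖) +
        ENNReal.ofReal (‖a i x₀ - a i x‖ * ‖b i x - a i x‖)) := by
      refine continuous_finsetSum _ fun i _ => ?_
      have h1 := (hc i).1
      have h2 := (hc i).2
      exact (ENNReal.continuous_ofReal.comp (by fun_prop)).add
        (ENNReal.continuous_ofReal.comp (by fun_prop))
    refine hcont.continuousAt.eventually (gt_mem_nhds ?_)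
    simpa using hε
  filter_upwards [e1, e2, e3] with x h1 h2 h3
  have hκ : Side Ω (∑ j, sg (p j x₀) (p j x)) ∅ := by
    refine SM.side_even (fun j => p j x₀) (fun j => p j x) fun z w h => ?_
    obtain ⟨j, -, hj⟩ := Finset.exists_ne_zero_of_sum_ne_zero h
    have hj' : p j x₀ = z ∧ p j x = w := by
      by_contra h0
      exact hj (if_neg h0)
    obtain ⟨rfl, rfl⟩ := hj'
    refine (h2 j).resolve_left fun hG' => h ?_
    have h4 : bdy (u x) (p j x) = 0 := hp x _ (hpW j x) hG'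
    rw [hu' x, bdy_msr] at h4
    have h5 : (∑ j', if p j' x₀ = p j x₀ ∧ p j' x = p j x then (1 : F2) else 0) =
        ∑ j', if p j' x = p j x then (1 : F2) else 0 :=
      Finset.sum_congr rfl fun j' _ => if_congr
        ⟨fun h => h.2, fun h => ⟨by_contra fun h0 => h1 j' j h0 h, h⟩⟩ rfl rfl
    rw [h5, Fintype.sum_sum_type]
    exact h4
  obtain ⟨D, hD, hS⟩ := SM.side_sum' (Ω := Ω) Finset.univ
    (fun i (_ : i ∈ Finset.univ) => (side_tri Ω (b i x₀) (b i x) (a i x₀)).add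
      (side_tri Ω (a i x) (a i x₀) (b i x)))
  refine ⟨D, ?_, ?_⟩
  · refine (measure_mono hD).trans ((measure_biUnion_finset_le _ _).trans
      (le_trans (Finset.sum_le_sum fun i _ => ?_) h3.le))
    exact (measure_mono symmDiff_subset_union).trans
      ((measure_union_le _ _).trans (add_le_add (tri_area _ _ _) (tri_area _ _ _)))
  · have h6 := hS.add hκ
    rw [show symmDiff D ∅ = D from symmDiff_bot D] at h6
    have hP : ∀ y, Poly W (u y) := fun y => ⟨m, _, _, fun i => hab i y, hu' y⟩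
    refine Side.cancel ((hP x).add (hP x₀))
      ((Poly.of_fintype (fun j => p j x₀) (fun j => p j x) fun j => ⟨hpW j x₀, hpW j x⟩).add
        (Poly.of_fintype (fun i => a i x₀) (fun i => b i x) fun i =>
          ⟨(hab i x₀).1, (hab i x).2⟩)) ?_
    have h7 : ∑ i, (sg (b i x₀) (b i x) + sg (b i x) (a i x₀) + sg (a i x₀) (b i x₀) +
          (sg (a i x) (a i x₀) + sg (a i x₀) (b i x) + sg (b i x) (a i x))) +
          ∑ j, sg (p j x₀) (p j x) =
        u x + u x₀ + (∑ j, sg (p j x₀) (p j x) + ∑ i, sg (a i x₀) (b i x)) +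
          (∑ j, sg (p j x₀) (p j x) + ∑ i, sg (a i x₀) (b i x)) := by
      rw [hu' x, hu' x₀, Fintype.sum_sum_type, msr, msr]
      simp only [p, Sum.elim_inl, Sum.elim_inr, Finset.sum_add_distrib,
        fun i => sg_comm (b i x) (a i x₀), fun i => sg_comm (b i x) (a i x),
        fun i => sg_comm (a i x) (a i x₀)]
      abel
    rwa [h7] at h6

theorem side_all [PreconnectedSpace X] (hG : IsOpen G) (hΩ : closure Ω ⊆ G) (hW : Convex ℝ W)
    (hu : Fam W u) (hp : ∀ x, Par G W 0 (u x)) {x₀ : X} (h : ∃ E, Side Ω (u x₀) E) (x : X) :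
    ∃ E, Side Ω (u x) E := by
  have key : ∀ y z : X, (∃ D, Side Ω (u y + u z) D) → (∃ E, Side Ω (u z) E) →
      ∃ E, Side Ω (u y) E := by
    rintro y z ⟨D, hD⟩ ⟨E, hE⟩
    exact ⟨_, Side.cancel (hu.poly y) (hu.poly z) (hD.add hE)⟩
  have hcl : IsClopen {y | ∃ E, Side Ω (u y) E} := by
    refine ⟨isOpen_compl_iff.1 (isOpen_iff_mem_nhds.2 fun y hy => ?_),
      isOpen_iff_mem_nhds.2 fun y hy => ?_⟩
    · filter_upwards [contZ hG hΩ hW hu hp y zero_lt_one] with z hz hz'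
      obtain ⟨D, -, hD⟩ := hz
      exact hy (key y z ⟨D, add_comm (u z) (u y) ▸ hD⟩ hz')
    · filter_upwards [contZ hG hΩ hW hu hp y zero_lt_one] with z hz
      obtain ⟨D, -, hD⟩ := hz
      exact key z y ⟨D, hD⟩ hy
  exact (hcl.eq_univ ⟨x₀, h⟩).ge (mem_univ x)

theorem rz_cont (ho : IsOpen Ω) (hc : IsPreconnected Ω) (hG : IsOpen G) (hΩ : closure Ω ⊆ G)
    (hW : Convex ℝ W) (hu : Fam W u) (hp : ∀ x, Par G W 0 (u x)) (h : ∀ x, ∃ E, Side Ω (u x) E) :
    Continuous fun x => Rz Ω (u x) := by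
  refine continuous_iff_continuousAt.2 fun x₀ => EMetric.tendsto_nhds.2 fun ε hε => ?_
  obtain ⟨ε', h0, h1⟩ := exists_between hε
  obtain ⟨E, hE⟩ := h x₀
  filter_upwards [contZ hG hΩ hW hu hp x₀ h0] with x hx
  obtain ⟨D, hv, hD⟩ := hx
  have h2 : Side Ω (u x) (symmDiff D E) := Side.cancel (hu.poly x) (hu.poly x₀) (hD.add hE)
  rw [rz_eq ho hc h2, rz_eq ho hc hE, edist_cyc]
  refine lt_of_le_of_lt ((min_le_left _ _).trans ((measure_mono ?_).trans hv)) h1
  rw [symmDiff_symmDiff_cancel_right]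
  exact inter_subset_left

end Pool.Agent.MP_20201c_gt.H91
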