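import Pool.Agent.MP_20201c_gt.H91.SideU

/-! Mollified characteristic functions on a grid. -/

open MeasureTheory Set Filter Topology
open scoped ENNReal

namespace Pool.Agent.MP_20201c_gt.H91

/-- A bump of radius `h'`. -/
structure Bump (ψ : ℂ → ℝ) (h' : ℝ) : Prop where
  smooth : ContDiff ℝ 2 ψ
  nonneg : ∀ x, 0 ≤ ψ x
  supp : ∀ x, h' ≤ ‖x‖ → ψ x = 0
  int : ∫ x, ψ x = 1

noncomputable def mol (ψ : ℂ → ℝ) (h : ℝ) (E : Set ℂ) (v : Vt) : ℝ := ∫ y in E, ψ (gp h v - y)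

theorem exists_bump {h' : ℝ} (h0 : 0 < h') : ∃ ψ, Bump ψ h' := by
  let f : ContDiffBump (0 : ℂ) := ⟨h' / 2, h', by positivity, by linarith⟩
  refine ⟨f.normed volume, f.contDiff_normed, f.nonneg_normed, fun x hx => ?_, f.integral_normed⟩
  by_contra hc
  have h1 : x ∈ Function.support (f.normed volume) := hc
  rw [f.support_normed_eq, mem_ball_zero_iff] at h1
  exact absurd hx (not_le.2 h1)

variable {ψ : ℂ → ℝ} {h' : ℝ}

theorem Bump.pos (hψ : Bump ψ h') : 0 < h' := by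
  by_contra hc
  have h1 : ψ = fun _ => 0 := funext fun x => hψ.supp x ((not_lt.1 hc).trans (norm_nonneg x))
  have h2 := hψ.int
  simp [h1] at h2

theorem Bump.tsupp (hψ : Bump ψ h') : tsupport ψ ⊆ cb 0 h' := by
  refine closure_minimal (fun x hx => ?_) Metric.isClosed_closedBall
  rw [mem_closedBall_zero_iff]
  by_contra hc
  exact hx (hψ.supp x (not_le.1 hc).le)

theorem Bump.cpt (hψ : Bump ψ h') : HasCompactSupport ψ :=
  (isCompact_closedBall 0 h').of_isClosed_subset (isClosed_tsupport ψ) hψ.tsupp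

theorem Bump.cont (hψ : Bump ψ h') : Continuous ψ := hψ.smooth.continuous

theorem Bump.integrable (hψ : Bump ψ h') (x : ℂ) : Integrable fun y => ψ (x - y) :=
  (hψ.cont.integrable_of_hasCompactSupport hψ.cpt).comp_sub_left x

theorem Bump.int_sub (hψ : Bump ψ h') (x : ℂ) : ∫ y, ψ (x - y) = 1 := by
  rw [integral_sub_left_eq_self ψ volume x, hψ.int]

theorem Bump.bdd (hψ : Bump ψ h') : ∃ M : ℝ, 0 < M ∧ ∀ x, ψ x ≤ M := by
  obtain ⟨C, hC⟩ := hψ.cpt.exists_bound_of_continuous hψ.cont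
  refine ⟨|C| + 1, by positivity, fun x => ?_⟩
  have h1 := hC x
  rw [Real.norm_eq_abs] at h1
  linarith [le_abs_self (ψ x), le_abs_self C]

theorem Bump.lip (hψ : Bump ψ h') : ∃ L : ℝ, 0 < L ∧ ∀ x y, |ψ x - ψ y| ≤ L * ‖x - y‖ := by
  obtain ⟨C, hC⟩ := ContDiff.lipschitzWith_of_hasCompactSupport hψ.cpt hψ.smooth two_ne_zero
  refine ⟨C + 1, by positivity, fun x y => ?_⟩
  have h1 := hC.dist_le_mul x y
  rw [Real.dist_eq, dist_eq_norm] at h1
  nlinarith [norm_nonneg (x - y)]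

theorem Bump.dsmooth (hψ : Bump ψ h') : ContDiff ℝ 1 (fderiv ℝ ψ) :=
  hψ.smooth.fderiv_right (by norm_num)

theorem Bump.diff (hψ : Bump ψ h') : Differentiable ℝ ψ := hψ.smooth.differentiable two_ne_zero

theorem Bump.dzero (hψ : Bump ψ h') {z : ℂ} (hz : h' < ‖z‖) : fderiv ℝ ψ z = 0 := by
  by_contra hc
  have h1 := hψ.tsupp (support_fderiv_subset ℝ hc)
  rw [mem_closedBall_zero_iff] at h1
  linarith

theorem Bump.dint (hψ : Bump ψ h') (x v : ℂ) : Integrable fun y => fderiv ℝ ψ (x - y) v := by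
  have h1 : Continuous fun z => fderiv ℝ ψ z v := hψ.dsmooth.continuous.clm_apply continuous_const
  have h2 : HasCompactSupport fun z => fderiv ℝ ψ z v :=
    (hψ.cpt.fderiv ℝ).comp_left (g := fun L : ℂ →L[ℝ] ℝ => L v) (by simp)
  exact (h1.integrable_of_hasCompactSupport h2).comp_sub_left x

theorem Bump.tay (hψ : Bump ψ h') : ∃ L : ℝ, 0 < L ∧ ∀ (z a b : ℂ) (r : ℝ), ‖a‖ ≤ r → ‖b‖ ≤ r →
    |ψ (z + b) - ψ (z + a) - fderiv ℝ ψ z (b - a)| ≤ L * r * ‖b - a‖ := by
  obtain ⟨C, hC⟩ := ContDiff.lipschitzWith_of_hasCompactSupport (hψ.cpt.fderiv ℝ) hψ.dsmooth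
    one_ne_zero
  refine ⟨C + 1, by positivity, fun z a b r ha hb => ?_⟩
  have hr : 0 ≤ r := (norm_nonneg a).trans ha
  have h1 := Convex.norm_image_sub_le_of_norm_fderiv_le' (𝕜 := ℝ) (f := ψ) (s := cb z r)
    (φ := fderiv ℝ ψ z) (C := (C + 1) * r) (x := z + a) (y := z + b) (fun x _ => hψ.diff x)
    (fun x hx => by
      have h2 := hC.dist_le_mul x z
      rw [dist_eq_norm] at h2
      have h3 : dist x z ≤ r := hx
      have h4 := mul_le_mul_of_nonneg_left h3 C.2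
      have h5 : (C : ℝ) * dist x z ≤ C * r := h4
      linarith)
    (convex_closedBall z r) (by simpa using ha) (by simpa using hb)
  rwa [add_sub_add_left_eq_sub, Real.norm_eq_abs] at h1

theorem ma_cb (x : ℂ) {r : ℝ} (hr : 0 ≤ r) : volume.real (cb x r) ≤ 4 * r ^ 2 := by
  rw [Measure.real, Complex.volume_closedBall, ENNReal.toReal_mul, ENNReal.toReal_pow,
    ENNReal.toReal_ofReal hr, ENNReal.coe_toReal, NNReal.coe_real_pi]
  nlinarith [Real.pi_le_four, sq_nonneg r]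

theorem ma_bound (E : Set ℂ) {F : ℂ → ℝ} {D : Set ℂ} (hD : MeasurableSet D) (hf : volume D ≠ ⊤)
    {c : ℝ} (hc : 0 ≤ c) (h1 : ∀ y ∈ D, |F y| ≤ c) (h2 : ∀ y, y ∉ D → F y = 0) :
    |∫ y in E, F y| ≤ c * volume.real D := by
  have h3 : volume.restrict E D ≤ volume D := Measure.restrict_le_self D
  rw [← Real.norm_eq_abs]
  refine (norm_integral_le_of_norm_le (g := D.indicator fun _ => c)
    ((integrable_indicator_iff hD).2 (integrableOn_const (ne_top_of_le_ne_top hf h3)))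
    (ae_of_all _ fun y => ?_)).trans ?_
  · by_cases hy : y ∈ D
    · rw [indicator_of_mem hy]
      exact h1 y hy
    · rw [indicator_of_notMem hy, h2 y hy, norm_zero]
  · rw [integral_indicator hD, setIntegral_const, smul_eq_mul, mul_comm]
    exact mul_le_mul_of_nonneg_left (ENNReal.toReal_mono hf h3) hc

theorem mol_compl (hψ : Bump ψ h') (h : ℝ) {E : Set ℂ} (hE : MeasurableSet E) (v : Vt) :
    mol ψ h Eᶜ v = 1 - mol ψ h E v := by
  have h1 := integral_add_compl hE (hψ.integrable (gp h v))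
  rw [hψ.int_sub] at h1
  unfold mol
  linarith

theorem mol_close (hψ : Bump ψ h') {ζ : ℝ} (hζ : 0 < ζ) : ∃ δ₀ : ℝ, 0 < δ₀ ∧
    ∀ (Ω E E' : Set ℂ) (h : ℝ) (v : Vt), MeasurableSet E → MeasurableSet E' →
      volume (symmDiff E E' ∩ Ω) ≤ ENNReal.ofReal δ₀ → cb (gp h v) h' ⊆ Ω →
      |mol ψ h E v - mol ψ h E' v| ≤ ζ := by
  obtain ⟨M, hM, hb⟩ := hψ.bdd
  refine ⟨ζ / M, by positivity, fun Ω E E' h v hE hE' hv hΩ => ?_⟩
  have h1 : volume (symmDiff E E' ∩ cb (gp h v) h') ≤ ENNReal.ofReal (ζ / M) :=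
    (measure_mono (inter_subset_inter_right _ hΩ)).trans hv
  have h2 := ma_bound univ (F := fun y => E.indicator (fun y => ψ (gp h v - y)) y -
      E'.indicator (fun y => ψ (gp h v - y)) y)
    ((hE.symmDiff hE').inter Metric.isClosed_closedBall.measurableSet)
    (ne_top_of_le_ne_top ENNReal.ofReal_ne_top h1) hM.le (fun y _ => by
      have a1 := hb (gp h v - y)
      have a2 := hψ.nonneg (gp h v - y)
      by_cases e1 : y ∈ E <;> by_cases e2 : y ∈ E' <;>
        simp [e1, e2, hM.le, abs_of_nonneg a2, a1]) (fun y hy => by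
      by_cases e0 : y ∈ cb (gp h v) h'
      · have a1 : y ∉ symmDiff E E' := fun a => hy ⟨a, e0⟩
        rw [mem_symmDiff] at a1
        by_cases e1 : y ∈ E <;> by_cases e2 : y ∈ E' <;> simp [e1, e2] at a1 ⊢
      · rw [Metric.mem_closedBall, dist_comm, dist_eq_norm] at e0
        simp [indicator, hψ.supp _ (not_le.1 e0).le])
  rw [Measure.restrict_univ, integral_sub ((hψ.integrable _).indicator hE)
    ((hψ.integrable _).indicator hE'), integral_indicator hE, integral_indicator hE'] at h2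
  have h3 : volume.real (symmDiff E E' ∩ cb (gp h v) h') ≤ ζ / M :=
    ENNReal.toReal_le_of_le_ofReal (by positivity) h1
  refine h2.trans ((mul_le_mul_of_nonneg_left h3 hM.le).trans (le_of_eq ?_))
  field_simp

theorem ma_tv {h : ℝ} (hh : 0 ≤ h) (τ : Tri) (i : Fin 3) :
    ‖gp h (tv τ i) - gp h τ.1‖ ≤ 2 * h := by
  refine (Complex.norm_le_abs_re_add_abs_im _).trans ?_
  obtain ⟨v, b⟩ := τ
  cases b <;> fin_cases i <;> simp [gp, tv, mul_add, abs_of_nonneg hh] <;> linarith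

theorem mol_nb (hψ : Bump ψ h') {ζ : ℝ} (hζ : 0 < ζ) : ∃ h₀ : ℝ, 0 < h₀ ∧
    ∀ h ∈ Ioc 0 h₀, ∀ (E : Set ℂ) (τ : Tri) (i : Fin 3),
      |mol ψ h E (tv τ i) - mol ψ h E τ.1| ≤ ζ := by
  obtain ⟨L, hL, hl⟩ := hψ.lip
  have hp := hψ.pos
  refine ⟨min 1 (ζ / (L * 2 * (4 * (h' + 2) ^ 2))), by positivity, fun h hh E τ i => ?_⟩
  have h1 : h ≤ 1 := hh.2.trans (min_le_left _ _)
  have h2 := hh.2.trans (min_le_right _ _)
  rw [le_div_iff₀ (by positivity)] at h2
  have h3 := ma_tv hh.1.le τ i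
  have h0 := hh.1
  have h4 := ma_bound E (F := fun y => ψ (gp h (tv τ i) - y) - ψ (gp h τ.1 - y))
    (D := cb (gp h τ.1) (h' + 2)) Metric.isClosed_closedBall.measurableSet
    measure_closedBall_lt_top.ne (c := L * (2 * h)) (by positivity) (fun y _ => by
      refine (hl _ _).trans (mul_le_mul_of_nonneg_left ?_ hL.le)
      rwa [sub_sub_sub_cancel_right]) (fun y hy => by
      rw [Metric.mem_closedBall, dist_comm, dist_eq_norm, not_le] at hy
      have a1 := norm_sub_le (gp h (tv τ i) - y) (gp h (tv τ i) - gp h τ.1)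
      rw [sub_sub_sub_cancel_left] at a1
      rw [hψ.supp _ (by linarith), hψ.supp _ (by linarith), sub_self])
  rw [integral_sub (hψ.integrable _).integrableOn (hψ.integrable _).integrableOn] at h4
  refine h4.trans ((mul_le_mul_of_nonneg_left (ma_cb _ (by positivity)) (by positivity)).trans ?_)
  linarith

theorem ma_sq {h : ℝ} (hh : 0 < h) (v : Vt) :
    MeasurableSet {x | vtx h x = v} ∧ volume {x | vtx h x = v} = ENNReal.ofReal (h ^ 2) ∧
      ∀ x, vtx h x = v → ‖gp h v - x‖ ≤ 2 * h := by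
  have h0 : ∀ (t : ℝ) (n : ℤ), ⌊t / h⌋ = n ↔ t ∈ Ico (h * n) (h * n + h) := by
    intro t n
    rw [Int.floor_eq_iff, le_div_iff₀ hh, div_lt_iff₀ hh, mem_Ico]
    constructor <;> rintro ⟨a, b⟩ <;> constructor <;> linarith
  have h1 : {x | vtx h x = v} = Complex.measurableEquivRealProd ⁻¹'
      (Ico (h * v.1) (h * v.1 + h) ×ˢ Ico (h * v.2) (h * v.2 + h)) := by
    ext x
    simp only [mem_ofPred_eq, vtx, Prod.ext_iff, h0, mem_preimage, mem_prod,
      Complex.measurableEquivRealProd_apply]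
  refine ⟨?_, ?_, fun x hx => ?_⟩
  · rw [h1]
    exact Complex.measurableEquivRealProd.measurable (measurableSet_Ico.prod measurableSet_Ico)
  · rw [h1, Complex.volume_preserving_equiv_real_prod.measure_preimage_equiv,
      Measure.volume_eq_prod, Measure.prod_prod, Real.volume_Ico, Real.volume_Ico,
      ← ENNReal.ofReal_mul (by linarith)]
    congr 1
    ring
  · simp only [vtx, Prod.ext_iff, h0, mem_Ico] at hx
    refine (Complex.norm_le_abs_re_add_abs_im _).trans ?_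
    have a1 : |(gp h v - x).re| ≤ h := by
      simp only [gp, Complex.sub_re]
      exact abs_le.2 ⟨by linarith [hx.1.2], by linarith [hx.1.1]⟩
    have a2 : |(gp h v - x).im| ≤ h := by
      simp only [gp, Complex.sub_im]
      exact abs_le.2 ⟨by linarith [hx.2.2], by linarith [hx.2.1]⟩
    linarith

theorem ma_riemann (hψ : Bump ψ h') {L : ℝ} (hL : 0 < L) (hl : ∀ x y, |ψ x - ψ y| ≤ L * ‖x - y‖)
    {h : ℝ} (hh : 0 < h) (h1 : h ≤ 1) (V : Finset Vt) (y : ℂ) :
    ∑ v ∈ V, h ^ 2 * ψ (gp h v - y) ≤ 1 + L * (2 * h) * (4 * (h' + 2) ^ 2) := by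
  have hp := hψ.pos
  have hi : ∀ v, Integrable ({x | vtx h x = v}.indicator fun _ => ψ (gp h v - y)) := fun v =>
    (integrable_indicator_iff (ma_sq hh v).1).2
      (integrableOn_const (by rw [(ma_sq hh v).2.1]; exact ENNReal.ofReal_ne_top))
  have e1 : ∀ v, h ^ 2 * ψ (gp h v - y) =
      ∫ x, {x | vtx h x = v}.indicator (fun _ => ψ (gp h v - y)) x := fun v => by
    rw [integral_indicator (ma_sq hh v).1, setIntegral_const, smul_eq_mul, Measure.real,
      (ma_sq hh v).2.1, ENNReal.toReal_ofReal (by positivity)]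
  have hm : MeasurableSet (cb y (h' + 2)) := Metric.isClosed_closedBall.measurableSet
  have i1 : Integrable fun x => ψ (x - y) :=
    (hψ.cont.integrable_of_hasCompactSupport hψ.cpt).comp_sub_right y
  have i2 : Integrable ((cb y (h' + 2)).indicator fun _ => L * (2 * h)) :=
    (integrable_indicator_iff hm).2 (integrableOn_const measure_closedBall_lt_top.ne)
  simp only [e1]
  rw [← integral_finsetSum _ fun v _ => hi v]
  refine (integral_mono (g := fun x => ψ (x - y) +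
    (cb y (h' + 2)).indicator (fun _ => L * (2 * h)) x)
    (integrable_finsetSum _ fun v _ => hi v) (i1.add i2) fun x => ?_).trans ?_
  · have a0 : 0 ≤ (cb y (h' + 2)).indicator (fun _ => L * (2 * h)) x :=
      indicator_nonneg (fun _ _ => by positivity) x
    have a1 : ∑ v ∈ V, {x | vtx h x = v}.indicator (fun _ => ψ (gp h v - y)) x ≤
        ψ (gp h (vtx h x) - y) := by
      simp only [indicator, mem_ofPred_eq, Finset.sum_ite_eq]
      split_ifs
      · exact le_rfl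
      · exact hψ.nonneg _
    refine a1.trans ?_
    beta_reduce
    have a2 := (ma_sq hh (vtx h x)).2.2 x rfl
    by_cases hx : x ∈ cb y (h' + 2)
    · rw [indicator_of_mem hx]
      have a3 := hl (gp h (vtx h x) - y) (x - y)
      rw [sub_sub_sub_cancel_right] at a3
      have a4 := mul_le_mul_of_nonneg_left a2 hL.le
      linarith [le_abs_self (ψ (gp h (vtx h x) - y) - ψ (x - y))]
    · rw [Metric.mem_closedBall, dist_eq_norm, not_le] at hx
      have a3 := norm_sub_le (gp h (vtx h x) - y) (gp h (vtx h x) - x)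
      rw [sub_sub_sub_cancel_left] at a3
      rw [hψ.supp _ (by linarith)]
      linarith [hψ.nonneg (x - y)]
  · rw [integral_add i1 i2, integral_sub_right_eq_self ψ y, hψ.int, integral_indicator hm,
      setIntegral_const, smul_eq_mul, mul_comm]
    have := mul_le_mul_of_nonneg_left (ma_cb y (r := h' + 2) (by positivity))
      (show 0 ≤ L * (2 * h) by positivity)
    linarith

theorem ma_unit (N : ℂ) : ∃ u : ℂ, ‖u‖ ≤ 1 ∧ ip u N = ‖N‖ := by
  by_cases h : N = 0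
  · exact ⟨0, by simp, by simp [ip, h]⟩
  · have h1 : ‖N‖ ≠ 0 := norm_ne_zero_iff.2 h
    refine ⟨‖N‖⁻¹ • N, by rw [norm_smul, norm_inv, norm_norm, inv_mul_cancel₀ h1], ?_⟩
    have h2 : ‖N‖ ^ 2 = N.re * N.re + N.im * N.im := by rw [Complex.sq_norm, Complex.normSq_apply]
    simp only [ip, Complex.smul_re, Complex.smul_im, smul_eq_mul]
    field_simp
    linarith

theorem ma_ip_Nt (u : ℂ) (q : Fin 3 → ℂ) (α : Fin 3 → ℝ) : ip u (Nt q α) =
    α 0 * ip u (q 1 - q 2) + α 1 * ip u (q 2 - q 0) + α 2 * ip u (q 0 - q 1) := by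
  simp only [ip, Nt, Complex.add_re, Complex.add_im, Complex.smul_re, Complex.smul_im, smul_eq_mul]
  ring

theorem ma_two {a b e₁ e₂ h c : ℝ} (ha : |a| ≤ 1) (hb : |b| ≤ 1) (hh : 0 ≤ h) (h1 : |e₁| ≤ c)
    (h2 : |e₂| ≤ c) : |h * (a * e₁ - b * e₂)| ≤ h * (2 * c) := by
  rw [abs_mul, abs_of_nonneg hh]
  refine mul_le_mul_of_nonneg_left ((abs_sub _ _).trans ?_) hh
  rw [abs_mul, abs_mul]
  have a1 := mul_le_mul ha h1 (abs_nonneg _) zero_le_one
  have a2 := mul_le_mul hb h2 (abs_nonneg _) zero_le_one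
  linarith

theorem ma_point {L : ℝ} (hl : ∀ (z a b : ℂ) (r : ℝ), ‖a‖ ≤ r → ‖b‖ ≤ r →
      |ψ (z + b) - ψ (z + a) - fderiv ℝ ψ z (b - a)| ≤ L * r * ‖b - a‖)
    {h : ℝ} (hh : 0 < h) (τ : Tri) {u : ℂ} (hu : ‖u‖ ≤ 1) (y : ℂ) :
    |ip u (Nt (gp h ∘ tv τ) fun i => ψ (gp h (tv τ i) - y)) -
      h ^ 2 * (fderiv ℝ ψ (gp h τ.1 - y) 1 * u.im - fderiv ℝ ψ (gp h τ.1 - y) Complex.I * u.re)| ≤
      h * (2 * (L * (2 * h) * h)) := by
  have k : ∀ (i j : Fin 3) (d : ℂ), ‖d‖ = 1 → gp h (tv τ j) - gp h (tv τ i) = h • d →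
      |ψ (gp h (tv τ j) - y) - ψ (gp h (tv τ i) - y) - h * fderiv ℝ ψ (gp h τ.1 - y) d| ≤
        L * (2 * h) * h := by
    intro i j d hd e
    have h1 := hl (gp h τ.1 - y) _ _ _ (ma_tv hh.le τ i) (ma_tv hh.le τ j)
    have e1 : ∀ i, gp h τ.1 - y + (gp h (tv τ i) - gp h τ.1) = gp h (tv τ i) - y := fun i => by
      ring
    rwa [e1, e1, sub_sub_sub_cancel_right, e, map_smul, smul_eq_mul, norm_smul, hd, mul_one,
      Real.norm_of_nonneg hh.le] at h1
  have a1 : |u.im| ≤ 1 := (Complex.abs_im_le_norm u).trans hu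
  have a2 : |u.re| ≤ 1 := (Complex.abs_re_le_norm u).trans hu
  rw [ma_ip_Nt]
  obtain ⟨v, b⟩ := τ
  cases b
  · have k1 := k 0 1 1 (by simp) (by apply Complex.ext <;> simp [gp, tv, mul_add])
    have k2 := k 1 2 Complex.I (by simp) (by apply Complex.ext <;> simp [gp, tv, mul_add])
    refine le_trans (le_of_eq ?_) (ma_two a1 a2 hh.le k1 k2)
    congr 1
    have c1 : ip u ((gp h ∘ tv (v, false)) 1 - (gp h ∘ tv (v, false)) 2) = -(h * u.im) := by
      simp [ip, gp, tv, mul_add, mul_comm]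
    have c2 : ip u ((gp h ∘ tv (v, false)) 2 - (gp h ∘ tv (v, false)) 0) =
        h * u.re + h * u.im := by
      simp [ip, gp, tv, mul_add, mul_comm]
    have c3 : ip u ((gp h ∘ tv (v, false)) 0 - (gp h ∘ tv (v, false)) 1) = -(h * u.re) := by
      simp [ip, gp, tv, mul_add, mul_comm]
    rw [c1, c2, c3]
    ring
  · have k1 := k 2 1 1 (by simp) (by apply Complex.ext <;> simp [gp, tv, mul_add])
    have k2 := k 0 2 Complex.I (by simp) (by apply Complex.ext <;> simp [gp, tv, mul_add])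
    refine le_trans (le_of_eq ?_) (ma_two a1 a2 hh.le k1 k2)
    congr 1
    have c1 : ip u ((gp h ∘ tv (v, true)) 1 - (gp h ∘ tv (v, true)) 2) = h * u.re := by
      simp [ip, gp, tv, mul_add, mul_comm]
    have c2 : ip u ((gp h ∘ tv (v, true)) 2 - (gp h ∘ tv (v, true)) 0) = h * u.im := by
      simp [ip, gp, tv, mul_add, mul_comm]
    have c3 : ip u ((gp h ∘ tv (v, true)) 0 - (gp h ∘ tv (v, true)) 1) =
        -(h * u.re) - h * u.im := by
      simp [ip, gp, tv, mul_add, mul_comm, sub_eq_add_neg]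
    rw [c1, c2, c3]
    ring

theorem ma_tri (hψ : Bump ψ h') {L : ℝ} (hL : 0 < L)
    (hl : ∀ (z a b : ℂ) (r : ℝ), ‖a‖ ≤ r → ‖b‖ ≤ r →
      |ψ (z + b) - ψ (z + a) - fderiv ℝ ψ z (b - a)| ≤ L * r * ‖b - a‖)
    {h : ℝ} (hh : 0 < h) (h1 : h ≤ 1) (E : Set ℂ) (τ : Tri) {u : ℂ} (hu : ‖u‖ ≤ 1) :
    ip u (Nt (gp h ∘ tv τ) (mol ψ h E ∘ tv τ)) ≤ (∫ y in E, h ^ 2 *
      (fderiv ℝ ψ (gp h τ.1 - y) 1 * u.im - fderiv ℝ ψ (gp h τ.1 - y) Complex.I * u.re)) +
      h * (2 * (L * (2 * h) * h)) * (4 * (h' + 2) ^ 2) := by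
  have hp := hψ.pos
  have h4 := ma_bound E (D := cb (gp h τ.1) (h' + 2)) Metric.isClosed_closedBall.measurableSet
    measure_closedBall_lt_top.ne (c := h * (2 * (L * (2 * h) * h))) (by positivity)
    (fun y _ => ma_point hl hh τ hu y) (fun y hy => by
      rw [Metric.mem_closedBall, dist_comm, dist_eq_norm, not_le] at hy
      have a2 : ∀ i, ψ (gp h (tv τ i) - y) = 0 := fun i => by
        have a1 := norm_sub_le (gp h (tv τ i) - y) (gp h (tv τ i) - gp h τ.1)
        rw [sub_sub_sub_cancel_left] at a1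
        exact hψ.supp _ (by linarith [ma_tv hh.le τ i])
      rw [ma_ip_Nt, hψ.dzero (by linarith)]
      simp [a2])
  have i0 : ∀ (i : Fin 3) (c : ℝ),
      Integrable (fun y => ψ (gp h (tv τ i) - y) * c) (volume.restrict E) := fun i c =>
    (hψ.integrable _).integrableOn.mul_const c
  have i1 : Integrable (fun y => h ^ 2 * (fderiv ℝ ψ (gp h τ.1 - y) 1 * u.im -
      fderiv ℝ ψ (gp h τ.1 - y) Complex.I * u.re)) (volume.restrict E) :=
    ((((hψ.dint _ _).mul_const _).sub ((hψ.dint _ _).mul_const _)).const_mul _).integrableOn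
  simp only [ma_ip_Nt] at h4 ⊢
  rw [integral_sub (((i0 _ _).fun_add (i0 _ _)).fun_add (i0 _ _)) i1,
    integral_add ((i0 _ _).fun_add (i0 _ _)) (i0 _ _), integral_add (i0 _ _) (i0 _ _),
    integral_mul_const, integral_mul_const, integral_mul_const] at h4
  have h5 := mul_le_mul_of_nonneg_left (ma_cb (gp h τ.1) (r := h' + 2) (by positivity))
    (show 0 ≤ h * (2 * (L * (2 * h) * h)) by positivity)
  have h6 := (abs_le.1 h4).2
  simp only [mol, Function.comp_apply] at h6 ⊢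
  linarith

theorem ma_dvg (hψ : Bump ψ h') (A : Finset Tri) (x w : Tri → ℂ) (c : ℝ) (y : ℂ) :
    dvg (fun y => ∑ τ ∈ A, (c * ψ (x τ - y)) • w τ) y =
      ∑ τ ∈ A, -c * (fderiv ℝ ψ (x τ - y) 1 * (w τ).re +
        fderiv ℝ ψ (x τ - y) Complex.I * (w τ).im) := by
  have h1 : HasFDerivAt (fun y => ∑ τ ∈ A, (c * ψ (x τ - y)) • w τ)
      (∑ τ ∈ A, (c • (fderiv ℝ ψ (x τ - y)).comp (-ContinuousLinearMap.id ℝ ℂ)).smulRight (w τ))
      y := by
    refine HasFDerivAt.fun_sum fun τ _ => HasFDerivAt.smul_const ?_ _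
    exact ((hψ.diff _).hasFDerivAt.comp y ((hasFDerivAt_id y).const_sub (x τ))).const_mul c
  unfold dvg
  rw [h1.fderiv]
  simp only [sum_apply, Complex.re_sum, Complex.im_sum,
    ← Finset.sum_add_distrib]
  refine Finset.sum_congr rfl fun τ _ => ?_
  simp
  ring

theorem ma_fst (A : Finset Tri) {g : Vt → ℝ} (hg : ∀ v, 0 ≤ g v) :
    ∑ τ ∈ A, g τ.1 ≤ 2 * ∑ v ∈ A.image Prod.fst, g v := by
  have h1 : A ⊆ A.image Prod.fst ×ˢ Finset.univ := fun τ hτ =>
    Finset.mem_product.2 ⟨Finset.mem_image_of_mem _ hτ, Finset.mem_univ _⟩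
  refine (Finset.sum_le_sum_of_subset_of_nonneg h1 fun τ _ _ => hg _).trans (le_of_eq ?_)
  rw [Finset.sum_product, Finset.mul_sum]
  simp

theorem mol_per (hψ : Bump ψ h') {ζ : ℝ} (hζ : 0 < ζ) : ∃ h₀ : ℝ, 0 < h₀ ∧
    ∀ h ∈ Ioc 0 h₀, ∀ (E U : Set ℂ) (A : Finset Tri), MeasurableSet E →
      (∀ τ ∈ A, cb (gp h τ.1) h' ⊆ U) →
      ENNReal.ofReal (∑ τ ∈ A, ‖Nt (gp h ∘ tv τ) (mol ψ h E ∘ tv τ)‖ / 2) ≤
        ENNReal.ofReal (1 + ζ) * per E U + ENNReal.ofReal (ζ * (A.card * h ^ 2)) := by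
  obtain ⟨L, hL, hl⟩ := hψ.lip
  obtain ⟨L', hL', hl'⟩ := hψ.tay
  have hp := hψ.pos
  refine ⟨min 1 (ζ / ((L + L') * 2 * (4 * (h' + 2) ^ 2))), by positivity,
    fun h hh E U A _ hU => ?_⟩
  have h1 : h ≤ 1 := hh.2.trans (min_le_left _ _)
  have h2 := hh.2.trans (min_le_right _ _)
  rw [le_div_iff₀ (by positivity)] at h2
  have h0 := hh.1
  have b1 : 0 ≤ L * (2 * h) * (4 * (h' + 2) ^ 2) := by positivity
  have b2 : 0 ≤ L' * (2 * h) * (4 * (h' + 2) ^ 2) := by positivity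
  choose u hu hu' using fun τ : Tri => ma_unit (Nt (gp h ∘ tv τ) (mol ψ h E ∘ tv τ))
  set c : ℝ := -(h ^ 2 / (2 * (1 + ζ))) with hc
  set w : Tri → ℂ := fun τ => ⟨(u τ).im, -(u τ).re⟩ with hw
  set φ : ℂ → ℂ := fun y => ∑ τ ∈ A, (c * ψ (gp h τ.1 - y)) • w τ with hφ
  have hw1 : ∀ τ, ‖w τ‖ ≤ 1 := fun τ => by
    refine le_trans (le_of_eq ?_) (hu τ)
    rw [Complex.norm_def, Complex.norm_def]
    simp [hw, Complex.normSq_apply, add_comm]
  have p1 : ContDiff ℝ 1 φ := ContDiff.sum fun τ _ =>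
    (contDiff_const.mul ((hψ.smooth.of_le (by norm_num)).comp
      (contDiff_const.sub contDiff_id))).smul contDiff_const
  have hK : IsCompact (⋃ τ ∈ A, cb (gp h τ.1) h') :=
    A.isCompact_biUnion fun τ _ => isCompact_closedBall _ _
  have p3 : tsupport φ ⊆ ⋃ τ ∈ A, cb (gp h τ.1) h' := by
    refine closure_minimal (fun y hy => ?_) hK.isClosed
    by_contra hn
    refine hy (Finset.sum_eq_zero fun τ hτ => ?_)
    have a1 : y ∉ cb (gp h τ.1) h' := fun a => hn (mem_biUnion hτ a)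
    rw [Metric.mem_closedBall, dist_comm, dist_eq_norm, not_le] at a1
    rw [hψ.supp _ a1.le, mul_zero, zero_smul]
  have p2 : HasCompactSupport φ := hK.of_isClosed_subset (isClosed_tsupport φ) p3
  have p4 : ∀ y, ‖φ y‖ ≤ 1 := fun y => by
    have a1 : ‖φ y‖ ≤ ∑ τ ∈ A, h ^ 2 * ψ (gp h τ.1 - y) / (2 * (1 + ζ)) := by
      refine (norm_sum_le _ _).trans (Finset.sum_le_sum fun τ _ => ?_)
      have a2 := hψ.nonneg (gp h τ.1 - y)
      rw [norm_smul, hc, neg_mul, norm_neg, Real.norm_of_nonneg (by positivity)]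
      refine (mul_le_of_le_one_right (by positivity) (hw1 τ)).trans (le_of_eq ?_)
      ring
    rw [← Finset.sum_div] at a1
    refine a1.trans ?_
    rw [div_le_one (by positivity)]
    have a2 := ma_fst A (g := fun v => h ^ 2 * ψ (gp h v - y)) fun v =>
      mul_nonneg (sq_nonneg h) (hψ.nonneg _)
    have a3 := ma_riemann hψ hL hl h0 h1 (A.image Prod.fst) y
    linarith
  have q1 : ENNReal.ofReal (∫ z in E, dvg φ z) ≤ per E U := by
    unfold per
    refine le_iSup_of_le φ (le_iSup_of_le p1 (le_iSup_of_le p2 (le_iSup_of_le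
      (p3.trans (iUnion₂_subset hU)) (le_iSup_of_le p4 le_rfl))))
  have i1 : ∀ τ : Tri, Integrable (fun y => h ^ 2 * (fderiv ℝ ψ (gp h τ.1 - y) 1 * (u τ).im -
      fderiv ℝ ψ (gp h τ.1 - y) Complex.I * (u τ).re)) (volume.restrict E) := fun τ =>
    ((((hψ.dint _ _).mul_const _).sub ((hψ.dint _ _).mul_const _)).const_mul _).integrableOn
  have q2 : 2 * ((1 + ζ) * ∫ z in E, dvg φ z) = ∑ τ ∈ A, ∫ y in E, h ^ 2 *
      (fderiv ℝ ψ (gp h τ.1 - y) 1 * (u τ).im -
        fderiv ℝ ψ (gp h τ.1 - y) Complex.I * (u τ).re) := by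
    rw [← integral_finsetSum _ fun τ _ => i1 τ, ← mul_assoc, ← integral_const_mul]
    refine integral_congr_ae (ae_of_all _ fun y => ?_)
    beta_reduce
    rw [hφ, ma_dvg hψ A (fun τ => gp h τ.1) w c y, Finset.mul_sum]
    refine Finset.sum_congr rfl fun τ _ => ?_
    simp only [hc, hw]
    field_simp
    ring
  have q3 : ∑ τ ∈ A, ‖Nt (gp h ∘ tv τ) (mol ψ h E ∘ tv τ)‖ / 2 ≤
      (1 + ζ) * (∫ z in E, dvg φ z) + ζ * (A.card * h ^ 2) := by
    have a1 := Finset.sum_le_sum fun τ (_ : τ ∈ A) => ma_tri hψ hL' hl' h0 h1 E τ (hu τ)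
    simp only [hu'] at a1
    rw [Finset.sum_add_distrib, ← q2, Finset.sum_const, nsmul_eq_mul] at a1
    rw [← Finset.sum_div]
    have a2 : L' * (2 * h) * (4 * (h' + 2) ^ 2) ≤ ζ := by linarith
    have a3 := mul_le_mul_of_nonneg_right a2 (show 0 ≤ (A.card : ℝ) * h ^ 2 by positivity)
    linarith
  refine (ENNReal.ofReal_le_ofReal q3).trans (ENNReal.ofReal_add_le.trans (add_le_add_left ?_ _))
  rw [ENNReal.ofReal_mul (by positivity)]
  exact mul_le_mul_right q1 _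

end Pool.Agent.MP_20201c_gt.H91
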