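import Pool.Agent.MP_20201c_gt.H91.MolA

/-! Uniform approximation on a compact family of cycles. -/

open MeasureTheory Set Filter Topology
open scoped ENNReal

namespace Pool.Agent.MP_20201c_gt.H91

namespace MolBA

/-- The area between a set and its translate. -/
noncomputable def tr (G : Set ℂ) (v : ℂ) : ℝ≥0∞ := volume (symmDiff G ((fun x => x - v) ⁻¹' G))

theorem tr_le (G G' : Set ℂ) (v : ℂ) :
    tr G v ≤ volume (symmDiff G G') + tr G' v + volume (symmDiff G G') := by
  have e : volume ((fun x => x - v) ⁻¹' symmDiff G G') = volume (symmDiff G G') := by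
    simp only [sub_eq_add_neg]
    exact measure_preimage_add_right _ _ _
  refine le_trans (measure_mono ?_) ((measure_union_le (symmDiff G G' ∪
    symmDiff G' ((fun x => x - v) ⁻¹' G')) ((fun x => x - v) ⁻¹' symmDiff G G')).trans
      (add_le_add (measure_union_le _ _) e.le))
  intro x
  simp only [mem_symmDiff, mem_union, mem_preimage]
  tauto

theorem tr_tendsto {G : Set ℂ} (hG : MeasurableSet G) (hf : volume G ≠ ∞) :
    Tendsto (tr G) (𝓝 0) (𝓝 0) := by
  let f : C(ℂ, C(ℂ, ℂ)) := ContinuousMap.curry ⟨fun q : ℂ × ℂ => q.2 - q.1, by fun_prop⟩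
  have h := tendsto_measure_symmDiff_preimage_nhds_zero (μ := volume) (ν := volume)
    (f.continuous.tendsto 0) (Eventually.of_forall fun v => measurePreserving_sub_right volume v)
    (measurePreserving_sub_right volume 0) hG.nullMeasurableSet hf
  refine h.congr fun v => ?_
  rw [tr, symmDiff_comm]
  congr 2
  ext x
  simp [f]

theorem tr_unif {Ω : Set ℂ} (hm : MeasurableSet Ω) (hb : Bornology.IsBounded Ω)
    {𝒦 : Set (Cyc Ω)} (hK : IsCompact 𝒦) {δ : ℝ≥0∞} (hδ : 0 < δ) :
    ∀ᶠ v in 𝓝 (0 : ℂ), ∀ (E : Set ℂ) (hE : MeasurableSet E), cyc Ω E hE ∈ 𝒦 →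
      tr (E ∩ Ω) v ≤ δ + δ + δ := by
  obtain ⟨t, ht, hc⟩ := EMetric.totallyBounded_iff.1 hK.totallyBounded δ hδ
  have fin : ∀ F : Set ℂ, volume (F ∩ Ω) ≠ ∞ := fun F =>
    ((measure_mono inter_subset_right).trans_lt hb.measure_lt_top).ne
  have key : ∀ y ∈ t, ∀ᶠ v in 𝓝 (0 : ℂ), ∀ (E : Set ℂ) (hE : MeasurableSet E),
      edist (cyc Ω E hE) y < δ → tr (E ∩ Ω) v ≤ δ + δ + δ := by
    intro y _
    obtain ⟨F, hF, rfl⟩ := cyc_surj y
    filter_upwards [ENNReal.tendsto_nhds_zero.1 (tr_tendsto (hF.inter hm) (fin F)) δ hδ,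
      ENNReal.tendsto_nhds_zero.1 (tr_tendsto (hF.compl.inter hm) (fin Fᶜ)) δ hδ] with v h1 h2
    intro E hE h
    rw [edist_cyc, fdist, min_lt_iff, inter_symmDiff_distrib_right,
      inter_symmDiff_distrib_right] at h
    rcases h with h | h
    · exact (tr_le _ _ v).trans (add_le_add (add_le_add h.le h1) h.le)
    · exact (tr_le _ _ v).trans (add_le_add (add_le_add h.le h2) h.le)
  filter_upwards [(eventually_all_finite ht).2 key] with v hv E hE h
  obtain ⟨y, hy, h'⟩ := mem_iUnion₂.1 (hc h)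
  exact hv y hy E hE h'

variable {ψ : ℂ → ℝ} {h' : ℝ}

theorem hcs (hψ : Bump ψ h') : HasCompactSupport ψ :=
  HasCompactSupport.intro (isCompact_closedBall (0 : ℂ) h') fun x hx =>
    hψ.supp x (by simpa using (not_le.1 (by simpa using hx)).le)

theorem intg (hψ : Bump ψ h') : Integrable ψ :=
  hψ.smooth.continuous.integrable_of_hasCompactSupport (hcs hψ)

theorem shift (hψ : Bump ψ h') {η : ℝ} (hη : 0 < η) :
    ∀ᶠ u in 𝓝 (0 : ℂ), ∫ z, |ψ (u + z) - ψ z| < η := by
  have hc := hψ.smooth.continuous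
  obtain ⟨C, hC⟩ := hc.bounded_above_of_compact_support (hcs hψ)
  have h := continuousAt_of_dominated (μ := (volume : Measure ℂ)) (x₀ := (0 : ℂ))
    (F := fun u z => |ψ (u + z) - ψ z|) (bound := (cb 0 (h' + 1)).indicator fun _ => C + C)
    (Eventually.of_forall fun u => Continuous.aestronglyMeasurable (by fun_prop)) ?_
    ((integrable_indicator_iff measurableSet_closedBall).2
      (integrableOn_const measure_closedBall_lt_top.ne))
    (Eventually.of_forall fun z => Continuous.continuousAt (by fun_prop))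
  · refine h.eventually (gt_mem_nhds ?_)
    simpa using hη
  · filter_upwards [Metric.closedBall_mem_nhds (0 : ℂ) one_pos] with u hu
    refine Eventually.of_forall fun z => ?_
    rw [Real.norm_eq_abs, abs_abs]
    by_cases hz : z ∈ cb 0 (h' + 1)
    · rw [indicator_of_mem hz]
      exact (abs_sub _ _).trans (add_le_add (hC _) (hC _))
    · rw [indicator_of_notMem hz]
      have h1 : h' + 1 < ‖z‖ := by simpa using hz
      have h2 : ‖u‖ ≤ 1 := by simpa using hu
      have h3 : ‖z‖ ≤ ‖u + z‖ + ‖u‖ := by simpa using norm_sub_le (u + z) u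
      rw [hψ.supp z (by linarith), hψ.supp (u + z) (by linarith)]
      simp

theorem conv_shift (hψ : Bump ψ h') (E : Set ℂ) (x p : ℂ) :
    |(∫ y in E, ψ (x - y)) - ∫ y in E, ψ (p - y)| ≤ ∫ z, |ψ (p - x + z) - ψ z| := by
  have h1 : Integrable fun y => ψ (x - y) := (intg hψ).comp_sub_left x
  have h2 : Integrable fun y => ψ (p - y) := (intg hψ).comp_sub_left p
  rw [abs_sub_comm, ← integral_sub h2.integrableOn h1.integrableOn,
    ← integral_sub_left_eq_self (fun z => |ψ (p - x + z) - ψ z|) volume x]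
  simp only [sub_add_sub_cancel]
  exact abs_integral_le_integral_abs.trans
    (setIntegral_le_integral (h2.sub h1).abs (Eventually.of_forall fun _ => abs_nonneg _))

/-- The integrand of the local oscillation. -/
noncomputable def osc (ψ : ℂ → ℝ) (G : Set ℂ) (x v : ℂ) : ℝ≥0∞ :=
  (symmDiff G ((fun x => x - v) ⁻¹' G)).indicator (fun _ => ENNReal.ofReal (ψ v)) x

theorem osc_meas (hψ : Bump ψ h') {G : Set ℂ} (hG : MeasurableSet G) :
    Measurable (Function.uncurry (osc ψ G)) := by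
  have : Function.uncurry (osc ψ G) = (symmDiff (Prod.fst ⁻¹' G)
      ((fun q : ℂ × ℂ => q.1 - q.2) ⁻¹' G)).indicator fun q => ENNReal.ofReal (ψ q.2) := rfl
  rw [this]
  exact Measurable.indicator (hψ.smooth.continuous.measurable.comp measurable_snd).ennreal_ofReal
    ((measurable_fst hG).symmDiff ((measurable_fst.sub measurable_snd) hG))

theorem osc_int (hψ : Bump ψ h') {G : Set ℂ} (hG : MeasurableSet G) {ε : ℝ≥0∞}
    (h : ∀ v, ‖v‖ < h' → tr G v ≤ ε) : ∫⁻ x, ∫⁻ v, osc ψ G x v ≤ ε := by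
  rw [lintegral_lintegral_swap (osc_meas hψ hG).aemeasurable]
  calc ∫⁻ v, ∫⁻ x, osc ψ G x v ≤ ∫⁻ v, ENNReal.ofReal (ψ v) * ε := by
        refine lintegral_mono fun v => ?_
        simp only [osc]
        rw [lintegral_indicator_const (hG.symmDiff ((measurable_sub_const v) hG))]
        by_cases hv : ‖v‖ < h'
        · exact mul_le_mul_right (h v hv) _
        · simp [hψ.supp v (not_lt.1 hv)]
    _ = ε := by
        rw [lintegral_mul_const _ hψ.smooth.continuous.measurable.ennreal_ofReal,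
          ← ofReal_integral_eq_lintegral_ofReal (intg hψ) (Eventually.of_forall hψ.nonneg), hψ.int]
        simp

theorem conv_le (hψ : Bump ψ h') (h0 : 0 < h') {Ω E : Set ℂ} (hE : MeasurableSet E) {x : ℂ}
    (hx : cb x (2 * h') ⊆ Ω) :
    ENNReal.ofReal |E.indicator (fun _ => (1 : ℝ)) x - ∫ y in E, ψ (x - y)| ≤
      ∫⁻ v, osc ψ (E ∩ Ω) x v := by
  have h1 : Integrable (E.indicator fun y => ψ (x - y)) :=
    ((intg hψ).comp_sub_left x).indicator hE
  have e : E.indicator (fun _ => (1 : ℝ)) x - ∫ y in E, ψ (x - y) =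
      ∫ v, (E.indicator (fun _ => (1 : ℝ)) x * ψ v - E.indicator (fun y => ψ (x - y)) (x - v)) := by
    rw [integral_sub ((intg hψ).const_mul _) (h1.comp_sub_left x), integral_const_mul, hψ.int,
      integral_sub_left_eq_self (E.indicator fun y => ψ (x - y)) volume x, integral_indicator hE,
      mul_one]
  rw [e, ← Real.enorm_eq_ofReal_abs]
  refine (enorm_integral_le_lintegral_enorm _).trans (lintegral_mono fun v => ?_)
  by_cases hv : ‖v‖ < h'
  · have a1 : x ∈ Ω := hx (Metric.mem_closedBall_self (by linarith))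
    have a2 : x - v ∈ Ω := hx (by simp; linarith)
    by_cases b1 : x ∈ E <;> by_cases b2 : x - v ∈ E <;>
      simp [osc, indicator, mem_symmDiff, a1, a2, b1, b2, Real.enorm_eq_ofReal (hψ.nonneg v)]
  · simp [indicator, hψ.supp v (not_lt.1 hv)]

theorem gp_vtx {h : ℝ} (hh : 0 < h) (x : ℂ) : ‖gp h (vtx h x) - x‖ ≤ 2 * h := by
  have key : ∀ a : ℝ, |h * (⌊a / h⌋ : ℤ) - a| ≤ h := fun a => by
    have h1 := Int.floor_le (a / h)
    have h2 := Int.lt_floor_add_one (a / h)
    rw [le_div_iff₀ hh] at h1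
    rw [div_lt_iff₀ hh] at h2
    rw [abs_le]
    constructor <;> linarith
  refine (Complex.norm_le_abs_re_add_abs_im _).trans ?_
  rw [two_mul]
  exact add_le_add (key x.re) (key x.im)

end MolBA

open MolBA in
theorem mol_l1 {Ω : Set ℂ} (hm : MeasurableSet Ω) (hb : Bornology.IsBounded Ω)
    {𝒦 : Set (Cyc Ω)} (hK : IsCompact 𝒦) {ζ : ℝ} (hζ : 0 < ζ) : ∃ h₁ : ℝ, 0 < h₁ ∧
    ∀ h' ∈ Ioc 0 h₁, ∀ ψ, Bump ψ h' → ∃ h₀ : ℝ, 0 < h₀ ∧ ∀ h ∈ Ioc 0 h₀,
      ∀ (E : Set ℂ) (hE : MeasurableSet E), cyc Ω E hE ∈ 𝒦 →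
        volume {x | cb x (2 * h') ⊆ Ω ∧
          ζ ≤ |E.indicator (fun _ => (1 : ℝ)) x - mol ψ h E (vtx h x)|} ≤ ENNReal.ofReal ζ := by
  have hδ : 0 < ζ / 2 * ζ / 3 := by positivity
  obtain ⟨h₁, h1, H1⟩ := Metric.eventually_nhds_iff.1
    (tr_unif hm hb hK (ENNReal.ofReal_pos.2 hδ))
  refine ⟨h₁, h1, fun h' hh' ψ hψ => ?_⟩
  obtain ⟨r, hr, H2⟩ := Metric.eventually_nhds_iff.1 (shift hψ (half_pos hζ))
  refine ⟨r / 3, by positivity, fun h hh E hE hEK => ?_⟩
  have hG := hE.inter hm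
  have a1 := osc_int hψ hG fun v hv => H1 (by simpa using hv.trans_le hh'.2) E hE hEK
  have a2 := mul_meas_ge_le_lintegral (μ := volume)
    ((osc_meas hψ hG).lintegral_prod_right (ν := volume)) (ENNReal.ofReal (ζ / 2))
  have a3 := a2.trans a1
  rw [← ENNReal.ofReal_add hδ.le hδ.le, ← ENNReal.ofReal_add (by positivity) hδ.le, add_thirds,
    ENNReal.ofReal_mul (half_pos hζ).le, ENNReal.mul_le_mul_iff_right
      (ENNReal.ofReal_pos.2 (half_pos hζ)).ne' ENNReal.ofReal_ne_top] at a3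
  refine le_trans (measure_mono fun x hx => ?_) a3
  refine le_trans (ENNReal.ofReal_le_ofReal ?_) (conv_le hψ hh'.1 hE hx.1)
  have b1 := (conv_shift hψ E x (gp h (vtx h x))).trans_lt (H2 (by
    rw [dist_zero_right]
    linarith [gp_vtx hh.1 x, hh.2]))
  have b2 := hx.2.trans (abs_sub_le _ (∫ y in E, ψ (x - y)) _)
  rw [mol] at b2
  linarith

end Pool.Agent.MP_20201c_gt.H91
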