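import Pool.Agent.MP_20201c_gt.H91.DI
import Pool.Agent.MP_20201c_gt.H91.MolB
import Pool.Agent.MP_20201c_gt.H91.Mesh

/-! Auxiliary estimates for the discretisation. -/

open MeasureTheory Set Filter Topology
open scoped ENNReal

namespace Pool.Agent.MP_20201c_gt.H91

namespace DS

theorem exists_a (t₀ V C D : ℝ) {ε₁ ζ : ℝ} (hε₁ : 0 < ε₁) (hζ : 0 < ζ) :
    ∃ a : ℝ, 0 < a ∧ a ≤ 1 / 4 ∧
      (1 + 2 * a) / (1 - 2 * a) * ((1 + a) * t₀ + a * V) + a + C * a ≤ t₀ + ε₁ ∧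
      D * (4 * ((1 + 2 * a) / (1 - 2 * a) * ((1 + a) * a + a * V)) + a + a) ≤ ζ := by
  have c1 : ContinuousAt (fun a : ℝ =>
      (1 + 2 * a) / (1 - 2 * a) * ((1 + a) * t₀ + a * V) + a + C * a) 0 := by
    fun_prop (disch := norm_num)
  have c2 : ContinuousAt (fun a : ℝ =>
      D * (4 * ((1 + 2 * a) / (1 - 2 * a) * ((1 + a) * a + a * V)) + a + a)) 0 := by
    fun_prop (disch := norm_num)
  have e1 := c1.eventually_lt (continuousAt_const (y := t₀ + ε₁)) (by simpa using hε₁)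
  have e2 := c2.eventually_lt (continuousAt_const (y := ζ)) (by simpa using hζ)
  have e3 : ∀ᶠ a : ℝ in 𝓝 0, a < 1 / 4 := eventually_lt_nhds (by norm_num)
  obtain ⟨a, ⟨h1, h2, h3⟩, h4⟩ := (((e1.and (e2.and e3)).filter_mono
    (nhdsWithin_le_nhds (s := Ioi 0))).and self_mem_nhdsWithin).exists
  exact ⟨a, h4, h3.le, h1.le, h2.le⟩

theorem floor_near {h : ℝ} (hh : 0 < h) (x : ℝ) : |x - h * (⌊x / h⌋ : ℤ)| ≤ h := by
  have h1 := Int.floor_le (x / h)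
  have h2 := Int.lt_floor_add_one (x / h)
  rw [le_div_iff₀ hh] at h1
  rw [div_lt_iff₀ hh] at h2
  rw [abs_le]; constructor <;> nlinarith

theorem vtx_near {h : ℝ} (hh : 0 < h) (x : ℂ) : ‖x - gp h (vtx h x)‖ ≤ 2 * h := by
  refine (Complex.norm_le_abs_re_add_abs_im _).trans ?_
  have h1 := floor_near hh x.re
  have h2 := floor_near hh x.im
  simp only [gp, vtx, Complex.sub_re, Complex.sub_im]
  linarith

theorem gp_near {h : ℝ} (hh : 0 < h) {v v' : Vt} {k : ℝ} (h1 : |(v.1 : ℝ) - v'.1| ≤ k)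
    (h2 : |(v.2 : ℝ) - v'.2| ≤ k) : ‖gp h v - gp h v'‖ ≤ 2 * (k * h) := by
  refine (Complex.norm_le_abs_re_add_abs_im _).trans ?_
  simp only [gp, Complex.sub_re, Complex.sub_im, ← mul_sub, abs_mul, abs_of_pos hh]
  nlinarith

theorem tv_near {h : ℝ} (hh : 0 < h) (τ : Tri) (i : Fin 3) :
    ‖gp h (tv τ i) - gp h τ.1‖ ≤ 2 * h := by
  have := gp_near hh (v := tv τ i) (v' := τ.1) (k := 1) ?_ ?_
  · linarith
  all_goals obtain ⟨v, _ | _⟩ := τ <;> fin_cases i <;> simp [tv]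

theorem tv_zero (τ : Tri) : tv τ 0 = τ.1 := by
  obtain ⟨v, _ | _⟩ := τ <;> simp [tv]

theorem ediv_near {m : ℕ} (hm : 0 < m) {x y θ : ℤ} (h : (x - θ) / m = (y - θ) / m) :
    |(x : ℝ) - y| ≤ m := by
  have hm' : (0 : ℤ) < m := by exact_mod_cast hm
  have h1 := Int.emod_add_mul_ediv (x - θ) m
  have h2 := Int.emod_add_mul_ediv (y - θ) m
  have h3 := Int.emod_nonneg (x - θ) hm'.ne'
  have h4 := Int.emod_nonneg (y - θ) hm'.ne'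
  have h5 := Int.emod_lt_of_pos (x - θ) hm'
  have h6 := Int.emod_lt_of_pos (y - θ) hm'
  rw [h] at h1
  have : |x - y| ≤ (m : ℤ) := by rw [abs_le]; constructor <;> omega
  exact_mod_cast this

theorem cb_sub {x y : ℂ} {r s t : ℝ} (h : ‖x - y‖ ≤ s) (ht : r + s ≤ t) : cb x r ⊆ cb y t :=
  Metric.closedBall_subset_closedBall' (by rw [dist_eq_norm]; linarith)

/-- The bad set of the mollification. -/
def Bad (Ω : Set ℂ) (ψ : ℂ → ℝ) (h h' z : ℝ) (E : Set ℂ) : Set ℂ :=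
  {x | cb x (2 * h') ⊆ Ω ∧ z ≤ |E.indicator (fun _ => (1 : ℝ)) x - mol ψ h E (vtx h x)|}

variable {Ω : Set ℂ} {ψ : ℂ → ℝ} {h h' z a : ℝ} {𝒯 : Finset Tri} {E : Set ℂ}

theorem sq_in (hh : 0 < h) (hhh : h ≤ h') {τ : Tri} (hT : cb (gp h τ.1) (4 * h') ⊆ Ω) {x : ℂ}
    (hx : τ.1 = vtx h x) : cb x (2 * h') ⊆ Ω := by
  refine (cb_sub (hx ▸ vtx_near hh x) (by linarith)).trans hT

theorem unc_card (hh : 0 < h) (hhh : h ≤ h') (hT : ∀ τ ∈ 𝒯, cb (gp h τ.1) (4 * h') ⊆ Ω)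
    (hz0 : 0 ≤ z) (hz : z ≤ a / 4)
    (hnb : ∀ (τ : Tri) (i : Fin 3), |mol ψ h E (tv τ i) - mol ψ h E τ.1| ≤ a / 4)
    (hb : volume (Bad Ω ψ h h' z E) ≤ ENNReal.ofReal z) :
    (Unc 𝒯 (mol ψ h E) (a / 2)).card * h ^ 2 ≤ 2 * z := by
  have h1 := sq_count hh (Unc 𝒯 (mol ψ h E) (a / 2)) (B := Bad Ω ψ h h' z E) (by
    intro τ hτ x hx
    simp only [Unc, Finset.mem_filter] at hτ
    obtain ⟨hτ, hu⟩ := hτ
    push Not at hu
    obtain ⟨⟨i, hi⟩, j, hj⟩ := hu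
    have a1 := abs_le.1 (hnb τ i)
    have a2 := abs_le.1 (hnb τ j)
    refine ⟨sq_in hh hhh (hT τ hτ) hx.symm, ?_⟩
    rw [hx, le_abs]
    by_cases hE : x ∈ E
    · left; rw [indicator_of_mem hE]; linarith
    · right; rw [indicator_of_notMem hE]; linarith)
  have h2 : (2 : ℝ≥0∞) * ENNReal.ofReal z = ENNReal.ofReal (2 * z) := by
    rw [ENNReal.ofReal_mul (by norm_num)]; simp
  have h3 := h1.trans ((mul_le_mul_right hb 2).trans h2.le)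
  exact (ENNReal.ofReal_le_ofReal_iff (by linarith)).1 h3

theorem area {ρ : ℂ → ℝ} {β₁ d : ℝ} {pos : Vt → ℂ} {S : St} {E' : Set ℂ} (hh : 0 < h)
    (hhh : h ≤ h') (hT : ∀ τ ∈ 𝒯, cb (gp h τ.1) (4 * h') ⊆ {x | 0 < ρ x})
    (hz0 : 0 ≤ z) (hz : z ≤ a / 4) (ha : a ≤ 1 / 4) (hzd : z ≤ d)
    (hs : volume {x | 0 < ρ x ∧ ρ x < 2 * β₁} ≤ ENNReal.ofReal d)
    (hb : volume (Bad {x | 0 < ρ x} ψ h h' z E) ≤ ENNReal.ofReal z)
    (hu : (Unc 𝒯 (mol ψ h E) (a / 2)).card * h ^ 2 ≤ 2 * z)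
    (hae : ∀ᵐ x : ℂ, 2 * β₁ ≤ ρ x → ∃ τ₀ ∈ 𝒯, τ₀.1 = vtx h x ∧ x ∈ hull pos τ₀ ∧
      ∀ τ ∈ 𝒯, τ ≠ τ₀ → x ∉ hull pos τ)
    (hS : Sand 𝒯 (mol ψ h E) (a / 2) S)
    (hE' : ∀ x, ∀ τ₀ ∈ 𝒯, x ∈ hull pos τ₀ → (∀ τ ∈ 𝒯, τ ≠ τ₀ → x ∉ hull pos τ) →
      ((∀ i, 0 < S τ₀ (tv τ₀ i)) → x ∈ E') ∧ ((∀ i, S τ₀ (tv τ₀ i) < 0) → x ∉ E')) :
    volume (symmDiff E' E ∩ {x | 0 < ρ x}) ≤ ENNReal.ofReal (4 * d) := by
  classical
  have h1 := sq_cover hh (Unc 𝒯 (mol ψ h E) (a / 2))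
    (B := {x | ∃ τ ∈ Unc 𝒯 (mol ψ h E) (a / 2), τ.1 = vtx h x}) (ae_of_all _ fun x hx => hx)
  have h2 : volume (symmDiff E' E ∩ {x | 0 < ρ x}) ≤ volume ({x | 0 < ρ x ∧ ρ x < 2 * β₁} ∪
      ({x | ∃ τ ∈ Unc 𝒯 (mol ψ h E) (a / 2), τ.1 = vtx h x} ∪ Bad {x | 0 < ρ x} ψ h h' z E)) := by
    refine measure_mono_ae ?_
    filter_upwards [hae] with x hx
    rintro ⟨hd, hΩ⟩
    by_cases h3 : ρ x < 2 * β₁
    · exact Or.inl ⟨hΩ, h3⟩
    obtain ⟨τ, hτ, e1, e2, e3⟩ := hx (not_lt.1 h3)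
    by_cases h4 : τ ∈ Unc 𝒯 (mol ψ h E) (a / 2)
    · exact Or.inr (Or.inl ⟨τ, h4, e1⟩)
    refine Or.inr (Or.inr ⟨sq_in hh hhh (hT τ hτ) e1, ?_⟩)
    simp only [Unc, Finset.mem_filter, hτ, true_and, not_not] at h4
    obtain ⟨p1, p2⟩ := hE' x τ hτ e2 e3
    rw [← e1, le_abs]
    rcases h4 with h4 | h4
    · have q1 := p1 fun i => (hS.2 τ hτ i).2.1 (h4 i)
      have q2 : x ∉ E := by
        rcases mem_symmDiff.1 hd with q | q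
        · exact q.2
        · exact absurd q1 q.2
      have := h4 0
      rw [tv_zero] at this
      right; rw [indicator_of_notMem q2]; linarith
    · have q1 := p2 fun i => (hS.2 τ hτ i).2.2 (h4 i)
      have q2 : x ∈ E := by
        rcases mem_symmDiff.1 hd with q | q
        · exact absurd q.1 q1
        · exact q.1
      have := h4 0
      rw [tv_zero] at this
      left; rw [indicator_of_mem q2]; linarith
  refine h2.trans ((measure_union_le _ _).trans ?_)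
  refine (add_le_add hs ((measure_union_le _ _).trans
    (add_le_add (h1.trans (ENNReal.ofReal_le_ofReal hu)) hb))).trans ?_
  rw [← ENNReal.ofReal_add (by linarith) hz0, ← ENNReal.ofReal_add (by linarith) (by linarith)]
  exact ENNReal.ofReal_le_ofReal (by linarith)

theorem unc_ne {ρ : ℂ → ℝ} {β₁ d : ℝ} {f : Vt → ℝ} {η : ℝ} (hh : 0 < h) (hd : 0 < d)
    (hv : ENNReal.ofReal (5 * d) ≤ volume {x | 0 < ρ x})
    (hs : volume {x | 0 < ρ x ∧ ρ x < 2 * β₁} ≤ ENNReal.ofReal d)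
    (hu : (Unc 𝒯 f η).card * h ^ 2 ≤ 2 * d)
    (hae : ∀ᵐ x : ℂ, 2 * β₁ ≤ ρ x → ∃ τ₀ ∈ 𝒯, τ₀.1 = vtx h x) : Unc 𝒯 f η ≠ 𝒯 := by
  intro he
  rw [he] at hu
  have h1 := sq_cover hh 𝒯 (B := {x | 2 * β₁ ≤ ρ x}) hae
  have h2 : volume {x | 0 < ρ x} ≤
      volume ({x | 0 < ρ x ∧ ρ x < 2 * β₁} ∪ {x | 2 * β₁ ≤ ρ x}) := by
    refine measure_mono fun x hx => ?_
    by_cases h3 : ρ x < 2 * β₁
    · exact Or.inl ⟨hx, h3⟩
    · exact Or.inr (not_lt.1 h3)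
  have h3 := hv.trans (h2.trans ((measure_union_le _ _).trans
    (add_le_add hs (h1.trans (ENNReal.ofReal_le_ofReal hu)))))
  rw [← ENNReal.ofReal_add hd.le (by linarith), ENNReal.ofReal_le_ofReal_iff (by linarith)] at h3
  linarith

theorem real_of_per {x a t y V : ℝ} {P : ℝ≥0∞} (ha : 0 ≤ a) (ht : 0 ≤ t) (hy0 : 0 ≤ y)
    (hy : y ≤ V) (hP : P ≤ ENNReal.ofReal t)
    (h : ENNReal.ofReal x ≤ ENNReal.ofReal (1 + a) * P + ENNReal.ofReal (a * y)) :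
    x ≤ (1 + a) * t + a * V := by
  have h1 := h.trans (add_le_add (mul_le_mul_right hP _)
    (ENNReal.ofReal_le_ofReal (mul_le_mul_of_nonneg_left hy ha)))
  have hV : 0 ≤ V := hy0.trans hy
  rw [← ENNReal.ofReal_mul (by linarith), ← ENNReal.ofReal_add (by positivity) (by positivity),
    ENNReal.ofReal_le_ofReal_iff (by positivity)] at h1
  exact h1

theorem choose_rep (Ω : Set ℂ) : ∃ (E : Sx (Cyc Ω) → Set ℂ) (hE : ∀ s, MeasurableSet (E s)),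
    ∀ s, 0 < s.1 → ∃ x, s.2 x = cyc Ω (E s) (hE s) := by
  have : ∀ s : Sx (Cyc Ω), ∃ (E : Set ℂ) (hE : MeasurableSet E),
      0 < s.1 → ∃ x, s.2 x = cyc Ω E hE := by
    rintro ⟨_ | n, g⟩
    · exact ⟨∅, MeasurableSet.empty, fun h => absurd h (lt_irrefl 0)⟩
    · obtain ⟨E, hE, h⟩ := cyc_surj (g ⟨Pi.single 0 1, single_mem_stdSimplex ℝ 0⟩)
      exact ⟨E, hE, fun _ => ⟨_, h⟩⟩
  choose E hE h using this
  exact ⟨E, hE, h⟩

end DS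

end Pool.Agent.MP_20201c_gt.H91
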