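import Pool.Agent.MP_20201c_gt.H91.Defs3
import Pool.Agent.MP_20201c_gt.H91.KitM4

/-! Small pieces of a family are fine. -/

open MeasureTheory Set Filter Topology
open scoped ENNReal

namespace Pool.Agent.MP_20201c_gt.H91

theorem fine_sum {m : ℕ} {η : ℝ} (hη : 0 < η) (f g : Fin m → ℝ)
    (hf : ∀ i, f i ≤ η / (2 * m + 1)) (hg : ∀ i, g i ≤ η / (2 * m + 1)) :
    ∑ i, f i + ∑ i, g i ≤ η := by
  have h1 := Finset.sum_le_sum fun i (_ : i ∈ Finset.univ) => hf i
  have h2 := Finset.sum_le_sum fun i (_ : i ∈ Finset.univ) => hg i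
  simp only [Finset.sum_const, Finset.card_univ, Fintype.card_fin, nsmul_eq_mul] at h1 h2
  have h3 : η / (2 * m + 1) * (2 * m + 1) = η := div_mul_cancel₀ _ (by positivity)
  have h4 : 0 < η / (2 * m + 1) := by positivity
  nlinarith

theorem fine_small {W : Set ℂ} (hW : Convex ℝ W) (hWc : IsCompact W) {η r₀ : ℝ} (hη : 0 < η)
    (hr : 0 < r₀) {n : ℕ} {g : Sm n → Ms} (hg : Fam W g) :
    ∃ δ : ℝ, 0 < δ ∧ ∀ (k : ℕ) (φ : Sm k → Sm n), Continuous φ →
      (∀ x x', dist (φ x) (φ x') ≤ δ) → Fine W η r₀ (g ∘ φ) := by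
  obtain ⟨δ₁, h₁, u₁⟩ := Metric.uniformContinuous_iff.1
    (CompactSpace.uniformContinuous_of_continuous hg.continuous_real) η hη
  obtain ⟨cA, cB, c1, c2, ⟨hA, hB, -, -⟩, hc⟩ := exists_cut
  obtain ⟨m, a, b, hab, hm, e⟩ := hg
  let A : ℂ → ℝ → Sm n → Fin m → ℂ := fun z R y i => cA (z, R, a i y, b i y)
  let B : ℂ → ℝ → Sm n → Fin m → ℂ := fun z R y i => cB (z, R, a i y, b i y)
  let K : Set (ℂ × ℝ × Sm n) := W ×ˢ Icc r₀ 1 ×ˢ univ
  have hK : IsCompact K := hWc.prod (isCompact_Icc.prod isCompact_univ)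
  have ct : ∀ i, Continuous fun q : ℂ × ℝ × Sm n => (q.1, q.2.1, a i q.2.2, b i q.2.2) := fun i =>
    continuous_fst.prodMk (continuous_snd.fst.prodMk
      (((hab i).1.comp continuous_snd.snd).prodMk ((hab i).2.comp continuous_snd.snd)))
  have cF : ContinuousOn (fun q : ℂ × ℝ × Sm n => (A q.1 q.2.1 q.2.2, B q.1 q.2.1 q.2.2)) K :=
    (continuousOn_pi.2 fun i => hA.comp (ct i).continuousOn fun q hq => hr.trans_le hq.2.1.1).prodMk
      (continuousOn_pi.2 fun i => hB.comp (ct i).continuousOn fun q hq => hr.trans_le hq.2.1.1)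
  obtain ⟨δ₂, h₂, u₂⟩ := Metric.uniformContinuousOn_iff.1
    (hK.uniformContinuousOn_of_continuous cF) (η / (2 * m + 1)) (by positivity)
  refine ⟨min δ₁ δ₂ / 2, by positivity, fun k φ hφ hd => ⟨fun y y' => ?_, fun z hz R h0 h1 => ?_⟩⟩
  · have : dist (φ y) (φ y') < δ₁ := by
      have := hd y y'; have := min_le_left δ₁ δ₂; linarith
    exact (u₁ this).le
  have hR : 0 < R := hr.trans_le h0
  have cl : ∀ y y' i, ‖A z R (φ y') i - A z R (φ y) i‖ ≤ η / (2 * m + 1) ∧
      ‖B z R (φ y') i - B z R (φ y) i‖ ≤ η / (2 * m + 1) := fun y y' i => by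
    have d : dist ((z, R, φ y') : ℂ × ℝ × Sm n) (z, R, φ y) < δ₂ := by
      have := hd y' y; have := min_le_right δ₁ δ₂
      simp only [Prod.dist_eq, dist_self, max_lt_iff]
      exact ⟨h₂, h₂, by linarith⟩
    have := u₂ (z, R, φ y') ⟨hz, ⟨h0, h1⟩, mem_univ _⟩ (z, R, φ y) ⟨hz, ⟨h0, h1⟩, mem_univ _⟩ d
    rw [Prod.dist_eq, max_lt_iff] at this
    rw [← dist_eq_norm, ← dist_eq_norm]
    exact ⟨(dist_le_pi_dist _ _ i).trans this.1.le, (dist_le_pi_dist _ _ i).trans this.2.le⟩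
  have rs : ∀ y, (g y).restrict (cb z R) = msr (A z R y) (B z R y) := fun y => by
    rw [e y, M4.restrict_msr]
    exact Finset.sum_congr rfl fun i _ => (hc _ _ _ _ hR).2.2.2.2.1
  have sub : ∀ i y, convexHull ℝ {z, a i y, b i y} ⊆ W := fun i y =>
    convexHull_min (insert_subset hz (insert_subset (hm i y).1 (singleton_subset_iff.2 (hm i y).2)))
      hW
  have mA : ∀ y i, A z R y i ∈ W ∩ cb z R := fun y i =>
    ⟨sub i y (hc _ _ _ _ hR).1.2, (hc _ _ _ _ hR).1.1⟩
  have mB : ∀ y i, B z R y i ∈ W ∩ cb z R := fun y i =>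
    ⟨sub i y (hc _ _ _ _ hR).2.1.2, (hc _ _ _ _ hR).2.1.1⟩
  have c0 : ∀ i, Continuous fun y => (z, R, a i y, b i y) := fun i =>
    continuous_const.prodMk (continuous_const.prodMk ((hab i).1.prodMk (hab i).2))
  have kA : ∀ i, Continuous fun y => A z R (φ y) i := fun i =>
    (hA.comp_continuous (c0 i) fun _ => hR).comp hφ
  have kB : ∀ i, Continuous fun y => B z R (φ y) i := fun i =>
    (hB.comp_continuous (c0 i) fun _ => hR).comp hφ
  clear_value A B
  refine ⟨fun y y' => ?_, fun p => msr (A z R (φ p.1)) (A z R (φ p.2)) +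
    msr (B z R (φ p.1)) (B z R (φ p.2)), ?_, fun y y' => ⟨?_, fun x => ?_⟩⟩
  · simp only [Function.comp]
    rw [← measureReal_restrict_apply_univ, ← measureReal_restrict_apply_univ (μ := g (φ y')), rs,
      rs, msr_real_univ, msr_real_univ, ← Finset.sum_sub_distrib]
    refine (Finset.abs_sum_le_sum_abs _ _).trans (le_trans ?_ (fine_sum hη _ _
      (fun i => (cl y y' i).1) fun i => (cl y y' i).2))
    rw [← Finset.sum_add_distrib]
    refine Finset.sum_le_sum fun i _ => (abs_norm_sub_norm_le _ _).trans ?_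
    refine le_trans (le_of_eq ?_) (norm_sub_le (A z R (φ y') i - A z R (φ y) i)
      (B z R (φ y') i - B z R (φ y) i))
    congr 1
    ring
  · refine Fam.add ⟨m, fun i p => A z R (φ p.1) i, fun i p => A z R (φ p.2) i, fun i =>
      ⟨(kA i).comp continuous_fst, (kA i).comp continuous_snd⟩, fun i p => ⟨mA _ i, mA _ i⟩,
      fun _ => rfl⟩ ⟨m, fun i p => B z R (φ p.1) i, fun i p => B z R (φ p.2) i, fun i =>
      ⟨(kB i).comp continuous_fst, (kB i).comp continuous_snd⟩, fun i p => ⟨mB _ i, mB _ i⟩,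
      fun _ => rfl⟩
  · have := Poly.finite (W := univ) ⟨m, A z R (φ y), A z R (φ y'), by simp, rfl⟩
    have := Poly.finite (W := univ) ⟨m, B z R (φ y), B z R (φ y'), by simp, rfl⟩
    rw [measureReal_add_apply, msr_real_univ, msr_real_univ]
    exact fine_sum hη _ _ (fun i => (cl y y' i).1) fun i => (cl y y' i).2
  · simp only [Function.comp]
    rw [bdy_add (W := univ) (W' := univ) ⟨m, _, _, by simp, rfl⟩ ⟨m, _, _, by simp, rfl⟩, rs, rs]
    simp only [bdy_msr]
    ring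

end Pool.Agent.MP_20201c_gt.H91
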