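import Pool.Agent.MP_20201c_gt.H91.Step
import Pool.Agent.MP_20201c_gt.H91.Fine

/-! The deformation theorem. -/

open MeasureTheory Set Filter Topology
open scoped ENNReal

namespace Pool.Agent.MP_20201c_gt.H91

namespace Eng

theorem win_mono {N : ℕ} {G W : Set ℂ} {T : Ms} {y : ℂ} {R g g' : ℝ} (h : Win N G W T y R g)
    (hg : g' ≤ g) : Win N G W T y R g' :=
  Acyc.mono h le_rfl (by linarith)

theorem idx_mono {G W : Set ℂ} {T : Ms} {y : ℂ} {R g g' : ℝ} (h : Idx G W T y R g)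
    (hg : g' ≤ g) : Idx G W T y R g' :=
  ⟨h.1, IP.mono_gain h.2 hg⟩

/-- Pigeonhole principle for the proper subsets of a face. -/
theorem pigeon {N n : ℕ} (hn : n ≤ N) (σ : Finset (Fin n))
    (P : Fin (2 ^ N) → Finset (Fin n) → Prop)
    (h : ∀ i j σ', σ' ⊂ σ → i ≠ j → P i σ' ∨ P j σ') : ∃ i, ∀ σ' ⊂ σ, P i σ' := by
  classical
  by_contra hc
  have hc' : ∀ i, ∃ σ', σ' ⊂ σ ∧ ¬ P i σ' := by
    intro i
    by_contra h1
    exact hc ⟨i, fun σ' h2 => by_contra fun h3 => h1 ⟨σ', h2, h3⟩⟩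
  choose f hf1 hf2 using hc'
  have hcard : (Finset.univ.erase σ).card < (Finset.univ : Finset (Fin (2 ^ N))).card := by
    rw [Finset.card_erase_of_mem (Finset.mem_univ σ), Finset.card_univ, Finset.card_univ,
      Fintype.card_finset, Fintype.card_fin, Fintype.card_fin]
    have h1 : 2 ^ n ≤ 2 ^ N := Nat.pow_le_pow_right (by norm_num) hn
    have h2 : 0 < 2 ^ n := Nat.pos_of_ne_zero (by positivity)
    omega
  obtain ⟨i, -, j, -, hij, hfe⟩ := Finset.exists_ne_map_eq_of_card_lt_of_maps_to hcard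
    (f := f) fun i _ => Finset.mem_erase.2 ⟨(hf1 i).ne, Finset.mem_univ _⟩
  rcases h i j (f i) (hf1 i) hij with h1 | h1
  · exact hf2 i h1
  · exact hf2 j (hfe ▸ h1)

theorem two_spheres {z y : ℂ} {r R R' g : ℝ} (hg : 0 < g) (hr : r ≤ g / 4) (h : g ≤ |R - R'|) :
    Disjoint (cb z r) (Metric.sphere y R) ∨ Disjoint (cb z r) (Metric.sphere y R') := by
  by_contra hc
  rw [not_or, not_disjoint_iff, not_disjoint_iff] at hc
  obtain ⟨⟨p, hp1, hp2⟩, q, hq1, hq2⟩ := hc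
  rw [Metric.mem_closedBall] at hp1 hq1
  rw [Metric.mem_sphere] at hp2 hq2
  have h1 := abs_dist_sub_le p q y
  have h2 := dist_triangle_right p q z
  rw [hp2, hq2] at h1
  linarith

theorem two_discs {z y y' : ℂ} {r R R' g : ℝ} (hg : 0 < g) (hr : r ≤ g / 4)
    (h : R + R' + g ≤ dist y y') :
    Disjoint (cb z r) (cb y R) ∨ Disjoint (cb z r) (cb y' R') := by
  by_contra hc
  rw [not_or, not_disjoint_iff, not_disjoint_iff] at hc
  obtain ⟨⟨p, hp1, hp2⟩, q, hq1, hq2⟩ := hc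
  rw [Metric.mem_closedBall] at hp1 hq1 hp2 hq2
  have h1 := dist_triangle_left y y' p
  have h2 := dist_triangle_right p q z
  have h3 := dist_triangle p q y'
  linarith

theorem goodLam_mono {N : ℕ} {G W : Set ℂ} {β : ℂ → F2} {c₁ γ r₀ c₂ γ' : ℝ}
    {Lam : ∀ n, (Sm n → Ms) → Finset (Fin n) → ℂ × ℝ} (h : GoodLam N G W β c₁ γ r₀ Lam)
    (hc : c₂ ≤ c₁) (hγ : γ' ≤ γ) (he : c₁ - γ ≤ c₂ - γ') : GoodLam N G W β c₂ γ' r₀ Lam := by
  intro n hn g hg σ hσ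
  rcases h n hn g (nice_mono hc hg) σ hσ with h1 | ⟨h1, h2, h3, h4⟩
  · exact Or.inl (h1.trans he)
  · refine Or.inr ⟨h1, h2, h3, ?_⟩
    rcases h4 with h4 | h4
    · exact Or.inl ⟨win_mono h4.1 hγ, h4.2⟩
    · exact Or.inr ⟨idx_mono h4.1 hγ, h4.2⟩

theorem sp_d {Y : Type} {P Q : Set (Sx Y)} {N : ℕ} (h : P ⊆ Q) {c : Ch Y}
    (hc : c ∈ Sp (P ∩ Dle Y N)) : c ∈ Sp (Q ∩ Dle Y N) :=
  sp_mono (inter_subset_inter_left _ h) hc

/-- A simplex with its labels. -/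
def lf (hat : ∀ n, (Sm n → Ms) → Sm n → Lab) (s : Sx Ms) : Sx (Ms × Lab) :=
  ⟨s.1, fun y => (s.2 y, hat s.1 s.2 y)⟩

/-- Labelling of chains. -/
noncomputable def lfC (hat : ∀ n, (Sm n → Ms) → Sm n → Lab) : Ch Ms →ₗ[F2] Ch (Ms × Lab) :=
  lift fun s => one (lf hat s)

theorem lfC_one (hat : ∀ n, (Sm n → Ms) → Sm n → Lab) (s : Sx Ms) :
    lfC hat (one s) = one (lf hat s) := lift_one _ _

theorem bd_lfC {hat : ∀ n, (Sm n → Ms) → Sm n → Lab}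
    (hnat : ∀ n g i y, hat (n + 1) g (fc n i y) = hat n (g ∘ fc n i) y) (c : Ch Ms) :
    bd (lfC hat c) = lfC hat (bd c) := by
  refine lin_ext (bd.comp (lfC hat)) ((lfC hat).comp bd) (fun s => ?_) c
  obtain ⟨_ | n, f⟩ := s
  · simp [bdS, lf, lfC_one]
  · simp only [LinearMap.comp_apply, lfC_one, bd_one, lf, bdS, map_sum]
    refine Finset.sum_congr rfl fun i _ => ?_
    congr 2
    funext y
    simp only [Function.comp_apply, hnat]

theorem fst_lfC (hat : ∀ n, (Sm n → Ms) → Sm n → Lab) (c : Ch Ms) :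
    mp Prod.fst (lfC hat c) = c := by
  refine lin_ext ((mp Prod.fst).comp (lfC hat)) LinearMap.id (fun s => ?_) c
  simp only [LinearMap.comp_apply, lfC_one, mp_one, LinearMap.id_apply]
  rfl

theorem lfC_mem (hat : ∀ n, (Sm n → Ms) → Sm n → Lab) {P : Set (Sx Ms)}
    {Q : Set (Sx (Ms × Lab))} (h : ∀ s ∈ P, lf hat s ∈ Q) {c : Ch Ms} (hc : c ∈ Sp P) :
    lfC hat c ∈ Sp Q :=
  lift_mem _ _ (fun s hs => one_mem (h s hs)) hc

theorem niceL_mono {G W : Set ℂ} {β : ℂ → F2} {t t' : ℝ} (h : t ≤ t') :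
    NiceL G W β t ⊆ NiceL G W β t' := fun _ hs => nice_mono h hs

theorem niceL_preCl (G W : Set ℂ) (β : ℂ → F2) (t : ℝ) : PreCl (NiceL G W β t) :=
  fun n k f φ hφ hf => nice_preCl G W β t n k (Prod.fst ∘ f) φ hφ hf

/-- Pieces of labelled fine simplices. -/
def Par0 (N : ℕ) (G W : Set ℂ) (β : ℂ → F2) (t η r₀ : ℝ)
    (hat : ∀ n, (Sm n → Ms) → Sm n → Lab) : Set (Sx (Ms × Lab)) :=
  {s | ∃ n, n ≤ N ∧ ∃ g : Sm n → Ms, (⟨n, g⟩ : Sx Ms) ∈ Nice G W β t ∧ Fine W η r₀ g ∧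
    ∃ π : Sm s.1 → Sm n, Continuous π ∧ ∀ x, s.2 x = (g (π x), hat n g (π x))}

theorem par0_preCl (N : ℕ) (G W : Set ℂ) (β : ℂ → F2) (t η r₀ : ℝ)
    (hat : ∀ n, (Sm n → Ms) → Sm n → Lab) : PreCl (Par0 N G W β t η r₀ hat) := by
  rintro m k f φ hφ ⟨n, hn, g, hg, hF, π, hπ, hf⟩
  exact ⟨n, hn, g, hg, hF, π ∘ φ, hπ.comp hφ, fun x => hf (φ x)⟩

theorem par0_niceL {N : ℕ} {G W : Set ℂ} {β : ℂ → F2} {t η r₀ : ℝ}
    {hat : ∀ n, (Sm n → Ms) → Sm n → Lab} : Par0 N G W β t η r₀ hat ⊆ NiceL G W β t := by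
  rintro ⟨m, f⟩ ⟨n, hn, g, hg, hF, π, hπ, hf⟩
  have e : Prod.fst ∘ f = g ∘ π := funext fun x => congrArg Prod.fst (hf x)
  have h1 := nice_preCl G W β t n m g π hπ hg
  rw [← e] at h1
  exact h1

theorem par0_inv {N : ℕ} {G W : Set ℂ} {β : ℂ → F2} {t η r₀ θ e lo : ℝ} (hθ : 0 < θ) (he : 0 ≤ e)
    (Lam : ∀ n, (Sm n → Ms) → Finset (Fin n) → ℂ × ℝ) {hat : ∀ n, (Sm n → Ms) → Sm n → Lab} :
    ∀ s ∈ Par0 N G W β t η r₀ hat, ∃ δ : ℝ, 0 < δ ∧ ∀ (k : ℕ) (φ : Sm k → Sm s.1), Continuous φ →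
      (∀ x x', dist (φ x) (φ x') ≤ δ) →
        (⟨k, s.2 ∘ φ⟩ : Sx (Ms × Lab)) ∈ Inv N G W β t η r₀ θ Lam hat 1 e lo := by
  rintro ⟨m, f⟩ ⟨n, hn, g, hg, hF, π, hπ, hf⟩
  obtain ⟨δ, hδ, hu⟩ := Metric.uniformContinuous_iff_le.1
    (CompactSpace.uniformContinuous_of_continuous hπ) (θ / 4) (by positivity)
  refine ⟨δ, hδ, fun k φ hφ hd => ?_⟩
  have e1 : ∀ x, (f (φ x)).1 = g (π (φ x)) := fun x => congrArg Prod.fst (hf (φ x))
  have e2 : ∀ x, (f (φ x)).2 = hat n g (π (φ x)) := fun x => congrArg Prod.snd (hf (φ x))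
  refine ⟨?_, fun x => ?_, n, hn, g, hg, hF, π ∘ φ, hπ.comp hφ, fun x x' => hu (hd x x'), e2,
    fun x => ?_, fun x Q _ _ => ?_, fun σ hσ hx => ?_⟩
  · have h1 : Fam W fun x => g ((π ∘ φ) x) := Fam.comp hg.1 (hπ.comp hφ)
    have e3 : (fun x => ((f ∘ φ) x).1) = fun x => g ((π ∘ φ) x) := funext e1
    rw [← e3] at h1
    exact h1
  · have h1 := (hg.2 (π (φ x))).1
    have h2 : Par G W β (f (φ x)).1 := by rw [e1]; exact h1
    exact h2
  · exact congrArg (fun μ : Ms => μ.restrict _) (e1 x)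
  · have h2 : (f (φ x)).1.real Q ≤ (g (π (φ x))).real Q + e := by rw [e1]; linarith
    exact h2
  · obtain ⟨x, hx⟩ := hx
    have h0 : σ = ∅ := Finset.card_eq_zero.1 (by omega)
    rw [h0, gap_empty] at hx
    linarith

theorem inv_niceL {N : ℕ} {G W : Set ℂ} {β : ℂ → F2} {t η r₀ e lo : ℝ}
    {Lam : ∀ n, (Sm n → Ms) → Finset (Fin n) → ℂ × ℝ} {hat : ∀ n, (Sm n → Ms) → Sm n → Lab} :
    Inv N G W β t η r₀ (((N : ℝ) ^ 2)⁻¹ / 2) Lam hat (N + 1) e lo ⊆ NiceL G W β lo := by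
  rintro ⟨m, f⟩ ⟨h1, h2, n, hn, g, -, -, π, -, -, -, -, -, h3⟩
  refine ⟨h1, fun x => ⟨h2 x, ?_⟩⟩
  obtain ⟨σ, -, hσ⟩ := gap_exists hn (π x)
  have hc : σ.card ≤ n := by simpa using σ.card_le_univ
  exact h3 σ (by omega) ⟨x, by linarith⟩ x

end Eng

/-- Choice of scales and discs. -/
theorem exists_lam {N : ℕ} {G W : Set ℂ} {β : ℂ → F2} {c : ℝ} (hU : UC N (2 ^ N) G W β c) :
    ∃ γ r₀ : ℝ, 0 < γ ∧ 0 < r₀ ∧
      ∃ (Lam : ∀ n, (Sm n → Ms) → Finset (Fin n) → ℂ × ℝ) (hat : ∀ n, (Sm n → Ms) → Sm n → Lab),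
        HatSys Lam hat ∧ GoodLam N G W β (c + γ / 3) γ r₀ Lam := by
  classical
  choose! gf hgf hspec using hU
  obtain ⟨r, hr0, hrs⟩ : ∃ r : ℕ → ℝ, r 0 = 1 ∧ ∀ k, r (k + 1) = min (r k) (gf (r k) / 4) :=
    ⟨fun k => Nat.rec 1 (fun _ x => min x (gf x / 4)) k, rfl, fun _ => rfl⟩
  have hpos : ∀ k, 0 < r k := by
    intro k
    induction k with
    | zero => rw [hr0]; exact one_pos
    | succ k ih =>
      rw [hrs]
      have := hgf _ ih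
      exact lt_min ih (by positivity)
  have hanti : Antitone r := antitone_nat_of_succ_le fun k => by rw [hrs]; exact min_le_left _ _
  have hsm : ∀ k l, k < l → r l ≤ gf (r k) / 4 := fun k l h =>
    (hanti (Nat.succ_le_of_lt h)).trans (by rw [hrs]; exact min_le_right _ _)
  obtain ⟨γ, hγ⟩ : ∃ γ, γ = r (N + 1) := ⟨_, rfl⟩
  have hγ0 : 0 < γ := hγ ▸ hpos _
  obtain ⟨Good, hGood⟩ : ∃ Good : Ms → ℕ → Set (ℂ × ℝ) → ℂ × ℝ → Prop, ∀ T j S B,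
      Good T j S B ↔ B.1 ∈ W ∧ γ ≤ B.2 ∧ B.2 ≤ r (N - j) ∧
        ((Win N G W T B.1 B.2 γ ∧
            ∀ B' ∈ S, Disjoint (cb B'.1 B'.2) (Metric.sphere B.1 B.2)) ∨
          (Idx G W T B.1 B.2 γ ∧ ∀ B' ∈ S, Disjoint (cb B'.1 B'.2) (cb B.1 B.2))) :=
    ⟨_, fun _ _ _ _ => Iff.rfl⟩
  obtain ⟨ch, hch1, hch2⟩ : ∃ ch : Ms → ℕ → Set (ℂ × ℝ) → ℂ × ℝ,
      (∀ T j S, (ch T j S).2 ≤ r (N - j)) ∧
        ∀ T j S, (∃ B, Good T j S B) → Good T j S (ch T j S) := by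
    refine ⟨fun T j S => if h : ∃ B, Good T j S B then h.choose else (0, 0), fun T j S => ?_,
      fun T j S h => ?_⟩
    · by_cases h : ∃ B, Good T j S B
      · simp only [dif_pos h]
        exact ((hGood _ _ _ _).1 h.choose_spec).2.2.1
      · simp only [dif_neg h]
        exact (hpos _).le
    · simp only [dif_pos h]
      exact h.choose_spec
  obtain ⟨Lam, hat, hH, hLam⟩ := exists_hat ch
  refine ⟨γ, γ, hγ0, hγ0, Lam, hat, hH, fun n hn g hg σ hσ => ?_⟩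
  by_cases hlow : (anchor g σ).real univ ≤ c + γ / 3 - γ
  · exact Or.inl hlow
  right
  have hc : σ.card ≤ n := by simpa using σ.card_le_univ
  obtain ⟨rp, b, -, -, -, hb⟩ := ray_spec hσ
  have hT : anchor g σ = g b := (hb g).1
  have hg0 : 0 < gf (r (N - σ.card)) := hgf _ (hpos _)
  have hγg : γ ≤ gf (r (N - σ.card)) / 4 := hγ ▸ hsm _ _ (by omega)
  have hsub : ∀ σ' ⊂ σ, (Lam n g σ').2 ≤ gf (r (N - σ.card)) / 4 := by
    intro σ' h
    have h1 := Finset.card_lt_card h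
    rw [hLam]
    exact (hch1 _ _ _).trans (hsm _ _ (by omega))
  have hex : ∃ B, Good (anchor g σ) σ.card {B | ∃ σ' ⊂ σ, σ'.Nonempty ∧ B = Lam n g σ'} B := by
    have h1 : (anchor g σ).real univ < c + γ / 3 := by rw [hT]; exact (hg.2 b).2
    have h2 : |(anchor g σ).real univ - c| < gf (r (N - σ.card)) := by
      rw [abs_lt]
      constructor <;> linarith [not_le.1 hlow]
    rcases hspec _ (hpos (N - σ.card)) (anchor g σ) (by rw [hT]; exact Fam.poly hg.1 b)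
      (by rw [hT]; exact (hg.2 b).1) h2 with ⟨y, hy, R, hR, hs⟩ | ⟨y, R, hR, hs⟩
    · obtain ⟨i, hi⟩ := Eng.pigeon hn σ
        (fun i σ' => Disjoint (cb (Lam n g σ').1 (Lam n g σ').2) (Metric.sphere y (R i)))
        fun i j σ' h hij => Eng.two_spheres hg0 (hsub σ' h) (hs i j hij)
      refine ⟨(y, R i), (hGood _ _ _ _).2 ⟨hy, by linarith [(hR i).1], (hR i).2.1,
        Or.inl ⟨Eng.win_mono (hR i).2.2 (by linarith), ?_⟩⟩⟩
      rintro B' ⟨σ', h, -, rfl⟩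
      exact hi σ' h
    · obtain ⟨i, hi⟩ := Eng.pigeon hn σ
        (fun i σ' => Disjoint (cb (Lam n g σ').1 (Lam n g σ').2) (cb (y i) (R i)))
        fun i j σ' h hij => Eng.two_discs hg0 (hsub σ' h) (hs i j hij)
      refine ⟨(y i, R i), (hGood _ _ _ _).2 ⟨(hR i).1, by linarith [(hR i).2.1], (hR i).2.2.1,
        Or.inr ⟨Eng.idx_mono (hR i).2.2.2 (by linarith), ?_⟩⟩⟩
      rintro B' ⟨σ', h, -, rfl⟩
      exact hi σ' h
  have hG := hch2 _ _ _ hex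
  rw [← hLam, hGood] at hG
  obtain ⟨h1, h2, h3, h4⟩ := hG
  refine ⟨h1, h2, h3.trans (hr0 ▸ hanti (Nat.zero_le _)), ?_⟩
  rcases h4 with h4 | h4
  · exact Or.inl ⟨h4.1, fun σ' h h' => h4.2 _ ⟨σ', h, h', rfl⟩⟩
  · exact Or.inr ⟨h4.1, fun σ' h h' => h4.2 _ ⟨σ', h, h', rfl⟩⟩

theorem engine {N : ℕ} {G W : Set ℂ} (hW : Convex ℝ W) (hWc : IsCompact W) {β : ℂ → F2} {c : ℝ}
    (hU : UC N (2 ^ N) G W β c) : ∃ δ, 0 < δ ∧ ∀ t b ε : ℝ, t ≤ c + δ → 0 < ε →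
      ∀ w ∈ Sp (Nice G W β t ∩ Dle Ms N), bd w ∈ Sp (Nice G W β b) →
        ∃ w' ∈ Sp (Nice G W β (max b (c - δ) + ε) ∩ Dle Ms N),
          ∃ h ∈ Sp (Nice G W β (t + ε)), w + w' = bd h := by
  obtain ⟨γ, r₀, hγ, hr, Lam, hat, hH, hL⟩ := exists_lam hU
  refine ⟨γ / 3, by positivity, fun t b ε ht hε w hw hbw => ?_⟩
  obtain ⟨b₀, hb₀⟩ : ∃ b₀, b₀ = max b (c - γ / 3) := ⟨_, rfl⟩
  rw [← hb₀]
  have hb1 : b ≤ b₀ := hb₀ ▸ le_max_left _ _
  have hb2 : c - γ / 3 ≤ b₀ := hb₀ ▸ le_max_right _ _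
  by_cases htriv : t ≤ c - γ / 3 ∨ N = 0
  · refine ⟨w, sp_mono ?_ hw, 0, Submodule.zero_mem _, ?_⟩
    · intro s hs
      refine ⟨?_, hs.2⟩
      rcases htriv with h | h
      · exact nice_mono (by linarith) hs.1
      · obtain ⟨n, f⟩ := s
        have hn : n = 0 := by
          have h1 : n ≤ N := hs.2
          omega
        subst hn
        rw [sx_zero]
        exact emp_nice _ _ _ _
    · rw [add_self2, map_zero]
  rw [not_or, not_le] at htriv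
  obtain ⟨ht', hN⟩ := htriv
  have hL' : GoodLam N G W β t (γ - (c + γ / 3 - t)) r₀ Lam :=
    Eng.goodLam_mono hL ht (by linarith) (by linarith)
  have hθ : (0 : ℝ) < ((N : ℝ) ^ 2)⁻¹ / 2 := by positivity
  obtain ⟨a, ha⟩ : ∃ a : ℝ, a = ε / 3 ^ (N + 1) := ⟨_, rfl⟩
  have ha0 : 0 < a := by rw [ha]; positivity
  have haε : 3 ^ (N + 1) * a = ε := by rw [ha]; field_simp
  obtain ⟨η, hη⟩ : ∃ η : ℝ, η = a / (3 * (N + 3)) := ⟨_, rfl⟩
  have hη0 : 0 < η := by rw [hη]; positivity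
  have hηa : ((N : ℝ) + 3) * (2 * η + η) = a := by rw [hη]; field_simp; ring
  obtain ⟨w₁, hw₁, h₁, hh₁, u₁, hu₁, hbw₁, e₁, -⟩ := refine_chain
    (Q := {s : Sx Ms | Fine W η r₀ s.2}) (nice_preCl G W β t) (nice_preCl G W β b₀)
    (fun s hs => fine_small hW hWc hη0 hr hs.1) hw (sp_mono (nice_mono hb1) hbw)
  have hLw : Eng.lfC hat w₁ ∈ Sp (Eng.Par0 N G W β t η r₀ hat ∩ Dle _ N) :=
    Eng.lfC_mem hat (Q := Eng.Par0 N G W β t η r₀ hat ∩ Dle _ N) (fun s hs =>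
      ⟨⟨s.1, hs.2, s.2, hs.1.1, hs.1.2, id, continuous_id, fun _ => rfl⟩, hs.2⟩) hw₁
  have hLb : bd (Eng.lfC hat w₁) ∈ Sp (NiceL G W β b₀) := by
    rw [Eng.bd_lfC hH.nat]
    exact Eng.lfC_mem hat (Q := NiceL G W β b₀) (fun s hs => hs) hbw₁
  obtain ⟨w₂, hw₂, h₂, hh₂, u₂, hu₂, hbw₂, e₂, -⟩ := refine_chain
    (Eng.par0_preCl N G W β t η r₀ hat) (Eng.niceL_preCl G W β b₀)
    (Eng.par0_inv (lo := c - γ / 3) hθ ha0.le Lam) hLw hLb
  have key : ∀ k : ℕ, ∃ s : ℝ, 0 ≤ s ∧ s ≤ 3 ^ (k + 1) * a ∧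
      ∃ v ∈ Sp (Inv N G W β t η r₀ (((N : ℝ) ^ 2)⁻¹ / 2) Lam hat (k + 1) (3 ^ k * a)
          (c - γ / 3 + s) ∩ Dle _ N),
        ∃ h ∈ Sp (NiceL G W β (t + 3 ^ k * a)), ∃ u ∈ Sp (NiceL G W β (b₀ + s) ∩ Dle _ N),
          bd v ∈ Sp (NiceL G W β (b₀ + s)) ∧ Eng.lfC hat w₁ + v = bd h + u := by
    intro k
    induction k with
    | zero =>
      refine ⟨0, le_rfl, by positivity, w₂, ?_, h₂, ?_, u₂, ?_, ?_, e₂⟩
      · rw [pow_zero, one_mul, add_zero]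
        exact Eng.sp_d inter_subset_right hw₂
      · exact sp_mono (Eng.par0_niceL.trans (Eng.niceL_mono (by
          rw [pow_zero, one_mul]; linarith))) hh₂
      · rw [add_zero]
        exact Eng.sp_d inter_subset_right hu₂
      · rw [add_zero]
        exact hbw₂
    | succ k ih =>
      obtain ⟨s, hs0, hs1, v, hv, h, hh, u, hu, hbv, ev⟩ := ih
      have h3 : (1 : ℝ) ≤ 3 ^ k := one_le_pow₀ (by norm_num)
      have h4 : a ≤ 3 ^ k * a := le_mul_of_one_le_left ha0.le h3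
      have h5 : (3 : ℝ) ^ (k + 1) * a = 3 * (3 ^ k * a) := by ring
      have h6 : (3 : ℝ) ^ (k + 1 + 1) * a = 9 * (3 ^ k * a) := by ring
      obtain ⟨v', hv', h', hh', u', hu', hbv', ev'⟩ := step (ε := η) hW (by linarith) hη0 hr hθ
        hη0 hH hL' (k + 1) (by linarith) (by linarith) (b := b₀ + s) (by linarith)
        (e' := 3 ^ (k + 1) * a) (by linarith) hv hbv
      rw [add_assoc (c - γ / 3)] at hv'
      rw [add_assoc b₀] at hu' hbv'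
      refine ⟨s + 3 ^ (k + 1) * a, by linarith, by linarith, v', hv', h + h',
        Submodule.add_mem _ (sp_mono (Eng.niceL_mono (by linarith)) hh) hh', u + u',
        Submodule.add_mem _ (Eng.sp_d (Eng.niceL_mono (by linarith)) hu) hu',
        hbv', ?_⟩
      have e3 : Eng.lfC hat w₁ + v' = (Eng.lfC hat w₁ + v) + (v + v') := by
        rw [add_assoc, ← add_assoc v, add_self2, zero_add]
      rw [e3, ev, ev', map_add]
      abel
  obtain ⟨s, hs0, hs1, v, hv, h, hh, u, hu, -, ev⟩ := key N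
  have h3 : (3 : ℝ) ^ N * a ≤ ε := by
    have h5 : (3 : ℝ) ^ (N + 1) * a = 3 * (3 ^ N * a) := by ring
    have h6 : (0 : ℝ) < 3 ^ N * a := by positivity
    linarith
  have hvu : v + u ∈ Sp (NiceL G W β (b₀ + ε) ∩ Dle _ N) :=
    Submodule.add_mem _
      (Eng.sp_d (Eng.inv_niceL.trans (Eng.niceL_mono (by linarith))) hv)
      (Eng.sp_d (Eng.niceL_mono (by linarith)) hu)
  refine ⟨mp Prod.fst (v + u) + u₁, Submodule.add_mem _
    (Rd.mp_mem_d Prod.fst (fun x hx => hx) hvu)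
    (Eng.sp_d (inter_subset_right.trans (nice_mono (by linarith))) hu₁),
    h₁ + mp Prod.fst h, Submodule.add_mem _ (sp_mono (nice_mono (by linarith)) hh₁)
    (mp_mem (Q := Nice G W β (t + ε)) Prod.fst (fun x hx => Eng.niceL_mono (by linarith) hx) hh), ?_⟩
  have e4 := congrArg (mp (Prod.fst : Ms × Lab → Ms)) ev
  rw [map_add, map_add, Eng.fst_lfC, ← bd_mp] at e4
  have e5 : bd h₁ = w + w₁ + u₁ := by rw [e₁, add_assoc, add_self2, add_zero]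
  have e6 : bd (mp Prod.fst h) = w₁ + mp Prod.fst v + mp Prod.fst u := by
    rw [e4, add_assoc, add_self2, add_zero]
  rw [map_add, map_add, e5, e6]
  have e7 : w + w₁ + u₁ + (w₁ + mp Prod.fst v + mp Prod.fst u) =
      w + (mp Prod.fst v + mp Prod.fst u + u₁) + (w₁ + w₁) := by abel
  rw [e7, add_self2, add_zero]

end Pool.Agent.MP_20201c_gt.H91
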