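import Pool.Agent.MP_20201c_gt.H91.Small
import Pool.Agent.MP_20201c_gt.H91.SideP
import Pool.Agent.MP_20201c_gt.H91.Cup
import Pool.Agent.MP_20201c_gt.H91.Conv
import Pool.Agent.MP_20201c_gt.H91.Engine

/-! The width is at most the model width; the model width is critical. -/

open MeasureTheory Set Filter Topology
open scoped ENNReal

namespace Pool.Agent.MP_20201c_gt.H91

theorem sweep_of_cycle {Ω : Set ℂ} {p : ℕ} {lam : C(Sm 2, Cyc Ω) → ZMod 2} (hl : IsCocycle lam)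
    {w : Ch (Cyc Ω)} (hw : w ∈ Sp (Cts (Cyc Ω) ∩ Deq (Cyc Ω) (p + 1))) (h0 : bd w = 0)
    (h : lift (cupS lam p) w ≠ 0) {t : ℝ≥0∞} (ht : ∀ s ∈ w.support, ∀ x, massIn Ω (s.2 x) univ ≤ t)
    (hn : ∀ ε : ℝ≥0∞, 0 < ε → ∃ r : ℝ, 0 < r ∧ ∀ s ∈ w.support, ∀ x q,
      massIn Ω (s.2 x) (Metric.ball q r) ≤ ε) : width Ω p ≤ t := by
  obtain ⟨N, K, hK, Φ, w', g, hw', h0', hΦ, hg, he⟩ := conv p hw h0
  have h1 : lift (cupS lam p) (mp Φ w') ≠ 0 := by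
    have h2 := congrArg (lift (cupS lam p)) he
    rw [map_add, cup_bd hl p hg, add_eq_zero2] at h2
    rwa [h2]
  refine iInf_le_of_le ⟨N, K, hK, Φ, fun ε hε => ?_, lam, hl,
    not_cob_of_cycle Φ lam p hw' h0' h1⟩ (iSup_le fun x => ?_)
  · obtain ⟨r, hr, h2⟩ := hn ε hε
    refine ⟨r, hr, fun x q => ?_⟩
    obtain ⟨s, hs, y, hy⟩ := hΦ x
    rw [hy]
    exact h2 s hs y q
  · obtain ⟨s, hs, y, hy⟩ := hΦ x
    change massIn Ω (Φ x) univ ≤ t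
    rw [hy]
    exact ht s hs y

/-- Simplices of measures that bound. -/
def BS (Ω : Set ℂ) : Set (Sx Ms) := {s | ∀ x, ∃ E, Side Ω (s.2 x) E}

open Classical in
/-- The bounding part of a chain. -/
noncomputable def kp (Ω : Set ℂ) : Ch Ms →ₗ[F2] Ch Ms :=
  lift fun s => if s ∈ BS Ω then one s else 0

theorem kp_mem (Ω : Set ℂ) {P : Set (Sx Ms)} {c : Ch Ms} (hc : c ∈ Sp P) :
    kp Ω c ∈ Sp (P ∩ BS Ω) := by
  refine lift_mem _ _ (fun s hs => ?_) hc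
  split_ifs with h
  · exact one_mem ⟨hs, h⟩
  · exact Submodule.zero_mem _

theorem ell_kp (Ω : Set ℂ) (lam : C(Sm 2, Cyc Ω) → ZMod 2) (p : ℕ) (c : Ch Ms) :
    lift (ellS Ω lam p) c = lift (cupS lam p) (mp (Rz Ω) (kp Ω c)) := by
  refine lin_ext _ ((lift (cupS lam p)).comp ((mp (Rz Ω)).comp (kp Ω))) (fun s => ?_) c
  simp only [LinearMap.comp_apply, kp, lift_one, ellS]
  by_cases h : s ∈ BS Ω
  · rw [if_pos h, mp_one, lift_one]
    exact if_pos h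
  · rw [if_neg h, map_zero, map_zero]
    exact if_neg h

variable {Ω G W : Set ℂ}

theorem bd_kp (hG : IsOpen G) (hΩ : closure Ω ⊆ G) (hW : Convex ℝ W) {t : ℝ} {c : Ch Ms}
    (hc : c ∈ Sp (Nice G W 0 t ∩ {s | s.1 ≠ 1})) : bd (kp Ω c) = kp Ω (bd c) := by
  refine lin_congr (bd.comp (kp Ω)) ((kp Ω).comp bd) (fun s hs => ?_) hc
  obtain ⟨_ | _ | n, f⟩ := s
  · simp only [LinearMap.comp_apply, kp, lift_one, bd_one, bdS, map_zero]
    split_ifs <;> simp [bdS]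
  · exact absurd rfl hs.2
  · have h1 : ∀ i, (⟨n + 1, f ∘ fc (n + 1) i⟩ : Sx Ms) ∈ BS Ω ↔ (⟨n + 1 + 1, f⟩ : Sx Ms) ∈ BS Ω :=
      fun i => ⟨fun h x => side_all hG hΩ hW hs.1.1 (fun x => (hs.1.2 x).1)
        (h (Classical.arbitrary _)) x, fun h x => h _⟩
    simp only [LinearMap.comp_apply, kp, lift_one, bd_one, bdS, map_sum]
    by_cases h : (⟨n + 1 + 1, f⟩ : Sx Ms) ∈ BS Ω
    · rw [if_pos h, bd_one, bdS]
      exact Finset.sum_congr rfl fun i _ => (if_pos ((h1 i).2 h)).symm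
    · rw [if_neg h, map_zero]
      exact (Finset.sum_eq_zero fun i _ => if_neg fun h' => h ((h1 i).1 h')).symm

theorem rz_cts (ho : IsOpen Ω) (hc : IsPreconnected Ω) (hG : IsOpen G) (hΩ : closure Ω ⊆ G)
    (hW : Convex ℝ W) {t : ℝ} {s : Sx Ms} (hs : s ∈ Nice G W 0 t) (hb : s ∈ BS Ω) :
    smap (Rz Ω) s ∈ Cts (Cyc Ω) :=
  rz_cont ho hc hG hΩ hW hs.1 (fun x => (hs.2 x).1) hb

theorem ell_bd (ho : IsOpen Ω) (hc : IsPreconnected Ω) (hG : IsOpen G) (hΩ : closure Ω ⊆ G)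
    (hW : Convex ℝ W) {lam : C(Sm 2, Cyc Ω) → ZMod 2} (hl : IsCocycle lam) (p : ℕ) {t : ℝ}
    {h : Ch Ms} (hh : h ∈ Sp (Nice G W 0 t)) : lift (ellS Ω lam p) (bd h) = 0 := by
  refine lin_congr ((lift (ellS Ω lam p)).comp bd) 0 (fun s hs => ?_) hh
  rw [LinearMap.comp_apply, LinearMap.zero_apply]
  by_cases h1 : s.1 = 1
  · obtain ⟨n, f⟩ := s
    obtain rfl : n = 1 := h1
    simp only [bd_one, bdS, map_sum, lift_one, ellS, smap, cupS, ite_self, Finset.sum_const_zero]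
  · rw [ell_kp, ← bd_kp hG hΩ hW (one_mem ⟨hs, h1⟩), ← bd_mp]
    exact cup_bd hl p (mp_mem _ (fun s hs => rz_cts ho hc hG hΩ hW hs.1 hs.2)
      (kp_mem Ω (one_mem hs)))

theorem width_le_of_MW (ho : IsOpen Ω) (hc : IsPreconnected Ω) (hG : IsOpen G)
    (hΩ : closure Ω ⊆ G) (hW : Convex ℝ W) {p : ℕ} (hp : 1 ≤ p) {t : ℝ} (ht : t ∈ MW Ω G W p) :
    0 < t ∧ width Ω p ≤ ENNReal.ofReal t := by
  obtain ⟨lam, hl, w, hw, h0, h1⟩ := ht
  constructor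
  · have h2 : w ≠ 0 := fun h => h1 (by rw [h, map_zero])
    obtain ⟨⟨n, f⟩, hs⟩ := Finsupp.support_nonempty_iff.2 h2
    obtain ⟨h3, h4⟩ := mem_sp.1 hw _ hs
    obtain rfl : n = p + 1 := h4
    exact lt_of_le_of_lt measureReal_nonneg (h3.2 (Classical.arbitrary _)).2
  have hk := kp_mem Ω (sp_inter.2 ⟨hw, sp_support w⟩)
  have hm : mp (Rz Ω) (kp Ω w) ∈ Sp {s' | ∃ s ∈ w.support, s ∈ BS Ω ∧ s' = smap (Rz Ω) s} :=
    mp_mem _ (fun s hs => by exact ⟨s, hs.1.2, hs.2, rfl⟩) hk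
  have hle : ∀ s ∈ BS Ω, ∀ x, ∀ U, IsOpen U → massIn Ω (Rz Ω (s.2 x)) U ≤ s.2 x U := by
    intro s hs x U hU
    obtain ⟨E, hE⟩ := hs x
    rw [rz_eq ho hc hE, massIn_cyc ho]
    exact side_per ho hE hU
  refine sweep_of_cycle hl (w := mp (Rz Ω) (kp Ω w))
    (mp_mem _ (fun s hs => by exact ⟨rz_cts ho hc hG hΩ hW hs.1.1.1 hs.2, hs.1.1.2⟩) hk) ?_
    (by rwa [← ell_kp]) (fun s' hs' x => ?_) fun ε hε => ?_
  · have h2 : Nice G W 0 t ∩ Deq Ms (p + 1) ⊆ Nice G W 0 t ∩ {s | s.1 ≠ 1} := by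
      refine fun s hs => ⟨hs.1, ?_⟩
      have : s.1 = p + 1 := hs.2
      simp only [mem_ofPred_eq]
      omega
    rw [bd_mp, bd_kp hG hΩ hW (sp_mono h2 hw), h0, map_zero, map_zero]
  · obtain ⟨s, hs, hb, rfl⟩ := mem_sp.1 hm s' hs'
    have h2 := (mem_sp.1 hw s hs).1
    have := (h2.1.poly x).finite
    refine (hle s hb x univ isOpen_univ).trans ?_
    rw [← ofReal_measureReal (measure_ne_top _ _)]
    exact ENNReal.ofReal_le_ofReal (h2.2 x).2.le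
  · have h2 : ∀ s : w.support, ∃ m : ℕ, ∀ x y R,
        s.1.2 x (cb y R) ≤ ENNReal.ofReal (m * (2 * R)) :=
      fun s => (mem_sp.1 hw s.1 s.2).1.1.cb_le
    choose m hm2 using h2
    obtain ⟨e, -, he1, he2⟩ := ENNReal.lt_iff_exists_real_btwn.1 hε
    have he : 0 < e := ENNReal.ofReal_pos.1 he1
    have hM : (0 : ℝ) ≤ (∑ s, m s : ℕ) := Nat.cast_nonneg _
    refine ⟨e / (2 * ((∑ s, m s : ℕ) + 1)), by positivity, fun s' hs' x q => ?_⟩
    obtain ⟨s, hs, hb, rfl⟩ := mem_sp.1 hm s' hs'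
    refine (hle s hb x _ Metric.isOpen_ball).trans ((measure_mono Metric.ball_subset_closedBall).trans
      ((hm2 ⟨s, hs⟩ x q _).trans ((ENNReal.ofReal_le_ofReal ?_).trans he2.le)))
    have h3 : (m ⟨s, hs⟩ : ℝ) ≤ (∑ s, m s : ℕ) := by
      exact_mod_cast Finset.single_le_sum (fun _ _ => Nat.zero_le _) (Finset.mem_univ _)
    generalize ((∑ s, m s : ℕ) : ℝ) = M at *
    rw [← mul_div_assoc, ← mul_div_assoc, div_le_iff₀ (by positivity)]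
    nlinarith

theorem not_UC (ho : IsOpen Ω) (hc : IsPreconnected Ω) (hG : IsOpen G) (hΩ : closure Ω ⊆ G)
    (hW : Convex ℝ W) (hWc : IsCompact W) {p : ℕ} (hp : 1 ≤ p) (hne : (MW Ω G W p).Nonempty) :
    ¬ UC (p + 1) (2 ^ (p + 1)) G W 0 (sInf (MW Ω G W p)) := by
  intro hU
  obtain ⟨δ, hδ, hE⟩ := engine hW hWc hU
  have hbd : BddBelow (MW Ω G W p) :=
    ⟨0, fun t ht => (width_le_of_MW ho hc hG hΩ hW hp ht).1.le⟩
  set c := sInf (MW Ω G W p) with hcd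
  obtain ⟨t, ⟨lam, hl, w, hw, h0, h1⟩, ht⟩ :=
    exists_lt_of_csInf_lt hne (show c < c + δ by linarith)
  obtain ⟨w', hw', g, hg, he⟩ := hE t (c - δ) (δ / 2) ht.le (by linarith) w
    (sp_mono (fun s hs => by exact ⟨hs.1, le_of_eq hs.2⟩) hw) (by rw [h0]; exact Submodule.zero_mem _)
  rw [max_self] at hw'
  have h2 : bd w' = 0 := by
    have := congrArg bd he
    rwa [map_add, h0, zero_add, bd_bd] at this
  have h3 : lift (ellS Ω lam p) w' ≠ 0 := by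
    have := congrArg (lift (ellS Ω lam p)) he
    rw [map_add, ell_bd ho hc hG hΩ hW hl p hg, add_eq_zero2] at this
    rwa [← this]
  have h4 : lift (ellS Ω lam p) (prj {n | ∃ k ∈ ({p} : Set ℕ), n = k + 1} w') =
      lift (ellS Ω lam p) w' := by
    refine lin_ext ((lift (ellS Ω lam p)).comp (prj _)) _ (fun s => ?_) w'
    simp only [LinearMap.comp_apply, prj, lift_one]
    split_ifs with h
    · rw [lift_one]
    · have h5 : (smap (Rz Ω) s).1 ≠ p + 1 := fun h5 => h ⟨p, rfl, h5⟩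
      rw [map_zero, ellS, cupS_of_ne lam p h5, ite_self]
  have h5 : c - δ + δ / 2 ∈ MW Ω G W p := by
    refine ⟨lam, hl, _, sp_mono ?_ (prj_mem {n | ∃ k ∈ ({p} : Set ℕ), n = k + 1} hw'), ?_,
      by rwa [h4]⟩
    · rintro s ⟨h6, k, rfl, h7⟩
      exact ⟨h6.1, h7⟩
    · rw [bd_prj, h2, map_zero]
  linarith [csInf_le hbd h5]

end Pool.Agent.MP_20201c_gt.H91
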