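import Pool.Agent.MP_20201c_gt.H91.Defs4

/-! Two involutions: walks and almost invariant functions. -/

open MeasureTheory Set Filter Topology
open scoped ENNReal

namespace Pool.Agent.MP_20201c_gt.H91

namespace DecAux

theorem step {D : Type} [Fintype D] (ι σ : D → D) (hι : Function.Involutive ι)
    (hf : ∀ d, ι d ≠ d) (hσ : Function.Involutive σ) (s : Finset D) (hs : s.Nonempty)
    (cι : ∀ d ∈ s, ι d ∈ s) (cσ : ∀ d ∈ s, σ d ∈ s) :
    ∃ (n : ℕ) (f : ℕ → D), (∀ i, f i ∈ s) ∧ (∀ i, f (i + 1) = σ (ι (f i))) ∧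
      (∀ i ≤ n, ∀ j ≤ n, f i = f j → i = j) ∧ (∀ i ≤ n, ∀ j ≤ n, f i ≠ ι (f j)) ∧
      (f 0 = σ (ι (f n)) ∨ (σ (f 0) = f 0 ∧ σ (ι (f n)) = ι (f n))) := by
  classical
  obtain ⟨d0, hd0, hfix⟩ : ∃ d0 ∈ s, σ d0 = d0 ∨ ∀ d ∈ s, σ d ≠ d := by
    by_cases h : ∃ d ∈ s, σ d = d
    · obtain ⟨d, hd, h⟩ := h
      exact ⟨d, hd, Or.inl h⟩
    · obtain ⟨d, hd⟩ := hs
      exact ⟨d, hd, Or.inr fun e he h' => h ⟨e, he, h'⟩⟩
  set ρ : D → D := fun d => σ (ι d) with hρ
  have hinj : Function.Injective ρ := hσ.injective.comp hι.injective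
  set f : ℕ → D := fun i => ρ^[i] d0 with hfd
  have hsucc : ∀ i, f (i + 1) = σ (ι (f i)) := fun i => Function.iterate_succ_apply' ρ i d0
  have hmem : ∀ i, f i ∈ s := by
    intro i
    induction i with
    | zero => exact hd0
    | succ i ih => rw [hsucc]; exact cσ _ (cι _ ih)
  have hcanc : ∀ i k, f i = f (i + k) → f 0 = f k := by
    intro i k
    induction i with
    | zero => intro h; simpa using h
    | succ i ih =>
      intro h
      apply ih
      have e : i + 1 + k = i + k + 1 := by ring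
      rw [e, hsucc, hsucc] at h
      exact hinj h
  have hex : ∃ n, f 0 = f (n + 1) ∨ f (n + 1) = ι (f n) := by
    obtain ⟨i, j, hij, h⟩ := Finite.exists_ne_map_eq_of_infinite f
    rcases lt_or_gt_of_ne hij with h' | h'
    · obtain ⟨k, rfl⟩ := Nat.exists_eq_add_of_lt h'
      exact ⟨k, Or.inl (hcanc i (k + 1) h)⟩
    · obtain ⟨k, rfl⟩ := Nat.exists_eq_add_of_lt h'
      exact ⟨k, Or.inl (hcanc j (k + 1) h.symm)⟩
  set n := Nat.find hex with hn
  have hmin : ∀ i < n, f 0 ≠ f (i + 1) ∧ f (i + 1) ≠ ι (f i) := fun i hi =>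
    not_or.1 (Nat.find_min hex hi)
  have hA : ∀ i k, i + k + 1 ≤ n → f i ≠ f (i + k + 1) := fun i k h e =>
    (hmin k (by omega)).1 (hcanc i (k + 1) e)
  have hB : ∀ k i, i + k ≤ n → f (i + k) ≠ ι (f i) := by
    intro k
    induction k using Nat.strong_induction_on with
    | _ k ih =>
      intro i h e
      match k, ih, h, e with
      | 0, _, _, e => exact hf _ e.symm
      | 1, _, h, e => exact (hmin i (by omega)).2 e
      | k + 2, ih, h, e =>
        refine ih k (by omega) (i + 1) (by omega) ?_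
        have e1 : f (i + (k + 2)) = σ (ι (f (i + 1 + k))) := by
          rw [← hsucc]; congr 1; ring
        rw [hsucc i, ← e, e1, hσ, hι]
  refine ⟨n, f, hmem, hsucc, ?_, ?_, ?_⟩
  · intro i hi j hj e
    by_contra hij
    rcases lt_or_gt_of_ne hij with h' | h'
    · obtain ⟨k, rfl⟩ := Nat.exists_eq_add_of_lt h'
      exact hA i k hj e
    · obtain ⟨k, rfl⟩ := Nat.exists_eq_add_of_lt h'
      exact hA j k hi e.symm
  · intro i hi j hj e
    rcases le_total i j with h' | h'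
    · obtain ⟨k, rfl⟩ := Nat.exists_eq_add_of_le h'
      exact hB k i hj (by rw [e, hι])
    · obtain ⟨k, rfl⟩ := Nat.exists_eq_add_of_le h'
      exact hB k j hi e
  · rcases Nat.find_spec hex with h | h
    · exact Or.inl (h.trans (hsucc n))
    · have h' : σ (ι (f n)) = ι (f n) := (hsucc n).symm.trans h
      rcases hfix with h0 | h0
      · exact Or.inr ⟨h0, h'⟩
      · exact absurd h' (h0 _ (cι _ (hmem n)))

theorem closed {D : Type} (ι σ : D → D) (hσ : Function.Involutive σ) (n : ℕ) (f : ℕ → D)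
    (hsucc : ∀ i, f (i + 1) = σ (ι (f i)))
    (hend : f 0 = σ (ι (f n)) ∨ (σ (f 0) = f 0 ∧ σ (ι (f n)) = ι (f n))) (d : D)
    (hd : ∃ i ≤ n, d = f i ∨ d = ι (f i)) : ∃ i ≤ n, σ d = f i ∨ σ d = ι (f i) := by
  obtain ⟨i, hi, rfl | rfl⟩ := hd
  · match i, hi with
    | 0, _ =>
      rcases hend with h | h
      · exact ⟨n, le_rfl, Or.inr (by rw [h, hσ])⟩
      · exact ⟨0, Nat.zero_le _, Or.inl h.1⟩
    | i + 1, hi => exact ⟨i, by omega, Or.inr (by rw [hsucc, hσ])⟩
  · rcases lt_or_eq_of_le hi with h | rfl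
    · exact ⟨i + 1, h, Or.inl (hsucc i).symm⟩
    · rcases hend with h | h
      · exact ⟨0, Nat.zero_le _, Or.inl h.symm⟩
      · exact ⟨i, le_rfl, Or.inr h.2⟩

theorem dec_on {D : Type} [Fintype D] [DecidableEq D] (ι σ : D → D)
    (hι : Function.Involutive ι) (hf : ∀ d, ι d ≠ d) (hσ : Function.Involutive σ)
    (s : Finset D) : (∀ d ∈ s, ι d ∈ s) → (∀ d ∈ s, σ d ∈ s) →
    ∃ L : List (List D),
      (∀ γ ∈ L, ∃ h : γ ≠ [], γ.IsChain (fun d d' => d' = σ (ι d)) ∧
        (γ.head h = σ (ι (γ.getLast h)) ∨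
          (σ (γ.head h) = γ.head h ∧ σ (ι (γ.getLast h)) = ι (γ.getLast h)))) ∧
      (↑L.flatten + Multiset.map ι ↑L.flatten : Multiset D) = s.val := by
  induction s using Finset.strongInduction with
  | H s ih =>
  intro cι cσ
  rcases s.eq_empty_or_nonempty with rfl | hs
  · exact ⟨[], by simp, by simp⟩
  obtain ⟨n, f, hmem, hsucc, h1, h2, hend⟩ := step ι σ hι hf hσ s hs cι cσ
  set γ : List D := (List.range (n + 1)).map f with hγ
  have hγm : ∀ d, d ∈ γ ↔ ∃ i ≤ n, d = f i := by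
    intro d
    simp only [hγ, List.mem_map, List.mem_range, Nat.lt_succ_iff]
    exact ⟨fun ⟨i, a, b⟩ => ⟨i, a, b.symm⟩, fun ⟨i, a, b⟩ => ⟨i, a, b.symm⟩⟩
  have hnd : γ.Nodup := by
    refine List.Nodup.map_on ?_ List.nodup_range
    intro i hi j hj e
    exact h1 i (Nat.lt_succ_iff.1 (List.mem_range.1 hi)) j
      (Nat.lt_succ_iff.1 (List.mem_range.1 hj)) e
  have hW : ((γ : Multiset D) + Multiset.map ι γ).Nodup := by
    rw [Multiset.nodup_add]
    refine ⟨Multiset.coe_nodup.2 hnd,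
      Multiset.Nodup.map hι.injective (Multiset.coe_nodup.2 hnd), ?_⟩
    rw [Multiset.disjoint_left]
    intro a ha hb
    obtain ⟨b, hb', hb''⟩ := Multiset.mem_map.1 hb
    obtain ⟨i, hi, e⟩ := (hγm _).1 (Multiset.mem_coe.1 ha)
    obtain ⟨j, hj, e'⟩ := (hγm _).1 (Multiset.mem_coe.1 hb')
    exact h2 i hi j hj (by rw [← e, ← e', hb''])
  set W : Finset D := ⟨_, hW⟩ with hWd
  have hWm : ∀ d, d ∈ W ↔ ∃ i ≤ n, d = f i ∨ d = ι (f i) := by
    intro d
    rw [hWd, Finset.mem_mk, Multiset.mem_add, Multiset.mem_map]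
    constructor
    · rintro (h | ⟨b, hb, rfl⟩)
      · obtain ⟨i, hi, e⟩ := (hγm _).1 (Multiset.mem_coe.1 h)
        exact ⟨i, hi, Or.inl e⟩
      · obtain ⟨i, hi, e⟩ := (hγm _).1 (Multiset.mem_coe.1 hb)
        exact ⟨i, hi, Or.inr (by rw [e])⟩
    · rintro ⟨i, hi, e | e⟩
      · exact Or.inl (Multiset.mem_coe.2 ((hγm _).2 ⟨i, hi, e⟩))
      · exact Or.inr ⟨f i, Multiset.mem_coe.2 ((hγm _).2 ⟨i, hi, rfl⟩), e.symm⟩
  have hWs : W ⊆ s := by
    intro d hd
    obtain ⟨i, -, rfl | rfl⟩ := (hWm d).1 hd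
    · exact hmem i
    · exact cι _ (hmem i)
  have hlt : s \ W ⊂ s := Finset.sdiff_ssubset hWs
    ⟨f 0, (hWm _).2 ⟨0, Nat.zero_le _, Or.inl rfl⟩⟩
  obtain ⟨L, hL, hE⟩ := ih (s \ W) hlt
    (by
      intro d hd
      rw [Finset.mem_sdiff] at hd ⊢
      refine ⟨cι _ hd.1, fun h => hd.2 ?_⟩
      obtain ⟨i, hi, e | e⟩ := (hWm _).1 h
      · exact (hWm _).2 ⟨i, hi, Or.inr (by rw [← e, hι])⟩
      · exact (hWm _).2 ⟨i, hi, Or.inl (hι.injective e)⟩)
    (by
      intro d hd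
      rw [Finset.mem_sdiff] at hd ⊢
      refine ⟨cσ _ hd.1, fun h => hd.2 ?_⟩
      have := closed ι σ hσ n f hsucc hend _ ((hWm _).1 h)
      rw [hσ] at this
      exact (hWm _).2 this)
  refine ⟨γ :: L, ?_, ?_⟩
  · intro δ hδ
    rcases List.mem_cons.1 hδ with rfl | hδ
    · have hne : γ ≠ [] := by simp [hγ]
      have hh : γ.head hne = f 0 := by
        simp [hγ, List.range_succ_eq_map]
      have hl : γ.getLast hne = f n := by
        simp [hγ, List.range_succ]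
      refine ⟨hne, ?_, by rw [hh, hl]; exact hend⟩
      rw [List.isChain_iff_getElem]
      intro i hi
      simp only [hγ, List.getElem_map, List.getElem_range]
      exact hsucc i
    · exact hL δ hδ
  · have e : (s \ W).val + W.val = s.val := by
      rw [Finset.sdiff_val]
      exact tsub_add_cancel_of_le (Finset.val_le_iff.2 hWs)
    rw [← e, ← hE, List.flatten_cons, ← Multiset.coe_add, Multiset.map_add]
    show _ = _ + ((γ : Multiset D) + Multiset.map ι γ)
    abel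

theorem xi_on {D : Type} [Fintype D] (ι σ : D → D) (hι : Function.Involutive ι)
    (hf : ∀ d, ι d ≠ d) (hσ : Function.Involutive σ) (S : Set D) (hS : ∀ d ∈ S, σ d = d)
    (x : D → ℝ) (h1 : ∀ d, |x d| ≤ 1) (hx : ∀ d, x (ι d) = -x d) {η : ℝ} (hη : 0 ≤ η)
    (h : ∀ d, d ∉ S → |x d + x (σ d)| ≤ η) (s : Finset D) :
    (∀ d ∈ s, ι d ∈ s) → (∀ d ∈ s, σ d ∈ s) →
    ∃ (ξ : D → ℝ) (π : D → D), Function.Involutive π ∧ (∀ d, d ∉ s → π d = d) ∧ ∀ d ∈ s,
      ξ (ι d) = -ξ d ∧ (d ∉ S → ξ (σ d) = -ξ d) ∧ (d ∈ S → π d ∈ S ∧ ξ (π d) = -ξ d) ∧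
      |ξ d| ≤ 1 ∧ |ξ d - x d| ≤ Fintype.card D * η := by
  classical
  induction s using Finset.strongInduction with
  | H s ih =>
  intro cι cσ
  rcases s.eq_empty_or_nonempty with rfl | hs
  · exact ⟨0, id, fun _ => rfl, fun _ _ => rfl, by simp⟩
  obtain ⟨n, f, hmem, hsucc, g1, g2, hend⟩ := step ι σ hι hf hσ s hs cι cσ
  set W : Finset D := Finset.univ.filter (fun d => ∃ i ≤ n, d = f i ∨ d = ι (f i)) with hWd
  have hWm : ∀ d, d ∈ W ↔ ∃ i ≤ n, d = f i ∨ d = ι (f i) := by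
    intro d; simp only [hWd, Finset.mem_filter, Finset.mem_univ, true_and]
  have hWs : W ⊆ s := by
    intro d hd
    obtain ⟨i, -, rfl | rfl⟩ := (hWm d).1 hd
    · exact hmem i
    · exact cι _ (hmem i)
  have hW0 : f 0 ∈ W := (hWm _).2 ⟨0, Nat.zero_le _, Or.inl rfl⟩
  have hWn : ι (f n) ∈ W := (hWm _).2 ⟨n, le_rfl, Or.inr rfl⟩
  have hlt : s \ W ⊂ s := Finset.sdiff_ssubset hWs ⟨f 0, hW0⟩
  have wι : ∀ d ∈ W, ι d ∈ W := by
    intro d h
    obtain ⟨i, hi, e | e⟩ := (hWm _).1 h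
    · exact (hWm _).2 ⟨i, hi, Or.inr (by rw [e])⟩
    · exact (hWm _).2 ⟨i, hi, Or.inl (by rw [e, hι])⟩
  have wσ : ∀ d ∈ W, σ d ∈ W := fun d h =>
    (hWm _).2 (closed ι σ hσ n f hsucc hend _ ((hWm _).1 h))
  have vι : ∀ d ∈ s \ W, ι d ∈ s \ W := by
    intro d hd
    rw [Finset.mem_sdiff] at hd ⊢
    exact ⟨cι _ hd.1, fun h => hd.2 (by have := wι _ h; rwa [hι] at this)⟩
  have vσ : ∀ d ∈ s \ W, σ d ∈ s \ W := by
    intro d hd
    rw [Finset.mem_sdiff] at hd ⊢
    exact ⟨cσ _ hd.1, fun h => hd.2 (by have := wσ _ h; rwa [hσ] at this)⟩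
  obtain ⟨ξ', π', hπ', hout, hin⟩ := ih (s \ W) hlt vι vσ
  have hcard : ((n : ℝ) + 1) ≤ Fintype.card D := by
    have : n + 1 ≤ Fintype.card D := by
      have := Fintype.card_le_of_injective (fun i : Fin (n + 1) => f i)
        (fun i j e => Fin.ext (g1 i (Nat.lt_succ_iff.1 i.2) j (Nat.lt_succ_iff.1 j.2) e))
      simpa using this
    exact_mod_cast this
  have nS1 : ∀ i < n, ι (f i) ∉ S := fun i hi hm =>
    g2 (i + 1) hi i hi.le ((hsucc i).trans (hS _ hm))
  have nS2 : ∀ i < n, f (i + 1) ∉ S := fun i hi hm =>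
    g2 (i + 1) hi i hi.le (by rw [← hS _ hm, hsucc, hσ])
  have hstep : ∀ i < n, |x (f (i + 1)) - x (f i)| ≤ η := by
    intro i hi
    have := h _ (nS1 i hi)
    rw [← hsucc, hx] at this
    convert this using 2
    ring
  have hdist : ∀ k i, i + k ≤ n → |x (f (i + k)) - x (f i)| ≤ k * η := by
    intro k
    induction k with
    | zero => intro i _; simp
    | succ k ihk =>
      intro i hi
      have a := ihk i (by omega)
      have b := hstep (i + k) (by omega)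
      have c := abs_sub_le (x (f (i + (k + 1)))) (x (f (i + k))) (x (f i))
      have e : i + (k + 1) = i + k + 1 := rfl
      rw [e] at c ⊢
      push_cast
      linarith
  have hd0 : ∀ i ≤ n, |x (f 0) - x (f i)| ≤ n * η := by
    intro i hi
    have a := hdist i 0 (by omega)
    rw [zero_add, abs_sub_comm] at a
    have : (i : ℝ) ≤ n := by exact_mod_cast hi
    nlinarith
  have hdn : ∀ i ≤ n, |x (f n) - x (f i)| ≤ n * η := by
    intro i hi
    obtain ⟨k, hk⟩ := Nat.exists_eq_add_of_le hi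
    have a := hdist k i (by omega)
    rw [← hk] at a
    have : (k : ℝ) ≤ n := by exact_mod_cast (by omega : k ≤ n)
    nlinarith
  set z : ℝ → D → ℝ := fun c d => if ∃ i ≤ n, d = f i then c else -c with hz
  have z1 : ∀ c, ∀ i ≤ n, z c (f i) = c := fun c i hi => if_pos ⟨i, hi, rfl⟩
  have z2 : ∀ c, ∀ i ≤ n, z c (ι (f i)) = -c := fun c i hi =>
    if_neg fun ⟨j, hj, e⟩ => g2 j hj i hi e.symm
  have z0 : ∀ d, z 0 d = 0 := by
    intro d
    simp only [hz, neg_zero, ite_self]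
  have hloc : ∃ (c : ℝ) (a b : D), |c| ≤ 1 ∧ (∀ i ≤ n, |c - x (f i)| ≤ (n + 1) * η) ∧
      a ∈ W ∧ b ∈ W ∧ ∀ d ∈ W, (d ∉ S → z c (σ d) = -z c d) ∧
        (d ∈ S → Equiv.swap a b d ∈ S ∧ z c (Equiv.swap a b d) = -z c d) := by
    have hc0 : ∀ i ≤ n, |x (f 0) - x (f i)| ≤ (n + 1) * η := fun i hi => by
      have := hd0 i hi
      linarith
    have inner : ∀ c, ∀ d ∈ W, d ≠ f 0 → d ≠ ι (f n) → d ∉ S ∧ z c (σ d) = -z c d := by
      intro c d hd a b
      obtain ⟨i, hi, rfl | rfl⟩ := (hWm _).1 hd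
      · match i, hi, a with
        | 0, _, a => exact absurd rfl a
        | i + 1, hi, _ =>
          refine ⟨nS2 i hi, ?_⟩
          rw [z1 c _ hi, hsucc, hσ, z2 c i (by omega)]
      · have hi' : i < n := lt_of_le_of_ne hi (fun e => b (by rw [e]))
        refine ⟨nS1 i hi', ?_⟩
        rw [← hsucc, z1 c _ hi', z2 c i hi, neg_neg]
    have hne : f 0 ≠ ι (f n) := g2 0 (Nat.zero_le _) n le_rfl
    rcases hend with he | he
    · refine ⟨x (f 0), f 0, f 0, h1 _, hc0, hW0, hW0, fun d hd => ?_⟩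
      have he' : σ (f 0) = ι (f n) := by rw [he, hσ]
      by_cases a : d = f 0
      · subst a
        refine ⟨fun _ => ?_, fun hm => absurd ((hS _ hm).symm.trans he') hne⟩
        rw [he', z2 _ n le_rfl, z1 _ 0 (Nat.zero_le _)]
      by_cases b : d = ι (f n)
      · subst b
        refine ⟨fun _ => ?_, fun hm => absurd (he.trans (hS _ hm)) hne⟩
        rw [← he, z2 _ n le_rfl, z1 _ 0 (Nat.zero_le _), neg_neg]
      have := inner (x (f 0)) d hd a b
      exact ⟨fun _ => this.2, fun hm => absurd hm this.1⟩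
    · by_cases hb : f 0 ∈ S ∧ ι (f n) ∈ S
      · refine ⟨x (f 0), f 0, ι (f n), h1 _, hc0, hW0, hWn, fun d hd => ?_⟩
        by_cases a : d = f 0
        · subst a
          refine ⟨fun hm => absurd hb.1 hm, fun _ => ?_⟩
          rw [Equiv.swap_apply_left, z2 _ n le_rfl, z1 _ 0 (Nat.zero_le _)]
          exact ⟨hb.2, rfl⟩
        by_cases b : d = ι (f n)
        · subst b
          refine ⟨fun hm => absurd hb.2 hm, fun _ => ?_⟩
          rw [Equiv.swap_apply_right, z2 _ n le_rfl, z1 _ 0 (Nat.zero_le _), neg_neg]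
          exact ⟨hb.1, rfl⟩
        have := inner (x (f 0)) d hd a b
        exact ⟨fun _ => this.2, fun hm => absurd hm this.1⟩
      · refine ⟨0, f 0, f 0, by simp, ?_, hW0, hW0, fun d hd => ?_⟩
        · intro i hi
          rw [zero_sub, abs_neg]
          rcases not_and_or.1 hb with hb | hb
          · have a := h _ hb
            rw [he.1] at a
            have b := hd0 i hi
            rw [abs_le] at a b ⊢
            constructor <;> linarith [a.1, a.2, b.1, b.2]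
          · have a := h _ hb
            rw [he.2, hx] at a
            have b := hdn i hi
            rw [abs_le] at a b ⊢
            constructor <;> linarith [a.1, a.2, b.1, b.2]
        · simp only [z0, neg_zero, Equiv.swap_self, Equiv.refl_apply]
          exact ⟨fun _ => trivial, fun hm => ⟨hm, trivial⟩⟩
  obtain ⟨c, a, b, hc1, hc2, ha, hb, hloc⟩ := hloc
  have πW : ∀ d ∈ W, π' d = d := fun d hd => hout d (fun h' => (Finset.mem_sdiff.1 h').2 hd)
  have πV : ∀ d, d ∉ W → π' d ∉ W := fun d hd h' => hd (by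
    have := πW _ h'
    rw [hπ'] at this
    rw [this]; exact h')
  have sW : ∀ d ∈ W, Equiv.swap a b d ∈ W := by
    intro d hd
    rw [Equiv.swap_apply_def]
    split_ifs <;> assumption
  refine ⟨fun d => if d ∈ W then z c d else ξ' d,
    fun d => if d ∈ W then Equiv.swap a b d else π' d, ?_, ?_, ?_⟩
  · intro d
    by_cases hd : d ∈ W
    · simp only [if_pos hd, if_pos (sW d hd), Equiv.swap_apply_self]
    · simp only [if_neg hd, if_neg (πV d hd)]
      exact hπ' d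
  · intro d hd
    have hd' : d ∉ W := fun h' => hd (hWs h')
    simp only [if_neg hd']
    exact hout d (fun h' => hd (Finset.mem_sdiff.1 h').1)
  · intro d hd
    by_cases hdW : d ∈ W
    · simp only [if_pos hdW, if_pos (wι d hdW), if_pos (wσ d hdW), if_pos (sW d hdW)]
      have hb2 : ∀ i ≤ n, |c - x (f i)| ≤ Fintype.card D * η := fun i hi =>
        (hc2 i hi).trans (mul_le_mul_of_nonneg_right hcard hη)
      refine ⟨?_, (hloc d hdW).1, (hloc d hdW).2, ?_, ?_⟩
      · obtain ⟨i, hi, rfl | rfl⟩ := (hWm _).1 hdW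
        · rw [z1 c i hi, z2 c i hi]
        · rw [hι, z1 c i hi, z2 c i hi, neg_neg]
      · obtain ⟨i, hi, rfl | rfl⟩ := (hWm _).1 hdW
        · rwa [z1 c i hi]
        · rwa [z2 c i hi, abs_neg]
      · obtain ⟨i, hi, rfl | rfl⟩ := (hWm _).1 hdW
        · rw [z1 c i hi]; exact hb2 i hi
        · rw [z2 c i hi, hx, ← abs_neg]
          convert hb2 i hi using 2
          ring
    · have hv : d ∈ s \ W := Finset.mem_sdiff.2 ⟨hd, hdW⟩
      simp only [if_neg hdW, if_neg (Finset.mem_sdiff.1 (vι d hv)).2,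
        if_neg (Finset.mem_sdiff.1 (vσ d hv)).2, if_neg (πV d hdW)]
      exact hin d hv

end DecAux

theorem dec {D : Type} [Fintype D] [DecidableEq D] (ι σ : D → D) (hι : Function.Involutive ι)
    (hf : ∀ d, ι d ≠ d) (hσ : Function.Involutive σ) :
    ∃ L : List (List D),
      (∀ γ ∈ L, ∃ h : γ ≠ [], γ.IsChain (fun d d' => d' = σ (ι d)) ∧
        (γ.head h = σ (ι (γ.getLast h)) ∨
          (σ (γ.head h) = γ.head h ∧ σ (ι (γ.getLast h)) = ι (γ.getLast h)))) ∧
      (↑L.flatten + Multiset.map ι ↑L.flatten : Multiset D) = Finset.univ.val :=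
  DecAux.dec_on ι σ hι hf hσ Finset.univ (fun _ _ => Finset.mem_univ _)
    (fun _ _ => Finset.mem_univ _)

theorem xi {D : Type} [Fintype D] (ι σ : D → D) (hι : Function.Involutive ι)
    (hf : ∀ d, ι d ≠ d) (hσ : Function.Involutive σ) (S : Set D) (hS : ∀ d ∈ S, σ d = d)
    (x : D → ℝ) (h1 : ∀ d, |x d| ≤ 1) (hx : ∀ d, x (ι d) = -x d) {η : ℝ} (hη : 0 ≤ η)
    (h : ∀ d, d ∉ S → |x d + x (σ d)| ≤ η) :
    ∃ (ξ : D → ℝ) (π : D → D), Function.Involutive π ∧ ∀ d,
      ξ (ι d) = -ξ d ∧ (d ∉ S → ξ (σ d) = -ξ d) ∧ (d ∈ S → π d ∈ S ∧ ξ (π d) = -ξ d) ∧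
      |ξ d| ≤ 1 ∧ |ξ d - x d| ≤ Fintype.card D * η := by
  obtain ⟨ξ, π, a, -, b⟩ := DecAux.xi_on ι σ hι hf hσ S hS x h1 hx hη h Finset.univ
    (fun _ _ => Finset.mem_univ _) (fun _ _ => Finset.mem_univ _)
  exact ⟨ξ, π, a, fun d => b d (Finset.mem_univ d)⟩

end Pool.Agent.MP_20201c_gt.H91
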