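import Pool.Agent.MP_20201c_gt.H91.Defs4
import Pool.Agent.MP_20201c_gt.H91.KitM1

/-! First variation identities for networks. -/

open MeasureTheory Set Filter Topology
open scoped ENNReal

namespace Pool.Agent.MP_20201c_gt.H91

namespace NA

theorem ip_le (x y : ℂ) : ip x y ≤ ‖x‖ * ‖y‖ := by
  have e : ip x y = inner ℝ x y := by
    simp only [ip, Complex.inner, Complex.mul_re, Complex.conj_re, Complex.conj_im]
    ring
  rw [e]
  exact real_inner_le_norm x y

theorem ip_smul_l (x y : ℂ) (t : ℝ) : ip (t • x) y = t * ip x y := by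
  simp only [ip, Complex.real_smul, Complex.mul_re, Complex.mul_im, Complex.ofReal_re,
    Complex.ofReal_im]
  ring

theorem ip_smul_r (x y : ℂ) (t : ℝ) : ip x (t • y) = t * ip x y := by
  simp only [ip, Complex.real_smul, Complex.mul_re, Complex.mul_im, Complex.ofReal_re,
    Complex.ofReal_im]
  ring

theorem ip_neg_r (x y : ℂ) : ip x (-y) = -ip x y := by
  simp only [ip, Complex.neg_re, Complex.neg_im]
  ring

theorem ip_sub_l (x y z : ℂ) : ip (x - y) z = ip x z - ip y z := by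
  simp only [ip, Complex.sub_re, Complex.sub_im]
  ring

theorem ip_self (x : ℂ) : ip x x = ‖x‖ * ‖x‖ := by
  rw [← sq, Complex.sq_norm, Complex.normSq_apply, ip]

theorem neg_ip_le (x y : ℂ) : -ip x y ≤ ‖x‖ * ‖y‖ := by
  rw [← ip_neg_r, ← norm_neg y]
  exact ip_le x (-y)

theorem ip_sum (x : ℂ) (w : Multiset ℂ) : ip x w.sum = (w.map (ip x)).sum := by
  induction w using Multiset.induction_on with
  | empty => simp [ip]
  | cons v w ih =>
    rw [Multiset.sum_cons, Multiset.map_cons, Multiset.sum_cons, ← ih]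
    simp only [ip, Complex.add_re, Complex.add_im]
    ring

theorem dir_swap (x y : ℂ) : dir (y, x) = -dir (x, y) := by
  simp only [dir]
  rw [norm_sub_rev, ← smul_neg, neg_sub]

theorem norm_dir {x y : ℂ} (h : x ≠ y) : ‖dir (x, y)‖ = 1 := by
  simp only [dir]
  rw [norm_smul, norm_inv, norm_norm,
    inv_mul_cancel₀ (norm_ne_zero_iff.2 (sub_ne_zero.2 h.symm))]

theorem dir_self (x : ℂ) : dir (x, x) = 0 := by simp [dir]

theorem norm_dir_le (x y : ℂ) : ‖dir (x, y)‖ ≤ 1 := by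
  by_cases h : x = y
  · rw [h, dir_self, norm_zero]
    exact zero_le_one
  · exact (norm_dir h).le

theorem smul_dir (x y : ℂ) : ‖y - x‖ • dir (x, y) = y - x := by
  by_cases h : y - x = 0
  · simp [h]
  · simp only [dir]
    rw [smul_smul, mul_inv_cancel₀ (norm_ne_zero_iff.2 h), one_smul]

theorem ip_dir (x y : ℂ) : ip (dir (x, y)) (y - x) = ‖y - x‖ := by
  by_cases h : y - x = 0
  · simp [h, ip]
  · simp only [dir]
    rw [ip_smul_l, ip_self, ← mul_assoc, inv_mul_cancel₀ (norm_ne_zero_iff.2 h), one_mul]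

theorem ip_dir' (x y : ℂ) : ip (y - x) (dir (x, y)) = ‖y - x‖ := by
  rw [← ip_dir, ip, ip]
  ring

open Classical in
theorem mono {x y : ℂ} (h : x ≠ y) (o : ℂ) :
    (if y = o then (1 : ℝ) else 0) + (if x = o then (1 : ℝ) else 0) ≤
      ip (dir (o, y) - dir (o, x)) (dir (x, y)) := by
  have hs : ip (dir (x, y)) (dir (x, y)) = 1 := by rw [ip_self, norm_dir h, mul_one]
  by_cases h1 : x = o
  · subst h1
    rw [if_neg h.symm, if_pos rfl, dir_self, sub_zero, hs, zero_add]
  by_cases h2 : y = o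
  · subst h2
    rw [if_neg h, if_pos rfl, dir_self, dir_swap x y, sub_neg_eq_add, zero_add, hs, add_zero]
  rw [if_neg h1, if_neg h2, add_zero]
  have a1 := ip_le (dir (o, y)) (x - o)
  have a2 := ip_le (dir (o, x)) (y - o)
  have a3 := ip_dir o y
  have a4 := ip_dir o x
  rw [norm_dir (Ne.symm h2), one_mul] at a1
  rw [norm_dir (Ne.symm h1), one_mul] at a2
  have e : ip (dir (o, y) - dir (o, x)) (y - x) = ip (dir (o, y)) (y - o) -
      ip (dir (o, y)) (x - o) - ip (dir (o, x)) (y - o) + ip (dir (o, x)) (x - o) := by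
    simp only [ip, Complex.sub_re, Complex.sub_im]
    ring
  have e' : dir (x, y) = ‖y - x‖⁻¹ • (y - x) := rfl
  rw [e', ip_smul_r]
  exact mul_nonneg (inv_nonneg.2 (norm_nonneg _)) (by linarith)

end NA

variable {m : ℕ} {a b : Fin m → ℂ}

theorem ddir_flip (δ : Fin m × Bool) : ddir a b (flip δ) = -ddir a b δ := by
  obtain ⟨e, _ | _⟩ := δ
  · exact NA.dir_swap (a e) (b e)
  · exact NA.dir_swap (b e) (a e)

theorem norm_ddir (hne : ∀ e, a e ≠ b e) (δ : Fin m × Bool) : ‖ddir a b δ‖ = 1 := by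
  obtain ⟨e, _ | _⟩ := δ
  · exact NA.norm_dir (hne e)
  · exact NA.norm_dir (hne e).symm

theorem dpos_flip (δ : Fin m × Bool) :
    dpos a b (flip δ) = dpos a b δ + ‖b δ.1 - a δ.1‖ • ddir a b δ := by
  obtain ⟨e, _ | _⟩ := δ
  · show b e = a e + ‖b e - a e‖ • dir (a e, b e)
    rw [NA.smul_dir, add_sub_cancel]
  · show a e = b e + ‖b e - a e‖ • dir (b e, a e)
    rw [norm_sub_rev, NA.smul_dir, add_sub_cancel]

theorem mem_En {y v : ℂ} : v ∈ En a b y ↔ ∃ δ, dpos a b δ = y ∧ ddir a b δ = v := by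
  simp only [En, Multiset.mem_map, Finset.mem_val, Finset.mem_filter, Finset.mem_univ, true_and]

theorem mem_Vx {y : ℂ} : y ∈ Vx a b ↔ En a b y ≠ 0 := by
  constructor
  · intro h h0
    obtain ⟨δ, -, hδ⟩ := Finset.mem_image.1 h
    have h1 : ddir a b δ ∈ En a b y := mem_En.2 ⟨δ, hδ, rfl⟩
    rw [h0] at h1
    exact Multiset.notMem_zero _ h1
  · intro h
    obtain ⟨v, hv⟩ := Multiset.exists_mem_of_ne_zero h
    obtain ⟨δ, hδ, -⟩ := mem_En.1 hv
    exact Finset.mem_image.2 ⟨δ, Finset.mem_univ _, hδ⟩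

theorem sum_darts (f : ℂ → ℂ → ℝ) :
    ∑ δ, f (dpos a b δ) (ddir a b δ) = ∑ y ∈ Vx a b, ((En a b y).map (f y)).sum := by
  rw [← Finset.sum_fiberwise_of_maps_to (s := Finset.univ) (t := Vx a b) (g := dpos a b)
    (fun δ hδ => Finset.mem_image_of_mem _ hδ)]
  refine Finset.sum_congr rfl fun y _ => ?_
  rw [En, Multiset.map_map]
  exact Finset.sum_congr rfl fun δ hδ => by
    rw [(Finset.mem_filter.1 hδ).2]
    rfl

theorem fv (X : ℂ → ℂ) : ∑ y ∈ Vx a b, ip (X y) (En a b y).sum =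
    -∑ e, ip (X (b e) - X (a e)) (dir (a e, b e)) := by
  simp only [NA.ip_sum]
  rw [← sum_darts (fun y v => ip (X y) v), Fintype.sum_prod_type, ← Finset.sum_neg_distrib]
  refine Finset.sum_congr rfl fun e _ => ?_
  rw [Fintype.sum_bool]
  show ip (X (b e)) (dir (b e, a e)) + ip (X (a e)) (dir (a e, b e)) = _
  rw [NA.dir_swap (a e) (b e), NA.ip_neg_r, NA.ip_sub_l]
  ring

namespace NA

theorem card_le (hne : ∀ e, a e ≠ b e) (o : ℂ) :
    ((En a b o).card : ℝ) ≤ ∑ y ∈ Vx a b, -ip (dir (o, y)) (En a b y).sum := by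
  rw [Finset.sum_neg_distrib, fv (fun y => dir (o, y)), neg_neg, En, Multiset.card_map,
    ← Finset.card_def, Finset.card_filter, Nat.cast_sum, Fintype.sum_prod_type]
  refine Finset.sum_le_sum fun e _ => ?_
  rw [Fintype.sum_bool]
  refine le_trans (le_of_eq ?_) (mono (hne e) o)
  simp [dpos]

theorem norm_one (hne : ∀ e, a e ≠ b e) {y : ℂ} (h : (En a b y).card = 1) :
    ‖(En a b y).sum‖ = 1 := by
  obtain ⟨v, hv⟩ := Multiset.card_eq_one.1 h
  obtain ⟨δ, -, hδ⟩ := mem_En.1 (hv ▸ Multiset.mem_singleton_self v : v ∈ En a b y)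
  rw [hv, Multiset.sum_singleton, ← hδ, norm_ddir hne]

theorem sum_p {n : ℕ} {p : Fin n → ℂ} (hi : Function.Injective p)
    (hP : ∀ i, (En a b (p i)).card = 1) (g : ℂ → ℝ) (hg : ∀ y, y ∉ range p → g y = 0) :
    ∑ y ∈ Vx a b, g y = ∑ i, g (p i) := by
  rw [← Finset.sum_image (s := Finset.univ) (g := p) (f := g) fun i _ j _ h => hi h]
  refine (Finset.sum_subset (fun y hy => ?_) fun y _ hy => hg y fun h => hy ?_).symm
  · obtain ⟨i, -, rfl⟩ := Finset.mem_image.1 hy
    refine mem_Vx.2 fun h => ?_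
    have h1 := hP i
    rw [h] at h1
    exact zero_ne_one h1
  · obtain ⟨i, rfl⟩ := h
    exact Finset.mem_image_of_mem _ (Finset.mem_univ i)

open Classical in
theorem card_p (s : Finset ℂ) {n : ℕ} (p : Fin n → ℂ) :
    ((s.filter fun y => y ∈ range p).card : ℝ) ≤ n := by
  have h : s.filter (fun y => y ∈ range p) ⊆ Finset.univ.image p := fun y hy => by
    obtain ⟨i, rfl⟩ := (Finset.mem_filter.1 hy).2
    exact Finset.mem_image_of_mem _ (Finset.mem_univ i)
  have h1 := (Finset.card_le_card h).trans Finset.card_image_le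
  rw [Finset.card_univ, Fintype.card_fin] at h1
  exact_mod_cast h1

end NA

/-- A junction of degree at least the number of boundary points is a star. -/
theorem big (hne : ∀ e, a e ≠ b e) {n : ℕ} {p : Fin n → ℂ} (hi : Function.Injective p)
    (hP : ∀ i, (En a b (p i)).card = 1) {o : ℂ} (ho : o ∉ range p)
    (h0 : ∀ y, y ∉ range p → ip (y - o) (En a b y).sum = 0) (hn : n ≤ (En a b o).card) :
    ∑ i, ‖p i - o‖ ≤ ∑ e, ‖b e - a e‖ := by
  have _ := ho
  have h1 := NA.card_le hne o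
  rw [NA.sum_p hi hP _ fun y hy => by
    show -ip (‖y - o‖⁻¹ • (y - o)) (En a b y).sum = 0
    rw [NA.ip_smul_l, h0 y hy, mul_zero, neg_zero]] at h1
  have h2 : ∀ i, -ip (dir (o, p i)) (En a b (p i)).sum ≤ 1 := fun i => by
    have h := NA.neg_ip_le (dir (o, p i)) (En a b (p i)).sum
    rw [NA.norm_one hne (hP i), mul_one] at h
    exact h.trans (NA.norm_dir_le _ _)
  have h3 : ∑ i, -ip (dir (o, p i)) (En a b (p i)).sum = ∑ _i : Fin n, (1 : ℝ) := by
    refine le_antisymm (Finset.sum_le_sum fun i _ => h2 i) ?_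
    rw [Finset.sum_const, Finset.card_univ, Fintype.card_fin, nsmul_eq_mul, mul_one]
    exact (Nat.cast_le.2 hn).trans h1
  have h4 := (Finset.sum_eq_sum_iff_of_le fun i _ => h2 i).1 h3
  have h5 := fv (a := a) (b := b) fun y => y - o
  rw [NA.sum_p hi hP _ h0] at h5
  have e1 : ∑ i, ip (p i - o) (En a b (p i)).sum = -∑ i, ‖p i - o‖ := by
    rw [← Finset.sum_neg_distrib]
    refine Finset.sum_congr rfl fun i hi' => ?_
    have h := h4 i hi'
    have h' := NA.ip_smul_l (dir (o, p i)) (En a b (p i)).sum ‖p i - o‖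
    rw [NA.smul_dir, neg_eq_iff_eq_neg.1 h, mul_neg, mul_one] at h'
    exact h'
  have e2 : ∑ e, ip (b e - o - (a e - o)) (dir (a e, b e)) = ∑ e, ‖b e - a e‖ :=
    Finset.sum_congr rfl fun e _ => by rw [sub_sub_sub_cancel_right, NA.ip_dir']
  rw [e1, e2] at h5
  linarith

open Classical in
theorem deg_le (hne : ∀ e, a e ≠ b e) {n : ℕ} {p : Fin n → ℂ}
    (hP : ∀ i, (En a b (p i)).card = 1) {A : ℝ}
    (hA : ∑ y ∈ (Vx a b).filter (fun y => y ∉ range p), ‖(En a b y).sum‖ ≤ A) (y : ℂ) :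
    ((En a b y).card : ℝ) ≤ A + n := by
  have h1 := NA.card_le hne y
  have h2 : ∑ z ∈ Vx a b, -ip (dir (y, z)) (En a b z).sum ≤ ∑ z ∈ Vx a b, ‖(En a b z).sum‖ :=
    Finset.sum_le_sum fun z _ => (NA.neg_ip_le _ _).trans
      (mul_le_of_le_one_left (norm_nonneg _) (NA.norm_dir_le _ _))
  rw [← Finset.sum_filter_add_sum_filter_not (Vx a b) (fun z => z ∈ range p)
    (fun z => ‖(En a b z).sum‖)] at h2
  have h3 : ∑ z ∈ (Vx a b).filter (fun z => z ∈ range p), ‖(En a b z).sum‖ ≤ n := by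
    rw [Finset.sum_congr rfl (g := fun _ => (1 : ℝ)) fun z hz => by
      obtain ⟨i, rfl⟩ := (Finset.mem_filter.1 hz).2
      exact NA.norm_one hne (hP i), Finset.sum_const, nsmul_eq_mul, mul_one]
    exact NA.card_p _ p
  linarith

open Classical in
theorem darts_le (hne : ∀ e, a e ≠ b e) {n : ℕ} {p : Fin n → ℂ}
    (hP : ∀ i, (En a b (p i)).card = 1) {A : ℝ}
    (hA : ∑ y ∈ (Vx a b).filter (fun y => y ∉ range p), ‖(En a b y).sum‖ ≤ A) (Y : Finset ℂ)
    (hY : ∀ y, y ∉ range p → y ∉ Y → En a b y ≠ 0 → 3 / 4 ≤ ‖(En a b y).sum‖) :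
    (2 * m : ℝ) ≤ (A + n) * (Y.card + 2 * A + n) := by
  have hA0 : 0 ≤ A := (Finset.sum_nonneg fun y _ => norm_nonneg _).trans hA
  have h1 := sum_darts (a := a) (b := b) fun _ _ => 1
  rw [Finset.sum_const, Finset.card_univ, Fintype.card_prod, Fintype.card_fin, Fintype.card_bool,
    nsmul_eq_mul, mul_one] at h1
  have h2 : ∑ y ∈ Vx a b, ((En a b y).map fun _ => (1 : ℝ)).sum ≤ ∑ _y ∈ Vx a b, (A + n) :=
    Finset.sum_le_sum fun y _ => by
      rw [Multiset.map_const', Multiset.sum_replicate, nsmul_eq_mul, mul_one]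
      exact deg_le hne hP hA y
  rw [Finset.sum_const, nsmul_eq_mul] at h2
  have c1 := Finset.card_filter_add_card_filter_not (s := Vx a b) fun y => y ∈ range p
  have c2 := Finset.card_filter_add_card_filter_not
    (s := (Vx a b).filter fun y => y ∉ range p) fun y => y ∈ Y
  have c3 := NA.card_p (Vx a b) p
  have c4 : (((Vx a b).filter fun y => y ∉ range p).filter fun y => y ∈ Y).card ≤ Y.card :=
    Finset.card_le_card fun y hy => (Finset.mem_filter.1 hy).2
  have c5 : ∑ _y ∈ ((Vx a b).filter fun y => y ∉ range p).filter (fun y => y ∉ Y), (3 / 4 : ℝ) ≤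
      A := by
    refine le_trans (Finset.sum_le_sum fun y hy => ?_)
      ((Finset.sum_le_sum_of_subset_of_nonneg (Finset.filter_subset _ _)
        fun y _ _ => norm_nonneg _).trans hA)
    have h := Finset.mem_filter.1 hy
    have h' := Finset.mem_filter.1 h.1
    exact hY y h'.2 h.2 (mem_Vx.1 h'.1)
  rw [Finset.sum_const, nsmul_eq_mul] at c5
  have d1 : ((Vx a b).card : ℝ) ≤ Y.card + 2 * A + n := by
    rw [← c1, ← c2]
    have c4' := (Nat.cast_le (α := ℝ)).2 c4
    push_cast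
    linarith
  have d2 := mul_le_mul_of_nonneg_right d1 (show 0 ≤ A + n by positivity)
  push_cast at h1
  linarith

end Pool.Agent.MP_20201c_gt.H91
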