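import Pool.Agent.MP_20201c_gt.H91.Norm
import Pool.Agent.MP_20201c_gt.H91.Dec
import Pool.Agent.MP_20201c_gt.H91.NetAlg
import Pool.Agent.MP_20201c_gt.H33.Assemble

/-! Limits of almost reflective networks are billiard trajectories. -/

open MeasureTheory Set Filter Topology
open scoped ENNReal

namespace Pool.Agent.MP_20201c_gt.H91

namespace Fin33

/-- Short-circuiting the degenerate edges. -/
theorem short {D A : Type} [DecidableEq D] {ι : D → D} (hι : Function.Involutive ι) (f : D → A)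
    {κ : A → A} (hκ : Function.Involutive κ) (deg : D → Prop)
    (hdeg : ∀ d, deg d → deg (ι d) ∧ f (ι d) = κ (f d) ∧ f (ι d) ≠ f d) :
    ∀ (n : ℕ) (S : Finset D), S.card = n → ∀ σ : D → D,
      (∀ d ∈ S, ι d ∈ S ∧ σ d ∈ S ∧ σ (σ d) = d ∧ f (σ d) = κ (f d)) →
      ∃ σ' : D → D, ∀ d ∈ S, ¬ deg d →
        σ' d ∈ S ∧ ¬ deg (σ' d) ∧ σ' (σ' d) = d ∧ f (σ' d) = κ (f d) := by
  intro n
  induction n using Nat.strong_induction_on with
  | _ n ih =>
  intro S hS σ H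
  by_cases h : ∃ d ∈ S, deg d
  swap
  · push Not at h
    exact ⟨σ, fun d hd _ => ⟨(H d hd).2.1, h _ (H d hd).2.1, (H d hd).2.2⟩⟩
  obtain ⟨d, hd, hdd⟩ := h
  obtain ⟨g1, g2, g3⟩ := hdeg d hdd
  obtain ⟨a1, a2, a3, a4⟩ := H d hd
  obtain ⟨-, b2, b3, b4⟩ := H (ι d) a1
  have n0 : ι d ≠ d := fun hx => g3 (by rw [hx])
  have n1 : σ (ι d) ≠ σ d := fun hx => n0 (by rw [← b3, hx, a3])
  have n2 : σ d ≠ d := fun hx => g3 (by rw [g2, ← a4, hx])
  have n3 : σ (ι d) ≠ ι d := fun hx => g3 (by rw [← hx, b4, g2, hκ])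
  obtain ⟨σ', h'⟩ := ih _
    (lt_of_le_of_lt Finset.card_erase_le (hS ▸ Finset.card_erase_lt_of_mem hd))
    ((S.erase d).erase (ι d)) rfl
    (fun k => if k = σ d then σ (ι d) else if k = σ (ι d) then σ d else σ k) (by
      intro k hk
      simp only [Finset.mem_erase] at hk ⊢
      obtain ⟨k1, k2, k3⟩ := hk
      obtain ⟨c1, c2, c3, c4⟩ := H k k3
      refine ⟨⟨fun hx => k2 (hι.injective hx), fun hx => k1 (by rw [← hx, hι]), c1⟩, ?_⟩
      by_cases e1 : k = σ d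
      · subst e1
        simp only [if_true, n1, if_false]
        refine ⟨⟨n3, fun hx => k1 (by rw [← b3, hx]), b2⟩, trivial, ?_⟩
        rw [b4, g2, a4]
      by_cases e2 : k = σ (ι d)
      · subst e2
        simp only [if_true, n1, if_false]
        refine ⟨⟨fun hx => k2 (by rw [← hx, a3]), n2, a2⟩, trivial, ?_⟩
        rw [a4, b4, g2, hκ]
      have f1 : σ k ≠ σ d := fun hx => k2 (by rw [← c3, hx, a3])
      have f2 : σ k ≠ σ (ι d) := fun hx => k1 (by rw [← c3, hx, b3])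
      simp only [e1, e2, f1, f2, if_false]
      exact ⟨⟨fun hx => e2 (by rw [← c3, hx]), fun hx => e1 (by rw [← c3, hx]), c2⟩, c3, c4⟩)
  refine ⟨σ', fun k hk hkd => ?_⟩
  have hk' : k ∈ (S.erase d).erase (ι d) := by
    simp only [Finset.mem_erase]
    exact ⟨fun hx => hkd (hx ▸ g1), fun hx => hkd (hx ▸ hdd), hk⟩
  obtain ⟨c1, c2⟩ := h' k hk' hkd
  exact ⟨Finset.mem_of_mem_erase (Finset.mem_of_mem_erase c1), c2⟩

theorem sq_norm (z : ℂ) : ‖z‖ ^ 2 = z.re ^ 2 + z.im ^ 2 := by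
  rw [Complex.sq_norm, Complex.normSq_apply]; ring

theorem decomp {n : ℂ} (hn : ‖n‖ = 1) (u : ℂ) :
    u = ip n u • n + dt n u • (Complex.I * n) := by
  have h := sq_norm n
  rw [hn] at h
  apply Complex.ext
  · simp [ip, dt]; linear_combination u.re * h
  · simp [ip, dt]; linear_combination u.im * h

theorem ip_dt {n u : ℂ} (hn : ‖n‖ = 1) (hu : ‖u‖ = 1) : ip n u ^ 2 + dt n u ^ 2 = 1 := by
  have h := sq_norm n
  have h' := sq_norm u
  rw [hn] at h; rw [hu] at h'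
  simp only [ip, dt]
  linear_combination (-(u.re ^ 2 + u.im ^ 2)) * h - h'

theorem refl_eq {ρ₀ : ℂ → ℝ} {q g : ℂ} (hg : g ≠ 0) (hd : ∀ v, fderiv ℝ ρ₀ q v = ip g v) (u : ℂ) :
    (tang ρ₀ q).reflection (-u) =
      ip (‖g‖⁻¹ • g) u • (‖g‖⁻¹ • g) - dt (‖g‖⁻¹ • g) u • (Complex.I * (‖g‖⁻¹ • g)) := by
  have hn : ‖‖g‖⁻¹ • g‖ = 1 := norm_smul_inv_norm hg
  have mem : ∀ v, v ∈ tang ρ₀ q ↔ ip g v = 0 := by
    intro v; rw [← hd]; rfl
  have h1 : Complex.I * (‖g‖⁻¹ • g) ∈ tang ρ₀ q := by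
    rw [mem]; simp [ip]; ring
  have h2 : ‖g‖⁻¹ • g ∈ (tang ρ₀ q)ᗮ := by
    refine Submodule.smul_mem _ _ ?_
    rw [Submodule.mem_orthogonal]
    intro v hv
    rw [mem] at hv
    rw [Complex.inner]
    simp only [ip] at hv
    simp; linarith
  generalize ‖g‖⁻¹ • g = n at *
  conv_lhs => rw [decomp hn u]
  rw [map_neg, map_add, map_smul, map_smul, Submodule.reflection_mem_subspace_eq_self h1,
    Submodule.reflection_mem_subspace_orthogonalComplement_eq_neg h2, smul_neg]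
  abel

theorem cont_ip : Continuous fun x : ℂ × ℂ => ip x.1 x.2 := by unfold ip; fun_prop

theorem cont_dt : Continuous fun x : ℂ × ℂ => dt x.1 x.2 := by unfold dt; fun_prop

theorem flip_inv {m : ℕ} : Function.Involutive (flip : Fin m × Bool → Fin m × Bool) := by
  intro d; simp [flip]

theorem norm_flip {m : ℕ} (a b : Fin m → ℂ) (δ : Fin m × Bool) :
    ‖dpos a b (flip δ) - dpos a b δ‖ = ‖b δ.1 - a δ.1‖ := by
  obtain ⟨e, _ | _⟩ := δ
  · simp [dpos, flip]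
  · simp [dpos, flip, norm_sub_rev]

theorem seg_flip {m : ℕ} (a b : Fin m → ℂ) (δ : Fin m × Bool) :
    segment ℝ (dpos a b δ) (dpos a b (flip δ)) = segment ℝ (a δ.1) (b δ.1) := by
  obtain ⟨e, _ | _⟩ := δ
  · simp [dpos, flip]
  · simp [dpos, flip, segment_symm]

/-- The exact network. -/
theorem exact {ρ₀ ρ : ℂ → ℝ} {gr : ℂ → ℂ} {L c₀ β R : ℝ} (hG : Good ρ gr L c₀ β R)
    (hΩ : {z | 0 < ρ z} = {z | 0 < ρ₀ z})
    (hd : ∀ z, ρ z = 0 → ∀ v, fderiv ℝ ρ₀ z v = ip (gr z) v) {D : Type} [Fintype D]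
    {ι σ : D → D} (hι : Function.Involutive ι) (hσ : Function.Involutive σ) (P u : D → ℂ)
    (h1 : ∀ d, ‖u d‖ = 1) (h2 : ∀ d, u (ι d) = -u d)
    (h3 : ∀ d, P (ι d) = P d + ‖P (ι d) - P d‖ • u d) (h4 : ∀ d, ρ (P d) = 0)
    (h5 : ∀ d, ∀ z ∈ segment ℝ (P d) (P (ι d)), 0 ≤ ρ z) (h6 : ∀ d, P (σ d) = P d)
    (h7 : ∀ d, 0 ≤ ip (nrm gr (P d)) (u d))
    (h8 : ∀ d, dt (nrm gr (P d)) (u d) + dt (nrm gr (P d)) (u (σ d)) = 0) :
    ∃ 𝓛 : List (List (ℂ × ℂ)), (∀ γ ∈ 𝓛, IsBilliard ρ₀ γ) ∧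
      2 * (𝓛.map len).sum = ∑ d, ‖P (ι d) - P d‖ := by
  classical
  have hg : ∀ d, gr (P d) ≠ 0 := by
    intro d h0
    have := hG.low (P d) (by rw [h4, abs_zero]; exact hG.hβ.le)
    rw [h0, norm_zero] at this
    exact absurd hG.hc (not_lt.2 this)
  have hn : ∀ d, ‖nrm gr (P d)‖ = 1 := fun d => norm_smul_inv_norm (hg d)
  have law : ∀ d v, ‖v‖ = 1 → 0 ≤ ip (nrm gr (P d)) v →
      dt (nrm gr (P d)) (u d) + dt (nrm gr (P d)) v = 0 →
      v = (tang ρ₀ (P d)).reflection (-u d) := by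
    intro d v v1 v2 v3
    rw [refl_eq (hg d) (hd _ (h4 d))]
    have e1 := ip_dt (hn d) v1
    have e2 := ip_dt (hn d) (h1 d)
    have e3 : dt (nrm gr (P d)) v = -dt (nrm gr (P d)) (u d) := by linarith
    have e4 : ip (nrm gr (P d)) v = ip (nrm gr (P d)) (u d) := by
      refine (sq_eq_sq₀ v2 (h7 d)).1 ?_
      rw [e3] at e1; linarith
    have := decomp (hn d) v
    rw [e3, e4, neg_smul, ← sub_eq_add_neg] at this
    exact this
  have une : ∀ d, -u d ≠ u d := by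
    intro d h0
    have : u d = 0 := by linear_combination (-1 / 2 : ℂ) * h0
    have h := h1 d
    rw [this] at h; simp at h
  obtain ⟨j, hj⟩ := short hι (fun d => (P d, u d))
    (κ := fun x : ℂ × ℂ => (x.1, (tang ρ₀ x.1).reflection (-x.2)))
    (by intro x; simp) (fun d => P (ι d) = P d) (by
      intro d h0
      refine ⟨by rw [hι, h0], Prod.ext h0 ?_, fun hx => une d ?_⟩
      · refine law d _ (h1 _) (h0 ▸ h7 (ι d)) ?_
        rw [h2]; simp only [dt, Complex.neg_re, Complex.neg_im]; ring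
      · rw [← h2]; exact congrArg Prod.snd hx) _ Finset.univ rfl σ (by
      intro d _
      exact ⟨Finset.mem_univ _, Finset.mem_univ _, hσ d,
        Prod.ext (h6 d) (law d _ (h1 _) (h6 d ▸ h7 (σ d)) (h8 d))⟩)
  have hdir : ∀ d, P (ι d) ≠ P d → dir (P d, P (ι d)) = u d := by
    intro d h0
    have hp : ‖P (ι d) - P d‖ ≠ 0 := norm_ne_zero_iff.2 (sub_ne_zero.2 h0)
    have : P (ι d) - P d = ‖P (ι d) - P d‖ • u d := by
      rw [sub_eq_iff_eq_add']; exact h3 d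
    simp only [dir]
    conv_lhs => rw [this]
    rw [← this, this, smul_smul, ← this, inv_mul_cancel₀ hp, one_smul]
  obtain ⟨Γ, g1, g2⟩ := H33.Dat.exists_list (ρ := ρ₀) j (fun h => (P h, P (ι h))) _
    (Finset.univ.filter fun d => P (ι d) ≠ P d) rfl ι (fun h => [(P h, P (ι h))]) (by
      intro h hh
      simp only [Finset.mem_filter, Finset.mem_univ, true_and] at hh ⊢
      obtain ⟨-, j1, j2, j3⟩ := hj h (Finset.mem_univ _) hh
      have j4 : P (j h) = P h := congrArg Prod.fst j3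
      have j5 : u (j h) = (tang ρ₀ (P h)).reflection (-u h) := congrArg Prod.snd j3
      refine ⟨⟨by rw [hι]; exact hh.symm, hι h, fun hx => hh (by rw [hx]), j1, j2⟩, rfl,
        by simp [hι h], ?_, List.isChain_singleton _, by simp [len, hι h, norm_sub_rev],
        j4.symm, ?_⟩
      · intro s hs
        rw [List.mem_singleton.1 hs]
        refine ⟨hh.symm, ?_, ?_, ?_⟩
        · rw [← hΩ, hG.frontier]; exact h4 _
        · rw [← hΩ, hG.frontier]; exact h4 _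
        · rw [← hΩ, hG.closure]; exact h5 h
      · rw [H33.dir_swap, hdir _ j1, hdir _ hh]; exact j5)
  refine ⟨Γ, g1, ?_⟩
  rw [g2, Finset.sum_filter]
  refine Finset.sum_congr rfl fun d _ => ?_
  split_ifs with h0
  · simp [len]
  · push Not at h0; simp [h0]

end Fin33

open Fin33 in
theorem final_lim {ρ₀ ρ : ℂ → ℝ} {gr : ℂ → ℂ} {L c₀ β R : ℝ} (hG : Good ρ gr L c₀ β R)
    (hΩ : {z | 0 < ρ z} = {z | 0 < ρ₀ z})
    (hd : ∀ z, ρ z = 0 → ∀ v, fderiv ℝ ρ₀ z v = ip (gr z) v) (N₀ : ℕ) (c : ℝ)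
    (h : ∀ ε, 0 < ε → ∃ m, m ≤ N₀ ∧ ∃ (a b : Fin m → ℂ) (σ : Fin m × Bool → Fin m × Bool),
      Function.Involutive σ ∧ (∀ e, a e ≠ b e ∧ ∀ z ∈ segment ℝ (a e) (b e), -ε ≤ ρ z) ∧
      |∑ e, ‖b e - a e‖ - c| ≤ ε ∧ ∀ δ, dpos a b (σ δ) = dpos a b δ ∧ |ρ (dpos a b δ)| ≤ ε ∧
        -ε ≤ ip (nrm gr (dpos a b δ)) (ddir a b δ) ∧
        |dt (nrm gr (dpos a b δ)) (ddir a b δ) + dt (nrm gr (dpos a b δ)) (ddir a b (σ δ))| ≤ ε) :
    ∃ 𝓛 : List (List (ℂ × ℂ)), (∀ γ ∈ 𝓛, IsBilliard ρ₀ γ) ∧ (𝓛.map len).sum = c := by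
  classical
  let Q : ℝ → (Σ m : Fin (N₀ + 1), (Fin m × Bool → Fin m × Bool)) → Prop := fun ε i =>
    ∃ a b : Fin i.1 → ℂ, Function.Involutive i.2 ∧
      (∀ e, a e ≠ b e ∧ ∀ z ∈ segment ℝ (a e) (b e), -ε ≤ ρ z) ∧
      |∑ e, ‖b e - a e‖ - c| ≤ ε ∧ ∀ δ, dpos a b (i.2 δ) = dpos a b δ ∧ |ρ (dpos a b δ)| ≤ ε ∧
        -ε ≤ ip (nrm gr (dpos a b δ)) (ddir a b δ) ∧
        |dt (nrm gr (dpos a b δ)) (ddir a b δ) + dt (nrm gr (dpos a b δ)) (ddir a b (i.2 δ))| ≤ ε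
  let ε : ℕ → ℝ := fun n => β * (1 / ((n : ℝ) + 1))
  have ε0 : ∀ n, 0 < ε n := fun n => mul_pos hG.hβ Nat.one_div_pos_of_nat
  have ε1 : ∀ n, ε n ≤ β := fun n => mul_le_of_le_one_right hG.hβ.le (by
    rw [div_le_one (by positivity)]; linarith [(Nat.cast_nonneg n : (0 : ℝ) ≤ n)])
  have εt : Tendsto ε atTop (𝓝 0) := by
    have := (tendsto_one_div_add_atTop_nhds_zero_nat (𝕜 := ℝ)).const_mul β
    rwa [mul_zero] at this
  have hQ : ∀ n, ∃ i, Q (ε n) i := by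
    intro n
    obtain ⟨m, hm, a, b, σ, r⟩ := h (ε n) (ε0 n)
    exact ⟨⟨⟨m, by omega⟩, σ⟩, a, b, r⟩
  obtain ⟨i, hi⟩ : ∃ i, ∃ᶠ n in atTop, Q (ε n) i := by
    by_contra hc
    push Not at hc
    obtain ⟨n, hn⟩ := (eventually_all.2 hc).exists
    obtain ⟨i, hi⟩ := hQ n
    exact hn i hi
  obtain ⟨φ, φm, hφ⟩ := extraction_of_frequently_atTop hi
  obtain ⟨m, σ⟩ := i
  choose a b hσ hne hlen hδ using hφ
  have εφ : Tendsto (fun n => ε (φ n)) atTop (𝓝 0) := εt.comp φm.tendsto_atTop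
  have hK : IsCompact (Set.pi univ fun _ : Fin m × Bool =>
      Metric.closedBall (0 : ℂ) R ×ˢ Metric.sphere (0 : ℂ) 1) :=
    isCompact_univ_pi fun _ => (isCompact_closedBall _ _).prod (isCompact_sphere _ _)
  obtain ⟨x, hx, ψ, ψm, hψ⟩ := hK.tendsto_subseq
    (x := fun n δ => (dpos (a n) (b n) δ, ddir (a n) (b n) δ)) (by
      intro n δ _
      refine ⟨?_, ?_⟩
      · have := hG.ball _ (le_trans (neg_le_neg (ε1 (φ n))) (abs_le.1 (hδ n δ).2.1).1)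
        simp only [mem_closedBall_zero_iff]; linarith
      · simpa using norm_ddir (fun e => (hne n e).1) δ)
  have εψ : Tendsto (fun n => ε (φ (ψ n))) atTop (𝓝 0) := εφ.comp ψm.tendsto_atTop
  have tP : ∀ δ, Tendsto (fun n => dpos (a (ψ n)) (b (ψ n)) δ) atTop (𝓝 (x δ).1) :=
    fun δ => (continuous_fst.tendsto _).comp (tendsto_pi_nhds.1 hψ δ)
  have tU : ∀ δ, Tendsto (fun n => ddir (a (ψ n)) (b (ψ n)) δ) atTop (𝓝 (x δ).2) :=
    fun δ => (continuous_snd.tendsto _).comp (tendsto_pi_nhds.1 hψ δ)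
  have h4 : ∀ δ, ρ (x δ).1 = 0 := by
    intro δ
    have := le_of_tendsto_of_tendsto' (((hG.continuous.tendsto _).comp (tP δ)).abs) εψ
      fun n => (hδ (ψ n) δ).2.1
    exact abs_nonpos_iff.1 this
  have tN : ∀ δ, Tendsto (fun n => nrm gr (dpos (a (ψ n)) (b (ψ n)) δ)) atTop
      (𝓝 (nrm gr (x δ).1)) := by
    intro δ
    have hg : Continuous gr := by
      refine (LipschitzWith.of_dist_le_mul (K := ⟨L, hG.hL.le⟩) fun z w => ?_).continuous
      rw [dist_eq_norm, dist_eq_norm]; exact hG.lipg w z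
    have h0 : ‖gr (x δ).1‖ ≠ 0 :=
      (lt_of_lt_of_le hG.hc (hG.low _ (by rw [h4, abs_zero]; exact hG.hβ.le))).ne'
    have t1 := (hg.tendsto _).comp (tP δ)
    exact (t1.norm.inv₀ h0).smul t1
  obtain ⟨Γ, g1, g2⟩ := Fin33.exact hG hΩ hd flip_inv (hσ 0) (fun δ => (x δ).1) (fun δ => (x δ).2)
    (fun δ => by simpa using (hx δ trivial).2)
    (fun δ => tendsto_nhds_unique (tU (flip δ)) (by simpa only [ddir_flip] using (tU δ).neg))
    (fun δ => by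
      refine tendsto_nhds_unique (tP (flip δ)) ?_
      refine ((tP δ).add (((tP (flip δ)).sub (tP δ)).norm.smul (tU δ))).congr fun n => ?_
      rw [norm_flip, ← dpos_flip])
    h4
    (fun δ z hz => by
      rw [segment_eq_image'] at hz
      obtain ⟨t, ht, rfl⟩ := hz
      have t1 := (hG.continuous.tendsto _).comp
        ((tP δ).add (((tP (flip δ)).sub (tP δ)).const_smul t))
      have t2 := εψ.neg
      rw [neg_zero] at t2
      refine le_of_tendsto_of_tendsto' t2 t1 fun n => (hne (ψ n) δ.1).2 _ ?_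
      rw [← seg_flip, segment_eq_image']
      exact ⟨t, ht, rfl⟩)
    (fun δ => tendsto_nhds_unique (tP (σ δ)) ((tP δ).congr fun n => (hδ (ψ n) δ).1.symm))
    (fun δ => by
      have t1 := (cont_ip.tendsto _).comp ((tN δ).prodMk_nhds (tU δ))
      have t2 := εψ.neg
      rw [neg_zero] at t2
      exact le_of_tendsto_of_tendsto' t2 t1 fun n => (hδ (ψ n) δ).2.2.1)
    (fun δ => by
      have t1 := (cont_dt.tendsto _).comp ((tN δ).prodMk_nhds (tU δ))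
      have t2 := (cont_dt.tendsto _).comp ((tN δ).prodMk_nhds (tU (σ δ)))
      exact abs_nonpos_iff.1
        (le_of_tendsto_of_tendsto' (t1.add t2).abs εψ fun n => (hδ (ψ n) δ).2.2.2))
  refine ⟨Γ, g1, ?_⟩
  have t1 : Tendsto (fun n => ∑ δ, ‖dpos (a (ψ n)) (b (ψ n)) (flip δ) -
      dpos (a (ψ n)) (b (ψ n)) δ‖) atTop (𝓝 (∑ δ, ‖(x (flip δ)).1 - (x δ).1‖)) :=
    tendsto_finsetSum _ fun δ _ => ((tP (flip δ)).sub (tP δ)).norm
  have t2 := ((t1.div_const 2).sub_const c).abs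
  have t3 := le_of_tendsto_of_tendsto' t2 εψ fun n => by
    have : (∑ δ, ‖dpos (a (ψ n)) (b (ψ n)) (flip δ) - dpos (a (ψ n)) (b (ψ n)) δ‖) / 2 =
        ∑ e, ‖b (ψ n) e - a (ψ n) e‖ := by
      simp only [norm_flip, Fintype.sum_prod_type, Fintype.sum_bool, Finset.sum_add_distrib]
      ring
    simp only [this]
    exact hlen (ψ n)
  have t4 := abs_nonpos_iff.1 t3
  linarith

end Pool.Agent.MP_20201c_gt.H91
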