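import Pool.Agent.MP_20201c_gt.H91.NetG
import Pool.Agent.MP_20201c_gt.H91.Disc
import Pool.Agent.MP_20201c_gt.H91.Final

/-! Assembly. -/

open MeasureTheory Set Filter Topology
open scoped ENNReal

namespace Pool.Agent.MP_20201c_gt.H91

theorem main_of_finite {ρ : ℂ → ℝ} (hρ : ContDiff ℝ 2 ρ) (hb : Bornology.IsBounded {z | 0 < ρ z})
    (hc : IsConnected {z | 0 < ρ z}) (hr : ∀ z, ρ z = 0 → fderiv ℝ ρ z ≠ 0) {p : ℕ} (hp : 1 ≤ p)
    (hf : width {z | 0 < ρ z} p ≠ ⊤) :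
    ∃ 𝓛 : List (List (ℂ × ℂ)), (∀ γ ∈ 𝓛, IsBilliard ρ γ) ∧
      width {z | 0 < ρ z} p = ENNReal.ofReal (𝓛.map len).sum := by
  obtain ⟨ρ', gr, L, c₀, β, R, hG, hΩ, hd⟩ := exists_good hρ hb hr
  rw [← hΩ] at hc hf ⊢
  set c := (width {z | 0 < ρ' z} p).toReal with hcdef
  have hc0 : 0 ≤ c := ENNReal.toReal_nonneg
  have hw : width {z | 0 < ρ' z} p = ENNReal.ofReal c := (ENNReal.ofReal_toReal hf).symm
  obtain ⟨D₀, N₀, hnet⟩ := net_bound hG (2 ^ (p + 1)) (c + 1)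
  have ho : IsOpen {z | 0 < ρ' z} := isOpen_lt continuous_const hG.continuous
  have hR : 0 < R := by
    obtain ⟨z, hz⟩ := hc.nonempty
    have h1 := hG.ball z (by have := hG.hβ; simp only [mem_ofPred_eq] at hz; linarith)
    have := norm_nonneg z
    linarith
  suffices h : ∃ 𝓛 : List (List (ℂ × ℂ)), (∀ γ ∈ 𝓛, IsBilliard ρ γ) ∧ (𝓛.map len).sum = c by
    obtain ⟨𝓛, h1, h2⟩ := h
    exact ⟨𝓛, h1, by rw [h2, hw]⟩
  refine final_lim hG hΩ hd N₀ c fun ε hε => ?_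
  have hm : 0 < min ε 1 := lt_min hε one_pos
  obtain ⟨β₀, hβ₀, hMW⟩ := disc hG hc p (t := c + min ε 1) (by
    rw [hw]
    exact (ENNReal.ofReal_lt_ofReal_iff (by linarith)).mpr (by linarith))
  have hη : 0 < ε / 3 := by positivity
  obtain ⟨βo, hβo, hob⟩ := ob_all D₀ (p + 1) (θ := (ε / 3) ^ 2 / 8) (by positivity)
  obtain ⟨e, he, e1, e2, e3, e4, e5⟩ : ∃ e : ℝ, 0 < e ∧ e ≤ β₀ ∧ e ≤ β ∧ e ≤ 1 / 20 ∧
      e ≤ ε / 3 ∧ e ≤ βo / 2 := by
    refine ⟨min β₀ (min β (min (1 / 20) (min (ε / 3) (βo / 2)))), ?_, ?_, ?_, ?_, ?_, ?_⟩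
    · have := hG.hβ
      positivity
    · exact min_le_left _ _
    · exact (min_le_right _ _).trans (min_le_left _ _)
    · exact (min_le_right _ _).trans ((min_le_right _ _).trans (min_le_left _ _))
    · exact (min_le_right _ _).trans ((min_le_right _ _).trans
        ((min_le_right _ _).trans (min_le_left _ _)))
    · exact (min_le_right _ _).trans ((min_le_right _ _).trans
        ((min_le_right _ _).trans (min_le_right _ _)))
  obtain ⟨G, ν, hcon, hG1, hG2, hG3⟩ := exists_poly hG he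
  have hcl : closure {z | 0 < ρ' z} ⊆ G := by rw [hG.closure]; exact hG1
  have ht : c + min ε 1 ∈ MW {z | 0 < ρ' z} G (cb 0 R) p :=
    hMW G fun z hz => by
      have := hG2 hz
      simp only [mem_ofPred_eq] at this ⊢
      linarith
  have hW : Convex ℝ (cb (0 : ℂ) R) := convex_closedBall _ _
  have hlow : ∀ t ∈ MW {z | 0 < ρ' z} G (cb 0 R) p, c ≤ t := by
    intro t ht'
    obtain ⟨h1, h2⟩ := width_le_of_MW ho hc.isPreconnected hcon.1 hcl hW hp ht'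
    rw [hw] at h2
    exact (ENNReal.ofReal_le_ofReal_iff h1.le).mp h2
  set cG := sInf (MW {z | 0 < ρ' z} G (cb 0 R) p) with hcG
  have hlo : c ≤ cG := le_csInf ⟨_, ht⟩ hlow
  have hhi : cG ≤ c + min ε 1 := csInf_le ⟨c, hlow⟩ ht
  have hnu := not_UC ho hc.isPreconnected hcon.1 hcl hW (isCompact_closedBall _ _) hp ⟨_, ht⟩
  have hS : Setup G ν 0 R (Fin.elim0 : Fin 0 → ℂ) := by
    refine ⟨hR, hcon, fun i => i.elim0, fun i => i.elim0, fun y hy hy' => ?_⟩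
    exfalso
    have h1 : closure G ⊆ {z | -e ≤ ρ' z} :=
      closure_minimal (fun z hz => show -e ≤ ρ' z from le_of_lt (hG2 hz))
        (isClosed_le continuous_const hG.continuous)
    have h2 : -e ≤ ρ' y := h1 (frontier_subset_closure hy')
    have h3 := hG.ball y (by linarith)
    rw [mem_sphere_zero_iff_norm] at hy
    linarith
  have hB : OB (p + 1) G ν (fun _ => {d | d ≤ D₀}) ((ε / 3) ^ 2 / 8) := by
    refine hob G ν hcon fun y hy => ?_
    obtain ⟨h1, h2⟩ := hG3 y hy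
    calc ‖(ν y).1 - (ν y).2‖ = ‖((ν y).1 - nrm gr y) - ((ν y).2 - nrm gr y)‖ := by
          congr 1; ring
      _ ≤ ‖(ν y).1 - nrm gr y‖ + ‖(ν y).2 - nrm gr y‖ := norm_sub_le _ _
      _ ≤ βo := by linarith
  have hind : ind (Fin.elim0 : Fin 0 → ℂ) = 0 := by
    funext z
    simp [ind]
  rcases crit hS (2 ^ (p + 1)) hη.le (oi_all (p + 1) hcon.1) hB cG with h | ⟨m, a, b, hN⟩
  · rw [hind] at h
    exact absurd h hnu
  obtain ⟨hm', σ, hσ, h1, h2⟩ := hnet e he e2 e3 G ν hcon hG1 hG2 hG3 cG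
    (by linarith [min_le_right ε 1]) (ε / 3) m a b hN
  refine ⟨m, hm', a, b, σ, hσ, fun i => ⟨hN.ne i, fun z hz => ?_⟩, ?_, fun δ => ?_⟩
  · linarith [h1 i z hz]
  · rw [hN.len, abs_le]
    constructor <;> linarith [min_le_left ε 1]
  · obtain ⟨k1, k2, k3, k4⟩ := h2 δ
    exact ⟨k1, by linarith, by linarith, by linarith⟩

end Pool.Agent.MP_20201c_gt.H91
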