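import Pool.Agent.MP_20201c_gt.H91.Defs4
import Pool.Agent.MP_20201c_gt.H91.KitM4

/-! Local geometry of conic sets and wedges. -/

open MeasureTheory Set Filter Topology
open scoped ENNReal

namespace Pool.Agent.MP_20201c_gt.H91

namespace AdmA

theorem ip_cont (n y : ℂ) : Continuous fun z : ℂ => ip n (z - y) := by
  unfold ip; fun_prop

theorem ip_zero (n : ℂ) : ip n 0 = 0 := by simp [ip]

theorem ip_add (n u v : ℂ) : ip n (u + v) = ip n u + ip n v := by
  simp only [ip, Complex.add_re, Complex.add_im]; ring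

theorem ip_smul (n : ℂ) (s : ℝ) (v : ℂ) : ip n (s • v) = s * ip n v := by
  simp only [ip, Complex.smul_re, Complex.smul_im, smul_eq_mul]; ring

theorem ip_split (n y z w : ℂ) : ip n (w - y) = ip n (w - z) + ip n (z - y) := by
  rw [← ip_add]; congr 1; ring

theorem normsq {n : ℂ} (hn : ‖n‖ = 1) : n.re ^ 2 + n.im ^ 2 = 1 := by
  have := Complex.sq_norm n
  rw [hn, Complex.normSq_apply] at this
  nlinarith

theorem close {a b : ℂ} (h : ‖a - b‖ ≤ 1 / 10) :
    (a.re - b.re) ^ 2 + (a.im - b.im) ^ 2 ≤ 1 / 100 := by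
  have h2 := Complex.sq_norm (a - b)
  rw [Complex.normSq_apply, Complex.sub_re, Complex.sub_im] at h2
  nlinarith [norm_nonneg (a - b)]

theorem ip_self {n : ℂ} (hn : ‖n‖ = 1) : ip n n = 1 := by
  have := normsq hn
  unfold ip; nlinarith

theorem ip_pos {n₁ n₂ : ℂ} (h1 : ‖n₁‖ = 1) (h2 : ‖n₂‖ = 1) (h : ‖n₁ - n₂‖ ≤ 1 / 10) :
    0 < ip n₂ n₁ := by
  have a := normsq h1
  have b := normsq h2
  have c := close h
  unfold ip; nlinarith

theorem eq_of_perp {n₁ n₂ v : ℂ} (h1 : ‖n₁‖ = 1) (h2 : ‖n₂‖ = 1) (h : ‖n₁ - n₂‖ ≤ 1 / 10)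
    (hv : v ≠ 0) (a : ip n₁ v = 0) (c : ip n₂ v = 0) : n₁ = n₂ := by
  have p := ip_pos h1 h2 h
  have s1 := normsq h1
  have s2 := normsq h2
  unfold ip at a c p
  have hd : n₁.re * n₂.im - n₁.im * n₂.re = 0 := by
    by_contra hne
    apply hv
    have e1 : (n₁.re * n₂.im - n₁.im * n₂.re) * v.re = 0 := by
      linear_combination n₂.im * a - n₁.im * c
    have e2 : (n₁.re * n₂.im - n₁.im * n₂.re) * v.im = 0 := by
      linear_combination n₁.re * c - n₂.re * a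
    exact Complex.ext ((mul_eq_zero.1 e1).resolve_left hne) ((mul_eq_zero.1 e2).resolve_left hne)
  have hq : (n₂.re * n₁.re + n₂.im * n₁.im) ^ 2 = 1 := by
    have : (n₂.re * n₁.re + n₂.im * n₁.im) ^ 2 + (n₁.re * n₂.im - n₁.im * n₂.re) ^ 2 =
        (n₁.re ^ 2 + n₁.im ^ 2) * (n₂.re ^ 2 + n₂.im ^ 2) := by ring
    rw [hd, s1, s2] at this
    linarith
  have h1' : n₂.re * n₁.re + n₂.im * n₁.im = 1 := by
    have : (n₂.re * n₁.re + n₂.im * n₁.im - 1) * (n₂.re * n₁.re + n₂.im * n₁.im + 1) = 0 := by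
      linear_combination hq
    rcases mul_eq_zero.1 this with h | h <;> linarith
  have hz : (n₁.re - n₂.re) ^ 2 + (n₁.im - n₂.im) ^ 2 = 0 := by
    linear_combination s1 + s2 - 2 * h1'
  have r1 : n₁.re - n₂.re = 0 := by nlinarith [sq_nonneg (n₁.re - n₂.re), sq_nonneg (n₁.im - n₂.im)]
  have r2 : n₁.im - n₂.im = 0 := by nlinarith [sq_nonneg (n₁.re - n₂.re), sq_nonneg (n₁.im - n₂.im)]
  exact Complex.ext (by linarith) (by linarith)

/-- Defining function of a wedge. -/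
noncomputable def wf (n₁ n₂ : ℂ) (b : Bool) (y z : ℂ) : ℝ :=
  if b then max (ip n₁ (z - y)) (ip n₂ (z - y)) else min (ip n₁ (z - y)) (ip n₂ (z - y))

theorem mem_wedge (n₁ n₂ : ℂ) (b : Bool) (y z : ℂ) :
    z ∈ Wedge n₁ n₂ b y ↔ 0 < wf n₁ n₂ b y z := by
  cases b <;> simp [Wedge, wf]

theorem wf_cont (n₁ n₂ : ℂ) (b : Bool) (y : ℂ) : Continuous (wf n₁ n₂ b y) := by
  have a := ip_cont n₁ y
  have c := ip_cont n₂ y
  cases b
  · exact a.min c
  · exact a.max c

theorem wedge_eq (n₁ n₂ : ℂ) (b : Bool) (y : ℂ) :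
    Wedge n₁ n₂ b y = {z | 0 < wf n₁ n₂ b y z} := Set.ext (mem_wedge n₁ n₂ b y)

theorem wedge_open (n₁ n₂ : ℂ) (b : Bool) (y : ℂ) : IsOpen (Wedge n₁ n₂ b y) := by
  rw [wedge_eq]; exact isOpen_lt continuous_const (wf_cont n₁ n₂ b y)

theorem wf_smul (n₁ n₂ : ℂ) (b : Bool) (y v : ℂ) {s : ℝ} (hs : 0 ≤ s) :
    wf n₁ n₂ b y (y + s • v) = s * wf n₁ n₂ b y (y + v) := by
  cases b
  · simp only [wf, add_sub_cancel_left, ip_smul, Bool.false_eq_true, if_false]
    rw [mul_min_of_nonneg _ _ hs]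
  · simp only [wf, add_sub_cancel_left, ip_smul, if_true]
    rw [mul_max_of_nonneg _ _ hs]

theorem frontier_sub (n₁ n₂ : ℂ) (b : Bool) (y : ℂ) {z : ℂ}
    (hz : z ∈ frontier (Wedge n₁ n₂ b y)) : wf n₁ n₂ b y z = 0 := by
  rw [wedge_eq] at hz
  exact (frontier_lt_subset_eq continuous_const (wf_cont n₁ n₂ b y) hz).symm

theorem frontier_wedge {n₁ n₂ : ℂ} (h1 : ‖n₁‖ = 1) (h2 : ‖n₂‖ = 1) (h : ‖n₁ - n₂‖ ≤ 1 / 10)
    (b : Bool) (y : ℂ) : frontier (Wedge n₁ n₂ b y) = {z | wf n₁ n₂ b y z = 0} := by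
  refine Subset.antisymm (fun z hz => frontier_sub n₁ n₂ b y hz) fun z hz => ?_
  have hz' : wf n₁ n₂ b y z = 0 := hz
  rw [(wedge_open n₁ n₂ b y).frontier_eq]
  refine ⟨?_, by rw [mem_wedge, hz']; exact lt_irrefl _⟩
  have p := ip_pos h1 h2 h
  have q := ip_self h1
  have ht : Tendsto (fun t : ℝ => z + t • n₁) (𝓝[>] 0) (𝓝 z) := by
    have : Continuous fun t : ℝ => z + t • n₁ := by fun_prop
    have := this.tendsto 0
    simp only [zero_smul, add_zero] at this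
    exact this.mono_left nhdsWithin_le_nhds
  refine mem_closure_of_tendsto ht ?_
  filter_upwards [self_mem_nhdsWithin] with t ht
  have ht' : 0 < t := ht
  have e : ∀ n : ℂ, ip n (z + t • n₁ - y) = ip n (z - y) + t * ip n n₁ := by
    intro n
    rw [← ip_smul, ← ip_add]; congr 1; ring
  have tp := mul_pos ht' p
  rw [mem_wedge]
  cases b
  · simp only [wf, Bool.false_eq_true, if_false] at hz' ⊢
    have a := min_le_left (ip n₁ (z - y)) (ip n₂ (z - y))
    have c := min_le_right (ip n₁ (z - y)) (ip n₂ (z - y))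
    rw [e, e, q, lt_min_iff]
    constructor <;> linarith
  · simp only [wf, if_true] at hz' ⊢
    rw [e, e, q, lt_max_iff]
    rcases max_choice (ip n₁ (z - y)) (ip n₂ (z - y)) with a | a
    · left; linarith
    · right; linarith

theorem ip_seg (n y : ℂ) {o x z : ℂ} (hz : z ∈ segment ℝ o x) (ho : ip n (o - y) ≤ 0)
    (hx : ip n (x - y) ≤ 0) : ip n (z - y) ≤ 0 := by
  obtain ⟨a, c, ha, hc, hac, rfl⟩ := hz
  have : a • o + c • x - y = a • (o - y) + c • (x - y) := by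
    have : y = (a + c) • y := by rw [hac, one_smul]
    conv_lhs => rw [this]
    rw [add_smul, smul_sub, smul_sub]; abel
  rw [this, ip_add, ip_smul, ip_smul]
  nlinarith [mul_nonneg ha (neg_nonneg.2 ho), mul_nonneg hc (neg_nonneg.2 hx)]

theorem not_wedge_seg (n₁ n₂ : ℂ) (b : Bool) (y : ℂ) {o x z : ℂ} (hz : z ∈ segment ℝ o x)
    (h1 : ip n₁ (o - y) ≤ 0) (h2 : ip n₂ (o - y) ≤ 0) (hx : x ∉ Wedge n₁ n₂ b y) :
    z ∉ Wedge n₁ n₂ b y := by
  cases b
  · simp only [Wedge, Bool.false_eq_true, if_false, mem_setOf_eq, not_and_or, not_lt] at hx ⊢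
    exact hx.imp (ip_seg n₁ y hz h1) (ip_seg n₂ y hz h2)
  · simp only [Wedge, if_true, mem_setOf_eq, not_or, not_lt] at hx ⊢
    exact ⟨ip_seg n₁ y hz h1 hx.1, ip_seg n₂ y hz h2 hx.2⟩

theorem frontier_loc {G H : Set ℂ} {y : ℂ} {r : ℝ} (h : ∀ z ∈ Metric.ball y r, z ∈ G ↔ z ∈ H)
    {z : ℂ} (hz : z ∈ Metric.ball y r) : z ∈ frontier G ↔ z ∈ frontier H := by
  have e : G ∩ Metric.ball y r = H ∩ Metric.ball y r := by
    ext w
    exact ⟨fun hw => ⟨(h w hw.2).1 hw.1, hw.2⟩, fun hw => ⟨(h w hw.2).2 hw.1, hw.2⟩⟩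
  have a := frontier_inter_open_inter (s := G) (Metric.isOpen_ball (x := y) (ε := r))
  have c := frontier_inter_open_inter (s := H) (Metric.isOpen_ball (x := y) (ε := r))
  rw [e, c] at a
  constructor
  · intro hG
    have : z ∈ frontier G ∩ Metric.ball y r := ⟨hG, hz⟩
    rw [← a] at this; exact this.1
  · intro hH
    have : z ∈ frontier H ∩ Metric.ball y r := ⟨hH, hz⟩
    rw [a] at this; exact this.1

theorem wf_both {n₁ n₂ : ℂ} {b : Bool} {y v : ℂ} (hp : wf n₁ n₂ b y (y + v) = 0)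
    (hm : wf n₁ n₂ b y (y + -v) = 0) : ip n₁ v = 0 ∧ ip n₂ v = 0 := by
  have e : ∀ n : ℂ, ip n (-v) = -ip n v := by
    intro n; simp only [ip, Complex.neg_re, Complex.neg_im]; ring
  cases b
  · simp only [wf, add_sub_cancel_left, Bool.false_eq_true, if_false, e] at hp hm
    have a := min_le_left (ip n₁ v) (ip n₂ v)
    have c := min_le_right (ip n₁ v) (ip n₂ v)
    have a' := min_le_left (-ip n₁ v) (-ip n₂ v)
    have c' := min_le_right (-ip n₁ v) (-ip n₂ v)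
    constructor <;> linarith
  · simp only [wf, add_sub_cancel_left, if_true, e] at hp hm
    have a := le_max_left (ip n₁ v) (ip n₂ v)
    have c := le_max_right (ip n₁ v) (ip n₂ v)
    have a' := le_max_left (-ip n₁ v) (-ip n₂ v)
    have c' := le_max_right (-ip n₁ v) (-ip n₂ v)
    constructor <;> linarith

end AdmA

open AdmA

theorem adm1 {G : Set ℂ} {ν : ℂ → ℂ × ℂ} (h : Conic G ν) (y : ℂ) :
    ∃ r, 0 < r ∧ ∀ R ∈ Ioo 0 r, ∀ o ∈ cb y R,
      (y ∈ frontier G → ip (ν y).1 (o - y) ≤ 0 ∧ ip (ν y).2 (o - y) ≤ 0) →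
      ∀ W : Set ℂ, o ∈ W → Adm G (W ∩ cb y R) o := by
  by_cases hy : y ∈ frontier G
  · obtain ⟨-, -, -, r, hr, b, hb⟩ := h.2 y hy
    refine ⟨r, hr, fun R hR o ho hs W hW => ⟨⟨hW, ho⟩, fun x hx hxG z hz hzG => ?_⟩⟩
    have sub : cb y R ⊆ Metric.ball y r := Metric.closedBall_subset_ball hR.2
    have hzc : z ∈ cb y R := (convex_closedBall y R).segment_subset ho hx.2 hz
    exact not_wedge_seg _ _ b y hz (hs hy).1 (hs hy).2
      (fun hw => hxG ((hb x (sub hx.2)).2 hw)) ((hb z (sub hzc)).1 hzG)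
  · by_cases hG : y ∈ G
    · obtain ⟨r, hr, hb⟩ := Metric.isOpen_iff.1 h.1 y hG
      refine ⟨r, hr, fun R hR o ho _ W hW => ⟨⟨hW, ho⟩, fun x hx hxG => ?_⟩⟩
      exact absurd (hb (Metric.closedBall_subset_ball hR.2 hx.2)) hxG
    · have hc : y ∈ (closure G)ᶜ := fun hc => hy (by rw [h.1.frontier_eq]; exact ⟨hc, hG⟩)
      obtain ⟨r, hr, hb⟩ := Metric.isOpen_iff.1 isClosed_closure.isOpen_compl y hc
      refine ⟨r, hr, fun R hR o ho _ W hW => ⟨⟨hW, ho⟩, fun x hx _ z hz hzG => ?_⟩⟩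
      have hzc : z ∈ cb y R := (convex_closedBall y R).segment_subset ho hx.2 hz
      exact hb (Metric.closedBall_subset_ball hR.2 hzc) (subset_closure hzG)

theorem adm2 {G : Set ℂ} {ν : ℂ → ℂ × ℂ} (h : Conic G ν) (y : ℂ) :
    ∃ r, 0 < r ∧ ∀ y' ∈ Metric.ball y r, y' ∈ frontier G →
      ip (ν y').1 (y' - y) = 0 ∧ ip (ν y').2 (y' - y) = 0 := by
  by_cases hy : y ∈ frontier G
  · obtain ⟨h1, h2, h3, r, hr, b, hb⟩ := h.2 y hy
    refine ⟨r, hr, fun y' hy' hf => ?_⟩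
    obtain ⟨-, -, -, r', hr', b', hb'⟩ := h.2 y' hf
    set v := y' - y with hv
    have w0 : wf (ν y).1 (ν y).2 b y (y + v) = 0 := by
      have := frontier_sub _ _ b y ((frontier_loc hb hy').1 hf)
      rwa [show y + v = y' by rw [hv]; ring]
    have ct : Continuous fun s : ℝ => y' + s • v := by fun_prop
    have t0 := ct.tendsto 0
    simp only [zero_smul, add_zero] at t0
    have ev : ∀ᶠ s : ℝ in 𝓝 0, y' + s • v ∈ Metric.ball y r ∧ y' + s • v ∈ Metric.ball y' r' ∧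
        -1 < s := by
      filter_upwards [t0 (Metric.isOpen_ball.mem_nhds hy'),
        t0 (Metric.ball_mem_nhds y' hr'), lt_mem_nhds (show (-1 : ℝ) < 0 by norm_num)] with s a c d
      exact ⟨a, c, d⟩
    have key : ∀ᶠ s : ℝ in 𝓝 0, wf (ν y').1 (ν y').2 b' y' (y' + s • v) = 0 := by
      filter_upwards [ev] with s hs
      apply frontier_sub
      rw [← frontier_loc hb' hs.2.1, frontier_loc hb hs.1, frontier_wedge h1 h2 h3]
      have e : y' + s • v = y + (1 + s) • v := by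
        rw [add_smul, one_smul, hv]; ring
      show wf _ _ b y (y' + s • v) = 0
      rw [e, wf_smul _ _ _ _ _ (by linarith [hs.2.2]), w0, mul_zero]
    obtain ⟨ε, hε, hk⟩ := Metric.eventually_nhds_iff.1 key
    have k1 := hk (y := ε / 2) (by rw [Real.dist_eq, sub_zero, abs_of_pos (by linarith)]; linarith)
    have k2 := hk (y := -(ε / 2))
      (by rw [Real.dist_eq, sub_zero, abs_neg, abs_of_pos (by linarith)]; linarith)
    rw [neg_smul] at k2
    obtain ⟨a, c⟩ := wf_both k1 k2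
    rw [ip_smul] at a c
    have hne : ε / 2 ≠ 0 := by positivity
    exact ⟨(mul_eq_zero.1 a).resolve_left hne, (mul_eq_zero.1 c).resolve_left hne⟩
  · obtain ⟨r, hr, hb⟩ := Metric.isOpen_iff.1 (isClosed_frontier (s := G)).isOpen_compl y hy
    exact ⟨r, hr, fun y' hy' hf => absurd hf (hb hy')⟩

theorem adm3 {G : Set ℂ} {ν : ℂ → ℂ × ℂ} (h : Conic G ν) {y : ℂ} (hy : y ∈ frontier G) {v : ℂ}
    (h1 : ip (ν y).1 v < 0) (h2 : ip (ν y).2 v < 0) :
    ∃ r : ℝ, 0 < r ∧ ∀ s ∈ Ioo 0 r, y + s • v ∉ closure G := by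
  obtain ⟨-, -, -, r, hr, b, hb⟩ := h.2 y hy
  have ct : Continuous fun s : ℝ => y + s • v := by fun_prop
  have t0 := ct.tendsto 0
  simp only [zero_smul, add_zero] at t0
  obtain ⟨ε, hε, hk⟩ := Metric.eventually_nhds_iff.1 (t0 (Metric.ball_mem_nhds y hr))
  refine ⟨ε, hε, fun s hs hc => ?_⟩
  have hin : y + s • v ∈ Metric.ball y r :=
    hk (y := s) (by rw [Real.dist_eq, sub_zero, abs_of_pos hs.1]; exact hs.2)
  have neg : wf (ν y).1 (ν y).2 b y (y + s • v) < 0 := by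
    rw [wf_smul _ _ _ _ _ hs.1.le]
    apply mul_neg_of_pos_of_neg hs.1
    cases b
    · simp only [wf, add_sub_cancel_left, Bool.false_eq_true, if_false]
      exact min_lt_of_left_lt h1
    · simp only [wf, add_sub_cancel_left, if_true]
      exact max_lt h1 h2
  have op : IsOpen (Metric.ball y r ∩ {z | wf (ν y).1 (ν y).2 b y z < 0}) :=
    Metric.isOpen_ball.inter (isOpen_lt (wf_cont _ _ b y) continuous_const)
  obtain ⟨z, hz, hzG⟩ := mem_closure_iff.1 hc _ op ⟨hin, neg⟩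
  have := (mem_wedge _ _ b y z).1 ((hb z hz.1).1 hzG)
  have h' : wf (ν y).1 (ν y).2 b y z < 0 := hz.2
  linarith

theorem conic_univ (ν : ℂ → ℂ × ℂ) : Conic univ ν :=
  ⟨isOpen_univ, fun y hy => by simp at hy⟩

theorem wedge_self (n : ℂ) (b : Bool) (y : ℂ) : Wedge n n b y = {z | 0 < ip n (z - y)} := by
  cases b <;> simp [Wedge]

theorem half_frontier {n : ℂ} (hn : ‖n‖ = 1) (y : ℂ) :
    frontier {z | 0 < ip n (z - y)} = {z | ip n (z - y) = 0} := by
  rw [← wedge_self n true y, frontier_wedge hn hn (by simp) true y]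
  simp [wf]

theorem half_conic {n : ℂ} (hn : ‖n‖ = 1) (y : ℂ) :
    Conic {z | 0 < ip n (z - y)} fun _ => (n, n) := by
  refine ⟨isOpen_lt continuous_const (ip_cont n y), fun z hz => ?_⟩
  rw [half_frontier hn] at hz
  have hz' : ip n (z - y) = 0 := hz
  refine ⟨hn, hn, by simp, 1, one_pos, true, fun w _ => ?_⟩
  rw [wedge_self, mem_setOf_eq, mem_setOf_eq, ip_split n y z w, hz', add_zero]

theorem half_adm (n y : ℂ) {R : ℝ} {o : ℂ} (ho : o ∈ cb y R) (h : ip n (o - y) = 0) :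
    Adm {z | 0 < ip n (z - y)} (cb y R) o := by
  refine ⟨ho, fun x _ hx z hz hzG => ?_⟩
  have hx' : ip n (x - y) ≤ 0 := not_lt.1 hx
  exact absurd (ip_seg n y hz h.le hx') (not_le.2 hzG)

theorem wedge_conic {n₁ n₂ : ℂ} (h1 : ‖n₁‖ = 1) (h2 : ‖n₂‖ = 1) (h : ‖n₁ - n₂‖ ≤ 1 / 10)
    (b : Bool) (y : ℂ) : ∃ ν, Conic (Wedge n₁ n₂ b y) ν ∧ WNu n₁ n₂ b y ν := by
  classical
  have one : ∀ {z : ℂ}, wf n₁ n₂ b y z = 0 → ip n₁ (z - y) ≠ 0 → ip n₂ (z - y) = 0 := by
    intro z hz hne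
    cases b
    · simp only [wf, Bool.false_eq_true, if_false] at hz
      rcases min_choice (ip n₁ (z - y)) (ip n₂ (z - y)) with a | a
      · exact absurd (a ▸ hz) hne
      · exact a ▸ hz
    · simp only [wf, if_true] at hz
      rcases max_choice (ip n₁ (z - y)) (ip n₂ (z - y)) with a | a
      · exact absurd (a ▸ hz) hne
      · exact a ▸ hz
  have loc : ∀ (m₁ m₂ : ℂ) {z : ℂ}, ip m₁ (z - y) = 0 → ip m₂ (z - y) ≠ 0 →
      (if b then max (ip m₁ (z - y)) (ip m₂ (z - y)) else min (ip m₁ (z - y)) (ip m₂ (z - y))) = 0 →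
      ∃ r, 0 < r ∧ ∀ w ∈ Metric.ball z r,
        (0 < (if b then max (ip m₁ (w - y)) (ip m₂ (w - y))
          else min (ip m₁ (w - y)) (ip m₂ (w - y))) ↔ 0 < ip m₁ (w - z)) := by
    intro m₁ m₂ z a c hz
    have e : ∀ w, ip m₁ (w - y) = ip m₁ (w - z) := fun w => by
      rw [ip_split m₁ y z w, a, add_zero]
    cases b
    · simp only [Bool.false_eq_true, if_false] at hz ⊢
      have hp : 0 < ip m₂ (z - y) := by
        have := min_le_right (ip m₁ (z - y)) (ip m₂ (z - y))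
        exact lt_of_le_of_ne (by linarith) c.symm
      obtain ⟨r, hr, hb⟩ := Metric.isOpen_iff.1
        (isOpen_lt continuous_const (ip_cont m₂ y)) z hp
      refine ⟨r, hr, fun w hw => ?_⟩
      have : 0 < ip m₂ (w - y) := hb hw
      rw [lt_min_iff, e]
      exact ⟨fun h => h.1, fun h => ⟨h, this⟩⟩
    · simp only [if_true] at hz ⊢
      have hp : ip m₂ (z - y) < 0 := by
        have := le_max_right (ip m₁ (z - y)) (ip m₂ (z - y))
        exact lt_of_le_of_ne (by linarith) c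
      obtain ⟨r, hr, hb⟩ := Metric.isOpen_iff.1
        (isOpen_lt (ip_cont m₂ y) continuous_const) z hp
      refine ⟨r, hr, fun w hw => ?_⟩
      have : ip m₂ (w - y) < 0 := hb hw
      rw [lt_max_iff, e]
      exact ⟨fun h => h.resolve_right (by linarith), Or.inl⟩
  refine ⟨fun z => if z = y then (n₁, n₂) else if ip n₁ (z - y) = 0 then (n₁, n₁) else (n₂, n₂),
    ⟨wedge_open n₁ n₂ b y, fun z hz => ?_⟩, by simp, fun z hz hzy => ?_⟩
  · have hw := frontier_sub n₁ n₂ b y hz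
    by_cases hzy : z = y
    · subst hzy
      simp only [if_true]
      exact ⟨h1, h2, h, 1, one_pos, b, fun w _ => Iff.rfl⟩
    · by_cases a : ip n₁ (z - y) = 0
      · simp only [if_neg hzy, if_pos a]
        refine ⟨h1, h1, by simp, ?_⟩
        by_cases c : ip n₂ (z - y) = 0
        · have e := eq_of_perp h1 h2 h (sub_ne_zero.2 hzy) a c
          subst e
          refine ⟨1, one_pos, b, fun w _ => ?_⟩
          rw [wedge_self, wedge_self, mem_setOf_eq, mem_setOf_eq, ip_split n₁ y z w, a, add_zero]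
        · obtain ⟨r, hr, hb⟩ := loc n₁ n₂ a c hw
          refine ⟨r, hr, b, fun w hw' => ?_⟩
          rw [wedge_self, mem_wedge, mem_setOf_eq]
          exact hb w hw'
      · simp only [if_neg hzy, if_neg a]
        refine ⟨h2, h2, by simp, ?_⟩
        have c := one hw a
        obtain ⟨r, hr, hb⟩ := loc n₂ n₁ c a (by
          rw [max_comm, min_comm]; exact hw)
        refine ⟨r, hr, b, fun w hw' => ?_⟩
        rw [wedge_self, mem_wedge, mem_setOf_eq, ← hb w hw', max_comm, min_comm]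
        rfl
  · have hw := frontier_sub n₁ n₂ b y hz
    by_cases a : ip n₁ (z - y) = 0
    · simp only [if_neg hzy, if_pos a]
      exact ⟨Or.inl trivial, a⟩
    · simp only [if_neg hzy, if_neg a]
      exact ⟨Or.inr trivial, one hw a⟩

theorem wedge_adm (n₁ n₂ : ℂ) (b : Bool) (y : ℂ) {R : ℝ} (hR : 0 ≤ R) :
    Adm (Wedge n₁ n₂ b y) (cb y R) y ∧ y ∉ Wedge n₁ n₂ b y := by
  have z0 : ∀ n : ℂ, ip n (y - y) = 0 := fun n => by rw [sub_self, ip_zero]
  refine ⟨⟨Metric.mem_closedBall_self hR, fun x _ hx z hz => ?_⟩, ?_⟩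
  · exact not_wedge_seg n₁ n₂ b y hz (z0 _).le (z0 _).le hx
  · rw [mem_wedge]
    cases b <;> simp [wf, ip_zero]

/-- A vector in the dual cone of two normals close to `n` is close to the direction of `n`. -/
theorem coneF {n n₁ n₂ F : ℂ} (hn : ‖n‖ = 1) (h1 : ‖n₁ - n‖ ≤ 1 / 10) (h2 : ‖n₂ - n‖ ≤ 1 / 10)
    (h : ∀ u, ip n₁ u ≤ 0 → ip n₂ u ≤ 0 → ip F u ≤ 0) : ‖F‖ ≤ 2 * ip n F := by
  have s := normsq hn
  have key : ∀ (m : ℂ) (σ : ℝ), σ ^ 2 = 1 → ‖m - n‖ ≤ 1 / 10 →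
      ip m ⟨-σ * n.im - n.re / 2, σ * n.re - n.im / 2⟩ ≤ 0 := by
    intro m σ hσ hm
    have c := close hm
    unfold ip
    simp only
    set p := m.re - n.re with hp
    set q := m.im - n.im with hq
    have e1 : m.re = n.re + p := by rw [hp]; ring
    have e2 : m.im = n.im + q := by rw [hq]; ring
    set a := -σ * n.im - n.re / 2 with ha
    set d := σ * n.re - n.im / 2 with hd
    have n1 : n.re * a + n.im * d = -1 / 2 := by rw [ha, hd]; linear_combination (-1 / 2) * s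
    have n2 : a ^ 2 + d ^ 2 = 5 / 4 := by
      rw [ha, hd]; linear_combination (n.re ^ 2 + n.im ^ 2) * hσ + (5 / 4) * s
    rw [e1, e2]
    nlinarith [sq_nonneg (5 * p - a / 5), sq_nonneg (5 * q - d / 5)]
  have a := h _ (key n₁ 1 (by norm_num) h1) (key n₂ 1 (by norm_num) h2)
  have c := h _ (key n₁ (-1) (by norm_num) h1) (key n₂ (-1) (by norm_num) h2)
  unfold ip at a c ⊢
  simp only at a c
  set α := n.re * F.re + n.im * F.im with hα
  set β := n.re * F.im - n.im * F.re with hβ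
  have a' : β ≤ α / 2 := by rw [hα, hβ]; linarith
  have c' : -β ≤ α / 2 := by rw [hα, hβ]; linarith
  have hF : ‖F‖ ^ 2 = α ^ 2 + β ^ 2 := by
    rw [Complex.sq_norm, Complex.normSq_apply, hα, hβ]
    linear_combination (-(F.re ^ 2 + F.im ^ 2)) * s
  have h0 : 0 ≤ α := by linarith
  refine le_of_sq_le_sq ?_ (by linarith)
  nlinarith

end Pool.Agent.MP_20201c_gt.H91
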