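import Pool.Agent.MP_20201c_gt.H91.KitC

/-! The prism operator of a pointwise homotopy. -/

open MeasureTheory Set Filter Topology
open scoped ENNReal

namespace Pool.Agent.MP_20201c_gt.H91

namespace PrismA

theorem val_sa {n : ℕ} (p : Fin (n + 1)) (i : Fin n) :
    (p.succAbove i : ℕ) = if (i : ℕ) < p then (i : ℕ) else i + 1 := by
  unfold Fin.succAbove
  by_cases h : i.castSucc < p
  · have h' : (i : ℕ) < p := h
    rw [if_pos h, if_pos h']; rfl
  · have h' : ¬ (i : ℕ) < p := h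
    rw [if_neg h, if_neg h']; rfl

theorem val_pa {n : ℕ} (p : Fin n) (i : Fin (n + 1)) :
    (p.predAbove i : ℕ) = if (p : ℕ) < i then (i : ℕ) - 1 else i := by
  unfold Fin.predAbove
  by_cases h : p.castSucc < i
  · have h' : (p : ℕ) < i := h
    rw [dif_pos h, if_pos h']; rfl
  · have h' : ¬ (p : ℕ) < i := h
    rw [dif_neg h, if_neg h']; rfl

/-- Vertices of the `i`-th simplex of the prism. -/
def vv {n : ℕ} (i : Fin n) (j : Fin (n + 1)) : Fin n × Bool :=
  (i.predAbove j, decide ((i : ℕ) < j))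

/-- Vertices of the sections of the prism. -/
def ee {n : ℕ} (p : Fin (n + 1)) (l : Fin n) : Fin n × Bool := (l, decide ((p : ℕ) ≤ l))

theorem vv_cast {n : ℕ} (i : Fin n) : vv i ∘ i.castSucc.succAbove = ee i.castSucc := by
  funext l
  refine Prod.ext (Fin.ext ?_) ?_
  · simp only [vv, ee, Function.comp_apply, val_pa, val_sa, Fin.val_castSucc]
    split_ifs <;> omega
  · simp only [vv, ee, Function.comp_apply, val_sa, Fin.val_castSucc, decide_eq_decide]
    split_ifs <;> omega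

theorem vv_succ {m : ℕ} (i : Fin (m + 1)) :
    vv i ∘ (i.castSucc.succAbove i).succAbove = ee i.succ := by
  funext l
  refine Prod.ext (Fin.ext ?_) ?_
  · simp only [vv, ee, Function.comp_apply, val_pa, val_sa, Fin.val_castSucc]
    split_ifs <;> omega
  · simp only [vv, ee, Function.comp_apply, val_sa, Fin.val_castSucc, Fin.val_succ,
      decide_eq_decide]
    split_ifs <;> omega

theorem vv_other {m : ℕ} (i : Fin (m + 1)) (k : Fin m) :
    vv i ∘ (i.castSucc.succAbove (i.succAbove k)).succAbove =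
      Prod.map (i.succAbove k).succAbove id ∘ vv (k.predAbove i) := by
  funext l
  refine Prod.ext (Fin.ext ?_) ?_
  · simp only [vv, Function.comp_apply, Prod.map_fst, val_pa, val_sa, Fin.val_castSucc]
    split_ifs <;> omega
  · simp only [vv, Function.comp_apply, Prod.map_snd, id, val_pa, val_sa, Fin.val_castSucc,
      decide_eq_decide]
    split_ifs <;> omega

theorem comb {C : Type} [AddCommGroup C] [Module F2 C] (m : ℕ)
    (T : (Fin (m + 1) → Fin (m + 1) × Bool) → C) :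
    (∑ i : Fin (m + 1), ∑ j : Fin (m + 2), T (vv i ∘ j.succAbove)) +
      ∑ k : Fin (m + 1), ∑ i : Fin m, T (Prod.map k.succAbove id ∘ vv i) =
      T (fun l => (l, false)) + T (fun l => (l, true)) := by
  have h1 : ∀ i : Fin (m + 1), ∑ j : Fin (m + 2), T (vv i ∘ j.succAbove) =
      T (ee i.castSucc) + T (ee i.succ) + ∑ k : Fin m,
        T (Prod.map (i.succAbove k).succAbove id ∘ vv (k.predAbove i)) := by
    intro i
    rw [Fin.sum_univ_succAbove _ i.castSucc, Fin.sum_univ_succAbove _ i, vv_cast, vv_succ]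
    simp only [vv_other]
    exact (add_assoc _ _ _).symm
  have h2 : ∑ i : Fin (m + 1), ∑ k : Fin m,
        T (Prod.map (i.succAbove k).succAbove id ∘ vv (k.predAbove i)) =
      ∑ k : Fin (m + 1), ∑ i : Fin m, T (Prod.map k.succAbove id ∘ vv i) := by
    rw [← Fintype.sum_prod_type', ← Fintype.sum_prod_type']
    have hinv : Function.Involutive
        (fun q : Fin (m + 1) × Fin m => (q.1.succAbove q.2, q.2.predAbove q.1)) := by
      intro q
      ext1
      · exact Fin.succAbove_succAbove_predAbove q.1 q.2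
      · exact Fin.predAbove_predAbove_succAbove q.1 q.2
    exact Fintype.sum_equiv hinv.toPerm _ _ fun q => rfl
  have h3 := Fin.sum_univ_castSucc fun p : Fin (m + 2) => T (ee p)
  have h4 := Fin.sum_univ_succ fun p : Fin (m + 2) => T (ee p)
  have h5 : ee (Fin.last (m + 1)) = fun l => (l, false) := by
    funext l
    have := l.2
    simp only [ee, Fin.val_last, Prod.mk.injEq, true_and, decide_eq_false_iff_not]
    omega
  have h6 : ee (0 : Fin (m + 2)) = fun l => (l, true) := by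
    funext l
    simp [ee]
  rw [h5] at h3
  rw [h6] at h4
  simp only [h1, Finset.sum_add_distrib]
  rw [h2, add_assoc, add_self2, add_zero]
  have h7 := h3.symm.trans h4
  rw [← add_eq_zero2] at h7 ⊢
  rw [← h7]
  abel

variable {Y Y' : Type}

/-- The affine simplex of the prism with given vertices, mapped by the homotopy. -/
noncomputable def RR (H : ℝ → Y → Y') {n k : ℕ} (f : Sm n → Y) (v : Fin k → Fin n × Bool) :
    Sm k → Y' :=
  fun x => H (stdSimplex.map (fun j => (v j).2) x true) (f (stdSimplex.map (fun j => (v j).1) x))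

theorem RR_fc (H : ℝ → Y → Y') {n k : ℕ} (f : Sm n → Y) (v : Fin (k + 1) → Fin n × Bool)
    (j : Fin (k + 1)) : RR H f v ∘ fc k j = RR H f (v ∘ j.succAbove) := by
  funext x
  simp only [RR, fc, Function.comp_apply, stdSimplex.map_comp_apply]
  rfl

theorem RR_face (H : ℝ → Y → Y') {n k : ℕ} (f : Sm (n + 1) → Y) (v : Fin k → Fin n × Bool)
    (j : Fin (n + 1)) : RR H (f ∘ fc n j) v = RR H f (Prod.map j.succAbove id ∘ v) := by
  funext x
  simp only [RR, fc, Function.comp_apply, stdSimplex.map_comp_apply]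
  rfl

theorem RR_false (H : ℝ → Y → Y') {n : ℕ} (f : Sm n → Y) :
    RR H f (fun l => (l, false)) = H 0 ∘ f := by
  funext x
  have h1 : stdSimplex.map (fun j : Fin n => j) x = x := stdSimplex.map_id_apply x
  have h2 : stdSimplex.map (fun _ : Fin n => false) x true = 0 := by
    simp [stdSimplex.map_coe, FunOnFinite.linearMap_apply_apply]
  simp only [RR, Function.comp_apply, h1, h2]

theorem RR_true (H : ℝ → Y → Y') {n : ℕ} (f : Sm n → Y) :
    RR H f (fun l => (l, true)) = H 1 ∘ f := by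
  funext x
  have h1 : stdSimplex.map (fun j : Fin n => j) x = x := stdSimplex.map_id_apply x
  have h2 : stdSimplex.map (fun _ : Fin n => true) x true = 1 := by
    simp [stdSimplex.map_coe, FunOnFinite.linearMap_apply_apply]
  simp only [RR, Function.comp_apply, h1, h2]

/-- The prism over a simplex. -/
noncomputable def prS (H : ℝ → Y → Y') (s : Sx Y) : Ch Y' :=
  ∑ i : Fin s.1, one ⟨s.1 + 1, RR H s.2 (vv i)⟩

end PrismA

open PrismA in
theorem exists_prism {Y Y' : Type} (H : ℝ → Y → Y') : ∃ P : Ch Y →ₗ[F2] Ch Y',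
    (∀ c, bd (P c) + P (bd c) = mp (H 0) c + mp (H 1) c) ∧
    ∀ s : Sx Y, P (one s) ∈ Sp {s' : Sx Y' | ∃ (π : Sm (s.1 + 1) → Sm s.1) (τ : Sm (s.1 + 1) → ℝ),
      Continuous π ∧ Continuous τ ∧ (∀ x, τ x ∈ Icc (0 : ℝ) 1) ∧
      s' = ⟨s.1 + 1, fun x => H (τ x) (s.2 (π x))⟩} := by
  refine ⟨lift (prS H), fun c => ?_, fun s => ?_⟩
  · refine lin_ext (bd.comp (lift (prS H)) + (lift (prS H)).comp bd) (mp (H 0) + mp (H 1))
      (fun s => ?_) c
    obtain ⟨_ | m, f⟩ := s
    · simp only [LinearMap.add_apply, LinearMap.comp_apply, lift_one, bd_one, mp_one, prS, bdS,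
        smap]
      rw [sx_zero (H 0 ∘ f), sx_zero (H 1 ∘ f), add_self2]
      simp
    · simp only [LinearMap.add_apply, LinearMap.comp_apply, lift_one, bd_one, mp_one, prS, bdS,
        smap, map_sum, RR_fc, RR_face]
      rw [comb m fun v => one (⟨m + 1, RR H f v⟩ : Sx Y'), RR_false, RR_true]
  · rw [lift_one, prS]
    refine Submodule.sum_mem _ fun i _ => one_mem ⟨stdSimplex.map fun j => (vv i j).1,
      fun x => stdSimplex.map (fun j => (vv i j).2) x true, stdSimplex.continuous_map _, ?_,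
      fun x => ?_, rfl⟩
    · exact ((continuous_apply true).comp continuous_subtype_val).comp
        (stdSimplex.continuous_map _)
    · exact mem_Icc_of_mem_stdSimplex (stdSimplex.map (fun j => (vv i j).2) x).2 true

theorem hom {Y Y' : Type} (H : ℝ → Y → Y') {P : Set (Sx Y)} {P' : Set (Sx Y')}
    (h : ∀ s ∈ P, ∀ (k : ℕ) (π : Sm k → Sm s.1) (τ : Sm k → ℝ), Continuous π → Continuous τ →
      (∀ x, τ x ∈ Icc (0 : ℝ) 1) → (⟨k, fun x => H (τ x) (s.2 (π x))⟩ : Sx Y') ∈ P')
    {z : Ch Y} (hz : z ∈ Sp P) (h0 : bd z = 0) :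
    ∃ w ∈ Sp P', bd w = mp (H 0) z + mp (H 1) z := by
  obtain ⟨Q, hQ, hS⟩ := exists_prism H
  refine ⟨Q z, lin_mem Q _ (fun s hs => sp_mono ?_ (hS s)) hz, ?_⟩
  · rintro s' ⟨π, τ, hπ, hτ, h01, rfl⟩
    exact h s hs _ π τ hπ hτ h01
  · rw [← hQ z, h0, map_zero, add_zero]

theorem point_acyclic {Y : Type} (y₀ : Y) :
    Bnd {s : Sx Y | ∀ x, s.2 x = y₀} {s : Sx Y | ∀ x, s.2 x = y₀} := by
  intro z hz h0
  obtain ⟨K, hK⟩ : ∃ K : Ch Y →ₗ[F2] Ch Y,
      K = lift fun s => one (⟨s.1 + 1, fun _ => y₀⟩ : Sx Y) := ⟨_, rfl⟩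
  have key : (bd.comp K + K.comp bd) z = LinearMap.id (R := F2) z := by
    refine lin_congr _ _ (fun s hs => ?_) hz
    obtain ⟨n, f⟩ := s
    have hf : f = fun _ => y₀ := funext hs
    subst hf
    rcases n with _ | n
    · simp [hK, bdS, Function.comp_def]
    · simp only [hK, LinearMap.add_apply, LinearMap.comp_apply, lift_one, bd_one, bdS, map_sum,
        Function.comp_def, LinearMap.id_apply]
      rw [Fin.sum_univ_succ, add_assoc, add_self2, add_zero]
  refine ⟨K z, ?_, ?_⟩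
  · rw [hK]
    exact lift_mem _ _ (fun s _ => one_mem (P := {s : Sx Y | ∀ x, s.2 x = y₀}) fun _ => rfl) hz
  · simpa [h0] using key

/-- A pointwise contraction fills cycles. -/
theorem bnd_of_contraction {Y : Type} (H : ℝ → Y → Y) (y₀ : Y) {P P' : Set (Sx Y)}
    (h : ∀ s ∈ P, ∀ (k : ℕ) (π : Sm k → Sm s.1) (τ : Sm k → ℝ), Continuous π → Continuous τ →
      (∀ x, τ x ∈ Icc (0 : ℝ) 1) → (⟨k, fun x => H (τ x) (s.2 (π x))⟩ : Sx Y) ∈ P')
    (h0 : ∀ s ∈ P, ∀ x, H 0 (s.2 x) = s.2 x) (h1 : ∀ s ∈ P, ∀ x, H 1 (s.2 x) = y₀)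
    (hc : ∀ k, (⟨k, fun _ => y₀⟩ : Sx Y) ∈ P') : Bnd P P' := by
  intro z hz hb
  obtain ⟨w, hw, hwz⟩ := hom H h hz hb
  have e0 : mp (H 0) z = z := (mp_congr (H 0) id h0 hz).trans (mp_id z)
  have m1 : mp (H 1) z ∈ Sp {s : Sx Y | ∀ x, s.2 x = y₀} :=
    mp_mem (Q := {s : Sx Y | ∀ x, s.2 x = y₀}) (H 1) (fun s hs x => h1 s hs x) hz
  obtain ⟨w', hw', hwz'⟩ := point_acyclic y₀ _ m1 (by rw [bd_mp, hb, map_zero])
  refine ⟨w + w', Submodule.add_mem _ hw (sp_mono ?_ hw'), ?_⟩
  · rintro ⟨n, f⟩ hs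
    have hf : f = fun _ => y₀ := funext hs
    subst hf
    exact hc n
  · rw [map_add, hwz, hwz', e0, add_assoc, add_self2, add_zero]

end Pool.Agent.MP_20201c_gt.H91
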