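import Pool.Agent.MP_20201c_gt.H91.KitM3
import Pool.Agent.MP_20201c_gt.H91.Prism

/-! The cone lemma and moving the boundary points. -/

open MeasureTheory Set Filter Topology
open scoped ENNReal

namespace Pool.Agent.MP_20201c_gt.H91

theorem cn_poly {W : Set ℂ} {n : ℕ} {a b : Fin n → ℂ} (ha : ∀ i, a i ∈ W) (hb : ∀ i, b i ∈ W) :
    Poly W (msr a b) := ⟨n, a, b, fun i => ⟨ha i, hb i⟩, rfl⟩

theorem cn_real_add {W : Set ℂ} {μ ν : Ms} (h : Poly W μ) (h' : Poly W ν) :
    (μ + ν).real univ = μ.real univ + ν.real univ := by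
  have := h.finite
  have := h'.finite
  exact measureReal_add_apply (measure_ne_top _ _) (measure_ne_top _ _)

theorem cn_msr_self {n : ℕ} (a : Fin n → ℂ) : msr a a = 0 := by
  simp [msr, sg_self]

theorem cn_ind_const {G : Set ℂ} {n : ℕ} {o z : ℂ} (he : o ∈ G → Even n) (hz : z ∈ G) :
    ind (fun _ : Fin n => o) z = 0 := by
  by_cases h : o = z
  · subst h
    have h1 := (ZMod.natCast_eq_zero_iff_even).2 (he hz)
    simpa [ind] using h1
  · exact ind_eq_zero fun _ => h

theorem cn_par {G W : Set ℂ} (hW : Convex ℝ W) {n : ℕ} {p : Fin n → ℂ} (hp : ∀ i, p i ∈ W)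
    {o : ℂ} (ho : Adm G W o) (he : o ∈ G → Even n) {μ : Ms} (h : Poly W μ)
    (hμ : Par G W (ind p) μ) {l : ℝ} (h0 : 0 ≤ l) (h1 : l ≤ 1) :
    Par G W (ind p) (scl o l μ + msr p fun i => o + l • (p i - o)) := by
  intro z hz hzG
  have hp' : ∀ i, o + l • (p i - o) ∈ W := fun i => hW.add_smul_sub_mem ho.1 (hp i) ⟨h0, h1⟩
  rw [bdy_add (h.scl hW ho.1 h0 h1) (cn_poly hp hp'), bdy_msr]
  suffices key : bdy (scl o l μ) z = ind (fun i => o + l • (p i - o)) z by
    rw [key, add_comm (ind p z), ← add_assoc, f2_add_self, zero_add]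
  rcases h0.eq_or_lt with rfl | h0'
  · rw [scl_zero, bdy_zero]
    have e : (fun i => o + (0 : ℝ) • (p i - o)) = fun _ : Fin n => o := by
      funext i; simp
    rw [e, cn_ind_const he hzG]
  · have e : z = o + l • (o + l⁻¹ • (z - o) - o) := by
      rw [add_sub_cancel_left, smul_smul, mul_inv_cancel₀ h0'.ne', one_smul]; ring
    set x := o + l⁻¹ • (z - o) with hx
    have e1 := bdy_scl h o h0' x
    rw [← e] at e1
    have key : ∀ y : ℂ, (o + l • (y - o) = o + l • (x - o)) ↔ y = x := by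
      intro y
      rw [add_right_inj, smul_right_inj h0'.ne', sub_left_inj]
    have e2 : ind (fun i => o + l • (p i - o)) z = ind p x := by
      rw [e]
      simp only [ind, key]
    rw [e1, e2]
    by_cases hxW : x ∈ W
    · by_cases hxG : x ∈ G
      · exact hμ x hxW hxG
      · refine absurd hzG (ho.2 x hxW hxG z ?_)
        rw [e]
        exact (convex_segment o x).add_smul_sub_mem (left_mem_segment ℝ o x)
          (right_mem_segment ℝ o x) ⟨h0, h1⟩
    · rw [h.bdy_of_notMem hxW, ind_eq_zero fun i e => hxW (by rw [← e]; exact hp i)]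

theorem cn_level {W : Set ℂ} (hW : Convex ℝ W) {n : ℕ} {p : Fin n → ℂ} (hp : ∀ i, p i ∈ W)
    {o : ℂ} (ho : o ∈ W) {μ : Ms} (h : Poly W μ) {l : ℝ} (h0 : 0 ≤ l) (h1 : l ≤ 1) :
    (scl o l μ + msr p fun i => o + l • (p i - o)).real univ =
      l * μ.real univ + (1 - l) * ∑ i, ‖p i - o‖ := by
  have hp' : ∀ i, o + l • (p i - o) ∈ W := fun i => hW.add_smul_sub_mem ho (hp i) ⟨h0, h1⟩
  rw [cn_real_add (h.scl hW ho h0 h1) (cn_poly hp hp'), msr_real_univ, Finset.mul_sum]
  congr 1
  · rw [Measure.real, scl_univ, ENNReal.toReal_mul, ENNReal.toReal_ofReal h0, Measure.real]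
  · refine Finset.sum_congr rfl fun i _ => ?_
    have e : o + l • (p i - o) - p i = -((1 - l) • (p i - o)) := by
      rw [sub_smul, one_smul]; ring
    rw [e, norm_neg, norm_smul, Real.norm_of_nonneg (by linarith)]

theorem acyc_cone (N : ℕ) {G W : Set ℂ} (hW : Convex ℝ W) {n : ℕ} (p : Fin n → ℂ)
    (hp : ∀ i, p i ∈ W) {o : ℂ} (ho : Adm G W o) (he : o ∈ G → Even n) :
    Acyc N G W (ind p) (∑ i, ‖p i - o‖) := by
  intro t ht ε hε
  refine bnd_of_contraction
    (fun τ V => scl o (1 - τ) V + msr p fun i => o + (1 - τ) • (p i - o))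
    (msr p fun _ => o) ?_ ?_ ?_ ?_
  · intro s hs k π τ hπ hτ h01
    have hl : ∀ x, 0 ≤ 1 - τ x ∧ 1 - τ x ≤ 1 := fun x =>
      ⟨by linarith [(h01 x).2], by linarith [(h01 x).1]⟩
    have hc : Continuous fun x => 1 - τ x := continuous_const.sub hτ
    refine ⟨?_, fun x => ⟨?_, ?_⟩⟩
    · refine Fam.add ((hs.1.1.comp hπ).scl hW ho.1 hc hl) ?_
      exact ⟨n, fun i _ => p i, fun i x => o + (1 - τ x) • (p i - o),
        fun i => ⟨continuous_const, continuous_const.add (hc.smul continuous_const)⟩,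
        fun i x => ⟨hp i, hW.add_smul_sub_mem ho.1 (hp i) (hl x)⟩, fun x => rfl⟩
    · exact cn_par hW hp ho he (hs.1.1.poly (π x)) (hs.1.2 (π x)).1 (hl x).1 (hl x).2
    · have e := cn_level hW hp ho.1 (hs.1.1.poly (π x)) (hl x).1 (hl x).2
      have h2 : (s.2 (π x)).real univ < t := (hs.1.2 (π x)).2
      change (scl o (1 - τ x) (s.2 (π x)) + msr p fun i => o + (1 - τ x) • (p i - o)).real univ
        < t + ε
      rw [e]
      nlinarith [mul_le_mul_of_nonneg_left h2.le (hl x).1,
        mul_le_mul_of_nonneg_left ht (h01 x).1]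
  · intro s _ x
    have e : (fun i => o + ((1 : ℝ) - 0) • (p i - o)) = p := by
      funext i; simp
    rw [e, sub_zero, scl_one, cn_msr_self, add_zero]
  · intro s _ x
    have e : (fun i => o + ((1 : ℝ) - 1) • (p i - o)) = fun _ : Fin n => o := by
      funext i; simp
    rw [e, sub_self, scl_zero, zero_add]
  · intro k
    refine ⟨Fam.const (cn_poly hp fun _ => ho.1), fun x => ⟨fun z _ hzG => ?_, ?_⟩⟩
    · change bdy (msr p fun _ => o) z = ind p z
      rw [bdy_msr, cn_ind_const he hzG, add_zero]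
    · change (msr p fun _ => o).real univ < t + ε
      rw [msr_real_univ]
      have e : ∑ i, ‖o - p i‖ = ∑ i, ‖p i - o‖ :=
        Finset.sum_congr rfl fun i _ => norm_sub_rev _ _
      rw [e]
      linarith

theorem cn_shift {G W : Set ℂ} {β β' : ℂ → F2} {c : Ms} (hc : Poly W c) {t η : ℝ}
    (hb : ∀ z, bdy c z = β z + β' z) (hη : c.real univ ≤ η) {s : Sx Ms}
    (hs : s ∈ Nice G W β t) : smap (fun V => V + c) s ∈ Nice G W β' (t + η) := by
  refine ⟨hs.1.add (Fam.const hc), fun x => ⟨fun z hz hzG => ?_, ?_⟩⟩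
  · change bdy (s.2 x + c) z = β' z
    rw [bdy_add (hs.1.poly x) hc, (hs.2 x).1 z hz hzG, hb, ← add_assoc, f2_add_self, zero_add]
  · change (s.2 x + c).real univ < t + η
    rw [cn_real_add (hs.1.poly x) hc]
    have := (hs.2 x).2
    linarith

theorem fill_tail {N : ℕ} {G W : Set ℂ} (hW : Convex ℝ W) {n : ℕ} (p q : Fin n → ℂ)
    (hp : ∀ i, p i ∈ W) (hq : ∀ i, q i ∈ W) {t t' η : ℝ} (hη : ∑ i, ‖p i - q i‖ ≤ η)
    (h : Fill N G W (ind q) (t + η) t') :
    Fill N G W (ind p) t (max (t' + η) (t + 2 * η)) := by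
  intro z hz h0
  have hc : Poly W (msr p q) := cn_poly hp hq
  have hcη : (msr p q).real univ ≤ η := by
    rw [msr_real_univ]
    refine le_of_eq_of_le (Finset.sum_congr rfl fun i _ => norm_sub_rev _ _) hη
  have m1 : mp (fun V => V + msr p q) z ∈ Sp (Nice G W (ind q) (t + η) ∩ Dle Ms N) :=
    mp_mem _ (fun s hs => mem_inter (cn_shift hc (bdy_msr p q) hcη hs.1) hs.2) hz
  obtain ⟨w, hw, hwz⟩ := h _ m1 (by rw [bd_mp, h0, map_zero])
  have m2 : mp (fun V => V + msr p q) w ∈ Sp (Nice G W (ind p) (t' + η)) :=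
    mp_mem _ (fun s hs => cn_shift hc (fun z => by rw [bdy_msr, add_comm]) hcη hs) hw
  obtain ⟨w', hw', hwz'⟩ := hom (P' := Nice G W (ind p) (t + 2 * η))
    (fun (τ : ℝ) (V : Ms) => V + msr p (fun i => p i + τ • (q i - p i)) +
      msr p (fun i => p i + τ • (q i - p i))) (fun s hs k π τ hπ hτ h01 => by
      have hf : Fam W fun x : Sm k => msr p (fun i => p i + τ x • (q i - p i)) :=
        ⟨n, fun i _ => p i, fun i x => p i + τ x • (q i - p i),
          fun i => ⟨continuous_const, continuous_const.add (hτ.smul continuous_const)⟩,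
          fun i x => ⟨hp i, hW.add_smul_sub_mem (hp i) (hq i) (h01 x)⟩, fun x => rfl⟩
      refine ⟨((hs.1.1.comp hπ).add hf).add hf, fun x => ⟨fun y hy hyG => ?_, ?_⟩⟩
      · change bdy (s.2 (π x) + msr p (fun i => p i + τ x • (q i - p i)) +
          msr p (fun i => p i + τ x • (q i - p i))) y = ind p y
        rw [bdy_add ((hs.1.1.poly (π x)).add (hf.poly x)) (hf.poly x),
          bdy_add (hs.1.1.poly (π x)) (hf.poly x), add_assoc, f2_add_self, add_zero]
        exact (hs.1.2 (π x)).1 y hy hyG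
      · change (s.2 (π x) + msr p (fun i => p i + τ x • (q i - p i)) +
          msr p (fun i => p i + τ x • (q i - p i))).real univ < t + 2 * η
        rw [cn_real_add ((hs.1.1.poly (π x)).add (hf.poly x)) (hf.poly x),
          cn_real_add (hs.1.1.poly (π x)) (hf.poly x)]
        have h1 : (msr p (fun i => p i + τ x • (q i - p i))).real univ ≤ η := by
          rw [msr_real_univ]
          refine le_trans (Finset.sum_le_sum fun i _ => ?_) hη
          rw [add_sub_cancel_left, norm_smul, Real.norm_of_nonneg (h01 x).1, norm_sub_rev]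
          exact mul_le_of_le_one_left (norm_nonneg _) (h01 x).2
        have h2 : (s.2 (π x)).real univ < t := (hs.1.2 (π x)).2
        linarith) hz h0
  have e0 : (fun V : Ms => V + msr p (fun i => p i + (0 : ℝ) • (q i - p i)) +
      msr p (fun i => p i + (0 : ℝ) • (q i - p i))) = id := by
    funext V
    have e : (fun i => p i + (0 : ℝ) • (q i - p i)) = p := by
      funext i; simp
    rw [e, cn_msr_self, add_zero, add_zero, id]
  have e1 : (fun V : Ms => V + msr p (fun i => p i + (1 : ℝ) • (q i - p i)) +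
      msr p (fun i => p i + (1 : ℝ) • (q i - p i))) =
      (fun V => V + msr p q) ∘ fun V => V + msr p q := by
    funext V
    have e : (fun i => p i + (1 : ℝ) • (q i - p i)) = q := by
      funext i; simp
    rw [e]
    rfl
  rw [e0, e1, mp_id] at hwz'
  refine ⟨mp (fun V => V + msr p q) w + w', Submodule.add_mem _
    (sp_mono (nice_mono (le_max_left _ _)) m2) (sp_mono (nice_mono (le_max_right _ _)) hw'), ?_⟩
  rw [map_add, bd_mp, hwz, mp_mp, hwz', add_comm z, ← add_assoc, add_self2, zero_add]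

end Pool.Agent.MP_20201c_gt.H91
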