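import Pool.Agent.MP_20201c_gt.H91.Defs4
import Pool.Agent.MP_20201c_gt.H91.KitM4

/-! Most radii, weak limits, shrinking the radius. -/

open MeasureTheory Set Filter Topology
open scoped ENNReal

namespace Pool.Agent.MP_20201c_gt.H91

variable {𝒰 : Filter ℕ} {r : ℝ} {Q Q' : ℕ → ℝ → Prop}

theorem Most.mono (h : Most 𝒰 r Q) (hQ : ∀ n, ∀ R ∈ Ioo 0 r, Q n R → Q' n R) : Most 𝒰 r Q' := by
  intro γ hγ
  filter_upwards [h γ hγ] with n hn
  refine le_trans (measure_mono ?_) hn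
  intro R hR
  exact ⟨hR.1, fun hq => hR.2 (hQ n R hR.1 hq)⟩

theorem Most.and (h : Most 𝒰 r Q) (h' : Most 𝒰 r Q') :
    Most 𝒰 r fun n R => Q n R ∧ Q' n R := by
  intro γ hγ
  filter_upwards [h (γ / 2) (half_pos hγ), h' (γ / 2) (half_pos hγ)] with n hn hn'
  have hs : {R | R ∈ Ioo 0 r ∧ ¬ (Q n R ∧ Q' n R)} ⊆
      {R | R ∈ Ioo 0 r ∧ ¬ Q n R} ∪ {R | R ∈ Ioo 0 r ∧ ¬ Q' n R} := by
    intro R hR
    rcases not_and_or.1 hR.2 with h1 | h1
    · exact Or.inl ⟨hR.1, h1⟩
    · exact Or.inr ⟨hR.1, h1⟩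
  refine ((measure_mono hs).trans (measure_union_le _ _)).trans ((add_le_add hn hn').trans ?_)
  rw [← ENNReal.ofReal_add (half_pos hγ).le (half_pos hγ).le, add_halves]

theorem Most.anti (h : Most 𝒰 r Q) {r' : ℝ} (hr : r' ≤ r) : Most 𝒰 r' Q := by
  intro γ hγ
  filter_upwards [h γ hγ] with n hn
  refine le_trans (measure_mono ?_) hn
  intro R hR
  exact ⟨⟨hR.1.1, hR.1.2.trans_le hr⟩, hR.2⟩

theorem Most.of_ae (h : ∀ᶠ n in 𝒰, ∀ᵐ R : ℝ, R ∈ Ioo 0 r → Q n R) : Most 𝒰 r Q := by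
  intro γ _
  filter_upwards [h] with n hn
  have h0 : volume {R | R ∈ Ioo 0 r ∧ ¬ Q n R} = 0 := by
    refine measure_mono_null ?_ (ae_iff.1 hn)
    intro R hR hq
    exact hR.2 (hq hR.1)
  rw [h0]
  exact zero_le

theorem Most.of_forall (h : ∀ n, ∀ R ∈ Ioo 0 r, Q n R) : Most 𝒰 r Q :=
  Most.of_ae (Eventually.of_forall fun n => Eventually.of_forall fun R hR => h n R hR)

/-- It is enough to treat the radii in compact subintervals. -/
theorem Most.of_Icc (h : ∀ s t, 0 < s → t < r → ∀ γ : ℝ, 0 < γ → ∀ᶠ n in 𝒰,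
    volume {R | R ∈ Icc s t ∧ ¬ Q n R} ≤ ENNReal.ofReal γ) : Most 𝒰 r Q := by
  intro γ hγ
  have h3 : 0 < γ / 3 := by positivity
  filter_upwards [h (γ / 3) (r - γ / 3) h3 (by linarith) (γ / 3) h3] with n hn
  have hs : {R | R ∈ Ioo 0 r ∧ ¬ Q n R} ⊆ ({R | R ∈ Icc (γ / 3) (r - γ / 3) ∧ ¬ Q n R} ∪
      Ioo 0 (γ / 3)) ∪ Ioo (r - γ / 3) r := by
    intro R hR
    by_cases h1 : R < γ / 3
    · exact Or.inl (Or.inr ⟨hR.1.1, h1⟩)
    by_cases h2 : r - γ / 3 < R
    · exact Or.inr ⟨h2, hR.1.2⟩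
    exact Or.inl (Or.inl ⟨⟨not_lt.1 h1, not_lt.1 h2⟩, hR.2⟩)
  refine ((measure_mono hs).trans (measure_union_le _ _)).trans ?_
  refine (add_le_add ((measure_union_le _ _).trans (add_le_add hn le_rfl)) le_rfl).trans ?_
  rw [Real.volume_Ioo, Real.volume_Ioo, ← ENNReal.ofReal_add h3.le (by linarith),
    ← ENNReal.ofReal_add (by linarith) (by linarith)]
  exact ENNReal.ofReal_le_ofReal (by linarith)

theorem Most.exists [𝒰.NeBot] (h : Most 𝒰 r Q) (hr : 0 < r) :
    ∃ n, ∃ R ∈ Ioo 0 r, Q n R := by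
  obtain ⟨n, hn⟩ := (h (r / 2) (half_pos hr)).exists
  by_contra hc
  have hs : {R | R ∈ Ioo 0 r ∧ ¬ Q n R} = Ioo 0 r := by
    ext R
    exact ⟨fun hR => hR.1, fun hR => ⟨hR, fun hq => hc ⟨n, R, hR, hq⟩⟩⟩
  rw [hs, Real.volume_Ioo, ENNReal.ofReal_le_ofReal_iff (half_pos hr).le] at hn
  linarith

variable {W : Set ℂ} {T : ℕ → Ms} {μ : Ms}

theorem mo_integrable {ν : Ms} [IsFiniteMeasure ν] (hW : IsCompact W) (h0 : ν Wᶜ = 0)
    {φ : ℂ → ℝ} (hφ : Continuous φ) : Integrable φ ν := by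
  have h1 : IntegrableOn φ W ν := hφ.continuousOn.integrableOn_compact hW
  have h2 : ν.restrict W = ν := Measure.restrict_eq_self_of_ae_mem h0
  rwa [IntegrableOn, h2] at h1

theorem Lim.integrable (h : Lim 𝒰 W T μ) {φ : ℂ → ℝ} (hφ : Continuous φ) : Integrable φ μ := by
  have := h.fin
  exact mo_integrable h.cpt h.supp hφ

theorem Lim.integrable_T (h : Lim 𝒰 W T μ) (n : ℕ) {φ : ℂ → ℝ} (hφ : Continuous φ) :
    Integrable φ (T n) := by
  have := (h.poly n).finite
  exact mo_integrable h.cpt ((h.poly n).compl_null h.cvx) hφ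

theorem Lim.closed_int (h : Lim 𝒰 W T μ) {F : Set ℂ} (hF : IsClosed F) {φ : ℂ → ℝ}
    (hφ : Continuous φ) (h0 : ∀ x, 0 ≤ φ x) {ε : ℝ} (hε : 0 < ε) :
    ∀ᶠ n in 𝒰, ∫ x in F, φ x ∂T n ≤ ∫ x in F, φ x ∂μ + ε := by
  have hc : ∀ k : ℕ, Continuous fun x => ((hF.apprSeq k x : NNReal) : ℝ) * φ x := fun k =>
    (NNReal.continuous_coe.comp (hF.apprSeq k).continuous).mul hφ
  have ht : Tendsto (fun k : ℕ => ∫ x, ((hF.apprSeq k x : NNReal) : ℝ) * φ x ∂μ) atTop
      (𝓝 (∫ x, F.indicator φ x ∂μ)) := by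
    refine tendsto_integral_of_dominated_convergence φ
      (fun k => (hc k).aestronglyMeasurable) (h.integrable hφ) (fun k => ?_) ?_
    · refine Eventually.of_forall fun x => ?_
      have h1 : ((hF.apprSeq k x : NNReal) : ℝ) ≤ 1 := by
        exact_mod_cast HasOuterApproxClosed.apprSeq_apply_le_one hF k x
      rw [Real.norm_of_nonneg (mul_nonneg (NNReal.coe_nonneg _) (h0 x))]
      exact mul_le_of_le_one_left (h0 x) h1
    · refine Eventually.of_forall fun x => ?_
      have h1 := tendsto_pi_nhds.1 (HasOuterApproxClosed.tendsto_apprSeq hF) x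
      have h2 := ((NNReal.continuous_coe.tendsto _).comp h1).mul_const (φ x)
      have e : ((F.indicator (fun _ => (1 : NNReal)) x : NNReal) : ℝ) * φ x =
          F.indicator φ x := by
        by_cases hx : x ∈ F
        · simp [hx]
        · simp [hx]
      rw [e] at h2
      exact h2
  rw [integral_indicator hF.measurableSet] at ht
  obtain ⟨k, hk⟩ := (ht.eventually (gt_mem_nhds (lt_add_of_pos_right _ hε))).exists
  filter_upwards [(h.conv _ (hc k)).eventually (gt_mem_nhds hk)] with n hn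
  refine le_trans ?_ hn.le
  rw [← integral_indicator hF.measurableSet]
  refine integral_mono ((h.integrable_T n hφ).indicator hF.measurableSet)
    (h.integrable_T n (hc k)) fun x => ?_
  by_cases hx : x ∈ F
  · simp [hx, HasOuterApproxClosed.apprSeq_apply_eq_one hF k hx]
  · simp only [indicator_of_notMem hx]
    exact mul_nonneg (NNReal.coe_nonneg _) (h0 x)

theorem Lim.closed (h : Lim 𝒰 W T μ) {F : Set ℂ} (hF : IsClosed F) {ε : ℝ} (hε : 0 < ε) :
    ∀ᶠ n in 𝒰, (T n).real F ≤ μ.real F + ε := by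
  have h1 := h.closed_int hF (φ := fun _ => 1) continuous_const (fun _ => zero_le_one) hε
  simpa using h1

theorem Lim.open (h : Lim 𝒰 W T μ) {U : Set ℂ} (hU : IsOpen U) {ε : ℝ} (hε : 0 < ε) :
    ∀ᶠ n in 𝒰, μ.real U ≤ (T n).real U + ε := by
  have h1 := h.closed hU.isClosed_compl (half_pos hε)
  have h2 : Tendsto (fun n => (T n).real univ) 𝒰 (𝓝 (μ.real univ)) := by
    simpa using h.conv (fun _ => 1) continuous_const
  have := h.fin
  filter_upwards [h1, h2.eventually (lt_mem_nhds (sub_lt_self _ (half_pos hε)))] with n a b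
  have := (h.poly n).finite
  have e1 := measureReal_add_measureReal_compl (μ := μ) hU.measurableSet
  have e2 := measureReal_add_measureReal_compl (μ := T n) hU.measurableSet
  linarith

theorem Lim.upper_int (h : Lim 𝒰 W T μ) {A : Set ℂ} (h1 : μ (frontier A) = 0) {φ : ℂ → ℝ}
    (hφ : Continuous φ) (h0 : ∀ x, 0 ≤ φ x) {ε : ℝ} (hε : 0 < ε) :
    ∀ᶠ n in 𝒰, ∫ x in A, φ x ∂T n ≤ ∫ x in A, φ x ∂μ + ε := by
  have e : closure A =ᵐ[μ] A := closure_ae_eq_of_null_frontier h1
  filter_upwards [h.closed_int (isClosed_closure (s := A)) hφ h0 hε] with n hn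
  rw [setIntegral_congr_set e] at hn
  refine le_trans ?_ hn
  exact setIntegral_mono_set (h.integrable_T n hφ).integrableOn (Eventually.of_forall h0)
    (Eventually.of_forall subset_closure)

theorem Lim.setIntegral_nonneg (h : Lim 𝒰 W T μ) {A : Set ℂ} (hA : MeasurableSet A)
    (h1 : μ (frontier A) = 0) {φ : ℂ → ℝ} (hφ : Continuous φ) (h0 : ∀ x, 0 ≤ φ x) :
    Tendsto (fun n => ∫ x in A, φ x ∂T n) 𝒰 (𝓝 (∫ x in A, φ x ∂μ)) := by
  refine Metric.tendsto_nhds.2 fun ε hε => ?_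
  have h3 : 0 < ε / 3 := by positivity
  have h2 : μ (frontier Aᶜ) = 0 := by rwa [frontier_compl]
  filter_upwards [h.upper_int h1 hφ h0 h3, h.upper_int h2 hφ h0 h3,
    (h.conv φ hφ).eventually (lt_mem_nhds (sub_lt_self _ h3))] with n a b c
  have e1 := integral_add_compl hA (h.integrable hφ)
  have e2 := integral_add_compl hA (h.integrable_T n hφ)
  rw [Real.dist_eq, abs_lt]
  constructor <;> linarith

theorem Lim.setIntegral (h : Lim 𝒰 W T μ) {A : Set ℂ} (hA : MeasurableSet A)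
    (h0 : μ (frontier A) = 0) {φ : ℂ → ℝ} (hφ : Continuous φ) :
    Tendsto (fun n => ∫ x in A, φ x ∂T n) 𝒰 (𝓝 (∫ x in A, φ x ∂μ)) := by
  have c1 : Continuous fun x => max (φ x) 0 := hφ.max continuous_const
  have c2 : Continuous fun x => max (-φ x) 0 := hφ.neg.max continuous_const
  have key : ∀ ν : Ms, (∀ f : ℂ → ℝ, Continuous f → Integrable f ν) → ∫ x in A, φ x ∂ν =
      ∫ x in A, max (φ x) 0 ∂ν - ∫ x in A, max (-φ x) 0 ∂ν := by
    intro ν hν
    rw [← integral_sub (hν _ c1).integrableOn (hν _ c2).integrableOn]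
    refine integral_congr_ae (Eventually.of_forall fun x => ?_)
    exact (max_zero_sub_max_neg_zero_eq_self (φ x)).symm
  rw [key μ fun f hf => h.integrable hf]
  refine ((h.setIntegral_nonneg hA h0 c1 fun x => le_max_right _ _).sub
    (h.setIntegral_nonneg hA h0 c2 fun x => le_max_right _ _)).congr fun n => ?_
  exact (key (T n) fun f hf => h.integrable_T n hf).symm

theorem mo_restrict_sum (w : Multiset ℂ) (f : ℂ → Ms) (A : Set ℂ) :
    (w.map f).sum.restrict A = (w.map fun v => (f v).restrict A).sum := by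
  induction w using Multiset.induction_on with
  | empty => simp
  | cons v w ih => simp only [Multiset.map_cons, Multiset.sum_cons, Measure.restrict_add, ih]

theorem mo_ray_ball (y v : ℂ) (hv : ‖v‖ = 1) {s R : ℝ} (h0 : 0 ≤ s) (hr : s ≤ R) :
    (sg y (y + R • v)).restrict (Metric.ball y s) = sg y (y + s • v) := by
  rw [← sg_ray y v hv h0 hr]
  refine Measure.restrict_congr_set (ae_eq_set.2 ⟨?_, ?_⟩)
  · rw [sdiff_eq_empty.2 Metric.ball_subset_closedBall, measure_empty]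
  · rw [Metric.closedBall_sdiff_ball]
    exact sg_sphere _ _ _ _

theorem ConeAt.anti {y : ℂ} {w : Multiset ℂ} (h : ConeAt μ y r w) {r' : ℝ} (h0 : 0 < r')
    (hr : r' ≤ r) : ConeAt μ y r' w := by
  refine ⟨h0, h.2.1, ?_⟩
  have e : μ.restrict (Metric.ball y r') =
      (μ.restrict (Metric.ball y r)).restrict (Metric.ball y r') := by
    rw [Measure.restrict_restrict Metric.isOpen_ball.measurableSet,
      inter_eq_left.2 (Metric.ball_subset_ball hr)]
  rw [e, h.2.2, mo_restrict_sum]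
  congr 1
  exact Multiset.map_congr rfl fun v hv => mo_ray_ball y v (h.2.1 v hv) h0.le hr

theorem mo_seg_ray (y v : ℂ) {s R : ℝ} (hR : 0 < R) (hs : s ∈ Icc 0 R) :
    y + s • v ∈ segment ℝ y (y + R • v) := by
  have h1 := m1_seg_mem y (y + R • v) (t := s / R)
    ⟨div_nonneg hs.1 hR.le, (div_le_one hR).2 hs.2⟩
  rwa [add_sub_cancel_left, smul_smul, div_mul_cancel₀ _ hR.ne'] at h1

theorem ConeAt.mem {y : ℂ} {w : Multiset ℂ} (h : ConeAt μ y r w) {F : Set ℂ} (hF : IsClosed F)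
    (h0 : μ Fᶜ = 0) {v : ℂ} (hv : v ∈ w) {s : ℝ} (hs : s ∈ Icc 0 r) : y + s • v ∈ F := by
  by_contra hx
  obtain ⟨ρ, hρ, hb⟩ := Metric.isOpen_iff.1 hF.isOpen_compl _ hx
  have hne : y ≠ y + r • v := by
    intro e
    have h1 : r • v = 0 := by simpa using e
    have h2 := congrArg norm h1
    rw [norm_smul, h.2.1 v hv, Real.norm_of_nonneg h.1.le, norm_zero] at h2
    linarith [h.1]
  have hp := sg_pos hne (mo_seg_ray y v h.1 hs) hρ
  obtain ⟨w', rfl⟩ := Multiset.exists_cons_of_mem hv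
  have h1 : μ.restrict (Metric.ball y r) (Metric.ball (y + s • v) ρ) = 0 :=
    le_antisymm ((Measure.restrict_le_self _).trans (measure_mono_null hb h0).le) zero_le
  rw [h.2.2, Multiset.map_cons, Multiset.sum_cons, Measure.add_apply, add_eq_zero] at h1
  exact hp.ne' h1.1

open Classical in
theorem mo_count (y u : ℂ) (hu : ‖u‖ = 1) {ρ : ℝ} (hρ : 0 < ρ) (w : Multiset ℂ)
    (hw : ∀ v ∈ w, ‖v‖ = 1) :
    (w.map fun v => sg y (y + ρ • v)).sum (segment ℝ y (y + ρ • u)) =
      (w.count u : ℝ≥0∞) * ENNReal.ofReal ρ := by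
  induction w using Multiset.induction_on with
  | empty => simp
  | cons v w ih =>
    rw [Multiset.map_cons, Multiset.sum_cons, Measure.add_apply,
      ih fun x hx => hw x (Multiset.mem_cons_of_mem hx)]
    have hv : ‖v‖ = 1 := hw v (Multiset.mem_cons_self v w)
    by_cases e : u = v
    · subst e
      have h1 : sg y (y + ρ • u) (segment ℝ y (y + ρ • u)) = ENNReal.ofReal ρ := by
        rw [← Measure.restrict_apply_univ, sg_restrict_of_subset subset_rfl, sg_univ,
          add_sub_cancel_left, norm_smul, hu, mul_one, Real.norm_of_nonneg hρ.le]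
      rw [h1, Multiset.count_cons_self]
      push_cast
      ring
    · have h1 : sg y (y + ρ • v) (segment ℝ y (y + ρ • u)) = 0 := by
        have hs : segment ℝ y (y + ρ • u) ⊆ {y} ∪ (segment ℝ y (y + ρ • v))ᶜ := by
          intro x hx
          by_cases hx' : x ∈ segment ℝ y (y + ρ • v)
          · left
            obtain ⟨s, hs, e1⟩ := m1_seg_ex hx
            obtain ⟨t, ht, e2⟩ := m1_seg_ex hx'
            rw [add_sub_cancel_left, smul_smul] at e1 e2
            have e3 : (s * ρ) • u = (t * ρ) • v := add_left_cancel (e1.symm.trans e2)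
            have e4 := congrArg norm e3
            rw [norm_smul, norm_smul, hu, hv, mul_one, mul_one,
              Real.norm_of_nonneg (mul_nonneg hs.1 hρ.le),
              Real.norm_of_nonneg (mul_nonneg ht.1 hρ.le)] at e4
            by_cases hz : s * ρ = 0
            · rw [e1, hz, zero_smul, add_zero]
              exact mem_singleton y
            · rw [← e4] at e3
              exact absurd (smul_right_injective ℂ hz e3) e
          · exact Or.inr hx'
        exact measure_mono_null hs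
          (measure_union_null (sg_finite _ _ (finite_singleton y)) (m1_sg_compl _ _))
      rw [h1, zero_add, Multiset.count_cons_of_ne e]

theorem ConeAt.unique {y : ℂ} {w w' : Multiset ℂ} {r' : ℝ} (h : ConeAt μ y r w)
    (h' : ConeAt μ y r' w') : w = w' := by
  classical
  have hρ : 0 < min r r' := lt_min h.1 h'.1
  have e := (h.anti hρ (min_le_left _ _)).2.2.symm.trans (h'.anti hρ (min_le_right _ _)).2.2
  refine Multiset.ext.2 fun u => ?_
  by_cases hu : ‖u‖ = 1
  · have h1 := mo_count y u hu hρ w h.2.1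
    rw [e, mo_count y u hu hρ w' h'.2.1] at h1
    have h2 := (ENNReal.mul_left_inj (ENNReal.ofReal_pos.2 hρ).ne' ENNReal.ofReal_ne_top).1 h1
    exact_mod_cast h2.symm
  · rw [Multiset.count_eq_zero.2 fun hm => hu (h.2.1 u hm),
      Multiset.count_eq_zero.2 fun hm => hu (h'.2.1 u hm)]

theorem Pack.anti {nu : ℕ → Ms} {y : ℂ} {k : ℕ} {O : ℕ → ℝ → Finset ℂ}
    (h : Pack 𝒰 T μ nu y k r O) {r' : ℝ} (h0 : 0 < r') (hr : r' ≤ r) :
    Pack 𝒰 T μ nu y k r' O where
  pos := h0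
  m := fun s hs => h.m s ⟨hs.1, hs.2.trans_le hr⟩
  t1 := fun γ hγ => (h.t1 γ hγ).anti hr
  avg := fun φ hφ s hs => h.avg φ hφ s (hs.trans hr)
  dfc := fun s hs => h.dfc s ⟨hs.1, hs.2.trans_le hr⟩

theorem LocAt.anti {G : Set ℂ} {y : ℂ} {w : Multiset ℂ} (h : LocAt 𝒰 G T μ y r w) {r' : ℝ}
    (h0 : 0 < r') (hr : r' ≤ r) : LocAt 𝒰 G T μ y r' w where
  cone := h.cone.anti h0 hr
  t1 := fun γ hγ => (h.t1 γ hγ).anti hr
  avg := fun φ hφ s hs0 hs => h.avg φ hφ s hs0 (hs.trans hr)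

end Pool.Agent.MP_20201c_gt.H91
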