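import Pool.Agent.MP_20201c_gt.H91.Two
import Pool.Agent.MP_20201c_gt.H91.Adm
import Pool.Agent.MP_20201c_gt.H91.Cone
import Pool.Agent.MP_20201c_gt.H91.Most

/-! The apex inequality. -/

open MeasureTheory Set Filter Topology
open scoped ENNReal

namespace Pool.Agent.MP_20201c_gt.H91

theorem mem_Od {G W : Set ℂ} {T : Ms} (hW : Convex ℝ W) (hT : Poly W T) {y : ℂ} (hy : y ∈ W)
    {R : ℝ} (hR : 0 < R) (z : ℂ) : z ∈ Od G T y R ↔
      z ∈ Metric.sphere y R ∧ z ∈ G ∧ bdy (T.restrict (cb y R)) z = 1 := by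
  have hf : {z | z ∈ Metric.sphere y R ∧ z ∈ G ∧ bdy (T.restrict (cb y R)) z = 1}.Finite :=
    (hT.restrict_cb hW hy hR).bdy_finite.subset fun z hz => by
      have := hz.2.2
      simp only [mem_ofPred_eq, this]
      exact one_ne_zero
  unfold Od
  rw [dif_pos hf, Set.Finite.mem_toFinset]
  rfl

theorem Od_sub (G : Set ℂ) (T : Ms) (y : ℂ) (R : ℝ) : ∀ z ∈ Od G T y R,
    z ∈ Metric.sphere y R ∧ z ∈ G ∧ bdy (T.restrict (cb y R)) z = 1 := by
  intro z hz
  unfold Od at hz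
  split_ifs at hz with h
  · exact (Set.Finite.mem_toFinset h).1 hz
  · simp at hz

variable {G : Set ℂ} {ν : ℂ → ℂ × ℂ} {y₀ : ℂ} {R₀ : ℝ} {n₀ : ℕ} {p : Fin n₀ → ℂ}

open Classical in
/-- The boundary data of the local problem in a small disc. -/
theorem local_bdy (hS : Setup G ν y₀ R₀ p) {y : ℂ} (hy : y ∈ cb y₀ R₀) :
    ∃ r, 0 < r ∧ ∀ R ∈ Ioo 0 r, ∀ T, Poly (cb y₀ R₀) T → Par G (cb y₀ R₀) (ind p) T →
      (∀ z ∈ Od G T y R, z ∈ cb y₀ R₀) ∧
      ∀ z, z ∈ G → bdy (T.restrict (cb y R)) z =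
        (if z ∈ Od G T y R then 1 else 0) + (if z = y ∧ y ∈ range p then 1 else 0) := by
  have hW : Convex ℝ (cb y₀ R₀) := convex_closedBall y₀ R₀
  obtain ⟨r, hr, hp⟩ : ∃ r, 0 < r ∧ ∀ i, dist (p i) y < r → p i = y := by
    have : ∀ i, ∀ᶠ r in 𝓝[>] (0 : ℝ), dist (p i) y < r → p i = y := fun i => by
      by_cases e : p i = y
      · exact Eventually.of_forall fun _ _ => e
      · filter_upwards [Ioo_mem_nhdsGT (dist_pos.2 e)] with r hr h
        exact absurd hr.2 (not_lt.2 h.le)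
    obtain ⟨r, h1, h2⟩ := ((eventually_all.2 this).and self_mem_nhdsWithin).exists
    exact ⟨r, h2, h1⟩
  refine ⟨r, hr, fun R hR T hT hP => ⟨fun z hz => ?_, fun z hz => ?_⟩⟩
  · by_contra k
    have h0 := (hT.restrict_cb hW hy hR.1).bdy_of_notMem (z := z) fun h => k h.1
    rw [(Od_sub G T y R z hz).2.2] at h0
    exact one_ne_zero h0
  · have hO := mem_Od (G := G) hW hT hy hR.1 z
    rcases lt_trichotomy (dist z y) R with h | h | h
    · have n1 : z ∉ Od G T y R := fun k => h.ne (Od_sub G T y R z k).1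
      rw [bdy_restrict_nhds T (Metric.closedBall_mem_nhds_of_mem h), if_neg n1, zero_add]
      by_cases hzW : z ∈ cb y₀ R₀
      · rw [hP z hzW hz]
        split_ifs with k
        · obtain ⟨rfl, i, rfl⟩ := k
          unfold ind
          rw [Finset.sum_eq_single i]
          · simp
          · intro j _ hj
            exact if_neg fun e => hj (hS.inj e)
          · simp
        · refine ind_eq_zero fun i e => k ?_
          have := hp i (by rw [e]; exact h.trans hR.2)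
          exact ⟨e.symm.trans this, i, this⟩
      · rw [hT.bdy_of_notMem hzW, if_neg]
        rintro ⟨rfl, -⟩
        exact hzW hy
    · have n2 : ¬ (z = y ∧ y ∈ range p) := by
        rintro ⟨rfl, -⟩
        rw [dist_self] at h
        exact hR.1.ne h
      rw [if_neg n2, add_zero]
      split_ifs with k
      · exact (hO.1 k).2.2
      · have : bdy (T.restrict (cb y R)) z ≠ 1 := fun e => k (hO.2 ⟨h, hz, e⟩)
        revert this
        generalize bdy (T.restrict (cb y R)) z = x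
        revert x
        decide
    · have n1 : z ∉ Od G T y R := fun k => h.ne' (Od_sub G T y R z k).1
      have n2 : ¬ (z = y ∧ y ∈ range p) := by
        rintro ⟨rfl, -⟩
        rw [dist_self] at h
        exact absurd hR.1 (not_lt.2 h.le)
      rw [if_neg n1, if_neg n2, add_zero]
      exact bdy_restrict_compl T (Metric.isClosed_closedBall.isOpen_compl.mem_nhds (not_le.2 h))

variable {N M : ℕ} {c : ℝ} {𝒰 : Ultrafilter ℕ} {T : ℕ → Ms} {μ : Ms} {ρ₀ : ℝ} {Y : Finset ℂ}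

open Classical in
theorem apex_most (hS : Setup G ν y₀ R₀ p) (hD : LimD N M G (cb y₀ R₀) (ind p) c 𝒰 T μ ρ₀ Y)
    {y : ℂ} (hy : y ∈ cb y₀ R₀) : ∃ r, 0 < r ∧ ∀ r' ≤ r, ∀ o : ℝ → ℂ,
      (∀ R ∈ Ioo 0 r', Adm G (cb y₀ R₀ ∩ cb y R) (o R)) → ∀ γ, 0 < γ → Most 𝒰 r' fun n R =>
        (T n).real (cb y R) - γ * R ≤
          ∑ q ∈ Od G (T n) y R, ‖q - o R‖ + (if y ∈ range p then ‖y - o R‖ else 0) := by
  have hW : Convex ℝ (cb y₀ R₀) := convex_closedBall y₀ R₀
  obtain ⟨r, hr, hb⟩ := local_bdy hS hy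
  refine ⟨min r ρ₀, lt_min hr hD.pos, fun r' hr' o ho γ hγ => ?_⟩
  refine ((hD.nw y hy γ hγ).anti (hr'.trans (min_le_right _ _))).mono fun n R hR hn => ?_
  by_contra hlt
  apply hn
  have hR' : R ∈ Ioo 0 r := ⟨hR.1, hR.2.trans_le (hr'.trans (min_le_left _ _))⟩
  obtain ⟨b1, b2⟩ := hb R hR' (T n) (hD.lim.poly n) (hD.par n)
  have hyO : y ∉ Od G (T n) y R := fun k => by
    have := (Od_sub G (T n) y R y k).1
    rw [Metric.mem_sphere, dist_self] at this
    exact hR.1.ne this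
  set S : Finset ℂ := if y ∈ range p then insert y (Od G (T n) y R) else Od G (T n) y R with hSd
  have hSW : ∀ z ∈ S, z ∈ cb y₀ R₀ ∩ cb y R := by
    have : ∀ z ∈ Od G (T n) y R, z ∈ cb y₀ R₀ ∩ cb y R := fun z hz =>
      ⟨b1 z hz, Metric.sphere_subset_closedBall (Od_sub G (T n) y R z hz).1⟩
    intro z hz
    rw [hSd] at hz
    split_ifs at hz
    · rcases Finset.mem_insert.1 hz with rfl | k
      · exact ⟨hy, Metric.mem_closedBall_self hR.1.le⟩
      · exact this z k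
    · exact this z hz
  let q : Fin S.card → ℂ := fun i => (S.equivFin.symm i : ℂ)
  have hq : ∀ z, ind q z = if z ∈ S then 1 else 0 := fun z => by
    unfold ind
    rw [Equiv.sum_comp S.equivFin.symm fun x : S => if (x : ℂ) = z then (1 : F2) else 0,
      Finset.sum_coe_sort S fun x => if x = z then (1 : F2) else 0, Finset.sum_ite_eq']
  have hβ : ∀ z, z ∈ G → ind q z = bdy ((T n).restrict (cb y R)) z := fun z hz => by
    rw [hq, b2 z hz, hSd]
    by_cases k : y ∈ range p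
    · by_cases e : z = y
      · subst e; simp [k, hyO]
      · simp [k, e]
    · simp [k]
  have hsum : ∑ i, ‖q i - o R‖ =
      ∑ x ∈ Od G (T n) y R, ‖x - o R‖ + (if y ∈ range p then ‖y - o R‖ else 0) := by
    rw [Equiv.sum_comp S.equivFin.symm fun x : S => ‖(x : ℂ) - o R‖,
      Finset.sum_coe_sort S fun x => ‖x - o R‖, hSd]
    split_ifs
    · rw [Finset.sum_insert hyO, add_comm]
    · rw [add_zero]
  have hA := acyc_cone N (hW.inter (convex_closedBall y R)) q
    (fun i => hSW _ (S.equivFin.symm i).2) (ho R hR) fun hoG => by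
      refine ((hD.lim.poly n).restrict_cb hW hy hR.1).even q fun z => ?_
      by_cases hz : z ∈ cb y₀ R₀ ∩ cb y R
      · refine (hβ z ?_).symm
        by_contra k
        exact (ho R hR).2 z hz k _ (left_mem_segment ℝ _ _) hoG
      · rw [((hD.lim.poly n).restrict_cb hW hy hR.1).bdy_of_notMem hz, hq,
          if_neg fun k => hz (hSW z k)]
  exact (hA.congr (fun _ _ => Iff.rfl) fun z _ hz => hβ z hz).mono le_rfl
    (by rw [hsum]; exact (not_le.1 hlt).le)

open Classical in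
theorem dir_most (hS : Setup G ν y₀ R₀ p) (hD : LimD N M G (cb y₀ R₀) (ind p) c 𝒰 T μ ρ₀ Y)
    {y : ℂ} (hy : y ∈ cb y₀ R₀) {k : ℕ} {r : ℝ} (hr : 0 < r)
    (h1 : T1 𝒰 T y k r fun n R => Od G (T n) y R) {u : ℂ} (hu : ‖u‖ = 1)
    (hν : y ∈ frontier G → ip (ν y).1 u ≤ 0 ∧ ip (ν y).2 u ≤ 0)
    (hW : ∃ s : ℝ, 0 < s ∧ y + s • u ∈ cb y₀ R₀) :
    ∃ r', 0 < r' ∧ r' ≤ r ∧ ∀ γ, 0 < γ → Most 𝒰 r' fun n R =>
      ∑ q ∈ Od G (T n) y R, ip (R⁻¹ • (q - y)) u ≤ (if y ∈ range p then 1 else 0) + γ := by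
  obtain ⟨ra, hra, hA⟩ := apex_most hS hD hy
  obtain ⟨rb, hrb, hB⟩ := adm1 hS.conic y
  obtain ⟨s, hs, hsW⟩ := hW
  set r' := min (min r ra) (min rb s) with hr'
  have l1 : r' ≤ r := (min_le_left _ _).trans (min_le_left _ _)
  have l2 : r' ≤ ra := (min_le_left _ _).trans (min_le_right _ _)
  have l3 : r' ≤ rb := (min_le_right _ _).trans (min_le_left _ _)
  have l4 : r' ≤ s := (min_le_right _ _).trans (min_le_right _ _)
  refine ⟨r', lt_min (lt_min hr hra) (lt_min hrb hs), l1, ?_⟩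
  refine bal (k := k) (fun γ hγ => (h1 γ hγ).anti l1) (fun n R q hq => (Od_sub G _ y R q hq).1) hu
    one_pos fun ε hε γ hγ => ?_
  have hn : ∀ R, 0 < R → ‖(ε * R) • u‖ = ε * R := fun R hR => by
    rw [norm_smul, hu, mul_one, Real.norm_of_nonneg (mul_pos hε.1 hR).le]
  refine (hA r' l2 (fun R => y + (ε * R) • u) (fun R hR => ?_) γ hγ).mono fun n R hR h => ?_
  · have e0 : 0 < ε * R := mul_pos hε.1 hR.1
    have e1 : ε * R ≤ R := mul_le_of_le_one_left hR.1.le hε.2
    refine hB R ⟨hR.1, hR.2.trans_le l3⟩ _ ?_ (fun hf => ?_) _ ?_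
    · rw [mem_closedBall_iff_norm, add_sub_cancel_left, hn R hR.1]
      exact e1
    · have e : ∀ v : ℂ, ip v (y + (ε * R) • u - y) = ε * R * ip v u := fun v => by
        simp [ip]; ring
      rw [e, e]
      exact ⟨mul_nonpos_of_nonneg_of_nonpos e0.le (hν hf).1,
        mul_nonpos_of_nonneg_of_nonpos e0.le (hν hf).2⟩
    · have := (convex_closedBall y₀ R₀).add_smul_mem hy hsW (t := ε * R / s)
        ⟨(div_pos e0 hs).le, (div_le_one hs).2 (e1.trans (hR.2.le.trans l4))⟩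
      rwa [smul_smul, div_mul_cancel₀ _ hs.ne'] at this
  · refine h.trans (le_of_eq ?_)
    congr 1
    rw [sub_add_cancel_left, norm_neg, hn R hR.1]
    split_ifs <;> simp

end Pool.Agent.MP_20201c_gt.H91
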