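import Pool.Agent.MP_20201c_gt.H91.StM

/-! Mixing states cell by cell. -/

open MeasureTheory Set Filter Topology
open scoped ENNReal

namespace Pool.Agent.MP_20201c_gt.H91

/-- The part of the boundary measure inside the cell `c`. -/
noncomputable def cellM (𝒯 : Finset Tri) (pos : Vt → ℂ) (cell : Tri → ℤ × ℤ) (c : ℤ × ℤ)
    (S : St) : Ms :=
  ∑ τ ∈ 𝒯.filter (fun τ => cell τ = c), levT pos S τ +
    ∑ e ∈ (inE 𝒯).filter (fun e => cell (eT1 e) = c ∧ cell (eT2 e) = c), edg pos S e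

variable {𝒯 : Finset Tri} {pos : Vt → ℂ} {h ε : ℝ} {m : ℕ}

theorem ce_sum (cell : Tri → ℤ × ℤ) (C : Finset (ℤ × ℤ)) (S : St) :
    ∑ c ∈ C, cellM 𝒯 pos cell c S = ∑ τ ∈ 𝒯.filter (fun τ => cell τ ∈ C), levT pos S τ +
      ∑ e ∈ ((inE 𝒯).filter fun e => cell (eT1 e) = cell (eT2 e)).filter
        (fun e => cell (eT1 e) ∈ C), edg pos S e := by
  unfold cellM
  rw [Finset.sum_add_distrib, Finset.sum_fiberwise_eq_sum_filter,
    ← Finset.sum_fiberwise_eq_sum_filter _ C (fun e => cell (eT1 e))]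
  refine congrArg _ (Finset.sum_congr rfl fun c _ => Finset.sum_congr ?_ fun _ _ => rfl)
  ext e
  simp only [Finset.mem_filter]
  constructor
  · rintro ⟨h1, h2, h3⟩; exact ⟨⟨h1, h2.trans h3.symm⟩, h2⟩
  · rintro ⟨⟨h1, h2⟩, h3⟩; exact ⟨h1, h3, h2.symm.trans h3⟩

theorem ce_le {ι : Type} {s t : Finset ι} (hst : s ⊆ t) (μ : ι → Ms) :
    ∑ i ∈ s, μ i ≤ ∑ i ∈ t, μ i := by
  rw [Measure.le_iff']
  intro A
  rw [Measure.finsetSum_apply, Measure.finsetSum_apply]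
  exact Finset.sum_le_sum_of_subset hst

theorem ce_mem {e : Ed} (he : e ∈ inE 𝒯) : eT1 e ∈ 𝒯 ∧ eT2 e ∈ 𝒯 := (Finset.mem_filter.1 he).2

theorem sum_cellM_le (cell : Tri → ℤ × ℤ) (C : Finset (ℤ × ℤ)) (S : St) :
    ∑ c ∈ C, cellM 𝒯 pos cell c S ≤ stM 𝒯 pos S := by
  rw [ce_sum]
  exact add_le_add (ce_le (Finset.filter_subset _ _) _)
    (ce_le ((Finset.filter_subset _ _).trans (Finset.filter_subset _ _)) _)

theorem cellM_congr (cell : Tri → ℤ × ℤ) (c : ℤ × ℤ) {S S' : St}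
    (hS : ∀ τ ∈ 𝒯, cell τ = c → S τ = S' τ) : cellM 𝒯 pos cell c S = cellM 𝒯 pos cell c S' := by
  unfold cellM
  refine congrArg₂ _ (Finset.sum_congr rfl fun τ hτ => ?_) (Finset.sum_congr rfl fun e he => ?_)
  · rw [Finset.mem_filter] at hτ
    unfold levT
    rw [hS τ hτ.1 hτ.2]
  · rw [Finset.mem_filter] at he
    unfold edg
    rw [hS _ (ce_mem he.1).1 he.2.1, hS _ (ce_mem he.1).2 he.2.2]

theorem ce_tv (τ : Tri) (i : Fin 3) : (τ.1.1 ≤ (tv τ i).1 ∧ (tv τ i).1 ≤ τ.1.1 + 1) ∧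
    τ.1.2 ≤ (tv τ i).2 ∧ (tv τ i).2 ≤ τ.1.2 + 1 := by
  obtain ⟨v, b⟩ := τ
  cases b <;> fin_cases i <;> simp [tv]

theorem ce_strip (hh : 0 < h) {r x y : ℝ} (hm0 : 0 < m) (hm : 2 * r + 2 * ε < m * h) {a θ : ℤ}
    (h1 : h * a - ε ≤ x) (h2 : x ≤ h * (a + 1) + ε) (h3 : |x - y| ≤ r) :
    (a - θ) / m ∈ ({⌊(y + r + ε - h * θ) / (m * h)⌋, ⌊(y + r + ε - h * θ) / (m * h)⌋ - 1} :
      Finset ℤ) := by
  have hmz : (0 : ℤ) < m := by exact_mod_cast hm0
  have hmr : (0 : ℝ) < m := by exact_mod_cast hm0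
  have hM : (0 : ℝ) < m * h := mul_pos hmr hh
  set c := (a - θ) / (m : ℤ) with hc
  have e1 : c * m ≤ a - θ := Int.ediv_mul_le _ hmz.ne'
  have e2 : a - θ < (c + 1) * m := Int.lt_ediv_add_one_mul_self _ hmz
  have e2' : a - θ + 1 ≤ (c + 1) * m := e2
  have r1 : (c : ℝ) * m ≤ a - θ := by exact_mod_cast e1
  have r2 : (a : ℝ) - θ + 1 ≤ (c + 1) * m := by exact_mod_cast e2'
  obtain ⟨h4, h5⟩ := abs_le.1 h3
  have k1 : c ≤ ⌊(y + r + ε - h * θ) / (m * h)⌋ := by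
    rw [Int.le_floor, le_div_iff₀ hM]
    nlinarith [mul_le_mul_of_nonneg_left r1 hh.le]
  have k2 : ⌊(y + r + ε - h * θ) / (m * h)⌋ < c + 2 := by
    rw [Int.floor_lt, div_lt_iff₀ hM]
    push_cast
    nlinarith [mul_le_mul_of_nonneg_left r2 hh.le]
  simp only [Finset.mem_insert, Finset.mem_singleton]
  omega

theorem ce_hull (hh : 0 < h) (hp : PosOK h ε pos) (τ : Tri) {z : ℂ} (hz : z ∈ hull pos τ) :
    (h * τ.1.1 - ε ≤ z.re ∧ z.re ≤ h * (τ.1.1 + 1) + ε) ∧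
      h * τ.1.2 - ε ≤ z.im ∧ z.im ≤ h * (τ.1.2 + 1) + ε := by
  have hc : Convex ℝ ((({z : ℂ | h * τ.1.1 - ε ≤ z.re} ∩ {z : ℂ | z.re ≤ h * (τ.1.1 + 1) + ε}) ∩
      ({z : ℂ | h * τ.1.2 - ε ≤ z.im} ∩ {z : ℂ | z.im ≤ h * (τ.1.2 + 1) + ε})) : Set ℂ) :=
    ((convex_halfSpace_re_ge _).inter (convex_halfSpace_re_le _)).inter
      ((convex_halfSpace_im_ge _).inter (convex_halfSpace_im_le _))
  refine convexHull_min ?_ hc hz
  rintro _ ⟨i, rfl⟩
  obtain ⟨⟨a1, a2⟩, a3, a4⟩ := ce_tv τ i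
  have b1 : (τ.1.1 : ℝ) ≤ (tv τ i).1 := by exact_mod_cast a1
  have b2 : ((tv τ i).1 : ℝ) ≤ τ.1.1 + 1 := by exact_mod_cast a2
  have b3 : (τ.1.2 : ℝ) ≤ (tv τ i).2 := by exact_mod_cast a3
  have b4 : ((tv τ i).2 : ℝ) ≤ τ.1.2 + 1 := by exact_mod_cast a4
  have c1 := abs_le.1 ((Complex.abs_re_le_norm _).trans (hp (tv τ i)).1)
  have c2 := abs_le.1 ((Complex.abs_im_le_norm _).trans (hp (tv τ i)).1)
  simp only [Complex.sub_re, Complex.sub_im, gp] at c1 c2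
  simp only [mem_inter_iff, mem_ofPred_eq, Function.comp]
  refine ⟨⟨?_, ?_⟩, ?_, ?_⟩
  · nlinarith [mul_le_mul_of_nonneg_left b1 hh.le]
  · nlinarith [mul_le_mul_of_nonneg_left b2 hh.le]
  · nlinarith [mul_le_mul_of_nonneg_left b3 hh.le]
  · nlinarith [mul_le_mul_of_nonneg_left b4 hh.le]

/-- A disc meets at most four cells. -/
theorem four_cells (hh : 0 < h) (hp : PosOK h ε pos) {r : ℝ} (hm : 2 * r + 2 * ε < m * h)
    (θ : ℤ × ℤ) (q : ℂ) : ∃ C : Finset (ℤ × ℤ), C.card ≤ 4 ∧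
      ∀ c, c ∉ C → ∀ S, cellM 𝒯 pos (cellOf m θ) c S (cb q r) = 0 := by
  rcases lt_or_ge r 0 with hr | hr
  · exact ⟨∅, by simp, fun c _ S => by rw [cb, Metric.closedBall_eq_empty.2 hr, measure_empty]⟩
  have hε : 0 ≤ ε := (norm_nonneg _).trans (hp 0).1
  have hm0 : 0 < m := by
    rcases Nat.eq_zero_or_pos m with rfl | h0
    · simp at hm; linarith
    · exact h0
  refine ⟨({⌊(q.re + r + ε - h * θ.1) / (m * h)⌋, ⌊(q.re + r + ε - h * θ.1) / (m * h)⌋ - 1} :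
      Finset ℤ) ×ˢ ({⌊(q.im + r + ε - h * θ.2) / (m * h)⌋,
        ⌊(q.im + r + ε - h * θ.2) / (m * h)⌋ - 1} : Finset ℤ), ?_, fun c hc S => ?_⟩
  · rw [Finset.card_product]
    exact Nat.mul_le_mul Finset.card_le_two Finset.card_le_two
  have key : ∀ τ, cellOf m θ τ = c → cb q r ⊆ (hull pos τ)ᶜ := by
    rintro τ rfl z hz hz'
    obtain ⟨⟨a1, a2⟩, a3, a4⟩ := ce_hull hh hp τ hz'
    have hn : ‖z - q‖ ≤ r := by simpa [dist_eq_norm] using hz
    exact hc (Finset.mem_product.2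
      ⟨ce_strip hh hm0 hm a1 a2 ((Complex.abs_re_le_norm (z - q)).trans hn),
        ce_strip hh hm0 hm a3 a4 ((Complex.abs_im_le_norm (z - q)).trans hn)⟩)
  unfold cellM
  rw [Measure.add_apply, Measure.finsetSum_apply, Measure.finsetSum_apply,
    Finset.sum_eq_zero, Finset.sum_eq_zero, add_zero]
  · intro e he
    refine measure_mono_null ((key _ (Finset.mem_filter.1 he).2.1).trans
      (compl_subset_compl.2 ((edge_hull pos e).trans inter_subset_left))) ?_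
    exact (sgOn_tr_add _ _ _ _ _ _).1.compl_null (convex_segment _ _)
  · intro τ hτ
    exact measure_mono_null (key _ (Finset.mem_filter.1 hτ).2)
      ((lev_poly _ _).compl_null (convex_convexHull _ _))

theorem ce_edg_zero {f : Vt → ℝ} {η₂ η : ℝ} (hη : η₂ ≤ η) {S : St} (hS : Sand 𝒯 f η S) {e : Ed}
    (he : e ∈ inE 𝒯) (hu : eT1 e ∉ Unc 𝒯 f η₂) : edg pos S e = 0 := by
  obtain ⟨m1, m2⟩ := ce_mem he
  obtain ⟨⟨i1, e1⟩, ⟨i2, e2⟩, ⟨i3, e3⟩, i4, e4⟩ := edge_tv e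
  have a1 := (hS.2 _ m1 i1).2
  have a2 := (hS.2 _ m1 i2).2
  have a3 := (hS.2 _ m2 i3).2
  have a4 := (hS.2 _ m2 i4).2
  have hc : (∀ i, 1 - η₂ ≤ f (tv (eT1 e) i)) ∨ ∀ i, f (tv (eT1 e) i) ≤ η₂ := by
    by_contra h0
    exact hu (by unfold Unc; exact Finset.mem_filter.2 ⟨m1, h0⟩)
  have pos' : ∀ u α α' : ℝ, u ∈ Icc (0 : ℝ) 1 → 0 < α → 0 < α' → u ∈ tr α α' := by
    intro u α α' hu h1 h2
    change 0 < (1 - u) * α + u * α'
    rcases hu.1.eq_or_lt with rfl | h3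
    · simpa using h1
    · nlinarith [mul_pos h3 h2, mul_nonneg (sub_nonneg.2 hu.2) h1.le]
  have neg' : ∀ u α α' : ℝ, u ∈ Icc (0 : ℝ) 1 → α < 0 → α' < 0 → u ∉ tr α α' := by
    intro u α α' hu h1 h2 h3
    change 0 < (1 - u) * α + u * α' at h3
    nlinarith [mul_nonneg hu.1 (neg_nonneg.2 h2.le),
      mul_nonneg (sub_nonneg.2 hu.2) (neg_nonneg.2 h1.le)]
  unfold edg
  rw [← sgOn_empty (pos e.1) (pos (eEnd e))]
  refine sgOn_congr _ _ (ae_of_all _ fun u hu => ?_)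
  rw [mem_empty_iff_false, iff_false, Set.mem_symmDiff]
  rcases hc with hc | hc
  · have b1 := hc i1
    have b2 := hc i2
    rw [e1] at a1 b1; rw [e2] at a2 b2; rw [e3] at a3; rw [e4] at a4
    have c1 := pos' u _ _ hu (a1.1 (by linarith)) (a2.1 (by linarith))
    have c2 := pos' u _ _ hu (a3.1 (by linarith)) (a4.1 (by linarith))
    tauto
  · have b1 := hc i1
    have b2 := hc i2
    rw [e1] at a1 b1; rw [e2] at a2 b2; rw [e3] at a3; rw [e4] at a4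
    have c1 := neg' u _ _ hu (a1.2 (by linarith)) (a2.2 (by linarith))
    have c2 := neg' u _ _ hu (a3.2 (by linarith)) (a4.2 (by linarith))
    tauto

theorem ce_div (hm : 0 < m) {a k : ℤ} (h0 : 0 ≤ k) (h1 : k < m)
    (h : (a - k) / m ≠ (a - 1 - k) / m) : a % m = k := by
  have hmz : (0 : ℤ) < m := by exact_mod_cast hm
  have e1 := Int.emod_add_mul_ediv (a - k) m
  have l1 := Int.emod_nonneg (a - k) hmz.ne'
  have u1 := Int.emod_lt_of_pos (a - k) hmz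
  by_cases hz : (a - k) % m = 0
  · have e : a = k + m * ((a - k) / m) := by omega
    rw [e, Int.add_mul_emod_self_left, Int.emod_eq_of_lt h0 h1]
  · refine absurd ?_ h
    have e : a - 1 - k = ((a - k) % m - 1) + m * ((a - k) / m) := by omega
    have z : ((a - k) % m - 1) / m = 0 := Int.ediv_eq_zero_of_lt (by omega) (by omega)
    rw [e, Int.add_mul_ediv_left _ _ hmz.ne', z, zero_add]

/-- The coordinate that decides whether a side of a triangle lies on the grid of cells. -/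
def ceG (m : ℕ) (τ : Tri) : ℤ := (if τ.2 then τ.1.1 else τ.1.2) % m

theorem ce_bad (hm : 0 < m) {k : ℤ} (h0 : 0 ≤ k) (h1 : k < m) {e : Ed}
    (h : cellOf m (k, k) (eT1 e) ≠ cellOf m (k, k) (eT2 e)) :
    e.2 ≠ 2 ∧ ceG m (eT1 e) = k := by
  obtain ⟨v, j⟩ := e
  fin_cases j
  · refine ⟨by simp, ce_div hm h0 h1 fun h2 => h ?_⟩
    simpa [cellOf, eT1, eT2] using h2
  · refine ⟨by simp, ce_div hm h0 h1 fun h2 => h ?_⟩
    simpa [cellOf, eT1, eT2] using h2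
  · exact absurd (by simp [cellOf, eT1, eT2]) h

theorem ce_inj {e e' : Ed} (h : e.2 ≠ 2) (h' : e'.2 ≠ 2) (hee : eT1 e = eT1 e') : e = e' := by
  obtain ⟨v, j⟩ := e
  obtain ⟨v', j'⟩ := e'
  fin_cases j <;> fin_cases j' <;> simp_all [eT1]

theorem ce_len (hh : 0 < h) (hp : PosOK h ε pos) (hε : ε ≤ 1) {e : Ed} (he : e.2 ≠ 2) :
    ‖pos (eEnd e) - pos e.1‖ ≤ 2 * h := by
  have h1 : ‖gp h (eEnd e) - gp h e.1‖ = h := by
    obtain ⟨v, j⟩ := e
    fin_cases j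
    · have : gp h (eEnd (v, 0)) - gp h v = (h : ℂ) := by
        apply Complex.ext <;> simp [gp, eEnd, mul_add]
      exact (congrArg norm this).trans (by simp [abs_of_pos hh])
    · have : gp h (eEnd (v, 1)) - gp h v = (h : ℂ) * Complex.I := by
        apply Complex.ext <;> simp [gp, eEnd, mul_add]
      exact (congrArg norm this).trans (by simp [abs_of_pos hh])
    · exact absurd rfl he
  have h2 := (hp (eEnd e)).2 e.1
  have h3 : pos (eEnd e) - pos e.1 = (pos (eEnd e) - gp h (eEnd e) - (pos e.1 - gp h e.1)) +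
      (gp h (eEnd e) - gp h e.1) := by ring
  have h4 := norm_add_le (pos (eEnd e) - gp h (eEnd e) - (pos e.1 - gp h e.1))
    (gp h (eEnd e) - gp h e.1)
  rw [← h3] at h4
  rw [h1] at h2 h4
  nlinarith

/-- A grid of cells on which all sandwiched states have little mass. -/
theorem good_shift (hh : 0 < h) (hp : PosOK h ε pos) (hε : ε ≤ 1) (hm : 0 < m) (f : Vt → ℝ)
    {η₂ ξ : ℝ} (hU : 4 * h * (Unc 𝒯 f η₂).card ≤ ξ * m) :
    ∃ θ : ℤ × ℤ, ∀ η, η₂ ≤ η → ∀ S, Sand 𝒯 f η S → ∃ κ : Ms, κ univ ≤ ENNReal.ofReal ξ ∧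
      stM 𝒯 pos S = ∑ c ∈ 𝒯.image (cellOf m θ), cellM 𝒯 pos (cellOf m θ) c S + κ := by
  have hmr : (0 : ℝ) < m := by exact_mod_cast hm
  obtain ⟨k, hk, hcard⟩ := Finset.exists_card_fiber_le_of_card_le_nsmul (s := Unc 𝒯 f η₂)
    (t := Finset.Ico (0 : ℤ) m) (f := ceG m) (b := ((Unc 𝒯 f η₂).card : ℝ) / m)
    ⟨0, by simpa using hm⟩ (by
      rw [Int.card_Ico, sub_zero, Int.toNat_natCast, nsmul_eq_mul, mul_div_cancel₀ _ hmr.ne'])
  obtain ⟨k0, k1⟩ := Finset.mem_Ico.1 hk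
  refine ⟨(k, k), fun η hη S hS => ⟨∑ e ∈ (inE 𝒯).filter
    (fun e => ¬ cellOf m (k, k) (eT1 e) = cellOf m (k, k) (eT2 e)), edg pos S e, ?_, ?_⟩⟩
  · set B := ((inE 𝒯).filter
      (fun e => ¬ cellOf m (k, k) (eT1 e) = cellOf m (k, k) (eT2 e))) with hB
    have hbad : ∀ e ∈ B, e.2 ≠ 2 ∧ ceG m (eT1 e) = k := fun e he =>
      ce_bad hm k0 k1 (Finset.mem_filter.1 he).2
    rw [← Finset.sum_filter_of_ne (p := fun e => eT1 e ∈ Unc 𝒯 f η₂) fun e he hne => by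
      by_contra hu
      exact hne (ce_edg_zero hη hS (Finset.mem_filter.1 he).1 hu), Measure.finsetSum_apply]
    have hc : (B.filter fun e => eT1 e ∈ Unc 𝒯 f η₂).card ≤
        ((Unc 𝒯 f η₂).filter fun τ => ceG m τ = k).card := by
      refine Finset.card_le_card_of_injOn eT1 (fun e he => ?_) fun e he e' he' hee => ?_
      · have he' := Finset.mem_filter.1 (Finset.mem_coe.1 he)
        exact Finset.mem_coe.2 (Finset.mem_filter.2 ⟨he'.2, (hbad e he'.1).2⟩)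
      · exact ce_inj (hbad e (Finset.mem_filter.1 (Finset.mem_coe.1 he)).1).1
          (hbad e' (Finset.mem_filter.1 (Finset.mem_coe.1 he')).1).1 hee
    have hc' : ((B.filter fun e => eT1 e ∈ Unc 𝒯 f η₂).card : ℝ) ≤
        ((Unc 𝒯 f η₂).card : ℝ) / m := (Nat.cast_le.2 hc).trans hcard
    refine (Finset.sum_le_card_nsmul _ _ (ENNReal.ofReal (2 * h)) fun e he => ?_).trans ?_
    · exact (sgOn_univ_le _ _ _).trans (ENNReal.ofReal_le_ofReal
        (ce_len hh hp hε (hbad e (Finset.mem_filter.1 he).1).1))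
    · rw [nsmul_eq_mul, ← ENNReal.ofReal_natCast, ← ENNReal.ofReal_mul (Nat.cast_nonneg _)]
      refine ENNReal.ofReal_le_ofReal ?_
      rw [le_div_iff₀ hmr] at hc'
      have h0 : (0 : ℝ) ≤ (B.filter fun e => eT1 e ∈ Unc 𝒯 f η₂).card := Nat.cast_nonneg _
      refine le_of_mul_le_mul_right ?_ hmr
      nlinarith [mul_le_mul_of_nonneg_left hc' hh.le, mul_nonneg (mul_nonneg h0 hmr.le) hh.le]
  · rw [ce_sum, Finset.filter_true_of_mem fun τ hτ => Finset.mem_image_of_mem _ hτ,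
      Finset.filter_true_of_mem fun e he =>
        Finset.mem_image_of_mem _ (ce_mem (Finset.mem_filter.1 he).1).1,
      add_assoc, Finset.sum_filter_add_sum_filter_not]
    rfl

end Pool.Agent.MP_20201c_gt.H91
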