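import Pool.Agent.MP_20201c_gt.H91.Line_a

/-! Measures on a line, and cones from radial lines. -/

open MeasureTheory Set Filter Topology
open scoped ENNReal

namespace Pool.Agent.MP_20201c_gt.H91

theorem line_meas (μ : Ms) [IsFiniteMeasure μ] (y : ℂ) {u : ℂ} (hu : ‖u‖ = 1) {r : ℝ} (hr : 0 < r)
    (j : ℕ) (hm : ∀ s ∈ Ioo 0 r, μ.real (cb y s) = (2 * j : ℕ) * s)
    (h0 : μ {x | x ∈ Metric.ball y r ∧ dt (x - y) u ≠ 0} = 0)
    (hs : ∀ s t, 0 < s → s < t → t < r →
      ∫ x in cb y t \ cb y s, ip (‖x - y‖⁻¹ • (x - y)) u ∂μ = 0) :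
    μ.restrict (Metric.ball y r) = j • sg (y - r • u) (y + r • u) := by
  have h1 := ln_half μ y hu hr j hm h0 hs
  have h2 := ln_half μ y (u := -u) (by rwa [norm_neg]) hr j hm
    (by simpa only [ln_dt_neg, ne_eq, neg_eq_zero] using h0)
    (fun s t a b c => by
      simp only [ln_ip_neg]
      rw [integral_neg, hs s t a b c, neg_zero])
  have hy : μ {y} = 0 := by
    have h3 : μ.real {y} ≤ 0 := by
      refine le_of_forall_pos_le_add fun ε hε => ?_
      have hj : (0 : ℝ) < 2 * j + 1 := by positivity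
      have hs0 : 0 < min (r / 2) (ε / (2 * j + 1)) := lt_min (half_pos hr) (div_pos hε hj)
      have h4 := hm _ ⟨hs0, (min_le_left _ _).trans_lt (half_lt_self hr)⟩
      have h5 : μ.real {y} ≤ μ.real (cb y (min (r / 2) (ε / (2 * j + 1)))) :=
        measureReal_mono (singleton_subset_iff.2 (Metric.mem_closedBall_self hs0.le))
      have h6 : min (r / 2) (ε / (2 * j + 1)) * (2 * j + 1) ≤ ε :=
        (le_div_iff₀ hj).1 (min_le_right _ _)
      rw [h4] at h5
      push_cast at h5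
      nlinarith
    exact (measureReal_eq_zero_iff (measure_ne_top _ _)).1 (le_antisymm h3 measureReal_nonneg)
  have hseg : y ∈ segment ℝ (y - r • u) (y + r • u) := mem_segment_sub_add y (r • u)
  have e : y + r • -u = y - r • u := by rw [smul_neg, sub_eq_add_neg]
  rw [sg_split hseg, sg_comm (y - r • u) y, smul_add, ← h1, ← e, ← h2,
    ← Measure.restrict_union]
  · refine Measure.restrict_congr_set (ae_eq_set.2 ⟨?_, ?_⟩)
    · refine measure_mono_null (fun x hx => ?_) (measure_union_null h0 hy)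
      by_cases hd : dt (x - y) u = 0
      · right
        have hn := ln_norm hu hd
        have h3 : ¬ 0 < ip (x - y) (-u) := fun h => hx.2 (Or.inl ⟨hx.1, h⟩)
        have h4 : ¬ 0 < ip (x - y) u := fun h => hx.2 (Or.inr ⟨hx.1, h⟩)
        rw [ln_ip_neg] at h3
        have h5 : ip (x - y) u = 0 := by linarith
        rw [h5, abs_zero, norm_eq_zero, sub_eq_zero] at hn
        exact hn
      · exact Or.inl ⟨hx.1, hd⟩
    · refine measure_mono_null (fun x hx => ?_) measure_empty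
      exact hx.2 (hx.1.elim (fun h => h.1) fun h => h.1)
  · refine disjoint_left.2 fun x h3 h4 => ?_
    have h5 : 0 < ip (x - y) (-u) := h3.2
    have h6 : 0 < ip (x - y) u := h4.2
    rw [ln_ip_neg] at h5
    linarith
  · exact Metric.isOpen_ball.measurableSet.inter
      (measurableSet_lt measurable_const (ln_meas_ip y u))

/-- Near the point with parameter `c` the measure is `j` times the line. -/
def LnLoc (μ : Ms) (y v : ℂ) (j : ℕ) (c ρ : ℝ) : Prop :=
  μ.restrict (Metric.ball (y + c • v) ρ) = j • sg (y + (c - ρ) • v) (y + (c + ρ) • v)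

theorem LnLoc.anti {μ : Ms} {y v : ℂ} (hv : ‖v‖ = 1) {j : ℕ} {c ρ c' ρ' : ℝ}
    (h : LnLoc μ y v j c ρ) (h0 : 0 ≤ ρ') (ha : c - ρ ≤ c' - ρ') (hb : c' + ρ' ≤ c + ρ) :
    LnLoc μ y v j c' ρ' := by
  have hsub : Metric.ball (y + c' • v) ρ' ⊆ Metric.ball (y + c • v) ρ := by
    refine Metric.ball_subset_ball' ?_
    rw [ln_dist y hv]
    have h1 : |c' - c| ≤ ρ - ρ' := abs_le.2 ⟨by linarith, by linarith⟩
    linarith
  unfold LnLoc at h ⊢
  rw [← Measure.restrict_restrict_of_subset hsub, h, Measure.restrict_smul,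
    ln_sg_ball y hv h0 ha hb]

theorem LnLoc.unique {μ : Ms} {y v : ℂ} (hv : ‖v‖ = 1) {j j' : ℕ} {c ρ ρ' : ℝ}
    (h : LnLoc μ y v j c ρ) (h' : LnLoc μ y v j' c ρ') (h0 : 0 < ρ) (h0' : 0 < ρ') : j = j' := by
  have hm : 0 < min ρ ρ' := lt_min h0 h0'
  have h1 := min_le_left ρ ρ'
  have h2 := min_le_right ρ ρ'
  have e := (h.anti hv (c' := c) hm.le (by linarith) (by linarith)).symm.trans
    (h'.anti hv (c' := c) hm.le (by linarith) (by linarith))
  have e2 := congrArg (fun m : Ms => m univ) e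
  simp only [Measure.smul_apply, sg_univ, nsmul_eq_mul] at e2
  have hp : 0 < ‖y + (c + min ρ ρ') • v - (y + (c - min ρ ρ') • v)‖ := by
    rw [← dist_eq_norm, ln_dist y hv, abs_pos]
    linarith
  exact_mod_cast (ENNReal.mul_left_inj (ENNReal.ofReal_pos.2 hp).ne' ENNReal.ofReal_ne_top).1 e2

/-- The open ray. -/
def lnRay (y : ℂ) (r : ℝ) (v : ℂ) : Set ℂ :=
  {x | x ∈ Metric.ball y r ∧ x ≠ y ∧ ‖x - y‖⁻¹ • (x - y) = v}

theorem lnRay_meas (y : ℂ) (r : ℝ) (v : ℂ) : MeasurableSet (lnRay y r v) := by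
  have h : Measurable fun x : ℂ => ‖x - y‖⁻¹ • (x - y) := by fun_prop
  exact Metric.isOpen_ball.measurableSet.inter
    ((measurableSet_singleton y).compl.inter (h (measurableSet_singleton v)))

theorem lnRay_mem (y : ℂ) {r : ℝ} {v : ℂ} (hv : ‖v‖ = 1) {t : ℝ} (ht : t ∈ Ioo 0 r) :
    y + t • v ∈ lnRay y r v := by
  have hn : ‖t • v‖ = t := by rw [norm_smul, hv, mul_one, Real.norm_of_nonneg ht.1.le]
  refine ⟨?_, fun e => ?_, ?_⟩
  · rw [mem_ball_iff_norm, add_sub_cancel_left, hn]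
    exact ht.2
  · rw [add_eq_left] at e
    rw [e, norm_zero] at hn
    exact ht.1.ne hn
  · rw [add_sub_cancel_left, hn, smul_smul, inv_mul_cancel₀ ht.1.ne', one_smul]

theorem lnRay_ex {y : ℂ} {r : ℝ} {v x : ℂ} (hx : x ∈ lnRay y r v) :
    ‖v‖ = 1 ∧ ∃ t ∈ Ioo 0 r, x = y + t • v := by
  have hp : 0 < ‖x - y‖ := norm_pos_iff.2 (sub_ne_zero.2 hx.2.1)
  refine ⟨?_, ‖x - y‖, ⟨hp, mem_ball_iff_norm.1 hx.1⟩, ?_⟩
  · rw [← hx.2.2, norm_smul, norm_inv, norm_norm, inv_mul_cancel₀ hp.ne']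
  · rw [← hx.2.2, smul_smul, mul_inv_cancel₀ hp.ne', one_smul, add_sub_cancel]

theorem lnRay_compl (y : ℂ) {r : ℝ} (hr : 0 ≤ r) {v : ℂ} (hv : ‖v‖ = 1) :
    sg y (y + r • v) (lnRay y r v)ᶜ = 0 := by
  rw [ln_sg0 y hv hr (lnRay_meas y r v).compl]
  exact measure_mono_null (fun t ht => ht.2 (lnRay_mem y hv ht.1)) measure_empty

theorem ln_ray (μ : Ms) (y : ℂ) {r : ℝ} (hr : 0 < r) {v : ℂ} (hv : ‖v‖ = 1)
    (h : ∀ c ∈ Ioo 0 r, ∃ (j : ℕ) (ρ : ℝ), 0 < ρ ∧ LnLoc μ y v j c ρ) :
    ∃ k : ℕ, μ.restrict (lnRay y r v) = k • sg y (y + r • v) ∧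
      ∀ c ∈ Ioo 0 r, ∃ ρ : ℝ, 0 < ρ ∧ LnLoc μ y v k c ρ := by
  choose! g R hR hg using h
  have hc : ContinuousOn g (Ioo 0 r) := by
    intro c hc
    refine (continuousWithinAt_const (b := g c)).congr_of_eventuallyEq ?_ rfl
    have h1 : Ioo (c - R c / 2) (c + R c / 2) ∈ 𝓝 c :=
      Ioo_mem_nhds (by linarith [hR c hc]) (by linarith [hR c hc])
    filter_upwards [mem_nhdsWithin_of_mem_nhds h1, self_mem_nhdsWithin] with c' h2 h3
    exact (hg c' h3).unique hv ((hg c hc).anti hv (half_pos (hR c hc)).le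
      (by linarith [h2.1]) (by linarith [h2.2])) (hR c' h3) (half_pos (hR c hc))
  have hm : r / 2 ∈ Ioo 0 r := ⟨half_pos hr, half_lt_self hr⟩
  have hk : ∀ c ∈ Ioo 0 r, ∃ ρ : ℝ, 0 < ρ ∧ LnLoc μ y v (g (r / 2)) c ρ := fun c hc' =>
    ⟨R c, hR c hc', isPreconnected_Ioo.constant hc hc' hm ▸ hg c hc'⟩
  refine ⟨g (r / 2), ?_, hk⟩
  have e : g (r / 2) • sg y (y + r • v) =
      (g (r / 2) • sg y (y + r • v)).restrict (lnRay y r v) := by
    have h1 : ∀ᵐ x ∂sg y (y + r • v), x ∈ lnRay y r v := lnRay_compl y hr.le hv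
    rw [Measure.restrict_smul, Measure.restrict_eq_self_of_ae_mem h1]
  rw [e]
  refine ln_loc_ext fun x hx => ?_
  obtain ⟨-, c, hc', rfl⟩ := lnRay_ex hx
  obtain ⟨ρ, hρ, hl⟩ := hk c hc'
  have h0 : 0 < min ρ (min c (r - c)) := lt_min hρ (lt_min hc'.1 (sub_pos.2 hc'.2))
  have h1 := min_le_left ρ (min c (r - c))
  have h2 := (min_le_right ρ (min c (r - c))).trans (min_le_left c (r - c))
  have h3 := (min_le_right ρ (min c (r - c))).trans (min_le_right c (r - c))
  refine ⟨_, Metric.ball_mem_nhds _ h0, ?_⟩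
  have h4 := ln_sg_ball y hv (a := 0) (b := r) (c := c) h0.le (by linarith) (by linarith)
  rw [zero_smul, add_zero] at h4
  rw [Measure.restrict_smul, h4]
  exact hl.anti hv h0.le (by linarith) (by linarith)

theorem cone_of_lines (μ : Ms) [IsFiniteMeasure μ] (y : ℂ) {r : ℝ} (hr : 0 < r) (h0 : μ {y} = 0)
    (h : ∀ y' ∈ Metric.ball y r, y' ≠ y → ∃ (r' : ℝ) (j : ℕ), 0 < r' ∧
      μ.restrict (Metric.ball y' r') =
        j • sg (y' - r' • (‖y' - y‖⁻¹ • (y' - y))) (y' + r' • (‖y' - y‖⁻¹ • (y' - y)))) :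
    ∃ w, ConeAt μ y r w := by
  classical
  have key : ∀ v : ℂ, ∃ k : ℕ, μ.restrict (lnRay y r v) = k • sg y (y + r • v) ∧
      (k ≠ 0 → ‖v‖ = 1) ∧ (k = 0 → ∀ x ∈ lnRay y r v, ∃ U ∈ 𝓝 x, μ U = 0) := by
    intro v
    by_cases hv : ‖v‖ = 1
    · obtain ⟨k, h1, h2⟩ := ln_ray μ y hr hv fun c hc => by
        have hx := lnRay_mem y hv hc
        obtain ⟨ρ, j, hρ, h3⟩ := h _ hx.1 hx.2.1
        refine ⟨j, ρ, hρ, ?_⟩
        rw [hx.2.2] at h3
        unfold LnLoc
        rw [h3, sub_smul, add_smul, add_sub_assoc, add_assoc]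
      refine ⟨k, h1, fun _ => hv, fun hk x hx => ?_⟩
      obtain ⟨-, c, hc, rfl⟩ := lnRay_ex hx
      obtain ⟨ρ, hρ, hl⟩ := h2 c hc
      refine ⟨_, Metric.ball_mem_nhds _ hρ, ?_⟩
      unfold LnLoc at hl
      rw [hk, zero_smul] at hl
      exact Measure.restrict_eq_zero.1 hl
    · have he : lnRay y r v = ∅ := eq_empty_of_forall_notMem fun x hx => hv (lnRay_ex hx).1
      refine ⟨0, by rw [he, Measure.restrict_empty, zero_smul], fun h1 => absurd rfl h1, ?_⟩
      intro _ x hx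
      exact absurd (lnRay_ex hx).1 hv
  choose k hk1 hk2 hk3 using key
  have hdis : Pairwise (Function.onFun Disjoint (lnRay y r)) := fun v v' hne =>
    disjoint_left.2 fun x h1 h2 => hne (h1.2.2.symm.trans h2.2.2)
  have hfin := Measure.finite_const_le_meas_of_disjoint_iUnion μ (ENNReal.ofReal_pos.2 hr)
    (lnRay_meas y r) hdis (measure_ne_top _ _)
  have hF : ∀ v, k v ≠ 0 → v ∈ hfin.toFinset := by
    intro v hv
    rw [Finite.mem_toFinset, mem_ofPred_eq, ← Measure.restrict_apply_univ, hk1,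
      Measure.smul_apply, sg_univ, add_sub_cancel_left, norm_smul, hk2 v hv, mul_one,
      Real.norm_of_nonneg hr.le, nsmul_eq_mul]
    exact le_mul_of_one_le_left zero_le (by exact_mod_cast Nat.one_le_iff_ne_zero.2 hv)
  generalize hfin.toFinset = F at hF
  refine ⟨∑ v ∈ F, Multiset.replicate (k v) v, hr, fun v hv => ?_, ?_⟩
  · obtain ⟨v', -, h1⟩ := Multiset.mem_sum.1 hv
    obtain ⟨h2, rfl⟩ := Multiset.mem_replicate.1 h1
    exact hk2 v h2
  have e1 : ((∑ v ∈ F, Multiset.replicate (k v) v).map fun v => sg y (y + r • v)).sum =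
      ∑ v ∈ F, μ.restrict (lnRay y r v) := by
    clear hF
    induction F using Finset.induction_on with
    | empty => simp
    | insert a s ha ih =>
      rw [Finset.sum_insert ha, Finset.sum_insert ha, Multiset.map_add, Multiset.sum_add, ih,
        Multiset.map_replicate, Multiset.sum_replicate, hk1]
  have e2 : μ.restrict (Metric.ball y r) = μ.restrict (⋃ v ∈ F, lnRay y r v) := by
    refine Measure.restrict_congr_set (ae_eq_set.2 ⟨?_, ?_⟩)
    · have h1 : μ ((Metric.ball y r \ ⋃ v ∈ F, lnRay y r v) \ {y}) = 0 := by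
        refine measure_null_of_locally_null _ fun x hx => ?_
        have h2 : x ∈ lnRay y r (‖x - y‖⁻¹ • (x - y)) := ⟨hx.1.1, hx.2, rfl⟩
        have h3 : k (‖x - y‖⁻¹ • (x - y)) = 0 := by
          by_contra h4
          exact hx.1.2 (mem_biUnion (Finset.mem_coe.2 (hF _ h4)) h2)
        obtain ⟨U, hU, h4⟩ := hk3 _ h3 x h2
        exact ⟨U, mem_nhdsWithin_of_mem_nhds hU, h4⟩
      exact measure_mono_null (subset_sdiff_union _ _) (measure_union_null h1 h0)
    · refine measure_mono_null (fun x hx => ?_) measure_empty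
      obtain ⟨v, -, h1⟩ := mem_iUnion₂.1 hx.1
      exact hx.2 h1.1
  rw [e1, e2]
  ext A hA
  rw [Measure.restrict_apply hA, Measure.finsetSum_apply, inter_iUnion₂,
    measure_biUnion_finset (fun v _ v' _ hne => (hdis hne).mono inter_subset_right
      inter_subset_right) fun v _ => hA.inter (lnRay_meas y r v)]
  exact Finset.sum_congr rfl fun v _ => (Measure.restrict_apply hA).symm

theorem ln_ray_cb (y : ℂ) {v : ℂ} (hv : ‖v‖ = 1) {s r : ℝ} (h0 : 0 ≤ s) (hr : s ≤ r) :
    sg y (y + r • v) (cb y s) = ENNReal.ofReal s := by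
  rw [← Measure.restrict_apply_univ, sg_ray y v hv h0 hr, sg_univ, add_sub_cancel_left, norm_smul,
    hv, mul_one, Real.norm_of_nonneg h0]

theorem ConeAt.real_cb {μ : Ms} {y : ℂ} {r : ℝ} {w : Multiset ℂ} (h : ConeAt μ y r w) {s : ℝ}
    (hs : s ∈ Ioo 0 r) : μ.real (cb y s) = w.card * s := by
  have key : ∀ w : Multiset ℂ, (∀ v ∈ w, ‖v‖ = 1) →
      (w.map fun v => sg y (y + r • v)).sum (cb y s) = w.card * ENNReal.ofReal s := by
    intro w
    induction w using Multiset.induction_on with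
    | empty => simp
    | cons v w ih =>
      intro hw
      rw [Multiset.map_cons, Multiset.sum_cons, Measure.add_apply,
        ih fun x hx => hw x (Multiset.mem_cons_of_mem hx),
        ln_ray_cb y (hw v (Multiset.mem_cons_self v w)) hs.1.le hs.2.le, Multiset.card_cons]
      push_cast
      ring
  have h1 := key w h.2.1
  rw [← h.2.2, Measure.restrict_apply Metric.isClosed_closedBall.measurableSet,
    inter_eq_left.2 (Metric.closedBall_subset_ball hs.2)] at h1
  rw [Measure.real, h1, ENNReal.toReal_mul, ENNReal.toReal_natCast,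
    ENNReal.toReal_ofReal hs.1.le]

theorem ConeAt.integral {μ : Ms} {y : ℂ} {r : ℝ} {w : Multiset ℂ} (h : ConeAt μ y r w)
    {φ : ℂ → ℝ} (hφ : Continuous φ) {s t : ℝ} (h0 : 0 < s) (hst : s < t) (ht : t < r) :
    ∫ x in cb y t \ cb y s, φ (‖x - y‖⁻¹ • (x - y)) ∂μ = (t - s) * (w.map φ).sum := by
  have _ := hφ
  have key : ∀ w : Multiset ℂ, (∀ v ∈ w, ‖v‖ = 1) →
      IntegrableOn (fun x => φ (‖x - y‖⁻¹ • (x - y))) (cb y t \ cb y s)
        (w.map fun v => sg y (y + r • v)).sum ∧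
      ∫ x in cb y t \ cb y s, φ (‖x - y‖⁻¹ • (x - y)) ∂(w.map fun v => sg y (y + r • v)).sum =
        (t - s) * (w.map φ).sum := by
    intro w
    induction w using Multiset.induction_on with
    | empty => simp [IntegrableOn]
    | cons v w ih =>
      intro hw
      obtain ⟨i1, i2⟩ := ih fun x hx => hw x (Multiset.mem_cons_of_mem hx)
      have hv := hw v (Multiset.mem_cons_self v w)
      have hae : (fun x => φ (‖x - y‖⁻¹ • (x - y))) =ᵐ[(sg y (y + r • v)).restrict
          (cb y t \ cb y s)] fun _ => φ v := by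
        refine ae_restrict_of_ae ?_
        have h1 : ∀ᵐ x ∂sg y (y + r • v), x ∈ lnRay y r v := lnRay_compl y h.1.le hv
        filter_upwards [h1] with x hx
        rw [hx.2.2]
      have i3 : IntegrableOn (fun x => φ (‖x - y‖⁻¹ • (x - y))) (cb y t \ cb y s)
          (sg y (y + r • v)) := (integrable_const (φ v)).congr hae.symm
      have e : (sg y (y + r • v)).real (cb y t \ cb y s) = t - s := by
        rw [measureReal_sdiff (Metric.closedBall_subset_closedBall hst.le)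
          Metric.isClosed_closedBall.measurableSet, Measure.real, Measure.real,
          ln_ray_cb y hv (h0.trans hst).le ht.le, ln_ray_cb y hv h0.le (hst.trans ht).le,
          ENNReal.toReal_ofReal (h0.trans hst).le, ENNReal.toReal_ofReal h0.le]
      rw [Multiset.map_cons, Multiset.sum_cons, Multiset.map_cons, Multiset.sum_cons]
      refine ⟨i3.add_measure i1, ?_⟩
      rw [Measure.restrict_add, integral_add_measure i3 i1, i2, integral_congr_ae hae,
        setIntegral_const, e, smul_eq_mul, mul_add]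
  have hsub : cb y t \ cb y s ⊆ Metric.ball y r :=
    sdiff_subset.trans (Metric.closedBall_subset_ball ht)
  rw [← (key w h.2.1).2, ← h.2.2, Measure.restrict_restrict_of_subset hsub]

end Pool.Agent.MP_20201c_gt.H91
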