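import Pool.Agent.MP_20201c_gt.H91.Apx
import Pool.Agent.MP_20201c_gt.H91.Line

/-! Cones at interior points and at boundary points. -/

open MeasureTheory Set Filter Topology
open scoped ENNReal

namespace Pool.Agent.MP_20201c_gt.H91

namespace CI

theorem sum_bump (a : Multiset ℂ) (x : ℂ) (φ : ℂ → ℝ) [DecidableEq ℂ]
    (h : ∀ z ∈ a, φ z = if z = x then 1 else 0) : (a.map φ).sum = a.count x := by
  induction a using Multiset.induction_on with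
  | empty => simp
  | cons z a ih =>
    rw [Multiset.map_cons, Multiset.sum_cons, ih fun v hv => h v (Multiset.mem_cons_of_mem hv),
      h z (Multiset.mem_cons_self _ _), Multiset.count_cons]
    by_cases e : z = x
    · simp [e, add_comm]
    · have e' : ¬ x = z := fun h => e h.symm
      simp [e, e']

theorem le_of_test {a b : Multiset ℂ}
    (h : ∀ φ : ℂ → ℝ, Continuous φ → (a.map φ).sum ≤ (b.map φ).sum) : a ≤ b := by
  classical
  rw [Multiset.le_iff_count]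
  intro x
  set S : Finset ℂ := (a.toFinset ∪ b.toFinset).erase x with hS
  obtain ⟨φ, h0, h1, -⟩ := exists_continuous_zero_one_of_isClosed (S.finite_toSet.isClosed)
    (isClosed_singleton (x := x)) (by simp [hS])
  have key : ∀ z, z ∈ a ∨ z ∈ b → φ z = if z = x then 1 else 0 := by
    intro z hz
    by_cases e : z = x
    · rw [if_pos e, e]; exact h1 rfl
    · rw [if_neg e]
      refine h0 ?_
      simp only [hS, Finset.coe_erase, Finset.coe_union, Set.mem_sdiff, mem_union, Finset.mem_coe,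
        Multiset.mem_toFinset, mem_singleton_iff]
      exact ⟨hz, e⟩
  have h2 := h φ φ.continuous
  rw [sum_bump a x φ fun z hz => key z (Or.inl hz),
    sum_bump b x φ fun z hz => key z (Or.inr hz)] at h2
  exact_mod_cast h2

theorem ip_sum (w : Multiset ℂ) (u : ℂ) : (w.map fun v => ip v u).sum = ip w.sum u := by
  induction w using Multiset.induction_on with
  | empty => simp [ip]
  | cons v w ih =>
    rw [Multiset.map_cons, Multiset.sum_cons, ih, Multiset.sum_cons]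
    simp only [ip, Complex.add_re, Complex.add_im]; ring

theorem ip_smul (a u : ℂ) (t : ℝ) : ip a (t • u) = t * ip a u := by
  simp only [ip, Complex.smul_re, Complex.smul_im, smul_eq_mul]; ring

theorem nsq {v : ℂ} (h : ‖v‖ = 1) : v.re ^ 2 + v.im ^ 2 = 1 := by
  have h1 := Complex.sq_norm v
  rw [h, Complex.normSq_apply] at h1
  nlinarith

theorem unit_of_sphere {y q : ℂ} {R : ℝ} (hR : 0 < R) (h : q ∈ Metric.sphere y R) :
    ‖R⁻¹ • (q - y)‖ = 1 := by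
  rw [mem_sphere_iff_norm] at h
  rw [norm_smul, h, Real.norm_of_nonneg (inv_nonneg.2 hR.le), inv_mul_cancel₀ hR.ne']

theorem each_ge {k : ℕ} (s : Fin k → ℝ) {d : ℝ} (h2 : ∀ i, s i ≤ 2)
    (h : 2 * k - d ≤ ∑ i, s i) (i : Fin k) : 2 - d ≤ s i := by
  have h1 : 2 - s i ≤ ∑ j, (2 - s j) :=
    Finset.single_le_sum (f := fun j => 2 - s j) (fun j _ => by linarith [h2 j])
      (Finset.mem_univ i)
  rw [Finset.sum_sub_distrib] at h1
  simp only [Finset.sum_const, Finset.card_univ, Fintype.card_fin, nsmul_eq_mul] at h1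
  linarith

theorem par_law {v v' : ℂ} (h : ‖v‖ = 1) (h' : ‖v'‖ = 1) :
    ‖v + v'‖ ^ 2 = 4 - ‖v - v'‖ ^ 2 := by
  have h1 := parallelogram_law_with_norm ℝ v v'
  rw [h, h'] at h1
  nlinarith

/-- The reflected distance of unit vectors. -/
noncomputable def pu (n v v' : ℂ) : ℝ :=
  √((dt n v - dt n v') ^ 2 + (|ip n v| + |ip n v'|) ^ 2)

theorem pv_eq (y n q q' : ℂ) {R : ℝ} (hR : 0 < R) :
    pv y n q q' = R * pu n (R⁻¹ • (q - y)) (R⁻¹ • (q' - y)) := by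
  have e1 : ∀ z : ℂ, ip n (z - y) = R * ip n (R⁻¹ • (z - y)) := by
    intro z; rw [ip_smul]; field_simp
  have e2 : dt n (q - q') = R * (dt n (R⁻¹ • (q - y)) - dt n (R⁻¹ • (q' - y))) := by
    simp only [dt, Complex.smul_re, Complex.smul_im, smul_eq_mul, Complex.sub_re, Complex.sub_im]
    field_simp; ring
  rw [pv, pu, e1 q, e1 q', e2, abs_mul, abs_mul, abs_of_pos hR, ← mul_add, mul_pow, mul_pow,
    ← mul_add, Real.sqrt_mul (sq_nonneg R), Real.sqrt_sq hR.le]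

theorem dt_ip {n v : ℂ} (hn : ‖n‖ = 1) (h : ‖v‖ = 1) : dt n v ^ 2 + ip n v ^ 2 = 1 := by
  have h1 := nsq hn
  have h2 := nsq h
  have e : dt n v ^ 2 + ip n v ^ 2 = (n.re ^ 2 + n.im ^ 2) * (v.re ^ 2 + v.im ^ 2) := by
    simp only [dt, ip]; ring
  rw [e, h1, h2, one_mul]

theorem pu_sq {n v v' : ℂ} (hn : ‖n‖ = 1) (h : ‖v‖ = 1) (h' : ‖v'‖ = 1) :
    pu n v v' ^ 2 + (dt n v + dt n v') ^ 2 ≤ 4 := by
  have h1 := dt_ip hn h
  have h2 := dt_ip hn h'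
  rw [pu, Real.sq_sqrt (by positivity)]
  have h3 := sq_abs (ip n v)
  have h4 := sq_abs (ip n v')
  nlinarith [sq_nonneg (|ip n v| - |ip n v'|)]

theorem pu_nonneg (n v v' : ℂ) : 0 ≤ pu n v v' := Real.sqrt_nonneg _

theorem pu_le {n v v' : ℂ} (hn : ‖n‖ = 1) (h : ‖v‖ = 1) (h' : ‖v'‖ = 1) : pu n v v' ≤ 2 := by
  have h1 := pu_sq hn h h'
  nlinarith [sq_nonneg (dt n v + dt n v'), pu_nonneg n v v']

theorem mono_close {ψ : ℝ → ℝ} (hm : Monotone ψ) (hc : Continuous ψ) {η : ℝ} (hη : 0 ≤ η)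
    {γ : ℝ} (hγ : 0 < γ) : ∃ δ, 0 < δ ∧ ∀ x x' : ℝ, x' ^ 2 ≤ 1 → (x + x') ^ 2 ≤ η ^ 2 + 8 * δ →
      ψ x ≤ ψ (η - x') + γ := by
  have hu := (isCompact_Icc (a := η - 1) (b := η + 2)).uniformContinuousOn_of_continuous
    hc.continuousOn
  obtain ⟨ε, hε, h⟩ := Metric.uniformContinuousOn_iff.1 hu γ hγ
  set e := min (ε / 2) 1 with he
  have e0 : 0 < e := lt_min (half_pos hε) one_pos
  have e1 : e ≤ 1 := min_le_right _ _
  have e2 : e < ε := (min_le_left _ _).trans_lt (half_lt_self hε)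
  refine ⟨e ^ 2 / 8, by positivity, fun x x' hx hs => ?_⟩
  have h1 : x + x' ≤ η + e := by
    refine (abs_le_of_sq_le_sq'  ?_ (by positivity)).2
    nlinarith [mul_nonneg hη e0.le]
  have h2 : -1 ≤ x' ∧ x' ≤ 1 := abs_le.1 (by rw [← sq_le_one_iff_abs_le_one]; exact hx)
  have h3 := h (η - x' + e) ⟨by linarith, by linarith⟩ (η - x') ⟨by linarith, by linarith⟩
    (by rw [Real.dist_eq, add_sub_cancel_left, abs_of_pos e0]; exact e2)
  have h4 := hm (show x ≤ η - x' + e by linarith)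
  rw [Real.dist_eq] at h3
  linarith [(abs_lt.1 h3).2]

end CI

variable {G : Set ℂ} {ν : ℂ → ℂ × ℂ} {y₀ : ℂ} {R₀ : ℝ} {n₀ : ℕ} {p : Fin n₀ → ℂ}
  {N M : ℕ} {c : ℝ} {𝒰 : Ultrafilter ℕ} {T : ℕ → Ms} {μ : Ms} {ρ₀ : ℝ} {Y : Finset ℂ}

namespace CI

/-- Enumeration of the odd points of a small circle. -/
theorem enum (hS : Setup G ν y₀ R₀ p) {y : ℂ} (hy : y ∈ Metric.ball y₀ R₀) :
    ∃ r, 0 < r ∧ ∀ R ∈ Ioo 0 r, cb y R ⊆ cb y₀ R₀ ∧ ∀ T, Poly (cb y₀ R₀) T →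
      Par G (cb y₀ R₀) (ind p) T → ∀ k, (Od G T y R).card = k → ∃ q : Fin k → ℂ,
        (∀ i, q i ∈ Metric.sphere y R ∧ q i ∈ G) ∧
        (∀ φ : ℂ → ℝ, ∑ z ∈ Od G T y R, φ z = ∑ i, φ (q i)) ∧
        ∀ z ∈ G, ind q z = bdy (T.restrict (cb y R)) z := by
  classical
  obtain ⟨r, hr, h⟩ := local_bdy hS (Metric.ball_subset_closedBall hy)
  have hy' : dist y y₀ < R₀ := hy
  refine ⟨min r (R₀ - dist y y₀), lt_min hr (by linarith), fun R hR => ⟨?_, ?_⟩⟩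
  · exact Metric.closedBall_subset_closedBall'
      (by linarith [hR.2.trans_le (min_le_right _ _)])
  intro T hT hP k hk
  obtain ⟨-, h2⟩ := h R ⟨hR.1, hR.2.trans_le (min_le_left _ _)⟩ T hT hP
  set e := (Od G T y R).equivFinOfCardEq hk with he
  have hq : ∀ {A : Type} [AddCommMonoid A] (φ : ℂ → A),
      ∑ z ∈ Od G T y R, φ z = ∑ i, φ (e.symm i).1 := by
    intro A _ φ
    rw [← Finset.sum_coe_sort]
    exact (Equiv.sum_comp e.symm fun z => φ z.1).symm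
  refine ⟨fun i => (e.symm i).1, fun i => ?_, fun φ => hq φ, fun z hz => ?_⟩
  · have h1 := Od_sub G T y R _ (e.symm i).2
    exact ⟨h1.1, h1.2.1⟩
  · have hn : y ∉ range p := by
      rintro ⟨i, rfl⟩
      have h1 : dist (p i) y₀ = R₀ := (hS.mem i).1
      linarith
    rw [h2 z hz, if_neg (c := z = y ∧ y ∈ range p) fun h => hn h.2, add_zero, ind,
      ← hq fun x => if x = z then (1 : F2) else 0, Finset.sum_ite_eq']

theorem oracle (hS : Setup G ν y₀ R₀ p) (hD : LimD N M G (cb y₀ R₀) (ind p) c 𝒰 T μ ρ₀ Y)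
    {y : ℂ} (hy : y ∈ Metric.ball y₀ R₀) {r : ℝ} {w : Multiset ℂ}
    (h : LocAt 𝒰 G T μ y r w) {r₁ : ℝ} (hr₁ : 0 < r₁)
    (F : ℝ → (Fin w.card → ℂ) → (Fin w.card → Fin w.card) → ℝ)
    (hF : ∀ R ∈ Ioo 0 r₁, ∀ q : Fin w.card → ℂ, (∀ i, q i ∈ Metric.sphere y R) → ∀ a,
      (∀ π, Function.Involutive π → F R q π ≤ a) → Acyc N G (cb y R) (ind q) a) :
    ∃ r', 0 < r' ∧ r' ≤ r ∧ ∀ γ, 0 < γ → Most 𝒰 r' fun n R => ∃ q : Fin w.card → ℂ,
      (∀ i, q i ∈ Metric.sphere y R) ∧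
      (∀ φ : ℂ → ℝ, ∑ z ∈ Od G (T n) y R, φ z = ∑ i, φ (q i)) ∧
      ∃ π, Function.Involutive π ∧ (w.card - γ) * R ≤ F R q π := by
  obtain ⟨r₂, hr₂, h2⟩ := enum hS hy
  set r' := min (min r r₁) (min r₂ ρ₀) with hr'
  have a1 : r' ≤ r := (min_le_left _ _).trans (min_le_left _ _)
  have a2 : r' ≤ r₁ := (min_le_left _ _).trans (min_le_right _ _)
  have a3 : r' ≤ r₂ := (min_le_right _ _).trans (min_le_left _ _)
  have a4 : r' ≤ ρ₀ := (min_le_right _ _).trans (min_le_right _ _)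
  refine ⟨r', lt_min (lt_min h.cone.1 hr₁) (lt_min hr₂ hD.pos), a1, fun γ hγ => ?_⟩
  have m1 := (hD.nw y (Metric.ball_subset_closedBall hy) (γ / 2) (half_pos hγ)).anti a4
  have m2 := (h.t1 (γ / 2) (half_pos hγ)).anti a1
  refine (m1.and m2).mono fun n R hR hQ => ?_
  obtain ⟨hW, hk, hm⟩ := hQ
  obtain ⟨hsub, h3⟩ := h2 R ⟨hR.1, hR.2.trans_le a3⟩
  obtain ⟨q, hq, hs, hb⟩ := h3 (T n) (hD.lim.poly n) (hD.par n) _ hk
  refine ⟨q, fun i => (hq i).1, hs, ?_⟩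
  by_contra hc
  apply hW
  rw [Win, inter_eq_right.2 hsub]
  refine Acyc.congr (fun _ _ => Iff.rfl) (fun z _ hz => hb z hz)
    (hF R ⟨hR.1, hR.2.trans_le a2⟩ q (fun i => (hq i).1) _ fun π hπ => ?_)
  have h4 : F R q π < (w.card - γ) * R := not_le.1 fun h => hc ⟨π, hπ, h⟩
  have h5 := (abs_le.1 hm).1
  linarith

theorem pair_avg {y : ℂ} {r : ℝ} {w : Multiset ℂ} (h : LocAt 𝒰 G T μ y r w) {r' : ℝ}
    (h0 : 0 < r') (hr : r' ≤ r) (P : ℝ → ℂ → ℂ → Prop)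
    (hM : ∀ δ, 0 < δ → Most 𝒰 r' fun n R => ∃ q : Fin w.card → ℂ,
      (∀ φ : ℂ → ℝ, ∑ z ∈ Od G (T n) y R, φ z = ∑ i, φ (q i)) ∧
      ∃ π, Function.Involutive π ∧ ∀ i, P δ (R⁻¹ • (q i - y)) (R⁻¹ • (q (π i) - y)))
    {f g : ℂ → ℝ} (hf : Continuous f) (hg : Continuous g)
    (hfg : ∀ γ, 0 < γ → ∃ δ, 0 < δ ∧ ∀ v v', P δ v v' → f v ≤ g v' + γ) :
    (w.map f).sum ≤ (w.map g).sum := by
  have h1 := h.avg (fun v => f v - g v) (hf.sub hg) r' h0 hr fun γ hγ => by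
    have hk : (0 : ℝ) < w.card + 1 := by positivity
    obtain ⟨δ, hδ, h2⟩ := hfg (γ / (w.card + 1)) (by positivity)
    refine (hM δ hδ).mono fun n R _ hQ => ?_
    obtain ⟨q, hs, π, hπ, hP⟩ := hQ
    rw [hs fun z => f (R⁻¹ • (z - y)) - g (R⁻¹ • (z - y)), Finset.sum_sub_distrib,
      ← Equiv.sum_comp (hπ.toPerm π) fun i => g (R⁻¹ • (q i - y)), ← Finset.sum_sub_distrib]
    have h3 : ∑ i, (f (R⁻¹ • (q i - y)) - g (R⁻¹ • (q (hπ.toPerm π i) - y))) ≤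
        ∑ _i : Fin w.card, γ / (w.card + 1) := Finset.sum_le_sum fun i _ => by
      have h4 := h2 _ _ (hP i)
      rw [Function.Involutive.coe_toPerm]
      linarith
    refine h3.trans ?_
    simp only [Finset.sum_const, Finset.card_univ, Fintype.card_fin, nsmul_eq_mul]
    rw [mul_div_assoc', div_le_iff₀ hk]
    nlinarith
  rw [Multiset.sum_map_sub] at h1
  linarith

theorem dual (hS : Setup G ν y₀ R₀ p) (hD : LimD N M G (cb y₀ R₀) (ind p) c 𝒰 T μ ρ₀ Y)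
    {y : ℂ} (hy : y ∈ Metric.ball y₀ R₀) {r : ℝ} {w : Multiset ℂ}
    (h : LocAt 𝒰 G T μ y r w) (u : ℂ)
    (hν : y ∈ frontier G → ip (ν y).1 u ≤ 0 ∧ ip (ν y).2 u ≤ 0) : ip w.sum u ≤ 0 := by
  classical
  by_cases hu : u = 0
  · simp [hu, ip]
  have h0 : 0 < ‖u‖ := norm_pos_iff.2 hu
  have hy' : dist y y₀ < R₀ := hy
  have h1 : ‖‖u‖⁻¹ • u‖ = 1 := by
    rw [norm_smul, norm_inv, norm_norm, inv_mul_cancel₀ h0.ne']
  have hn : y ∉ range p := by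
    rintro ⟨i, rfl⟩
    have h1 : dist (p i) y₀ = R₀ := (hS.mem i).1
    linarith
  obtain ⟨r', a0, a1, hM⟩ := dir_most hS hD (Metric.ball_subset_closedBall hy) h.cone.1 h.t1 h1
    (fun hf => by
      rw [ip_smul, ip_smul]
      exact ⟨mul_nonpos_of_nonneg_of_nonpos (inv_nonneg.2 h0.le) (hν hf).1,
        mul_nonpos_of_nonneg_of_nonpos (inv_nonneg.2 h0.le) (hν hf).2⟩)
    ⟨R₀ - dist y y₀, by linarith, by
      have h2 : dist (y + (R₀ - dist y y₀) • ‖u‖⁻¹ • u) y = R₀ - dist y y₀ := by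
        rw [dist_eq_norm, add_sub_cancel_left, norm_smul, h1, mul_one,
          Real.norm_of_nonneg (by linarith)]
      have h3 := dist_triangle (y + (R₀ - dist y y₀) • ‖u‖⁻¹ • u) y y₀
      exact Metric.mem_closedBall.2 (by linarith)⟩
  have h2 := h.avg (fun v => ip v (‖u‖⁻¹ • u)) (by unfold ip; fun_prop) r' a0 a1 fun γ hγ => by
    refine (hM γ hγ).mono fun n R _ hQ => ?_
    rwa [if_neg hn, zero_add] at hQ
  rw [ip_sum, ip_smul] at h2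
  by_contra hc
  have h3 := mul_pos (inv_pos.2 h0) (not_le.1 hc)
  linarith

theorem even_card (hS : Setup G ν y₀ R₀ p) (hD : LimD N M G (cb y₀ R₀) (ind p) c 𝒰 T μ ρ₀ Y)
    {y : ℂ} (hy : y ∈ Metric.ball y₀ R₀) (hG : y ∈ G) {r : ℝ} {w : Multiset ℂ}
    (h : LocAt 𝒰 G T μ y r w) : Even w.card := by
  obtain ⟨r₂, hr₂, h2⟩ := enum hS hy
  obtain ⟨ε, hε, hb⟩ := Metric.isOpen_iff.1 hS.conic.1 y hG
  have hpos : 0 < min r (min r₂ ε) := lt_min h.cone.1 (lt_min hr₂ hε)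
  obtain ⟨n, R, hR, hk, -⟩ := ((h.t1 1 one_pos).anti (min_le_left r (min r₂ ε))).exists hpos
  have a2 : R < r₂ := hR.2.trans_le ((min_le_right _ _).trans (min_le_left _ _))
  have a3 : R < ε := hR.2.trans_le ((min_le_right _ _).trans (min_le_right _ _))
  obtain ⟨-, h3⟩ := h2 R ⟨hR.1, a2⟩
  obtain ⟨q, hq, -, hb'⟩ := h3 (T n) (hD.lim.poly n) (hD.par n) _ hk
  have hP := (hD.lim.poly n).restrict_cb hD.lim.cvx (Metric.ball_subset_closedBall hy) hR.1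
  refine hP.even q fun z => ?_
  by_cases hz : z ∈ G
  · exact (hb' z hz).symm
  · rw [hP.bdy_of_notMem fun hz' => hz (hb (Metric.closedBall_subset_ball a3 hz'.2)),
      ind_eq_zero (p := q) fun i e => hz (by rw [← e]; exact (hq i).2)]

end CI

theorem clsI (hS : Setup G ν y₀ R₀ p) (hD : LimD N M G (cb y₀ R₀) (ind p) c 𝒰 T μ ρ₀ Y)
    {y : ℂ} (hy : y ∈ Metric.ball y₀ R₀) (hG : y ∈ G) {r : ℝ} {w : Multiset ℂ}
    (h : LocAt 𝒰 G T μ y r w) :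
    w.sum = 0 ∧ ∀ DI : Set ℕ, OI N G DI → w.card ∈ DI → w.map (fun v => -v) = w := by
  constructor
  · have h1 := CI.dual hS hD hy h w.sum fun hf => by
      rw [hS.conic.1.frontier_eq] at hf
      exact absurd hG hf.2
    rw [ip] at h1
    apply Complex.ext
    · rw [Complex.zero_re]; nlinarith [sq_nonneg w.sum.re, sq_nonneg w.sum.im]
    · rw [Complex.zero_im]; nlinarith [sq_nonneg w.sum.re, sq_nonneg w.sum.im]
  intro DI hO hk
  obtain ⟨r₁, hr₁, h1⟩ := hO y hG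
  obtain ⟨r', a0, a1, hM⟩ := CI.oracle hS hD hy h hr₁
    (fun _ q π => (∑ i, ‖q i - q (π i)‖) / 2)
    fun R hR q hq a ha => h1 R hR _ hk (CI.even_card hS hD hy hG h) q hq a ha
  refine (Multiset.eq_of_le_of_card_le (CI.le_of_test fun φ hφ => ?_) (by simp)).symm
  rw [Multiset.map_map]
  refine CI.pair_avg h a0 a1 (fun δ v v' => ‖v‖ = 1 ∧ ‖v'‖ = 1 ∧ ‖v + v'‖ ^ 2 ≤ 8 * δ)
    (fun δ hδ => (hM δ hδ).mono fun n R hR hQ => ?_) hφ (hφ.comp continuous_neg) fun γ hγ => ?_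
  · obtain ⟨q, hq, hs, π, hπ, hF⟩ := hQ
    refine ⟨q, hs, π, hπ, fun i => ?_⟩
    have hu := fun j => CI.unit_of_sphere hR.1 (hq j)
    refine ⟨hu i, hu _, ?_⟩
    have h2 : ∀ j, ‖R⁻¹ • (q j - y) - R⁻¹ • (q (π j) - y)‖ ≤ 2 := fun j => by
      linarith [norm_sub_le (R⁻¹ • (q j - y)) (R⁻¹ • (q (π j) - y)), hu j, hu (π j)]
    have h3 : ∀ j, ‖q j - q (π j)‖ = R * ‖R⁻¹ • (q j - y) - R⁻¹ • (q (π j) - y)‖ := fun j => by
      rw [← smul_sub, sub_sub_sub_cancel_right, norm_smul,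
        Real.norm_of_nonneg (inv_nonneg.2 hR.1.le), ← mul_assoc, mul_inv_cancel₀ hR.1.ne', one_mul]
    have h4 := CI.each_ge (fun j => ‖R⁻¹ • (q j - y) - R⁻¹ • (q (π j) - y)‖) (d := 2 * δ) h2 (by
      simp only [h3, ← Finset.mul_sum] at hF
      refine le_of_mul_le_mul_left ?_ hR.1
      linarith) i
    rw [CI.par_law (hu i) (hu _)]
    nlinarith [h2 i, norm_nonneg (R⁻¹ • (q i - y) - R⁻¹ • (q (π i) - y))]
  · have hu := (isCompact_closedBall (0 : ℂ) 1).uniformContinuousOn_of_continuous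
      hφ.continuousOn
    obtain ⟨ε, hε, h2⟩ := Metric.uniformContinuousOn_iff.1 hu γ hγ
    refine ⟨ε ^ 2 / 16, by positivity, fun v v' hP => ?_⟩
    have h3 := h2 v (by simp [hP.1]) (-v') (by simp [hP.2.1]) (by
      rw [dist_eq_norm, sub_neg_eq_add]
      refine lt_of_pow_lt_pow_left₀ 2 hε.le ?_
      nlinarith [hP.2.2, sq_pos_of_pos hε])
    rw [Real.dist_eq] at h3
    have h4 := (abs_lt.1 h3).2
    change φ v ≤ φ (-v') + γ
    linarith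

theorem clsB (hS : Setup G ν y₀ R₀ p) (hD : LimD N M G (cb y₀ R₀) (ind p) c 𝒰 T μ ρ₀ Y)
    {y : ℂ} (hy : y ∈ Metric.ball y₀ R₀) (hG : y ∈ frontier G) {r : ℝ} {w : Multiset ℂ}
    (h : LocAt 𝒰 G T μ y r w) :
    (∀ u, ip (ν y).1 u ≤ 0 → ip (ν y).2 u ≤ 0 → ip w.sum u ≤ 0) ∧
      ∀ (DB : ℂ → Set ℕ) (η : ℝ), 0 ≤ η → OB N G ν DB (η ^ 2 / 8) → w.card ∈ DB y →
        RefL η (ν y).1 w := by
  refine ⟨fun u h1 h2 => CI.dual hS hD hy h u fun _ => ⟨h1, h2⟩, fun DB η hη hO hk => ?_⟩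
  obtain ⟨r₁, hr₁, h1⟩ := hO y hG
  have hn : ‖(ν y).1‖ = 1 := (hS.conic.2 y hG).1
  obtain ⟨r', a0, a1, hM⟩ := CI.oracle hS hD hy h hr₁
    (fun R q π => (∑ i, pv y (ν y).1 (q i) (q (π i))) / 2 + η ^ 2 / 8 * R)
    fun R hR q hq a ha => h1 R hR _ hk q hq a ha
  set P : ℝ → ℂ → ℂ → Prop := fun δ v v' => dt (ν y).1 v' ^ 2 ≤ 1 ∧
    (dt (ν y).1 v + dt (ν y).1 v') ^ 2 ≤ η ^ 2 + 8 * δ with hPdef
  have hM' : ∀ δ, 0 < δ → Most 𝒰 r' fun n R => ∃ q : Fin w.card → ℂ,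
      (∀ φ : ℂ → ℝ, ∑ z ∈ Od G (T n) y R, φ z = ∑ i, φ (q i)) ∧
      ∃ π, Function.Involutive π ∧ ∀ i, P δ
        (R⁻¹ • (q i - y)) (R⁻¹ • (q (π i) - y)) := by
    refine fun δ hδ => (hM δ hδ).mono fun n R hR hQ => ?_
    obtain ⟨q, hq, hs, π, hπ, hF⟩ := hQ
    refine ⟨q, hs, π, hπ, fun i => ?_⟩
    have hu := fun j => CI.unit_of_sphere hR.1 (hq j)
    have h2 := fun j => CI.pu_le hn (hu j) (hu (π j))
    have h4 := CI.each_ge (fun j => CI.pu (ν y).1 (R⁻¹ • (q j - y)) (R⁻¹ • (q (π j) - y)))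
      (d := 2 * δ + η ^ 2 / 4) h2 (by
      simp only [CI.pv_eq y _ _ _ hR.1, ← Finset.mul_sum] at hF
      refine le_of_mul_le_mul_left ?_ hR.1
      linarith) i
    constructor
    · nlinarith [CI.dt_ip hn (hu (π i)), sq_nonneg (ip (ν y).1 (R⁻¹ • (q (π i) - y)))]
    · nlinarith [CI.pu_sq hn (hu i) (hu (π i)), h2 i,
        CI.pu_nonneg (ν y).1 (R⁻¹ • (q i - y)) (R⁻¹ • (q (π i) - y))]
  intro ψ hm hc
  have cd : Continuous fun v => dt (ν y).1 v := by unfold dt; fun_prop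
  constructor
  · refine CI.pair_avg h a0 a1 P hM' (hc.comp cd) (hc.comp (continuous_const.sub cd))
      fun γ hγ => ?_
    obtain ⟨δ, hδ, h2⟩ := CI.mono_close hm hc hη hγ
    exact ⟨δ, hδ, fun v v' hP => h2 _ _ hP.1 hP.2⟩
  · refine CI.pair_avg h a0 a1 P hM' (hc.comp cd.neg) (hc.comp (continuous_const.add cd))
      fun γ hγ => ?_
    obtain ⟨δ, hδ, h2⟩ := CI.mono_close hm hc hη hγ
    refine ⟨δ, hδ, fun v v' hP => ?_⟩
    have h3 := h2 (-dt (ν y).1 v) (-dt (ν y).1 v') (by rw [neg_sq]; exact hP.1)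
      (by rw [← neg_add, neg_sq]; exact hP.2)
    rwa [sub_neg_eq_add] at h3

end Pool.Agent.MP_20201c_gt.H91
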