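import Pool.Agent.MP_20201c_gt.H91.Apx
import Pool.Agent.MP_20201c_gt.H91.Line

/-! Cones at prescribed boundary points and in the free set. -/

open MeasureTheory Set Filter Topology
open scoped ENNReal

namespace Pool.Agent.MP_20201c_gt.H91

variable {G : Set ℂ} {ν : ℂ → ℂ × ℂ} {y₀ : ℂ} {R₀ : ℝ} {n₀ : ℕ} {p : Fin n₀ → ℂ}
  {N M : ℕ} {c : ℝ} {𝒰 : Ultrafilter ℕ} {T : ℕ → Ms} {μ : Ms} {ρ₀ : ℝ} {Y : Finset ℂ}

theorem cp_key {a b x y s t E : ℝ} (h1 : a ^ 2 + b ^ 2 = E) (h2 : x ^ 2 + y ^ 2 = E)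
    (h3 : s ^ 2 + t ^ 2 = E) (ha : 0 < a) (hx : 0 < x) (hs : 0 < s) (hyt : y ≤ t) (hy : 0 ≤ y) :
    0 < (a + s) * x + (b + t) * y := by
  rcases le_or_gt 0 (b + t) with h | h
  · positivity
  have e1 : s ≤ x := by
    refine le_of_pow_le_pow_left₀ (n := 2) (by norm_num) hx.le ?_
    have := pow_le_pow_left₀ hy hyt 2
    linarith
  have e2 : -(b + t) * y ≤ -(b + t) * (t - b) := by
    refine mul_le_mul_of_nonneg_left ?_ (by linarith)
    linarith
  have e3 : s * s ≤ s * x := by gcongr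
  have e4 : 0 < a * x := by positivity
  have e5 : 0 < a ^ 2 := by positivity
  nlinarith

theorem cp_sq {v : ℂ} (hv : ‖v‖ = 1) : v.re ^ 2 + v.im ^ 2 = 1 := by
  have := Complex.sq_norm v
  rw [hv, Complex.normSq_apply] at this
  linarith

theorem cp_three {l u r e : ℂ} (hl : ‖l‖ = 1) (hu : ‖u‖ = 1) (hr : ‖r‖ = 1) (el : 0 < ip l e)
    (eu : 0 < ip u e) (er : 0 < ip r e) (h1 : dt e l ≤ dt e u) (h2 : dt e u ≤ dt e r) :
    0 < ip l u + ip r u := by
  have k : ∀ v : ℂ, ‖v‖ = 1 → ip v e ^ 2 + dt e v ^ 2 = e.re ^ 2 + e.im ^ 2 := fun v hv => by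
    have := cp_sq hv
    unfold ip dt
    linear_combination (e.re ^ 2 + e.im ^ 2) * this
  have hE : 0 < e.re ^ 2 + e.im ^ 2 := by
    rw [← k u hu]
    positivity
  have key : 0 < (ip l e + ip r e) * ip u e + (dt e l + dt e r) * dt e u := by
    rcases le_total 0 (dt e u) with h | h
    · exact cp_key (k l hl) (k u hu) (k r hr) el eu er h2 h
    · have := cp_key (a := ip r e) (b := -dt e r) (x := ip u e) (y := -dt e u) (s := ip l e)
        (t := -dt e l) (E := e.re ^ 2 + e.im ^ 2) (by rw [neg_sq]; exact k r hr) (by rw [neg_sq]; exact k u hu)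
        (by rw [neg_sq]; exact k l hl) er eu el (by linarith) (by linarith)
      linarith
  have e1 : (ip l e + ip r e) * ip u e + (dt e l + dt e r) * dt e u =
      (e.re ^ 2 + e.im ^ 2) * (ip l u + ip r u) := by
    unfold ip dt
    ring
  rw [e1] at key
  exact (mul_pos_iff_of_pos_left hE).1 key

theorem cp_step {w : Multiset ℂ} (h1 : ∀ v ∈ w, ‖v‖ = 1) {e : ℂ} (he : ∀ v ∈ w, 0 < ip v e)
    (h2 : 2 ≤ w.card) : ∃ w' : Multiset ℂ, w' ≤ w ∧ w.card = w'.card + 2 ∧ ∀ u ∈ w',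
      (w'.map fun v => ip v u).sum < (w.map fun v => ip v u).sum := by
  have hne : w ≠ 0 := by
    rintro rfl
    simp at h2
  obtain ⟨l, hl, hl'⟩ := Multiset.exists_min_image (fun v => dt e v) hne
  obtain ⟨w₁, rfl⟩ := Multiset.exists_cons_of_mem hl
  have hne1 : w₁ ≠ 0 := by
    rintro rfl
    simp at h2
  obtain ⟨r, hr, hr'⟩ := Multiset.exists_max_image (fun v => dt e v) hne1
  obtain ⟨w₂, rfl⟩ := Multiset.exists_cons_of_mem hr
  refine ⟨w₂, (Multiset.le_cons_self _ _).trans (Multiset.le_cons_self _ _), by simp, ?_⟩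
  intro u hu
  have hu1 : u ∈ r ::ₘ w₂ := Multiset.mem_cons_of_mem hu
  have hu2 : u ∈ l ::ₘ r ::ₘ w₂ := Multiset.mem_cons_of_mem hu1
  have hr2 : r ∈ l ::ₘ r ::ₘ w₂ := Multiset.mem_cons_of_mem hr
  have := cp_three (h1 l hl) (h1 u hu2) (h1 r hr2) (he l hl) (he u hu2) (he r hr2) (hl' u hu2)
    (hr' u hu1)
  simp only [Multiset.map_cons, Multiset.sum_cons]
  linarith

theorem cp_le {e : ℂ} (k : ℕ) : ∀ w : Multiset ℂ, (∀ v ∈ w, ‖v‖ = 1) → (∀ v ∈ w, 0 < ip v e) →
    w.card = 2 * k + 1 → ∃ u ∈ w, 1 ≤ (w.map fun v => ip v u).sum := by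
  induction k with
  | zero =>
    intro w h1 _ hc
    obtain ⟨u, rfl⟩ := Multiset.card_eq_one.1 hc
    refine ⟨u, by simp, ?_⟩
    have := cp_sq (h1 u (by simp))
    simp only [Multiset.map_singleton, Multiset.sum_singleton, ip]
    linarith
  | succ k ih =>
    intro w h1 he hc
    obtain ⟨w', hw, hc', h⟩ := cp_step h1 he (by omega)
    obtain ⟨u, hu, hs⟩ := ih w' (fun v hv => h1 v (Multiset.mem_of_le hw hv))
      (fun v hv => he v (Multiset.mem_of_le hw hv)) (by omega)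
    exact ⟨u, Multiset.mem_of_le hw hu, hs.trans (h u hu).le⟩

theorem odd_dirs {w : Multiset ℂ} (h1 : ∀ v ∈ w, ‖v‖ = 1) {e : ℂ} (he : ∀ v ∈ w, 0 < ip v e)
    (ho : Odd w.card) (h3 : w.card ≠ 1) : ∃ u ∈ w, 1 < (w.map fun v => ip v u).sum := by
  obtain ⟨k, hk⟩ := ho
  obtain ⟨w', hw, hc', h⟩ := cp_step h1 he (by omega)
  obtain ⟨u, hu, hs⟩ := cp_le (e := e) (k - 1) w' (fun v hv => h1 v (Multiset.mem_of_le hw hv))
    (fun v hv => he v (Multiset.mem_of_le hw hv)) (by omega)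
  exact ⟨u, Multiset.mem_of_le hw hu, hs.trans_lt (h u hu)⟩

open Classical in
theorem cp_even {W : Set ℂ} {m : Ms} (h : Poly W m) (S : Finset ℂ)
    (hS : ∀ z, bdy m z = if z ∈ S then 1 else 0) : Even S.card := by
  refine h.even (fun j => (S.equivFin.symm j : ℂ)) fun z => ?_
  rw [hS, ind, S.equivFin.symm.sum_comp fun x : S => if (x : ℂ) = z then (1 : F2) else 0,
    Finset.sum_coe_sort S fun x => if x = z then (1 : F2) else 0, Finset.sum_ite_eq']

theorem cp_odd (hS : Setup G ν y₀ R₀ p) (hD : LimD N M G (cb y₀ R₀) (ind p) c 𝒰 T μ ρ₀ Y)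
    (i : Fin n₀) {r : ℝ} {w : Multiset ℂ} (h : LocAt 𝒰 G T μ (p i) r w) : Odd w.card := by
  classical
  have hy : p i ∈ cb y₀ R₀ := Metric.sphere_subset_closedBall (hS.mem i).1
  obtain ⟨r₁, hr₁, hb⟩ := local_bdy hS hy
  obtain ⟨r₂, hr₂, hG⟩ := Metric.isOpen_iff.1 hS.conic.1 _ (hS.mem i).2
  obtain ⟨n, R, hR, hc, -⟩ := ((h.t1 1 one_pos).anti (r' := min r (min r₁ r₂))
    (min_le_left _ _)).exists (lt_min h.cone.1 (lt_min hr₁ hr₂))
  have hR1 : R < r₁ := hR.2.trans_le ((min_le_right _ _).trans (min_le_left _ _))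
  have hR2 : R < r₂ := hR.2.trans_le ((min_le_right _ _).trans (min_le_right _ _))
  have hP := (hD.lim.poly n).restrict_cb hD.lim.cvx hy hR.1
  have hn : p i ∉ Od G (T n) (p i) R := fun hm => by
    have := (Od_sub _ _ _ _ _ hm).1
    rw [Metric.mem_sphere, dist_self] at this
    exact hR.1.ne this
  have he := cp_even hP (insert (p i) (Od G (T n) (p i) R)) fun z => by
    by_cases hz : z ∈ G
    · rw [(hb R ⟨hR.1, hR1⟩ (T n) (hD.lim.poly n) (hD.par n)).2 z hz]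
      by_cases e : z = p i
      · subst e
        simp [hn]
      · simp [e]
    · rw [hP.bdy_of_notMem fun hm => hz (hG (Metric.closedBall_subset_ball hR2 hm.2)), if_neg]
      intro hm
      rcases Finset.mem_insert.1 hm with rfl | hm
      · exact hz (hS.mem i).2
      · exact hz (Od_sub _ _ _ _ _ hm).2.1
  rw [Finset.card_insert_of_notMem hn, hc, Nat.even_add_one] at he
  exact Nat.not_even_iff_odd.1 he

theorem clsP (hS : Setup G ν y₀ R₀ p) (hD : LimD N M G (cb y₀ R₀) (ind p) c 𝒰 T μ ρ₀ Y)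
    (i : Fin n₀) {r : ℝ} {w : Multiset ℂ} (h : LocAt 𝒰 G T μ (p i) r w) : w.card = 1 := by
  by_contra h3
  have ho := cp_odd hS hD i h
  have hy : p i ∈ cb y₀ R₀ := Metric.sphere_subset_closedBall (hS.mem i).1
  have hr := h.cone.1
  have hin : ∀ v ∈ w, p i + r • v ∈ cb y₀ R₀ := fun v hv =>
    h.cone.mem Metric.isClosed_closedBall hD.lim.supp hv ⟨hr.le, le_rfl⟩
  have he : ∀ v ∈ w, 0 < ip v (y₀ - p i) := fun v hv => by
    have h1 := hin v hv
    have h2 := (hS.mem i).1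
    rw [Metric.mem_sphere, dist_eq_norm] at h2
    rw [Metric.mem_closedBall, dist_eq_norm, ← h2] at h1
    have h4 := pow_le_pow_left₀ (norm_nonneg _) h1 2
    have h5 := cp_sq (h.cone.2.1 v hv)
    rw [Complex.sq_norm, Complex.sq_norm, Complex.normSq_apply, Complex.normSq_apply] at h4
    simp only [Complex.sub_re, Complex.sub_im, Complex.add_re, Complex.add_im, Complex.smul_re,
      Complex.smul_im, smul_eq_mul] at h4
    have h6 : r * r ≤ r * (2 * ip v (y₀ - p i)) := by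
      simp only [ip, Complex.sub_re, Complex.sub_im]
      nlinarith
    have := le_of_mul_le_mul_left h6 hr
    linarith
  obtain ⟨u, hu, hs⟩ := odd_dirs h.cone.2.1 he ho h3
  obtain ⟨r', h0, hr', hm⟩ := dir_most hS hD hy hr h.t1 (h.cone.2.1 u hu)
    (fun hf => absurd (hS.mem i).2 (by
      rw [hS.conic.1.frontier_eq] at hf
      exact hf.2)) ⟨r, hr, hin u hu⟩
  have hk : (w.card : ℝ) ≠ 0 := by exact_mod_cast ho.pos.ne'
  have key := h.avg (fun v => ip v u - 1 / w.card) (by unfold ip; fun_prop) r' h0 hr' fun γ hγ => by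
    refine ((hm γ hγ).and ((h.t1 1 one_pos).anti hr')).mono fun n R _ hq => ?_
    have h1 := hq.1
    rw [if_pos (mem_range_self i)] at h1
    rw [Finset.sum_sub_distrib, Finset.sum_const, hq.2.1, nsmul_eq_mul, mul_one_div_cancel hk]
    linarith
  rw [Multiset.sum_map_sub, Multiset.map_const', Multiset.sum_replicate, nsmul_eq_mul,
    mul_one_div_cancel hk] at key
  linarith

theorem cls0 {y : ℂ} (hy : y ∉ closure G) {r : ℝ} {w : Multiset ℂ} (h : LocAt 𝒰 G T μ y r w) :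
    w = 0 := by
  obtain ⟨r₂, hr₂, hG⟩ := Metric.isOpen_iff.1 isClosed_closure.isOpen_compl _ hy
  obtain ⟨n, R, hR, hc, -⟩ := ((h.t1 1 one_pos).anti (r' := min r r₂)
    (min_le_left _ _)).exists (lt_min h.cone.1 hr₂)
  have he : Od G (T n) y R = ∅ := by
    refine Finset.eq_empty_of_forall_notMem fun z hz => ?_
    have h1 := Od_sub _ _ _ _ _ hz
    exact hG (Metric.sphere_subset_ball (hR.2.trans_le (min_le_right _ _)) h1.1)
      (subset_closure h1.2.1)
  have hc' : (Od G (T n) y R).card = w.card := hc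
  rw [he, Finset.card_empty] at hc'
  exact Multiset.card_eq_zero.1 hc'.symm

theorem clsD (hS : Setup G ν y₀ R₀ p) (h0 : μ (closure G)ᶜ = 0) {y : ℂ} (hy : y ∈ frontier G)
    {r : ℝ} {w : Multiset ℂ} (h : ConeAt μ y r w) :
    ∀ v ∈ w, 0 ≤ ip (ν y).1 v ∨ 0 ≤ ip (ν y).2 v := by
  intro v hv
  by_contra hc
  rw [not_or, not_le, not_le] at hc
  obtain ⟨r', hr', hs⟩ := adm3 hS.conic hy hc.1 hc.2
  have hp : 0 < min r (r' / 2) := lt_min h.1 (half_pos hr')
  exact hs _ ⟨hp, (min_le_right _ _).trans_lt (half_lt_self hr')⟩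
    (h.mem isClosed_closure h0 hv ⟨hp.le, min_le_left _ _⟩)

end Pool.Agent.MP_20201c_gt.H91
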