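import Pool.Agent.MP_20201c_gt.H91.LemI_a

/-! Improving paths: replacement by chords and drops. -/

open MeasureTheory Set Filter Topology
open scoped ENNReal

namespace Pool.Agent.MP_20201c_gt.H91

theorem IP.mono_gain {G W : Set ℂ} {T : Ms} {γ γ' : ℝ} (h : IP G W T γ) (hγ : γ' ≤ γ) :
    IP G W T γ' := fun ε hε => by
  obtain ⟨T', h1, h2⟩ := h ε hε
  exact ⟨T', h1, by linarith⟩

theorem rtg_polyI {G W : Set ℂ} {β : ℂ → F2} {t : ℝ} {T T' : Ms}
    (h : Relation.ReflTransGen (Step G W β t) T T') (hT : Poly W T) : Poly W T' := by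
  induction h with
  | refl => exact hT
  | tail _ hs _ =>
    obtain ⟨u, hu, -, h1, -⟩ := hs
    exact h1 ▸ hu.poly 1

theorem ip_mono {G W : Set ℂ} (hW : Convex ℝ W) {T : Ms} (hT : Poly W T) {y : ℂ} (hy : y ∈ W)
    {R R' γ : ℝ} (hR : 0 < R) (hRR : R ≤ R') (h : IP G (W ∩ cb y R) (T.restrict (cb y R)) γ) :
    IP G (W ∩ cb y R') (T.restrict (cb y R')) γ := by
  have hR' : 0 < R' := hR.trans_le hRR
  have hW' : Convex ℝ (W ∩ cb y R') := hW.inter (convex_closedBall y R')
  have hy' : y ∈ W ∩ cb y R' := ⟨hy, Metric.mem_closedBall_self hR'.le⟩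
  have hT' : Poly (W ∩ cb y R') (T.restrict (cb y R')) := hT.restrict_cb hW hy hR'
  have hsub : cb y R ⊆ cb y R' := Metric.closedBall_subset_closedBall hRR
  have hm : MeasurableSet (cb y R) := Metric.isClosed_closedBall.measurableSet
  have e1 : (T.restrict (cb y R')).restrict (cb y R) = T.restrict (cb y R) := by
    rw [Measure.restrict_restrict hm, inter_eq_left.2 hsub]
  have e2 : W ∩ cb y R' ∩ cb y R = W ∩ cb y R := by
    rw [inter_assoc, inter_eq_right.2 hsub]
  have hA : Poly (W ∩ cb y R') ((T.restrict (cb y R')).restrict (cb y R)ᶜ) :=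
    hT'.restrict_compl hW' y hR
  have hU : Poly (W ∩ cb y R) (T.restrict (cb y R)) := hT.restrict_cb hW hy hR
  have e3 : (T.restrict (cb y R')).restrict (cb y R)ᶜ + T.restrict (cb y R) =
      T.restrict (cb y R') := by
    rw [← e1, add_comm, Measure.restrict_add_restrict_compl hm]
  have e4 : (T.restrict (cb y R')).real univ =
      ((T.restrict (cb y R')).restrict (cb y R)ᶜ).real univ + (T.restrict (cb y R)).real univ := by
    rw [← hA.real_addI hU, e3]
  intro ε hε
  obtain ⟨U', h1, h2⟩ := h ε hε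
  refine ⟨(T.restrict (cb y R')).restrict (cb y R)ᶜ + U', ?_, ?_⟩
  · have h3 := h1.lift (p := Step G (W ∩ cb y R') (bdy (T.restrict (cb y R')))
      ((T.restrict (cb y R')).real univ + ε))
      (fun V => (T.restrict (cb y R')).restrict (cb y R)ᶜ + V) (fun _ _ hs => by
        obtain ⟨u, hu, k0, k1, k2⟩ := hs
        refine ⟨fun τ => (T.restrict (cb y R')).restrict (cb y R)ᶜ + u τ,
          (Fam.const hA).add (hu.mono (inter_subset_inter_right _ hsub)), by simp only [k0],
          by simp only [k1], fun τ => ⟨?_, ?_⟩⟩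
        · refine (par_glue hW' hT' (fun _ _ _ => rfl) hy' hR (e2.symm ▸ hu.poly τ)).2 ?_
          rw [e1, e2]
          exact (k2 τ).1
        · rw [hA.real_addI (hu.poly τ), e4]
          linarith [(k2 τ).2])
    simp only [Function.onFun] at h3
    rwa [e3] at h3
  · rw [hA.real_addI (rtg_polyI h1 hU), e4]
    linarith

/-- A chain of steps as one path that is a family on each unit interval. -/
theorem path_of_steps {G W : Set ℂ} {β : ℂ → F2} {t : ℝ} {T T' : Ms}
    (h : Relation.ReflTransGen (Step G W β t) T T') (hT : Poly W T) (hp : Par G W β T)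
    (ht : T.real univ < t) :
    ∃ (J : ℕ) (u : ℝ → Ms), u 0 = T ∧ u J = T' ∧
      (∀ i : ℕ, i < J → ∃ v : ℝ → Ms, Fam W v ∧ ∀ τ ∈ Icc (i : ℝ) (i + 1), u τ = v τ) ∧
      ∀ τ, Poly W (u τ) ∧ Par G W β (u τ) ∧ (u τ).real univ < t := by
  induction h with
  | refl => exact ⟨0, fun _ => T, rfl, rfl, fun i hi => absurd hi (by omega), fun _ => ⟨hT, hp, ht⟩⟩
  | tail _ hs ih =>
    obtain ⟨J, u, h0, h1, h2, h3⟩ := ih
    obtain ⟨v, hv, k0, k1, k2⟩ := hs
    refine ⟨J + 1, fun τ => if τ ≤ J then u τ else v (τ - J), ?_, ?_, fun i hi => ?_, fun τ => ?_⟩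
    · simp only [Nat.cast_nonneg, if_true, h0]
    · have : ¬ (((J + 1 : ℕ) : ℝ) ≤ J) := by push_cast; linarith
      simp only [if_neg this]
      rw [← k1]
      congr 1
      push_cast
      ring
    · rcases Nat.lt_succ_iff_lt_or_eq.1 hi with hi | rfl
      · obtain ⟨w, hw, hw'⟩ := h2 i hi
        refine ⟨w, hw, fun τ hτ => ?_⟩
        have : (i : ℝ) + 1 ≤ J := by exact_mod_cast hi
        simp only [if_pos (hτ.2.trans this)]
        exact hw' τ hτ
      · refine ⟨fun τ => v (τ - i), hv.comp (by fun_prop), fun τ hτ => ?_⟩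
        by_cases hc : τ ≤ i
        · have : τ = i := le_antisymm hc hτ.1
          simp only [this, le_refl, if_true, sub_self, h1, k0]
        · simp only [if_neg hc]
    · by_cases hc : τ ≤ J
      · simpa only [if_pos hc] using h3 τ
      · simpa only [if_neg hc] using ⟨hv.poly _, k2 _⟩

open Classical in
/-- The cost of a matching. -/
noncomputable def costI (o π : ℂ → ℂ) (P : Finset ℂ) : ℝ :=
  ∑ z ∈ P, if π z = z then ‖z - o z‖ else ‖z - π z‖ / 2

/-- The conclusion of the induction. -/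
def GoodI (G W : Set ℂ) (o : ℂ → ℂ) (T : Ms) : Prop :=
  ∀ P : Finset ℂ, (∀ z, z ∈ P ↔ z ∈ W ∧ z ∈ G ∧ bdy T z = 1) →
    ∃ π : ℂ → ℂ, Function.Involutive π ∧ (∀ z ∉ P, π z = z) ∧
      ∃ T', MvI G W T T' ∧ T'.real univ ≤ costI o π P

theorem GoodI.of_mv {G W : Set ℂ} {o : ℂ → ℂ} {T T' : Ms} (h : MvI G W T T')
    (h' : GoodI G W o T') : GoodI G W o T := by
  intro P hP
  obtain ⟨π, h1, h2, T'', h3, h4⟩ := h' P fun z => by
    rw [hP z]
    exact and_congr_right fun hz => and_congr_right fun hg => by rw [h.2.1 z hz hg]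
  exact ⟨π, h1, h2, T'', h.trans h3, h4⟩

/-- A segment with one end in `G` that is not on the boundary of the rest. -/
theorem GoodI.one {G W : Set ℂ} (hW : Convex ℝ W) {o : ℂ → ℂ} (ho : ∀ z, Adm G W (o z)) {U : Ms}
    (hU : Poly W U) (h : GoodI G W o U) {a b : ℂ} (ha : a ∈ W) (hb : b ∈ W) (hag : a ∈ G)
    (hbg : b ∉ G) (h0 : bdy U a = 0) : GoodI G W o (sg a b + U) := by
  classical
  intro P hP
  have hab : b ≠ a := fun e => hbg (e ▸ hag)
  have hbd := bdy_add (Poly.sg ha hb) hU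
  have haP : a ∈ P := (hP a).2 ⟨ha, hag, by rw [hbd, bdy_sg, h0]; simp [hab]⟩
  obtain ⟨π, h1, h2, T'', h3, h4⟩ := h (P.erase a) fun z => by
    rw [Finset.mem_erase, hP z, hbd, bdy_sg]
    by_cases e : z = a
    · subst e; simp [h0]
    · by_cases hz : z ∈ G
      · have e' : b ≠ z := fun e => hbg (e ▸ hz)
        simp [e, Ne.symm e, e']
      · simp [hz]
  have hπa : π a = a := h2 a (Finset.notMem_erase a P)
  have hc : costI o π P = ‖a - o a‖ + costI o π (P.erase a) := by
    unfold costI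
    rw [← Finset.add_sum_erase P _ haP, if_pos hπa]
  have hπ : ∀ z ∉ P, π z = z := fun z hz => h2 z fun h => hz (Finset.mem_of_mem_erase h)
  by_cases hl : ‖o a - a‖ ≤ ‖b - a‖
  · refine ⟨π, h1, hπ, sg a (o a) + T'',
      ((mvI_slide hW ha hb hbg (ho a) hl).add_right hU (Poly.sg ha hb)).trans
        (h3.add_left (Poly.sg ha (ho a).1) hU), ?_⟩
    rw [(Poly.sg ha (ho a).1).real_addI h3.1, sg_real_univ, hc, norm_sub_rev]
    linarith
  · refine ⟨π, h1, hπ, sg a b + T'', h3.add_left (Poly.sg ha hb) hU, ?_⟩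
    rw [(Poly.sg ha hb).real_addI h3.1, sg_real_univ, hc, norm_sub_rev a]
    linarith

theorem GoodI.two {G W : Set ℂ} {o : ℂ → ℂ} {U : Ms}
    (hU : Poly W U) (h : GoodI G W o U) {a b : ℂ} (ha : a ∈ W) (hb : b ∈ W) (hag : a ∈ G)
    (hbg : b ∈ G) (hab : a ≠ b) (h0 : bdy U a = 0) (h0' : bdy U b = 0) :
    GoodI G W o (sg a b + U) := by
  classical
  intro P hP
  have hbd := bdy_add (Poly.sg ha hb) hU
  have haP : a ∈ P := (hP a).2 ⟨ha, hag, by rw [hbd, bdy_sg, h0]; simp [hab.symm]⟩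
  have hbP : b ∈ P := (hP b).2 ⟨hb, hbg, by rw [hbd, bdy_sg, h0']; simp [hab]⟩
  have hbP' : b ∈ P.erase a := Finset.mem_erase.2 ⟨hab.symm, hbP⟩
  obtain ⟨π, h1, h2, T'', h3, h4⟩ := h ((P.erase a).erase b) fun z => by
    rw [Finset.mem_erase, Finset.mem_erase, hP z, hbd, bdy_sg]
    by_cases e : z = a
    · subst e; simp [h0]
    · by_cases e' : z = b
      · subst e'; simp [h0']
      · simp [e, Ne.symm e, e', Ne.symm e']
  have hπa : π a = a := h2 a (by simp)
  have hπb : π b = b := h2 b (by simp)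
  have hna : ∀ z, z ≠ a → π z ≠ a := fun z hz e => hz (by rw [← h1 z, e, hπa])
  have hnb : ∀ z, z ≠ b → π z ≠ b := fun z hz e => hz (by rw [← h1 z, e, hπb])
  refine ⟨fun z => if z = a then b else if z = b then a else π z, fun z => ?_, fun z hz => ?_,
    sg a b + T'', h3.add_left (Poly.sg ha hb) hU, ?_⟩
  · by_cases e : z = a
    · simp [e, hab.symm]
    · by_cases e' : z = b
      · simp [e', hab.symm]
      · simp [e, e', hna z e, hnb z e', h1 z]
  · have e : z ≠ a := fun e => hz (e ▸ haP)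
    have e' : z ≠ b := fun e => hz (e ▸ hbP)
    simp only [if_neg e, if_neg e']
    exact h2 z fun h => hz (Finset.mem_of_mem_erase (Finset.mem_of_mem_erase h))
  · rw [(Poly.sg ha hb).real_addI h3.1, sg_real_univ]
    refine le_of_le_of_eq (add_le_add_right h4 _) ?_
    unfold costI
    rw [← Finset.add_sum_erase P _ haP, ← Finset.add_sum_erase _ _ hbP', ← add_assoc]
    congr 1
    · simp only [if_true, if_neg hab.symm, if_neg hab]
      rw [norm_sub_rev a b]
      ring
    · refine Finset.sum_congr rfl fun z hz => ?_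
      have e' : z ≠ b := (Finset.mem_erase.1 hz).1
      have e : z ≠ a := (Finset.mem_erase.1 (Finset.mem_erase.1 hz).2).1
      simp only [if_neg e, if_neg e']

theorem goodI_msM {G W : Set ℂ} (hW : Convex ℝ W) {o : ℂ → ℂ} (ho : ∀ z, Adm G W (o z)) (k : ℕ) :
    ∀ M : Multiset (ℂ × ℂ), M.card = k → (∀ q ∈ M, q.1 ∈ W ∧ q.2 ∈ W) →
      GoodI G W o (msMI M) := by
  induction k with
  | zero =>
    intro M hM _ P hP
    rw [Multiset.card_eq_zero.1 hM] at hP ⊢
    have e : msMI 0 = 0 := by simp [msMI]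
    rw [e] at hP ⊢
    have hP' : P = ∅ := Finset.eq_empty_of_forall_notMem fun z hz => by
      have := ((hP z).1 hz).2.2
      rw [bdy_zero] at this
      exact zero_ne_one this
    exact ⟨id, fun _ => rfl, fun _ _ => rfl, 0, MvI.refl (Poly.zero W), by simp [hP', costI]⟩
  | succ k ih =>
    intro M hM hq
    obtain ⟨⟨a, b⟩, M', rfl⟩ : ∃ q M', M = q ::ₘ M' := by
      obtain ⟨q, hq⟩ := Multiset.card_pos_iff_exists_mem.1 (show 0 < M.card by omega)
      exact ⟨q, Multiset.exists_cons_of_mem hq⟩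
    have hk : M'.card = k := by simpa using hM
    have hq' : ∀ q ∈ M', q.1 ∈ W ∧ q.2 ∈ W := fun q h => hq q (by simp [h])
    obtain ⟨ha, hb⟩ : a ∈ W ∧ b ∈ W := hq (a, b) (by simp)
    have hU := msMI_poly hq'
    have ihU := ih M' hk hq'
    rw [msMI_cons]
    dsimp only
    have key : ∀ x ∈ W, ∀ z ∈ W, (∃ q ∈ M', q.1 = z ∨ q.2 = z) →
        GoodI G W o (sg x z + msMI M') := by
      rintro x hx z hz ⟨⟨c, d⟩, hcd, hz'⟩
      obtain ⟨M'', rfl⟩ := Multiset.exists_cons_of_mem hcd
      obtain ⟨hc, hd⟩ : c ∈ W ∧ d ∈ W := hq' (c, d) (by simp)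
      have hq'' : ∀ q ∈ M'', q.1 ∈ W ∧ q.2 ∈ W := fun q h => hq' q (by simp [h])
      have fin : ∀ w ∈ W, GoodI G W o (sg x z + (sg z w + msMI M'')) := by
        intro w hw
        have h1 := ih ((x, w) ::ₘ M'') (by simpa using hk) (by
          intro q h
          rcases Multiset.mem_cons.1 h with rfl | h
          · exact ⟨hx, hw⟩
          · exact hq'' q h)
        rw [msMI_cons] at h1
        rw [← add_assoc]
        exact GoodI.of_mv ((mvI_merge hW hx hz hw).add_right (msMI_poly hq'')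
          ((Poly.sg hx hz).add (Poly.sg hz hw))) h1
      rw [msMI_cons]
      rcases hz' with rfl | rfl
      · exact fin d hd
      · rw [sg_comm c]
        exact fin c hc
    by_cases hab : a = b
    · rw [hab, sg_self, zero_add]
      exact ihU
    by_cases h1 : ∃ q ∈ M', q.1 = b ∨ q.2 = b
    · exact key a ha b hb h1
    by_cases h2 : ∃ q ∈ M', q.1 = a ∨ q.2 = a
    · rw [sg_comm]
      exact key b hb a ha h2
    push Not at h1 h2
    have k1 := msMI_bdy h1
    have k2 := msMI_bdy h2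
    by_cases hag : a ∈ G <;> by_cases hbg : b ∈ G
    · exact ihU.two hU ha hb hag hbg hab k2 k1
    · exact ihU.one hW ho hU ha hb hag hbg k2
    · rw [sg_comm]
      exact ihU.one hW ho hU hb ha hbg hag k1
    · refine GoodI.of_mv ((mvI_shrink hW ha hb hag hbg (ho a)).add_right hU (Poly.sg ha hb)) ?_
      rw [zero_add]
      exact ihU

open Classical in
theorem lemI {G W : Set ℂ} (hW : Convex ℝ W) {T : Ms} (hT : Poly W T) {n : ℕ} {p : Fin n → ℂ}
    (hi : Function.Injective p) (hp : ∀ i, p i ∈ W ∧ p i ∈ G) (hb : Par G W (ind p) T)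
    (o : Fin n → ℂ) (ho : ∀ i, Adm G W (o i)) {o₀ : ℂ} (h₀ : Adm G W o₀) :
    ∃ π : Fin n → Fin n, Function.Involutive π ∧ ∃ T' : Ms,
      (∀ ε, 0 < ε → Relation.ReflTransGen (Step G W (bdy T) (T.real univ + ε)) T T') ∧
      T'.real univ ≤ ∑ i, if π i = i then ‖p i - o i‖ else ‖p i - p (π i)‖ / 2 := by
  obtain ⟨m, a, b, hab, rfl⟩ := hT
  have ho' : ∀ z, Adm G W (Function.extend p o (fun _ => o₀) z) := by
    intro z
    by_cases hz : ∃ i, p i = z
    · obtain ⟨i, rfl⟩ := hz
      rw [hi.extend_apply]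
      exact ho i
    · rw [Function.extend_apply' _ _ _ hz]
      exact h₀
  have e : msr a b = msMI (Finset.univ.val.map fun i => (a i, b i)) := by
    unfold msr msMI
    rw [Multiset.map_map]
    rfl
  have hg := goodI_msM hW ho' _ (Finset.univ.val.map fun i => (a i, b i)) rfl (by
    intro q hq
    obtain ⟨i, -, rfl⟩ := Multiset.mem_map.1 hq
    exact hab i)
  rw [← e] at hg
  have hind : ∀ i, ind p (p i) = 1 := fun i => by
    unfold ind
    simp [hi.eq_iff]
  obtain ⟨π, h1, h2, T', h3, h4⟩ := hg (Finset.univ.map ⟨p, hi⟩) fun z => by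
    simp only [Finset.mem_map, Finset.mem_univ, true_and, Function.Embedding.coeFn_mk]
    constructor
    · rintro ⟨i, rfl⟩
      exact ⟨(hp i).1, (hp i).2, by rw [hb _ (hp i).1 (hp i).2, hind]⟩
    · rintro ⟨hz, hz', k⟩
      by_contra hn
      push Not at hn
      rw [hb z hz hz'] at k
      simp [ind, hn] at k
  have hex : ∀ i, ∃ j, p j = π (p i) := fun i => by
    by_contra hn
    have h5 := h2 (π (p i)) (by simpa using hn)
    rw [h1] at h5
    exact hn ⟨i, h5⟩
  choose π' hπ' using hex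
  refine ⟨π', fun i => hi (by rw [hπ', hπ', h1]), T', fun ε hε => h3.2.2.2 _ (by linarith),
    h4.trans_eq ?_⟩
  unfold costI
  rw [Finset.sum_map]
  refine Finset.sum_congr rfl fun i _ => ?_
  simp only [Function.Embedding.coeFn_mk, ← hπ', hi.eq_iff, hi.extend_apply]

end Pool.Agent.MP_20201c_gt.H91
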