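import Pool.Agent.MP_20201c_gt.H91.Apx
import Pool.Agent.MP_20201c_gt.H91.Line
import Pool.Agent.MP_20201c_gt.H91.LemI

/-! Cones at boundary points without improving paths. -/

open MeasureTheory Set Filter Topology
open scoped ENNReal

namespace Pool.Agent.MP_20201c_gt.H91

namespace CY

theorem nsq (u : ℂ) : ‖u‖ ^ 2 = u.re ^ 2 + u.im ^ 2 := by
  rw [Complex.sq_norm, Complex.normSq_apply]; ring

theorem unit_sq {u : ℂ} (h : ‖u‖ = 1) : u.re ^ 2 + u.im ^ 2 = 1 := by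
  rw [← nsq, h, one_pow]

theorem ip_dt {n : ℂ} (hn : ‖n‖ = 1) (u : ℂ) : ip n u ^ 2 + dt n u ^ 2 = ‖u‖ ^ 2 := by
  rw [nsq]
  unfold ip dt
  linear_combination (u.re ^ 2 + u.im ^ 2) * unit_sq hn

theorem abs_ip_le {n : ℂ} (hn : ‖n‖ = 1) (u : ℂ) : |ip n u| ≤ ‖u‖ :=
  abs_le_of_sq_le_sq' (by nlinarith [ip_dt hn u, sq_nonneg (dt n u)]) (norm_nonneg u) |> abs_le.2

theorem abs_dt_le {n : ℂ} (hn : ‖n‖ = 1) (u : ℂ) : |dt n u| ≤ ‖u‖ :=
  abs_le_of_sq_le_sq' (by nlinarith [ip_dt hn u, sq_nonneg (ip n u)]) (norm_nonneg u) |> abs_le.2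

theorem ip_sub (n u v : ℂ) : ip n (u - v) = ip n u - ip n v := by
  unfold ip; simp only [Complex.sub_re, Complex.sub_im]; ring

theorem ip_add (n u v : ℂ) : ip n (u + v) = ip n u + ip n v := by
  unfold ip; simp only [Complex.add_re, Complex.add_im]; ring

theorem ip_neg (n u : ℂ) : ip n (-u) = -ip n u := by
  unfold ip; simp only [Complex.neg_re, Complex.neg_im]; ring

theorem ip_smul (n u : ℂ) (t : ℝ) : ip n (t • u) = t * ip n u := by
  unfold ip; simp only [Complex.smul_re, Complex.smul_im, smul_eq_mul]; ring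

theorem ip_comm (n u : ℂ) : ip n u = ip u n := by
  unfold ip; ring

theorem ip_zero (n : ℂ) : ip n 0 = 0 := by
  unfold ip; simp

/-- A better apex for a direction that is far from the normal. -/
theorem apex {n n' v : ℂ} (hn : ‖n‖ = 1) (h : ‖n - n'‖ ≤ 1 / 10) (hv : ‖v‖ = 1)
    (ha : ip n v < 3 / 4) :
    ∃ d : ℂ, ‖d‖ ≤ 1 ∧ ip n d ≤ 0 ∧ ip n' d ≤ 0 ∧ ‖v - d‖ ≤ 99 / 100 := by
  obtain ⟨σ, hσ, hb⟩ : ∃ σ : ℝ, (σ = 1 ∨ σ = -1) ∧ σ * dt n v = |dt n v| := by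
    rcases le_total 0 (dt n v) with h0 | h0
    · exact ⟨1, Or.inl rfl, by rw [abs_of_nonneg h0, one_mul]⟩
    · exact ⟨-1, Or.inr rfl, by rw [abs_of_nonpos h0, neg_one_mul]⟩
  have hσ2 : σ ^ 2 = 1 := by rcases hσ with rfl | rfl <;> norm_num
  have h1 := unit_sq hn
  have h2 := unit_sq hv
  have h3 := ip_dt hn v
  rw [hv] at h3
  have h4 : (1 + ip n v) / 5 ≤ |dt n v| := by
    refine le_trans (le_abs_self _) (sq_le_sq.1 ?_)
    have h5 := (abs_le.1 ((abs_ip_le hn v).trans_eq hv)).1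
    nlinarith
  obtain ⟨d, hd1, hd2⟩ : ∃ d : ℂ, d.re = (-σ * n.im - n.re / 5) / 5 ∧
      d.im = (σ * n.re - n.im / 5) / 5 := ⟨⟨_, _⟩, rfl, rfl⟩
  have hdn : d.re ^ 2 + d.im ^ 2 = 26 / 625 := by
    rw [hd1, hd2]
    linear_combination (σ ^ 2 / 25 + 1 / 625) * h1 + (1 / 25) * hσ2
  have hip : ∀ u : ℂ, ip u d = (σ * dt n u - ip n u / 5) / 5 := by
    intro u
    unfold ip dt
    rw [hd1, hd2]
    ring
  have hnd : ip n d = -1 / 25 := by
    unfold ip
    rw [hd1, hd2]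
    linear_combination (-1 / 25) * h1
  refine ⟨d, ?_, by rw [hnd]; norm_num, ?_, ?_⟩
  · refine (abs_le_of_sq_le_sq' ?_ zero_le_one).2
    rw [nsq, hdn]
    norm_num
  · have h5 : ip n' d = ip n d - ip (n - n') d := by
      rw [ip_comm (n - n'), ip_sub, ip_comm d, ip_comm d]; ring
    have h6 := abs_le.1 ((abs_ip_le hn (n - n')).trans h)
    have h7 := abs_le.1 ((abs_dt_le hn (n - n')).trans h)
    rw [h5, hnd, hip]
    rcases hσ with rfl | rfl <;> linarith [h6.1, h6.2, h7.1, h7.2]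
  · refine (abs_le_of_sq_le_sq' ?_ (by norm_num)).2
    have h5 : ‖v - d‖ ^ 2 = 1 - 2 * ip v d + 26 / 625 := by
      rw [nsq, Complex.sub_re, Complex.sub_im]
      unfold ip
      linear_combination h2 + hdn
    rw [h5, hip, hb]
    linarith

theorem enum (O : Finset ℂ) : ∃ q : Fin O.card → ℂ, Function.Injective q ∧
    (∀ z, z ∈ O ↔ ∃ i, q i = z) ∧ ∀ f : ℂ → ℝ, ∑ z ∈ O, f z = ∑ i, f (q i) := by
  refine ⟨fun i => (O.equivFin.symm i : ℂ),
    Subtype.val_injective.comp O.equivFin.symm.injective, fun z => ⟨fun hz => ?_, ?_⟩, fun f => ?_⟩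
  · exact ⟨O.equivFin ⟨z, hz⟩, by simp⟩
  · rintro ⟨i, rfl⟩
    exact (O.equivFin.symm i).2
  · rw [← Finset.sum_coe_sort O f]
    exact (Equiv.sum_comp O.equivFin.symm fun x : O => f x).symm

open Classical in
theorem ind_enum {k : ℕ} {q : Fin k → ℂ} (hq : Function.Injective q) (z : ℂ) :
    ind q z = if ∃ i, q i = z then 1 else 0 := by
  unfold ind
  split_ifs with h
  · obtain ⟨i, rfl⟩ := h
    rw [Finset.sum_eq_single i (fun j _ hj => if_neg fun h => hj (hq h)) (by simp), if_pos rfl]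
  · exact Finset.sum_eq_zero fun i _ => if_neg fun h' => h ⟨i, h'⟩

/-- Almost antipodal pairs. -/
theorem antip {u v : ℂ} (hu : ‖u‖ = 1) (hv : ‖v‖ = 1) {g δ : ℝ} (hg : g ≤ 1 / 200) (hδ : 0 < δ)
    (hgδ : 16 * g ≤ δ ^ 2) (h : 1 - 2 * g < ‖u - v‖ / 2) : dist u (-v) ≤ δ := by
  rw [dist_eq_norm, sub_neg_eq_add]
  refine (abs_le_of_sq_le_sq' ?_ hδ.le).2
  have h1 : ‖u + v‖ ^ 2 + ‖u - v‖ ^ 2 = 4 := by
    rw [nsq, nsq, Complex.add_re, Complex.add_im, Complex.sub_re, Complex.sub_im]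
    linear_combination 2 * unit_sq hu + 2 * unit_sq hv
  have h2 : (2 - 4 * g) ^ 2 ≤ ‖u - v‖ ^ 2 := pow_le_pow_left₀ (by linarith) (by linarith) 2
  nlinarith [sq_nonneg g]

open Classical in
/-- The slice of a measure without improving path. -/
theorem pairing {G W : Set ℂ} (hW : Convex ℝ W) {T : Ms} (hT : Poly W T) {k : ℕ} {q : Fin k → ℂ}
    (hq : Function.Injective q) {y n n' : ℂ} {R : ℝ} (hR : 0 < R) (hn : ‖n‖ = 1)
    (hnn : ‖n - n'‖ ≤ 1 / 10) (hp : ∀ i, q i ∈ W ∧ q i ∈ G) (hs : ∀ i, ‖q i - y‖ = R)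
    (hb : Par G W (ind q) T)
    (hA : ∀ o ∈ cb y R, ip n (o - y) ≤ 0 → ip n' (o - y) ≤ 0 → Adm G W o) {g δ : ℝ}
    (hg : g ≤ 1 / 200) (hδ : 0 < δ) (hgδ : 16 * g ≤ δ ^ 2) (hI : ¬ IP G W T (g * R))
    (hm : k * R - g * R ≤ T.real univ) :
    ∃ π : Fin k → Fin k, Function.Involutive π ∧ ∀ i, 3 / 4 ≤ ip n (R⁻¹ • (q i - y)) ∨
      dist (R⁻¹ • (q i - y)) (-(R⁻¹ • (q (π i) - y))) ≤ δ := by
  have hv : ∀ i, ‖R⁻¹ • (q i - y)‖ = 1 := fun i => by
    rw [norm_smul, hs, norm_inv, Real.norm_of_nonneg hR.le, inv_mul_cancel₀ hR.ne']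
  have hy : Adm G W y := hA y (Metric.mem_closedBall_self hR.le)
    (by rw [sub_self, ip_zero]) (by rw [sub_self, ip_zero])
  have ho : ∀ i, ∃ o, Adm G W o ∧ ‖q i - o‖ ≤ R ∧
      (ip n (R⁻¹ • (q i - y)) < 3 / 4 → ‖q i - o‖ ≤ 99 / 100 * R) := by
    intro i
    by_cases h : ip n (R⁻¹ • (q i - y)) < 3 / 4
    · obtain ⟨d, h1, h2, h3, h4⟩ := apex hn hnn (hv i) h
      have h5 : ‖q i - (y + R • d)‖ ≤ 99 / 100 * R := by
        have e : q i - (y + R • d) = R • (R⁻¹ • (q i - y) - d) := by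
          rw [smul_sub, smul_smul, mul_inv_cancel₀ hR.ne', one_smul, sub_sub]
        rw [e, norm_smul, Real.norm_of_nonneg hR.le, mul_comm]
        exact mul_le_mul_of_nonneg_right h4 hR.le
      refine ⟨y + R • d, hA _ ?_ ?_ ?_, by linarith, fun _ => h5⟩
      · rw [mem_closedBall_iff_norm, add_sub_cancel_left, norm_smul, Real.norm_of_nonneg hR.le]
        exact mul_le_of_le_one_right hR.le h1
      · rw [add_sub_cancel_left, ip_smul]
        exact mul_nonpos_of_nonneg_of_nonpos hR.le h2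
      · rw [add_sub_cancel_left, ip_smul]
        exact mul_nonpos_of_nonneg_of_nonpos hR.le h3
    · exact ⟨y, hy, (hs i).le, fun h' => absurd h' h⟩
  choose o ho1 ho2 ho3 using ho
  obtain ⟨π, hπ, T', hT1, hT2⟩ := lemI hW hT hq hp hb o ho1 hy
  have hlt : T.real univ - g * R < T'.real univ := by
    by_contra hc
    exact hI fun ε hε => ⟨T', hT1 ε hε, not_lt.1 hc⟩
  obtain ⟨t, ht⟩ : ∃ t : Fin k → ℝ,
      t = fun i => if π i = i then ‖q i - o i‖ else ‖q i - q (π i)‖ / 2 := ⟨_, rfl⟩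
  have hT3 : T'.real univ ≤ ∑ i, t i := by rw [ht]; exact hT2
  have ht1 : ∀ i, t i ≤ R := by
    intro i
    rw [ht]
    show (if π i = i then ‖q i - o i‖ else ‖q i - q (π i)‖ / 2) ≤ R
    split_ifs
    · exact ho2 i
    · have h1 := norm_sub_le (q i - y) (q (π i) - y)
      rw [sub_sub_sub_cancel_right, hs, hs] at h1
      linarith
  have ht2 : ∀ i, R - 2 * g * R < t i := by
    intro i
    have h1 : R - t i ≤ ∑ j, (R - t j) :=
      Finset.single_le_sum (f := fun j => R - t j) (fun j _ => sub_nonneg.2 (ht1 j))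
        (Finset.mem_univ i)
    rw [Finset.sum_sub_distrib, Finset.sum_const, Finset.card_univ, Fintype.card_fin,
      nsmul_eq_mul] at h1
    linarith
  refine ⟨π, hπ, fun i => ?_⟩
  have h1 := ht2 i
  rw [ht] at h1
  by_cases hi : π i = i
  · left
    by_contra hc
    have h2 := ho3 i (not_le.1 hc)
    simp only [if_pos hi] at h1
    nlinarith
  · right
    simp only [if_neg hi] at h1
    refine antip (hv i) (hv (π i)) hg hδ hgδ ?_
    rw [← smul_sub, sub_sub_sub_cancel_right, norm_smul, norm_inv, Real.norm_of_nonneg hR.le,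
      mul_div_assoc, lt_inv_mul_iff₀ hR]
    linarith

theorem sum_pair {k : ℕ} {v : Fin k → ℂ} {π : Fin k → Fin k} (hπ : Function.Involutive π)
    {φ : ℂ → ℝ} {e : ℝ} (h : ∀ i, φ (v i) ≤ φ (-v (π i)) + e) :
    ∑ i, (φ (v i) - φ (-v i)) ≤ k * e := by
  have h1 : ∑ i, φ (-v (π i)) = ∑ i, φ (-v i) :=
    Equiv.sum_comp hπ.toPerm fun i => φ (-v i)
  have h2 : ∑ i, φ (v i) ≤ ∑ i, (φ (-v (π i)) + e) := Finset.sum_le_sum fun i _ => h i
  rw [Finset.sum_add_distrib, h1, Finset.sum_const, Finset.card_univ, Fintype.card_fin,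
    nsmul_eq_mul] at h2
  rw [Finset.sum_sub_distrib]
  linarith

open Classical in
theorem sum_bump (s : Multiset ℂ) (u : ℂ) {φ : ℂ → ℝ} (h1 : φ u = 1)
    (h0 : ∀ x ∈ s, x ≠ u → φ x = 0) : (s.map φ).sum = s.count u := by
  induction s using Multiset.induction_on with
  | empty => simp
  | cons a s ih =>
    rw [Multiset.map_cons, Multiset.sum_cons, ih fun x hx => h0 x (Multiset.mem_cons_of_mem hx)]
    by_cases h : a = u
    · rw [h, h1, Multiset.count_cons_self, Nat.cast_add, Nat.cast_one, add_comm]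
    · rw [h0 a (Multiset.mem_cons_self a s) h, Multiset.count_cons_of_ne (Ne.symm h), zero_add]

open Classical in
theorem count_neg (s : Multiset ℂ) (u : ℂ) : (s.map fun v => -v).count u = s.count (-u) := by
  have h := Multiset.count_map_eq_count' (fun v : ℂ => -v) s neg_injective (-u)
  rwa [neg_neg] at h

open Classical in
theorem count_le {n : ℂ} (hn : ‖n‖ = 1) {w : Multiset ℂ}
    (h : ∀ φ : ℂ → ℝ, Continuous φ → (∀ x, 0 ≤ φ x) → (∀ x, 3 / 4 ≤ ip n x → φ x = 0) →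
      (w.map fun v => φ v - φ (-v)).sum ≤ 0) {u : ℂ} (hu : ip n u < 3 / 4) :
    w.count u ≤ w.count (-u) := by
  have hfin : ({x | x ∈ w + w.map fun v => -v} \ {u}).Finite :=
    (Multiset.finite_toSet _).subset sdiff_subset
  obtain ⟨ρ₁, hρ₁, hb⟩ := Metric.isOpen_iff.1 hfin.isClosed.isOpen_compl u (by simp)
  obtain ⟨ρ, hρ, h1, h2⟩ : ∃ ρ : ℝ, 0 < ρ ∧ ρ ≤ ρ₁ ∧ ρ ≤ 3 / 4 - ip n u :=
    ⟨min ρ₁ (3 / 4 - ip n u), lt_min hρ₁ (by linarith), min_le_left _ _, min_le_right _ _⟩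
  have hz : ∀ x : ℂ, ρ ≤ ‖x - u‖ → max 0 (1 - ‖x - u‖ / ρ) = 0 := fun x hx =>
    max_eq_left (by rw [sub_nonpos, one_le_div hρ]; exact hx)
  have hz' : ∀ x ∈ w + w.map fun v => -v, x ≠ u → max 0 (1 - ‖x - u‖ / ρ) = 0 := by
    intro x hx hxu
    refine hz x (h1.trans (not_lt.1 fun hc => ?_))
    exact hb (mem_ball_iff_norm.2 hc) ⟨hx, hxu⟩
  have h3 := h (fun x => max 0 (1 - ‖x - u‖ / ρ)) (by fun_prop) (fun x => le_max_left _ _)
    fun x hx => hz x (by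
      have h4 := (abs_le.1 (abs_ip_le hn (x - u))).2
      rw [ip_sub] at h4
      linarith)
  have h4 := sum_bump w u (φ := fun x => max 0 (1 - ‖x - u‖ / ρ)) (by simp)
    fun x hx => hz' x (Multiset.mem_add.2 (Or.inl hx))
  have h5 := sum_bump (w.map fun v => -v) u (φ := fun x => max 0 (1 - ‖x - u‖ / ρ)) (by simp)
    fun x hx => hz' x (Multiset.mem_add.2 (Or.inr hx))
  rw [Multiset.map_map, count_neg] at h5
  rw [Multiset.sum_map_sub, h4] at h3
  have h6 : (w.count u : ℝ) ≤ w.count (-u) := by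
    rw [← h5]
    exact sub_nonpos.1 h3
  exact_mod_cast h6

theorem ip_sum_ge (n : ℂ) (s : Multiset ℂ) (h : ∀ v ∈ s, 3 / 4 ≤ ip n v) :
    3 / 4 * (s.card : ℝ) ≤ ip n s.sum := by
  induction s using Multiset.induction_on with
  | empty => simp [ip_zero]
  | cons a s ih =>
    have h1 := ih fun x hx => h x (Multiset.mem_cons_of_mem hx)
    have h2 := h a (Multiset.mem_cons_self a s)
    rw [Multiset.sum_cons, ip_add, Multiset.card_cons, Nat.cast_add, Nat.cast_one]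
    linarith

theorem ip_sum_neg (n : ℂ) (s : Multiset ℂ) : ip n (s.map fun v => -v).sum = -ip n s.sum := by
  induction s using Multiset.induction_on with
  | empty => simp [ip_zero]
  | cons a s ih =>
    rw [Multiset.map_cons, Multiset.sum_cons, Multiset.sum_cons, ip_add, ip_add, ih, ip_neg]
    ring

open Classical in
theorem final {n : ℂ} {w : Multiset ℂ} (h0 : ∀ v ∈ w, -(3 / 4) < ip n v)
    (h : ∀ u, ip n u < 3 / 4 → w.count u ≤ w.count (-u)) :
    w.map (fun v => -v) = w ∨ 3 / 4 ≤ ip n w.sum := by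
  have e1 : (w.filter fun v => ip n v < 3 / 4).map (fun v => -v) =
      w.filter fun v => ip n v < 3 / 4 := by
    ext u
    rw [count_neg, Multiset.count_filter, Multiset.count_filter]
    by_cases h1 : ip n u < 3 / 4 <;> by_cases h2 : ip n (-u) < 3 / 4
    · rw [if_pos h1, if_pos h2]
      have h3 := h (-u) h2
      rw [neg_neg] at h3
      exact le_antisymm h3 (h u h1)
    · rw [if_pos h1, if_neg h2]
      refine (Multiset.count_eq_zero.2 fun hu => h2 ?_).symm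
      rw [ip_neg]
      linarith [h0 u hu]
    · rw [if_neg h1, if_pos h2]
      refine Multiset.count_eq_zero.2 fun hu => h1 ?_
      have h3 := h0 _ hu
      rw [ip_neg] at h3
      linarith
    · rw [if_neg h1, if_neg h2]
  have e2 := Multiset.filter_add_not (fun v => ip n v < 3 / 4) w
  by_cases hz : (w.filter fun v => ¬ ip n v < 3 / 4) = 0
  · rw [hz, add_zero] at e2
    rw [e2] at e1
    exact Or.inl e1
  · right
    have e3 : ip n (w.filter fun v => ip n v < 3 / 4).sum = 0 := by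
      have h1 := ip_sum_neg n (w.filter fun v => ip n v < 3 / 4)
      rw [e1] at h1
      linarith
    have h1 := ip_sum_ge n (w.filter fun v => ¬ ip n v < 3 / 4)
      fun v hv => not_lt.1 (Multiset.mem_filter.1 hv).2
    have h2 : (1 : ℝ) ≤ (w.filter fun v => ¬ ip n v < 3 / 4).card := by
      exact_mod_cast Multiset.card_pos.2 hz
    rw [← e2, Multiset.sum_add, ip_add, e3]
    linarith

end CY

variable {G : Set ℂ} {ν : ℂ → ℂ × ℂ} {y₀ : ℂ} {R₀ : ℝ} {n₀ : ℕ} {p : Fin n₀ → ℂ}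
  {N M : ℕ} {c : ℝ} {𝒰 : Ultrafilter ℕ} {T : ℕ → Ms} {μ : Ms} {ρ₀ : ℝ} {Y : Finset ℂ}

theorem clsY (hS : Setup G ν y₀ R₀ p) (hD : LimD N M G (cb y₀ R₀) (ind p) c 𝒰 T μ ρ₀ Y)
    {y : ℂ} (hy : y ∈ Metric.ball y₀ R₀) (hG : y ∈ frontier G) (hY : y ∉ Y) {r : ℝ}
    {w : Multiset ℂ} (h : LocAt 𝒰 G T μ y r w)
    (hd : ∀ v ∈ w, 0 ≤ ip (ν y).1 v ∨ 0 ≤ ip (ν y).2 v) :
    w.map (fun v => -v) = w ∨ 3 / 4 ≤ ip (ν y).1 w.sum := by
  classical
  obtain ⟨hn, -, hnn, -⟩ := hS.conic.2 y hG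
  have hyW : y ∈ cb y₀ R₀ := Metric.ball_subset_closedBall hy
  have hyG : y ∉ G := fun hc => by
    rw [hS.conic.1.frontier_eq] at hG
    exact hG.2 hc
  obtain ⟨r₁, hr₁, hA⟩ := adm1 hS.conic y
  obtain ⟨r₂, hr₂, hB⟩ := local_bdy hS hyW
  obtain ⟨σ, hσ, hI⟩ := hD.ni y hyW hY ⟨r₁, hr₁, fun R hR =>
    hA R hR y (Metric.mem_closedBall_self hR.1.le)
      (fun _ => by rw [sub_self, CY.ip_zero, CY.ip_zero]; exact ⟨le_rfl, le_rfl⟩) _ hyW⟩
  obtain ⟨r', hr', h1, h2, h3, h4, h5⟩ : ∃ r' : ℝ, 0 < r' ∧ r' ≤ r ∧ r' ≤ r₁ ∧ r' ≤ r₂ ∧ r' ≤ σ ∧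
      r' ≤ R₀ - dist y y₀ := by
    have h0 : 0 < R₀ - dist y y₀ := sub_pos.2 hy
    exact ⟨min (min r r₁) (min r₂ (min σ (R₀ - dist y y₀))),
      lt_min (lt_min h.cone.1 hr₁) (lt_min hr₂ (lt_min hσ h0)),
      (min_le_left _ _).trans (min_le_left _ _), (min_le_left _ _).trans (min_le_right _ _),
      (min_le_right _ _).trans (min_le_left _ _),
      (min_le_right _ _).trans ((min_le_right _ _).trans (min_le_left _ _)),
      (min_le_right _ _).trans ((min_le_right _ _).trans (min_le_right _ _))⟩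
  refine CY.final (fun v hv => ?_) fun u hu => CY.count_le hn (fun φ hφ hφ0 hφ1 => ?_) hu
  · rcases hd v hv with h6 | h6
    · linarith
    · have h7 := (abs_le.1 (CY.abs_ip_le (h.cone.2.1 v hv) ((ν y).1 - (ν y).2))).1
      rw [CY.ip_sub, CY.ip_comm v, CY.ip_comm v] at h7
      linarith
  refine h.avg (fun v => φ v - φ (-v)) (by fun_prop) r' hr' h1 fun γ hγ => ?_
  have he : 0 < γ / (w.card + 1) := by positivity
  obtain ⟨δ, hδ, hu⟩ := Metric.uniformContinuousOn_iff_le.1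
    ((isCompact_closedBall (0 : ℂ) 1).uniformContinuousOn_of_continuous hφ.continuousOn) _ he
  obtain ⟨g, hg0, hg1, hg2⟩ : ∃ g : ℝ, 0 < g ∧ g ≤ 1 / 200 ∧ 16 * g ≤ δ ^ 2 :=
    ⟨min (1 / 200) (δ ^ 2 / 16), lt_min (by norm_num) (by positivity), min_le_left _ _, by
      linarith [min_le_right (1 / 200 : ℝ) (δ ^ 2 / 16)]⟩
  refine (((hI g hg0).anti h4).and ((h.t1 g hg0).anti h1)).mono ?_
  rintro m R hR ⟨hip, hcard, hmass⟩
  obtain ⟨q, hq1, hq2, hq3⟩ := CY.enum (Od G (T m) y R)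
  have hqO : ∀ i, q i ∈ Od G (T m) y R := fun i => (hq2 _).2 ⟨i, rfl⟩
  obtain ⟨hB1, hB2⟩ := hB R ⟨hR.1, hR.2.trans_le h3⟩ (T m) (hD.lim.poly m) (hD.par m)
  have hs : ∀ i, ‖q i - y‖ = R := fun i => mem_sphere_iff_norm.1 (Od_sub _ _ _ _ _ (hqO i)).1
  have hsub : cb y R ⊆ cb y₀ R₀ := Metric.closedBall_subset_closedBall' (by linarith [hR.2])
  obtain ⟨π, hπ, hpair⟩ := CY.pairing (n := (ν y).1) (n' := (ν y).2)
    (hD.lim.cvx.inter (convex_closedBall y R))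
    ((hD.lim.poly m).restrict_cb hD.lim.cvx hyW hR.1) hq1 hR.1 hn hnn
    (fun i => ⟨⟨hB1 _ (hqO i), Metric.sphere_subset_closedBall (Od_sub _ _ _ _ _ (hqO i)).1⟩,
      (Od_sub _ _ _ _ _ (hqO i)).2.1⟩) hs
    (fun z _ hz => by
      rw [hB2 z hz, CY.ind_enum hq1, if_neg (show ¬ (z = y ∧ y ∈ range p) from
        fun hc => hyG (hc.1 ▸ hz)), add_zero]
      exact if_congr (hq2 z) rfl rfl)
    (fun o ho ho1 ho2 => hA R ⟨hR.1, hR.2.trans_le h2⟩ o ho (fun _ => ⟨ho1, ho2⟩) _ (hsub ho))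
    hg1 hδ hg2 hip (by
      rw [measureReal_restrict_apply_univ, hcard]
      linarith [(abs_le.1 hmass).1])
  have hv : ∀ i, ‖R⁻¹ • (q i - y)‖ = 1 := fun i => by
    rw [norm_smul, hs, norm_inv, Real.norm_of_nonneg hR.1.le, inv_mul_cancel₀ hR.1.ne']
  rw [hq3 fun z => φ (R⁻¹ • (z - y)) - φ (-(R⁻¹ • (z - y)))]
  refine (CY.sum_pair (v := fun i => R⁻¹ • (q i - y)) hπ (e := γ / (w.card + 1))
    fun i => ?_).trans ?_
  · rcases hpair i with h6 | h6
    · rw [hφ1 _ h6]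
      exact add_nonneg (hφ0 _) he.le
    · have h7 := hu _ (mem_closedBall_zero_iff.2 (hv i).le) _
        (mem_closedBall_zero_iff.2 (by rw [norm_neg]; exact (hv (π i)).le)) h6
      rw [Real.dist_eq] at h7
      linarith [(abs_le.1 h7).2]
  · rw [hcard, mul_div_assoc', div_le_iff₀ (by positivity)]
    nlinarith

end Pool.Agent.MP_20201c_gt.H91
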