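import Pool.Agent.MP_20201c_gt.H91.Prism

/-! Universal flags and the coloured subdivision. -/

open Set

namespace Pool.Agent.MP_20201c_gt.H91.Cv

noncomputable def pm {B B' : Type} (f : B → B') : (B →₀ F2) →ₗ[F2] (B' →₀ F2) :=
  lift fun b => one (f b)

section
variable {B B' B'' C : Type} [AddCommGroup C] [Module F2 C]

@[simp] theorem pm_one (f : B → B') (b : B) : pm f (one b) = one (f b) := lift_one _ _

theorem lift_pm (f : B → B') (G : B' → C) (c : B →₀ F2) :
    lift G (pm f c) = lift (fun b => G (f b)) c :=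
  lin_ext ((lift G).comp (pm f)) _ (fun b => by simp) c

theorem pm_pm (f : B → B') (g : B' → B'') (c : B →₀ F2) :
    pm g (pm f c) = pm (fun b => g (f b)) c := lift_pm _ _ _

theorem pm_inj {f : B → B'} (hf : Function.Injective f) {c : B →₀ F2} (h : pm f c = 0) :
    c = 0 := by
  have h1 : pm f c = Finsupp.mapDomain f c :=
    lin_ext (pm f) (Finsupp.lmapDomain F2 F2 f) (fun b => by rw [pm_one]; simp [one]) c
  apply Finsupp.mapDomain_injective hf
  rw [← h1, h, Finsupp.mapDomain_zero]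

theorem pm_mem {P : Set B} {Q : Set B'} (f : B → B') (h : ∀ b ∈ P, f b ∈ Q) {c : B →₀ F2}
    (hc : c ∈ Sp P) : pm f c ∈ Sp Q :=
  lift_mem _ _ (fun b hb => one_mem (h b hb)) hc

theorem lift_add (F G : B → C) (c : B →₀ F2) :
    lift (fun b => F b + G b) c = lift F c + lift G c :=
  lin_ext _ (lift F + lift G) (fun b => by simp) c

theorem lift_sum {ι : Type} [Fintype ι] (F : ι → B → C) (c : B →₀ F2) :
    lift (fun b => ∑ i, F i b) c = ∑ i, lift (F i) c := by
  have := lin_ext (lift fun b => ∑ i, F i b) (∑ i, lift (F i)) (fun b => by simp) c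
  simpa using this

theorem lift_zero (c : B →₀ F2) : lift (fun _ => (0 : C)) c = 0 :=
  lin_ext _ 0 (fun b => by simp) c

theorem lift_fac (d : B → B') (G : B → C) {c : B →₀ F2}
    (h : ∀ b b', d b = d b' → G b = G b') (h0 : pm d c = 0) : lift G c = 0 := by
  classical
  have : lift G c =
      lift (fun b' => if h : ∃ b, d b = b' then G h.choose else 0) (pm d c) := by
    rw [lift_pm]
    congr 2
    funext b
    have hb : ∃ b₁, d b₁ = d b := ⟨b, rfl⟩
    rw [dif_pos hb]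
    exact (h _ _ hb.choose_spec).symm
  rw [this, h0, map_zero]

theorem mp_pm {Y Y' : Type} (g : Y → Y') (f : B → Sx Y) (c : B →₀ F2) :
    mp g (pm f c) = pm (fun b => smap g (f b)) c := lift_pm _ _ _

theorem sum_sum_succ (n : ℕ) (T : (Fin n → Fin (n + 2)) → C) :
    ∑ i : Fin (n + 2), ∑ j : Fin (n + 1), T (i.succAbove ∘ j.succAbove) = 0 := by
  rw [← Finset.sum_product']
  refine Finset.sum_involution (fun q _ => (q.1.succAbove q.2, q.2.predAbove q.1))
    (fun q _ => ?_) (fun q _ _ h => ?_) (fun q _ => by simp) (fun q _ => ?_)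
  · have : q.1.succAbove ∘ q.2.succAbove =
        (q.1.succAbove q.2).succAbove ∘ (q.2.predAbove q.1).succAbove := by
      funext k
      exact (Fin.succAbove_succAbove_succAbove_predAbove q.1 q.2 k).symm
    rw [this]; exact add_self2 _
  · exact Fin.succAbove_ne q.1 q.2 (congrArg Prod.fst h)
  · ext1
    · exact Fin.succAbove_succAbove_predAbove q.1 q.2
    · exact Fin.predAbove_predAbove_succAbove q.1 q.2

end

/-- Nonempty sets of vertices. -/
abbrev NF (n : ℕ) : Type := {J : Finset (Fin n) // J.Nonempty}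

def mapNF {n m : ℕ} (f : Fin n → Fin m) (J : NF n) : NF m := ⟨J.1.image f, J.2.image f⟩

theorem mapNF_mapNF {n m k : ℕ} (f : Fin n → Fin m) (g : Fin m → Fin k) (J : NF n) :
    mapNF g (mapNF f J) = mapNF (g ∘ f) J := Subtype.ext Finset.image_image

def top (n : ℕ) : NF (n + 1) := ⟨Finset.univ, Finset.univ_nonempty⟩

def mn {n : ℕ} (J : NF n) : Fin n := J.1.min' J.2

theorem mn_mem {n : ℕ} (J : NF n) : mn J ∈ J.1 := Finset.min'_mem _ _

theorem mn_map {n : ℕ} (i : Fin (n + 1)) (J : NF n) :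
    mn (mapNF i.succAbove J) = i.succAbove (mn J) :=
  Finset.min'_image (Fin.strictMono_succAbove i).monotone _ _

/-- The sum of all full flags. -/
noncomputable def FV : (n : ℕ) → ((Fin n → NF n) →₀ F2)
  | 0 => one Fin.elim0
  | n + 1 => pm (fun u : Fin n → NF (n + 1) => (Fin.cons (top n) u : Fin (n + 1) → NF (n + 1)))
      (∑ i : Fin (n + 1), pm (fun u => mapNF i.succAbove ∘ u) (FV n))

theorem FV_zero (n : ℕ) : pm (fun u => u ∘ (0 : Fin (n + 1)).succAbove) (FV (n + 1)) =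
    ∑ i : Fin (n + 1), pm (fun u => mapNF i.succAbove ∘ u) (FV n) := by
  rw [FV, pm_pm]
  refine lin_ext _ LinearMap.id (fun u => ?_) _
  simp only [pm_one, LinearMap.id_apply]
  congr 1

theorem FV_succ : ∀ (n : ℕ) (j : Fin n),
    pm (fun u => u ∘ j.succ.succAbove) (FV (n + 1)) = 0
  | 0, j => j.elim0
  | n + 1, j => by
    have h1 : ∀ X : (Fin (n + 1) → NF (n + 2)) →₀ F2,
        pm (fun u : Fin (n + 1) → NF (n + 2) =>
          (Fin.cons (top (n + 1)) u : Fin (n + 2) → NF (n + 2)) ∘ j.succ.succAbove) X =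
        pm (fun u : Fin n → NF (n + 2) => (Fin.cons (top (n + 1)) u : Fin (n + 1) → NF (n + 2)))
          (pm (fun u => u ∘ j.succAbove) X) := by
      intro X
      rw [pm_pm]
      congr 2
      funext u k
      refine Fin.cases ?_ (fun k => ?_) k <;> simp
    rw [FV, pm_pm, h1]
    have h2 : pm (fun u => u ∘ j.succAbove)
        (∑ i : Fin (n + 2), pm (fun u => mapNF i.succAbove ∘ u) (FV (n + 1))) =
        ∑ i : Fin (n + 2), pm (fun u => mapNF i.succAbove ∘ u)
          (pm (fun u => u ∘ j.succAbove) (FV (n + 1))) := by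
      rw [map_sum]
      refine Finset.sum_congr rfl fun i _ => ?_
      rw [pm_pm, pm_pm]; rfl
    rw [h2]
    refine Fin.cases ?_ (fun j => ?_) j
    · rw [FV_zero]
      simp only [map_sum, pm_pm]
      refine Eq.trans ?_ (sum_sum_succ n fun f => pm (fun b : Fin n → NF n =>
        (Fin.cons (top (n + 1)) (mapNF f ∘ b) : Fin (n + 1) → NF (n + 2))) (FV n))
      refine Finset.sum_congr rfl fun i _ => Finset.sum_congr rfl fun k _ => ?_
      congr 2
      funext b
      congr 1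
      funext a
      exact mapNF_mapNF _ _ _
    · simp [FV_succ n j]

def Chn {k n : ℕ} (u : Fin k → NF n) : Prop := ∀ a b, (u a).1 ⊆ (u b).1 ∨ (u b).1 ⊆ (u a).1

theorem FV_mem : ∀ n, FV n ∈ Sp {u | Chn u}
  | 0 => one_mem fun a => a.elim0
  | n + 1 => by
    rw [FV]
    refine pm_mem (P := {u | Chn u}) _ (fun u hu a b => ?_) (Submodule.sum_mem _ fun i _ =>
      pm_mem _ (fun u hu a b => ?_) (FV_mem n))
    · refine Fin.cases (Or.inr (Finset.subset_univ _)) (fun a => ?_) a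
      refine Fin.cases (Or.inl (Finset.subset_univ _)) (fun b => ?_) b
      exact hu a b
    · exact (hu a b).imp Finset.image_subset_image Finset.image_subset_image

theorem map_fc {n N : ℕ} (τ : Fin (n + 1) → Fin N) (j : Fin (n + 1)) :
    (stdSimplex.map τ : Sm (n + 1) → Sm N) ∘ fc n j = stdSimplex.map (τ ∘ j.succAbove) :=
  funext fun x => stdSimplex.map_comp_apply _ _ x

theorem fc_map {k n : ℕ} (τ : Fin k → Fin n) (j : Fin (n + 1)) :
    fc n j ∘ (stdSimplex.map τ : Sm k → Sm n) = stdSimplex.map (j.succAbove ∘ τ) :=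
  funext fun x => stdSimplex.map_comp_apply _ _ x

theorem sum_FV {C : Type} [AddCommGroup C] [Module F2 C] (n : ℕ)
    (G : (Fin n → NF (n + 1)) → C) :
    ∑ j : Fin (n + 1), lift (fun u => G (u ∘ j.succAbove)) (FV (n + 1)) =
      ∑ i : Fin (n + 1), lift (fun u => G (mapNF i.succAbove ∘ u)) (FV n) := by
  have h : ∀ j : Fin (n + 1), lift (fun u => G (u ∘ j.succAbove)) (FV (n + 1)) =
      lift G (pm (fun u => u ∘ j.succAbove) (FV (n + 1))) := fun j => (lift_pm _ _ _).symm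
  simp only [h, Fin.sum_univ_succ, FV_succ, map_zero, Finset.sum_const_zero, add_zero]
  rw [FV_zero, map_sum, Fin.sum_univ_succ]
  simp only [lift_pm]

theorem bd_FV {Y : Type} {n N : ℕ} (θ : NF (n + 1) → Fin N) (r : Sm N → Y) :
    bd (pm (fun u => (⟨n + 1, r ∘ stdSimplex.map (θ ∘ u)⟩ : Sx Y)) (FV (n + 1))) =
      ∑ i : Fin (n + 1), pm (fun u => (⟨n, r ∘ stdSimplex.map
        (θ ∘ mapNF i.succAbove ∘ u)⟩ : Sx Y)) (FV n) := by
  refine Eq.trans ?_ (sum_FV n fun u => one (⟨n, r ∘ stdSimplex.map (θ ∘ u)⟩ : Sx Y))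
  rw [bd, lift_pm, ← lift_sum]
  congr 2
  funext u
  rw [bdS]
  refine Finset.sum_congr rfl fun j _ => ?_
  rw [Function.comp_assoc, map_fc]
  rfl

/-- The universal subdivision. -/
noncomputable def Am (n : ℕ) : Ch (Sm n) :=
  pm (fun u => (⟨n, stdSimplex.map (mn ∘ u)⟩ : Sx (Sm n))) (FV n)

theorem Am_cts (n : ℕ) : Am n ∈ Sp (Cts (Sm n)) :=
  pm_mem (Q := Cts (Sm n)) (fun u => (⟨n, stdSimplex.map (mn ∘ u)⟩ : Sx (Sm n)))
    (fun u _ => stdSimplex.continuous_map (mn ∘ u)) (FV_mem n)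

theorem mn_comp {k n : ℕ} (i : Fin (n + 1)) (u : Fin k → NF n) :
    mn ∘ mapNF i.succAbove ∘ u = i.succAbove ∘ mn ∘ u := funext fun _ => mn_map _ _

theorem bd_Am (n : ℕ) : bd (Am (n + 1)) = ∑ i, mp (fc n i) (Am n) := by
  refine (bd_FV mn id).trans (Finset.sum_congr rfl fun i _ => ?_)
  rw [Am, mp_pm]
  congr 2
  funext u
  simp only [smap, fc_map, mn_comp]
  rfl

theorem fill_Sm (n : ℕ) : Bnd (Cts (Sm (n + 1))) (Cts (Sm (n + 1))) := by
  let v : Sm (n + 1) := stdSimplex.vertex 0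
  let H : ℝ → Sm (n + 1) → Sm (n + 1) := fun t y =>
    ⟨(1 - (projIcc 0 1 zero_le_one t : ℝ)) • y.1 + (projIcc 0 1 zero_le_one t : ℝ) • v.1,
      convex_stdSimplex ℝ _ y.2 v.2 (sub_nonneg.2 (projIcc 0 1 zero_le_one t).2.2)
        (projIcc 0 1 zero_le_one t).2.1 (by ring)⟩
  refine bnd_of_contraction H v (fun s hs k π τ hπ hτ _ => ?_) (fun s _ x => ?_)
    (fun s _ x => ?_) (fun k => continuous_const)
  · have h1 : Continuous fun x => (projIcc 0 1 zero_le_one (τ x) : ℝ) :=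
      continuous_subtype_val.comp (continuous_projIcc.comp hτ)
    have h2 : Continuous fun x => (s.2 (π x)).1 :=
      continuous_subtype_val.comp (Continuous.comp hs hπ)
    exact Continuous.subtype_mk (((continuous_const.sub h1).smul h2).add
      (h1.smul continuous_const)) _
  · apply Subtype.ext; simp [H]
  · apply Subtype.ext; simp [H]

theorem mp_cts {X Y : Type} [TopologicalSpace X] [TopologicalSpace Y] {g : X → Y}
    (hg : Continuous g) {c : Ch X} (hc : c ∈ Sp (Cts X)) : mp g c ∈ Sp (Cts Y) :=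
  mp_mem g (fun _ hs => hg.comp hs) hc

theorem models_step (n : ℕ) (h : Ch (Sm n)) (hc : h ∈ Sp (Cts (Sm n)))
    (h0 : ∑ i, mp (fc n i) (bd h + one ⟨n, id⟩ + Am n) = 0) :
    ∃ h' ∈ Sp (Cts (Sm (n + 1))),
      bd h' = one ⟨n + 1, id⟩ + Am (n + 1) + ∑ i, mp (fc n i) h := by
  refine fill_Sm n _ (Submodule.add_mem _ (Submodule.add_mem _ (one_mem continuous_id)
    (Am_cts _)) (Submodule.sum_mem _ fun i _ => mp_cts (continuous_fc n i) hc)) ?_
  rw [← h0]
  simp only [map_add, map_sum, bd_Am, bd_mp, bd_one, bdS, mp_one, Finset.sum_add_distrib]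
  exact (add_rotate _ _ _).symm

theorem models : ∀ n, ∃ h ∈ Sp (Cts (Sm n)),
    ∑ i, mp (fc n i) (bd h + one ⟨n, id⟩ + Am n) = 0
  | 0 => ⟨0, Submodule.zero_mem _, by
      have : Am 0 = one ⟨0, id⟩ := by rw [Am, FV, pm_one, sx_zero, sx_zero]
      simp [this, add_self2]⟩
  | n + 1 => by
    obtain ⟨h, hc, h0⟩ := models n
    obtain ⟨h', hc', h1⟩ := models_step n h hc h0
    refine ⟨h', hc', ?_⟩
    have : bd h' + one ⟨n + 1, id⟩ + Am (n + 1) = ∑ i, mp (fc n i) h := by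
      rw [h1, add_assoc _ (one _), add_comm _ (∑ i, _), add_assoc, add_self2, add_zero]
    simp only [this, map_sum, mp_mp]
    exact sum_sum_faces n fun φ => mp φ h

section sub
variable {Z : Type}

noncomputable def emb (n : ℕ) : ((Sm n → Z) →₀ F2) →ₗ[F2] Ch Z :=
  pm fun g => (⟨n, g⟩ : Sx Z)

noncomputable def subd (n : ℕ) : ((Sm n → Z) →₀ F2) →ₗ[F2] ((Sm n → Z) →₀ F2) :=
  lift fun g => pm (fun u => g ∘ stdSimplex.map (mn ∘ u)) (FV n)

noncomputable def dd (n : ℕ) (c : (Sm (n + 1) → Z) →₀ F2) : (Sm n → Z) →₀ F2 :=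
  ∑ i, pm (fun g => g ∘ fc n i) c

theorem bd_emb (n : ℕ) (c : (Sm (n + 1) → Z) →₀ F2) : bd (emb (n + 1) c) = emb n (dd n c) := by
  rw [dd, map_sum, emb, bd, lift_pm]
  simp only [bdS, emb, pm_pm]
  exact lift_sum _ _

theorem exists_emb {P : Set (Sx Z)} {n : ℕ} {w : Ch Z} (hw : w ∈ Sp (P ∩ Deq Z n)) :
    ∃ c ∈ Sp {g : Sm n → Z | (⟨n, g⟩ : Sx Z) ∈ P}, emb n c = w := by
  refine sp_induction (fun w => ∃ c ∈ Sp {g : Sm n → Z | (⟨n, g⟩ : Sx Z) ∈ P}, emb n c = w)
    ⟨0, Submodule.zero_mem _, map_zero _⟩ ?_ ?_ w hw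
  · rintro _ _ ⟨c, hc, rfl⟩ ⟨d, hd, rfl⟩
    exact ⟨c + d, Submodule.add_mem _ hc hd, map_add _ _ _⟩
  · rintro ⟨k, g⟩ ⟨h1, h2⟩
    obtain rfl : k = n := h2
    exact ⟨one g, one_mem h1, pm_one _ _⟩

theorem sub_mem {n : ℕ} {P Q : Set (Sm n → Z)}
    (h : ∀ g ∈ P, ∀ τ : Fin n → Fin n, g ∘ stdSimplex.map τ ∈ Q) {c : (Sm n → Z) →₀ F2}
    (hc : c ∈ Sp P) : subd n c ∈ Sp Q :=
  lift_mem _ _ (fun g hg => pm_mem _ (fun _ _ => h g hg _) (FV_mem n)) hc

theorem col {n : ℕ} {c : (Sm (n + 1) → Z) →₀ F2} (h0 : dd n c = 0) (i : Fin (n + 1)) :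
    pm (fun g => g ∘ fc n i) (subd (n + 1) c) = 0 := by
  have h1 : pm (fun g => g ∘ fc n i) (subd (n + 1) c) =
      lift (fun g => pm (fun u => g ∘ stdSimplex.map (mn ∘ u))
        (pm (fun u => u ∘ i.succAbove) (FV (n + 1)))) c := by
    rw [subd, lin_lift]
    congr 2
    funext g
    rw [pm_pm, pm_pm]
    congr 2
    funext u
    rw [Function.comp_assoc, map_fc]
    rfl
  rw [h1]
  refine Fin.cases ?_ (fun j => ?_) i
  · have h2 : subd n (dd n c) = 0 := by rw [h0, map_zero]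
    rw [← h2, FV_zero, dd, map_sum]
    simp only [map_sum, pm_pm, subd, lift_pm]
    rw [lift_sum]
    refine Finset.sum_congr rfl fun i _ => ?_
    congr 2
    funext g
    congr 2
    funext u
    rw [mn_comp, ← fc_map]
    rfl
  · simp only [FV_succ, map_zero, lift_zero]

theorem sub_hom [TopologicalSpace Z] {n : ℕ} {c : (Sm (n + 1) → Z) →₀ F2}
    (hc : c ∈ Sp {g | Continuous g}) (h0 : dd n c = 0) :
    ∃ h ∈ Sp (Cts Z), bd h = emb (n + 1) c + emb (n + 1) (subd (n + 1) c) := by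
  obtain ⟨h, hh, h1⟩ := models n
  obtain ⟨h', hh', h2⟩ := models_step n h hh h1
  refine ⟨lift (fun g => mp g h') c, lift_mem _ _ (fun g hg => mp_cts hg hh') hc, ?_⟩
  have h3 : lift (fun f : Sm n → Z => mp f h) (dd n c) = 0 := by rw [h0, map_zero]
  rw [dd, map_sum] at h3
  simp only [lift_pm] at h3
  rw [lin_lift]
  simp only [bd_mp, h2, map_add, map_sum, mp_mp, lift_add, lift_sum, h3, add_zero, mp_one]
  congr 1
  rw [subd, lin_lift]
  congr 2
  funext g
  rw [Am, mp_pm, emb, pm_pm]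
  rfl

end sub

end Pool.Agent.MP_20201c_gt.H91.Cv
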