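import Pool.Agent.MP_20201c_gt.H91.Defs4
import Pool.Agent.MP_20201c_gt.H91.KitM4

/-! Slices of polygonal measures by circles. -/

open MeasureTheory Set Filter Topology
open scoped ENNReal

namespace Pool.Agent.MP_20201c_gt.H91

namespace Slc

theorem two_real {α β α' β' c : ℝ} (h : α ^ 2 + β ^ 2 = 1) (h' : α' ^ 2 + β' ^ 2 = 1) (hc : 0 ≤ c)
    (hd : c ≤ |α * β' - β * α'|) : c ^ 2 / 4 + |α| + |α'| ≤ 2 := by
  have h1 : |α| ≤ 1 - β ^ 2 / 2 := by nlinarith [sq_nonneg (|α| - 1), sq_abs α]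
  have h2 : |α'| ≤ 1 - β' ^ 2 / 2 := by nlinarith [sq_nonneg (|α'| - 1), sq_abs α']
  have h3 : c ^ 2 ≤ (α * β' - β * α') ^ 2 := by
    rw [← sq_abs (α * β' - β * α')]
    exact pow_le_pow_left₀ hc hd 2
  have h4 : (α * β' - β * α') ^ 2 ≤ (α ^ 2 + α' ^ 2) * (β' ^ 2 + β ^ 2) := by
    nlinarith [sq_nonneg (α * β + α' * β')]
  have h5 : α ^ 2 + α' ^ 2 ≤ 2 := by nlinarith [sq_nonneg β, sq_nonneg β']
  have h6 : (α ^ 2 + α' ^ 2) * (β' ^ 2 + β ^ 2) ≤ 2 * (β' ^ 2 + β ^ 2) :=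
    mul_le_mul_of_nonneg_right h5 (by positivity)
  linarith

theorem norm_sq_eq {e : ℂ} (he : e.re ^ 2 + e.im ^ 2 = 1) (u : ℂ) :
    ‖u‖ ^ 2 = ip e u ^ 2 + dt e u ^ 2 := by
  rw [Complex.sq_norm, Complex.normSq_apply]
  unfold ip dt
  have : (e.re * u.re + e.im * u.im) ^ 2 + (e.re * u.im - e.im * u.re) ^ 2 =
      (e.re ^ 2 + e.im ^ 2) * (u.re * u.re + u.im * u.im) := by ring
  rw [this, he, one_mul]

theorem two_pt {e u u' : ℂ} (he : e.re ^ 2 + e.im ^ 2 = 1) (hu : u ≠ 0) (hu' : u' ≠ 0) {c : ℝ}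
    (hc : 0 ≤ c) (hd : c * (‖u‖ * ‖u'‖) ≤ |dt u u'|) :
    c ^ 2 / 4 + |ip e u| / ‖u‖ + |ip e u'| / ‖u'‖ ≤ 2 := by
  have p : 0 < ‖u‖ := norm_pos_iff.2 hu
  have p' : 0 < ‖u'‖ := norm_pos_iff.2 hu'
  have h1 : (ip e u / ‖u‖) ^ 2 + (dt e u / ‖u‖) ^ 2 = 1 := by
    rw [div_pow, div_pow, ← add_div, ← norm_sq_eq he, div_self (by positivity)]
  have h2 : (ip e u' / ‖u'‖) ^ 2 + (dt e u' / ‖u'‖) ^ 2 = 1 := by
    rw [div_pow, div_pow, ← add_div, ← norm_sq_eq he, div_self (by positivity)]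
  have h3 : ip e u * dt e u' - dt e u * ip e u' = dt u u' := by
    unfold ip dt
    have : (e.re * u.re + e.im * u.im) * (e.re * u'.im - e.im * u'.re) -
        (e.re * u.im - e.im * u.re) * (e.re * u'.re + e.im * u'.im) =
        (e.re ^ 2 + e.im ^ 2) * (u.re * u'.im - u.im * u'.re) := by ring
    rw [this, he, one_mul]
  have h4 : ip e u / ‖u‖ * (dt e u' / ‖u'‖) - dt e u / ‖u‖ * (ip e u' / ‖u'‖) =
      dt u u' / (‖u‖ * ‖u'‖) := by
    rw [← h3]; field_simp
  have h5 := two_real h1 h2 hc (by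
    rw [h4, abs_div, abs_of_pos (mul_pos p p'), le_div_iff₀ (mul_pos p p')]; exact hd)
  rwa [abs_div, abs_div, abs_of_pos p, abs_of_pos p'] at h5

/-- The parameter of an intersection point. -/
noncomputable def tt (L s h σ R : ℝ) : ℝ := (s + σ * √(R ^ 2 - h ^ 2)) / L

theorem meas_tt (L s h σ : ℝ) : Measurable (tt L s h σ) := by
  unfold tt; fun_prop

theorem tt_lin {L : ℝ} (hL : 0 < L) (s h σ R : ℝ) :
    L * tt L s h σ R - s = σ * √(R ^ 2 - h ^ 2) := by
  unfold tt; field_simp; ring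

theorem tt_sq {L s h σ R : ℝ} (hL : 0 < L) (hh : 0 ≤ h) (hσ : σ = 1 ∨ σ = -1) (hR : h < R) :
    (L * tt L s h σ R - s) ^ 2 + h ^ 2 = R ^ 2 := by
  have h1 : 0 ≤ R ^ 2 - h ^ 2 := by nlinarith
  have h2 : σ ^ 2 = 1 := by rcases hσ with rfl | rfl <;> norm_num
  rw [tt_lin hL, mul_pow, Real.sq_sqrt h1, h2]
  ring

theorem meas_set (L s h σ : ℝ) : MeasurableSet {R : ℝ | h < R ∧ tt L s h σ R ∈ Icc (0 : ℝ) 1} :=
  measurableSet_Ioi.inter (meas_tt L s h σ measurableSet_Icc)

open Classical in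
theorem half {L s h σ : ℝ} (hL : 0 < L) (hh : 0 ≤ h) (hσ : σ = 1 ∨ σ = -1) (g : ℝ → ℝ≥0∞) :
    ∫⁻ R in Ioi (0 : ℝ), (if h < R ∧ tt L s h σ R ∈ Icc (0 : ℝ) 1 then g (tt L s h σ R) else 0) =
      ∫⁻ t in {t : ℝ | t ∈ Icc (0 : ℝ) 1 ∧ 0 < σ * (L * t - s)},
        ENNReal.ofReal (L * (|L * t - s| / √((L * t - s) ^ 2 + h ^ 2))) * g t := by
  have hσ2 : σ ^ 2 = 1 := by rcases hσ with rfl | rfl <;> norm_num
  obtain ⟨I, hI⟩ : ∃ I, I = {t : ℝ | t ∈ Icc (0 : ℝ) 1 ∧ 0 < σ * (L * t - s)} := ⟨_, rfl⟩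
  obtain ⟨S, hS⟩ : ∃ S, S = {R : ℝ | h < R ∧ tt L s h σ R ∈ Icc (0 : ℝ) 1} := ⟨_, rfl⟩
  have hIm : MeasurableSet I := by
    rw [hI]
    have hm : Measurable fun t : ℝ => σ * (L * t - s) := by fun_prop
    exact measurableSet_Icc.inter (measurableSet_lt measurable_const hm)
  have hSm : MeasurableSet S := hS ▸ meas_set L s h σ
  have hne : ∀ t ∈ I, L * t - s ≠ 0 := by
    intro t ht h0
    rw [hI] at ht
    have h1 := ht.2
    rw [h0, mul_zero] at h1
    exact lt_irrefl _ h1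
  have hpos : ∀ t ∈ I, 0 < (L * t - s) ^ 2 + h ^ 2 := fun t ht => by
    have := hne t ht
    positivity
  have hinv : ∀ t ∈ I, tt L s h σ √((L * t - s) ^ 2 + h ^ 2) = t := by
    intro t ht
    have h1 : (L * t - s) ^ 2 = (σ * (L * t - s)) ^ 2 := by rw [mul_pow, hσ2, one_mul]
    have h2 : 0 < σ * (L * t - s) := by rw [hI] at ht; exact ht.2
    unfold tt
    rw [Real.sq_sqrt (hpos t ht).le, add_sub_cancel_right, h1, Real.sqrt_sq h2.le, ← mul_assoc,
      ← sq, hσ2]
    field_simp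
    ring
  have himg : (fun t => √((L * t - s) ^ 2 + h ^ 2)) '' I = S := by
    ext R
    constructor
    · rintro ⟨t, ht, rfl⟩
      rw [hS]
      refine ⟨Real.lt_sqrt_of_sq_lt ?_, ?_⟩
      · have := hne t ht
        have h1 : 0 < (L * t - s) ^ 2 := by positivity
        linarith
      · have h1 := hinv t ht
        rw [hI] at ht
        exact h1.symm ▸ ht.1
    · intro hR
      rw [hS] at hR
      refine ⟨tt L s h σ R, ?_, ?_⟩
      · rw [hI]
        refine ⟨hR.2, ?_⟩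
        rw [tt_lin hL, ← mul_assoc, ← sq, hσ2, one_mul]
        exact Real.sqrt_pos.2 (by nlinarith [hR.1])
      · show √((L * tt L s h σ R - s) ^ 2 + h ^ 2) = R
        rw [tt_sq hL hh hσ hR.1, Real.sqrt_sq (hh.trans hR.1.le)]
  have hder : ∀ t ∈ I, HasDerivWithinAt (fun t => √((L * t - s) ^ 2 + h ^ 2))
      (L * ((L * t - s) / √((L * t - s) ^ 2 + h ^ 2))) I t := by
    intro t ht
    have h1 : HasDerivAt (fun t : ℝ => (L * t - s) ^ 2 + h ^ 2) (2 * (L * t - s) * L) t := by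
      have h2 : HasDerivAt (fun t : ℝ => L * t - s) L t := by
        simpa using ((hasDerivAt_id t).const_mul L).sub_const s
      simpa using (h2.pow 2).add_const (h ^ 2)
    have h3 := h1.sqrt (hpos t ht).ne'
    have h4 : 0 < √((L * t - s) ^ 2 + h ^ 2) := Real.sqrt_pos.2 (hpos t ht)
    have h5 : 2 * (L * t - s) * L / (2 * √((L * t - s) ^ 2 + h ^ 2)) =
        L * ((L * t - s) / √((L * t - s) ^ 2 + h ^ 2)) := by field_simp
    rw [h5] at h3
    exact h3.hasDerivWithinAt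
  have hinj : InjOn (fun t => √((L * t - s) ^ 2 + h ^ 2)) I := by
    intro t ht t' ht' he
    rw [← hinv t ht, ← hinv t' ht']
    exact congrArg _ he
  have hcv := lintegral_image_eq_lintegral_abs_deriv_mul hIm hder hinj fun R => g (tt L s h σ R)
  rw [himg] at hcv
  have hl : (fun R => if h < R ∧ tt L s h σ R ∈ Icc (0 : ℝ) 1 then g (tt L s h σ R) else 0) =
      S.indicator fun R => g (tt L s h σ R) := by
    funext R
    by_cases hR : h < R ∧ tt L s h σ R ∈ Icc (0 : ℝ) 1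
    · rw [if_pos hR, indicator_of_mem (by rw [hS]; exact hR)]
    · rw [if_neg hR, indicator_of_notMem (by rw [hS]; exact hR)]
  have hsub : S ⊆ Ioi 0 := fun R hR => by
    rw [hS] at hR
    exact hh.trans_lt hR.1
  rw [hl, lintegral_indicator hSm, Measure.restrict_restrict hSm, inter_eq_left.2 hsub, hcv, ← hI]
  refine setLIntegral_congr_fun hIm fun t ht => ?_
  show _ * g (tt L s h σ √((L * t - s) ^ 2 + h ^ 2)) = _
  rw [hinv t ht, abs_mul, abs_div, abs_of_pos hL, abs_of_nonneg (Real.sqrt_nonneg _)]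

theorem sys_zero : SliceSys 0 (fun _ _ => 0) fun _ => 0 where
  par := fun _ => ⟨∅, finite_empty, fun R _ _ z _ => by
    rw [Measure.restrict_zero, bdy_zero]; simp⟩
  sph := fun _ _ z hz => absurd hz (Multiset.notMem_zero z)
  le := fun _ => le_rfl
  meas := fun _ _ _ => by simp
  coarea := fun _ _ _ => by simp
  two := fun _ _ _ _ _ _ _ => by simp

theorem sys_add {T T' : Ms} {Sl Sl' : ℂ → ℝ → Multiset ℂ} {nu nu' : ℂ → Ms} (hT : Poly univ T)
    (hT' : Poly univ T') (h : SliceSys T Sl nu) (h' : SliceSys T' Sl' nu') :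
    SliceSys (T + T') (fun y R => Sl y R + Sl' y R) fun y => nu y + nu' y where
  par := fun y => by
    obtain ⟨X, hX, h1⟩ := h.par y
    obtain ⟨X', hX', h2⟩ := h'.par y
    refine ⟨X ∪ X', hX.union hX', fun R hR hn z hz => ?_⟩
    rw [Measure.restrict_add, bdy_add (hT.restrict_cb convex_univ (mem_univ y) hR)
      (hT'.restrict_cb convex_univ (mem_univ y) hR), h1 R hR (fun hx => hn (Or.inl hx)) z hz,
      h2 R hR (fun hx => hn (Or.inr hx)) z hz, Multiset.count_add, Nat.cast_add]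
  sph := fun y R z hz => (Multiset.mem_add.1 hz).elim (h.sph y R z) (h'.sph y R z)
  le := fun y => add_le_add (h.le y) (h'.le y)
  meas := fun y f hf => by
    simp only [Multiset.map_add, Multiset.sum_add]
    exact (h.meas y f hf).add (h'.meas y f hf)
  coarea := fun y f hf => by
    simp only [Multiset.map_add, Multiset.sum_add]
    rw [lintegral_add_left' (h.meas y f hf), lintegral_add_measure, h.coarea y f hf,
      h'.coarea y f hf]
  two := fun y y' A c hA hc hx => by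
    have h1 := add_le_add (h.two y y' A c hA hc hx) (h'.two y y' A c hA hc hx)
    simp only [Measure.add_apply]
    refine le_trans (le_of_eq ?_) (h1.trans (le_of_eq ?_)) <;> ring

/-- The radial density. -/
noncomputable def dens (e y x : ℂ) : ℝ≥0∞ := ENNReal.ofReal (|ip e (x - y)| / ‖x - y‖)

theorem meas_dens (e y : ℂ) : Measurable (dens e y) := by
  unfold dens ip
  fun_prop

open Classical in
/-- One of the two intersection points. -/
noncomputable def pt (a e : ℂ) (L σ : ℝ) (y : ℂ) (R : ℝ) : Multiset ℂ :=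
  if |dt e (y - a)| < R ∧ tt L (ip e (y - a)) |dt e (y - a)| σ R ∈ Icc (0 : ℝ) 1 then
    {a + tt L (ip e (y - a)) |dt e (y - a)| σ R • (L • e)} else 0

section seg
variable {a e : ℂ} {L : ℝ}

theorem ip_line (he : e.re ^ 2 + e.im ^ 2 = 1) (y : ℂ) (t : ℝ) :
    ip e (a + t • (L • e) - y) = L * t - ip e (y - a) := by
  unfold ip
  simp only [Complex.sub_re, Complex.add_re, Complex.smul_re, Complex.sub_im, Complex.add_im,
    Complex.smul_im, smul_eq_mul]
  linear_combination (L * t) * he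

theorem norm_line (he : e.re ^ 2 + e.im ^ 2 = 1) (y : ℂ) (t : ℝ) :
    ‖a + t • (L • e) - y‖ ^ 2 = (L * t - ip e (y - a)) ^ 2 + |dt e (y - a)| ^ 2 := by
  rw [norm_sq_eq he, ip_line he, sq_abs]
  congr 1
  unfold dt
  simp only [Complex.sub_re, Complex.add_re, Complex.smul_re, Complex.sub_im, Complex.add_im,
    Complex.smul_im, smul_eq_mul]
  ring

open Classical in
theorem pt_sum (σ : ℝ) (y : ℂ) (f : ℂ → ℝ≥0∞) (R : ℝ) : ((pt a e L σ y R).map f).sum =
    if |dt e (y - a)| < R ∧ tt L (ip e (y - a)) |dt e (y - a)| σ R ∈ Icc (0 : ℝ) 1 then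
      f (a + tt L (ip e (y - a)) |dt e (y - a)| σ R • (L • e)) else 0 := by
  unfold pt
  split_ifs <;> simp

theorem pt_meas (σ : ℝ) (y : ℂ) {f : ℂ → ℝ≥0∞} (hf : Measurable f) :
    Measurable fun R => ((pt a e L σ y R).map f).sum := by
  simp only [pt_sum]
  exact Measurable.ite (meas_set _ _ _ _)
    (hf.comp ((m1_meas_line a (L • e)).comp (meas_tt _ _ _ _))) measurable_const

theorem pt_sph (he : e.re ^ 2 + e.im ^ 2 = 1) (hL : 0 < L) {σ : ℝ} (hσ : σ = 1 ∨ σ = -1) (y : ℂ)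
    (R : ℝ) : ∀ z ∈ pt a e L σ y R, z ∈ Metric.sphere y R := by
  intro z hz
  unfold pt at hz
  split_ifs at hz with h
  · rw [Multiset.mem_singleton] at hz
    have h1 := norm_line (a := a) (L := L) he y (tt L (ip e (y - a)) |dt e (y - a)| σ R)
    rw [tt_sq hL (abs_nonneg _) hσ h.1, ← hz] at h1
    rw [mem_sphere_iff_norm]
    exact (pow_left_inj₀ (norm_nonneg _) ((abs_nonneg _).trans h.1.le) two_ne_zero).1 h1
  · exact absurd hz (Multiset.notMem_zero z)

theorem seg_coarea (he : e.re ^ 2 + e.im ^ 2 = 1) (hL : 0 < L) (y : ℂ) {f : ℂ → ℝ≥0∞}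
    (hf : Measurable f) :
    ∫⁻ R in Ioi (0 : ℝ), ((pt a e L (-1) y R + pt a e L 1 y R).map f).sum =
      ∫⁻ x, f x ∂((sg a (a + L • e)).withDensity (dens e y)) := by
  have hn : ‖e‖ = 1 := by
    have h1 : ‖e‖ ^ 2 = 1 := by rw [Complex.sq_norm, Complex.normSq_apply]; linarith
    exact (pow_eq_one_iff_of_nonneg (norm_nonneg _) two_ne_zero).1 h1
  simp only [Multiset.map_add, Multiset.sum_add]
  rw [lintegral_add_left (pt_meas _ y hf), lintegral_withDensity_eq_lintegral_mul _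
    (meas_dens e y) hf, sg_lintegral _ _ ((meas_dens e y).mul hf), add_sub_cancel_left, norm_smul,
    hn, mul_one, Real.norm_of_nonneg hL.le]
  simp only [pt_sum]
  rw [half hL (abs_nonneg _) (Or.inr rfl) fun t => f (a + t • (L • e)),
    half hL (abs_nonneg _) (Or.inl rfl) fun t => f (a + t • (L • e)),
    ← lintegral_const_mul' _ _ ENNReal.ofReal_ne_top]
  have hm : ∀ σ : ℝ, MeasurableSet
      {t : ℝ | t ∈ Icc (0 : ℝ) 1 ∧ 0 < σ * (L * t - ip e (y - a))} := fun σ => by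
    have hm : Measurable fun t : ℝ => σ * (L * t - ip e (y - a)) := by fun_prop
    exact measurableSet_Icc.inter (measurableSet_lt measurable_const hm)
  have hF : Measurable fun t : ℝ => ENNReal.ofReal (L * (|L * t - ip e (y - a)| /
      √((L * t - ip e (y - a)) ^ 2 + |dt e (y - a)| ^ 2))) * f (a + t • (L • e)) :=
    Measurable.mul (by fun_prop) (hf.comp (m1_meas_line a (L • e)))
  rw [← lintegral_indicator (hm _), ← lintegral_indicator (hm _),
    ← lintegral_indicator measurableSet_Icc, ← lintegral_add_left (hF.indicator (hm _))]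
  refine lintegral_congr fun t => ?_
  have hv : ENNReal.ofReal L * (dens e y * f) (a + t • (L • e)) =
      ENNReal.ofReal (L * (|L * t - ip e (y - a)| /
        √((L * t - ip e (y - a)) ^ 2 + |dt e (y - a)| ^ 2))) * f (a + t • (L • e)) := by
    rw [Pi.mul_apply, ← mul_assoc, dens, ← ENNReal.ofReal_mul hL.le, ip_line he, ← norm_line he,
      Real.sqrt_sq (norm_nonneg _)]
  by_cases ht : t ∈ Icc (0 : ℝ) 1
  · rw [indicator_of_mem ht, hv]
    rcases lt_trichotomy (L * t - ip e (y - a)) 0 with h | h | h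
    · rw [indicator_of_mem (show t ∈ {t : ℝ | t ∈ Icc (0 : ℝ) 1 ∧
          0 < -1 * (L * t - ip e (y - a))} from ⟨ht, by linarith⟩),
        indicator_of_notMem (fun hx => by linarith [hx.2]), add_zero]
    · rw [indicator_of_notMem (fun hx => by linarith [hx.2]),
        indicator_of_notMem (fun hx => by linarith [hx.2]), h]
      simp
    · rw [indicator_of_notMem (fun hx => by linarith [hx.2]),
        indicator_of_mem (show t ∈ {t : ℝ | t ∈ Icc (0 : ℝ) 1 ∧
          0 < 1 * (L * t - ip e (y - a))} from ⟨ht, by linarith⟩), zero_add]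
  · rw [indicator_of_notMem ht, indicator_of_notMem (fun hx => ht hx.1),
      indicator_of_notMem (fun hx => ht hx.1), add_zero]

open Classical in
theorem seg_par (he : e.re ^ 2 + e.im ^ 2 = 1) (hL : 0 < L) (y : ℂ) {R : ℝ} (hR : 0 < R)
    (h0 : R ≠ |dt e (y - a)|) (ha : R ≠ ‖a - y‖) (hb : R ≠ ‖a + L • e - y‖) {z : ℂ}
    (hz : z ∈ Metric.sphere y R) :
    bdy ((sg a (a + L • e)).restrict (cb y R)) z =
      ((pt a e L (-1) y R + pt a e L 1 y R).count z : F2) := by
  have hmem : ∀ t : ℝ, a + t • (a + L • e - a) ∈ cb y R ↔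
      (L * t - ip e (y - a)) ^ 2 + |dt e (y - a)| ^ 2 ≤ R ^ 2 := by
    intro t
    rw [add_sub_cancel_left, mem_closedBall_iff_norm, ← norm_line he,
      pow_le_pow_iff_left₀ (norm_nonneg _) hR.le two_ne_zero]
  have hzero : (∀ t ∈ Icc (0 : ℝ) 1, a + t • (a + L • e - a) ∉ cb y R) →
      (sg a (a + L • e)).restrict (cb y R) = 0 := by
    intro h
    refine sg_restrict_of_disjoint (disjoint_left.2 fun x hx => ?_)
    obtain ⟨t, ht, rfl⟩ := m1_seg_ex hx
    exact h t ht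
  rcases lt_or_gt_of_ne h0 with hlt | hlt
  · rw [hzero fun t _ hx => by
      have h1 := (hmem t).1 hx
      nlinarith [sq_nonneg (L * t - ip e (y - a))], bdy_zero]
    unfold pt
    rw [if_neg fun h => lt_asymm h.1 hlt, if_neg fun h => lt_asymm h.1 hlt]
    simp
  obtain ⟨q, hq⟩ : ∃ q, q = √(R ^ 2 - |dt e (y - a)| ^ 2) := ⟨_, rfl⟩
  have hq0 : 0 < q := hq ▸ Real.sqrt_pos.2 (by nlinarith [abs_nonneg (dt e (y - a))])
  have hq2 : q ^ 2 = R ^ 2 - |dt e (y - a)| ^ 2 :=
    hq ▸ Real.sq_sqrt (by nlinarith [abs_nonneg (dt e (y - a))])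
  obtain ⟨u, hu⟩ : ∃ u, u = tt L (ip e (y - a)) |dt e (y - a)| (-1) R := ⟨_, rfl⟩
  obtain ⟨v, hv⟩ : ∃ v, v = tt L (ip e (y - a)) |dt e (y - a)| 1 R := ⟨_, rfl⟩
  have hu1 : L * u - ip e (y - a) = -q := by rw [hu, tt_lin hL, ← hq]; ring
  have hv1 : L * v - ip e (y - a) = q := by rw [hv, tt_lin hL, ← hq]; ring
  have huv : u < v := by
    by_contra hc
    have := mul_le_mul_of_nonneg_left (not_lt.1 hc) hL.le
    linarith
  have hmem' : ∀ t : ℝ, a + t • (a + L • e - a) ∈ cb y R ↔ u ≤ t ∧ t ≤ v := by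
    intro t
    rw [hmem, ← le_sub_iff_add_le, ← hq2, sq_le_sq, abs_of_pos hq0, abs_le, ← hu1]
    conv_lhs => rw [← hv1]
    rw [sub_le_sub_iff_right, sub_le_sub_iff_right, mul_le_mul_iff_right₀ hL,
      mul_le_mul_iff_right₀ hL]
  have hza : a ≠ z := by
    rintro rfl
    exact ha (mem_sphere_iff_norm.1 hz).symm
  have hzb : a + L • e ≠ z := by
    rintro rfl
    exact hb (mem_sphere_iff_norm.1 hz).symm
  have hc : ∀ t : ℝ, ((if |dt e (y - a)| < R ∧ t ∈ Icc (0 : ℝ) 1 then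
      ({a + t • (L • e)} : Multiset ℂ) else 0).count z : F2) =
      if t ∈ Icc (0 : ℝ) 1 ∧ a + t • (L • e) = z then 1 else 0 := by
    intro t
    by_cases h1 : t ∈ Icc (0 : ℝ) 1
    · rw [if_pos ⟨hlt, h1⟩, Multiset.count_singleton]
      by_cases h2 : a + t • (L • e) = z
      · rw [if_pos h2.symm, if_pos ⟨h1, h2⟩, Nat.cast_one]
      · rw [if_neg fun h => h2 h.symm, if_neg fun h => h2 h.2, Nat.cast_zero]
    · rw [if_neg fun h => h1 h.2, if_neg fun h => h1 h.1]
      simp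
  unfold pt
  rw [Multiset.count_add, Nat.cast_add, ← hu, ← hv, hc, hc]
  by_cases hout : 1 < u ∨ v < 0
  · rw [hzero fun t ht hx => by
      have h1 := (hmem' t).1 hx
      rcases hout with h | h <;> linarith [ht.1, ht.2, h1.1, h1.2], bdy_zero,
      if_neg fun h => by rcases hout with h' | h' <;> linarith [h.1.1, h.1.2],
      if_neg fun h => by rcases hout with h' | h' <;> linarith [h.1.1, h.1.2], add_zero]
  rw [not_or, not_lt, not_lt] at hout
  rw [sg_restrict_Icc a (a + L • e) Metric.isClosed_closedBall.measurableSet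
    (u := max 0 u) (v := min 1 v) (le_max_left _ _)
    (max_le (le_min zero_le_one hout.2) (le_min hout.1 huv.le)) (min_le_left _ _)
    (fun t ht => (hmem' t).2 ⟨(le_max_right _ _).trans ht.1.le, ht.2.le.trans (min_le_right _ _)⟩)
    (fun t ht h hx => by
      have h1 := (hmem' t).1 hx
      rcases h with h | h
      · exact absurd (max_le ht.1 h1.1) (not_le.2 h)
      · exact absurd (le_min ht.2 h1.2) (not_le.2 h)), bdy_sg, add_sub_cancel_left]
  congr 1
  · rcases le_or_gt 0 u with h | h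
    · rw [max_eq_right h]
      exact if_congr ⟨fun h' => ⟨⟨h, hout.1⟩, h'⟩, fun h' => h'.2⟩ rfl rfl
    · rw [max_eq_left h.le, zero_smul, add_zero, if_neg hza, if_neg fun h' => by
        linarith [h'.1.1]]
  · rcases le_or_gt v 1 with h | h
    · rw [min_eq_right h]
      exact if_congr ⟨fun h' => ⟨⟨hout.2, h⟩, h'⟩, fun h' => h'.2⟩ rfl rfl
    · rw [min_eq_left h.le, one_smul, if_neg hzb, if_neg fun h' => by linarith [h'.1.2]]

theorem sys_seg (he : e.re ^ 2 + e.im ^ 2 = 1) (hL : 0 < L) :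
    SliceSys (sg a (a + L • e)) (fun y R => pt a e L (-1) y R + pt a e L 1 y R)
      fun y => (sg a (a + L • e)).withDensity (dens e y) where
  par := fun y => ⟨{|dt e (y - a)|, ‖a - y‖, ‖a + L • e - y‖}, toFinite _, fun R hR hn z hz => by
    simp only [mem_insert_iff, mem_singleton_iff, not_or] at hn
    exact seg_par he hL y hR hn.1 hn.2.1 hn.2.2 hz⟩
  sph := fun y R z hz => (Multiset.mem_add.1 hz).elim (pt_sph he hL (Or.inr rfl) y R z)
    (pt_sph he hL (Or.inl rfl) y R z)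
  le := fun y => by
    refine (withDensity_mono (g := fun _ => 1) (Eventually.of_forall fun x => ?_)).trans
      (le_of_eq (by simp))
    refine ENNReal.ofReal_le_one.2 (div_le_one_of_le₀ ?_ (norm_nonneg _))
    rw [← abs_of_nonneg (norm_nonneg (x - y)), ← sq_le_sq, norm_sq_eq he]
    nlinarith [sq_nonneg (dt e (x - y))]
  meas := fun y f hf => by
    simp only [Multiset.map_add, Multiset.sum_add]
    exact ((pt_meas _ y hf).add (pt_meas _ y hf)).aemeasurable
  coarea := fun y f hf => seg_coarea he hL y hf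
  two := fun y y' A c hA hc hx => by
    rw [withDensity_apply _ hA, withDensity_apply _ hA, ← setLIntegral_const, ← setLIntegral_const,
      ← lintegral_add_left measurable_const,
      ← lintegral_add_right _ (meas_dens e y')]
    refine setLIntegral_mono' hA fun x hxA => ?_
    obtain ⟨h1, h2, h3⟩ := hx x hxA
    have h4 := two_pt he (sub_ne_zero.2 h1) (sub_ne_zero.2 h2) hc h3
    unfold dens
    rw [← ENNReal.ofReal_add (by positivity) (by positivity),
      ← ENNReal.ofReal_add (by positivity) (by positivity)]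
    exact (ENNReal.ofReal_le_ofReal h4).trans (le_of_eq (by simp))

end seg

theorem exists_sg (a b : ℂ) : ∃ (Sl : ℂ → ℝ → Multiset ℂ) (nu : ℂ → Ms),
    SliceSys (sg a b) Sl nu := by
  by_cases hab : a = b
  · rw [hab, sg_self]
    exact ⟨_, _, sys_zero⟩
  have hL : 0 < ‖b - a‖ := norm_pos_iff.2 (sub_ne_zero.2 (Ne.symm hab))
  have he : (‖b - a‖⁻¹ • (b - a)).re ^ 2 + (‖b - a‖⁻¹ • (b - a)).im ^ 2 = 1 := by
    have h1 : ‖‖b - a‖⁻¹ • (b - a)‖ ^ 2 = 1 := by
      rw [norm_smul, norm_inv, norm_norm, inv_mul_cancel₀ hL.ne', one_pow]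
    rw [Complex.sq_norm, Complex.normSq_apply] at h1
    linarith
  have h := sys_seg (a := a) he hL
  rw [smul_smul, mul_inv_cancel₀ hL.ne', one_smul, add_sub_cancel] at h
  exact ⟨_, _, h⟩

end Slc

theorem exists_slice {W : Set ℂ} {T : Ms} (hT : Poly W T) :
    ∃ (Sl : ℂ → ℝ → Multiset ℂ) (nu : ℂ → Ms), SliceSys T Sl nu := by
  classical
  obtain ⟨m, a, b, -, rfl⟩ := hT
  have key : ∀ s : Finset (Fin m), ∃ (Sl : ℂ → ℝ → Multiset ℂ) (nu : ℂ → Ms),
      SliceSys (∑ i ∈ s, sg (a i) (b i)) Sl nu := by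
    intro s
    induction s using Finset.induction_on with
    | empty => exact ⟨_, _, Slc.sys_zero⟩
    | insert i s hi ih =>
      obtain ⟨Sl, nu, h⟩ := ih
      obtain ⟨Sl', nu', h'⟩ := Slc.exists_sg (a i) (b i)
      rw [Finset.sum_insert hi]
      exact ⟨_, _, Slc.sys_add (Poly.sg (mem_univ _) (mem_univ _))
        (Poly.sum s fun j _ => Poly.sg (mem_univ _) (mem_univ _)) h' h⟩
  exact key Finset.univ

end Pool.Agent.MP_20201c_gt.H91
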