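import Pool.Agent.MP_20201c_gt.H91.Defs4

/-! An integrality lemma for the mass of discs. -/

open MeasureTheory Set Filter Topology
open scoped ENNReal

namespace Pool.Agent.MP_20201c_gt.H91

/-- If `c * (t - u) ≤ x` for all `t` slightly below `v`, then `c * (v - u) ≤ x`. -/
theorem densInt_le_of_left {c u v x : ℝ} (huv : u < v)
    (h : ∀ t, u < t → t < v → c * (t - u) ≤ x) : c * (v - u) ≤ x := by
  have hcont : ContinuousWithinAt (fun t : ℝ => c * (t - u)) (Iio v) v :=
    (by fun_prop : Continuous fun t : ℝ => c * (t - u)).continuousWithinAt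
  refine le_of_tendsto hcont.tendsto ?_
  filter_upwards [Ioo_mem_nhdsLT huv] with t ht using h t ht.1 ht.2

/-- If `x ≤ c * t` for all `t` slightly above `u`, then `x ≤ c * u`. -/
theorem densInt_le_of_right {c u v x : ℝ} (huv : u < v)
    (h : ∀ t, u < t → t < v → x ≤ c * t) : x ≤ c * u := by
  have hcont : ContinuousWithinAt (fun t : ℝ => c * t) (Ioi u) u :=
    (by fun_prop : Continuous fun t : ℝ => c * t).continuousWithinAt
  refine ge_of_tendsto hcont.tendsto ?_
  filter_upwards [Ioo_mem_nhdsGT huv] with t ht using h t ht.1 ht.2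

/-- The continuation argument for an abstract pair of functions. -/
theorem densInt_grow {m M : ℝ → ℝ} {r₁ : ℝ} (hm : ∀ a b, a ≤ b → m a ≤ m b)
    (hM : ∀ a b, a < b → M a ≤ m b)
    (h : ∀ s r, 0 < s → s < r → r < r₁ → ∀ j : ℕ, j * r < m s → (j + 1) * (r - s) ≤ M r - m s)
    (j : ℕ) {s r : ℝ} (hs : 0 < s) (hsr : s ≤ r) (hr : r < r₁) (hj : j * s < m s) :
    m s + (j + 1) * (r - s) ≤ m r := by
  set T : Set ℝ := {t | s ≤ t ∧ t ≤ r ∧ m s + (j + 1) * (t - s) ≤ m t} with hT
  have hsT : s ∈ T := ⟨le_rfl, hsr, by simp⟩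
  have hne : T.Nonempty := ⟨s, hsT⟩
  have hbd : BddAbove T := ⟨r, fun t ht => ht.2.1⟩
  set u := sSup T with hu
  have hsu : s ≤ u := le_csSup hbd hsT
  have hur : u ≤ r := csSup_le hne fun t ht => ht.2.1
  have hj0 : (0 : ℝ) ≤ j := Nat.cast_nonneg j
  have hjpos : (0 : ℝ) < j + 1 := by linarith
  have huT : m s + (j + 1) * (u - s) ≤ m u := by
    have h1 : u ≤ s + (m u - m s) / (j + 1) := by
      refine csSup_le hne fun t ht => ?_
      have h2 : m t ≤ m u := hm _ _ (le_csSup hbd ht)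
      have h3 : t - s ≤ (m u - m s) / (j + 1) := by
        rw [le_div_iff₀ hjpos]
        nlinarith [ht.2.2]
      linarith
    have h4 : u - s ≤ (m u - m s) / (j + 1) := by linarith
    rw [le_div_iff₀ hjpos] at h4
    nlinarith
  rcases hur.eq_or_lt with heq | hlt
  · rw [← heq]; exact huT
  · exfalso
    have hju : j * u < m u := by nlinarith
    have hev : ∀ᶠ t in 𝓝[>] u, (j : ℝ) * t < m u := by
      have hc : ContinuousWithinAt (fun t : ℝ => (j : ℝ) * t) (Ioi u) u :=
        (by fun_prop : Continuous fun t : ℝ => (j : ℝ) * t).continuousWithinAt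
      exact hc.tendsto.eventually (gt_mem_nhds hju)
    obtain ⟨t, ht1, ht2⟩ := (hev.and (Ioo_mem_nhdsGT hlt)).exists
    have hu0 : 0 < u := lt_of_lt_of_le hs hsu
    have key : ((j : ℝ) + 1) * (t - u) ≤ m t - m u := by
      refine densInt_le_of_left ht2.1 fun r' h1 h2 => ?_
      have h3 : (j : ℝ) * r' < m u := lt_of_le_of_lt (by nlinarith) ht1
      have h4 := h u r' hu0 h1 (by linarith [ht2.2]) j h3
      have h5 := hM r' t h2
      linarith
    have htT : t ∈ T := ⟨by linarith [ht2.1], ht2.2.le, by nlinarith⟩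
    have := le_csSup hbd htT
    linarith [ht2.1]

theorem dens_int (μ : Ms) [IsFiniteMeasure μ] (y : ℂ) {r₁ : ℝ} (hr : 0 < r₁)
    (h : ∀ s r, 0 < s → s < r → r < r₁ → ∀ j : ℕ, j * r < μ.real (Metric.ball y s) →
      (j + 1) * (r - s) ≤ μ.real (cb y r) - μ.real (Metric.ball y s)) :
    ∃ (k : ℕ) (r₀ : ℝ), 0 < r₀ ∧ r₀ ≤ r₁ ∧ ∀ r ∈ Ioo 0 r₀, μ.real (cb y r) = k * r := by
  classical
  set m : ℝ → ℝ := fun s => μ.real (Metric.ball y s) with hmdef
  set M : ℝ → ℝ := fun s => μ.real (cb y s) with hMdef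
  have hm : ∀ a b, a ≤ b → m a ≤ m b := fun a b hab =>
    measureReal_mono (Metric.ball_subset_ball hab)
  have hM : ∀ a b, a < b → M a ≤ m b := fun a b hab =>
    measureReal_mono (Metric.closedBall_subset_ball hab)
  have hmM : ∀ a, m a ≤ M a := fun a => measureReal_mono Metric.ball_subset_closedBall
  have hm0 : ∀ a, 0 ≤ m a := fun a => measureReal_nonneg
  have grow := fun (j : ℕ) {s r : ℝ} (hs : 0 < s) (hsr : s ≤ r) (hr : r < r₁)
    (hj : j * s < m s) => densInt_grow (m := m) (M := M) hm hM h j hs hsr hr hj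
  have hex : ∃ k : ℕ, ∃ s₀, 0 < s₀ ∧ s₀ < r₁ ∧ m s₀ ≤ k * s₀ := by
    obtain ⟨k, hk⟩ := exists_nat_ge (m (r₁ / 2) / (r₁ / 2))
    refine ⟨k, r₁ / 2, by linarith, by linarith, ?_⟩
    rwa [div_le_iff₀ (by linarith)] at hk
  obtain ⟨s₀, hs₀, hs₁, hle⟩ := Nat.find_spec hex
  have hmin : ∀ j < Nat.find hex, ∀ s, 0 < s → s < r₁ → j * s < m s := by
    intro j hj s hs hs'
    by_contra hc
    exact Nat.find_min hex hj ⟨s, hs, hs', not_lt.1 hc⟩
  set k := Nat.find hex with hk
  refine ⟨k, s₀, hs₀, hs₁.le, fun r hr' => le_antisymm ?_ ?_⟩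
  · refine densInt_le_of_right hr'.2 fun t h1 h2 => (hM r t h1).trans ?_
    by_contra hc
    have h3 := grow k (hr'.1.trans h1) h2.le hs₁ (not_le.1 hc)
    have h4 := not_le.1 hc
    nlinarith
  · rcases Nat.eq_zero_or_pos k with h0 | h0
    · rw [h0]; simp
    · obtain ⟨j, hj⟩ : ∃ j, k = j + 1 := ⟨k - 1, by omega⟩
      have hjk : j < k := by omega
      have hrr : r < r₁ := hr'.2.trans hs₁
      have key : -M r ≤ ((j : ℝ) + 1) * 0 - (j + 1) * r := by
        have : ((j : ℝ) + 1) * r - M r ≤ (j + 1) * 0 := by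
          refine densInt_le_of_right hr'.1 fun t h1 h2 => ?_
          have h3 := grow j h1 h2.le hrr (hmin j hjk t h1 (h2.trans hrr))
          have h4 := hmM r
          have h5 := hm0 t
          nlinarith
        linarith
      rw [hj]
      push_cast
      change _ ≤ M r
      linarith

end Pool.Agent.MP_20201c_gt.H91
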