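import Pool.Agent.MP_20201c_gt.H91.Tight_a

/-! The density hypothesis, uniform convergence of the masses and tight slices. -/

open MeasureTheory Set Filter Topology
open scoped ENNReal

namespace Pool.Agent.MP_20201c_gt.H91.TightA

variable {𝒰 : Filter ℕ} {W : Set ℂ} {T : ℕ → Ms} {μ : Ms}
  {Sl : ℕ → ℂ → ℝ → Multiset ℂ} {nu : ℕ → ℂ → Ms} {y : ℂ} {O : ℕ → ℝ → Finset ℂ}

theorem real_le {μ ν : Ms} [IsFiniteMeasure ν] (h : μ ≤ ν) (A : Set ℂ) : μ.real A ≤ ν.real A :=
  ENNReal.toReal_mono (measure_ne_top _ _) (Measure.le_iff'.1 h A)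

theorem real_ann (ν : Ms) [IsFiniteMeasure ν] (y : ℂ) {s r : ℝ} (h : s ≤ r) :
    ν.real (cb y r \ cb y s) = ν.real (cb y r) - ν.real (cb y s) :=
  measureReal_sdiff (Metric.closedBall_subset_closedBall h) measurableSet_closedBall

theorem dens [𝒰.NeBot] (hL : Lim 𝒰 W T μ) (hS : ∀ n, SliceSys (T n) (Sl n) (nu n))
    (hO : ∀ n R, ∀ q ∈ O n R, q ∈ Metric.sphere y R ∧ bdy ((T n).restrict (cb y R)) q = 1)
    {r₁ : ℝ}
    (hA : ∀ γ, 0 < γ → Most 𝒰 r₁ fun n R => (T n).real (cb y R) - γ * R ≤ (O n R).card * R)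
    (s r : ℝ) (hs : 0 < s) (hsr : s < r) (hr : r < r₁) (j : ℕ)
    (hj : j * r < μ.real (Metric.ball y s)) :
    (j + 1) * (r - s) ≤ μ.real (cb y r) - μ.real (Metric.ball y s) := by
  have hr0 : 0 < r := hs.trans hsr
  set δ := μ.real (Metric.ball y s) - j * r with hδ
  have hδ0 : 0 < δ := by linarith
  refine le_of_forall_pos_le_add fun ε hε => ?_
  set e := min (δ / 3) (ε / 3) with he
  have he0 : 0 < e := lt_min (by linarith) (by linarith)
  have hj1 : (0 : ℝ) < j + 1 := by positivity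
  have h1 := hA (δ / 3 / r) (by positivity) (ε / 3 / (j + 1)) (by positivity)
  have h2 := hL.closed (Metric.isClosed_closedBall (x := y) (ε := r)) he0
  have h3 := hL.open (Metric.isOpen_ball (x := y) (ε := s)) he0
  obtain ⟨n, h1, h2, h3⟩ := (h1.and (h2.and h3)).exists
  have := (hL.poly n).finite
  obtain ⟨X, hX, hle⟩ := odd_le (hS n) y (hO n)
  have h4 := low_one (hS n) y (k := j + 1) (s := s) (r := r) (by positivity)
    (vol_union_fin hX h1) hs.le (fun R hR hb => by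
      have hR0 : 0 < R := hs.trans hR.1
      have hq : (T n).real (cb y R) - δ / 3 / r * R ≤ (O n R).card * R := by
        by_contra hq
        exact hb (Or.inl ⟨⟨hR0, lt_of_le_of_lt hR.2 hr⟩, hq⟩)
      have hc := Multiset.card_le_card (hle R hR0 fun hx => hb (Or.inr hx))
      refine le_trans ?_ hc
      have hm : (T n).real (Metric.ball y s) ≤ (T n).real (cb y R) :=
        measureReal_mono (Metric.ball_subset_closedBall.trans
          (Metric.closedBall_subset_closedBall hR.1.le))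
      have h5 : δ / 3 / r * R ≤ δ / 3 := by
        rw [div_mul_eq_mul_div, div_le_iff₀ hr0]
        exact mul_le_mul_of_nonneg_left hR.2 (by linarith)
      have h6 : (j : ℝ) * R ≤ j * r := mul_le_mul_of_nonneg_left hR.2 (Nat.cast_nonneg j)
      have h7 : e ≤ δ / 3 := min_le_left _ _
      have h8 : (j : ℝ) * R < (O n R).card * R := by linarith
      have h9 : (j : ℝ) < (O n R).card := lt_of_mul_lt_mul_right h8 hR0.le
      exact Nat.succ_le_of_lt (by exact_mod_cast h9))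
  have h5 := real_le ((hS n).le y) (cb y r \ cb y s)
  rw [real_ann (T n) y hsr.le] at h5
  have h6 : (T n).real (Metric.ball y s) ≤ (T n).real (cb y s) :=
    measureReal_mono Metric.ball_subset_closedBall
  have h7 : e ≤ ε / 3 := min_le_right _ _
  have h8 : ((j : ℝ) + 1) * (ε / 3 / (j + 1)) = ε / 3 := by field_simp
  push_cast at h4
  rw [mul_sub, h8] at h4
  linarith

theorem ball_eq [IsFiniteMeasure μ] {k : ℕ} {r₀ : ℝ}
    (hm : ∀ r ∈ Ioo 0 r₀, μ.real (cb y r) = k * r) {r : ℝ} (hr : r ∈ Ioo 0 r₀) :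
    μ.real (Metric.ball y r) = k * r := by
  refine le_antisymm ((measureReal_mono Metric.ball_subset_closedBall).trans (hm r hr).le) ?_
  have ht : Tendsto (fun r' : ℝ => (k : ℝ) * r') (𝓝[<] r) (𝓝 (k * r)) :=
    ((continuous_const.mul continuous_id).tendsto r).mono_left nhdsWithin_le_nhds
  refine le_of_tendsto ht ?_
  filter_upwards [Ioo_mem_nhdsLT hr.1] with r' hr'
  rw [← hm r' ⟨hr'.1, hr'.2.trans hr.2⟩]
  exact measureReal_mono (Metric.closedBall_subset_ball hr'.2)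

theorem sphere_null [IsFiniteMeasure μ] {k : ℕ} {r₀ : ℝ}
    (hm : ∀ r ∈ Ioo 0 r₀, μ.real (cb y r) = k * r) {r : ℝ} (hr : r ∈ Ioo 0 r₀) :
    μ (Metric.sphere y r) = 0 := by
  rw [← measureReal_eq_zero_iff, ← Metric.closedBall_sdiff_ball,
    measureReal_sdiff Metric.ball_subset_closedBall measurableSet_ball, ball_eq hm hr]
  have := hm r hr
  simp only [cb] at this
  rw [this, sub_self]

theorem ptw (hL : Lim 𝒰 W T μ) {k : ℕ} {r₀ : ℝ}
    (hm : ∀ r ∈ Ioo 0 r₀, μ.real (cb y r) = k * r) {r : ℝ} (hr : r ∈ Ioo 0 r₀) {ε : ℝ}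
    (hε : 0 < ε) : ∀ᶠ n in 𝒰, k * r - ε ≤ (T n).real (cb y r) ∧
      (T n).real (cb y r) ≤ k * r + ε := by
  have := hL.fin
  filter_upwards [hL.closed (Metric.isClosed_closedBall (x := y) (ε := r)) hε,
    hL.open (Metric.isOpen_ball (x := y) (ε := r)) hε] with n h1 h2
  have := (hL.poly n).finite
  have h3 : (T n).real (Metric.ball y r) ≤ (T n).real (cb y r) :=
    measureReal_mono Metric.ball_subset_closedBall
  rw [ball_eq hm hr] at h2
  have h4 := hm r hr
  simp only [cb] at h3 h4 ⊢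
  constructor <;> linarith

theorem unif (hL : Lim 𝒰 W T μ) {k : ℕ} {r₀ : ℝ}
    (hm : ∀ r ∈ Ioo 0 r₀, μ.real (cb y r) = k * r) {s t : ℝ} (hs : 0 < s) (ht : t < r₀) {ε : ℝ}
    (hε : 0 < ε) : ∀ᶠ n in 𝒰, ∀ R ∈ Icc s t, |(T n).real (cb y R) - k * R| ≤ ε := by
  have key := (isCompact_Icc (a := s) (b := t)).mem_prod_nhdsSet_of_forall (l := 𝒰)
    (s := {z : ℕ × ℝ | |(T z.1).real (cb y z.2) - k * z.2| ≤ ε}) (fun R hR => by
      have hR0 : 0 < R := hs.trans_le hR.1
      have hR1 : R < r₀ := hR.2.trans_lt ht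
      have hk : (0 : ℝ) < k + 1 := by positivity
      set d := min (ε / 4 / (k + 1)) (min (R / 2) ((r₀ - R) / 2)) with hd
      have hd0 : 0 < d := lt_min (by positivity) (lt_min (by linarith) (by linarith))
      have hd1 : d ≤ ε / 4 / (k + 1) := min_le_left _ _
      have hd2 : d ≤ R / 2 := (min_le_right _ _).trans (min_le_left _ _)
      have hd3 : d ≤ (r₀ - R) / 2 := (min_le_right _ _).trans (min_le_right _ _)
      have hkd : k * d ≤ ε / 4 := by
        rw [le_div_iff₀ hk] at hd1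
        nlinarith
      have h1 := ptw hL hm (r := R - d) ⟨by linarith, by linarith⟩ (half_pos hε)
      have h2 := ptw hL hm (r := R + d) ⟨by linarith, by linarith⟩ (half_pos hε)
      have h3 : Ioo (R - d) (R + d) ∈ 𝓝 R := Ioo_mem_nhds (by linarith) (by linarith)
      filter_upwards [prod_mem_prod (h1.and h2) h3] with z hz
      obtain ⟨⟨⟨h1, -⟩, -, h2⟩, h3, h4⟩ := hz
      have := (hL.poly z.1).finite
      have h5 : (T z.1).real (cb y (R - d)) ≤ (T z.1).real (cb y z.2) :=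
        measureReal_mono (Metric.closedBall_subset_closedBall h3.le)
      have h6 : (T z.1).real (cb y z.2) ≤ (T z.1).real (cb y (R + d)) :=
        measureReal_mono (Metric.closedBall_subset_closedBall h4.le)
      have h7 : (k : ℝ) * (R - d) ≤ k * z.2 := mul_le_mul_of_nonneg_left h3.le (Nat.cast_nonneg k)
      have h8 : (k : ℝ) * z.2 ≤ k * (R + d) := mul_le_mul_of_nonneg_left h4.le (Nat.cast_nonneg k)
      show |_| ≤ ε
      rw [abs_le]
      constructor <;> nlinarith)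
  obtain ⟨A, hA, B, hB, hAB⟩ := mem_prod_iff.1 key
  filter_upwards [hA] with n hn R hR
  exact hAB (mk_mem_prod hn (subset_of_mem_nhdsSet hB hR))

theorem most_abs (hL : Lim 𝒰 W T μ) {k : ℕ} {r₀ : ℝ}
    (hm : ∀ r ∈ Ioo 0 r₀, μ.real (cb y r) = k * r) {γ : ℝ} (hγ : 0 < γ) :
    Most 𝒰 r₀ fun n R => |(T n).real (cb y R) - k * R| ≤ γ * R := by
  refine Most.of_Icc fun s t hs ht γ' _ => ?_
  filter_upwards [unif hL hm hs ht (mul_pos hγ hs)] with n hn
  have : {R | R ∈ Icc s t ∧ ¬ |(T n).real (cb y R) - k * R| ≤ γ * R} = ∅ := by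
    refine eq_empty_of_forall_notMem fun R hR => hR.2 ((hn R hR.1).trans ?_)
    exact mul_le_mul_of_nonneg_left hR.1.1 hγ.le
  rw [this, measure_empty]
  exact zero_le

theorem most_val (hL : Lim 𝒰 W T μ) (hS : ∀ n, SliceSys (T n) (Sl n) (nu n))
    (hO : ∀ n R, ∀ q ∈ O n R, q ∈ Metric.sphere y R ∧ bdy ((T n).restrict (cb y R)) q = 1)
    {r₀ : ℝ}
    (hA : ∀ γ, 0 < γ → Most 𝒰 r₀ fun n R => (T n).real (cb y R) - γ * R ≤ (O n R).card * R)
    {k : ℕ} (hm : ∀ r ∈ Ioo 0 r₀, μ.real (cb y r) = k * r) :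
    Most 𝒰 r₀ fun n R => Sl n y R = (O n R).val ∧ (O n R).card = k := by
  have h1 : Most 𝒰 r₀ fun n R => (O n R).val ≤ Sl n y R := by
    refine Most.of_ae (Eventually.of_forall fun n => ?_)
    obtain ⟨X, hX, hle⟩ := odd_le (hS n) y (hO n)
    filter_upwards [hX.countable.ae_notMem volume] with R hR hR'
    exact hle R hR'.1 hR
  have h2 : Most 𝒰 r₀ fun n R => (O n R).val ≤ Sl n y R ∧ k ≤ (O n R).card := by
    refine (h1.and ((hA (1 / 3) (by norm_num)).and
      (most_abs hL hm (γ := 1 / 3) (by norm_num)))).mono fun n R hR hq => ⟨hq.1, ?_⟩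
    obtain ⟨-, ha, hb⟩ := hq
    rw [abs_le] at hb
    have h3 : (k : ℝ) * R < ((O n R).card + 1) * R := by nlinarith [hR.1]
    have h4 : (k : ℝ) < (O n R).card + 1 := lt_of_mul_lt_mul_right h3 hR.1.le
    exact Nat.lt_succ_iff.1 (by exact_mod_cast h4)
  refine Most.of_Icc fun s t hs ht γ hγ => ?_
  by_cases hst : s ≤ t
  swap
  · refine Eventually.of_forall fun n => ?_
    rw [Icc_eq_empty hst]
    simp
  have ht0 : 0 < t := hs.trans_le hst
  have hk : (0 : ℝ) < k + 1 := by positivity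
  filter_upwards [h2 (γ / 2 / (k + 1)) (by positivity), ptw hL hm ⟨ht0, ht⟩ (half_pos hγ)]
    with n hB hT
  have := (hL.poly n).finite
  have h3 := up (hS n) y (k := k) (t := t) (by positivity) (half_pos hγ).le hB (fun R hR hb => by
    have hq : (O n R).val ≤ Sl n y R ∧ k ≤ (O n R).card := by
      by_contra hq
      exact hb ⟨⟨hR.1, hR.2.trans_lt ht⟩, hq⟩
    exact hq.2.trans (Multiset.card_le_card hq.1)) hT.2
  have h4 : γ / 2 / (k + 1) + (γ / 2 + k * (γ / 2 / (k + 1))) = γ := by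
    field_simp
    ring
  rw [h4] at h3
  refine le_trans (measure_mono ?_) h3
  rintro R ⟨hR, hq⟩
  have hR0 : 0 < R := hs.trans_le hR.1
  refine ⟨⟨hR0, hR.2⟩, ?_⟩
  by_contra hn
  rw [not_or] at hn
  obtain ⟨hb, hc⟩ := hn
  have hq' : (O n R).val ≤ Sl n y R ∧ k ≤ (O n R).card := by
    by_contra hq
    exact hb ⟨⟨hR0, hR.2.trans_lt ht⟩, hq⟩
  have h5 : (Sl n y R).card ≤ (O n R).val.card := (not_lt.1 hc).trans hq'.2
  have h6 := Multiset.eq_of_le_of_card_le hq'.1 h5
  refine hq ⟨h6.symm, le_antisymm ?_ hq'.2⟩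
  have h7 : (O n R).card = (Sl n y R).card := by rw [← h6]; rfl
  rw [h7]
  exact not_lt.1 hc

end Pool.Agent.MP_20201c_gt.H91.TightA
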