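import Pool.Agent.MP_20201c_gt.H91.Most
import Pool.Agent.MP_20201c_gt.H91.DensInt
import Pool.Agent.MP_20201c_gt.H91.Tight_b

/-! Tightness of the slices at a point. -/

open MeasureTheory Set Filter Topology
open scoped ENNReal

namespace Pool.Agent.MP_20201c_gt.H91

namespace TightA

variable {𝒰 : Filter ℕ} {W : Set ℂ} {T : ℕ → Ms} {μ : Ms}
  {Sl : ℕ → ℂ → ℝ → Multiset ℂ} {nu : ℕ → ℂ → Ms} {y : ℂ} {O : ℕ → ℝ → Finset ℂ}

theorem dfc (hL : Lim 𝒰 W T μ) (hS : ∀ n, SliceSys (T n) (Sl n) (nu n)) {k : ℕ} {r₀ : ℝ}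
    (hm : ∀ r ∈ Ioo 0 r₀, μ.real (cb y r) = k * r)
    (hQ : Most 𝒰 r₀ fun n R => Sl n y R = (O n R).val ∧ (O n R).card = k) {r : ℝ}
    (hr : r ∈ Ioo 0 r₀) :
    Tendsto (fun n => (T n).real (cb y r) - (nu n y).real (cb y r)) 𝒰 (𝓝 0) := by
  rw [Metric.tendsto_nhds]
  intro ε hε
  have hk : (0 : ℝ) < k + 1 := by positivity
  filter_upwards [hQ (ε / 3 / (k + 1)) (by positivity),
    ptw hL hm hr (ε := ε / 3) (by linarith)] with n hB hT
  have := (hL.poly n).finite
  have := fin_nu (hS n) y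
  have h1 := low_one (hS n) y (k := k) (s := 0) (r := r) (by positivity) hB le_rfl
    (fun R hR hb => by
      have hq : Sl n y R = (O n R).val ∧ (O n R).card = k := by
        by_contra hq
        exact hb ⟨⟨hR.1, hR.2.trans_lt hr.2⟩, hq⟩
      rw [hq.1]
      exact hq.2.ge)
  have h2 : (nu n y).real (cb y r \ cb y 0) ≤ (nu n y).real (cb y r) :=
    measureReal_mono sdiff_subset
  have h3 := real_le ((hS n).le y) (cb y r)
  have h4 : (k : ℝ) * (ε / 3 / (k + 1)) ≤ ε / 3 := by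
    rw [← mul_div_assoc, div_le_iff₀ hk]
    nlinarith
  rw [Real.dist_eq, sub_zero, abs_lt]
  constructor <;> nlinarith [hT.2]

theorem avg [𝒰.NeBot] (hL : Lim 𝒰 W T μ) (hS : ∀ n, SliceSys (T n) (Sl n) (nu n)) {k : ℕ}
    {r₀ : ℝ} (hm : ∀ r ∈ Ioo 0 r₀, μ.real (cb y r) = k * r)
    (hQ : Most 𝒰 r₀ fun n R => Sl n y R = (O n R).val ∧ (O n R).card = k)
    (φ : ℂ → ℝ) (hφ : Continuous φ) (r' : ℝ) (hr' : r' ≤ r₀)
    (h : ∀ γ, 0 < γ → Most 𝒰 r' fun n R => ∑ q ∈ O n R, φ (R⁻¹ • (q - y)) ≤ γ)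
    (s r : ℝ) (hs : 0 < s) (hsr : s < r) (hr : r < r') :
    ∫ x in cb y r \ cb y s, φ (‖x - y‖⁻¹ • (x - y)) ∂μ ≤ 0 := by
  have := hL.fin
  have hsI : s ∈ Ioo 0 r₀ := ⟨hs, by linarith⟩
  have hrI : r ∈ Ioo 0 r₀ := ⟨by linarith, by linarith⟩
  set A := cb y r \ cb y s with hA
  have hAm : MeasurableSet A := measurableSet_closedBall.diff measurableSet_closedBall
  set ψ : ℂ → ℝ := fun x => φ ((max s ‖x - y‖)⁻¹ • (x - y)) with hψ
  have hpos : ∀ x : ℂ, 0 < max s ‖x - y‖ := fun x => lt_max_of_lt_left hs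
  have hψc : Continuous ψ := by
    refine hφ.comp (Continuous.smul (Continuous.inv₀ (by fun_prop) fun x => (hpos x).ne') ?_)
    fun_prop
  obtain ⟨C, hC⟩ := (isCompact_closedBall (0 : ℂ) 1).exists_bound_of_continuousOn
    hφ.continuousOn
  have hC0 : 0 ≤ C := (norm_nonneg _).trans (hC 0 (Metric.mem_closedBall_self zero_le_one))
  have hψb : ∀ x, ‖ψ x‖ ≤ C := by
    intro x
    refine hC _ ?_
    rw [mem_closedBall_zero_iff, norm_smul, norm_inv, Real.norm_of_nonneg (hpos x).le,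
      inv_mul_le_iff₀ (hpos x), mul_one]
    exact le_max_right _ _
  have he : ∫ x in A, φ (‖x - y‖⁻¹ • (x - y)) ∂μ = ∫ x in A, ψ x ∂μ := by
    refine setIntegral_congr_fun hAm fun x hx => ?_
    have : s ≤ ‖x - y‖ := by
      have := hx.2
      rw [Metric.mem_closedBall, dist_eq_norm, not_le] at this
      exact this.le
    simp only [hψ, max_eq_right this]
  rw [he]
  have hfr : μ (frontier A) = 0 := by
    refine measure_mono_null (t := Metric.sphere y r ∪ Metric.sphere y s) ?_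
      (measure_union_null (sphere_null hm hrI) (sphere_null hm hsI))
    refine (frontier_inter_subset _ _).trans ?_
    rintro x (hx | hx)
    · exact Or.inl (Metric.frontier_closedBall_subset_sphere hx.1)
    · refine Or.inr (Metric.frontier_closedBall_subset_sphere ?_)
      rw [← frontier_compl]
      exact hx.2
  have ht := hL.setIntegral hAm hfr hψc
  refine le_of_forall_pos_le_add fun η hη => ?_
  refine le_of_tendsto ht ?_
  set D := C * (2 + k) + r + 1 with hD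
  have hD0 : 0 < D := by
    have := hrI.1
    positivity
  set g := min (η / D) 1 with hg
  have hg0 : 0 < g := lt_min (by positivity) one_pos
  have hg1 : g * D ≤ η := by
    rw [← le_div_iff₀ hD0]
    exact min_le_left _ _
  have hg2 : g ≤ 1 := min_le_right _ _
  filter_upwards [((hQ.anti hr').and (h g hg0)) g hg0, ptw hL hm hrI hg0, ptw hL hm hsI hg0]
    with n hB hTr hTs
  have := (hL.poly n).finite
  have := fin_nu (hS n) y
  have h0 : ∀ x, 0 ≤ C - ψ x := fun x => by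
    have := hψb x
    rw [Real.norm_eq_abs, abs_le] at this
    linarith [this.2]
  have hi : ∀ (ν : Ms) [IsFiniteMeasure ν], Integrable ψ ν := fun ν _ =>
    Integrable.of_bound hψc.aestronglyMeasurable C (Eventually.of_forall hψb)
  have hi' : ∀ (ν : Ms) [IsFiniteMeasure ν], Integrable (fun x => C - ψ x) ν := fun ν _ =>
    (integrable_const C).sub (hi ν)
  have h1 := low (hS n) y (s := s) (r := r) (c := max (k * C - g) 0) hg0.le hB hs.le
    (h := fun x => C - ψ x) (continuous_const.sub hψc).measurable h0 (hi' _) (le_max_right _ _)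
    (fun R hR hb => by
      have hR0 : 0 < R := hs.trans hR.1
      have hq : (Sl n y R = (O n R).val ∧ (O n R).card = k) ∧
          ∑ q ∈ O n R, φ (R⁻¹ • (q - y)) ≤ g := by
        by_contra hq
        exact hb ⟨⟨hR0, hR.2.trans_lt hr⟩, hq⟩
      have hsph := (hS n).sph y R
      rw [hq.1.1] at hsph ⊢
      show _ ≤ ∑ q ∈ O n R, (C - ψ q)
      refine max_le ?_ (Finset.sum_nonneg fun q _ => h0 q)
      rw [Finset.sum_sub_distrib, Finset.sum_const, hq.1.2, nsmul_eq_mul]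
      have e : ∑ q ∈ O n R, ψ q = ∑ q ∈ O n R, φ (R⁻¹ • (q - y)) := by
        refine Finset.sum_congr rfl fun q hq' => ?_
        have h2 := hsph q hq'
        rw [Metric.mem_sphere, dist_eq_norm] at h2
        simp only [hψ, h2, max_eq_right hR.1.le]
      rw [e]
      linarith [hq.2])
  have h2 : ∫ x in A, (C - ψ x) ∂(nu n y) ≤ ∫ x in A, (C - ψ x) ∂(T n) :=
    integral_mono_measure (Measure.restrict_mono le_rfl ((hS n).le y))
      (Eventually.of_forall h0) (hi' _)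
  rw [integral_sub (integrable_const C) (hi ((T n).restrict A)), setIntegral_const, smul_eq_mul,
    real_ann (T n) y hsr.le] at h2
  have h3 : (T n).real (cb y r) - (T n).real (cb y s) ≤ k * (r - s) + 2 * g := by
    linarith [hTr.2, hTs.1]
  have h4 := mul_le_mul_of_nonneg_right h3 hC0
  have hkC : (0 : ℝ) ≤ k * C := by positivity
  have h5 : k * C * (r - s) - g * (k * C) - g * r ≤ max (k * C - g) 0 * (r - s - g) := by
    rcases le_total (k * C - g) 0 with h6 | h6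
    · rw [max_eq_right h6]
      nlinarith [mul_nonneg hg0.le hkC, mul_nonneg hg0.le hs.le,
        mul_le_mul_of_nonneg_right (sub_nonpos.1 h6) (sub_nonneg.2 hsr.le)]
    · rw [max_eq_left h6]
      nlinarith [mul_nonneg hg0.le hs.le, mul_nonneg hg0.le hg0.le]
  nlinarith

end TightA

theorem tight {𝒰 : Filter ℕ} [𝒰.NeBot] {W : Set ℂ} {T : ℕ → Ms} {μ : Ms} (hL : Lim 𝒰 W T μ)
    {Sl : ℕ → ℂ → ℝ → Multiset ℂ} {nu : ℕ → ℂ → Ms} (hS : ∀ n, SliceSys (T n) (Sl n) (nu n))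
    (y : ℂ) {O : ℕ → ℝ → Finset ℂ}
    (hO : ∀ n R, ∀ q ∈ O n R, q ∈ Metric.sphere y R ∧ bdy ((T n).restrict (cb y R)) q = 1)
    {r₁ : ℝ} (hr : 0 < r₁)
    (hA : ∀ γ, 0 < γ → Most 𝒰 r₁ fun n R => (T n).real (cb y R) - γ * R ≤ (O n R).card * R) :
    ∃ (k : ℕ) (r₀ : ℝ), r₀ ≤ r₁ ∧ Pack 𝒰 T μ (fun n => nu n y) y k r₀ O := by
  have := hL.fin
  obtain ⟨k, r₀, h0, h1, hm⟩ := dens_int μ y hr (TightA.dens hL hS hO hA)
  have hQ := TightA.most_val hL hS hO (fun γ hγ => (hA γ hγ).anti h1) hm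
  exact ⟨k, r₀, h1, h0, hm,
    fun γ hγ => (hQ.and (TightA.most_abs hL hm hγ)).mono fun n R _ hq => ⟨hq.1.2, hq.2⟩,
    TightA.avg hL hS hm hQ, fun r hr => TightA.dfc hL hS hm hQ hr⟩

end Pool.Agent.MP_20201c_gt.H91
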