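import Pool.Agent.MP_20201c_gt.H91.Apx
import Pool.Agent.MP_20201c_gt.H91.Tight
import Pool.Agent.MP_20201c_gt.H91.Line
import Pool.Agent.MP_20201c_gt.H91.Slice

/-! The limit measure is a cone at every point. -/

open MeasureTheory Set Filter Topology
open scoped ENNReal

namespace Pool.Agent.MP_20201c_gt.H91

theorem lo_smul_r (a b : ℂ) (t : ℝ) : ip a (t • b) = t * ip a b := by
  simp only [ip, Complex.real_smul, Complex.mul_re, Complex.mul_im, Complex.ofReal_re,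
    Complex.ofReal_im]
  ring

theorem lo_smul_l (a b : ℂ) (t : ℝ) : ip (t • a) b = t * ip a b := by
  simp only [ip, Complex.real_smul, Complex.mul_re, Complex.mul_im, Complex.ofReal_re,
    Complex.ofReal_im]
  ring

theorem lo_dt_r (a b : ℂ) (t : ℝ) : dt a (t • b) = t * dt a b := by
  simp only [dt, Complex.real_smul, Complex.mul_re, Complex.mul_im, Complex.ofReal_re,
    Complex.ofReal_im]
  ring

theorem lo_dt_l (a b : ℂ) (t : ℝ) : dt (t • a) b = t * dt a b := by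
  simp only [dt, Complex.real_smul, Complex.mul_re, Complex.mul_im, Complex.ofReal_re,
    Complex.ofReal_im]
  ring

theorem lo_neg (a b : ℂ) : ip a (-b) = -ip a b := by
  simp only [ip, Complex.neg_re, Complex.neg_im]
  ring

theorem lo_sq (a : ℂ) : ‖a‖ ^ 2 = a.re ^ 2 + a.im ^ 2 := by
  rw [Complex.sq_norm, Complex.normSq_apply]
  ring

theorem lo_lag {a b : ℂ} (ha : ‖a‖ = 1) (hb : ‖b‖ = 1) : ip a b ^ 2 + dt a b ^ 2 = 1 := by
  have h1 := lo_sq a
  have h2 := lo_sq b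
  rw [ha] at h1
  rw [hb] at h2
  have e : ip a b ^ 2 + dt a b ^ 2 = (a.re ^ 2 + a.im ^ 2) * (b.re ^ 2 + b.im ^ 2) := by
    simp only [ip, dt]
    ring
  rw [e, ← h1, ← h2]
  norm_num

theorem lo_abs {a b : ℂ} (ha : ‖a‖ = 1) (hb : ‖b‖ = 1) : |ip a b| ≤ 1 := by
  have h := lo_lag ha hb
  exact abs_le_one_iff_mul_self_le_one.2 (by nlinarith [sq_nonneg (dt a b)])

theorem lo_unit {a : ℂ} (ha : a ≠ 0) : ‖‖a‖⁻¹ • a‖ = 1 := by
  rw [norm_smul, norm_inv, norm_norm, inv_mul_cancel₀ (norm_ne_zero_iff.2 ha)]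

theorem lo_cont (u : ℂ) : Continuous fun v => ip v u := by
  unfold ip
  fun_prop

theorem lo_int (μ : Ms) [IsFiniteMeasure μ] (y : ℂ) {φ : ℂ → ℝ} (hφ : Continuous φ) :
    Integrable (fun x => φ (‖x - y‖⁻¹ • (x - y))) μ := by
  obtain ⟨C, hC⟩ :=
    (isCompact_closedBall (0 : ℂ) 1).exists_bound_of_continuousOn hφ.continuousOn
  refine Integrable.of_bound ?_ C (ae_of_all _ fun x => hC _ ?_)
  · exact (hφ.measurable.comp (by fun_prop)).aestronglyMeasurable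
  · rw [Metric.mem_closedBall, dist_zero_right]
    by_cases h : x - y = 0
    · simp [h]
    · exact (lo_unit h).le

/-- A test function that is small on the slices but positive on the support forces `k = 0`. -/
theorem lo_zero {𝒰 : Filter ℕ} {T : ℕ → Ms} {μ : Ms} [IsFiniteMeasure μ] {nu : ℕ → Ms} {y : ℂ}
    {k : ℕ} {r : ℝ} {O : ℕ → ℝ → Finset ℂ} (h : Pack 𝒰 T μ nu y k r O) {φ : ℂ → ℝ}
    (hφ : Continuous φ)
    (hm : ∀ γ, 0 < γ → Most 𝒰 r fun n R => ∑ q ∈ O n R, φ (R⁻¹ • (q - y)) ≤ γ)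
    {δ : ℝ} (hδ : 0 < δ)
    (hp : ∀ᵐ x ∂μ, x ∈ cb y (r / 2) \ cb y (r / 4) → δ ≤ φ (‖x - y‖⁻¹ • (x - y))) : k = 0 := by
  have hr := h.pos
  have h1 := h.avg φ hφ r le_rfl hm (r / 4) (r / 2) (by linarith) (by linarith) (by linarith)
  have hA : MeasurableSet (cb y (r / 2) \ cb y (r / 4)) :=
    Metric.isClosed_closedBall.measurableSet.diff Metric.isClosed_closedBall.measurableSet
  have h2 : ∫ _ in cb y (r / 2) \ cb y (r / 4), δ ∂μ ≤
      ∫ x in cb y (r / 2) \ cb y (r / 4), φ (‖x - y‖⁻¹ • (x - y)) ∂μ :=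
    integral_mono_ae (integrable_const δ) (lo_int _ y hφ) ((ae_restrict_iff' hA).2 hp)
  rw [setIntegral_const, measureReal_sdiff (Metric.closedBall_subset_closedBall (by linarith))
    Metric.isClosed_closedBall.measurableSet, h.m (r / 2) ⟨by linarith, by linarith⟩,
    h.m (r / 4) ⟨by linarith, by linarith⟩, smul_eq_mul] at h2
  by_contra hk
  have hk' : (0 : ℝ) < k := Nat.cast_pos.2 (Nat.pos_of_ne_zero hk)
  have h3 : 0 < ((k : ℝ) * (r / 2) - k * (r / 4)) * δ := mul_pos (by nlinarith) hδ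
  linarith

/-- An odd number of balanced terms cannot all have modulus close to one. -/
theorem lo_odd (O : Finset ℂ) (a : ℂ → ℝ) (h1 : ∀ q ∈ O, |a q| ≤ 1) (ho : Odd O.card) {γ : ℝ}
    (hp : ∑ q ∈ O, a q ≤ γ) (hn : ∑ q ∈ O, -a q ≤ γ) : ∑ q ∈ O, |a q| ≤ O.card - 1 + γ := by
  classical
  have e := Finset.card_filter_add_card_filter_not (s := O) (fun q => a q < 0)
  have b1 : ∑ q ∈ O, |a q| ≤ ∑ q ∈ O, a q + 2 * ((O.filter fun q => a q < 0).card : ℝ) := by
    rw [Finset.card_filter, Nat.cast_sum, Finset.mul_sum, ← Finset.sum_add_distrib]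
    refine Finset.sum_le_sum fun q hq => ?_
    have h2 := abs_le.1 (h1 q hq)
    by_cases h : a q < 0
    · rw [if_pos h, abs_of_neg h]
      push_cast
      linarith [h2.1]
    · rw [if_neg h, abs_of_nonneg (not_lt.1 h)]
      simp
  have b2 : ∑ q ∈ O, |a q| ≤ ∑ q ∈ O, -a q + 2 * ((O.filter fun q => ¬ a q < 0).card : ℝ) := by
    rw [Finset.card_filter, Nat.cast_sum, Finset.mul_sum, ← Finset.sum_add_distrib]
    refine Finset.sum_le_sum fun q hq => ?_
    have h2 := abs_le.1 (h1 q hq)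
    by_cases h : a q < 0
    · rw [if_neg (not_not.2 h), abs_of_neg h]
      simp
    · rw [if_pos h, abs_of_nonneg (not_lt.1 h)]
      push_cast
      linarith [h2.2]
  obtain ⟨j, hj⟩ := ho
  rcases le_or_gt (O.filter fun q => a q < 0).card j with h | h
  · have h' : ((O.filter fun q => a q < 0).card : ℝ) ≤ j := Nat.cast_le.2 h
    have hj' : (O.card : ℝ) = 2 * j + 1 := by exact_mod_cast hj
    linarith
  · have h0 : (O.filter fun q => ¬ a q < 0).card ≤ j := by omega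
    have h' : ((O.filter fun q => ¬ a q < 0).card : ℝ) ≤ j := Nat.cast_le.2 h0
    have hj' : (O.card : ℝ) = 2 * j + 1 := by exact_mod_cast hj
    linarith

variable {G : Set ℂ} {ν : ℂ → ℂ × ℂ} {y₀ : ℂ} {R₀ : ℝ} {n₀ : ℕ} {p : Fin n₀ → ℂ}
  {N M : ℕ} {c : ℝ} {𝒰 : Ultrafilter ℕ} {T : ℕ → Ms} {μ : Ms} {ρ₀ : ℝ} {Y : Finset ℂ}

theorem loc_pack (hS : Setup G ν y₀ R₀ p) (hD : LimD N M G (cb y₀ R₀) (ind p) c 𝒰 T μ ρ₀ Y)
    {Sl : ℕ → ℂ → ℝ → Multiset ℂ} {nu : ℕ → ℂ → Ms} (hs : ∀ n, SliceSys (T n) (Sl n) (nu n))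
    {y : ℂ} (hy : y ∈ cb y₀ R₀) :
    ∃ k r, Pack 𝒰 T μ (fun n => nu n y) y k r fun n R => Od G (T n) y R := by
  obtain ⟨r, hr, ha⟩ := apex_most hS hD hy
  obtain ⟨r1, hr1, h1⟩ := adm1 hS.conic y
  have hm : 0 < min r r1 := lt_min hr hr1
  have hA := ha (min r r1) (min_le_left _ _) (fun _ => y) fun R hR =>
    h1 R ⟨hR.1, hR.2.trans_le (min_le_right _ _)⟩ y (Metric.mem_closedBall_self hR.1.le)
      (fun _ => by simp [ip]) _ hy
  obtain ⟨k, r₀, -, hP⟩ := tight hD.lim hs y (O := fun n R => Od G (T n) y R)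
    (fun n R q hq => ⟨(Od_sub G (T n) y R q hq).1, (Od_sub G (T n) y R q hq).2.2⟩) hm
    (fun γ hγ => (hA γ hγ).mono fun n R _ h => by
      have e : ∑ q ∈ Od G (T n) y R, ‖q - y‖ = (Od G (T n) y R).card * R := by
        rw [Finset.sum_congr rfl (g := fun _ => R) fun q hq => by
          simpa [dist_eq_norm] using (Od_sub G (T n) y R q hq).1]
        simp
      simp only [sub_self, norm_zero, ite_self, add_zero] at h
      linarith)
  exact ⟨k, r₀, hP⟩

/-- No mass near the points of the rim that are not prescribed boundary points. -/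
theorem loc_rim (hS : Setup G ν y₀ R₀ p) (hD : LimD N M G (cb y₀ R₀) (ind p) c 𝒰 T μ ρ₀ Y)
    {y : ℂ} (hy : y ∈ Metric.sphere y₀ R₀) (hp : y ∉ range p) :
    ∃ r, 0 < r ∧ μ (Metric.ball y r) = 0 := by
  classical
  choose Sl nu hs using fun n => exists_slice (hD.lim.poly n)
  have hy' : y ∈ cb y₀ R₀ := Metric.sphere_subset_closedBall hy
  obtain ⟨k, r, hP⟩ := loc_pack hS hD hs hy'
  have hR := hS.pos
  have hn : ‖y₀ - y‖ = R₀ := by
    rw [norm_sub_rev]
    simpa [dist_eq_norm] using hy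
  have hu : ‖R₀⁻¹ • (y₀ - y)‖ = 1 := by
    rw [norm_smul, norm_inv, hn, Real.norm_of_nonneg hR.le, inv_mul_cancel₀ hR.ne']
  obtain ⟨r', h0, hle, hm⟩ := dir_most hS hD hy' hP.pos hP.t1 hu
    (fun hf => by
      have h := hS.rim y hy hf
      have hi := inv_pos.2 hR
      rw [lo_smul_r, lo_smul_r]
      exact ⟨mul_nonpos_of_nonneg_of_nonpos hi.le h.1, mul_nonpos_of_nonneg_of_nonpos hi.le h.2⟩)
    ⟨R₀, hR, by
      rw [smul_smul, mul_inv_cancel₀ hR.ne', one_smul, add_sub_cancel]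
      exact Metric.mem_closedBall_self hR.le⟩
  have := hD.lim.fin
  have hP' := hP.anti h0 hle
  have hk : k = 0 := by
    refine lo_zero hP' (lo_cont (R₀⁻¹ • (y₀ - y))) (fun γ hγ => (hm γ hγ).mono fun n R _ h => ?_)
      (δ := R₀⁻¹ * (r' / 8)) (by positivity) ?_
    · simpa only [if_neg hp, zero_add] using h
    · have hae : ∀ᵐ x ∂μ, x ∈ cb y₀ R₀ := hD.lim.supp
      filter_upwards [hae] with x hx hx'
      have h1 : r' / 4 < ‖x - y‖ := by simpa [dist_eq_norm] using hx'.2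
      have h2 : ‖x - y₀‖ ≤ R₀ := by simpa [dist_eq_norm] using hx
      have h3 : 0 < ‖x - y‖ := by linarith
      have h4 : ‖x - y‖ ^ 2 ≤ 2 * ip (x - y) (y₀ - y) := by
        have a1 := lo_sq (x - y)
        have a2 := lo_sq (x - y₀)
        have a3 := lo_sq (y₀ - y)
        have a4 : ‖x - y₀‖ ^ 2 ≤ R₀ ^ 2 := pow_le_pow_left₀ (norm_nonneg _) h2 2
        rw [hn] at a3
        simp only [ip, Complex.sub_re, Complex.sub_im] at a1 a2 a3 ⊢
        nlinarith
      rw [lo_smul_l, lo_smul_r, mul_left_comm]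
      refine mul_le_mul_of_nonneg_left ?_ (inv_pos.2 hR).le
      rw [le_inv_mul_iff₀ h3]
      nlinarith
  refine ⟨r' / 2, by linarith, measure_mono_null Metric.ball_subset_closedBall ?_⟩
  have h5 := hP'.m (r' / 2) ⟨by linarith, by linarith⟩
  rw [hk, Nat.cast_zero, zero_mul] at h5
  exact (measureReal_eq_zero_iff (measure_ne_top _ _)).1 h5

theorem loc_line (hS : Setup G ν y₀ R₀ p) (hD : LimD N M G (cb y₀ R₀) (ind p) c 𝒰 T μ ρ₀ Y)
    {y : ℂ} (hy : y ∈ cb y₀ R₀) : ∃ r, 0 < r ∧ ∀ y' ∈ Metric.ball y r, y' ≠ y →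
      ∃ (r' : ℝ) (j : ℕ), 0 < r' ∧ μ.restrict (Metric.ball y' r') =
        j • sg (y' - r' • (‖y' - y‖⁻¹ • (y' - y))) (y' + r' • (‖y' - y‖⁻¹ • (y' - y))) := by
  classical
  choose Sl nu hs using fun n => exists_slice (hD.lim.poly n)
  obtain ⟨k, r, hP⟩ := loc_pack hS hD hs hy
  obtain ⟨r2, hr2, h2⟩ := adm2 hS.conic y
  obtain ⟨r3, hr3, h3⟩ := Metric.isOpen_iff.1
    ((finite_range p).subset (sdiff_subset (t := {y}))).isClosed.isOpen_compl y (by simp)
  have := hD.lim.fin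
  refine ⟨min r (min r2 r3), lt_min hP.pos (lt_min hr2 hr3), fun y' hy' hne => ?_⟩
  have b1 : y' ∈ Metric.ball y r := Metric.ball_subset_ball (min_le_left _ _) hy'
  have b2 : y' ∈ Metric.ball y r2 :=
    Metric.ball_subset_ball ((min_le_right _ _).trans (min_le_left _ _)) hy'
  have b3 : y' ∈ Metric.ball y r3 :=
    Metric.ball_subset_ball ((min_le_right _ _).trans (min_le_right _ _)) hy'
  have hp : y' ∉ range p := fun h => h3 b3 ⟨h, hne⟩
  have hz : ∀ r', 0 < r' → μ (Metric.ball y' r') = 0 → ∃ (r' : ℝ) (j : ℕ), 0 < r' ∧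
      μ.restrict (Metric.ball y' r') =
        j • sg (y' - r' • (‖y' - y‖⁻¹ • (y' - y))) (y' + r' • (‖y' - y‖⁻¹ • (y' - y))) :=
    fun r' h h0 => ⟨r', 0, h, by rw [Measure.restrict_eq_zero.2 h0, zero_smul]⟩
  rcases lt_trichotomy (dist y' y₀) R₀ with hlt | heq | hgt
  rotate_left
  · obtain ⟨r', h, h0⟩ := loc_rim hS hD (y := y') heq hp
    exact hz r' h h0
  · obtain ⟨r', h, h0⟩ := Metric.isOpen_iff.1
      (Metric.isClosed_closedBall (x := y₀) (ε := R₀)).isOpen_compl y' (by simpa using hgt)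
    exact hz r' h (measure_mono_null h0 hD.lim.supp)
  have hy'' : y' ∈ cb y₀ R₀ := hlt.le
  obtain ⟨k', r', hP'⟩ := loc_pack hS hD hs hy''
  have htc := two_centre hD.lim hs hP hP'
  have hu : ‖‖y' - y‖⁻¹ • (y' - y)‖ = 1 := lo_unit (sub_ne_zero.2 hne)
  have hdt : ∀ x, dt x (‖y' - y‖⁻¹ • (y' - y)) ≠ 0 → dt x (y' - y) ≠ 0 := fun x h h' =>
    h (by rw [lo_dt_r, h', mul_zero])
  have hν : y' ∈ frontier G → ip (ν y').1 (‖y' - y‖⁻¹ • (y' - y)) = 0 ∧
      ip (ν y').2 (‖y' - y‖⁻¹ • (y' - y)) = 0 := fun hf => by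
    rw [lo_smul_r, lo_smul_r, (h2 y' b2 hf).1, (h2 y' b2 hf).2, mul_zero]
    exact ⟨rfl, rfl⟩
  generalize ‖y' - y‖⁻¹ • (y' - y) = u at hu hdt hν ⊢
  have hW : ∀ v : ℂ, ‖v‖ = 1 → ∃ s : ℝ, 0 < s ∧ y' + s • v ∈ cb y₀ R₀ := fun v hv =>
    ⟨R₀ - dist y' y₀, by linarith, by
      have e : dist (y' + (R₀ - dist y' y₀) • v) y' = R₀ - dist y' y₀ := by
        rw [dist_eq_norm, add_sub_cancel_left, norm_smul, hv, mul_one,
          Real.norm_of_nonneg (by linarith)]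
      have t := dist_triangle (y' + (R₀ - dist y' y₀) • v) y' y₀
      rw [Metric.mem_closedBall]
      linarith⟩
  have hu' : ‖-u‖ = 1 := by rwa [norm_neg]
  obtain ⟨s1, p1, l1, m1⟩ := dir_most hS hD hy'' hP'.pos hP'.t1 hu
    (fun hf => ⟨(hν hf).1.le, (hν hf).2.le⟩) (hW u hu)
  obtain ⟨s2, p2, -, m2⟩ := dir_most hS hD hy'' hP'.pos hP'.t1 hu'
    (fun hf => by rw [lo_neg, lo_neg, (hν hf).1, (hν hf).2, neg_zero]; exact ⟨le_rfl, le_rfl⟩)
    (hW _ hu')
  obtain ⟨s3, p3, l3⟩ := Metric.isOpen_iff.1 Metric.isOpen_ball y' b1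
  obtain ⟨ρ, hρ, q1, q2, q3⟩ : ∃ ρ : ℝ, 0 < ρ ∧ ρ ≤ s1 ∧ ρ ≤ s2 ∧ ρ ≤ s3 :=
    ⟨min s1 (min s2 s3), lt_min p1 (lt_min p2 p3), min_le_left _ _,
      (min_le_right _ _).trans (min_le_left _ _), (min_le_right _ _).trans (min_le_right _ _)⟩
  have hQ := hP'.anti hρ (q1.trans l1)
  have n1 : ∀ γ, 0 < γ → Most 𝒰 ρ fun n R =>
      ∑ q ∈ Od G (T n) y' R, ip (R⁻¹ • (q - y')) u ≤ γ := fun γ hγ =>
    ((m1 γ hγ).anti q1).mono fun n R _ h => by simpa only [if_neg hp, zero_add] using h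
  have n2 : ∀ γ, 0 < γ → Most 𝒰 ρ fun n R =>
      ∑ q ∈ Od G (T n) y' R, -ip (R⁻¹ • (q - y')) u ≤ γ := fun γ hγ =>
    ((m2 γ hγ).anti q2).mono fun n R _ h => by simpa only [if_neg hp, zero_add, lo_neg] using h
  have h0 : μ {x | x ∈ Metric.ball y' ρ ∧ dt (x - y') u ≠ 0} = 0 :=
    measure_mono_null (fun x hx => And.intro (l3 (Metric.ball_subset_ball q3 hx.1))
      (And.intro (Metric.ball_subset_ball (q1.trans l1) hx.1) (hdt _ hx.2))) htc
  have hev : Even k' := by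
    by_contra hodd
    have ho : Odd k' := Nat.not_even_iff_odd.1 hodd
    have hk : (0 : ℝ) < k' := Nat.cast_pos.2 ho.pos
    refine ho.pos.ne' (lo_zero hQ (φ := fun v => |ip v u| - (1 - (k' : ℝ)⁻¹))
      ((lo_cont u).abs.sub continuous_const) (fun γ hγ => ?_) (inv_pos.2 hk) ?_)
    · refine (((n1 γ hγ).and (n2 γ hγ)).and (hQ.t1 γ hγ)).mono fun n R hR h => ?_
      have hc : (Od G (T n) y' R).card = k' := h.2.1
      have h5 := lo_odd (Od G (T n) y' R) (fun q => ip (R⁻¹ • (q - y')) u)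
        (fun q hq => lo_abs (by
          have e : ‖q - y'‖ = R := by simpa [dist_eq_norm] using (Od_sub G (T n) y' R q hq).1
          rw [norm_smul, norm_inv, e, Real.norm_of_nonneg hR.1.le, inv_mul_cancel₀ hR.1.ne'])
          hu) (hc ▸ ho) h.1.1 h.1.2
      rw [Finset.sum_sub_distrib, Finset.sum_const, hc, nsmul_eq_mul, mul_sub,
        mul_inv_cancel₀ hk.ne']
      rw [hc] at h5
      linarith
    · have hae : ∀ᵐ x ∂μ, x ∉ {x | x ∈ Metric.ball y' ρ ∧ dt (x - y') u ≠ 0} :=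
        measure_eq_zero_iff_ae_notMem.1 h0
      filter_upwards [hae] with x hx hx'
      have a1 : x ∈ Metric.ball y' ρ := Metric.closedBall_subset_ball (by linarith) hx'.1
      have a2 : dt (x - y') u = 0 := by
        by_contra h
        exact hx ⟨a1, h⟩
      have a3 : x - y' ≠ 0 := fun h =>
        hx'.2 (sub_eq_zero.1 h ▸ Metric.mem_closedBall_self (by linarith))
      have a4 := lo_lag (lo_unit a3) hu
      rw [lo_dt_l, a2, mul_zero] at a4
      have a5 : |ip (‖x - y'‖⁻¹ • (x - y')) u| = 1 := by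
        rw [← sq_eq_sq₀ (abs_nonneg _) zero_le_one, sq_abs]
        linarith
      rw [a5]
      linarith
  obtain ⟨j, hj⟩ := hev
  refine ⟨ρ, j, hρ, line_meas μ y' hu hρ j (fun s hs' => ?_) h0 fun s t a1 a2 a3 => ?_⟩
  · rw [hQ.m s hs', hj, two_mul]
  · have c1 := hQ.avg _ (lo_cont u) ρ le_rfl n1 s t a1 a2 a3
    have c2 := hQ.avg (fun v => -ip v u) (lo_cont u).neg ρ le_rfl n2 s t a1 a2 a3
    rw [integral_neg] at c2
    linarith

theorem loc (hS : Setup G ν y₀ R₀ p) (hD : LimD N M G (cb y₀ R₀) (ind p) c 𝒰 T μ ρ₀ Y)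
    {y : ℂ} (hy : y ∈ cb y₀ R₀) : ∃ r w, LocAt 𝒰 G T μ y r w := by
  choose Sl nu hs using fun n => exists_slice (hD.lim.poly n)
  obtain ⟨k, r, hP⟩ := loc_pack hS hD hs hy
  obtain ⟨r1, hr1, h1⟩ := loc_line hS hD hy
  have := hD.lim.fin
  have hr := hP.pos
  have h0 : μ {y} = 0 := by
    refine (measureReal_eq_zero_iff (measure_ne_top _ _)).1 (le_antisymm ?_ measureReal_nonneg)
    have ht : Tendsto (fun s : ℝ => (k : ℝ) * s) (𝓝[>] 0) (𝓝 0) := by
      have h : Tendsto (fun s : ℝ => (k : ℝ) * s) (𝓝 0) (𝓝 ((k : ℝ) * 0)) :=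
        (continuous_const.mul continuous_id).tendsto 0
      rw [mul_zero] at h
      exact h.mono_left nhdsWithin_le_nhds
    refine ge_of_tendsto ht ?_
    filter_upwards [Ioo_mem_nhdsGT hr] with s hs'
    rw [← hP.m s hs']
    exact measureReal_mono (singleton_subset_iff.2 (Metric.mem_closedBall_self hs'.1.le))
  obtain ⟨w, hw⟩ := cone_of_lines μ y hr1 h0 h1
  have hρ : 0 < min r r1 := lt_min hr hr1
  have hw' := hw.anti hρ (min_le_right _ _)
  have hQ := hP.anti hρ (min_le_left _ _)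
  have hc : w.card = k := by
    have a : min r r1 / 2 ∈ Ioo 0 (min r r1) := ⟨by linarith, by linarith⟩
    have e := (hw'.real_cb a).symm.trans (hQ.m _ a)
    exact_mod_cast mul_right_cancel₀ a.1.ne' e
  refine ⟨min r r1, w, hw', hc ▸ hQ.t1, fun φ hφ r' p0 p1 hm => ?_⟩
  have c1 := hQ.avg φ hφ r' p1 hm (r' / 4) (r' / 2) (by linarith) (by linarith) (by linarith)
  rw [hw'.integral hφ (by linarith) (by linarith) (by linarith)] at c1
  by_contra hn
  have := mul_pos (show 0 < r' / 2 - r' / 4 by linarith) (not_le.1 hn)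
  linarith

end Pool.Agent.MP_20201c_gt.H91
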