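import Pool.Agent.MP_20201c_gt.H91.Line

/-! A measure that is a cone at every point is a finite network. -/

open MeasureTheory Set Filter Topology
open scoped ENNReal

namespace Pool.Agent.MP_20201c_gt.H91

namespace Nt

/-- `μ` is a cone with directions `w` in some disc about `z`. -/
def Cn (μ : Ms) (z : ℂ) (w : Multiset ℂ) : Prop := ∃ r, ConeAt μ z r w

/-- Antipodal families of directions. -/
def Ant (w : Multiset ℂ) : Prop := w.map (fun v => -v) = w

theorem Cn.zero (z : ℂ) : Cn 0 z 0 := ⟨1, one_pos, by simp, by simp⟩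

theorem Cn.add {μ ν : Ms} {z : ℂ} {w w' : Multiset ℂ} (h : Cn μ z w) (h' : Cn ν z w') :
    Cn (μ + ν) z (w + w') := by
  obtain ⟨r, h⟩ := h
  obtain ⟨r', h'⟩ := h'
  have hρ : 0 < min r r' := lt_min h.1 h'.1
  have h1 := h.anti hρ (min_le_left _ _)
  have h2 := h'.anti hρ (min_le_right _ _)
  refine ⟨min r r', hρ, fun v hv => ?_, ?_⟩
  · rcases Multiset.mem_add.1 hv with hv | hv
    exacts [h.2.1 v hv, h'.2.1 v hv]
  · rw [Measure.restrict_add, h1.2.2, h2.2.2, Multiset.map_add, Multiset.sum_add]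

theorem Cn.sub {μ ν : Ms} [IsFiniteMeasure ν] {z : ℂ} {w w' : Multiset ℂ} (h : Cn μ z (w + w'))
    (h' : Cn ν z w') : Cn (μ - ν) z w := by
  obtain ⟨r, h⟩ := h
  obtain ⟨r', h'⟩ := h'
  have hρ : 0 < min r r' := lt_min h.1 h'.1
  have h1 := h.anti hρ (min_le_left _ _)
  have h2 := h'.anti hρ (min_le_right _ _)
  refine ⟨min r r', hρ, fun v hv => h.2.1 v (Multiset.mem_add.2 (Or.inl hv)), ?_⟩
  rw [Measure.restrict_sub_eq_restrict_sub_restrict Metric.isOpen_ball.measurableSet, h1.2.2,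
    Multiset.map_add, Multiset.sum_add, ← h2.2.2, Measure.add_sub_cancel]

theorem Cn.unique {μ : Ms} {z : ℂ} {w w' : Multiset ℂ} (h : Cn μ z w) (h' : Cn μ z w') :
    w = w' := by
  obtain ⟨r, h⟩ := h
  obtain ⟨r', h'⟩ := h'
  exact h.unique h'

theorem Cn.congr {μ ν : Ms} {z : ℂ} {w : Multiset ℂ} {U : Set ℂ} (hU : U ∈ 𝓝 z)
    (e : μ.restrict U = ν.restrict U) (h : Cn ν z w) : Cn μ z w := by
  obtain ⟨r, h⟩ := h
  obtain ⟨ρ, hρ, hb⟩ := Metric.mem_nhds_iff.1 hU
  have h0 : 0 < min r ρ := lt_min h.1 hρ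
  have h1 := h.anti h0 (min_le_left _ _)
  refine ⟨min r ρ, h0, h1.2.1, ?_⟩
  rw [← h1.2.2]
  exact Measure.restrict_congr_mono ((Metric.ball_subset_ball (min_le_right _ _)).trans hb) e

theorem eq_of_cn {μ ν : Ms} (h : ∀ z, ∃ w, Cn μ z w ∧ Cn ν z w) : μ = ν := by
  have key : ∀ z, ∃ U ∈ 𝓝 z, μ.restrict U = ν.restrict U := by
    intro z
    obtain ⟨w, ⟨r, h1⟩, r', h2⟩ := h z
    have hρ : 0 < min r r' := lt_min h1.1 h2.1
    exact ⟨Metric.ball z (min r r'), Metric.ball_mem_nhds z hρ,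
      (h1.anti hρ (min_le_left _ _)).2.2.trans (h2.anti hρ (min_le_right _ _)).2.2.symm⟩
  choose U hU hU' using key
  obtain ⟨s, hs, hs'⟩ := TopologicalSpace.countable_cover_nhds hU
  exact Measure.ext_of_biUnion_eq_univ hs hs' fun z _ => hU' z

theorem cn_ray (z : ℂ) {v : ℂ} (hv : ‖v‖ = 1) {s : ℝ} (hs : 0 < s) :
    Cn (sg z (z + s • v)) z {v} :=
  ⟨s, hs, by simpa using hv, by simpa using mo_ray_ball z v hv hs.le le_rfl⟩

theorem cn_off {a b z : ℂ} (h : z ∉ segment ℝ a b) : Cn (sg a b) z 0 := by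
  have hc : IsCompact (segment ℝ a b) := by
    rw [segment_eq_image']
    exact isCompact_Icc.image (by fun_prop)
  refine Cn.congr (ν := 0) (hc.isClosed.isOpen_compl.mem_nhds h) ?_ (Cn.zero z)
  rw [sg_restrict_of_disjoint disjoint_compl_right, Measure.restrict_zero]

theorem mem_seg {x u z : ℂ} {T : ℝ} (hT : 0 < T) :
    z ∈ segment ℝ x (x + T • u) ↔ ∃ t ∈ Icc 0 T, z = x + t • u := by
  constructor
  · intro h
    obtain ⟨t, ht, rfl⟩ := m1_seg_ex h
    refine ⟨t * T, ⟨mul_nonneg ht.1 hT.le, by nlinarith [ht.2]⟩, ?_⟩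
    rw [add_sub_cancel_left, smul_smul]
  · rintro ⟨t, ht, rfl⟩
    have h := m1_seg_mem x (x + T • u) (t := t / T)
      ⟨div_nonneg ht.1 hT.le, (div_le_one hT).2 ht.2⟩
    rwa [add_sub_cancel_left, smul_smul, div_mul_cancel₀ _ hT.ne'] at h

theorem cn_end (x : ℂ) {u : ℂ} (hu : ‖u‖ = 1) {T : ℝ} (hT : 0 < T) :
    Cn (sg x (x + T • u)) (x + T • u) {-u} := by
  have h := cn_ray (x + T • u) (v := -u) (by simpa using hu) hT
  rwa [smul_neg, add_neg_cancel_right, sg_comm] at h

theorem cn_mid (x : ℂ) {u : ℂ} (hu : ‖u‖ = 1) {T t : ℝ} (ht : t ∈ Ioo 0 T) :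
    Cn (sg x (x + T • u)) (x + t • u) ({u} + {-u}) := by
  have hT : 0 < T := ht.1.trans ht.2
  rw [sg_split ((mem_seg hT).2 ⟨t, ⟨ht.1.le, ht.2.le⟩, rfl⟩), add_comm (sg _ _)]
  have h := cn_ray (x + t • u) hu (sub_pos.2 ht.2)
  rw [add_assoc, ← add_smul, add_sub_cancel] at h
  exact h.add (cn_end x hu ht.1)

theorem ne_neg {u : ℂ} (hu : ‖u‖ = 1) : u ≠ -u := by
  intro h
  have h1 : u = 0 := by linear_combination (1 / 2 : ℂ) * h
  rw [h1, norm_zero] at hu
  exact zero_ne_one hu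

theorem unit_eq {u v : ℂ} (hu : ‖u‖ = 1) (hv : ‖v‖ = 1) {s t : ℝ} (hs : 0 < s) (ht : 0 ≤ t)
    (h : s • u = t • v) : v = u := by
  have h1 := congrArg norm h
  rw [norm_smul, norm_smul, hu, hv, mul_one, mul_one, Real.norm_of_nonneg hs.le,
    Real.norm_of_nonneg ht] at h1
  rw [← h1] at h
  exact (smul_right_injective ℂ hs.ne' h).symm

open Classical in
theorem cn_cone (y : ℂ) {u : ℂ} (hu : ‖u‖ = 1) {r s : ℝ} (hs : s ∈ Ioo 0 r) (w : Multiset ℂ)
    (hw : ∀ v ∈ w, ‖v‖ = 1) :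
    Cn (w.map fun v => sg y (y + r • v)).sum (y + s • u) (w.count u • ({u} + {-u})) := by
  induction w using Multiset.induction_on with
  | empty => simpa using Cn.zero _
  | cons v w ih =>
    have ih := ih fun v' hv' => hw v' (Multiset.mem_cons_of_mem hv')
    have hv := hw v (Multiset.mem_cons_self v w)
    rw [Multiset.map_cons, Multiset.sum_cons]
    by_cases h : u = v
    · subst h
      rw [Multiset.count_cons_self, succ_nsmul']
      exact (cn_mid y hu hs).add ih
    · rw [Multiset.count_cons_of_ne h]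
      have h0 : y + s • u ∉ segment ℝ y (y + r • v) := by
        intro hm
        obtain ⟨t, ht, e⟩ := (mem_seg (hs.1.trans hs.2)).1 hm
        exact h (unit_eq hu hv hs.1 ht.1 (add_left_cancel e)).symm
      simpa using (cn_off h0).add ih

variable {μ : Ms} {w : ℂ → Multiset ℂ}

open Classical in
theorem near (hw : ∀ y, Cn μ y (w y)) (y : ℂ) : ∃ r : ℝ, 0 < r ∧ ∀ u, ‖u‖ = 1 → ∀ s ∈ Ioo 0 r,
    w (y + s • u) = (w y).count u • ({u} + {-u}) := by
  obtain ⟨r, h⟩ := hw y
  refine ⟨r, h.1, fun u hu s hs => (hw _).unique ?_⟩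
  have hb : Metric.ball y r ∈ 𝓝 (y + s • u) := by
    refine Metric.isOpen_ball.mem_nhds ?_
    rw [mem_ball_iff_norm, add_sub_cancel_left, norm_smul, hu, mul_one,
      Real.norm_of_nonneg hs.1.le]
    exact hs.2
  refine Cn.congr hb ?_ (cn_cone y hu hs (w y) h.2.1)
  rw [← h.2.2, Measure.restrict_restrict Metric.isOpen_ball.measurableSet, inter_self]

theorem ant_pair (u : ℂ) : Ant ({u} + {-u}) := by
  unfold Ant
  rw [Multiset.map_add, Multiset.map_singleton, Multiset.map_singleton, neg_neg, add_comm]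

theorem ant_nsmul (k : ℕ) (u : ℂ) : Ant (k • ({u} + {-u})) := by
  unfold Ant
  rw [Multiset.map_nsmul, ant_pair u]

open Classical in
theorem Ant.count {w : Multiset ℂ} (h : Ant w) (u : ℂ) : w.count (-u) = w.count u := by
  conv_lhs => rw [← h]
  exact Multiset.count_map_eq_count' _ w neg_injective u

open Classical in
theorem count_pair (k : ℕ) {u : ℂ} (hu : ‖u‖ = 1) :
    (k • ({u} + {-u} : Multiset ℂ)).count u = k := by
  rw [Multiset.count_nsmul, Multiset.count_add, Multiset.count_singleton_self,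
    Multiset.count_singleton, if_neg (ne_neg hu), add_zero, mul_one]

theorem in_W {W : Set ℂ} (hW : IsCompact W) (h0 : μ Wᶜ = 0) (hw : ∀ y, Cn μ y (w y)) {y u : ℂ}
    (hu : u ∈ w y) : y ∈ W := by
  obtain ⟨r, h⟩ := hw y
  simpa using h.mem hW.isClosed h0 hu (s := 0) ⟨le_rfl, h.1.le⟩

theorem fin_V {W : Set ℂ} (hW : IsCompact W) (h0 : μ Wᶜ = 0) (hw : ∀ y, Cn μ y (w y)) :
    {y | ¬ Ant (w y)}.Finite := by
  choose r hr hr' using near hw
  obtain ⟨t, -, ht⟩ := hW.elim_nhds_subcover (fun y => Metric.ball y (r y))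
    fun y _ => Metric.ball_mem_nhds y (hr y)
  refine t.finite_toSet.subset fun z hz => ?_
  have hzW : z ∈ W := by
    rcases eq_or_ne (w z) 0 with h | h
    · exact absurd (by rw [h]; rfl) hz
    · obtain ⟨u, hu⟩ := Multiset.exists_mem_of_ne_zero h
      exact in_W hW h0 hw hu
  obtain ⟨y, hy, hzy⟩ := mem_iUnion₂.1 (ht hzW)
  rcases eq_or_ne z y with h | h
  · exact h ▸ hy
  · exfalso
    have hn : 0 < ‖z - y‖ := norm_pos_iff.2 (sub_ne_zero.2 h)
    have h1 := hr' y (‖z - y‖⁻¹ • (z - y)) (by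
      rw [norm_smul, norm_inv, norm_norm, inv_mul_cancel₀ hn.ne']) ‖z - y‖
      ⟨hn, mem_ball_iff_norm.1 hzy⟩
    rw [smul_smul, mul_inv_cancel₀ hn.ne', one_smul, add_sub_cancel] at h1
    exact hz (by rw [h1]; exact ant_nsmul _ _)

open Classical in
theorem prop (hw : ∀ y, Cn μ y (w y)) (x : ℂ) {u : ℂ} (hu : ‖u‖ = 1) {T : ℝ} (hT : 0 < T)
    (h : ∀ t ∈ Ioo 0 T, Ant (w (x + t • u))) :
    (∀ t ∈ Ioo 0 T, (w (x + t • u)).count u = (w x).count u) ∧
      (w (x + T • u)).count (-u) = (w x).count u := by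
  have hu' : ‖-u‖ = 1 := by simpa using hu
  have fw : ∀ t : ℝ, ∃ r, 0 < r ∧ ∀ t' ∈ Ioo t (t + r),
      (w (x + t' • u)).count u = (w (x + t • u)).count u := by
    intro t
    obtain ⟨r, hr, h1⟩ := near hw (x + t • u)
    refine ⟨r, hr, fun t' ht' => ?_⟩
    have h2 := h1 u hu (t' - t) ⟨by linarith [ht'.1], by linarith [ht'.2]⟩
    rw [add_assoc, ← add_smul, add_sub_cancel] at h2
    rw [h2, count_pair _ hu]
  have bw : ∀ t : ℝ, ∃ r, 0 < r ∧ ∀ t' ∈ Ioo (t - r) t,
      (w (x + t' • u)).count u = (w (x + t • u)).count (-u) := by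
    intro t
    obtain ⟨r, hr, h1⟩ := near hw (x + t • u)
    refine ⟨r, hr, fun t' ht' => ?_⟩
    have h2 := h1 (-u) hu' (t - t') ⟨by linarith [ht'.2], by linarith [ht'.1]⟩
    rw [smul_neg, ← neg_smul, add_assoc, ← add_smul, neg_sub, add_sub_cancel] at h2
    rw [h2, ← (ant_nsmul _ _).count u, count_pair _ hu']
  have hc : ContinuousOn (fun t : ℝ => (w (x + t • u)).count u) (Ioo 0 T) := by
    intro t ht
    obtain ⟨r, hr, h1⟩ := fw t
    obtain ⟨r', hr', h2⟩ := bw t
    have he : (fun t : ℝ => (w (x + t • u)).count u) =ᶠ[𝓝 t] fun _ => (w (x + t • u)).count u := by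
      filter_upwards [Ioo_mem_nhds (show t - r' < t by linarith) (show t < t + r by linarith)]
        with t' ht'
      rcases lt_trichotomy t' t with h3 | h3 | h3
      · rw [h2 t' ⟨ht'.1, h3⟩, (h t ht).count]
      · rw [h3]
      · exact h1 t' ⟨h3, ht'.2⟩
    exact (continuousAt_const.congr he.symm).continuousWithinAt
  have h1 : ∀ t ∈ Ioo 0 T, (w (x + t • u)).count u = (w x).count u := by
    intro t ht
    obtain ⟨r, hr, h1⟩ := fw 0
    have hm : 0 < min r T := lt_min hr hT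
    have a1 := min_le_left r T
    have a2 := min_le_right r T
    have h2 := h1 (min r T / 2) ⟨by linarith, by linarith⟩
    rw [zero_smul, add_zero] at h2
    rw [← h2]
    exact isPreconnected_Ioo.constant hc ht ⟨by linarith, by linarith⟩
  refine ⟨h1, ?_⟩
  obtain ⟨r, hr, h2⟩ := bw T
  have hm : 0 < min r T := lt_min hr hT
  have a1 := min_le_left r T
  have a2 := min_le_right r T
  rw [← h2 (T - min r T / 2) ⟨by linarith, by linarith⟩]
  exact h1 _ ⟨by linarith, by linarith⟩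

theorem nxt {W : Set ℂ} (hW : IsCompact W) (h0 : μ Wᶜ = 0) (hw : ∀ y, Cn μ y (w y))
    {V : Finset ℂ} (hV : ∀ y, y ∉ V → Ant (w y)) {x u : ℂ} (hx : u ∈ w x) :
    ∃ T : ℝ, 0 < T ∧ x + T • u ∈ V ∧ -u ∈ w (x + T • u) ∧
      ∀ t ∈ Ioo 0 T, x + t • u ∉ V ∧ u ∈ w (x + t • u) ∧ -u ∈ w (x + t • u) := by
  classical
  have hu : ‖u‖ = 1 := by
    obtain ⟨r, h⟩ := hw x
    exact h.2.1 u hx
  have hp : 0 < (w x).count u := Multiset.count_pos.2 hx
  have hf : {t : ℝ | 0 < t ∧ x + t • u ∈ V}.Finite := by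
    have hi : Function.Injective fun t : ℝ => x + t • u := fun s t h =>
      smul_left_injective ℝ (show u ≠ 0 by rintro rfl; simp at hu) (add_left_cancel h)
    exact (V.finite_toSet.preimage hi.injOn).subset fun t ht => ht.2
  have hne : {t : ℝ | 0 < t ∧ x + t • u ∈ V}.Nonempty := by
    by_contra hc
    obtain ⟨C, hC⟩ := hW.isBounded.exists_norm_le
    have hT : 0 < |C| + ‖x‖ + 1 := by positivity
    have h1 := (prop hw x hu hT fun t ht => hV _ fun hv => hc ⟨t, ht.1, hv⟩).2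
    have h2 := hC _ (in_W hW h0 hw (Multiset.count_pos.1 (h1 ▸ hp)))
    have h3 := norm_sub_le (x + (|C| + ‖x‖ + 1) • u) x
    rw [add_sub_cancel_left, norm_smul, hu, mul_one, Real.norm_of_nonneg hT.le] at h3
    linarith [le_abs_self C]
  obtain ⟨T, hT, hmin⟩ := exists_min_image _ id hf hne
  have hno : ∀ t ∈ Ioo 0 T, x + t • u ∉ V := fun t ht hv =>
    absurd (hmin t ⟨ht.1, hv⟩) (not_le.2 ht.2)
  obtain ⟨h1, h2⟩ := prop hw x hu hT.1 fun t ht => hV _ (hno t ht)
  refine ⟨T, hT.1, hT.2, Multiset.count_pos.1 (h2 ▸ hp), fun t ht => ⟨hno t ht,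
    Multiset.count_pos.1 (h1 t ht ▸ hp), Multiset.count_pos.1 ?_⟩⟩
  rw [(hV _ (hno t ht)).count, h1 t ht]
  exact hp

open Classical in
theorem en_eq {m : ℕ} (a b : Fin m → ℂ) (y : ℂ) : En a b y =
    ∑ e, ((if a e = y then {dir (a e, b e)} else 0) + if b e = y then {dir (b e, a e)} else 0) := by
  have h : En a b y = ∑ δ : Fin m × Bool, if dpos a b δ = y then {ddir a b δ} else 0 := by
    rw [← Finset.sum_filter, En, Finset.sum_eq_multiset_sum,
      ← Multiset.sum_map_singleton (Multiset.map _ _), Multiset.map_map]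
    rfl
  rw [h, Fintype.sum_prod_type]
  refine Finset.sum_congr rfl fun e _ => ?_
  rw [Fintype.sum_bool, add_comm]
  rfl

theorem dir_fw (x : ℂ) {u : ℂ} (hu : ‖u‖ = 1) {T : ℝ} (hT : 0 < T) : dir (x, x + T • u) = u := by
  simp only [dir, add_sub_cancel_left]
  rw [norm_smul, hu, mul_one, Real.norm_of_nonneg hT.le, smul_smul, inv_mul_cancel₀ hT.ne',
    one_smul]

theorem dir_bw (x : ℂ) {u : ℂ} (hu : ‖u‖ = 1) {T : ℝ} (hT : 0 < T) : dir (x + T • u, x) = -u := by
  have h := dir_fw (x + T • u) (u := -u) (by simpa using hu) hT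
  rwa [smul_neg, add_neg_cancel_right] at h

open Classical in
theorem ind {W : Set ℂ} (hW : IsCompact W) (V : Finset ℂ) (n : ℕ) : ∀ (μ : Ms)
    (w : ℂ → Multiset ℂ), μ Wᶜ = 0 → (∀ y, Cn μ y (w y)) → (∀ y, y ∉ V → Ant (w y)) →
    ∑ y ∈ V, (w y).card < n → ∃ (m : ℕ) (a b : Fin m → ℂ), (∀ e, a e ≠ b e) ∧ μ = msr a b ∧
      ∀ y, En a b y = if y ∈ V then w y else 0 := by
  induction n with
  | zero => intro μ w _ _ _ h; omega
  | succ n ih =>
    intro μ w h0 hw hV hn
    by_cases hex : ∃ x ∈ V, ∃ u, u ∈ w x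
    · obtain ⟨x, hx, u, hxu⟩ := hex
      obtain ⟨T, hT, hb, hb', hmid⟩ := nxt hW h0 hw hV hxu
      have hu : ‖u‖ = 1 := by
        obtain ⟨r, h⟩ := hw x
        exact h.2.1 u hxu
      have hne : x ≠ x + T • u := by
        intro h
        have h1 : T • u = 0 := left_eq_add.1 h
        have h2 := congrArg norm h1
        rw [norm_smul, hu, mul_one, Real.norm_of_nonneg hT.le, norm_zero] at h2
        exact hT.ne' h2
      have key : ∀ z, ∃ c, Cn (sg x (x + T • u)) z c ∧ c ≤ w z ∧ (z ∉ V → Ant c) ∧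
          (z ∈ V → c = (if x = z then {u} else 0) + if x + T • u = z then {-u} else 0) := by
        intro z
        by_cases hz : z ∈ segment ℝ x (x + T • u)
        · obtain ⟨t, ht, rfl⟩ := (mem_seg hT).1 hz
          rcases ht.1.eq_or_lt with h1 | h1
          · rw [← h1, zero_smul, add_zero]
            exact ⟨{u}, cn_ray x hu hT, Multiset.singleton_le.2 hxu, fun h => absurd hx h,
              fun _ => by rw [if_pos rfl, if_neg hne.symm, add_zero]⟩
          rcases ht.2.eq_or_lt with h2 | h2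
          · rw [h2]
            exact ⟨{-u}, cn_end x hu hT, Multiset.singleton_le.2 hb', fun h => absurd hb h,
              fun _ => by rw [if_pos rfl, if_neg hne, zero_add]⟩
          · obtain ⟨m1, m2, m3⟩ := hmid t ⟨h1, h2⟩
            refine ⟨{u} + {-u}, cn_mid x hu ⟨h1, h2⟩, ?_, fun _ => ant_pair u,
              fun h => absurd h m1⟩
            rw [Multiset.singleton_add]
            exact (Multiset.cons_le_of_notMem (by simpa using ne_neg hu)).2
              ⟨m2, Multiset.singleton_le.2 m3⟩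
        · refine ⟨0, cn_off hz, Multiset.zero_le _, fun _ => rfl, fun _ => ?_⟩
          rw [if_neg, if_neg, add_zero]
          · rintro rfl
            exact hz (right_mem_segment _ _ _)
          · rintro rfl
            exact hz (left_mem_segment _ _ _)
      choose c c1 c2 c3 c4 using key
      have hwc : ∀ z, w z - c z + c z = w z := fun z => Multiset.sub_add_cancel (c2 z)
      have hw' : ∀ z, Cn (μ - sg x (x + T • u)) z (w z - c z) := fun z =>
        Cn.sub (by rw [hwc]; exact hw z) (c1 z)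
      obtain ⟨m, a, b, h1, h2, h3⟩ := ih (μ - sg x (x + T • u)) (fun z => w z - c z)
        (le_antisymm ((Measure.sub_le _).trans h0.le) zero_le) hw' (fun z hz => by
          have e1 := hV z hz
          have e2 := c3 z hz
          unfold Ant at e1 e2 ⊢
          rw [← hwc z, Multiset.map_add, e2] at e1
          exact add_right_cancel e1) (by
          refine lt_of_lt_of_le (Finset.sum_lt_sum (fun z _ => ?_) ⟨x, hx, ?_⟩)
            (Nat.le_of_lt_succ hn)
          · exact Multiset.card_le_card (Multiset.sub_le_self _ _)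
          · conv_rhs => rw [← hwc x, Multiset.card_add]
            rw [c4 x hx, if_pos rfl]
            simp)
      refine ⟨m + 1, Fin.cons x a, Fin.cons (x + T • u) b, fun e => ?_, ?_, fun y => ?_⟩
      · refine Fin.cases ?_ (fun e => ?_) e
        · exact hne
        · exact h1 e
      · unfold msr at h2 ⊢
        rw [Fin.sum_univ_succ]
        simp only [Fin.cons_zero, Fin.cons_succ]
        rw [← h2, add_comm]
        exact eq_of_cn fun z => ⟨w z, hw z, hwc z ▸ (hw' z).add (c1 z)⟩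
      · have h4 := h3 y
        rw [en_eq] at h4 ⊢
        rw [Fin.sum_univ_succ]
        simp only [Fin.cons_zero, Fin.cons_succ]
        rw [h4, dir_fw x hu hT, dir_bw x hu hT]
        by_cases hy : y ∈ V
        · rw [if_pos hy, if_pos hy, ← c4 y hy, add_comm, hwc]
        · rw [if_neg hy, if_neg hy, if_neg, if_neg, add_zero, add_zero]
          · rintro rfl
            exact hy hb
          · rintro rfl
            exact hy hx
    · have hz : ∀ y, w y = 0 := by
        intro y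
        by_contra hc
        obtain ⟨u, hu⟩ := Multiset.exists_mem_of_ne_zero hc
        obtain ⟨T, -, hb, hb', -⟩ := nxt hW h0 hw hV hu
        exact hex ⟨_, hb, _, hb'⟩
      refine ⟨0, Fin.elim0, Fin.elim0, fun e => e.elim0, ?_, fun y => ?_⟩
      · unfold msr
        rw [Finset.sum_of_isEmpty]
        exact eq_of_cn fun z => ⟨0, hz z ▸ hw z, Cn.zero z⟩
      · rw [en_eq, Finset.sum_of_isEmpty, hz, ite_self]

end Nt

open Classical in
theorem net {μ : Ms} [IsFiniteMeasure μ] {W : Set ℂ} (hW : IsCompact W) (h0 : μ Wᶜ = 0)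
    (w : ℂ → Multiset ℂ) (hw : ∀ y, ∃ r, ConeAt μ y r (w y)) :
    ∃ (m : ℕ) (a b : Fin m → ℂ), (∀ e, a e ≠ b e) ∧ μ = msr a b ∧
      ∀ y, En a b y = if (w y).map (fun v => -v) = w y then 0 else w y := by
  have hf := Nt.fin_V hW h0 hw
  obtain ⟨m, a, b, h1, h2, h3⟩ := Nt.ind hW hf.toFinset _ μ w h0 hw
    (fun y hy => by simpa using hy) (Nat.lt_succ_self _)
  refine ⟨m, a, b, h1, h2, fun y => ?_⟩
  rw [h3]
  by_cases h : Nt.Ant (w y)
  · rw [if_neg (by simpa using h)]
    exact (if_pos h).symm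
  · rw [if_pos (by simpa using h)]
    exact (if_neg h).symm

end Pool.Agent.MP_20201c_gt.H91
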