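import Pool.Agent.MP_20201c_gt.H91.LimX
import Pool.Agent.MP_20201c_gt.H91.Loc
import Pool.Agent.MP_20201c_gt.H91.ClsP
import Pool.Agent.MP_20201c_gt.H91.ClsI
import Pool.Agent.MP_20201c_gt.H91.ClsY
import Pool.Agent.MP_20201c_gt.H91.NetM

/-! Critical levels are lengths of networks. -/

open MeasureTheory Set Filter Topology
open scoped ENNReal

namespace Pool.Agent.MP_20201c_gt.H91

theorem crit_zero {μ : Ms} {y : ℂ} {r r' : ℝ} {w : Multiset ℂ} (h : ConeAt μ y r w)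
    (hr' : 0 < r') (h0 : μ (Metric.ball y r') = 0) : w = 0 := by
  have hr := h.1
  have hm : 0 < min r r' := lt_min hr hr'
  have h1 : min r r' / 2 < r := lt_of_lt_of_le (half_lt_self hm) (min_le_left _ _)
  have h2 : min r r' / 2 < r' := lt_of_lt_of_le (half_lt_self hm) (min_le_right _ _)
  have h3 := h.real_cb (s := min r r' / 2) ⟨half_pos hm, h1⟩
  have h4 : μ (cb y (min r r' / 2)) = 0 :=
    measure_mono_null (Metric.closedBall_subset_ball h2) h0
  rw [Measure.real, h4, ENNReal.toReal_zero] at h3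
  rcases mul_eq_zero.mp h3.symm with h5 | h5
  · exact Multiset.card_eq_zero.mp (Nat.cast_eq_zero.mp h5)
  · exact absurd h5 (half_pos hm).ne'

theorem crit_null {μ : Ms} {y : ℂ} {r : ℝ} (h : ConeAt μ y r 0) : μ (Metric.ball y r) = 0 := by
  have h1 := h.2.2
  rw [Multiset.map_zero, Multiset.sum_zero] at h1
  exact Measure.restrict_eq_zero.mp h1

theorem crit {G : Set ℂ} {ν : ℂ → ℂ × ℂ} {y₀ : ℂ} {R₀ : ℝ} {n₀ : ℕ} {p : Fin n₀ → ℂ}
    (hS : Setup G ν y₀ R₀ p) {N : ℕ} (M : ℕ) {DI : Set ℕ} {DB : ℂ → Set ℕ} {η : ℝ} (hη : 0 ≤ η)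
    (hI : OI N G DI) (hB : OB N G ν DB (η ^ 2 / 8)) (c : ℝ) :
    UC N M G (cb y₀ R₀) (ind p) c ∨
      ∃ (m : ℕ) (a b : Fin m → ℂ), Net G ν y₀ R₀ p DI DB η M c a b := by
  classical
  by_cases hU : UC N M G (cb y₀ R₀) (ind p) c
  · exact Or.inl hU
  refine Or.inr ?_
  obtain ⟨𝒰, T, μ, ρ₀, Y, hD⟩ :=
    exists_limD (isCompact_closedBall y₀ R₀) (convex_closedBall y₀ R₀) hU
  have hfin := hD.lim.fin
  have hex : ∀ y : ℂ, ∃ w : Multiset ℂ, (∃ r, ConeAt μ y r w) ∧
      (y ∈ cb y₀ R₀ → ∃ r, LocAt 𝒰 G T μ y r w) ∧ (y ∉ cb y₀ R₀ → w = 0) := by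
    intro y
    by_cases hy : y ∈ cb y₀ R₀
    · obtain ⟨r, w, h⟩ := loc hS hD hy
      exact ⟨w, ⟨r, h.cone⟩, fun _ => ⟨r, h⟩, fun h' => absurd hy h'⟩
    · obtain ⟨r, hr, hsub⟩ := Metric.isOpen_iff.mp Metric.isClosed_closedBall.isOpen_compl y hy
      refine ⟨0, ⟨r, hr, by simp, ?_⟩, fun h' => absurd h' hy, fun _ => rfl⟩
      rw [Multiset.map_zero, Multiset.sum_zero]
      exact Measure.restrict_eq_zero.mpr (measure_mono_null hsub hD.lim.supp)
  choose w hw hloc hout using hex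
  have hcl : ∀ y, y ∉ closure G → w y = 0 := by
    intro y hy
    by_cases h : y ∈ cb y₀ R₀
    · obtain ⟨r, hr⟩ := hloc y h
      exact cls0 hy hr
    · exact hout y h
  have h0 : μ (closure G)ᶜ = 0 := by
    refine measure_null_of_locally_null _ fun y hy => ?_
    obtain ⟨r, hr⟩ := hw y
    rw [hcl y hy] at hr
    exact ⟨Metric.ball y r, mem_nhdsWithin_of_mem_nhds (Metric.ball_mem_nhds y hr.1), crit_null hr⟩
  have hrim : ∀ y, y ∉ Metric.ball y₀ R₀ → y ∉ range p → w y = 0 := by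
    intro y hy hp
    by_cases h : y ∈ cb y₀ R₀
    · have hs : y ∈ Metric.sphere y₀ R₀ := by
        rw [Metric.mem_sphere]
        exact le_antisymm (Metric.mem_closedBall.mp h) (not_lt.mp fun h' => hy h')
      obtain ⟨r', hr', hz⟩ := loc_rim hS hD hs hp
      obtain ⟨r, hr⟩ := hw y
      exact crit_zero hr hr' hz
    · exact hout y h
  obtain ⟨m, a, b, hne, hμ, hE⟩ := net (isCompact_closedBall y₀ R₀) hD.lim.supp w hw
  have hE0 : ∀ y, w y = 0 → En a b y = 0 := by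
    intro y hy
    rw [hE y, hy, ite_self]
  have hE1 : ∀ y, En a b y ≠ 0 → En a b y = w y ∧ (w y).map (fun v => -v) ≠ w y ∧ w y ≠ 0 := by
    intro y hy
    by_cases h : (w y).map (fun v => -v) = w y
    · rw [hE y, if_pos h] at hy
      exact absurd rfl hy
    · exact ⟨by rw [hE y, if_neg h], h, fun h' => hy (hE0 y h')⟩
  have hbd : ∀ y, y ∉ G → w y ≠ 0 → y ∈ frontier G ∧ y ∈ Metric.ball y₀ R₀ := by
    intro y hy hw0
    refine ⟨⟨by_contra fun h => hw0 (hcl y h), fun h => hy (interior_subset h)⟩, ?_⟩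
    by_contra h
    refine hw0 (hrim y h ?_)
    rintro ⟨i, rfl⟩
    exact hy (hS.mem i).2
  refine ⟨m, a, b, hne, ?_, ?_, ?_, ?_, ?_, ?_⟩
  · intro e x hx
    by_contra hx'
    have hop : IsOpen (cb y₀ R₀ ∩ closure G)ᶜ :=
      (Metric.isClosed_closedBall.inter isClosed_closure).isOpen_compl
    obtain ⟨r, hr, hsub⟩ := Metric.isOpen_iff.mp hop x hx'
    have hz : μ (Metric.ball x r) = 0 := by
      refine measure_mono_null hsub ?_
      rw [compl_inter]
      exact measure_union_null hD.lim.supp h0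
    have hle : sg (a e) (b e) (Metric.ball x r) ≤ μ (Metric.ball x r) := by
      rw [hμ, msr, Measure.finsetSum_apply]
      exact Finset.single_le_sum (f := fun i => sg (a i) (b i) (Metric.ball x r))
        (fun _ _ => zero_le) (Finset.mem_univ e)
    rw [hz] at hle
    exact absurd (sg_pos (hne e) hx hr) (not_lt.mpr hle)
  · rw [← msr_real_univ, ← hμ]
    exact hD.mass
  · intro i
    obtain ⟨r, hr⟩ := hloc (p i) (Metric.sphere_subset_closedBall (hS.mem i).1)
    have h1 := clsP hS hD i hr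
    obtain ⟨v, hv⟩ := Multiset.card_eq_one.mp h1
    have hn : ‖v‖ = 1 := hr.cone.2.1 v (by rw [hv]; exact Multiset.mem_singleton_self v)
    have h2 : (w (p i)).map (fun v => -v) ≠ w (p i) := by
      rw [hv, Multiset.map_singleton]
      intro h
      have h3 : -v = v := Multiset.singleton_inj.mp h
      have h4 : v = 0 := by linear_combination (-1 / 2 : ℂ) * h3
      rw [h4, norm_zero] at hn
      exact zero_ne_one hn
    rw [hE, if_neg h2, h1]
  · intro y hy hp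
    by_cases hz : En a b y = 0
    · exact ⟨by rw [hz, Multiset.sum_zero], fun _ => hz⟩
    obtain ⟨h1, h2, h3⟩ := hE1 y hz
    have hb : y ∈ Metric.ball y₀ R₀ := by_contra fun h => h3 (hrim y h hp)
    obtain ⟨r, hr⟩ := hloc y (Metric.ball_subset_closedBall hb)
    have h4 := clsI hS hD hb hy hr
    rw [h1]
    exact ⟨h4.1, fun h => absurd (h4.2 DI hI h) h2⟩
  · intro y hy hz
    obtain ⟨h1, _, h3⟩ := hE1 y hz
    obtain ⟨hf, hb⟩ := hbd y hy h3
    obtain ⟨r, hr⟩ := hloc y (Metric.ball_subset_closedBall hb)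
    have h4 := clsB hS hD hb hf hr
    rw [h1]
    exact ⟨hf, h4.1, clsD hS h0 hf hr.cone, h4.2 DB η hη hB⟩
  · refine ⟨Y, hD.card, fun y hy hY hz => ?_⟩
    obtain ⟨h1, h2, h3⟩ := hE1 y hz
    obtain ⟨hf, hb⟩ := hbd y hy h3
    obtain ⟨r, hr⟩ := hloc y (Metric.ball_subset_closedBall hb)
    rw [h1]
    exact (clsY hS hD hb hf hY hr (clsD hS h0 hf hr.cone)).resolve_left h2

end Pool.Agent.MP_20201c_gt.H91
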