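import Mathlib

/-!
Definitions used by the statement on `p`-widths of planar domains and billiard trajectories.
The plane is `ℂ` with Lebesgue measure.
-/

open MeasureTheory Set
open scoped ENNReal

namespace Pool.Agent.MP_20201c_gt.H91

/-- Divergence of a vector field of the plane. -/
noncomputable def dvg (φ : ℂ → ℂ) (z : ℂ) : ℝ :=
  (fderiv ℝ φ z 1).re + (fderiv ℝ φ z Complex.I).im

/-- Perimeter of `E` in the open set `U` (the mass in `U` of the boundary of `E`). -/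
noncomputable def per (E U : Set ℂ) : ℝ≥0∞ :=
  ⨆ (φ : ℂ → ℂ) (_ : ContDiff ℝ 1 φ) (_ : HasCompactSupport φ) (_ : tsupport φ ⊆ U)
    (_ : ∀ z, ‖φ z‖ ≤ 1), ENNReal.ofReal (∫ z in E, dvg φ z)

/-- Flat `2`-chains mod `2`: measurable sets. -/
def Ch2 (_Ω : Set ℂ) : Type := {E : Set ℂ // MeasurableSet E}

/-- Flat distance in `Ω` of the boundaries of `E` and `F`: the least area of a region of `Ω`
bounded by the difference of the two boundaries. -/
noncomputable def fdist (Ω E F : Set ℂ) : ℝ≥0∞ :=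
  min (volume (symmDiff E F ∩ Ω)) (volume (symmDiff E Fᶜ ∩ Ω))

theorem fdist_self (Ω E : Set ℂ) : fdist Ω E E = 0 := by simp [fdist]

theorem fdist_comm (Ω E F : Set ℂ) : fdist Ω E F = fdist Ω F E := by
  have h : symmDiff E Fᶜ = symmDiff F Eᶜ := by
    ext x; simp only [mem_symmDiff, mem_compl_iff]; tauto
  rw [fdist, fdist, symmDiff_comm E F, h]

theorem fdist_triangle (Ω E F G : Set ℂ) : fdist Ω E G ≤ fdist Ω E F + fdist Ω F G := by
  have key : ∀ A B C : Set ℂ, A ⊆ B ∪ C →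
      volume (A ∩ Ω) ≤ volume (B ∩ Ω) + volume (C ∩ Ω) := by
    intro A B C h
    refine le_trans (measure_mono ?_) (measure_union_le _ _)
    rintro x ⟨hx, hΩ⟩
    rcases h hx with h | h
    · exact Or.inl ⟨h, hΩ⟩
    · exact Or.inr ⟨h, hΩ⟩
  unfold fdist
  rcases min_choice (volume (symmDiff E F ∩ Ω)) (volume (symmDiff E Fᶜ ∩ Ω)) with h1 | h1 <;>
  rcases min_choice (volume (symmDiff F G ∩ Ω)) (volume (symmDiff F Gᶜ ∩ Ω)) with h2 | h2 <;>
  rw [h1, h2]
  · refine le_trans (min_le_left _ _) (key _ _ _ ?_)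
    intro x; simp only [mem_symmDiff, mem_union]; tauto
  · refine le_trans (min_le_right _ _) (key _ _ _ ?_)
    intro x; simp only [mem_symmDiff, mem_union, mem_compl_iff]; tauto
  · refine le_trans (min_le_right _ _) (key _ _ _ ?_)
    intro x; simp only [mem_symmDiff, mem_union, mem_compl_iff]; tauto
  · refine le_trans (min_le_left _ _) (key _ _ _ ?_)
    intro x; simp only [mem_symmDiff, mem_union, mem_compl_iff]; tauto

noncomputable instance instCh2 (Ω : Set ℂ) : PseudoEMetricSpace (Ch2 Ω) where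
  edist E F := fdist Ω E.1 F.1
  edist_self E := fdist_self Ω E.1
  edist_comm E F := fdist_comm Ω E.1 F.1
  edist_triangle E F G := fdist_triangle Ω E.1 F.1 G.1

/-- The space of relative flat `1`-cycles mod `2` that bound, with the flat topology. -/
abbrev Cyc (Ω : Set ℂ) : Type := SeparationQuotient (Ch2 Ω)

/-- Mass of a cycle in the open set `U ∩ Ω`. -/
noncomputable def massIn (Ω : Set ℂ) (z : Cyc Ω) (U : Set ℂ) : ℝ≥0∞ :=
  ⨅ (E : Ch2 Ω) (_ : SeparationQuotient.mk E = z), per E.1 (U ∩ Ω)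

/-- The standard simplex with `n` vertices. -/
abbrev Sm (n : ℕ) : Type := stdSimplex ℝ (Fin n)

/-- The face opposite to the vertex `i`. -/
noncomputable def face (n : ℕ) (i : Fin (n + 1)) : C(Sm n, Sm (n + 1)) :=
  ⟨stdSimplex.map i.succAbove, stdSimplex.continuous_map _⟩

/-- The edge from the vertex `i` to the vertex `i + 1`. -/
noncomputable def edge (p : ℕ) (i : Fin p) : C(Sm 2, Sm (p + 1)) :=
  ⟨stdSimplex.map ![i.castSucc, i.succ], stdSimplex.continuous_map _⟩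

/-- Singular `1`-cocycles mod `2`. -/
def IsCocycle {Y : Type} [TopologicalSpace Y] (lam : C(Sm 2, Y) → ZMod 2) : Prop :=
  ∀ σ : C(Sm 3, Y), ∑ i, lam (σ.comp (face 2 i)) = 0

/-- The `p`-th cup power (Alexander-Whitney formula) of a singular `1`-cochain. -/
noncomputable def cupPow {Y : Type} [TopologicalSpace Y] (lam : C(Sm 2, Y) → ZMod 2) (p : ℕ)
    (σ : C(Sm (p + 1), Y)) : ZMod 2 :=
  ∏ i : Fin p, lam (σ.comp (edge p i))

/-- Singular `p`-coboundaries mod `2`. -/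
def IsCob {X : Type} [TopologicalSpace X] (p : ℕ) (c : C(Sm (p + 1), X) → ZMod 2) : Prop :=
  ∃ μ : C(Sm p, X) → ZMod 2, ∀ σ, c σ = ∑ i, μ (σ.comp (face p i))

/-- `p`-sweepouts. -/
structure Sweepout (Ω : Set ℂ) (p : ℕ) where
  N : ℕ
  K : Geometry.SimplicialComplex ℝ (EuclideanSpace ℝ (Fin N))
  fin : K.faces.Finite
  Φ : C(K.space, Cyc Ω)
  noConc : ∀ ε : ℝ≥0∞, 0 < ε → ∃ r : ℝ, 0 < r ∧ ∀ x q, massIn Ω (Φ x) (Metric.ball q r) ≤ ε
  detect : ∃ lam : C(Sm 2, Cyc Ω) → ZMod 2, IsCocycle lam ∧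
    ¬ IsCob p (fun σ : C(Sm (p + 1), K.space) => cupPow lam p (Φ.comp σ))

/-- The `p`-width. -/
noncomputable def width (Ω : Set ℂ) (p : ℕ) : ℝ≥0∞ :=
  ⨅ S : Sweepout Ω p, ⨆ x, massIn Ω (S.Φ x) univ

/-- The tangent line at `q` of the level curve of `ρ`. -/
noncomputable def tang (ρ : ℂ → ℝ) (q : ℂ) : Submodule ℝ ℂ :=
  LinearMap.ker (fderiv ℝ ρ q : ℂ →ₗ[ℝ] ℝ)

/-- Unit direction of the oriented segment from `s.1` to `s.2`. -/
noncomputable def dir (s : ℂ × ℂ) : ℂ := ‖s.2 - s.1‖⁻¹ • (s.2 - s.1)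

/-- Specular reflection from the segment `s` to the segment `s'`. -/
def Refl (ρ : ℂ → ℝ) (s s' : ℂ × ℂ) : Prop :=
  s.2 = s'.1 ∧ dir s' = (tang ρ s.2).reflection (dir s)

/-- Billiard trajectories in `{ρ > 0}`, as lists of oriented segments. -/
def IsBilliard (ρ : ℂ → ℝ) (γ : List (ℂ × ℂ)) : Prop :=
  ∃ h : γ ≠ [],
    (∀ s ∈ γ, s.1 ≠ s.2 ∧ s.1 ∈ frontier {z | 0 < ρ z} ∧ s.2 ∈ frontier {z | 0 < ρ z} ∧
      segment ℝ s.1 s.2 ⊆ closure {z | 0 < ρ z}) ∧
    γ.IsChain (Refl ρ) ∧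
    (Refl ρ (γ.getLast h) (γ.head h) ∨
      (dir (γ.head h) ∈ (tang ρ (γ.head h).1)ᗮ ∧
        dir (γ.getLast h) ∈ (tang ρ (γ.getLast h).2)ᗮ))

/-- Length of a trajectory. -/
noncomputable def len (γ : List (ℂ × ℂ)) : ℝ := (γ.map fun s => ‖s.2 - s.1‖).sum

end Pool.Agent.MP_20201c_gt.H91
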