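import Pool.Agent.MP_20201c_gt.H91.Defs0

/-!
Chains mod `2`. A simplex of `Y` is an arbitrary map from a standard simplex with `n` vertices
(`n = 0` is the empty simplex, so the complexes are augmented); the complexes are not graded.
-/

open Set

namespace Pool.Agent.MP_20201c_gt.H91

abbrev F2 : Type := ZMod 2

abbrev Sx (Y : Type) : Type := Σ n : ℕ, (Sm n → Y)

abbrev Ch (Y : Type) : Type := Sx Y →₀ F2

instance instEmptySm : IsEmpty (Sm 0) := ⟨fun x => by simpa using x.2.2⟩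

/-- The empty simplex. -/
def emp (Y : Type) : Sx Y := ⟨0, fun x => isEmptyElim x⟩

/-- The face map as a plain function. -/
noncomputable def fc (n : ℕ) (i : Fin (n + 1)) : Sm n → Sm (n + 1) :=
  stdSimplex.map i.succAbove

noncomputable def one {B : Type} (b : B) : B →₀ F2 := Finsupp.single b 1

noncomputable def lift {B C : Type} [AddCommGroup C] [Module F2 C] (f : B → C) :
    (B →₀ F2) →ₗ[F2] C := Finsupp.linearCombination F2 f

noncomputable def bdS {Y : Type} : Sx Y → Ch Y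
  | ⟨0, _⟩ => 0
  | ⟨n + 1, f⟩ => ∑ i : Fin (n + 1), one ⟨n, f ∘ fc n i⟩

noncomputable def bd {Y : Type} : Ch Y →ₗ[F2] Ch Y := lift bdS

def smap {Y Y' : Type} (g : Y → Y') (s : Sx Y) : Sx Y' := ⟨s.1, g ∘ s.2⟩

noncomputable def mp {Y Y' : Type} (g : Y → Y') : Ch Y →ₗ[F2] Ch Y' :=
  lift fun s => one (smap g s)

/-- Chains supported in a set of generators. -/
abbrev Sp {B : Type} (P : Set B) : Submodule F2 (B →₀ F2) := Finsupp.supported F2 F2 P

def Dle (Y : Type) (N : ℕ) : Set (Sx Y) := {s | s.1 ≤ N}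

def Deq (Y : Type) (N : ℕ) : Set (Sx Y) := {s | s.1 = N}

/-- Closed under faces. -/
def FaceCl {Y : Type} (P : Set (Sx Y)) : Prop :=
  ∀ (n : ℕ) (f : Sm (n + 1) → Y) (i : Fin (n + 1)),
    (⟨n + 1, f⟩ : Sx Y) ∈ P → (⟨n, f ∘ fc n i⟩ : Sx Y) ∈ P

/-- Closed under composition with continuous maps of standard simplices. -/
def PreCl {Y : Type} (P : Set (Sx Y)) : Prop :=
  ∀ (n k : ℕ) (f : Sm n → Y) (φ : Sm k → Sm n), Continuous φ →
    (⟨n, f⟩ : Sx Y) ∈ P → (⟨k, f ∘ φ⟩ : Sx Y) ∈ P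

/-- Continuous simplices. -/
def Cts (Y : Type) [TopologicalSpace Y] : Set (Sx Y) := {s | Continuous s.2}

/-- Every cycle of `P` bounds in `P'`. -/
def Bnd {Y : Type} (P P' : Set (Sx Y)) : Prop :=
  ∀ z ∈ Sp P, bd z = 0 → ∃ w ∈ Sp P', bd w = z

/-- List chains. -/
abbrev LCh (A : Type) : Type := List A →₀ F2

noncomputable def bdLS {A : Type} (l : List A) : LCh A :=
  ∑ i : Fin l.length, one (l.eraseIdx i)

noncomputable def bdL {A : Type} : LCh A →ₗ[F2] LCh A := lift bdLS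

noncomputable def mpL {A A' : Type} (g : A → A') : LCh A →ₗ[F2] LCh A' :=
  lift fun l => one (l.map g)

open Classical in
/-- A singular `1`-cochain extended by zero to all maps. -/
noncomputable def lamX {Y : Type} [TopologicalSpace Y] (lam : C(Sm 2, Y) → ZMod 2)
    (f : Sm 2 → Y) : F2 :=
  if h : Continuous f then lam ⟨f, h⟩ else 0

/-- The cup power on simplices of the ungraded complex. -/
noncomputable def cupS {Y : Type} [TopologicalSpace Y] (lam : C(Sm 2, Y) → ZMod 2) (p : ℕ) :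
    Sx Y → F2
  | ⟨0, _⟩ => 0
  | ⟨n + 1, f⟩ => if n = p then ∏ i : Fin n, lamX lam (f ∘ edge n i) else 0

end Pool.Agent.MP_20201c_gt.H91
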