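import Pool.Agent.MP_20201c_gt.H91.KitC

/-!
The polygonal model. A point is a finite sum of length measures of segments. `G` is the set where
the parity of the boundary is prescribed (the complement of `G` is free), `W` contains the segments.
-/

open MeasureTheory Set Filter Topology
open scoped ENNReal

namespace Pool.Agent.MP_20201c_gt.H91

abbrev Ms : Type := Measure ℂ

abbrev cb (y : ℂ) (R : ℝ) : Set ℂ := Metric.closedBall y R

/-- Euclidean inner product. -/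
def ip (a b : ℂ) : ℝ := a.re * b.re + a.im * b.im

/-- Determinant. -/
def dt (a b : ℂ) : ℝ := a.re * b.im - a.im * b.re

/-- Length measure of the segment from `a` to `b`. -/
noncomputable def sg (a b : ℂ) : Ms :=
  ENNReal.ofReal ‖b - a‖ •
    Measure.map (fun t : ℝ => a + t • (b - a)) (volume.restrict (Icc (0 : ℝ) 1))

noncomputable def msr {m : ℕ} (a b : Fin m → ℂ) : Ms := ∑ i, sg (a i) (b i)

/-- Polygonal measures with end points in `W`. -/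
def Poly (W : Set ℂ) (μ : Ms) : Prop :=
  ∃ (m : ℕ) (a b : Fin m → ℂ), (∀ i, a i ∈ W ∧ b i ∈ W) ∧ μ = msr a b

/-- Families of polygonal measures with continuous end points in `W`. -/
def Fam (W : Set ℂ) {X : Type} [TopologicalSpace X] (u : X → Ms) : Prop :=
  ∃ (m : ℕ) (a b : Fin m → X → ℂ), (∀ i, Continuous (a i) ∧ Continuous (b i)) ∧
    (∀ i x, a i x ∈ W ∧ b i x ∈ W) ∧ ∀ x, u x = msr (fun i => a i x) (fun i => b i x)

open Classical in
/-- Boundary mod two, read off from the density. -/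
noncomputable def bdy (μ : Ms) (z : ℂ) : F2 :=
  if ∃ k : ℕ, Odd k ∧ ∀ᶠ r in 𝓝[>] (0 : ℝ), μ (cb z r) = ENNReal.ofReal (k * r) then 1 else 0

/-- Scaling about `o`. -/
noncomputable def scl (o : ℂ) (l : ℝ) (μ : Ms) : Ms :=
  ENNReal.ofReal l • Measure.map (fun x => o + l • (x - o)) μ

def Par (G W : Set ℂ) (β : ℂ → F2) (μ : Ms) : Prop := ∀ z ∈ W, z ∈ G → bdy μ z = β z

def Nice (G W : Set ℂ) (β : ℂ → F2) (t : ℝ) : Set (Sx Ms) :=
  {s | Fam W s.2 ∧ ∀ x, Par G W β (s.2 x) ∧ (s.2 x).real univ < t}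

def Fill (N : ℕ) (G W : Set ℂ) (β : ℂ → F2) (t t' : ℝ) : Prop :=
  Bnd (Nice G W β t ∩ Dle Ms N) (Nice G W β t')

/-- Acyclic above the level `a`. -/
def Acyc (N : ℕ) (G W : Set ℂ) (β : ℂ → F2) (a : ℝ) : Prop :=
  ∀ t, a ≤ t → ∀ ε, 0 < ε → Fill N G W β t (t + ε)

/-- Admissible apex: the free part of `W` is star shaped about `o`. -/
def Adm (G W : Set ℂ) (o : ℂ) : Prop :=
  o ∈ W ∧ ∀ x ∈ W, x ∉ G → ∀ z ∈ segment ℝ o x, z ∉ G

open Classical in
noncomputable def ind {n : ℕ} (p : Fin n → ℂ) (z : ℂ) : F2 := ∑ i, if p i = z then 1 else 0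

def Step (G W : Set ℂ) (β : ℂ → F2) (t : ℝ) (T T' : Ms) : Prop :=
  ∃ u : ℝ → Ms, Fam W u ∧ u 0 = T ∧ u 1 = T' ∧ ∀ τ, Par G W β (u τ) ∧ (u τ).real univ < t

/-- An improving path with gain `γ` and no barrier. -/
def IP (G W : Set ℂ) (T : Ms) (γ : ℝ) : Prop :=
  ∀ ε, 0 < ε → ∃ T', Relation.ReflTransGen (Step G W (bdy T) (T.real univ + ε)) T T' ∧
    T'.real univ ≤ T.real univ - γ

def Win (N : ℕ) (G W : Set ℂ) (T : Ms) (y : ℂ) (R g : ℝ) : Prop :=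
  Acyc N G (W ∩ cb y R) (bdy (T.restrict (cb y R))) (T.real (cb y R) - g)

def Idx (G W : Set ℂ) (T : Ms) (y : ℂ) (R g : ℝ) : Prop :=
  Adm G (W ∩ cb y R) y ∧ IP G (W ∩ cb y R) (T.restrict (cb y R)) g

/-- The level `c` is not critical. -/
def UC (N M : ℕ) (G W : Set ℂ) (β : ℂ → F2) (c : ℝ) : Prop :=
  ∀ ρ, 0 < ρ → ∃ g, 0 < g ∧ ∀ T, Poly W T → Par G W β T → |T.real univ - c| < g →
    (∃ y ∈ W, ∃ R : Fin M → ℝ, (∀ i, g ≤ R i ∧ R i ≤ ρ ∧ Win N G W T y (R i) g) ∧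
      ∀ i j, i ≠ j → g ≤ |R i - R j|) ∨
    (∃ (y : Fin M → ℂ) (R : Fin M → ℝ),
      (∀ i, y i ∈ W ∧ g ≤ R i ∧ R i ≤ ρ ∧ Idx G W T (y i) (R i) g) ∧
      ∀ i j, i ≠ j → R i + R j + g ≤ dist (y i) (y j))

end Pool.Agent.MP_20201c_gt.H91
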