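import Pool.Agent.MP_20201c_gt.H91.Defs2

/-! Definitions for the deformation argument. -/

open MeasureTheory Set Filter Topology
open scoped ENNReal

namespace Pool.Agent.MP_20201c_gt.H91

/-- Pairs of a base simplex and a simplex of measures. -/
def PairS {D : Type} (𝓐 : Set (Sx D)) (Q : Set (Sx Ms)) : Set (Sx (D × Ms)) :=
  {s | smap Prod.fst s ∈ 𝓐 ∧ smap Prod.snd s ∈ Q}

/-- The base can be contracted to `d₀`. -/
def Ctr {D : Type} (𝓐 : Set (Sx D)) (d₀ : D) : Prop :=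
  ∀ Q : Set (Sx Ms), PreCl Q → ∀ z ∈ Sp (PairS 𝓐 Q), bd z = 0 →
    ∃ h ∈ Sp (PairS 𝓐 Q), bd h = z + mp (fun x => (d₀, x.2)) z

/-- Continuous simplices whose real coordinate stays in one of the intervals `[i, i + 1]`. -/
def PieceS (n J : ℕ) : Set (Sx (Sm n × ℝ)) :=
  {s | Continuous s.2 ∧ ∃ i : ℕ, i < J ∧ ∀ x, (s.2 x).2 ∈ Icc (i : ℝ) (i + 1)}

/-- Continuous simplices with constant real coordinate. -/
def LevS (n : ℕ) (c : ℝ) : Set (Sx (Sm n × ℝ)) := {s | Continuous s.2 ∧ ∀ x, (s.2 x).2 = c}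

/-- The local problem with boundary data depending on a base point. -/
def FibS {D : Type} (𝓐 : Set (Sx D)) (G W : Set ℂ) (β : D → ℂ → F2) (t : ℝ) :
    Set (Sx (D × Ms)) :=
  {s | smap Prod.fst s ∈ 𝓐 ∧ Fam W (fun x => (s.2 x).2) ∧
    ∀ x, Par G W (β (s.2 x).1) (s.2 x).2 ∧ (s.2 x).2.real univ < t}

/-- Fine families: boundary data and masses in all discs are almost constant. -/
def Fine (W : Set ℂ) (η r₀ : ℝ) {n : ℕ} (g : Sm n → Ms) : Prop :=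
  (∀ y y', |(g y).real univ - (g y').real univ| ≤ η) ∧
  ∀ z ∈ W, ∀ R, r₀ ≤ R → R ≤ 1 →
    (∀ y y', |(g y).real (cb z R) - (g y').real (cb z R)| ≤ η) ∧
    ∃ κ : Sm n × Sm n → Ms, Fam (W ∩ cb z R) κ ∧ ∀ y y', (κ (y, y')).real univ ≤ η ∧
      ∀ x, bdy (κ (y, y')) x =
        bdy ((g y).restrict (cb z R)) x + bdy ((g y').restrict (cb z R)) x

/-- By how much the coordinates in `σ` exceed the others (and zero). -/
noncomputable def gap {n : ℕ} (σ : Finset (Fin n)) (y : Sm n) : ℝ :=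
  sInf {d | ∃ i ∈ σ, d = y.1 i ∨ ∃ i', i' ∉ σ ∧ d = y.1 i - y.1 i'}

open Classical in
noncomputable def extS {n : ℕ} (g : Sm n → Ms) (v : Fin n → ℝ) : Ms :=
  if h : v ∈ stdSimplex ℝ (Fin n) then g ⟨v, h⟩ else 0

noncomputable def baryv {n : ℕ} (σ : Finset (Fin n)) : Fin n → ℝ :=
  fun i => if i ∈ σ then (σ.card : ℝ)⁻¹ else 0

noncomputable def clamp (l : ℝ) : ℝ := max 0 (min 1 l)

/-- The value at the barycentre of the face `σ`. -/
noncomputable def anchor {n : ℕ} (g : Sm n → Ms) (σ : Finset (Fin n)) : Ms := extS g (baryv σ)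

/-- The values along the segment from `y` to the barycentre of `σ`. -/
noncomputable def ray {n : ℕ} (g : Sm n → Ms) (σ : Finset (Fin n)) (y : Sm n) (l : ℝ) : Ms :=
  extS g fun i => (1 - clamp l) * y.1 i + clamp l * baryv σ i

/-- Labels: for each colour a weight, a disc and a path to the anchor. -/
abbrev Lab : Type := ℕ → ℝ × (ℂ × ℝ) × (ℝ → Ms)

/-- The labelling of simplices attached to a choice of discs. -/
structure HatSys (Lam : ∀ n, (Sm n → Ms) → Finset (Fin n) → ℂ × ℝ)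
    (hat : ∀ n, (Sm n → Ms) → Sm n → Lab) : Prop where
  nat : ∀ n g i y, hat (n + 1) g (fc n i y) = hat n (g ∘ fc n i) y
  act : ∀ n g y σ, 0 < gap σ y → hat n g y σ.card = (gap σ y, Lam n g σ, ray g σ y)
  off : ∀ n g y j, (∀ σ : Finset (Fin n), σ.card = j → gap σ y ≤ 0) → (hat n g y j).1 = 0

/-- The discs of colour `j` are good. -/
def GoodLam (N : ℕ) (G W : Set ℂ) (β : ℂ → F2) (c₁ γ r₀ : ℝ)
    (Lam : ∀ n, (Sm n → Ms) → Finset (Fin n) → ℂ × ℝ) : Prop :=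
  ∀ n, n ≤ N → ∀ g : Sm n → Ms, (⟨n, g⟩ : Sx Ms) ∈ Nice G W β c₁ →
    ∀ σ : Finset (Fin n), σ.Nonempty → (anchor g σ).real univ ≤ c₁ - γ ∨
      ((Lam n g σ).1 ∈ W ∧ r₀ ≤ (Lam n g σ).2 ∧ (Lam n g σ).2 ≤ 1 ∧
        ((Win N G W (anchor g σ) (Lam n g σ).1 (Lam n g σ).2 γ ∧
            ∀ σ' ⊂ σ, σ'.Nonempty → Disjoint (cb (Lam n g σ').1 (Lam n g σ').2)
              (Metric.sphere (Lam n g σ).1 (Lam n g σ).2)) ∨
          (Idx G W (anchor g σ) (Lam n g σ).1 (Lam n g σ).2 γ ∧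
            ∀ σ' ⊂ σ, σ'.Nonempty → Disjoint (cb (Lam n g σ').1 (Lam n g σ').2)
              (cb (Lam n g σ).1 (Lam n g σ).2))))

/-- The discs used before round `j` on a simplex with parent `g` and projection `π`. -/
def Hist (Lam : ∀ n, (Sm n → Ms) → Finset (Fin n) → ℂ × ℝ) (j : ℕ) {n k : ℕ} (g : Sm n → Ms)
    (π : Sm k → Sm n) : Set (ℂ × ℝ) :=
  {B | ∃ σ : Finset (Fin n), σ.card < j ∧ σ.Nonempty ∧ (∀ x, 0 < gap σ (π x)) ∧ B = Lam n g σ}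

/-- The invariant before round `j`. -/
def Inv (N : ℕ) (G W : Set ℂ) (β : ℂ → F2) (c₁ η r₀ θ : ℝ)
    (Lam : ∀ n, (Sm n → Ms) → Finset (Fin n) → ℂ × ℝ) (hat : ∀ n, (Sm n → Ms) → Sm n → Lab)
    (j : ℕ) (e lo : ℝ) : Set (Sx (Ms × Lab)) :=
  {s | Fam W (fun x => (s.2 x).1) ∧ (∀ x, Par G W β (s.2 x).1) ∧
    ∃ n, n ≤ N ∧ ∃ g : Sm n → Ms, (⟨n, g⟩ : Sx Ms) ∈ Nice G W β c₁ ∧ Fine W η r₀ g ∧
      ∃ π : Sm s.1 → Sm n, Continuous π ∧ (∀ x x', dist (π x) (π x') ≤ θ / 4) ∧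
        (∀ x, (s.2 x).2 = hat n g (π x)) ∧
        (∀ x, (s.2 x).1.restrict (⋃ B ∈ Hist Lam j g π, cb B.1 B.2)ᶜ =
          (g (π x)).restrict (⋃ B ∈ Hist Lam j g π, cb B.1 B.2)ᶜ) ∧
        (∀ x Q, MeasurableSet Q →
          (∀ B ∈ Hist Lam j g π, cb B.1 B.2 ⊆ Q ∨ Disjoint (cb B.1 B.2) Q) →
          (s.2 x).1.real Q ≤ (g (π x)).real Q + e) ∧
        ∀ σ : Finset (Fin n), σ.card < j → (∃ x, 2 * θ ≤ gap σ (π x)) →
          ∀ x, (s.2 x).1.real univ < lo}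

/-- Labelled simplices whose measure component is nice. -/
def NiceL (G W : Set ℂ) (β : ℂ → F2) (t : ℝ) : Set (Sx (Ms × Lab)) :=
  {s | smap Prod.fst s ∈ Nice G W β t}

/-- The fibre of the carriers: a path parameter, a small correction and the new measure. -/
abbrev Fb : Type := ℝ × Ms × Ms

/-- Carrier of a winning disc over the simplex `f`. -/
def HiW (G W : Set ℂ) (β : ℂ → F2) {n : ℕ} (f : Sm n → Ms) (y : ℂ) (R t : ℝ) :
    Set (Sx (Sm n × Fb)) :=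
  {x | Continuous (fun p => (x.2 p).1) ∧ Fam W (fun p => (x.2 p).2.2.2) ∧
    ∀ p, (x.2 p).2.1 = 0 ∧ (x.2 p).2.2.1 = 0 ∧ Par G W β (x.2 p).2.2.2 ∧
      (x.2 p).2.2.2.restrict (cb y R)ᶜ = (f (x.2 p).1).restrict (cb y R)ᶜ ∧
      (x.2 p).2.2.2.real (cb y R) < t}

/-- Carrier of a disc with an improving path `Q` over the simplex `f`. -/
def HiI (G W : Set ℂ) {n : ℕ} (f : Sm n → Ms) (y : ℂ) (R : ℝ) (Q : Sm n → ℝ → Ms)
    (𝓐 : Set (Sx (Sm n × ℝ))) (e : ℝ) : Set (Sx (Sm n × Fb)) :=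
  {x | smap (fun q : Sm n × Fb => (q.1, q.2.1)) x ∈ 𝓐 ∧
    Fam (W ∩ cb y R) (fun p => (x.2 p).2.2.1) ∧
    ∀ p, Par G (W ∩ cb y R)
        (fun z => bdy ((f (x.2 p).1).restrict (cb y R)) z + bdy (Q (x.2 p).1 (x.2 p).2.1) z)
        (x.2 p).2.2.1 ∧
      (x.2 p).2.2.1.real univ < e ∧
      (x.2 p).2.2.2 = (f (x.2 p).1).restrict (cb y R)ᶜ + Q (x.2 p).1 (x.2 p).2.1 + (x.2 p).2.2.1}

end Pool.Agent.MP_20201c_gt.H91
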