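import Pool.Agent.MP_20201c_gt.H91.Defs2

/-! Definitions for the limit analysis and the networks. -/

open MeasureTheory Set Filter Topology
open scoped ENNReal

namespace Pool.Agent.MP_20201c_gt.H91

def Wedge (n₁ n₂ : ℂ) (b : Bool) (y : ℂ) : Set ℂ :=
  if b then {z | 0 < ip n₁ (z - y) ∨ 0 < ip n₂ (z - y)}
  else {z | 0 < ip n₁ (z - y) ∧ 0 < ip n₂ (z - y)}

/-- Open sets that are wide wedges near each boundary point. -/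
def Conic (G : Set ℂ) (ν : ℂ → ℂ × ℂ) : Prop :=
  IsOpen G ∧ ∀ y ∈ frontier G, ‖(ν y).1‖ = 1 ∧ ‖(ν y).2‖ = 1 ∧ ‖(ν y).1 - (ν y).2‖ ≤ 1 / 10 ∧
    ∃ r, 0 < r ∧ ∃ b, ∀ z ∈ Metric.ball y r, (z ∈ G ↔ z ∈ Wedge (ν y).1 (ν y).2 b y)

/-- The normals of a wedge. -/
def WNu (n₁ n₂ : ℂ) (b : Bool) (y : ℂ) (ν : ℂ → ℂ × ℂ) : Prop :=
  ν y = (n₁, n₂) ∧ ∀ z ∈ frontier (Wedge n₁ n₂ b y), z ≠ y →
    (ν z = (n₁, n₁) ∨ ν z = (n₂, n₂)) ∧ ip (ν z).1 (z - y) = 0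

/-- Length of the path from `p` to `q` reflected in the line through `y` with normal `n`. -/
noncomputable def pv (y n p q : ℂ) : ℝ :=
  √((dt n (p - q)) ^ 2 + (|ip n (p - y)| + |ip n (q - y)|) ^ 2)

/-- Interior oracle for the degrees in `DI`. -/
def OI (N : ℕ) (G : Set ℂ) (DI : Set ℕ) : Prop :=
  ∀ y ∈ G, ∃ r, 0 < r ∧ ∀ R ∈ Ioo 0 r, ∀ n ∈ DI, Even n → ∀ p : Fin n → ℂ,
    (∀ i, p i ∈ Metric.sphere y R) → ∀ a,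
      (∀ π : Fin n → Fin n, Function.Involutive π → (∑ i, ‖p i - p (π i)‖) / 2 ≤ a) →
        Acyc N G (cb y R) (ind p) a

/-- Boundary oracle for the degrees in `DB y`. -/
def OB (N : ℕ) (G : Set ℂ) (ν : ℂ → ℂ × ℂ) (DB : ℂ → Set ℕ) (θ : ℝ) : Prop :=
  ∀ y ∈ frontier G, ∃ r, 0 < r ∧ ∀ R ∈ Ioo 0 r, ∀ n ∈ DB y, ∀ p : Fin n → ℂ,
    (∀ i, p i ∈ Metric.sphere y R) → ∀ a,
      (∀ π : Fin n → Fin n, Function.Involutive π →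
        (∑ i, pv y (ν y).1 (p i) (p (π i))) / 2 + θ * R ≤ a) →
        Acyc N G (cb y R) (ind p) a

/-- The directions `w` are symmetric about the normal `n` up to `η`. -/
def RefL (η : ℝ) (n : ℂ) (w : Multiset ℂ) : Prop :=
  ∀ ψ : ℝ → ℝ, Monotone ψ → Continuous ψ →
    (w.map fun v => ψ (dt n v)).sum ≤ (w.map fun v => ψ (η - dt n v)).sum ∧
    (w.map fun v => ψ (-dt n v)).sum ≤ (w.map fun v => ψ (η + dt n v)).sum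

/-- For most indices and most radii. -/
def Most (𝒰 : Filter ℕ) (r : ℝ) (Q : ℕ → ℝ → Prop) : Prop :=
  ∀ γ : ℝ, 0 < γ → ∀ᶠ n in 𝒰, volume {R | R ∈ Ioo 0 r ∧ ¬ Q n R} ≤ ENNReal.ofReal γ

open Classical in
/-- The odd points on a circle. -/
noncomputable def Od (G : Set ℂ) (T : Ms) (y : ℂ) (R : ℝ) : Finset ℂ :=
  if h : {z | z ∈ Metric.sphere y R ∧ z ∈ G ∧ bdy (T.restrict (cb y R)) z = 1}.Finite then
    h.toFinset else ∅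

open Classical in
/-- Slices of `T` by circles and the radial parts of `T`. -/
structure SliceSys (T : Ms) (Sl : ℂ → ℝ → Multiset ℂ) (nu : ℂ → Ms) : Prop where
  par : ∀ y, ∃ X : Set ℝ, X.Finite ∧ ∀ R, 0 < R → R ∉ X → ∀ z ∈ Metric.sphere y R,
    bdy (T.restrict (cb y R)) z = ((Sl y R).count z : F2)
  sph : ∀ y R, ∀ z ∈ Sl y R, z ∈ Metric.sphere y R
  le : ∀ y, nu y ≤ T
  meas : ∀ y (f : ℂ → ℝ≥0∞), Measurable f →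
    AEMeasurable (fun R => ((Sl y R).map f).sum) (volume.restrict (Ioi (0 : ℝ)))
  coarea : ∀ y (f : ℂ → ℝ≥0∞), Measurable f →
    ∫⁻ R in Ioi (0 : ℝ), ((Sl y R).map f).sum = ∫⁻ x, f x ∂(nu y)
  two : ∀ (y y' : ℂ) (A : Set ℂ) (c : ℝ), MeasurableSet A → 0 ≤ c →
    (∀ x ∈ A, x ≠ y ∧ x ≠ y' ∧ c * (‖x - y‖ * ‖x - y'‖) ≤ |dt (x - y) (x - y')|) →
    ENNReal.ofReal (c ^ 2 / 4) * T A + nu y A + nu y' A ≤ 2 * T A

/-- Weak limit of polygonal measures. -/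
structure Lim (𝒰 : Filter ℕ) (W : Set ℂ) (T : ℕ → Ms) (μ : Ms) : Prop where
  cpt : IsCompact W
  cvx : Convex ℝ W
  poly : ∀ n, Poly W (T n)
  fin : IsFiniteMeasure μ
  supp : μ Wᶜ = 0
  conv : ∀ f : ℂ → ℝ, Continuous f → Tendsto (fun n => ∫ x, f x ∂T n) 𝒰 (𝓝 (∫ x, f x ∂μ))

/-- The limit of almost critical points. -/
structure LimD (N M : ℕ) (G W : Set ℂ) (β : ℂ → F2) (c : ℝ) (𝒰 : Ultrafilter ℕ) (T : ℕ → Ms)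
    (μ : Ms) (ρ₀ : ℝ) (Y : Finset ℂ) : Prop where
  lim : Lim 𝒰 W T μ
  par : ∀ n, Par G W β (T n)
  mass : μ.real univ = c
  pos : 0 < ρ₀
  nw : ∀ y ∈ W, ∀ γ, 0 < γ → Most 𝒰 ρ₀ fun n R => ¬ Win N G W (T n) y R (γ * R)
  card : Y.card < M
  ni : ∀ y ∈ W, y ∉ Y → (∃ r, 0 < r ∧ ∀ R ∈ Ioo 0 r, Adm G (W ∩ cb y R) y) →
    ∃ σ, 0 < σ ∧ ∀ γ, 0 < γ → Most 𝒰 σ fun n R =>
      ¬ IP G (W ∩ cb y R) ((T n).restrict (cb y R)) (γ * R)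

/-- The geometric setting: a disc, a conic open set and points on the circle. -/
structure Setup (G : Set ℂ) (ν : ℂ → ℂ × ℂ) (y₀ : ℂ) (R₀ : ℝ) {n : ℕ} (p : Fin n → ℂ) : Prop where
  pos : 0 < R₀
  conic : Conic G ν
  inj : Function.Injective p
  mem : ∀ i, p i ∈ Metric.sphere y₀ R₀ ∧ p i ∈ G
  rim : ∀ y ∈ Metric.sphere y₀ R₀, y ∈ frontier G →
    ip (ν y).1 (y₀ - y) ≤ 0 ∧ ip (ν y).2 (y₀ - y) ≤ 0

/-- Most slices have `k` odd points and the mass is almost `k R`. -/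
def T1 (𝒰 : Filter ℕ) (T : ℕ → Ms) (y : ℂ) (k : ℕ) (r : ℝ) (O : ℕ → ℝ → Finset ℂ) : Prop :=
  ∀ γ, 0 < γ → Most 𝒰 r fun n R =>
    (O n R).card = k ∧ |(T n).real (cb y R) - k * R| ≤ γ * R

structure Pack (𝒰 : Filter ℕ) (T : ℕ → Ms) (μ : Ms) (nu : ℕ → Ms) (y : ℂ) (k : ℕ) (r₀ : ℝ)
    (O : ℕ → ℝ → Finset ℂ) : Prop where
  pos : 0 < r₀
  m : ∀ r ∈ Ioo 0 r₀, μ.real (cb y r) = k * r
  t1 : T1 𝒰 T y k r₀ O
  avg : ∀ φ : ℂ → ℝ, Continuous φ → ∀ r', r' ≤ r₀ →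
    (∀ γ, 0 < γ → Most 𝒰 r' fun n R => ∑ q ∈ O n R, φ (R⁻¹ • (q - y)) ≤ γ) →
    ∀ s r, 0 < s → s < r → r < r' → ∫ x in cb y r \ cb y s, φ (‖x - y‖⁻¹ • (x - y)) ∂μ ≤ 0
  dfc : ∀ r ∈ Ioo 0 r₀,
    Tendsto (fun n => (T n).real (cb y r) - (nu n).real (cb y r)) 𝒰 (𝓝 0)

/-- `μ` is a cone with directions `w` near `y`. -/
def ConeAt (μ : Ms) (y : ℂ) (r : ℝ) (w : Multiset ℂ) : Prop :=
  0 < r ∧ (∀ v ∈ w, ‖v‖ = 1) ∧
    μ.restrict (Metric.ball y r) = (w.map fun v => sg y (y + r • v)).sum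

structure LocAt (𝒰 : Filter ℕ) (G : Set ℂ) (T : ℕ → Ms) (μ : Ms) (y : ℂ) (r : ℝ)
    (w : Multiset ℂ) : Prop where
  cone : ConeAt μ y r w
  t1 : T1 𝒰 T y w.card r fun n R => Od G (T n) y R
  avg : ∀ φ : ℂ → ℝ, Continuous φ → ∀ r', 0 < r' → r' ≤ r →
    (∀ γ, 0 < γ → Most 𝒰 r' fun n R => ∑ q ∈ Od G (T n) y R, φ (R⁻¹ • (q - y)) ≤ γ) →
    (w.map φ).sum ≤ 0

/-- Position of a dart (an end of an edge). -/
def dpos {m : ℕ} (a b : Fin m → ℂ) (δ : Fin m × Bool) : ℂ := if δ.2 then b δ.1 else a δ.1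

/-- Outgoing unit direction of a dart. -/
noncomputable def ddir {m : ℕ} (a b : Fin m → ℂ) (δ : Fin m × Bool) : ℂ :=
  if δ.2 then dir (b δ.1, a δ.1) else dir (a δ.1, b δ.1)

/-- The other end. -/
def flip {m : ℕ} (δ : Fin m × Bool) : Fin m × Bool := (δ.1, !δ.2)

open Classical in
/-- The directions of the ends at `y`. -/
noncomputable def En {m : ℕ} (a b : Fin m → ℂ) (y : ℂ) : Multiset ℂ :=
  (Finset.univ.filter fun δ => dpos a b δ = y).val.map (ddir a b)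

open Classical in
/-- The vertices. -/
noncomputable def Vx {m : ℕ} (a b : Fin m → ℂ) : Finset ℂ := Finset.univ.image (dpos a b)

/-- Critical networks. -/
structure Net (G : Set ℂ) (ν : ℂ → ℂ × ℂ) (y₀ : ℂ) (R₀ : ℝ) {n : ℕ} (p : Fin n → ℂ)
    (DI : Set ℕ) (DB : ℂ → Set ℕ) (η : ℝ) (M : ℕ) (c : ℝ) {m : ℕ} (a b : Fin m → ℂ) : Prop where
  ne : ∀ e, a e ≠ b e
  sub : ∀ e, segment ℝ (a e) (b e) ⊆ cb y₀ R₀ ∩ closure G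
  len : ∑ e, ‖b e - a e‖ = c
  atP : ∀ i, (En a b (p i)).card = 1
  atG : ∀ y ∈ G, y ∉ range p →
    (En a b y).sum = 0 ∧ ((En a b y).card ∈ DI → En a b y = 0)
  atB : ∀ y, y ∉ G → En a b y ≠ 0 → y ∈ frontier G ∧
    (∀ u, ip (ν y).1 u ≤ 0 → ip (ν y).2 u ≤ 0 → ip (En a b y).sum u ≤ 0) ∧
    (∀ v ∈ En a b y, 0 ≤ ip (ν y).1 v ∨ 0 ≤ ip (ν y).2 v) ∧
    ((En a b y).card ∈ DB y → RefL η (ν y).1 (En a b y))
  few : ∃ Y : Finset ℂ, Y.card < M ∧ ∀ y, y ∉ G → y ∉ Y → En a b y ≠ 0 →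
    3 / 4 ≤ ip (ν y).1 (En a b y).sum

end Pool.Agent.MP_20201c_gt.H91
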