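import Pool.Agent.MP_20201c_gt.H91.KitC

/-! Chains of lists. -/

open MeasureTheory Set Filter Topology
open scoped ENNReal

namespace Pool.Agent.MP_20201c_gt.H91

variable {A A' : Type}

theorem bdL_one (l : List A) : bdL (one l) = bdLS l := lift_one _ _

theorem mpL_one (g : A → A') (l : List A) : mpL g (one l) = one (l.map g) := lift_one _ _

theorem bdLS_mem (l : List A) :
    bdLS l ∈ Sp {l' : List A | l'.length + 1 = l.length ∧ l'.Sublist l} := by
  unfold bdLS
  refine Submodule.sum_mem _ fun i _ => one_mem ⟨?_, List.eraseIdx_sublist l i⟩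
  have := i.2
  rw [List.length_eraseIdx_of_lt this]
  omega

theorem bdLS_cons (a : A) (l : List A) :
    bdLS (a :: l) = one l + lift (fun l' => one (a :: l')) (bdLS l) := by
  unfold bdLS
  rw [map_sum]
  simp only [lift_one]
  exact Fin.sum_univ_succ (fun i : Fin (l.length + 1) => one ((a :: l).eraseIdx i))

theorem bdL_cons (a : A) (c : LCh A) :
    bdL (lift (fun l' => one (a :: l')) c) = c + lift (fun l' => one (a :: l')) (bdL c) := by
  refine lin_ext (bdL.comp (lift (fun l' => one (a :: l'))))
    (LinearMap.id + (lift (fun l' => one (a :: l'))).comp bdL) (fun l => ?_) c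
  simp only [LinearMap.comp_apply, LinearMap.add_apply, LinearMap.id_apply, lift_one, bdL_one]
  exact bdLS_cons a l

theorem bdLS_nil : bdLS ([] : List A) = 0 := by
  simp [bdLS]

theorem bdL_bdLS (l : List A) : bdL (bdLS l) = 0 := by
  induction l with
  | nil => rw [bdLS_nil, map_zero]
  | cons a l ih =>
    rw [bdLS_cons, map_add, bdL_cons, ih, map_zero, add_zero, bdL_one]
    exact add_self2 _

theorem mpL_cons (g : A → A') (a : A) (c : LCh A) :
    mpL g (lift (fun l' => one (a :: l')) c) = lift (fun l' => one (g a :: l')) (mpL g c) := by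
  refine lin_ext ((mpL g).comp (lift (fun l' => one (a :: l'))))
    ((lift (fun l' => one (g a :: l'))).comp (mpL g)) (fun l => ?_) c
  simp only [LinearMap.comp_apply, lift_one, mpL_one, List.map_cons]

theorem bdLS_map (g : A → A') (l : List A) : bdLS (l.map g) = mpL g (bdLS l) := by
  induction l with
  | nil => rw [List.map_nil, bdLS_nil, bdLS_nil, map_zero]
  | cons a l ih => rw [List.map_cons, bdLS_cons, bdLS_cons, map_add, mpL_one, mpL_cons, ih]

theorem bdL_bdL (c : LCh A) : bdL (bdL c) = 0 := by
  refine lin_ext (bdL.comp bdL) 0 (fun l => ?_) c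
  simp only [LinearMap.comp_apply, bdL_one, LinearMap.zero_apply]
  exact bdL_bdLS l

theorem bdL_mpL (g : A → A') (c : LCh A) : bdL (mpL g c) = mpL g (bdL c) := by
  refine lin_ext (bdL.comp (mpL g)) ((mpL g).comp bdL) (fun l => ?_) c
  simp only [LinearMap.comp_apply, bdL_one, mpL_one]
  exact bdLS_map g l

theorem mpL_mpL {A'' : Type} (g : A → A') (g' : A' → A'') (c : LCh A) :
    mpL g' (mpL g c) = mpL (g' ∘ g) c := by
  refine lin_ext ((mpL g').comp (mpL g)) _ (fun l => ?_) c
  simp only [LinearMap.comp_apply, mpL_one, List.map_map]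

theorem projL_eq {P : Set (List A)} {N : ℕ} {w : LCh A} (hw : w ∈ Sp P)
    (hz : bdL w ∈ Sp {l : List A | l.length = N}) :
    ∃ w' ∈ Sp (P ∩ {l : List A | l.length = N + 1}), bdL w' = bdL w := by
  obtain ⟨pr, hpr⟩ : ∃ pr : ℕ → (LCh A →ₗ[F2] LCh A),
      ∀ n l, pr n (one l) = if l.length = n then one l else 0 :=
    ⟨fun n => lift fun l => if l.length = n then one l else 0, fun n l => lift_one _ _⟩
  have h1 : pr (N + 1) w ∈ Sp (P ∩ {l : List A | l.length = N + 1}) := by
    refine lin_mem _ _ (fun l hl => ?_) hw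
    rw [hpr]
    split_ifs with h
    · exact one_mem ⟨hl, h⟩
    · exact Submodule.zero_mem _
  have h2 : ∀ c ∈ Sp {l : List A | l.length = N}, pr N c = c := by
    intro c hc
    refine lin_congr (pr N) LinearMap.id (fun l hl => ?_) hc
    have hl' : l.length = N := hl
    rw [hpr, if_pos hl', LinearMap.id_apply]
  have h3 : ∀ c ∈ Sp {l : List A | l.length ≠ N}, pr N c = 0 := by
    intro c hc
    refine lin_congr (pr N) 0 (fun l hl => ?_) hc
    have hl' : l.length ≠ N := hl
    rw [hpr, if_neg hl', LinearMap.zero_apply]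
  have h4 : bdL (pr (N + 1) w) = pr N (bdL w) := by
    rw [← LinearMap.comp_apply, ← LinearMap.comp_apply (pr N)]
    refine lin_ext _ _ (fun l => ?_) w
    rw [LinearMap.comp_apply, LinearMap.comp_apply, bdL_one, hpr]
    split_ifs with h
    · rw [bdL_one]
      refine (h2 _ (sp_mono (fun l' hl' => ?_) (bdLS_mem l))).symm
      have := hl'.1
      change l'.length = N
      omega
    · rw [map_zero]
      refine (h3 _ (sp_mono (fun l' hl' => ?_) (bdLS_mem l))).symm
      have := hl'.1
      change l'.length ≠ N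
      omega
  exact ⟨_, h1, by rw [h4, h2 _ hz]⟩

/-- The prism operator on lists. -/
noncomputable def prismL (g g' : A → A') : List A → LCh A'
  | [] => 0
  | a :: l => one (g a :: g' a :: l.map g') + lift (fun l' => one (g a :: l')) (prismL g g' l)

theorem prismL_cons (g g' : A → A') (a : A) (c : LCh A) :
    lift (prismL g g') (lift (fun l' => one (a :: l')) c) =
      lift (fun l' => one (g a :: l')) (lift (fun l' => one (g' a :: l')) (mpL g' c)) +
        lift (fun l' => one (g a :: l')) (lift (prismL g g') c) := by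
  refine lin_ext ((lift (prismL g g')).comp (lift (fun l' => one (a :: l'))))
    ((lift (fun l' => one (g a :: l'))).comp ((lift (fun l' => one (g' a :: l'))).comp (mpL g')) +
      (lift (fun l' => one (g a :: l'))).comp (lift (prismL g g'))) (fun l => ?_) c
  simp only [LinearMap.comp_apply, LinearMap.add_apply, lift_one, mpL_one, prismL]

theorem prism_alg {C : Type} [AddCommGroup C] [Module F2 C] (a b c p u v t : C)
    (h : u + v = t + b) : a + (b + c) + (p + u) + (p + (c + v)) = t + a := by
  have e : a + (b + c) + (p + u) + (p + (c + v)) = (u + v) + a + b + (c + c) + (p + p) := by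
    abel
  have e2 : t + b + a + b = t + a + (b + b) := by abel
  rw [e, h, add_self2, add_self2, add_zero, add_zero, e2, add_self2, add_zero]

theorem bdL_prismL (g g' : A → A') (l : List A) :
    bdL (prismL g g' l) + lift (prismL g g') (bdLS l) = one (l.map g) + one (l.map g') := by
  induction l with
  | nil => rw [bdLS_nil, prismL, map_zero, map_zero, add_zero, List.map_nil, List.map_nil,
      add_self2]
  | cons a l ih =>
    have h := congrArg (lift (fun l' => one (g a :: l'))) ih
    rw [map_add, map_add, lift_one, lift_one] at h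
    rw [prismL, map_add, bdL_one, bdL_cons, bdLS_cons, bdLS_cons, bdLS_cons, map_add, map_add,
      lift_one, lift_one, prismL_cons, bdLS_map]
    exact prism_alg _ _ _ _ _ _ _ h

theorem prismL_mem (g g' : A → A') (l : List A) :
    prismL g g' l ∈ Sp {l' : List A' | ∀ b ∈ l', ∃ a ∈ l, b = g a ∨ b = g' a} := by
  induction l with
  | nil => exact Submodule.zero_mem _
  | cons a l ih =>
    rw [prismL]
    refine Submodule.add_mem _ (one_mem ?_) (lift_mem _ _ (fun l' hl' => one_mem ?_) ih)
    · intro b hb
      rcases List.mem_cons.1 hb with rfl | hb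
      · exact ⟨a, List.mem_cons_self, Or.inl rfl⟩
      rcases List.mem_cons.1 hb with rfl | hb
      · exact ⟨a, List.mem_cons_self, Or.inr rfl⟩
      obtain ⟨x, hx, rfl⟩ := List.mem_map.1 hb
      exact ⟨x, List.mem_cons_of_mem _ hx, Or.inr rfl⟩
    · intro b hb
      rcases List.mem_cons.1 hb with rfl | hb
      · exact ⟨a, List.mem_cons_self, Or.inl rfl⟩
      obtain ⟨x, hx, h⟩ := hl' b hb
      exact ⟨x, List.mem_cons_of_mem _ hx, h⟩

/-- Two maps are chain homotopic through lists of values of the two maps. -/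
theorem homL (g g' : A → A') {z : LCh A} (h0 : bdL z = 0) :
    ∃ w : LCh A', bdL w = mpL g z + mpL g' z ∧
      ∀ l' ∈ w.support, ∃ l ∈ z.support, ∀ b ∈ l', ∃ a ∈ l, b = g a ∨ b = g' a := by
  refine ⟨lift (prismL g g') z, ?_, ?_⟩
  · have h : bdL (lift (prismL g g') z) + lift (prismL g g') (bdL z) = mpL g z + mpL g' z := by
      refine lin_ext (bdL.comp (lift (prismL g g')) + (lift (prismL g g')).comp bdL)
        (mpL g + mpL g') (fun l => ?_) z
      simp only [LinearMap.comp_apply, LinearMap.add_apply, lift_one, mpL_one, bdL_one]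
      exact bdL_prismL g g' l
    rwa [h0, map_zero, add_zero] at h
  · have h : lift (prismL g g') z ∈ Sp {l' : List A' | ∃ l ∈ z.support, ∀ b ∈ l', ∃ a ∈ l,
        b = g a ∨ b = g' a} := by
      refine lift_mem _ _ (fun l hl => ?_) (sp_support z)
      refine sp_mono ?_ (prismL_mem g g' l)
      intro l' hl'
      exact ⟨l, Finset.mem_coe.1 hl, hl'⟩
    exact mem_sp.1 h

/-- Replace `S` by `B` on the cells of `J`. -/
def mix {T C X : Type} [DecidableEq C] (cell : T → C) (J : Finset C) (B S : T → X) : T → X :=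
  fun τ => if cell τ ∈ J then B τ else S τ

/-- Filling a cycle of lists of states, one cell at a time. -/
theorem fillL {T C X : Type} [DecidableEq C] (cell : T → C) (CC : Finset C) (B : T → X)
    {z : LCh (T → X)} (h0 : bdL z = 0)
    (hz : ∀ l ∈ z.support, ∀ S ∈ l, ∀ τ, cell τ ∉ CC → S τ = B τ) :
    ∃ w : LCh (T → X), bdL w = z ∧ ∀ l' ∈ w.support, (∀ S' ∈ l', S' = B) ∨
      ∃ l ∈ z.support, ∃ (J : Finset C) (c : C), c ∈ CC ∧ ∀ S' ∈ l', ∃ S ∈ l,
        S' = mix cell J B S ∨ S' = mix cell (insert c J) B S := by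
  let Q : Set (List (T → X)) := {l' | (∀ S' ∈ l', S' = B) ∨
      ∃ l ∈ z.support, ∃ (J : Finset C) (c : C), c ∈ CC ∧ ∀ S' ∈ l', ∃ S ∈ l,
        S' = mix cell J B S ∨ S' = mix cell (insert c J) B S}
  have key : ∀ K : Finset C, K ⊆ CC → ∃ w ∈ Sp Q, bdL w = z + mpL (mix cell K B) z := by
    intro K
    induction K using Finset.induction_on with
    | empty =>
      intro _
      refine ⟨0, Submodule.zero_mem _, ?_⟩
      have e : mpL (mix cell ∅ B) z = z := by
        refine lin_ext (mpL (mix cell ∅ B)) LinearMap.id (fun l => ?_) z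
        have : mix cell (∅ : Finset C) B = id := by
          funext S τ
          simp [mix]
        rw [mpL_one, this, List.map_id, LinearMap.id_apply]
      rw [e, map_zero, add_self2]
    | insert c K _ ih =>
      intro hK
      obtain ⟨w, hw, hb⟩ := ih fun x hx => hK (Finset.mem_insert_of_mem hx)
      obtain ⟨w', hb', hw'⟩ := homL (mix cell K B) (mix cell (insert c K) B) h0
      refine ⟨w + w', Submodule.add_mem _ hw (mem_sp.2 fun l' hl' => ?_), ?_⟩
      · obtain ⟨l, hl, h⟩ := hw' l' hl'
        exact Or.inr ⟨l, hl, K, c, hK (Finset.mem_insert_self c K), h⟩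
      · rw [map_add, hb, hb', add_assoc, ← add_assoc (mpL (mix cell K B) z), add_self2, zero_add]
  obtain ⟨w, hw, hb⟩ := key CC subset_rfl
  have e : mpL (mix cell CC B) z = mpL (fun _ => B) z := by
    refine lin_congr _ _ (fun l hl => ?_) (sp_support z)
    rw [mpL_one, mpL_one]
    congr 1
    refine List.map_congr_left fun S hS => ?_
    funext τ
    unfold mix
    split_ifs with h
    · rfl
    · exact hz l hl S hS τ h
  have hy : mpL (fun _ => B) z ∈ Sp {l' : List (T → X) | ∀ S' ∈ l', S' = B} := by
    unfold mpL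
    refine lift_mem _ _ (fun l _ => ?_) (sp_support z)
    refine one_mem (P := {l' : List (T → X) | ∀ S' ∈ l', S' = B}) ?_
    intro S' hS'
    obtain ⟨_, _, rfl⟩ := List.mem_map.1 hS'
    rfl
  have hw2 : lift (fun l' => one (B :: l')) (mpL (fun _ => B) z) ∈ Sp Q := by
    refine lift_mem _ (Sp Q) (fun l hl => ?_) hy
    refine one_mem (P := Q) ?_
    refine Or.inl fun S' hS' => ?_
    rcases List.mem_cons.1 hS' with rfl | h
    · rfl
    · exact hl S' h
  refine ⟨w + lift (fun l' => one (B :: l')) (mpL (fun _ => B) z), ?_,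
    mem_sp.1 (Submodule.add_mem _ hw hw2)⟩
  rw [map_add, hb, e, bdL_cons, bdL_mpL, h0, map_zero, map_zero, add_zero, add_assoc, add_self2,
    add_zero]

end Pool.Agent.MP_20201c_gt.H91
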