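import Pool.Agent.MP_20201c_gt.H91.Defs4
import Pool.Agent.MP_20201c_gt.H91.ListKit

/-! Definitions for the realisation in the cycle space and the discretisation. -/

open MeasureTheory Set Filter Topology
open scoped ENNReal

namespace Pool.Agent.MP_20201c_gt.H91

/-- The segments `[a, b]` and `[z, z']` meet. -/
def cr (a b z z' : ℂ) : Prop := (segment ℝ a b ∩ segment ℝ z z').Nonempty

open Classical in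
def SideR (Ω : Set ℂ) {m : ℕ} (a b : Fin m → ℂ) (E : Set ℂ) : Prop :=
  ∀ᵐ q : ℂ × ℂ, segment ℝ q.1 q.2 ⊆ Ω →
    (∑ i, if cr (a i) (b i) q.1 q.2 then (1 : F2) else 0) =
      (if q.1 ∈ E then 1 else 0) + (if q.2 ∈ E then 1 else 0)

/-- The polygonal measure `μ` bounds the set `E` in `Ω` mod two. -/
def Side (Ω : Set ℂ) (μ : Ms) (E : Set ℂ) : Prop :=
  MeasurableSet E ∧ ∃ (m : ℕ) (a b : Fin m → ℂ), μ = msr a b ∧ SideR Ω a b E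

/-- The cycle of a measurable set. -/
noncomputable def cyc (Ω : Set ℂ) (E : Set ℂ) (h : MeasurableSet E) : Cyc Ω :=
  SeparationQuotient.mk (⟨E, h⟩ : Ch2 Ω)

open Classical in
/-- The cycle of a polygonal measure that bounds. -/
noncomputable def Rz (Ω : Set ℂ) (μ : Ms) : Cyc Ω :=
  if h : ∃ E, Side Ω μ E then cyc Ω h.choose h.choose_spec.1 else cyc Ω ∅ MeasurableSet.empty

open Classical in
noncomputable def ellS (Ω : Set ℂ) (lam : C(Sm 2, Cyc Ω) → ZMod 2) (p : ℕ) (s : Sx Ms) : F2 :=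
  if ∀ x, ∃ E, Side Ω (s.2 x) E then cupS lam p (smap (Rz Ω) s) else 0

/-- Levels of nice cycles that detect a cup power. -/
def MW (Ω G W : Set ℂ) (p : ℕ) : Set ℝ :=
  {t | ∃ lam : C(Sm 2, Cyc Ω) → ZMod 2, IsCocycle lam ∧
    ∃ w ∈ Sp (Nice G W 0 t ∩ Deq Ms (p + 1)), bd w = 0 ∧ lift (ellS Ω lam p) w ≠ 0}

/-- The union of a finite family of discs. -/
def UB (𝓑 : Finset (ℂ × ℝ)) : Set ℂ := ⋃ B ∈ 𝓑, cb B.1 B.2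

/-- Disjoint discs with admissible apexes. -/
def Apexed (G W : Set ℂ) (Rm : ℝ) (𝓑 : Finset (ℂ × ℝ)) : Prop :=
  (∀ B ∈ 𝓑, B.1 ∈ W ∧ 0 < B.2 ∧ B.2 ≤ Rm ∧ ∃ o, Adm G (W ∩ cb B.1 B.2) o) ∧
    ∀ B ∈ 𝓑, ∀ B' ∈ 𝓑, B ≠ B' → Disjoint (cb B.1 B.2) (cb B'.1 B'.2)

def Agree (G W : Set ℂ) (A : ℕ) (Rm : ℝ) (μ μ' : Ms) : Prop :=
  ∃ 𝓑 : Finset (ℂ × ℝ), 𝓑.card ≤ A ∧ Apexed G W Rm 𝓑 ∧ μ.restrict (UB 𝓑)ᶜ = μ'.restrict (UB 𝓑)ᶜ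

/-- Small discs lie in discs with admissible apexes. -/
def Star (G W : Set ℂ) (Rm : ℝ) : Prop :=
  ∀ q ∈ W, ∀ R ∈ Ioc 0 Rm, ∃ R' ∈ Icc R (2 * R), ∃ o, Adm G (W ∩ cb q R') o

/-- Lists of measures that differ only in a few small discs. -/
def Cl (G W : Set ℂ) (A : ℕ) (t ζ Rc Rm : ℝ) (l : List Ms) : Prop :=
  (∀ μ ∈ l, Poly W μ ∧ Par G W 0 μ ∧ μ.real univ ≤ t ∧ ∀ q, μ.real (cb q Rm) ≤ ζ) ∧
    ∃ Q : Finset ℂ, Q.card ≤ A ∧ (∀ q ∈ Q, q ∈ W) ∧ ∀ μ ∈ l, ∀ μ' ∈ l,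
      μ.restrict (⋃ q ∈ Q, cb q Rc)ᶜ = μ'.restrict (⋃ q ∈ Q, cb q Rc)ᶜ

/-- A normalised defining function with gradient `gr`. -/
structure Good (ρ : ℂ → ℝ) (gr : ℂ → ℂ) (L c₀ β R : ℝ) : Prop where
  hL : 0 < L
  hc : 0 < c₀
  hβ : 0 < β
  tay : ∀ z w, |ρ w - ρ z - ip (gr z) (w - z)| ≤ L * ‖w - z‖ ^ 2
  lip : ∀ z w, |ρ w - ρ z| ≤ L * ‖w - z‖
  lipg : ∀ z w, ‖gr w - gr z‖ ≤ L * ‖w - z‖
  bdg : ∀ z, ‖gr z‖ ≤ L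
  low : ∀ z, |ρ z| ≤ β → c₀ ≤ ‖gr z‖
  ball : ∀ z, -β ≤ ρ z → ‖z‖ + 1 ≤ R

noncomputable def nrm (gr : ℂ → ℂ) (z : ℂ) : ℂ := ‖gr z‖⁻¹ • gr z

/-! The triangulated grid. -/

abbrev Vt : Type := ℤ × ℤ

abbrev Tri : Type := Vt × Bool

abbrev Ed : Type := Vt × Fin 3

abbrev St : Type := Tri → Vt → ℝ

def tv (τ : Tri) : Fin 3 → Vt :=
  if τ.2 then ![τ.1, τ.1 + (1, 1), τ.1 + (0, 1)] else ![τ.1, τ.1 + (1, 0), τ.1 + (1, 1)]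

/-- The edge `e` goes from `e.1` to `eEnd e`. -/
def eEnd (e : Ed) : Vt := e.1 + ![(1, 0), (0, 1), (1, 1)] e.2

def eT1 (e : Ed) : Tri := ![(e.1, false), (e.1, true), (e.1, false)] e.2

def eT2 (e : Ed) : Tri := ![(e.1 - (0, 1), true), (e.1 - (1, 0), false), (e.1, true)] e.2

def gp (h : ℝ) (v : Vt) : ℂ := ⟨h * v.1, h * v.2⟩

noncomputable def vtx (h : ℝ) (x : ℂ) : Vt := (⌊x.re / h⌋, ⌊x.im / h⌋)

/-- The zero of the affine function with values `α`, `α'` at `q`, `q'`. -/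
noncomputable def xp (q q' : ℂ) (α α' : ℝ) : ℂ := q + (α / (α - α')) • (q' - q)

/-- The zero level in a triangle. -/
noncomputable def lev (q : Fin 3 → ℂ) (α : Fin 3 → ℝ) : Ms :=
  ∑ i, if α i * α (i + 1) < 0 ∧ α i * α (i + 2) < 0 then
    sg (xp (q i) (q (i + 1)) (α i) (α (i + 1))) (xp (q i) (q (i + 2)) (α i) (α (i + 2))) else 0

noncomputable def sgOn (a b : ℂ) (A : Set ℝ) : Ms :=
  ENNReal.ofReal ‖b - a‖ •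
    Measure.map (fun t : ℝ => a + t • (b - a)) (volume.restrict (A ∩ Icc (0 : ℝ) 1))

def tr (α α' : ℝ) : Set ℝ := {u | 0 < (1 - u) * α + u * α'}

noncomputable def edg (pos : Vt → ℂ) (S : St) (e : Ed) : Ms :=
  sgOn (pos e.1) (pos (eEnd e)) (symmDiff (tr (S (eT1 e) e.1) (S (eT1 e) (eEnd e)))
    (tr (S (eT2 e) e.1) (S (eT2 e) (eEnd e))))

noncomputable def levT (pos : Vt → ℂ) (S : St) (τ : Tri) : Ms := lev (pos ∘ tv τ) (S τ ∘ tv τ)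

/-- Inner edges. -/
def inE (𝒯 : Finset Tri) : Finset Ed :=
  ((𝒯.image Prod.fst) ×ˢ Finset.univ).filter fun e => eT1 e ∈ 𝒯 ∧ eT2 e ∈ 𝒯

/-- The boundary measure of a state. -/
noncomputable def stM (𝒯 : Finset Tri) (pos : Vt → ℂ) (S : St) : Ms :=
  ∑ τ ∈ 𝒯, levT pos S τ + ∑ e ∈ inE 𝒯, edg pos S e

def hull (pos : Vt → ℂ) (τ : Tri) : Set ℂ := convexHull ℝ (range (pos ∘ tv τ))

def Sand (𝒯 : Finset Tri) (f : Vt → ℝ) (η : ℝ) (S : St) : Prop :=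
  (∀ τ, τ ∉ 𝒯 → S τ = 0) ∧ ∀ τ ∈ 𝒯, ∀ i, S τ (tv τ i) ≠ 0 ∧
    (1 - η ≤ f (tv τ i) → 0 < S τ (tv τ i)) ∧ (f (tv τ i) ≤ η → S τ (tv τ i) < 0)

open Classical in
/-- Uncertain triangles. -/
noncomputable def Unc (𝒯 : Finset Tri) (f : Vt → ℝ) (η : ℝ) : Finset Tri :=
  𝒯.filter fun τ => ¬ ((∀ i, 1 - η ≤ f (tv τ i)) ∨ ∀ i, f (tv τ i) ≤ η)

def AdmS (𝒯 : Finset Tri) (pos : Vt → ℂ) (f : Vt → ℝ) (η t ζ r : ℝ) (S : St) : Prop :=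
  Sand 𝒯 f η S ∧ (stM 𝒯 pos S).real univ ≤ t ∧ ∀ q, (stM 𝒯 pos S).real (cb q r) ≤ ζ

noncomputable def Nt (q : Fin 3 → ℂ) (α : Fin 3 → ℝ) : ℂ :=
  α 0 • (q 1 - q 2) + α 1 • (q 2 - q 0) + α 2 • (q 0 - q 1)

def cellOf (m : ℕ) (θ : ℤ × ℤ) (τ : Tri) : ℤ × ℤ := ((τ.1.1 - θ.1) / m, (τ.1.2 - θ.2) / m)

def PosOK (h ε : ℝ) (pos : Vt → ℂ) : Prop :=
  ∀ v, ‖pos v - gp h v‖ ≤ ε ∧
    ∀ v', ‖(pos v - gp h v) - (pos v' - gp h v')‖ ≤ ε * ‖gp h v - gp h v'‖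

/-- The states of `l` differ only near at most `A` triangles. -/
def Act (𝒯 : Finset Tri) (m A : ℕ) (l : List St) : Prop :=
  ∃ Q : Finset Tri, Q.card ≤ A ∧ Q ⊆ 𝒯 ∧ ∀ S ∈ l, ∀ S' ∈ l, ∀ τ : Tri,
    (∀ τ' ∈ Q, ¬ (|τ.1.1 - τ'.1.1| < m ∧ |τ.1.2 - τ'.1.2| < m)) → S τ = S' τ

end Pool.Agent.MP_20201c_gt.H91
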