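import Pool.Agent.MP_20201c_gt.H91.DiscS_a

/-! Chains of polygonal states over small simplices of cycles. -/

open MeasureTheory Set Filter Topology
open scoped ENNReal

namespace Pool.Agent.MP_20201c_gt.H91

open DS in
theorem disc_states {ρ : ℂ → ℝ} {gr : ℂ → ℂ} {L c₀ β R : ℝ} (hG : Good ρ gr L c₀ β R)
    (hne : {z | 0 < ρ z}.Nonempty) {𝒦 : Set (Cyc {z | 0 < ρ z})} (hK : IsCompact 𝒦) {t₀ : ℝ}
    (ht₀ : 0 ≤ t₀) (hm : ∀ z ∈ 𝒦, massIn _ z univ ≤ ENNReal.ofReal t₀)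
    (hn : ∀ ε : ℝ≥0∞, 0 < ε → ∃ r : ℝ, 0 < r ∧ ∀ z ∈ 𝒦, ∀ q, massIn _ z (Metric.ball q r) ≤ ε)
    (N K : ℕ) {ε₁ ζ r₁ : ℝ} (hε₁ : 0 < ε₁) (hζ : 0 < ζ) (hr₁ : 0 < r₁) {δ : ℝ≥0∞} (hδ : 0 < δ) :
    ∃ (β₀ r : ℝ) (δ₀ : ℝ≥0∞), 0 < β₀ ∧ β₀ ≤ β / 2 ∧ 0 < r ∧ r ≤ r₁ ∧ 0 < δ₀ ∧
      ∀ 𝒮 : Set (Sx (Cyc {z | 0 < ρ z})), FaceCl 𝒮 → 𝒮 ⊆ Dle _ N →
        (∀ s ∈ 𝒮, ∀ x, s.2 x ∈ 𝒦 ∧ ∀ x', edist (s.2 x) (s.2 x') < δ₀) →
        ∃ σ : Sx (Cyc {z | 0 < ρ z}) → LCh Ms, σ (emp _) = one [] ∧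
          ∀ s ∈ 𝒮, bdL (σ s) = lift σ (bdS s) ∧
            σ s ∈ Sp {l : List Ms | l.length = s.1 ∧
              Cl {z | -β₀ < ρ z} (cb 0 R) N (t₀ + ε₁) ζ (13 * r) (K * r) l ∧
              ∀ μ ∈ l, ∃ (E : Set ℂ) (hE : Side {z | 0 < ρ z} μ E),
                ∀ x, edist (cyc _ E hE.1) (s.2 x) < δ} := by
  classical
  have hL := hG.hL
  have ho : IsOpen {z | 0 < ρ z} := isOpen_lt continuous_const hG.continuous
  have hΩR : ∀ z, 0 < ρ z → z ∈ cb 0 R := fun z hz => by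
    have := hG.ball z (by linarith [hG.hβ])
    simp only [mem_closedBall_zero_iff]; linarith
  have hbd : Bornology.IsBounded {z | 0 < ρ z} := Metric.isBounded_closedBall.subset hΩR
  have hvt : volume {z | 0 < ρ z} ≠ ⊤ := hbd.measure_lt_top.ne
  have hv0 : 0 < volume {z | 0 < ρ z} := ho.measure_pos _ hne
  obtain ⟨V, hVdef⟩ : ∃ V : ℝ, V = 2 * (volume {z | 0 < ρ z}).toReal := ⟨_, rfl⟩
  have hV0 : 0 ≤ V := by rw [hVdef]; positivity
  -- (1)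
  obtain ⟨a, ha0, ha1, hA1, hA2⟩ := exists_a t₀ V N ((2 * K + 1) ^ 2 * 5 ^ N) hε₁ hζ
  -- (2)
  obtain ⟨r₀, hr₀, hr₀'⟩ := hn (ENNReal.ofReal a) (ENNReal.ofReal_pos.2 ha0)
  obtain ⟨r, hr0, hr1, hr2⟩ : ∃ r : ℝ, 0 < r ∧ r ≤ r₁ ∧ 10 * r ≤ r₀ :=
    ⟨min r₁ (r₀ / 10), lt_min hr₁ (by positivity), min_le_left _ _,
      by linarith [min_le_right r₁ (r₀ / 10)]⟩
  -- (3)
  obtain ⟨d, hd0, hd1, hd2⟩ : ∃ d : ℝ, 0 < d ∧ ENNReal.ofReal (5 * d) ≤ δ ∧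
      ENNReal.ofReal (5 * d) ≤ volume {z | 0 < ρ z} := by
    obtain ⟨x, -, h1, h2⟩ := ENNReal.lt_iff_exists_real_btwn.1 (lt_min hδ hv0)
    have h3 : 5 * (x / 5) = x := by ring
    refine ⟨x / 5, by have := ENNReal.ofReal_pos.1 h1; positivity, ?_, ?_⟩
    · rw [h3]; exact h2.le.trans (min_le_left _ _)
    · rw [h3]; exact h2.le.trans (min_le_right _ _)
  obtain ⟨β₁, hβ₁, hstrip⟩ := hG.strip (ENNReal.ofReal_pos.2 hd0)
  -- (4)
  obtain ⟨e, he0, he1, he2, he3⟩ : ∃ e : ℝ, 0 < e ∧ e ≤ a ∧ e ≤ r / 2 ∧ L * e ≤ β₁ / 2 := by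
    refine ⟨min a (min (r / 2) (β₁ / 2 / L)), lt_min ha0 (lt_min (by positivity) (by positivity)),
      min_le_left _ _, (min_le_right _ _).trans (min_le_left _ _), ?_⟩
    rw [← le_div_iff₀' hL]
    exact (min_le_right _ _).trans (min_le_right _ _)
  obtain ⟨β₀, F, hβ₀, hβ₀', hF1, hF2, hF3, hF4⟩ := hG.push he0 hβ₁
  -- (5)
  obtain ⟨z, hz0, hz1, hz2, hz3⟩ : ∃ z : ℝ, 0 < z ∧ z ≤ a / 4 ∧ z ≤ 3 * r * a / 8 ∧ z ≤ d :=
    ⟨min (a / 4) (min (3 * r * a / 8) d), lt_min (by positivity) (lt_min (by positivity) hd0),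
      min_le_left _ _, (min_le_right _ _).trans (min_le_left _ _),
      (min_le_right _ _).trans (min_le_right _ _)⟩
  obtain ⟨h₁, hh₁, hl1⟩ := mol_l1 ho.measurableSet hbd hK hz0
  obtain ⟨h', hh'0, hh'1, hh'2, hh'3, hh'4⟩ : ∃ h' : ℝ, 0 < h' ∧ h' ≤ h₁ ∧ h' ≤ r ∧
      10 * L * h' ≤ β₀ ∧ 10 * L * h' ≤ β₁ / 2 := by
    have h10 : 0 < 10 * L := by positivity
    refine ⟨min (min h₁ r) (min (β₀ / (10 * L)) (β₁ / 2 / (10 * L))),
      lt_min (lt_min hh₁ hr0) (lt_min (by positivity) (by positivity)),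
      (min_le_left _ _).trans (min_le_left _ _), (min_le_left _ _).trans (min_le_right _ _), ?_, ?_⟩
    · rw [← le_div_iff₀' h10]; exact (min_le_right _ _).trans (min_le_left _ _)
    · rw [← le_div_iff₀' h10]; exact (min_le_right _ _).trans (min_le_right _ _)
  obtain ⟨ψ, hψ⟩ := exists_bump hh'0
  obtain ⟨h₂, hh₂, hl1⟩ := hl1 h' ⟨hh'0, hh'1⟩ ψ hψ
  obtain ⟨h₃, hh₃, hnb⟩ := mol_nb hψ (ζ := a / 4) (by positivity)
  obtain ⟨h₄, hh₄, hper⟩ := mol_per hψ ha0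
  obtain ⟨h, hh, k2, k3, k4, hhh⟩ : ∃ h : ℝ, 0 < h ∧ h ≤ h₂ ∧ h ≤ h₃ ∧ h ≤ h₄ ∧ h ≤ h' :=
    ⟨min (min h₂ h₃) (min h₄ h'), lt_min (lt_min hh₂ hh₃) (lt_min hh₄ hh'0),
      (min_le_left _ _).trans (min_le_left _ _), (min_le_left _ _).trans (min_le_right _ _),
      (min_le_right _ _).trans (min_le_left _ _), (min_le_right _ _).trans (min_le_right _ _)⟩
  replace hl1 := hl1 h ⟨hh, k2⟩
  replace hnb := hnb h ⟨hh, k3⟩
  replace hper := hper h ⟨hh, k4⟩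
  obtain ⟨m, hm1, hm2⟩ : ∃ m : ℕ, 3 * r < m * h ∧ m * h ≤ 4 * r := by
    refine ⟨⌊3 * r / h⌋₊ + 1, ?_, ?_⟩
    · rw [← div_lt_iff₀ hh]; push_cast; exact Nat.lt_floor_add_one _
    · have := Nat.floor_le (a := 3 * r / h) (by positivity)
      rw [le_div_iff₀ hh] at this
      push_cast; linarith
  have hm0 : 0 < m := by
    rcases Nat.eq_zero_or_pos m with rfl | h0
    · simp at hm1; linarith
    · exact h0
  obtain ⟨𝒯, hpos, hT, hout, hae, hhull⟩ := mesh hG (by linarith : e ≤ 1) hF1 hF2 hF3 hF4 hh hhh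
    hh'3 (by linarith)
  have hcard : ∀ A ⊆ 𝒯, (A.card : ℝ) * h ^ 2 ≤ V := by
    intro A hA
    have h1 := sq_count hh A (B := {z | 0 < ρ z}) fun τ hτ x hx =>
      sq_in hh hhh (hT τ (hA hτ)).1 hx.symm (Metric.mem_closedBall_self (by linarith))
    rw [← ENNReal.ofReal_le_ofReal_iff hV0, hVdef, ENNReal.ofReal_mul (p := 2) (by norm_num),
      ENNReal.ofReal_toReal hvt]
    simpa using h1
  -- (6)
  obtain ⟨δ₁, hδ₁, hcl⟩ := mol_close hψ (ζ := a / (2 * (N + 1))) (by positivity)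
  refine ⟨β₀, r, min (ENNReal.ofReal δ₁) (ENNReal.ofReal d), hβ₀, hβ₀', hr0, hr1,
    lt_min (ENNReal.ofReal_pos.2 hδ₁) (ENNReal.ofReal_pos.2 hd0), fun 𝒮 hS hN h𝒮 => ?_⟩
  obtain ⟨E, hE, hEs⟩ := choose_rep {z | 0 < ρ z}
  have hEK : ∀ s ∈ 𝒮, 0 < s.1 → cyc _ (E s) (hE s) ∈ 𝒦 := fun s hs h0 => by
    obtain ⟨x, hx⟩ := hEs s h0
    exact hx ▸ (h𝒮 s hs x).1
  have hbad : ∀ s ∈ 𝒮, 0 < s.1 → volume (Bad {z | 0 < ρ z} ψ h h' z (E s)) ≤ ENNReal.ofReal z :=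
    fun s hs h0 => hl1 (E s) (hE s) (hEK s hs h0)
  have hunc : ∀ s ∈ 𝒮, 0 < s.1 → (Unc 𝒯 (mol ψ h (E s)) (a / 2)).card * h ^ 2 ≤ 2 * z :=
    fun s hs h0 => unc_card hh hhh (fun τ hτ => (hT τ hτ).1) hz0.le hz1 (hnb (E s)) (hbad s hs h0)
  have hU : ∀ s ∈ 𝒮, 0 < s.1 → 4 * h * (Unc 𝒯 (mol ψ h (E s)) (a / 2)).card ≤ a * m := by
    intro s hs h0
    have := hunc s hs h0
    refine le_of_mul_le_mul_right ?_ hh
    nlinarith
  have hden : 0 < 1 - 2 * a := by linarith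
  have hq0 : 0 ≤ (1 + 2 * e) / (1 - 2 * a) := by positivity
  have hq1 : (1 + 2 * e) / (1 - 2 * a) ≤ (1 + 2 * a) / (1 - 2 * a) := by gcongr
  obtain ⟨σ, hσ0, hσ⟩ := disc_interp (𝒯 := 𝒯) (m := m) hh hpos (by linarith : e ≤ 1) hr0.le
    (by linarith) N hS hN (fun s => mol ψ h (E s)) (η := a) (η' := a / (2 * (N + 1))) (ξ := a)
    (t := (1 + 2 * e) / (1 - 2 * a) * ((1 + a) * t₀ + a * V) + a)
    (ζ := 4 * ((1 + 2 * e) / (1 - 2 * a) * ((1 + a) * a + a * V)) + a)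
    (by linarith) (by positivity)
    (by
      rw [mul_div_assoc', div_le_div_iff₀ (by positivity) (by norm_num)]
      nlinarith)
    ha0.le (by positivity)
    (by
      intro n g i hg
      obtain ⟨x, hx⟩ := hEs ⟨n + 2, g⟩ (Nat.succ_pos _)
      obtain ⟨x', hx'⟩ := hEs ⟨n + 1, g ∘ fc (n + 1) i⟩ (Nat.succ_pos _)
      have h1 := ((h𝒮 _ hg (fc (n + 1) i x')).2 x).le.trans (min_le_left _ _)
      have hx'' : g (fc (n + 1) i x') = _ := hx'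
      simp only at hx h1
      rw [hx, hx'', edist_cyc, fdist, min_le_iff] at h1
      have hin : ∀ τ ∈ 𝒯, ∀ j, cb (gp h (tv τ j)) h' ⊆ {z | 0 < ρ z} := fun τ hτ j =>
        (cb_sub (tv_near hh τ j) (by linarith)).trans (hT τ hτ).1
      rcases h1 with h1 | h1
      · exact Or.inl fun τ hτ j => hcl _ _ _ h _ (hE _) (hE _) h1 (hin τ hτ j)
      · refine Or.inr fun τ hτ j => ?_
        have := hcl _ _ _ h _ (hE _) (hE _).compl h1 (hin τ hτ j)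
        rw [mol_compl hψ h (hE _), abs_sub_comm] at this
        rw [sub_right_comm]; exact this)
    (by
      intro s hs h0
      refine ⟨vst hh hpos (by linarith) hr0.le (by linarith) _ (η₂ := a / 2) (by linarith)
        (by linarith) ha0.le (by positivity) (hU s hs h0) ?_ ?_, hU s hs h0,
        unc_ne hh hd0 hd2 hstrip ((hunc s hs h0).trans (by linarith)) ?_⟩
      · refine real_of_per ha0.le ht₀ (by positivity) (hcard 𝒯 subset_rfl) ?_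
          (hper (E s) {z | 0 < ρ z} 𝒯 (hE s) fun τ hτ =>
            (Metric.closedBall_subset_closedBall (by linarith)).trans (hT τ hτ).1)
        have := hm _ (hEK s hs h0)
        rwa [massIn_cyc ho, univ_inter] at this
      · intro θ c
        rcases (𝒯.filter fun τ => cellOf m θ τ = c).eq_empty_or_nonempty with h1 | ⟨τ', h1⟩
        · rw [h1, Finset.sum_empty]; positivity
        refine real_of_per ha0.le ha0.le (by positivity) (hcard _ (Finset.filter_subset _ _)) ?_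
          (hper (E s) (Metric.ball (gp h τ'.1) r₀ ∩ {z | 0 < ρ z}) _ (hE s) fun τ hτ => ?_)
        · have := hr₀' _ (hEK s hs h0) (gp h τ'.1)
          rwa [massIn_cyc ho] at this
        · rw [Finset.mem_filter] at hτ h1
          have h2 : cellOf m θ τ = cellOf m θ τ' := hτ.2.trans h1.2.symm
          have h3 := gp_near hh (ediv_near hm0 (congrArg Prod.fst h2))
            (ediv_near hm0 (congrArg Prod.snd h2))
          refine subset_inter ((cb_sub (t := 9 * r) h3 (by linarith)).trans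
            (Metric.closedBall_subset_ball (by linarith))) ?_
          exact (Metric.closedBall_subset_closedBall (by linarith)).trans (hT τ hτ.1).1
      · filter_upwards [hae] with x hx h1
        obtain ⟨τ, h2, h3, -⟩ := hx h1
        exact ⟨τ, h2, h3⟩)
  refine ⟨σ, hσ0, fun s hs => ⟨(hσ s hs).1, sp_mono ?_ (hσ s hs).2⟩⟩
  rintro l ⟨hlen, l₀, rfl, hadm, Q, hQ1, hQ2, hQ3⟩
  have hsub : {z | 0 < ρ z} ⊆ {z | -β₀ < ρ z} := fun x hx => by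
    simp only [mem_ofPred_eq] at hx ⊢; linarith
  have hpoly : ∀ S, Poly (cb 0 R) (stM 𝒯 (F ∘ gp h) S) :=
    stM_poly (convex_closedBall _ _) fun τ hτ i => (hT τ hτ).2 i
  have hside := fun S (hS : S ∈ l₀) => stM_side (W := cb 0 R) (pos := F ∘ gp h) hsub
    (fun τ hτ i => ((hadm S hS).1.2 τ hτ i).1) hout
  refine ⟨hlen, ⟨?_, Q.image fun τ => gp h τ.1, Finset.card_image_le.trans hQ1, ?_, ?_⟩, ?_⟩
  · intro μ hμ
    obtain ⟨S, hS, rfl⟩ := List.mem_map.1 hμ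
    refine ⟨hpoly S, (hside S hS).1, (hadm S hS).2.1.trans ?_, fun q => ?_⟩
    · refine le_trans ?_ hA1
      gcongr
    · have := (hpoly S).finite
      refine (cover_cb _ hr0 (hadm S hS).2.2 K q).trans (le_trans ?_ hA2)
      rw [mul_assoc]
      gcongr
  · intro q hq
    obtain ⟨τ, hτ, rfl⟩ := Finset.mem_image.1 hq
    exact hΩR _ ((hT τ (hQ2 hτ)).1 (Metric.mem_closedBall_self (by linarith)))
  · intro μ hμ μ' hμ'
    obtain ⟨S, hS, rfl⟩ := List.mem_map.1 hμ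
    obtain ⟨S', hS', rfl⟩ := List.mem_map.1 hμ'
    refine stM_local fun τ _ => ?_
    by_cases h1 : ∃ τ' ∈ Q, |τ.1.1 - τ'.1.1| < m ∧ |τ.1.2 - τ'.1.2| < m
    · obtain ⟨τ', h2, h3, h4⟩ := h1
      refine Or.inr (((hhull m τ τ' h3 h4).trans
        (Metric.closedBall_subset_closedBall (ε₂ := 13 * r) (by linarith))).trans ?_)
      exact subset_biUnion_of_mem (u := fun q => cb q (13 * r))
        (Finset.mem_coe.2 (Finset.mem_image_of_mem (fun τ : Tri => gp h τ.1) h2))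
    · exact Or.inl (hQ3 S hS S' hS' τ fun τ' h2 h3 => h1 ⟨τ', h2, h3⟩)
  · intro μ hμ
    obtain ⟨S, hS, rfl⟩ := List.mem_map.1 hμ
    obtain ⟨E', hE', hE''⟩ := (hside S hS).2
    have h0 : 0 < s.1 := by
      rw [← hlen, List.length_map]; exact List.length_pos_of_mem hS
    refine ⟨E', hE', fun x => ?_⟩
    obtain ⟨x₀, hx₀⟩ := hEs s h0
    have h1 := area hh hhh (fun τ hτ => (hT τ hτ).1) hz0.le hz1 ha1 hz3 hstrip (hbad s hs h0)
      (hunc s hs h0) hae (hadm S hS).1 hE''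
    have h2 : edist (cyc _ E' hE'.1) (s.2 x₀) ≤ ENNReal.ofReal (4 * d) := by
      rw [hx₀, edist_cyc]; exact (min_le_left _ _).trans h1
    have h3 := ((h𝒮 s hs x₀).2 x).trans_le (min_le_right _ _)
    refine (edist_triangle _ (s.2 x₀) _).trans_lt
      ((ENNReal.add_lt_add_of_le_of_lt (ne_top_of_le_ne_top ENNReal.ofReal_ne_top h2) h2 h3).trans_le
        (le_trans ?_ hd1))
    rw [← ENNReal.ofReal_add (by linarith) hd0.le]
    exact ENNReal.ofReal_le_ofReal (by linarith)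

end Pool.Agent.MP_20201c_gt.H91
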