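import Pool.Agent.MP_20201c_gt.H91.Defs3
import Pool.Agent.MP_20201c_gt.H91.KitM4
import Pool.Agent.MP_20201c_gt.H91.Prism

/-! Local problems over a contractible base. -/

open MeasureTheory Set Filter Topology
open scoped ENNReal

namespace Pool.Agent.MP_20201c_gt.H91

namespace FibA

/-- A homotopy of the base acts on pairs. -/
theorem pair_hom {D : Type} (H : ℝ → D → D) {𝓐 𝓑 : Set (Sx D)} {Q : Set (Sx Ms)} (hQ : PreCl Q)
    (h : ∀ s ∈ 𝓐, ∀ (k : ℕ) (π : Sm k → Sm s.1) (τ : Sm k → ℝ), Continuous π → Continuous τ →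
      (∀ x, τ x ∈ Icc (0 : ℝ) 1) → (⟨k, fun x => H (τ x) (s.2 (π x))⟩ : Sx D) ∈ 𝓑)
    {z : Ch (D × Ms)} (hz : z ∈ Sp (PairS 𝓐 Q)) (h0 : bd z = 0) :
    ∃ w ∈ Sp (PairS 𝓑 Q), bd w = mp (fun x : D × Ms => (H 0 x.1, x.2)) z +
      mp (fun x : D × Ms => (H 1 x.1, x.2)) z := by
  refine hom (fun τ (x : D × Ms) => (H τ x.1, x.2)) (P := PairS 𝓐 Q) (P' := PairS 𝓑 Q)
    (fun s hs k π τ hπ hτ h01 => ⟨?_, ?_⟩) hz h0
  · exact h (smap Prod.fst s) hs.1 k π τ hπ hτ h01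
  · exact hQ s.1 k (Prod.snd ∘ s.2) π hπ hs.2

theorem clamp_mem (l : ℝ) : 0 ≤ clamp l ∧ clamp l ≤ 1 :=
  ⟨le_max_left _ _, max_le zero_le_one (min_le_left _ _)⟩

theorem clamp_zero : clamp 0 = 0 := by simp [clamp]

theorem clamp_one : clamp 1 = 1 := by simp [clamp]

theorem continuous_clamp : Continuous clamp := by unfold clamp; fun_prop

/-- The linear contraction of a standard simplex. -/
noncomputable def lin {n : ℕ} (y₀ : Sm n) (τ : ℝ) (y : Sm n) : Sm n :=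
  ⟨(1 - clamp τ) • y.1 + clamp τ • y₀.1,
    convex_stdSimplex ℝ (Fin n) y.2 y₀.2 (sub_nonneg.2 (clamp_mem τ).2) (clamp_mem τ).1
      (by ring)⟩

theorem lin_zero {n : ℕ} (y₀ y : Sm n) : lin y₀ 0 y = y := by
  apply Subtype.ext
  simp [lin, clamp_zero]

theorem lin_one {n : ℕ} (y₀ y : Sm n) : lin y₀ 1 y = y₀ := by
  apply Subtype.ext
  simp [lin, clamp_one]

theorem continuous_lin {n : ℕ} (y₀ : Sm n) {X : Type} [TopologicalSpace X] {τ : X → ℝ}
    {y : X → Sm n} (hτ : Continuous τ) (hy : Continuous y) :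
    Continuous fun x => lin y₀ (τ x) (y x) := by
  have h1 : Continuous fun x => clamp (τ x) := continuous_clamp.comp hτ
  have h2 : Continuous fun x => (y x).1 := continuous_subtype_val.comp hy
  exact Continuous.subtype_mk (((continuous_const.sub h1).smul h2).add (h1.smul continuous_const)) _

theorem piece_step {n J : ℕ} {Q : Set (Sx Ms)} (hQ : PreCl Q) {z : Ch ((Sm n × ℝ) × Ms)}
    (hz : z ∈ Sp (PairS (PieceS n J) Q)) (h0 : bd z = 0) (i : ℕ) (hi : i ≤ J) :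
    ∃ w ∈ Sp (PairS (PieceS n J) Q), bd w = z +
      mp (fun x : (Sm n × ℝ) × Ms => ((x.1.1, max x.1.2 (i : ℝ)), x.2)) z := by
  induction i with
  | zero =>
    refine ⟨0, Submodule.zero_mem _, ?_⟩
    have e : mp (fun x : (Sm n × ℝ) × Ms => ((x.1.1, max x.1.2 ((0 : ℕ) : ℝ)), x.2)) z = z := by
      refine (mp_congr _ id (fun s hs x => ?_) hz).trans (mp_id z)
      obtain ⟨-, j, -, hj⟩ := hs.1
      have h1 : (j : ℝ) ≤ (s.2 x).1.2 := (hj x).1
      have h2 : (0 : ℝ) ≤ j := Nat.cast_nonneg j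
      have h3 : max (s.2 x).1.2 ((0 : ℕ) : ℝ) = (s.2 x).1.2 :=
        max_eq_left (by rw [Nat.cast_zero]; linarith)
      rw [h3]; rfl
    rw [e, add_self2, map_zero]
  | succ i ih =>
    obtain ⟨w, hw, hwz⟩ := ih (by omega)
    obtain ⟨w', hw', hwz'⟩ := pair_hom (fun τ (d : Sm n × ℝ) => (d.1, max d.2 ((i : ℝ) + τ)))
      (𝓐 := PieceS n J) (𝓑 := PieceS n J) hQ (fun s hs k π τ hπ hτ h01 => by
        obtain ⟨hs, j, hjJ, hj⟩ := hs
        have hc : Continuous fun x => s.2 (π x) := hs.comp hπ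
        refine ⟨hc.fst.prodMk (hc.snd.max (continuous_const.add hτ)), ?_⟩
        rcases le_or_gt i j with hij | hij
        · have hij' : (i : ℝ) ≤ j := Nat.cast_le.2 hij
          refine ⟨j, hjJ, fun x => ⟨le_max_of_le_left (hj (π x)).1, max_le (hj (π x)).2 ?_⟩⟩
          have := (h01 x).2
          linarith
        · have hij' : (j : ℝ) + 1 ≤ i := by exact_mod_cast hij
          refine ⟨i, by omega, fun x => ⟨le_max_of_le_right ?_, max_le ?_ ?_⟩⟩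
          · have := (h01 x).1
            linarith
          · have := (hj (π x)).2
            linarith
          · have := (h01 x).2
            linarith) hz h0
    refine ⟨w + w', Submodule.add_mem _ hw hw', ?_⟩
    rw [map_add, hwz, hwz']
    simp only [add_zero, Nat.cast_add, Nat.cast_one]
    rw [add_assoc, ← add_assoc (mp _ z), add_self2, zero_add]

theorem real_add {W W' : Set ℂ} {μ ν : Ms} (h : Poly W μ) (h' : Poly W' ν) :
    (μ + ν).real univ = μ.real univ + ν.real univ := by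
  have := h.finite
  have := h'.finite
  exact measureReal_add_apply

end FibA

theorem pieceS_preCl (n J : ℕ) : PreCl (PieceS n J) := by
  rintro m k f φ hφ ⟨hf, i, hi, h⟩
  exact ⟨hf.comp hφ, i, hi, fun x => h (φ x)⟩

theorem levS_preCl (n : ℕ) (c : ℝ) : PreCl (LevS n c) := by
  rintro m k f φ hφ ⟨hf, h⟩
  exact ⟨hf.comp hφ, fun x => h (φ x)⟩

open FibA in
theorem ctr_piece {n : ℕ} (y₀ : Sm n) (J : ℕ) : Ctr (PieceS n J) (y₀, (J : ℝ)) := by
  intro Q hQ z hz h0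
  obtain ⟨w, hw, hwz⟩ := piece_step hQ hz h0 J le_rfl
  obtain ⟨w', hw', hwz'⟩ := pair_hom (fun τ (d : Sm n × ℝ) => (lin y₀ τ d.1, (J : ℝ)))
    (𝓐 := PieceS n J) (𝓑 := PieceS n J) hQ (fun s hs k π τ hπ hτ h01 => by
      obtain ⟨hs, j, hjJ, hj⟩ := hs
      have hc : Continuous fun x => s.2 (π x) := hs.comp hπ
      refine ⟨(continuous_lin y₀ hτ hc.fst).prodMk continuous_const, J - 1, by omega,
        fun x => ?_⟩
      have h1 : ((J - 1 : ℕ) : ℝ) + 1 = J := by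
        rw [Nat.cast_sub (by omega)]; simp
      show (J : ℝ) ∈ Icc _ _
      constructor <;> linarith) hz h0
  have e : mp (fun x : (Sm n × ℝ) × Ms => ((x.1.1, max x.1.2 (J : ℝ)), x.2)) z =
      mp (fun x : (Sm n × ℝ) × Ms => ((x.1.1, (J : ℝ)), x.2)) z := by
    refine mp_congr _ _ (fun s hs x => ?_) hz
    obtain ⟨-, j, hjJ, hj⟩ := hs.1
    have h1 : (s.2 x).1.2 ≤ (j : ℝ) + 1 := (hj x).2
    have h2 : (j : ℝ) + 1 ≤ J := by exact_mod_cast hjJ
    rw [max_eq_right (h1.trans h2)]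
  refine ⟨w + w', Submodule.add_mem _ hw hw', ?_⟩
  rw [map_add, hwz, hwz', e]
  simp only [lin_zero, lin_one]
  rw [add_assoc, ← add_assoc (mp _ z), add_self2, zero_add]

open FibA in
theorem ctr_lev {n : ℕ} (y₀ : Sm n) (c : ℝ) : Ctr (LevS n c) (y₀, c) := by
  intro Q hQ z hz h0
  obtain ⟨w', hw', hwz'⟩ := pair_hom (fun τ (d : Sm n × ℝ) => (lin y₀ τ d.1, c))
    (𝓐 := LevS n c) (𝓑 := LevS n c) hQ (fun s hs k π τ hπ hτ h01 => by
      have hc : Continuous fun x => s.2 (π x) := hs.1.comp hπ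
      exact ⟨(continuous_lin y₀ hτ hc.fst).prodMk continuous_const, fun _ => rfl⟩) hz h0
  have e : mp (fun x : (Sm n × ℝ) × Ms => ((x.1.1, c), x.2)) z = z := by
    refine (mp_congr _ id (fun s hs x => ?_) hz).trans (mp_id z)
    have h1 : (s.2 x).1.2 = c := hs.1.2 x
    rw [← h1]; rfl
  refine ⟨w', hw', ?_⟩
  rw [hwz']
  simp only [lin_zero, lin_one]
  rw [e]

open FibA in
theorem fib {D : Type} [TopologicalSpace D] {𝓐 : Set (Sx D)} (h𝓐 : PreCl 𝓐) (hc : 𝓐 ⊆ Cts D)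
    {d₀ : D} (hd : ∀ k, (⟨k, fun _ => d₀⟩ : Sx D) ∈ 𝓐) (hC : Ctr 𝓐 d₀)
    {N : ℕ} {G W : Set ℂ} (hW : Convex ℝ W) {β : D → ℂ → F2} {β₀ : ℂ → F2} {a η : ℝ}
    {κ : D → Ms} (hκ : Fam W κ) (hη : ∀ d, (κ d).real univ ≤ η)
    (hβ : ∀ s ∈ 𝓐, ∀ x, Par G W (fun z => β (s.2 x) z + β₀ z) (κ (s.2 x)))
    (hA : Acyc N G W β₀ a) {t ε : ℝ} (ht : a ≤ t) (hε : 0 < ε) :
    Bnd (FibS 𝓐 G W β t ∩ Dle _ N) (FibS 𝓐 G W β (t + 2 * η + ε)) := by
  intro z hz h0
  have hz1 : z ∈ Sp (FibS 𝓐 G W β t) := (sp_inter.1 hz).1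
  have hη0 : 0 ≤ η := measureReal_nonneg.trans (hη d₀)
  obtain ⟨γ, hγ, hγ01, hγle⟩ := hκ.grow hW
  obtain ⟨Φ, hΦ⟩ : ∃ Φ : D × Ms → D × Ms, Φ = fun x => (x.1, x.2 + κ x.1) := ⟨_, rfl⟩
  -- the first homotopy
  obtain ⟨w₁, hw₁, hb₁⟩ := hom (fun τ (x : D × Ms) => (x.1, x.2 + γ τ x.1 + γ τ x.1))
    (P := FibS 𝓐 G W β t) (P' := FibS 𝓐 G W β (t + 2 * η + ε))
    (fun s hs k π τ hπ hτ _ => by
      obtain ⟨hs1, hs2, hs3⟩ := hs
      have hc0 : Continuous fun x => (s.2 x).1 := hc hs1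
      have hcd : Continuous fun x => (s.2 (π x)).1 := hc0.comp hπ
      have f1 : Fam W fun x => (s.2 (π x)).2 := hs2.comp hπ
      have f2 : Fam W fun x => γ (τ x) (s.2 (π x)).1 := hγ.comp (hτ.prodMk hcd)
      refine ⟨h𝓐 s.1 k (Prod.fst ∘ s.2) π hπ hs1, (f1.add f2).add f2, fun x => ⟨?_, ?_⟩⟩
      · intro p hp hpG
        show bdy ((s.2 (π x)).2 + γ (τ x) (s.2 (π x)).1 + γ (τ x) (s.2 (π x)).1) p =
          β (s.2 (π x)).1 p
        rw [bdy_add ((f1.add f2).poly x) (f2.poly x), bdy_add (f1.poly x) (f2.poly x), add_assoc,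
          add_self2, add_zero]
        exact (hs3 (π x)).1 p hp hpG
      · show ((s.2 (π x)).2 + γ (τ x) (s.2 (π x)).1 + γ (τ x) (s.2 (π x)).1).real univ < _
        rw [real_add ((f1.add f2).poly x) (f2.poly x), real_add (f1.poly x) (f2.poly x)]
        have h1 := (hs3 (π x)).2
        have h2 := (hγle (τ x) (s.2 (π x)).1).trans (hη _)
        linarith) hz1 h0
  have e0 : mp (fun x : D × Ms => (x.1, x.2 + γ 0 x.1 + γ 0 x.1)) z = z := by
    refine (congrArg (fun g => mp g z) ?_).trans (mp_id z)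
    funext x
    rw [(hγ01 x.1).1, add_zero, add_zero]; rfl
  have e1 : mp (fun x : D × Ms => (x.1, x.2 + γ 1 x.1 + γ 1 x.1)) z = mp Φ (mp Φ z) := by
    rw [mp_mp]
    refine congrArg (fun g => mp g z) ?_
    funext x
    rw [(hγ01 x.1).2, hΦ]; rfl
  rw [e0, e1] at hb₁
  -- transport to the constant problem
  have hz2 : mp Φ z ∈ Sp (PairS 𝓐 (Nice G W β₀ (t + η)) ∩ Dle _ N) := by
    refine mp_mem Φ (fun s hs => ?_) hz
    obtain ⟨⟨hs1, hs2, hs3⟩, hsN⟩ := hs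
    have hcd : Continuous fun x => (s.2 x).1 := hc hs1
    have f2 : Fam W fun x => κ (s.2 x).1 := hκ.comp hcd
    subst hΦ
    refine ⟨⟨hs1, hs2.add f2, fun x => ⟨?_, ?_⟩⟩, hsN⟩
    · intro p hp hpG
      show bdy ((s.2 x).2 + κ (s.2 x).1) p = β₀ p
      have h1 : bdy (κ (s.2 x).1) p = β (s.2 x).1 p + β₀ p := hβ _ hs1 x p hp hpG
      rw [bdy_add (hs2.poly x) (f2.poly x), (hs3 x).1 p hp hpG, h1, ← add_assoc, add_self2,
        zero_add]
    · show ((s.2 x).2 + κ (s.2 x).1).real univ < _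
      rw [real_add (hs2.poly x) (f2.poly x)]
      have h1 := (hs3 x).2
      have h2 := hη (s.2 x).1
      linarith
  have hb2 : bd (mp Φ z) = 0 := by rw [bd_mp, h0, map_zero]
  obtain ⟨h₂, hh₂, hbh₂⟩ := hC _ (nice_preCl G W β₀ (t + η)) _ (sp_inter.1 hz2).1 hb2
  have hz3 : mp Prod.snd (mp Φ z) ∈ Sp (Nice G W β₀ (t + η) ∩ Dle Ms N) :=
    mp_mem (Q := Nice G W β₀ (t + η) ∩ Dle Ms N) Prod.snd (fun s hs => ⟨hs.1.2, hs.2⟩) hz2
  obtain ⟨w₃, hw₃, hb₃⟩ := hA (t + η) (by linarith) ε hε _ hz3 (by rw [bd_mp, hb2, map_zero])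
  have hw₄ : mp (fun V : Ms => (d₀, V)) w₃ ∈ Sp (PairS 𝓐 (Nice G W β₀ (t + η + ε))) :=
    mp_mem (Q := PairS 𝓐 (Nice G W β₀ (t + η + ε))) (fun V : Ms => (d₀, V))
      (fun s hs => ⟨hd s.1, hs⟩) hw₃
  have hh₂' : h₂ ∈ Sp (PairS 𝓐 (Nice G W β₀ (t + η + ε))) :=
    sp_mono (P := PairS 𝓐 (Nice G W β₀ (t + η))) (Q := PairS 𝓐 (Nice G W β₀ (t + η + ε)))
      (fun s hs => ⟨hs.1, nice_mono (by linarith) hs.2⟩) hh₂
  have hb₄ : bd (h₂ + mp (fun V : Ms => (d₀, V)) w₃) = mp Φ z := by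
    have e : mp (fun V : Ms => (d₀, V)) (mp Prod.snd (mp Φ z)) =
        mp (fun x : D × Ms => (d₀, x.2)) (mp Φ z) := mp_mp _ _ _
    rw [map_add, hbh₂, bd_mp, hb₃, e, add_assoc, add_self2, add_zero]
  have hw₅ : mp Φ (h₂ + mp (fun V : Ms => (d₀, V)) w₃) ∈
      Sp (FibS 𝓐 G W β (t + 2 * η + ε)) := by
    refine mp_mem Φ (fun s hs => ?_) (Submodule.add_mem _ hh₂' hw₄)
    obtain ⟨hs1, hs2, hs3⟩ := hs
    have hcd : Continuous fun x => (s.2 x).1 := hc hs1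
    have f1 : Fam W fun x => (s.2 x).2 := hs2
    have f2 : Fam W fun x => κ (s.2 x).1 := hκ.comp hcd
    subst hΦ
    refine ⟨hs1, f1.add f2, fun x => ⟨?_, ?_⟩⟩
    · intro p hp hpG
      show bdy ((s.2 x).2 + κ (s.2 x).1) p = β (s.2 x).1 p
      have h1 : bdy (κ (s.2 x).1) p = β (s.2 x).1 p + β₀ p := hβ _ hs1 x p hp hpG
      have h2 : bdy (s.2 x).2 p = β₀ p := (hs3 x).1 p hp hpG
      rw [bdy_add (f1.poly x) (f2.poly x), h1, h2, add_comm (β _ p), ← add_assoc, add_self2,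
        zero_add]
    · show ((s.2 x).2 + κ (s.2 x).1).real univ < _
      rw [real_add (f1.poly x) (f2.poly x)]
      have h1 : (s.2 x).2.real univ < t + η + ε := (hs3 x).2
      have h2 := hη (s.2 x).1
      linarith
  refine ⟨w₁ + mp Φ (h₂ + mp (fun V : Ms => (d₀, V)) w₃), Submodule.add_mem _ hw₁ hw₅, ?_⟩
  rw [map_add, hb₁, bd_mp, hb₄, add_assoc, add_self2, add_zero]

end Pool.Agent.MP_20201c_gt.H91
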