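import Pool.Agent.MP_20201c_gt.H91.Defs3
import Pool.Agent.MP_20201c_gt.H91.KitM4

/-! Labels and fine families. -/

open MeasureTheory Set Filter Topology
open scoped ENNReal

namespace Pool.Agent.MP_20201c_gt.H91

theorem gap_empty {n : ℕ} (y : Sm n) : gap (∅ : Finset (Fin n)) y = 0 := by
  simp [gap]

namespace HatA

theorem gap_fin {n : ℕ} (σ : Finset (Fin n)) (y : Sm n) :
    {d | ∃ i ∈ σ, d = y.1 i ∨ ∃ i', i' ∉ σ ∧ d = y.1 i - y.1 i'}.Finite := by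
  refine ((Set.finite_range y.1).union
    (Set.finite_range fun q : Fin n × Fin n => y.1 q.1 - y.1 q.2)).subset ?_
  rintro d ⟨i, -, h | ⟨i', -, h⟩⟩
  · exact Or.inl ⟨i, h.symm⟩
  · exact Or.inr ⟨(i, i'), h.symm⟩

end HatA

theorem le_gap_iff {n : ℕ} {σ : Finset (Fin n)} (hσ : σ.Nonempty) (y : Sm n) (θ : ℝ) :
    θ ≤ gap σ y ↔ ∀ i ∈ σ, θ ≤ y.1 i ∧ ∀ i', i' ∉ σ → θ ≤ y.1 i - y.1 i' := by
  obtain ⟨i₀, hi₀⟩ := hσ
  rw [gap, le_csInf_iff (HatA.gap_fin σ y).bddBelow ⟨y.1 i₀, i₀, hi₀, Or.inl rfl⟩]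
  constructor
  · intro h i hi
    exact ⟨h _ ⟨i, hi, Or.inl rfl⟩, fun i' hi' => h _ ⟨i, hi, Or.inr ⟨i', hi', rfl⟩⟩⟩
  · rintro h d ⟨i, hi, rfl | ⟨i', hi', rfl⟩⟩
    · exact (h i hi).1
    · exact (h i hi).2 i' hi'

theorem gap_lip {n : ℕ} (σ : Finset (Fin n)) (y y' : Sm n) :
    gap σ y ≤ gap σ y' + 2 * dist y y' := by
  rcases σ.eq_empty_or_nonempty with rfl | hσ
  · rw [gap_empty, gap_empty]; positivity
  have hd : ∀ i, |y.1 i - y'.1 i| ≤ dist y y' := fun i => by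
    rw [← Real.dist_eq]; exact dist_le_pi_dist y.1 y'.1 i
  have h0 : 0 ≤ dist y y' := dist_nonneg
  rw [← sub_le_iff_le_add, le_gap_iff hσ]
  intro i hi
  obtain ⟨h1, h2⟩ := (le_gap_iff hσ y _).1 le_rfl i hi
  have a := abs_le.1 (hd i)
  refine ⟨by linarith [a.2], fun i' hi' => ?_⟩
  have b := abs_le.1 (hd i')
  linarith [a.2, b.1, h2 i' hi']

namespace HatA

theorem nonempty_of_pos {n : ℕ} {σ : Finset (Fin n)} {y : Sm n} (h : 0 < gap σ y) :
    σ.Nonempty := by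
  rcases σ.eq_empty_or_nonempty with rfl | hσ
  · rw [gap_empty] at h; exact absurd h (lt_irrefl _)
  · exact hσ

theorem lt_of_pos {n : ℕ} {σ : Finset (Fin n)} {y : Sm n} (h : 0 < gap σ y) {i i' : Fin n}
    (hi : i ∈ σ) (hi' : i' ∉ σ) : y.1 i' < y.1 i := by
  have := ((le_gap_iff (nonempty_of_pos h) y _).1 le_rfl i hi).2 i' hi'
  linarith

theorem total {n : ℕ} {σ σ' : Finset (Fin n)} {y : Sm n} (h : 0 < gap σ y)
    (h' : 0 < gap σ' y) : σ ⊆ σ' ∨ σ' ⊆ σ := by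
  by_contra hc
  rw [not_or, Finset.not_subset, Finset.not_subset] at hc
  obtain ⟨⟨i, hi, hi2⟩, i', hi', hi2'⟩ := hc
  exact lt_asymm (lt_of_pos h hi hi2') (lt_of_pos h' hi' hi2)

end HatA

theorem gap_nested {n : ℕ} {σ σ' : Finset (Fin n)} {y : Sm n} (h : 0 < gap σ y)
    (h' : 0 < gap σ' y) : (σ.card < σ'.card → σ ⊂ σ') ∧ (σ.card = σ'.card → σ = σ') := by
  rcases HatA.total h h' with hs | hs
  · refine ⟨fun hc => Finset.ssubset_iff_subset_ne.2 ⟨hs, ?_⟩,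
      fun hc => Finset.eq_of_subset_of_card_le hs hc.ge⟩
    rintro rfl
    exact lt_irrefl _ hc
  · exact ⟨fun hc => absurd (Finset.card_le_card hs) hc.not_ge,
      fun hc => (Finset.eq_of_subset_of_card_le hs hc.le).symm⟩

theorem gap_exists {n N : ℕ} (hn : n ≤ N) (y : Sm n) :
    ∃ σ : Finset (Fin n), σ.Nonempty ∧ ((N : ℝ) ^ 2)⁻¹ ≤ gap σ y := by
  classical
  have hn0 : 0 < n := by
    rcases n with _ | n
    · exact isEmptyElim y
    · exact n.succ_pos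
  have hN : (0 : ℝ) < N := by exact_mod_cast hn0.trans_le hn
  have hnN : (n : ℝ) ≤ N := by exact_mod_cast hn
  have hn' : (0 : ℝ) < n := by exact_mod_cast hn0
  set θ : ℝ := ((N : ℝ) ^ 2)⁻¹ with hθ
  have hθ0 : 0 < θ := by positivity
  have hbig : ∃ m, (n : ℝ) * θ ≤ y.1 m := by
    by_contra hc
    push Not at hc
    have : Nonempty (Fin n) := ⟨⟨0, hn0⟩⟩
    have h1 : ∑ m, y.1 m < ∑ _m : Fin n, (n : ℝ) * θ :=
      Finset.sum_lt_sum_of_nonempty Finset.univ_nonempty fun m _ => hc m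
    rw [y.2.2, Finset.sum_const, Finset.card_univ, Fintype.card_fin, nsmul_eq_mul, hθ,
      ← mul_assoc, ← div_eq_mul_inv, lt_div_iff₀ (by positivity)] at h1
    nlinarith
  obtain ⟨m, hm⟩ := hbig
  have hle : ∀ k : Fin n, ((k : ℝ) + 1) * θ ≤ y.1 m := fun k => by
    have : ((k : ℕ) : ℝ) + 1 ≤ n := by exact_mod_cast k.2
    exact (mul_le_mul_of_nonneg_right this hθ0.le).trans hm
  have hfree : ∃ k : Fin n, ∀ i, ¬ ((k : ℝ) * θ < y.1 i ∧ y.1 i < ((k : ℝ) + 1) * θ) := by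
    by_contra hc
    push Not at hc
    choose f hf using hc
    have hlt : ∀ k k' : Fin n, f k = f k' → ¬ k < k' := fun k k' e hk => by
      have h1 : ((k : ℕ) : ℝ) + 1 ≤ (k' : ℕ) := by exact_mod_cast hk
      have h2 := mul_le_mul_of_nonneg_right h1 hθ0.le
      have h3 := (hf k).2
      have h4 := (hf k').1
      rw [e] at h3
      linarith
    have hinj : Function.Injective f := fun k k' e =>
      le_antisymm (not_lt.1 (hlt k' k e.symm)) (not_lt.1 (hlt k k' e))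
    obtain ⟨k, rfl⟩ := Finite.surjective_of_injective hinj m
    exact absurd (hle k) (hf k).2.not_ge
  obtain ⟨k, hk⟩ := hfree
  have hne : (Finset.univ.filter fun i => ((k : ℝ) + 1) * θ ≤ y.1 i).Nonempty :=
    ⟨m, Finset.mem_filter.2 ⟨Finset.mem_univ _, hle k⟩⟩
  refine ⟨_, hne, (le_gap_iff hne y θ).2 fun i hi => ?_⟩
  have h1 := (Finset.mem_filter.1 hi).2
  have hk0 : 0 ≤ (k : ℝ) * θ := by positivity
  refine ⟨by linarith, fun i' hi' => ?_⟩
  have h2 : y.1 i' < ((k : ℝ) + 1) * θ := by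
    by_contra hc
    exact hi' (Finset.mem_filter.2 ⟨Finset.mem_univ _, not_lt.1 hc⟩)
  have h3 : y.1 i' ≤ (k : ℝ) * θ := not_lt.1 fun hc => hk i' ⟨hc, h2⟩
  linarith

namespace HatA

theorem baryv_mem {n : ℕ} {σ : Finset (Fin n)} (hσ : σ.Nonempty) :
    baryv σ ∈ stdSimplex ℝ (Fin n) := by
  refine ⟨fun i => ?_, ?_⟩
  · unfold baryv
    split_ifs
    · positivity
    · exact le_rfl
  · have : (σ.card : ℝ) ≠ 0 := by exact_mod_cast hσ.card_pos.ne'
    simp [baryv, Finset.sum_ite_mem, this]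

theorem clamp_nonneg (l : ℝ) : 0 ≤ clamp l := le_max_left _ _

theorem clamp_le (l : ℝ) : clamp l ≤ 1 := max_le zero_le_one (min_le_left _ _)

theorem comb_mem {n : ℕ} {σ : Finset (Fin n)} (hσ : σ.Nonempty) (y : Sm n) (l : ℝ) :
    (fun i => (1 - clamp l) * y.1 i + clamp l * baryv σ i) ∈ stdSimplex ℝ (Fin n) :=
  convex_stdSimplex ℝ (Fin n) y.2 (baryv_mem hσ) (sub_nonneg.2 (clamp_le l)) (clamp_nonneg l)
    (sub_add_cancel _ _)

end HatA

theorem ray_spec {n : ℕ} {σ : Finset (Fin n)} (hσ : σ.Nonempty) :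
    ∃ (rp : Sm n × ℝ → Sm n) (b : Sm n), Continuous rp ∧ (∀ y, rp (y, 0) = y) ∧
      (∀ y l, 1 ≤ l → rp (y, l) = b) ∧
      ∀ g : Sm n → Ms, anchor g σ = g b ∧ ∀ y l, ray g σ y l = g (rp (y, l)) := by
  refine ⟨fun q => ⟨_, HatA.comb_mem hσ q.1 q.2⟩, ⟨_, HatA.baryv_mem hσ⟩, ?_, fun y => ?_,
    fun y l hl => ?_, fun g => ⟨?_, fun y l => ?_⟩⟩
  · refine Continuous.subtype_mk (continuous_pi fun i => ?_) _
    have h1 : Continuous fun q : Sm n × ℝ => clamp q.2 := by unfold clamp; fun_prop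
    have h2 : Continuous fun q : Sm n × ℝ => q.1.1 i :=
      (continuous_apply i).comp (continuous_subtype_val.comp continuous_fst)
    exact ((continuous_const.sub h1).mul h2).add (h1.mul continuous_const)
  · refine Subtype.ext (funext fun i => ?_)
    simp [clamp]
  · refine Subtype.ext (funext fun i => ?_)
    simp [clamp, hl]
  · rw [anchor, extS, dif_pos (HatA.baryv_mem hσ)]
  · rw [ray, extS, dif_pos (HatA.comb_mem hσ y l)]

namespace HatA

theorem fc_self {n : ℕ} (i : Fin (n + 1)) (y : Sm n) : (fc n i y).1 i = 0 := by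
  classical
  show FunOnFinite.linearMap ℝ ℝ i.succAbove y i = 0
  rw [FunOnFinite.linearMap_apply_apply]
  refine Finset.sum_eq_zero fun k hk => ?_
  exact absurd (Finset.mem_filter.1 hk).2 (Fin.succAbove_ne i k)

theorem fc_above {n : ℕ} (i : Fin (n + 1)) (y : Sm n) (k : Fin n) :
    (fc n i y).1 (i.succAbove k) = y.1 k := by
  classical
  show FunOnFinite.linearMap ℝ ℝ i.succAbove y (i.succAbove k) = y k
  rw [FunOnFinite.linearMap_apply_apply]
  refine Finset.sum_eq_single_of_mem k (Finset.mem_filter.2 ⟨Finset.mem_univ _, rfl⟩)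
    fun k' hk hne => ?_
  exact absurd (Fin.succAbove_right_injective (Finset.mem_filter.1 hk).2) hne

theorem extS_fc {n : ℕ} (g : Sm (n + 1) → Ms) (i : Fin (n + 1)) {w : Fin (n + 1) → ℝ}
    {v : Fin n → ℝ} (h0 : w i = 0) (h1 : ∀ k, w (i.succAbove k) = v k) :
    extS g w = extS (g ∘ fc n i) v := by
  have key : w ∈ stdSimplex ℝ (Fin (n + 1)) ↔ v ∈ stdSimplex ℝ (Fin n) := by
    have hs : ∑ j, w j = ∑ k, v k := by
      rw [Fin.sum_univ_succAbove w i, h0, zero_add]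
      exact Finset.sum_congr rfl fun k _ => h1 k
    constructor
    · exact fun h => ⟨fun k => h1 k ▸ h.1 _, hs ▸ h.2⟩
    · refine fun h => ⟨fun j => ?_, hs ▸ h.2⟩
      rcases Fin.eq_self_or_eq_succAbove i j with rfl | ⟨k, rfl⟩
      · exact h0.ge
      · exact h1 k ▸ h.1 k
  by_cases hv : v ∈ stdSimplex ℝ (Fin n)
  · rw [extS, extS, dif_pos hv, dif_pos (key.2 hv), Function.comp_apply]
    refine congrArg g (Subtype.ext (funext fun j => ?_))
    rcases Fin.eq_self_or_eq_succAbove i j with rfl | ⟨k, rfl⟩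
    · rw [fc_self]; exact h0
    · rw [fc_above]; exact h1 k
  · rw [extS, extS, dif_neg hv, dif_neg fun h => hv (key.1 h)]

/-- The image of a face under a face map. -/
def up {n : ℕ} (i : Fin (n + 1)) (τ : Finset (Fin n)) : Finset (Fin (n + 1)) :=
  τ.map i.succAboveEmb

theorem card_up {n : ℕ} (i : Fin (n + 1)) (τ : Finset (Fin n)) : (up i τ).card = τ.card :=
  Finset.card_map _

theorem mem_up {n : ℕ} (i : Fin (n + 1)) (τ : Finset (Fin n)) (k : Fin n) :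
    i.succAbove k ∈ up i τ ↔ k ∈ τ :=
  Finset.mem_map' i.succAboveEmb

theorem self_up {n : ℕ} (i : Fin (n + 1)) (τ : Finset (Fin n)) : i ∉ up i τ := by
  intro h
  obtain ⟨k, -, hk⟩ := Finset.mem_map.1 h
  exact Fin.succAbove_ne i k hk

theorem exists_up {n : ℕ} {i : Fin (n + 1)} {σ : Finset (Fin (n + 1))} (h : i ∉ σ) :
    ∃ τ, σ = up i τ := by
  classical
  refine ⟨Finset.univ.filter fun k => i.succAbove k ∈ σ, Finset.ext fun j => ?_⟩
  rcases Fin.eq_self_or_eq_succAbove i j with rfl | ⟨k, rfl⟩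
  · exact iff_of_false h (self_up _ _)
  · rw [mem_up]; simp

theorem up_ssubset {n : ℕ} (i : Fin (n + 1)) (τ τ' : Finset (Fin n)) :
    up i τ ⊂ up i τ' ↔ τ ⊂ τ' :=
  Finset.map_ssubset_map

theorem up_nonempty {n : ℕ} (i : Fin (n + 1)) (τ : Finset (Fin n)) :
    (up i τ).Nonempty ↔ τ.Nonempty :=
  Finset.map_nonempty

theorem baryv_self {n : ℕ} (i : Fin (n + 1)) (τ : Finset (Fin n)) : baryv (up i τ) i = 0 := by
  rw [baryv, if_neg (self_up i τ)]

theorem baryv_above {n : ℕ} (i : Fin (n + 1)) (τ : Finset (Fin n)) (k : Fin n) :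
    baryv (up i τ) (i.succAbove k) = baryv τ k := by
  simp only [baryv, mem_up, card_up]

theorem gap_up {n : ℕ} (i : Fin (n + 1)) (τ : Finset (Fin n)) (y : Sm n) :
    gap (up i τ) (fc n i y) = gap τ y := by
  unfold gap
  congr 1
  ext d
  constructor
  · rintro ⟨j, hj, h⟩
    obtain ⟨k, hk, rfl⟩ := Finset.mem_map.1 hj
    refine ⟨k, hk, ?_⟩
    change d = (fc n i y).1 (i.succAbove k) ∨
      ∃ i', i' ∉ up i τ ∧ d = (fc n i y).1 (i.succAbove k) - (fc n i y).1 i' at h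
    rw [fc_above] at h
    rcases h with h | ⟨j', hj', h⟩
    · exact Or.inl h
    · rcases Fin.eq_self_or_eq_succAbove i j' with rfl | ⟨k', rfl⟩
      · rw [fc_self, sub_zero] at h; exact Or.inl h
      · rw [fc_above] at h
        exact Or.inr ⟨k', fun hk' => hj' ((mem_up i τ k').2 hk'), h⟩
  · rintro ⟨k, hk, h⟩
    refine ⟨i.succAbove k, (mem_up i τ k).2 hk, ?_⟩
    rw [fc_above]
    rcases h with h | ⟨k', hk', h⟩
    · exact Or.inl h
    · exact Or.inr ⟨i.succAbove k', fun h' => hk' ((mem_up i τ k').1 h'), by rw [fc_above]; exact h⟩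

theorem anchor_up {n : ℕ} (g : Sm (n + 1) → Ms) (i : Fin (n + 1)) (τ : Finset (Fin n)) :
    anchor g (up i τ) = anchor (g ∘ fc n i) τ :=
  extS_fc g i (baryv_self i τ) (baryv_above i τ)

theorem ray_up {n : ℕ} (g : Sm (n + 1) → Ms) (i : Fin (n + 1)) (τ : Finset (Fin n)) (y : Sm n) :
    ray g (up i τ) (fc n i y) = ray (g ∘ fc n i) τ y := by
  funext l
  refine extS_fc g i ?_ fun k => ?_
  · simp only [fc_self, baryv_self, mul_zero, add_zero]
  · simp only [fc_above, baryv_above]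

/-- The recursive choice of discs. -/
noncomputable def lam (ch : Ms → ℕ → Set (ℂ × ℝ) → ℂ × ℝ) (n : ℕ) (g : Sm n → Ms) :
    Finset (Fin n) → ℂ × ℝ :=
  (wellFounded_lt (α := Finset (Fin n))).fix fun σ r =>
    ch (anchor g σ) σ.card {B | ∃ σ', ∃ h : σ' < σ, σ'.Nonempty ∧ B = r σ' h}

theorem lam_eq (ch : Ms → ℕ → Set (ℂ × ℝ) → ℂ × ℝ) (n : ℕ) (g : Sm n → Ms)
    (σ : Finset (Fin n)) : lam ch n g σ =
      ch (anchor g σ) σ.card {B | ∃ σ' ⊂ σ, σ'.Nonempty ∧ B = lam ch n g σ'} := by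
  rw [lam, WellFounded.fix_eq]
  congr 1
  ext B
  exact ⟨fun ⟨σ', h, h'⟩ => ⟨σ', h, h'⟩, fun ⟨σ', h, h'⟩ => ⟨σ', h, h'⟩⟩

theorem lam_up (ch : Ms → ℕ → Set (ℂ × ℝ) → ℂ × ℝ) {n : ℕ} (g : Sm (n + 1) → Ms)
    (i : Fin (n + 1)) (τ : Finset (Fin n)) :
    lam ch (n + 1) g (up i τ) = lam ch n (g ∘ fc n i) τ := by
  induction τ using Finset.strongInduction with
  | H τ ih =>
    rw [lam_eq, lam_eq ch n, anchor_up, card_up]
    congr 1
    ext B
    constructor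
    · rintro ⟨σ', h, hne, rfl⟩
      obtain ⟨τ', rfl⟩ := exists_up (i := i) (σ := σ') fun hi => self_up i τ (h.subset hi)
      have h' := (up_ssubset i τ' τ).1 h
      exact ⟨τ', h', (up_nonempty i τ').1 hne, ih τ' h'⟩
    · rintro ⟨τ', h, hne, rfl⟩
      exact ⟨up i τ', (up_ssubset i τ' τ).2 h, (up_nonempty i τ').2 hne, (ih τ' h).symm⟩

open Classical in
/-- The labels. -/
noncomputable def hat (ch : Ms → ℕ → Set (ℂ × ℝ) → ℂ × ℝ) (n : ℕ) (g : Sm n → Ms) (y : Sm n) :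
    Lab := fun j =>
  if h : ∃ σ : Finset (Fin n), σ.card = j ∧ 0 < gap σ y then
    (gap h.choose y, lam ch n g h.choose, ray g h.choose y)
  else (0, (0, 0), fun _ => 0)

theorem hat_act (ch : Ms → ℕ → Set (ℂ × ℝ) → ℂ × ℝ) (n : ℕ) (g : Sm n → Ms) (y : Sm n)
    (σ : Finset (Fin n)) (h : 0 < gap σ y) :
    hat ch n g y σ.card = (gap σ y, lam ch n g σ, ray g σ y) := by
  have he : ∃ σ' : Finset (Fin n), σ'.card = σ.card ∧ 0 < gap σ' y := ⟨σ, rfl, h⟩
  have h1 : he.choose = σ := (gap_nested he.choose_spec.2 h).2 he.choose_spec.1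
  rw [hat, dif_pos he, h1]

theorem hat_off (ch : Ms → ℕ → Set (ℂ × ℝ) → ℂ × ℝ) (n : ℕ) (g : Sm n → Ms) (y : Sm n) (j : ℕ)
    (h : ¬ ∃ σ : Finset (Fin n), σ.card = j ∧ 0 < gap σ y) :
    hat ch n g y j = (0, (0, 0), fun _ => 0) := by
  rw [hat, dif_neg h]

theorem hat_nat (ch : Ms → ℕ → Set (ℂ × ℝ) → ℂ × ℝ) (n : ℕ) (g : Sm (n + 1) → Ms)
    (i : Fin (n + 1)) (y : Sm n) : hat ch (n + 1) g (fc n i y) = hat ch n (g ∘ fc n i) y := by
  funext j
  by_cases h : ∃ τ : Finset (Fin n), τ.card = j ∧ 0 < gap τ y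
  · obtain ⟨τ, rfl, h⟩ := h
    rw [hat_act ch n _ y τ h, ← card_up i τ,
      hat_act ch (n + 1) g _ (up i τ) (by rw [gap_up]; exact h), gap_up, lam_up, ray_up]
  · rw [hat_off ch n _ y j h, hat_off]
    rintro ⟨σ, hσ, hp⟩
    have hi : i ∉ σ := fun hi => by
      have := ((le_gap_iff (nonempty_of_pos hp) (fc n i y) _).1 le_rfl i hi).1
      rw [fc_self] at this
      exact absurd hp this.not_gt
    obtain ⟨τ, rfl⟩ := exists_up hi
    exact h ⟨τ, by rw [← hσ, card_up], by rw [← gap_up i]; exact hp⟩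

end HatA

theorem exists_hat (ch : Ms → ℕ → Set (ℂ × ℝ) → ℂ × ℝ) :
    ∃ (Lam : ∀ n, (Sm n → Ms) → Finset (Fin n) → ℂ × ℝ) (hat : ∀ n, (Sm n → Ms) → Sm n → Lab),
      HatSys Lam hat ∧ ∀ n g σ, Lam n g σ =
        ch (anchor g σ) σ.card {B | ∃ σ' ⊂ σ, σ'.Nonempty ∧ B = Lam n g σ'} := by
  refine ⟨HatA.lam ch, HatA.hat ch, ⟨HatA.hat_nat ch, HatA.hat_act ch, fun n g y j h => ?_⟩,
    HatA.lam_eq ch⟩
  rw [HatA.hat_off ch n g y j fun ⟨σ, h1, h2⟩ => (h σ h1).not_gt h2]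

end Pool.Agent.MP_20201c_gt.H91
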