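import Pool.Agent.MP_20201c_gt.H91.Defs1

/-! Basic facts on chains. -/

open Set

namespace Pool.Agent.MP_20201c_gt.H91

section gen
variable {B B' C : Type} [AddCommGroup C] [Module F2 C]

theorem add_self2 (c : C) : c + c = 0 := by
  have h : (2 : F2) • c = 0 := by
    have : (2 : F2) = 0 := by decide
    rw [this, zero_smul]
  rwa [two_smul] at h

theorem neg_eq2 (c : C) : -c = c := by
  rw [neg_eq_iff_add_eq_zero, add_self2]

theorem add_eq_zero2 {c d : C} : c + d = 0 ↔ c = d := by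
  rw [add_eq_zero_iff_eq_neg, neg_eq2]

@[simp] theorem lift_one (f : B → C) (b : B) : lift f (one b) = f b := by
  simp [lift, one]

theorem one_mem {P : Set B} {b : B} (h : b ∈ P) : one b ∈ Sp P :=
  Finsupp.single_mem_supported F2 1 h

theorem sp_mono {P Q : Set B} (h : P ⊆ Q) {c : B →₀ F2} (hc : c ∈ Sp P) : c ∈ Sp Q :=
  Finsupp.supported_mono h hc

theorem mem_sp {P : Set B} {c : B →₀ F2} : c ∈ Sp P ↔ ∀ b ∈ c.support, b ∈ P := by
  rw [Finsupp.mem_supported]; rfl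

theorem sp_inter {P Q : Set B} {c : B →₀ F2} : c ∈ Sp (P ∩ Q) ↔ c ∈ Sp P ∧ c ∈ Sp Q := by
  simp only [mem_sp, mem_inter_iff]
  exact ⟨fun h => ⟨fun b hb => (h b hb).1, fun b hb => (h b hb).2⟩,
    fun h b hb => ⟨h.1 b hb, h.2 b hb⟩⟩

theorem sp_support (c : B →₀ F2) : c ∈ Sp (↑c.support : Set B) := mem_sp.2 fun _ h => h

theorem eq_sum_one (c : B →₀ F2) : c = ∑ b ∈ c.support, one b := by
  classical
  conv_lhs => rw [← Finsupp.sum_single c]
  refine Finset.sum_congr rfl fun b hb => ?_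
  have h1 : c b = 1 := by
    have h0 := Finsupp.mem_support_iff.1 hb
    generalize c b = x at h0
    revert x; decide
  rw [h1]; rfl

theorem lift_eq_sum (f : B → C) (c : B →₀ F2) : lift f c = ∑ b ∈ c.support, f b := by
  conv_lhs => rw [eq_sum_one c]
  rw [map_sum]; simp

/-- Induction principle for supported chains. -/
theorem sp_induction {P : Set B} (Q : (B →₀ F2) → Prop) (h0 : Q 0)
    (hadd : ∀ c d, Q c → Q d → Q (c + d)) (h1 : ∀ b ∈ P, Q (one b)) :
    ∀ c ∈ Sp P, Q c := by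
  intro c hc
  rw [eq_sum_one c]
  exact Finset.sum_induction _ Q hadd h0 fun b hb => h1 b (mem_sp.1 hc b hb)

theorem lin_mem {P : Set B} (A : (B →₀ F2) →ₗ[F2] C) (V : Submodule F2 C)
    (h : ∀ b ∈ P, A (one b) ∈ V) {c : B →₀ F2} (hc : c ∈ Sp P) : A c ∈ V :=
  sp_induction (fun c => A c ∈ V) (by simp)
    (fun c d hc hd => by rw [map_add]; exact V.add_mem hc hd) h c hc

theorem lift_mem {P : Set B} (f : B → C) (V : Submodule F2 C)
    (h : ∀ b ∈ P, f b ∈ V) {c : B →₀ F2} (hc : c ∈ Sp P) : lift f c ∈ V :=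
  lin_mem _ V (fun b hb => by simpa using h b hb) hc

theorem lin_congr {P : Set B} (A A' : (B →₀ F2) →ₗ[F2] C)
    (h : ∀ b ∈ P, A (one b) = A' (one b)) {c : B →₀ F2} (hc : c ∈ Sp P) : A c = A' c :=
  sp_induction (fun c => A c = A' c) (by simp)
    (fun c d hc hd => by rw [map_add, map_add, hc, hd]) h c hc

theorem lift_congr {P : Set B} (f g : B → C) (h : ∀ b ∈ P, f b = g b)
    {c : B →₀ F2} (hc : c ∈ Sp P) : lift f c = lift g c :=
  lin_congr _ _ (fun b hb => by simpa using h b hb) hc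

theorem lin_ext (A A' : (B →₀ F2) →ₗ[F2] C) (h : ∀ b, A (one b) = A' (one b)) (c : B →₀ F2) :
    A c = A' c :=
  lin_congr (P := univ) A A' (fun b _ => h b) (mem_sp.2 fun _ _ => trivial)

theorem lin_lift {C' : Type} [AddCommGroup C'] [Module F2 C'] (A : C →ₗ[F2] C') (f : B → C)
    (c : B →₀ F2) : A (lift f c) = lift (fun b => A (f b)) c :=
  lin_ext (A.comp (lift f)) _ (fun b => by simp) c

/-- Recursion with choices along a degree. -/
theorem ac0 (deg : B → ℕ) (d : B → (B →₀ F2)) (S : Set B)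
    (hd : ∀ b ∈ S, d b ∈ Sp (S ∩ {b' | deg b' < deg b})) (R : B → C → C → Prop)
    (hR : ∀ b ∈ S, ∀ f : B → C,
      (∀ b' ∈ S, deg b' < deg b → R b' (f b') (lift f (d b'))) → ∃ c, R b c (lift f (d b))) :
    ∃ f : B → C, ∀ b ∈ S, R b (f b) (lift f (d b)) := by
  classical
  have step : ∀ n : ℕ, ∀ f : B → C, (∀ b ∈ S, deg b < n → R b (f b) (lift f (d b))) →
      ∃ g : B → C, (∀ b, deg b < n → g b = f b) ∧
        ∀ b ∈ S, deg b < n + 1 → R b (g b) (lift g (d b)) := by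
    intro n f hf
    have hc : ∀ b, ∃ c, b ∈ S → deg b = n → R b c (lift f (d b)) := by
      intro b
      by_cases hb : b ∈ S ∧ deg b = n
      · obtain ⟨c, hc⟩ := hR b hb.1 f fun b' hb' hlt => hf b' hb' (hb.2 ▸ hlt)
        exact ⟨c, fun _ _ => hc⟩
      · exact ⟨0, fun h1 h2 => absurd ⟨h1, h2⟩ hb⟩
    choose c hc using hc
    refine ⟨fun b => if deg b < n then f b else c b, fun b hb => if_pos hb, fun b hb hlt => ?_⟩
    have hl : lift (fun b => if deg b < n then f b else c b) (d b) = lift f (d b) := by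
      refine lift_congr _ _ (fun b' hb' => if_pos ?_) (hd b hb)
      have := hb'.2
      simp only [mem_ofPred_eq] at this
      omega
    rw [hl]
    by_cases h : deg b < n
    · simpa [h] using hf b hb h
    · simpa [h] using hc b hb (by omega)
  choose! g hg1 hg2 using step
  let F : ℕ → B → C := fun n => Nat.rec (fun _ => 0) (fun n f => g n f) n
  have hF : ∀ n, ∀ b ∈ S, deg b < n → R b (F n b) (lift (F n) (d b)) := by
    intro n
    induction n with
    | zero => intro b _ h; omega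
    | succ n ih => exact hg2 n (F n) ih
  have hst : ∀ n m b, deg b < n → n ≤ m → F m b = F n b := by
    intro n m b hb hm
    induction m, hm using Nat.le_induction with
    | base => rfl
    | succ m hm ih => rw [← ih]; exact hg1 m (F m) (hF m) b (by omega)
  refine ⟨fun b => F (deg b + 1) b, fun b hb => ?_⟩
  have hl : lift (fun b => F (deg b + 1) b) (d b) = lift (F (deg b + 1)) (d b) := by
    refine lift_congr _ _ (fun b' hb' => ?_) (hd b hb)
    have := hb'.2
    simp only [mem_ofPred_eq] at this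
    exact (hst (deg b' + 1) (deg b + 1) b' (by omega) (by omega)).symm
  rw [hl]
  exact hF (deg b + 1) b hb (by omega)

end gen

section sing
variable {Y Y' Y'' : Type}

theorem continuous_fc (n : ℕ) (i : Fin (n + 1)) : Continuous (fc n i) :=
  stdSimplex.continuous_map _

theorem PreCl.faceCl {P : Set (Sx Y)} (h : PreCl P) : FaceCl P :=
  fun n f i hf => h (n + 1) n f (fc n i) (continuous_fc n i) hf

theorem sx_zero (f : Sm 0 → Y) : (⟨0, f⟩ : Sx Y) = emp Y := by
  unfold emp; congr; funext x; exact isEmptyElim x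

@[simp] theorem bd_one (s : Sx Y) : bd (one s) = bdS s := lift_one _ _

@[simp] theorem mp_one (g : Y → Y') (s : Sx Y) : mp g (one s) = one (smap g s) := lift_one _ _

theorem mp_mp (g : Y → Y') (g' : Y' → Y'') (c : Ch Y) : mp g' (mp g c) = mp (g' ∘ g) c :=
  lin_ext ((mp g').comp (mp g)) _ (fun s => by simp; rfl) c

theorem mp_id (c : Ch Y) : mp id c = c :=
  lin_ext (mp id) LinearMap.id (fun s => by simp; rfl) c

theorem bd_mp (g : Y → Y') (c : Ch Y) : bd (mp g c) = mp g (bd c) := by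
  refine lin_ext (bd.comp (mp g)) ((mp g).comp bd) (fun s => ?_) c
  obtain ⟨_ | n, f⟩ := s
  · simp [bdS, smap]
  · simp only [LinearMap.comp_apply, mp_one, bd_one, smap, bdS, map_sum]
    rfl

theorem mp_mem {P : Set (Sx Y)} {Q : Set (Sx Y')} (g : Y → Y') (h : ∀ s ∈ P, smap g s ∈ Q)
    {c : Ch Y} (hc : c ∈ Sp P) : mp g c ∈ Sp Q :=
  lin_mem _ _ (fun s hs => by rw [mp_one]; exact one_mem (h s hs)) hc

theorem mp_congr {P : Set (Sx Y)} (g g' : Y → Y') (h : ∀ s ∈ P, ∀ x, g (s.2 x) = g' (s.2 x))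
    {c : Ch Y} (hc : c ∈ Sp P) : mp g c = mp g' c := by
  refine lin_congr _ _ (fun s hs => ?_) hc
  rw [mp_one, mp_one]
  have : g ∘ s.2 = g' ∘ s.2 := funext (h s hs)
  simp only [smap, this]

theorem bd_mem {P : Set (Sx Y)} (hP : FaceCl P) {c : Ch Y} (hc : c ∈ Sp P) : bd c ∈ Sp P := by
  refine lin_mem _ _ (fun s hs => ?_) hc
  obtain ⟨_ | n, f⟩ := s
  · simp [bdS]
  · rw [bd_one, bdS]
    exact Submodule.sum_mem _ fun i _ => one_mem (hP n f i hs)

theorem bdS_mem_lt (s : Sx Y) : bdS s ∈ Sp {s' : Sx Y | s'.1 + 1 = s.1} := by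
  obtain ⟨_ | n, f⟩ := s
  · simp [bdS]
  · rw [bdS]
    exact Submodule.sum_mem _ fun i _ => one_mem rfl

theorem bd_dle {N : ℕ} {c : Ch Y} (hc : c ∈ Sp (Dle Y (N + 1))) : bd c ∈ Sp (Dle Y N) := by
  refine lin_mem _ _ (fun s hs => ?_) hc
  rw [bd_one]
  refine sp_mono (fun s' hs' => ?_) (bdS_mem_lt s)
  simp only [Dle, mem_ofPred_eq] at *
  omega

theorem bd_deq {N : ℕ} {c : Ch Y} (hc : c ∈ Sp (Deq Y (N + 1))) : bd c ∈ Sp (Deq Y N) := by
  refine lin_mem _ _ (fun s hs => ?_) hc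
  rw [bd_one]
  refine sp_mono (fun s' hs' => ?_) (bdS_mem_lt s)
  simp only [Deq, mem_ofPred_eq] at *
  omega

theorem fc_fc (n : ℕ) (i : Fin (n + 2)) (j : Fin (n + 1)) :
    fc (n + 1) i ∘ fc n j = fc (n + 1) (i.succAbove j) ∘ fc n (j.predAbove i) := by
  funext x
  simp only [Function.comp_apply, fc, stdSimplex.map_comp_apply]
  congr 1
  funext k
  exact (Fin.succAbove_succAbove_succAbove_predAbove i j k).symm

/-- Double faces cancel mod two. -/
theorem sum_sum_faces {C : Type} [AddCommGroup C] [Module F2 C] (n : ℕ)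
    (T : (Sm n → Sm (n + 2)) → C) :
    ∑ i : Fin (n + 2), ∑ j : Fin (n + 1), T (fc (n + 1) i ∘ fc n j) = 0 := by
  rw [← Finset.sum_product']
  refine Finset.sum_involution (fun q _ => (q.1.succAbove q.2, q.2.predAbove q.1))
    (fun q _ => ?_) (fun q _ _ h => ?_) (fun q _ => by simp) (fun q _ => ?_)
  · rw [fc_fc n q.1 q.2]; exact add_self2 _
  · exact Fin.succAbove_ne q.1 q.2 (congrArg Prod.fst h)
  · ext1
    · exact Fin.succAbove_succAbove_predAbove q.1 q.2
    · exact Fin.predAbove_predAbove_succAbove q.1 q.2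

theorem bd_bd (c : Ch Y) : bd (bd c) = 0 := by
  refine lin_ext (bd.comp bd) 0 (fun s => ?_) c
  obtain ⟨_ | _ | n, f⟩ := s
  · simp [bdS]
  · simp [bdS]
  · simp only [LinearMap.comp_apply, bd_one, bdS, map_sum, LinearMap.zero_apply]
    exact sum_sum_faces n fun φ => one (⟨n, f ∘ φ⟩ : Sx Y)

open Classical in
/-- The part of a chain in a set of degrees. -/
noncomputable def prj (D : Set ℕ) : Ch Y →ₗ[F2] Ch Y :=
  lift fun s => if s.1 ∈ D then one s else 0

theorem prj_mem {P : Set (Sx Y)} (D : Set ℕ) {c : Ch Y} (hc : c ∈ Sp P) :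
    prj D c ∈ Sp (P ∩ {s | s.1 ∈ D}) := by
  refine lift_mem _ _ (fun s hs => ?_) hc
  split_ifs with h
  · exact one_mem ⟨hs, h⟩
  · exact Submodule.zero_mem _

theorem prj_eq (D : Set ℕ) {c : Ch Y} (hc : c ∈ Sp {s : Sx Y | s.1 ∈ D}) : prj D c = c := by
  refine lin_congr (prj D) LinearMap.id (fun s hs => ?_) hc
  have hs' : s.1 ∈ D := hs
  simp [prj, hs']

theorem prj_zero (D : Set ℕ) {c : Ch Y} (hc : c ∈ Sp {s : Sx Y | s.1 ∉ D}) : prj D c = 0 := by
  refine lin_congr (prj D) 0 (fun s hs => ?_) hc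
  have hs' : s.1 ∉ D := hs
  simp [prj, hs']

theorem bd_prj (D : Set ℕ) (c : Ch Y) : bd (prj {n | ∃ k ∈ D, n = k + 1} c) = prj D (bd c) := by
  refine lin_ext (bd.comp (prj _)) ((prj D).comp bd) (fun s => ?_) c
  simp only [LinearMap.comp_apply, prj, lift_one, bd_one]
  split_ifs with h
  · obtain ⟨k, hk, hs⟩ := h
    rw [bd_one]
    refine (prj_eq D (sp_mono (fun s' hs' => ?_) (bdS_mem_lt s))).symm
    have : s'.1 = k := by simp only [mem_ofPred_eq] at hs'; omega
    simpa [this] using hk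
  · rw [map_zero]
    have hsub : {s' : Sx Y | s'.1 + 1 = s.1} ⊆ {s' : Sx Y | s'.1 ∉ D} :=
      fun s' hs' hD => h ⟨s'.1, hD, Eq.symm hs'⟩
    exact (prj_zero D (sp_mono hsub (bdS_mem_lt s))).symm

theorem proj_le {P : Set (Sx Y)} {N : ℕ} {w : Ch Y} (hw : w ∈ Sp P)
    (hz : bd w ∈ Sp (Dle Y N)) : ∃ w' ∈ Sp (P ∩ Dle Y (N + 1)), bd w' = bd w := by
  refine ⟨prj {n | ∃ k ∈ {k | k ≤ N}, n = k + 1} w, sp_mono ?_ (prj_mem _ hw), ?_⟩
  · rintro s ⟨h1, k, hk, h2⟩
    refine ⟨h1, ?_⟩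
    simp only [Dle, mem_ofPred_eq] at *
    omega
  · rw [bd_prj]; exact prj_eq _ hz

theorem proj_eq {P : Set (Sx Y)} {N : ℕ} {w : Ch Y} (hw : w ∈ Sp P)
    (hz : bd w ∈ Sp (Deq Y N)) : ∃ w' ∈ Sp (P ∩ Deq Y (N + 1)), bd w' = bd w := by
  refine ⟨prj {n | ∃ k ∈ {k | k = N}, n = k + 1} w, sp_mono ?_ (prj_mem _ hw), ?_⟩
  · rintro s ⟨h1, k, hk, h2⟩
    refine ⟨h1, ?_⟩
    simp only [Deq, mem_ofPred_eq] at *
    omega
  · rw [bd_prj]; exact prj_eq _ hz

end sing

end Pool.Agent.MP_20201c_gt.H91
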