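import Pool.Agent.MP_20201c_gt.H91.KitM1

/-! Polygonal measures and their boundary mod two. -/

open MeasureTheory Set Filter Topology
open scoped ENNReal

namespace Pool.Agent.MP_20201c_gt.H91

theorem eventually_cb_subset {A : Set ℂ} {z : ℂ} (h : A ∈ 𝓝 z) :
    ∀ᶠ r in 𝓝[>] (0 : ℝ), cb z r ⊆ A := by
  obtain ⟨ε, hε, hA⟩ := Metric.mem_nhds_iff.1 h
  filter_upwards [Ioo_mem_nhdsGT hε] with r hr
  exact (Metric.closedBall_subset_ball hr.2).trans hA

theorem sg_dens_end {z b : ℂ} (h : z ≠ b) :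
    ∀ᶠ r in 𝓝[>] (0 : ℝ), sg z b (cb z r) = ENNReal.ofReal r := by
  have hR : 0 < ‖b - z‖ := norm_pos_iff.2 (sub_ne_zero.2 h.symm)
  set v : ℂ := ‖b - z‖⁻¹ • (b - z) with hv
  have hv1 : ‖v‖ = 1 := by
    rw [hv, norm_smul, norm_inv, norm_norm, inv_mul_cancel₀ hR.ne']
  have hb : b = z + ‖b - z‖ • v := by
    rw [hv, smul_smul, mul_inv_cancel₀ hR.ne', one_smul]; ring
  filter_upwards [Ioo_mem_nhdsGT hR] with r hr
  have h1 := sg_ray z v hv1 hr.1.le hr.2.le
  rw [← hb] at h1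
  have h2 := congrArg (fun μ : Ms => μ univ) h1
  simp only [Measure.restrict_apply_univ] at h2
  rw [h2, sg_univ, add_sub_cancel_left, norm_smul, hv1, mul_one, Real.norm_of_nonneg hr.1.le]

open Classical in
theorem sg_dens (a b z : ℂ) :
    ∀ᶠ r in 𝓝[>] (0 : ℝ), sg a b (cb z r) = ENNReal.ofReal
      (((if a = b then 0 else if z = a ∨ z = b then 1
        else if z ∈ segment ℝ a b then 2 else 0 : ℕ) : ℝ) * r) := by
  split_ifs with h1 h2 h3
  · subst h1
    simp [sg_self]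
  · rcases h2 with rfl | rfl
    · simpa using sg_dens_end h1
    · rw [sg_comm]
      simpa using sg_dens_end (Ne.symm h1)
  · push Not at h2
    rw [sg_split h3, sg_comm a z]
    filter_upwards [sg_dens_end h2.1, sg_dens_end h2.2, self_mem_nhdsWithin] with r e1 e2 hr
    have hr' : (0 : ℝ) ≤ r := le_of_lt hr
    rw [Measure.add_apply, e1, e2, ← ENNReal.ofReal_add hr' hr']
    congr 1
    push_cast
    ring
  · have hc : IsClosed (segment ℝ a b) := by
      rw [segment_eq_image_lineMap]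
      exact (isCompact_Icc.image AffineMap.lineMap_continuous).isClosed
    filter_upwards [eventually_cb_subset (hc.isOpen_compl.mem_nhds h3)] with r hr
    rw [sg_of_disjoint (Set.disjoint_left.2 fun x hx hx' => hr hx' hx)]
    simp

theorem bdy_of_dens {μ : Ms} {z : ℂ} {k : ℕ}
    (h : ∀ᶠ r in 𝓝[>] (0 : ℝ), μ (cb z r) = ENNReal.ofReal (k * r)) : bdy μ z = (k : F2) := by
  unfold bdy
  split_ifs with h1
  · obtain ⟨k', hk', h'⟩ := h1
    obtain ⟨r, e1, e2, hr⟩ := (h.and (h'.and self_mem_nhdsWithin)).exists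
    have hr' : (0 : ℝ) < r := hr
    rw [e1, ENNReal.ofReal_eq_ofReal_iff (by positivity) (by positivity)] at e2
    have e3 : (k : ℝ) = k' := mul_right_cancel₀ hr'.ne' e2
    have e4 : k = k' := by exact_mod_cast e3
    rw [e4]
    exact ((ZMod.natCast_eq_one_iff_odd).2 hk').symm
  · have hk : Even k := by
      by_contra hk
      exact h1 ⟨k, Nat.not_even_iff_odd.1 hk, h⟩
    exact ((ZMod.natCast_eq_zero_iff_even).2 hk).symm

theorem bdy_congr {μ ν : Ms} {z : ℂ}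
    (h : ∀ᶠ r in 𝓝[>] (0 : ℝ), μ (cb z r) = ν (cb z r)) : bdy μ z = bdy ν z := by
  unfold bdy
  have key : (∃ k : ℕ, Odd k ∧ ∀ᶠ r in 𝓝[>] (0 : ℝ), μ (cb z r) = ENNReal.ofReal (k * r)) ↔
      (∃ k : ℕ, Odd k ∧ ∀ᶠ r in 𝓝[>] (0 : ℝ), ν (cb z r) = ENNReal.ofReal (k * r)) := by
    refine exists_congr fun k => and_congr_right fun _ => ?_
    constructor
    · intro h'
      filter_upwards [h, h'] with r e1 e2
      rw [← e1, e2]
    · intro h'
      filter_upwards [h, h'] with r e1 e2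
      rw [e1, e2]
  by_cases h1 : ∃ k : ℕ, Odd k ∧ ∀ᶠ r in 𝓝[>] (0 : ℝ), μ (cb z r) = ENNReal.ofReal (k * r)
  · rw [if_pos h1, if_pos (key.1 h1)]
  · rw [if_neg h1, if_neg (mt key.2 h1)]

theorem f2_add_self (x : F2) : x + x = 0 := CharTwo.add_self_eq_zero x

theorem msr_single (a b : ℂ) : msr (fun _ : Fin 1 => a) (fun _ => b) = sg a b := by
  simp [msr]

theorem ind_append {m n : ℕ} (a : Fin m → ℂ) (a' : Fin n → ℂ) (z : ℂ) :
    ind (Fin.append a a') z = ind a z + ind a' z := by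
  classical
  unfold ind
  rw [Fin.sum_univ_add]
  simp

theorem sum_ind {n : ℕ} (p : Fin n → ℂ) {S : Finset ℂ} (h : ∀ i, p i ∈ S) :
    ∑ z ∈ S, ind p z = (n : F2) := by
  classical
  unfold ind
  rw [Finset.sum_comm]
  have : ∀ i : Fin n, (∑ z ∈ S, if p i = z then (1 : F2) else 0) = 1 := by
    intro i
    rw [Finset.sum_ite_eq]
    simp [h i]
  calc _ = ∑ _i : Fin n, (1 : F2) := Finset.sum_congr rfl fun i _ => by convert this i
    _ = _ := by simp

theorem ind_eq_zero {n : ℕ} {p : Fin n → ℂ} {z : ℂ} (h : ∀ i, p i ≠ z) : ind p z = 0 := by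
  unfold ind
  exact Finset.sum_eq_zero fun i _ => if_neg (h i)

open Classical in
/-- The density of a polygonal measure. -/
theorem msr_dens {m : ℕ} (a b : Fin m → ℂ) (z : ℂ) :
    ∀ᶠ r in 𝓝[>] (0 : ℝ), msr a b (cb z r) = ENNReal.ofReal
      (((∑ i, if a i = b i then 0 else if z = a i ∨ z = b i then 1
        else if z ∈ segment ℝ (a i) (b i) then 2 else 0 : ℕ) : ℝ) * r) := by
  have h := Filter.eventually_all.2 fun i : Fin m => sg_dens (a i) (b i) z
  filter_upwards [h, self_mem_nhdsWithin] with r hr hr0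
  have hr' : (0 : ℝ) ≤ r := le_of_lt hr0
  unfold msr
  rw [Measure.finsetSum_apply, Nat.cast_sum, Finset.sum_mul,
    ENNReal.ofReal_sum_of_nonneg fun i _ => by positivity]
  exact Finset.sum_congr rfl fun i _ => hr i

theorem bdy_msr {m : ℕ} (a b : Fin m → ℂ) (z : ℂ) : bdy (msr a b) z = ind a z + ind b z := by
  classical
  rw [bdy_of_dens (msr_dens a b z), Nat.cast_sum]
  unfold ind
  rw [← Finset.sum_add_distrib]
  refine Finset.sum_congr rfl fun i _ => ?_
  by_cases h1 : a i = b i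
  · rw [if_pos h1, h1, f2_add_self]; simp
  · rw [if_neg h1]
    by_cases h2 : a i = z
    · have h3 : ¬ b i = z := fun h => h1 (h2.trans h.symm)
      rw [if_pos (Or.inl h2.symm), if_pos h2, if_neg h3]; simp
    · by_cases h3 : b i = z
      · rw [if_pos (Or.inr h3.symm), if_neg h2, if_pos h3]; simp
      · rw [if_neg (by rintro (h | h); exacts [h2 h.symm, h3 h.symm]), if_neg h2, if_neg h3]
        split_ifs
        · decide
        · simp

open Classical in
theorem bdy_sg (a b z : ℂ) :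
    bdy (sg a b) z = (if a = z then 1 else 0) + (if b = z then 1 else 0) := by
  rw [← msr_single, bdy_msr]
  simp [ind]

theorem bdy_zero (z : ℂ) : bdy 0 z = 0 := by
  have h : ∀ᶠ r in 𝓝[>] (0 : ℝ), (0 : Ms) (cb z r) = ENNReal.ofReal (((0 : ℕ) : ℝ) * r) := by
    simp
  simpa using bdy_of_dens h

theorem bdy_restrict_nhds (μ : Ms) {A : Set ℂ} {z : ℂ} (h : A ∈ 𝓝 z) :
    bdy (μ.restrict A) z = bdy μ z := by
  refine bdy_congr ?_
  filter_upwards [eventually_cb_subset h] with r hr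
  rw [Measure.restrict_apply Metric.isClosed_closedBall.measurableSet, inter_eq_left.2 hr]

theorem bdy_restrict_compl (μ : Ms) {A : Set ℂ} {z : ℂ} (h : Aᶜ ∈ 𝓝 z) :
    bdy (μ.restrict A) z = 0 := by
  rw [← bdy_zero z]
  refine bdy_congr ?_
  filter_upwards [eventually_cb_subset h] with r hr
  rw [Measure.restrict_apply Metric.isClosed_closedBall.measurableSet,
    (Set.subset_compl_iff_disjoint_right.1 hr).inter_eq]
  simp

theorem Poly.of_fintype {W : Set ℂ} {ι : Type} [Fintype ι] (a b : ι → ℂ)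
    (h : ∀ i, a i ∈ W ∧ b i ∈ W) : Poly W (∑ i, sg (a i) (b i)) :=
  ⟨_, a ∘ (Fintype.equivFin ι).symm, b ∘ (Fintype.equivFin ι).symm, fun _ => h _,
    (msr_equivFin a b).symm⟩

theorem Poly.zero (W : Set ℂ) : Poly W 0 :=
  ⟨0, Fin.elim0, Fin.elim0, fun i => i.elim0, by simp [msr]⟩

theorem Poly.sg {W : Set ℂ} {a b : ℂ} (ha : a ∈ W) (hb : b ∈ W) : Poly W (sg a b) :=
  ⟨1, fun _ => a, fun _ => b, fun _ => ⟨ha, hb⟩, (msr_single a b).symm⟩

theorem Poly.add {W : Set ℂ} {μ ν : Ms} (h : Poly W μ) (h' : Poly W ν) : Poly W (μ + ν) := by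
  obtain ⟨m, a, b, hab, rfl⟩ := h
  obtain ⟨n, a', b', hab', rfl⟩ := h'
  refine ⟨m + n, Fin.append a a', Fin.append b b', fun i => ?_, (msr_append a b a' b').symm⟩
  refine Fin.addCases (fun i => ?_) (fun i => ?_) i
  · simpa using hab i
  · simpa using hab' i

theorem Poly.sum {W : Set ℂ} {ι : Type} (s : Finset ι) {μ : ι → Ms} (h : ∀ i ∈ s, Poly W (μ i)) :
    Poly W (∑ i ∈ s, μ i) :=
  Finset.sum_induction μ (Poly W) (fun _ _ h h' => h.add h') (Poly.zero W) h

theorem Poly.mono {W W' : Set ℂ} {μ : Ms} (h : Poly W μ) (hW : W ⊆ W') : Poly W' μ := by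
  obtain ⟨m, a, b, hab, rfl⟩ := h
  exact ⟨m, a, b, fun i => ⟨hW (hab i).1, hW (hab i).2⟩, rfl⟩

theorem Poly.finite {W : Set ℂ} {μ : Ms} (h : Poly W μ) : IsFiniteMeasure μ := by
  obtain ⟨m, a, b, -, rfl⟩ := h
  infer_instance

theorem Poly.compl_null {W : Set ℂ} {μ : Ms} (h : Poly W μ) (hW : Convex ℝ W) : μ Wᶜ = 0 := by
  obtain ⟨m, a, b, hab, rfl⟩ := h
  unfold msr
  rw [Measure.finsetSum_apply]
  refine Finset.sum_eq_zero fun i _ => sg_of_disjoint ?_
  exact Set.disjoint_left.2 fun x hx hx' => hx' (hW.segment_subset (hab i).1 (hab i).2 hx)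

theorem Poly.restrict_self {W A : Set ℂ} {μ : Ms} (h : Poly W μ) (hW : Convex ℝ W) (hA : W ⊆ A) :
    μ.restrict A = μ := by
  refine Measure.restrict_eq_self_of_ae_mem ?_
  exact measure_mono_null (fun x hx hx' => hx (hA hx')) (h.compl_null hW)

theorem Poly.sphere_null {W : Set ℂ} {μ : Ms} (h : Poly W μ) (y : ℂ) (R : ℝ) :
    μ (Metric.sphere y R) = 0 := by
  obtain ⟨m, a, b, -, rfl⟩ := h
  unfold msr
  rw [Measure.finsetSum_apply]
  exact Finset.sum_eq_zero fun i _ => sg_sphere _ _ _ _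

/-- A measure in a disc has no mass outside the disc, even in the closure of the outside. -/
theorem Poly.restrict_compl_cb {W : Set ℂ} {μ : Ms} {y : ℂ} {R : ℝ} (h : Poly (W ∩ cb y R) μ) :
    μ.restrict (cb y R)ᶜ = 0 ∧ μ.restrict (cb y R) = μ := by
  have h' : Poly (cb y R) μ := h.mono inter_subset_right
  exact ⟨Measure.restrict_eq_zero.2 (h'.compl_null (convex_closedBall y R)),
    h'.restrict_self (convex_closedBall y R) subset_rfl⟩

theorem Poly.scl {W : Set ℂ} {μ : Ms} (h : Poly W μ) (hW : Convex ℝ W) {o : ℂ} (ho : o ∈ W)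
    {l : ℝ} (h0 : 0 ≤ l) (h1 : l ≤ 1) : Poly W (scl o l μ) := by
  obtain ⟨m, a, b, hab, rfl⟩ := h
  exact ⟨m, _, _, fun i => ⟨hW.add_smul_sub_mem ho (hab i).1 ⟨h0, h1⟩,
    hW.add_smul_sub_mem ho (hab i).2 ⟨h0, h1⟩⟩, scl_msr o h0 a b⟩

theorem bdy_add {W W' : Set ℂ} {μ ν : Ms} (h : Poly W μ) (h' : Poly W' ν) (z : ℂ) :
    bdy (μ + ν) z = bdy μ z + bdy ν z := by
  obtain ⟨m, a, b, -, rfl⟩ := h
  obtain ⟨n, a', b', -, rfl⟩ := h'
  rw [← msr_append, bdy_msr, bdy_msr, bdy_msr, ind_append, ind_append]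
  ring

theorem bdy_sum {W : Set ℂ} {ι : Type} (s : Finset ι) {μ : ι → Ms} (h : ∀ i ∈ s, Poly W (μ i))
    (z : ℂ) : bdy (∑ i ∈ s, μ i) z = ∑ i ∈ s, bdy (μ i) z := by
  classical
  induction s using Finset.induction_on with
  | empty => simpa using bdy_zero z
  | insert j s hj ih =>
    rw [Finset.sum_insert hj, Finset.sum_insert hj,
      bdy_add (h j (Finset.mem_insert_self _ _))
        (Poly.sum s fun i hi => h i (Finset.mem_insert_of_mem hi)),
      ih fun i hi => h i (Finset.mem_insert_of_mem hi)]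

theorem Poly.bdy_of_notMem {W : Set ℂ} {μ : Ms} (h : Poly W μ) {z : ℂ} (hz : z ∉ W) :
    bdy μ z = 0 := by
  obtain ⟨m, a, b, hab, rfl⟩ := h
  rw [bdy_msr, ind_eq_zero (p := a) fun i e => hz (by rw [← e]; exact (hab i).1),
    ind_eq_zero (p := b) fun i e => hz (by rw [← e]; exact (hab i).2), add_zero]

theorem Poly.bdy_finite {W : Set ℂ} {μ : Ms} (h : Poly W μ) : {z | bdy μ z ≠ 0}.Finite := by
  obtain ⟨m, a, b, -, rfl⟩ := h
  refine ((finite_range a).union (finite_range b)).subset fun z hz => ?_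
  by_contra hz'
  apply hz
  rw [bdy_msr, ind_eq_zero fun i e => hz' (Or.inl ⟨i, e⟩), ind_eq_zero fun i e => hz' (Or.inr ⟨i, e⟩),
    add_zero]

/-- Handshake lemma. -/
theorem Poly.even {W : Set ℂ} {μ : Ms} (h : Poly W μ) {n : ℕ} (p : Fin n → ℂ)
    (hp : ∀ z, bdy μ z = ind p z) : Even n := by
  classical
  obtain ⟨m, a, b, -, rfl⟩ := h
  set S : Finset ℂ := Finset.univ.image a ∪ Finset.univ.image b ∪ Finset.univ.image p with hS
  have h1 := sum_ind p (S := S) fun i => by simp [hS]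
  have h2 := sum_ind a (S := S) fun i => by simp [hS]
  have h3 := sum_ind b (S := S) fun i => by simp [hS]
  rw [← ZMod.natCast_eq_zero_iff_even, ← h1, ← f2_add_self (m : F2)]
  nth_rewrite 1 [← h2]
  rw [← h3, ← Finset.sum_add_distrib]
  exact Finset.sum_congr rfl fun z _ => by rw [← hp, bdy_msr]

theorem bdy_scl {W : Set ℂ} {μ : Ms} (h : Poly W μ) (o : ℂ) {l : ℝ} (h0 : 0 < l) (x : ℂ) :
    bdy (scl o l μ) (o + l • (x - o)) = bdy μ x := by
  obtain ⟨m, a, b, -, rfl⟩ := h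
  have key : ∀ y : ℂ, (o + l • (y - o) = o + l • (x - o)) ↔ y = x := by
    intro y
    rw [add_right_inj, smul_right_inj h0.ne', sub_left_inj]
  rw [scl_msr o h0.le, bdy_msr, bdy_msr]
  simp only [ind, key]

/-- Scaling a relative cycle about an admissible apex. -/
theorem Par.scl {G W : Set ℂ} {μ : Ms} (h : Poly W μ) (hp : Par G W 0 μ) {o : ℂ}
    (ho : Adm G W o) {l : ℝ} (h0 : 0 ≤ l) (h1 : l ≤ 1) : Par G W 0 (scl o l μ) := by
  intro z hz hzG
  rcases h0.eq_or_lt with rfl | h0'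
  · rw [scl_zero]; exact bdy_zero z
  · have e : z = o + l • (o + l⁻¹ • (z - o) - o) := by
      rw [add_sub_cancel_left, smul_smul, mul_inv_cancel₀ h0'.ne', one_smul]; ring
    set x := o + l⁻¹ • (z - o) with hx
    have e1 := bdy_scl h o h0' x
    rw [← e] at e1
    rw [e1]
    by_cases hxW : x ∈ W
    · by_cases hxG : x ∈ G
      · exact hp x hxW hxG
      · refine absurd hzG (ho.2 x hxW hxG z ?_)
        rw [e]
        exact (convex_segment o x).add_smul_sub_mem (left_mem_segment ℝ o x)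
          (right_mem_segment ℝ o x) ⟨h0, h1⟩
    · exact h.bdy_of_notMem hxW

theorem nice_mono {G W : Set ℂ} {β : ℂ → F2} {t t' : ℝ} (h : t ≤ t') :
    Nice G W β t ⊆ Nice G W β t' :=
  fun _ hs => ⟨hs.1, fun x => ⟨(hs.2 x).1, (hs.2 x).2.trans_le h⟩⟩

theorem nice_congr {G G' W : Set ℂ} {β β' : ℂ → F2} (hG : ∀ z ∈ W, z ∈ G ↔ z ∈ G')
    (hβ : ∀ z ∈ W, z ∈ G → β z = β' z) (t : ℝ) : Nice G W β t = Nice G' W β' t := by
  have key : ∀ μ, Par G W β μ ↔ Par G' W β' μ := by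
    intro μ
    constructor
    · intro h z hz hz'
      rw [h z hz ((hG z hz).2 hz'), hβ z hz ((hG z hz).2 hz')]
    · intro h z hz hz'
      rw [h z hz ((hG z hz).1 hz'), hβ z hz hz']
  ext s
  simp only [Nice, mem_ofPred_eq, key]

theorem Acyc.congr {N : ℕ} {G G' W : Set ℂ} {β β' : ℂ → F2} {a : ℝ}
    (hG : ∀ z ∈ W, z ∈ G ↔ z ∈ G') (hβ : ∀ z ∈ W, z ∈ G → β z = β' z) (h : Acyc N G W β a) :
    Acyc N G' W β' a := by
  intro t ht ε hε
  have := h t ht ε hε
  unfold Fill at this ⊢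
  rwa [← nice_congr hG hβ, ← nice_congr hG hβ]

theorem Acyc.mono {N N' : ℕ} {G W : Set ℂ} {β : ℂ → F2} {a a' : ℝ} (h : Acyc N G W β a)
    (hN : N' ≤ N) (ha : a ≤ a') : Acyc N' G W β a' := by
  intro t ht ε hε z hz hz0
  refine h t (ha.trans ht) ε hε z ?_ hz0
  have hsub : Nice G W β t ∩ Dle Ms N' ⊆ Nice G W β t ∩ Dle Ms N :=
    fun s hs => ⟨hs.1, le_trans hs.2 hN⟩
  exact Finsupp.supported_mono hsub hz

end Pool.Agent.MP_20201c_gt.H91
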