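import Pool.Agent.MP_20201c_gt.H91.KitM2

/-! Continuous families of polygonal measures. -/

open MeasureTheory Set Filter Topology
open scoped ENNReal

namespace Pool.Agent.MP_20201c_gt.H91

variable {W : Set ℂ} {X X' : Type} [TopologicalSpace X] [TopologicalSpace X']

theorem Fam.of_fintype {ι : Type} [Fintype ι] (a b : ι → X → ℂ)
    (hc : ∀ i, Continuous (a i) ∧ Continuous (b i)) (h : ∀ i x, a i x ∈ W ∧ b i x ∈ W) :
    Fam W fun x => ∑ i, sg (a i x) (b i x) :=
  ⟨Fintype.card ι, fun i => a ((Fintype.equivFin ι).symm i),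
    fun i => b ((Fintype.equivFin ι).symm i), fun _ => hc _, fun _ x => h _ x,
    fun x => (msr_equivFin (fun i => a i x) (fun i => b i x)).symm⟩

theorem Fam.poly {u : X → Ms} (h : Fam W u) (x : X) : Poly W (u x) := by
  obtain ⟨m, a, b, _, hW, hu⟩ := h
  exact ⟨m, fun i => a i x, fun i => b i x, fun i => hW i x, hu x⟩

theorem Fam.const {μ : Ms} (h : Poly W μ) : Fam W fun _ : X => μ := by
  obtain ⟨m, a, b, hW, hu⟩ := h
  exact ⟨m, fun i _ => a i, fun i _ => b i, fun _ => ⟨continuous_const, continuous_const⟩,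
    fun i _ => hW i, fun _ => hu⟩

theorem Fam.of_isEmpty [IsEmpty X] (u : X → Ms) : Fam W u :=
  ⟨0, fun i => i.elim0, fun i => i.elim0, fun i => i.elim0, fun i => i.elim0,
    fun x => isEmptyElim x⟩

theorem Fam.sg {a b : X → ℂ} (ha : Continuous a) (hb : Continuous b) (h : ∀ x, a x ∈ W ∧ b x ∈ W) :
    Fam W fun x => sg (a x) (b x) :=
  ⟨1, fun _ => a, fun _ => b, fun _ => ⟨ha, hb⟩, fun _ x => h x, fun x => by simp [msr]⟩

theorem Fam.add {u v : X → Ms} (h : Fam W u) (h' : Fam W v) : Fam W fun x => u x + v x := by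
  obtain ⟨m, a, b, hc, hW, hu⟩ := h
  obtain ⟨n, a', b', hc', hW', hv⟩ := h'
  have key := Fam.of_fintype (W := W) (Sum.elim a a') (Sum.elim b b')
    (fun i => by
      rcases i with i | i
      · exact hc i
      · exact hc' i)
    (fun i x => by
      rcases i with i | i
      · exact hW i x
      · exact hW' i x)
  have he : (fun x => u x + v x) =
      fun x => ∑ i, H91.sg (Sum.elim a a' i x) (Sum.elim b b' i x) := by
    funext x
    rw [hu x, hv x, Fintype.sum_sum_type]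
    rfl
  rw [he]
  exact key

theorem Fam.sum {ι : Type} (s : Finset ι) {u : ι → X → Ms} (h : ∀ i ∈ s, Fam W (u i)) :
    Fam W fun x => ∑ i ∈ s, u i x := by
  classical
  induction s using Finset.induction_on with
  | empty =>
    exact ⟨0, fun i => i.elim0, fun i => i.elim0, fun i => i.elim0, fun i => i.elim0,
      fun x => by simp [msr]⟩
  | insert i s hi ih =>
    have h1 := (h i (Finset.mem_insert_self _ _)).add
      (ih fun j hj => h j (Finset.mem_insert_of_mem hj))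
    simpa only [Finset.sum_insert hi] using h1

theorem Fam.comp {u : X → Ms} (h : Fam W u) {φ : X' → X} (hφ : Continuous φ) :
    Fam W fun x => u (φ x) := by
  obtain ⟨m, a, b, hc, hW, hu⟩ := h
  exact ⟨m, fun i x => a i (φ x), fun i x => b i (φ x),
    fun i => ⟨(hc i).1.comp hφ, (hc i).2.comp hφ⟩, fun i x => hW i _, fun x => hu _⟩

theorem Fam.mono {W' : Set ℂ} {u : X → Ms} (h : Fam W u) (hW : W ⊆ W') : Fam W' u := by
  obtain ⟨m, a, b, hc, hm, hu⟩ := h
  exact ⟨m, a, b, hc, fun i x => ⟨hW (hm i x).1, hW (hm i x).2⟩, hu⟩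

theorem Fam.continuous_real {u : X → Ms} (h : Fam W u) :
    Continuous fun x => (u x).real univ := by
  obtain ⟨m, a, b, hc, _, hu⟩ := h
  have he : (fun x => (u x).real univ) = fun x => ∑ i, ‖b i x - a i x‖ := by
    funext x
    rw [hu x, msr_real_univ]
  rw [he]
  exact continuous_finsetSum _ fun i _ => ((hc i).2.sub (hc i).1).norm

theorem Fam.scl {u : X → Ms} (h : Fam W u) (hW : Convex ℝ W) {o : ℂ} (ho : o ∈ W) {l : X → ℝ}
    (hl : Continuous l) (h01 : ∀ x, 0 ≤ l x ∧ l x ≤ 1) : Fam W fun x => scl o (l x) (u x) := by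
  obtain ⟨m, a, b, hc, hm, hu⟩ := h
  refine ⟨m, fun i x => o + l x • (a i x - o), fun i x => o + l x • (b i x - o), fun i => ?_,
    fun i x => ?_, fun x => ?_⟩
  · exact ⟨continuous_const.add (hl.smul ((hc i).1.sub continuous_const)),
      continuous_const.add (hl.smul ((hc i).2.sub continuous_const))⟩
  · exact ⟨hW.add_smul_sub_mem ho (hm i x).1 (h01 x), hW.add_smul_sub_mem ho (hm i x).2 (h01 x)⟩
  · beta_reduce
    rw [hu x, scl_msr o (h01 x).1]

/-- A family grows out of the zero measure. -/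
theorem Fam.grow {u : X → Ms} (h : Fam W u) (hW : Convex ℝ W) :
    ∃ γ : ℝ → X → Ms, Fam W (fun q : ℝ × X => γ q.1 q.2) ∧ (∀ x, γ 0 x = 0 ∧ γ 1 x = u x) ∧
      ∀ τ x, (γ τ x).real univ ≤ (u x).real univ := by
  obtain ⟨m, a, b, hc, hm, hu⟩ := h
  have h01 : ∀ τ : ℝ, max 0 (min 1 τ) ∈ Icc (0 : ℝ) 1 := fun τ =>
    ⟨le_max_left _ _, max_le zero_le_one (min_le_left _ _)⟩
  refine ⟨fun τ x => msr (fun i => a i x)
    (fun i => a i x + max 0 (min 1 τ) • (b i x - a i x)), ?_, fun x => ⟨?_, ?_⟩, fun τ x => ?_⟩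
  · refine ⟨m, fun i q => a i q.2,
      fun i q => a i q.2 + max 0 (min 1 q.1) • (b i q.2 - a i q.2), fun i => ?_,
      fun i q => ?_, fun q => rfl⟩
    · have h1 : Continuous fun q : ℝ × X => a i q.2 := (hc i).1.comp continuous_snd
      have h2 : Continuous fun q : ℝ × X => b i q.2 := (hc i).2.comp continuous_snd
      have h3 : Continuous fun q : ℝ × X => max (0 : ℝ) (min 1 q.1) :=
        continuous_const.max (continuous_const.min continuous_fst)
      exact ⟨h1, h1.add (h3.smul (h2.sub h1))⟩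
    · exact ⟨(hm i q.2).1, hW.add_smul_sub_mem (hm i q.2).1 (hm i q.2).2 (h01 q.1)⟩
  · simp [msr, sg_self]
  · rw [hu x]
    simp
  · rw [hu x, msr_real_univ, msr_real_univ]
    refine Finset.sum_le_sum fun i _ => ?_
    rw [add_sub_cancel_left, norm_smul, Real.norm_of_nonneg (h01 τ).1]
    exact mul_le_of_le_one_left (norm_nonneg _) (h01 τ).2

/-- No concentration in a family. -/
theorem Fam.cb_le {u : X → Ms} (h : Fam W u) :
    ∃ m : ℕ, ∀ x y R, u x (cb y R) ≤ ENNReal.ofReal (m * (2 * R)) := by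
  obtain ⟨m, a, b, _, _, hu⟩ := h
  refine ⟨m, fun x y R => ?_⟩
  rw [hu x, msr, Measure.finsetSum_apply, ENNReal.ofReal_mul (Nat.cast_nonneg m),
    ENNReal.ofReal_natCast]
  refine (Finset.sum_le_sum fun i _ => sg_cb_le (a i x) (b i x) y R).trans ?_
  simp

theorem nice_preCl (G W : Set ℂ) (β : ℂ → F2) (t : ℝ) : PreCl (Nice G W β t) :=
  fun _ _ _ φ hφ hf => ⟨hf.1.comp hφ, fun x => hf.2 (φ x)⟩

theorem emp_nice (G W : Set ℂ) (β : ℂ → F2) (t : ℝ) : emp Ms ∈ Nice G W β t :=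
  ⟨Fam.of_isEmpty (X := Sm 0) _, fun x => isEmptyElim (α := Sm 0) x⟩

theorem nice_lt_one {G W : Set ℂ} {β : ℂ → F2} {t : ℝ} {s : Sx Ms} (hs : s ∈ Nice G W β t) :
    ∃ t' < t, s ∈ Nice G W β t' := by
  obtain ⟨n, f⟩ := s
  rcases isEmpty_or_nonempty (Sm n) with he | he
  · exact ⟨t - 1, by linarith, hs.1, fun x => isEmptyElim (α := Sm n) x⟩
  · obtain ⟨x0, -, h0⟩ := isCompact_univ.exists_isMaxOn (univ_nonempty (α := Sm n))
      (Fam.continuous_real hs.1).continuousOn
    have h1 : (f x0).real univ < t := (hs.2 x0).2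
    refine ⟨((f x0).real univ + t) / 2, by linarith, hs.1, fun x => ⟨(hs.2 x).1, ?_⟩⟩
    have h2 : (f x).real univ ≤ (f x0).real univ := h0 (mem_univ x)
    change (f x).real univ < _
    linarith

/-- A nice chain has a level strictly below the bound. -/
theorem nice_lt {G W : Set ℂ} {β : ℂ → F2} {t : ℝ} {c : Ch Ms} (hc : c ∈ Sp (Nice G W β t)) :
    ∃ t' < t, c ∈ Sp (Nice G W β t') := by
  refine sp_induction (fun c => ∃ t' < t, c ∈ Sp (Nice G W β t'))
    ⟨t - 1, by linarith, Submodule.zero_mem _⟩ ?_ ?_ c hc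
  · rintro c d ⟨t1, h1, hc⟩ ⟨t2, h2, hd⟩
    exact ⟨max t1 t2, max_lt h1 h2, Submodule.add_mem _
      (sp_mono (nice_mono (le_max_left _ _)) hc) (sp_mono (nice_mono (le_max_right _ _)) hd)⟩
  · intro s hs
    obtain ⟨t', h1, h2⟩ := nice_lt_one hs
    exact ⟨t', h1, one_mem h2⟩

end Pool.Agent.MP_20201c_gt.H91
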