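import Pool.Agent.MP_20201c_gt.H91.Defs4

/-! Moving points on a half circle to the end. -/

open MeasureTheory Set Filter Topology
open scoped ENNReal

namespace Pool.Agent.MP_20201c_gt.H91

def GapB (y₀ : ℂ) (R : ℝ) (nn : ℂ) {n : ℕ} (p : Fin n → ℂ) : Prop :=
  ∀ π : Fin n → Fin n, Function.Involutive π → ∀ o ∈ cb y₀ R, ip nn (o - y₀) = 0 →
    (∑ i, pv y₀ nn (p i) (p (π i))) / 2 < ∑ i, ‖p i - o‖

namespace PB

theorem prod_sq (a b c d : ℝ) :
    (√(a ^ 2 + b ^ 2) * √(c ^ 2 + d ^ 2)) ^ 2 = (a * c + b * d) ^ 2 + (a * d - b * c) ^ 2 := by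
  rw [mul_pow, Real.sq_sqrt (by positivity), Real.sq_sqrt (by positivity)]; ring

theorem add_sq' (a b c d : ℝ) : (√(a ^ 2 + b ^ 2) + √(c ^ 2 + d ^ 2)) ^ 2 =
    a ^ 2 + b ^ 2 + c ^ 2 + d ^ 2 + 2 * (√(a ^ 2 + b ^ 2) * √(c ^ 2 + d ^ 2)) := by
  rw [add_sq, Real.sq_sqrt (by positivity), Real.sq_sqrt (by positivity)]; ring

theorem tri_le (a b c d : ℝ) :
    √((a + c) ^ 2 + (b + d) ^ 2) ≤ √(a ^ 2 + b ^ 2) + √(c ^ 2 + d ^ 2) := by
  have h1 : a * c + b * d ≤ √(a ^ 2 + b ^ 2) * √(c ^ 2 + d ^ 2) := by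
    apply le_of_sq_le_sq _ (by positivity)
    rw [prod_sq]; nlinarith [sq_nonneg (a * d - b * c)]
  refine Real.sqrt_le_iff.mpr ⟨by positivity, ?_⟩
  rw [add_sq']; nlinarith

theorem tri_eq {a b c d : ℝ}
    (h : √((a + c) ^ 2 + (b + d) ^ 2) = √(a ^ 2 + b ^ 2) + √(c ^ 2 + d ^ 2)) :
    a * d = b * c ∧ 0 ≤ a * c + b * d := by
  have h1 : (a + c) ^ 2 + (b + d) ^ 2 = (√(a ^ 2 + b ^ 2) + √(c ^ 2 + d ^ 2)) ^ 2 := by
    rw [← h, Real.sq_sqrt (by positivity)]
  rw [add_sq'] at h1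
  have h2 : √(a ^ 2 + b ^ 2) * √(c ^ 2 + d ^ 2) = a * c + b * d := by linarith
  have h3 := prod_sq a b c d
  rw [h2] at h3
  have h4 : (a * d - b * c) ^ 2 = 0 := by linarith
  refine ⟨by have := pow_eq_zero_iff (two_ne_zero) |>.mp h4; linarith, ?_⟩
  rw [← h2]; positivity

theorem tri_eq' {a b c d : ℝ} (h1 : a * d = b * c) (h2 : 0 ≤ a * c + b * d) :
    √((a + c) ^ 2 + (b + d) ^ 2) = √(a ^ 2 + b ^ 2) + √(c ^ 2 + d ^ 2) := by
  have h3 := prod_sq a b c d
  rw [h1, sub_self] at h3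
  have h4 : √(a ^ 2 + b ^ 2) * √(c ^ 2 + d ^ 2) = a * c + b * d := by
    apply (sq_eq_sq₀ (by positivity) h2).mp
    rw [h3]; ring
  rw [Real.sqrt_eq_iff_eq_sq (by positivity) (by positivity), add_sq', h4]; ring

/-- The gap condition in coordinates. -/
def G {n : ℕ} (R : ℝ) (X H : Fin n → ℝ) : Prop :=
  ∀ π : Fin n → Fin n, Function.Involutive π → ∀ u : ℝ, |u| ≤ R →
    (∑ i, √((X i - X (π i)) ^ 2 + (H i + H (π i)) ^ 2)) / 2 < ∑ i, √((X i - u) ^ 2 + H i ^ 2)

theorem sum_two {n : ℕ} {π : Fin n → Fin n} (hπ : Function.Involutive π) (f : Fin n → ℝ) :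
    ∑ i, (f i + f (π i)) = 2 * ∑ i, f i := by
  rw [Finset.sum_add_distrib, hπ.bijective.sum_comp f]; ring

theorem not_G_iff {n : ℕ} (R : ℝ) (X H : Fin n → ℝ) : ¬ G R X H ↔
    ∃ π : Fin n → Fin n, Function.Involutive π ∧ ∃ u : ℝ, |u| ≤ R ∧ ∀ i,
      (X i - u) * H (π i) = H i * (u - X (π i)) ∧
        0 ≤ (X i - u) * (u - X (π i)) + H i * H (π i) := by
  have e1 : ∀ (u : ℝ) (i j : Fin n), (X i - X j) ^ 2 + (H i + H j) ^ 2 =
      ((X i - u) + (u - X j)) ^ 2 + (H i + H j) ^ 2 := fun u i j => by ring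
  have e2 : ∀ (u : ℝ) (j : Fin n), (X j - u) ^ 2 + H j ^ 2 = (u - X j) ^ 2 + H j ^ 2 :=
    fun u j => by ring
  constructor
  · intro h
    unfold G at h
    push Not at h
    obtain ⟨π, hπ, u, hu, h⟩ := h
    refine ⟨π, hπ, u, hu, fun i => tri_eq ?_⟩
    have hs := sum_two hπ fun i => √((X i - u) ^ 2 + H i ^ 2)
    have hle : ∀ j ∈ (Finset.univ : Finset (Fin n)),
        √((X j - X (π j)) ^ 2 + (H j + H (π j)) ^ 2) ≤
          √((X j - u) ^ 2 + H j ^ 2) + √((X (π j) - u) ^ 2 + H (π j) ^ 2) := by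
      intro j _
      rw [e1 u, e2 u (π j)]
      exact tri_le _ _ _ _
    have := (Finset.sum_eq_sum_iff_of_le hle).mp
      (le_antisymm (Finset.sum_le_sum hle) (by rw [hs]; linarith)) i (Finset.mem_univ i)
    rwa [e1 u, e2 u (π i)] at this
  · rintro ⟨π, hπ, u, hu, h⟩ hG
    have h1 := hG π hπ u hu
    have hs := sum_two hπ fun i => √((X i - u) ^ 2 + H i ^ 2)
    have h2 : ∑ i, √((X i - X (π i)) ^ 2 + (H i + H (π i)) ^ 2) =
        ∑ i, (√((X i - u) ^ 2 + H i ^ 2) + √((X (π i) - u) ^ 2 + H (π i) ^ 2)) := by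
      refine Finset.sum_congr rfl fun i _ => ?_
      rw [e1 u, e2 u (π i)]
      exact tri_eq' (h i).1 (h i).2
    rw [h2, hs] at h1
    linarith

theorem G_neg {n : ℕ} {R : ℝ} {X H : Fin n → ℝ} (h : G R X H) : G R (fun i => -X i) H := by
  intro π hπ u hu
  have := h π hπ (-u) (by rwa [abs_neg])
  have e1 : ∀ i j, (-X i - -X j) ^ 2 = (X i - X j) ^ 2 := fun i j => by ring
  have e2 : ∀ i, (-X i - u) ^ 2 = (X i - -u) ^ 2 := fun i => by ring
  simp only [e1, e2]
  exact this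

theorem G_sign {n : ℕ} {R ε : ℝ} (hε : ε = 1 ∨ ε = -1) {X H : Fin n → ℝ} (h : G R X H) :
    G R (fun i => ε * X i) H := by
  rcases hε with rfl | rfl
  · simpa using h
  · simpa using G_neg h

noncomputable def cX (R τ : ℝ) : ℝ := R * (1 - τ ^ 2) / (1 + τ ^ 2)
noncomputable def cH (R τ : ℝ) : ℝ := 2 * R * τ / (1 + τ ^ 2)

theorem circ (R τ : ℝ) : cX R τ ^ 2 + cH R τ ^ 2 = R ^ 2 := by
  unfold cX cH; field_simp; ring

theorem cH_pos {R τ : ℝ} (hR : 0 < R) (h : 0 < τ) : 0 < cH R τ := by unfold cH; positivity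

theorem cH_nonneg {R τ : ℝ} (hR : 0 < R) (h : 0 ≤ τ) : 0 ≤ cH R τ := by unfold cH; positivity

theorem cross_iff {R a b u : ℝ} (hR : 0 < R) (hab : 0 < a + b) :
    (cX R a - u) * cH R b = cH R a * (u - cX R b) ↔ u * (1 + a * b) = R * (1 - a * b) := by
  have e : (cX R a - u) * cH R b - cH R a * (u - cX R b) =
      2 * R * (a + b) / ((1 + a ^ 2) * (1 + b ^ 2)) * (R * (1 - a * b) - u * (1 + a * b)) := by
    unfold cX cH; field_simp; ring
  have hp : 0 < 2 * R * (a + b) / ((1 + a ^ 2) * (1 + b ^ 2)) := by positivity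
  constructor
  · intro h
    rw [h, sub_self] at e
    rcases mul_eq_zero.mp e.symm with h0 | h0
    · linarith
    · linarith
  · intro h
    rw [h, sub_self, mul_zero] at e
    linarith

def Bad {n : ℕ} (t : Fin n → ℝ) : Prop :=
  ∃ π : Fin n → Fin n, Function.Involutive π ∧ ∃ c, ∀ i, t i * t (π i) = c

theorem not_bad_of_G {n : ℕ} {R : ℝ} (hR : 0 < R) {t : Fin n → ℝ} (ht : ∀ i, 0 < t i)
    (hn : Nonempty (Fin n)) (h : G R (fun i => cX R (t i)) fun i => cH R (t i)) : ¬ Bad t := by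
  rintro ⟨π, hπ, c, hc⟩
  obtain ⟨i₀⟩ := hn
  have c0 : 0 < c := by rw [← hc i₀]; exact mul_pos (ht _) (ht _)
  refine (not_G_iff _ _ _).mpr ⟨π, hπ, R * (1 - c) / (1 + c), ?_, fun i => ?_⟩ h
  · rw [abs_div, abs_of_pos (by linarith : 0 < 1 + c), div_le_iff₀ (by linarith), abs_le]
    constructor <;> nlinarith
  · have h1 : (cX R (t i) - R * (1 - c) / (1 + c)) * cH R (t (π i)) =
        cH R (t i) * (R * (1 - c) / (1 + c) - cX R (t (π i))) := by
      rw [cross_iff hR (add_pos (ht _) (ht _)), hc i]; field_simp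
    refine ⟨h1, ?_⟩
    have p1 := cH_pos hR (ht i)
    have p2 := cH_pos hR (ht (π i))
    generalize cX R (t i) - R * (1 - c) / (1 + c) = a at *
    generalize R * (1 - c) / (1 + c) - cX R (t (π i)) = b at *
    have : a * b * cH R (t (π i)) = cH R (t i) * b ^ 2 := by
      rw [mul_right_comm, h1]; ring
    have h2 : 0 ≤ a * b * cH R (t (π i)) := by rw [this]; positivity
    have h3 : 0 ≤ a * b := nonneg_of_mul_nonneg_left h2 p2
    positivity

theorem G_of_not_bad {n : ℕ} {R : ℝ} (hR : 0 < R) {t : Fin n → ℝ} (ht : ∀ i, 0 < t i)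
    (h : ¬ Bad t) : G R (fun i => cX R (t i)) fun i => cH R (t i) := by
  by_contra hG
  obtain ⟨π, hπ, u, hu, h'⟩ := (not_G_iff _ _ _).mp hG
  refine h ⟨π, hπ, (R - u) / (R + u), fun i => ?_⟩
  have h1 := (cross_iff hR (add_pos (ht i) (ht (π i)))).mp (h' i).1
  have h2 : t i * t (π i) * (R + u) = R - u := by linarith
  have h3 : R + u ≠ 0 := by
    intro h0
    rw [h0, mul_zero] at h2
    linarith
  rw [eq_div_iff h3, h2]

theorem G_end {n : ℕ} {R : ℝ} (hR : 0 < R) {t : Fin n → ℝ} {m j k : Fin n} (hm : t m = 0)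
    (ht : ∀ i, i ≠ m → 0 < t i) (hj : j ≠ m) (hk : k ≠ m) (hjk : j ≠ k) :
    G R (fun i => cX R (t i)) fun i => cH R (t i) := by
  by_contra hG
  obtain ⟨π, hπ, u, hu, h'⟩ := (not_G_iff _ _ _).mp hG
  have hu : u = R := by
    by_cases h0 : π m = m
    · have := (h' m).2
      rw [h0, hm] at this
      simp only [cX, cH] at this
      norm_num at this
      nlinarith [sq_nonneg (R - u)]
    · have := (cross_iff hR (by rw [hm]; linarith [ht _ h0])).mp (h' m).1
      rw [hm] at this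
      linarith
  have hex : ∃ i, i ≠ m ∧ π i ≠ m := by
    by_cases h1 : π j = m
    · refine ⟨k, hk, fun h2 => hjk (hπ.injective (h1.trans h2.symm))⟩
    · exact ⟨j, hj, h1⟩
  obtain ⟨i, h1, h2⟩ := hex
  have h3 := (cross_iff hR (add_pos (ht i h1) (ht _ h2))).mp (h' i).1
  have h4 := mul_pos (ht i h1) (ht _ h2)
  rw [hu] at h3
  nlinarith

theorem three {n : ℕ} {t : Fin n → ℝ} (h : ¬ Bad t) (m : Fin n) :
    ∃ j k, j ≠ m ∧ k ≠ m ∧ j ≠ k := by
  by_contra hc
  push Not at hc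
  apply h
  by_cases h1 : ∃ j, j ≠ m
  · obtain ⟨j, hj⟩ := h1
    refine ⟨Equiv.swap m j, Equiv.swap_apply_self m j, t m * t j, fun i => ?_⟩
    by_cases hi : i = m
    · rw [hi, Equiv.swap_apply_left]
    · rw [hc i j hi hj, Equiv.swap_apply_right, mul_comm]
  · push Not at h1
    exact ⟨id, fun _ => rfl, t m * t m, fun i => by rw [h1 i]; rfl⟩

/-- the least and the greatest are paired -/
theorem pair {n : ℕ} {t : Fin n → ℝ} (ht : ∀ i, 0 < t i) {m M : Fin n}
    (hm : ∀ i, t m ≤ t i) (hM : ∀ i, i ≠ M → t i < t M) {π : Fin n → Fin n} {c : ℝ}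
    (hc : ∀ i, t i * t (π i) = c) : π m = M := by
  by_contra h0
  have h1 := hM _ h0
  have h2 := hm (π M)
  have h3 := hc m
  have h4 := hc M
  have h5 := ht m
  have h6 := ht M
  nlinarith

theorem bad_inv {n : ℕ} {t : Fin n → ℝ} (h : Bad t) : Bad fun i => (t i)⁻¹ := by
  obtain ⟨π, hπ, c, hc⟩ := h
  exact ⟨π, hπ, c⁻¹, fun i => by rw [← mul_inv, hc]⟩

theorem comb {n : ℕ} {t : Fin n → ℝ} (ht : ∀ i, 0 < t i) (hi : Function.Injective t)
    (hb : ¬ Bad t) {m M : Fin n} (hm : ∀ i, t m ≤ t i) (hM : ∀ i, t i ≤ t M) :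
    (∀ τ, 0 < τ → τ ≤ t m → ¬ Bad (Function.update t m τ)) ∨
      ∀ τ, t M ≤ τ → ¬ Bad (Function.update t M τ) := by
  by_contra hc
  push Not at hc
  obtain ⟨⟨τ, τ0, τ1, π, hπ, c, hc⟩, τ', τ2, π', hπ', c', hc'⟩ := hc
  have hM' : ∀ i, i ≠ M → t i < t M := fun i h => lt_of_le_of_ne (hM i) fun e => h (hi e)
  obtain ⟨j, k, hj, hk, hjk⟩ := three hb m
  have hmM : m ≠ M := by
    intro e
    have := hM' j (e ▸ hj)
    have := hm j
    rw [e] at this
    linarith
  have a1 : π m = M := by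
    refine pair (t := Function.update t m τ) (fun i => ?_) (fun i => ?_) (fun i h => ?_) hc
    · by_cases h : i = m
      · rw [h, Function.update_self]; exact τ0
      · rw [Function.update_of_ne h]; exact ht i
    · rw [Function.update_self]
      by_cases h : i = m
      · rw [h, Function.update_self]
      · rw [Function.update_of_ne h]; linarith [hm i]
    · rw [Function.update_of_ne hmM.symm]
      by_cases h' : i = m
      · rw [h', Function.update_self]; linarith [hM' m hmM]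
      · rw [Function.update_of_ne h']; exact hM' i h
  have a2 : π' m = M := by
    refine pair (t := Function.update t M τ') (fun i => ?_) (fun i => ?_) (fun i h => ?_) hc'
    · by_cases h : i = M
      · rw [h, Function.update_self]; linarith [ht M]
      · rw [Function.update_of_ne h]; exact ht i
    · rw [Function.update_of_ne hmM]
      by_cases h : i = M
      · rw [h, Function.update_self]; linarith [hm M]
      · rw [Function.update_of_ne h]; exact hm i
    · rw [Function.update_self, Function.update_of_ne h]; linarith [hM' i h]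
  have a3 : π M = m := by rw [← a1, hπ]
  have a4 : π' M = m := by rw [← a2, hπ']
  have b1 : c = τ * t M := by
    rw [← hc m, a1, Function.update_self, Function.update_of_ne hmM.symm]
  have b2 : c' = t m * τ' := by
    rw [← hc' m, a2, Function.update_self, Function.update_of_ne hmM]
  have inn : ∀ (ρ : Fin n → Fin n), Function.Involutive ρ → ρ m = M → ρ M = m →
      ∀ i, i ≠ m ∧ i ≠ M → ρ i ≠ m ∧ ρ i ≠ M := fun ρ hρ e1 e2 i h =>
    ⟨fun e => h.2 (hρ.injective (e.trans e2.symm)), fun e => h.1 (hρ.injective (e.trans e1.symm))⟩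
  have hne : (Finset.univ.filter fun i => i ≠ m ∧ i ≠ M).Nonempty := by
    by_cases h : j = M
    · exact ⟨k, by simp [hk, h ▸ hjk.symm]⟩
    · exact ⟨j, by simp [hj, h]⟩
  obtain ⟨i₀, h0, hmin⟩ := Finset.exists_min_image _ t hne
  simp only [Finset.mem_filter, Finset.mem_univ, true_and] at h0 hmin
  have h1 := inn π' hπ' a2 a4 i₀ h0
  have h2 := inn π hπ a1 a3 _ h1
  have d1 : c' = t i₀ * t (π' i₀) := by
    rw [← hc' i₀, Function.update_of_ne h0.2, Function.update_of_ne h1.2]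
  have d2 : c = t (π' i₀) * t (π (π' i₀)) := by
    rw [← hc (π' i₀), Function.update_of_ne h1.1, Function.update_of_ne h2.1]
  have d3 := hmin _ h2
  have d4 : c' ≤ c := by rw [d1, d2]; nlinarith [ht (π' i₀)]
  have d5 : τ = t m := by
    have := ht m
    have := ht M
    apply le_antisymm τ1
    by_contra hlt
    push Not at hlt
    nlinarith
  rw [d5, Function.update_eq_self] at hc
  exact hb ⟨π, hπ, c, hc⟩

/-- A point given by its coordinates. -/
noncomputable def pt (y₀ nn : ℂ) (x h : ℝ) : ℂ := y₀ + (h + x * Complex.I) * nn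

theorem nsq {nn : ℂ} (hn : ‖nn‖ = 1) : nn.re ^ 2 + nn.im ^ 2 = 1 := by
  have := Complex.sq_norm nn
  rw [hn, Complex.normSq_apply] at this
  linarith

theorem ip_pt (y₀ : ℂ) {nn : ℂ} (hn : ‖nn‖ = 1) (x h : ℝ) : ip nn (pt y₀ nn x h - y₀) = h := by
  have := nsq hn
  simp [ip, pt]
  linear_combination h * this

theorem dt_pt (y₀ : ℂ) {nn : ℂ} (hn : ‖nn‖ = 1) (x h x' h' : ℝ) :
    dt nn (pt y₀ nn x h - pt y₀ nn x' h') = x - x' := by
  have := nsq hn
  simp [dt, pt]
  linear_combination (x - x') * this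

theorem norm_pt (y₀ : ℂ) {nn : ℂ} (hn : ‖nn‖ = 1) (x h x' h' : ℝ) :
    ‖pt y₀ nn x h - pt y₀ nn x' h'‖ = √((x - x') ^ 2 + (h - h') ^ 2) := by
  have e : pt y₀ nn x h - pt y₀ nn x' h' = (((h - h' : ℝ) : ℂ) + ((x - x' : ℝ) : ℂ) * Complex.I) * nn := by
    unfold pt; push_cast; ring
  rw [e, norm_mul, hn, mul_one, Complex.norm_add_mul_I, add_comm]

theorem pt_eq (y₀ : ℂ) {nn : ℂ} (hn : ‖nn‖ = 1) (z : ℂ) :
    pt y₀ nn (dt nn (z - y₀)) (ip nn (z - y₀)) = z := by
  have := nsq hn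
  apply Complex.ext
  · simp [pt, dt, ip]
    linear_combination (z.re - y₀.re) * this
  · simp [pt, dt, ip]
    linear_combination (z.im - y₀.im) * this

theorem pt_zero (y₀ nn : ℂ) : pt y₀ nn 0 0 = y₀ := by simp [pt]

theorem mem_sphere_pt (y₀ : ℂ) {nn : ℂ} (hn : ‖nn‖ = 1) {R : ℝ} (hR : 0 < R) (x h : ℝ) :
    pt y₀ nn x h ∈ Metric.sphere y₀ R ↔ x ^ 2 + h ^ 2 = R ^ 2 := by
  have := norm_pt y₀ hn x h 0 0
  rw [pt_zero, sub_zero, sub_zero] at this
  rw [mem_sphere_iff_norm, this, Real.sqrt_eq_iff_eq_sq (by positivity) hR.le]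

theorem gap_iff (y₀ : ℂ) {nn : ℂ} (hn : ‖nn‖ = 1) {R : ℝ} {n : ℕ} (X H : Fin n → ℝ)
    (hH : ∀ i, 0 ≤ H i) : GapB y₀ R nn (fun i => pt y₀ nn (X i) (H i)) ↔ G R X H := by
  have e1 : ∀ i j, pv y₀ nn (pt y₀ nn (X i) (H i)) (pt y₀ nn (X j) (H j)) =
      √((X i - X j) ^ 2 + (H i + H j) ^ 2) := fun i j => by
    rw [pv, dt_pt y₀ hn, ip_pt y₀ hn, ip_pt y₀ hn, abs_of_nonneg (hH i), abs_of_nonneg (hH j)]
  have e2 : ∀ i u, ‖pt y₀ nn (X i) (H i) - pt y₀ nn u 0‖ = √((X i - u) ^ 2 + H i ^ 2) :=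
    fun i u => by rw [norm_pt y₀ hn, sub_zero]
  have e3 : ∀ u, pt y₀ nn u 0 ∈ cb y₀ R ↔ |u| ≤ R := fun u => by
    have := norm_pt y₀ hn u 0 0 0
    rw [pt_zero] at this
    rw [mem_closedBall_iff_norm, this]
    simp [Real.sqrt_sq_eq_abs]
  constructor
  · intro h π hπ u hu
    have := h π hπ (pt y₀ nn u 0) ((e3 u).mpr hu) (ip_pt y₀ hn u 0)
    simpa only [e1, e2] using this
  · intro h π hπ o ho h0
    have e := pt_eq y₀ hn o
    rw [h0] at e
    rw [← e] at ho ⊢
    simpa only [e1, e2] using h π hπ _ ((e3 _).mp ho)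

theorem param {R x h : ℝ} (hR : 0 < R) (hc : x ^ 2 + h ^ 2 = R ^ 2) (hh : 0 < h) :
    0 < R + x ∧ cX R (h / (R + x)) = x ∧ cH R (h / (R + x)) = h := by
  have h1 : 0 < R + x := by nlinarith
  have h2 : 1 + (h / (R + x)) ^ 2 = 2 * R / (R + x) := by
    field_simp; linarith
  have h3 : 1 - (h / (R + x)) ^ 2 = 2 * x / (R + x) := by
    field_simp; linarith
  refine ⟨h1, ?_, ?_⟩
  · rw [cX, h2, h3]; field_simp
  · rw [cH, h2]; field_simp

theorem cX_inj {R a b : ℝ} (hR : 0 < R) (ha : 0 < a) (hb : 0 < b) (h : cX R a = cX R b) :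
    a = b := by
  unfold cX at h
  field_simp at h
  have : a ^ 2 = b ^ 2 := by linarith
  exact (sq_eq_sq₀ ha.le hb.le).mp this

/-- The path that moves the point with the least parameter to the end. -/
theorem move {y₀ : ℂ} {R : ℝ} (hR : 0 < R) {nn : ℂ} (hn : ‖nn‖ = 1) {n : ℕ} {ε : ℝ}
    (hε : ε = 1 ∨ ε = -1) {t : Fin n → ℝ} (ht : ∀ i, 0 < t i) (hi : Function.Injective t)
    {m : Fin n} (hm : ∀ i, t m ≤ t i)
    (hb : ∀ τ, 0 < τ → τ ≤ t m → ¬ Bad (Function.update t m τ)) :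
    ∃ q : ℝ → Fin n → ℂ, ContinuousOn q (Icc 0 1) ∧
      q 0 = (fun i => pt y₀ nn (ε * cX R (t i)) (cH R (t i))) ∧
      (∀ s ∈ Icc (0 : ℝ) 1, (∀ i, q s i ∈ Metric.sphere y₀ R) ∧ GapB y₀ R nn (q s)) ∧
      (∀ s ∈ Ico (0 : ℝ) 1, Function.Injective (q s) ∧ ∀ i, 0 < ip nn (q s i - y₀)) ∧
      ∃ i, ip nn (q 1 i - y₀) = 0 := by
  set T : ℝ → Fin n → ℝ := fun s => Function.update t m ((1 - s) * t m) with hT
  have hε2 : ε ^ 2 = 1 := by rcases hε with rfl | rfl <;> norm_num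
  have hTm : ∀ s, T s m = (1 - s) * t m := fun s => by simp [hT]
  have hTi : ∀ s i, i ≠ m → T s i = t i := fun s i h => by simp [hT, Function.update_of_ne h]
  have hpos : ∀ s, s < 1 → ∀ i, 0 < T s i := fun s hs i => by
    by_cases h : i = m
    · rw [h, hTm]; exact mul_pos (by linarith) (ht m)
    · rw [hTi s i h]; exact ht i
  have hnn : ∀ s, s ≤ 1 → ∀ i, 0 ≤ T s i := fun s hs i => by
    by_cases h : i = m
    · rw [h, hTm]; exact mul_nonneg (by linarith) (ht m).le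
    · rw [hTi s i h]; exact (ht i).le
  have hb0 : ¬ Bad t := by
    have := hb (t m) (ht m) le_rfl
    rwa [Function.update_eq_self] at this
  refine ⟨fun s i => pt y₀ nn (ε * cX R (T s i)) (cH R (T s i)), ?_, ?_, ?_, ?_, m, ?_⟩
  · apply Continuous.continuousOn
    refine continuous_pi fun i => ?_
    have hc : Continuous fun s => T s i := by
      by_cases h : i = m
      · simp only [h, hTm]; fun_prop
      · simp only [hTi _ i h]; fun_prop
    have h1 : Continuous fun s => cX R (T s i) := by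
      unfold cX
      exact Continuous.div (by fun_prop) (by fun_prop) fun s => by positivity
    have h2 : Continuous fun s => cH R (T s i) := by
      unfold cH
      exact Continuous.div (by fun_prop) (by fun_prop) fun s => by positivity
    unfold pt
    fun_prop
  · simp [hT]
  · intro s hs
    refine ⟨fun i => ?_, ?_⟩
    · rw [mem_sphere_pt y₀ hn hR, mul_pow, hε2, one_mul, circ]
    · rw [gap_iff y₀ hn _ _ fun i => cH_nonneg hR (hnn s hs.2 i)]
      apply G_sign hε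
      rcases eq_or_lt_of_le hs.2 with h1 | h1
      · obtain ⟨j, k, hj, hk, hjk⟩ := three hb0 m
        exact G_end hR (by rw [hTm, h1]; ring) (fun i h => by rw [hTi s i h]; exact ht i) hj hk hjk
      · apply G_of_not_bad hR (hpos s h1)
        apply hb _ (mul_pos (by linarith) (ht m))
        nlinarith [ht m, hs.1]
  · intro s hs
    refine ⟨fun i j hij => ?_, fun i => ?_⟩
    · have h1 := dt_pt y₀ hn (ε * cX R (T s i)) (cH R (T s i)) (ε * cX R (T s j)) (cH R (T s j))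
      simp only at hij
      rw [hij, sub_self] at h1
      have h2 : cX R (T s i) = cX R (T s j) := by
        have h3 : dt nn 0 = 0 := by simp [dt]
        rw [h3] at h1
        rcases hε with rfl | rfl <;> linarith
      have h3 := cX_inj hR (hpos s hs.2 i) (hpos s hs.2 j) h2
      have lt : ∀ k, k ≠ m → T s m < T s k := fun k hk => by
        rw [hTm, hTi s k hk]
        have : t m < t k := lt_of_le_of_ne (hm k) fun e => hk (hi e).symm
        nlinarith [ht m, hs.1]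
      by_cases a : i = m <;> by_cases b : j = m
      · rw [a, b]
      · rw [a] at h3; linarith [lt j b]
      · rw [b] at h3; linarith [lt i a]
      · rw [hTi s i a, hTi s j b] at h3; exact hi h3
    · rw [ip_pt y₀ hn]; exact cH_pos hR (hpos s hs.2 i)
  · rw [ip_pt y₀ hn, hTm]; simp [cH]

end PB

open PB in
theorem pathB {y₀ : ℂ} {R : ℝ} (hR : 0 < R) {nn : ℂ} (hn : ‖nn‖ = 1) {n : ℕ} {p : Fin n → ℂ}
    (hi : Function.Injective p) (hp : ∀ i, p i ∈ Metric.sphere y₀ R ∧ 0 < ip nn (p i - y₀))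
    (h : GapB y₀ R nn p) :
    ∃ q : ℝ → Fin n → ℂ, ContinuousOn q (Icc 0 1) ∧ q 0 = p ∧
      (∀ s ∈ Icc (0 : ℝ) 1, (∀ i, q s i ∈ Metric.sphere y₀ R) ∧ GapB y₀ R nn (q s)) ∧
      (∀ s ∈ Ico (0 : ℝ) 1, Function.Injective (q s) ∧ ∀ i, 0 < ip nn (q s i - y₀)) ∧
      ∃ i, ip nn (q 1 i - y₀) = 0 := by
  have hne : Nonempty (Fin n) := by
    by_contra h0
    rw [not_nonempty_iff] at h0
    have := h id (fun _ => rfl) y₀ (Metric.mem_closedBall_self hR.le) (by simp [ip])
    simp at this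
  set X : Fin n → ℝ := fun i => dt nn (p i - y₀) with hX
  set H : Fin n → ℝ := fun i => ip nn (p i - y₀) with hH
  have hp' : p = fun i => pt y₀ nn (X i) (H i) := funext fun i => (pt_eq y₀ hn (p i)).symm
  have hH0 : ∀ i, 0 < H i := fun i => (hp i).2
  have hc : ∀ i, X i ^ 2 + H i ^ 2 = R ^ 2 := fun i => by
    rw [← mem_sphere_pt y₀ hn hR]
    have := (hp i).1
    rwa [hp'] at this
  have hG : G R X H := by
    rw [hp'] at h
    exact (gap_iff y₀ hn X H fun i => (hH0 i).le).mp h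
  set t : Fin n → ℝ := fun i => H i / (R + X i) with ht
  have P := fun i => param hR (hc i) (hH0 i)
  have P' := fun i => param (x := -X i) hR (by rw [neg_sq]; exact hc i) (hH0 i)
  have t0 : ∀ i, 0 < t i := fun i => div_pos (hH0 i) (P i).1
  have tinv : ∀ i, (t i)⁻¹ = H i / (R + -X i) := fun i => by
    have a := (P i).1
    have b := (P' i).1
    have c := hH0 i
    simp only [ht]
    field_simp
    linarith [hc i]
  have ti : Function.Injective t := fun i j hij => by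
    apply hi
    rw [hp']
    have e1 : X i = X j := ((P i).2.1.symm.trans (congrArg (cX R) hij)).trans (P j).2.1
    have e2 : H i = H j := ((P i).2.2.symm.trans (congrArg (cH R) hij)).trans (P j).2.2
    simp only [e1, e2]
  have hb : ¬ Bad t := by
    apply not_bad_of_G hR t0 hne
    have e1 : (fun i => cX R (t i)) = X := funext fun i => (P i).2.1
    have e2 : (fun i => cH R (t i)) = H := funext fun i => (P i).2.2
    rw [e1, e2]; exact hG
  obtain ⟨m, -, hm⟩ := Finset.exists_min_image Finset.univ t Finset.univ_nonempty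
  obtain ⟨M, -, hM⟩ := Finset.exists_max_image Finset.univ t Finset.univ_nonempty
  rcases comb t0 ti hb (fun i => hm i (Finset.mem_univ i)) (fun i => hM i (Finset.mem_univ i))
    with h1 | h1
  · obtain ⟨q, q1, q2, q3⟩ := move (y₀ := y₀) hR hn (Or.inl rfl) t0 ti
      (fun i => hm i (Finset.mem_univ i)) h1
    refine ⟨q, q1, ?_, q3⟩
    rw [q2, hp']
    funext i
    rw [one_mul]
    exact congrArg₂ _ (P i).2.1 (P i).2.2
  · obtain ⟨q, q1, q2, q3⟩ := move (y₀ := y₀) (t := fun i => (t i)⁻¹) (m := M) hR hn (Or.inr rfl)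
      (fun i => inv_pos.mpr (t0 i)) (fun i j hij => ti (inv_injective hij))
      (fun i => inv_anti₀ (t0 i) (hM i (Finset.mem_univ i)))
      (fun τ τ0 τ1 hB => by
        apply h1 τ⁻¹ ((le_inv_comm₀ (t0 M) τ0).mpr τ1)
        have := bad_inv hB
        convert this using 2 with i
        by_cases a : i = M
        · simp [a]
        · simp [Function.update_of_ne a])
    refine ⟨q, q1, ?_, q3⟩
    rw [q2, hp']
    funext i
    rw [tinv, (P' i).2.1, (P' i).2.2]
    simp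

end Pool.Agent.MP_20201c_gt.H91
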