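import Pool.Agent.MP_20201c_gt.H91.LLI
import Pool.Agent.MP_20201c_gt.H91.PathB

/-! The local lemma at a flat boundary. -/

open MeasureTheory Set Filter Topology
open scoped ENNReal

namespace Pool.Agent.MP_20201c_gt.H91

/-- The statement of the local lemma for `n` points. -/
def LLBs (nn : ℂ) (n : ℕ) : Prop :=
  ∀ (N : ℕ) (y : ℂ) (R : ℝ), 0 < R → ∀ p : Fin n → ℂ, (∀ i, p i ∈ Metric.sphere y R) → ∀ a : ℝ,
    (∀ π : Fin n → Fin n, Function.Involutive π → (∑ i, pv y nn (p i) (p (π i))) / 2 ≤ a) →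
    Acyc N {z | 0 < ip nn (z - y)} (cb y R) (ind p) a

theorem llb_deg {nn : ℂ} {n : ℕ} (ih : ∀ k < n, LLBs nn k) (N : ℕ) (y : ℂ) {R : ℝ} (hR : 0 < R)
    (p : Fin n → ℂ) (hp : ∀ i, p i ∈ Metric.sphere y R)
    (h : ¬ Function.Injective p ∨ ∃ j, ¬ 0 < ip nn (p j - y)) (a : ℝ)
    (ha : ∀ π : Fin n → Fin n, Function.Involutive π → (∑ i, pv y nn (p i) (p (π i))) / 2 ≤ a) :
    Acyc N {z | 0 < ip nn (z - y)} (cb y R) (ind p) a := by
  have h0 : ∀ u v, 0 ≤ pv y nn u v := fun u v => Real.sqrt_nonneg _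
  rcases h with h | ⟨j, hj⟩
  · obtain ⟨k, e, hk, he, hπ⟩ := red_pair p h
    rw [← he]
    refine ih k (by omega) N y R hR (p ∘ e) (fun i => hp _) a fun π' hπ' => ?_
    obtain ⟨π, h1, h2⟩ := hπ π' hπ'
    have := h2 (pv y nn) h0
    have := ha π h1
    simp only [Function.comp]
    linarith
  · obtain ⟨k, e, hk, he, hπ⟩ := red_one p j
    refine Acyc.congr (fun _ _ => Iff.rfl) (fun z _ hz => he z ?_)
      (ih k (by omega) N y R hR (p ∘ e) (fun i => hp _) a fun π' hπ' => ?_)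
    · rintro rfl
      exact hj hz
    · obtain ⟨π, h1, h2⟩ := hπ π' hπ'
      have := h2 (pv y nn) h0
      have := ha π h1
      simp only [Function.comp]
      linarith

theorem llb_all {nn : ℂ} (hn : ‖nn‖ = 1) (n : ℕ) : LLBs nn n := by
  induction n using Nat.strong_induction_on with
  | _ n ih =>
  intro N y R hR p hp a ha
  by_cases hdeg : ¬ Function.Injective p ∨ ∃ j, ¬ 0 < ip nn (p j - y)
  · exact llb_deg ih N y hR p hp hdeg a ha
  push Not at hdeg
  obtain ⟨hi, hpos⟩ := hdeg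
  have hcone : ∀ p : Fin n → ℂ, (∀ i, p i ∈ Metric.sphere y R) → ∀ o ∈ cb y R,
      ip nn (o - y) = 0 → Acyc N {z | 0 < ip nn (z - y)} (cb y R) (ind p) (∑ i, ‖p i - o‖) :=
    fun p hp o ho h0 => acyc_cone N (convex_closedBall y R) p
      (fun i => Metric.sphere_subset_closedBall (hp i)) (half_adm nn y ho h0)
      fun h => absurd h0 (ne_of_gt h)
  by_cases hg : GapB y R nn p
  swap
  · unfold GapB at hg
    push Not at hg
    obtain ⟨π, hπ, o, ho, h0, hle⟩ := hg
    exact (hcone p hp o ho h0).mono le_rfl (hle.trans (ha π hπ))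
  obtain ⟨q, hq, hq0, hq1, hq2, hq3⟩ := pathB hR hn hi (fun i => ⟨hp i, hpos i⟩) hg
  have hf : Continuous fun x : ℂ × ℂ => pv y nn x.1 x.2 := by
    unfold pv dt ip
    fun_prop
  have hD : IsCompact (cb y R ∩ {o | ip nn (o - y) = 0}) := by
    refine (isCompact_closedBall y R).inter_right (isClosed_eq ?_ continuous_const)
    unfold ip
    fun_prop
  have hne : (cb y R ∩ {o | ip nn (o - y) = 0}).Nonempty :=
    ⟨y, Metric.mem_closedBall_self hR.le, by simp [ip]⟩
  have hB : OB (N + 1) {z | 0 < ip nn (z - y)} (fun _ => (nn, nn)) (fun _ => {d | d < n})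
      ((0 : ℝ) ^ 2 / 8) := by
    intro y' hy'
    rw [half_frontier hn] at hy'
    have e : {z | 0 < ip nn (z - y)} = {z | 0 < ip nn (z - y')} := by
      ext z
      have h1 : ip nn (z - y) = ip nn (z - y') + ip nn (y' - y) := by
        simp only [ip, Complex.sub_re, Complex.sub_im]
        ring
      simp only [mem_setOf_eq] at hy' ⊢
      rw [h1, hy', add_zero]
    refine ⟨1, one_pos, fun R' hR' k hk p' hp' a' ha' => ?_⟩
    rw [e]
    refine ih k hk (N + 1) y' R' hR'.1 p' hp' a' fun π hπ => ?_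
    simpa using ha' π hπ
  have key := cont_gap (N := N) (G := {z | 0 < ip nn (z - y)}) (convex_closedBall y R)
    (isCompact_closedBall y R) hq
    (fun s hs i => Metric.sphere_subset_closedBall ((hq1 s hs).1 i)) hf hD hne 0
    (fun s hs π hπ o ho => by simpa using (hq1 s hs).2 π hπ o ho.1 ho.2)
    (fun s hs c h1 h2 => by
      have hS : Setup {z | 0 < ip nn (z - y)} (fun _ => (nn, nn)) y R (q s) := by
        refine ⟨hR, half_conic hn y, (hq2 s hs).1,
          fun i => ⟨(hq1 s (Ico_subset_Icc_self hs)).1 i, (hq2 s hs).2 i⟩, fun y' _ hy' => ?_⟩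
        rw [half_frontier hn] at hy'
        have h3 : ip nn (y - y') = -ip nn (y' - y) := by
          simp only [ip, Complex.sub_re, Complex.sub_im]
          ring
        simp only [mem_setOf_eq] at hy'
        simp only [h3, hy', neg_zero, le_refl, and_self]
      rcases crit hS (2 ^ (N + 1)) le_rfl (oi_all (N + 1) hS.conic.1) hB c with h | ⟨m, a, b, h⟩
      · exact h
      · rcases ncB hn (hq2 s hs).1 (hq2 s hs).2 h with ⟨π, hπ, h3⟩ | ⟨o, ho, h0, h3⟩
        · linarith [h1 π hπ]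
        · linarith [h2 o ⟨ho, h0⟩])
    (fun a' ha' => llb_deg ih N y hR (q 1) (hq1 1 ⟨zero_le_one, le_rfl⟩).1
      (Or.inr (hq3.imp fun i h => by rw [h]; exact lt_irrefl _)) a'
      fun π hπ => by simpa using ha' π hπ)
    (fun o ho => hcone (q 0) (hq1 0 ⟨le_rfl, zero_le_one⟩).1 o ho.1 ho.2)
  rw [hq0] at key
  exact key a fun π hπ => by simpa using ha π hπ

theorem llb (N : ℕ) {n : ℕ} {nn : ℂ} (hn : ‖nn‖ = 1) (y : ℂ) {R : ℝ} (hR : 0 < R) (p : Fin n → ℂ)
    (hp : ∀ i, p i ∈ Metric.sphere y R) (a : ℝ)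
    (ha : ∀ π : Fin n → Fin n, Function.Involutive π → (∑ i, pv y nn (p i) (p (π i))) / 2 ≤ a) :
    Acyc N {z | 0 < ip nn (z - y)} (cb y R) (ind p) a := llb_all hn n N y R hR p hp a ha

end Pool.Agent.MP_20201c_gt.H91
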