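import Pool.Agent.MP_20201c_gt.H91.NetAlg

/-! Pairing the ends at the vertices. -/

open MeasureTheory Set Filter Topology
open scoped ENNReal

namespace Pool.Agent.MP_20201c_gt.H91

theorem sig_rev {ι : Type} [Fintype ι] (x : ι → ℝ) :
    ∃ σ : ι → ι, Function.Involutive σ ∧ ∀ i j,
      (x i ≤ x j ∧ x (σ j) ≤ x (σ i)) ∨ (x j ≤ x i ∧ x (σ i) ≤ x (σ j)) := by
  let e₀ : Fin (Fintype.card ι) ≃ ι := (Fintype.equivFin ι).symm
  let e : Fin (Fintype.card ι) ≃ ι := (Tuple.sort (x ∘ e₀)).trans e₀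
  have hm : Monotone (x ∘ e) := Tuple.monotone_sort (x ∘ e₀)
  refine ⟨fun i => e (e.symm i).rev, fun i => by simp, fun i j => ?_⟩
  obtain ⟨i, rfl⟩ := e.surjective i
  obtain ⟨j, rfl⟩ := e.surjective j
  simp only [Equiv.symm_apply_apply]
  rcases le_total i j with h | h
  · exact Or.inl ⟨hm h, hm (Fin.rev_le_rev.2 h)⟩
  · exact Or.inr ⟨hm h, hm (Fin.rev_le_rev.2 h)⟩

theorem sig_one {ι : Type} [Fintype ι] (z : ι → ℝ) (η : ℝ) {σ : ι → ι}
    (hσ : Function.Involutive σ) (ht : ∀ i j, z i ≤ z j ∨ z (σ i) ≤ z (σ j))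
    (h : ∀ ψ : ℝ → ℝ, Monotone ψ → Continuous ψ → ∑ i, ψ (z i) ≤ ∑ i, ψ (η - z i)) (i : ι) :
    z i + z (σ i) ≤ η := by
  by_contra hc
  rw [not_le] at hc
  have hst : η - z (σ i) < z i := by linarith
  have hm : Monotone fun u : ℝ => max (η - z (σ i)) (min (z i) u) := fun u v huv =>
    max_le_max le_rfl (min_le_min le_rfl huv)
  have h1 := h (fun u => max (η - z (σ i)) (min (z i) u)) hm (by fun_prop)
  rw [← Equiv.sum_comp hσ.toPerm fun j => max (η - z (σ i)) (min (z i) (η - z j))] at h1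
  refine absurd h1 (not_le.2 (Finset.sum_lt_sum (fun j _ => ?_) ⟨i, Finset.mem_univ _, ?_⟩))
  · simp only [Function.Involutive.coe_toPerm]
    rcases ht i j with h2 | h2
    · rw [min_eq_left h2]
      exact max_le_max le_rfl (min_le_left _ _)
    · exact max_le (le_max_left _ _)
        (((min_le_right _ _).trans (by linarith)).trans (le_max_left _ _))
  · simp only [Function.Involutive.coe_toPerm]
    rw [min_self, min_eq_right hst.le, max_self, max_eq_right hst.le]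
    exact hst

theorem sig {ι : Type} [Fintype ι] (x : ι → ℝ) (η : ℝ)
    (h : ∀ ψ : ℝ → ℝ, Monotone ψ → Continuous ψ →
      ∑ i, ψ (x i) ≤ ∑ i, ψ (η - x i) ∧ ∑ i, ψ (-x i) ≤ ∑ i, ψ (η + x i)) :
    ∃ σ : ι → ι, Function.Involutive σ ∧ ∀ i, |x i + x (σ i)| ≤ η := by
  obtain ⟨σ, hσ, ht⟩ := sig_rev x
  refine ⟨σ, hσ, fun i => abs_le.2 ⟨?_, ?_⟩⟩
  · have := sig_one (fun i => -x i) η hσ (fun i j => by
      rcases ht i j with h1 | h1
      · exact Or.inr (neg_le_neg h1.2)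
      · exact Or.inl (neg_le_neg h1.1)) (fun ψ h1 h2 => by
        simpa only [sub_neg_eq_add] using (h ψ h1 h2).2) i
    linarith
  · exact sig_one x η hσ (fun i j => by
      rcases ht i j with h1 | h1
      · exact Or.inl h1.1
      · exact Or.inr h1.2) (fun ψ h1 h2 => (h ψ h1 h2).1) i

theorem sigma_darts {m : ℕ} (a b : Fin m → ℂ) (Z : Set ℂ) (nrm : ℂ → ℂ) (η : ℝ)
    (h : ∀ y, y ∉ Z → RefL η (nrm y) (En a b y)) :
    ∃ σ : Fin m × Bool → Fin m × Bool, Function.Involutive σ ∧ ∀ δ,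
      dpos a b (σ δ) = dpos a b δ ∧ (dpos a b δ ∈ Z → σ δ = δ) ∧
      (dpos a b δ ∉ Z →
        |dt (nrm (dpos a b δ)) (ddir a b δ) + dt (nrm (dpos a b δ)) (ddir a b (σ δ))| ≤ η) := by
  classical
  have key : ∀ y, ∃ τ : Fin m × Bool → Fin m × Bool, ∀ δ, dpos a b δ = y →
      dpos a b (τ δ) = y ∧ τ (τ δ) = δ ∧ (y ∈ Z → τ δ = δ) ∧
      (y ∉ Z → |dt (nrm y) (ddir a b δ) + dt (nrm y) (ddir a b (τ δ))| ≤ η) := by
    intro y
    by_cases hy : y ∈ Z
    · exact ⟨id, fun δ hδ => ⟨hδ, rfl, fun _ => rfl, fun h' => absurd hy h'⟩⟩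
    have hs : ∀ g : ℂ → ℝ, ((En a b y).map g).sum =
        ∑ δ : {δ // dpos a b δ = y}, g (ddir a b δ.1) := fun g => by
      rw [← Finset.sum_subtype (Finset.univ.filter fun δ => dpos a b δ = y) (by simp)
        fun δ => g (ddir a b δ)]
      unfold En
      rw [Multiset.map_map]
      rfl
    obtain ⟨σ, h1, h2⟩ := sig (fun δ : {δ // dpos a b δ = y} => dt (nrm y) (ddir a b δ.1)) η
      fun ψ k1 k2 => by
        have := h y hy ψ k1 k2
        rwa [hs, hs, hs, hs] at this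
    refine ⟨fun δ => if hδ : dpos a b δ = y then (σ ⟨δ, hδ⟩).1 else δ, fun δ hδ => ?_⟩
    simp only [dif_pos hδ, dif_pos (σ ⟨δ, hδ⟩).2]
    exact ⟨(σ ⟨δ, hδ⟩).2, congrArg Subtype.val (h1 ⟨δ, hδ⟩), fun h' => absurd h' hy,
      fun _ => h2 ⟨δ, hδ⟩⟩
  choose τ hτ using key
  refine ⟨fun δ => τ (dpos a b δ) δ, fun δ => ?_, fun δ => ?_⟩
  · obtain ⟨k1, k2, -⟩ := hτ _ δ rfl
    simp only [k1, k2]
  · obtain ⟨k1, -, k2, k3⟩ := hτ _ δ rfl
    exact ⟨k1, k2, k3⟩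

end Pool.Agent.MP_20201c_gt.H91
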