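import Pool.Agent.MP_20201c_gt.H91.West
import Pool.Agent.MP_20201c_gt.H91.Sig
import Pool.Agent.MP_20201c_gt.H91.Adm

/-! No critical networks in the windows. -/

open MeasureTheory Set Filter Topology
open scoped ENNReal

namespace Pool.Agent.MP_20201c_gt.H91

namespace NCA

theorem sq_id (u v : ℂ) : ip u v ^ 2 + dt u v ^ 2 = (‖u‖ * ‖v‖) ^ 2 := by
  rw [mul_pow, Complex.sq_norm, Complex.sq_norm, Complex.normSq_apply, Complex.normSq_apply]
  unfold ip dt; ring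

theorem abs_ip (u v : ℂ) : |ip u v| ≤ ‖u‖ * ‖v‖ :=
  abs_le_of_sq_le_sq (by nlinarith [sq_id u v, sq_nonneg (dt u v)]) (by positivity)

theorem abs_dt (u v : ℂ) : |dt u v| ≤ ‖u‖ * ‖v‖ :=
  abs_le_of_sq_le_sq (by nlinarith [sq_id u v, sq_nonneg (ip u v)]) (by positivity)

theorem ip_comm (u v : ℂ) : ip u v = ip v u := by unfold ip; ring

theorem ip_neg (u v : ℂ) : ip u (-v) = -ip u v := by
  simp only [ip, Complex.neg_re, Complex.neg_im]; ring

theorem ip_subl (u w v : ℂ) : ip (u - w) v = ip u v - ip w v := by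
  simp only [ip, Complex.sub_re, Complex.sub_im]; ring

theorem dt_subl (u w v : ℂ) : dt (u - w) v = dt u v - dt w v := by
  simp only [dt, Complex.sub_re, Complex.sub_im]; ring

theorem perp {n₁ n₂ F v : ℂ} (h : ∀ u, ip n₁ u ≤ 0 → ip n₂ u ≤ 0 → ip F u ≤ 0)
    (h1 : ip n₁ v = 0) (h2 : ip n₂ v = 0) : ip v F = 0 := by
  have a := h v h1.le h2.le
  have c := h (-v) (by rw [ip_neg, h1]; simp) (by rw [ip_neg, h2]; simp)
  rw [ip_neg] at c
  rw [ip_comm]; linarith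

theorem refl_zero (η : ℝ) (n : ℂ) : RefL η n 0 := fun _ _ _ => by simp

variable {m : ℕ} {a b : Fin m → ℂ}

theorem dpos_mem {S : Set ℂ} (h : ∀ e, segment ℝ (a e) (b e) ⊆ S) (δ : Fin m × Bool) :
    dpos a b δ ∈ S := by
  unfold dpos
  split_ifs
  · exact h _ (right_mem_segment ℝ _ _)
  · exact h _ (left_mem_segment ℝ _ _)

theorem En_ne (δ : Fin m × Bool) : En a b (dpos a b δ) ≠ 0 := by
  intro h
  have : ddir a b δ ∈ En a b (dpos a b δ) := mem_En.2 ⟨δ, rfl, rfl⟩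
  rw [h] at this
  simp at this

theorem ex_dart {y : ℂ} (h : En a b y ≠ 0) : ∃ δ, dpos a b δ = y := by
  obtain ⟨v, hv⟩ := Multiset.exists_mem_of_ne_zero h
  obtain ⟨δ, h1, -⟩ := mem_En.1 hv
  exact ⟨δ, h1⟩

theorem uniq_dart {y : ℂ} (h : (En a b y).card = 1) :
    ∃ δ, dpos a b δ = y ∧ ∀ δ', dpos a b δ' = y → δ' = δ := by
  classical
  unfold En at h
  rw [Multiset.card_map, Finset.card_val] at h
  obtain ⟨δ, hδ⟩ := Finset.card_eq_one.1 h
  refine ⟨δ, ?_, fun δ' h' => ?_⟩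
  · have : δ ∈ ({δ} : Finset (Fin m × Bool)) := Finset.mem_singleton_self δ
    rw [← hδ] at this
    exact (Finset.mem_filter.1 this).2
  · rw [← Finset.mem_singleton, ← hδ]
    exact Finset.mem_filter.2 ⟨Finset.mem_univ _, h'⟩

theorem flip_flip (δ : Fin m × Bool) : flip (flip δ) = δ := by
  obtain ⟨e, s⟩ := δ
  simp [flip]

theorem norm_flip (δ : Fin m × Bool) :
    ‖dpos a b δ - dpos a b (flip δ)‖ = ‖b δ.1 - a δ.1‖ := by
  obtain ⟨e, s⟩ := δ
  cases s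
  · simp [dpos, flip, norm_sub_rev]
  · simp [dpos, flip]

theorem matching {n : ℕ} {p : Fin n → ℂ} (hi : Function.Injective p)
    (hP : ∀ i, (En a b (p i)).card = 1) (hall : ∀ δ, dpos a b δ ∈ range p) :
    ∃ π : Fin n → Fin n, Function.Involutive π ∧
      ∑ i, ‖p i - p (π i)‖ = 2 * ∑ e, ‖b e - a e‖ := by
  choose D hD hU using fun i => uniq_dart (hP i)
  have hb : Function.Bijective D := by
    constructor
    · intro i j hij
      apply hi
      rw [← hD i, ← hD j, hij]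
    · intro δ
      obtain ⟨i, hi'⟩ := hall δ
      exact ⟨i, (hU i δ hi'.symm).symm⟩
  let E := Equiv.ofBijective D hb
  have hE : ∀ i, dpos a b (E i) = p i := hD
  refine ⟨fun i => E.symm (flip (E i)), fun i => by simp [flip_flip], ?_⟩
  have : ∀ i, ‖p i - p (E.symm (flip (E i)))‖ = ‖b (E i).1 - a (E i).1‖ := by
    intro i
    rw [← hE i, ← hE (E.symm _), Equiv.apply_symm_apply, norm_flip]
  simp only [this]
  rw [E.sum_comp fun δ => ‖b δ.1 - a δ.1‖, Fintype.sum_prod_type, Finset.mul_sum]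
  simp

theorem norm_one (hne : ∀ e, a e ≠ b e) {y : ℂ} (h : (En a b y).card = 1) :
    ‖(En a b y).sum‖ = 1 := by
  obtain ⟨v, hv⟩ := Multiset.card_eq_one.1 h
  have : v ∈ En a b y := by rw [hv]; simp
  obtain ⟨δ, -, h2⟩ := mem_En.1 this
  rw [hv, Multiset.sum_singleton, ← h2, norm_ddir hne]

open Classical in
theorem force (hne : ∀ e, a e ≠ b e) {k : ℕ} {p : Fin k → ℂ}
    (hP : ∀ i, (En a b (p i)).card = 1) {n : ℂ} (hn : ‖n‖ = 1)
    (h : ∀ y, y ∉ range p → ‖(En a b y).sum‖ ≤ 2 * ip n (En a b y).sum) :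
    ∑ y ∈ (Vx a b).filter (fun y => y ∉ range p), ‖(En a b y).sum‖ ≤ 2 * k := by
  have f0 := fv (a := a) (b := b) fun _ => n
  have z : ∀ v : ℂ, ip (n - n) v = 0 := fun v => by rw [ip_subl, sub_self]
  simp only [z, Finset.sum_const_zero, neg_zero] at f0
  rw [← Finset.sum_filter_add_sum_filter_not (Vx a b) (fun y => y ∈ range p)] at f0
  have h1 : ∑ y ∈ (Vx a b).filter (fun y => y ∈ range p), -ip n (En a b y).sum ≤ k := by
    have hc : ((Vx a b).filter fun y => y ∈ range p).card ≤ k := by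
      have : ((Vx a b).filter fun y => y ∈ range p) ⊆ Finset.univ.image p := by
        intro y hy
        obtain ⟨i, rfl⟩ := (Finset.mem_filter.1 hy).2
        exact Finset.mem_image_of_mem _ (Finset.mem_univ _)
      exact (Finset.card_le_card this).trans (Finset.card_image_le.trans (by simp))
    have := Finset.sum_le_card_nsmul ((Vx a b).filter fun y => y ∈ range p)
      (fun y => -ip n (En a b y).sum) 1 (fun y hy => by
        obtain ⟨i, rfl⟩ := (Finset.mem_filter.1 hy).2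
        have := abs_ip n (En a b (p i)).sum
        rw [hn, norm_one hne (hP i), one_mul] at this
        exact (neg_le_abs _).trans this)
    rw [nsmul_eq_mul, mul_one] at this
    exact this.trans (by exact_mod_cast hc)
  rw [Finset.sum_neg_distrib] at h1
  calc ∑ y ∈ (Vx a b).filter (fun y => y ∉ range p), ‖(En a b y).sum‖
      ≤ ∑ y ∈ (Vx a b).filter (fun y => y ∉ range p), 2 * ip n (En a b y).sum :=
        Finset.sum_le_sum fun y hy => h y (Finset.mem_filter.1 hy).2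
    _ ≤ 2 * k := by rw [← Finset.mul_sum]; linarith

theorem small (B : ℝ) {θ : ℝ} (hθ : 0 < θ) : ∃ t : ℝ, 0 < t ∧ t ≤ 1 / 10 ∧
    B * (B * (t + 2 * t) + √(2 * B * (t + 2 * t))) + B * t ≤ θ := by
  have hc : Continuous fun t : ℝ => B * (B * (t + 2 * t) + √(2 * B * (t + 2 * t))) + B * t := by
    fun_prop
  have h0 := hc.tendsto 0
  simp only [mul_zero, add_zero, Real.sqrt_zero] at h0
  have e1 : ∀ᶠ t : ℝ in 𝓝[>] 0,
      B * (B * (t + 2 * t) + √(2 * B * (t + 2 * t))) + B * t < θ :=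
    (h0.eventually (gt_mem_nhds hθ)).filter_mono nhdsWithin_le_nhds
  have e2 : ∀ᶠ t : ℝ in 𝓝[>] 0, t < 1 / 10 :=
    (gt_mem_nhds (show (0 : ℝ) < 1 / 10 by norm_num)).filter_mono nhdsWithin_le_nhds
  obtain ⟨t, ⟨h1, h2⟩, h3⟩ := ((e1.and e2).and self_mem_nhdsWithin).exists
  exact ⟨t, h3, h2.le, h1.le⟩

end NCA

open NCA

theorem ncI {ν : ℂ → ℂ × ℂ} {y₀ : ℂ} {R₀ : ℝ} {n : ℕ} {p : Fin n → ℂ} (hi : Function.Injective p)
    {DB : ℂ → Set ℕ} {η : ℝ} {M : ℕ} {c : ℝ} {m : ℕ} {a b : Fin m → ℂ}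
    (h : Net univ ν y₀ R₀ p {d | d < n} DB η M c a b) :
    (∃ π : Fin n → Fin n, Function.Involutive π ∧ c ≤ (∑ i, ‖p i - p (π i)‖) / 2) ∨
      ∃ o ∈ cb y₀ R₀, ∑ i, ‖p i - o‖ ≤ c := by
  by_cases hall : ∀ δ, dpos a b δ ∈ range p
  · obtain ⟨π, h1, h2⟩ := matching hi h.atP hall
    exact Or.inl ⟨π, h1, by rw [h2, h.len]; linarith⟩
  · obtain ⟨δ, hδ⟩ := not_forall.1 hall
    refine Or.inr ⟨dpos a b δ, (dpos_mem h.sub δ).1, ?_⟩
    rw [← h.len]
    refine big h.ne hi h.atP hδ (fun y hy => ?_) ?_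
    · rw [(h.atG y (mem_univ _) hy).1, AdmA.ip_zero]
    · by_contra hc
      exact En_ne δ ((h.atG _ (mem_univ _) hδ).2 (not_le.1 hc))

theorem ncB {nn : ℂ} (hn : ‖nn‖ = 1) {y₀ : ℂ} {R₀ : ℝ} {n : ℕ} {p : Fin n → ℂ}
    (hi : Function.Injective p) (hp : ∀ i, 0 < ip nn (p i - y₀)) {M : ℕ} {c : ℝ} {m : ℕ}
    {a b : Fin m → ℂ}
    (h : Net {z | 0 < ip nn (z - y₀)} (fun _ => (nn, nn)) y₀ R₀ p univ (fun _ => {d | d < n})
      0 M c a b) :
    (∃ π : Fin n → Fin n, Function.Involutive π ∧ c ≤ (∑ i, pv y₀ nn (p i) (p (π i))) / 2) ∨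
      ∃ o ∈ cb y₀ R₀, ip nn (o - y₀) = 0 ∧ ∑ i, ‖p i - o‖ ≤ c := by
  have out : ∀ y, y ∉ range p → En a b y ≠ 0 → y ∉ {z | 0 < ip nn (z - y₀)} :=
    fun y hy he hG => he ((h.atG y hG hy).2 (mem_univ _))
  have fr : ∀ y, y ∉ range p → En a b y ≠ 0 → ip nn (y - y₀) = 0 := fun y hy he => by
    have := (h.atB y (out y hy he) he).1
    rwa [half_frontier hn] at this
  by_cases hb : ∃ o, o ∉ range p ∧ En a b o ≠ 0 ∧ n ≤ (En a b o).card
  · obtain ⟨o, ho, he, hc⟩ := hb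
    obtain ⟨δ, hδ⟩ := ex_dart he
    refine Or.inr ⟨o, hδ ▸ (dpos_mem h.sub δ).1, fr o ho he, ?_⟩
    rw [← h.len]
    refine big h.ne hi h.atP ho (fun y hy => ?_) hc
    by_cases hy0 : En a b y = 0
    · rw [hy0, Multiset.sum_zero, AdmA.ip_zero]
    · have e : ip nn (y - o) = 0 := by
        have := AdmA.ip_split nn y₀ o y
        rw [fr y hy hy0, fr o ho he] at this
        linarith
      exact perp (h.atB y (out y hy hy0) hy0).2.1 e e
  · obtain ⟨σ, hσ, hs⟩ := sigma_darts a b (range p) (fun _ => nn) 0 fun y hy => by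
      by_cases hy0 : En a b y = 0
      · rw [hy0]; exact refl_zero _ _
      · refine (h.atB y (out y hy hy0) hy0).2.2.2 ?_
        by_contra hc
        exact hb ⟨y, hy, hy0, not_lt.1 hc⟩
    obtain ⟨π, h1, h2⟩ := west h.ne (fun δ => (dpos_mem h.sub δ).1) hn hi h.atP hσ le_rfl le_rfl
      (β := 0) fun δ => ⟨(hs δ).1, fun hδ => ⟨(hs δ).2.2 hδ, by
        rw [fr _ hδ (En_ne δ)]; simp⟩⟩
    refine Or.inl ⟨π, h1, ?_⟩
    rw [h.len] at h2
    simpa using h2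

open Classical in
theorem ncW (n M : ℕ) {θ : ℝ} (hθ : 0 < θ) : ∃ η β : ℝ, 0 < η ∧ 0 < β ∧
    ∀ (n₁ n₂ : ℂ) (bb : Bool) (y₀ : ℂ) (R₀ : ℝ) (ν : ℂ → ℂ × ℂ), ‖n₁‖ = 1 → ‖n₂‖ = 1 →
      ‖n₁ - n₂‖ ≤ β → WNu n₁ n₂ bb y₀ ν → ∀ k, k ≤ n → ∀ p : Fin k → ℂ, Function.Injective p →
      (∀ i, p i ∈ Metric.sphere y₀ R₀ ∧ p i ∈ Wedge n₁ n₂ bb y₀) → 0 < R₀ →
      ∀ (c : ℝ) (m : ℕ) (a b : Fin m → ℂ),
        Net (Wedge n₁ n₂ bb y₀) ν y₀ R₀ p univ
          (fun y => if y = y₀ then {d | d < k} else univ) η M c a b →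
        (∃ π : Fin k → Fin k, Function.Involutive π ∧
          c ≤ (∑ i, pv y₀ n₁ (p i) (p (π i))) / 2 + θ * R₀) ∨ k * R₀ ≤ c := by
  obtain ⟨t, ht, ht1, hts⟩ := small ((2 * n + n) * (M + 2 * (2 * n) + n)) hθ
  refine ⟨t, t, ht, ht, fun n₁ n₂ bb y₀ R₀ ν h1 h2 h12 hν k hk p hi hp hR c m a b h => ?_⟩
  have out : ∀ y, y ∉ range p → En a b y ≠ 0 → y ∉ Wedge n₁ n₂ bb y₀ :=
    fun y hy he hG => he ((h.atG y hG hy).2 (mem_univ _))
  have h21 : ‖n₂ - n₁‖ ≤ t := by rwa [norm_sub_rev]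
  have h11 : ‖n₁ - n₁‖ ≤ t := by simp [ht.le]
  have nu : ∀ y, y ∉ range p → En a b y ≠ 0 → ‖(ν y).1‖ = 1 ∧ ‖(ν y).1 - n₁‖ ≤ t ∧
      ‖(ν y).2 - n₁‖ ≤ t ∧ ip (ν y).1 (y - y₀) = 0 ∧ ip (ν y).2 (y - y₀) = 0 := by
    intro y hy he
    have hf := (h.atB y (out y hy he) he).1
    by_cases hy0 : y = y₀
    · subst hy0
      rw [hν.1, sub_self y]
      exact ⟨h1, h11, h21, AdmA.ip_zero _, AdmA.ip_zero _⟩
    · obtain ⟨e | e, e'⟩ := hν.2 y hf hy0
      · rw [e] at e' ⊢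
        exact ⟨h1, h11, h11, e', e'⟩
      · rw [e] at e' ⊢
        exact ⟨h2, h21, h21, e', e'⟩
  have hy₀ : y₀ ∉ range p := by
    rintro ⟨i, hi'⟩
    exact (wedge_adm n₁ n₂ bb y₀ hR.le).2 (hi' ▸ (hp i).2)
  by_cases hb : k ≤ (En a b y₀).card
  · right
    have := big h.ne hi h.atP hy₀ (fun y hy => ?_) hb
    · rw [h.len] at this
      have e : ∀ i, ‖p i - y₀‖ = R₀ := fun i => mem_sphere_iff_norm.1 (hp i).1
      simpa [e] using this
    · by_cases hy0 : En a b y = 0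
      · rw [hy0, Multiset.sum_zero, AdmA.ip_zero]
      · obtain ⟨-, -, -, e1, e2⟩ := nu y hy hy0
        exact perp (h.atB y (out y hy hy0) hy0).2.1 e1 e2
  · left
    have hA := force h.ne h.atP h1 fun y hy => by
      by_cases hy0 : En a b y = 0
      · rw [hy0, Multiset.sum_zero, AdmA.ip_zero]; simp
      · obtain ⟨-, e1, e2, -, -⟩ := nu y hy hy0
        exact coneF h1 (e1.trans ht1) (e2.trans ht1) (h.atB y (out y hy hy0) hy0).2.1
    obtain ⟨Y, hY, hY'⟩ := h.few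
    have hm := darts_le h.ne h.atP hA Y fun y hy hyY he => by
      have := hY' y (out y hy he) hyY he
      have e := abs_ip (ν y).1 (En a b y).sum
      rw [(nu y hy he).1, one_mul] at e
      exact this.trans ((le_abs_self _).trans e)
    have hk' : (k : ℝ) ≤ n := by exact_mod_cast hk
    have hY'' : (Y.card : ℝ) ≤ M := by exact_mod_cast hY.le
    have hB : (2 * m : ℝ) ≤ (2 * n + n) * (M + 2 * (2 * n) + n) := hm.trans (by gcongr)
    obtain ⟨σ, hσ, hs⟩ := sigma_darts a b (range p) (fun y => (ν y).1) t fun y hy => by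
      by_cases hy0 : En a b y = 0
      · rw [hy0]; exact refl_zero _ _
      · refine (h.atB y (out y hy hy0) hy0).2.2.2 ?_
        by_cases e : y = y₀
        · subst e
          simp only [if_true]
          exact not_le.1 hb
        · simp only [if_neg e]
          exact mem_univ _
    obtain ⟨π, p1, p2⟩ := west h.ne (fun δ => (dpos_mem h.sub δ).1) h1 hi h.atP hσ
      (η := t + 2 * t) (β := t) (by positivity) ht.le fun δ => ⟨(hs δ).1, fun hδ => by
        obtain ⟨-, e1, -, e2, -⟩ := nu _ hδ (En_ne δ)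
        have s := (hs δ).2.2 hδ
        set ν₁ := (ν (dpos a b δ)).1
        have d1 := abs_dt (ν₁ - n₁) (ddir a b δ)
        have d2 := abs_dt (ν₁ - n₁) (ddir a b (σ δ))
        rw [norm_ddir h.ne, mul_one, dt_subl] at d1 d2
        have d3 := abs_ip (ν₁ - n₁) (dpos a b δ - y₀)
        rw [ip_subl, e2, zero_sub, abs_neg] at d3
        have d4 : ‖dpos a b δ - y₀‖ ≤ R₀ := mem_closedBall_iff_norm.1 (dpos_mem h.sub δ).1
        refine ⟨?_, d3.trans (by gcongr)⟩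
        rw [abs_le] at s d1 d2 ⊢
        constructor <;> linarith [s.1, s.2, d1.1, d1.2, d2.1, d2.2]⟩
    refine ⟨π, p1, ?_⟩
    rw [h.len] at p2
    refine p2.trans (add_le_add le_rfl (mul_le_mul_of_nonneg_right (le_trans ?_ hts) hR.le))
    have e4 : (4 * m : ℝ) * (t + 2 * t) = 2 * (2 * m) * (t + 2 * t) := by ring
    rw [e4]
    gcongr

end Pool.Agent.MP_20201c_gt.H91
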