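import Pool.Agent.MP_20201c_gt.H91.PathI_a

/-! Moving points on a circle to a collision. -/

open MeasureTheory Set Filter Topology
open scoped ENNReal

namespace Pool.Agent.MP_20201c_gt.H91

def GapI (y₀ : ℂ) (R : ℝ) {n : ℕ} (p : Fin n → ℂ) : Prop :=
  ∀ π : Fin n → Fin n, Function.Involutive π → ∀ o ∈ cb y₀ R,
    (∑ i, ‖p i - p (π i)‖) / 2 < ∑ i, ‖p i - o‖

namespace PI

variable {y : ℂ} {R : ℝ} {n : ℕ} {p : Fin n → ℂ}

theorem sum_two {π : Fin n → Fin n} (hπ : Function.Involutive π) (o : ℂ) :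
    ∑ i, (‖p i - o‖ + ‖p (π i) - o‖) = 2 * ∑ i, ‖p i - o‖ := by
  have e := Equiv.sum_comp (hπ.toPerm π) fun i => ‖p i - o‖
  rw [Function.Involutive.coe_toPerm] at e
  rw [Finset.sum_add_distrib, e]
  ring

theorem gap_of (h : ∀ π o, ¬ Con p π o) : GapI y R p := by
  intro π hπ o _
  by_contra hc
  have le : ∀ i ∈ Finset.univ, ‖p i - p (π i)‖ ≤ ‖p i - o‖ + ‖p (π i) - o‖ := fun i _ => by
    rw [norm_sub_rev (p (π i)) o]
    exact norm_sub_le_norm_sub_add_norm_sub _ _ _
  have e : ∑ i, ‖p i - p (π i)‖ = ∑ i, (‖p i - o‖ + ‖p (π i) - o‖) :=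
    le_antisymm (Finset.sum_le_sum le) (by rw [sum_two hπ]; linarith [not_lt.1 hc])
  refine h π o ⟨hπ, fun i => ?_⟩
  have e1 := (Finset.sum_eq_sum_iff_of_le le).1 e i (Finset.mem_univ i)
  rw [mem_segment_iff_wbtw, ← dist_add_dist_eq_iff, dist_eq_norm, dist_eq_norm, dist_eq_norm,
    e1, norm_sub_rev o]

theorem not_gap (hn : 0 < n) (hp : ∀ i, p i ∈ Metric.sphere y R) {π : Fin n → Fin n} {o : ℂ}
    (h : Con p π o) : ¬ GapI y R p := by
  intro hg
  have m : o ∈ cb y R :=
    (convex_closedBall y R).segment_subset (Metric.sphere_subset_closedBall (hp _))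
      (Metric.sphere_subset_closedBall (hp _)) (h.2 ⟨0, hn⟩)
  have h1 := hg π h.1 o m
  have e : ∑ i, ‖p i - p (π i)‖ = ∑ i, (‖p i - o‖ + ‖p (π i) - o‖) :=
    Finset.sum_congr rfl fun i _ => by
      have h2 := dist_add_dist_of_mem_segment (h.2 i)
      rw [dist_eq_norm, dist_eq_norm, dist_eq_norm, norm_sub_rev o] at h2
      exact h2.symm
  rw [e, sum_two h.1] at h1
  linarith

/-- One point is moved along the circle. -/
noncomputable def Q (y : ℂ) (R : ℝ) (p : Fin n → ℂ) (j : Fin n) (τ : ℝ) : Fin n → ℂ :=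
  Function.update p j (circleMap y R τ)

theorem Q_cont (j : Fin n) : Continuous (Q y R p j) :=
  continuous_const.update j (continuous_circleMap y R)

theorem Q_sph (hR : 0 < R) (hp : ∀ i, p i ∈ Metric.sphere y R) (j : Fin n) (τ : ℝ) (i : Fin n) :
    Q y R p j τ i ∈ Metric.sphere y R := by
  by_cases e : i = j
  · rw [e, Q, Function.update_self]
    exact circleMap_mem_sphere y hR.le τ
  · rw [Q, Function.update_of_ne e]
    exact hp i

theorem Q_inj (hi : Function.Injective p) {j : Fin n} {τ : ℝ}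
    (h : ∀ i, i ≠ j → circleMap y R τ ≠ p i) : Function.Injective (Q y R p j τ) := by
  intro a b e
  by_cases ha : a = j <;> by_cases hb : b = j
  · rw [ha, hb]
  · rw [ha, Q, Function.update_self, Function.update_of_ne hb] at e
    exact absurd e (h b hb)
  · rw [hb, Q, Function.update_self, Function.update_of_ne ha] at e
    exact absurd e.symm (h a ha)
  · rw [Q, Function.update_of_ne ha, Function.update_of_ne hb] at e
    exact hi e

theorem sign_const (hR : 0 < R) (hp : ∀ i, p i ∈ Metric.sphere y R) {j : Fin n} {d u : ℝ}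
    (h : ∀ τ ∈ Ioo d u, Function.Injective (Q y R p j τ)) {a b : ℝ} (ha : a ∈ Ioo d u)
    (hb : b ∈ Ioo d u) {i m l : Fin n}
    (h1 : 0 < dt (Q y R p j a m - Q y R p j a i) (Q y R p j a l - Q y R p j a i)) :
    0 < dt (Q y R p j b m - Q y R p j b i) (Q y R p j b l - Q y R p j b i) := by
  by_contra hc
  have c : ∀ k, Continuous fun τ => Q y R p j τ k := fun k => (continuous_apply k).comp (Q_cont j)
  have c1 := c i
  have c2 := c m
  have c3 := c l
  have c4 : Continuous fun τ =>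
      dt (Q y R p j τ m - Q y R p j τ i) (Q y R p j τ l - Q y R p j τ i) := by
    unfold dt; fun_prop
  obtain ⟨τ, hτ, e⟩ := isPreconnected_Ioo.intermediate_value hb ha c4.continuousOn
    ⟨not_lt.1 hc, h1.le⟩
  rcases not_col (Q_sph hR hp j τ i) (Q_sph hR hp j τ m) (Q_sph hR hp j τ l) e with e | e | e
  · rw [h τ hτ e] at h1
    simp [dt] at h1
  · rw [h τ hτ e] at h1
    simp [dt] at h1
  · rw [h τ hτ e, dt_self] at h1
    exact lt_irrefl _ h1

theorem mk_path (hR : 0 < R) (hn : 5 ≤ n) (hi : Function.Injective p)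
    (hp : ∀ i, p i ∈ Metric.sphere y R) {j l : Fin n} (hl : l ≠ j) {a b : ℝ}
    (ha : circleMap y R a = p j) (hb : circleMap y R b = p l)
    (h : ∀ s ∈ Ico (0 : ℝ) 1, Function.Injective (Q y R p j (a + s * (b - a))) ∧
      ∀ π o, ¬ Con (Q y R p j (a + s * (b - a))) π o) :
    ∃ q : ℝ → Fin n → ℂ, ContinuousOn q (Icc 0 1) ∧ q 0 = p ∧
      (∀ s ∈ Icc (0 : ℝ) 1, (∀ i, q s i ∈ Metric.sphere y R) ∧ GapI y R (q s)) ∧
      (∀ s ∈ Ico (0 : ℝ) 1, Function.Injective (q s)) ∧ ¬ Function.Injective (q 1) := by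
  have e1 : Q y R p j (a + 1 * (b - a)) = Function.update p j (p l) := by
    rw [Q, ← hb]; congr 2; ring
  refine ⟨fun s => Q y R p j (a + s * (b - a)),
    ((Q_cont j).comp (by fun_prop)).continuousOn, ?_, fun s hs => ⟨Q_sph hR hp j _, ?_⟩,
    fun s hs => (h s hs).1, fun hc => ?_⟩
  · simp only [zero_mul, add_zero, Q, ha, Function.update_eq_self]
  · refine gap_of ?_
    rcases hs.2.eq_or_lt with rfl | h1
    · intro π o
      beta_reduce
      rw [e1]
      exact collide hn hi hp hl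
    · exact (h s ⟨hs.1, h1⟩).2
  · beta_reduce at hc
    rw [e1] at hc
    exact hl (hc (by rw [Function.update_self, Function.update_of_ne hl]))

end PI

theorem pathI {y₀ : ℂ} {R : ℝ} (hR : 0 < R) {n : ℕ} (he : Even n) {p : Fin n → ℂ}
    (hi : Function.Injective p) (hp : ∀ i, p i ∈ Metric.sphere y₀ R) (h : GapI y₀ R p) :
    ∃ q : ℝ → Fin n → ℂ, ContinuousOn q (Icc 0 1) ∧ q 0 = p ∧
      (∀ s ∈ Icc (0 : ℝ) 1, (∀ i, q s i ∈ Metric.sphere y₀ R) ∧ GapI y₀ R (q s)) ∧
      (∀ s ∈ Ico (0 : ℝ) 1, Function.Injective (q s)) ∧ ¬ Function.Injective (q 1) := by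
  classical
  have hn : 5 ≤ n := by
    by_contra hc
    have h1 : n = 0 ∨ n = 2 ∨ n = 4 := by
      obtain ⟨k, rfl⟩ := he
      omega
    rcases h1 with rfl | rfl | rfl
    · simpa using h id (fun _ => rfl) y₀ (Metric.mem_closedBall_self hR.le)
    · obtain ⟨π, o, h2⟩ := PI.con_two p
      exact PI.not_gap (by norm_num) hp h2 h
    · obtain ⟨π, o, h2⟩ := PI.con_four hi hp
      exact PI.not_gap (by norm_num) hp h2 h
  set t : Fin n → ℝ := fun i => Complex.arg (p i - y₀) with ht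
  have tp : ∀ i, circleMap y₀ R (t i) = p i := fun i => by
    have e := Complex.norm_mul_exp_arg_mul_I (p i - y₀)
    rw [mem_sphere_iff_norm.1 (hp i)] at e
    rw [circleMap, e]; ring
  have tm : ∀ i, t i ∈ Ioc (-Real.pi) Real.pi := fun i => Complex.arg_mem_Ioc _
  have inj : InjOn (circleMap y₀ R) (Ioc (-Real.pi) Real.pi) := by
    have h1 := injOn_circleMap_of_abs_sub_le (a := -Real.pi) (b := Real.pi) (c := y₀) hR.ne'
      (by rw [abs_le]; constructor <;> linarith [Real.pi_pos])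
    rwa [uIoc_of_le (by linarith [Real.pi_pos])] at h1
  have ti : Function.Injective t := fun a b e => hi (by rw [← tp a, e, tp])
  have ne : (Finset.univ : Finset (Fin n)).Nonempty := ⟨⟨0, by omega⟩, Finset.mem_univ _⟩
  obtain ⟨a, -, ha⟩ := Finset.exists_min_image Finset.univ t ne
  obtain ⟨b, -, hb⟩ := Finset.exists_max_image Finset.univ t ne
  obtain ⟨j, ja, jb⟩ := PI.exists_two (by omega) a b
  have a1 : t a < t j := lt_of_le_of_ne (ha j (Finset.mem_univ _)) fun e => ja (ti e).symm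
  have b1 : t j < t b := lt_of_le_of_ne (hb j (Finset.mem_univ _)) fun e => jb (ti e)
  obtain ⟨u, hu, hu'⟩ := Finset.exists_min_image (Finset.univ.filter fun i => t j < t i) t
    ⟨b, by simpa using b1⟩
  obtain ⟨d, hd, hd'⟩ := Finset.exists_max_image (Finset.univ.filter fun i => t i < t j) t
    ⟨a, by simpa using a1⟩
  have u1 : t j < t u := by simpa using hu
  have d1 : t d < t j := by simpa using hd
  have sub : ∀ τ ∈ Ioo (t d) (t u), τ ∈ Ioc (-Real.pi) Real.pi := fun τ hτ =>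
    ⟨(tm d).1.trans hτ.1, hτ.2.le.trans (tm u).2⟩
  have qi : ∀ τ ∈ Ioo (t d) (t u), Function.Injective (PI.Q y₀ R p j τ) := by
    intro τ hτ
    refine PI.Q_inj hi fun i hij e => ?_
    rw [← tp i] at e
    have e1 := inj (sub τ hτ) (tm i) e
    rcases lt_trichotomy (t i) (t j) with c | c | c
    · linarith [hd' i (by simpa using c), hτ.1]
    · exact hij (ti c)
    · linarith [hu' i (by simpa using c), hτ.2]
  have uniq : ∀ τ ∈ Ioo (t d) (t u), ∀ τ' ∈ Ioo (t d) (t u), ∀ π o π' o',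
      PI.Con (PI.Q y₀ R p j τ) π o → PI.Con (PI.Q y₀ R p j τ') π' o' → τ' = τ := by
    intro τ hτ τ' hτ' π o π' o' c c'
    have e := c.unique c' hn (qi τ hτ) (qi τ' hτ') (PI.Q_sph hR hp j τ) (PI.Q_sph hR hp j τ')
      (j := j) (fun i hij => by
        rw [PI.Q, PI.Q, Function.update_of_ne hij, Function.update_of_ne hij])
      fun i m l => ⟨PI.sign_const hR hp qi hτ hτ', PI.sign_const hR hp qi hτ' hτ⟩
    rw [PI.Q, PI.Q, Function.update_self, Function.update_self] at e
    exact inj (sub _ hτ') (sub _ hτ) e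
  have start : ∀ π o, ¬ PI.Con (PI.Q y₀ R p j (t j)) π o := by
    intro π o c
    rw [PI.Q, tp, Function.update_eq_self] at c
    exact PI.not_gap (by omega) hp c h
  by_cases hc : ∃ τ ∈ Ioo (t j) (t u), ∃ π o, PI.Con (PI.Q y₀ R p j τ) π o
  · obtain ⟨τ, hτ, π, o, c⟩ := hc
    refine PI.mk_path hR hn hi hp (l := d) (fun e => by rw [e] at d1; exact lt_irrefl _ d1)
      (tp j) (tp d) fun s hs => ?_
    have m1 : t j + s * (t d - t j) ≤ t j := by nlinarith [hs.1]
    have m : t j + s * (t d - t j) ∈ Ioo (t d) (t u) := ⟨by nlinarith [hs.2], by linarith⟩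
    refine ⟨qi _ m, fun π' o' c' => ?_⟩
    have e := uniq τ ⟨d1.trans hτ.1, hτ.2⟩ _ m π o π' o' c c'
    linarith [hτ.1]
  · refine PI.mk_path hR hn hi hp (l := u) (fun e => by rw [e] at u1; exact lt_irrefl _ u1)
      (tp j) (tp u) fun s hs => ?_
    have m1 : t j ≤ t j + s * (t u - t j) := by nlinarith [hs.1]
    have m2 : t j + s * (t u - t j) < t u := by nlinarith [hs.2]
    refine ⟨qi _ ⟨by linarith, m2⟩, fun π' o' c' => ?_⟩
    rcases m1.eq_or_lt with e | e
    · rw [← e] at c'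
      exact start _ _ c'
    · exact hc ⟨_, ⟨e, m2⟩, π', o', c'⟩

end Pool.Agent.MP_20201c_gt.H91
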