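import Pool.Agent.MP_20201c_gt.H91.Push

/-! Removing boundary points; continuation with matching values. -/

open MeasureTheory Set Filter Topology
open scoped ENNReal

namespace Pool.Agent.MP_20201c_gt.H91

theorem red_ext {k n : ℕ} (p : Fin n → ℂ) {e : Fin k → Fin n} (he : Function.Injective e)
    (π' : Fin k → Fin k) (h : Function.Involutive π') : ∃ π : Fin n → Fin n,
      Function.Involutive π ∧ ∀ f : ℂ → ℂ → ℝ, (∀ x y, 0 ≤ f x y) →
        ∑ i, f (p (e i)) (p (e (π' i))) ≤ ∑ i, f (p i) (p (π i)) := by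
  have h1 : ∀ j, Function.extend e (e ∘ π') id (e j) = e (π' j) := fun j => he.extend_apply _ _ j
  refine ⟨Function.extend e (e ∘ π') id, fun i => ?_, fun f hf => ?_⟩
  · by_cases hi : ∃ j, e j = i
    · obtain ⟨j, rfl⟩ := hi
      rw [h1, h1, h j]
    · rw [Function.extend_apply' _ _ _ hi, id, Function.extend_apply' _ _ _ hi, id]
  · calc ∑ i, f (p (e i)) (p (e (π' i)))
        = ∑ i ∈ Finset.univ.map ⟨e, he⟩, f (p i) (p (Function.extend e (e ∘ π') id i)) := by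
          rw [Finset.sum_map]
          exact Finset.sum_congr rfl fun j _ => by
            rw [Function.Embedding.coeFn_mk, h1]
      _ ≤ _ := Finset.sum_le_sum_of_subset_of_nonneg (Finset.subset_univ _) fun _ _ _ => hf _ _

theorem red_pair {n : ℕ} (p : Fin n → ℂ) (h : ¬ Function.Injective p) :
    ∃ (k : ℕ) (e : Fin k → Fin n), k + 2 = n ∧ ind (p ∘ e) = ind p ∧
      ∀ π' : Fin k → Fin k, Function.Involutive π' → ∃ π : Fin n → Fin n,
        Function.Involutive π ∧ ∀ f : ℂ → ℂ → ℝ, (∀ x y, 0 ≤ f x y) →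
          ∑ i, f (p (e i)) (p (e (π' i))) ≤ ∑ i, f (p i) (p (π i)) := by
  obtain ⟨i, j, hp, hij⟩ := Function.not_injective_iff.1 h
  obtain ⟨m, rfl⟩ : ∃ m, n = m + 1 := ⟨n - 1, by have := i.pos; omega⟩
  obtain ⟨j', rfl⟩ := Fin.exists_succAbove_eq (Ne.symm hij)
  obtain ⟨k, rfl⟩ : ∃ k, m = k + 1 := ⟨m - 1, by have := j'.pos; omega⟩
  refine ⟨k, fun l => i.succAbove (j'.succAbove l), rfl, ?_, red_ext p
    (Fin.succAbove_right_injective.comp Fin.succAbove_right_injective)⟩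
  funext z
  unfold ind
  rw [Fin.sum_univ_succAbove _ i, Fin.sum_univ_succAbove _ j', ← hp, ← add_assoc,
    CharTwo.add_self_eq_zero, zero_add]
  rfl

theorem red_one {n : ℕ} (p : Fin n → ℂ) (j : Fin n) :
    ∃ (k : ℕ) (e : Fin k → Fin n), k + 1 = n ∧ (∀ z, z ≠ p j → ind (p ∘ e) z = ind p z) ∧
      ∀ π' : Fin k → Fin k, Function.Involutive π' → ∃ π : Fin n → Fin n,
        Function.Involutive π ∧ ∀ f : ℂ → ℂ → ℝ, (∀ x y, 0 ≤ f x y) →
          ∑ i, f (p (e i)) (p (e (π' i))) ≤ ∑ i, f (p i) (p (π i)) := by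
  obtain ⟨k, rfl⟩ : ∃ m, n = m + 1 := ⟨n - 1, by have := j.pos; omega⟩
  refine ⟨k, j.succAbove, rfl, fun z hz => ?_, red_ext p Fin.succAbove_right_injective⟩
  unfold ind
  rw [Fin.sum_univ_succAbove _ j, if_neg (Ne.symm hz), zero_add]
  rfl

theorem cont_gap {N : ℕ} {G W : Set ℂ} (hW : Convex ℝ W) (hWc : IsCompact W) {n : ℕ}
    {q : ℝ → Fin n → ℂ} (hq : ContinuousOn q (Icc 0 1)) (hqW : ∀ s ∈ Icc (0 : ℝ) 1, ∀ i, q s i ∈ W)
    {f : ℂ → ℂ → ℝ} (hf : Continuous fun x : ℂ × ℂ => f x.1 x.2) {D : Set ℂ} (hD : IsCompact D)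
    (hne : D.Nonempty) (κ : ℝ)
    (hgap : ∀ s ∈ Icc (0 : ℝ) 1, ∀ π : Fin n → Fin n, Function.Involutive π → ∀ o ∈ D,
      (∑ i, f (q s i) (q s (π i))) / 2 + κ < ∑ i, ‖q s i - o‖)
    (hU : ∀ s ∈ Ico (0 : ℝ) 1, ∀ c,
      (∀ π : Fin n → Fin n, Function.Involutive π → (∑ i, f (q s i) (q s (π i))) / 2 + κ < c) →
      (∀ o ∈ D, c < ∑ i, ‖q s i - o‖) → UC (N + 1) (2 ^ (N + 1)) G W (ind (q s)) c)
    (h1 : ∀ a, (∀ π : Fin n → Fin n, Function.Involutive π →
      (∑ i, f (q 1 i) (q 1 (π i))) / 2 + κ ≤ a) → Acyc N G W (ind (q 1)) a)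
    (h0 : ∀ o ∈ D, Acyc N G W (ind (q 0)) (∑ i, ‖q 0 i - o‖)) :
    ∀ a, (∀ π : Fin n → Fin n, Function.Involutive π →
      (∑ i, f (q 0 i) (q 0 (π i))) / 2 + κ ≤ a) → Acyc N G W (ind (q 0)) a := by
  classical
  let S : Finset (Fin n → Fin n) := Finset.univ.filter Function.Involutive
  have mS : ∀ π, π ∈ S ↔ Function.Involutive π := fun π => by simp [S]
  have hS : S.Nonempty := ⟨id, (mS _).2 fun _ => rfl⟩
  let F : (Fin n → Fin n) → (Fin n → ℂ) → ℝ := fun π x => (∑ i, f (x i) (x (π i))) / 2 + κ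
  let g : (Fin n → ℂ) → ℂ → ℝ := fun x o => ∑ i, ‖x i - o‖
  have hF : ∀ π, Continuous (F π) := fun π =>
    ((continuous_finsetSum _ fun i _ => hf.comp
      ((continuous_apply i).prodMk (continuous_apply (π i)))).div_const 2).add continuous_const
  have hg : Continuous ↿g := by
    change Continuous fun y : (Fin n → ℂ) × ℂ => ∑ i, ‖y.1 i - y.2‖
    fun_prop
  have hL : Continuous fun x => S.sup' hS fun π => F π x :=
    Continuous.finset_sup'_apply hS fun π _ => hF π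
  have hH : Continuous fun x => sInf (g x '' D) := hD.continuous_sInf hg
  have hat : ∀ x, ∃ o ∈ D, sInf (g x '' D) = g x o ∧ ∀ o' ∈ D, g x o ≤ g x o' := fun x =>
    hD.exists_sInf_image_eq_and_le hne (hg.comp (Continuous.prodMk_right x)).continuousOn
  intro a ha
  have key := cont (G := G) hW hWc hq hqW (lo := fun s => S.sup' hS fun π => F π (q s))
    (hi := fun s => sInf (g (q s) '' D)) (hL.comp_continuousOn hq) (hH.comp_continuousOn hq)
    (fun s hs => by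
      obtain ⟨o, ho, e, -⟩ := hat (q s)
      rw [e, Finset.sup'_lt_iff]
      exact fun π hπ => hgap s hs π ((mS π).1 hπ) o ho)
    (fun s hs c hc => hU s hs c
      (fun π hπ => (Finset.le_sup' (fun π => F π (q s)) ((mS π).2 hπ)).trans_lt hc.1)
      fun o ho => by
        obtain ⟨o', -, e, h⟩ := hat (q s)
        exact hc.2.trans_le (e.le.trans (h o ho)))
    (h1 _ fun π hπ => Finset.le_sup' (fun π => F π (q 1)) ((mS π).2 hπ))
    (by
      obtain ⟨o, ho, e, -⟩ := hat (q 0)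
      simp only [e]
      exact h0 o ho)
  exact fun t ht => key t (((Finset.sup'_le_iff hS _).2 fun π hπ => ha π ((mS π).1 hπ)).trans ht)

end Pool.Agent.MP_20201c_gt.H91
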