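import Pool.Agent.MP_20201c_gt.H91.Crit
import Pool.Agent.MP_20201c_gt.H91.NC
import Pool.Agent.MP_20201c_gt.H91.PathI
import Pool.Agent.MP_20201c_gt.H91.Red
import Pool.Agent.MP_20201c_gt.H91.Cone

/-! The interior local lemma. -/

open MeasureTheory Set Filter Topology
open scoped ENNReal

namespace Pool.Agent.MP_20201c_gt.H91

/-- The statement of the interior lemma for `n` points. -/
def LliS (n : ℕ) : Prop :=
  Even n → ∀ (N : ℕ) (y : ℂ) (R : ℝ), 0 < R → ∀ p : Fin n → ℂ, (∀ i, p i ∈ Metric.sphere y R) →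
    ∀ a : ℝ, (∀ π : Fin n → Fin n, Function.Involutive π → (∑ i, ‖p i - p (π i)‖) / 2 ≤ a) →
      Acyc N univ (cb y R) (ind p) a

theorem lli_all (n : ℕ) : LliS n := by
  induction n using Nat.strong_induction_on with
  | _ n ih =>
  intro he N y R hR
  have hcv : Convex ℝ (cb y R) := convex_closedBall y R
  have hcp : IsCompact (cb y R) := isCompact_closedBall y R
  have nin : ∀ p : Fin n → ℂ, ¬ Function.Injective p → (∀ i, p i ∈ Metric.sphere y R) →
      ∀ a : ℝ, (∀ π : Fin n → Fin n, Function.Involutive π → (∑ i, ‖p i - p (π i)‖) / 2 ≤ a) →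
        Acyc N univ (cb y R) (ind p) a := by
    intro p hi hp a ha
    obtain ⟨k, e, hk, h1, h2⟩ := red_pair p hi
    rw [← h1]
    refine ih k (by omega) (by rw [← hk] at he; simpa [Nat.even_add] using he) N y R hR (p ∘ e)
      (fun i => hp _) a fun π' hπ' => ?_
    obtain ⟨π, hπ, h3⟩ := h2 π' hπ'
    have h4 := h3 (fun x z => ‖x - z‖) fun _ _ => norm_nonneg _
    have h5 := ha π hπ
    simp only [Function.comp_apply]
    linarith
  have cone : ∀ p : Fin n → ℂ, (∀ i, p i ∈ Metric.sphere y R) → ∀ o ∈ cb y R,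
      Acyc N univ (cb y R) (ind p) (∑ i, ‖p i - o‖) := fun p hp o ho =>
    acyc_cone N hcv p (fun i => Metric.sphere_subset_closedBall (hp i))
      ⟨ho, fun x _ hx => absurd (mem_univ x) hx⟩ fun _ => he
  intro p hp a ha
  by_cases hi : Function.Injective p
  swap
  · exact nin p hi hp a ha
  by_cases hg : GapI y R p
  swap
  · unfold GapI at hg
    simp only [not_forall, not_lt] at hg
    obtain ⟨π, hπ, o, ho, h1⟩ := hg
    exact (cone p hp o ho).mono le_rfl (h1.trans (ha π hπ))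
  obtain ⟨q, hq, h0, h1, h2, h3⟩ := pathI hR he hi hp hg
  subst h0
  have hI : OI (N + 1) univ {d | d < n} := fun z _ =>
    ⟨1, one_pos, fun S hS k hk hke p' hp' b hb => ih k hk hke (N + 1) z S hS.1 p' hp' b hb⟩
  refine cont_gap hcv hcp hq (fun s hs i => Metric.sphere_subset_closedBall ((h1 s hs).1 i))
    (f := fun x z => ‖x - z‖) (by fun_prop) hcp ⟨y, Metric.mem_closedBall_self hR.le⟩ 0
    (fun s hs π hπ o ho => by simpa using (h1 s hs).2 π hπ o ho) (fun s hs c k1 k2 => ?_)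
    (fun b hb => nin _ h3 (h1 1 ⟨zero_le_one, le_rfl⟩).1 b fun π hπ => by simpa using hb π hπ)
    (cone _ hp) a fun π hπ => by simpa using ha π hπ
  have hS : Setup univ (fun _ => ((1 : ℂ), (1 : ℂ))) y R (q s) :=
    ⟨hR, conic_univ _, h2 s hs, fun i => ⟨(h1 s (Ico_subset_Icc_self hs)).1 i, mem_univ _⟩,
      fun z _ hz => by simp at hz⟩
  rcases crit hS (2 ^ (N + 1)) (DB := fun _ => univ) (η := 0) le_rfl hI
    (fun z hz => by simp at hz) c with h | ⟨m, a', b', h⟩
  · exact h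
  · rcases ncI (h2 s hs) h with ⟨π, hπ, h4⟩ | ⟨o, ho, h4⟩
    · have := k1 π hπ
      linarith
    · exact absurd (k2 o ho) (not_lt.2 h4)

theorem lli (N : ℕ) {n : ℕ} (he : Even n) (y : ℂ) {R : ℝ} (hR : 0 < R) (p : Fin n → ℂ)
    (hp : ∀ i, p i ∈ Metric.sphere y R) (a : ℝ)
    (ha : ∀ π : Fin n → Fin n, Function.Involutive π → (∑ i, ‖p i - p (π i)‖) / 2 ≤ a) :
    Acyc N univ (cb y R) (ind p) a := lli_all n he N y R hR p hp a ha

theorem oi_all (N : ℕ) {G : Set ℂ} (hG : IsOpen G) : OI N G univ := by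
  intro y hy
  obtain ⟨r, hr, h⟩ := Metric.isOpen_iff.1 hG y hy
  refine ⟨r, hr, fun R hR n _ he p hp a ha => ?_⟩
  exact (lli N he y hR.1 p hp a ha).congr
    (fun z hz => iff_of_true (mem_univ z) (h (Metric.closedBall_subset_ball hR.2 hz)))
    fun _ _ _ => rfl

end Pool.Agent.MP_20201c_gt.H91
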