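import Pool.Agent.MP_20201c_gt.H91.Defs4

/-! Moving points in a wide wedge. -/

open MeasureTheory Set Filter Topology
open scoped ENNReal

namespace Pool.Agent.MP_20201c_gt.H91

theorem pw_lag (a b : ℂ) : dt a b ^ 2 + ip a b ^ 2 = (‖a‖ * ‖b‖) ^ 2 := by
  rw [mul_pow, Complex.sq_norm, Complex.sq_norm, Complex.normSq_apply, Complex.normSq_apply]
  simp only [ip, dt]
  ring

theorem pw_dt_sub (n p q y : ℂ) : dt n (p - q) = dt n (p - y) - dt n (q - y) := by
  simp only [dt, Complex.sub_re, Complex.sub_im]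
  ring

theorem pw_sph {n p y : ℂ} {R : ℝ} (hn : ‖n‖ = 1) (hp : p ∈ Metric.sphere y R) :
    dt n (p - y) ^ 2 + |ip n (p - y)| ^ 2 = R ^ 2 := by
  rw [sq_abs, pw_lag, hn, one_mul, ← dist_eq_norm, Metric.mem_sphere.1 hp]

theorem pw_le {n p q y : ℂ} {R c : ℝ} (hR : 0 < R) (hn : ‖n‖ = 1) (hp : p ∈ Metric.sphere y R)
    (hq : q ∈ Metric.sphere y R) (h0 : 0 ≤ c) (h1 : c ≤ 1)
    (h : c * R ≤ |dt n (p - y) + dt n (q - y)|) : pv y n p q ≤ R * (2 - c ^ 2 / 4) := by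
  have e1 := pw_sph hn hp
  have e2 := pw_sph hn hq
  unfold pv
  rw [pw_dt_sub n p q y]
  have h2 : (c * R) ^ 2 ≤ (dt n (p - y) + dt n (q - y)) ^ 2 := by
    rw [← sq_abs (dt n (p - y) + dt n (q - y))]
    exact pow_le_pow_left₀ (by positivity) h 2
  generalize dt n (p - y) = x at *
  generalize dt n (q - y) = x' at *
  generalize |ip n (p - y)| = u at *
  generalize |ip n (q - y)| = u' at *
  have h3 : c ^ 2 ≤ 1 := pow_le_one₀ h0 h1
  refine Real.sqrt_le_iff.2 ⟨mul_nonneg hR.le (by linarith), ?_⟩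
  have h4 : (R * (2 - c ^ 2 / 4)) ^ 2 = 4 * R ^ 2 - (c * R) ^ 2 + (R * c ^ 2 / 4) ^ 2 := by ring
  nlinarith [sq_nonneg (u - u'), sq_nonneg (R * c ^ 2 / 4)]

theorem pw_ge {n p q y : ℂ} {R c : ℝ} (hR : 0 < R) (hn : ‖n‖ = 1) (hp : p ∈ Metric.sphere y R)
    (hq : q ∈ Metric.sphere y R) (h0 : 0 ≤ c) (h1 : c ≤ 1)
    (h : |dt n (p - y) + dt n (q - y)| ≤ c * R) : R * (2 - c) ≤ pv y n p q := by
  have e1 := pw_sph hn hp
  have e2 := pw_sph hn hq
  unfold pv
  rw [pw_dt_sub n p q y]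
  have hu := abs_nonneg (ip n (p - y))
  have hu' := abs_nonneg (ip n (q - y))
  generalize dt n (p - y) = x at *
  generalize dt n (q - y) = x' at *
  generalize |ip n (p - y)| = u at *
  generalize |ip n (q - y)| = u' at *
  have hx : |x| ≤ R := abs_le_of_sq_le_sq (by nlinarith) hR.le
  have hx' : |x'| ≤ R := abs_le_of_sq_le_sq (by nlinarith) hR.le
  have h2 : |x - x'| ≤ 2 * R := (abs_sub x x').trans (by linarith)
  have h3 : |(x + x') * (x - x')| ≤ c * R * (2 * R) := by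
    rw [abs_mul]
    exact mul_le_mul h h2 (abs_nonneg _) (by positivity)
  have h4 := abs_le.1 h3
  have h5 : (u - u') ^ 2 ≤ c * R * (2 * R) := by
    rcases le_total u u' with hh | hh
    · nlinarith [h4.2]
    · nlinarith [h4.1]
  have h6 : (x + x') ^ 2 ≤ (c * R) ^ 2 := by
    rw [← sq_abs]
    exact pow_le_pow_left₀ (abs_nonneg _) h 2
  refine Real.le_sqrt_of_sq_le ?_
  have h7 : 0 ≤ c * (1 - c) * R ^ 2 := mul_nonneg (mul_nonneg h0 (by linarith)) (sq_nonneg R)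
  nlinarith

theorem pw_open (n₁ n₂ : ℂ) (bb : Bool) (y : ℂ) : IsOpen (Wedge n₁ n₂ bb y) := by
  have h : ∀ n : ℂ, IsOpen {z : ℂ | 0 < ip n (z - y)} := fun n =>
    isOpen_lt continuous_const (by unfold ip; fun_prop)
  unfold Wedge
  split_ifs
  · exact (h n₁).union (h n₂)
  · exact (h n₁).inter (h n₂)

theorem pw_ip {n₁ n₂ : ℂ} {bb : Bool} {y z : ℂ} {β R : ℝ} (hβ : ‖n₁ - n₂‖ ≤ β)
    (hs : z ∈ Metric.sphere y R) (hz : z ∈ Wedge n₁ n₂ bb y) : -(β * R) ≤ ip n₁ (z - y) := by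
  have hR : ‖z - y‖ = R := by rw [← dist_eq_norm, Metric.mem_sphere.1 hs]
  have hR0 : 0 ≤ R := hR ▸ norm_nonneg _
  have hb : 0 ≤ β := (norm_nonneg _).trans hβ
  have h1 : |ip (n₁ - n₂) (z - y)| ≤ ‖n₁ - n₂‖ * ‖z - y‖ :=
    abs_le_of_sq_le_sq (by nlinarith [pw_lag (n₁ - n₂) (z - y), sq_nonneg (dt (n₁ - n₂) (z - y))])
      (by positivity)
  have h2 : ‖n₁ - n₂‖ * ‖z - y‖ ≤ β * R := by
    rw [hR]; exact mul_le_mul_of_nonneg_right hβ hR0
  have h3 : ip (n₁ - n₂) (z - y) = ip n₁ (z - y) - ip n₂ (z - y) := by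
    simp only [ip, Complex.sub_re, Complex.sub_im]
    ring
  have h4 := (abs_le.1 h1).1
  have h5 : 0 ≤ β * R := by positivity
  unfold Wedge at hz
  split_ifs at hz
  · rcases hz with hz | hz <;> linarith
  · linarith [hz.1]

/-- Either the values pair up, or there is an obstruction for every pairing. -/
theorem pw_pair {k : ℕ} (x : Fin k → ℝ) (c : ℝ) :
    (∃ π : Fin k → Fin k, Function.Involutive π ∧ ∀ i, |x i + x (π i)| ≤ c) ∨
      ∃ ε : ℝ, (ε = 1 ∨ ε = -1) ∧ ∃ A B : Finset (Fin k), k < A.card + B.card ∧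
        ∀ a ∈ A, ∀ b ∈ B, c ≤ ε * x a + ε * x b := by
  have hm := Tuple.monotone_sort x
  set e := Tuple.sort x
  by_cases h : ∀ j, |x (e j) + x (e j.rev)| ≤ c
  · refine Or.inl ⟨fun i => e (e.symm i).rev, fun i => by simp, fun i => ?_⟩
    have := h (e.symm i)
    simpa using this
  · push Not at h
    obtain ⟨j, hj⟩ := h
    have hk := j.isLt
    right
    rcases lt_abs.1 hj with hj | hj
    · refine ⟨1, Or.inl rfl, (Finset.Ici j).map e.toEmbedding,
        (Finset.Ici j.rev).map e.toEmbedding, ?_, ?_⟩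
      · simp only [Finset.card_map, Fin.card_Ici, Fin.val_rev]
        omega
      · intro a ha b hb
        obtain ⟨a', ha', rfl⟩ := Finset.mem_map.1 ha
        obtain ⟨b', hb', rfl⟩ := Finset.mem_map.1 hb
        have h1 : x (e j) ≤ x (e a') := hm (Finset.mem_Ici.1 ha')
        have h2 : x (e j.rev) ≤ x (e b') := hm (Finset.mem_Ici.1 hb')
        simp only [Equiv.coe_toEmbedding]
        linarith
    · refine ⟨-1, Or.inr rfl, (Finset.Iic j).map e.toEmbedding,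
        (Finset.Iic j.rev).map e.toEmbedding, ?_, ?_⟩
      · simp only [Finset.card_map, Fin.card_Iic, Fin.val_rev]
        omega
      · intro a ha b hb
        obtain ⟨a', ha', rfl⟩ := Finset.mem_map.1 ha
        obtain ⟨b', hb', rfl⟩ := Finset.mem_map.1 hb
        have h1 : x (e a') ≤ x (e j) := hm (Finset.mem_Iic.1 ha')
        have h2 : x (e b') ≤ x (e j.rev) := hm (Finset.mem_Iic.1 hb')
        simp only [Equiv.coe_toEmbedding]
        linarith

theorem pw_hole {k : ℕ} {A B : Finset (Fin k)} (h : k < A.card + B.card) {π : Fin k → Fin k}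
    (hπ : Function.Involutive π) : ∃ a ∈ A, π a ∈ B := by
  by_contra hc
  push Not at hc
  have h1 : Disjoint (A.image π) B := by
    rw [Finset.disjoint_left]
    intro b hb
    obtain ⟨a, ha, rfl⟩ := Finset.mem_image.1 hb
    exact hc a ha
  have h2 := Finset.card_le_univ (A.image π ∪ B)
  rw [Finset.card_union_of_disjoint h1, Finset.card_image_of_injective _ hπ.injective,
    Fintype.card_fin] at h2
  omega

/-- Rotation by the angle `ε t`. -/
noncomputable def pwRot (ε t : ℝ) : ℂ := ⟨Real.cos t, ε * Real.sin t⟩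

theorem pw_rot_norm {ε : ℝ} (hε : ε * ε = 1) (t : ℝ) : ‖pwRot ε t‖ = 1 := by
  have h : ‖pwRot ε t‖ ^ 2 = 1 := by
    rw [Complex.sq_norm, Complex.normSq_apply]
    simp only [pwRot]
    have := Real.sin_sq_add_cos_sq t
    linear_combination this + Real.sin t ^ 2 * hε
  have h0 := norm_nonneg (pwRot ε t)
  nlinarith

theorem pw_rot_cont (ε : ℝ) : Continuous (pwRot ε) := by
  have h : pwRot ε = fun t => (Real.cos t : ℂ) + (ε * Real.sin t : ℝ) * Complex.I := by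
    funext t
    apply Complex.ext <;> simp [pwRot, -Complex.ofReal_cos, -Complex.ofReal_sin]
  rw [h]
  fun_prop

theorem pw_rot_zero (ε : ℝ) : pwRot ε 0 = 1 := by
  apply Complex.ext <;> simp [pwRot]

theorem pw_rot_ip (n w : ℂ) (ε t : ℝ) :
    ip n (w * pwRot ε t) = ip n w * Real.cos t - ε * dt n w * Real.sin t := by
  simp only [ip, dt, pwRot, Complex.mul_re, Complex.mul_im]
  ring

theorem pw_rot_dt (n w : ℂ) {ε : ℝ} (hε : ε * ε = 1) (t : ℝ) :
    ε * dt n (w * pwRot ε t) = ε * dt n w * Real.cos t + ip n w * Real.sin t := by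
  simp only [ip, dt, pwRot, Complex.mul_re, Complex.mul_im]
  linear_combination (n.re * w.re + n.im * w.im) * Real.sin t * hε

theorem pw_mono (n w : ℂ) {ε b φ : ℝ} (hε : ε * ε = 1)
    (h : ∀ t ∈ Ioo 0 φ, -b ≤ ip n (w * pwRot ε t)) {t : ℝ} (ht : t ∈ Icc 0 φ) :
    ε * dt n w - b * t ≤ ε * dt n (w * pwRot ε t) := by
  have hd : ∀ t, HasDerivAt (fun t => ε * dt n w * Real.cos t + ip n w * Real.sin t + b * t)
      (ip n (w * pwRot ε t) + b) t := by
    intro t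
    have h1 := (((Real.hasDerivAt_cos t).const_mul (ε * dt n w)).add
      ((Real.hasDerivAt_sin t).const_mul (ip n w))).add ((hasDerivAt_id t).const_mul b)
    refine h1.congr_deriv ?_
    rw [pw_rot_ip]
    ring
  have hm : MonotoneOn (fun t => ε * dt n w * Real.cos t + ip n w * Real.sin t + b * t)
      (Icc 0 φ) := by
    refine monotoneOn_of_deriv_nonneg (convex_Icc 0 φ)
      (fun t _ => (hd t).continuousAt.continuousWithinAt)
      (fun t _ => (hd t).differentiableAt.differentiableWithinAt) fun t ht => ?_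
    rw [interior_Icc] at ht
    rw [(hd t).deriv]
    linarith [h t ht]
  have h2 := hm ⟨le_rfl, ht.1.trans ht.2⟩ ht ht.1
  simp only [Real.cos_zero, Real.sin_zero, mul_one, mul_zero, add_zero] at h2
  rw [pw_rot_dt n w hε]
  linarith

theorem pw_exit {n w : ℂ} {ε β R : ℝ} (hε : ε * ε = 1) (hn : ‖n‖ = 1) (hw : ‖w‖ = R) (hR : 0 < R)
    (hβ : β ≤ 1 / 2) : ∃ t ∈ Icc (0 : ℝ) 8, ip n (w * pwRot ε t) < -(β * R) := by
  by_contra hc
  push Not at hc
  have hp := Real.pi_pos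
  have hp4 := Real.pi_le_four
  have h1 := hc 0 ⟨le_rfl, by norm_num⟩
  have h2 := hc (Real.pi / 2) ⟨by linarith, by linarith⟩
  have h3 := hc Real.pi ⟨by linarith, by linarith⟩
  have h4 := hc (Real.pi / 2 + Real.pi) ⟨by linarith, by linarith⟩
  rw [pw_rot_ip] at h1 h2 h3 h4
  simp only [Real.cos_zero, Real.sin_zero, Real.cos_pi_div_two, Real.sin_pi_div_two, Real.cos_pi,
    Real.sin_pi, Real.cos_add_pi, Real.sin_add_pi] at h1 h2 h3 h4
  have h5 := pw_lag n w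
  rw [hn, hw, one_mul] at h5
  have h6 : β * R ≤ R / 2 := by nlinarith
  have h7 : ip n w ^ 2 ≤ (R / 2) ^ 2 := sq_le_sq' (by linarith) (by linarith)
  have h8 : (ε * dt n w) ^ 2 ≤ (R / 2) ^ 2 := sq_le_sq' (by linarith) (by linarith)
  have h9 : (ε * dt n w) ^ 2 = dt n w ^ 2 := by linear_combination dt n w ^ 2 * hε
  nlinarith

theorem pathW (n : ℕ) {θ : ℝ} (hθ : 0 < θ) : ∃ θ' β : ℝ, 0 < θ' ∧ θ' ≤ θ ∧ 0 < β ∧
    ∀ (n₁ n₂ : ℂ) (bb : Bool) (y₀ : ℂ) (R : ℝ), ‖n₁‖ = 1 → ‖n₂‖ = 1 → ‖n₁ - n₂‖ ≤ β → 0 < R →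
      ∀ k, k ≤ n → ∀ p : Fin k → ℂ, Function.Injective p →
      (∀ i, p i ∈ Metric.sphere y₀ R ∧ p i ∈ Wedge n₁ n₂ bb y₀) →
      (∀ π : Fin k → Fin k, Function.Involutive π →
        (∑ i, pv y₀ n₁ (p i) (p (π i))) / 2 + θ * R < k * R) →
      ∃ q : ℝ → Fin k → ℂ, ContinuousOn q (Icc 0 1) ∧ q 0 = p ∧
        (∀ s ∈ Icc (0 : ℝ) 1, (∀ i, q s i ∈ Metric.sphere y₀ R) ∧
          ∀ π : Fin k → Fin k, Function.Involutive π →
            (∑ i, pv y₀ n₁ (q s i) (q s (π i))) / 2 + θ' * R < k * R) ∧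
        (∀ s ∈ Ico (0 : ℝ) 1, Function.Injective (q s) ∧ ∀ i, q s i ∈ Wedge n₁ n₂ bb y₀) ∧
        ((∃ i, q 1 i ∉ Wedge n₁ n₂ bb y₀) ∨ ¬ Function.Injective (q 1)) := by
  obtain ⟨η, hη0, hη1, hηθ⟩ : ∃ η : ℝ, 0 < η ∧ η ≤ 1 ∧ (n + 1) * η ≤ θ := by
    refine ⟨min 1 (θ / (n + 1)), by positivity, min_le_left _ _, ?_⟩
    have h1 := min_le_right 1 (θ / (n + 1))
    rw [le_div_iff₀ (by positivity)] at h1
    linarith
  have hn0 : (0 : ℝ) ≤ n := Nat.cast_nonneg n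
  refine ⟨η ^ 2 / 64, η / 32, by positivity, by nlinarith, by positivity, ?_⟩
  intro n₁ n₂ bb y₀ R hn₁ _ hβ hR k hk p hi hp hgap
  have hkn : (k : ℝ) ≤ n := Nat.cast_le.2 hk
  rcases pw_pair (fun i => dt n₁ (p i - y₀)) (η * R) with ⟨π, hπ, h⟩ | ⟨ε, hε', A, B, hAB, h⟩
  · exfalso
    have h1 : ∑ _i : Fin k, R * (2 - η) ≤ ∑ i, pv y₀ n₁ (p i) (p (π i)) :=
      Finset.sum_le_sum fun i _ => pw_ge hR hn₁ (hp i).1 (hp _).1 hη0.le hη1 (h i)
    rw [Finset.sum_const, Finset.card_univ, Fintype.card_fin, nsmul_eq_mul] at h1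
    have h2 := hgap π hπ
    have h3 : k * η ≤ θ := by nlinarith
    have h4 : k * η * R ≤ θ * R := mul_le_mul_of_nonneg_right h3 hR.le
    have h5 : 0 < θ * R := by positivity
    nlinarith
  have hε : ε * ε = 1 := by rcases hε' with rfl | rfl <;> norm_num
  have hεa : |ε| = 1 := by rcases hε' with rfl | rfl <;> norm_num
  have hw : ∀ i, ‖p i - y₀‖ = R := fun i => by
    rw [← dist_eq_norm, Metric.mem_sphere.1 (hp i).1]
  set r : ℝ → Fin k → ℂ := fun t i => y₀ + (p i - y₀) * pwRot ε t with hr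
  have hrs : ∀ t i, r t i - y₀ = (p i - y₀) * pwRot ε t := fun t i => by simp [hr]
  have hsph : ∀ t i, r t i ∈ Metric.sphere y₀ R := fun t i => by
    rw [Metric.mem_sphere, dist_eq_norm, hrs, norm_mul, hw, pw_rot_norm hε, mul_one]
  have hrc : ∀ i, Continuous fun t => r t i := fun i =>
    continuous_const.add (continuous_const.mul (pw_rot_cont ε))
  have hr0 : r 0 = p := by
    funext i
    simp [hr, pw_rot_zero]
  have hK : IsCompact (Icc (0 : ℝ) 8 ∩ ⋃ i, (fun t => r t i) ⁻¹' (Wedge n₁ n₂ bb y₀)ᶜ) :=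
    isCompact_Icc.inter_right (isClosed_iUnion_of_finite fun i =>
      (pw_open n₁ n₂ bb y₀).isClosed_compl.preimage (hrc i))
  obtain ⟨a₀, -, -⟩ := pw_hole hAB (π := id) fun _ => rfl
  have hne : (Icc (0 : ℝ) 8 ∩ ⋃ i, (fun t => r t i) ⁻¹' (Wedge n₁ n₂ bb y₀)ᶜ).Nonempty := by
    obtain ⟨t, ht, h1⟩ := pw_exit (β := η / 32) hε hn₁ (hw a₀) hR (by linarith)
    refine ⟨t, ht, mem_iUnion.2 ⟨a₀, fun h2 => ?_⟩⟩
    have h3 := pw_ip hβ (hsph t a₀) h2
    rw [hrs] at h3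
    linarith
  obtain ⟨φ, ⟨hφ, hφK⟩, hmin⟩ := hK.exists_isLeast hne
  obtain ⟨i₀, hi₀⟩ := mem_iUnion.1 hφK
  have hφ0 : 0 < φ := by
    refine lt_of_le_of_ne hφ.1 fun h0 => hi₀ ?_
    change r φ i₀ ∈ _
    rw [← h0, hr0]
    exact (hp i₀).2
  have hin : ∀ t, 0 ≤ t → t < φ → ∀ i, r t i ∈ Wedge n₁ n₂ bb y₀ := by
    intro t h0 h1 i
    by_contra hc
    have := hmin ⟨⟨h0, h1.le.trans hφ.2⟩, mem_iUnion.2 ⟨i, hc⟩⟩
    linarith
  have hlow : ∀ t ∈ Icc 0 φ, ∀ i,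
      ε * dt n₁ (p i - y₀) - η * R / 4 ≤ ε * dt n₁ (r t i - y₀) := by
    intro t ht i
    have h1 := pw_mono n₁ (p i - y₀) (b := η / 32 * R) (φ := φ) hε (fun u hu => by
      have := pw_ip hβ (hsph u i) (hin u hu.1.le hu.2 i)
      rwa [hrs] at this) ht
    rw [hrs]
    have h2 : η / 32 * R * t ≤ η / 32 * R * 8 :=
      mul_le_mul_of_nonneg_left (ht.2.trans hφ.2) (by positivity)
    linarith
  refine ⟨fun s => r (s * φ), ?_, by simp [hr0], ?_, ?_, Or.inl ⟨i₀, by simpa using hi₀⟩⟩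
  · exact (continuous_pi fun i => (hrc i).comp (continuous_id.mul continuous_const)).continuousOn
  · intro s hs
    refine ⟨hsph _, fun π hπ => ?_⟩
    have ht : s * φ ∈ Icc 0 φ := ⟨mul_nonneg hs.1 hφ0.le, by nlinarith [hs.2]⟩
    beta_reduce
    generalize s * φ = t at ht
    obtain ⟨a, ha, hb⟩ := pw_hole hAB hπ
    have h1 := h a ha _ hb
    have h2 := hlow t ht a
    have h3 := hlow t ht (π a)
    have h4 : η / 2 * R ≤ |dt n₁ (r t a - y₀) + dt n₁ (r t (π a) - y₀)| := by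
      have h5 := le_abs_self (ε * (dt n₁ (r t a - y₀) + dt n₁ (r t (π a) - y₀)))
      rw [abs_mul, hεa, one_mul] at h5
      linarith
    have h5 := pw_le hR hn₁ (hsph t a) (hsph t (π a)) (by positivity) (by linarith) h4
    have h6 : ∀ i, pv y₀ n₁ (r t i) (r t (π i)) ≤ 2 * R := fun i => by
      have := pw_le (c := 0) hR hn₁ (hsph t i) (hsph t (π i)) le_rfl zero_le_one (by simp)
      linarith
    have h7 : 2 * R - pv y₀ n₁ (r t a) (r t (π a)) ≤
        ∑ i, (2 * R - pv y₀ n₁ (r t i) (r t (π i))) :=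
      Finset.single_le_sum (f := fun i => 2 * R - pv y₀ n₁ (r t i) (r t (π i)))
        (fun i _ => sub_nonneg.2 (h6 i)) (Finset.mem_univ a)
    rw [Finset.sum_sub_distrib, Finset.sum_const, Finset.card_univ, Fintype.card_fin,
      nsmul_eq_mul] at h7
    have h8 : 0 < η ^ 2 * R := by positivity
    nlinarith
  · intro s hs
    refine ⟨fun i j hij => hi ?_, hin _ (mul_nonneg hs.1 hφ0.le) (by nlinarith [hs.2])⟩
    have h1 : pwRot ε (s * φ) ≠ 0 := norm_ne_zero_iff.1 (by rw [pw_rot_norm hε]; norm_num)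
    have h2 : (p i - y₀) * pwRot ε (s * φ) = (p j - y₀) * pwRot ε (s * φ) := by
      rw [← hrs, ← hrs]
      exact congrArg (· - y₀) hij
    have h3 := mul_right_cancel₀ h1 h2
    exact sub_left_injective h3

end Pool.Agent.MP_20201c_gt.H91
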