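import Pool.Agent.MP_20201c_gt.H91.LLB
import Pool.Agent.MP_20201c_gt.H91.PathW

/-! The local lemma at a wide wedge. -/

open MeasureTheory Set Filter Topology
open scoped ENNReal

namespace Pool.Agent.MP_20201c_gt.H91

namespace LLWA

/-- The statement of the local lemma for given constants. -/
def LW (n N : ℕ) (θ β : ℝ) : Prop :=
  ∀ (n₁ n₂ : ℂ) (bb : Bool) (y : ℂ) (R : ℝ), ‖n₁‖ = 1 → ‖n₂‖ = 1 → ‖n₁ - n₂‖ ≤ β → 0 < R →
    ∀ k, k ≤ n → ∀ p : Fin k → ℂ, (∀ i, p i ∈ Metric.sphere y R) → ∀ a,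
      (∀ π : Fin k → Fin k, Function.Involutive π →
        (∑ i, pv y n₁ (p i) (p (π i))) / 2 + θ * R ≤ a) →
      Acyc N (Wedge n₁ n₂ bb y) (cb y R) (ind p) a

theorem pv_nonneg (y n p q : ℂ) : 0 ≤ pv y n p q := Real.sqrt_nonneg _

theorem pv_cont (y n : ℂ) : Continuous fun x : ℂ × ℂ => pv y n x.1 x.2 := by
  unfold pv dt ip
  fun_prop

theorem sum_sph {y : ℂ} {R : ℝ} {k : ℕ} {p : Fin k → ℂ} (hp : ∀ i, p i ∈ Metric.sphere y R) :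
    ∑ i, ‖p i - y‖ = k * R := by
  rw [Finset.sum_congr rfl fun i _ => mem_sphere_iff_norm.1 (hp i)]
  simp

theorem lw_cone (N : ℕ) (n₁ n₂ : ℂ) (bb : Bool) {y : ℂ} {R : ℝ} (hR : 0 < R) {k : ℕ}
    {p : Fin k → ℂ} (hp : ∀ i, p i ∈ Metric.sphere y R) :
    Acyc N (Wedge n₁ n₂ bb y) (cb y R) (ind p) (∑ i, ‖p i - y‖) :=
  acyc_cone N (convex_closedBall y R) p (fun i => Metric.sphere_subset_closedBall (hp i))
    (wedge_adm n₁ n₂ bb y hR.le).1 fun h => absurd h (wedge_adm n₁ n₂ bb y hR.le).2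

theorem lw_red {n N : ℕ} {θ β : ℝ} (H : LW n N θ β) {n₁ n₂ : ℂ} {bb : Bool} {y : ℂ} {R : ℝ}
    (h1 : ‖n₁‖ = 1) (h2 : ‖n₂‖ = 1) (hβ : ‖n₁ - n₂‖ ≤ β) (hR : 0 < R) {k : ℕ} (hk : k ≤ n + 1)
    {p : Fin k → ℂ} (hp : ∀ i, p i ∈ Metric.sphere y R)
    (hr : (∃ i, p i ∉ Wedge n₁ n₂ bb y) ∨ ¬ Function.Injective p) (a : ℝ)
    (ha : ∀ π : Fin k → Fin k, Function.Involutive π →
      (∑ i, pv y n₁ (p i) (p (π i))) / 2 + θ * R ≤ a) :
    Acyc N (Wedge n₁ n₂ bb y) (cb y R) (ind p) a := by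
  have key : ∀ (k' : ℕ) (e : Fin k' → Fin k), k' ≤ n →
      (∀ π' : Fin k' → Fin k', Function.Involutive π' → ∃ π : Fin k → Fin k,
        Function.Involutive π ∧ ∀ f : ℂ → ℂ → ℝ, (∀ x y, 0 ≤ f x y) →
          ∑ i, f (p (e i)) (p (e (π' i))) ≤ ∑ i, f (p i) (p (π i))) →
      Acyc N (Wedge n₁ n₂ bb y) (cb y R) (ind (p ∘ e)) a := by
    intro k' e hk' hπ
    refine H n₁ n₂ bb y R h1 h2 hβ hR k' hk' (p ∘ e) (fun i => hp (e i)) a fun π' hπ' => ?_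
    obtain ⟨π, hi, hf⟩ := hπ π' hπ'
    have a1 := hf (pv y n₁) (pv_nonneg y n₁)
    have a2 := ha π hi
    simp only [Function.comp_apply]
    linarith
  rcases hr with ⟨j, hj⟩ | hr
  · obtain ⟨k', e, hk', hind, hπ⟩ := red_one p j
    refine (key k' e (by omega) hπ).congr (fun _ _ => Iff.rfl) fun z _ hz => hind z ?_
    rintro rfl
    exact hj hz
  · obtain ⟨k', e, hk', hind, hπ⟩ := red_pair p hr
    have := key k' e (by omega) hπ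
    rwa [hind] at this

theorem lw_ob {n N : ℕ} {θ β : ℝ} (hθ : 0 ≤ θ) (H : LW n N θ β) {n₁ n₂ : ℂ} {bb : Bool} {y : ℂ}
    (h1 : ‖n₁‖ = 1) (h2 : ‖n₂‖ = 1) (hβ : ‖n₁ - n₂‖ ≤ β) {ν : ℂ → ℂ × ℂ}
    (hc : Conic (Wedge n₁ n₂ bb y) ν) (hν : WNu n₁ n₂ bb y ν) {DB : ℂ → Set ℕ}
    (hD : ∀ d ∈ DB y, d ≤ n) : OB N (Wedge n₁ n₂ bb y) ν DB θ := by
  intro z hz
  by_cases hzy : z = y
  · subst hzy
    refine ⟨1, one_pos, fun R hR d hd p hp a ha => ?_⟩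
    rw [hν.1] at ha
    exact H n₁ n₂ bb z R h1 h2 hβ hR.1 d (hD d hd) p hp a ha
  · obtain ⟨g1, -, -, r, hr, b, hb⟩ := hc.2 z hz
    have e : (ν z).2 = (ν z).1 := by
      rcases (hν.2 z hz hzy).1 with h | h <;> rw [h]
    refine ⟨r, hr, fun R hR d _ p hp a ha => ?_⟩
    have h0 : 0 ≤ θ * R := mul_nonneg hθ hR.1.le
    have hA := llb N g1 z hR.1 p hp a fun π hπ => by linarith [ha π hπ]
    refine hA.congr (fun w hw => ?_) fun _ _ _ => rfl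
    rw [hb w (Metric.closedBall_subset_ball hR.2 hw), e, wedge_self]

theorem lw_setup {n₁ n₂ : ℂ} {bb : Bool} {y : ℂ} {R : ℝ} (hR : 0 < R) {ν : ℂ → ℂ × ℂ}
    (hc : Conic (Wedge n₁ n₂ bb y) ν) (hν : WNu n₁ n₂ bb y ν) {k : ℕ} {p : Fin k → ℂ}
    (hi : Function.Injective p)
    (hp : ∀ i, p i ∈ Metric.sphere y R ∧ p i ∈ Wedge n₁ n₂ bb y) :
    Setup (Wedge n₁ n₂ bb y) ν y R p := by
  refine ⟨hR, hc, hi, hp, fun z hz hf => ?_⟩
  have hzy : z ≠ y := by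
    rintro rfl
    rw [Metric.mem_sphere, dist_self] at hz
    exact hR.ne hz
  obtain ⟨h, h0⟩ := hν.2 z hf hzy
  have e : (ν z).2 = (ν z).1 := by
    rcases h with h | h <;> rw [h]
  have h1 : ip (ν z).1 (y - z) ≤ 0 := by
    simp only [ip, Complex.sub_re, Complex.sub_im] at h0 ⊢
    linarith
  rw [e]
  exact ⟨h1, h1⟩

theorem lw_all (n : ℕ) : ∀ (N : ℕ) (θ : ℝ), 0 < θ → ∃ β : ℝ, 0 < β ∧ LW n N θ β := by
  induction n with
  | zero =>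
    intro N θ hθ
    refine ⟨1, one_pos, fun n₁ n₂ bb y R _ _ _ hR k hk p hp a ha => ?_⟩
    obtain rfl : k = 0 := by omega
    refine (lw_cone N n₁ n₂ bb hR hp).mono le_rfl ?_
    have a1 := ha id fun _ => rfl
    have a2 : 0 < θ * R := mul_pos hθ hR
    simp only [Finset.univ_eq_empty, Finset.sum_empty] at a1 ⊢
    linarith
  | succ n ih =>
    intro N θ hθ
    obtain ⟨θ', b1, hθ', hle, hb1, hP⟩ := pathW (n + 1) hθ
    obtain ⟨η, b2, hη, hb2, hN⟩ := ncW (n + 1) (2 ^ (N + 1)) hθ'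
    obtain ⟨b3, hb3, H3⟩ := ih (N + 1) (η ^ 2 / 8) (by positivity)
    obtain ⟨b4, hb4, H4⟩ := ih N θ' hθ'
    obtain ⟨b5, hb5, H5⟩ := ih N θ hθ
    refine ⟨min (min (min b1 b2) (min b3 b4)) (min b5 (1 / 10)), by positivity, ?_⟩
    intro n₁ n₂ bb y R h1 h2 hβ hR k hk p hp a ha
    simp only [le_min_iff] at hβ
    obtain ⟨⟨⟨c1, c2⟩, c3, c4⟩, c5, c6⟩ := hβ
    by_cases hr : (∃ i, p i ∉ Wedge n₁ n₂ bb y) ∨ ¬ Function.Injective p
    · exact lw_red H5 h1 h2 c5 hR hk hp hr a ha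
    rw [not_or, not_not, not_exists] at hr
    obtain ⟨hW, hi⟩ := hr
    by_cases hg : ∀ π : Fin k → Fin k, Function.Involutive π →
        (∑ i, pv y n₁ (p i) (p (π i))) / 2 + θ * R < k * R
    swap
    · push Not at hg
      obtain ⟨π, hπ, hg⟩ := hg
      refine (lw_cone N n₁ n₂ bb hR hp).mono le_rfl ?_
      rw [sum_sph hp]
      exact hg.trans (ha π hπ)
    obtain ⟨q, hq, hq0, hqs, hqi, hq1⟩ := hP n₁ n₂ bb y R h1 h2 c1 hR k hk p hi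
      (fun i => ⟨hp i, not_not.1 (hW i)⟩) hg
    obtain ⟨ν, hc, hν⟩ := wedge_conic h1 h2 c6 bb y
    subst hq0
    have m0 : (0 : ℝ) ∈ Icc (0 : ℝ) 1 := ⟨le_rfl, zero_le_one⟩
    have m1 : (1 : ℝ) ∈ Icc (0 : ℝ) 1 := ⟨zero_le_one, le_rfl⟩
    refine cont_gap (convex_closedBall y R) (isCompact_closedBall y R) hq
      (fun s hs i => Metric.sphere_subset_closedBall ((hqs s hs).1 i)) (pv_cont y n₁)
      (D := {y}) isCompact_singleton (singleton_nonempty y) (θ' * R) ?_ ?_ ?_ ?_ a ?_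
    · intro s hs π hπ o ho
      rw [mem_singleton_iff.1 ho, sum_sph (hqs s hs).1]
      exact (hqs s hs).2 π hπ
    · intro s hs c hc1 hc2
      have hs' : s ∈ Icc (0 : ℝ) 1 := Ico_subset_Icc_self hs
      have hm : ∀ i, q s i ∈ Metric.sphere y R ∧ q s i ∈ Wedge n₁ n₂ bb y :=
        fun i => ⟨(hqs s hs').1 i, (hqi s hs).2 i⟩
      have hN' := hN n₁ n₂ bb y R ν h1 h2 c2 hν k hk (q s) (hqi s hs).1 hm hR c
      refine (crit (lw_setup hR hc hν (hqi s hs).1 hm) (2 ^ (N + 1)) hη.le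
        (oi_all (N + 1) hc.1)
        (lw_ob (by positivity) H3 h1 h2 c3 hc hν ?_) c).resolve_right
        fun ⟨m, a', b', hn⟩ => (hN' m a' b' hn).elim ?_ ?_
      · intro d hd
        rw [if_pos rfl] at hd
        have : d < k := hd
        omega
      · rintro ⟨π, hπ, h⟩
        exact absurd (hc1 π hπ) (not_lt.2 h)
      · intro h
        have := hc2 y rfl
        rw [sum_sph (hqs s hs').1] at this
        exact absurd this (not_lt.2 h)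
    · exact lw_red H4 h1 h2 c4 hR hk (hqs 1 m1).1 hq1
    · intro o ho
      rw [mem_singleton_iff.1 ho]
      exact lw_cone N n₁ n₂ bb hR hp
    · intro π hπ
      have a1 := ha π hπ
      have a2 : θ' * R ≤ θ * R := mul_le_mul_of_nonneg_right hle hR.le
      linarith

end LLWA

theorem llw (n N : ℕ) {θ : ℝ} (hθ : 0 < θ) : ∃ β : ℝ, 0 < β ∧
    ∀ (n₁ n₂ : ℂ) (bb : Bool) (y : ℂ) (R : ℝ), ‖n₁‖ = 1 → ‖n₂‖ = 1 → ‖n₁ - n₂‖ ≤ β → 0 < R →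
      ∀ k, k ≤ n → ∀ p : Fin k → ℂ, (∀ i, p i ∈ Metric.sphere y R) → ∀ a,
        (∀ π : Fin k → Fin k, Function.Involutive π →
          (∑ i, pv y n₁ (p i) (p (π i))) / 2 + θ * R ≤ a) →
        Acyc N (Wedge n₁ n₂ bb y) (cb y R) (ind p) a := LLWA.lw_all n N θ hθ

theorem ob_all (n N : ℕ) {θ : ℝ} (hθ : 0 < θ) : ∃ β : ℝ, 0 < β ∧
    ∀ (G : Set ℂ) (ν : ℂ → ℂ × ℂ), Conic G ν →
      (∀ y ∈ frontier G, ‖(ν y).1 - (ν y).2‖ ≤ β) → OB N G ν (fun _ => {d | d ≤ n}) θ := by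
  obtain ⟨β, hβ, H⟩ := llw n N hθ
  refine ⟨β, hβ, fun G ν hG hν y hy => ?_⟩
  obtain ⟨h1, h2, -, r, hr, b, hb⟩ := hG.2 y hy
  refine ⟨r, hr, fun R hR d hd p hp a ha => ?_⟩
  exact (H _ _ b y R h1 h2 (hν y hy) hR.1 d hd p hp a ha).congr
    (fun z hz => (hb z (Metric.closedBall_subset_ball hR.2 hz)).symm) fun _ _ _ => rfl

end Pool.Agent.MP_20201c_gt.H91
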