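import Pool.Agent.MP_20201c_gt.H91.KitM4

/-! Moves of polygonal measures that never raise the mass. -/

open MeasureTheory Set Filter Topology
open scoped ENNReal

namespace Pool.Agent.MP_20201c_gt.H91

variable {G W : Set ℂ}

theorem Poly.real_addI {W' : Set ℂ} {μ ν : Ms} (h : Poly W μ) (h' : Poly W' ν) :
    (μ + ν).real univ = μ.real univ + ν.real univ := by
  haveI := h.finite
  haveI := h'.finite
  exact measureReal_add_apply

theorem Step.congrI {β β' : ℂ → F2} {t : ℝ} {T T' : Ms} (hβ : ∀ z ∈ W, z ∈ G → β z = β' z)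
    (h : Step G W β t T T') : Step G W β' t T T' := by
  obtain ⟨u, hu, h0, h1, h2⟩ := h
  exact ⟨u, hu, h0, h1, fun τ => ⟨fun z hz hg => ((h2 τ).1 z hz hg).trans (hβ z hz hg), (h2 τ).2⟩⟩

theorem Step.add_leftI {β β' : ℂ → F2} {t : ℝ} {S U U' : Ms} (hS : Poly W S)
    (hβ : ∀ z ∈ W, z ∈ G → β z = bdy S z + β' z) (h : Step G W β' t U U') :
    Step G W β (S.real univ + t) (S + U) (S + U') := by
  obtain ⟨u, hu, h0, h1, h2⟩ := h
  refine ⟨fun τ => S + u τ, (Fam.const hS).add hu, by simp only [h0], by simp only [h1],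
    fun τ => ⟨fun z hz hg => ?_, ?_⟩⟩
  · rw [bdy_add hS (hu.poly τ), (h2 τ).1 z hz hg, hβ z hz hg]
  · rw [hS.real_addI (hu.poly τ)]
    linarith [(h2 τ).2]

/-- A move without barrier. -/
def MvI (G W : Set ℂ) (T T' : Ms) : Prop :=
  Poly W T' ∧ Par G W (bdy T) T' ∧ T'.real univ ≤ T.real univ ∧
    ∀ t, T.real univ < t → Relation.ReflTransGen (Step G W (bdy T) t) T T'

theorem MvI.refl {T : Ms} (h : Poly W T) : MvI G W T T :=
  ⟨h, fun _ _ _ => rfl, le_rfl, fun _ _ => Relation.ReflTransGen.refl⟩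

theorem MvI.trans {T T' T'' : Ms} (h : MvI G W T T') (h' : MvI G W T' T'') : MvI G W T T'' := by
  refine ⟨h'.1, fun z hz hg => (h'.2.1 z hz hg).trans (h.2.1 z hz hg), h'.2.2.1.trans h.2.2.1,
    fun t ht => (h.2.2.2 t ht).trans ?_⟩
  exact Relation.ReflTransGen.mono (fun _ _ hs => Step.congrI h.2.1 hs) _ _
    (h'.2.2.2 t (h.2.2.1.trans_lt ht))

theorem MvI.add_left {S U U' : Ms} (hS : Poly W S) (hU : Poly W U) (h : MvI G W U U') :
    MvI G W (S + U) (S + U') := by
  refine ⟨hS.add h.1, fun z hz hg => ?_, ?_, fun t ht => ?_⟩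
  · rw [bdy_add hS h.1, bdy_add hS hU, h.2.1 z hz hg]
  · rw [hS.real_addI h.1, hS.real_addI hU]
    linarith [h.2.2.1]
  · rw [hS.real_addI hU] at ht
    have h1 := h.2.2.2 (t - S.real univ) (by linarith)
    have h2 : t = S.real univ + (t - S.real univ) := by ring
    rw [h2]
    exact h1.lift (fun V => S + V) fun _ _ hs =>
      hs.add_leftI hS fun z _ _ => bdy_add hS hU z

theorem MvI.add_right {S U U' : Ms} (hS : Poly W S) (hU : Poly W U) (h : MvI G W U U') :
    MvI G W (U + S) (U' + S) := by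
  rw [add_comm U, add_comm U']
  exact h.add_left hS hU

theorem mvI_of_path {u : ℝ → Ms} (hu : Fam W u) (hp : ∀ τ, Par G W (bdy (u 0)) (u τ))
    (hm : ∀ τ, (u τ).real univ ≤ (u 0).real univ) : MvI G W (u 0) (u 1) :=
  ⟨hu.poly 1, hp 1, hm 1, fun _ ht =>
    Relation.ReflTransGen.single ⟨u, hu, rfl, rfl, fun τ => ⟨hp τ, (hm τ).trans_lt ht⟩⟩⟩

/-- Clamping to the unit interval. -/
noncomputable def clI (τ : ℝ) : ℝ := max 0 (min 1 τ)

theorem clI_nonneg (τ : ℝ) : 0 ≤ clI τ := le_max_left _ _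

theorem clI_le (τ : ℝ) : clI τ ≤ 1 := max_le zero_le_one (min_le_left _ _)

/-- The clamped straight path. -/
noncomputable def ptI (x y : ℂ) (τ : ℝ) : ℂ := x + clI τ • (y - x)

theorem ptI_zero (x y : ℂ) : ptI x y 0 = x := by simp [ptI, clI]

theorem ptI_one (x y : ℂ) : ptI x y 1 = y := by simp [ptI, clI]

theorem ptI_mem (x y : ℂ) (τ : ℝ) : ptI x y τ ∈ segment ℝ x y := by
  rw [segment_eq_image']
  exact ⟨clI τ, ⟨clI_nonneg τ, clI_le τ⟩, rfl⟩

theorem ptI_cont (x y : ℂ) : Continuous (ptI x y) := by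
  unfold ptI clI
  fun_prop

theorem norm_combI (p q : ℂ) {c : ℝ} (h0 : 0 ≤ c) (h1 : c ≤ 1) :
    ‖(1 - c) • p + c • q‖ ≤ (1 - c) * ‖p‖ + c * ‖q‖ := by
  refine (norm_add_le _ _).trans ?_
  rw [norm_smul, norm_smul, Real.norm_of_nonneg h0, Real.norm_of_nonneg (by linarith)]

theorem mvI_merge (hW : Convex ℝ W) {a z b : ℂ} (ha : a ∈ W) (hz : z ∈ W) (hb : b ∈ W) :
    MvI G W (sg a z + sg z b) (sg a b) := by
  have hm : ∀ τ, ptI z a τ ∈ W := fun τ => hW.segment_subset hz ha (ptI_mem z a τ)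
  have hb' : ∀ x ∈ W, ∀ w, bdy (sg a x + sg x b) w = bdy (sg a b) w := by
    intro x hx w
    rw [bdy_add (Poly.sg ha hx) (Poly.sg hx hb), bdy_sg, bdy_sg, bdy_sg, add_assoc,
      ← add_assoc (ite (x = w) _ _), f2_add_self, zero_add]
  have h := mvI_of_path (G := G) (W := W) (u := fun τ => sg a (ptI z a τ) + sg (ptI z a τ) b)
    ((Fam.sg continuous_const (ptI_cont z a) fun τ => ⟨ha, hm τ⟩).add
      (Fam.sg (ptI_cont z a) continuous_const fun τ => ⟨hm τ, hb⟩))
    (fun τ w _ _ => by rw [hb' _ (hm τ), hb' _ (hm 0)])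
    (fun τ => by
      rw [(Poly.sg ha (hm τ)).real_addI (Poly.sg (hm τ) hb),
        (Poly.sg ha (hm 0)).real_addI (Poly.sg (hm 0) hb)]
      simp only [sg_real_univ, ptI_zero]
      have e1 : ptI z a τ - a = (1 - clI τ) • (z - a) := by
        simp only [ptI, Complex.real_smul]; push_cast; ring
      have e2 : b - ptI z a τ = (b - z) + clI τ • (z - a) := by
        simp only [ptI, Complex.real_smul]; ring
      have h1 := norm_add_le (b - z) (clI τ • (z - a))
      rw [e1, e2, norm_smul, Real.norm_of_nonneg (by linarith [clI_le τ])]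
      rw [norm_smul, Real.norm_of_nonneg (clI_nonneg τ)] at h1
      linarith)
  simpa only [ptI_zero, ptI_one, sg_self, zero_add] using h

theorem mvI_slide (hW : Convex ℝ W) {a b o : ℂ} (ha : a ∈ W) (hb : b ∈ W) (hg : b ∉ G)
    (ho : Adm G W o) (hl : ‖o - a‖ ≤ ‖b - a‖) : MvI G W (sg a b) (sg a o) := by
  have hm : ∀ τ, ptI b o τ ∈ W := fun τ => hW.segment_subset hb ho.1 (ptI_mem b o τ)
  have hn : ∀ τ, ptI b o τ ∉ G := fun τ =>
    ho.2 b hb hg _ (by rw [segment_symm]; exact ptI_mem b o τ)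
  have h := mvI_of_path (G := G) (W := W) (u := fun τ => sg a (ptI b o τ))
    (Fam.sg continuous_const (ptI_cont b o) fun τ => ⟨ha, hm τ⟩)
    (fun τ w _ hw => by
      have h1 : ∀ σ, ptI b o σ ≠ w := fun σ e => hn σ (e ▸ hw)
      rw [bdy_sg, bdy_sg, if_neg (h1 τ), if_neg (h1 0)])
    (fun τ => by
      simp only [sg_real_univ, ptI_zero]
      have e1 : ptI b o τ - a = (1 - clI τ) • (b - a) + clI τ • (o - a) := by
        simp only [ptI, Complex.real_smul]; push_cast; ring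
      have h1 := norm_combI (b - a) (o - a) (clI_nonneg τ) (clI_le τ)
      have h2 := mul_le_mul_of_nonneg_left hl (clI_nonneg τ)
      rw [e1]
      linarith)
  simpa only [ptI_zero, ptI_one] using h

theorem mvI_shrink (hW : Convex ℝ W) {a b o : ℂ} (ha : a ∈ W) (hb : b ∈ W) (hag : a ∉ G)
    (hbg : b ∉ G) (ho : Adm G W o) : MvI G W (sg a b) 0 := by
  have hm : ∀ x ∈ W, ∀ τ, ptI x o τ ∈ W := fun x hx τ =>
    hW.segment_subset hx ho.1 (ptI_mem x o τ)
  have hn : ∀ x ∈ W, x ∉ G → ∀ τ, ptI x o τ ∉ G := fun x hx hg τ =>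
    ho.2 x hx hg _ (by rw [segment_symm]; exact ptI_mem x o τ)
  have h := mvI_of_path (G := G) (W := W) (u := fun τ => sg (ptI a o τ) (ptI b o τ))
    (Fam.sg (ptI_cont a o) (ptI_cont b o) fun τ => ⟨hm a ha τ, hm b hb τ⟩)
    (fun τ w _ hw => by
      have h1 : ∀ σ, ptI a o σ ≠ w := fun σ e => hn a ha hag σ (e ▸ hw)
      have h2 : ∀ σ, ptI b o σ ≠ w := fun σ e => hn b hb hbg σ (e ▸ hw)
      rw [bdy_sg, bdy_sg, if_neg (h1 τ), if_neg (h1 0), if_neg (h2 τ), if_neg (h2 0)])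
    (fun τ => by
      simp only [sg_real_univ, ptI_zero]
      have e1 : ptI b o τ - ptI a o τ = (1 - clI τ) • (b - a) := by
        simp only [ptI, Complex.real_smul]; push_cast; ring
      rw [e1, norm_smul, Real.norm_of_nonneg (by linarith [clI_le τ])]
      nlinarith [clI_nonneg τ, norm_nonneg (b - a)])
  simpa only [ptI_zero, ptI_one, sg_self] using h

/-- The measure of a multiset of segments. -/
noncomputable def msMI (M : Multiset (ℂ × ℂ)) : Ms := (M.map fun q => sg q.1 q.2).sum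

theorem msMI_cons (q : ℂ × ℂ) (M : Multiset (ℂ × ℂ)) : msMI (q ::ₘ M) = sg q.1 q.2 + msMI M := by
  simp [msMI]

theorem msMI_poly {M : Multiset (ℂ × ℂ)} (h : ∀ q ∈ M, q.1 ∈ W ∧ q.2 ∈ W) : Poly W (msMI M) := by
  induction M using Multiset.induction_on with
  | empty => simpa [msMI] using Poly.zero W
  | cons q M ih =>
    rw [msMI_cons]
    exact (Poly.sg (h q (by simp)).1 (h q (by simp)).2).add (ih fun r hr => h r (by simp [hr]))

theorem msMI_bdy {M : Multiset (ℂ × ℂ)} {z : ℂ} (h : ∀ q ∈ M, q.1 ≠ z ∧ q.2 ≠ z) :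
    bdy (msMI M) z = 0 := by
  induction M using Multiset.induction_on with
  | empty => simpa [msMI] using bdy_zero z
  | cons q M ih =>
    rw [msMI_cons, bdy_add (W := univ) (W' := univ) (Poly.sg trivial trivial)
      (msMI_poly fun _ _ => ⟨trivial, trivial⟩), ih fun r hr => h r (by simp [hr]), bdy_sg,
      if_neg (h q (by simp)).1, if_neg (h q (by simp)).2]
    simp

end Pool.Agent.MP_20201c_gt.H91
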