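import Pool.Agent.MP_20201c_gt.H91.Most
import Pool.Agent.MP_20201c_gt.H91.LemI

/-! Extraction of the limit measure. -/

open MeasureTheory Set Filter Topology
open scoped ENNReal

namespace Pool.Agent.MP_20201c_gt.H91

/-- A set of reals without `M` separated points is small. -/
theorem lx_sep {g : ℝ} (hg : 0 < g) (M : ℕ) : ∀ S : Set ℝ,
    (¬ ∃ R : Fin M → ℝ, (∀ i, R i ∈ S) ∧ ∀ i j, i ≠ j → g ≤ |R i - R j|) →
      volume S ≤ ENNReal.ofReal (M * (2 * g)) := by
  induction M with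
  | zero => exact fun S h => (h ⟨Fin.elim0, fun i => i.elim0, fun i => i.elim0⟩).elim
  | succ M ih =>
    intro S h
    rcases S.eq_empty_or_nonempty with rfl | ⟨x, hx⟩
    · simp
    have h1 := ih (S \ Ioo (x - g) (x + g)) (by
      rintro ⟨R, hR, hs⟩
      have hx' : ∀ i, g ≤ |x - R i| := fun i => by
        by_contra hc
        rw [not_le, abs_lt] at hc
        exact (hR i).2 ⟨by linarith [hc.2], by linarith [hc.1]⟩
      refine h ⟨Fin.cons x R, fun i => ?_, fun i j hij => ?_⟩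
      · induction i using Fin.cases with
        | zero => exact hx
        | succ i => exact (hR i).1
      · induction i using Fin.cases with
        | zero =>
          induction j using Fin.cases with
          | zero => exact absurd rfl hij
          | succ j => exact hx' j
        | succ i =>
          induction j using Fin.cases with
          | zero =>
            rw [abs_sub_comm]
            exact hx' i
          | succ j => exact hs i j fun e => hij (by rw [e]))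
    have h2 : S ⊆ (S \ Ioo (x - g) (x + g)) ∪ Ioo (x - g) (x + g) := fun z hz => by
      by_cases hc : z ∈ Ioo (x - g) (x + g)
      · exact Or.inr hc
      · exact Or.inl ⟨hz, hc⟩
    refine (measure_mono h2).trans ((measure_union_le _ _).trans ?_)
    refine (add_le_add_left h1 _).trans ?_
    rw [Real.volume_Ioo, ← ENNReal.ofReal_add (by positivity) (by linarith)]
    refine ENNReal.ofReal_le_ofReal (le_of_eq ?_)
    push_cast
    ring

/-- A set without `M` distinct points has fewer than `M` points. -/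
theorem lx_few (M : ℕ) : ∀ B : Set ℂ,
    (¬ ∃ y : Fin M → ℂ, (∀ i, y i ∈ B) ∧ Function.Injective y) →
      ∃ Y : Finset ℂ, Y.card < M ∧ ∀ y ∈ B, y ∈ Y := by
  classical
  induction M with
  | zero => exact fun B h => (h ⟨Fin.elim0, fun i => i.elim0, fun i => i.elim0⟩).elim
  | succ M ih =>
    intro B h
    rcases B.eq_empty_or_nonempty with rfl | ⟨x, hx⟩
    · exact ⟨∅, by simp, fun y hy => hy.elim⟩
    obtain ⟨Y, h1, h2⟩ := ih (B \ {x}) (by
      rintro ⟨y, hy, hi⟩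
      refine h ⟨Fin.cons x y, fun i => ?_, Fin.cons_injective_iff.2 ⟨?_, hi⟩⟩
      · induction i using Fin.cases with
        | zero => exact hx
        | succ i => exact (hy i).1
      · rintro ⟨i, e⟩
        exact (hy i).2 e)
    refine ⟨insert x Y, lt_of_le_of_lt (Finset.card_insert_le _ _) (by omega), fun y hy => ?_⟩
    by_cases e : y = x
    · exact Finset.mem_insert.2 (Or.inl e)
    · exact Finset.mem_insert.2 (Or.inr (h2 y ⟨hy, e⟩))

/-- Weak limits along an ultrafilter. -/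
theorem lx_lim (𝒰 : Ultrafilter ℕ) {W : Set ℂ} (hWc : IsCompact W) (hW : Convex ℝ W)
    {T : ℕ → Ms} (hT : ∀ n, Poly W (T n)) {C : ℝ} (hC : ∀ n, (T n).real univ ≤ C) :
    ∃ μ : Ms, Lim 𝒰 W T μ := by
  let F : ℕ → FiniteMeasure ℂ := fun n => ⟨T n, (hT n).finite⟩
  have hK := isCompact_setOfPred_finiteMeasure_le_of_isCompact (E := ℂ) C.toNNReal hWc
  have hF : ∀ n, F n ∈ {μ : FiniteMeasure ℂ | μ.mass ≤ C.toNNReal ∧ μ Wᶜ = 0} := fun n => by
    refine ⟨?_, (FiniteMeasure.null_iff_toMeasure_null _ _).2 ((hT n).compl_null hW)⟩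
    refine (Real.le_toNNReal_iff_coe_le (measureReal_nonneg.trans (hC n))).2 ?_
    exact hC n
  obtain ⟨μ, hμ, hl⟩ := hK.ultrafilter_le_nhds (𝒰.map F) (by
    rw [Ultrafilter.coe_map, le_principal_iff, mem_map]
    exact Eventually.of_forall hF)
  have h0 : (μ : Measure ℂ) Wᶜ = 0 := (FiniteMeasure.null_iff_toMeasure_null _ _).1 hμ.2
  refine ⟨μ, hWc, hW, hT, inferInstance, h0, fun f hf => ?_⟩
  obtain ⟨B, hB⟩ := hWc.exists_bound_of_continuousOn hf.continuousOn
  let f' : BoundedContinuousFunction ℂ ℝ := BoundedContinuousFunction.ofNormedAddCommGroup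
    (fun x => max (-|B|) (min |B| (f x))) (by fun_prop) |B| (fun x => by
      rw [Real.norm_eq_abs, abs_le]
      exact ⟨le_max_left _ _, max_le (by linarith [abs_nonneg B]) (min_le_left _ _)⟩)
  have hf' : ∀ ν : Ms, ν Wᶜ = 0 → ∫ x, f' x ∂ν = ∫ x, f x ∂ν := fun ν hν => by
    refine integral_congr_ae ?_
    filter_upwards [show ∀ᵐ x ∂ν, x ∈ W from hν] with x hx
    have h1 := abs_le.1 ((hB x hx).trans (le_abs_self B))
    change max (-|B|) (min |B| (f x)) = f x
    rw [min_eq_right h1.2, max_eq_right h1.1]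
  have h1 := FiniteMeasure.tendsto_iff_forall_integral_tendsto.1
    (show Tendsto F 𝒰 (𝓝 μ) from hl) f'
  rw [hf' _ h0] at h1
  exact h1.congr fun n => hf' _ ((hT n).compl_null hW)

theorem exists_limD {N M : ℕ} {G W : Set ℂ} (hWc : IsCompact W) (hW : Convex ℝ W) {β : ℂ → F2}
    {c : ℝ} (h : ¬ UC N M G W β c) :
    ∃ (𝒰 : Ultrafilter ℕ) (T : ℕ → Ms) (μ : Ms) (ρ₀ : ℝ) (Y : Finset ℂ),
      LimD N M G W β c 𝒰 T μ ρ₀ Y := by
  unfold UC at h
  simp only [not_forall, not_exists, not_and, not_or, exists_prop] at h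
  obtain ⟨ρ, hρ, h⟩ := h
  have hg0 : ∀ n : ℕ, (0 : ℝ) < 1 / ((n : ℝ) + 1) := fun n => by positivity
  choose T hT hP hc hA hB using fun n : ℕ => h (1 / ((n : ℝ) + 1)) (hg0 n)
  let 𝒰 : Ultrafilter ℕ := Ultrafilter.of atTop
  have hg : Tendsto (fun n : ℕ => 1 / ((n : ℝ) + 1)) 𝒰 (𝓝 0) :=
    tendsto_one_div_add_atTop_nhds_zero_nat.mono_left (Ultrafilter.of_le _)
  have hsm : ∀ ε : ℝ, 0 < ε → ∀ᶠ n : ℕ in 𝒰, 1 / ((n : ℝ) + 1) ≤ ε := fun ε hε =>
    hg.eventually (ge_mem_nhds hε)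
  obtain ⟨μ, hμ⟩ := lx_lim 𝒰 hWc hW hT (C := c + 1) fun n => by
    have h1 := (abs_lt.1 (hc n)).2
    have h2 : 1 / ((n : ℝ) + 1) ≤ 1 := by
      rw [div_le_one (by positivity)]
      linarith [(Nat.cast_nonneg n : (0 : ℝ) ≤ n)]
    linarith
  obtain ⟨Y, hY, hY'⟩ := lx_few M {y | y ∈ W ∧
      (∃ r, 0 < r ∧ ∀ R ∈ Ioo 0 r, Adm G (W ∩ cb y R) y) ∧
      ¬ ∃ σ, 0 < σ ∧ ∀ γ, 0 < γ → Most 𝒰 σ fun n R =>
        ¬ IP G (W ∩ cb y R) ((T n).restrict (cb y R)) (γ * R)} (by
    rintro ⟨y, hy, hi⟩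
    choose r hr hadm using fun i => (hy i).2.1
    have e1 : ∀ᶠ σ : ℝ in 𝓝[>] 0, ∀ i, σ < r i :=
      eventually_all.2 fun i => (gt_mem_nhds (hr i) : ∀ᶠ σ : ℝ in 𝓝 0, σ < r i).filter_mono
        nhdsWithin_le_nhds
    have e2 : ∀ᶠ σ : ℝ in 𝓝[>] 0, ∀ i j, i ≠ j → σ ≤ dist (y i) (y j) / 3 :=
      eventually_all.2 fun i => eventually_all.2 fun j => by
        by_cases e : i = j
        · exact Eventually.of_forall fun _ h => absurd e h
        · have : 0 < dist (y i) (y j) / 3 := by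
            have := dist_pos.2 (hi.ne e)
            positivity
          filter_upwards [(ge_mem_nhds this : ∀ᶠ σ : ℝ in 𝓝 0, σ ≤ _).filter_mono
            nhdsWithin_le_nhds] with σ h _ using h
    have e3 : ∀ᶠ σ : ℝ in 𝓝[>] 0, σ ≤ ρ :=
      (ge_mem_nhds hρ : ∀ᶠ σ : ℝ in 𝓝 0, σ ≤ ρ).filter_mono nhdsWithin_le_nhds
    obtain ⟨σ, ⟨k1, k2⟩, k3, k0⟩ := ((e1.and e2).and (e3.and self_mem_nhdsWithin)).exists
    have k0 : 0 < σ := k0
    have key : ∀ i, ∀ᶠ n : ℕ in 𝒰,
        IP G (W ∩ cb (y i) σ) ((T n).restrict (cb (y i) σ)) (1 / ((n : ℝ) + 1)) := fun i => by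
      have h1 := (hy i).2.2
      simp only [not_exists, not_and, not_forall, Most, exists_prop] at h1
      obtain ⟨γ, hγ, δ, hδ, h2⟩ := h1 σ k0
      filter_upwards [Ultrafilter.eventually_not.2 h2, hsm (γ * δ) (by positivity)] with n h3 h4
      by_contra h5
      refine h3 (le_trans (measure_mono (t := Ioc 0 δ) fun R hR => ⟨hR.1.1, ?_⟩) (by simp))
      by_contra h6
      refine h5 ((ip_mono hW (hT n) (hy i).1 hR.1.1 hR.1.2.le (not_not.1 hR.2)).mono_gain ?_)
      exact h4.trans (mul_le_mul_of_nonneg_left (not_le.1 h6).le hγ.le)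
    obtain ⟨n, h1, h2⟩ := ((eventually_all.2 key).and (hsm σ k0)).exists
    obtain ⟨i, j, hij, h3⟩ := hB n y (fun _ => σ) fun i =>
      ⟨(hy i).1, h2, k3, hadm i σ ⟨k0, k1 i⟩, h1 i⟩
    exact h3 (by linarith [k2 i j hij]))
  refine ⟨𝒰, T, μ, ρ, Y, hμ, hP, ?_, hρ, fun y hy γ hγ δ hδ => ?_, hY, fun y hy hy' ha => ?_⟩
  · have h1 : Tendsto (fun n => (T n).real univ) 𝒰 (𝓝 (μ.real univ)) := by
      simpa using hμ.conv (fun _ => 1) continuous_const
    refine tendsto_nhds_unique h1 (Metric.tendsto_nhds.2 fun ε hε => ?_)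
    filter_upwards [hsm ε hε] with n hn
    exact (hc n).trans_le hn
  · have hM : (0 : ℝ) < 4 * (M + 1) := by positivity
    filter_upwards [hsm (δ / 2) (half_pos hδ), hsm (γ * (δ / 2)) (by positivity),
      hsm (δ / (4 * (M + 1))) (by positivity)] with n h1 h2 h3
    have h4 := lx_sep (hg0 n) M
      {R | 1 / ((n : ℝ) + 1) ≤ R ∧ R ≤ ρ ∧ Win N G W (T n) y R (1 / ((n : ℝ) + 1))} (by
        rintro ⟨R, hR, hs⟩
        obtain ⟨i, j, hij, h5⟩ := hA n y hy R hR
        exact h5 (hs i j hij))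
    have h5 : {R | R ∈ Ioo 0 ρ ∧ ¬ ¬ Win N G W (T n) y R (γ * R)} ⊆ Ioc 0 (δ / 2) ∪
        {R | 1 / ((n : ℝ) + 1) ≤ R ∧ R ≤ ρ ∧ Win N G W (T n) y R (1 / ((n : ℝ) + 1))} := by
      intro R hR
      by_cases h6 : R ≤ δ / 2
      · exact Or.inl ⟨hR.1.1, h6⟩
      · have h7 := (not_le.1 h6).le
        refine Or.inr ⟨h1.trans h7, hR.1.2.le, Acyc.mono (not_not.1 hR.2) le_rfl ?_⟩
        linarith [mul_le_mul_of_nonneg_left h7 hγ.le]
    refine (measure_mono h5).trans ((measure_union_le _ _).trans ?_)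
    refine (add_le_add_right h4 _).trans ?_
    rw [Real.volume_Ioc, ← ENNReal.ofReal_add (by linarith) (by positivity)]
    refine ENNReal.ofReal_le_ofReal ?_
    rw [le_div_iff₀ hM] at h3
    nlinarith [hg0 n]
  · by_contra hn
    exact hy' (hY' y ⟨hy, ha, hn⟩)

end Pool.Agent.MP_20201c_gt.H91
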