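import Pool.Agent.MP_20201c_gt.H91.Most

/-! Measures on a line: auxiliary facts. -/

open MeasureTheory Set Filter Topology
open scoped ENNReal

namespace Pool.Agent.MP_20201c_gt.H91

/-- Measures that agree near every point of a set agree on the set. -/
theorem ln_loc_ext {X : Type} [TopologicalSpace X] [SecondCountableTopology X] [MeasurableSpace X]
    {μ ν : Measure X} {S : Set X}
    (h : ∀ x ∈ S, ∃ U ∈ 𝓝 x, μ.restrict U = ν.restrict U) : μ.restrict S = ν.restrict S := by
  choose! U hU hμ using h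
  obtain ⟨t, ht, hc, hs⟩ := TopologicalSpace.countable_cover_nhdsWithin
    (f := U) (s := S) fun x hx => mem_nhdsWithin_of_mem_nhds (hU x hx)
  exact Measure.restrict_congr_mono hs
    ((Measure.restrict_biUnion_congr hc).2 fun x hx => hμ x (ht hx))

theorem ln_sg (y : ℂ) {v : ℂ} (hv : ‖v‖ = 1) (a b : ℝ) {A : Set ℂ} (hA : MeasurableSet A) :
    sg (y + a • v) (y + b • v) A = volume {t : ℝ | t ∈ uIcc a b ∧ y + t • v ∈ A} := by
  rw [m1_sg_sub y v a b hA, hv, ENNReal.ofReal_one, one_mul]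

theorem ln_sg0 (y : ℂ) {v : ℂ} (hv : ‖v‖ = 1) {b : ℝ} (hb : 0 ≤ b) {A : Set ℂ}
    (hA : MeasurableSet A) :
    sg y (y + b • v) A = volume {t : ℝ | t ∈ Ioo 0 b ∧ y + t • v ∈ A} := by
  have h := ln_sg y hv 0 b hA
  rw [zero_smul, add_zero] at h
  rw [h, uIcc_of_le hb]
  refine m1_vol_eq_of_fin {0, b} (toFinite _) fun t ht => ?_
  simp only [mem_insert_iff, mem_singleton_iff, not_or] at ht
  simp only [mem_ofPred_eq, mem_Icc, mem_Ioo]
  constructor
  · rintro ⟨⟨h1, h2⟩, h3⟩
    exact ⟨⟨lt_of_le_of_ne h1 (Ne.symm ht.1), lt_of_le_of_ne h2 ht.2⟩, h3⟩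
  · rintro ⟨⟨h1, h2⟩, h3⟩
    exact ⟨⟨h1.le, h2.le⟩, h3⟩

theorem ln_dist (y : ℂ) {v : ℂ} (hv : ‖v‖ = 1) (a b : ℝ) :
    dist (y + a • v) (y + b • v) = |a - b| := by
  rw [dist_eq_norm, add_sub_add_left_eq_sub, ← sub_smul, norm_smul, hv, mul_one, Real.norm_eq_abs]

theorem ln_sg_ball (y : ℂ) {v : ℂ} (hv : ‖v‖ = 1) {a b c ρ : ℝ} (hρ : 0 ≤ ρ) (ha : a ≤ c - ρ)
    (hb : c + ρ ≤ b) :
    (sg (y + a • v) (y + b • v)).restrict (Metric.ball (y + c • v) ρ) =
      sg (y + (c - ρ) • v) (y + (c + ρ) • v) := by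
  ext A hA
  rw [Measure.restrict_apply hA, ln_sg y hv a b (hA.inter Metric.isOpen_ball.measurableSet),
    ln_sg y hv _ _ hA, uIcc_of_le (by linarith), uIcc_of_le (by linarith)]
  refine m1_vol_eq_of_fin {c - ρ, c + ρ} (toFinite _) fun t ht => ?_
  simp only [mem_insert_iff, mem_singleton_iff, not_or] at ht
  simp only [mem_ofPred_eq, mem_Icc, mem_inter_iff, Metric.mem_ball, ln_dist y hv, abs_lt]
  constructor
  · rintro ⟨_, h3, h4, h5⟩
    exact ⟨⟨by linarith, by linarith⟩, h3⟩
  · rintro ⟨⟨h1, h2⟩, h3⟩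
    have h4 := lt_of_le_of_ne h1 (Ne.symm ht.1)
    have h5 := lt_of_le_of_ne h2 ht.2
    exact ⟨⟨by linarith, by linarith⟩, h3, by linarith, by linarith⟩

/-- A finite measure of the line with constant density on an interval. -/
theorem ln_real (ρ : Measure ℝ) [IsFiniteMeasure ρ] {r : ℝ} (j : ℕ)
    (h : ∀ s t, 0 < s → s < t → t < r → ρ (Ioc s t) = j * ENNReal.ofReal (t - s)) :
    ρ.restrict (Ioo 0 r) = j • (volume : Measure ℝ).restrict (Ioo 0 r) := by
  have e : j • (volume : Measure ℝ).restrict (Ioo 0 r) =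
      ((j : ℝ≥0∞) • (volume : Measure ℝ)).restrict (Ioo 0 r) := by
    rw [Measure.restrict_smul, Nat.cast_smul_eq_nsmul]
  rw [e]
  refine ln_loc_ext fun x hx => ⟨Ioc (x / 2) ((x + r) / 2), ?_, ?_⟩
  · exact Ioc_mem_nhds (by linarith [hx.1]) (by linarith [hx.2])
  · refine Measure.ext_of_Ioc _ _ fun a b _ => ?_
    rw [Measure.restrict_apply measurableSet_Ioc, Measure.restrict_apply measurableSet_Ioc,
      Ioc_inter_Ioc, Measure.smul_apply, Real.volume_Ioc, smul_eq_mul]
    rcases lt_or_ge (max a (x / 2)) (min b ((x + r) / 2)) with h1 | h1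
    · exact h _ _ (lt_of_lt_of_le (by linarith [hx.1]) (le_max_right _ _)) h1
        (lt_of_le_of_lt (min_le_right _ _) (by linarith [hx.2]))
    · rw [Ioc_eq_empty (not_lt.2 h1), measure_empty, ENNReal.ofReal_of_nonpos (by linarith),
        mul_zero]

theorem ln_sq {u : ℂ} (hu : ‖u‖ = 1) : u.re * u.re + u.im * u.im = 1 := by
  rw [← Complex.normSq_apply, Complex.normSq_eq_norm_sq, hu, one_pow]

theorem ln_on_line {u z : ℂ} (hu : ‖u‖ = 1) (h : dt z u = 0) : z = ip z u • u := by
  have h1 := ln_sq hu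
  unfold dt at h
  unfold ip
  apply Complex.ext
  · rw [Complex.smul_re, smul_eq_mul]
    linear_combination (-z.re) * h1 + u.im * h
  · rw [Complex.smul_im, smul_eq_mul]
    linear_combination (-z.im) * h1 - u.re * h

theorem ln_norm {u z : ℂ} (hu : ‖u‖ = 1) (h : dt z u = 0) : ‖z‖ = |ip z u| := by
  conv_lhs => rw [ln_on_line hu h]
  rw [norm_smul, hu, mul_one, Real.norm_eq_abs]

theorem ln_ip_smul (c : ℝ) (z u : ℂ) : ip (c • z) u = c * ip z u := by
  unfold ip
  rw [Complex.smul_re, Complex.smul_im, smul_eq_mul, smul_eq_mul]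
  ring

theorem ln_ip_neg (z u : ℂ) : ip z (-u) = -ip z u := by
  unfold ip
  rw [Complex.neg_re, Complex.neg_im]
  ring

theorem ln_dt_neg (z u : ℂ) : dt z (-u) = -dt z u := by
  unfold dt
  rw [Complex.neg_re, Complex.neg_im]
  ring

theorem ln_meas_ip (y u : ℂ) : Measurable fun x : ℂ => ip (x - y) u := by
  unfold ip
  fun_prop

theorem ln_half (μ : Ms) [IsFiniteMeasure μ] (y : ℂ) {u : ℂ} (hu : ‖u‖ = 1) {r : ℝ} (hr : 0 < r)
    (j : ℕ) (hm : ∀ s ∈ Ioo 0 r, μ.real (cb y s) = (2 * j : ℕ) * s)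
    (h0 : μ {x | x ∈ Metric.ball y r ∧ dt (x - y) u ≠ 0} = 0)
    (hs : ∀ s t, 0 < s → s < t → t < r →
      ∫ x in cb y t \ cb y s, ip (‖x - y‖⁻¹ • (x - y)) u ∂μ = 0) :
    μ.restrict (Metric.ball y r ∩ {x | 0 < ip (x - y) u}) = j • sg y (y + r • u) := by
  have hp := ln_meas_ip y u
  have hP : MeasurableSet {x : ℂ | 0 < ip (x - y) u} := measurableSet_lt measurable_const hp
  have hA : MeasurableSet (Metric.ball y r ∩ {x | 0 < ip (x - y) u}) :=
    Metric.isOpen_ball.measurableSet.inter hP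
  have hae : ∀ᵐ x ∂μ, x ∈ Metric.ball y r → dt (x - y) u = 0 := by
    rw [ae_iff]
    refine measure_mono_null (fun x hx => ?_) h0
    exact Classical.not_imp.1 hx
  have hD : ∀ s t, 0 < s → s < t → t < r →
      μ ((cb y t \ cb y s) ∩ {x | 0 < ip (x - y) u}) = j * ENNReal.ofReal (t - s) := by
    intro s t h1 h2 h3
    have hDm : MeasurableSet (cb y t \ cb y s) :=
      Metric.isClosed_closedBall.measurableSet.diff Metric.isClosed_closedBall.measurableSet
    have e1 : μ.real (cb y t \ cb y s) = 2 * j * (t - s) := by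
      rw [measureReal_sdiff (Metric.closedBall_subset_closedBall h2.le)
        Metric.isClosed_closedBall.measurableSet, hm t ⟨h1.trans h2, h3⟩, hm s ⟨h1, h2.trans h3⟩]
      push_cast
      ring
    have e2 : ∫ x in cb y t \ cb y s, ip (‖x - y‖⁻¹ • (x - y)) u ∂μ =
        ∫ x in cb y t \ cb y s,
          (2 * {x | 0 < ip (x - y) u}.indicator (fun _ => (1 : ℝ)) x - 1) ∂μ := by
      refine setIntegral_congr_ae hDm ?_
      filter_upwards [hae] with x hx hxD
      have hxb : x ∈ Metric.ball y r := Metric.closedBall_subset_ball h3 hxD.1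
      have hn := ln_norm hu (hx hxb)
      have hpos : 0 < ‖x - y‖ := by
        have h4 := hxD.2
        rw [mem_closedBall_iff_norm, not_le] at h4
        linarith
      rw [ln_ip_smul]
      by_cases h5 : 0 < ip (x - y) u
      · rw [indicator_of_mem (show x ∈ {x | 0 < ip (x - y) u} from h5), hn, abs_of_pos h5,
          inv_mul_cancel₀ h5.ne']
        norm_num
      · rw [indicator_of_notMem (show x ∉ {x | 0 < ip (x - y) u} from h5)]
        rw [abs_of_nonpos (not_lt.1 h5)] at hn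
        have h6 : ip (x - y) u = -‖x - y‖ := by linarith
        rw [h6, mul_neg, inv_mul_cancel₀ hpos.ne']
        norm_num
    have e3 := hs s t h1 h2 h3
    rw [e2, integral_sub (((integrable_const (1 : ℝ)).indicator hP).const_mul 2)
      (integrable_const _), integral_const_mul, integral_indicator hP, setIntegral_const,
      setIntegral_const, measureReal_restrict_apply hP, e1, smul_eq_mul, smul_eq_mul,
      inter_comm] at e3
    rw [← ofReal_measureReal, ← ENNReal.ofReal_natCast, ← ENNReal.ofReal_mul (Nat.cast_nonneg _)]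
    congr 1
    linarith
  set A := Metric.ball y r ∩ {x | 0 < ip (x - y) u} with hAdef
  set ρ : Measure ℝ := Measure.map (fun x : ℂ => ip (x - y) u) (μ.restrict A) with hρ
  have h1 : ρ.restrict (Ioo 0 r) = j • (volume : Measure ℝ).restrict (Ioo 0 r) := by
    refine ln_real ρ j fun s t a b c => ?_
    rw [hρ, Measure.map_apply hp measurableSet_Ioc, Measure.restrict_apply (hp measurableSet_Ioc),
      ← hD s t a b c]
    refine measure_congr ?_
    filter_upwards [hae] with x hx
    refine propext ⟨fun h2 => ?_, fun h2 => ?_⟩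
    · have hn := ln_norm hu (hx h2.2.1)
      have h3 : 0 < ip (x - y) u := h2.2.2
      have h4 : ip (x - y) u ∈ Ioc s t := h2.1
      rw [abs_of_pos h3] at hn
      refine ⟨⟨?_, ?_⟩, h3⟩
      · rw [mem_closedBall_iff_norm, hn]
        exact h4.2
      · rw [mem_closedBall_iff_norm, hn, not_le]
        exact h4.1
    · have hxb : x ∈ Metric.ball y r := Metric.closedBall_subset_ball c h2.1.1
      have hn := ln_norm hu (hx hxb)
      have h3 : 0 < ip (x - y) u := h2.2
      rw [abs_of_pos h3] at hn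
      have h4 := h2.1.1
      have h5 := h2.1.2
      rw [mem_closedBall_iff_norm, hn] at h4
      rw [mem_closedBall_iff_norm, hn, not_le] at h5
      exact ⟨⟨h5, h4⟩, hxb, h3⟩
  ext B hB
  have hB' : MeasurableSet ((fun t : ℝ => y + t • u) ⁻¹' B) := m1_meas_line y u hB
  have h2 := congrArg (fun m : Measure ℝ => m ((fun t : ℝ => y + t • u) ⁻¹' B)) h1
  simp only [Measure.restrict_apply hB', Measure.smul_apply] at h2
  rw [hρ, Measure.map_apply hp (hB'.inter measurableSet_Ioo),
    Measure.restrict_apply (hp (hB'.inter measurableSet_Ioo))] at h2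
  rw [Measure.restrict_apply hB, Measure.smul_apply, ln_sg0 y hu hr.le hB]
  have e : {t : ℝ | t ∈ Ioo 0 r ∧ y + t • u ∈ B} =
      (fun t : ℝ => y + t • u) ⁻¹' B ∩ Ioo 0 r := by
    ext t
    exact and_comm
  rw [e, ← h2]
  refine measure_congr ?_
  filter_upwards [hae] with x hx
  refine propext ⟨fun h3 => ?_, fun h3 => ?_⟩
  · have hd := hx h3.2.1
    have hn := ln_norm hu hd
    have h4 : 0 < ip (x - y) u := h3.2.2
    rw [abs_of_pos h4] at hn
    have h5 := h3.2.1
    rw [mem_ball_iff_norm, hn] at h5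
    refine ⟨⟨?_, h4, h5⟩, h3.2⟩
    show y + ip (x - y) u • u ∈ B
    rw [← ln_on_line hu hd, add_sub_cancel]
    exact h3.1
  · have hd := hx h3.2.1
    have h4 : y + ip (x - y) u • u ∈ B := h3.1.1
    rw [← ln_on_line hu hd, add_sub_cancel] at h4
    exact ⟨h4, h3.2⟩

end Pool.Agent.MP_20201c_gt.H91
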