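import Pool.Agent.MP_20201c_gt.H91.Defs5

/-! Polygonal approximation of the domain from outside. -/

open MeasureTheory Set Filter Topology
open scoped ENNReal

namespace Pool.Agent.MP_20201c_gt.H91

namespace PG

noncomputable def D1 (ρ : ℂ → ℝ) (h : ℝ) (i j : ℤ) : ℝ := (ρ (gp h (i + 1, j)) - ρ (gp h (i, j))) / h

noncomputable def D2 (ρ : ℂ → ℝ) (h : ℝ) (i j : ℤ) : ℝ := (ρ (gp h (i, j + 1)) - ρ (gp h (i, j))) / h

noncomputable def Lo (ρ : ℂ → ℝ) (h : ℝ) (i j : ℤ) (z : ℂ) : ℝ :=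
  ρ (gp h (i, j)) + D1 ρ h i j * (z.re - h * i) + D2 ρ h (i + 1) j * (z.im - h * j)

noncomputable def Up (ρ : ℂ → ℝ) (h : ℝ) (i j : ℤ) (z : ℂ) : ℝ :=
  ρ (gp h (i, j)) + D1 ρ h i (j + 1) * (z.re - h * i) + D2 ρ h i j * (z.im - h * j)

/-- The piecewise linear interpolation. -/
noncomputable def pl (ρ : ℂ → ℝ) (h : ℝ) (z : ℂ) : ℝ :=
  if z.im - h * ⌊z.im / h⌋ ≤ z.re - h * ⌊z.re / h⌋ then Lo ρ h ⌊z.re / h⌋ ⌊z.im / h⌋ z
  else Up ρ h ⌊z.re / h⌋ ⌊z.im / h⌋ z

theorem fl {h x : ℝ} (hh : 0 < h) {i : ℤ} (h1 : h * i ≤ x) (h2 : x < h * i + h) : ⌊x / h⌋ = i := by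
  rw [Int.floor_eq_iff, le_div_iff₀ hh, div_lt_iff₀ hh]
  constructor <;> linarith

theorem fl' {h : ℝ} (hh : 0 < h) (x : ℝ) : h * ⌊x / h⌋ ≤ x ∧ x < h * ⌊x / h⌋ + h := by
  have h1 := Int.floor_le (x / h)
  have h2 := Int.lt_floor_add_one (x / h)
  rw [le_div_iff₀ hh] at h1
  rw [div_lt_iff₀ hh] at h2
  constructor <;> linarith

variable {ρ : ℂ → ℝ} {gr : ℂ → ℂ} {L c₀ β R h : ℝ}

theorem pl_lo (hh : 0 < h) {i j : ℤ} {z : ℂ} (h1 : h * i ≤ z.re) (h2 : z.re < h * i + h)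
    (h3 : h * j ≤ z.im) (h4 : z.im < h * j + h) (h5 : z.im - h * j ≤ z.re - h * i) :
    pl ρ h z = Lo ρ h i j z := by
  rw [pl, fl hh h1 h2, fl hh h3 h4, if_pos h5]

theorem pl_up (hh : 0 < h) {i j : ℤ} {z : ℂ} (h1 : h * i ≤ z.re) (h2 : z.re < h * i + h)
    (h3 : h * j ≤ z.im) (h4 : z.im < h * j + h) (h5 : z.re - h * i < z.im - h * j) :
    pl ρ h z = Up ρ h i j z := by
  rw [pl, fl hh h1 h2, fl hh h3 h4, if_neg (not_le.mpr h5)]

theorem tay' (hG : Good ρ gr L c₀ β R) (z w : ℂ) :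
    |ρ w - ρ z - ((gr z).re * (w.re - z.re) + (gr z).im * (w.im - z.im))| ≤
      L * ((w.re - z.re) ^ 2 + (w.im - z.im) ^ 2) := by
  have := hG.tay z w
  rw [Complex.sq_norm, Complex.normSq_apply] at this
  simp only [ip, Complex.sub_re, Complex.sub_im] at this
  convert this using 2
  ring

theorem bary {a b c x y z p q r : ℝ} (ha : 0 ≤ a) (hb : 0 ≤ b) (hc : 0 ≤ c) (hx : |x| ≤ p)
    (hy : |y| ≤ q) (hz : |z| ≤ r) : |a * x + b * y + c * z| ≤ a * p + b * q + c * r := by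
  rw [abs_le] at *
  constructor <;> nlinarith [hx.1, hx.2, hy.1, hy.2, hz.1, hz.2]

theorem err (hG : Good ρ gr L c₀ β R) (hh : 0 < h) {i j : ℤ} {z : ℂ} (h1 : h * i ≤ z.re)
    (h2 : z.re < h * i + h) (h3 : h * j ≤ z.im) (h4 : z.im < h * j + h) :
    |pl ρ h z - ρ z| ≤
      L * ((z.re - h * i) * (h * i + h - z.re) + (z.im - h * j) * (h * j + h - z.im)) := by
  have t00 := tay' hG z (gp h (i, j))
  have t10 := tay' hG z (gp h (i + 1, j))
  have t01 := tay' hG z (gp h (i, j + 1))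
  have t11 := tay' hG z (gp h (i + 1, j + 1))
  rcases le_or_gt (z.im - h * j) (z.re - h * i) with h5 | h5
  · rw [pl_lo hh h1 h2 h3 h4 h5]
    have := bary (a := (h * i + h - z.re) / h) (b := ((z.re - h * i) - (z.im - h * j)) / h)
      (c := (z.im - h * j) / h) (div_nonneg (by linarith) hh.le) (div_nonneg (by linarith) hh.le)
      (div_nonneg (by linarith) hh.le) t00 t10 t11
    convert this using 1
    · congr 1
      simp only [Lo, D1, D2, gp]
      push_cast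
      field_simp
      ring
    · simp only [gp]
      push_cast
      field_simp
      ring
  · rw [pl_up hh h1 h2 h3 h4 h5]
    have := bary (a := (h * j + h - z.im) / h) (b := ((z.im - h * j) - (z.re - h * i)) / h)
      (c := (z.re - h * i) / h) (div_nonneg (by linarith) hh.le) (div_nonneg (by linarith) hh.le)
      (div_nonneg (by linarith) hh.le) t00 t01 t11
    convert this using 1
    · congr 1
      simp only [Up, D1, D2, gp]
      push_cast
      field_simp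
      ring
    · simp only [gp]
      push_cast
      field_simp
      ring

theorem err1 (hG : Good ρ gr L c₀ β R) (hh : 0 < h) (z : ℂ) : |pl ρ h z - ρ z| ≤ L * h ^ 2 := by
  obtain ⟨h1, h2⟩ := fl' hh z.re
  obtain ⟨h3, h4⟩ := fl' hh z.im
  refine le_trans (err hG hh h1 h2 h3 h4) (mul_le_mul_of_nonneg_left ?_ hG.hL.le)
  nlinarith [sq_nonneg (z.re - h * ⌊z.re / h⌋ - h / 2), sq_nonneg (z.im - h * ⌊z.im / h⌋ - h / 2)]

theorem frac_le (hh : 0 < h) {x : ℝ} {i : ℤ} (h1 : h * i ≤ x) (h2 : x < h * i + h) (n : ℤ) :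
    (x - h * i) * (h * i + h - x) ≤ h * |x - h * n| := by
  rcases le_or_gt n i with h3 | h3
  · have h4 : (n : ℝ) ≤ i := by exact_mod_cast h3
    have h5 : x - h * i ≤ |x - h * n| := le_trans (by nlinarith) (le_abs_self _)
    nlinarith
  · have h4 : (i : ℝ) + 1 ≤ n := by exact_mod_cast h3
    have h5 : h * i + h - x ≤ |x - h * n| := le_trans (by nlinarith) (neg_le_abs _)
    nlinarith

theorem err2 (hG : Good ρ gr L c₀ β R) (hh : 0 < h) (v : Vt) (z : ℂ) :
    |pl ρ h z - ρ z| ≤ L * (2 * h * ‖z - gp h v‖) := by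
  obtain ⟨h1, h2⟩ := fl' hh z.re
  obtain ⟨h3, h4⟩ := fl' hh z.im
  refine le_trans (err hG hh h1 h2 h3 h4) (mul_le_mul_of_nonneg_left ?_ hG.hL.le)
  have a1 := frac_le hh h1 h2 v.1
  have a2 := frac_le hh h3 h4 v.2
  have b1 : |z.re - h * v.1| ≤ ‖z - gp h v‖ := Complex.abs_re_le_norm (z - gp h v)
  have b2 : |z.im - h * v.2| ≤ ‖z - gp h v‖ := Complex.abs_im_le_norm (z - gp h v)
  nlinarith

theorem gr_near (hG : Good ρ gr L c₀ β R) {i j : ℤ} {y : ℂ} (h1 : |h * i - y.re| ≤ h)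
    (h2 : |h * j - y.im| ≤ h) : ‖gr (gp h (i, j)) - gr y‖ ≤ 2 * L * h := by
  have a := hG.lipg y (gp h (i, j))
  have b := Complex.norm_le_abs_re_add_abs_im (gp h (i, j) - y)
  have c : |(gp h (i, j) - y).re| ≤ h := h1
  have d : |(gp h (i, j) - y).im| ≤ h := h2
  nlinarith [hG.hL]

theorem D1_near (hG : Good ρ gr L c₀ β R) (hh : 0 < h) {i j : ℤ} {y : ℂ} (h1 : |h * i - y.re| ≤ h)
    (h2 : |h * j - y.im| ≤ h) : |D1 ρ h i j - (gr y).re| ≤ 3 * L * h := by
  have a := tay' hG (gp h (i, j)) (gp h (i + 1, j))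
  have b := le_trans (Complex.abs_re_le_norm _) (gr_near hG h1 h2)
  have e : D1 ρ h i j - (gr (gp h (i, j))).re = (ρ (gp h (i + 1, j)) - ρ (gp h (i, j)) -
      ((gr (gp h (i, j))).re * ((gp h (i + 1, j)).re - (gp h (i, j)).re) +
        (gr (gp h (i, j))).im * ((gp h (i + 1, j)).im - (gp h (i, j)).im))) / h := by
    simp only [D1, gp]; push_cast; field_simp; ring
  have c : |D1 ρ h i j - (gr (gp h (i, j))).re| ≤ L * h := by
    rw [e, abs_div, abs_of_pos hh, div_le_iff₀ hh]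
    refine le_trans a (le_of_eq ?_)
    simp only [gp]; push_cast; ring
  rw [Complex.sub_re] at b
  rw [abs_le] at *
  constructor <;> linarith [b.1, b.2, c.1, c.2]

theorem D2_near (hG : Good ρ gr L c₀ β R) (hh : 0 < h) {i j : ℤ} {y : ℂ} (h1 : |h * i - y.re| ≤ h)
    (h2 : |h * j - y.im| ≤ h) : |D2 ρ h i j - (gr y).im| ≤ 3 * L * h := by
  have a := tay' hG (gp h (i, j)) (gp h (i, j + 1))
  have b := le_trans (Complex.abs_im_le_norm _) (gr_near hG h1 h2)
  have e : D2 ρ h i j - (gr (gp h (i, j))).im = (ρ (gp h (i, j + 1)) - ρ (gp h (i, j)) -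
      ((gr (gp h (i, j))).re * ((gp h (i, j + 1)).re - (gp h (i, j)).re) +
        (gr (gp h (i, j))).im * ((gp h (i, j + 1)).im - (gp h (i, j)).im))) / h := by
    simp only [D2, gp]; push_cast; field_simp; ring
  have c : |D2 ρ h i j - (gr (gp h (i, j))).im| ≤ L * h := by
    rw [e, abs_div, abs_of_pos hh, div_le_iff₀ hh]
    refine le_trans a (le_of_eq ?_)
    simp only [gp]; push_cast; ring
  rw [Complex.sub_im] at b
  rw [abs_le] at *
  constructor <;> linarith [b.1, b.2, c.1, c.2]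

theorem near2 {a b K : ℝ} {g : ℂ} (h1 : |a - g.re| ≤ K) (h2 : |b - g.im| ≤ K) :
    ‖(⟨a, b⟩ : ℂ) - g‖ ≤ 2 * K := by
  have := Complex.norm_le_abs_re_add_abs_im ((⟨a, b⟩ : ℂ) - g)
  simp only [Complex.sub_re, Complex.sub_im] at this
  linarith

/-- Two affine pieces along a line. -/
def Two (f : ℂ → ℝ) (y g : ℂ) (K : ℝ) : Prop :=
  ∃ (a₁ a₂ m : ℂ) (c r : ℝ), 0 < r ∧ (∀ v, ip a₁ v - ip a₂ v = c * ip m v) ∧ ‖a₁ - g‖ ≤ K ∧
    ‖a₂ - g‖ ≤ K ∧ ∀ z, |z.re - y.re| < r → |z.im - y.im| < r →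
      (0 ≤ ip m (z - y) → f z = f y + ip a₁ (z - y)) ∧
      (ip m (z - y) < 0 → f z = f y + ip a₂ (z - y))

theorem exr {a b c d e : ℝ} (ha : 0 < a) (hb : 0 < b) (hc : 0 < c) (hd : 0 < d) (he : 0 < e) :
    ∃ r, 0 < r ∧ r ≤ a ∧ r ≤ b ∧ r ≤ c ∧ r ≤ d ∧ r ≤ e :=
  ⟨min a (min b (min c (min d e))), by positivity, by simp, by simp, by simp, by simp, by simp⟩

theorem two (hG : Good ρ gr L c₀ β R) (hh : 0 < h) {y : ℂ} (hy : ∀ v, y ≠ gp h v) :
    Two (pl ρ h) y (gr y) (2 * (3 * L * h)) := by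
  obtain ⟨h1, h2⟩ := fl' hh y.re
  obtain ⟨h3, h4⟩ := fl' hh y.im
  generalize ⌊y.re / h⌋ = i at h1 h2
  generalize ⌊y.im / h⌋ = j at h3 h4
  have i0 : |h * i - y.re| ≤ h := abs_le.mpr ⟨by linarith, by linarith⟩
  have i1 : |h * ((i + 1 : ℤ) : ℝ) - y.re| ≤ h := by
    push_cast; exact abs_le.mpr ⟨by linarith, by linarith⟩
  have j0 : |h * j - y.im| ≤ h := abs_le.mpr ⟨by linarith, by linarith⟩
  have j1 : |h * ((j + 1 : ℤ) : ℝ) - y.im| ≤ h := by
    push_cast; exact abs_le.mpr ⟨by linarith, by linarith⟩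
  have gl := near2 (D1_near hG hh i0 j0) (D2_near hG hh i1 j0)
  have gu := near2 (D1_near hG hh i0 j1) (D2_near hG hh i0 j0)
  rcases eq_or_lt_of_le h1 with e1 | e1 <;> rcases eq_or_lt_of_le h3 with e3 | e3
  · exact absurd (Complex.ext e1.symm e3.symm) (hy (i, j))
  · -- a vertical edge
    have i2 : |h * ((i - 1 : ℤ) : ℝ) - y.re| ≤ h := by
      push_cast; exact abs_le.mpr ⟨by linarith, by linarith⟩
    have g2 := near2 (D1_near hG hh i2 j0) (D2_near hG hh i0 j0)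
    obtain ⟨r, r0, r1, r2, -⟩ := exr (a := (y.im - h * j) / 2) (b := (h * j + h - y.im) / 2)
      (by linarith) (by linarith) one_pos one_pos one_pos
    have fy := pl_up (ρ := ρ) hh h1 h2 h3 h4 (by linarith)
    refine ⟨_, _, 1, D1 ρ h i (j + 1) - D1 ρ h (i - 1) j, r, r0, fun v => ?_, gu, g2,
      fun z z1 z2 => ⟨fun hz => ?_, fun hz => ?_⟩⟩
    · simp only [ip, Complex.one_re, Complex.one_im]; ring
    · rw [abs_lt] at z1 z2
      simp only [ip, Complex.one_re, Complex.one_im, Complex.sub_re, Complex.sub_im] at hz ⊢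
      rw [fy, pl_up (i := i) (j := j) hh (by linarith) (by linarith) (by linarith) (by linarith)
        (by linarith)]
      simp only [Up]; ring
    · rw [abs_lt] at z1 z2
      simp only [ip, Complex.one_re, Complex.one_im, Complex.sub_re, Complex.sub_im] at hz ⊢
      rw [fy, pl_lo (i := i - 1) (j := j) hh (by push_cast; linarith) (by push_cast; linarith)
        (by linarith) (by linarith) (by push_cast; linarith)]
      simp only [Up, Lo, sub_add_cancel, ← e1, D1]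
      push_cast
      field_simp
      ring
  · -- a horizontal edge
    have j2 : |h * ((j - 1 : ℤ) : ℝ) - y.im| ≤ h := by
      push_cast; exact abs_le.mpr ⟨by linarith, by linarith⟩
    have g2 := near2 (D1_near hG hh i0 j0) (D2_near hG hh i0 j2)
    obtain ⟨r, r0, r1, r2, -⟩ := exr (a := (y.re - h * i) / 2) (b := (h * i + h - y.re) / 2)
      (by linarith) (by linarith) one_pos one_pos one_pos
    have fy := pl_lo (ρ := ρ) hh h1 h2 h3 h4 (by linarith)
    refine ⟨_, _, Complex.I, D2 ρ h (i + 1) j - D2 ρ h i (j - 1), r, r0, fun v => ?_, gl, g2,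
      fun z z1 z2 => ⟨fun hz => ?_, fun hz => ?_⟩⟩
    · simp only [ip, Complex.I_re, Complex.I_im]; ring
    · rw [abs_lt] at z1 z2
      simp only [ip, Complex.I_re, Complex.I_im, Complex.sub_re, Complex.sub_im] at hz ⊢
      rw [fy, pl_lo (i := i) (j := j) hh (by linarith) (by linarith) (by linarith) (by linarith)
        (by linarith)]
      simp only [Lo]; ring
    · rw [abs_lt] at z1 z2
      simp only [ip, Complex.I_re, Complex.I_im, Complex.sub_re, Complex.sub_im] at hz ⊢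
      rw [fy, pl_up (i := i) (j := j - 1) hh (by linarith) (by linarith) (by push_cast; linarith)
        (by push_cast; linarith) (by push_cast; linarith)]
      simp only [Up, Lo, sub_add_cancel, ← e3, D2]
      push_cast
      field_simp
      ring
  · rcases lt_trichotomy (y.im - h * j) (y.re - h * i) with e5 | e5 | e5
    · obtain ⟨r, r0, r1, r2, r3, r4, r5⟩ := exr (a := y.re - h * i) (b := h * i + h - y.re)
        (c := y.im - h * j) (d := h * j + h - y.im) (e := ((y.re - h * i) - (y.im - h * j)) / 2)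
        (by linarith) (by linarith) (by linarith) (by linarith) (by linarith)
      have fy := pl_lo (ρ := ρ) hh h1 h2 h3 h4 e5.le
      refine ⟨_, _, 0, 0, r, r0, fun v => ?_, gl, gl, fun z z1 z2 => ⟨fun _ => ?_, fun hz => ?_⟩⟩
      · ring
      · rw [abs_lt] at z1 z2
        simp only [ip, Complex.sub_re, Complex.sub_im]
        rw [fy, pl_lo (i := i) (j := j) hh (by linarith) (by linarith) (by linarith) (by linarith)
          (by linarith)]
        simp only [Lo]; ring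
      · simp [ip] at hz
    · obtain ⟨r, r0, r1, r2, r3, r4, -⟩ := exr (a := y.re - h * i) (b := h * i + h - y.re)
        (c := y.im - h * j) (d := h * j + h - y.im)
        (by linarith) (by linarith) (by linarith) (by linarith) one_pos
      have fy := pl_lo (ρ := ρ) hh h1 h2 h3 h4 e5.le
      refine ⟨_, _, ⟨1, -1⟩, D1 ρ h i j - D1 ρ h i (j + 1), r, r0, fun v => ?_, gl, gu,
        fun z z1 z2 => ⟨fun hz => ?_, fun hz => ?_⟩⟩
      · simp only [ip, D1, D2]; ring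
      · rw [abs_lt] at z1 z2
        simp only [ip, Complex.sub_re, Complex.sub_im] at hz ⊢
        rw [fy, pl_lo (i := i) (j := j) hh (by linarith) (by linarith) (by linarith) (by linarith)
          (by linarith)]
        simp only [Lo]; ring
      · rw [abs_lt] at z1 z2
        simp only [ip, Complex.sub_re, Complex.sub_im] at hz ⊢
        rw [fy, pl_up (i := i) (j := j) hh (by linarith) (by linarith) (by linarith) (by linarith)
          (by linarith)]
        have e6 : y.im = y.re - h * i + h * j := by linarith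
        simp only [Up, Lo, D1, D2, e6]
        ring
    · obtain ⟨r, r0, r1, r2, r3, r4, r5⟩ := exr (a := y.re - h * i) (b := h * i + h - y.re)
        (c := y.im - h * j) (d := h * j + h - y.im) (e := ((y.im - h * j) - (y.re - h * i)) / 2)
        (by linarith) (by linarith) (by linarith) (by linarith) (by linarith)
      have fy := pl_up (ρ := ρ) hh h1 h2 h3 h4 e5
      refine ⟨_, _, 0, 0, r, r0, fun v => ?_, gu, gu, fun z z1 z2 => ⟨fun _ => ?_, fun hz => ?_⟩⟩
      · ring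
      · rw [abs_lt] at z1 z2
        simp only [ip, Complex.sub_re, Complex.sub_im]
        rw [fy, pl_up (i := i) (j := j) hh (by linarith) (by linarith) (by linarith) (by linarith)
          (by linarith)]
        simp only [Up]; ring
      · simp [ip] at hz

theorem Two.ball {f : ℂ → ℝ} {y g : ℂ} {K : ℝ} (h : Two f y g K) :
    ∃ (a₁ a₂ : ℂ) (r : ℝ) (b : Bool), 0 < r ∧ ‖a₁ - g‖ ≤ K ∧ ‖a₂ - g‖ ≤ K ∧
      ∀ z ∈ Metric.ball y r, f z = f y +
        if b then max (ip a₁ (z - y)) (ip a₂ (z - y)) else min (ip a₁ (z - y)) (ip a₂ (z - y)) := by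
  obtain ⟨a₁, a₂, m, c, r, r0, hc, h1, h2, h3⟩ := h
  refine ⟨a₁, a₂, r, decide (0 ≤ c), r0, h1, h2, fun z hz => ?_⟩
  rw [mem_ball_iff_norm] at hz
  obtain ⟨h4, h5⟩ := h3 z (lt_of_le_of_lt (Complex.abs_re_le_norm (z - y)) hz)
    (lt_of_le_of_lt (Complex.abs_im_le_norm (z - y)) hz)
  have h6 := hc (z - y)
  rcases le_or_gt 0 c with c0 | c0 <;> rcases le_or_gt 0 (ip m (z - y)) with m0 | m0
  · rw [h4 m0, if_pos (by simpa using c0), max_eq_left (by nlinarith)]
  · rw [h5 m0, if_pos (by simpa using c0), max_eq_right (by nlinarith)]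
  · rw [h4 m0, if_neg (by simpa using c0), min_eq_left (by nlinarith)]
  · rw [h5 m0, if_neg (by simpa using c0), min_eq_right (by nlinarith)]

theorem cont_ip (a y : ℂ) : Continuous fun z : ℂ => ip a (z - y) := by
  unfold ip; fun_prop

theorem cont_rho (hG : Good ρ gr L c₀ β R) : Continuous ρ := by
  have : LipschitzWith (Real.toNNReal L) ρ := by
    apply LipschitzWith.of_dist_le_mul
    intro w z
    rw [Real.coe_toNNReal _ hG.hL.le, Real.dist_eq, dist_eq_norm]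
    exact hG.lip z w
  exact this.continuous

theorem cont (hG : Good ρ gr L c₀ β R) (hh : 0 < h) : Continuous (pl ρ h) := by
  refine continuous_iff_continuousAt.mpr fun y => ?_
  by_cases hy : ∀ v, y ≠ gp h v
  · obtain ⟨a₁, a₂, r, b, r0, -, -, h3⟩ := (two hG hh hy).ball
    have hc : Continuous fun z => pl ρ h y +
        if b then max (ip a₁ (z - y)) (ip a₂ (z - y)) else min (ip a₁ (z - y)) (ip a₂ (z - y)) := by
      cases b
      · exact continuous_const.add ((cont_ip a₁ y).min (cont_ip a₂ y))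
      · exact continuous_const.add ((cont_ip a₁ y).max (cont_ip a₂ y))
    refine hc.continuousAt.congr ?_
    filter_upwards [Metric.ball_mem_nhds y r0] with z hz using (h3 z hz).symm
  · push Not at hy
    obtain ⟨v, rfl⟩ := hy
    have h0 : pl ρ h (gp h v) = ρ (gp h v) := by
      have := err2 hG hh v (gp h v)
      simp only [sub_self, norm_zero, mul_zero, abs_nonpos_iff] at this
      linarith
    have h1 : Tendsto (fun z => pl ρ h z - ρ z) (𝓝 (gp h v)) (𝓝 0) := by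
      refine squeeze_zero_norm (fun z => err2 hG hh v z) ?_
      have : Continuous fun z : ℂ => L * (2 * h * ‖z - gp h v‖) := by fun_prop
      simpa using this.tendsto (gp h v)
    have h2 := h1.add ((cont_rho hG).tendsto (gp h v))
    rw [ContinuousAt, h0]
    simpa using h2

theorem unit_near {a g : ℂ} {K c : ℝ} (hc : 0 < c) (hg : c ≤ ‖g‖) (hK : K < c) (h : ‖a - g‖ ≤ K) :
    0 < ‖a‖ ∧ ‖‖a‖⁻¹ • a - ‖g‖⁻¹ • g‖ ≤ 2 * K / c := by
  have g0 : 0 < ‖g‖ := by linarith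
  have h1 : |‖a‖ - ‖g‖| ≤ K := le_trans (abs_norm_sub_norm_le a g) h
  have a0 : 0 < ‖a‖ := by linarith [(abs_le.mp h1).1]
  have K0 : 0 ≤ K := le_trans (norm_nonneg _) h
  refine ⟨a0, ?_⟩
  have e : ‖a‖⁻¹ • a - ‖g‖⁻¹ • g = (‖a‖⁻¹ - ‖g‖⁻¹) • a + ‖g‖⁻¹ • (a - g) := by
    rw [sub_smul, smul_sub]; abel
  have h2 : ‖(‖a‖⁻¹ - ‖g‖⁻¹) • a‖ ≤ K / ‖g‖ := by
    rw [norm_smul, Real.norm_eq_abs]
    have : ‖a‖⁻¹ - ‖g‖⁻¹ = -(‖a‖ - ‖g‖) / (‖a‖ * ‖g‖) := by field_simp; ring
    rw [this, abs_div, abs_neg, abs_of_pos (mul_pos a0 g0), le_div_iff₀ g0]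
    refine le_trans (le_of_eq ?_) h1
    field_simp
  have h3 : ‖‖g‖⁻¹ • (a - g)‖ ≤ K / ‖g‖ := by
    rw [norm_smul, norm_inv, norm_norm, div_eq_inv_mul]
    gcongr
  have h4 : K / ‖g‖ ≤ K / c := by gcongr
  rw [e]
  refine le_trans (norm_add_le _ _) ?_
  rw [mul_div_assoc]
  linarith

theorem ip_unit {a : ℂ} (ha : 0 < ‖a‖) (v : ℂ) : 0 < ip (‖a‖⁻¹ • a) v ↔ 0 < ip a v := by
  have : ip (‖a‖⁻¹ • a) v = ‖a‖⁻¹ * ip a v := by
    simp only [ip, Complex.smul_re, Complex.smul_im, smul_eq_mul]; ring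
  rw [this, mul_pos_iff_of_pos_left (inv_pos.mpr ha)]

end PG

open PG in
theorem exists_poly {ρ : ℂ → ℝ} {gr : ℂ → ℂ} {L c₀ β R : ℝ} (h : Good ρ gr L c₀ β R) {ε : ℝ}
    (hε : 0 < ε) : ∃ (G : Set ℂ) (ν : ℂ → ℂ × ℂ), Conic G ν ∧ {z | 0 ≤ ρ z} ⊆ G ∧
      G ⊆ {z | -ε < ρ z} ∧
      ∀ z ∈ frontier G, ‖(ν z).1 - nrm gr z‖ ≤ ε ∧ ‖(ν z).2 - nrm gr z‖ ≤ ε := by
  obtain ⟨e, e0, e1, e2, e3, -⟩ := exr hε h.hβ (by norm_num : (0 : ℝ) < 1 / 20) one_pos one_pos
  have hL := h.hL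
  have hc := h.hc
  obtain ⟨k, k0, k1, k2, k3, -⟩ := exr (a := e / (3 * L)) (b := e * c₀ / (12 * L))
    (by positivity) (by positivity) one_pos one_pos one_pos
  rw [le_div_iff₀ (by positivity)] at k1 k2
  have hk : L * k ^ 2 ≤ e / 3 := by nlinarith [mul_pos hL k0]
  obtain ⟨s, hs, s1, s2⟩ := ((countable_range fun v : Vt => ρ (gp k v)).dense_compl ℝ).exists_between
    (show -(2 * e / 3) < -(e / 3) by linarith)
  have hf := cont h k0
  have er := fun z => abs_le.mp (le_trans (err1 h k0 z) hk)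
  have key : ∀ y : ℂ, ∃ n : ℂ × ℂ, y ∈ frontier {z | s < pl ρ k z} →
      ‖n.1‖ = 1 ∧ ‖n.2‖ = 1 ∧ ‖n.1 - nrm gr y‖ ≤ e ∧ ‖n.2 - nrm gr y‖ ≤ e ∧
      ∃ r, 0 < r ∧ ∃ b, ∀ z ∈ Metric.ball y r,
        (z ∈ {z | s < pl ρ k z} ↔ z ∈ Wedge n.1 n.2 b y) := by
    intro y
    by_cases hy : y ∈ frontier {z | s < pl ρ k z}
    swap
    · exact ⟨0, fun h' => absurd h' hy⟩
    have h1 : s = pl ρ k y := frontier_lt_subset_eq continuous_const hf hy
    have h2 : ∀ v, y ≠ gp k v := by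
      rintro v rfl
      have := err2 h k0 v (gp k v)
      simp only [sub_self, norm_zero, mul_zero, abs_nonpos_iff] at this
      exact hs ⟨v, by linarith⟩
    have h3 : c₀ ≤ ‖gr y‖ := h.low y (abs_le.mpr ⟨by linarith [(er y).2], by linarith [(er y).1]⟩)
    obtain ⟨a₁, a₂, r, b, r0, g1, g2, h4⟩ := (two h k0 h2).ball
    have hK : 2 * (3 * L * k) < c₀ := by nlinarith
    have hK2 : 2 * (2 * (3 * L * k)) / c₀ ≤ e := by rw [div_le_iff₀ hc]; linarith
    obtain ⟨u1, u2⟩ := unit_near hc h3 hK g1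
    obtain ⟨u3, u4⟩ := unit_near hc h3 hK g2
    refine ⟨(‖a₁‖⁻¹ • a₁, ‖a₂‖⁻¹ • a₂), fun _ => ⟨?_, ?_, le_trans u2 hK2, le_trans u4 hK2,
      r, r0, b, fun z hz => ?_⟩⟩
    · rw [norm_smul, norm_inv, norm_norm, inv_mul_cancel₀ u1.ne']
    · rw [norm_smul, norm_inv, norm_norm, inv_mul_cancel₀ u3.ne']
    · rw [mem_ofPred_eq, h4 z hz, ← h1, lt_add_iff_pos_right]
      cases b
      · simp only [Wedge, Bool.false_eq_true, if_false, mem_ofPred_eq, ip_unit u1, ip_unit u3,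
          lt_min_iff]
      · simp only [Wedge, if_true, mem_ofPred_eq, ip_unit u1, ip_unit u3, lt_max_iff]
  choose ν hν using key
  refine ⟨{z | s < pl ρ k z}, ν, ⟨isOpen_lt continuous_const hf, fun y hy => ?_⟩, fun z hz => ?_,
    fun z hz => ?_, fun z hz => ?_⟩
  · obtain ⟨a1, a2, a3, a4, a5⟩ := hν y hy
    refine ⟨a1, a2, ?_, a5⟩
    have := norm_sub_le_norm_sub_add_norm_sub (ν y).1 (nrm gr y) (ν y).2
    rw [norm_sub_rev (nrm gr y)] at this
    linarith
  · have := (er z).1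
    simp only [mem_ofPred_eq] at hz ⊢
    linarith
  · have := (er z).2
    simp only [mem_ofPred_eq] at hz ⊢
    linarith
  · obtain ⟨-, -, a3, a4, -⟩ := hν z hz
    exact ⟨by linarith, by linarith⟩

end Pool.Agent.MP_20201c_gt.H91
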