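import Pool.Agent.MP_20201c_gt.H91.LLW
import Pool.Agent.MP_20201c_gt.H91.Ell
import Pool.Agent.MP_20201c_gt.H91.PolyG
import Pool.Agent.MP_20201c_gt.H91.Norm
import Pool.Agent.MP_20201c_gt.H91.Sig

/-! Almost reflective networks with boundedly many edges. -/

open MeasureTheory Set Filter Topology
open scoped ENNReal

namespace Pool.Agent.MP_20201c_gt.H91

theorem net_bound {ρ : ℂ → ℝ} {gr : ℂ → ℂ} {L c₀ β R : ℝ} (hG : Good ρ gr L c₀ β R) (M : ℕ)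
    (c₁ : ℝ) : ∃ D₀ N₀ : ℕ, ∀ ε, 0 < ε → ε ≤ β → ε ≤ 1 / 20 →
      ∀ (G : Set ℂ) (ν : ℂ → ℂ × ℂ), Conic G ν → {z | 0 ≤ ρ z} ⊆ G → G ⊆ {z | -ε < ρ z} →
      (∀ z ∈ frontier G, ‖(ν z).1 - nrm gr z‖ ≤ ε ∧ ‖(ν z).2 - nrm gr z‖ ≤ ε) →
      ∀ c, c ≤ c₁ → ∀ (η : ℝ) (m : ℕ) (a b : Fin m → ℂ),
        Net G ν 0 R (Fin.elim0 : Fin 0 → ℂ) univ (fun _ => {d | d ≤ D₀}) η M c a b →
        m ≤ N₀ ∧ ∃ σ : Fin m × Bool → Fin m × Bool, Function.Involutive σ ∧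
          (∀ e, ∀ z ∈ segment ℝ (a e) (b e), -ε ≤ ρ z) ∧
          ∀ δ, dpos a b (σ δ) = dpos a b δ ∧ |ρ (dpos a b δ)| ≤ ε ∧
            -ε ≤ ip (nrm gr (dpos a b δ)) (ddir a b δ) ∧
            |dt (nrm gr (dpos a b δ)) (ddir a b δ) + dt (nrm gr (dpos a b δ)) (ddir a b (σ δ))| ≤
              η + 2 * ε := by
  classical
  have hL := hG.hL
  have hc₀ := hG.hc
  set A : ℝ := 2 * L * |c₁| / c₀ with hAd
  have hA0 : 0 ≤ A := by positivity
  refine ⟨⌈A⌉₊, ⌈A * (M + 2 * A)⌉₊, ?_⟩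
  intro ε hε hεβ hε20 G ν hC hin hout hν c hc η m a b hN
  have hcl : ∀ z ∈ closure G, -ε ≤ ρ z := fun z hz =>
    closure_minimal (t := {z | -ε ≤ ρ z}) (fun x hx => show -ε ≤ ρ x from le_of_lt (hout hx))
      (isClosed_le continuous_const hG.continuous) hz
  have hnG : ∀ y, En a b y ≠ 0 → y ∉ G := fun y hy hyG =>
    hy ((hN.atG y hyG (by simp)).2 trivial)
  have hρ : ∀ y, En a b y ≠ 0 → |ρ y| ≤ ε := fun y hy => by
    have h1 := hcl y (frontier_subset_closure (hN.atB y (hnG y hy) hy).1)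
    have h2 : ρ y < 0 := not_le.1 fun h => hnG y hy (hin h)
    exact abs_le.2 ⟨h1, by linarith⟩
  have hgr : ∀ y, En a b y ≠ 0 → c₀ ≤ ‖gr y‖ := fun y hy => hG.low y ((hρ y hy).trans hεβ)
  have hn1 : ∀ y, En a b y ≠ 0 → ‖nrm gr y‖ = 1 := fun y hy => by
    have h := hc₀.trans_le (hgr y hy)
    rw [nrm, norm_smul, norm_inv, norm_norm, inv_mul_cancel₀ h.ne']
  have hF : ∀ y, En a b y ≠ 0 → c₀ * ‖(En a b y).sum‖ ≤ 2 * ip (gr y) (En a b y).sum := by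
    intro y hy
    obtain ⟨hf, hcone, -, -⟩ := hN.atB y (hnG y hy) hy
    have h1 := coneF (hn1 y hy) ((hν y hf).1.trans (by linarith)) ((hν y hf).2.trans (by linarith))
      hcone
    have h0 := hc₀.trans_le (hgr y hy)
    rw [nrm, NA.ip_smul_l] at h1
    have h2 : ‖gr y‖ * ‖(En a b y).sum‖ ≤ ‖gr y‖ * (2 * (‖gr y‖⁻¹ * ip (gr y) (En a b y).sum)) :=
      mul_le_mul_of_nonneg_left h1 h0.le
    have h3 : ‖gr y‖ * (2 * (‖gr y‖⁻¹ * ip (gr y) (En a b y).sum)) =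
        2 * ip (gr y) (En a b y).sum := by field_simp
    have h4 : c₀ * ‖(En a b y).sum‖ ≤ ‖gr y‖ * ‖(En a b y).sum‖ :=
      mul_le_mul_of_nonneg_right (hgr y hy) (norm_nonneg _)
    linarith
  have hflux : ∑ y ∈ Vx a b, ip (gr y) (En a b y).sum ≤ L * |c₁| := by
    rw [fv gr, ← Finset.sum_neg_distrib]
    have h1 : ∀ e, -ip (gr (b e) - gr (a e)) (dir (a e, b e)) ≤ L * ‖b e - a e‖ := fun e => by
      have h2 := NCA.abs_ip (gr (b e) - gr (a e)) (dir (a e, b e))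
      have h3 : ‖dir (a e, b e)‖ = 1 := norm_ddir hN.ne (e, false)
      rw [h3, mul_one] at h2
      have h4 := hG.lipg (a e) (b e)
      have h5 := neg_abs_le (ip (gr (b e) - gr (a e)) (dir (a e, b e)))
      linarith
    refine (Finset.sum_le_sum fun e _ => h1 e).trans ?_
    rw [← Finset.mul_sum, hN.len]
    exact mul_le_mul_of_nonneg_left (hc.trans (le_abs_self _)) hL.le
  have hA : ∑ y ∈ (Vx a b).filter (fun y => y ∉ range (Fin.elim0 : Fin 0 → ℂ)),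
      ‖(En a b y).sum‖ ≤ A := by
    rw [Finset.filter_true_of_mem (fun y _ => by simp), hAd, le_div_iff₀ hc₀, Finset.sum_mul]
    have h1 : ∑ y ∈ Vx a b, ‖(En a b y).sum‖ * c₀ ≤
        ∑ y ∈ Vx a b, 2 * ip (gr y) (En a b y).sum :=
      Finset.sum_le_sum fun y hy => by rw [mul_comm]; exact hF y (mem_Vx.1 hy)
    rw [← Finset.mul_sum] at h1
    linarith
  have hdeg : ∀ y, (En a b y).card ≤ ⌈A⌉₊ := fun y => by
    have h1 := deg_le hN.ne hN.atP hA y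
    have h2 : ((En a b y).card : ℝ) ≤ ⌈A⌉₊ := by
      refine le_trans ?_ (Nat.le_ceil A)
      simpa using h1
    exact_mod_cast h2
  obtain ⟨Y, hY, hYf⟩ := hN.few
  have hm := darts_le hN.ne hN.atP hA Y fun y _ hyY hy => by
    have h1 := hYf y (hnG y hy) hyY hy
    have h2 := NA.ip_le (ν y).1 (En a b y).sum
    rw [(hC.2 y (hN.atB y (hnG y hy) hy).1).1, one_mul] at h2
    linarith
  refine ⟨?_, ?_⟩
  · have h1 : (Y.card : ℝ) ≤ M := by exact_mod_cast hY.le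
    have h2 : (m : ℝ) ≤ ⌈A * (M + 2 * A)⌉₊ := by
      refine le_trans ?_ (Nat.le_ceil _)
      have h3 : A * (Y.card + 2 * A) ≤ A * (M + 2 * A) :=
        mul_le_mul_of_nonneg_left (by linarith) hA0
      have h4 : (0 : ℝ) ≤ m := Nat.cast_nonneg _
      simp only [Nat.cast_zero, add_zero] at hm
      linarith
    exact_mod_cast h2
  obtain ⟨σ, hσ, hs⟩ := sigma_darts a b ∅ (fun y => (ν y).1) η fun y _ => by
    by_cases hy : En a b y = 0
    · intro ψ _ _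
      simp [hy]
    · exact (hN.atB y (hnG y hy) hy).2.2.2 (hdeg y)
  refine ⟨σ, hσ, fun e z hz => hcl z (hN.sub e hz).2, fun δ => ?_⟩
  have hmem : ddir a b δ ∈ En a b (dpos a b δ) := mem_En.2 ⟨δ, rfl, rfl⟩
  have hy : En a b (dpos a b δ) ≠ 0 := fun h => by rw [h] at hmem; simp at hmem
  obtain ⟨hf, -, hv, -⟩ := hN.atB _ (hnG _ hy) hy
  obtain ⟨n1, n2⟩ := hν _ hf
  have u1 := norm_ddir hN.ne δ
  have u2 := norm_ddir hN.ne (σ δ)
  refine ⟨(hs δ).1, hρ _ hy, ?_, ?_⟩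
  · rcases hv _ hmem with h | h
    · have h1 := NCA.abs_ip ((ν (dpos a b δ)).1 - nrm gr (dpos a b δ)) (ddir a b δ)
      rw [u1, mul_one, NCA.ip_subl] at h1
      have := (abs_le.1 h1).2
      linarith
    · have h1 := NCA.abs_ip ((ν (dpos a b δ)).2 - nrm gr (dpos a b δ)) (ddir a b δ)
      rw [u1, mul_one, NCA.ip_subl] at h1
      have := (abs_le.1 h1).2
      linarith
  · have h0 := abs_le.1 ((hs δ).2.2 (by simp))
    have h1 := NCA.abs_dt ((ν (dpos a b δ)).1 - nrm gr (dpos a b δ)) (ddir a b δ)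
    have h2 := NCA.abs_dt ((ν (dpos a b δ)).1 - nrm gr (dpos a b δ)) (ddir a b (σ δ))
    rw [u1, mul_one, NCA.dt_subl] at h1
    rw [u2, mul_one, NCA.dt_subl] at h2
    have h3 := abs_le.1 h1
    have h4 := abs_le.1 h2
    exact abs_le.2 ⟨by linarith [h0.1, h3.2, h4.2], by linarith [h0.2, h3.1, h4.1]⟩

end Pool.Agent.MP_20201c_gt.H91
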