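import Pool.Agent.MP_20201c_gt.H91.Defs4

/-! Concurrent chords of a circle. -/

open Set

namespace Pool.Agent.MP_20201c_gt.H91

namespace PI

variable {y : ℂ} {R : ℝ}

theorem sph {A : ℂ} (h : A ∈ Metric.sphere y R) :
    (A.re - y.re) ^ 2 + (A.im - y.im) ^ 2 = R ^ 2 := by
  rw [mem_sphere_iff_norm] at h
  have h1 := Complex.sq_norm (A - y)
  rw [h, Complex.normSq_apply, Complex.sub_re, Complex.sub_im] at h1
  linarith

theorem nsq_pos {u : ℂ} (h : u ≠ 0) : 0 < u.re ^ 2 + u.im ^ 2 := by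
  have h1 := Complex.normSq_pos.2 h
  rw [Complex.normSq_apply] at h1
  nlinarith

theorem par_of_dt {u v : ℂ} (hu : u ≠ 0) (h : dt u v = 0) : ∃ t : ℝ, v = t • u := by
  have h0 := nsq_pos hu
  rw [dt] at h
  refine ⟨(u.re * v.re + u.im * v.im) / (u.re ^ 2 + u.im ^ 2), Complex.ext ?_ ?_⟩
  · rw [Complex.smul_re, smul_eq_mul]
    field_simp
    linear_combination (-u.im) * h
  · rw [Complex.smul_im, smul_eq_mul]
    field_simp
    linear_combination u.re * h

theorem chord {A C : ℂ} (hA : A ∈ Metric.sphere y R) (hC : C ∈ Metric.sphere y R) (t : ℝ) :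
    ‖A + t • (C - A) - y‖ ^ 2 = R ^ 2 + (t ^ 2 - t) * ((C - A).re ^ 2 + (C - A).im ^ 2) := by
  have h1 := sph hA
  have h2 := sph hC
  rw [Complex.sq_norm, Complex.normSq_apply]
  simp only [Complex.sub_re, Complex.sub_im, Complex.add_re, Complex.add_im, Complex.smul_re,
    Complex.smul_im, smul_eq_mul]
  linear_combination (1 - t) * h1 + t * h2

/-- Three distinct points of a circle are not collinear. -/
theorem not_col {A B C : ℂ} (hA : A ∈ Metric.sphere y R) (hB : B ∈ Metric.sphere y R)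
    (hC : C ∈ Metric.sphere y R) (h : dt (B - A) (C - A) = 0) : B = A ∨ C = A ∨ C = B := by
  by_cases e : B = A
  · exact Or.inl e
  have hu : B - A ≠ 0 := sub_ne_zero.2 e
  obtain ⟨t, ht⟩ := par_of_dt hu h
  have h1 := chord hA hB t
  have e1 : A + t • (B - A) = C := by rw [← ht]; ring
  rw [e1, mem_sphere_iff_norm.1 hC] at h1
  have h2 : (t ^ 2 - t) * ((B - A).re ^ 2 + (B - A).im ^ 2) = 0 := by linarith
  rcases mul_eq_zero.1 h2 with h3 | h3
  · have h4 : t * (t - 1) = 0 := by linarith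
    rcases mul_eq_zero.1 h4 with h5 | h5
    · right; left
      rw [← e1, h5, zero_smul, add_zero]
    · right; right
      rw [← e1, show t = 1 by linarith, one_smul]; ring
  · exact absurd h3 (nsq_pos hu).ne'

theorem seg_ex {A B o : ℂ} (h : o ∈ segment ℝ A B) :
    ∃ t : ℝ, 0 ≤ t ∧ t ≤ 1 ∧ o = A + t • (B - A) := by
  rw [segment_eq_image'] at h
  obtain ⟨t, ht, rfl⟩ := h
  exact ⟨t, ht.1, ht.2, rfl⟩

theorem dt_seg {A B o : ℂ} (h : o ∈ segment ℝ A B) : dt (B - A) (o - A) = 0 := by
  obtain ⟨t, -, -, rfl⟩ := seg_ex h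
  simp only [dt, Complex.sub_re, Complex.sub_im, Complex.add_re, Complex.add_im, Complex.smul_re,
    Complex.smul_im, smul_eq_mul]
  ring

theorem extreme {A B X : ℂ} (hA : A ∈ Metric.sphere y R) (hB : B ∈ Metric.sphere y R)
    (hX : X ∈ Metric.sphere y R) (h : X ∈ segment ℝ A B) : X = A ∨ X = B := by
  rcases not_col hA hB hX (dt_seg h) with e | e
  · rw [e, segment_same] at h
    exact Or.inl h
  · exact e

theorem two_chords {X B C o : ℂ} (h1 : o ∈ segment ℝ X B) (h2 : o ∈ segment ℝ X C)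
    (ho : o ≠ X) : dt (B - X) (C - X) = 0 := by
  obtain ⟨s, -, -, e⟩ := seg_ex h2
  have hs : s ≠ 0 := by
    rintro rfl
    exact ho (by rw [e, zero_smul, add_zero])
  have h3 := dt_seg h1
  rw [e] at h3
  have h4 : s * dt (B - X) (C - X) = 0 := by
    rw [← h3]
    simp only [dt, Complex.sub_re, Complex.sub_im, Complex.add_re, Complex.add_im,
      Complex.smul_re, Complex.smul_im, smul_eq_mul]
    ring
  exact (mul_eq_zero.1 h4).resolve_left hs

theorem two_points {A B C D o o' : ℂ} (h1 : o ∈ segment ℝ A B) (h2 : o' ∈ segment ℝ A B)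
    (h3 : o ∈ segment ℝ C D) (h4 : o' ∈ segment ℝ C D) (ho : o ≠ o') :
    dt (B - A) (C - A) = 0 := by
  obtain ⟨s, -, -, e⟩ := seg_ex h3
  obtain ⟨t, -, -, e'⟩ := seg_ex h4
  have hst : s - t ≠ 0 := fun h => ho (by rw [e, e', sub_eq_zero.1 h])
  have a1 := dt_seg h1
  have a2 := dt_seg h2
  rw [e] at a1
  rw [e'] at a2
  have a3 : (s - t) * dt (B - A) (C - A) = 0 := by
    simp only [dt, Complex.sub_re, Complex.sub_im, Complex.add_re, Complex.add_im,
      Complex.smul_re, Complex.smul_im, smul_eq_mul] at a1 a2 ⊢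
    linear_combination s * a2 - t * a1
  exact (mul_eq_zero.1 a3).resolve_left hst

theorem cross {A B C D : ℂ} (hA : A ∈ Metric.sphere y R) (hB : B ∈ Metric.sphere y R)
    (hC : C ∈ Metric.sphere y R) (hD : D ∈ Metric.sphere y R)
    (h : dt (C - A) (B - A) * dt (C - A) (D - A) < 0) :
    ∃ o, o ∈ segment ℝ A C ∧ o ∈ segment ℝ B D := by
  set b := dt (C - A) (B - A) with hb
  set d := dt (C - A) (D - A) with hd
  have hbd : b - d ≠ 0 := by
    intro e
    rw [sub_eq_zero.1 e] at h
    nlinarith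
  have hu : C - A ≠ 0 := by
    intro e
    rw [hb, e] at h
    simp [dt] at h
  have ht : b / (b - d) ∈ Icc (0 : ℝ) 1 := by
    rcases lt_or_gt_of_ne hbd with h1 | h1
    · have h2 : b < 0 := by by_contra h2; nlinarith
      have h3 : 0 < d := by by_contra h3; nlinarith
      exact ⟨div_nonneg_of_nonpos h2.le h1.le, (div_le_one_of_neg h1).2 (by linarith)⟩
    · have h2 : 0 < b := by by_contra h2; nlinarith
      have h3 : d < 0 := by by_contra h3; nlinarith
      exact ⟨div_nonneg h2.le h1.le, (div_le_one h1).2 (by linarith)⟩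
  set o := B + (b / (b - d)) • (D - B) with ho
  have m1 : o ∈ segment ℝ B D := by
    rw [segment_eq_image']
    exact ⟨_, ht, rfl⟩
  have h0 : dt (C - A) (o - A) = 0 := by
    have e : dt (C - A) (o - A) = b + b / (b - d) * (d - b) := by
      simp only [ho, hb, hd, dt, Complex.sub_re, Complex.sub_im, Complex.add_re, Complex.add_im,
        Complex.smul_re, Complex.smul_im, smul_eq_mul]
      ring
    rw [e]; field_simp; ring
  obtain ⟨t, e⟩ := par_of_dt hu h0
  have e1 : A + t • (C - A) = o := by rw [← e]; ring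
  have m2 : o ∈ Metric.closedBall y R :=
    (convex_closedBall y R).segment_subset (Metric.sphere_subset_closedBall hB)
      (Metric.sphere_subset_closedBall hD) m1
  have h1 := chord hA hC t
  rw [e1] at h1
  have h2 : ‖o - y‖ ^ 2 ≤ R ^ 2 :=
    pow_le_pow_left₀ (norm_nonneg _) (mem_closedBall_iff_norm.1 m2) 2
  have h3 : t ^ 2 - t ≤ 0 := by
    by_contra hc
    have := mul_pos (not_le.1 hc) (nsq_pos hu)
    linarith
  refine ⟨o, ?_, m1⟩
  rw [segment_eq_image']
  exact ⟨t, ⟨by nlinarith, by nlinarith⟩, e1⟩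

/-- Transitivity of the orientation seen from a point of the circle. -/
theorem trans {A B C D : ℂ} (hA : A ∈ Metric.sphere y R) (hB : B ∈ Metric.sphere y R)
    (hC : C ∈ Metric.sphere y R) (hD : D ∈ Metric.sphere y R)
    (h1 : 0 < dt (B - A) (C - A)) (h2 : 0 < dt (C - A) (D - A)) : 0 < dt (B - A) (D - A) := by
  have nB : B - A ≠ 0 := by
    intro e; rw [e] at h1; simp [dt] at h1
  have nD : D - A ≠ 0 := by
    intro e; rw [e] at h2; simp [dt] at h2
  have key : dt (B - A) (D - A) * ((C - A).re ^ 2 + (C - A).im ^ 2) =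
      dt (C - A) (D - A) * ((B - A).re ^ 2 + (B - A).im ^ 2) +
        dt (B - A) (C - A) * ((D - A).re ^ 2 + (D - A).im ^ 2) := by
    have a := sph hA
    have b := sph hB
    have c := sph hC
    have d := sph hD
    simp only [dt, Complex.sub_re, Complex.sub_im]
    linear_combination
      ((B.re - A.re) * (D.im - A.im) - (B.im - A.im) * (D.re - A.re)) * (c - a) -
      ((C.re - A.re) * (D.im - A.im) - (C.im - A.im) * (D.re - A.re)) * (b - a) -
      ((B.re - A.re) * (C.im - A.im) - (B.im - A.im) * (C.re - A.re)) * (d - a)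
  have h3 := mul_pos h2 (nsq_pos nB)
  have h4 := mul_pos h1 (nsq_pos nD)
  by_contra hc
  have h5 : dt (B - A) (D - A) * ((C - A).re ^ 2 + (C - A).im ^ 2) ≤ 0 :=
    mul_nonpos_of_nonpos_of_nonneg (not_lt.1 hc) (by positivity)
  linarith

theorem dt_swap (u v : ℂ) : dt u v = -dt v u := by simp only [dt]; ring

theorem dt_self (u : ℂ) : dt u u = 0 := by simp only [dt]; ring

variable {n : ℕ}

/-- All chords pass through `o`. -/
def Con (p : Fin n → ℂ) (π : Fin n → Fin n) (o : ℂ) : Prop :=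
  Function.Involutive π ∧ ∀ i, o ∈ segment ℝ (p i) (p (π i))

theorem exists_not_mem (S : Finset (Fin n)) (h : S.card < n) : ∃ i, i ∉ S := by
  by_contra hc
  have e : S = Finset.univ := Finset.eq_univ_of_forall fun i => by
    by_contra h'
    exact hc ⟨i, h'⟩
  rw [e, Finset.card_univ, Fintype.card_fin] at h
  exact lt_irrefl _ h

theorem exists_two (hn : 3 ≤ n) (a b : Fin n) : ∃ i, i ≠ a ∧ i ≠ b := by
  obtain ⟨i, hi⟩ := exists_not_mem {a, b} (Finset.card_le_two.trans_lt (by omega))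
  exact ⟨i, by simpa using hi⟩

theorem exists_four (hn : 5 ≤ n) (a b c d : Fin n) : ∃ i, i ≠ a ∧ i ≠ b ∧ i ≠ c ∧ i ≠ d := by
  obtain ⟨i, hi⟩ := exists_not_mem {a, b, c, d} (Finset.card_le_four.trans_lt (by omega))
  exact ⟨i, by simpa using hi⟩

variable {p p' : Fin n → ℂ} {π π' : Fin n → Fin n} {o o' : ℂ}

theorem Con.ne (h : Con p π o) (hn : 3 ≤ n) (hi : Function.Injective p)
    (hp : ∀ i, p i ∈ Metric.sphere y R) (j : Fin n) : o ≠ p j := by
  rintro rfl
  obtain ⟨i, h1, h2⟩ := exists_two hn j (π j)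
  rcases extreme (hp i) (hp (π i)) (hp j) (h.2 i) with e | e
  · exact h1 (hi e).symm
  · exact h2 (by rw [hi e, h.1 i])

theorem Con.nofix (h : Con p π o) (hn : 3 ≤ n) (hi : Function.Injective p)
    (hp : ∀ i, p i ∈ Metric.sphere y R) (j : Fin n) : π j ≠ j := by
  intro e
  have h1 := h.2 j
  rw [e, segment_same] at h1
  exact h.ne hn hi hp j h1

open Classical in
/-- The points to the left of the chord from `i` to `m`. -/
noncomputable def Lf (p : Fin n → ℂ) (i m : Fin n) : Finset (Fin n) :=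
  Finset.univ.filter fun l => 0 < dt (p m - p i) (p l - p i)

open Classical in
/-- The points to the right of the chord from `i` to `m`. -/
noncomputable def Rt (p : Fin n → ℂ) (i m : Fin n) : Finset (Fin n) :=
  Finset.univ.filter fun l => 0 < dt (p l - p i) (p m - p i)

theorem mem_Lf {i m l : Fin n} : l ∈ Lf p i m ↔ 0 < dt (p m - p i) (p l - p i) := by simp [Lf]

theorem mem_Rt {i m l : Fin n} : l ∈ Rt p i m ↔ 0 < dt (p l - p i) (p m - p i) := by simp [Rt]

theorem Con.bal (h : Con p π o) (hn : 3 ≤ n) (hi : Function.Injective p)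
    (hp : ∀ i, p i ∈ Metric.sphere y R) (i : Fin n) :
    (Lf p i (π i)).card = (Rt p i (π i)).card := by
  have key : ∀ l, ∃ t : ℝ, 0 < t ∧ t < 1 ∧
      (1 - t) * dt (p (π i) - p i) (p l - p i) + t * dt (p (π i) - p i) (p (π l) - p i) = 0 := by
    intro l
    obtain ⟨t, h0, h1, e⟩ := seg_ex (h.2 l)
    refine ⟨t, lt_of_le_of_ne h0 ?_, lt_of_le_of_ne h1 ?_, ?_⟩
    · rintro rfl
      exact h.ne hn hi hp l (by rw [e, zero_smul, add_zero])
    · rintro rfl
      exact h.ne hn hi hp (π l) (by rw [e, one_smul]; ring)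
    · have h2 := dt_seg (h.2 i)
      rw [e] at h2
      rw [← h2]
      simp only [dt, Complex.sub_re, Complex.sub_im, Complex.add_re, Complex.add_im,
        Complex.smul_re, Complex.smul_im, smul_eq_mul]
      ring
  refine le_antisymm (Finset.card_le_card_of_injOn π (fun l hl => ?_) h.1.injective.injOn)
    (Finset.card_le_card_of_injOn π (fun l hl => ?_) h.1.injective.injOn)
  · obtain ⟨t, h0, h1, e⟩ := key l
    rw [Finset.mem_coe, mem_Lf] at hl
    rw [Finset.mem_coe, mem_Rt, dt_swap]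
    by_contra hc
    nlinarith [mul_pos (sub_pos.2 h1) hl]
  · obtain ⟨t, h0, h1, e⟩ := key l
    rw [Finset.mem_coe, mem_Rt, dt_swap] at hl
    rw [Finset.mem_coe, mem_Lf]
    by_contra hc
    nlinarith [mul_pos (sub_pos.2 h1) hl]

theorem bal_lt (hp : ∀ i, p i ∈ Metric.sphere y R) {i m m' : Fin n}
    (h : 0 < dt (p m - p i) (p m' - p i)) (h1 : (Lf p i m).card = (Rt p i m).card)
    (h2 : (Lf p i m').card = (Rt p i m').card) : False := by
  have a1 : Lf p i m' ⊂ Lf p i m := by
    refine Finset.ssubset_iff_subset_ne.2 ⟨fun l hl => ?_, fun e => ?_⟩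
    · exact mem_Lf.2 (trans (hp i) (hp m) (hp m') (hp l) h (mem_Lf.1 hl))
    · have h3 : m' ∈ Lf p i m' := by rw [e]; exact mem_Lf.2 h
      rw [mem_Lf, dt_self] at h3
      exact lt_irrefl _ h3
  have a2 : Rt p i m ⊆ Rt p i m' := fun l hl =>
    mem_Rt.2 (trans (hp i) (hp l) (hp m) (hp m') (mem_Rt.1 hl) h)
  have b1 := Finset.card_lt_card a1
  have b2 := Finset.card_le_card a2
  omega

theorem bal_unique (hi : Function.Injective p) (hp : ∀ i, p i ∈ Metric.sphere y R)
    {i m m' : Fin n} (hm : m ≠ i) (hm' : m' ≠ i) (h1 : (Lf p i m).card = (Rt p i m).card)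
    (h2 : (Lf p i m').card = (Rt p i m').card) : m = m' := by
  rcases lt_trichotomy (dt (p m - p i) (p m' - p i)) 0 with h | h | h
  · exact (bal_lt hp (by rw [dt_swap]; linarith) h2 h1).elim
  · rcases not_col (hp i) (hp m) (hp m') h with e | e | e
    · exact absurd (hi e) hm
    · exact absurd (hi e) hm'
    · exact (hi e).symm
  · exact (bal_lt hp h h1 h2).elim

/-- Two concurrent configurations of the same order type that differ in one point are equal. -/
theorem Con.unique (h : Con p π o) (h' : Con p' π' o') (hn : 5 ≤ n) (hi : Function.Injective p)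
    (hi' : Function.Injective p') (hp : ∀ i, p i ∈ Metric.sphere y R)
    (hp' : ∀ i, p' i ∈ Metric.sphere y R) {j : Fin n} (hj : ∀ i, i ≠ j → p' i = p i)
    (hs : ∀ i m l, 0 < dt (p m - p i) (p l - p i) ↔ 0 < dt (p' m - p' i) (p' l - p' i)) :
    p' j = p j := by
  have h3 : 3 ≤ n := by omega
  have eπ : π' = π := by
    funext i
    have e1 : Lf p' i (π' i) = Lf p i (π' i) := by
      ext l; rw [mem_Lf, mem_Lf, hs]
    have e2 : Rt p' i (π' i) = Rt p i (π' i) := by
      ext l; rw [mem_Rt, mem_Rt, hs]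
    refine bal_unique hi hp (h'.nofix h3 hi' hp' i) (h.nofix h3 hi hp i) ?_ (h.bal h3 hi hp i)
    rw [← e1, ← e2]
    exact h'.bal h3 hi' hp' i
  subst eπ
  have tr : ∀ i, i ≠ j → i ≠ π' j → o' ∈ segment ℝ (p i) (p (π' i)) := by
    intro i a b
    have h1 := h'.2 i
    rwa [hj i a, hj (π' i) fun e => b (by rw [← e, h.1 i])] at h1
  have eo : o = o' := by
    by_contra hc
    obtain ⟨i, a1, a2⟩ := exists_two h3 j (π' j)
    obtain ⟨i', b1, b2, b3, b4⟩ := exists_four hn j (π' j) i (π' i)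
    rcases not_col (hp i) (hp (π' i)) (hp i')
      (two_points (h.2 i) (tr i a1 a2) (h.2 i') (tr i' b1 b2) hc) with e | e | e
    · exact h.nofix h3 hi hp i (hi e)
    · exact b3 (hi e)
    · exact b4 (hi e)
  subst eo
  have nf := h.nofix h3 hi hp j
  have s1 := h.2 j
  have s2 := h'.2 j
  rw [hj _ nf] at s2
  rw [segment_symm] at s1 s2
  rcases not_col (hp (π' j)) (hp j) (hp' j) (two_chords s1 s2 (h.ne h3 hi hp _)) with e | e | e
  · exact absurd (hi e).symm nf
  · rw [← hj _ nf] at e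
    exact absurd (hi' e).symm nf
  · exact e

/-- No concurrency at a simple collision. -/
theorem collide (hn : 5 ≤ n) (hi : Function.Injective p) (hp : ∀ i, p i ∈ Metric.sphere y R)
    {j l : Fin n} (hl : l ≠ j) : ¬ Con (Function.update p j (p l)) π o := by
  intro h
  have hq : ∀ i, i ≠ j → Function.update p j (p l) i = p i := fun i hi =>
    Function.update_of_ne hi _ _
  by_cases ho : o = p l
  · obtain ⟨i, a1, a2, a3, a4⟩ := exists_four hn j l (π j) (π l)
    have b1 : π i ≠ j := fun e => a3 (by rw [← e, h.1 i])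
    have b2 : π i ≠ l := fun e => a4 (by rw [← e, h.1 i])
    have h1 := h.2 i
    rw [hq i a1, hq _ b1, ho] at h1
    rcases extreme (hp i) (hp _) (hp l) h1 with e | e
    · exact a2 (hi e).symm
    · exact b2 (hi e).symm
  · have s1 := h.2 j
    have s2 := h.2 l
    rw [Function.update_self] at s1
    rw [hq l hl] at s2
    have c : ∀ i, o ∈ segment ℝ (p l) (Function.update p j (p l) i) → i ≠ j ∧ i ≠ l := by
      intro i hs
      constructor
      · rintro rfl
        rw [Function.update_self, segment_same] at hs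
        exact ho hs
      · rintro rfl
        rw [hq i hl, segment_same] at hs
        exact ho hs
    obtain ⟨c1, c2⟩ := c _ s1
    obtain ⟨c3, c4⟩ := c _ s2
    rw [hq _ c1] at s1
    rw [hq _ c3] at s2
    rcases not_col (hp l) (hp _) (hp _) (two_chords s1 s2 ho) with e | e | e
    · exact c2 (hi e)
    · exact c4 (hi e)
    · exact hl (h.1.injective (hi e))

theorem con_two (p : Fin 2 → ℂ) : ∃ π o, Con p π o := by
  refine ⟨![1, 0], p 0, fun i => by fin_cases i <;> rfl, fun i => ?_⟩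
  fin_cases i
  · exact left_mem_segment ℝ _ _
  · exact right_mem_segment ℝ _ _

theorem con_four {p : Fin 4 → ℂ} (hi : Function.Injective p)
    (hp : ∀ i, p i ∈ Metric.sphere y R) : ∃ π o, Con p π o := by
  have nz : ∀ a b : Fin 4, a ≠ 0 → b ≠ 0 → b ≠ a → dt (p a - p 0) (p b - p 0) ≠ 0 := by
    intro a b h1 h2 h3 e
    rcases not_col (hp 0) (hp a) (hp b) e with e | e | e
    · exact h1 (hi e)
    · exact h2 (hi e)
    · exact h3 (hi e)
  have n1 := nz 1 2 (by decide) (by decide) (by decide)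
  have n2 := nz 2 3 (by decide) (by decide) (by decide)
  have n3 := nz 1 3 (by decide) (by decide) (by decide)
  by_cases c1 : dt (p 1 - p 0) (p 2 - p 0) * dt (p 1 - p 0) (p 3 - p 0) < 0
  · obtain ⟨o, a, b⟩ := cross (hp 0) (hp 2) (hp 1) (hp 3) c1
    refine ⟨![1, 0, 3, 2], o, fun i => by fin_cases i <;> rfl, fun i => ?_⟩
    fin_cases i
    · exact a
    · rw [segment_symm] at a; exact a
    · exact b
    · rw [segment_symm] at b; exact b
  by_cases c2 : dt (p 2 - p 0) (p 1 - p 0) * dt (p 2 - p 0) (p 3 - p 0) < 0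
  · obtain ⟨o, a, b⟩ := cross (hp 0) (hp 1) (hp 2) (hp 3) c2
    refine ⟨![2, 3, 0, 1], o, fun i => by fin_cases i <;> rfl, fun i => ?_⟩
    fin_cases i
    · exact a
    · exact b
    · rw [segment_symm] at a; exact a
    · rw [segment_symm] at b; exact b
  have c3 : dt (p 3 - p 0) (p 1 - p 0) * dt (p 3 - p 0) (p 2 - p 0) < 0 := by
    rw [dt_swap (p 2 - p 0) (p 1 - p 0)] at c2
    rw [dt_swap (p 3 - p 0) (p 1 - p 0), dt_swap (p 3 - p 0) (p 2 - p 0)]
    set a := dt (p 1 - p 0) (p 2 - p 0)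
    set b := dt (p 2 - p 0) (p 3 - p 0)
    set c := dt (p 1 - p 0) (p 3 - p 0)
    have d1 : 0 < a * c := lt_of_le_of_ne (not_lt.1 c1) (mul_ne_zero n1 n3).symm
    have d2 : a * b < 0 := lt_of_le_of_ne (by linarith [not_lt.1 c2]) (mul_ne_zero n1 n2)
    have d3 := mul_neg_of_pos_of_neg d1 d2
    by_contra hc
    nlinarith [mul_nonneg (sq_nonneg a) (not_lt.1 hc)]
  obtain ⟨o, a, b⟩ := cross (hp 0) (hp 1) (hp 3) (hp 2) c3
  refine ⟨![3, 2, 1, 0], o, fun i => by fin_cases i <;> rfl, fun i => ?_⟩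
  fin_cases i
  · exact a
  · exact b
  · rw [segment_symm] at b; exact b
  · rw [segment_symm] at a; exact a

end PI

end Pool.Agent.MP_20201c_gt.H91
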