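import Pool.Agent.MP_20201c_gt.H91.Engine
import Pool.Agent.MP_20201c_gt.H91.Cone

/-! Pushing down through a window and continuation. -/

open MeasureTheory Set Filter Topology
open scoped ENNReal

namespace Pool.Agent.MP_20201c_gt.H91

namespace PushA

theorem nd_mono {N N' : ℕ} {G W : Set ℂ} {β : ℂ → F2} {t t' : ℝ} (h : t ≤ t') (hN : N ≤ N')
    {w : Ch Ms} (hw : w ∈ Sp (Nice G W β t ∩ Dle Ms N)) : w ∈ Sp (Nice G W β t' ∩ Dle Ms N') :=
  sp_mono (inter_subset_inter (nice_mono h) fun _ hs => le_trans hs hN) hw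

theorem fill_mono {N N' : ℕ} {G W : Set ℂ} {β : ℂ → F2} {t t' s s' : ℝ} (h : Fill N G W β t t')
    (hN : N' ≤ N) (h1 : s ≤ t) (h2 : t' ≤ s') : Fill N' G W β s s' := fun z hz hb => by
  obtain ⟨w, hw, e⟩ := h z (nd_mono h1 hN hz) hb
  exact ⟨w, sp_mono (nice_mono h2) hw, e⟩

theorem uc_mono {N N' M M' : ℕ} {G W : Set ℂ} {β : ℂ → F2} {c : ℝ} (h : UC N M G W β c)
    (hN : N' ≤ N) (hM : M' ≤ M) : UC N' M' G W β c := by
  intro ρ hρ
  obtain ⟨g, hg, h⟩ := h ρ hρ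
  refine ⟨g, hg, fun T h1 h2 h3 => ?_⟩
  rcases h T h1 h2 h3 with ⟨y, hy, R, a, b⟩ | ⟨y, R, a, b⟩
  · exact Or.inl ⟨y, hy, fun i => R (Fin.castLE hM i), fun i => ⟨(a _).1, (a _).2.1,
      fun t ht ε hε => fill_mono ((a _).2.2 t ht ε hε) hN le_rfl le_rfl⟩,
      fun i j hij => b _ _ fun e => hij (Fin.castLE_injective hM e)⟩
  · exact Or.inr ⟨fun i => y (Fin.castLE hM i), fun i => R (Fin.castLE hM i), fun i => a _,
      fun i j hij => b _ _ fun e => hij (Fin.castLE_injective hM e)⟩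

theorem bd_eq {w w' h : Ch Ms} (e : w + w' = bd h) : bd w' = bd w := by
  have := congrArg bd e
  rw [map_add, bd_bd, add_eq_zero2] at this
  exact this.symm

theorem add_trans {a b c : Ch Ms} : a + c = (a + b) + (b + c) := by
  rw [add_assoc, ← add_assoc b, add_self2, zero_add]

end PushA

open PushA

theorem push {N : ℕ} {G W : Set ℂ} (hW : Convex ℝ W) (hWc : IsCompact W) {β : ℂ → F2}
    {t₁ t₂ : ℝ} (hU : ∀ c ∈ Icc t₁ t₂, UC N (2 ^ N) G W β c) (b : ℝ) {ε : ℝ} (hε : 0 < ε)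
    {w : Ch Ms} (hw : w ∈ Sp (Nice G W β t₂ ∩ Dle Ms N)) (hb : bd w ∈ Sp (Nice G W β b)) :
    ∃ w' ∈ Sp (Nice G W β (max b t₁ + ε) ∩ Dle Ms N),
      ∃ h ∈ Sp (Nice G W β (t₂ + ε)), w + w' = bd h := by
  let P : ℝ → Prop := fun t => ∀ ε, 0 < ε → ∃ w' ∈ Sp (Nice G W β (max b t + ε) ∩ Dle Ms N),
    ∃ h ∈ Sp (Nice G W β (t₂ + ε)), w + w' = bd h
  have hm : ∀ t t', t ≤ t' → P t → P t' := fun t t' htt hP ε hε => by
    obtain ⟨w', h1, h2⟩ := hP ε hε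
    exact ⟨w', nd_mono (by linarith [max_le_max_left b htt]) le_rfl h1, h2⟩
  have h2 : P t₂ := fun ε hε => ⟨w, nd_mono (by linarith [le_max_right b t₂]) le_rfl hw, 0,
    zero_mem _, by rw [add_self2, map_zero]⟩
  suffices P t₁ from this ε hε
  rcases le_total t₂ t₁ with h12 | h12
  · exact hm _ _ h12 h2
  set A := {t | t ∈ Icc t₁ t₂ ∧ P t} with hA
  have hne : A.Nonempty := ⟨t₂, ⟨h12, le_rfl⟩, h2⟩
  have hbd : BddBelow A := ⟨t₁, fun t ht => ht.1.1⟩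
  have hc : sInf A ∈ Icc t₁ t₂ :=
    ⟨le_csInf hne fun t ht => ht.1.1, csInf_le hbd ⟨⟨h12, le_rfl⟩, h2⟩⟩
  obtain ⟨δ, hδ, hE⟩ := engine hW hWc (hU _ hc)
  obtain ⟨t, ⟨ht, hP⟩, htc⟩ := exists_lt_of_csInf_lt hne (show sInf A < sInf A + δ / 2 by linarith)
  have h3 : P (sInf A - δ) := by
    intro ε hε
    rcases le_total t b with hb' | hb'
    · obtain ⟨w', h1, h2⟩ := hP ε hε
      rw [max_eq_left hb'] at h1
      exact ⟨w', nd_mono (by linarith [le_max_left b (sInf A - δ)]) le_rfl h1, h2⟩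
    · have m1 := min_le_left (ε / 2) (δ / 2)
      have m2 := min_le_right (ε / 2) (δ / 2)
      obtain ⟨w1, a1, h1, a2, e1⟩ := hP (min (ε / 2) (δ / 2)) (by positivity)
      rw [max_eq_right hb'] at a1
      obtain ⟨w2, a3, h2, a4, e2⟩ := hE _ b (ε / 2) (by linarith) (by positivity) w1 a1
        (by rwa [bd_eq e1])
      refine ⟨w2, nd_mono (by linarith) le_rfl a3, h1 + h2, add_mem
        (sp_mono (nice_mono (by linarith)) a2) (sp_mono (nice_mono (by linarith [ht.2])) a4), ?_⟩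
      rw [map_add, ← e1, ← e2]
      exact add_trans
  have h4 : sInf A ≤ max t₁ (sInf A - δ) := csInf_le hbd
    ⟨⟨le_max_left _ _, max_le h12 (by linarith [hc.2])⟩, hm _ _ (le_max_right _ _) h3⟩
  rcases le_max_iff.1 h4 with h5 | h5
  · exact hm _ _ (by linarith) h3
  · linarith

theorem PushA.one_fill {N : ℕ} {G W : Set ℂ} (hW : Convex ℝ W) (hWc : IsCompact W) {β : ℂ → F2}
    {lo hi t₁ t₂ : ℝ} (hU : ∀ c ∈ Ioo lo hi, UC (N + 1) (2 ^ (N + 1)) G W β c) (h1 : lo < t₁)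
    (h2 : t₂ < hi) (hF : Fill N G W β t₁ t₂) :
    ∀ t ∈ Ioo lo hi, ∀ ε, 0 < ε → Fill N G W β t (t + ε) := by
  intro t ht ε hε z hz hb
  set a := min t ((lo + t₁) / 2) with ha
  have a1 : lo < a := lt_min ht.1 (by linarith)
  have a2 : a ≤ t := min_le_left _ _
  have a3 : a ≤ (lo + t₁) / 2 := min_le_right _ _
  have m1 := min_le_left (ε / 2) ((t₁ - lo) / 2)
  have m2 := min_le_right (ε / 2) ((t₁ - lo) / 2)
  have m3 : 0 < min (ε / 2) ((t₁ - lo) / 2) := lt_min (by positivity) (by linarith)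
  obtain ⟨z', b1, h, b2, e1⟩ := push hW hWc (t₁ := a) (t₂ := t)
    (fun c hc => uc_mono (hU c ⟨a1.trans_le hc.1, hc.2.trans_lt ht.2⟩) (Nat.le_succ N)
      (Nat.pow_le_pow_right two_pos (Nat.le_succ N))) a m3 hz (by rw [hb]; exact zero_mem _)
  rw [max_self] at b1
  obtain ⟨w, c1, e2⟩ := hF z' (nd_mono (by linarith) le_rfl b1) (by rw [bd_eq e1, hb])
  obtain ⟨w1, c2, e3⟩ := proj_le (N := N) c1 (by rw [e2]; exact (sp_inter.1 b1).2)
  obtain ⟨w2, c3, h', -, e4⟩ := push hW hWc (t₁ := a) (t₂ := t₂)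
    (fun c hc => hU c ⟨a1.trans_le hc.1, hc.2.trans_lt h2⟩) _ (half_pos hε) c2
    (by rw [e3, e2]; exact (sp_inter.1 b1).1)
  rw [max_eq_left (by linarith)] at c3
  refine ⟨w2 + h, add_mem (sp_mono (nice_mono (by linarith)) (sp_inter.1 c3).1)
    (sp_mono (nice_mono (by linarith)) b2), ?_⟩
  rw [map_add, bd_eq e4, e3, e2, ← e1, add_comm z, ← add_assoc, add_self2, zero_add]

theorem cont {N : ℕ} {G W : Set ℂ} (hW : Convex ℝ W) (hWc : IsCompact W) {n : ℕ}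
    {q : ℝ → Fin n → ℂ} (hq : ContinuousOn q (Icc 0 1)) (hqW : ∀ s ∈ Icc (0 : ℝ) 1, ∀ i, q s i ∈ W)
    {lo hi : ℝ → ℝ} (hlo : ContinuousOn lo (Icc 0 1)) (hhi : ContinuousOn hi (Icc 0 1))
    (hlt : ∀ s ∈ Icc (0 : ℝ) 1, lo s < hi s)
    (hU : ∀ s ∈ Ico (0 : ℝ) 1, ∀ c ∈ Ioo (lo s) (hi s),
      UC (N + 1) (2 ^ (N + 1)) G W (ind (q s)) c)
    (h1 : Acyc N G W (ind (q 1)) (lo 1)) (h0 : Acyc N G W (ind (q 0)) (hi 0)) :
    Acyc N G W (ind (q 0)) (lo 0) := by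
  let Q : ℝ → Prop := fun s => ∀ t ∈ Ioo (lo s) (hi s), ∀ ε, 0 < ε →
    Fill N G W (ind (q s)) t (t + ε)
  have hQ1 : Q 1 := fun t ht ε hε => h1 t ht.1.le ε hε
  have tr : ∀ s ∈ Icc (0 : ℝ) 1, ∀ s' ∈ Ico (0 : ℝ) 1, ∀ m d : ℝ, 0 < d →
      m ∈ Ioo (lo s) (hi s) → lo s' < m - d → m + 2 * d < hi s' →
      ∑ i, ‖q s' i - q s i‖ ≤ d → Q s → Q s' := by
    intro s hs s' hs' m d hd hm a1 a2 a3 hQ
    have hF := fill_tail hW (q s') (q s) (hqW s' (Ico_subset_Icc_self hs')) (hqW s hs)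
      (t := m - d) (t' := m + d) a3 (by rw [sub_add_cancel]; exact hQ m hm d hd)
    exact one_fill hW hWc (hU s' hs') a1 (max_lt (by linarith) (by linarith)) hF
  set A := {s | s ∈ Icc (0 : ℝ) 1 ∧ Q s} with hA
  have h1A : (1 : ℝ) ∈ A := ⟨⟨zero_le_one, le_rfl⟩, hQ1⟩
  have hbd : BddBelow A := ⟨0, fun t ht => ht.1.1⟩
  set c := sInf A with hcd
  have hc : c ∈ Icc (0 : ℝ) 1 := ⟨le_csInf ⟨1, h1A⟩ fun t ht => ht.1.1, csInf_le hbd h1A⟩
  set d := (hi c - lo c) / 8 with hd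
  have hd0 : 0 < d := by linarith [hlt c hc]
  have hs : ContinuousWithinAt (fun s => ∑ i, ‖q s i - q c i‖) (Icc 0 1) c :=
    (continuousOn_finsetSum _ fun i _ =>
      (((continuous_apply i).comp_continuousOn hq).sub continuousOn_const).norm) c hc
  have e1 : ∀ᶠ s in 𝓝[Icc 0 1] c, ∑ i, ‖q s i - q c i‖ < d :=
    hs.eventually (gt_mem_nhds (by simpa using hd0))
  have e2 : ∀ᶠ s in 𝓝[Icc 0 1] c, lo s < lo c + d :=
    (hlo c hc).eventually (gt_mem_nhds (by linarith))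
  have e3 : ∀ᶠ s in 𝓝[Icc 0 1] c, hi c - d < hi s :=
    (hhi c hc).eventually (lt_mem_nhds (by linarith))
  obtain ⟨δ, hδ, hn⟩ := Metric.mem_nhdsWithin_iff.1 (e1.and (e2.and e3))
  have hQc : Q c := by
    rcases hc.2.eq_or_lt with h | h
    · rw [h]; exact hQ1
    · obtain ⟨s, hsA, hsc⟩ := exists_lt_of_csInf_lt ⟨1, h1A⟩ (show c < c + δ by linarith)
      have hcs : c ≤ s := csInf_le hbd hsA
      obtain ⟨a1, a2, a3⟩ := hn (a := s)
        ⟨by rw [Metric.mem_ball, Real.dist_eq, abs_lt]; constructor <;> linarith, hsA.1⟩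
      refine tr s hsA.1 c ⟨hc.1, h⟩ (lo c + 4 * d) d hd0 ⟨by linarith, by linarith⟩ (by linarith)
        (by linarith) ?_ hsA.2
      simpa only [norm_sub_rev] using a1.le
  have hc0 : c = 0 := by
    by_contra h
    have h' : 0 < c := lt_of_le_of_ne hc.1 (Ne.symm h)
    have b1 : max 0 (c - δ / 2) < c := max_lt h' (by linarith)
    have b2 := le_max_left 0 (c - δ / 2)
    have b3 := le_max_right 0 (c - δ / 2)
    have b4 : max 0 (c - δ / 2) ∈ Icc (0 : ℝ) 1 := ⟨b2, by linarith [hc.2]⟩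
    obtain ⟨a1, a2, a3⟩ := hn (a := max 0 (c - δ / 2))
      ⟨by rw [Metric.mem_ball, Real.dist_eq, abs_lt]; constructor <;> linarith, b4⟩
    have := tr c hc _ ⟨b2, by linarith [hc.2]⟩ (lo c + 4 * d) d hd0 ⟨by linarith, by linarith⟩
      (by linarith) (by linarith) a1.le hQc
    exact absurd (csInf_le hbd ⟨b4, this⟩) (not_le.2 b1)
  rw [hc0] at hQc
  intro t ht ε hε
  rcases le_or_gt (hi 0) t with h | h
  · exact h0 t h ε hε
  · have m1 := min_le_left (t + ε / 2) ((t + hi 0) / 2)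
    have m2 := min_le_right (t + ε / 2) ((t + hi 0) / 2)
    have m3 : t < min (t + ε / 2) ((t + hi 0) / 2) := lt_min (by linarith) (by linarith)
    exact fill_mono (hQc _ ⟨by linarith, by linarith⟩ (ε / 2) (half_pos hε)) le_rfl m3.le
      (by linarith)

end Pool.Agent.MP_20201c_gt.H91
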