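import Pool.Agent.MP_20201c_gt.H91.Defs0

/-! Removing the zeros of a defining function that are not boundary points. -/

open MeasureTheory Set Filter Topology
open scoped ENNReal ContDiff Manifold

namespace Pool.Agent.MP_20201c_gt.H91

theorem regular_zero_mem {ρ : ℂ → ℝ} {z : ℂ} (h0 : ρ z = 0) (h : fderiv ℝ ρ z ≠ 0) :
    z ∈ closure {w | 0 < ρ w} := by
  by_contra hz
  apply h
  apply IsLocalMax.fderiv_eq_zero
  filter_upwards [isClosed_closure.isOpen_compl.mem_nhds hz] with w hw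
  rw [h0]
  by_contra hlt
  exact hw (subset_closure (not_le.1 hlt))

theorem exists_regular {ρ : ℂ → ℝ} (hρ : ContDiff ℝ 2 ρ)
    (hr : ∀ z ∈ frontier {z | 0 < ρ z}, fderiv ℝ ρ z ≠ 0) :
    ∃ ρ' : ℂ → ℝ, ContDiff ℝ 2 ρ' ∧ {z | 0 < ρ' z} = {z | 0 < ρ z} ∧
      (∀ z, ρ' z = 0 → fderiv ℝ ρ' z ≠ 0) ∧
      ∀ z ∈ frontier {z | 0 < ρ z}, fderiv ℝ ρ' z = fderiv ℝ ρ z := by
  have ho : IsOpen {z | 0 < ρ z} := isOpen_lt continuous_const hρ.continuous
  have hZ : IsClosed {z | ρ z = 0 ∧ fderiv ℝ ρ z = 0} :=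
    (isClosed_eq hρ.continuous continuous_const).inter
      (isClosed_eq (hρ.continuous_fderiv (by norm_num)) continuous_const)
  have hd : Disjoint (closure {z | 0 < ρ z}) {z | ρ z = 0 ∧ fderiv ℝ ρ z = 0} := by
    refine disjoint_left.2 fun z hz hz' => hr z ⟨hz, ?_⟩ hz'.2
    rw [ho.interior_eq]
    simp [hz'.1]
  obtain ⟨χ, h0, h1, h01⟩ := exists_contMDiffMap_zero_one_of_isClosed (n := 2) 𝓘(ℝ, ℂ)
    isClosed_closure hZ hd
  have hχ : ContDiff ℝ 2 χ := χ.contMDiff.contDiff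
  have hder : ∀ z, χ z = 0 → fderiv ℝ (fun w => ρ w - χ w) z = fderiv ℝ ρ z := by
    intro z hz
    have hm : IsLocalMin χ z := Eventually.of_forall fun w => by rw [hz]; exact (h01 w).1
    rw [fderiv_fun_sub (hρ.differentiable (by norm_num) z) (hχ.differentiable (by norm_num) z),
      hm.fderiv_eq_zero, sub_zero]
  refine ⟨fun w => ρ w - χ w, hρ.sub hχ, ?_, ?_, fun z hz => hder z (h0 hz.1)⟩
  · ext z
    simp only [mem_ofPred_eq]
    constructor
    · intro h; linarith [(h01 z).1]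
    · intro h
      have : χ z = 0 := h0 (subset_closure h)
      linarith
  · intro z hz
    have hz' : ρ z - χ z = 0 := hz
    have hχ0 : χ z = 0 := by
      by_cases hp : 0 < ρ z
      · exact h0 (subset_closure hp)
      · linarith [(h01 z).1, not_lt.1 hp]
    rw [hder z hχ0]
    intro hf
    have : χ z = 1 := h1 ⟨by linarith, hf⟩
    linarith

theorem IsBilliard.congr {ρ ρ' : ℂ → ℝ} (he : {z | 0 < ρ' z} = {z | 0 < ρ z})
    (hd : ∀ z ∈ frontier {z | 0 < ρ z}, fderiv ℝ ρ' z = fderiv ℝ ρ z) {γ : List (ℂ × ℂ)}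
    (h : IsBilliard ρ' γ) : IsBilliard ρ γ := by
  obtain ⟨hne, h1, h2, h3⟩ := h
  rw [he] at h1
  have ht : ∀ z ∈ frontier {z | 0 < ρ z}, tang ρ' z = tang ρ z := fun z hz => by
    rw [tang, tang, hd z hz]
  have hR : ∀ s ∈ γ, ∀ s', Refl ρ' s s' → Refl ρ s s' := fun s hs s' hr => by
    refine ⟨hr.1, ?_⟩
    have := hr.2
    simp only [ht _ (h1 s hs).2.2.1] at this
    exact this
  refine ⟨hne, h1, ?_, ?_⟩
  · rw [List.isChain_iff_getElem] at h2 ⊢
    intro i hi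
    exact hR _ (List.getElem_mem _) _ (h2 i hi)
  · rcases h3 with h3 | h3
    · exact Or.inl (hR _ (List.getLast_mem hne) _ h3)
    · right
      rw [← ht _ (h1 _ (List.head_mem hne)).2.1, ← ht _ (h1 _ (List.getLast_mem hne)).2.2.1]
      exact h3

end Pool.Agent.MP_20201c_gt.H91
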