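import Pool.Agent.MP_20201c_gt.H91.KitC

/-! One round of deformation by acyclic carriers over the simplices. -/

open MeasureTheory Set Filter Topology
open scoped ENNReal

namespace Pool.Agent.MP_20201c_gt.H91

/-- The tautological simplex over `s`. -/
def diag {Y M : Type} (m₀ : Y → M) (s : Sx Y) : Sx (Sm s.1 × M) :=
  ⟨s.1, fun x => (x, m₀ (s.2 x))⟩

/-- Realisation of a simplex over `s`. -/
def rl {Y M : Type} (R : Y → M → Y) (s : Sx Y) (x : Sx (Sm s.1 × M)) : Sx Y :=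
  smap (fun q => R (s.2 q.1) q.2) x

namespace Rd

theorem dep_rec {T : ℕ → Type} (P : ∀ n, T n → Prop) (Q : ∀ n, T n → T (n + 1) → Prop)
    (h0 : ∃ t, P 0 t) (hs : ∀ n t, P n t → ∃ t', P (n + 1) t' ∧ Q n t t') :
    ∃ F : ∀ n, T n, (∀ n, P n (F n)) ∧ ∀ n, Q n (F n) (F (n + 1)) := by
  choose g hg1 hg2 using hs
  obtain ⟨t0, ht0⟩ := h0
  let F : ∀ n, {t : T n // P n t} := fun n =>
    Nat.rec (motive := fun n => {t : T n // P n t}) ⟨t0, ht0⟩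
      (fun n t => ⟨g n t.1 t.2, hg1 n t.1 t.2⟩) n
  exact ⟨fun n => (F n).1, fun n => (F n).2, fun n => hg2 n (F n).1 (F n).2⟩

variable {Y M : Type}

/-- The sum of the values on the faces. -/
noncomputable def dP (n : ℕ) (G : (Sm n → Y) → Ch (Sm n × M)) (f : Sm (n + 1) → Y) :
    Ch (Sm (n + 1) × M) :=
  ∑ i : Fin (n + 1), mp (Prod.map (fc n i) id) (G (f ∘ fc n i))

theorem dP_dP (n : ℕ) (G : (Sm n → Y) → Ch (Sm n × M)) (f : Sm (n + 2) → Y) :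
    dP (n + 1) (dP n G) f = 0 := by
  unfold dP
  simp only [map_sum, mp_mp]
  exact sum_sum_faces n fun φ => mp (Prod.map φ id) (G (f ∘ φ))

theorem dP_congr (n : ℕ) {G G' : (Sm n → Y) → Ch (Sm n × M)} {f : Sm (n + 1) → Y}
    (h : ∀ i, G (f ∘ fc n i) = G' (f ∘ fc n i)) : dP n G f = dP n G' f :=
  Finset.sum_congr rfl fun i _ => by rw [h i]

theorem dP_add (n : ℕ) (G G' : (Sm n → Y) → Ch (Sm n × M)) (f : Sm (n + 1) → Y) :
    dP n (fun g => G g + G' g) f = dP n G f + dP n G' f := by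
  simp only [dP, map_add, Finset.sum_add_distrib]

theorem dP_zero (n : ℕ) (f : Sm (n + 1) → Y) :
    dP n (fun _ => (0 : Ch (Sm n × M))) f = 0 := by
  simp only [dP, map_zero, Finset.sum_const_zero]

theorem bd_dP (n : ℕ) (G : (Sm n → Y) → Ch (Sm n × M)) (f : Sm (n + 1) → Y) :
    bd (dP n G f) = dP n (fun g => bd (G g)) f := by
  simp only [dP, map_sum, bd_mp]

/-- The tautological chain. -/
noncomputable def D (m₀ : Y → M) (n : ℕ) (f : Sm n → Y) : Ch (Sm n × M) :=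
  one (diag m₀ ⟨n, f⟩)

theorem bd_D (m₀ : Y → M) (n : ℕ) (f : Sm (n + 1) → Y) :
    bd (D m₀ (n + 1) f) = dP n (D m₀ n) f := by
  simp only [D, dP, bd_one, mp_one, diag, bdS]
  rfl

theorem bd_D0 (m₀ : Y → M) (f : Sm 0 → Y) : bd (D m₀ 0 f) = 0 := by
  simp only [D, bd_one, diag, bdS]

theorem rl_D (m₀ : Y → M) (R : Y → M → Y) (hR : ∀ y, R y (m₀ y) = y) (n : ℕ) (f : Sm n → Y) :
    mp (fun q : Sm n × M => R (f q.1) q.2) (D m₀ n f) = one ⟨n, f⟩ := by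
  simp only [D, mp_one, diag, smap]
  congr 2
  funext x
  exact hR _

theorem rl_dP (R : Y → M → Y) (n : ℕ) (G : (Sm n → Y) → Ch (Sm n × M)) (f : Sm (n + 1) → Y) :
    mp (fun q : Sm (n + 1) × M => R (f q.1) q.2) (dP n G f) =
      ∑ i : Fin (n + 1), mp (fun q : Sm n × M => R ((f ∘ fc n i) q.1) q.2) (G (f ∘ fc n i)) := by
  simp only [dP, map_sum, mp_mp]
  rfl

theorem mono_le {B : Type} {Hi : ℕ → Set B} (h : ∀ k, Hi k ⊆ Hi (k + 1)) {k l : ℕ}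
    (hkl : k ≤ l) : Hi k ⊆ Hi l := by
  induction l, hkl using Nat.le_induction with
  | base => exact subset_rfl
  | succ l _ ih => exact ih.trans (h l)

theorem fill {Z : Type} {P P' : Set (Sx Z)} {N n : ℕ} (hn : n ≤ N) (h : Bnd (P ∩ Dle Z N) P')
    {z : Ch Z} (hz : z ∈ Sp (P ∩ Dle Z n)) (h0 : bd z = 0) :
    ∃ w ∈ Sp (P' ∩ Dle Z (n + 1)), bd w = z := by
  have hsub : P ∩ Dle Z n ⊆ P ∩ Dle Z N := fun s hs => ⟨hs.1, le_trans hs.2 hn⟩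
  obtain ⟨w, hw, hb⟩ := h z (sp_mono hsub hz) h0
  obtain ⟨w', hw', hb'⟩ := proj_le (N := n) hw (hb ▸ (sp_inter.1 hz).2)
  exact ⟨w', hw', hb'.trans hb⟩

theorem mp_mem_d {Z Z' : Type} (g : Z → Z') {P : Set (Sx Z)} {Q : Set (Sx Z')} {n : ℕ}
    (h : ∀ s ∈ P, smap g s ∈ Q) {c : Ch Z} (hc : c ∈ Sp (P ∩ Dle Z n)) :
    mp g c ∈ Sp (Q ∩ Dle Z' n) := by
  refine mp_mem g (fun s hs => ?_) hc
  exact ⟨h s hs.1, hs.2⟩

theorem mp_mem_r (R : Y → M → Y) (s : Sx Y) {P : Set (Sx (Sm s.1 × M))} {n : ℕ}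
    {c : Ch (Sm s.1 × M)} (hc : c ∈ Sp (P ∩ Dle _ n)) :
    mp (fun q : Sm s.1 × M => R (s.2 q.1) q.2) c ∈
      Sp {s' | ∃ x ∈ P, x.1 ≤ n ∧ s' = rl R s x} := by
  refine mp_mem _ (fun x hx => ?_) hc
  exact ⟨x, hx.1, hx.2, rfl⟩

end Rd

open Rd in
theorem round {Y M : Type} (N : ℕ) (S No Al : Set (Sx Y)) (hS : FaceCl S)
    (hNo : ∀ (n : ℕ) (f : Sm (n + 1) → Y) (i : Fin (n + 1)), (⟨n + 1, f⟩ : Sx Y) ∈ S →
      (⟨n + 1, f⟩ : Sx Y) ∈ No → (⟨n, f ∘ fc n i⟩ : Sx Y) ∈ No)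
    (hAl : FaceCl Al) (hemp : emp Y ∈ No)
    (hNA : ∀ (n : ℕ) (f : Sm (n + 1) → Y) (i : Fin (n + 1)), (⟨n + 1, f⟩ : Sx Y) ∈ S →
      (⟨n + 1, f⟩ : Sx Y) ∈ Al → (⟨n + 1, f⟩ : Sx Y) ∉ No → (⟨n, f ∘ fc n i⟩ : Sx Y) ∈ No → n = 0)
    (m₀ : Y → M) (R : Y → M → Y) (hR : ∀ y, R y (m₀ y) = y)
    (Hi Lo : ℕ → ∀ s : Sx Y, Set (Sx (Sm s.1 × M)))
    (hHi : ∀ k s, Hi k s ⊆ Hi (k + 1) s) (hLo : ∀ k s, Lo k s ⊆ Lo (k + 1) s)
    (hLH : ∀ k, ∀ s ∈ S, s ∉ No → Lo k s ⊆ Hi k s)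
    (trHi : ∀ (k n : ℕ) (f : Sm (n + 1) → Y) (i : Fin (n + 1)), (⟨n + 1, f⟩ : Sx Y) ∈ S →
      (⟨n, f ∘ fc n i⟩ : Sx Y) ∉ No → ∀ x ∈ Hi k ⟨n, f ∘ fc n i⟩,
        smap (Prod.map (fc n i) id) x ∈ Hi k ⟨n + 1, f⟩)
    (trLo : ∀ (k n : ℕ) (f : Sm (n + 1) → Y) (i : Fin (n + 1)), (⟨n + 1, f⟩ : Sx Y) ∈ S →
      (⟨n, f ∘ fc n i⟩ : Sx Y) ∉ No → ∀ x ∈ Lo k ⟨n, f ∘ fc n i⟩,
        smap (Prod.map (fc n i) id) x ∈ Lo k ⟨n + 1, f⟩)
    (hface : ∀ s ∈ S, s ∉ No → FaceCl (Hi 0 s))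
    (hdiag : ∀ s ∈ S, s ∉ No → diag m₀ s ∈ Hi 0 s)
    (hemp' : ∀ s ∈ S, s ∉ No → emp _ ∈ Lo 0 s)
    (fillHi : ∀ k, ∀ s ∈ S, s ∉ No → Bnd (Hi k s ∩ Dle _ N) (Hi (k + 1) s))
    (fillLo : ∀ k, ∀ s ∈ S, s ∉ No → s ∈ Al → Bnd (Lo k s ∩ Dle _ N) (Lo (k + 1) s)) :
    ∃ A H : Ch Y →ₗ[F2] Ch Y,
      (∀ c ∈ Sp (S ∩ Dle Y N), bd (A c) = A (bd c) ∧ bd (H c) = c + A c + H (bd c)) ∧
      ∀ s ∈ S, s.1 ≤ N →
        (s ∈ No → A (one s) = one s ∧ H (one s) = 0) ∧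
        (s ∉ No →
          A (one s) ∈ Sp {s' | ∃ x ∈ Hi s.1 s, x.1 ≤ s.1 ∧ s' = rl R s x} ∧
          H (one s) ∈ Sp {s' | ∃ x ∈ Hi (s.1 + 1) s, x.1 ≤ s.1 + 1 ∧ s' = rl R s x} ∧
          (s ∈ Al → A (one s) ∈ Sp {s' | ∃ x ∈ Lo s.1 s, x.1 ≤ s.1 ∧ s' = rl R s x})) := by
  classical
  have key := dep_rec (T := fun n => (Sm n → Y) → Ch (Sm n × M) × Ch (Sm n × M))
    (fun n F => (∀ f : Sm n → Y, (⟨n, f⟩ : Sx Y) ∈ S → n ≤ N →
        ((⟨n, f⟩ : Sx Y) ∈ No → (F f).1 = D m₀ n f ∧ (F f).2 = 0) ∧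
        ((⟨n, f⟩ : Sx Y) ∉ No → (F f).1 ∈ Sp (Hi n ⟨n, f⟩ ∩ Dle _ n) ∧
          (F f).2 ∈ Sp (Hi (n + 1) ⟨n, f⟩ ∩ Dle _ (n + 1)) ∧
          ((⟨n, f⟩ : Sx Y) ∈ Al → (F f).1 ∈ Sp (Lo n ⟨n, f⟩ ∩ Dle _ n)))) ∧
      ∀ f : Sm (n + 1) → Y, (⟨n + 1, f⟩ : Sx Y) ∈ S → n + 1 ≤ N →
        bd (dP n (fun g => (F g).1) f) = 0 ∧
        bd (dP n (fun g => (F g).2) f) = dP n (D m₀ n) f + dP n (fun g => (F g).1) f)
    (fun n F F' => ∀ f : Sm (n + 1) → Y, (⟨n + 1, f⟩ : Sx Y) ∈ S → n + 1 ≤ N →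
      bd (F' f).1 = dP n (fun g => (F g).1) f ∧
      bd (F' f).2 = D m₀ (n + 1) f + (F' f).1 + dP n (fun g => (F g).2) f) ?_ ?_
  · obtain ⟨F, hP, hQ⟩ := key
    refine ⟨lift fun s => mp (fun q : Sm s.1 × M => R (s.2 q.1) q.2) (F s.1 s.2).1,
      lift fun s => mp (fun q : Sm s.1 × M => R (s.2 q.1) q.2) (F s.1 s.2).2, ?_, ?_⟩
    · refine sp_induction _ (by simp) ?_ ?_
      · intro c d hc hd
        simp only [map_add]
        refine ⟨by rw [hc.1, hd.1], ?_⟩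
        rw [hc.2, hd.2]; abel
      · rintro ⟨_ | n, f⟩ ⟨hs, hn⟩
        · have hno : (⟨0, f⟩ : Sx Y) ∈ No := by rw [sx_zero]; exact hemp
          obtain ⟨h1, h2⟩ := ((hP 0).1 f hs hn).1 hno
          simp only [lift_one, bd_one, bdS, map_zero, h1, h2, rl_D m₀ R hR, add_self2,
            and_self]
        · obtain ⟨h1, h2⟩ := hQ n f hs hn
          simp only [lift_one, bd_one, bdS, map_sum, bd_mp, h1, h2, map_add, rl_dP,
            rl_D m₀ R hR, and_self]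
    · rintro ⟨n, f⟩ hs hn
      obtain ⟨h1, h2⟩ := (hP n).1 f hs hn
      refine ⟨fun hno => ?_, fun hno => ?_⟩
      · obtain ⟨h3, h4⟩ := h1 hno
        simp only [lift_one, h3, h4, rl_D m₀ R hR, map_zero, and_self]
      · obtain ⟨h3, h4, h5⟩ := h2 hno
        simp only [lift_one]
        exact ⟨mp_mem_r R ⟨n, f⟩ h3, mp_mem_r R ⟨n, f⟩ h4, fun hal => mp_mem_r R ⟨n, f⟩ (h5 hal)⟩
  · refine ⟨fun f => (D m₀ 0 f, 0), fun f _ _ => ⟨fun _ => ⟨rfl, rfl⟩, fun hno => ?_⟩,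
      fun f _ _ => ?_⟩
    · exact absurd (by rw [sx_zero]; exact hemp) hno
    · simp only [bd_dP, bd_D0, map_zero, dP_zero, true_and]
      exact (add_self2 _).symm
  · rintro n F ⟨ha, hb⟩
    have hc : ∀ f : Sm (n + 1) → Y, ∃ t : Ch (Sm (n + 1) × M) × Ch (Sm (n + 1) × M),
        (⟨n + 1, f⟩ : Sx Y) ∈ S → n + 1 ≤ N →
        (((⟨n + 1, f⟩ : Sx Y) ∈ No → t.1 = D m₀ (n + 1) f ∧ t.2 = 0) ∧
        ((⟨n + 1, f⟩ : Sx Y) ∉ No → t.1 ∈ Sp (Hi (n + 1) ⟨n + 1, f⟩ ∩ Dle _ (n + 1)) ∧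
          t.2 ∈ Sp (Hi (n + 1 + 1) ⟨n + 1, f⟩ ∩ Dle _ (n + 1 + 1)) ∧
          ((⟨n + 1, f⟩ : Sx Y) ∈ Al → t.1 ∈ Sp (Lo (n + 1) ⟨n + 1, f⟩ ∩ Dle _ (n + 1))))) ∧
        bd t.1 = dP n (fun g => (F g).1) f ∧
        bd t.2 = D m₀ (n + 1) f + t.1 + dP n (fun g => (F g).2) f := by
      intro f
      by_cases hsn : (⟨n + 1, f⟩ : Sx Y) ∈ S ∧ n + 1 ≤ N
      swap
      · exact ⟨0, fun h1 h2 => absurd ⟨h1, h2⟩ hsn⟩
      obtain ⟨hs, hn⟩ := hsn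
      have hn' : n ≤ N := by omega
      have hf := fun i => ha (f ∘ fc n i) (hS n f i hs) hn'
      by_cases hno : (⟨n + 1, f⟩ : Sx Y) ∈ No
      · refine ⟨(D m₀ (n + 1) f, 0), fun _ _ => ⟨⟨fun _ => ⟨rfl, rfl⟩, fun h => absurd hno h⟩,
          ?_, ?_⟩⟩
        · rw [bd_D]
          exact dP_congr n fun i => ((hf i).1 (hNo n f i hs hno)).1.symm
        · rw [dP_congr n (G' := fun _ => 0) fun i => ((hf i).1 (hNo n f i hs hno)).2, dP_zero,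
            add_self2, map_zero, add_zero]
      · obtain ⟨hb1, hb2⟩ := hb f hs hn
        have hrho : ∃ r ∈ Sp (Hi (n + 1) ⟨n + 1, f⟩ ∩ Dle _ (n + 1)),
            ((⟨n + 1, f⟩ : Sx Y) ∈ Al → r ∈ Sp (Lo (n + 1) ⟨n + 1, f⟩ ∩ Dle _ (n + 1))) ∧
            bd r = dP n (fun g => (F g).1) f := by
          by_cases hal : (⟨n + 1, f⟩ : Sx Y) ∈ Al
          · have hz : dP n (fun g => (F g).1) f ∈ Sp (Lo n ⟨n + 1, f⟩ ∩ Dle _ n) := by
              refine Submodule.sum_mem _ fun i _ => ?_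
              beta_reduce
              by_cases hi : (⟨n, f ∘ fc n i⟩ : Sx Y) ∈ No
              · have h0 := hNA n f i hs hal hno hi
                subst h0
                rw [((hf i).1 hi).1, D, mp_one]
                refine one_mem ⟨?_, Nat.le_refl 0⟩
                have : smap (Prod.map (fc 0 i) (id : M → M)) (diag m₀ ⟨0, f ∘ fc 0 i⟩) = emp _ :=
                  sx_zero _
                rw [this]
                exact hemp' _ hs hno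
              · exact mp_mem_d _ (trLo n n f i hs hi) (((hf i).2 hi).2.2 (hAl n f i hal))
            obtain ⟨r, hr, hbr⟩ := fill hn' (fillLo n _ hs hno hal) hz hb1
            exact ⟨r, sp_mono (inter_subset_inter_left _ (hLH _ _ hs hno)) hr, fun _ => hr, hbr⟩
          · have hz : dP n (fun g => (F g).1) f ∈ Sp (Hi n ⟨n + 1, f⟩ ∩ Dle _ n) := by
              refine Submodule.sum_mem _ fun i _ => ?_
              beta_reduce
              by_cases hi : (⟨n, f ∘ fc n i⟩ : Sx Y) ∈ No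
              · rw [((hf i).1 hi).1, D, mp_one]
                refine one_mem ⟨?_, Nat.le_refl n⟩
                exact mono_le (fun k => hHi k _) (Nat.zero_le n)
                  (hface _ hs hno n _ i (hdiag _ hs hno))
              · exact mp_mem_d _ (trHi n n f i hs hi) ((hf i).2 hi).1
            obtain ⟨r, hr, hbr⟩ := fill hn' (fillHi n _ hs hno) hz hb1
            exact ⟨r, hr, fun h => absurd h hal, hbr⟩
        obtain ⟨r, hr, hrl, hbr⟩ := hrho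
        have hz : D m₀ (n + 1) f + r + dP n (fun g => (F g).2) f ∈
            Sp (Hi (n + 1) ⟨n + 1, f⟩ ∩ Dle _ (n + 1)) := by
          refine Submodule.add_mem _ (Submodule.add_mem _ ?_ hr) ?_
          · exact one_mem ⟨mono_le (fun k => hHi k _) (Nat.zero_le _) (hdiag _ hs hno),
              Nat.le_refl (n + 1)⟩
          · refine Submodule.sum_mem _ fun i _ => ?_
            beta_reduce
            by_cases hi : (⟨n, f ∘ fc n i⟩ : Sx Y) ∈ No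
            · rw [((hf i).1 hi).2, map_zero]
              exact Submodule.zero_mem _
            · exact mp_mem_d _ (trHi (n + 1) n f i hs hi) ((hf i).2 hi).2.1
        have hz0 : bd (D m₀ (n + 1) f + r + dP n (fun g => (F g).2) f) = 0 := by
          rw [map_add, map_add, bd_D, hbr, hb2, add_self2]
        obtain ⟨w, hw, hbw⟩ := fill hn (fillHi (n + 1) _ hs hno) hz hz0
        exact ⟨(r, w), fun _ _ => ⟨⟨fun h => absurd h hno, fun _ => ⟨hr, hw, hrl⟩⟩, hbr, hbw⟩⟩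
    choose F' hF' using hc
    refine ⟨F', ⟨fun f hs hn => (hF' f hs hn).1, fun f hs hn => ?_⟩,
      fun f hs hn => (hF' f hs hn).2⟩
    have hf := fun i => (hF' (f ∘ fc (n + 1) i) (hS _ f i hs) (by omega)).2
    refine ⟨?_, ?_⟩
    · rw [bd_dP, dP_congr (n + 1) (G' := dP n fun g => (F g).1) fun i => (hf i).1, dP_dP]
    · rw [bd_dP, dP_congr (n + 1)
        (G' := fun g => (D m₀ (n + 1) g + (F' g).1) + dP n (fun g => (F g).2) g)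
        fun i => (hf i).2, dP_add, dP_add, dP_dP, add_zero]

end Pool.Agent.MP_20201c_gt.H91
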