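import Pool.Agent.MP_20201c_gt.H91.ListKit

/-! One subdivision step on chains of lists, for an arbitrary choice of centres. -/

open Set

namespace Pool.Agent.MP_20201c_gt.H91.Sd

variable {V V' W W' : Type}

/-- Cone with apex `a`. -/
noncomputable def cn (a : V) : LCh V →ₗ[F2] LCh V := lift fun l => one (a :: l)

theorem cn_one (a : V) (l : List V) : cn a (one l) = one (a :: l) := lift_one _ _

theorem bdL_cn (a : V) (c : LCh V) : bdL (cn a c) = c + cn a (bdL c) := bdL_cons a c

theorem mpL_cn (g : V → W) (a : V) (c : LCh V) : mpL g (cn a c) = cn (g a) (mpL g c) :=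
  lin_ext ((mpL g).comp (cn a)) ((cn (g a)).comp (mpL g))
    (fun l => by simp [cn_one, mpL_one]) c

noncomputable def sdF (b : V → List V → V') : ℕ → List V → LCh V'
  | 0, _ => one []
  | _ + 1, [] => one []
  | k + 1, a :: l => cn (b a l) (lift (sdF b k) (bdLS (a :: l)))

/-- The subdivision of a list; the centre of `a :: l` is `b a l`. -/
noncomputable def sdS (b : V → List V → V') (l : List V) : LCh V' := sdF b l.length l

noncomputable def sdL (b : V → List V → V') : LCh V →ₗ[F2] LCh V' := lift (sdS b)

theorem sdL_one (b : V → List V → V') (l : List V) : sdL b (one l) = sdS b l := lift_one _ _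

theorem sdS_nil (b : V → List V → V') : sdS b [] = one [] := rfl

theorem sdS_cons (b : V → List V → V') (a : V) (l : List V) :
    sdS b (a :: l) = cn (b a l) (sdL b (bdLS (a :: l))) := by
  have h : sdS b (a :: l) = cn (b a l) (lift (sdF b l.length) (bdLS (a :: l))) := rfl
  rw [h]
  congr 1
  refine lift_congr _ _ (fun l' hl' => ?_) (bdLS_mem (a :: l))
  have h1 : l'.length = l.length := by
    have := hl'.1
    simp only [List.length_cons] at this
    omega
  rw [sdS, h1]

noncomputable def hoF (b : V → List V → V') (e : V → V') : ℕ → List V → LCh V'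
  | 0, _ => 0
  | _ + 1, [] => 0
  | k + 1, a :: l => cn (b a l) (one ((a :: l).map e) + lift (hoF b e k) (bdLS (a :: l)))

/-- The homotopy from `mpL e` to the subdivision. -/
noncomputable def hoS (b : V → List V → V') (e : V → V') (l : List V) : LCh V' :=
  hoF b e l.length l

noncomputable def hoL (b : V → List V → V') (e : V → V') : LCh V →ₗ[F2] LCh V' := lift (hoS b e)

theorem hoL_one (b : V → List V → V') (e : V → V') (l : List V) :
    hoL b e (one l) = hoS b e l := lift_one _ _

theorem hoS_nil (b : V → List V → V') (e : V → V') : hoS b e [] = 0 := rfl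

theorem hoS_cons (b : V → List V → V') (e : V → V') (a : V) (l : List V) :
    hoS b e (a :: l) = cn (b a l) (one ((a :: l).map e) + hoL b e (bdLS (a :: l))) := by
  have h : hoS b e (a :: l) =
      cn (b a l) (one ((a :: l).map e) + lift (hoF b e l.length) (bdLS (a :: l))) := rfl
  rw [h]
  congr 2
  refine lift_congr _ _ (fun l' hl' => ?_) (bdLS_mem (a :: l))
  have h1 : l'.length = l.length := by
    have := hl'.1
    simp only [List.length_cons] at this
    omega
  rw [hoS, h1]

/-- Induction along faces. -/
theorem face_ind (Q : List V → Prop) (h0 : Q [])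
    (h1 : ∀ a l, (∀ l' : List V, l'.length = l.length → l'.Sublist (a :: l) → Q l') → Q (a :: l)) :
    ∀ l, Q l := by
  have key : ∀ n, ∀ l : List V, l.length = n → Q l := by
    intro n
    induction n with
    | zero => intro l hl; rw [List.length_eq_zero_iff.1 hl]; exact h0
    | succ n ih =>
      intro l hl
      cases l with
      | nil => exact h0
      | cons a l =>
        refine h1 a l fun l' h _ => ih l' ?_
        simp only [List.length_cons] at hl
        omega
  exact fun l => key _ l rfl

theorem bdLS_mem' (a : V) (l : List V) :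
    bdLS (a :: l) ∈ Sp {l' : List V | l'.length = l.length ∧ l'.Sublist (a :: l)} := by
  refine sp_mono ?_ (bdLS_mem (a :: l))
  intro l' hl'
  refine ⟨?_, hl'.2⟩
  have := hl'.1
  simp only [List.length_cons] at this
  omega

theorem bdL_sdL (b : V → List V → V') (c : LCh V) : bdL (sdL b c) = sdL b (bdL c) := by
  refine lin_ext (bdL.comp (sdL b)) ((sdL b).comp bdL) (fun l => ?_) c
  simp only [LinearMap.comp_apply, sdL_one, bdL_one]
  induction l using face_ind with
  | h0 => rw [sdS_nil, bdL_one, bdLS_nil, bdLS_nil, map_zero]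
  | h1 a l ih =>
    have h : bdL (sdL b (bdLS (a :: l))) = sdL b (bdL (bdLS (a :: l))) := by
      refine lin_congr (bdL.comp (sdL b)) ((sdL b).comp bdL) (fun l' hl' => ?_) (bdLS_mem' a l)
      simp only [LinearMap.comp_apply, sdL_one, bdL_one]
      exact ih l' hl'.1 hl'.2
    rw [sdS_cons, bdL_cn, h, bdL_bdLS, map_zero, map_zero, add_zero]

theorem bdL_hoL (b : V → List V → V') (e : V → V') (c : LCh V) :
    bdL (hoL b e c) + hoL b e (bdL c) = mpL e c + sdL b c := by
  refine lin_ext (bdL.comp (hoL b e) + (hoL b e).comp bdL) (mpL e + sdL b) (fun l => ?_) c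
  simp only [LinearMap.comp_apply, LinearMap.add_apply, sdL_one, bdL_one, hoL_one, mpL_one]
  induction l using face_ind with
  | h0 => rw [hoS_nil, sdS_nil, bdLS_nil, map_zero, map_zero, add_zero, List.map_nil, add_self2]
  | h1 a l ih =>
    have h : bdL (hoL b e (bdLS (a :: l))) + hoL b e (bdL (bdLS (a :: l))) =
        mpL e (bdLS (a :: l)) + sdL b (bdLS (a :: l)) := by
      refine lin_congr (bdL.comp (hoL b e) + (hoL b e).comp bdL) (mpL e + sdL b)
        (fun l' hl' => ?_) (bdLS_mem' a l)
      simp only [LinearMap.comp_apply, LinearMap.add_apply, sdL_one, bdL_one, hoL_one, mpL_one]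
      exact ih l' hl'.1 hl'.2
    rw [bdL_bdLS, map_zero, add_zero] at h
    have h2 : bdL (one ((a :: l).map e)) = mpL e (bdLS (a :: l)) := by
      rw [← mpL_one, bdL_mpL, bdL_one]
    rw [hoS_cons, bdL_cn, map_add, h, h2, ← add_assoc (mpL e _), add_self2, zero_add, sdS_cons,
      add_right_comm, add_assoc (one _) (hoL b e _), add_self2, add_zero]

theorem mpL_sdL {b : V → List V → V'} {b' : W → List W → W'} (g : V → W) (g' : V' → W')
    (hb : ∀ a l, g' (b a l) = b' (g a) (l.map g)) (c : LCh V) :
    mpL g' (sdL b c) = sdL b' (mpL g c) := by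
  refine lin_ext ((mpL g').comp (sdL b)) ((sdL b').comp (mpL g)) (fun l => ?_) c
  simp only [LinearMap.comp_apply, sdL_one, mpL_one]
  induction l using face_ind with
  | h0 => rw [sdS_nil, mpL_one]; rfl
  | h1 a l ih =>
    have h : mpL g' (sdL b (bdLS (a :: l))) = sdL b' (mpL g (bdLS (a :: l))) := by
      refine lin_congr ((mpL g').comp (sdL b)) ((sdL b').comp (mpL g))
        (fun l' hl' => ?_) (bdLS_mem' a l)
      simp only [LinearMap.comp_apply, sdL_one, mpL_one]
      exact ih l' hl'.1 hl'.2
    rw [sdS_cons, mpL_cn, h, hb, List.map_cons, sdS_cons, ← List.map_cons, bdLS_map]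

theorem mpL_hoL {b : V → List V → V'} {b' : W → List W → W'} {e : V → V'} {e' : W → W'}
    (g : V → W) (g' : V' → W') (hb : ∀ a l, g' (b a l) = b' (g a) (l.map g))
    (he : ∀ a, g' (e a) = e' (g a)) (c : LCh V) :
    mpL g' (hoL b e c) = hoL b' e' (mpL g c) := by
  refine lin_ext ((mpL g').comp (hoL b e)) ((hoL b' e').comp (mpL g)) (fun l => ?_) c
  simp only [LinearMap.comp_apply, hoL_one, mpL_one]
  induction l using face_ind with
  | h0 => rw [hoS_nil, map_zero]; rfl
  | h1 a l ih =>
    have h : mpL g' (hoL b e (bdLS (a :: l))) = hoL b' e' (mpL g (bdLS (a :: l))) := by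
      refine lin_congr ((mpL g').comp (hoL b e)) ((hoL b' e').comp (mpL g))
        (fun l' hl' => ?_) (bdLS_mem' a l)
      simp only [LinearMap.comp_apply, hoL_one, mpL_one]
      exact ih l' hl'.1 hl'.2
    have h2 : ((a :: l).map e).map g' = ((a :: l).map g).map e' := by
      rw [List.map_map, List.map_map]
      congr 1
      funext x
      exact he x
    rw [hoS_cons, mpL_cn, map_add, h, hb, mpL_one, h2, List.map_cons (f := g), hoS_cons,
      ← List.map_cons (f := g), bdLS_map]

theorem hoS_mem (b : V → List V → V') (e : V → V') (l : List V) :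
    hoS b e l ∈ Sp {l' : List V' | l'.length = l.length + 1} := by
  induction l using face_ind with
  | h0 => rw [hoS_nil]; exact Submodule.zero_mem _
  | h1 a l ih =>
    rw [hoS_cons]
    have h : one ((a :: l).map e) + hoL b e (bdLS (a :: l)) ∈
        Sp {l' : List V' | l'.length = l.length + 1} := by
      refine Submodule.add_mem _ (one_mem (by simp)) ?_
      refine lin_mem _ _ (fun l' hl' => ?_) (bdLS_mem' a l)
      rw [hoL_one, ← hl'.1]
      exact ih l' hl'.1 hl'.2
    refine lin_mem _ _ (fun l' hl' => ?_) h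
    rw [cn_one]
    refine one_mem ?_
    simpa using hl'

/-- Flags of centres of sublists. -/
def IsFlag (b : V → List V → V') (l : List V) (l' : List V') : Prop :=
  l'.length = l.length ∧ (∀ x ∈ l', ∃ a m, (a :: m).Sublist l ∧ x = b a m) ∧
    l'.Pairwise fun x y => ∃ a m a' m', (a' :: m').Sublist (a :: m) ∧ m'.length < m.length ∧
      (a :: m).Sublist l ∧ x = b a m ∧ y = b a' m'

theorem sdS_mem (b : V → List V → V') (l : List V) : sdS b l ∈ Sp {l' | IsFlag b l l'} := by
  induction l using face_ind with
  | h0 => rw [sdS_nil]; exact one_mem ⟨rfl, by simp, List.Pairwise.nil⟩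
  | h1 a l ih =>
    rw [sdS_cons]
    have h : sdL b (bdLS (a :: l)) ∈ Sp {l'' : List V' | ∃ l' : List V, l'.length = l.length ∧
        l'.Sublist (a :: l) ∧ IsFlag b l' l''} := by
      refine lin_mem _ _ (fun l' hl' => ?_) (bdLS_mem' a l)
      rw [sdL_one]
      refine sp_mono ?_ (ih l' hl'.1 hl'.2)
      intro l'' h
      exact ⟨l', hl'.1, hl'.2, h⟩
    refine lin_mem _ _ (fun l'' hl'' => ?_) h
    obtain ⟨l', h1, h2, h3, h4, h5⟩ := hl''
    rw [cn_one]
    refine one_mem ⟨by simp [h3, h1], ?_, ?_⟩
    · intro x hx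
      rcases List.mem_cons.1 hx with rfl | hx
      · exact ⟨a, l, List.Sublist.refl _, rfl⟩
      · obtain ⟨a', m, h6, h7⟩ := h4 x hx
        exact ⟨a', m, h6.trans h2, h7⟩
    · refine List.Pairwise.cons (fun y hy => ?_) (h5.imp ?_)
      · obtain ⟨a', m, h6, h7⟩ := h4 y hy
        refine ⟨a, l, a', m, h6.trans h2, ?_, List.Sublist.refl _, rfl, h7⟩
        have := h6.length_le
        simp only [List.length_cons] at this
        omega
      · rintro x y ⟨a1, m1, a2, m2, h6, h7, h8, h9, h10⟩
        exact ⟨a1, m1, a2, m2, h6, h7, h8.trans h2, h9, h10⟩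

end Pool.Agent.MP_20201c_gt.H91.Sd
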