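import Pool.Agent.MP_20201c_gt.H91.Sdk_a

/-! Affine simplices in a standard simplex and their iterated subdivision. -/

open Set

namespace Pool.Agent.MP_20201c_gt.H91.Sd

variable {n n' k k' : ℕ}

/-- The affine simplex with vertices `p i`. -/
noncomputable def affF (p : Fin k → Sm n) (x : Sm k) : Sm n :=
  ⟨∑ i, x.1 i • (p i).1,
    (convex_stdSimplex ℝ (Fin n)).sum_mem (fun i _ => x.2.1 i) x.2.2 fun i _ => (p i).2⟩

theorem continuous_affF (p : Fin k → Sm n) : Continuous (affF p) := by
  refine Continuous.subtype_mk ?_ _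
  exact continuous_finsetSum _ fun i _ =>
    ((continuous_apply i).comp continuous_subtype_val).smul continuous_const

theorem map_val (g : Fin n → Fin n') (x : Sm n) :
    (stdSimplex.map g x).1 = FunOnFinite.linearMap ℝ ℝ g x.1 := rfl

theorem affF_map (p : Fin k → Sm n) (g : Fin k' → Fin k) (x : Sm k') :
    affF p (stdSimplex.map g x) = affF (p ∘ g) x := by
  refine Subtype.ext ?_
  change ∑ i, (stdSimplex.map g x).1 i • (p i).1 = ∑ j, x.1 j • (p (g j)).1
  rw [← Finset.sum_fiberwise Finset.univ g]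
  refine Finset.sum_congr rfl fun i _ => ?_
  rw [map_val, FunOnFinite.linearMap_apply_apply, Finset.sum_smul]
  refine Finset.sum_congr rfl fun j hj => ?_
  rw [(Finset.mem_filter.1 hj).2]

theorem map_affF (p : Fin k → Sm n) (g : Fin n → Fin n') (x : Sm k) :
    stdSimplex.map g (affF p x) = affF (stdSimplex.map g ∘ p) x := by
  refine Subtype.ext ?_
  rw [map_val]
  change FunOnFinite.linearMap ℝ ℝ g (∑ i, x.1 i • (p i).1) =
    ∑ i, x.1 i • (stdSimplex.map g (p i)).1
  rw [map_sum]
  refine Finset.sum_congr rfl fun i _ => ?_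
  rw [map_smul, map_val]

theorem affF_vertex (x : Sm n) : affF (fun i => stdSimplex.vertex i) x = x := by
  refine Subtype.ext ?_
  funext j
  change (∑ i, x.1 i • (Pi.single i 1 : Fin n → ℝ)) j = x.1 j
  simp [Finset.sum_apply, Pi.single_apply]

theorem dist_affF (p : Fin k → Sm n) (c : Sm n) {r : ℝ} (h : ∀ i, dist (p i) c ≤ r) (x : Sm k) :
    dist (affF p x) c ≤ r :=
  (convex_closedBall c.1 r).sum_mem (t := Finset.univ) (fun i _ => x.2.1 i) x.2.2 fun i _ => h i

/-- The affine simplex of a list of points. -/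
noncomputable def affS (l : List (Sm n)) : Sx (Sm n) := ⟨l.length, affF l.get⟩

noncomputable def affL : LCh (Sm n) →ₗ[F2] Ch (Sm n) := lift fun l => one (affS l)

theorem affL_one (l : List (Sm n)) : affL (one l) = one (affS l) := lift_one _ _

theorem sx_cast (h : k = k') (p : Fin k → Sm n) (p' : Fin k' → Sm n)
    (hp : ∀ i, p i = p' (Fin.cast h i)) : (⟨k, affF p⟩ : Sx (Sm n)) = ⟨k', affF p'⟩ := by
  subst h
  have : p = p' := funext hp
  rw [this]

theorem affS_ofFn (p : Fin k → Sm n) : affS (List.ofFn p) = ⟨k, affF p⟩ :=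
  sx_cast (List.length_ofFn) _ _ fun i => by simp; rfl

theorem eraseIdx_ofFn {A : Type} (p : Fin (k + 1) → A) (i : Fin (k + 1)) :
    (List.ofFn p).eraseIdx i = List.ofFn (p ∘ i.succAbove) := by
  refine List.ext_getElem ?_ fun j h1 h2 => ?_
  · rw [List.length_eraseIdx, List.length_ofFn, List.length_ofFn, if_pos i.2]; rfl
  · rw [List.getElem_eraseIdx]
    simp only [List.getElem_ofFn, Function.comp_apply]
    split_ifs with h
    · congr 1
      rw [Fin.succAbove_of_castSucc_lt _ _ (by simpa [Fin.lt_def] using h)]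
      rfl
    · congr 1
      rw [Fin.succAbove_of_le_castSucc _ _ (by simpa [Fin.le_def] using h)]
      rfl

theorem bdLS_ofFn {A : Type} (p : Fin (k + 1) → A) :
    bdLS (List.ofFn p) = ∑ i : Fin (k + 1), one (List.ofFn (p ∘ i.succAbove)) := by
  unfold bdLS
  refine Fintype.sum_equiv (finCongr List.length_ofFn) _ _ fun i => ?_
  rw [← eraseIdx_ofFn]
  rfl

theorem bd_affL (c : LCh (Sm n)) : bd (affL c) = affL (bdL c) := by
  refine lin_ext (bd.comp affL) (affL.comp bdL) (fun l => ?_) c
  simp only [LinearMap.comp_apply, affL_one, bd_one, bdL_one]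
  obtain ⟨k, p, rfl⟩ : ∃ (k : ℕ) (p : Fin k → Sm n), l = List.ofFn p :=
    ⟨_, l.get, (List.ofFn_get l).symm⟩
  rw [affS_ofFn]
  cases k with
  | zero => rw [List.ofFn_zero, bdLS_nil, map_zero]; rfl
  | succ k =>
    rw [bdLS_ofFn, map_sum, bdS]
    refine Finset.sum_congr rfl fun i _ => ?_
    rw [affL_one, affS_ofFn]
    congr 2
    funext x
    exact affF_map p _ x

theorem mp_affL (g : Fin n → Fin n') (c : LCh (Sm n)) :
    mp (stdSimplex.map g) (affL c) = affL (mpL (stdSimplex.map g) c) := by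
  refine lin_ext ((mp (stdSimplex.map g)).comp affL) (affL.comp (mpL (stdSimplex.map g)))
    (fun l => ?_) c
  simp only [LinearMap.comp_apply, affL_one, mp_one, mpL_one]
  obtain ⟨k, p, rfl⟩ : ∃ (k : ℕ) (p : Fin k → Sm n), l = List.ofFn p :=
    ⟨_, l.get, (List.ofFn_get l).symm⟩
  rw [List.map_ofFn, affS_ofFn, affS_ofFn, smap]
  congr 2
  funext x
  exact map_affF p g x

/-- The list of vertices. -/
noncomputable def vert (n : ℕ) : List (Sm n) := List.ofFn fun i => stdSimplex.vertex i

theorem length_vert (n : ℕ) : (vert n).length = n := List.length_ofFn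

theorem affS_vert (n : ℕ) : affS (vert n) = ⟨n, id⟩ := by
  rw [vert, affS_ofFn]
  congr 1
  funext x
  exact affF_vertex x

theorem bdL_vert_zero : bdL (one (vert 0)) = 0 := by
  rw [bdL_one, vert, List.ofFn_zero, bdLS_nil]

theorem bdL_vert (n : ℕ) :
    bdL (one (vert (n + 1))) = ∑ i : Fin (n + 1), mpL (fc n i) (one (vert n)) := by
  rw [bdL_one, vert, bdLS_ofFn]
  refine Finset.sum_congr rfl fun i _ => ?_
  rw [mpL_one, vert, List.map_ofFn]
  congr 2
  funext j
  exact (stdSimplex.map_vertex _ _).symm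

/-- Midpoint. -/
noncomputable def mid (x y : Sm n) : Sm n :=
  ⟨(1 / 2 : ℝ) • x.1 + (1 / 2 : ℝ) • y.1,
    convex_stdSimplex ℝ (Fin n) x.2 y.2 (by norm_num) (by norm_num) (by norm_num)⟩

theorem map_mid (g : Fin n → Fin n') (x y : Sm n) :
    stdSimplex.map g (mid x y) = mid (stdSimplex.map g x) (stdSimplex.map g y) := by
  refine Subtype.ext ?_
  rw [map_val]
  change FunOnFinite.linearMap ℝ ℝ g ((1 / 2 : ℝ) • x.1 + (1 / 2 : ℝ) • y.1) =
    (1 / 2 : ℝ) • (stdSimplex.map g x).1 + (1 / 2 : ℝ) • (stdSimplex.map g y).1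
  rw [map_add, map_smul, map_smul, map_val, map_val]

theorem dist_mid (x y c : Sm n) : dist (mid x y) c ≤ (dist x c + dist y c) / 2 := by
  change dist ((1 / 2 : ℝ) • x.1 + (1 / 2 : ℝ) • y.1) c.1 ≤ (dist x.1 c.1 + dist y.1 c.1) / 2
  rw [dist_eq_norm, dist_eq_norm, dist_eq_norm]
  have h : (1 / 2 : ℝ) • x.1 + (1 / 2 : ℝ) • y.1 - c.1 =
      (1 / 2 : ℝ) • (x.1 - c.1) + (1 / 2 : ℝ) • (y.1 - c.1) := by module
  rw [h]
  refine (norm_add_le _ _).trans ?_
  rw [norm_smul, norm_smul, Real.norm_of_nonneg (by norm_num)]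
  linarith

/-- The centre of the list `a :: l`. -/
noncomputable def ctr : Sm n → List (Sm n) → Sm n
  | a, [] => a
  | a, a' :: l => mid a (ctr a' l)

theorem map_ctr (g : Fin n → Fin n') (a : Sm n) (l : List (Sm n)) :
    stdSimplex.map g (ctr a l) = ctr (stdSimplex.map g a) (l.map (stdSimplex.map g)) := by
  induction l generalizing a with
  | nil => rfl
  | cons a' l ih => rw [ctr, map_mid, ih, List.map_cons, ctr]

theorem dist_ctr (c : Sm n) {r : ℝ} (a : Sm n) (l : List (Sm n))
    (h : ∀ p ∈ a :: l, dist p c ≤ r) : dist (ctr a l) c ≤ r := by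
  induction l generalizing a with
  | nil => exact h a (by simp)
  | cons a' l ih =>
    rw [ctr]
    have h1 := ih a' fun p hp => h p (List.mem_cons_of_mem _ hp)
    have h2 := h a (by simp)
    have h3 := dist_mid a (ctr a' l) c
    linarith

/-- All points of the list are at distance at most `d`. -/
def Diam (d : ℝ) (l : List (Sm n)) : Prop := ∀ x ∈ l, ∀ y ∈ l, dist x y ≤ d

theorem dist_ctr_vertex {d : ℝ} (hd : 0 ≤ d) (a : Sm n) (l : List (Sm n)) (h : Diam d (a :: l))
    {p : Sm n} (hp : p ∈ a :: l) : dist (ctr a l) p ≤ (1 - (1 / 2) ^ l.length) * d := by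
  induction l generalizing a with
  | nil =>
    have : p = a := by simpa using hp
    simp [ctr, this]
  | cons a' l ih =>
    rw [ctr]
    have h3 := dist_mid a (ctr a' l) p
    have hq : (0 : ℝ) < (1 / 2) ^ l.length := by positivity
    have hq1 : ((1 : ℝ) / 2) ^ l.length ≤ 1 := pow_le_one₀ (by norm_num) (by norm_num)
    rw [List.length_cons, pow_succ]
    rcases List.mem_cons.1 hp with rfl | hp'
    · have h1 : dist (ctr a' l) p ≤ d :=
        dist_ctr p a' l fun q hq => h q (List.mem_cons_of_mem _ hq) p (by simp)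
      rw [dist_self] at h3
      nlinarith
    · have h1 := ih a' (fun x hx y hy =>
        h x (List.mem_cons_of_mem _ hx) y (List.mem_cons_of_mem _ hy)) hp'
      have h2 := h a (by simp) p hp
      nlinarith

theorem diam_flag {N : ℕ} {d : ℝ} (hd : 0 ≤ d) {l l' : List (Sm n)} (hl : l.length ≤ N)
    (h : Diam d l) (hf : IsFlag ctr l l') : Diam ((1 - (1 / 2) ^ N) * d) l' := by
  have hq1 : ((1 : ℝ) / 2) ^ N ≤ 1 := pow_le_one₀ (by norm_num) (by norm_num)
  have h1 : l'.Pairwise fun x y => dist x y ≤ (1 - (1 / 2) ^ N) * d := by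
    refine hf.2.2.imp ?_
    rintro x y ⟨a, m, a', m', h1, -, h2, rfl, rfl⟩
    rw [dist_comm]
    refine dist_ctr _ a' m' fun p hp => ?_
    rw [dist_comm]
    refine (dist_ctr_vertex hd a m (fun x hx y hy => h x (h2.subset hx) y (h2.subset hy))
      (h1.subset hp)).trans (mul_le_mul_of_nonneg_right ?_ hd)
    have h3 := h2.length_le
    simp only [List.length_cons] at h3
    have : ((1 : ℝ) / 2) ^ N ≤ (1 / 2) ^ m.length :=
      pow_le_pow_of_le_one (by norm_num) (by norm_num) (by omega)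
    linarith
  have h0 : 0 ≤ (1 - (1 / 2) ^ N) * d := mul_nonneg (by linarith) hd
  generalize (1 - (1 / 2) ^ N) * d = r at h1 h0
  clear hf
  induction h1 with
  | nil => intro x hx; simp at hx
  | @cons a l'' h2 _ ih =>
    intro x hx y hy
    rcases List.mem_cons.1 hx with hxa | hx <;> rcases List.mem_cons.1 hy with hya | hy
    · rw [hxa, hya, dist_self]; exact h0
    · rw [hxa]; exact h2 y hy
    · rw [hya, dist_comm]; exact h2 x hx
    · exact ih x hx y hy

theorem mpL_id {A : Type} (c : LCh A) : mpL id c = c :=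
  lin_ext (mpL id) LinearMap.id (fun l => by simp [mpL_one]) c

/-- Iterated subdivision, natural for the face maps. -/
theorem iter (N j : ℕ) : ∃ S T : ∀ n : ℕ, LCh (Sm n) →ₗ[F2] LCh (Sm n),
    (∀ n c, bdL (S n c) = S n (bdL c)) ∧
    (∀ n c, bdL (T n c) + T n (bdL c) = c + S n c) ∧
    (∀ n i c, mpL (fc n i) (S n c) = S (n + 1) (mpL (fc n i) c)) ∧
    (∀ n i c, mpL (fc n i) (T n c) = T (n + 1) (mpL (fc n i) c)) ∧
    (∀ n l, T n (one l) ∈ Sp {l' : List (Sm n) | l'.length = l.length + 1}) ∧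
    ∀ n l, S n (one l) ∈ Sp {l' : List (Sm n) | l'.length = l.length ∧
      (l.length ≤ N → Diam ((1 - (1 / 2) ^ N) ^ j) l')} := by
  induction j with
  | zero =>
    refine ⟨fun _ => LinearMap.id, fun _ => 0, fun _ _ => rfl, fun n c => ?_, fun _ _ _ => rfl,
      fun n i c => by simp, fun n l => Submodule.zero_mem _, fun n l => one_mem ⟨rfl, ?_⟩⟩
    · simp [add_self2]
    · intro _ x _ y _
      rw [pow_zero]
      exact (Metric.dist_le_diam_of_mem (bounded_stdSimplex _) x.2 y.2).trans diam_stdSimplex_le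
  | succ j ih =>
    obtain ⟨S, T, h1, h2, h3, h4, h5, h6⟩ := ih
    have hq1 : ((1 : ℝ) / 2) ^ N ≤ 1 := pow_le_one₀ (by norm_num) (by norm_num)
    refine ⟨fun n => (sdL ctr).comp (S n), fun n => T n + (hoL ctr id).comp (S n),
      fun n c => ?_, fun n c => ?_, fun n i c => ?_, fun n i c => ?_, fun n l => ?_,
      fun n l => ?_⟩
    · simp only [LinearMap.comp_apply]
      rw [bdL_sdL, h1]
    · simp only [LinearMap.comp_apply, LinearMap.add_apply, map_add]
      have e1 := bdL_hoL ctr id (S n c)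
      rw [h1, mpL_id] at e1
      rw [add_add_add_comm, h2, e1, add_assoc, ← add_assoc (S n c), add_self2, zero_add]
    · simp only [LinearMap.comp_apply]
      rw [mpL_sdL (b' := ctr) (fc n i) (fc n i) (map_ctr _), h3]
    · simp only [LinearMap.comp_apply, LinearMap.add_apply, map_add]
      rw [mpL_hoL (b' := ctr) (e := id) (e' := id) (fc n i) (fc n i) (map_ctr _) (fun _ => rfl), h3, h4]
    · simp only [LinearMap.comp_apply, LinearMap.add_apply]
      refine Submodule.add_mem _ (h5 n l) (lin_mem _ _ (fun l' hl' => ?_) (h6 n l))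
      rw [hoL_one, ← hl'.1]
      exact hoS_mem _ _ _
    · simp only [LinearMap.comp_apply]
      refine lin_mem _ _ (fun l' hl' => ?_) (h6 n l)
      rw [sdL_one]
      refine sp_mono ?_ (sdS_mem ctr l')
      intro l'' hf
      refine ⟨hf.1.trans hl'.1, fun hN => ?_⟩
      rw [pow_succ']
      exact diam_flag (pow_nonneg (by linarith) _) (hl'.1 ▸ hN) (hl'.2 hN) hf

end Pool.Agent.MP_20201c_gt.H91.Sd
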