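import Pool.Agent.MP_20201c_gt.H91.Defs5
import Pool.Agent.MP_20201c_gt.H91.KitM4

/-! Algebra of the bounding relation. -/

open MeasureTheory Set Filter Topology
open scoped ENNReal

namespace Pool.Agent.MP_20201c_gt.H91

/-- A line is null. -/
theorem sa_line (v e : ℂ) (hv : v ≠ 0) : ∀ᵐ w : ℂ, dt v (w - e) ≠ 0 := by
  have h1 : volume ((Submodule.span ℝ {v} : Submodule ℝ ℂ) : Set ℂ) = 0 := by
    refine Measure.addHaar_submodule _ _ fun h => ?_
    have h2 := finrank_span_singleton (K := ℝ) hv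
    rw [h, finrank_top, Complex.finrank_real_complex] at h2
    omega
  rw [ae_iff]
  refine measure_mono_null (t := (fun w => w + -e) ⁻¹' (Submodule.span ℝ {v} : Submodule ℝ ℂ))
    (fun w hw => ?_) (by rw [measure_preimage_add_right]; exact h1)
  have h3 : dt v (w - e) = 0 := not_not.1 hw
  have h4 : v.re ^ 2 + v.im ^ 2 ≠ 0 := fun h => hv (by
    apply Complex.ext <;> simp only [Complex.zero_re, Complex.zero_im] <;> nlinarith)
  refine Submodule.mem_span_singleton.2 ⟨ip v (w - e) / (v.re ^ 2 + v.im ^ 2), ?_⟩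
  unfold dt at h3
  unfold ip
  simp only [Complex.sub_re, Complex.sub_im] at h3 ⊢
  apply Complex.ext
  · simp only [Complex.smul_re, smul_eq_mul, Complex.add_re, Complex.neg_re]
    field_simp
    linear_combination v.im * h3
  · simp only [Complex.smul_im, smul_eq_mul, Complex.add_im, Complex.neg_im]
    field_simp
    linear_combination (-v.re) * h3

/-- Almost every line avoids a given point. -/
theorem sa_gen (e : ℂ) : ∀ᵐ q : ℂ × ℂ, dt (q.1 - e) (q.2 - e) ≠ 0 := by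
  rw [Measure.volume_eq_prod, Measure.ae_prod_iff_ae_ae]
  · filter_upwards [compl_mem_ae_iff.2 (measure_singleton (μ := volume) e)] with z hz
    exact sa_line _ e (sub_ne_zero.2 hz)
  · refine (isOpen_ne_fun ?_ continuous_const).measurableSet
    unfold dt
    fun_prop

theorem sa_on {z z' x : ℂ} (h : x ∈ segment ℝ z z') : dt (z - x) (z' - x) = 0 := by
  obtain ⟨t, -, rfl⟩ := m1_seg_ex h
  simp [dt]
  ring

theorem sa_sub {a b z z' x x' : ℂ} (ha : dt (z - a) (z' - a) ≠ 0) (h1 : x ∈ segment ℝ a b)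
    (h2 : x ∈ segment ℝ z z') (h1' : x' ∈ segment ℝ a b) (h2' : x' ∈ segment ℝ z z') : x = x' := by
  have k := sa_on h2
  have k' := sa_on h2'
  obtain ⟨s, -, rfl⟩ := m1_seg_ex h1
  obtain ⟨s', -, rfl⟩ := m1_seg_ex h1'
  by_cases e : s = s'
  · rw [e]
  refine absurd ?_ ha
  have e' : s - s' ≠ 0 := sub_ne_zero.2 e
  refine mul_left_cancel₀ e' ?_
  simp only [dt, Complex.sub_re, Complex.sub_im, Complex.add_re, Complex.add_im, Complex.smul_re,
    Complex.smul_im, smul_eq_mul] at k k' ⊢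
  linear_combination s * k' - s' * k

open Classical in
/-- The number of segments through a point that is not an end point. -/
theorem sa_cnt {m m' : ℕ} {a b : Fin m → ℂ} {a' b' : Fin m' → ℂ} (h : msr a b = msr a' b') {x : ℂ}
    (h1 : ∀ i, x ≠ a i ∧ x ≠ b i) (h2 : ∀ i, x ≠ a' i ∧ x ≠ b' i) :
    (∑ i, if x ∈ segment ℝ (a i) (b i) then 1 else 0 : ℕ) =
      ∑ i, if x ∈ segment ℝ (a' i) (b' i) then 1 else 0 := by
  have key : ∀ {k : ℕ} (c d : Fin k → ℂ), (∀ i, x ≠ c i ∧ x ≠ d i) →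
      (∑ i, if c i = d i then 0 else if x = c i ∨ x = d i then 1
        else if x ∈ segment ℝ (c i) (d i) then 2 else 0 : ℕ) =
      2 * ∑ i, if x ∈ segment ℝ (c i) (d i) then 1 else 0 := by
    intro k c d hc
    rw [Finset.mul_sum]
    refine Finset.sum_congr rfl fun i _ => ?_
    by_cases e : c i = d i
    · rw [if_pos e, if_neg, mul_zero]
      rw [← e, segment_same]
      exact (hc i).1
    · rw [if_neg e, if_neg (not_or.2 (hc i))]
      split_ifs <;> rfl
  obtain ⟨r, ⟨k1, k2⟩, k0⟩ :=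
    (((msr_dens a b x).and (msr_dens a' b' x)).and self_mem_nhdsWithin).exists
  have k0 : 0 < r := k0
  rw [key a b h1, h, k2, key a' b' h2,
    ENNReal.ofReal_eq_ofReal_iff (by positivity) (by positivity)] at k1
  have k3 := Nat.cast_injective (R := ℝ) (mul_right_cancel₀ k0.ne' k1)
  omega

open Classical in
theorem sa_sum {m : ℕ} {a b : Fin m → ℂ} {z z' : ℂ} (ha : ∀ i, dt (z - a i) (z' - a i) ≠ 0)
    {X : Finset ℂ} (h1 : ∀ x ∈ X, x ∈ segment ℝ z z')
    (h2 : ∀ i, ∀ x ∈ segment ℝ (a i) (b i), x ∈ segment ℝ z z' → x ∈ X) :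
    (∑ i, if cr (a i) (b i) z z' then 1 else 0 : ℕ) =
      ∑ x ∈ X, ∑ i, if x ∈ segment ℝ (a i) (b i) then 1 else 0 := by
  rw [Finset.sum_comm]
  refine Finset.sum_congr rfl fun i _ => ?_
  by_cases h : cr (a i) (b i) z z'
  · rw [if_pos h]
    obtain ⟨x, k1, k2⟩ := h
    rw [Finset.sum_eq_single_of_mem x (h2 i x k1 k2), if_pos k1]
    exact fun y hy hne => if_neg fun k => hne (sa_sub (ha i) k (h1 y hy) k1 k2)
  · rw [if_neg h]
    exact (Finset.sum_eq_zero fun y hy => if_neg fun k => h ⟨y, k, h1 y hy⟩).symm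

open Classical in
theorem sa_rep {m m' : ℕ} {a b : Fin m → ℂ} {a' b' : Fin m' → ℂ} (h : msr a b = msr a' b') :
    ∀ᵐ q : ℂ × ℂ, (∑ i, if cr (a i) (b i) q.1 q.2 then (1 : F2) else 0) =
      ∑ i, if cr (a' i) (b' i) q.1 q.2 then (1 : F2) else 0 := by
  filter_upwards [eventually_all.2 fun i => (sa_gen (a i)).and (sa_gen (b i)),
    eventually_all.2 fun i => (sa_gen (a' i)).and (sa_gen (b' i))] with q h1 h2
  have fin : ∀ {k : ℕ} (c d : Fin k → ℂ), (∀ i, dt (q.1 - c i) (q.2 - c i) ≠ 0) →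
      (⋃ i, segment ℝ (c i) (d i) ∩ segment ℝ q.1 q.2).Finite := fun c d hc =>
    finite_iUnion fun i => Set.Subsingleton.finite fun x hx y hy =>
      sa_sub (hc i) hx.1 hx.2 hy.1 hy.2
  have hf := (fin a b fun i => (h1 i).1).union (fin a' b' fun i => (h2 i).1)
  have hX : ∀ x ∈ hf.toFinset, x ∈ segment ℝ q.1 q.2 := fun x hx => by
    rcases hf.mem_toFinset.1 hx with h | h <;> obtain ⟨i, hi⟩ := mem_iUnion.1 h <;> exact hi.2
  have e1 := sa_sum (b := b) (fun i => (h1 i).1) hX fun i x k1 k2 =>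
    hf.mem_toFinset.2 (Or.inl (mem_iUnion.2 ⟨i, k1, k2⟩))
  have e2 := sa_sum (b := b') (fun i => (h2 i).1) hX fun i x k1 k2 =>
    hf.mem_toFinset.2 (Or.inr (mem_iUnion.2 ⟨i, k1, k2⟩))
  have ne : ∀ x ∈ hf.toFinset, ∀ e, dt (q.1 - e) (q.2 - e) ≠ 0 → x ≠ e := fun x hx e he k =>
    he (k ▸ sa_on (hX x hx))
  rw [Finset.sum_congr rfl fun x hx => sa_cnt h
    (fun i => ⟨ne x hx _ (h1 i).1, ne x hx _ (h1 i).2⟩)
    (fun i => ⟨ne x hx _ (h2 i).1, ne x hx _ (h2 i).2⟩), ← e2] at e1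
  have e3 := congrArg (Nat.cast : ℕ → F2) e1
  simpa only [Nat.cast_sum, Nat.cast_ite, Nat.cast_one, Nat.cast_zero] using e3

open Classical in
theorem sa_app {m m' : ℕ} (a b : Fin m → ℂ) (a' b' : Fin m' → ℂ) (z z' : ℂ) :
    (∑ i, if cr (Fin.append a a' i) (Fin.append b b' i) z z' then (1 : F2) else 0) =
      (∑ i, if cr (a i) (b i) z z' then (1 : F2) else 0) +
        ∑ i, if cr (a' i) (b' i) z z' then (1 : F2) else 0 := by
  rw [Fin.sum_univ_add]
  congr 1 <;> refine Finset.sum_congr rfl fun i _ => ?_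
  · rw [Fin.append_left, Fin.append_left]
  · rw [Fin.append_right, Fin.append_right]

variable {Ω : Set ℂ} {μ ν : Ms} {E F : Set ℂ}

theorem Side.rep (h : Side Ω μ E) {m : ℕ} {a b : Fin m → ℂ} (hμ : μ = msr a b) :
    SideR Ω a b E := by
  obtain ⟨-, m', a', b', h1, h2⟩ := h
  filter_upwards [h2, sa_rep (hμ.symm.trans h1)] with q k1 k2 hq
  rw [k2, k1 hq]

theorem Side.poly (h : Side Ω μ E) : Poly univ μ := by
  obtain ⟨-, m, a, b, h1, -⟩ := h
  exact ⟨m, a, b, fun _ => ⟨trivial, trivial⟩, h1⟩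

open Classical in
theorem sa_symm (E F : Set ℂ) (z : ℂ) : (if z ∈ symmDiff E F then (1 : F2) else 0) =
    (if z ∈ E then 1 else 0) + (if z ∈ F then 1 else 0) := by
  by_cases h1 : z ∈ E <;> by_cases h2 : z ∈ F <;> simp [mem_symmDiff, h1, h2]
  rfl

theorem Side.add (h : Side Ω μ E) (h' : Side Ω ν F) : Side Ω (μ + ν) (symmDiff E F) := by
  obtain ⟨hE, m, a, b, rfl, h1⟩ := h
  obtain ⟨hF, m', a', b', rfl, h2⟩ := h'
  refine ⟨hE.symmDiff hF, m + m', Fin.append a a', Fin.append b b', (msr_append _ _ _ _).symm, ?_⟩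
  filter_upwards [h1, h2] with q k1 k2 hq
  rw [sa_app, k1 hq, k2 hq, sa_symm, sa_symm]
  ring

theorem Side.compl (h : Side Ω μ E) : Side Ω μ Eᶜ := by
  obtain ⟨hE, m, a, b, rfl, h1⟩ := h
  refine ⟨hE.compl, m, a, b, rfl, ?_⟩
  filter_upwards [h1] with q k1 hq
  rw [k1 hq]
  by_cases h1 : q.1 ∈ E <;> by_cases h2 : q.2 ∈ E <;> simp [h1, h2] <;> rfl

theorem Side.mono (h : Side Ω μ E) {Ω' : Set ℂ} (hΩ : Ω' ⊆ Ω) : Side Ω' μ E := by
  obtain ⟨hE, m, a, b, rfl, h1⟩ := h
  refine ⟨hE, m, a, b, rfl, ?_⟩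
  filter_upwards [h1] with q k1 hq using k1 (hq.trans hΩ)

theorem side_double {W : Set ℂ} (h : Poly W ν) : Side Ω (ν + ν) ∅ := by
  obtain ⟨m, a, b, -, rfl⟩ := h
  refine ⟨MeasurableSet.empty, m + m, Fin.append a a, Fin.append b b, (msr_append _ _ _ _).symm,
    Eventually.of_forall fun q _ => ?_⟩
  rw [sa_app, CharTwo.add_self_eq_zero]
  simp

theorem Side.cancel {W W' : Set ℂ} (hμ : Poly W μ) (hν : Poly W' ν) (h : Side Ω (μ + ν + ν) E) :
    Side Ω μ E := by
  obtain ⟨m, a, b, -, rfl⟩ := hμ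
  obtain ⟨m', a', b', -, rfl⟩ := hν
  have h1 := h.rep (a := Fin.append (Fin.append a a') a') (b := Fin.append (Fin.append b b') b')
    (by rw [msr_append, msr_append])
  refine ⟨h.1, m, a, b, rfl, ?_⟩
  filter_upwards [h1] with q k1 hq
  rw [← k1 hq, sa_app, sa_app, add_assoc, CharTwo.add_self_eq_zero, add_zero]

theorem side_out {m : ℕ} {a b : Fin m → ℂ} (h : ∀ i, Disjoint (segment ℝ (a i) (b i)) Ω) :
    Side Ω (msr a b) ∅ := by
  refine ⟨MeasurableSet.empty, m, a, b, rfl, Eventually.of_forall fun q hq => ?_⟩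
  simp only [mem_empty_iff_false, if_false, add_zero]
  exact Finset.sum_eq_zero fun i _ => if_neg fun ⟨x, k1, k2⟩ => disjoint_left.1 (h i) k1 (hq k2)

theorem side_out' {W : Set ℂ} (h : Poly W μ) (hW : Convex ℝ W) (hd : Disjoint W Ω) :
    Side Ω μ ∅ := by
  obtain ⟨m, a, b, hab, rfl⟩ := h
  exact side_out fun i => hd.mono_left (hW.segment_subset (hab i).1 (hab i).2)

open Classical in
/-- Sums: the set of points that lie in an odd number of the sets. -/
theorem side_sum {ι : Type} (s : Finset ι) {μ : ι → Ms} {E : ι → Set ℂ}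
    (h : ∀ i ∈ s, Side Ω (μ i) (E i)) :
    Side Ω (∑ i ∈ s, μ i) {z | Odd (s.filter fun i => z ∈ E i).card} := by
  induction s using Finset.induction_on with
  | empty =>
    have h1 := side_out (Ω := Ω) (a := Fin.elim0) (b := Fin.elim0) fun i => i.elim0
    simpa [msr] using h1
  | insert i s hi ih =>
    have h1 := (h i (Finset.mem_insert_self _ _)).add
      (ih fun j hj => h j (Finset.mem_insert_of_mem hj))
    rw [Finset.sum_insert hi]
    convert h1 using 1
    ext z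
    rw [mem_symmDiff]
    simp only [mem_ofPred_eq, Finset.filter_insert]
    by_cases hz : z ∈ E i
    · rw [if_pos hz, Finset.card_insert_of_notMem fun k => hi (Finset.mem_filter.1 k).1,
        Nat.odd_add_one]
      simp [hz]
    · simp [hz]

end Pool.Agent.MP_20201c_gt.H91
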