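import Pool.Agent.MP_20201c_gt.H91.Step_b
import Pool.Agent.MP_20201c_gt.H91.Hat

/-! The invariant with an explicit parent; how it is read and how it is updated. -/

open MeasureTheory Set Filter Topology
open scoped ENNReal

namespace Pool.Agent.MP_20201c_gt.H91

namespace St

/-- The invariant with an explicit parent. -/
structure IV (N : ℕ) (G W : Set ℂ) (β : ℂ → F2) (c₁ η r₀ θ : ℝ)
    (Lam : ∀ n, (Sm n → Ms) → Finset (Fin n) → ℂ × ℝ) (hat : ∀ n, (Sm n → Ms) → Sm n → Lab)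
    (j : ℕ) (e lo : ℝ) {k n : ℕ} (F : Sm k → Ms × Lab) (g : Sm n → Ms) (π : Sm k → Sm n) :
    Prop where
  fam : Fam W fun x => (F x).1
  par : ∀ x, Par G W β (F x).1
  hn : n ≤ N
  nice : (⟨n, g⟩ : Sx Ms) ∈ Nice G W β c₁
  fine : Fine W η r₀ g
  cont : Continuous π
  diam : ∀ x x', dist (π x) (π x') ≤ θ / 4
  lab : ∀ x, (F x).2 = hat n g (π x)
  res : ∀ x, (F x).1.restrict (⋃ B ∈ Hist Lam j g π, cb B.1 B.2)ᶜ =
    (g (π x)).restrict (⋃ B ∈ Hist Lam j g π, cb B.1 B.2)ᶜ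
  cmp : ∀ x Q, MeasurableSet Q →
    (∀ B ∈ Hist Lam j g π, cb B.1 B.2 ⊆ Q ∨ Disjoint (cb B.1 B.2) Q) →
    (F x).1.real Q ≤ (g (π x)).real Q + e
  low : ∀ σ : Finset (Fin n), σ.card < j → (∃ x, 2 * θ ≤ gap σ (π x)) →
    ∀ x, (F x).1.real univ < lo

variable {N : ℕ} {G W : Set ℂ} {β : ℂ → F2} {c₁ γ η r₀ θ ε : ℝ}
  {Lam : ∀ n, (Sm n → Ms) → Finset (Fin n) → ℂ × ℝ} {hat : ∀ n, (Sm n → Ms) → Sm n → Lab}
  {j : ℕ} {e lo : ℝ} {k n : ℕ} {F : Sm k → Ms × Lab} {g : Sm n → Ms} {π : Sm k → Sm n}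

theorem inv_iff {s : Sx (Ms × Lab)} : s ∈ Inv N G W β c₁ η r₀ θ Lam hat j e lo ↔
    ∃ (n : ℕ) (g : Sm n → Ms) (π : Sm s.1 → Sm n),
      IV N G W β c₁ η r₀ θ Lam hat j e lo s.2 g π := by
  constructor
  · rintro ⟨h1, h2, n, h3, g, h4, h5, π, h6, h7, h8, h9, h10, h11⟩
    exact ⟨n, g, π, h1, h2, h3, h4, h5, h6, h7, h8, h9, h10, h11⟩
  · rintro ⟨n, g, π, h1, h2, h3, h4, h5, h6, h7, h8, h9, h10, h11⟩
    exact ⟨h1, h2, n, h3, g, h4, h5, π, h6, h7, h8, h9, h10, h11⟩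

theorem hist_mono {j' k' : ℕ} (hj : j ≤ j') (φ : Sm k' → Sm k) :
    Hist Lam j g π ⊆ Hist Lam j' g (fun p => π (φ p)) := by
  rintro B ⟨σ, h1, h2, h3, h4⟩
  exact ⟨σ, h1.trans_le hj, h2, fun p => h3 (φ p), h4⟩

theorem hist_compl {j' k' : ℕ} (hj : j ≤ j') (φ : Sm k' → Sm k) :
    (⋃ B ∈ Hist Lam j' g (fun p => π (φ p)), cb B.1 B.2)ᶜ ⊆
      (⋃ B ∈ Hist Lam j g π, cb B.1 B.2)ᶜ :=
  compl_subset_compl.2 (biUnion_subset_biUnion_left (hist_mono hj φ))

theorem hist_closed : IsClosed (⋃ B ∈ Hist Lam j g π, cb B.1 B.2) := by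
  have hf : (Hist Lam j g π).Finite := by
    refine (finite_range (Lam n g)).subset ?_
    rintro B ⟨σ, -, -, -, h⟩
    exact ⟨σ, h.symm⟩
  exact hf.isClosed_biUnion fun B _ => Metric.isClosed_closedBall

theorem IV.comp (h : IV N G W β c₁ η r₀ θ Lam hat j e lo F g π) {k' : ℕ} {φ : Sm k' → Sm k}
    (hφ : Continuous φ) :
    IV N G W β c₁ η r₀ θ Lam hat j e lo (F ∘ φ) g (fun p => π (φ p)) :=
  ⟨h.fam.comp hφ, fun p => h.par (φ p), h.hn, h.nice, h.fine, h.cont.comp hφ,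
    fun p p' => h.diam (φ p) (φ p'), fun p => h.lab (φ p),
    fun p => Measure.restrict_congr_mono (hist_compl le_rfl φ) (h.res (φ p)),
    fun p Q hQ hc => h.cmp (φ p) Q hQ fun B hB => hc B (hist_mono le_rfl φ hB),
    fun σ hσ ⟨p, hp⟩ q => h.low σ hσ ⟨φ p, hp⟩ (φ q)⟩

theorem IV.lev (h : IV N G W β c₁ η r₀ θ Lam hat j e lo F g π) (x : Sm k) :
    (F x).1.real univ ≤ (g (π x)).real univ + e :=
  h.cmp x univ MeasurableSet.univ fun _ _ => Or.inl (subset_univ _)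

theorem IV.lev' (h : IV N G W β c₁ η r₀ θ Lam hat j e lo F g π) (x : Sm k) :
    (F x).1.real univ < c₁ + e := by
  have h1 := h.lev x
  have h2 : (g (π x)).real univ < c₁ := (h.nice.2 (π x)).2
  linarith

theorem gap_ne {σ : Finset (Fin n)} {y : Sm n} (h : 0 < gap σ y) : σ.Nonempty := by
  rcases σ.eq_empty_or_nonempty with rfl | h1
  · rw [gap_empty] at h
    exact absurd h (lt_irrefl _)
  · exact h1

theorem IV.act (hH : HatSys Lam hat) (h : IV N G W β c₁ η r₀ θ Lam hat j e lo F g π) {x : Sm k}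
    (hx : 0 < ((F x).2 j).1) : ∃ σ : Finset (Fin n), σ.card = j ∧
      (F x).2 j = (gap σ (π x), Lam n g σ, ray g σ (π x)) := by
  by_cases hc : ∀ σ : Finset (Fin n), σ.card = j → gap σ (π x) ≤ 0
  · rw [h.lab, hH.off n g (π x) j hc] at hx
    exact absurd hx (lt_irrefl _)
  · push Not at hc
    obtain ⟨σ, h1, h2⟩ := hc
    exact ⟨σ, h1, by rw [h.lab, ← h1, hH.act n g (π x) σ h2]⟩

theorem IV.act_all (hH : HatSys Lam hat) (hθ : 0 < θ)
    (h : IV N G W β c₁ η r₀ θ Lam hat j e lo F g π) {σ : Finset (Fin n)} (hσ : σ.card = j)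
    {x₀ : Sm k} (hx : θ ≤ gap σ (π x₀)) (x : Sm k) :
    0 < gap σ (π x) ∧ (F x).2 j = (gap σ (π x), Lam n g σ, ray g σ (π x)) := by
  have h1 := gap_lip σ (π x₀) (π x)
  have h2 := h.diam x₀ x
  have h3 : 0 < gap σ (π x) := by linarith
  exact ⟨h3, by rw [h.lab, ← hσ, hH.act n g (π x) σ h3]⟩

theorem ray_one {σ : Finset (Fin n)} (hσ : σ.Nonempty) (g : Sm n → Ms) (y : Sm n) :
    ray g σ y 1 = anchor g σ := by
  obtain ⟨rp, b, -, -, h3, h4⟩ := ray_spec hσ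
  rw [(h4 g).2, (h4 g).1, h3 y 1 le_rfl]

theorem cb_in_or_out {z y : ℂ} {r R : ℝ} (h : Disjoint (cb z r) (Metric.sphere y R)) :
    cb z r ⊆ cb y R ∨ Disjoint (cb z r) (cb y R) := by
  have hc : IsPreconnected (cb z r) := (convex_closedBall z r).isPreconnected
  have hs : cb z r ⊆ Metric.ball y R ∪ (cb y R)ᶜ := by
    intro w hw
    have h1 : w ∉ Metric.sphere y R := disjoint_left.1 h hw
    rw [Metric.mem_sphere] at h1
    rcases lt_or_gt_of_ne h1 with h2 | h2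
    · exact Or.inl h2
    · exact Or.inr (not_le.2 h2)
  rcases hc.subset_or_subset Metric.isOpen_ball Metric.isClosed_closedBall.isOpen_compl
    (disjoint_compl_right.mono_left Metric.ball_subset_closedBall) hs with h1 | h1
  · exact Or.inl (h1.trans Metric.ball_subset_closedBall)
  · exact Or.inr (subset_compl_iff_disjoint_right.1 h1)

/-- The local data of an active simplex. -/
theorem IV.loc (hW : Convex ℝ W) (hr : 0 < r₀) (hL : GoodLam N G W β c₁ γ r₀ Lam)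
    {ch : Ms → ℂ × ℝ → ℕ × (ℝ → Ms)}
    (hch : ∀ A B, Poly (W ∩ cb B.1 B.2) (A.restrict (cb B.1 B.2)) →
      IP G (W ∩ cb B.1 B.2) (A.restrict (cb B.1 B.2)) γ →
      PS G W γ ε A B.1 B.2 (ch A B).1 (ch A B).2)
    (h : IV N G W β c₁ η r₀ θ Lam hat j e lo F g π) {σ : Finset (Fin n)} (hσ : σ.card = j)
    (x₀ : Sm k)
    (hl : ∀ x, 0 < gap σ (π x) ∧ (F x).2 j = (gap σ (π x), Lam n g σ, ray g σ (π x)))
    (hA : c₁ - γ < (anchor g σ).real univ)
    (ho : 0 < (Lam n g σ).2 → ∀ x x', (F x).1.real (cb (Lam n g σ).1 (Lam n g σ).2) ≤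
      (F x').1.real (cb (Lam n g σ).1 (Lam n g σ).2) + η) :
    Loc G W β c₁ η e (fun x => (F x).1) (fun x => g (π x)) (fun x => ((F x).2 j).2.2)
      (anchor g σ) (Lam n g σ).1 (Lam n g σ).2 ∧
    Alt N G W γ ε ch (fun x => (F x).1) (fun x => g (π x)) (anchor g σ) (Lam n g σ) ∧
    ∀ B ∈ Hist Lam j g π, cb B.1 B.2 ⊆ cb (Lam n g σ).1 (Lam n g σ).2 ∨
      Disjoint (cb B.1 B.2) (cb (Lam n g σ).1 (Lam n g σ).2) := by
  have hne : σ.Nonempty := gap_ne (hl x₀).1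
  obtain ⟨hy, hR1, hR2, hd⟩ := (hL n h.hn g h.nice σ hne).resolve_left (not_le.2 hA)
  set y := (Lam n g σ).1 with hy0
  set R := (Lam n g σ).2 with hR0
  have hR : 0 < R := hr.trans_le hR1
  have hsub : ∀ B ∈ Hist Lam j g π, ∃ σ' ⊂ σ, σ'.Nonempty ∧ B = Lam n g σ' := by
    rintro B ⟨σ', h1, h2, h3, h4⟩
    exact ⟨σ', (gap_nested (h3 x₀) (hl x₀).1).1 (hσ ▸ h1), h2, h4⟩
  have hsph : ∀ B ∈ Hist Lam j g π, Disjoint (cb B.1 B.2) (Metric.sphere y R) := by
    intro B hB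
    obtain ⟨σ', h1, h2, rfl⟩ := hsub B hB
    rcases hd with hd | hd
    · exact hd.2 σ' h1 h2
    · exact (hd.2 σ' h1 h2).mono_right Metric.sphere_subset_closedBall
  have hio : ∀ B ∈ Hist Lam j g π, cb B.1 B.2 ⊆ cb y R ∨ Disjoint (cb B.1 B.2) (cb y R) :=
    fun B hB => cb_in_or_out (hsph B hB)
  obtain ⟨rp, b, r1, r2, r3, r4⟩ := ray_spec hne
  have hP : ∀ x τ, ((F x).2 j).2.2 τ = g (rp (π x, τ)) := fun x τ => by
    rw [(hl x).2]
    exact (r4 g).2 _ _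
  obtain ⟨f1, κ, f2, f3⟩ := h.fine.2 y hy R hR1 hR2
  have hc : Continuous fun q : Sm k × ℝ => rp (π q.1, q.2) :=
    r1.comp ((h.cont.comp continuous_fst).prodMk continuous_snd)
  have gfam : Fam W g := h.nice.1
  refine ⟨⟨h.fam, h.par, hy, hR, fun x => (h.nice.2 (π x)).2, ho hR,
    fun x => h.cmp x _ (cb_meas y R) hio, fun x => h.cmp x _ (cb_meas y R).compl ?_, ?_,
    fun x => ?_, fun x τ hτ => ?_, fun x τ => ?_, ?_, fun x => ?_⟩, fun hw => ?_, hio⟩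
  · intro B hB
    rcases hio B hB with h1 | h1
    · exact Or.inr (disjoint_compl_right.mono_left h1)
    · exact Or.inl (subset_compl_iff_disjoint_right.2 h1)
  · simp only [hP]
    exact gfam.comp hc
  · simp only [hP, r2]
  · simp only [hP, r3 _ _ hτ, (r4 g).1]
  · simp only [hP]
    have := (abs_le.1 (f1 (rp (π x, τ)) (π x))).2
    linarith
  · refine ⟨fun d => κ (π d.1, rp (π d.1, d.2)),
      f2.comp ((h.cont.comp continuous_fst).prodMk hc), fun d => ⟨(f3 _ _).1, fun z => ?_⟩⟩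
    simp only [hP]
    exact (f3 _ _).2 z
  · refine bdy_cb_congr (h.par x) (h.nice.2 (π x)).1 hist_closed.measurableSet.compl ?_ (h.res x)
    intro z hz
    refine hist_closed.isOpen_compl.mem_nhds ?_
    intro hz'
    obtain ⟨B, hB, hzB⟩ := mem_iUnion₂.1 hz'
    exact disjoint_left.1 (hsph B hB) hzB hz
  · obtain ⟨hi, hdis⟩ := hd.resolve_left fun h' => hw h'.1
    refine ⟨hi.1, hch _ _ ?_ hi.2, fun x => Measure.restrict_congr_mono ?_ (h.res x)⟩
    · rw [(r4 g).1]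
      exact (gfam.poly b).restrict_cb hW hy hR
    · intro z hz hz'
      obtain ⟨B, hB, hzB⟩ := mem_iUnion₂.1 hz'
      obtain ⟨σ', h1, h2, rfl⟩ := hsub B hB
      exact disjoint_left.1 (hdis σ' h1 h2) hzB hz

/-- The invariant of the next round for a simplex of a carrier. -/
theorem IV.new (hθ : 0 < θ) (hlo : c₁ - γ ≤ lo) (he : 0 ≤ e)
    (h : IV N G W β c₁ η r₀ θ Lam hat j e lo F g π) {σ : Finset (Fin n)} (hσ : σ.card = j)
    (hne : σ.Nonempty)
    (hl : ∀ x, 0 < gap σ (π x) ∧ (F x).2 j = (gap σ (π x), Lam n g σ, ray g σ (π x)))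
    (hio : ∀ B ∈ Hist Lam j g π, cb B.1 B.2 ⊆ cb (Lam n g σ).1 (Lam n g σ).2 ∨
      Disjoint (cb B.1 B.2) (cb (Lam n g σ).1 (Lam n g σ).2))
    {D e' : ℝ} (hD : 0 ≤ D) (he' : D + e ≤ e') {x : Sx (Sm k × Fb)}
    (ho : Out G W β (fun x => (F x).1) (fun x => g (π x)) (Lam n g σ).1 (Lam n g σ).2
      (c₁ - γ) D x)
    (hlow : (∀ x, θ ≤ ((F x).2 j).1) → ∀ p, (x.2 p).2.2.2.real univ < c₁ - γ + D) :
    IV N G W β c₁ η r₀ θ Lam hat (j + 1) e' (lo + e')
      (fun p => ((x.2 p).2.2.2, (F (x.2 p).1).2)) g (fun p => π (x.2 p).1) := by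
  have hmem : Lam n g σ ∈ Hist Lam (j + 1) g (fun p => π (x.2 p).1) :=
    ⟨σ, by omega, hne, fun p => (hl _).1, rfl⟩
  set y := (Lam n g σ).1 with hy0
  set R := (Lam n g σ).2 with hR0
  have hm := cb_meas y R
  refine ⟨ho.fam, ho.par, h.hn, h.nice, h.fine, h.cont.comp ho.cont,
    fun p p' => h.diam _ _, fun p => h.lab _, fun p => ?_, fun p Q hQ hc => ?_,
    fun σ' hσ' ⟨q, hq⟩ p => ?_⟩
  · have h1 : (⋃ B ∈ Hist Lam (j + 1) g (fun p => π (x.2 p).1), cb B.1 B.2)ᶜ ⊆ (cb y R)ᶜ :=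
      compl_subset_compl.2 (subset_biUnion_of_mem (u := fun B : ℂ × ℝ => cb B.1 B.2) hmem)
    exact (Measure.restrict_congr_mono h1 (ho.out p)).trans
      (Measure.restrict_congr_mono (hist_compl (Nat.le_succ j) fun p => (x.2 p).1) (h.res _))
  · have hc' : ∀ B ∈ Hist Lam j g π, cb B.1 B.2 ⊆ Q ∨ Disjoint (cb B.1 B.2) Q :=
      fun B hB => hc B (hist_mono (Nat.le_succ j) (fun p => (x.2 p).1) hB)
    show (x.2 p).2.2.2.real Q ≤ (g (π (x.2 p).1)).real Q + e'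
    rcases hc _ hmem with h1 | h1
    · have i1 := (ho.fam.poly p).finite
      have i2 := (Fam.poly h.nice.1 (π (x.2 p).1)).finite
      have a1 : (x.2 p).2.2.2.real (Q ∩ cb y R) + (x.2 p).2.2.2.real (Q \ cb y R) =
        (x.2 p).2.2.2.real Q := measureReal_inter_add_sdiff hm
      have a2 : (g (π (x.2 p).1)).real (Q ∩ cb y R) + (g (π (x.2 p).1)).real (Q \ cb y R) =
        (g (π (x.2 p).1)).real Q := measureReal_inter_add_sdiff hm
      rw [inter_eq_self_of_subset_right h1] at a1 a2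
      have a3 := real_of_restrict (ho.out p) (Q := Q \ cb y R) fun z hz => hz.2
      have a4 := ho.inn p
      have a5 := h.cmp (x.2 p).1 (Q \ cb y R) (hQ.diff hm) fun B hB => by
        rcases hio B hB with h2 | h2
        · exact Or.inr (disjoint_sdiff_right.mono_left h2)
        · rcases hc' B hB with h3 | h3
          · exact Or.inl (subset_sdiff.2 ⟨h3, h2⟩)
          · exact Or.inr (h3.mono_right sdiff_subset)
      linarith
    · have a3 := real_of_restrict (ho.out p) (Q := Q) (subset_compl_iff_disjoint_left.2 h1)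
      have a5 := h.cmp (x.2 p).1 Q hQ hc'
      linarith
  · show (x.2 p).2.2.2.real univ < lo + e'
    rcases Nat.lt_succ_iff_lt_or_eq.1 hσ' with h1 | h1
    · have a1 := h.low σ' h1 ⟨_, hq⟩ (x.2 p).1
      have a2 := ho.lev p
      have a3 : max ((F (x.2 p).1).1.real univ) (c₁ - γ) ≤ lo := max_le a1.le hlo
      linarith
    · have e1 : σ' = σ := (gap_nested (y := π (x.2 q).1) (by linarith) (hl _).1).2 (h1.trans hσ.symm)
      subst e1
      have a1 := hlow (fun z => by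
        rw [(hl z).2]
        have b1 := gap_lip σ' (π (x.2 q).1) (π z)
        have b2 := h.diam (x.2 q).1 z
        show θ ≤ gap σ' (π z)
        linarith) p
      linarith

/-- The invariant of the next round for a simplex which is not moved. -/
theorem IV.stay (hH : HatSys Lam hat) (hθ : 0 < θ) (hη : 0 < η) (hlo : c₁ - γ ≤ lo) (he : 0 ≤ e)
    (h : IV N G W β c₁ η r₀ θ Lam hat j e lo F g π)
    (hNo : ∀ x, ((F x).2 j).1 < θ ∨ (((F x).2 j).2.2 1).real univ ≤ c₁ - γ)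
    {e' : ℝ} (he' : e + η < e') :
    IV N G W β c₁ η r₀ θ Lam hat (j + 1) e' (lo + e') F g π := by
  refine ⟨h.fam, h.par, h.hn, h.nice, h.fine, h.cont, h.diam, h.lab,
    fun p => Measure.restrict_congr_mono (hist_compl (Nat.le_succ j) fun p => p) (h.res p),
    fun p Q hQ hc => ?_, fun σ hσ ⟨q, hq⟩ p => ?_⟩
  · have := h.cmp p Q hQ fun B hB => hc B (hist_mono (Nat.le_succ j) (fun p => p) hB)
    linarith
  · rcases Nat.lt_succ_iff_lt_or_eq.1 hσ with h1 | h1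
    · have := h.low σ h1 ⟨q, hq⟩ p
      linarith
    · obtain ⟨h2, h3⟩ := h.act_all hH hθ h1 (x₀ := q) (by linarith) q
      have h4 := hNo q
      rw [h3] at h4
      have h5 : (ray g σ (π q) 1).real univ ≤ c₁ - γ :=
        h4.resolve_left (not_lt.2 (show θ ≤ gap σ (π q) by linarith))
      obtain ⟨rp, b, -, -, -, r4⟩ := ray_spec (gap_ne h2)
      rw [(r4 g).2] at h5
      have a1 := h.lev p
      have a2 := (abs_le.1 (h.fine.1 (π p) (rp (π q, 1)))).2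
      linarith

/-- Small pieces of a simplex have small oscillation in the discs of the labels. -/
theorem IV.osc (hH : HatSys Lam hat) (hη : 0 < η)
    (h : IV N G W β c₁ η r₀ θ Lam hat j e lo F g π) :
    ∃ δ : ℝ, 0 < δ ∧ ∀ x₀, 0 < ((F x₀).2 j).1 → 0 < ((F x₀).2 j).2.1.2 → ∀ x x', dist x x' ≤ δ →
      (F x).1.real (cb ((F x₀).2 j).2.1.1 ((F x₀).2 j).2.1.2) ≤
        (F x').1.real (cb ((F x₀).2 j).2.1.1 ((F x₀).2 j).2.1.2) + η := by
  have key : ∀ σ : Finset (Fin n), ∀ᶠ δ in 𝓝[>] (0 : ℝ), 0 < (Lam n g σ).2 →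
      ∀ x x', dist x x' ≤ δ → (F x).1.real (cb (Lam n g σ).1 (Lam n g σ).2) ≤
        (F x').1.real (cb (Lam n g σ).1 (Lam n g σ).2) + η := by
    intro σ
    by_cases hR : 0 < (Lam n g σ).2
    · have hc := h.fam.continuous_cb (Lam n g σ).1 hR
      obtain ⟨δ, hδ, hd⟩ := Metric.uniformContinuous_iff.1
        (CompactSpace.uniformContinuous_of_continuous hc) η hη
      filter_upwards [Ioo_mem_nhdsGT hδ] with d hd' _ x x' hx
      have := (abs_lt.1 (hd (hx.trans_lt hd'.2))).2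
      linarith
    · exact Eventually.of_forall fun _ h' => absurd h' hR
  obtain ⟨δ, h1, h2⟩ := ((eventually_all.2 key).and self_mem_nhdsWithin).exists
  refine ⟨δ, h2, fun x₀ hx hR => ?_⟩
  obtain ⟨σ, -, hσ⟩ := h.act hH hx
  rw [hσ] at hR ⊢
  exact h1 σ hR

end St

end Pool.Agent.MP_20201c_gt.H91
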