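import Pool.Agent.MP_20201c_gt.H91.WFill
import Pool.Agent.MP_20201c_gt.H91.Hat
import Pool.Agent.MP_20201c_gt.H91.LemI
import Pool.Agent.MP_20201c_gt.H91.Round
import Pool.Agent.MP_20201c_gt.H91.Sdk
import Pool.Agent.MP_20201c_gt.H91.Step_c

/-! One round of the deformation. -/

open MeasureTheory Set Filter Topology
open scoped ENNReal

namespace Pool.Agent.MP_20201c_gt.H91

theorem inv_preCl (N : ℕ) (G W : Set ℂ) (β : ℂ → F2) (c₁ η r₀ θ : ℝ)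
    (Lam : ∀ n, (Sm n → Ms) → Finset (Fin n) → ℂ × ℝ) (hat : ∀ n, (Sm n → Ms) → Sm n → Lab)
    (j : ℕ) (e lo : ℝ) : PreCl (Inv N G W β c₁ η r₀ θ Lam hat j e lo) := by
  intro n k f φ hφ hs
  obtain ⟨m, g, π, h⟩ := St.inv_iff.1 hs
  exact St.inv_iff.2 ⟨m, g, _, h.comp hφ⟩

namespace St

/-- Small oscillation of the mass in the discs of colour `j`. -/
def Osc (η : ℝ) (j : ℕ) : Set (Sx (Ms × Lab)) :=
  {s | ∀ x₀, 0 < ((s.2 x₀).2 j).1 → 0 < ((s.2 x₀).2 j).2.1.2 → ∀ x x',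
    (s.2 x).1.real (cb ((s.2 x₀).2 j).2.1.1 ((s.2 x₀).2 j).2.1.2) ≤
      (s.2 x').1.real (cb ((s.2 x₀).2 j).2.1.1 ((s.2 x₀).2 j).2.1.2) + η}

/-- Simplices that are not moved. -/
def No (θ c : ℝ) (j : ℕ) : Set (Sx (Ms × Lab)) :=
  {s | ∀ x, ((s.2 x).2 j).1 < θ ∨ (((s.2 x).2 j).2.2 1).real univ ≤ c}

/-- Simplices that are pushed down. -/
def Al (θ : ℝ) (j : ℕ) : Set (Sx (Ms × Lab)) := {s | ∀ x, θ ≤ ((s.2 x).2 j).1}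

def Hi (N : ℕ) (G W : Set ℂ) (β : ℂ → F2) (γ η ε : ℝ) (ch : Ms → ℂ × ℝ → ℕ × (ℝ → Ms)) (j m : ℕ)
    (s : Sx (Ms × Lab)) : Set (Sx (Sm s.1 × Fb)) :=
  {x | ∀ x₀, x ∈ CHi N G W β γ η ε ch (((s.2 x₀).2 j).2.2 1) ((s.2 x₀).2 j).2.1 m
    (fun p => (s.2 p).1) (fun p => ((s.2 p).2 j).2.2)}

def Lo (N : ℕ) (G W : Set ℂ) (β : ℂ → F2) (γ η ε : ℝ) (ch : Ms → ℂ × ℝ → ℕ × (ℝ → Ms)) (j m : ℕ)
    (s : Sx (Ms × Lab)) : Set (Sx (Sm s.1 × Fb)) :=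
  {x | ∀ x₀, x ∈ CLo N G W β γ η ε ch (((s.2 x₀).2 j).2.2 1) ((s.2 x₀).2 j).2.1 m
    (fun p => (s.2 p).1) (fun p => ((s.2 p).2 j).2.2)}

theorem niceL_preCl (G W : Set ℂ) (β : ℂ → F2) (t : ℝ) : PreCl (NiceL G W β t) :=
  fun n k f φ hφ hs => nice_preCl G W β t n k (Prod.fst ∘ f) φ hφ hs

theorem niceL_mono {G W : Set ℂ} {β : ℂ → F2} {t t' : ℝ} (h : t ≤ t') :
    NiceL G W β t ⊆ NiceL G W β t' := fun _ hs => nice_mono h hs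

theorem bd_lt {Y : Type} {N : ℕ} {c : Ch Y} (hc : c ∈ Sp (Dle Y N)) :
    bd c ∈ Sp {s : Sx Y | s.1 + 1 ≤ N} := by
  refine lift_mem bdS _ (fun s hs => sp_mono ?_ (bdS_mem_lt s)) hc
  intro s' hs'
  exact le_trans (le_of_eq hs') hs

variable {N : ℕ} {G W : Set ℂ} {β : ℂ → F2} {c₁ γ η r₀ θ ε : ℝ}
  {Lam : ∀ n, (Sm n → Ms) → Finset (Fin n) → ℂ × ℝ} {hat : ∀ n, (Sm n → Ms) → Sm n → Lab}
  {j : ℕ} {e lo : ℝ} {ch : Ms → ℂ × ℝ → ℕ × (ℝ → Ms)}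

/-- All the data of a simplex that is moved. -/
def Dat (N : ℕ) (G W : Set ℂ) (β : ℂ → F2) (c₁ γ η r₀ θ ε : ℝ)
    (Lam : ∀ n, (Sm n → Ms) → Finset (Fin n) → ℂ × ℝ) (hat : ∀ n, (Sm n → Ms) → Sm n → Lab)
    (j : ℕ) (e lo : ℝ) (ch : Ms → ℂ × ℝ → ℕ × (ℝ → Ms)) (s : Sx (Ms × Lab)) : Prop :=
  ∃ (n : ℕ) (g : Sm n → Ms) (π : Sm s.1 → Sm n) (σ : Finset (Fin n)) (_ : Sm s.1),
    IV N G W β c₁ η r₀ θ Lam hat j e lo s.2 g π ∧ σ.card = j ∧ σ.Nonempty ∧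
    (∀ x, 0 < gap σ (π x) ∧ (s.2 x).2 j = (gap σ (π x), Lam n g σ, ray g σ (π x))) ∧
    c₁ - γ < (anchor g σ).real univ ∧
    (∀ x, ((s.2 x).2 j).2.2 1 = anchor g σ ∧ ((s.2 x).2 j).2.1 = Lam n g σ) ∧
    Loc G W β c₁ η e (fun x => (s.2 x).1) (fun x => g (π x)) (fun x => ((s.2 x).2 j).2.2)
      (anchor g σ) (Lam n g σ).1 (Lam n g σ).2 ∧
    Alt N G W γ ε ch (fun x => (s.2 x).1) (fun x => g (π x)) (anchor g σ) (Lam n g σ) ∧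
    (∀ B ∈ Hist Lam j g π, cb B.1 B.2 ⊆ cb (Lam n g σ).1 (Lam n g σ).2 ∨
      Disjoint (cb B.1 B.2) (cb (Lam n g σ).1 (Lam n g σ).2)) ∧
    (∀ m, Hi N G W β γ η ε ch j m s = CHi N G W β γ η ε ch (anchor g σ) (Lam n g σ) m
      (fun p => (s.2 p).1) (fun p => ((s.2 p).2 j).2.2)) ∧
    ∀ m, Lo N G W β γ η ε ch j m s = CLo N G W β γ η ε ch (anchor g σ) (Lam n g σ) m
      (fun p => (s.2 p).1) (fun p => ((s.2 p).2 j).2.2)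

theorem dat (hW : Convex ℝ W) (hr : 0 < r₀) (hθ : 0 < θ) (hH : HatSys Lam hat)
    (hL : GoodLam N G W β c₁ γ r₀ Lam)
    (hch : ∀ A B, Poly (W ∩ cb B.1 B.2) (A.restrict (cb B.1 B.2)) →
      IP G (W ∩ cb B.1 B.2) (A.restrict (cb B.1 B.2)) γ →
      PS G W γ ε A B.1 B.2 (ch A B).1 (ch A B).2) {s : Sx (Ms × Lab)}
    (hs : s ∈ Inv N G W β c₁ η r₀ θ Lam hat j e lo ∩ Osc η j) (hn : s ∉ No θ (c₁ - γ) j) :
    Dat N G W β c₁ γ η r₀ θ ε Lam hat j e lo ch s := by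
  obtain ⟨n, g, π, h⟩ := inv_iff.1 hs.1
  obtain ⟨x₀, hx⟩ := not_forall.1 hn
  rw [not_or, not_lt, not_le] at hx
  obtain ⟨σ, hσ, h0⟩ := h.act hH (hθ.trans_le hx.1)
  have hg : θ ≤ gap σ (π x₀) := by
    have := hx.1
    rwa [h0] at this
  have hl := h.act_all hH hθ hσ hg
  have hne : σ.Nonempty := gap_ne (hl x₀).1
  have hc : ∀ x, ((s.2 x).2 j).2.2 1 = anchor g σ ∧ ((s.2 x).2 j).2.1 = Lam n g σ := fun x => by
    rw [(hl x).2]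
    exact ⟨ray_one hne g _, rfl⟩
  have hA : c₁ - γ < (anchor g σ).real univ := (hc x₀).1 ▸ hx.2
  have ho := hs.2 x₀ (hθ.trans_le hx.1)
  rw [(hc x₀).2] at ho
  obtain ⟨d1, d2, d3⟩ := h.loc hW hr hL hch hσ x₀ hl hA ho
  refine ⟨n, g, π, σ, x₀, h, hσ, hne, hl, hA, hc, d1, d2, d3, fun m => ?_, fun m => ?_⟩
  · ext x
    refine ⟨fun hx => ?_, fun hx x₁ => ?_⟩
    · have := hx x₀
      rwa [(hc x₀).1, (hc x₀).2] at this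
    · rwa [(hc x₁).1, (hc x₁).2]
  · ext x
    refine ⟨fun hx => ?_, fun hx x₁ => ?_⟩
    · have := hx x₀
      rwa [(hc x₀).1, (hc x₀).2] at this
    · rwa [(hc x₁).1, (hc x₁).2]

/-- The realisation map. -/
def Rz (y : Ms × Lab) (m : Fb) : Ms × Lab := (m.2.2, y.2)

theorem nice_rl (hW : Convex ℝ W) (hγ : 0 ≤ γ) (hη : 0 < η) (hε : 0 < ε) (he : 0 ≤ e)
    {s : Sx (Ms × Lab)} (hd : Dat N G W β c₁ γ η r₀ θ ε Lam hat j e lo ch s) {t : ℝ}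
    (ht : c₁ - γ ≤ t) (hs : s ∈ NiceL G W β t) {m : ℕ} (hm : m ≤ N + 1)
    {x : Sx (Sm s.1 × Fb)} (hx : x ∈ Hi N G W β γ η ε ch j m s) :
    rl Rz s x ∈ NiceL G W β (t + (e + (N + 3) * (2 * η + ε))) := by
  obtain ⟨n, g, π, σ, x₀, h, hσ, hne, hl, hA, hc, d1, d2, d3, d4, d5⟩ := hd
  rw [d4] at hx
  have ho := out_cHi hW hγ hη hε he d1 d2 hm hx
  refine ⟨ho.fam, fun p => ⟨ho.par p, ?_⟩⟩
  have a1 := ho.lev p
  have a2 : (s.2 (x.2 p).1).1.real univ < t := (hs.2 (x.2 p).1).2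
  have a3 : max ((s.2 (x.2 p).1).1.real univ) (c₁ - γ) ≤ t := max_le a2.le ht
  show (x.2 p).2.2.2.real univ < _
  linarith

theorem inv_rl (hW : Convex ℝ W) (hγ : 0 ≤ γ) (hη : 0 < η) (hθ : 0 < θ) (hε : 0 < ε) (he : 0 ≤ e)
    (hlo : c₁ - γ ≤ lo) {e' : ℝ} (he' : 2 * e + (N + 3) * (2 * η + ε) ≤ e')
    {s : Sx (Ms × Lab)} (hd : Dat N G W β c₁ γ η r₀ θ ε Lam hat j e lo ch s) {m : ℕ}
    (hm : m ≤ N + 1) {x : Sx (Sm s.1 × Fb)} (hx : x ∈ Hi N G W β γ η ε ch j m s)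
    (hx' : s ∈ Al θ j → x ∈ Lo N G W β γ η ε ch j m s) :
    rl Rz s x ∈ Inv N G W β c₁ η r₀ θ Lam hat (j + 1) e' (lo + e') := by
  obtain ⟨n, g, π, σ, x₀, h, hσ, hne, hl, hA, hc, d1, d2, d3, d4, d5⟩ := hd
  rw [d4] at hx
  rw [d5] at hx'
  have ho := out_cHi hW hγ hη hε he d1 d2 hm hx
  exact inv_iff.2 ⟨n, g, _, h.new hθ hlo he hσ hne hl d3 (by positivity) (by linarith) ho
    fun hA => low_cLo hW hη hε d1 d2 hm (hx' hA)⟩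

theorem inv_nice {s : Sx (Ms × Lab)} (hs : s ∈ Inv N G W β c₁ η r₀ θ Lam hat j e lo) :
    s ∈ NiceL G W β (c₁ + e) := by
  obtain ⟨n, g, π, h⟩ := inv_iff.1 hs
  exact ⟨h.fam, fun x => ⟨h.par x, h.lev' x⟩⟩

theorem osc_faceCl (η : ℝ) (j : ℕ) : FaceCl (Osc η j) :=
  fun n _ i hs x₀ h1 h2 x x' => hs (fc n i x₀) h1 h2 (fc n i x) (fc n i x')

theorem run (hW : Convex ℝ W) (hη : 0 < η) (hr : 0 < r₀) (hθ : 0 < θ) (hε : 0 < ε)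
    (hH : HatSys Lam hat) (hL : GoodLam N G W β c₁ γ r₀ Lam)
    (hch : ∀ A B, Poly (W ∩ cb B.1 B.2) (A.restrict (cb B.1 B.2)) →
      IP G (W ∩ cb B.1 B.2) (A.restrict (cb B.1 B.2)) γ →
      PS G W γ ε A B.1 B.2 (ch A B).1 (ch A B).2) :
    ∃ A H : Ch (Ms × Lab) →ₗ[F2] Ch (Ms × Lab),
      (∀ c ∈ Sp (Inv N G W β c₁ η r₀ θ Lam hat j e lo ∩ Osc η j ∩ Dle _ N),
        bd (A c) = A (bd c) ∧ bd (H c) = c + A c + H (bd c)) ∧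
      ∀ s ∈ Inv N G W β c₁ η r₀ θ Lam hat j e lo ∩ Osc η j, s.1 ≤ N →
        (s ∈ No θ (c₁ - γ) j → A (one s) = one s ∧ H (one s) = 0) ∧
        (s ∉ No θ (c₁ - γ) j →
          A (one s) ∈ Sp {s' | ∃ x ∈ Hi N G W β γ η ε ch j s.1 s, x.1 ≤ s.1 ∧ s' = rl Rz s x} ∧
          H (one s) ∈ Sp {s' | ∃ x ∈ Hi N G W β γ η ε ch j (s.1 + 1) s, x.1 ≤ s.1 + 1 ∧
            s' = rl Rz s x} ∧
          (s ∈ Al θ j → A (one s) ∈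
            Sp {s' | ∃ x ∈ Lo N G W β γ η ε ch j s.1 s, x.1 ≤ s.1 ∧ s' = rl Rz s x})) := by
  have hNo : ∀ (n : ℕ) (f : Sm (n + 1) → Ms × Lab) (i : Fin (n + 1)),
      (⟨n + 1, f⟩ : Sx (Ms × Lab)) ∈ No θ (c₁ - γ) j →
      (⟨n, f ∘ fc n i⟩ : Sx (Ms × Lab)) ∈ No θ (c₁ - γ) j := fun n f i h x => h (fc n i x)
  have hS : FaceCl (Inv N G W β c₁ η r₀ θ Lam hat j e lo ∩ Osc η j) := fun n f i hs =>
    ⟨(inv_preCl N G W β c₁ η r₀ θ Lam hat j e lo).faceCl n f i hs.1, osc_faceCl η j n f i hs.2⟩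
  refine round N _ (No θ (c₁ - γ) j) (Al θ j)
    hS
    (fun n f i _ h => hNo n f i h) (fun n f i h x => h (fc n i x))
    (fun x => isEmptyElim (α := Sm 0) x) ?_ (fun y => ((0 : ℝ), (0 : Ms), y.1)) Rz (fun _ => rfl)
    (Hi N G W β γ η ε ch j) (Lo N G W β γ η ε ch j)
    (fun m s x hx x₀ => cHi_succ hη hε m (hx x₀)) (fun m s x hx x₀ => cLo_succ hη hε m (hx x₀))
    (fun m s _ _ x hx x₀ => cLo_sub m (hx x₀)) ?_ ?_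
    (fun s _ _ n f i hx x₀ => (cHi_preCl 0).faceCl n f i (hx x₀)) ?_
    (fun s _ _ x₀ => emp_cLo 0) ?_ ?_
  · intro n f i hs hA hn hf
    obtain ⟨n', g, π, σ, x₀, h, hσ, hne, hl, hA', hc, -⟩ := dat hW hr hθ hH hL hch hs hn
    rcases n with _ | n
    · rfl
    · exfalso
      have x₁ : Sm (n + 1) := stdSimplex.vertex 0
      rcases hf x₁ with h1 | h1
      · exact absurd (hA (fc (n + 1) i x₁)) (not_le.2 h1)
      · have h2 := (hc (fc (n + 1) i x₁)).1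
        exact absurd (h2 ▸ h1 : (anchor g σ).real univ ≤ c₁ - γ) (not_le.2 hA')
  · intro m n f i hs hf x hx
    obtain ⟨n', g, π, σ, x₀, h, hσ, hne, hl, hA', hc, d1, d2, d3, d4, d5⟩ :=
      dat hW hr hθ hH hL hch hs fun h => hf (hNo n f i h)
    obtain ⟨x₁, -⟩ := not_forall.1 hf
    rw [d4]
    have h1 := hx x₁
    have h2 := hc (fc n i x₁)
    refine cHi_push (continuous_fc n i) x₁ (d1.bdd x₀) m ?_
    rw [← h2.1, ← h2.2]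
    exact h1
  · intro m n f i hs hf x hx
    obtain ⟨n', g, π, σ, x₀, h, hσ, hne, hl, hA', hc, d1, d2, d3, d4, d5⟩ :=
      dat hW hr hθ hH hL hch hs fun h => hf (hNo n f i h)
    obtain ⟨x₁, -⟩ := not_forall.1 hf
    rw [d5]
    have h1 := hx x₁
    have h2 := hc (fc n i x₁)
    refine cLo_push (continuous_fc n i) m ?_
    rw [← h2.1, ← h2.2]
    exact h1
  · intro s hs hn
    obtain ⟨n', g, π, σ, x₀, h, hσ, hne, hl, hA', hc, d1, d2, d3, d4, d5⟩ :=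
      dat hW hr hθ hH hL hch hs hn
    rw [d4]
    exact diag_cHi hη hε d1 d2
  · intro m s hs hn
    obtain ⟨n', g, π, σ, x₀, h, hσ, hne, hl, hA', hc, d1, d2, d3, d4, d5⟩ :=
      dat hW hr hθ hH hL hch hs hn
    rw [d4, d4]
    exact fill_cHi hW hη hε d1 d2 x₀ m
  · intro m s hs hn _
    obtain ⟨n', g, π, σ, x₀, h, hσ, hne, hl, hA', hc, d1, d2, d3, d4, d5⟩ :=
      dat hW hr hθ hH hL hch hs hn
    rw [d5, d5]
    exact fill_cLo hW hη hε d1 d2 x₀ m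

end St

open St in
theorem step {N : ℕ} {G W : Set ℂ} (hW : Convex ℝ W) {β : ℂ → F2} {c₁ γ η r₀ θ ε : ℝ}
    (hγ : 0 ≤ γ) (hη : 0 < η) (hr : 0 < r₀) (hθ : 0 < θ) (hε : 0 < ε)
    {Lam : ∀ n, (Sm n → Ms) → Finset (Fin n) → ℂ × ℝ} {hat : ∀ n, (Sm n → Ms) → Sm n → Lab}
    (hH : HatSys Lam hat) (hL : GoodLam N G W β c₁ γ r₀ Lam) (j : ℕ) {e lo b : ℝ} (he : 0 ≤ e)
    (hlo : c₁ - γ ≤ lo) (hb : c₁ - γ ≤ b) {e' : ℝ} (he' : 2 * e + (N + 3) * (2 * η + ε) ≤ e')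
    {w : Ch (Ms × Lab)} (hw : w ∈ Sp (Inv N G W β c₁ η r₀ θ Lam hat j e lo ∩ Dle _ N))
    (hbw : bd w ∈ Sp (NiceL G W β b)) :
    ∃ w₁ ∈ Sp (Inv N G W β c₁ η r₀ θ Lam hat (j + 1) e' (lo + e') ∩ Dle _ N),
      ∃ h ∈ Sp (NiceL G W β (c₁ + e')), ∃ u ∈ Sp (NiceL G W β (b + e') ∩ Dle _ N),
        bd w₁ ∈ Sp (NiceL G W β (b + e')) ∧ w + w₁ = bd h + u := by
  obtain ⟨ch, hch⟩ := exists_ch G W γ hε
  have hP := inv_preCl N G W β c₁ η r₀ θ Lam hat j e lo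
  obtain ⟨w₀, hw₀, h₀, hh₀, u₀, hu₀, hb₀, he₀, -⟩ := refine_chain (Q := Osc η j) hP
    (niceL_preCl G W β b) (fun s hs => by
      obtain ⟨n, g, π, h⟩ := inv_iff.1 hs
      obtain ⟨δ, hδ, hd⟩ := h.osc hH hη
      exact ⟨δ, hδ, fun k φ _ hφ x₀ h1 h2 x x' => hd (φ x₀) h1 h2 (φ x) (φ x') (hφ x x')⟩) hw hbw
  obtain ⟨A, H, hc, hAH⟩ := run (j := j) (e := e) (lo := lo) hW hη hr hθ hε hH hL hch
  have hD : η < (N + 3) * (2 * η + ε) := by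
    have : (0 : ℝ) ≤ N := Nat.cast_nonneg N
    nlinarith
  have hS : FaceCl (Inv N G W β c₁ η r₀ θ Lam hat j e lo ∩ Osc η j) :=
    fun n f i hs => ⟨hP.faceCl n f i hs.1, osc_faceCl η j n f i hs.2⟩
  have hbd : bd w₀ ∈ Sp ((Inv N G W β c₁ η r₀ θ Lam hat j e lo ∩ Osc η j) ∩ NiceL G W β b ∩
      {s | s.1 + 1 ≤ N}) :=
    sp_inter.2 ⟨sp_inter.2 ⟨bd_mem hS (sp_inter.1 hw₀).1, hb₀⟩, bd_lt (sp_inter.1 hw₀).2⟩
  refine ⟨A w₀, lin_mem A _ (fun s hs => ?_) hw₀, h₀ + H w₀, Submodule.add_mem _ ?_ ?_,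
    u₀ + H (bd w₀), Submodule.add_mem _ ?_ ?_, ?_, ?_⟩
  · by_cases hn : s ∈ No θ (c₁ - γ) j
    · rw [((hAH s hs.1 hs.2).1 hn).1]
      obtain ⟨n, g, π, h⟩ := inv_iff.1 hs.1.1
      exact one_mem ⟨inv_iff.2 ⟨n, g, π, h.stay hH hθ hη hlo he hn (by linarith)⟩, hs.2⟩
    · obtain ⟨h1, -, h3⟩ := (hAH s hs.1 hs.2).2 hn
      have hd := dat hW hr hθ hH hL hch hs.1 hn
      have hm : s.1 ≤ N + 1 := Nat.le_succ_of_le hs.2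
      by_cases ha : s ∈ Al θ j
      · refine sp_mono ?_ (h3 ha)
        rintro _ ⟨x, hx, hx', rfl⟩
        exact ⟨inv_rl hW hγ hη hθ hε he hlo he' hd hm (fun x₀ => cLo_sub _ (hx x₀)) fun _ => hx,
          le_trans hx' hs.2⟩
      · refine sp_mono ?_ h1
        rintro _ ⟨x, hx, hx', rfl⟩
        exact ⟨inv_rl hW hγ hη hθ hε he hlo he' hd hm hx fun h => absurd h ha, le_trans hx' hs.2⟩
  · exact sp_mono (fun s hs => niceL_mono (by linarith) (inv_nice hs)) hh₀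
  · refine lin_mem H _ (fun s hs => ?_) hw₀
    by_cases hn : s ∈ No θ (c₁ - γ) j
    · rw [((hAH s hs.1 hs.2).1 hn).2]
      exact Submodule.zero_mem _
    · refine sp_mono ?_ ((hAH s hs.1 hs.2).2 hn).2.1
      rintro _ ⟨x, hx, -, rfl⟩
      exact niceL_mono (by linarith) (nice_rl hW hγ hη hε he (dat hW hr hθ hH hL hch hs.1 hn)
        (by linarith) (inv_nice hs.1.1) (Nat.succ_le_succ hs.2) hx)
  · refine sp_mono (fun s hs => ?_) hu₀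
    exact ⟨niceL_mono (by linarith) hs.1.2, hs.2⟩
  · refine lin_mem H _ (fun s hs => ?_) hbd
    have hN : s.1 ≤ N := Nat.le_of_succ_le hs.2
    by_cases hn : s ∈ No θ (c₁ - γ) j
    · rw [((hAH s hs.1.1 hN).1 hn).2]
      exact Submodule.zero_mem _
    · refine sp_mono ?_ ((hAH s hs.1.1 hN).2 hn).2.1
      rintro _ ⟨x, hx, hx', rfl⟩
      exact ⟨niceL_mono (by linarith) (nice_rl hW hγ hη hε he (dat hW hr hθ hH hL hch hs.1.1 hn)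
        hb hs.1.2 (Nat.succ_le_succ hN) hx), le_trans hx' hs.2⟩
  · rw [(hc w₀ hw₀).1]
    refine lin_mem A _ (fun s hs => ?_) hbd
    have hN : s.1 ≤ N := Nat.le_of_succ_le hs.2
    by_cases hn : s ∈ No θ (c₁ - γ) j
    · rw [((hAH s hs.1.1 hN).1 hn).1]
      exact one_mem (niceL_mono (by linarith) hs.1.2)
    · refine sp_mono ?_ ((hAH s hs.1.1 hN).2 hn).1
      rintro _ ⟨x, hx, -, rfl⟩
      exact niceL_mono (by linarith) (nice_rl hW hγ hη hε he (dat hW hr hθ hH hL hch hs.1.1 hn)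
        hb hs.1.2 (Nat.le_succ_of_le hN) hx)
  · rw [map_add, (hc w₀ hw₀).2]
    have a1 := add_self2 w₀
    have a2 := add_self2 (H (bd w₀))
    calc w + A w₀ = (w + w₀) + w₀ + A w₀ + (H (bd w₀) + H (bd w₀)) := by
          rw [a2, add_zero, add_assoc w w₀ w₀, a1, add_zero]
      _ = _ := by rw [he₀]; abel

end Pool.Agent.MP_20201c_gt.H91
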