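import Pool.Agent.MP_20201c_gt.H91.WFill
import Pool.Agent.MP_20201c_gt.H91.LemI
import Pool.Agent.MP_20201c_gt.H91.Round

/-! The carriers of one round: local data, fillings and estimates. -/

open MeasureTheory Set Filter Topology
open scoped ENNReal

namespace Pool.Agent.MP_20201c_gt.H91

namespace St

theorem cb_meas (y : ℂ) (R : ℝ) : MeasurableSet (cb y R) := measurableSet_closedBall

theorem split {W : Set ℂ} {μ : Ms} (h : Poly W μ) (y : ℂ) (R : ℝ) :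
    μ.real (cb y R) + μ.real (cb y R)ᶜ = μ.real univ := by
  have := h.finite
  exact measureReal_add_measureReal_compl (cb_meas y R)

theorem real_of_restrict {μ ν : Ms} {A Q : Set ℂ} (h : μ.restrict A = ν.restrict A) (hQ : Q ⊆ A) :
    μ.real Q = ν.real Q := by
  have h1 := Measure.restrict_congr_mono hQ h
  rw [← measureReal_restrict_apply_univ Q, h1, measureReal_restrict_apply_univ]

/-- Local data on a simplex whose disc is active. -/
structure Loc (G W : Set ℂ) (β : ℂ → F2) (c₁ η e : ℝ) {k : ℕ} (f g : Sm k → Ms)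
    (P : Sm k → ℝ → Ms) (A : Ms) (y : ℂ) (R : ℝ) : Prop where
  fam : Fam W f
  par : ∀ x, Par G W β (f x)
  hy : y ∈ W
  hR : 0 < R
  glev : ∀ x, (g x).real univ < c₁
  osc : ∀ x x', (f x).real (cb y R) ≤ (f x').real (cb y R) + η
  cmp : ∀ x, (f x).real (cb y R) ≤ (g x).real (cb y R) + e
  cmp' : ∀ x, (f x).real (cb y R)ᶜ ≤ (g x).real (cb y R)ᶜ + e
  pfam : Fam W fun q : Sm k × ℝ => P q.1 q.2
  p0 : ∀ x, P x 0 = g x
  p1 : ∀ x τ, 1 ≤ τ → P x τ = A
  pm : ∀ x τ, (P x τ).real (cb y R) ≤ (g x).real (cb y R) + η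
  kap : ∃ κ : Sm k × ℝ → Ms, Fam (W ∩ cb y R) κ ∧ ∀ d, (κ d).real univ ≤ η ∧
    ∀ z, bdy (κ d) z = bdy ((g d.1).restrict (cb y R)) z + bdy ((P d.1 d.2).restrict (cb y R)) z
  bc : ∀ x, ∀ z ∈ W ∩ cb y R, z ∈ G →
    bdy ((f x).restrict (cb y R)) z = bdy ((g x).restrict (cb y R)) z

/-- What a simplex of a carrier looks like. -/
structure Out (G W : Set ℂ) (β : ℂ → F2) {k : ℕ} (f g : Sm k → Ms) (y : ℂ) (R c D : ℝ)
    (x : Sx (Sm k × Fb)) : Prop where
  cont : Continuous fun p => (x.2 p).1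
  fam : Fam W fun p => (x.2 p).2.2.2
  par : ∀ p, Par G W β (x.2 p).2.2.2
  out : ∀ p, (x.2 p).2.2.2.restrict (cb y R)ᶜ = (f (x.2 p).1).restrict (cb y R)ᶜ
  inn : ∀ p, (x.2 p).2.2.2.real (cb y R) ≤ (g (x.2 p).1).real (cb y R) + D
  lev : ∀ p, (x.2 p).2.2.2.real univ < max ((f (x.2 p).1).real univ) c + D

/-- An improving path, cut in unit pieces. -/
structure PS (G W : Set ℂ) (γ ε : ℝ) (A : Ms) (y : ℂ) (R : ℝ) (J : ℕ) (u : ℝ → Ms) : Prop where
  u0 : u 0 = A.restrict (cb y R)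
  uJ : (u J).real univ ≤ A.real (cb y R) - γ
  pc : ∀ i : ℕ, i < J → ∃ v : ℝ → Ms, Fam (W ∩ cb y R) v ∧ ∀ τ ∈ Icc (i : ℝ) (i + 1), u τ = v τ
  al : ∀ τ, Poly (W ∩ cb y R) (u τ) ∧ Par G (W ∩ cb y R) (bdy (A.restrict (cb y R))) (u τ) ∧
    (u τ).real univ < A.real (cb y R) + ε

theorem exists_ch (G W : Set ℂ) (γ : ℝ) {ε : ℝ} (hε : 0 < ε) :
    ∃ ch : Ms → ℂ × ℝ → ℕ × (ℝ → Ms), ∀ A B, Poly (W ∩ cb B.1 B.2) (A.restrict (cb B.1 B.2)) →
      IP G (W ∩ cb B.1 B.2) (A.restrict (cb B.1 B.2)) γ →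
      PS G W γ ε A B.1 B.2 (ch A B).1 (ch A B).2 := by
  have key : ∀ (A : Ms) (B : ℂ × ℝ), ∃ p : ℕ × (ℝ → Ms),
      Poly (W ∩ cb B.1 B.2) (A.restrict (cb B.1 B.2)) →
      IP G (W ∩ cb B.1 B.2) (A.restrict (cb B.1 B.2)) γ → PS G W γ ε A B.1 B.2 p.1 p.2 := by
    intro A B
    by_cases h : Poly (W ∩ cb B.1 B.2) (A.restrict (cb B.1 B.2)) ∧
      IP G (W ∩ cb B.1 B.2) (A.restrict (cb B.1 B.2)) γ
    · obtain ⟨T', hT, hT'⟩ := h.2 ε hε
      obtain ⟨J, u, h0, hJ, h1, h2⟩ := path_of_steps hT h.1 (fun _ _ _ => rfl) (by linarith)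
      rw [measureReal_restrict_apply_univ] at hT' h2
      rw [← hJ] at hT'
      exact ⟨(J, u), fun _ _ => ⟨h0, hT', h1, h2⟩⟩
    · exact ⟨(0, fun _ => 0), fun h1 h2 => absurd ⟨h1, h2⟩ h⟩
  choose ch hch using key
  exact ⟨ch, hch⟩

/-- The path to the anchor followed by the improving path. -/
noncomputable def Qp {k : ℕ} (P : Sm k → ℝ → Ms) (y : ℂ) (R : ℝ) (u : ℝ → Ms) (x : Sm k)
    (τ : ℝ) : Ms :=
  if τ ≤ 1 then (P x τ).restrict (cb y R) else u (τ - 1)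

variable {N : ℕ} {G W : Set ℂ} {β : ℂ → F2} {c₁ γ η ε e : ℝ} {k : ℕ} {f g : Sm k → Ms}
  {P : Sm k → ℝ → Ms} {A : Ms} {y : ℂ} {R : ℝ} {J : ℕ} {u : ℝ → Ms}

theorem Loc.gpoly (h : Loc G W β c₁ η e f g P A y R) (x : Sm k) : Poly W (g x) :=
  h.p0 x ▸ h.pfam.poly (x, 0)

theorem Loc.apoly (h : Loc G W β c₁ η e f g P A y R) (x : Sm k) : Poly W A :=
  h.p1 x 1 le_rfl ▸ h.pfam.poly (x, 1)

theorem Loc.am (h : Loc G W β c₁ η e f g P A y R) (x : Sm k) :
    A.real (cb y R) ≤ (g x).real (cb y R) + η :=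
  h.p1 x 1 le_rfl ▸ h.pm x 1

theorem Loc.ext (h : Loc G W β c₁ η e f g P A y R) (x : Sm k) :
    (f x).real (cb y R)ᶜ + A.real (cb y R) < c₁ + η + e := by
  have h1 := h.cmp' x
  have h2 := h.am x
  have h3 := split (h.gpoly x) y R
  have h4 := h.glev x
  linarith

theorem Loc.bdd (h : Loc G W β c₁ η e f g P A y R) (x : Sm k) :
    BddAbove (range fun x => (f x).real (cb y R)) :=
  ⟨(f x).real (cb y R) + η, by rintro _ ⟨x', rfl⟩; exact h.osc x' x⟩

theorem Loc.sup_le (h : Loc G W β c₁ η e f g P A y R) (x : Sm k) :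
    ⨆ x, (f x).real (cb y R) ≤ (f x).real (cb y R) + η := by
  have : Nonempty (Sm k) := ⟨x⟩
  exact ciSup_le fun x' => h.osc x' x

theorem fillW (hW : Convex ℝ W) (h : Loc G W β c₁ η e f g P A y R) (x₀ : Sm k)
    (hA : Win N G W A y R γ) {t : ℝ} (ht : A.real (cb y R) - γ ≤ t) (hε : 0 < ε) :
    Bnd (HiW G W β f y R t ∩ Dle _ N) (HiW G W β f y R (t + 2 * η + ε)) := by
  obtain ⟨κ, hκ, hκ'⟩ := h.kap
  refine wfill hW x₀ h.fam h.par h.hy h.hR (κ := fun x => κ (x, 1))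
    (hκ.comp (continuous_id.prodMk continuous_const)) (fun x => (hκ' _).1) ?_ hA ht hε
  intro x z hz hG
  rw [(hκ' _).2]
  simp only [h.p1 x 1 le_rfl, h.bc x z hz hG]

theorem outW (hγ : 0 ≤ γ) (he : 0 ≤ e) (h : Loc G W β c₁ η e f g P A y R) {l D : ℝ}
    (hD : η + e + l ≤ D) {x : Sx (Sm k × Fb)}
    (hx : x ∈ HiW G W β f y R (max (⨆ x, (f x).real (cb y R)) (A.real (cb y R) - γ) + l)) :
    Out G W β f g y R (c₁ - γ) D x := by
  obtain ⟨h1, h2, h3⟩ := hx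
  refine ⟨h1, h2, fun p => (h3 p).2.2.1, fun p => (h3 p).2.2.2.1, fun p => ?_, fun p => ?_⟩
  · have h4 := (h3 p).2.2.2.2
    have h5 := h.sup_le (x.2 p).1
    have h6 := h.cmp (x.2 p).1
    have h7 := h.am (x.2 p).1
    rcases max_choice (⨆ x, (f x).real (cb y R)) (A.real (cb y R) - γ) with hm | hm <;>
      rw [hm] at h4 <;> linarith
  · have h4 := (h3 p).2.2.2.2
    have h5 := h.sup_le (x.2 p).1
    have h6 := h.ext (x.2 p).1
    have h7 := split (h2.poly p) y R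
    have h8 := split (h.fam.poly (x.2 p).1) y R
    have h9 := real_of_restrict (h3 p).2.2.2.1 subset_rfl
    have ha := le_max_left ((f (x.2 p).1).real univ) (c₁ - γ)
    have hb := le_max_right ((f (x.2 p).1).real univ) (c₁ - γ)
    rcases max_choice (⨆ x, (f x).real (cb y R)) (A.real (cb y R) - γ) with hm | hm <;>
      rw [hm] at h4 <;> linarith

theorem lowW (h : Loc G W β c₁ η e f g P A y R) {l D : ℝ}
    (hD : η + e + l ≤ D) {x : Sx (Sm k × Fb)}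
    (hx : x ∈ HiW G W β f y R (A.real (cb y R) - γ + l)) (p : Sm x.1) :
    (x.2 p).2.2.2.real univ < c₁ - γ + D := by
  obtain ⟨h1, h2, h3⟩ := hx
  have h4 := (h3 p).2.2.2.2
  have h6 := h.ext (x.2 p).1
  have h7 := split (h2.poly p) y R
  have h9 := real_of_restrict (h3 p).2.2.2.1 subset_rfl
  linarith

theorem qp_ge (h : Loc G W β c₁ η e f g P A y R) (hu : PS G W γ ε A y R J u) (x : Sm k) {τ : ℝ}
    (hτ : 1 ≤ τ) : Qp P y R u x τ = u (τ - 1) := by
  unfold Qp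
  split_ifs with h1
  · have : τ = 1 := le_antisymm h1 hτ
    rw [this, h.p1 x 1 le_rfl, sub_self, hu.u0]
  · rfl

theorem qp_le (x : Sm k) {τ : ℝ} (hτ : τ ≤ 1) :
    Qp P y R u x τ = (P x τ).restrict (cb y R) := if_pos hτ

theorem qp_poly (hW : Convex ℝ W) (h : Loc G W β c₁ η e f g P A y R) (hu : PS G W γ ε A y R J u)
    (x : Sm k) (τ : ℝ) : Poly (W ∩ cb y R) (Qp P y R u x τ) := by
  rcases le_total τ 1 with h1 | h1
  · rw [qp_le x h1]
    exact (h.pfam.poly (x, τ)).restrict_cb hW h.hy h.hR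
  · rw [qp_ge h hu x h1]
    exact (hu.al _).1

theorem qp_mass (hε : 0 < ε) (h : Loc G W β c₁ η e f g P A y R) (hu : PS G W γ ε A y R J u)
    (x : Sm k) (τ : ℝ) : (Qp P y R u x τ).real univ ≤ (g x).real (cb y R) + η + ε := by
  rcases le_total τ 1 with h1 | h1
  · rw [qp_le x h1, measureReal_restrict_apply_univ]
    have := h.pm x τ
    linarith
  · rw [qp_ge h hu x h1]
    have h2 := (hu.al (τ - 1)).2.2
    have h3 := h.am x
    linarith

theorem qp_fam (hW : Convex ℝ W) (h : Loc G W β c₁ η e f g P A y R) (hu : PS G W γ ε A y R J u)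
    {s : Sx (Sm k × ℝ)} (hs : s ∈ PieceS k (J + 1)) :
    Fam (W ∩ cb y R) fun p => Qp P y R u (s.2 p).1 (s.2 p).2 := by
  obtain ⟨hc, i, hi, hm⟩ := hs
  rcases i with _ | i
  · have e : (fun p => Qp P y R u (s.2 p).1 (s.2 p).2) =
        fun p => (P (s.2 p).1 (s.2 p).2).restrict (cb y R) := by
      funext p
      exact qp_le _ (by simpa using (hm p).2)
    rw [e]
    exact (h.pfam.restrict_cb hW h.hy h.hR).comp hc
  · obtain ⟨v, hv, hv'⟩ := hu.pc i (by omega)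
    have e : (fun p => Qp P y R u (s.2 p).1 (s.2 p).2) = fun p => v ((s.2 p).2 - 1) := by
      funext p
      have h1 := (hm p).1
      have h2 := (hm p).2
      push_cast at h1 h2
      have h0 : (0 : ℝ) ≤ i := Nat.cast_nonneg i
      rw [qp_ge h hu _ (by linarith), hv' _ ⟨by linarith, by linarith⟩]
    rw [e]
    exact hv.comp (hc.snd.sub continuous_const)

theorem fillI (hW : Convex ℝ W) (h : Loc G W β c₁ η e f g P A y R)
    (hA : Adm G (W ∩ cb y R) y) (hu : PS G W γ ε A y R J u)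
    {𝓐 : Set (Sx (Sm k × ℝ))} (h𝓐 : PreCl 𝓐)
    (hc : 𝓐 ⊆ Cts _) {d₀ : Sm k × ℝ} (hd : ∀ m, (⟨m, fun _ => d₀⟩ : Sx (Sm k × ℝ)) ∈ 𝓐)
    (hC : Ctr 𝓐 d₀) {t : ℝ} (ht : 0 ≤ t) (hε : 0 < ε) :
    Bnd (HiI G W f y R (Qp P y R u) 𝓐 t ∩ Dle _ N)
      (HiI G W f y R (Qp P y R u) 𝓐 (t + 2 * η + ε)) := by
  obtain ⟨κ, hκ, hκ'⟩ := h.kap
  refine ifill hW f hA _ h𝓐 hc hd hC hκ (fun d => (hκ' d).1) ?_ ht hε
  intro s _ x z hz hG
  rw [(hκ' _).2]
  rcases le_total (s.2 x).2 1 with h1 | h1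
  · simp only [qp_le _ h1, h.bc _ z hz hG]
  · simp only [qp_ge h hu _ h1, h.p1 _ _ h1, (hu.al _).2.1 z hz hG, h.bc _ z hz hG]

theorem massI (hW : Convex ℝ W) (h : Loc G W β c₁ η e f g P A y R) (hu : PS G W γ ε A y R J u)
    {𝓐 : Set (Sx (Sm k × ℝ))} {l : ℝ} {x : Sx (Sm k × Fb)}
    (hx : x ∈ HiI G W f y R (Qp P y R u) 𝓐 l) (p : Sm x.1) :
    (x.2 p).2.2.2.restrict (cb y R)ᶜ = (f (x.2 p).1).restrict (cb y R)ᶜ ∧
    (x.2 p).2.2.2.real (cb y R) < (Qp P y R u (x.2 p).1 (x.2 p).2.1).real univ + l ∧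
    Poly W (x.2 p).2.2.2 := by
  obtain ⟨-, h2, h3⟩ := hx
  obtain ⟨-, h5, h6⟩ := h3 p
  have hq := qp_poly hW h hu (x.2 p).1 (x.2 p).2.1
  have hk := h2.poly p
  have hf := (h.fam.poly (x.2 p).1).restrict_compl hW y h.hR
  have hm := cb_meas y R
  refine ⟨?_, ?_, ?_⟩
  · rw [h6, Measure.restrict_add, Measure.restrict_add, hq.restrict_compl_cb.1,
      hk.restrict_compl_cb.1, add_zero, add_zero, Measure.restrict_restrict hm.compl, inter_self]
  · have := hq.finite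
    have := hk.finite
    have := hf.finite
    rw [h6, measureReal_add_apply, measureReal_add_apply, measureReal_restrict_apply hm,
      inter_compl_self, measureReal_empty, zero_add]
    have a1 : (Qp P y R u (x.2 p).1 (x.2 p).2.1).real (cb y R) ≤
      (Qp P y R u (x.2 p).1 (x.2 p).2.1).real univ := measureReal_mono (subset_univ _)
    have a2 : (x.2 p).2.2.1.real (cb y R) ≤ (x.2 p).2.2.1.real univ :=
      measureReal_mono (subset_univ _)
    linarith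
  · rw [h6]
    exact (hf.add (hq.mono inter_subset_left)).add (hk.mono inter_subset_left)

theorem outI (hW : Convex ℝ W) (hε : 0 < ε) (h : Loc G W β c₁ η e f g P A y R)
    (hu : PS G W γ ε A y R J u) (hfg : ∀ x, (f x).restrict (cb y R) = (g x).restrict (cb y R))
    {l D : ℝ} (hD : η + ε + l ≤ D) (c : ℝ) {x : Sx (Sm k × Fb)}
    (hx : x ∈ HiI G W f y R (Qp P y R u) (PieceS k (J + 1)) l) :
    Out G W β f g y R c D x := by
  have hm := massI hW h hu hx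
  obtain ⟨h1, h2, h3⟩ := hx
  have hc : Continuous fun p => (x.2 p).1 := h1.1.fst
  refine ⟨hc, ?_, fun p => ?_, fun p => (hm p).1, fun p => ?_, fun p => ?_⟩
  · have e : (fun p => (x.2 p).2.2.2) = fun p => (f (x.2 p).1).restrict (cb y R)ᶜ +
        Qp P y R u (x.2 p).1 (x.2 p).2.1 + (x.2 p).2.2.1 := funext fun p => (h3 p).2.2
    rw [e]
    exact (((h.fam.restrict_compl_cb hW y h.hR).comp hc).add
      ((qp_fam hW h hu h1).mono inter_subset_left)).add (h2.mono inter_subset_left)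
  · have hq := qp_poly hW h hu (x.2 p).1 (x.2 p).2.1
    rw [(h3 p).2.2, add_assoc]
    refine (par_glue hW (h.fam.poly _) (h.par _) h.hy h.hR (hq.add (h2.poly p))).2 ?_
    intro z hz hG
    rw [bdy_add hq (h2.poly p), (h3 p).1 z hz hG, add_comm, add_assoc, f2_add_self, add_zero]
  · have a1 := (hm p).2.1
    have a2 := qp_mass hε h hu (x.2 p).1 (x.2 p).2.1
    linarith
  · have a1 := (hm p).2.1
    have a2 := qp_mass hε h hu (x.2 p).1 (x.2 p).2.1
    have a3 := split (hm p).2.2 y R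
    have a4 := split (h.fam.poly (x.2 p).1) y R
    have a5 := real_of_restrict (hm p).1 subset_rfl
    have a6 := real_of_restrict (hfg (x.2 p).1) subset_rfl
    have a7 := le_max_left ((f (x.2 p).1).real univ) c
    linarith

theorem lowI (hW : Convex ℝ W) (h : Loc G W β c₁ η e f g P A y R)
    (hu : PS G W γ ε A y R J u) {l D : ℝ} (hD : η + e + l ≤ D) {x : Sx (Sm k × Fb)}
    (hx : x ∈ HiI G W f y R (Qp P y R u) (LevS k ((J + 1 : ℕ) : ℝ)) l) (p : Sm x.1) :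
    (x.2 p).2.2.2.real univ < c₁ - γ + D := by
  have hm := massI hW h hu hx p
  have hτ : (x.2 p).2.1 = ((J + 1 : ℕ) : ℝ) := hx.1.2 p
  have h0 : (0 : ℝ) ≤ J := Nat.cast_nonneg J
  have a1 := hm.2.1
  rw [hτ, qp_ge h hu _ (by push_cast; linarith)] at a1
  have e1 : ((J + 1 : ℕ) : ℝ) - 1 = J := by push_cast; ring
  rw [e1] at a1
  have a2 := hu.uJ
  have a3 := split hm.2.2 y R
  have a5 := real_of_restrict hm.1 subset_rfl
  have a6 := h.ext (x.2 p).1
  linarith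

end St

end Pool.Agent.MP_20201c_gt.H91
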