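import Pool.Agent.MP_20201c_gt.H91.Step_a

/-! The carriers of one round as functions of the anchor and the disc. -/

open MeasureTheory Set Filter Topology
open scoped ENNReal

namespace Pool.Agent.MP_20201c_gt.H91

namespace St

/-- The levels of the carriers. -/
noncomputable def lv (η ε : ℝ) (m : ℕ) : ℝ := ε + m * (2 * η + ε)

theorem lv_succ (η ε : ℝ) (m : ℕ) : lv η ε (m + 1) = lv η ε m + 2 * η + ε := by
  unfold lv; push_cast; ring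

theorem lv_pos {η ε : ℝ} (hη : 0 < η) (hε : 0 < ε) (m : ℕ) : 0 < lv η ε m := by
  unfold lv; positivity

theorem lv_le {η ε : ℝ} (hη : 0 < η) (hε : 0 < ε) {m N : ℕ} (h : m ≤ N + 1) :
    η + ε + lv η ε m ≤ (N + 3) * (2 * η + ε) := by
  have h1 : (m : ℝ) ≤ N + 1 := by exact_mod_cast h
  unfold lv
  nlinarith

open Classical in
noncomputable def CHi (N : ℕ) (G W : Set ℂ) (β : ℂ → F2) (γ η ε : ℝ)
    (ch : Ms → ℂ × ℝ → ℕ × (ℝ → Ms)) (A : Ms) (B : ℂ × ℝ) (m : ℕ) {k : ℕ} (f : Sm k → Ms)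
    (P : Sm k → ℝ → Ms) : Set (Sx (Sm k × Fb)) :=
  if Win N G W A B.1 B.2 γ then
    HiW G W β f B.1 B.2
      (max (⨆ x, (f x).real (cb B.1 B.2)) (A.real (cb B.1 B.2) - γ) + lv η ε m)
  else HiI G W f B.1 B.2 (Qp P B.1 B.2 (ch A B).2) (PieceS k ((ch A B).1 + 1)) (lv η ε m)

open Classical in
noncomputable def CLo (N : ℕ) (G W : Set ℂ) (β : ℂ → F2) (γ η ε : ℝ)
    (ch : Ms → ℂ × ℝ → ℕ × (ℝ → Ms)) (A : Ms) (B : ℂ × ℝ) (m : ℕ) {k : ℕ} (f : Sm k → Ms)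
    (P : Sm k → ℝ → Ms) : Set (Sx (Sm k × Fb)) :=
  if Win N G W A B.1 B.2 γ then
    HiW G W β f B.1 B.2 (A.real (cb B.1 B.2) - γ + lv η ε m)
  else HiI G W f B.1 B.2 (Qp P B.1 B.2 (ch A B).2) (LevS k (((ch A B).1 + 1 : ℕ) : ℝ)) (lv η ε m)

variable {N : ℕ} {G W : Set ℂ} {β : ℂ → F2} {c₁ γ η ε e : ℝ} {k : ℕ} {f g : Sm k → Ms}
  {P : Sm k → ℝ → Ms} {A : Ms} {B : ℂ × ℝ} {ch : Ms → ℂ × ℝ → ℕ × (ℝ → Ms)}

theorem hiW_mono {y : ℂ} {R t t' : ℝ} (h : t ≤ t') : HiW G W β f y R t ⊆ HiW G W β f y R t' := by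
  rintro x ⟨h1, h2, h3⟩
  exact ⟨h1, h2, fun p => ⟨(h3 p).1, (h3 p).2.1, (h3 p).2.2.1, (h3 p).2.2.2.1,
    (h3 p).2.2.2.2.trans_le h⟩⟩

theorem hiI_mono {y : ℂ} {R t t' : ℝ} {Q : Sm k → ℝ → Ms} {𝓐 𝓑 : Set (Sx (Sm k × ℝ))}
    (hA : 𝓐 ⊆ 𝓑) (h : t ≤ t') : HiI G W f y R Q 𝓐 t ⊆ HiI G W f y R Q 𝓑 t' := by
  rintro x ⟨h1, h2, h3⟩
  exact ⟨hA h1, h2, fun p => ⟨(h3 p).1, (h3 p).2.1.trans_le h, (h3 p).2.2⟩⟩

theorem lev_sub_piece (k J : ℕ) : LevS k ((J + 1 : ℕ) : ℝ) ⊆ PieceS k (J + 1) := by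
  rintro s ⟨h1, h2⟩
  refine ⟨h1, J, Nat.lt_succ_self J, fun x => ?_⟩
  rw [h2 x]
  push_cast
  exact ⟨by linarith, le_rfl⟩

theorem cHi_succ (hη : 0 < η) (hε : 0 < ε) (m : ℕ) :
    CHi N G W β γ η ε ch A B m f P ⊆ CHi N G W β γ η ε ch A B (m + 1) f P := by
  unfold CHi
  split_ifs
  · exact hiW_mono (by rw [lv_succ]; linarith)
  · exact hiI_mono subset_rfl (by rw [lv_succ]; linarith)

theorem cLo_succ (hη : 0 < η) (hε : 0 < ε) (m : ℕ) :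
    CLo N G W β γ η ε ch A B m f P ⊆ CLo N G W β γ η ε ch A B (m + 1) f P := by
  unfold CLo
  split_ifs
  · exact hiW_mono (by rw [lv_succ]; linarith)
  · exact hiI_mono subset_rfl (by rw [lv_succ]; linarith)

theorem cLo_sub (m : ℕ) :
    CLo N G W β γ η ε ch A B m f P ⊆ CHi N G W β γ η ε ch A B m f P := by
  unfold CLo CHi
  split_ifs
  · exact hiW_mono (by gcongr; exact le_max_right _ _)
  · exact hiI_mono (lev_sub_piece _ _) le_rfl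

theorem cHi_preCl (m : ℕ) : PreCl (CHi N G W β γ η ε ch A B m f P) := by
  unfold CHi
  split_ifs
  · exact hiW_preCl _ _ _ _ _ _ _
  · exact hiI_preCl _ _ _ _ _ _ (pieceS_preCl _ _) _

theorem emp_cLo (m : ℕ) : emp _ ∈ CLo N G W β γ η ε ch A B m f P := by
  have : IsEmpty (Sm (emp (Sm k × Fb)).1) := instEmptySm
  unfold CLo
  split_ifs
  · exact ⟨continuous_of_discreteTopology, Fam.of_isEmpty _, fun p => isEmptyElim p⟩
  · refine ⟨⟨?_, fun p => isEmptyElim (α := Sm 0) p⟩, Fam.of_isEmpty _, fun p => isEmptyElim p⟩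
    exact continuous_of_discreteTopology (α := Sm 0)

theorem hiW_push {k' : ℕ} {φ : Sm k' → Sm k} (hφ : Continuous φ) {y : ℂ} {R t : ℝ}
    {x : Sx (Sm k' × Fb)} (hx : x ∈ HiW G W β (fun p => f (φ p)) y R t) :
    smap (Prod.map φ id) x ∈ HiW G W β f y R t := by
  obtain ⟨h1, h2, h3⟩ := hx
  exact ⟨hφ.comp h1, h2, h3⟩

theorem cHi_push {k' : ℕ} {φ : Sm k' → Sm k} (hφ : Continuous φ) (x₀ : Sm k')
    (hb : BddAbove (range fun x => (f x).real (cb B.1 B.2))) (m : ℕ) {x : Sx (Sm k' × Fb)}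
    (hx : x ∈ CHi N G W β γ η ε ch A B m (fun p => f (φ p)) (fun p => P (φ p))) :
    smap (Prod.map φ id) x ∈ CHi N G W β γ η ε ch A B m f P := by
  unfold CHi at hx ⊢
  split_ifs at hx ⊢
  · refine hiW_mono ?_ (hiW_push hφ hx)
    have : Nonempty (Sm k') := ⟨x₀⟩
    have h1 : ⨆ x, (f (φ x)).real (cb B.1 B.2) ≤ ⨆ x, (f x).real (cb B.1 B.2) :=
      ciSup_le fun x => le_ciSup hb (φ x)
    gcongr
  · obtain ⟨⟨h1, h4⟩, h2, h3⟩ := hx
    exact ⟨⟨(hφ.comp h1.fst).prodMk h1.snd, h4⟩, h2, h3⟩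

theorem cLo_push {k' : ℕ} {φ : Sm k' → Sm k} (hφ : Continuous φ) (m : ℕ) {x : Sx (Sm k' × Fb)}
    (hx : x ∈ CLo N G W β γ η ε ch A B m (fun p => f (φ p)) (fun p => P (φ p))) :
    smap (Prod.map φ id) x ∈ CLo N G W β γ η ε ch A B m f P := by
  unfold CLo at hx ⊢
  split_ifs at hx ⊢
  · exact hiW_push hφ hx
  · obtain ⟨⟨h1, h4⟩, h2, h3⟩ := hx
    exact ⟨⟨(hφ.comp h1.fst).prodMk h1.snd, h4⟩, h2, h3⟩

/-- The extra data when the disc is not winning. -/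
def Alt (N : ℕ) (G W : Set ℂ) (γ ε : ℝ) (ch : Ms → ℂ × ℝ → ℕ × (ℝ → Ms)) {k : ℕ}
    (f g : Sm k → Ms) (A : Ms) (B : ℂ × ℝ) : Prop :=
  ¬ Win N G W A B.1 B.2 γ → Adm G (W ∩ cb B.1 B.2) B.1 ∧
    PS G W γ ε A B.1 B.2 (ch A B).1 (ch A B).2 ∧
    ∀ x, (f x).restrict (cb B.1 B.2) = (g x).restrict (cb B.1 B.2)

theorem diag_cHi (hη : 0 < η) (hε : 0 < ε) (h : Loc G W β c₁ η e f g P A B.1 B.2)
    (ha : Alt N G W γ ε ch f g A B) :
    (⟨k, fun x => (x, ((0 : ℝ), (0 : Ms), f x))⟩ : Sx (Sm k × Fb)) ∈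
      CHi N G W β γ η ε ch A B 0 f P := by
  have hl := lv_pos hη hε 0
  unfold CHi
  split_ifs with hw
  · refine ⟨continuous_id, h.fam, fun p => ⟨rfl, rfl, h.par p, rfl, ?_⟩⟩
    have h1 := le_ciSup (h.bdd p) p
    have h2 := le_max_left (⨆ x, (f x).real (cb B.1 B.2)) (A.real (cb B.1 B.2) - γ)
    show (f p).real (cb B.1 B.2) < _
    linarith
  · obtain ⟨-, -, hfg⟩ := ha hw
    have hq : ∀ p, Qp P B.1 B.2 (ch A B).2 p 0 = (f p).restrict (cb B.1 B.2) := fun p => by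
      rw [qp_le p zero_le_one, h.p0, hfg]
    refine ⟨⟨continuous_id.prodMk continuous_const, 0, Nat.succ_pos _, fun p => ?_⟩,
      Fam.const (Poly.zero _), fun p => ⟨?_, ?_, ?_⟩⟩
    · show (0 : ℝ) ∈ _
      simp
    · intro z _ _
      show bdy 0 z = bdy ((f p).restrict (cb B.1 B.2)) z + bdy (Qp P B.1 B.2 (ch A B).2 p 0) z
      rw [hq, f2_add_self, bdy_zero]
    · show (0 : Ms).real univ < _
      simpa using hl
    · show f p = (f p).restrict (cb B.1 B.2)ᶜ + Qp P B.1 B.2 (ch A B).2 p 0 + 0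
      rw [hq, add_zero, add_comm]
      exact (Measure.restrict_add_restrict_compl (cb_meas _ _)).symm

theorem fill_cHi (hW : Convex ℝ W) (hη : 0 < η) (hε : 0 < ε)
    (h : Loc G W β c₁ η e f g P A B.1 B.2) (ha : Alt N G W γ ε ch f g A B) (x₀ : Sm k) (m : ℕ) :
    Bnd (CHi N G W β γ η ε ch A B m f P ∩ Dle _ N) (CHi N G W β γ η ε ch A B (m + 1) f P) := by
  have hl := lv_pos hη hε m
  unfold CHi
  split_ifs with hw
  · rw [lv_succ, ← add_assoc, ← add_assoc]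
    refine fillW hW h x₀ hw ?_ hε
    have h2 := le_max_right (⨆ x, (f x).real (cb B.1 B.2)) (A.real (cb B.1 B.2) - γ)
    linarith
  · obtain ⟨h1, h2, -⟩ := ha hw
    rw [lv_succ]
    exact fillI hW h h1 h2 (pieceS_preCl _ _) (fun s hs => hs.1)
      (fun m => lev_sub_piece _ _ ⟨continuous_const, fun _ => rfl⟩) (ctr_piece x₀ _) hl.le hε

theorem fill_cLo (hW : Convex ℝ W) (hη : 0 < η) (hε : 0 < ε)
    (h : Loc G W β c₁ η e f g P A B.1 B.2) (ha : Alt N G W γ ε ch f g A B) (x₀ : Sm k) (m : ℕ) :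
    Bnd (CLo N G W β γ η ε ch A B m f P ∩ Dle _ N) (CLo N G W β γ η ε ch A B (m + 1) f P) := by
  have hl := lv_pos hη hε m
  unfold CLo
  split_ifs with hw
  · rw [lv_succ, ← add_assoc, ← add_assoc]
    exact fillW hW h x₀ hw (by linarith) hε
  · obtain ⟨h1, h2, -⟩ := ha hw
    rw [lv_succ]
    exact fillI hW h h1 h2 (levS_preCl _ _) (fun s hs => hs.1)
      (fun m => ⟨continuous_const, fun _ => rfl⟩) (ctr_lev x₀ _) hl.le hε

theorem out_cHi (hW : Convex ℝ W) (hγ : 0 ≤ γ) (hη : 0 < η) (hε : 0 < ε) (he : 0 ≤ e)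
    (h : Loc G W β c₁ η e f g P A B.1 B.2) (ha : Alt N G W γ ε ch f g A B) {m : ℕ}
    (hm : m ≤ N + 1) {x : Sx (Sm k × Fb)} (hx : x ∈ CHi N G W β γ η ε ch A B m f P) :
    Out G W β f g B.1 B.2 (c₁ - γ) (e + (N + 3) * (2 * η + ε)) x := by
  have hl := lv_le hη hε hm
  unfold CHi at hx
  split_ifs at hx with hw
  · exact outW hγ he h (by linarith) hx
  · obtain ⟨-, h2, h3⟩ := ha hw
    exact outI hW hε h h2 h3 (by linarith) _ hx

theorem low_cLo (hW : Convex ℝ W) (hη : 0 < η) (hε : 0 < ε)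
    (h : Loc G W β c₁ η e f g P A B.1 B.2) (ha : Alt N G W γ ε ch f g A B) {m : ℕ}
    (hm : m ≤ N + 1) {x : Sx (Sm k × Fb)} (hx : x ∈ CLo N G W β γ η ε ch A B m f P)
    (p : Sm x.1) : (x.2 p).2.2.2.real univ < c₁ - γ + (e + (N + 3) * (2 * η + ε)) := by
  have hl := lv_le hη hε hm
  unfold CLo at hx
  split_ifs at hx with hw
  · exact lowW h (by linarith) hx p
  · obtain ⟨-, h2, -⟩ := ha hw
    exact lowI hW h h2 (by linarith) hx p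

end St

end Pool.Agent.MP_20201c_gt.H91
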