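import Pool.Agent.MP_20201c_gt.H91.Small
import Pool.Agent.MP_20201c_gt.H91.Prism
import Pool.Agent.MP_20201c_gt.H91.KitM4

/-! Merging discs and contracting in several discs at once. -/

open MeasureTheory Set Filter Topology
open scoped ENNReal

namespace Pool.Agent.MP_20201c_gt.H91

theorem merge {G W : Set ℂ} {Rm : ℝ} (hs : Star G W Rm) (A : ℕ) {R : ℝ} (hR : 6 ^ A * R ≤ Rm)
    {𝓑 : Finset (ℂ × ℝ)} (hA : 𝓑.card ≤ A) (hB : ∀ B ∈ 𝓑, B.1 ∈ W ∧ 0 < B.2 ∧ B.2 ≤ R) :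
    ∃ 𝓑' : Finset (ℂ × ℝ), 𝓑'.card ≤ A ∧ Apexed G W (6 ^ A * R) 𝓑' ∧ UB 𝓑 ⊆ UB 𝓑' := by
  classical
  induction A generalizing R 𝓑 with
  | zero =>
    obtain rfl : 𝓑 = ∅ := Finset.card_eq_zero.1 (Nat.le_zero.1 hA)
    exact ⟨∅, le_rfl, ⟨by simp, by simp⟩, subset_rfl⟩
  | succ A ih =>
    rcases 𝓑.eq_empty_or_nonempty with rfl | ⟨B₀, hB₀⟩
    · exact ⟨∅, Nat.zero_le _, ⟨by simp, by simp⟩, subset_rfl⟩
    have hR0 : 0 < R := (hB B₀ hB₀).2.1.trans_le (hB B₀ hB₀).2.2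
    have h6 : 6 * R ≤ 6 ^ (A + 1) * R := by
      refine mul_le_mul_of_nonneg_right ?_ hR0.le
      rw [pow_succ]
      exact le_mul_of_one_le_left (by norm_num) (one_le_pow₀ (by norm_num))
    have hst : ∀ B ∈ 𝓑, ∃ r ∈ Icc B.2 (2 * B.2), ∃ o, Adm G (W ∩ cb B.1 r) o := fun B h =>
      hs B.1 (hB B h).1 B.2 ⟨(hB B h).2.1, by linarith [(hB B h).2.2]⟩
    choose! r hr ho using hst
    by_cases hd : ∀ B ∈ 𝓑, ∀ B' ∈ 𝓑, B ≠ B' → Disjoint (cb B.1 (r B)) (cb B'.1 (r B'))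
    · refine ⟨𝓑.image fun B => (B.1, r B), Finset.card_image_le.trans hA, ⟨?_, ?_⟩, ?_⟩
      · intro C hC
        obtain ⟨B, h, rfl⟩ := Finset.mem_image.1 hC
        have h1 := (hr B h).1
        have h2 := (hr B h).2
        have h3 := hB B h
        exact ⟨h3.1, h3.2.1.trans_le h1, by change r B ≤ _; linarith [h3.2.2], ho B h⟩
      · intro C hC C' hC' hne
        obtain ⟨B, h, rfl⟩ := Finset.mem_image.1 hC
        obtain ⟨B', h', rfl⟩ := Finset.mem_image.1 hC'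
        exact hd B h B' h' fun e => hne (by rw [e])
      · refine iUnion₂_subset fun B h => ?_
        refine (Metric.closedBall_subset_closedBall (hr B h).1).trans ?_
        exact subset_biUnion_of_mem (u := fun C : ℂ × ℝ => cb C.1 C.2)
          (Finset.mem_coe.2 (Finset.mem_image_of_mem (fun B => (B.1, r B)) h))
    · push Not at hd
      obtain ⟨B, h, B', h', hne, hd⟩ := hd
      obtain ⟨z, hz, hz'⟩ := Set.not_disjoint_iff.1 hd
      have hdist : dist B'.1 B.1 ≤ 4 * R := by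
        have e1 := Metric.mem_closedBall.1 hz
        have e2 := Metric.mem_closedBall'.1 hz'
        have e3 := dist_triangle B'.1 z B.1
        linarith [(hr B h).2, (hr B' h').2, (hB B h).2.2, (hB B' h').2.2]
      have hmem : B' ∈ 𝓑.erase B := Finset.mem_erase.2 ⟨hne.symm, h'⟩
      have hcard : (insert (B.1, 6 * R) ((𝓑.erase B).erase B')).card ≤ A := by
        refine (Finset.card_insert_le _ _).trans ?_
        have c1 := Finset.card_erase_add_one hmem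
        have c2 := Finset.card_erase_add_one h
        omega
      obtain ⟨𝓑', hc, hap, hsub⟩ := ih (R := 6 * R) (by rwa [← mul_assoc, ← pow_succ]) hcard
        (fun C hC => by
          rcases Finset.mem_insert.1 hC with rfl | hC
          · exact ⟨(hB B h).1, by change 0 < 6 * R; linarith, le_rfl⟩
          · have h1 := hB C (Finset.mem_of_mem_erase (Finset.mem_of_mem_erase hC))
            exact ⟨h1.1, h1.2.1, by linarith [h1.2.2]⟩)
      refine ⟨𝓑', hc.trans (Nat.le_succ _), by rwa [pow_succ, mul_assoc], ?_⟩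
      refine Subset.trans (iUnion₂_subset fun C hC => ?_) hsub
      have big : cb B.1 (6 * R) ⊆ UB (insert (B.1, 6 * R) ((𝓑.erase B).erase B')) :=
        subset_biUnion_of_mem (u := fun C : ℂ × ℝ => cb C.1 C.2)
          (Finset.mem_coe.2 (Finset.mem_insert_self (B.1, 6 * R) _))
      by_cases e1 : C = B
      · subst e1
        exact (Metric.closedBall_subset_closedBall (by linarith [(hB C h).2.2])).trans big
      by_cases e2 : C = B'
      · subst e2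
        exact (Metric.closedBall_subset_closedBall' (by linarith [(hB C h').2.2])).trans big
      exact subset_biUnion_of_mem (u := fun C : ℂ × ℝ => cb C.1 C.2)
        (Finset.mem_coe.2 (Finset.mem_insert_of_mem
          (Finset.mem_erase.2 ⟨e2, Finset.mem_erase.2 ⟨e1, hC⟩⟩)))

namespace TC

theorem meas_UB (𝓑 : Finset (ℂ × ℝ)) : MeasurableSet (UB 𝓑) :=
  Finset.measurableSet_biUnion _ fun _ _ => measurableSet_closedBall

theorem cb_sub {𝓑 : Finset (ℂ × ℝ)} {B : ℂ × ℝ} (h : B ∈ 𝓑) : cb B.1 B.2 ⊆ UB 𝓑 :=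
  subset_biUnion_of_mem (u := fun C : ℂ × ℝ => cb C.1 C.2) (Finset.mem_coe.2 h)

variable {G W : Set ℂ} {Rm : ℝ} {𝓑 : Finset (ℂ × ℝ)}

theorem loc (hW : Convex ℝ W) (hB : Apexed G W Rm 𝓑) {ν : Ms} (hν : Poly W ν) (hp : Par G W 0 ν)
    {B : ℂ × ℝ} (h : B ∈ 𝓑) {z : ℂ} (hz : z ∈ W ∩ cb B.1 B.2) (hzG : z ∈ G) :
    bdy (ν.restrict (cb B.1 B.2)) z = bdy (ν.restrict (UB 𝓑)ᶜ) z := by
  obtain ⟨hap, hd⟩ := hB
  have hres : ∀ B ∈ 𝓑, Poly (W ∩ cb B.1 B.2) (ν.restrict (cb B.1 B.2)) :=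
    fun B hB => hν.restrict_cb hW (hap B hB).1 (hap B hB).2.1
  have hP : ∀ B' ∈ 𝓑, Poly W (ν.restrict (cb B'.1 B'.2)) := fun B' hB' =>
    (hres B' hB').mono inter_subset_left
  have h1 : bdy ν z = 0 := hp z hz.1 hzG
  rw [SM.restrict_UB ν hd, bdy_add (poly_restrict_UB hW hν fun B' hB' => (hap B' hB').2.1)
    (Poly.sum _ hP), bdy_sum _ hP, Finset.sum_eq_single_of_mem B h fun B' hB' hne =>
      (hres B' hB').bdy_of_notMem fun hz' =>
        Set.disjoint_left.1 (hd B' hB' B h hne) hz'.2 hz.2] at h1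
  exact ((CharTwo.add_eq_zero).1 h1).symm

theorem real_UB (hB : Apexed G W Rm 𝓑) (ν : Ms) [IsFiniteMeasure ν] :
    ν.real (UB 𝓑) = ∑ B ∈ 𝓑, ν.real (cb B.1 B.2) :=
  measureReal_biUnion_finset (fun B h B' h' hne => hB.2 B h B' h' hne)
    fun _ _ => measurableSet_closedBall

/-- The homotopy in one disc. -/
noncomputable def K (o : ℂ) (a b : ℝ) (ν₀ ν : Ms) : Ms := scl o a ν₀ + scl o b (ν + scl o a ν₀)

theorem K_fam {X : Type} [TopologicalSpace X] {V : Set ℂ} (hV : Convex ℝ V) {o : ℂ} (ho : o ∈ V)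
    {a b : X → ℝ} (ha : Continuous a) (hb : Continuous b) (ha' : ∀ x, 0 ≤ a x ∧ a x ≤ 1)
    (hb' : ∀ x, 0 ≤ b x ∧ b x ≤ 1) {ν₀ : Ms} (h₀ : Poly V ν₀) {u : X → Ms} (hu : Fam V u) :
    Fam V fun x => K o (a x) (b x) ν₀ (u x) :=
  ((Fam.const h₀).scl hV ho ha ha').add
    ((hu.add ((Fam.const h₀).scl hV ho ha ha')).scl hV ho hb hb')

theorem K_bdy {V : Set ℂ} (hV : Convex ℝ V) {o : ℂ} (ho : Adm G V o) {a b : ℝ}
    (ha : 0 ≤ a ∧ a ≤ 1) (hb : 0 ≤ b ∧ b ≤ 1) (hab : a = 1 ∨ b = 1) {ν₀ ν : Ms} (h₀ : Poly V ν₀)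
    (h : Poly V ν) (he : ∀ z ∈ V, z ∈ G → bdy ν z = bdy ν₀ z) {z : ℂ} (hzG : z ∈ G) :
    bdy (K o a b ν₀ ν) z = bdy ν₀ z := by
  have p1 := h₀.scl hV ho.1 ha.1 ha.2
  have p2 := (h.add p1).scl hV ho.1 hb.1 hb.2
  by_cases hz : z ∈ V
  · rw [K, bdy_add p1 p2]
    rcases hab with rfl | rfl
    · have hp : Par G V 0 (ν + ν₀) := fun y hy hyG => by
        rw [bdy_add h h₀, he y hy hyG]
        exact f2_add_self _
      rw [scl_one, Par.scl (h.add h₀) hp ho hb.1 hb.2 z hz hzG]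
      exact add_zero _
    · rw [scl_one, bdy_add h p1, add_comm (bdy ν z), ← add_assoc, f2_add_self, zero_add]
      exact he z hz hzG
  · rw [h₀.bdy_of_notMem hz]
    exact (p1.add p2).bdy_of_notMem hz

theorem K_real (o : ℂ) {a b : ℝ} (ha : 0 ≤ a ∧ a ≤ 1) (hb : 0 ≤ b ∧ b ≤ 1) (ν₀ ν : Ms)
    [IsFiniteMeasure ν₀] [IsFiniteMeasure ν] (A : Set ℂ) :
    (K o a b ν₀ ν).real A ≤ ν.real univ + 2 * ν₀.real univ := by
  have k : ∀ {l : ℝ}, l ≤ 1 → ∀ μ : Ms, scl o l μ univ ≤ μ univ := fun hl μ => by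
    rw [scl_univ]
    exact mul_le_of_le_one_left zero_le (ENNReal.ofReal_le_one.2 hl)
  have h1 : K o a b ν₀ ν A ≤ ν₀ univ + (ν univ + ν₀ univ) := by
    refine (measure_mono (subset_univ A)).trans ?_
    rw [K, Measure.add_apply]
    refine add_le_add (k ha.2 _) ((k hb.2 _).trans ?_)
    rw [Measure.add_apply]
    exact add_le_add le_rfl (k ha.2 _)
  have h2 := ENNReal.toReal_mono (by finiteness) h1
  rw [ENNReal.toReal_add (by finiteness) (by finiteness),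
    ENNReal.toReal_add (by finiteness) (by finiteness)] at h2
  simp only [Measure.real]
  linarith

end TC

/-- Families that agree with `μ₀` outside the discs and have mass at most `e` in them. -/
def TcS (G W : Set ℂ) (𝓑 : Finset (ℂ × ℝ)) (μ₀ : Ms) (e : ℝ) : Set (Sx Ms) :=
  {s | Fam W s.2 ∧ ∀ x, Par G W 0 (s.2 x) ∧
    (s.2 x).restrict (UB 𝓑)ᶜ = μ₀.restrict (UB 𝓑)ᶜ ∧ (s.2 x).real (UB 𝓑) ≤ e}

theorem tcm {G W : Set ℂ} (hW : Convex ℝ W) {Rm : ℝ} {𝓑 : Finset (ℂ × ℝ)} (hB : Apexed G W Rm 𝓑)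
    {μ₀ : Ms} (h₀ : Poly W μ₀) (hp : Par G W 0 μ₀) {e e₀ : ℝ} (he : 0 ≤ e)
    (he₀ : μ₀.real (UB 𝓑) ≤ e₀) : Bnd (TcS G W 𝓑 μ₀ e) (TcS G W 𝓑 μ₀ (e + 2 * e₀)) := by
  have hap := hB.1
  have hO : ∀ B ∈ 𝓑, ∃ o, Adm G (W ∩ cb B.1 B.2) o := fun B h => (hap B h).2.2.2
  choose! o ho using hO
  have hcv : ∀ B : ℂ × ℝ, Convex ℝ (W ∩ cb B.1 B.2) := fun B => hW.inter (convex_closedBall _ _)
  have hres : ∀ {ν : Ms}, Poly W ν → ∀ B ∈ 𝓑, Poly (W ∩ cb B.1 B.2) (ν.restrict (cb B.1 B.2)) :=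
    fun hν B h => hν.restrict_cb hW (hap B h).1 (hap B h).2.1
  have hout : Poly W (μ₀.restrict (UB 𝓑)ᶜ) := poly_restrict_UB hW h₀ fun B h => (hap B h).2.1
  have := h₀.finite
  refine bnd_of_contraction
    (fun τ V => μ₀.restrict (UB 𝓑)ᶜ + ∑ B ∈ 𝓑, TC.K (o B) (min 1 (2 * τ)) (min 1 (2 - 2 * τ))
      (μ₀.restrict (cb B.1 B.2)) (V.restrict (cb B.1 B.2))) μ₀ ?_ ?_ ?_ ?_
  · intro s hs k π τ hπ hτ h01
    have ha : ∀ x, 0 ≤ min 1 (2 * τ x) ∧ min 1 (2 * τ x) ≤ 1 := fun x =>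
      ⟨le_min zero_le_one (by linarith [(h01 x).1]), min_le_left _ _⟩
    have hb : ∀ x, 0 ≤ min 1 (2 - 2 * τ x) ∧ min 1 (2 - 2 * τ x) ≤ 1 := fun x =>
      ⟨le_min zero_le_one (by linarith [(h01 x).2]), min_le_left _ _⟩
    have hab : ∀ x, min 1 (2 * τ x) = 1 ∨ min 1 (2 - 2 * τ x) = 1 := fun x => by
      rcases le_total 1 (2 * τ x) with h | h
      · exact Or.inl (min_eq_left h)
      · exact Or.inr (min_eq_left (by linarith))
    have hK : ∀ B ∈ 𝓑, Fam (W ∩ cb B.1 B.2) fun x => TC.K (o B) (min 1 (2 * τ x))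
        (min 1 (2 - 2 * τ x)) (μ₀.restrict (cb B.1 B.2)) ((s.2 (π x)).restrict (cb B.1 B.2)) :=
      fun B h => TC.K_fam (hcv B) (ho B h).1 (by fun_prop) (by fun_prop) ha hb (hres h₀ B h)
        ((hs.1.comp hπ).restrict_cb hW (hap B h).1 (hap B h).2.1)
    have hK' := fun B h => (hK B h).mono (inter_subset_left (s := W) (t := cb B.1 B.2))
    refine ⟨(Fam.const hout).add (Fam.sum 𝓑 hK'), fun x => ?_⟩
    have hV := hs.1.poly (π x)
    obtain ⟨hpV, hagr, hle⟩ := hs.2 (π x)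
    have hP := fun B h => (hK' B h).poly x
    refine ⟨fun z hz hzG => ?_, ?_, ?_⟩
    · have h1 : bdy μ₀ z = 0 := hp z hz hzG
      have hP₀ := fun B h => (hres h₀ B h).mono (inter_subset_left (s := W) (t := cb B.1 B.2))
      rw [SM.restrict_UB μ₀ hB.2, bdy_add hout (Poly.sum _ hP₀), bdy_sum _ hP₀] at h1
      refine Eq.trans ?_ h1
      refine (bdy_add hout (Poly.sum _ hP) z).trans ?_
      rw [bdy_sum _ hP]
      congr 1
      refine Finset.sum_congr rfl fun B h => ?_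
      refine TC.K_bdy (hcv B) (ho B h) (ha x) (hb x) (hab x) (hres h₀ B h) (hres hV B h)
        (fun y hy hyG => ?_) hzG
      rw [TC.loc hW hB hV hpV h hy hyG, TC.loc hW hB h₀ hp h hy hyG, hagr]
    · change (μ₀.restrict (UB 𝓑)ᶜ + ∑ B ∈ 𝓑, _).restrict (UB 𝓑)ᶜ = _
      rw [Measure.restrict_add, Measure.restrict_restrict (TC.meas_UB 𝓑).compl, inter_self]
      have h1 : ∀ κ : ℂ × ℝ → Ms, (∀ B ∈ 𝓑, Poly (W ∩ cb B.1 B.2) (κ B)) →
          (∑ B ∈ 𝓑, κ B).restrict (UB 𝓑)ᶜ = 0 := fun κ hκ => by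
        rw [Measure.restrict_eq_zero, Measure.finsetSum_apply]
        refine Finset.sum_eq_zero fun B h => ?_
        exact measure_mono_null (compl_subset_compl.2 (TC.cb_sub h))
          (Measure.restrict_eq_zero.1 (hκ B h).restrict_compl_cb.1)
      rw [h1 _ fun B h => (hK B h).poly x, add_zero]
    · have := hV.finite
      have h1 : ∀ κ : ℂ × ℝ → Ms, (∀ B ∈ 𝓑, Poly W (κ B)) →
          (μ₀.restrict (UB 𝓑)ᶜ + ∑ B ∈ 𝓑, κ B).real (UB 𝓑) =
            ∑ B ∈ 𝓑, (κ B).real (UB 𝓑) := fun κ hκ => by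
        rw [Measure.real, Measure.add_apply, Measure.restrict_apply (TC.meas_UB 𝓑),
          inter_compl_self, measure_empty, zero_add, Measure.finsetSum_apply,
          ENNReal.toReal_sum fun B h => by
            have := (hκ B h).finite
            exact measure_ne_top _ _]
        rfl
      refine (h1 _ hP).trans_le ((Finset.sum_le_sum fun B _ =>
        TC.K_real (o B) (ha x) (hb x) _ _ _).trans ?_)
      simp only [measureReal_restrict_apply_univ]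
      rw [Finset.sum_add_distrib, ← Finset.mul_sum, ← TC.real_UB hB, ← TC.real_UB hB]
      linarith
  · intro s hs x
    simp only [TC.K, mul_zero, sub_zero, min_eq_right (zero_le_one' ℝ), scl_zero, add_zero,
      zero_add, min_eq_left (one_le_two (α := ℝ)), scl_one]
    rw [← (hs.2 x).2.1]
    exact (SM.restrict_UB _ hB.2).symm
  · intro s hs x
    simp only [TC.K, mul_one, sub_self, min_eq_right (zero_le_one' ℝ), scl_zero, add_zero,
      min_eq_left (one_le_two (α := ℝ)), scl_one]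
    exact (SM.restrict_UB _ hB.2).symm
  · intro k
    refine ⟨Fam.const h₀, fun x => ⟨hp, rfl, ?_⟩⟩
    have h1 : 0 ≤ μ₀.real (UB 𝓑) := measureReal_nonneg
    change μ₀.real (UB 𝓑) ≤ e + 2 * e₀
    linarith

end Pool.Agent.MP_20201c_gt.H91
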