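import Pool.Agent.MP_20201c_gt.H91.Most

/-! Slice counting lemmas. -/

open MeasureTheory Set Filter Topology
open scoped ENNReal

namespace Pool.Agent.MP_20201c_gt.H91.TightA

variable {T : Ms} {Sl : ℂ → ℝ → Multiset ℂ} {nu : ℂ → Ms}

theorem sum_one (m : Multiset ℂ) : (m.map fun _ => (1 : ℝ≥0∞)).sum = (m.card : ℝ≥0∞) := by
  simp

theorem ann (hS : SliceSys T Sl nu) (y : ℂ) {I : Set ℝ} (hI : MeasurableSet I)
    (h0 : I ⊆ Ioi 0) {f : ℂ → ℝ≥0∞} (hf : Measurable f) :
    ∫⁻ R in I, ((Sl y R).map f).sum = ∫⁻ x in {x | dist x y ∈ I}, f x ∂(nu y) := by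
  have hA : MeasurableSet {x : ℂ | dist x y ∈ I} :=
    hI.preimage (f := fun x : ℂ => dist x y) (by fun_prop)
  have h := hS.coarea y _ (hf.indicator hA)
  rw [lintegral_indicator hA] at h
  rw [← h]
  have e : ∀ R, ((Sl y R).map ({x : ℂ | dist x y ∈ I}.indicator f)).sum =
      I.indicator (fun R => ((Sl y R).map f).sum) R := by
    intro R
    by_cases hR : R ∈ I
    · rw [indicator_of_mem hR]
      congr 1
      refine Multiset.map_congr rfl fun z hz => indicator_of_mem ?_ _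
      have := hS.sph y R z hz
      rw [Metric.mem_sphere] at this
      simpa [this] using hR
    · rw [indicator_of_notMem hR]
      refine Multiset.sum_eq_zero fun a ha => ?_
      obtain ⟨z, hz, rfl⟩ := Multiset.mem_map.1 ha
      refine indicator_of_notMem ?_ _
      have := hS.sph y R z hz
      rw [Metric.mem_sphere] at this
      simpa [this] using hR
  simp_rw [e]
  rw [lintegral_indicator hI, Measure.restrict_restrict hI, inter_eq_left.2 h0]

theorem vol_good {B : Set ℝ} {γ s r : ℝ} (hγ : 0 ≤ γ) (hB : volume B ≤ ENNReal.ofReal γ) :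
    ENNReal.ofReal (r - s - γ) ≤ volume (Ioc s r \ toMeasurable volume B) := by
  refine le_trans ?_ le_measure_sdiff
  rw [Real.volume_Ioc, measure_toMeasurable, ENNReal.ofReal_sub _ hγ]
  exact tsub_le_tsub_left hB _

theorem ofReal_msum (m : Multiset ℂ) {h : ℂ → ℝ} (h0 : ∀ x, 0 ≤ h x) :
    ENNReal.ofReal (m.map h).sum = (m.map fun x => ENNReal.ofReal (h x)).sum := by
  induction m using Multiset.induction_on with
  | empty => simp
  | cons a m ih =>
    rw [Multiset.map_cons, Multiset.sum_cons, Multiset.map_cons, Multiset.sum_cons, ← ih,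
      ENNReal.ofReal_add (h0 a)]
    refine Multiset.sum_nonneg fun x hx => ?_
    obtain ⟨z, _, rfl⟩ := Multiset.mem_map.1 hx
    exact h0 z

theorem fin_nu (hS : SliceSys T Sl nu) [IsFiniteMeasure T] (y : ℂ) : IsFiniteMeasure (nu y) :=
  isFiniteMeasure_of_le T (hS.le y)

theorem low (hS : SliceSys T Sl nu) [IsFiniteMeasure T] (y : ℂ) {B : Set ℝ} {γ s r c : ℝ}
    (hγ : 0 ≤ γ) (hB : volume B ≤ ENNReal.ofReal γ) (hs : 0 ≤ s) {h : ℂ → ℝ}
    (hm : Measurable h) (h0 : ∀ x, 0 ≤ h x) (hi : Integrable h (nu y)) (hc0 : 0 ≤ c)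
    (hc : ∀ R ∈ Ioc s r, R ∉ B → c ≤ ((Sl y R).map h).sum) :
    c * (r - s - γ) ≤ ∫ x in cb y r \ cb y s, h x ∂(nu y) := by
  set G := Ioc s r \ toMeasurable volume B with hG
  have hGm : MeasurableSet G := measurableSet_Ioc.diff (measurableSet_toMeasurable _ _)
  have hG0 : G ⊆ Ioi 0 := fun R hR => lt_of_le_of_lt hs hR.1.1
  have h1 := ann hS y hGm hG0 (f := fun x => ENNReal.ofReal (h x)) hm.ennreal_ofReal
  have h2 : ENNReal.ofReal c * volume G ≤
      ∫⁻ R in G, ((Sl y R).map fun x => ENNReal.ofReal (h x)).sum := by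
    rw [← setLIntegral_const]
    refine setLIntegral_mono' hGm fun R hR => ?_
    rw [← ofReal_msum _ h0]
    exact ENNReal.ofReal_le_ofReal (hc R hR.1 fun hb => hR.2 (subset_toMeasurable _ _ hb))
  have h3 : ∫⁻ x in {x | dist x y ∈ G}, ENNReal.ofReal (h x) ∂(nu y) ≤
      ∫⁻ x in cb y r \ cb y s, ENNReal.ofReal (h x) ∂(nu y) := by
    refine lintegral_mono_set fun x hx => ⟨hx.1.2, fun hx' => ?_⟩
    exact absurd hx.1.1 (not_lt.2 hx')
  rw [← ofReal_integral_eq_lintegral_ofReal (hi.integrableOn (s := cb y r \ cb y s))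
    (Eventually.of_forall h0)] at h3
  have h4 : ENNReal.ofReal (c * (r - s - γ)) ≤
      ENNReal.ofReal (∫ x in cb y r \ cb y s, h x ∂(nu y)) := by
    rw [ENNReal.ofReal_mul hc0]
    refine le_trans ?_ (h2.trans (h1.le.trans h3))
    gcongr
    exact vol_good hγ hB
  exact (ENNReal.ofReal_le_ofReal_iff (integral_nonneg h0)).1 h4

theorem low_one (hS : SliceSys T Sl nu) [IsFiniteMeasure T] (y : ℂ) {B : Set ℝ} {γ s r : ℝ}
    {k : ℕ} (hγ : 0 ≤ γ) (hB : volume B ≤ ENNReal.ofReal γ) (hs : 0 ≤ s)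
    (hc : ∀ R ∈ Ioc s r, R ∉ B → k ≤ (Sl y R).card) :
    k * (r - s - γ) ≤ (nu y).real (cb y r \ cb y s) := by
  have := fin_nu hS y
  have := low hS y (r := r) (c := k) hγ hB hs (h := fun _ => 1) measurable_const
    (fun _ => zero_le_one) (integrable_const _) (Nat.cast_nonneg k) (fun R hR hb => by
      simpa using hc R hR hb)
  simpa using this

theorem up (hS : SliceSys T Sl nu) [IsFiniteMeasure T] (y : ℂ) {B : Set ℝ} {γ t ε : ℝ}
    {k : ℕ} (hγ : 0 ≤ γ) (hε : 0 ≤ ε) (hB : volume B ≤ ENNReal.ofReal γ)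
    (hc : ∀ R ∈ Ioc 0 t, R ∉ B → k ≤ (Sl y R).card) (hT : T.real (cb y t) ≤ k * t + ε) :
    volume {R | R ∈ Ioc 0 t ∧ (R ∈ B ∨ k < (Sl y R).card)} ≤
      ENNReal.ofReal (γ + (ε + k * γ)) := by
  set G := Ioc 0 t \ toMeasurable volume B with hG
  have hGm : MeasurableSet G := measurableSet_Ioc.diff (measurableSet_toMeasurable _ _)
  have hG0 : G ⊆ Ioi 0 := fun R hR => hR.1.1
  have h1 := ann hS y hGm hG0 (f := fun _ => 1) measurable_const
  have hme := (hS.meas y (fun _ => 1) measurable_const).mono_measure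
    (Measure.restrict_mono hG0 le_rfl)
  simp_rw [sum_one] at h1 hme
  have hle : (fun _ : ℝ => (k : ℝ≥0∞)) ≤ᵐ[volume.restrict G]
      fun R => ((Sl y R).card : ℝ≥0∞) := by
    refine (ae_restrict_iff' hGm).2 (Eventually.of_forall fun R hR => ?_)
    exact Nat.cast_le.2 (hc R hR.1 fun hb => hR.2 (subset_toMeasurable _ _ hb))
  have h2 := lintegral_add_mul_meas_add_le_le_lintegral hle hme 1
  rw [setLIntegral_const, one_mul, h1, Measure.restrict_apply' hGm, setLIntegral_const,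
    one_mul] at h2
  set H := {x | (k : ℝ≥0∞) + 1 ≤ ((Sl y x).card : ℝ≥0∞)} ∩ G with hH
  have h3 : nu y {x | dist x y ∈ G} ≤ ENNReal.ofReal (k * t + ε) := by
    refine le_trans (measure_mono (t := cb y t) fun x hx => hx.1.2) ?_
    refine le_trans (Measure.le_iff'.1 (hS.le y) _) ?_
    rw [← ofReal_measureReal (measure_ne_top _ _)]
    exact ENNReal.ofReal_le_ofReal hT
  have h4 : volume H ≤ ENNReal.ofReal (ε + k * γ) := by
    have hv := vol_good (s := 0) (r := t) hγ hB
    have h5 : ENNReal.ofReal (k * (t - 0 - γ)) + volume H ≤ ENNReal.ofReal (k * t + ε) := by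
      refine le_trans ?_ (h2.trans h3)
      rw [ENNReal.ofReal_mul (Nat.cast_nonneg k), ENNReal.ofReal_natCast]
      gcongr
    have h6 : ENNReal.ofReal (k * t + ε) ≤
        ENNReal.ofReal (k * (t - 0 - γ)) + ENNReal.ofReal (ε + k * γ) := by
      refine le_trans (ENNReal.ofReal_le_ofReal (le_of_eq ?_)) ENNReal.ofReal_add_le
      ring
    exact (ENNReal.add_le_add_iff_left ENNReal.ofReal_ne_top).1 (h5.trans h6)
  have h7 : {R | R ∈ Ioc 0 t ∧ (R ∈ B ∨ k < (Sl y R).card)} ⊆ toMeasurable volume B ∪ H := by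
    rintro R ⟨hR, hb | hb⟩
    · exact Or.inl (subset_toMeasurable _ _ hb)
    · by_cases hm : R ∈ toMeasurable volume B
      · exact Or.inl hm
      · refine Or.inr ⟨?_, hR, hm⟩
        have : k + 1 ≤ (Sl y R).card := hb
        show (k : ℝ≥0∞) + 1 ≤ _
        exact_mod_cast this
  refine (measure_mono h7).trans ((measure_union_le _ _).trans ?_)
  rw [measure_toMeasurable, ENNReal.ofReal_add hγ (by positivity)]
  exact add_le_add hB h4

/-- Off a finite set of radii the odd points are part of the slice. -/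
theorem odd_le (hS : SliceSys T Sl nu) (y : ℂ) {O : ℝ → Finset ℂ}
    (hO : ∀ R, ∀ q ∈ O R, q ∈ Metric.sphere y R ∧ bdy (T.restrict (cb y R)) q = 1) :
    ∃ X : Set ℝ, X.Finite ∧ ∀ R, 0 < R → R ∉ X → (O R).val ≤ Sl y R := by
  classical
  obtain ⟨X, hX, h⟩ := hS.par y
  refine ⟨X, hX, fun R hR hx => ?_⟩
  rw [Finset.val_le_iff_val_subset]
  intro q hq
  have hq' := hO R q hq
  have h1 := h R hR hx q hq'.1
  rw [hq'.2] at h1
  by_contra hn
  have h2 : ∀ (i : DecidableEq ℂ), @Multiset.count ℂ i q (Sl y R) = 0 := fun i =>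
    Multiset.count_eq_zero_of_notMem hn
  rw [h2] at h1
  simp at h1

theorem vol_union_fin {B X : Set ℝ} (hX : X.Finite) {a : ℝ≥0∞} (hB : volume B ≤ a) :
    volume (B ∪ X) ≤ a := by
  refine (measure_union_le _ _).trans ?_
  rw [hX.measure_zero, add_zero]
  exact hB

end Pool.Agent.MP_20201c_gt.H91.TightA
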