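import Pool.Agent.MP_20201c_gt.H91.Defs5
import Pool.Agent.MP_20201c_gt.H91.SideA
import Pool.Agent.MP_20201c_gt.H91.SideT

/-! One triangle: the zero level and the traces on the sides. -/

open MeasureTheory Set Filter Topology
open scoped ENNReal

namespace Pool.Agent.MP_20201c_gt.H91

theorem tk_apply (a b : ℂ) (A : Set ℝ) {S : Set ℂ} (hS : MeasurableSet S) :
    sgOn a b A S = ENNReal.ofReal ‖b - a‖ *
      volume {t : ℝ | (t ∈ A ∧ t ∈ Icc (0 : ℝ) 1) ∧ a + t • (b - a) ∈ S} := by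
  unfold sgOn
  rw [Measure.smul_apply, Measure.map_apply (m1_meas_line a (b - a)) hS,
    Measure.restrict_apply (m1_meas_line a (b - a) hS), smul_eq_mul]
  congr 2
  ext t
  simp only [mem_inter_iff, mem_preimage, mem_ofPred_eq]
  exact and_comm

theorem sgOn_le (a b : ℂ) (A : Set ℝ) : sgOn a b A ≤ sg a b := by
  refine Measure.le_iff.2 fun S hS => ?_
  rw [tk_apply a b A hS, m1_sg_apply a b hS]
  refine mul_le_mul_right (measure_mono fun t ht => ?_) _
  exact And.intro ht.1.2 ht.2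

theorem sgOn_univ_le (a b : ℂ) (A : Set ℝ) : sgOn a b A univ ≤ ENNReal.ofReal ‖b - a‖ := by
  rw [← sg_univ]
  exact Measure.le_iff'.1 (sgOn_le a b A) univ

theorem sgOn_congr (a b : ℂ) {A B : Set ℝ}
    (h : ∀ᵐ u : ℝ, u ∈ Icc (0 : ℝ) 1 → (u ∈ A ↔ u ∈ B)) : sgOn a b A = sgOn a b B := by
  unfold sgOn
  have e : (A ∩ Icc (0 : ℝ) 1 : Set ℝ) =ᵐ[volume] (B ∩ Icc (0 : ℝ) 1 : Set ℝ) := by
    filter_upwards [h] with u hu
    exact propext ⟨fun k => ⟨(hu k.2).1 k.1, k.2⟩, fun k => ⟨(hu k.2).2 k.1, k.2⟩⟩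
  rw [Measure.restrict_congr_set e]

theorem sgOn_empty (a b : ℂ) : sgOn a b ∅ = 0 := by
  unfold sgOn
  simp

theorem sgOn_tr_comm (a b : ℂ) (α α' : ℝ) : sgOn a b (tr α α') = sgOn b a (tr α' α) := by
  ext S hS
  rw [tk_apply _ _ _ hS, tk_apply _ _ _ hS, norm_sub_rev]
  congr 1
  have h := m1_vol_aff {t : ℝ | (t ∈ tr α' α ∧ t ∈ Icc (0 : ℝ) 1) ∧ b + t • (a - b) ∈ S} 1 (-1)
    (by norm_num)
  have e1 : ENNReal.ofReal |(-1 : ℝ)⁻¹| = 1 := by norm_num
  rw [e1, one_mul] at h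
  rw [← h]
  congr 1
  ext t
  have e2 : b + (1 + -1 * t) • (a - b) = a + t • (b - a) := by
    simp only [Complex.real_smul]
    push_cast
    ring
  have e3 : (1 - (1 + -1 * t)) * α' + (1 + -1 * t) * α = (1 - t) * α + t * α' := by ring
  simp only [mem_ofPred_eq, tr, e2, e3, mem_Icc]
  constructor
  · rintro ⟨⟨k1, k2, k3⟩, k4⟩
    exact ⟨⟨k1, by linarith, by linarith⟩, k4⟩
  · rintro ⟨⟨k1, k2, k3⟩, k4⟩
    exact ⟨⟨k1, by linarith, by linarith⟩, k4⟩

theorem tk_Icc (a b : ℂ) {A : Set ℝ} {u v : ℝ} (huv : u ≤ v)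
    (h : ∀ t, t ≠ u → t ≠ v → ((t ∈ A ∧ t ∈ Icc (0 : ℝ) 1) ↔ t ∈ Icc u v)) :
    sgOn a b A = sg (a + u • (b - a)) (a + v • (b - a)) := by
  ext S hS
  rw [tk_apply _ _ _ hS, m1_sg_sub _ _ _ _ hS, uIcc_of_le huv]
  congr 1
  refine m1_vol_eq_of_fin {u, v} (by simp) fun t ht => ?_
  simp only [mem_insert_iff, mem_singleton_iff, not_or] at ht
  simp only [mem_ofPred_eq, h t ht.1 ht.2]

theorem tk_poly (a b : ℂ) {A : Set ℝ} (hA : A.OrdConnected) :
    Poly (segment ℝ a b) (sgOn a b A) := by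
  by_cases hne : (A ∩ Icc (0 : ℝ) 1).Nonempty
  · have hb : BddBelow (A ∩ Icc (0 : ℝ) 1) := bddBelow_Icc.mono inter_subset_right
    have ha : BddAbove (A ∩ Icc (0 : ℝ) 1) := bddAbove_Icc.mono inter_subset_right
    have hc : (A ∩ Icc (0 : ℝ) 1).OrdConnected := hA.inter ordConnected_Icc
    have h0 : 0 ≤ sInf (A ∩ Icc (0 : ℝ) 1) := le_csInf hne fun t ht => ht.2.1
    have h1 : sSup (A ∩ Icc (0 : ℝ) 1) ≤ 1 := csSup_le hne fun t ht => ht.2.2
    have h2 := csInf_le_csSup hne hb ha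
    rw [tk_Icc a b h2 fun t k1 k2 => ⟨fun k => ⟨csInf_le hb k, le_csSup ha k⟩, fun k => ?_⟩]
    · exact Poly.sg (m1_seg_mem a b ⟨h0, h2.trans h1⟩) (m1_seg_mem a b ⟨h0.trans h2, h1⟩)
    · obtain ⟨x, hx, hx'⟩ := exists_lt_of_csInf_lt hne (lt_of_le_of_ne k.1 k1.symm)
      obtain ⟨y, hy, hy'⟩ := exists_lt_of_lt_csSup hne (lt_of_le_of_ne k.2 k2)
      exact hc.out hx hy ⟨hx'.le, hy'.le⟩
  · rw [sgOn_congr a b (B := ∅) (Eventually.of_forall fun u hu =>
      ⟨fun k => (hne ⟨u, k, hu⟩).elim, fun k => k.elim⟩), sgOn_empty]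
    exact Poly.zero _

theorem tk_union (a b : ℂ) {A B : Set ℝ} (hd : Disjoint A B) (hB : MeasurableSet B) :
    sgOn a b (A ∪ B) = sgOn a b A + sgOn a b B := by
  unfold sgOn
  rw [union_inter_distrib_right, Measure.restrict_union
    (hd.mono inter_subset_left inter_subset_left) (hB.inter measurableSet_Icc),
    Measure.map_add _ _ (m1_meas_line a (b - a)), smul_add]

theorem tk_oc (α α' : ℝ) : (tr α α').OrdConnected := by
  refine ⟨fun x hx y hy t ht => ?_⟩
  simp only [tr, mem_ofPred_eq] at hx hy ⊢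
  rcases le_total α α' with h | h
  · nlinarith [ht.1]
  · nlinarith [ht.2]

theorem tk_oc' (α α' : ℝ) : (tr α α')ᶜ.OrdConnected := by
  refine ⟨fun x hx y hy t ht => ?_⟩
  simp only [tr, mem_compl_iff, mem_ofPred_eq, not_lt] at hx hy ⊢
  rcases le_total α α' with h | h
  · nlinarith [ht.2]
  · nlinarith [ht.1]

/-- The two traces on an edge. -/
theorem sgOn_tr_add (a b : ℂ) (α α' γ γ' : ℝ) :
    Poly (segment ℝ a b) (sgOn a b (symmDiff (tr α α') (tr γ γ'))) ∧
    Poly (segment ℝ a b) (sgOn a b (tr α α' ∩ tr γ γ')) ∧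
    Poly (segment ℝ a b) (sgOn a b (tr α α')) ∧
    sgOn a b (tr α α') + sgOn a b (tr γ γ') = sgOn a b (symmDiff (tr α α') (tr γ γ')) +
      sgOn a b (tr α α' ∩ tr γ γ') + sgOn a b (tr α α' ∩ tr γ γ') := by
  have m1 := (tk_oc α α').measurableSet
  have m2 := (tk_oc γ γ').measurableSet
  have e : sgOn a b (symmDiff (tr α α') (tr γ γ')) =
      sgOn a b (tr α α' \ tr γ γ') + sgOn a b (tr γ γ' \ tr α α') := by
    rw [Set.symmDiff_def, tk_union a b disjoint_sdiff_sdiff (m2.diff m1)]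
  have e1 : sgOn a b (tr α α') = sgOn a b (tr α α' \ tr γ γ') + sgOn a b (tr α α' ∩ tr γ γ') := by
    rw [← tk_union a b disjoint_sdiff_inter (m1.inter m2), sdiff_union_inter]
  have e2 : sgOn a b (tr γ γ') = sgOn a b (tr γ γ' \ tr α α') + sgOn a b (tr α α' ∩ tr γ γ') := by
    rw [inter_comm, ← tk_union a b disjoint_sdiff_inter (m2.inter m1), sdiff_union_inter]
  refine ⟨?_, tk_poly a b ((tk_oc _ _).inter (tk_oc _ _)), tk_poly a b (tk_oc _ _), ?_⟩
  · rw [e]
    exact (tk_poly a b ((tk_oc _ _).inter (tk_oc' _ _))).add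
      (tk_poly a b ((tk_oc _ _).inter (tk_oc' _ _)))
  · rw [e]
    nth_rewrite 1 [e1]
    nth_rewrite 1 [e2]
    abel

theorem tk_frac {A B : ℝ} (h : A * B < 0) : A / (A - B) ∈ Icc (0 : ℝ) 1 := by
  rcases mul_neg_iff.1 h with ⟨h1, h2⟩ | ⟨h1, h2⟩
  · exact ⟨div_nonneg h1.le (by linarith), (div_le_one (by linarith)).2 (by linarith)⟩
  · exact ⟨div_nonneg_of_nonpos h1.le (by linarith),
      (div_le_one_of_neg (by linarith)).2 (by linarith)⟩

theorem tk_xp_mem (a b : ℂ) {A B : ℝ} (h : A * B < 0) : xp a b A B ∈ segment ℝ a b :=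
  m1_seg_mem a b (tk_frac h)

theorem tk_xp_hull (q : Fin 3 → ℂ) (i j : Fin 3) {A B : ℝ} (h : A * B < 0) :
    xp (q i) (q j) A B ∈ convexHull ℝ (range q) :=
  segment_subset_convexHull (mem_range_self i) (mem_range_self j) (tk_xp_mem _ _ h)

theorem lev_poly (q : Fin 3 → ℂ) (α : Fin 3 → ℝ) : Poly (convexHull ℝ (range q)) (lev q α) := by
  refine Poly.sum _ fun i _ => ?_
  split_ifs with h
  · exact Poly.sg (tk_xp_hull q _ _ h.1) (tk_xp_hull q _ _ h.2)
  · exact Poly.zero _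

theorem tk_xp_neg (a b : ℂ) (A B : ℝ) : xp a b (-A) (-B) = xp a b A B := by
  unfold xp
  rw [show -A - -B = -(A - B) by ring, neg_div_neg_eq]

theorem lev_neg (q : Fin 3 → ℂ) (α : Fin 3 → ℝ) : lev q (-α) = lev q α := by
  unfold lev
  simp only [Pi.neg_apply, neg_mul_neg, tk_xp_neg]

theorem lev_zero (q : Fin 3 → ℂ) {α : Fin 3 → ℝ} (h : (∀ i, 0 < α i) ∨ ∀ i, α i < 0) :
    lev q α = 0 := by
  refine Finset.sum_eq_zero fun i _ => if_neg fun k => ?_
  rcases h with h | h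
  · exact absurd k.1 (mul_pos (h _) (h _)).le.not_gt
  · exact absurd k.1 (mul_pos_of_neg_of_neg (h _) (h _)).le.not_gt

theorem tk_pp (a b : ℂ) {A B : ℝ} (hA : 0 < A) (hB : 0 < B) : sgOn a b (tr A B) = sg a b := by
  rw [tk_Icc a b zero_le_one fun t _ _ => ⟨fun k => k.2, fun k => ⟨?_, k⟩⟩]
  · simp
  · simp only [tr, mem_ofPred_eq]
    rcases le_total A B with h | h
    · nlinarith [k.1, k.2]
    · nlinarith [k.1, k.2]

theorem tk_nn (a b : ℂ) {A B : ℝ} (hA : A < 0) (hB : B < 0) : sgOn a b (tr A B) = 0 := by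
  rw [sgOn_congr a b (B := ∅) (Eventually.of_forall fun u hu => ⟨fun k => ?_, fun k => k.elim⟩),
    sgOn_empty]
  simp only [tr, mem_ofPred_eq] at k
  nlinarith [hu.1, hu.2]

theorem tk_pn (a b : ℂ) {A B : ℝ} (hA : 0 < A) (hB : B < 0) :
    sgOn a b (tr A B) = sg a (xp a b A B) := by
  have hf := tk_frac (mul_neg_of_pos_of_neg hA hB)
  have hd : 0 < A - B := by linarith
  rw [tk_Icc a b hf.1 fun t _ k2 => ⟨fun k => ⟨k.2.1, ?_⟩, fun k => ⟨?_, k.1, k.2.trans hf.2⟩⟩]
  · simp [xp]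
  · have k1 := k.1
    simp only [tr, mem_ofPred_eq] at k1
    rw [le_div_iff₀ hd]
    linarith
  · have k3 := (lt_div_iff₀ hd).1 (lt_of_le_of_ne k.2 k2)
    simp only [tr, mem_ofPred_eq]
    linarith

theorem tk_np (a b : ℂ) {A B : ℝ} (hA : A < 0) (hB : 0 < B) :
    sgOn a b (tr A B) = sg b (xp b a B A) := by
  rw [sgOn_tr_comm, tk_pn b a hB hA]

theorem tk_xp_comm (a b : ℂ) {A B : ℝ} (h : A * B < 0) : xp b a B A = xp a b A B := by
  have hd : A - B ≠ 0 := fun k => by
    have : A = B := by linarith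
    rw [this] at h
    nlinarith
  have hd' : B - A ≠ 0 := fun k => hd (by linarith)
  have e : B / (B - A) = 1 - A / (A - B) := by field_simp; ring
  unfold xp
  rw [e]
  simp only [Complex.real_smul]
  push_cast
  ring

theorem tk_sum {M : Type} [AddCommMonoid M] (f : Fin 3 → M) (i : Fin 3) :
    ∑ j, f j = f i + f (i + 1) + f (i + 2) := by
  rw [Fin.sum_univ_three]
  fin_cases i
  · rfl
  · show f 0 + f 1 + f 2 = f 1 + f 2 + f 0
    abel
  · show f 0 + f 1 + f 2 = f 2 + f 0 + f 1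
    abel

theorem tk_range (q : Fin 3 → ℂ) (i : Fin 3) : range q = {q i, q (i + 1), q (i + 2)} := by
  ext z
  constructor
  · rintro ⟨j, rfl⟩
    have : j = i ∨ j = i + 1 ∨ j = i + 2 := by revert i j; decide
    rcases this with h | h | h <;> simp [h]
  · rintro (h | h | h) <;> exact ⟨_, h.symm⟩

theorem tk_i1 (i : Fin 3) : i + 1 + 1 = i + 2 := by revert i; decide
theorem tk_i2 (i : Fin 3) : i + 1 + 2 = i := by revert i; decide
theorem tk_i3 (i : Fin 3) : i + 2 + 1 = i := by revert i; decide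
theorem tk_i4 (i : Fin 3) : i + 2 + 2 = i + 1 := by revert i; decide

theorem tk_lev (q : Fin 3 → ℂ) {α : Fin 3 → ℝ} (i : Fin 3) (h1 : α i * α (i + 1) < 0)
    (h2 : α i * α (i + 2) < 0) : lev q α =
      sg (xp (q i) (q (i + 1)) (α i) (α (i + 1))) (xp (q i) (q (i + 2)) (α i) (α (i + 2))) := by
  have h3 : ¬ α (i + 1) * α (i + 2) < 0 := fun k => by
    have := mul_pos_of_neg_of_neg h1 h2
    nlinarith [mul_self_nonneg (α i)]
  unfold lev
  rw [tk_sum _ i, if_pos ⟨h1, h2⟩, if_neg, if_neg, add_zero, add_zero]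
  · rw [tk_i4, mul_comm (α (i + 2)) (α (i + 1))]
    exact fun k => h3 k.2
  · rw [tk_i1]
    exact fun k => h3 k.1

theorem tk_tr (q : Fin 3 → ℂ) (α : Fin 3 → ℝ) (i : Fin 3) :
    ∑ i, sgOn (q i) (q (i + 1)) (tr (α i) (α (i + 1))) =
      sgOn (q i) (q (i + 1)) (tr (α i) (α (i + 1))) +
      sgOn (q (i + 1)) (q (i + 2)) (tr (α (i + 1)) (α (i + 2))) +
      sgOn (q (i + 2)) (q i) (tr (α (i + 2)) (α i)) := by
  rw [tk_sum _ i, tk_i1, tk_i3]

theorem tk_ps (a b : ℂ) : Poly univ (sg a b) := Poly.sg trivial trivial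

theorem tk_bdy3 (a b c z : ℂ) : bdy (sg a b + sg b c + sg c a) z = 0 := by
  rw [bdy_add ((tk_ps _ _).add (tk_ps _ _)) (tk_ps _ _), bdy_add (tk_ps _ _) (tk_ps _ _),
    bdy_sg, bdy_sg, bdy_sg]
  generalize (if a = z then (1 : F2) else 0) = x
  generalize (if b = z then (1 : F2) else 0) = y
  generalize (if c = z then (1 : F2) else 0) = w
  revert x y w
  decide

theorem tk_bdy4 (a b c d z : ℂ) : bdy (sg a b + sg b c + sg c d + sg d a) z = 0 := by
  rw [bdy_add (((tk_ps _ _).add (tk_ps _ _)).add (tk_ps _ _)) (tk_ps _ _),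
    bdy_add ((tk_ps _ _).add (tk_ps _ _)) (tk_ps _ _), bdy_add (tk_ps _ _) (tk_ps _ _),
    bdy_sg, bdy_sg, bdy_sg, bdy_sg]
  generalize (if a = z then (1 : F2) else 0) = x
  generalize (if b = z then (1 : F2) else 0) = y
  generalize (if c = z then (1 : F2) else 0) = w
  generalize (if d = z then (1 : F2) else 0) = v
  revert x y w v
  decide

theorem tk_small (q : Fin 3 → ℂ) (i j k : Fin 3) {A B C : ℝ} (h1 : A * B < 0) (h2 : A * C < 0) :
    convexHull ℝ ({q i, xp (q i) (q j) A B, xp (q i) (q k) A C} : Set ℂ) ⊆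
      convexHull ℝ (range q) := by
  refine convexHull_min ?_ (convex_convexHull ℝ _)
  rintro z (rfl | rfl | rfl)
  · exact subset_convexHull ℝ _ (mem_range_self i)
  · exact tk_xp_hull q _ _ h1
  · exact tk_xp_hull q _ _ h2

theorem tk_one (Ω : Set ℂ) (q : Fin 3 → ℂ) {α : Fin 3 → ℝ} (i : Fin 3) (h0 : 0 < α i)
    (h1 : α (i + 1) < 0) (h2 : α (i + 2) < 0) :
    (∀ z, bdy (lev q α + ∑ i, sgOn (q i) (q (i + 1)) (tr (α i) (α (i + 1)))) z = 0) ∧
    ∃ E ⊆ convexHull ℝ (range q),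
      Side Ω (lev q α + ∑ i, sgOn (q i) (q (i + 1)) (tr (α i) (α (i + 1)))) E := by
  have k1 := mul_neg_of_pos_of_neg h0 h1
  have k2 := mul_neg_of_pos_of_neg h0 h2
  have e : lev q α + ∑ i, sgOn (q i) (q (i + 1)) (tr (α i) (α (i + 1))) =
      sg (q i) (xp (q i) (q (i + 1)) (α i) (α (i + 1))) +
      sg (xp (q i) (q (i + 1)) (α i) (α (i + 1))) (xp (q i) (q (i + 2)) (α i) (α (i + 2))) +
      sg (xp (q i) (q (i + 2)) (α i) (α (i + 2))) (q i) := by
    rw [tk_lev q i k1 k2, tk_tr q α i, tk_pn _ _ h0 h1, tk_nn _ _ h1 h2, tk_np _ _ h2 h0,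
      sg_comm (q i) (xp (q i) (q (i + 2)) (α i) (α (i + 2)))]
    abel
  rw [e]
  exact ⟨tk_bdy3 _ _ _, _, tk_small q _ _ _ k1 k2, side_tri Ω _ _ _⟩

theorem tk_two (Ω : Set ℂ) (q : Fin 3 → ℂ) {α : Fin 3 → ℝ} (i : Fin 3) (h0 : α i < 0)
    (h1 : 0 < α (i + 1)) (h2 : 0 < α (i + 2)) :
    (∀ z, bdy (lev q α + ∑ i, sgOn (q i) (q (i + 1)) (tr (α i) (α (i + 1)))) z = 0) ∧
    ∃ E ⊆ convexHull ℝ (range q),
      Side Ω (lev q α + ∑ i, sgOn (q i) (q (i + 1)) (tr (α i) (α (i + 1)))) E := by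
  have k1 := mul_neg_of_neg_of_pos h0 h1
  have k2 := mul_neg_of_neg_of_pos h0 h2
  have hs := tk_small q i (i + 1) (i + 2) k1 k2
  have hx := tk_xp_mem (q i) (q (i + 1)) k1
  have hy := tk_xp_mem (q i) (q (i + 2)) k2
  have e : lev q α + ∑ i, sgOn (q i) (q (i + 1)) (tr (α i) (α (i + 1))) =
      sg (xp (q i) (q (i + 1)) (α i) (α (i + 1))) (q (i + 1)) + sg (q (i + 1)) (q (i + 2)) +
      sg (q (i + 2)) (xp (q i) (q (i + 2)) (α i) (α (i + 2))) +
      sg (xp (q i) (q (i + 2)) (α i) (α (i + 2))) (xp (q i) (q (i + 1)) (α i) (α (i + 1))) := by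
    rw [tk_lev q i k1 k2, tk_tr q α i, tk_np _ _ h0 h1, tk_pp _ _ h1 h2, tk_pn _ _ h2 h0,
      tk_xp_comm _ _ k1, tk_xp_comm _ _ k2,
      sg_comm (q (i + 1)) (xp (q i) (q (i + 1)) (α i) (α (i + 1))),
      sg_comm (xp (q i) (q (i + 1)) (α i) (α (i + 1))) (xp (q i) (q (i + 2)) (α i) (α (i + 2)))]
    abel
  rw [e]
  generalize xp (q i) (q (i + 1)) (α i) (α (i + 1)) = x at hs hx
  generalize xp (q i) (q (i + 2)) (α i) (α (i + 2)) = y at hs hy
  have t := (side_tri Ω (q i) (q (i + 1)) (q (i + 2))).add (side_tri Ω (q i) x y)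
  rw [← tk_range q i] at t
  refine ⟨tk_bdy4 _ _ _ _, _, symmDiff_subset_union.trans (union_subset subset_rfl hs),
    Side.cancel ((((tk_ps _ _).add (tk_ps _ _)).add (tk_ps _ _)).add (tk_ps _ _))
      ((tk_ps (q i) x).add (tk_ps y (q i))) ?_⟩
  rw [segment_symm] at hy
  rw [sg_split hx, sg_split hy, sg_comm x y] at t
  have e2 : sg x (q (i + 1)) + sg (q (i + 1)) (q (i + 2)) + sg (q (i + 2)) y + sg y x +
      (sg (q i) x + sg y (q i)) + (sg (q i) x + sg y (q i)) =
      sg (q i) x + sg x (q (i + 1)) + sg (q (i + 1)) (q (i + 2)) +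
        (sg (q (i + 2)) y + sg y (q i)) + (sg (q i) x + sg y x + sg y (q i)) := by abel
  rw [e2]
  exact t

/-- The boundary of the positive part of a triangle. -/
theorem tri_piece (Ω : Set ℂ) (q : Fin 3 → ℂ) {α : Fin 3 → ℝ} (h : ∀ i, α i ≠ 0) :
    (∀ z, bdy (lev q α + ∑ i, sgOn (q i) (q (i + 1)) (tr (α i) (α (i + 1)))) z = 0) ∧
    ∃ E ⊆ convexHull ℝ (range q),
      Side Ω (lev q α + ∑ i, sgOn (q i) (q (i + 1)) (tr (α i) (α (i + 1)))) E ∧
      ((∀ i, 0 < α i) → E = convexHull ℝ (range q)) ∧ ((∀ i, α i < 0) → E = ∅) := by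
  by_cases hp : ∀ i, 0 < α i
  · rw [lev_zero q (Or.inl hp), zero_add, tk_tr q α 0, tk_pp _ _ (hp _) (hp _),
      tk_pp _ _ (hp _) (hp _), tk_pp _ _ (hp _) (hp _)]
    refine ⟨tk_bdy3 _ _ _, _, subset_rfl, ?_, fun _ => rfl,
      fun k => absurd (hp 0) (k 0).le.not_gt⟩
    rw [tk_range q 0]
    exact side_tri Ω _ _ _
  by_cases hn : ∀ i, α i < 0
  · rw [lev_zero q (Or.inr hn), zero_add, tk_tr q α 0, tk_nn _ _ (hn _) (hn _),
      tk_nn _ _ (hn _) (hn _), tk_nn _ _ (hn _) (hn _), add_zero, add_zero]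
    refine ⟨bdy_zero, ∅, empty_subset _, ?_, fun k => absurd k hp, fun _ => rfl⟩
    have := side_double (Ω := Ω) (Poly.zero univ)
    rwa [add_zero] at this
  have key : (∀ z, bdy (lev q α + ∑ i, sgOn (q i) (q (i + 1)) (tr (α i) (α (i + 1)))) z = 0) ∧
      ∃ E ⊆ convexHull ℝ (range q),
        Side Ω (lev q α + ∑ i, sgOn (q i) (q (i + 1)) (tr (α i) (α (i + 1)))) E := by
    rcases (h 0).lt_or_gt with h0 | h0 <;> rcases (h 1).lt_or_gt with h1 | h1 <;>
      rcases (h 2).lt_or_gt with h2 | h2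
    · exact absurd (fun i => by fin_cases i <;> assumption) hn
    · exact tk_one Ω q 2 h2 h0 h1
    · exact tk_one Ω q 1 h1 h2 h0
    · exact tk_two Ω q 0 h0 h1 h2
    · exact tk_one Ω q 0 h0 h1 h2
    · exact tk_two Ω q 1 h1 h2 h0
    · exact tk_two Ω q 2 h2 h0 h1
    · exact absurd (fun i => by fin_cases i <;> assumption) hp
  obtain ⟨k1, E, k2, k3⟩ := key
  exact ⟨k1, E, k2, k3, fun k => absurd k hp, fun k => absurd k hn⟩

theorem tk_up (A D k : ℝ) (hk : 0 ≤ k) :
    ∫⁻ s in Ioc A D, ENNReal.ofReal (k * (s - A)) = ENNReal.ofReal (k * (max (D - A) 0) ^ 2 / 2) := by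
  rcases le_total D A with h | h
  · rw [Ioc_eq_empty h.not_gt, max_eq_right (by linarith)]
    simp
  · rw [max_eq_left (by linarith), ← ofReal_integral_eq_lintegral_ofReal,
      ← intervalIntegral.integral_of_le h, intervalIntegral.integral_const_mul,
      intervalIntegral.integral_comp_sub_right (fun x => x) A, integral_id]
    · congr 1
      ring
    · exact (by fun_prop : Continuous fun s : ℝ => k * (s - A)).integrableOn_Ioc
    · refine (ae_restrict_iff' measurableSet_Ioc).2 (Eventually.of_forall fun s hs => ?_)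
      exact mul_nonneg hk (sub_nonneg.2 hs.1.le)

theorem tk_down (A D k : ℝ) (hk : 0 ≤ k) :
    ∫⁻ s in Ioc D A, ENNReal.ofReal (k * (A - s)) = ENNReal.ofReal (k * (max (A - D) 0) ^ 2 / 2) := by
  rcases le_total A D with h | h
  · rw [Ioc_eq_empty h.not_gt, max_eq_right (by linarith)]
    simp
  · rw [max_eq_left (by linarith), ← ofReal_integral_eq_lintegral_ofReal,
      ← intervalIntegral.integral_of_le h, intervalIntegral.integral_const_mul,
      intervalIntegral.integral_comp_sub_left (fun x => x) A, integral_id]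
    · congr 1
      ring
    · exact (by fun_prop : Continuous fun s : ℝ => k * (A - s)).integrableOn_Ioc
    · refine (ae_restrict_iff' measurableSet_Ioc).2 (Eventually.of_forall fun s hs => ?_)
      exact mul_nonneg hk (sub_nonneg.2 hs.2)

theorem tk_g1 {A B C R : ℝ} (hR : A < B → A < C → R = max B C - A) :
    (max (min B C - A) 0) ^ 2 / (|A - B| * |A - C|) ≤ max (min B C - A) 0 / R := by
  rcases le_or_gt (min B C) A with h | h
  · rw [max_eq_right (by linarith)]
    simp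
  · have hB := (lt_min_iff.1 h).1
    have hC := (lt_min_iff.1 h).2
    rw [hR hB hC, max_eq_left (by linarith), abs_of_neg (by linarith), abs_of_neg (by linarith)]
    have b0 : B - A ≠ 0 := by linarith
    have c0 : C - A ≠ 0 := by linarith
    rw [neg_sub, neg_sub]
    rcases le_total B C with k | k
    · rw [min_eq_left k, max_eq_right k]
      exact le_of_eq (by field_simp)
    · rw [min_eq_right k, max_eq_left k]
      exact le_of_eq (by field_simp)

theorem tk_g2 {A B C R : ℝ} (hR : B < A → C < A → R = A - min B C) :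
    (max (A - max B C) 0) ^ 2 / (|A - B| * |A - C|) ≤ max (A - max B C) 0 / R := by
  rcases le_or_gt A (max B C) with h | h
  · rw [max_eq_right (by linarith)]
    simp
  · have hB := (max_lt_iff.1 h).1
    have hC := (max_lt_iff.1 h).2
    rw [hR hB hC, max_eq_left (by linarith), abs_of_pos (by linarith), abs_of_pos (by linarith)]
    have b0 : A - B ≠ 0 := by linarith
    have c0 : A - C ≠ 0 := by linarith
    rcases le_total B C with k | k
    · rw [min_eq_left k, max_eq_right k]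
      exact le_of_eq (by field_simp)
    · rw [min_eq_right k, max_eq_left k]
      exact le_of_eq (by field_simp)

/-- The weight of a vertex. -/
noncomputable def tkW (A B C : ℝ) : ℝ :=
  (max (min B C - A) 0) ^ 2 / (|A - B| * |A - C|) + (max (A - max B C) 0) ^ 2 / (|A - B| * |A - C|)

theorem tk_W0 (A B C : ℝ) : 0 ≤ tkW A B C := by
  unfold tkW
  positivity

theorem tk_W (A B C : ℝ) : tkW A B C + tkW B C A + tkW C A B ≤ 1 := by
  obtain ⟨R, hR⟩ : ∃ R, R = max A (max B C) - min A (min B C) := ⟨_, rfl⟩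
  have g : ∀ X Y Z : ℝ, R = max X (max Y Z) - min X (min Y Z) →
      tkW X Y Z ≤ (max (min Y Z - X) 0 + max (X - max Y Z) 0) / R := fun X Y Z h => by
    rw [add_div]
    refine add_le_add (tk_g1 fun k1 k2 => ?_) (tk_g2 fun k1 k2 => ?_)
    · rw [h, max_eq_right (le_max_of_le_left k1.le), min_eq_left (le_min k1.le k2.le)]
    · rw [h, max_eq_left (max_le k1.le k2.le), min_eq_right (min_le_of_left_le k1.le)]
  have g1 := g A B C hR
  have g2 := g B C A (by rw [hR, max_left_comm A, max_comm A C, min_left_comm A, min_comm A C])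
  have g3 := g C A B (by
    rw [hR, max_left_comm C, max_comm C B, min_left_comm C, min_comm C B])
  have h0 : 0 ≤ R := by
    rw [hR]
    exact sub_nonneg.2 ((min_le_left _ _).trans (le_max_left _ _))
  refine (add_le_add (add_le_add g1 g2) g3).trans ?_
  rw [← add_div, ← add_div]
  refine div_le_one_of_le₀ ?_ h0
  rw [hR]
  simp only [max_def, min_def]
  split_ifs <;> linarith

theorem tk_len (a b c : ℂ) {A B C s : ℝ} (h1 : (A - s) * (B - s) < 0) (h2 : (A - s) * (C - s) < 0) :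
    ‖xp a c (A - s) (C - s) - xp a b (A - s) (B - s)‖ =
      ‖A • (b - c) + B • (c - a) + C • (a - b)‖ / (|A - B| * |A - C|) * |A - s| := by
  have b0 : A - B ≠ 0 := fun k => by
    have : A = B := by linarith
    rw [this] at h1
    nlinarith
  have c0 : A - C ≠ 0 := fun k => by
    have : A = C := by linarith
    rw [this] at h2
    nlinarith
  have e : xp a c (A - s) (C - s) - xp a b (A - s) (B - s) =
      (-(A - s) / ((A - B) * (A - C))) • (A • (b - c) + B • (c - a) + C • (a - b)) := by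
    unfold xp
    rw [show A - s - (C - s) = A - C by ring, show A - s - (B - s) = A - B by ring]
    have b1 : ((A : ℂ) - B) ≠ 0 := by exact_mod_cast b0
    have c1 : ((A : ℂ) - C) ≠ 0 := by exact_mod_cast c0
    simp only [Complex.real_smul]
    push_cast
    field_simp
    ring
  rw [e, norm_smul, Real.norm_eq_abs, abs_div, abs_neg, abs_mul]
  ring

theorem tk_term (a b c : ℂ) (A B C : ℝ) :
    Measurable (fun s : ℝ => (if (A - s) * (B - s) < 0 ∧ (A - s) * (C - s) < 0 then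
      sg (xp a b (A - s) (B - s)) (xp a c (A - s) (C - s)) else 0) univ) ∧
    ∫⁻ s : ℝ, (if (A - s) * (B - s) < 0 ∧ (A - s) * (C - s) < 0 then
      sg (xp a b (A - s) (B - s)) (xp a c (A - s) (C - s)) else 0) univ ≤
      ENNReal.ofReal (‖A • (b - c) + B • (c - a) + C • (a - b)‖ / 2 * tkW A B C) := by
  obtain ⟨k, hk⟩ : ∃ k, k = ‖A • (b - c) + B • (c - a) + C • (a - b)‖ / (|A - B| * |A - C|) :=
    ⟨_, rfl⟩
  have k0 : 0 ≤ k := by rw [hk]; positivity
  have e : (fun s : ℝ => (if (A - s) * (B - s) < 0 ∧ (A - s) * (C - s) < 0 then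
      sg (xp a b (A - s) (B - s)) (xp a c (A - s) (C - s)) else 0) univ) =
      fun s : ℝ => if (A - s) * (B - s) < 0 ∧ (A - s) * (C - s) < 0 then
        ENNReal.ofReal (k * |A - s|) else 0 := by
    funext s
    split_ifs with h
    · rw [sg_univ, tk_len a b c h.1 h.2, hk]
    · rfl
  rw [e]
  constructor
  · refine Measurable.ite ?_ (by fun_prop) measurable_const
    exact (measurableSet_lt (f := fun s : ℝ => (A - s) * (B - s)) (g := fun _ => 0)
      (by fun_prop) measurable_const).inter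
      (measurableSet_lt (f := fun s : ℝ => (A - s) * (C - s)) (g := fun _ => 0)
        (by fun_prop) measurable_const)
  · have le : ∀ s : ℝ, (if (A - s) * (B - s) < 0 ∧ (A - s) * (C - s) < 0 then
        ENNReal.ofReal (k * |A - s|) else 0) ≤
        (Ioc A (min B C)).indicator (fun s => ENNReal.ofReal (k * (s - A))) s +
        (Ioc (max B C) A).indicator (fun s => ENNReal.ofReal (k * (A - s))) s := fun s => by
      split_ifs with h
      · rcases mul_neg_iff.1 h.1 with ⟨h1, h2⟩ | ⟨h1, h2⟩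
        · have h3 : C - s < 0 := neg_of_mul_neg_right h.2 h1.le
          rw [indicator_of_mem (show s ∈ Ioc (max B C) A from
            ⟨max_lt (by linarith) (by linarith), by linarith⟩), abs_of_pos h1]
          exact le_add_self
        · have h3 : 0 < C - s := pos_of_mul_neg_right h.2 h1.le
          rw [indicator_of_mem (show s ∈ Ioc A (min B C) from
            ⟨by linarith, le_min (by linarith) (by linarith)⟩), abs_of_neg h1, neg_sub]
          exact le_self_add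
      · exact zero_le
    refine (lintegral_mono le).trans (le_of_eq ?_)
    rw [lintegral_add_left (Measurable.indicator (by fun_prop) measurableSet_Ioc),
      lintegral_indicator measurableSet_Ioc, lintegral_indicator measurableSet_Ioc,
      tk_up _ _ _ k0, tk_down _ _ _ k0, ← ENNReal.ofReal_add (by positivity) (by positivity), hk]
    congr 1
    unfold tkW
    ring

/-- Coarea inequality in a triangle. -/
theorem lev_int (q : Fin 3 → ℂ) (α : Fin 3 → ℝ) :
    Measurable (fun s : ℝ => lev q (fun i => α i - s) univ) ∧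
      ∫⁻ s : ℝ, lev q (fun i => α i - s) univ ≤ ENNReal.ofReal (‖Nt q α‖ / 2) := by
  have t := fun i : Fin 3 => tk_term (q i) (q (i + 1)) (q (i + 2)) (α i) (α (i + 1)) (α (i + 2))
  have e : (fun s : ℝ => lev q (fun i => α i - s) univ) = fun s : ℝ => ∑ i : Fin 3,
      (if (α i - s) * (α (i + 1) - s) < 0 ∧ (α i - s) * (α (i + 2) - s) < 0 then
        sg (xp (q i) (q (i + 1)) (α i - s) (α (i + 1) - s))
          (xp (q i) (q (i + 2)) (α i - s) (α (i + 2) - s)) else 0) univ := by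
    funext s
    unfold lev
    rw [Measure.finsetSum_apply]
  have n : ∀ i : Fin 3, α i • (q (i + 1) - q (i + 2)) + α (i + 1) • (q (i + 2) - q i) +
      α (i + 2) • (q i - q (i + 1)) = Nt q α := fun i => by
    unfold Nt
    fin_cases i
    · rfl
    · show α 1 • (q 2 - q 0) + α 2 • (q 0 - q 1) + α 0 • (q 1 - q 2) = _
      abel
    · show α 2 • (q 0 - q 1) + α 0 • (q 1 - q 2) + α 1 • (q 2 - q 0) = _
      abel
  rw [e]
  refine ⟨Finset.measurable_sum _ fun i _ => (t i).1, ?_⟩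
  rw [lintegral_finsetSum _ fun i _ => (t i).1]
  refine (Finset.sum_le_sum fun i _ => (t i).2).trans ?_
  rw [← ENNReal.ofReal_sum_of_nonneg fun i _ => mul_nonneg (by positivity) (tk_W0 _ _ _)]
  refine ENNReal.ofReal_le_ofReal ?_
  simp only [n]
  rw [← Finset.mul_sum, Fin.sum_univ_three]
  exact mul_le_of_le_one_right (by positivity) (tk_W (α 0) (α 1) (α 2))

end Pool.Agent.MP_20201c_gt.H91
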