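import Pool.Agent.MP_20201c_gt.H91.Most

/-! Two centres force a line; balance of the slices. -/

open MeasureTheory Set Filter Topology
open scoped ENNReal

namespace Pool.Agent.MP_20201c_gt.H91

theorem two_dfc {T nu : Ms} [IsFiniteMeasure T] (h : nu ≤ T) {U B : Set ℂ} (hU : MeasurableSet U)
    (hUB : U ⊆ B) : T.real U - nu.real U ≤ T.real B - nu.real B := by
  have : IsFiniteMeasure nu := isFiniteMeasure_of_le T h
  have e1 := measureReal_inter_add_sdiff (μ := T) (s := B) hU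
  have e2 := measureReal_inter_add_sdiff (μ := nu) (s := B) hU
  rw [inter_eq_self_of_subset_right hUB] at e1 e2
  have e3 : nu.real (B \ U) ≤ T.real (B \ U) :=
    ENNReal.toReal_mono (measure_ne_top _ _) (h _)
  linarith

theorem two_open {𝒰 : Filter ℕ} [𝒰.NeBot] {W : Set ℂ} {T : ℕ → Ms} {μ : Ms} (hL : Lim 𝒰 W T μ)
    {Sl : ℕ → ℂ → ℝ → Multiset ℂ} {nu : ℕ → ℂ → Ms} (hS : ∀ n, SliceSys (T n) (Sl n) (nu n))
    {y y' : ℂ} {s s' c : ℝ} (hc : 0 < c)
    (h : Tendsto (fun n => (T n).real (cb y s) - (nu n y).real (cb y s)) 𝒰 (𝓝 0))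
    (h' : Tendsto (fun n => (T n).real (cb y' s') - (nu n y').real (cb y' s')) 𝒰 (𝓝 0))
    {U : Set ℂ} (hU : IsOpen U) (h1 : U ⊆ cb y s) (h2 : U ⊆ cb y' s')
    (h3 : ∀ x ∈ U, x ≠ y ∧ x ≠ y' ∧ c * (‖x - y‖ * ‖x - y'‖) ≤ |dt (x - y) (x - y')|) :
    μ U = 0 := by
  have hfin := hL.fin
  have hc2 : 0 < c ^ 2 / 4 := by positivity
  have key : ∀ n, c ^ 2 / 4 * (T n).real U ≤
      ((T n).real (cb y s) - (nu n y).real (cb y s)) +
        ((T n).real (cb y' s') - (nu n y').real (cb y' s')) := by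
    intro n
    have hT := (hL.poly n).finite
    have f1 : IsFiniteMeasure (nu n y) := isFiniteMeasure_of_le (T n) ((hS n).le y)
    have f2 : IsFiniteMeasure (nu n y') := isFiniteMeasure_of_le (T n) ((hS n).le y')
    have e := (hS n).two y y' U c hU.measurableSet hc.le h3
    have e' := ENNReal.toReal_mono (by finiteness) e
    rw [ENNReal.toReal_add (by finiteness) (by finiteness),
      ENNReal.toReal_add (by finiteness) (by finiteness), ENNReal.toReal_mul, ENNReal.toReal_mul,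
      ENNReal.toReal_ofReal hc2.le, ENNReal.toReal_ofNat] at e'
    have d1 := two_dfc ((hS n).le y) hU.measurableSet h1
    have d2 := two_dfc ((hS n).le y') hU.measurableSet h2
    simp only [Measure.real] at d1 d2 ⊢
    linarith
  have h0 : μ.real U ≤ 0 := by
    refine le_of_forall_pos_le_add fun ε hε => ?_
    have hs := h.add h'
    rw [add_zero] at hs
    have hlt : (0 : ℝ) < c ^ 2 / 4 * (ε / 2) := by positivity
    obtain ⟨n, hn1, hn2⟩ := ((hL.open hU (half_pos hε)).and (hs.eventually (gt_mem_nhds hlt))).exists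
    have := lt_of_mul_lt_mul_left ((key n).trans_lt hn2) hc2.le
    linarith
  exact (measureReal_eq_zero_iff (measure_ne_top _ _)).1 (le_antisymm h0 measureReal_nonneg)

theorem two_centre {𝒰 : Filter ℕ} [𝒰.NeBot] {W : Set ℂ} {T : ℕ → Ms} {μ : Ms} (hL : Lim 𝒰 W T μ)
    {Sl : ℕ → ℂ → ℝ → Multiset ℂ} {nu : ℕ → ℂ → Ms} (hS : ∀ n, SliceSys (T n) (Sl n) (nu n))
    {y y' : ℂ} {k k' : ℕ} {r r' : ℝ} {O O' : ℕ → ℝ → Finset ℂ}
    (h : Pack 𝒰 T μ (fun n => nu n y) y k r O) (h' : Pack 𝒰 T μ (fun n => nu n y') y' k' r' O') :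
    μ {x | x ∈ Metric.ball y r ∧ x ∈ Metric.ball y' r' ∧ dt (x - y') (y' - y) ≠ 0} = 0 := by
  let U : ℕ → Set ℂ := fun j => {x | dist x y < r - r / (j + 2) ∧ dist x y' < r' - r' / (j + 2) ∧
    1 / ((j : ℝ) + 1) * (‖x - y‖ * ‖x - y'‖) < |dt (x - y) (x - y')|}
  have hrad : ∀ {ρ : ℝ}, 0 < ρ → ∀ j : ℕ, ρ - ρ / (j + 2) ∈ Ioo 0 ρ := by
    intro ρ hρ j
    have h1 : (0 : ℝ) ≤ j := Nat.cast_nonneg j
    have h2 : 0 < ρ / (j + 2) := by positivity
    have h3 : ρ / (j + 2) < ρ := div_lt_self hρ (by linarith)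
    exact ⟨by linarith, by linarith⟩
  have hU : ∀ j, μ (U j) = 0 := by
    intro j
    refine two_open hL hS (c := 1 / ((j : ℝ) + 1)) (by positivity) (h.dfc _ (hrad h.pos j))
      (h'.dfc _ (hrad h'.pos j)) ?_ (fun x hx => hx.1.le) (fun x hx => hx.2.1.le) ?_
    · have c1 : Continuous fun x : ℂ => dist x y := by fun_prop
      have c2 : Continuous fun x : ℂ => dist x y' := by fun_prop
      have c3 : Continuous fun x : ℂ => 1 / ((j : ℝ) + 1) * (‖x - y‖ * ‖x - y'‖) := by fun_prop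
      have c4 : Continuous fun x : ℂ => |dt (x - y) (x - y')| := by
        unfold dt
        fun_prop
      exact (isOpen_lt c1 continuous_const).inter
        ((isOpen_lt c2 continuous_const).inter (isOpen_lt c3 c4))
    · rintro x ⟨-, -, hx⟩
      refine ⟨?_, ?_, hx.le⟩
      · rintro rfl
        simp [dt] at hx
      · rintro rfl
        simp [dt] at hx
  refine measure_mono_null ?_ (measure_iUnion_null hU)
  rintro x ⟨hx1, hx2, hx3⟩
  have hd : 0 < |dt (x - y) (x - y')| := by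
    refine abs_pos.2 fun e => hx3 ?_
    simp only [dt, Complex.sub_re, Complex.sub_im] at e ⊢
    linarith
  have t0 : Tendsto (fun j : ℕ => 1 / ((j : ℝ) + 1)) atTop (𝓝 0) :=
    tendsto_one_div_add_atTop_nhds_zero_nat
  have t1 : ∀ ρ : ℝ, Tendsto (fun j : ℕ => ρ - ρ / ((j : ℝ) + 2)) atTop (𝓝 ρ) := by
    intro ρ
    have a1 : Tendsto (fun j : ℕ => (j : ℝ) + 2) atTop atTop :=
      tendsto_atTop_add_const_right _ _ tendsto_natCast_atTop_atTop
    simpa using (tendsto_const_nhds (x := ρ)).sub (a1.const_div_atTop ρ)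
  have t2 : Tendsto (fun j : ℕ => 1 / ((j : ℝ) + 1) * (‖x - y‖ * ‖x - y'‖)) atTop (𝓝 0) := by
    simpa using t0.mul_const (‖x - y‖ * ‖x - y'‖)
  obtain ⟨j, j1, j2, j3⟩ := (((t1 r).eventually (lt_mem_nhds (Metric.mem_ball.1 hx1))).and
    (((t1 r').eventually (lt_mem_nhds (Metric.mem_ball.1 hx2))).and
      (t2.eventually (gt_mem_nhds hd)))).exists
  exact mem_iUnion.2 ⟨j, j1, j2, j3⟩

theorem two_norm {v u : ℂ} (hv : ‖v‖ = 1) (hu : ‖u‖ = 1) (ε : ℝ) :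
    ‖v - ε • u‖ ≤ 1 - ε * ip v u + ε ^ 2 / 2 := by
  have a1 : v.re ^ 2 + v.im ^ 2 = 1 := by
    have := Complex.sq_norm v
    rw [hv, Complex.normSq_apply] at this
    linarith
  have a2 : u.re ^ 2 + u.im ^ 2 = 1 := by
    have := Complex.sq_norm u
    rw [hu, Complex.normSq_apply] at this
    linarith
  have a3 : ‖v - ε • u‖ ^ 2 = 1 - 2 * ε * ip v u + ε ^ 2 := by
    rw [Complex.sq_norm, Complex.normSq_apply]
    simp only [ip, Complex.sub_re, Complex.sub_im, Complex.smul_re, Complex.smul_im, smul_eq_mul]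
    linear_combination a1 + ε ^ 2 * a2
  nlinarith [sq_nonneg (‖v - ε • u‖ - 1)]

theorem bal {𝒰 : Filter ℕ} {T : ℕ → Ms} {y : ℂ} {k : ℕ} {r : ℝ} {O : ℕ → ℝ → Finset ℂ}
    (h : T1 𝒰 T y k r O) (hO : ∀ n R, ∀ q ∈ O n R, q ∈ Metric.sphere y R) {u : ℂ} (hu : ‖u‖ = 1)
    {κ ε₀ : ℝ} (hε₀ : 0 < ε₀)
    (hA : ∀ ε ∈ Ioc 0 ε₀, ∀ γ, 0 < γ → Most 𝒰 r fun n R =>
      (T n).real (cb y R) - γ * R ≤ ∑ q ∈ O n R, ‖q - (y + (ε * R) • u)‖ + κ * (ε * R)) :
    ∀ γ, 0 < γ → Most 𝒰 r fun n R => ∑ q ∈ O n R, ip (R⁻¹ • (q - y)) u ≤ κ + γ := by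
  intro γ hγ
  have hk : (0 : ℝ) ≤ k := Nat.cast_nonneg k
  obtain ⟨ε, hε, hε1, hε2⟩ : ∃ ε : ℝ, 0 < ε ∧ ε ≤ ε₀ ∧ k * ε ≤ γ := by
    refine ⟨min ε₀ (γ / (k + 1)), lt_min hε₀ (by positivity), min_le_left _ _, ?_⟩
    have h1 : min ε₀ (γ / (k + 1)) ≤ γ / (k + 1) := min_le_right _ _
    have h2 : (k : ℝ) * (γ / (k + 1)) ≤ γ := by
      rw [← mul_div_assoc, div_le_iff₀ (by positivity)]
      nlinarith
    exact (mul_le_mul_of_nonneg_left h1 hk).trans h2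
  have hγ1 : 0 < γ * ε / 4 := by positivity
  refine ((h _ hγ1).and (hA ε ⟨hε, hε1⟩ _ hγ1)).mono ?_
  rintro n R ⟨hR, -⟩ ⟨⟨h1, h2⟩, h3⟩
  have h4 : ∑ q ∈ O n R, ‖q - (y + (ε * R) • u)‖ ≤
      ∑ q ∈ O n R, R * (1 - ε * ip (R⁻¹ • (q - y)) u + ε ^ 2 / 2) := by
    refine Finset.sum_le_sum fun q hq => ?_
    have hq1 : ‖q - y‖ = R := by simpa [dist_eq_norm] using hO n R q hq
    have hv : ‖R⁻¹ • (q - y)‖ = 1 := by
      rw [norm_smul, hq1, Real.norm_of_nonneg (inv_pos.2 hR).le, inv_mul_cancel₀ hR.ne']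
    have e : q - (y + (ε * R) • u) = R • (R⁻¹ • (q - y) - ε • u) := by
      rw [smul_sub, smul_smul, smul_smul, mul_inv_cancel₀ hR.ne', one_smul, mul_comm R ε]
      abel
    rw [e, norm_smul, Real.norm_of_nonneg hR.le]
    exact mul_le_mul_of_nonneg_left (two_norm hv hu ε) hR.le
  rw [← Finset.mul_sum, Finset.sum_add_distrib, Finset.sum_sub_distrib, ← Finset.mul_sum,
    Finset.sum_const, Finset.sum_const, h1, nsmul_eq_mul, nsmul_eq_mul] at h4
  generalize ∑ q ∈ O n R, ip (R⁻¹ • (q - y)) u = S at h4 ⊢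
  have h5 := (abs_le.1 h2).1
  have h6 : R * (ε * S) ≤ R * (ε * (κ + γ)) := by
    have h7 : R * (ε * (k * ε)) ≤ R * (ε * γ) :=
      mul_le_mul_of_nonneg_left (mul_le_mul_of_nonneg_left hε2 hε.le) hR.le
    nlinarith
  exact le_of_mul_le_mul_left (le_of_mul_le_mul_left h6 hR) hε

end Pool.Agent.MP_20201c_gt.H91
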