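import Pool.Agent.MP_20201c_gt.H91.Fib
import Pool.Agent.MP_20201c_gt.H91.Cone

/-! Filling in the two kinds of carriers. -/

open MeasureTheory Set Filter Topology
open scoped ENNReal

namespace Pool.Agent.MP_20201c_gt.H91

/-- Transfer of fillings along a pair of maps. -/
theorem bnd_transfer {Y Y' : Type} (a : Y → Y') (b : Y' → Y) {P P' : Set (Sx Y)}
    {Q Q' : Set (Sx Y')} (ha : ∀ s ∈ P, smap a s ∈ Q) (hb : ∀ s ∈ Q', smap b s ∈ P')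
    (hab : ∀ s ∈ P, ∀ x, b (a (s.2 x)) = s.2 x) (h : Bnd Q Q') : Bnd P P' := by
  intro z hz h0
  obtain ⟨w, hw, hwz⟩ := h (mp a z) (mp_mem a ha hz) (by rw [bd_mp, h0, map_zero])
  refine ⟨mp b w, mp_mem b hb hw, ?_⟩
  rw [bd_mp, hwz, mp_mp]
  exact (mp_congr (b ∘ a) id hab hz).trans (mp_id z)

theorem hiW_preCl (G W : Set ℂ) (β : ℂ → F2) {n : ℕ} (f : Sm n → Ms) (y : ℂ) (R t : ℝ) :
    PreCl (HiW G W β f y R t) := by
  rintro m k g φ hφ ⟨h1, h2, h3⟩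
  exact ⟨h1.comp hφ, h2.comp hφ, fun p => h3 (φ p)⟩

theorem hiI_preCl (G W : Set ℂ) {n : ℕ} (f : Sm n → Ms) (y : ℂ) (R : ℝ) (Q : Sm n → ℝ → Ms)
    {𝓐 : Set (Sx (Sm n × ℝ))} (h𝓐 : PreCl 𝓐) (e : ℝ) : PreCl (HiI G W f y R Q 𝓐 e) := by
  rintro m k g φ hφ ⟨h1, h2, h3⟩
  exact ⟨h𝓐 m k _ φ hφ h1, h2.comp hφ, fun p => h3 (φ p)⟩

theorem wfill {N : ℕ} {G W : Set ℂ} (hW : Convex ℝ W) {β β₀ : ℂ → F2} {n : ℕ} (x₀ : Sm n)
    {f : Sm n → Ms} (hf : Fam W f) (hp : ∀ x, Par G W β (f x)) {y : ℂ} (hy : y ∈ W) {R : ℝ}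
    (hR : 0 < R) {κ : Sm n → Ms} (hκ : Fam (W ∩ cb y R) κ) {η : ℝ}
    (hη : ∀ x, (κ x).real univ ≤ η)
    (hb : ∀ x, Par G (W ∩ cb y R) (fun z => bdy ((f x).restrict (cb y R)) z + β₀ z) (κ x))
    {a : ℝ} (hA : Acyc N G (W ∩ cb y R) β₀ a) {t ε : ℝ} (ht : a ≤ t) (hε : 0 < ε) :
    Bnd (HiW G W β f y R t ∩ Dle _ N) (HiW G W β f y R (t + 2 * η + ε)) := by
  have hm : MeasurableSet (cb y R) := measurableSet_closedBall
  have key := fib (D := Sm n × ℝ) (𝓐 := LevS n 0) (levS_preCl n 0) (fun s hs => hs.1)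
    (d₀ := (x₀, 0)) (fun k => ⟨continuous_const, fun _ => rfl⟩) (ctr_lev x₀ 0)
    (hW.inter (convex_closedBall y R))
    (β := fun d => bdy ((f d.1).restrict (cb y R))) (κ := fun d => κ d.1)
    (hκ.comp continuous_fst) (fun d => hη d.1) (fun s _ x => hb (s.2 x).1) hA ht hε
  have glue : ∀ (x : Sm n) (m : Ms), m.restrict (cb y R)ᶜ = (f x).restrict (cb y R)ᶜ →
      (f x).restrict (cb y R)ᶜ + m.restrict (cb y R) = m := by
    intro x m h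
    rw [← h, add_comm]
    exact Measure.restrict_add_restrict_compl hm
  refine bnd_transfer (fun q : Sm n × Fb => ((q.1, (0 : ℝ)), q.2.2.2.restrict (cb y R)))
    (fun q : (Sm n × ℝ) × Ms =>
      (q.1.1, ((0 : ℝ), (0 : Ms), (f q.1.1).restrict (cb y R)ᶜ + q.2))) ?_ ?_ ?_ key
  · rintro s ⟨⟨h1, h2, h3⟩, hN⟩
    refine ⟨⟨⟨h1.prodMk continuous_const, fun _ => rfl⟩, h2.restrict_cb hW hy hR, fun p => ?_⟩,
      hN⟩
    obtain ⟨-, -, h4, h5, h6⟩ := h3 p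
    refine ⟨(par_glue hW (hf.poly _) (hp _) hy hR ((h2.poly p).restrict_cb hW hy hR)).1 ?_, ?_⟩
    · have e := glue _ _ h5
      exact e.symm ▸ h4
    · exact lt_of_eq_of_lt (measureReal_restrict_apply_univ _) h6
  · rintro s ⟨⟨h1, -⟩, h2, h3⟩
    have h1' : Continuous fun p => (s.2 p).1.1 := continuous_fst.comp h1
    refine ⟨h1', ((hf.restrict_compl_cb hW y hR).comp h1').add (h2.mono inter_subset_left),
      fun p => ⟨rfl, rfl, ?_, ?_, ?_⟩⟩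
    · exact (par_glue hW (hf.poly _) (hp _) hy hR (h2.poly p)).2 (h3 p).1
    · show ((f (s.2 p).1.1).restrict (cb y R)ᶜ + (s.2 p).2).restrict (cb y R)ᶜ =
        (f (s.2 p).1.1).restrict (cb y R)ᶜ
      rw [Measure.restrict_add, (h2.poly p).restrict_compl_cb.1, add_zero,
        Measure.restrict_restrict hm.compl, inter_self]
    · show ((f (s.2 p).1.1).restrict (cb y R)ᶜ + (s.2 p).2).real (cb y R) < t + 2 * η + ε
      refine lt_of_eq_of_lt ?_ (h3 p).2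
      have e : (s.2 p).2 (cb y R) = (s.2 p).2 univ := by
        conv_rhs => rw [← (h2.poly p).restrict_compl_cb.2]
        rw [Measure.restrict_apply_univ]
      simp only [measureReal_def, Measure.add_apply, Measure.restrict_apply hm, inter_compl_self,
        measure_empty, zero_add, e]
  · rintro s ⟨⟨-, -, h3⟩, -⟩ p
    obtain ⟨h1, h2, -, h5, -⟩ := h3 p
    refine Prod.ext rfl (Prod.ext h1.symm (Prod.ext h2.symm ?_))
    exact glue _ _ h5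

theorem ifill {N : ℕ} {G W : Set ℂ} (hW : Convex ℝ W) {n : ℕ} (f : Sm n → Ms) {y : ℂ} {R : ℝ}
    (hy : Adm G (W ∩ cb y R) y) (Q : Sm n → ℝ → Ms) {𝓐 : Set (Sx (Sm n × ℝ))} (h𝓐 : PreCl 𝓐)
    (hc : 𝓐 ⊆ Cts _) {d₀ : Sm n × ℝ} (hd : ∀ k, (⟨k, fun _ => d₀⟩ : Sx (Sm n × ℝ)) ∈ 𝓐)
    (hC : Ctr 𝓐 d₀) {κ : Sm n × ℝ → Ms} (hκ : Fam (W ∩ cb y R) κ) {η : ℝ}
    (hη : ∀ d, (κ d).real univ ≤ η)
    (hb : ∀ s ∈ 𝓐, ∀ x, Par G (W ∩ cb y R)
      (fun z => bdy ((f (s.2 x).1).restrict (cb y R)) z + bdy (Q (s.2 x).1 (s.2 x).2) z)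
      (κ (s.2 x)))
    {e ε : ℝ} (he : 0 ≤ e) (hε : 0 < ε) :
    Bnd (HiI G W f y R Q 𝓐 e ∩ Dle _ N) (HiI G W f y R Q 𝓐 (e + 2 * η + ε)) := by
  have hW' : Convex ℝ (W ∩ cb y R) := hW.inter (convex_closedBall y R)
  have hA : Acyc N G (W ∩ cb y R) 0 0 := by
    have h := acyc_cone N hW' (fun i : Fin 0 => i.elim0) (fun i => i.elim0) hy
      (fun _ => ⟨0, rfl⟩)
    rw [Finset.sum_of_isEmpty] at h
    exact h.congr (fun _ _ => Iff.rfl) fun z _ _ => by simp [ind]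
  have key := fib h𝓐 hc hd hC hW'
    (β := fun d z => bdy ((f d.1).restrict (cb y R)) z + bdy (Q d.1 d.2) z) (β₀ := 0)
    hκ hη (fun s hs x z hz hG => by simpa using hb s hs x z hz hG) hA he hε
  refine bnd_transfer (fun q : Sm n × Fb => ((q.1, q.2.1), q.2.2.1))
    (fun q : (Sm n × ℝ) × Ms => (q.1.1, (q.1.2, q.2,
      (f q.1.1).restrict (cb y R)ᶜ + Q q.1.1 q.1.2 + q.2))) ?_ ?_ ?_ key
  · rintro s ⟨⟨h1, h2, h3⟩, hN⟩
    exact ⟨⟨h1, h2, fun p => ⟨(h3 p).1, (h3 p).2.1⟩⟩, hN⟩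
  · rintro s ⟨h1, h2, h3⟩
    exact ⟨h1, h2, fun p => ⟨(h3 p).1, (h3 p).2, rfl⟩⟩
  · rintro s ⟨⟨-, -, h3⟩, -⟩ p
    exact Prod.ext rfl (Prod.ext rfl (Prod.ext rfl (h3 p).2.2.symm))

end Pool.Agent.MP_20201c_gt.H91
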