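import Pool.Agent.MP_20201c_gt.H91.NetAlg
import Pool.Agent.MP_20201c_gt.H91.Dec

/-! The length of an almost reflective network over an almost flat boundary. -/

open MeasureTheory Set Filter Topology
open scoped ENNReal

namespace Pool.Agent.MP_20201c_gt.H91

theorem west_sq (u v : ℂ) : dt u v ^ 2 + ip u v ^ 2 = ‖u‖ ^ 2 * ‖v‖ ^ 2 := by
  rw [Complex.sq_norm, Complex.sq_norm, Complex.normSq_apply, Complex.normSq_apply]
  unfold dt ip
  ring

theorem west_unit {x h ξ ε : ℝ} (hxh : x ^ 2 + h ^ 2 = 1) (hξ : |ξ| ≤ 1) (hε : |ξ - x| ≤ ε) :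
    1 ≤ x * ξ + |h| * √(1 - ξ ^ 2) + (ε + √(2 * ε)) := by
  have hx : |x| ≤ 1 := by
    rw [← sq_le_one_iff_abs_le_one]; nlinarith [sq_nonneg h]
  have hh : |h| ≤ 1 := by
    rw [← sq_le_one_iff_abs_le_one]; nlinarith [sq_nonneg x]
  have hε0 : 0 ≤ ε := (abs_nonneg _).trans hε
  have h1 : x * (x - ξ) ≤ ε := by
    calc x * (x - ξ) ≤ |x * (x - ξ)| := le_abs_self _
      _ = |x| * |ξ - x| := by rw [abs_mul, abs_sub_comm]
      _ ≤ 1 * ε := mul_le_mul hx hε (abs_nonneg _) zero_le_one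
      _ = ε := one_mul _
  have h2 : ξ ^ 2 - x ^ 2 ≤ 2 * ε := by
    calc ξ ^ 2 - x ^ 2 = (ξ + x) * (ξ - x) := by ring
      _ ≤ |(ξ + x) * (ξ - x)| := le_abs_self _
      _ = |ξ + x| * |ξ - x| := abs_mul _ _
      _ ≤ 2 * ε := mul_le_mul ((abs_add_le _ _).trans (by linarith)) hε (abs_nonneg _) zero_le_two
  have hs : 0 ≤ 1 - ξ ^ 2 := by
    have := (sq_le_one_iff_abs_le_one ξ).2 hξ
    linarith
  have h3 : |h| ≤ √(1 - ξ ^ 2) + √(2 * ε) := by
    refine abs_le_of_sq_le_sq' ?_ (by positivity) |> fun t => abs_le.2 t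
    have e1 := Real.sq_sqrt hs
    have e2 := Real.sq_sqrt (by positivity : 0 ≤ 2 * ε)
    have e3 : 0 ≤ √(1 - ξ ^ 2) * √(2 * ε) := by positivity
    nlinarith
  have h4 : |h| * |h| ≤ |h| * (√(1 - ξ ^ 2) + √(2 * ε)) :=
    mul_le_mul_of_nonneg_left h3 (abs_nonneg _)
  have h5 : |h| * √(2 * ε) ≤ 1 * √(2 * ε) := mul_le_mul_of_nonneg_right hh (by positivity)
  have h6 : |h| * |h| = h ^ 2 := by rw [abs_mul_abs_self]; ring
  nlinarith

theorem west_cs {ξ A B : ℝ} (hξ : |ξ| ≤ 1) : ξ * A + √(1 - ξ ^ 2) * B ≤ √(A ^ 2 + B ^ 2) := by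
  have hs : 0 ≤ 1 - ξ ^ 2 := by
    have := (sq_le_one_iff_abs_le_one ξ).2 hξ
    linarith
  have e1 := Real.sq_sqrt hs
  refine Real.le_sqrt_of_sq_le ?_
  nlinarith [sq_nonneg (ξ * B - √(1 - ξ ^ 2) * A)]

theorem west {m : ℕ} {a b : Fin m → ℂ} (hne : ∀ e, a e ≠ b e) {y₀ : ℂ} {R : ℝ}
    (hW : ∀ δ, dpos a b δ ∈ cb y₀ R) {nn : ℂ} (hn : ‖nn‖ = 1) {n : ℕ} {p : Fin n → ℂ}
    (hi : Function.Injective p) (hP : ∀ i, (En a b (p i)).card = 1)
    {σ : Fin m × Bool → Fin m × Bool} (hσ : Function.Involutive σ) {η β : ℝ} (hη : 0 ≤ η)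
    (hβ : 0 ≤ β)
    (h : ∀ δ, dpos a b (σ δ) = dpos a b δ ∧ (dpos a b δ ∉ range p →
      |dt nn (ddir a b δ) + dt nn (ddir a b (σ δ))| ≤ η ∧ |ip nn (dpos a b δ - y₀)| ≤ β * R)) :
    ∃ π : Fin n → Fin n, Function.Involutive π ∧ ∑ e, ‖b e - a e‖ ≤
      (∑ i, pv y₀ nn (p i) (p (π i))) / 2 +
        (2 * m * (2 * m * η + √(4 * m * η)) + 2 * m * β) * R := by
  classical
  rcases isEmpty_or_nonempty (Fin m) with hm | ⟨⟨e₀⟩⟩
  · refine ⟨id, fun _ => rfl, ?_⟩
    have hm0 : m = 0 := by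
      rcases m with _ | m
      · rfl
      · exact (hm.false 0).elim
    subst hm0
    have : 0 ≤ ∑ i, pv y₀ nn (p i) (p (id i)) := Finset.sum_nonneg fun i _ => Real.sqrt_nonneg _
    simp only [Finset.univ_eq_empty, Finset.sum_empty, Nat.cast_zero, mul_zero, zero_mul, add_zero]
    linarith
  have hR : 0 ≤ R := dist_nonneg.trans (Metric.mem_closedBall.1 (hW (e₀, false)))
  have hd : ∀ i, ∃ d, ∀ δ, dpos a b δ = p i ↔ δ = d := by
    intro i
    have h1 := hP i
    unfold En at h1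
    rw [Multiset.card_map, ← Finset.card_def, Finset.card_eq_one] at h1
    obtain ⟨d, hd⟩ := h1
    refine ⟨d, fun δ => ?_⟩
    rw [← Finset.mem_singleton (a := d), ← hd, Finset.mem_filter]
    simp
  choose d hd using hd
  have hdp : ∀ i, dpos a b (d i) = p i := fun i => (hd i _).2 rfl
  have hdi : Function.Injective d := fun i j hij => hi (by rw [← hdp, ← hdp, hij])
  have hfl : Function.Involutive (flip : Fin m × Bool → Fin m × Bool) := fun δ => by
    simp [flip]
  have hfn : ∀ δ : Fin m × Bool, flip δ ≠ δ := fun δ hδ => by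
    have := congrArg Prod.snd hδ
    simp [flip] at this
  have hsq : ∀ δ, dt nn (ddir a b δ) ^ 2 + ip nn (ddir a b δ) ^ 2 = 1 := fun δ => by
    rw [west_sq, hn, norm_ddir hne]; norm_num
  obtain ⟨ξ, πD, hπ, hξ⟩ := xi flip σ hfl hfn hσ {δ | dpos a b δ ∈ range p}
    (fun δ ⟨i, hi⟩ => by
      rw [(hd i _).1 hi.symm]
      exact (hd i _).1 (by rw [(h _).1, hdp]))
    (fun δ => dt nn (ddir a b δ))
    (fun δ => by
      rw [← sq_le_one_iff_abs_le_one]
      nlinarith [hsq δ, sq_nonneg (ip nn (ddir a b δ))])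
    (fun δ => by rw [ddir_flip]; simp only [dt, Complex.neg_re, Complex.neg_im]; ring) hη
    (fun δ hδ => ((h δ).2 hδ).1)
  have hπ' : ∀ i, ∃ j, d j = πD (d i) := by
    intro i
    obtain ⟨j, hj⟩ := ((hξ (d i)).2.2.1 ⟨i, (hdp i).symm⟩).1
    exact ⟨j, ((hd j _).1 hj.symm).symm⟩
  choose π hπ' using hπ'
  have hπi : Function.Involutive π := fun i => hdi (by rw [hπ', hπ', hπ])
  refine ⟨π, hπi, ?_⟩
  set F : Fin m × Bool → ℝ := fun δ => -(dt nn (dpos a b δ) * ξ δ) +
    |ip nn (dpos a b δ - y₀)| * √(1 - ξ δ ^ 2) with hF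
  have hc : (Fintype.card (Fin m × Bool) : ℝ) = 2 * m := by
    simp [mul_comm]
  have h1 : ∀ e, ‖b e - a e‖ ≤ F (e, false) + F (e, true) +
      2 * R * (2 * m * η + √(4 * m * η)) := by
    intro e
    have hl : ‖b e - a e‖ ≤ 2 * R := by
      have ha := Metric.mem_closedBall.1 (hW (e, false))
      have hb := Metric.mem_closedBall.1 (hW (e, true))
      have := dist_triangle_right (dpos a b (e, true)) (dpos a b (e, false)) y₀
      rw [dist_eq_norm] at this
      simp only [dpos] at this ha hb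
      simp at this ha hb
      linarith
    have hu := west_unit (hsq (e, false)) (hξ (e, false)).2.2.2.1 (hξ (e, false)).2.2.2.2
    rw [hc, show 2 * (2 * (m : ℝ) * η) = 4 * m * η by ring] at hu
    have hp := dpos_flip (a := a) (b := b) (e, false)
    have hf := (hξ (e, false)).1
    have e0 : flip (e, false) = (e, true) := rfl
    rw [e0] at hp hf
    have hX : dt nn (dpos a b (e, true)) = dt nn (dpos a b (e, false)) +
        ‖b e - a e‖ * dt nn (ddir a b (e, false)) := by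
      rw [hp]; simp [dt]; ring
    have hH : ip nn (dpos a b (e, true) - y₀) = ip nn (dpos a b (e, false) - y₀) +
        ‖b e - a e‖ * ip nn (ddir a b (e, false)) := by
      rw [hp]; simp [ip]; ring
    have hH2 : ‖b e - a e‖ * |ip nn (ddir a b (e, false))| ≤
        |ip nn (dpos a b (e, false) - y₀)| + |ip nn (dpos a b (e, true) - y₀)| := by
      rw [← abs_of_nonneg (norm_nonneg (b e - a e)), ← abs_mul,
        show ‖b e - a e‖ * ip nn (ddir a b (e, false)) =
          ip nn (dpos a b (e, true) - y₀) - ip nn (dpos a b (e, false) - y₀) by linarith, add_comm]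
      exact abs_sub _ _
    simp only [hF]
    rw [hf, hX, neg_sq]
    have k1 := mul_le_mul_of_nonneg_left hu (norm_nonneg (b e - a e))
    have k2 := mul_le_mul_of_nonneg_right hH2 (Real.sqrt_nonneg (1 - ξ (e, false) ^ 2))
    have k3 := mul_le_mul_of_nonneg_right hl
      (by positivity : 0 ≤ 2 * m * η + √(4 * m * η))
    nlinarith
  have h2 : ∑ δ ∈ Finset.univ.filter (fun δ => dpos a b δ ∉ range p), F δ ≤ 2 * m * β * R := by
    simp only [hF]
    rw [Finset.sum_add_distrib, Finset.sum_involution (fun δ _ => σ δ) ?_ ?_ ?_ ?_, zero_add]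
    · calc _ ≤ ∑ δ ∈ Finset.univ.filter (fun δ => dpos a b δ ∉ range p), β * R := by
            refine Finset.sum_le_sum fun δ hδ => ?_
            have k1 := ((h δ).2 (Finset.mem_filter.1 hδ).2).2
            have k2 : √(1 - ξ δ ^ 2) ≤ 1 := Real.sqrt_le_one.2 (by nlinarith [sq_nonneg (ξ δ)])
            calc _ ≤ β * R * 1 := mul_le_mul k1 k2 (Real.sqrt_nonneg _) (by positivity)
              _ = β * R := mul_one _
        _ ≤ ∑ _δ : Fin m × Bool, β * R :=
            Finset.sum_le_sum_of_subset_of_nonneg (Finset.filter_subset _ _)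
              fun _ _ _ => by positivity
        _ = 2 * m * β * R := by
            rw [Finset.sum_const, Finset.card_univ, nsmul_eq_mul, hc]; ring
    · intro δ hδ
      rw [(h δ).1, (hξ δ).2.1 (Finset.mem_filter.1 hδ).2]
      ring
    · intro δ hδ h0 h3
      have := (hξ δ).2.1 (Finset.mem_filter.1 hδ).2
      rw [h3] at this
      exact h0 (by rw [show ξ δ = 0 by linarith]; simp)
    · intro δ hδ
      rw [Finset.mem_filter] at hδ ⊢
      exact ⟨Finset.mem_univ _, by rw [(h δ).1]; exact hδ.2⟩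
    · intro δ _
      exact hσ δ
  have h3 : ∑ δ ∈ Finset.univ.filter (fun δ => dpos a b δ ∈ range p), F δ = ∑ i, F (d i) := by
    rw [← Finset.sum_image (s := Finset.univ) (g := d) fun i _ j _ hij => hdi hij]
    refine Finset.sum_congr ?_ fun _ _ => rfl
    ext δ
    simp only [Finset.mem_filter, Finset.mem_univ, true_and, Finset.mem_image, mem_range]
    exact ⟨fun ⟨i, hi⟩ => ⟨i, ((hd i _).1 hi.symm).symm⟩, fun ⟨i, hi⟩ => ⟨i, by rw [← hi, hdp]⟩⟩
  have h4 : 2 * ∑ i, F (d i) ≤ ∑ i, pv y₀ nn (p i) (p (π i)) := by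
    rw [two_mul]
    nth_rewrite 2 [← Equiv.sum_comp hπi.toPerm]
    rw [← Finset.sum_add_distrib]
    refine Finset.sum_le_sum fun i _ => ?_
    have k1 : ξ (d (π i)) = -ξ (d i) := by
      rw [hπ']; exact ((hξ (d i)).2.2.1 ⟨i, (hdp i).symm⟩).2
    have k2 := west_cs (ξ := -ξ (d i)) (A := dt nn (p i - p (π i)))
      (B := |ip nn (p i - y₀)| + |ip nn (p (π i) - y₀)|)
      (by rw [abs_neg]; exact (hξ (d i)).2.2.2.1)
    have k3 : dt nn (p i - p (π i)) = dt nn (p i) - dt nn (p (π i)) := by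
      simp [dt]; ring
    simp only [hF, Function.Involutive.coe_toPerm, hdp, k1, pv]
    rw [neg_sq] at k2 ⊢
    refine le_trans (le_of_eq ?_) k2
    rw [k3]
    ring
  have h5 : ∑ e, (F (e, false) + F (e, true)) = ∑ δ, F δ := by
    rw [Fintype.sum_prod_type]
    simp [add_comm]
  have h6 := Finset.sum_filter_add_sum_filter_not Finset.univ (fun δ => dpos a b δ ∈ range p) F
  have h7 := Finset.sum_le_sum fun e (_ : e ∈ Finset.univ) => h1 e
  rw [Finset.sum_add_distrib, h5, Finset.sum_const, Finset.card_univ, Fintype.card_fin,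
    nsmul_eq_mul] at h7
  nlinarith

end Pool.Agent.MP_20201c_gt.H91
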